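import Mathlib

/-!
# MP_2c424f_pr: library of SharpThreshold and BoundaryThreshold (merged): merged library part M01

Concatenation of smaller files (each in its own section), only to save build time.
-/

/-! ### from `Lib_MP_2c424f_lo.Defs` -/

section

/-!
# MP_2c424f_pr: long-range order on the torus, definitions

Proper `q`-colourings of the torus `(ℤ/2^k)^d`; blocks of side `2`; the coding weights.
-/

set_option autoImplicit false

open Finset

namespace Pool.Agent.LO

/-! ## The torus -/

/-- sites of the torus of side `2^k` -/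
abbrev Site (d k : ℕ) := Fin d → ZMod (2 ^ k)

/-- the `2 d` steps: `(j, true)` is `+e_j`, `(j, false)` is `-e_j` -/
abbrev Stp (d : ℕ) := Fin d × Bool

/-- the vector of a step -/
def sv {d k : ℕ} (σ : Stp d) : Site d k := Pi.single σ.1 (if σ.2 then 1 else -1)

/-- even sites -/
def evn {d k : ℕ} (x : Site d k) : Prop := Even (∑ i, (x i).val)

open scoped Classical in
/-- the finset of even sites -/
noncomputable def evs (d k : ℕ) : Finset (Site d k) := univ.filter fun x => evn x

open scoped Classical in
/-- the finset of odd sites -/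
noncomputable def ods (d k : ℕ) : Finset (Site d k) := univ.filter fun x => ¬ evn x

/-- number of sites, as a real number -/
noncomputable def NN (d k : ℕ) : ℝ := ((2 : ℝ) ^ k) ^ d

/-- proper colourings -/
def Prp {d k q : ℕ} (f : Site d k → Fin q) : Prop := ∀ (x : Site d k) (σ : Stp d), f (x + sv σ) ≠ f x

open scoped Classical in
/-- the finset of the proper colourings -/
noncomputable def prps (d k q : ℕ) : Finset (Site d k → Fin q) := univ.filter fun f => Prp f

/-- number of proper colourings -/
noncomputable def ZZ (d k q : ℕ) : ℝ := ((prps d k q).card : ℝ)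

/-! ## Local statistics -/

section stat
variable {d k q : ℕ}

/-- colours seen by `v` -/
def SS (f : Site d k → Fin q) (v : Site d k) : Finset (Fin q) :=
  univ.image fun σ : Stp d => f (v + sv σ)

/-- number of colours available at `v` -/
def av (f : Site d k → Fin q) (v : Site d k) : ℕ := q - (SS f v).card

/-- `1` if `v` does not see the colour `c` -/
noncomputable def zz (f : Site d k → Fin q) (v : Site d k) (c : Fin q) : ℝ := if c ∈ SS f v then 0 else 1

/-- number of neighbours of `v` with colour `c` -/
def yy (f : Site d k → Fin q) (v : Site d k) (c : Fin q) : ℕ :=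
  (univ.filter fun σ : Stp d => f (v + sv σ) = c).card

/-- proportion of neighbours of `u` which do not see `c` -/
noncomputable def mm (f : Site d k → Fin q) (u : Site d k) (c : Fin q) : ℝ :=
  (∑ σ : Stp d, zz f (u + sv σ) c) / (2 * d)

/-- interface functional -/
noncomputable def II (f : Site d k → Fin q) (c : Fin q) : ℝ :=
  ∑ u ∈ evs d k, mm f u c * (1 - mm f u c)

/-- rare colour functional -/
noncomputable def QQ (f : Site d k → Fin q) (c : Fin q) : ℝ :=
  ∑ v ∈ ods d k, if yy f v c = 0 then 0 else (1 / 2 : ℝ) ^ yy f v c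

end stat

/-! ## The chord of the logarithm -/

/-- `⌊q/2⌋` -/
def q1 (q : ℕ) : ℕ := q / 2

/-- `⌈q/2⌉` -/
def q2 (q : ℕ) : ℕ := q - q / 2

open scoped Classical in
/-- slope -/
noncomputable def sl (q : ℕ) : ℝ := if Even q then 1 / (q1 q : ℝ) else Real.log ((q2 q : ℝ) / (q1 q : ℝ))

/-- the tangent (`q` even) or chord (`q` odd) of the logarithm at `q/2` -/
noncomputable def ell (q : ℕ) (t : ℝ) : ℝ := Real.log (q1 q) + sl q * (t - q1 q)

/-- error coefficient for noninteger arguments (`0` for even `q`) -/
noncomputable def kp (q : ℕ) : ℝ := 1 / (q1 q : ℝ) - 1 / (q2 q : ℝ)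

/-- the admissible values of `q` -/
def Adm (d q : ℕ) : Prop := 2 ≤ q ∧ (Even q ∨ 41 ≤ q) ∧ (q : ℝ) * (1000 * Real.log d) ≤ d

/-- the loss of a colouring -/
noncomputable def Loss {d k q : ℕ} (f : Site d k → Fin q) : ℝ :=
  1 / (6 * (q : ℝ)) * ∑ c, (II f c + QQ f c) + ∑ v ∈ ods d k, (ell q (av f v) - Real.log (av f v))

/-! ## The code -/

section code
variable {d k q : ℕ}

open scoped Classical in
/-- `1` if no neighbour of `v` in `R` has colour `c` -/
noncomputable def UU (f : Site d k → Fin q) (R : Finset (Site d k)) (v : Site d k) (c : Fin q) : ℝ :=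
  if ∃ σ : Stp d, v + sv σ ∈ R ∧ f (v + sv σ) = c then 0 else 1

/-- proportion of neighbours of `u` with no neighbour in `R` coloured `c` -/
noncomputable def nn (f : Site d k → Fin q) (R : Finset (Site d k)) (u : Site d k) (c : Fin q) : ℝ :=
  (∑ σ : Stp d, UU f R (u + sv σ) c) / (2 * d)

/-- weight function -/
noncomputable def gg (ε n : ℝ) : ℝ := (1 - n) ^ 2 + ε

/-- total weight at `u` -/
noncomputable def aa (ε : ℝ) (f : Site d k → Fin q) (R : Finset (Site d k)) (u : Site d k) : ℝ :=
  ∑ c, gg ε (nn f R u c)

/-- coefficients of the linear code -/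
def kap (i j : Fin d) : ℕ := (j.val + (d - i.val)) % d

/-- the linear code, values mod `2^s` -/
def hh (s : ℕ) (i : Fin d) (x : Site d k) : ZMod (2 ^ s) :=
  ∑ j, ((kap i j * (x j).val : ℕ) : ZMod (2 ^ s))

/-- the direction with coefficient `t` -/
def jj (i : Fin d) (t : ℕ) : Fin d := ⟨(i.val + t) % d, Nat.mod_lt _ i.pos⟩

/-- the step which changes the code by `t` -/
def sg (s : ℕ) (i : Fin d) (t : ZMod (2 ^ s)) : Stp d :=
  if t.val < d then (jj i t.val, true) else (jj i (2 ^ s - t.val), false)

/-- the neighbour of `u` on the code lines with value `a` -/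
def vv (s : ℕ) (i : Fin d) (a : ZMod (2 ^ s)) (u : Site d k) : Site d k :=
  u + sv (sg s i (a - hh s i u))

/-- cost of a transition -/
noncomputable def cst (ε : ℝ) (A B : Finset (Fin q)) : ℝ :=
  ((symmDiff A B).card : ℝ) * Real.log (1 / ε) + ((q : ℝ) - (symmDiff A B).card) * Real.log (1 / (1 - ε))

open scoped Classical in
/-- the cost of the sets `SS f v` along the lines -/
noncomputable def T1 (ε : ℝ) (s : ℕ) (f : Site d k → Fin q) (i : Fin d) (a : ZMod (2 ^ s)) : ℝ :=
  ∑ v ∈ (ods d k).filter (fun v => hh s i v = a),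
    if (v i).val < 2 then (q : ℝ) * Real.log 2
    else cst ε (SS f v) (SS f (v + sv (i, false) + sv (i, false)))

open scoped Classical in
/-- the cost of the colours on `R` -/
noncomputable def T2 (s : ℕ) (f : Site d k → Fin q) (i : Fin d) (a : ZMod (2 ^ s))
    (R : Finset (Site d k)) : ℝ :=
  ∑ u ∈ (evs d k).filter (fun u => u ∈ R), Real.log ((SS f (vv s i a u)).card)

open scoped Classical in
/-- the cost of the colours on the other even sites -/
noncomputable def T3 (ε : ℝ) (f : Site d k → Fin q) (R : Finset (Site d k)) : ℝ :=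
  ∑ u ∈ (evs d k).filter (fun u => u ∉ R),
    (Real.log (aa ε f R u) - Real.log (gg ε (nn f R u (f u))))

/-- the cost of the colours on the odd sites -/
noncomputable def T4 (f : Site d k → Fin q) : ℝ := ∑ v ∈ ods d k, Real.log (av f v)

/-- total code length -/
noncomputable def TT (ε : ℝ) (s : ℕ) (f : Site d k → Fin q) (i : Fin d) (a : ZMod (2 ^ s))
    (R : Finset (Site d k)) : ℝ :=
  T1 ε s f i a + T2 s f i a R + T3 ε f R + T4 f

/-- average over all sets of sites -/
noncomputable def ER (F : Finset (Site d k) → ℝ) : ℝ :=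
  (∑ R : Finset (Site d k), F R) / 2 ^ Fintype.card (Site d k)

open scoped Classical in
/-- `E ∑_{u ∉ R} ∑_c n (1 - n)` -/
noncomputable def G1 (f : Site d k → Fin q) : ℝ :=
  ER fun R => ∑ u ∈ (evs d k).filter (fun u => u ∉ R), ∑ c, nn f R u c * (1 - nn f R u c)

open scoped Classical in
/-- `E ∑_{u ∉ R} ∑_c (n - m)` -/
noncomputable def G2 (f : Site d k → Fin q) : ℝ :=
  ER fun R => ∑ u ∈ (evs d k).filter (fun u => u ∉ R), ∑ c, (nn f R u c - mm f u c)

open scoped Classical in
/-- the cost of violations -/
noncomputable def KK (ε : ℝ) (f : Site d k → Fin q) : ℝ :=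
  ER fun R => ∑ u ∈ (evs d k).filter (fun u => u ∉ R), -Real.log (gg ε (nn f R u (f u)))

end code

/-! ## Blocks -/

/-- blocks of side `2` of the torus of side `2^(k+1)` -/
abbrev Blk (d k : ℕ) := Fin d → ZMod (2 ^ k)

/-- bit vectors -/
abbrev Bt (d : ℕ) := Fin d → Bool

section block
variable {d k q : ℕ}

/-- the smallest corner of a block -/
def bas (t : Blk d k) : Site d (k + 1) := fun i => ((2 * (t i).val : ℕ) : ZMod (2 ^ (k + 1)))

/-- a bit vector as a vector -/
def bv (a : Bt d) : Site d (k + 1) := fun i => if a i then 1 else 0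

/-- a point of the closed block -/
def pt (t : Blk d k) (a b : Bt d) : Site d (k + 1) := bas t + bv a + bv b

/-- the step `σ` does not leave the block at the point given by `a`, `b` -/
def alw (a b : Bt d) (σ : Stp d) : Prop :=
  if σ.2 then ¬ (a σ.1 = true ∧ b σ.1 = true) else (a σ.1 = true ∨ b σ.1 = true)

/-- the point given by `a`, `b` is odd -/
def od (a b : Bt d) : Prop := Odd (univ.filter fun i => a i ≠ b i).card

/-- flip one bit -/
def flp (a : Bt d) (j : Fin d) : Bt d := Function.update a j (!a j)

open scoped Classical in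
/-- `1` if no neighbour inside the block has colour `c` -/
noncomputable def zb (f : Site d (k + 1) → Fin q) (t : Blk d k) (a b : Bt d) (c : Fin q) : ℝ :=
  if ∀ σ : Stp d, alw a b σ → f (pt t a b + sv σ) ≠ c then 1 else 0

open scoped Classical in
/-- the same, neighbours in direction `j` are ignored -/
noncomputable def zj (f : Site d (k + 1) → Fin q) (t : Blk d k) (a b : Bt d) (c : Fin q) (j : Fin d) : ℝ :=
  if ∀ σ : Stp d, σ.1 ≠ j → alw a b σ → f (pt t a b + sv σ) ≠ c then 1 else 0

open scoped Classical in
/-- twice the average over the odd points of the block -/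
noncomputable def EB (F : Bt d → Bt d → ℝ) : ℝ :=
  2 * (∑ a, ∑ b, if od a b then F a b else 0) / 4 ^ d

/-- block mean of `zb` -/
noncomputable def mb (f : Site d (k + 1) → Fin q) (t : Blk d k) (c : Fin q) : ℝ :=
  EB fun a b => zb f t a b c

/-- block mean of `zj` -/
noncomputable def mj (f : Site d (k + 1) → Fin q) (t : Blk d k) (c : Fin q) (j : Fin d) : ℝ :=
  EB fun a b => zj f t a b c j

/-- block mean of `zz` -/
noncomputable def mt (f : Site d (k + 1) → Fin q) (t : Blk d k) (c : Fin q) : ℝ :=
  EB fun a b => zz f (pt t a b) c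

open scoped Classical in
/-- block density of the colour `c` on odd points -/
noncomputable def Mb (f : Site d (k + 1) → Fin q) (t : Blk d k) (c : Fin q) : ℝ :=
  EB fun a b => if f (pt t a b) = c then 1 else 0

/-- `δ = 1/(100 q)` -/
noncomputable def dl (q : ℕ) : ℝ := 1 / (100 * (q : ℝ))

/-- label `1`: `c` is seen by almost no odd point -/
def lab1 (f : Site d (k + 1) → Fin q) (t : Blk d k) (c : Fin q) : Prop := 1 - dl q ≤ mb f t c

/-- label `0`: `c` is seen by almost all odd points -/
def lab0 (f : Site d (k + 1) → Fin q) (t : Blk d k) (c : Fin q) : Prop := ∀ j, mj f t c j ≤ dl q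

/-- bad block -/
def bad (c : Fin q) (t : Blk d k) (f : Site d (k + 1) → Fin q) : Prop := ¬ lab1 f t c ∧ ¬ lab0 f t c

/-! ## Reflections -/

/-- reflection of blocks in the planes before and after the block column `α` (direction `j`) -/
def rb (j : Fin d) (α : ZMod (2 ^ k)) (t : Blk d k) : Blk d k := Function.update t j (2 * α - 1 - t j)

/-- the corresponding reflection of sites -/
def rs (j : Fin d) (α : ZMod (2 ^ k)) (x : Site d (k + 1)) : Site d (k + 1) :=
  Function.update x j (((4 * α.val : ℕ) : ZMod (2 ^ (k + 1))) - x j)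

/-- left half -/
def lft (j : Fin d) (α : ZMod (2 ^ k)) (t : Blk d k) : Prop := (t j - α).val < 2 ^ (k - 1)

open scoped Classical in
/-- symmetrised set of blocks (left half) -/
noncomputable def syL (j : Fin d) (α : ZMod (2 ^ k)) (Γ : Finset (Blk d k)) : Finset (Blk d k) :=
  Γ.filter (fun t => lft j α t) ∪ (Γ.filter (fun t => lft j α t)).image (rb j α)

open scoped Classical in
/-- symmetrised set of blocks (right half) -/
noncomputable def syR (j : Fin d) (α : ZMod (2 ^ k)) (Γ : Finset (Blk d k)) : Finset (Blk d k) :=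
  Γ.filter (fun t => ¬ lft j α t) ∪ (Γ.filter (fun t => ¬ lft j α t)).image (rb j α)

open scoped Classical in
/-- number of proper colourings for which the event holds in all blocks of `Γ` -/
noncomputable def cE (E : Blk d k → (Site d (k + 1) → Fin q) → Prop) (Γ : Finset (Blk d k)) : ℝ :=
  (((prps d (k + 1) q).filter fun f => ∀ t ∈ Γ, E t f).card : ℝ)

end block

end Pool.Agent.LO

end
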