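import Pool.Agent.Lib_MP_2c424f_ms.M01

/-!
# MP_2c424f_pr: library of SharpThreshold and BoundaryThreshold (merged): merged library part M02

Concatenation of smaller files (each in its own section), only to save build time.
-/

namespace Pool.Agent.LO
end Pool.Agent.LO

namespace Pool.Agent.LIN
end Pool.Agent.LIN

/-! ### from `Lib_MP_2c424f_lo.Basic` -/

section

/-!
# Torus basics (piece BASIC)
-/

set_option autoImplicit false

open Finset

namespace Pool.Agent.LO

variable {d k q : ℕ}

/-- number of sites -/
theorem card_site (d k : ℕ) : (Fintype.card (Site d k) : ℝ) = NN d k := by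
  unfold NN
  rw [Fintype.card_fun, ZMod.card, Fintype.card_fin]
  push_cast
  rfl

/-- opposite step -/
theorem sv_opp (j : Fin d) (b : Bool) : (sv (j, b) : Site d k) + sv (j, !b) = 0 := by
  unfold sv
  rw [← Pi.single_add]
  cases b <;> simp

/-- reduction mod `2` -/
private def prm (hk : 1 ≤ k) : ZMod (2 ^ k) →+* ZMod 2 :=
  ZMod.castHom (dvd_pow_self 2 (by omega : k ≠ 0)) (ZMod 2)

private theorem evn_iff_prm (hk : 1 ≤ k) (x : Site d k) : evn x ↔ ∑ i, prm hk (x i) = 0 := by
  unfold evn
  rw [← ZMod.natCast_eq_zero_iff_even]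
  have : ((∑ i, (x i).val : ℕ) : ZMod 2) = ∑ i, prm hk (x i) := by
    push_cast
    refine sum_congr rfl fun i _ => ?_
    have h := map_natCast (prm hk) (x i).val
    rw [ZMod.natCast_zmod_val] at h
    exact h.symm
  rw [this]

private theorem prm_sv (hk : 1 ≤ k) (σ : Stp d) : ∑ i, prm hk ((sv σ : Site d k) i) = 1 := by
  obtain ⟨j, b⟩ := σ
  rw [Finset.sum_eq_single j]
  · cases b
    · simp only [sv, Pi.single_eq_same]
      rw [if_neg (by simp), map_neg, map_one]
      decide
    · simp only [sv, Pi.single_eq_same, if_true, map_one]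
  · intro i _ hi
    simp only [sv]
    rw [Pi.single_eq_of_ne hi, map_zero]
  · intro h
    exact absurd (mem_univ j) h

/-- steps change the parity -/
theorem evn_step (hk : 1 ≤ k) (x : Site d k) (σ : Stp d) : evn (x + sv σ) ↔ ¬ evn x := by
  rw [evn_iff_prm hk, evn_iff_prm hk]
  have h : ∑ i, prm hk ((x + (sv σ : Site d k)) i) = ∑ i, prm hk (x i) + 1 := by
    rw [← prm_sv hk σ, ← sum_add_distrib]
    refine sum_congr rfl fun i _ => ?_
    rw [Pi.add_apply, map_add]
  rw [h]
  generalize ∑ i, prm hk (x i) = a
  revert a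
  decide

/-- translation by a step, odd to even -/
theorem sum_step (hk : 1 ≤ k) (σ : Stp d) (φ : Site d k → ℝ) :
    ∑ u ∈ evs d k, φ (u + sv σ) = ∑ v ∈ ods d k, φ v := by
  classical
  obtain ⟨j, b⟩ := σ
  refine Finset.sum_bij' (fun u _ => u + sv (j, b)) (fun v _ => v + sv (j, !b)) ?_ ?_ ?_ ?_ ?_
  · intro u hu
    simp only [evs, ods, mem_filter, mem_univ, true_and] at hu ⊢
    rw [evn_step hk]
    exact not_not.mpr hu
  · intro v hv
    simp only [evs, ods, mem_filter, mem_univ, true_and] at hv ⊢
    rw [evn_step hk]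
    exact hv
  · intro u _
    rw [add_assoc, sv_opp, add_zero]
  · intro v _
    rw [add_assoc, add_comm (sv (j, !b)), sv_opp, add_zero]
  · intro u _
    rfl

/-- translation by a step, even to odd -/
private theorem sum_step' (hk : 1 ≤ k) (σ : Stp d) (φ : Site d k → ℝ) :
    ∑ u ∈ ods d k, φ (u + sv σ) = ∑ v ∈ evs d k, φ v := by
  obtain ⟨j, b⟩ := σ
  rw [← sum_step hk (j, !b) (fun v => φ (v + sv (j, b)))]
  refine sum_congr rfl fun u _ => ?_
  rw [add_assoc, add_comm (sv (j, !b)), sv_opp, add_zero]

private theorem card_evs_eq (hd : 1 ≤ d) (hk : 1 ≤ k) : ((evs d k).card : ℝ) = (ods d k).card := by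
  have h := sum_step hk ((⟨0, hd⟩, true) : Stp d) (fun _ => (1 : ℝ))
  simpa using h

private theorem card_evs_add (d k : ℕ) : ((evs d k).card : ℝ) + (ods d k).card = NN d k := by
  classical
  rw [← card_site, ← Nat.cast_add]
  congr 1
  unfold evs ods
  rw [Finset.card_filter_add_card_filter_not]
  rfl

/-- half of the sites are even -/
theorem card_evs (hd : 1 ≤ d) (hk : 1 ≤ k) : ((evs d k).card : ℝ) = NN d k / 2 := by
  have h1 := card_evs_eq hd hk
  have h2 := card_evs_add d k
  linarith

/-- half of the sites are odd -/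
theorem card_ods (hd : 1 ≤ d) (hk : 1 ≤ k) : ((ods d k).card : ℝ) = NN d k / 2 := by
  have h1 := card_evs_eq hd hk
  have h2 := card_evs_add d k
  linarith

/-- double counting of edges -/
theorem sum_nbr (hk : 1 ≤ k) (F : Site d k → Site d k → ℝ) :
    ∑ u ∈ evs d k, ∑ σ : Stp d, F u (u + sv σ) = ∑ v ∈ ods d k, ∑ σ : Stp d, F (v + sv σ) v := by
  rw [sum_comm]
  rw [sum_comm (s := ods d k)]
  refine Finset.sum_bij' (fun σ _ => ((σ.1, !σ.2) : Stp d)) (fun σ _ => ((σ.1, !σ.2) : Stp d))
    (fun _ _ => mem_univ _) (fun _ _ => mem_univ _) ?_ ?_ ?_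
  · rintro ⟨j, b⟩ _
    simp
  · rintro ⟨j, b⟩ _
    simp
  · rintro ⟨j, b⟩ _
    rw [← sum_step hk (j, b) (fun v => F (v + sv (j, !b)) v)]
    refine sum_congr rfl fun u _ => ?_
    rw [add_assoc, sv_opp, add_zero]

private theorem natCast_ne_zero_of_lt (n : ℕ) (h0 : 0 < n) (h : n < 2 ^ k) : (n : ZMod (2 ^ k)) ≠ 0 := by
  intro hn
  rw [ZMod.natCast_eq_zero_iff] at hn
  exact absurd (Nat.le_of_dvd h0 hn) (by omega)

/-- the steps are distinct -/
theorem sv_inj (hk : 2 ≤ k) : Function.Injective (sv : Stp d → Site d k) := by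
  have h4 : 4 ≤ 2 ^ k := by
    calc 4 = 2 ^ 2 := by norm_num
      _ ≤ 2 ^ k := Nat.pow_le_pow_right (by norm_num) hk
  have h1 : ((1 : ℕ) : ZMod (2 ^ k)) ≠ 0 := natCast_ne_zero_of_lt 1 (by norm_num) (by omega)
  have h2 : ((2 : ℕ) : ZMod (2 ^ k)) ≠ 0 := natCast_ne_zero_of_lt 2 (by norm_num) (by omega)
  push_cast at h1 h2
  rintro ⟨i, a⟩ ⟨j, b⟩ h
  have hij : i = j := by
    by_contra hne
    have := congrFun h i
    simp only [sv, Pi.single_eq_same] at this
    rw [Pi.single_eq_of_ne hne] at this
    cases a
    · rw [if_neg (by simp)] at this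
      exact h1 (by linear_combination -this)
    · rw [if_pos rfl] at this
      exact h1 this
  subst hij
  have := congrFun h i
  simp only [sv, Pi.single_eq_same] at this
  cases a <;> cases b
  · rfl
  · exfalso
    simp only [if_true, Bool.false_eq_true, if_false] at this
    exact h2 (by linear_combination -this)
  · exfalso
    simp only [if_true, Bool.false_eq_true, if_false] at this
    exact h2 (by linear_combination this)
  · rfl

private theorem sv_at (i j : Fin d) (a b : Bool) :
    (sv (i, a) : Site d k) j = 0 ∨ (i = j ∧ a = b) ∨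
      (i = j ∧ (sv (i, a) : Site d k) j = - (if b then 1 else -1)) := by
  by_cases hij : i = j
  · subst hij
    by_cases hab : a = b
    · right; left; exact ⟨rfl, hab⟩
    · right; right
      refine ⟨rfl, ?_⟩
      simp only [sv, Pi.single_eq_same]
      cases a <;> cases b <;> simp_all
  · left
    simp only [sv]
    rw [Pi.single_eq_of_ne (Ne.symm hij)]

private theorem two_key (hk : 3 ≤ k) (p1 p2 r1 r2 : Stp d)
    (h : (sv p1 : Site d k) + sv p2 = sv r1 + sv r2) (hne : (sv r1 : Site d k) + sv r2 ≠ 0) :
    r1 = p1 ∨ r1 = p2 := by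
  by_contra hcon
  push Not at hcon
  obtain ⟨hc1, hc2⟩ := hcon
  obtain ⟨j, b⟩ := r1
  obtain ⟨i1, a1⟩ := p1
  obtain ⟨i2, a2⟩ := p2
  obtain ⟨i3, a3⟩ := r2
  have h8 : 8 ≤ 2 ^ k := by
    calc 8 = 2 ^ 3 := by norm_num
      _ ≤ 2 ^ k := Nat.pow_le_pow_right (by norm_num) hk
  have n1 := natCast_ne_zero_of_lt (k := k) 1 (by norm_num) (by omega)
  have n2 := natCast_ne_zero_of_lt (k := k) 2 (by norm_num) (by omega)
  have n3 := natCast_ne_zero_of_lt (k := k) 3 (by norm_num) (by omega)
  have n4 := natCast_ne_zero_of_lt (k := k) 4 (by norm_num) (by omega)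
  push_cast at n1 n2 n3 n4
  have hj := congrFun h j
  simp only [Pi.add_apply] at hj
  have hr1 : (sv (j, b) : Site d k) j = (if b then 1 else -1) := by
    simp only [sv, Pi.single_eq_same]
  have e1 : (sv (i1, a1) : Site d k) j = 0 ∨
      (sv (i1, a1) : Site d k) j = - (if b then 1 else -1) := by
    rcases sv_at (k := k) i1 j a1 b with h | h | h
    · left; exact h
    · exfalso; apply hc1; rw [h.1, h.2]
    · right; exact h.2
  have e2 : (sv (i2, a2) : Site d k) j = 0 ∨
      (sv (i2, a2) : Site d k) j = - (if b then 1 else -1) := by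
    rcases sv_at (k := k) i2 j a2 b with h | h | h
    · left; exact h
    · exfalso; apply hc2; rw [h.1, h.2]
    · right; exact h.2
  have e3 : (sv (i3, a3) : Site d k) j = 0 ∨ (sv (i3, a3) : Site d k) j = (if b then 1 else -1) := by
    rcases sv_at (k := k) i3 j a3 b with h | h | h
    · left; exact h
    · right
      rw [h.1, h.2]
      simp only [sv, Pi.single_eq_same]
    · exfalso
      apply hne
      obtain ⟨h1, h2⟩ := h
      subst h1
      have hab : a3 = !b := by
        simp only [sv, Pi.single_eq_same] at h2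
        cases a3 <;> cases b
        · exfalso
          simp only [Bool.false_eq_true, if_false] at h2
          exact n2 (by linear_combination -h2)
        · rfl
        · rfl
        · exfalso
          simp only [if_true] at h2
          exact n2 (by linear_combination h2)
      rw [hab]
      exact sv_opp i3 b
  rw [hr1] at hj
  rcases e1 with e1 | e1 <;> rcases e2 with e2 | e2 <;> rcases e3 with e3 | e3 <;>
    rw [e1, e2, e3] at hj <;> cases b
  all_goals simp only [if_true, Bool.false_eq_true, if_false] at hj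
  · exact n1 (by linear_combination hj)
  · exact n1 (by linear_combination -hj)
  · exact n2 (by linear_combination hj)
  · exact n2 (by linear_combination -hj)
  · exact n2 (by linear_combination hj)
  · exact n2 (by linear_combination -hj)
  · exact n3 (by linear_combination hj)
  · exact n3 (by linear_combination -hj)
  · exact n2 (by linear_combination hj)
  · exact n2 (by linear_combination -hj)
  · exact n3 (by linear_combination hj)
  · exact n3 (by linear_combination -hj)
  · exact n3 (by linear_combination hj)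
  · exact n3 (by linear_combination -hj)
  · exact n4 (by linear_combination hj)
  · exact n4 (by linear_combination -hj)

/-- two different even sites have at most two ways to be joined by two steps -/
theorem two_steps (hk : 3 ≤ k) (w : Site d k) (hw : w ≠ 0) :
    (univ.filter fun p : Stp d × Stp d => (sv p.1 : Site d k) + sv p.2 = w).card ≤ 2 := by
  classical
  rcases (univ.filter fun p : Stp d × Stp d => (sv p.1 : Site d k) + sv p.2 = w).eq_empty_or_nonempty
    with he | ⟨p, hp⟩
  · rw [he]; simp
  · have hp' : (sv p.1 : Site d k) + sv p.2 = w := (mem_filter.mp hp).2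
    have hinj := sv_inj (d := d) (k := k) (by omega)
    have hsub : (univ.filter fun p : Stp d × Stp d => (sv p.1 : Site d k) + sv p.2 = w) ⊆
        {p, (p.2, p.1)} := by
      intro r hr
      have hr' : (sv r.1 : Site d k) + sv r.2 = w := (mem_filter.mp hr).2
      rcases two_key hk p.1 p.2 r.1 r.2 (by rw [hp', hr']) (by rw [hr']; exact hw) with h | h
      · have h2 : r.2 = p.2 := by
          apply hinj
          have : (sv r.1 : Site d k) + sv r.2 = sv p.1 + sv p.2 := by rw [hp', hr']
          rw [h] at this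
          exact add_left_cancel this
        rw [mem_insert]
        left
        exact Prod.ext h h2
      · have h2 : r.2 = p.1 := by
          apply hinj
          have : (sv r.1 : Site d k) + sv r.2 = sv p.2 + sv p.1 := by
            rw [hr', add_comm (sv p.2), hp']
          rw [h] at this
          exact add_left_cancel this
        rw [mem_insert, mem_singleton]
        right
        exact Prod.ext h h2
    exact (card_le_card hsub).trans Finset.card_le_two

/-- the colour pattern -/
private noncomputable def pat (q : ℕ) (b : Prop) [Decidable b] : Finset (Fin q) :=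
  if b then univ.filter fun c => c.val < q1 q else univ.filter fun c => ¬ c.val < q1 q

private theorem card_pat_lt (q : ℕ) : (univ.filter fun c : Fin q => c.val < q1 q).card = q1 q := by
  rw [Fin.card_filter_val_lt]
  unfold q1
  exact min_eq_right (Nat.div_le_self q 2)

private theorem card_pat_ge (q : ℕ) : (univ.filter fun c : Fin q => ¬ c.val < q1 q).card = q2 q := by
  have h1 := Finset.card_filter_add_card_filter_not (s := (univ : Finset (Fin q)))
    (fun c : Fin q => c.val < q1 q)
  rw [card_pat_lt, card_univ, Fintype.card_fin] at h1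
  unfold q2
  unfold q1 at h1 ⊢
  omega

/-- pattern colourings -/
theorem ZZ_ge (hd : 1 ≤ d) (hk : 1 ≤ k) (hq : 2 ≤ q) :
    Real.exp (NN d k / 2 * Real.log ((q1 q : ℝ) * q2 q)) ≤ ZZ d k q := by
  classical
  have hq1 : 1 ≤ q1 q := by unfold q1; omega
  have hq2 : 1 ≤ q2 q := by unfold q2; omega
  have hsub : Fintype.piFinset (fun x : Site d k => pat q (evn x)) ⊆ prps d k q := by
    intro f hf
    rw [Fintype.mem_piFinset] at hf
    simp only [prps, mem_filter, mem_univ, true_and]
    intro x σ he
    have h1 := hf x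
    have h2 := hf (x + sv σ)
    have h3 := evn_step hk x σ
    rw [he] at h2
    unfold pat at h1 h2
    by_cases hx : evn x
    · rw [if_pos hx] at h1
      rw [if_neg (by rw [h3]; exact not_not.mpr hx)] at h2
      simp only [mem_filter, mem_univ, true_and] at h1 h2
      exact h2 h1
    · rw [if_neg hx] at h1
      rw [if_pos (h3.mpr hx)] at h2
      simp only [mem_filter, mem_univ, true_and] at h1 h2
      exact h1 h2
  have hcard : (Fintype.piFinset (fun x : Site d k => pat q (evn x))).card =
      q1 q ^ (evs d k).card * q2 q ^ (ods d k).card := by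
    rw [Fintype.card_piFinset]
    have : ∀ x : Site d k, (pat q (evn x)).card = if evn x then q1 q else q2 q := by
      intro x
      unfold pat
      split_ifs
      · exact card_pat_lt q
      · exact card_pat_ge q
    rw [Finset.prod_congr rfl (fun x _ => this x), Finset.prod_ite, Finset.prod_const, Finset.prod_const]
    rfl
  have hle : ((q1 q ^ (evs d k).card * q2 q ^ (ods d k).card : ℕ) : ℝ) ≤ ZZ d k q := by
    unfold ZZ
    rw [← hcard]
    exact_mod_cast card_le_card hsub
  refine le_trans (le_of_eq ?_) hle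
  have hp1 : (0 : ℝ) < q1 q := by exact_mod_cast hq1
  have hp2 : (0 : ℝ) < q2 q := by exact_mod_cast hq2
  push_cast
  rw [Real.log_mul hp1.ne' hp2.ne', mul_add]
  nth_rw 1 [← card_evs hd hk]
  rw [← card_ods hd hk, Real.exp_add, mul_comm ((evs d k).card : ℝ), mul_comm ((ods d k).card : ℝ),
    Real.exp_mul, Real.exp_mul, Real.exp_log hp1, Real.exp_log hp2, Real.rpow_natCast,
    Real.rpow_natCast]

end Pool.Agent.LO

end

/-! ### from `Lib_MP_2c424f_thr.N3a` -/

section

/-!
# THR N3a: number of functions with small support (paper proof: N1)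

For `0 < x ≤ 1`: the number is at most `x^(-2N/B) ∑_η x^|supp η| = x^(-2N/B) (1+2x)^N ≤ exp ((2N/B) log (1/x) + 2xN)`, `x = 1/B`.
-/

set_option autoImplicit false

open Finset Filter

namespace Pool.Agent.THR

open Pool.Agent.LO Pool.Agent.LIN

/-- the generating function of the support size -/
private theorem N3a_gen {S : Type*} [Fintype S] [DecidableEq S] (x : ℝ) :
    ∑ η : S → Fin 3, ∏ s, (if (η s).val ≠ 0 then x else 1) = (1 + 2 * x) ^ Fintype.card S := by
  have h := Finset.prod_univ_sum (fun _ : S => (univ : Finset (Fin 3)))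
    (fun _ v => if v.val ≠ 0 then x else (1 : ℝ))
  rw [Fintype.piFinset_univ] at h
  rw [← h, Finset.prod_const, Finset.card_univ]
  congr 1
  rw [Fin.sum_univ_three]
  simp
  ring

open scoped Classical in
/-- number of functions with small support -/
theorem net_card {d k : ℕ} (B : ℕ) (hB : 1 ≤ B) :
    (((univ : Finset (Site d k → Fin 3)).filter fun η =>
      ((univ.filter fun x => (η x).val ≠ 0).card : ℝ) ≤ 2 * NN d k / B).card : ℝ) ≤
      Real.exp (NN d k * (2 * Real.log B + 2) / B) := by
  have hB1 : (1 : ℝ) ≤ B := by exact_mod_cast hB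
  have hB0 : (0 : ℝ) < B := by linarith
  have hlog : 0 ≤ Real.log B := Real.log_nonneg hB1
  have hprod : ∀ η : Site d k → Fin 3,
      ∏ s, (if (η s).val ≠ 0 then (1 / (B : ℝ)) else 1) =
        (1 / (B : ℝ)) ^ (univ.filter fun x => (η x).val ≠ 0).card := by
    intro η
    rw [Finset.prod_ite, Finset.prod_const, Finset.prod_const_one, mul_one]
  have hone : ∀ η ∈ (univ : Finset (Site d k → Fin 3)).filter fun η =>
      ((univ.filter fun x => (η x).val ≠ 0).card : ℝ) ≤ 2 * NN d k / B,
      (1 : ℝ) ≤ Real.exp (2 * NN d k / B * Real.log B) *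
        ∏ s, (if (η s).val ≠ 0 then (1 / (B : ℝ)) else 1) := by
    intro η hη
    rw [Finset.mem_filter] at hη
    rw [hprod η]
    have e : (1 / (B : ℝ)) ^ (univ.filter fun x => (η x).val ≠ 0).card =
        Real.exp (-(((univ.filter fun x => (η x).val ≠ 0).card : ℝ) * Real.log B)) := by
      rw [Real.exp_neg, Real.exp_nat_mul, Real.exp_log hB0, one_div, inv_pow]
    rw [e, ← Real.exp_add]
    apply Real.one_le_exp
    have := mul_le_mul_of_nonneg_right hη.2 hlog
    linarith
  have hsum : (((univ : Finset (Site d k → Fin 3)).filter fun η =>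
      ((univ.filter fun x => (η x).val ≠ 0).card : ℝ) ≤ 2 * NN d k / B).card : ℝ) ≤
      Real.exp (2 * NN d k / B * Real.log B) * (1 + 2 * (1 / (B : ℝ))) ^ Fintype.card (Site d k) := by
    rw [← N3a_gen, Finset.mul_sum]
    calc _ = ∑ η ∈ (univ : Finset (Site d k → Fin 3)).filter (fun η =>
      ((univ.filter fun x => (η x).val ≠ 0).card : ℝ) ≤ 2 * NN d k / B), (1 : ℝ) := by simp
      _ ≤ ∑ η ∈ (univ : Finset (Site d k → Fin 3)).filter (fun η =>
      ((univ.filter fun x => (η x).val ≠ 0).card : ℝ) ≤ 2 * NN d k / B),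
        Real.exp (2 * NN d k / B * Real.log B) *
        ∏ s, (if (η s).val ≠ 0 then (1 / (B : ℝ)) else 1) := Finset.sum_le_sum hone
      _ ≤ _ := by
        apply Finset.sum_le_sum_of_subset_of_nonneg (Finset.filter_subset _ _)
        intro η _ _
        refine mul_nonneg (Real.exp_nonneg _) (Finset.prod_nonneg fun s _ => ?_)
        split_ifs
        · positivity
        · norm_num
  refine hsum.trans ?_
  have hpow : (1 + 2 * (1 / (B : ℝ))) ^ Fintype.card (Site d k) ≤ Real.exp (NN d k * (2 / B)) := by
    have h1 : 1 + 2 * (1 / (B : ℝ)) ≤ Real.exp (2 / B) := by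
      have := Real.add_one_le_exp (2 / (B : ℝ))
      have e : 2 * (1 / (B : ℝ)) = 2 / B := by ring
      rw [e]; linarith
    have h0 : 0 ≤ 1 + 2 * (1 / (B : ℝ)) := by positivity
    calc (1 + 2 * (1 / (B : ℝ))) ^ Fintype.card (Site d k)
        ≤ (Real.exp (2 / B)) ^ Fintype.card (Site d k) := pow_le_pow_left₀ h0 h1 _
      _ = Real.exp ((Fintype.card (Site d k) : ℝ) * (2 / B)) := by rw [Real.exp_nat_mul]
      _ = _ := by rw [card_site]
  calc Real.exp (2 * NN d k / B * Real.log B) * (1 + 2 * (1 / (B : ℝ))) ^ Fintype.card (Site d k)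
      ≤ Real.exp (2 * NN d k / B * Real.log B) * Real.exp (NN d k * (2 / B)) :=
        mul_le_mul_of_nonneg_left hpow (Real.exp_nonneg _)
    _ = Real.exp (NN d k * (2 * Real.log B + 2) / B) := by
        rw [← Real.exp_add]
        congr 1
        field_simp

end Pool.Agent.THR

end
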