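import Pool.Agent.Lib_MP_2c424f_ms.M01

/-!
# MP_2c424f_pr: library of SharpThreshold and BoundaryThreshold (merged): merged library part M04

Concatenation of smaller files (each in its own section), only to save build time.
-/

/-! ### from `Lib_MP_2c424f_lo.Cube` -/

section

/-!
# Poincaré inequality on the cube (piece CUBE)

For `F : {0,1}^d × {0,1}^d → {0,1}` with mean `p`: `p (1 - p) ≤ (1/4) ∑_bits P(F changes)`.
Induction for general `ι → Bool` and real valued `F`, with `(mean F)`-variance and `|·|^2`.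
-/

set_option autoImplicit false

open Finset

namespace Pool.Agent.LO

private theorem cube_sum_succ {n : ℕ} (G : Bt (n + 1) → ℝ) :
    ∑ a, G a = ∑ a : Bt n, G (Fin.cons false a) + ∑ a : Bt n, G (Fin.cons true a) := by
  have h : ∑ a, G a = ∑ p : Bool × Bt n, G (Fin.cons p.1 p.2) := by
    refine (Fintype.sum_equiv (Fin.insertNthEquiv (fun _ : Fin (n + 1) => Bool) 0) _ _ ?_).symm
    intro p
    congr 1
    simp only [Fin.insertNthEquiv, Equiv.coe_fn_mk, Fin.insertNth_zero']
  rw [h, Fintype.sum_prod_type, Fintype.sum_bool, add_comm]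

private theorem cube_flp_zero {n : ℕ} (b : Bool) (a : Bt n) :
    flp (Fin.cons b a : Bt (n + 1)) 0 = Fin.cons (!b) a := by
  unfold flp
  rw [Fin.cons_zero, Fin.update_cons_zero]

private theorem cube_flp_succ {n : ℕ} (b : Bool) (a : Bt n) (j : Fin n) :
    flp (Fin.cons b a : Bt (n + 1)) j.succ = Fin.cons b (flp a j) := by
  unfold flp
  rw [Fin.cons_succ, Fin.cons_update]

/-- Efron-Stein on the cube -/
private theorem cube_es (n : ℕ) (G : Bt n → ℝ) :
    2 ^ n * (∑ a, G a ^ 2) - (∑ a, G a) ^ 2 ≤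
      1 / 4 * (2 ^ n * ∑ j, ∑ a, (G (flp a j) - G a) ^ 2) := by
  induction n with
  | zero =>
    simp
  | succ n ih =>
    have i0 := ih (fun a => G (Fin.cons false a))
    have i1 := ih (fun a => G (Fin.cons true a))
    have hcs : (∑ a : Bt n, (G (Fin.cons false a) - G (Fin.cons true a))) ^ 2 ≤
        2 ^ n * ∑ a : Bt n, (G (Fin.cons false a) - G (Fin.cons true a)) ^ 2 := by
      have h := sq_sum_le_card_mul_sum_sq (s := (Finset.univ : Finset (Bt n)))
        (f := fun a => G (Fin.cons false a) - G (Fin.cons true a))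
      rw [Finset.card_univ, Fintype.card_fun, Fintype.card_bool, Fintype.card_fin] at h
      push_cast at h
      exact h
    rw [Finset.sum_sub_distrib] at hcs
    rw [cube_sum_succ, cube_sum_succ, Fin.sum_univ_succ]
    simp_rw [cube_sum_succ]
    simp_rw [cube_flp_zero, cube_flp_succ]
    simp only [Bool.not_false, Bool.not_true]
    rw [Finset.sum_add_distrib]
    have h2 : ∑ a : Bt n, (G (Fin.cons true a) - G (Fin.cons false a)) ^ 2 =
        ∑ a : Bt n, (G (Fin.cons false a) - G (Fin.cons true a)) ^ 2 := by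
      refine Finset.sum_congr rfl fun a _ => ?_
      ring
    rw [h2]
    rw [pow_succ (2 : ℝ) n]
    nlinarith

theorem poincare {d : ℕ} (F : Bt d → Bt d → ℝ) (hF : ∀ a b, F a b = 0 ∨ F a b = 1) :
    (∑ a, ∑ b, F a b) / 4 ^ d * (1 - (∑ a, ∑ b, F a b) / 4 ^ d) ≤
      1 / 4 * ((∑ j : Fin d, ∑ a, ∑ b, (|F (flp a j) b - F a b| + |F a (flp b j) - F a b|)) / 4 ^ d) := by
  have hsq : ∀ a b, F a b ^ 2 = F a b := by
    intro a b
    rcases hF a b with h | h <;> simp [h]
  have habs : ∀ a b a' b', (F a b - F a' b') ^ 2 = |F a b - F a' b'| := by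
    intro a b a' b'
    rcases hF a b with h | h <;> rcases hF a' b' with h' | h' <;> simp [h, h']
  -- inner variable
  have h1 : ∀ a, 2 ^ d * (∑ b, F a b) - (∑ b, F a b) ^ 2 ≤
      1 / 4 * (2 ^ d * ∑ j, ∑ b, |F a (flp b j) - F a b|) := by
    intro a
    have h := cube_es d (F a)
    simp_rw [hsq, habs] at h
    exact h
  have h1s : 2 ^ d * (∑ a, ∑ b, F a b) - ∑ a, (∑ b, F a b) ^ 2 ≤
      1 / 4 * (2 ^ d * ∑ j : Fin d, ∑ a, ∑ b, |F a (flp b j) - F a b|) := by
    have h := Finset.sum_le_sum fun a (_ : a ∈ (Finset.univ : Finset (Bt d))) => h1 a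
    rw [Finset.sum_sub_distrib, ← Finset.mul_sum, ← Finset.mul_sum, ← Finset.mul_sum] at h
    rw [Finset.sum_comm (s := (Finset.univ : Finset (Fin d)))]
    exact h
  -- outer variable
  have h2 := cube_es d (fun a => ∑ b, F a b)
  have h3 : ∀ a a', ((∑ b, F a b) - ∑ b, F a' b) ^ 2 ≤ 2 ^ d * ∑ b, |F a b - F a' b| := by
    intro a a'
    have h := sq_sum_le_card_mul_sum_sq (s := (Finset.univ : Finset (Bt d)))
      (f := fun b => F a b - F a' b)
    rw [Finset.card_univ, Fintype.card_fun, Fintype.card_bool, Fintype.card_fin] at h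
    push_cast at h
    rw [Finset.sum_sub_distrib] at h
    simp_rw [habs] at h
    exact h
  have h4 : ∑ j, ∑ a, ((∑ b, F (flp a j) b) - ∑ b, F a b) ^ 2 ≤
      2 ^ d * ∑ j : Fin d, ∑ a, ∑ b, |F (flp a j) b - F a b| := by
    rw [Finset.mul_sum]
    refine Finset.sum_le_sum fun j _ => ?_
    rw [Finset.mul_sum]
    exact Finset.sum_le_sum fun a _ => h3 _ _
  set S := ∑ a, ∑ b, F a b with hS
  set A := ∑ j : Fin d, ∑ a, ∑ b, |F (flp a j) b - F a b| with hA
  set B := ∑ j : Fin d, ∑ a, ∑ b, |F a (flp b j) - F a b| with hB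
  set T := ∑ a, (∑ b, F a b) ^ 2 with hT
  have hAB : (∑ j : Fin d, ∑ a, ∑ b, (|F (flp a j) b - F a b| + |F a (flp b j) - F a b|)) = A + B := by
    simp only [Finset.sum_add_distrib, hA, hB]
  rw [hAB]
  have h22 : (4 : ℝ) ^ d = 2 ^ d * 2 ^ d := by
    rw [← mul_pow]; norm_num
  have hpos : (0 : ℝ) < 2 ^ d := by positivity
  have h5 : 2 ^ d * T - S ^ 2 ≤ 1 / 4 * (2 ^ d * (2 ^ d * A)) := by
    refine h2.trans ?_
    have := mul_le_mul_of_nonneg_left h4 hpos.le
    linarith
  have h6 : 2 ^ d * (2 ^ d * S - T) ≤ 2 ^ d * (1 / 4 * (2 ^ d * B)) :=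
    mul_le_mul_of_nonneg_left h1s hpos.le
  have h7 : 4 ^ d * S - S ^ 2 ≤ 1 / 4 * (4 ^ d * (A + B)) := by
    rw [h22]
    nlinarith
  have h4p : (0 : ℝ) < 4 ^ d := by positivity
  have e1 : S / 4 ^ d * (1 - S / 4 ^ d) = (4 ^ d * S - S ^ 2) / (4 ^ d * 4 ^ d) := by
    field_simp
  have e2 : 1 / 4 * ((A + B) / 4 ^ d) = (1 / 4 * (4 ^ d * (A + B))) / (4 ^ d * 4 ^ d) := by
    field_simp
  rw [e1, e2]
  gcongr

private theorem cube_flp_flp {d : ℕ} (a : Bt d) (i : Fin d) : flp (flp a i) i = a := by
  unfold flp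
  simp

private theorem cube_sum_flp {d : ℕ} (i : Fin d) (G : Bt d → ℝ) :
    ∑ a, G (flp a i) = ∑ a, G a := by
  refine Fintype.sum_equiv ⟨fun a => flp a i, fun a => flp a i, fun a => cube_flp_flp a i,
    fun a => cube_flp_flp a i⟩ _ _ fun a => rfl

private theorem cube_od_flp {d : ℕ} (a b : Bt d) (i : Fin d) : od (flp a i) b ↔ ¬ od a b := by
  unfold od
  by_cases h : a i = b i
  · have h1 : (univ.filter fun r => flp a i r ≠ b r) = insert i (univ.filter fun r => a r ≠ b r) := by
      ext r
      simp only [Finset.mem_filter, Finset.mem_univ, true_and, Finset.mem_insert]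
      by_cases hr : r = i
      · subst hr
        simp [flp, h]
      · simp [flp, hr]
    rw [h1, Finset.card_insert_of_notMem (by simp [h]), Nat.odd_add_one]
  · have h1 : (univ.filter fun r => a r ≠ b r) = insert i (univ.filter fun r => flp a i r ≠ b r) := by
      ext r
      simp only [Finset.mem_filter, Finset.mem_univ, true_and, Finset.mem_insert]
      by_cases hr : r = i
      · subst hr
        simp [h]
      · simp [flp, hr]
    have h2 : flp a i i = b i := by
      simp only [flp, Function.update_self]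
      cases ha : a i <;> cases hb : b i <;> simp_all
    rw [h1, Finset.card_insert_of_notMem (by simp [h2]), Nat.odd_add_one, not_not]

private theorem cube_half {d : ℕ} (i : Fin d) (w : Bt d → Bt d → ℝ)
    (hw : ∀ a b, w (flp a i) b = w a b) :
    EB w = (∑ a, ∑ b, w a b) / 4 ^ d := by
  classical
  unfold EB
  congr 1
  have h1 : ∑ a, ∑ b, (if od a b then w a b else 0) = ∑ a, ∑ b, (if od a b then 0 else w a b) := by
    rw [← cube_sum_flp i (fun a => ∑ b, (if od a b then w a b else 0))]
    refine Finset.sum_congr rfl fun a _ => Finset.sum_congr rfl fun b _ => ?_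
    by_cases h : od a b
    · rw [if_neg (by rw [cube_od_flp]; exact not_not.2 h), if_pos h]
    · rw [if_pos (by rw [cube_od_flp]; exact h), if_neg h, hw]
  have h2 : ∑ a, ∑ b, (if od a b then w a b else 0) + ∑ a, ∑ b, (if od a b then 0 else w a b) =
      ∑ a, ∑ b, w a b := by
    rw [← Finset.sum_add_distrib]
    refine Finset.sum_congr rfl fun a _ => ?_
    rw [← Finset.sum_add_distrib]
    refine Finset.sum_congr rfl fun b _ => ?_
    split_ifs <;> simp
  rw [← h2, ← h1]
  ring

/-- parity is balanced on the cube -/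
theorem card_od {d : ℕ} (hd : 1 ≤ d) :
    EB (fun _ _ : Bt d => (1 : ℝ)) = 1 := by
  rw [cube_half ⟨0, hd⟩ _ fun _ _ => rfl]
  simp only [Finset.sum_const, Finset.card_univ, Fintype.card_fun, Fintype.card_bool,
    Fintype.card_fin, nsmul_eq_mul, mul_one]
  push_cast
  rw [← mul_pow]
  norm_num

/-- parity is balanced on every face (`a j = b j = β`), `d ≥ 2` -/
theorem card_od_face {d : ℕ} (hd : 2 ≤ d) (j : Fin d) (β : Bool) :
    EB (fun a b : Bt d => if a j = β ∧ b j = β then (1 : ℝ) else 0) = 1 / 4 := by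
  have hi : ∃ i : Fin d, i ≠ j := by
    by_cases h : j = ⟨0, by omega⟩
    · refine ⟨⟨1, by omega⟩, fun hc => ?_⟩
      rw [h] at hc
      simp at hc
    · exact ⟨⟨0, by omega⟩, fun hc => h hc.symm⟩
  obtain ⟨i, hi⟩ := hi
  rw [cube_half i]
  · have h1 : ∀ β' : Bool, ∑ a : Bt d, (if a j = β' then (1 : ℝ) else 0) = 2 ^ d / 2 := by
      intro β'
      have h2 : ∑ a : Bt d, (if a j = β' then (1 : ℝ) else 0) =
          ∑ a : Bt d, (if a j = β' then (0 : ℝ) else 1) := by
        rw [← cube_sum_flp j (fun a => (if a j = β' then (1 : ℝ) else 0))]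
        refine Finset.sum_congr rfl fun a _ => ?_
        simp only [flp, Function.update_self]
        cases ha : a j <;> cases β' <;> simp
      have h3 : ∑ a : Bt d, (if a j = β' then (1 : ℝ) else 0) +
          ∑ a : Bt d, (if a j = β' then (0 : ℝ) else 1) = 2 ^ d := by
        rw [← Finset.sum_add_distrib]
        have : ∀ a : Bt d, ((if a j = β' then (1 : ℝ) else 0) + (if a j = β' then (0 : ℝ) else 1)) = 1 := by
          intro a; split_ifs <;> simp
        simp_rw [this]
        simp
      linarith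
    have h2 : ∀ a b : Bt d, (if a j = β ∧ b j = β then (1 : ℝ) else 0) =
        (if a j = β then (1 : ℝ) else 0) * (if b j = β then (1 : ℝ) else 0) := by
      intro a b
      by_cases h : a j = β <;> by_cases h' : b j = β <;> simp [h, h']
    simp_rw [h2, ← Finset.mul_sum, h1, ← Finset.sum_mul, h1]
    have h22 : (4 : ℝ) ^ d = 2 ^ d * 2 ^ d := by
      rw [← mul_pow]; norm_num
    have : (2 : ℝ) ^ d ≠ 0 := by positivity
    rw [h22]
    field_simp
    norm_num
  · intro a b
    simp only [flp, Function.update_of_ne hi.symm]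

theorem EB_add {d : ℕ} (F G : Bt d → Bt d → ℝ) : EB (fun a b => F a b + G a b) = EB F + EB G := by
  classical
  unfold EB
  rw [← add_div, ← mul_add, ← Finset.sum_add_distrib]
  congr 2
  refine Finset.sum_congr rfl fun a _ => ?_
  rw [← Finset.sum_add_distrib]
  refine Finset.sum_congr rfl fun b _ => ?_
  split_ifs <;> simp

theorem EB_mul {d : ℕ} (c : ℝ) (F : Bt d → Bt d → ℝ) : EB (fun a b => c * F a b) = c * EB F := by
  classical
  unfold EB
  have h : ∑ a, ∑ b, (if od a b then c * F a b else 0) =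
      c * ∑ a, ∑ b, (if od a b then F a b else 0) := by
    rw [Finset.mul_sum]
    refine Finset.sum_congr rfl fun a _ => ?_
    rw [Finset.mul_sum]
    refine Finset.sum_congr rfl fun b _ => ?_
    split_ifs <;> simp
  rw [h]
  ring

theorem EB_sum {d : ℕ} {ι : Type*} (A : Finset ι) (F : ι → Bt d → Bt d → ℝ) :
    EB (fun a b => ∑ x ∈ A, F x a b) = ∑ x ∈ A, EB (F x) := by
  classical
  induction A using Finset.induction_on with
  | empty =>
    simp [EB]
  | insert x A hx ih =>
    simp_rw [Finset.sum_insert hx]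
    rw [EB_add, ih]

theorem EB_mono {d : ℕ} {F G : Bt d → Bt d → ℝ} (h : ∀ a b, od a b → F a b ≤ G a b) :
    EB F ≤ EB G := by
  classical
  unfold EB
  refine div_le_div_of_nonneg_right ?_ (by positivity)
  refine mul_le_mul_of_nonneg_left ?_ (by norm_num)
  refine Finset.sum_le_sum fun a _ => Finset.sum_le_sum fun b _ => ?_
  split_ifs with hab
  · exact h a b hab
  · exact le_rfl

end Pool.Agent.LO

end

/-! ### from `Lib_MP_2c424f_lo.Sym` -/

section

/-!
# Translations and permutations of the colours (piece SYM)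
-/

set_option autoImplicit false

open Finset

namespace Pool.Agent.LO

variable {d k q : ℕ}

private theorem Sym_two_mul (x y : ZMod (2 ^ k)) :
    ((2 * x.val : ℕ) : ZMod (2 ^ (k + 1))) + ((2 * y.val : ℕ) : ZMod (2 ^ (k + 1))) =
      ((2 * (x + y).val : ℕ) : ZMod (2 ^ (k + 1))) := by
  rw [← Nat.cast_add, ZMod.natCast_eq_natCast_iff]
  have h1 : (x + y).val = (x.val + y.val) % 2 ^ k := ZMod.val_add x y
  rw [h1]
  have h2 : 2 * ((x.val + y.val) % 2 ^ k) ≡ 2 * (x.val + y.val) [MOD 2 * 2 ^ k] :=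
    (Nat.mod_modEq _ _).mul_left' 2
  have h3 : 2 * 2 ^ k = 2 ^ (k + 1) := by rw [pow_succ, mul_comm]
  rw [h3] at h2
  rw [← mul_add]
  exact h2.symm

private theorem Sym_bas_add (t τ : Blk d k) : bas t + bas τ = bas (t + τ) := by
  funext i
  simp only [bas, Pi.add_apply]
  exact Sym_two_mul (t i) (τ i)

theorem pt_add (t τ : Blk d k) (a b : Bt d) : pt t a b + bas τ = pt (t + τ) a b := by
  unfold pt
  rw [← Sym_bas_add]
  abel

private theorem Sym_prp_transl {τ : Site d k} {f : Site d k → Fin q} (hf : Prp f) :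
    Prp (fun x => f (x + τ)) := by
  intro x σ
  have h := hf (x + τ) σ
  have e : x + sv σ + τ = x + τ + sv σ := by abel
  show f (x + sv σ + τ) ≠ f (x + τ)
  rw [e]
  exact h

theorem sum_transl (τ : Site d k) (F : (Site d k → Fin q) → ℝ) :
    ∑ f ∈ prps d k q, F (fun x => f (x + τ)) = ∑ f ∈ prps d k q, F f := by
  classical
  refine Finset.sum_bij' (fun f _ => fun x => f (x + τ)) (fun f _ => fun x => f (x + -τ)) ?_ ?_ ?_ ?_ ?_
  · intro f hf
    simp only [prps, mem_filter, mem_univ, true_and] at hf ⊢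
    exact Sym_prp_transl hf
  · intro f hf
    simp only [prps, mem_filter, mem_univ, true_and] at hf ⊢
    exact Sym_prp_transl hf
  · intro f _
    funext x
    simp
  · intro f _
    funext x
    simp
  · intro f _
    rfl

theorem sum_perm (π : Equiv.Perm (Fin q)) (F : (Site d k → Fin q) → ℝ) :
    ∑ f ∈ prps d k q, F (fun x => π (f x)) = ∑ f ∈ prps d k q, F f := by
  classical
  refine Finset.sum_bij' (fun f _ => fun x => π (f x)) (fun f _ => fun x => π.symm (f x)) ?_ ?_ ?_ ?_ ?_
  · intro f hf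
    simp only [prps, mem_filter, mem_univ, true_and] at hf ⊢
    intro x σ h
    exact hf x σ (π.injective h)
  · intro f hf
    simp only [prps, mem_filter, mem_univ, true_and] at hf ⊢
    intro x σ h
    exact hf x σ (π.symm.injective h)
  · intro f _
    funext x
    simp
  · intro f _
    funext x
    simp
  · intro f _
    rfl

private theorem Sym_ite {P Q : Prop} (hP : Decidable P) (hQ : Decidable Q) (h : P ↔ Q) :
    (@ite ℝ P hP 1 0) = (@ite ℝ Q hQ 1 0) := by
  by_cases hp : P
  · rw [if_pos hp, if_pos (h.1 hp)]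
  · rw [if_neg hp, if_neg (fun hq => hp (h.2 hq))]

private theorem Sym_mb_transl (f : Site d (k + 1) → Fin q) (t τ : Blk d k) (c : Fin q) :
    mb (fun x => f (x + bas τ)) t c = mb f (t + τ) c := by
  unfold mb
  congr 1
  funext a b
  unfold zb
  have e : ∀ σ : Stp d, pt t a b + sv σ + bas τ = pt (t + τ) a b + sv σ := by
    intro σ
    rw [← pt_add]
    abel
  refine Sym_ite _ _ ?_
  simp only [e]

private theorem Sym_Mb_transl (f : Site d (k + 1) → Fin q) (t τ : Blk d k) (c : Fin q) :
    Mb (fun x => f (x + bas τ)) t c = Mb f (t + τ) c := by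
  unfold Mb
  congr 1
  funext a b
  simp only [pt_add]

private theorem Sym_mb_perm (f : Site d (k + 1) → Fin q) (t : Blk d k) (c : Fin q)
    (π : Equiv.Perm (Fin q)) : mb (fun x => π (f x)) t (π c) = mb f t c := by
  unfold mb
  congr 1
  funext a b
  unfold zb
  refine Sym_ite _ _ ?_
  simp only [ne_eq, EmbeddingLike.apply_eq_iff_eq]

private theorem Sym_Mb_perm (f : Site d (k + 1) → Fin q) (t : Blk d k) (c : Fin q)
    (π : Equiv.Perm (Fin q)) : Mb (fun x => π (f x)) t (π c) = Mb f t c := by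
  unfold Mb
  congr 1
  funext a b
  simp only [EmbeddingLike.apply_eq_iff_eq]

/-- the mean of `mb` does not depend on the block and on the colour -/
theorem mb_const (t t' : Blk d k) (c c' : Fin q) :
    ∑ f ∈ prps d (k + 1) q, mb f t c = ∑ f ∈ prps d (k + 1) q, mb f t' c' := by
  have h1 := sum_transl (d := d) (k := k + 1) (q := q) (bas (t - t')) (fun f => mb f t' c)
  have h2 : ∀ f : Site d (k + 1) → Fin q, mb (fun x => f (x + bas (t - t'))) t' c = mb f t c := by
    intro f
    rw [Sym_mb_transl]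
    congr 1
    abel
  simp only [h2] at h1
  rw [h1]
  have h3 := sum_perm (d := d) (k := k + 1) (q := q) (Equiv.swap c c') (fun f => mb f t' c')
  rw [← h3]
  refine sum_congr rfl fun f _ => ?_
  have h4 := Sym_mb_perm f t' c (Equiv.swap c c')
  rw [Equiv.swap_apply_left] at h4
  exact h4.symm

/-- the mean of `Mb` is `1/q` -/
theorem Mb_mean (hd : 1 ≤ d) (hq : 1 ≤ q) (t : Blk d k) (c : Fin q) :
    ∑ f ∈ prps d (k + 1) q, Mb f t c = ZZ d (k + 1) q / q := by
  classical
  have hconst : ∀ c' : Fin q, ∑ f ∈ prps d (k + 1) q, Mb f t c' =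
      ∑ f ∈ prps d (k + 1) q, Mb f t c := by
    intro c'
    have h3 := sum_perm (d := d) (k := k + 1) (q := q) (Equiv.swap c' c) (fun f => Mb f t c)
    rw [← h3]
    refine sum_congr rfl fun f _ => ?_
    have h4 := Sym_Mb_perm f t c' (Equiv.swap c' c)
    rw [Equiv.swap_apply_left] at h4
    exact h4.symm
  have hone : ∀ f : Site d (k + 1) → Fin q, ∑ c' : Fin q, Mb f t c' = 1 := by
    intro f
    rw [← card_od hd]
    unfold Mb EB
    rw [← Finset.sum_div, ← Finset.mul_sum]
    congr 2
    rw [Finset.sum_comm]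
    refine sum_congr rfl fun a _ => ?_
    rw [Finset.sum_comm]
    refine sum_congr rfl fun b _ => ?_
    by_cases h : od a b
    · simp [h]
    · simp [h]
  have hsum : ∑ c' : Fin q, ∑ f ∈ prps d (k + 1) q, Mb f t c' = ZZ d (k + 1) q := by
    rw [Finset.sum_comm]
    rw [sum_congr rfl fun f _ => hone f]
    simp [ZZ]
  rw [sum_congr rfl fun c' _ => hconst c'] at hsum
  rw [sum_const, card_univ, Fintype.card_fin, nsmul_eq_mul] at hsum
  have hq0 : (0 : ℝ) < q := by exact_mod_cast hq
  rw [eq_div_iff hq0.ne', mul_comm]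
  exact hsum

end Pool.Agent.LO

end
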