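import Pool.Agent.Lib_MP_2c424f_ms.M01

/-!
# MP_2c424f_pr: library of SharpThreshold and BoundaryThreshold (merged): merged library part M05

Concatenation of smaller files (each in its own section), only to save build time.
-/

/-! ### from `Lib_MP_2c424f_lo.BSum` -/

section

/-!
# Blocks and sites (piece BSUM)

`(t, a, b) ↦ (pt t a b, b)` is a bijection onto pairs (site, bit vector); `a j = b j` iff the coordinate
`pt t a b j` is even.
-/

set_option autoImplicit false

open Finset

namespace Pool.Agent.LO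

variable {d k q : ℕ}

private theorem bsum_two_dvd (k n : ℕ) : Even (n % 2 ^ (k + 1)) ↔ Even n := by
  rw [Nat.even_iff, Nat.even_iff, Nat.mod_mod_of_dvd n (dvd_pow_self 2 (Nat.succ_ne_zero k))]

private theorem bsum_pt (t : Blk d k) (a b : Bt d) (j : Fin d) :
    pt t a b j = ((2 * (t j).val + (if a j then 1 else 0) + (if b j then 1 else 0) : ℕ) :
      ZMod (2 ^ (k + 1))) := by
  simp only [pt, bas, bv, Pi.add_apply]
  push_cast
  rfl

theorem val_pt (t : Blk d k) (a b : Bt d) (j : Fin d) : Even ((pt t a b j).val) ↔ a j = b j := by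
  rw [bsum_pt, ZMod.val_natCast, bsum_two_dvd]
  cases a j <;> cases b j <;> simp [parity_simps]

theorem evn_pt (t : Blk d k) (a b : Bt d) : evn (pt t a b) ↔ ¬ od a b := by
  unfold evn od
  rw [Finset.even_sum_iff_even_card_odd, Nat.not_odd_iff_even]
  have : (univ.filter fun i => Odd ((pt t a b i).val)) = univ.filter fun i => a i ≠ b i := by
    refine Finset.filter_congr fun i _ => ?_
    rw [← Nat.not_even_iff_odd, val_pt]
  rw [this]

private theorem bsum_flp_self (a : Bt d) (j : Fin d) : flp a j j = !a j := by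
  unfold flp
  exact Function.update_self _ _ _

private theorem bsum_flp_ne (a : Bt d) (i j : Fin d) (h : i ≠ j) : flp a j i = a i := by
  unfold flp
  exact Function.update_of_ne h _ _

private theorem bsum_bv (a : Bt d) (j : Fin d) :
    (bv (flp a j) : Site d (k + 1)) = bv a + sv (j, !a j) := by
  funext i
  rw [Pi.add_apply]
  unfold bv sv
  by_cases hi : i = j
  · subst hi
    have h := bsum_flp_self a i
    rw [Pi.single_eq_same]
    simp only [h]
    cases a i <;> simp
  · have h := bsum_flp_ne a i j hi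
    rw [Pi.single_eq_of_ne hi, add_zero]
    simp only [h]

private theorem bsum_flp (t : Blk d k) (a b : Bt d) (j : Fin d) :
    pt t (flp a j) b = pt t a b + sv (j, !a j) ∧ pt t a (flp b j) = pt t a b + sv (j, !b j) := by
  unfold pt
  rw [bsum_bv, bsum_bv]
  constructor
  · abel
  · abel

/-- steps inside the block -/
theorem pt_step (t : Blk d k) (a b : Bt d) (σ : Stp d) (h : alw a b σ) :
    ∃ a' b', pt t a b + sv σ = pt t a' b' := by
  obtain ⟨j, s⟩ := σ
  unfold alw at h
  have h1 := (bsum_flp t a b j).1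
  have h2 := (bsum_flp t a b j).2
  cases s with
  | true =>
    simp only [if_true] at h
    by_cases ha : a j = true
    · have hb : b j = false := by
        cases hbj : b j with
        | false => rfl
        | true => exact absurd ⟨ha, hbj⟩ h
      rw [hb] at h2
      exact ⟨a, flp b j, h2.symm⟩
    · have ha' : a j = false := by simpa using ha
      rw [ha'] at h1
      exact ⟨flp a j, b, h1.symm⟩
  | false =>
    simp only [Bool.false_eq_true, if_false] at h
    rcases h with h | h
    · rw [h] at h1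
      exact ⟨flp a j, b, h1.symm⟩
    · rw [h] at h2
      exact ⟨a, flp b j, h2.symm⟩

/-- flipping a bit is a step inside the block -/
theorem pt_flp (t : Blk d k) (a b : Bt d) (j : Fin d) :
    pt t (flp a j) b = pt t a b + sv (j, !a j) ∧ pt t a (flp b j) = pt t a b + sv (j, !b j) :=
  bsum_flp t a b j

/-- the bijection for one coordinate -/
private noncomputable def bsumE (k : ℕ) : ZMod (2 ^ k) × Bool ≃ ZMod (2 ^ (k + 1)) :=
  Equiv.ofBijective
    (fun p => ((2 * p.1.val + (if p.2 then 1 else 0) : ℕ) : ZMod (2 ^ (k + 1)))) (by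
      rw [Fintype.bijective_iff_injective_and_card]
      constructor
      · rintro ⟨s, a⟩ ⟨t, b⟩ h
        simp only at h
        have hs := ZMod.val_lt s
        have ht := ZMod.val_lt t
        have hp : 2 ^ (k + 1) = 2 * 2 ^ k := by ring
        rw [ZMod.natCast_eq_natCast_iff', Nat.mod_eq_of_lt, Nat.mod_eq_of_lt] at h
        · have hab : a = b := by
            cases a <;> cases b <;> simp at h ⊢ <;> omega
          subst hab
          have : s.val = t.val := by omega
          rw [ZMod.val_injective _ this]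
        · split_ifs <;> omega
        · split_ifs <;> omega
      · rw [Fintype.card_prod, ZMod.card, ZMod.card, Fintype.card_bool]
        ring)

private theorem bsum_ta (G : Site d (k + 1) → ℝ) :
    ∑ t : Blk d k, ∑ a : Bt d, G (bas t + bv a) = ∑ x, G x := by
  rw [← Finset.sum_product', Finset.univ_product_univ]
  refine Fintype.sum_equiv
    ((Equiv.arrowProdEquivProdArrow (Fin d) (fun _ => ZMod (2 ^ k)) (fun _ => Bool)).symm.trans
      (Equiv.piCongrRight fun _ => bsumE k)) _ _ ?_
  rintro ⟨t, a⟩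
  congr 1
  funext i
  simp only [bas, bv, Pi.add_apply, Equiv.trans_apply, Equiv.piCongrRight_apply, Pi.map_apply, bsumE,
    Equiv.ofBijective_apply, Equiv.arrowProdEquivProdArrow, Equiv.coe_fn_symm_mk]
  push_cast
  rfl

/-- the bijection -/
theorem sum_pt (H : Site d (k + 1) → Bt d → ℝ) :
    ∑ t : Blk d k, ∑ a, ∑ b, H (pt t a b) b = ∑ x, ∑ b, H x b := by
  have h1 : ∀ b : Bt d, ∑ t : Blk d k, ∑ a : Bt d, H (pt t a b) b = ∑ x, H x b := by
    intro b
    rw [← Equiv.sum_comp (Equiv.addRight (bv b : Site d (k + 1))) (fun x => H x b)]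
    exact bsum_ta (fun x => H (x + bv b) b)
  calc ∑ t : Blk d k, ∑ a, ∑ b, H (pt t a b) b
      = ∑ t : Blk d k, ∑ b, ∑ a, H (pt t a b) b := by
        refine sum_congr rfl fun t _ => ?_
        rw [sum_comm]
    _ = ∑ b, ∑ t : Blk d k, ∑ a, H (pt t a b) b := by rw [sum_comm]
    _ = ∑ b, ∑ x, H x b := sum_congr rfl fun b _ => h1 b
    _ = ∑ x, ∑ b, H x b := by rw [sum_comm]

private theorem bsum_card_bt (d : ℕ) : ((univ : Finset (Bt d)).card : ℝ) = 2 ^ d := by
  rw [Finset.card_univ, Fintype.card_fun, Fintype.card_bool, Fintype.card_fin]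
  push_cast
  rfl

/-- sum of block means over all blocks -/
theorem sum_EB (hd : 1 ≤ d) (G : Site d (k + 1) → ℝ) :
    ∑ t : Blk d k, EB (fun a b => G (pt t a b)) = 2 / 2 ^ d * ∑ v ∈ ods d (k + 1), G v := by
  classical
  have h4 : (4 : ℝ) ^ d = 2 ^ d * 2 ^ d := by
    rw [← mul_pow]; norm_num
  have h2 : (2 : ℝ) ^ d ≠ 0 := by positivity
  have h := sum_pt (d := d) (k := k) (fun x _ => if ¬ evn x then G x else 0)
  have hL : ∑ t : Blk d k, EB (fun a b => G (pt t a b)) =
      2 / 4 ^ d * ∑ t : Blk d k, ∑ a, ∑ b, (if ¬ evn (pt t a b) then G (pt t a b) else 0) := by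
    rw [mul_sum]
    refine sum_congr rfl fun t _ => ?_
    unfold EB
    rw [mul_div_right_comm]
    congr 1
    refine sum_congr rfl fun a _ => sum_congr rfl fun b _ => ?_
    by_cases hod : od a b
    · rw [if_pos hod, if_pos]
      rw [evn_pt]
      exact not_not.mpr hod
    · rw [if_neg hod, if_neg]
      rw [evn_pt]
      exact not_not.mpr hod
  rw [hL, h]
  have hR : ∑ x : Site d (k + 1), ∑ _b : Bt d, (if ¬ evn x then G x else 0) =
      2 ^ d * ∑ v ∈ ods d (k + 1), G v := by
    unfold ods
    rw [Finset.sum_filter, mul_sum]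
    refine sum_congr rfl fun x _ => ?_
    rw [Finset.sum_const, nsmul_eq_mul, bsum_card_bt]
  rw [hR, h4]
  field_simp

private theorem bsum_half (j : Fin d) (φ : Bool → ℝ) :
    2 * ∑ b : Bt d, φ (b j) = 2 ^ d * (φ true + φ false) := by
  have h1 : ∑ b : Bt d, φ (b j) = ∑ b : Bt d, φ (!b j) := by
    have hinv : Function.Involutive (fun b : Bt d => flp b j) := by
      intro b
      funext i
      simp only [flp]
      by_cases hi : i = j
      · subst hi
        rw [Function.update_self, Function.update_self, Bool.not_not]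
      · rw [Function.update_of_ne hi, Function.update_of_ne hi]
    rw [← Equiv.sum_comp hinv.toPerm (fun b : Bt d => φ (b j))]
    refine sum_congr rfl fun b _ => ?_
    rw [Function.Involutive.coe_toPerm]
    simp only [flp, Function.update_self]
  have h2 : ∑ b : Bt d, (φ (b j) + φ (!b j)) = 2 ^ d * (φ true + φ false) := by
    rw [← bsum_card_bt, ← nsmul_eq_mul, ← Finset.sum_const]
    refine sum_congr rfl fun b _ => ?_
    cases b j
    · rw [Bool.not_false]; ring
    · rw [Bool.not_true]
  rw [two_mul, ← h2, sum_add_distrib, ← h1]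

/-- sum of the changes over all blocks -/
theorem sum_cut (j : Fin d) (χ : Site d (k + 1) → ℝ) :
    ∑ t : Blk d k, ∑ a, ∑ b, (|χ (pt t (flp a j) b) - χ (pt t a b)| + |χ (pt t a (flp b j)) - χ (pt t a b)|) =
      2 ^ d * (∑ x, (|χ (x + sv (j, true)) - χ x| + |χ (x + sv (j, false)) - χ x|)) := by
  have hsym : ∀ (t : Blk d k) (a b : Bt d), pt t a b = pt t b a := by
    intro t a b
    unfold pt
    abel
  have e2 : ∑ t : Blk d k, ∑ a : Bt d, ∑ b : Bt d, |χ (pt t a (flp b j)) - χ (pt t a b)| =
      ∑ x, ∑ b : Bt d, |χ (x + sv (j, !b j)) - χ x| := by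
    rw [← sum_pt]
    refine sum_congr rfl fun t _ => sum_congr rfl fun a _ => sum_congr rfl fun b _ => ?_
    rw [(bsum_flp t a b j).2]
  have e1 : ∑ t : Blk d k, ∑ a : Bt d, ∑ b : Bt d, |χ (pt t (flp a j) b) - χ (pt t a b)| =
      ∑ t : Blk d k, ∑ a : Bt d, ∑ b : Bt d, |χ (pt t a (flp b j)) - χ (pt t a b)| := by
    refine sum_congr rfl fun t _ => ?_
    rw [sum_comm]
    refine sum_congr rfl fun a _ => sum_congr rfl fun b _ => ?_
    rw [hsym t (flp b j) a, hsym t b a]
  calc ∑ t : Blk d k, ∑ a, ∑ b,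
        (|χ (pt t (flp a j) b) - χ (pt t a b)| + |χ (pt t a (flp b j)) - χ (pt t a b)|)
      = ∑ t : Blk d k, ∑ a : Bt d, ∑ b : Bt d, |χ (pt t (flp a j) b) - χ (pt t a b)| +
        ∑ t : Blk d k, ∑ a : Bt d, ∑ b : Bt d, |χ (pt t a (flp b j)) - χ (pt t a b)| := by
        simp only [sum_add_distrib]
    _ = 2 * ∑ x, ∑ b : Bt d, |χ (x + sv (j, !b j)) - χ x| := by
        rw [e1, e2, two_mul]
    _ = ∑ x, 2 * ∑ b : Bt d, |χ (x + sv (j, !b j)) - χ x| := by rw [mul_sum]
    _ = 2 ^ d * (∑ x, (|χ (x + sv (j, true)) - χ x| + |χ (x + sv (j, false)) - χ x|)) := by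
        rw [mul_sum]
        refine sum_congr rfl fun x _ => ?_
        rw [bsum_half j (fun s => |χ (x + sv (j, !s)) - χ x|)]
        simp only [Bool.not_true, Bool.not_false]
        ring

end Pool.Agent.LO

end

/-! ### from `Lib_MP_2c424f_lo.DSum` -/

section

/-!
# Neighbours inside and outside the block (piece DSUM)

For an odd site `v` and `b` the block with `pt t a b = v` is determined (`sum_pt`); the step `(j, β)`
leaves it iff `v j` is even and `b j = β` (`alw`, `val_pt`: then `a j = b j`).  So the proportion of the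
`b` for which a given set `J` of steps leaves the block is at most `2^{-|J|}`.
-/

set_option autoImplicit false

open Finset

namespace Pool.Agent.LO

variable {d k q : ℕ}

private theorem DSum_zz_eq (f : Site d (k + 1) → Fin q) (v : Site d (k + 1)) (c : Fin q)
    (h : ∃ σ : Stp d, f (v + sv σ) = c) : zz f v c = 0 := by
  unfold zz SS
  rw [if_pos]
  obtain ⟨σ, hσ⟩ := h
  exact mem_image.mpr ⟨σ, mem_univ _, hσ⟩

private theorem DSum_zz_eq' (f : Site d (k + 1) → Fin q) (v : Site d (k + 1)) (c : Fin q)
    (h : ¬ ∃ σ : Stp d, f (v + sv σ) = c) : zz f v c = 1 := by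
  unfold zz SS
  rw [if_neg]
  intro hc
  obtain ⟨σ, _, hσ⟩ := mem_image.mp hc
  exact h ⟨σ, hσ⟩

private theorem DSum_EB_le (F G : Bt d → Bt d → ℝ) (h : ∀ a b, F a b ≤ G a b) : EB F ≤ EB G := by
  unfold EB
  refine div_le_div_of_nonneg_right ?_ (by positivity)
  refine mul_le_mul_of_nonneg_left ?_ (by norm_num)
  refine sum_le_sum fun a _ => sum_le_sum fun b _ => ?_
  split_ifs
  · exact h a b
  · exact le_rfl

private theorem DSum_EB_sub (F G : Bt d → Bt d → ℝ) : EB F - EB G = EB fun a b => F a b - G a b := by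
  unfold EB
  rw [← sub_div, ← mul_sub, ← sum_sub_distrib]
  congr 2
  refine sum_congr rfl fun a _ => ?_
  rw [← sum_sub_distrib]
  refine sum_congr rfl fun b _ => ?_
  split_ifs
  · rfl
  · ring

theorem zz_le_zb (f : Site d (k + 1) → Fin q) (t : Blk d k) (a b : Bt d) (c : Fin q) :
    zz f (pt t a b) c ≤ zb f t a b c := by
  unfold zb
  by_cases h : ∃ σ : Stp d, f (pt t a b + sv σ) = c
  · rw [DSum_zz_eq f _ c h]
    split_ifs <;> norm_num
  · rw [DSum_zz_eq' f _ c h, if_pos]
    intro σ _ hσ
    exact h ⟨σ, hσ⟩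

theorem zb_le_zj (f : Site d (k + 1) → Fin q) (t : Blk d k) (a b : Bt d) (c : Fin q) (j : Fin d) :
    zb f t a b c ≤ zj f t a b c j := by
  unfold zb zj
  by_cases h : ∀ σ : Stp d, alw a b σ → f (pt t a b + sv σ) ≠ c
  · rw [if_pos h, if_pos]
    intro σ _ hσ
    exact h σ hσ
  · rw [if_neg h]
    split_ifs <;> norm_num

theorem mt_le_mb (f : Site d (k + 1) → Fin q) (t : Blk d k) (c : Fin q) : mt f t c ≤ mb f t c :=
  DSum_EB_le _ _ fun a b => zz_le_zb f t a b c

theorem mb_le_mj (f : Site d (k + 1) → Fin q) (t : Blk d k) (c : Fin q) (j : Fin d) :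
    mb f t c ≤ mj f t c j :=
  DSum_EB_le _ _ fun a b => zb_le_zj f t a b c j

private theorem DSum_pi_card (s : Finset (Fin d)) (b0 : Bt d) :
    ((univ.filter fun b : Bt d => ∀ i ∈ s, b i = b0 i).card : ℝ) = 2 ^ d * (1 / 2) ^ s.card := by
  classical
  have h1 : (univ.filter fun b : Bt d => ∀ i ∈ s, b i = b0 i)
      = Fintype.piFinset (fun i => if i ∈ s then {b0 i} else (univ : Finset Bool)) := by
    ext b
    simp only [mem_filter, mem_univ, true_and, Fintype.mem_piFinset]
    constructor
    · intro h i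
      split_ifs with hi
      · exact mem_singleton.mpr (h i hi)
      · exact mem_univ _
    · intro h i hi
      have := h i
      rw [if_pos hi] at this
      exact mem_singleton.mp this
  rw [h1, Fintype.card_piFinset]
  have h2 : ∀ i, ((if i ∈ s then ({b0 i} : Finset Bool) else univ).card : ℝ)
      = 2 * (if i ∈ s then (1 / 2 : ℝ) else 1) := by
    intro i
    split_ifs
    · simp
    · simp
  push_cast
  rw [prod_congr rfl fun i _ => h2 i, prod_mul_distrib, prod_const, card_univ, Fintype.card_fin,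
    prod_ite, prod_const, prod_const_one, mul_one]
  congr 2
  congr 1
  ext i
  simp

open scoped Classical in
/-- bit vectors for which all steps of `J` leave the block -/
theorem card_out (J : Finset (Stp d)) (P : Fin d → Prop) :
    ((univ.filter fun b : Bt d => ∀ σ ∈ J, P σ.1 ∧ b σ.1 = σ.2).card : ℝ) ≤ 2 ^ d * (1 / 2) ^ J.card := by
  rcases (univ.filter fun b : Bt d => ∀ σ ∈ J, P σ.1 ∧ b σ.1 = σ.2).eq_empty_or_nonempty
    with he | ⟨b0, hb0⟩
  · rw [he]
    simp only [card_empty, Nat.cast_zero]
    positivity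
  · have h0 : ∀ σ ∈ J, P σ.1 ∧ b0 σ.1 = σ.2 := (mem_filter.mp hb0).2
    have hinj : Set.InjOn (fun σ : Stp d => σ.1) J := by
      intro σ hσ τ hτ h
      have e1 := (h0 σ hσ).2
      have e2 := (h0 τ hτ).2
      have h' : σ.1 = τ.1 := h
      exact Prod.ext h' (by rw [← e1, ← e2, h'])
    have hc : (J.image fun σ : Stp d => σ.1).card = J.card := card_image_of_injOn hinj
    rw [← hc, ← DSum_pi_card (J.image fun σ : Stp d => σ.1) b0]
    have hsub : (univ.filter fun b : Bt d => ∀ σ ∈ J, P σ.1 ∧ b σ.1 = σ.2)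
        ⊆ (univ.filter fun b : Bt d => ∀ i ∈ J.image fun σ : Stp d => σ.1, b i = b0 i) := by
      intro b hb
      simp only [mem_filter, mem_univ, true_and] at hb ⊢
      intro i hi
      obtain ⟨σ, hσ, hi'⟩ := mem_image.mp hi
      rw [← hi', (hb σ hσ).2, (h0 σ hσ).2]
    exact_mod_cast card_le_card hsub

private theorem DSum_not_alw (t : Blk d k) (a b : Bt d) (σ : Stp d) (h : ¬ alw a b σ) :
    Even ((pt t a b σ.1).val) ∧ b σ.1 = σ.2 := by
  rw [val_pt]
  unfold alw at h
  by_cases hs : σ.2 = true
  · rw [if_pos hs, not_not] at h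
    rw [h.1, h.2, hs]
    exact ⟨rfl, rfl⟩
  · rw [if_neg hs] at h
    push Not at h
    have h1 : a σ.1 = false := by simpa using h.1
    have h2 : b σ.1 = false := by simpa using h.2
    have h3 : σ.2 = false := by simpa using hs
    rw [h1, h2, h3]
    exact ⟨rfl, rfl⟩

open scoped Classical in
private theorem DSum_gen (f : Site d (k + 1) → Fin q) (c : Fin q)
    (S : Site d (k + 1) → Finset (Stp d)) (G : Blk d k → Bt d → Bt d → ℝ) (C : ℝ)
    (hG : ∀ t a b, G t a b ≤ if yy f (pt t a b) c = 0 then 0 else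
      if (∀ σ ∈ S (pt t a b), Even ((pt t a b σ.1).val) ∧ b σ.1 = σ.2) then 1 else 0)
    (hS : ∀ v, (1 / 2 : ℝ) ^ (S v).card ≤ C * (1 / 2) ^ yy f v c) :
    ∑ t : Blk d k, EB (G t) ≤ 2 * C / 2 ^ d * QQ f c := by
  let H : Site d (k + 1) → Bt d → ℝ := fun v b => if ¬ evn v then (if yy f v c = 0 then 0 else
      if (∀ σ ∈ S v, Even ((v σ.1).val) ∧ b σ.1 = σ.2) then 1 else 0) else 0
  have h1 : ∀ t : Blk d k, EB (G t) ≤ 2 / 4 ^ d * ∑ a, ∑ b, H (pt t a b) b := by
    intro t
    unfold EB
    rw [mul_div_right_comm]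
    refine mul_le_mul_of_nonneg_left ?_ (by positivity)
    refine sum_le_sum fun a _ => sum_le_sum fun b _ => ?_
    simp only [H]
    by_cases hod : od a b
    · have hev : ¬ evn (pt t a b) := by
        rw [evn_pt]
        exact not_not.mpr hod
      rw [if_pos hod, if_pos hev]
      exact hG t a b
    · have hev : evn (pt t a b) := by
        rw [evn_pt]
        exact hod
      rw [if_neg hod, if_neg (not_not.mpr hev)]
  have h2 : ∑ t : Blk d k, EB (G t) ≤ 2 / 4 ^ d * ∑ x, ∑ b, H x b := by
    rw [← sum_pt H, mul_sum]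
    exact sum_le_sum fun t _ => h1 t
  refine h2.trans ?_
  have h3 : ∑ x, ∑ b, H x b ≤ C * 2 ^ d * QQ f c := by
    unfold QQ
    rw [mul_sum]
    unfold ods
    rw [sum_filter]
    refine sum_le_sum fun v _ => ?_
    by_cases hv : evn v
    · simp only [H, hv, not_true_eq_false, if_false, sum_const_zero]
      exact le_rfl
    · simp only [H, hv, not_false_eq_true, if_true]
      by_cases hy : yy f v c = 0
      · simp only [hy, if_true, sum_const_zero, mul_zero]
        exact le_rfl
      · simp only [hy, if_false]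
        rw [← sum_filter, sum_const, nsmul_eq_mul, mul_one]
        have hco := card_out (S v) (fun i => Even ((v i).val))
        refine le_trans (le_of_eq ?_) (hco.trans ?_)
        · congr
        · have := mul_le_mul_of_nonneg_left (hS v) (by positivity : (0 : ℝ) ≤ 2 ^ d)
          refine this.trans (le_of_eq ?_)
          ring
  refine (mul_le_mul_of_nonneg_left h3 (by positivity)).trans (le_of_eq ?_)
  have h4 : (4 : ℝ) ^ d = 2 ^ d * 2 ^ d := by
    rw [← mul_pow]; norm_num
  rw [h4]
  have h5 : (2 : ℝ) ^ d ≠ 0 := by positivity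
  field_simp

theorem sum_mb (f : Site d (k + 1) → Fin q) (c : Fin q) :
    ∑ t : Blk d k, (mb f t c - mt f t c) ≤ 2 / 2 ^ d * QQ f c := by
  classical
  have h := DSum_gen (k := k) f c (fun v => univ.filter fun σ : Stp d => f (v + sv σ) = c)
    (fun t a b => zb f t a b c - zz f (pt t a b) c) 1 ?_ ?_
  · have e : ∀ t : Blk d k, mb f t c - mt f t c = EB (fun a b => zb f t a b c - zz f (pt t a b) c) :=
      fun t => DSum_EB_sub _ _
    rw [sum_congr rfl fun t _ => e t]
    refine h.trans (le_of_eq ?_)
    ring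
  · intro t a b
    by_cases hy : yy f (pt t a b) c = 0
    · rw [if_pos hy]
      have hno : ¬ ∃ σ : Stp d, f (pt t a b + sv σ) = c := by
        rintro ⟨σ, hσ⟩
        unfold yy at hy
        rw [card_eq_zero] at hy
        have : σ ∈ (univ.filter fun σ : Stp d => f (pt t a b + sv σ) = c) :=
          mem_filter.mpr ⟨mem_univ _, hσ⟩
        rw [hy] at this
        exact absurd this (notMem_empty _)
      rw [DSum_zz_eq' f _ c hno]
      unfold zb
      split_ifs <;> norm_num
    · rw [if_neg hy]
      have hyes : ∃ σ : Stp d, f (pt t a b + sv σ) = c := by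
        by_contra hno
        apply hy
        unfold yy
        rw [card_eq_zero, filter_eq_empty_iff]
        intro σ _ hσ
        exact hno ⟨σ, hσ⟩
      rw [DSum_zz_eq f _ c hyes, sub_zero]
      unfold zb
      by_cases h : ∀ σ : Stp d, alw a b σ → f (pt t a b + sv σ) ≠ c
      · rw [if_pos h, if_pos]
        intro σ hσ
        refine DSum_not_alw t a b σ fun hal => ?_
        exact h σ hal (mem_filter.mp hσ).2
      · rw [if_neg h]
        split_ifs <;> norm_num
  · intro v
    rw [one_mul]
    exact le_rfl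

/-- `2^{-(y - y_j)} ≤ 4 · 2^{-y}` -/
theorem sum_mj (f : Site d (k + 1) → Fin q) (c : Fin q) (j : Fin d) :
    ∑ t : Blk d k, (mj f t c j - mt f t c) ≤ 8 / 2 ^ d * QQ f c := by
  classical
  have h := DSum_gen (k := k) f c
    (fun v => univ.filter fun σ : Stp d => f (v + sv σ) = c ∧ σ.1 ≠ j)
    (fun t a b => zj f t a b c j - zz f (pt t a b) c) 4 ?_ ?_
  · have e : ∀ t : Blk d k, mj f t c j - mt f t c = EB (fun a b => zj f t a b c j - zz f (pt t a b) c) :=
      fun t => DSum_EB_sub _ _
    rw [sum_congr rfl fun t _ => e t]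
    refine h.trans (le_of_eq ?_)
    ring
  · intro t a b
    by_cases hy : yy f (pt t a b) c = 0
    · rw [if_pos hy]
      have hno : ¬ ∃ σ : Stp d, f (pt t a b + sv σ) = c := by
        rintro ⟨σ, hσ⟩
        unfold yy at hy
        rw [card_eq_zero] at hy
        have : σ ∈ (univ.filter fun σ : Stp d => f (pt t a b + sv σ) = c) :=
          mem_filter.mpr ⟨mem_univ _, hσ⟩
        rw [hy] at this
        exact absurd this (notMem_empty _)
      rw [DSum_zz_eq' f _ c hno]
      unfold zj
      split_ifs <;> norm_num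
    · rw [if_neg hy]
      have hyes : ∃ σ : Stp d, f (pt t a b + sv σ) = c := by
        by_contra hno
        apply hy
        unfold yy
        rw [card_eq_zero, filter_eq_empty_iff]
        intro σ _ hσ
        exact hno ⟨σ, hσ⟩
      rw [DSum_zz_eq f _ c hyes, sub_zero]
      unfold zj
      by_cases h : ∀ σ : Stp d, σ.1 ≠ j → alw a b σ → f (pt t a b + sv σ) ≠ c
      · rw [if_pos h, if_pos]
        intro σ hσ
        have hm := (mem_filter.mp hσ).2
        refine DSum_not_alw t a b σ fun hal => ?_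
        exact h σ hm.2 hal hm.1
      · rw [if_neg h]
        split_ifs <;> norm_num
  · intro v
    have hcard : yy f v c ≤ (univ.filter fun σ : Stp d => f (v + sv σ) = c ∧ σ.1 ≠ j).card + 2 := by
      have hsub : (univ.filter fun σ : Stp d => f (v + sv σ) = c)
          ⊆ (univ.filter fun σ : Stp d => f (v + sv σ) = c ∧ σ.1 ≠ j) ∪ {(j, true), (j, false)} := by
        intro σ hσ
        rw [mem_union]
        by_cases hj : σ.1 = j
        · right
          obtain ⟨i, b⟩ := σ
          simp only at hj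
          subst hj
          cases b <;> simp
        · left
          exact mem_filter.mpr ⟨mem_univ _, (mem_filter.mp hσ).2, hj⟩
      have h1 := (card_le_card hsub).trans (card_union_le _ _)
      have h2 : ({(j, true), (j, false)} : Finset (Stp d)).card ≤ 2 := card_le_two
      unfold yy
      omega
    have h4 : (4 : ℝ) * (1 / 2) ^ yy f v c = (1 / 2) ^ yy f v c * (1 / 2 : ℝ)⁻¹ ^ 2 := by norm_num; ring
    have h5 : (1 / 2 : ℝ) ^ ((univ.filter fun σ : Stp d => f (v + sv σ) = c ∧ σ.1 ≠ j).card + 2)
        ≤ (1 / 2) ^ yy f v c := pow_le_pow_of_le_one (by norm_num) (by norm_num) hcard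
    rw [pow_add] at h5
    nlinarith [h5]

end Pool.Agent.LO

end
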