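import Pool.Agent.Lib_MP_2c424f_ms.M02
import Pool.Agent.Lib_MP_2c424f_ms.M03
import Pool.Agent.Lib_MP_2c424f_ms.M04
import Pool.Agent.Lib_MP_2c424f_ms.M05

/-!
# MP_2c424f_pr: library of SharpThreshold and BoundaryThreshold (merged): merged library part M06

Concatenation of smaller files (each in its own section), only to save build time.
-/

/-! ### from `Lib_MP_2c424f_lo.CutI` -/

section

/-!
# Variances of the blocks (piece CUTI)

`χ = zz` on odd sites and the majority value `1(m_u ≥ 1/2)` on even sites.  The number of changing edges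
at `u` is `2 d min (m, 1 - m) ≤ 4 d m (1 - m)`.
-/

set_option autoImplicit false

open Finset

namespace Pool.Agent.LO

variable {d k q : ℕ}

private theorem CutI_zz (f : Site d k → Fin q) (v : Site d k) (c : Fin q) :
    zz f v c = 0 ∨ zz f v c = 1 := by
  unfold zz
  split_ifs
  · left; rfl
  · right; rfl

/-- the indicator field -/
theorem exists_chi (hd : 1 ≤ d) (hk : 1 ≤ k) (f : Site d k → Fin q) (c : Fin q) :
    ∃ χ : Site d k → ℝ, (∀ x, χ x = 0 ∨ χ x = 1) ∧ (∀ v ∈ ods d k, χ v = zz f v c) ∧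
      ∑ j : Fin d, ∑ x, (|χ (x + sv (j, true)) - χ x| + |χ (x + sv (j, false)) - χ x|) ≤
        8 * d * II f c := by
  classical
  obtain ⟨χ, hχ⟩ : ∃ χ : Site d k → ℝ, ∀ x, χ x = if evn x then (if 1 / 2 ≤ mm f x c then 1 else 0)
      else zz f x c := ⟨_, fun _ => rfl⟩
  have hodd : ∀ v ∈ ods d k, χ v = zz f v c := by
    intro v hv
    rw [hχ, if_neg (Finset.mem_filter.mp hv).2]
  refine ⟨χ, fun x => ?_, hodd, ?_⟩
  · rw [hχ]
    split_ifs
    · right; rfl
    · left; rfl
    · exact CutI_zz f x c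
  · have hd' : (0 : ℝ) < d := by exact_mod_cast hd
    -- sum over sites and steps
    have h1 : ∑ j : Fin d, ∑ x, (|χ (x + sv (j, true)) - χ x| + |χ (x + sv (j, false)) - χ x|) =
        ∑ x, ∑ σ : Stp d, |χ (x + sv σ) - χ x| := by
      rw [Finset.sum_comm]
      refine Finset.sum_congr rfl fun x _ => ?_
      rw [Fintype.sum_prod_type]
      refine Finset.sum_congr rfl fun j _ => ?_
      rw [Fintype.sum_bool]
    have h2 : ∑ x, ∑ σ : Stp d, |χ (x + sv σ) - χ x| =
        ∑ u ∈ evs d k, ∑ σ : Stp d, |χ (u + sv σ) - χ u| +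
          ∑ v ∈ ods d k, ∑ σ : Stp d, |χ (v + sv σ) - χ v| := by
      unfold evs ods
      exact (Finset.sum_filter_add_sum_filter_not _ _ _).symm
    have h3 : ∑ v ∈ ods d k, ∑ σ : Stp d, |χ (v + sv σ) - χ v| =
        ∑ u ∈ evs d k, ∑ σ : Stp d, |χ (u + sv σ) - χ u| := by
      rw [sum_nbr hk (fun u v => |χ v - χ u|)]
      refine Finset.sum_congr rfl fun v _ => Finset.sum_congr rfl fun σ _ => ?_
      exact abs_sub_comm _ _
    have h4 : ∀ u ∈ evs d k, ∑ σ : Stp d, |χ (u + sv σ) - χ u| ≤
        4 * d * (mm f u c * (1 - mm f u c)) := by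
      intro u hu
      have hu' : evn u := (Finset.mem_filter.mp hu).2
      have h5 : ∀ σ : Stp d, χ (u + sv σ) = zz f (u + sv σ) c := by
        intro σ
        refine hodd _ ?_
        unfold ods
        rw [Finset.mem_filter]
        refine ⟨Finset.mem_univ _, ?_⟩
        rw [evn_step hk]
        exact not_not.mpr hu'
      have hm0 := mm_nonneg f u c
      have hm1 := mm_le_one f u c
      have h6 : ∑ σ : Stp d, zz f (u + sv σ) c = 2 * d * mm f u c := by
        unfold mm
        field_simp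
      by_cases hm : 1 / 2 ≤ mm f u c
      · have h7 : χ u = 1 := by rw [hχ, if_pos hu', if_pos hm]
        have h8 : ∀ σ : Stp d, |χ (u + sv σ) - χ u| = 1 - zz f (u + sv σ) c := by
          intro σ
          rw [h5, h7]
          rcases CutI_zz f (u + sv σ) c with h | h <;> rw [h] <;> norm_num
        rw [Finset.sum_congr rfl fun σ _ => h8 σ, Finset.sum_sub_distrib, h6, Finset.sum_const,
          Finset.card_univ, Fintype.card_prod, Fintype.card_fin, Fintype.card_bool, nsmul_eq_mul]
        push_cast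
        nlinarith [mul_nonneg (mul_nonneg hd'.le (sub_nonneg.mpr hm1)) (sub_nonneg.mpr hm)]
      · have h7 : χ u = 0 := by rw [hχ, if_pos hu', if_neg hm]
        have h8 : ∀ σ : Stp d, |χ (u + sv σ) - χ u| = zz f (u + sv σ) c := by
          intro σ
          rw [h5, h7]
          rcases CutI_zz f (u + sv σ) c with h | h <;> rw [h] <;> norm_num
        rw [Finset.sum_congr rfl fun σ _ => h8 σ, h6]
        have hm' : 0 ≤ 1 / 2 - mm f u c := by linarith [not_le.mp hm]
        nlinarith [mul_nonneg (mul_nonneg hd'.le hm0) hm']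
    rw [h1, h2, h3]
    have h9 : ∑ u ∈ evs d k, ∑ σ : Stp d, |χ (u + sv σ) - χ u| ≤ 4 * d * II f c := by
      unfold II
      rw [Finset.mul_sum]
      exact Finset.sum_le_sum h4
    linarith

/-- block mean of `χ` -/
noncomputable def pm (χ : Site d (k + 1) → ℝ) (t : Blk d k) : ℝ :=
  (∑ a, ∑ b, χ (pt t a b)) / 4 ^ d

/-- sum of the block variances (`poincare`, `sum_cut`) -/
theorem sum_var (χ : Site d (k + 1) → ℝ) (hχ : ∀ x, χ x = 0 ∨ χ x = 1) :
    ∑ t : Blk d k, pm χ t * (1 - pm χ t) ≤
      1 / 4 * (∑ j : Fin d, ∑ x, (|χ (x + sv (j, true)) - χ x| + |χ (x + sv (j, false)) - χ x|)) / 2 ^ d := by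
  have h1 : ∀ t : Blk d k, pm χ t * (1 - pm χ t) ≤ 1 / 4 * ((∑ j : Fin d, ∑ a, ∑ b,
      (|χ (pt t (flp a j) b) - χ (pt t a b)| + |χ (pt t a (flp b j)) - χ (pt t a b)|)) / 4 ^ d) :=
    fun t => poincare (fun a b => χ (pt t a b)) fun a b => hχ _
  refine (Finset.sum_le_sum fun t _ => h1 t).trans (le_of_eq ?_)
  rw [← Finset.mul_sum, ← Finset.sum_div, Finset.sum_comm]
  rw [Finset.sum_congr rfl fun j _ => sum_cut j χ, ← Finset.mul_sum]
  have h22 : (4 : ℝ) ^ d = 2 ^ d * 2 ^ d := by
    rw [← mul_pow]; norm_num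
  rw [h22]
  field_simp

/-- if the odd mean is in `[δ/2, 1 - δ]` then the variance is at least `δ/5` -/
theorem var_ge (hd : 1 ≤ d) (f : Site d (k + 1) → Fin q) (c : Fin q) (χ : Site d (k + 1) → ℝ)
    (hχ : ∀ x, χ x = 0 ∨ χ x = 1) (hz : ∀ v ∈ ods d (k + 1), χ v = zz f v c) (t : Blk d k) {δ : ℝ}
    (h0 : 0 < δ) (h1 : δ ≤ 1 / 2) (hl : δ / 2 ≤ mt f t c) (hu : mt f t c ≤ 1 - δ) :
    δ / 5 ≤ pm χ t * (1 - pm χ t) := by
  classical
  have h4p : (0 : ℝ) < 4 ^ d := by positivity
  have hχ0 : ∀ x, 0 ≤ χ x := fun x => by rcases hχ x with h | h <;> rw [h]; norm_num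
  have hχ1 : ∀ x, χ x ≤ 1 := fun x => by rcases hχ x with h | h <;> rw [h]; norm_num
  obtain ⟨O, hO⟩ : ∃ O, O = ∑ a : Bt d, ∑ b : Bt d, (if od a b then χ (pt t a b) else 0) := ⟨_, rfl⟩
  obtain ⟨E, hE⟩ : ∃ E, E = ∑ a : Bt d, ∑ b : Bt d, (if od a b then 0 else χ (pt t a b)) := ⟨_, rfl⟩
  obtain ⟨N, hN⟩ : ∃ N : ℝ, N = ∑ a : Bt d, ∑ b : Bt d, (if od a b then 1 else 0) := ⟨_, rfl⟩
  have hsum : ∑ a : Bt d, ∑ b : Bt d, χ (pt t a b) = O + E := by
    rw [hO, hE, ← Finset.sum_add_distrib]
    refine Finset.sum_congr rfl fun a _ => ?_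
    rw [← Finset.sum_add_distrib]
    refine Finset.sum_congr rfl fun b _ => ?_
    split_ifs <;> simp
  have hmt : mt f t c = 2 * O / 4 ^ d := by
    unfold mt EB
    rw [hO]
    congr 2
    refine Finset.sum_congr rfl fun a _ => Finset.sum_congr rfl fun b _ => ?_
    by_cases hab : od a b
    · rw [if_pos hab, if_pos hab, hz]
      unfold ods
      rw [Finset.mem_filter]
      refine ⟨Finset.mem_univ _, ?_⟩
      rw [evn_pt]
      exact not_not.mpr hab
    · rw [if_neg hab, if_neg hab]
  have hE0 : 0 ≤ E := by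
    rw [hE]
    refine Finset.sum_nonneg fun a _ => Finset.sum_nonneg fun b _ => ?_
    split_ifs
    · exact le_refl _
    · exact hχ0 _
  have hN1 : N = 4 ^ d / 2 := by
    have h := card_od hd
    unfold EB at h
    rw [← hN] at h
    field_simp at h
    linarith
  have hEN : E + N ≤ 4 ^ d := by
    rw [hE, hN, ← Finset.sum_add_distrib]
    have h2 : ∀ a ∈ (Finset.univ : Finset (Bt d)), (∑ b : Bt d, (if od a b then 0 else χ (pt t a b)) +
        ∑ b : Bt d, (if od a b then (1 : ℝ) else 0)) ≤ 2 ^ d := by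
      intro a _
      rw [← Finset.sum_add_distrib]
      have h3 : ∀ b ∈ (Finset.univ : Finset (Bt d)), ((if od a b then 0 else χ (pt t a b)) +
          (if od a b then (1 : ℝ) else 0)) ≤ 1 := by
        intro b _
        split_ifs
        · norm_num
        · rw [add_zero]; exact hχ1 _
      refine (Finset.sum_le_sum h3).trans (le_of_eq ?_)
      rw [Finset.sum_const, Finset.card_univ, Fintype.card_fun, Fintype.card_bool, Fintype.card_fin,
        nsmul_eq_mul, mul_one]
      push_cast
      rfl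
    refine (Finset.sum_le_sum h2).trans (le_of_eq ?_)
    rw [Finset.sum_const, Finset.card_univ, Fintype.card_fun, Fintype.card_bool, Fintype.card_fin,
      nsmul_eq_mul]
    push_cast
    rw [← mul_pow]
    norm_num
  have hpm : pm χ t = mt f t c / 2 + E / 4 ^ d := by
    unfold pm
    rw [hsum, hmt]
    field_simp
  have he0 : 0 ≤ E / 4 ^ d := div_nonneg hE0 h4p.le
  have he1 : E / 4 ^ d ≤ 1 / 2 := by
    rw [div_le_iff₀ h4p]
    linarith
  have hp0 : δ / 4 ≤ pm χ t := by rw [hpm]; linarith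
  have hp1 : pm χ t ≤ 1 - δ / 2 := by rw [hpm]; linarith
  generalize pm χ t = p at hp0 hp1
  have h5 : 0 ≤ (p - δ / 4) * (1 - δ / 2 - p) :=
    mul_nonneg (sub_nonneg.mpr hp0) (sub_nonneg.mpr hp1)
  nlinarith

end Pool.Agent.LO

end

/-! ### from `Lib_MP_2c424f_lo.Dev` -/

section

/-!
# Deviation of the sites from the label of the block (piece DEV)

For a block `t` and a colour `c`: the mean of `|zz - 1(lab1)|` over the odd points of the block is at most
`5 Var_t + 3 (mb - mt) + 1(bad)`.
-/

set_option autoImplicit false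

open Finset

namespace Pool.Agent.LO

variable {d k q : ℕ}

theorem zz_zero_or_one (f : Site d k → Fin q) (v : Site d k) (c : Fin q) : zz f v c = 0 ∨ zz f v c = 1 := by
  unfold zz
  split_ifs
  · exact Or.inl rfl
  · exact Or.inr rfl

theorem pm_var_nonneg (χ : Site d (k + 1) → ℝ) (hχ : ∀ x, χ x = 0 ∨ χ x = 1)
    (t : Blk d k) : 0 ≤ pm χ t * (1 - pm χ t) := by
  have h0 : 0 ≤ pm χ t := by
    unfold pm
    refine div_nonneg (sum_nonneg fun a _ => sum_nonneg fun b _ => ?_) (by positivity)
    rcases hχ (pt t a b) with h | h <;> rw [h]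
    exact zero_le_one
  have h1 : pm χ t ≤ 1 := by
    unfold pm
    rw [div_le_one (by positivity)]
    have h2 : ∑ a : Bt d, ∑ b : Bt d, χ (pt t a b) ≤ ∑ a : Bt d, ∑ b : Bt d, (1 : ℝ) := by
      refine sum_le_sum fun a _ => sum_le_sum fun b _ => ?_
      rcases hχ (pt t a b) with h | h <;> rw [h]
      exact zero_le_one
    refine h2.trans (le_of_eq ?_)
    simp only [sum_const, card_univ, Fintype.card_fun, Fintype.card_bool, Fintype.card_fin,
      nsmul_eq_mul, mul_one, Nat.cast_pow, Nat.cast_ofNat]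
    rw [← mul_pow]
    norm_num
  exact mul_nonneg h0 (sub_nonneg.2 h1)

theorem mt_nonneg (f : Site d (k + 1) → Fin q) (t : Blk d k) (c : Fin q) : 0 ≤ mt f t c := by
  have h : EB (fun _ _ : Bt d => (0 : ℝ)) ≤ mt f t c := by
    unfold mt
    refine EB_mono fun a b _ => ?_
    rcases zz_zero_or_one f (pt t a b) c with h | h <;> rw [h]
    exact zero_le_one
  have h0 : EB (fun _ _ : Bt d => (0 : ℝ)) = 0 := by
    simp [EB]
  linarith

theorem mt_le_one (hd : 1 ≤ d) (f : Site d (k + 1) → Fin q) (t : Blk d k) (c : Fin q) :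
    mt f t c ≤ 1 := by
  rw [← card_od hd]
  unfold mt
  refine EB_mono fun a b _ => ?_
  rcases zz_zero_or_one f (pt t a b) c with h | h <;> rw [h]
  exact zero_le_one

open scoped Classical in
/-- mean deviation of the odd points of a block from the label of the block -/
noncomputable def dev (f : Site d (k + 1) → Fin q) (t : Blk d k) (c : Fin q) : ℝ :=
  EB fun a b => |zz f (pt t a b) c - (if lab1 f t c then 1 else 0)|

open scoped Classical in
theorem dev_lab1 (hd : 1 ≤ d) (f : Site d (k + 1) → Fin q) (t : Blk d k) (c : Fin q)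
    (h : lab1 f t c) : dev f t c = 1 - mt f t c := by
  unfold dev mt
  have h1 : (fun a b : Bt d => |zz f (pt t a b) c - (if lab1 f t c then (1 : ℝ) else 0)|) =
      fun a b => (1 : ℝ) + (-1) * zz f (pt t a b) c := by
    funext a b
    rw [if_pos h]
    rcases zz_zero_or_one f (pt t a b) c with h | h <;> rw [h] <;> norm_num
  rw [h1, EB_add, card_od hd, EB_mul]
  ring

open scoped Classical in
theorem dev_not (f : Site d (k + 1) → Fin q) (t : Blk d k) (c : Fin q)
    (h : ¬ lab1 f t c) : dev f t c = mt f t c := by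
  unfold dev mt
  congr 1
  funext a b
  rw [if_neg h]
  rcases zz_zero_or_one f (pt t a b) c with h | h <;> rw [h] <;> norm_num

theorem dev_nonneg (f : Site d (k + 1) → Fin q) (t : Blk d k) (c : Fin q) : 0 ≤ dev f t c := by
  have h : EB (fun _ _ : Bt d => (0 : ℝ)) ≤ dev f t c := by
    unfold dev
    exact EB_mono fun a b _ => abs_nonneg _
  have h0 : EB (fun _ _ : Bt d => (0 : ℝ)) = 0 := by
    simp [EB]
  linarith

open scoped Classical in
theorem dev_block (hd : 1 ≤ d) (hq : 1 ≤ q) (f : Site d (k + 1) → Fin q) (c : Fin q)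
    (χ : Site d (k + 1) → ℝ) (hχ : ∀ x, χ x = 0 ∨ χ x = 1)
    (hz : ∀ v ∈ ods d (k + 1), χ v = zz f v c) (t : Blk d k) :
    dev f t c ≤ 5 * (pm χ t * (1 - pm χ t)) + 3 * (mb f t c - mt f t c) +
      (if bad c t f then 1 else 0) := by
  have hq' : (1 : ℝ) ≤ q := by exact_mod_cast hq
  have hv := pm_var_nonneg χ hχ t
  have hm := mt_le_mb f t c
  have hm0 := mt_nonneg f t c
  have hm1 := mt_le_one hd f t c
  have hδ : dl q ≤ 1 / 100 := by
    unfold dl
    rw [div_le_div_iff₀ (by positivity) (by norm_num)]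
    linarith
  have hif : (0 : ℝ) ≤ (if bad c t f then 1 else 0) := by split_ifs <;> norm_num
  by_cases hl : lab1 f t c
  · rw [dev_lab1 hd f t c hl]
    have hl' : 1 - dl q ≤ mb f t c := hl
    by_cases hh : 1 / 2 ≤ mt f t c
    · rcases hm1.eq_or_lt with he | hlt
      · rw [he] at hm ⊢
        have h3 : 0 ≤ mb f t c - 1 := by linarith
        linarith
      · have h4 := var_ge hd f c χ hχ hz t (δ := 1 - mt f t c) (by linarith) (by linarith)
          (by linarith) (by linarith)
        linarith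
    · have hh' := not_le.1 hh
      linarith
  · rw [dev_not f t c hl]
    by_cases hb : bad c t f
    · rw [if_pos hb]
      linarith
    · have hl0 : lab0 f t c := by
        by_contra h0
        exact hb ⟨hl, h0⟩
      have h5 : mb f t c ≤ dl q := (mb_le_mj f t c ⟨0, hd⟩).trans (hl0 ⟨0, hd⟩)
      rcases hm0.eq_or_lt with he | hlt
      · rw [← he] at hm ⊢
        linarith
      · have h4 := var_ge hd f c χ hχ hz t (δ := 2 * mt f t c) (by linarith) (by linarith)
          (by linarith) (by linarith)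
        linarith

open scoped Classical in
/-- sum over all blocks -/
theorem dev_sum (hd : 1 ≤ d) (hq : 1 ≤ q) (f : Site d (k + 1) → Fin q) (c : Fin q) :
    ∑ t : Blk d k, dev f t c ≤ 10 * d * (II f c + QQ f c) / 2 ^ d +
      ∑ t : Blk d k, (if bad c t f then (1 : ℝ) else 0) := by
  obtain ⟨χ, hχ, hz, hI⟩ := exists_chi hd (Nat.le_add_left 1 k) f c
  have hd' : (1 : ℝ) ≤ d := by exact_mod_cast hd
  refine (sum_le_sum fun t _ => dev_block hd hq f c χ hχ hz t).trans ?_
  rw [sum_add_distrib, sum_add_distrib, ← mul_sum, ← mul_sum]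
  have hv := sum_var χ hχ
  have hm := sum_mb f c
  have hv' : ∑ t : Blk d k, pm χ t * (1 - pm χ t) ≤ 1 / 4 * (8 * d * II f c) / 2 ^ d := by
    refine hv.trans (div_le_div_of_nonneg_right ?_ (by positivity))
    exact mul_le_mul_of_nonneg_left hI (by norm_num)
  have hQ : 0 ≤ QQ f c := by
    unfold QQ
    refine sum_nonneg fun v _ => ?_
    split_ifs
    · exact le_rfl
    · positivity
  have h2 : (0 : ℝ) < 2 ^ d := by positivity
  have h3 : 5 * (1 / 4 * (8 * d * II f c) / 2 ^ d) + 3 * (2 / 2 ^ d * QQ f c) ≤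
      10 * d * (II f c + QQ f c) / 2 ^ d := by
    rw [le_div_iff₀ h2]
    have e : (5 * (1 / 4 * (8 * (d : ℝ) * II f c) / 2 ^ d) + 3 * (2 / 2 ^ d * QQ f c)) * 2 ^ d =
        10 * d * II f c + 6 * QQ f c := by
      field_simp
      ring
    rw [e]
    nlinarith
  linarith

end Pool.Agent.LO

end

/-! ### from `Lib_MP_2c424f_lo.Maj` -/

section

/-!
# The global majority set of available colours (piece MAJ)

`Bst f`: the colours which are not seen by at least half of the odd sites.  If the deviations from the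
block labels and the disagreements with the labels of one block `t₁` are few, then `Bst f` is the label set
of `t₁`.  In all cases the number of odd sites whose set of available colours is not `Bst f` is controlled.
-/

set_option autoImplicit false

open Finset

namespace Pool.Agent.LO

variable {d k q : ℕ}

open scoped Classical in
/-- the global majority set of available colours -/
noncomputable def Bst (f : Site d k → Fin q) : Finset (Fin q) :=
  univ.filter fun c => ((ods d k).card : ℝ) ≤ 2 * ∑ v ∈ ods d k, zz f v c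

theorem mem_Bst (f : Site d k → Fin q) (c : Fin q) :
    c ∈ Bst f ↔ ((ods d k).card : ℝ) ≤ 2 * ∑ v ∈ ods d k, zz f v c := by
  unfold Bst
  rw [mem_filter]
  simp only [mem_univ, true_and]

private theorem Maj_card (hd : 1 ≤ d) :
    2 / 2 ^ d * ((ods d (k + 1)).card : ℝ) = (Fintype.card (Blk d k) : ℝ) := by
  have h := sum_EB (k := k) hd (fun _ => (1 : ℝ))
  simp only [card_od hd] at h
  rw [sum_const, sum_const, card_univ, nsmul_eq_mul, nsmul_eq_mul, mul_one, mul_one] at h
  exact h.symm

private theorem Maj_mt (hd : 1 ≤ d) (f : Site d (k + 1) → Fin q) (c : Fin q) :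
    2 / 2 ^ d * (∑ v ∈ ods d (k + 1), zz f v c) = ∑ t : Blk d k, mt f t c := by
  unfold mt
  exact (sum_EB hd (fun v => zz f v c)).symm

private theorem Maj_mem (hd : 1 ≤ d) (f : Site d (k + 1) → Fin q) (c : Fin q) :
    c ∈ Bst f ↔ (Fintype.card (Blk d k) : ℝ) ≤ 2 * ∑ t : Blk d k, mt f t c := by
  rw [mem_Bst, ← Maj_mt hd, ← Maj_card (k := k) hd]
  have h2 : (0 : ℝ) < 2 / 2 ^ d := by positivity
  constructor
  · intro h
    have := mul_le_mul_of_nonneg_left h h2.le
    linarith
  · intro h
    have h3 : 2 / 2 ^ d * ((ods d (k + 1)).card : ℝ) ≤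
        2 / 2 ^ d * (2 * ∑ v ∈ ods d (k + 1), zz f v c) := by
      linarith
    exact le_of_mul_le_mul_left h3 h2

open scoped Classical in
/-- the block `t` has another label than `t₁` -/
noncomputable def dif (f : Site d (k + 1) → Fin q) (t₁ t : Blk d k) (c : Fin q) : ℝ :=
  if (lab1 f t c ↔ lab1 f t₁ c) then 0 else 1

theorem dif_nonneg (f : Site d (k + 1) → Fin q) (t₁ t : Blk d k) (c : Fin q) : 0 ≤ dif f t₁ t c := by
  unfold dif
  split_ifs <;> norm_num

private theorem Maj_one_le (hd : 1 ≤ d) (f : Site d (k + 1) → Fin q) (t₁ t : Blk d k) (c : Fin q)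
    (h : lab1 f t₁ c) : 1 ≤ mt f t c + dev f t c + dif f t₁ t c := by
  by_cases hl : lab1 f t c
  · have := dif_nonneg f t₁ t c
    rw [dev_lab1 hd f t c hl]
    linarith
  · have h1 : dif f t₁ t c = 1 := by
      unfold dif
      rw [if_neg]
      intro h2
      exact hl (h2.2 h)
    have h2 := mt_nonneg f t c
    have h3 := dev_nonneg f t c
    linarith

private theorem Maj_le (hd : 1 ≤ d) (f : Site d (k + 1) → Fin q) (t₁ t : Blk d k) (c : Fin q)
    (h : ¬ lab1 f t₁ c) : mt f t c ≤ dev f t c + dif f t₁ t c := by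
  by_cases hl : lab1 f t c
  · have h1 : dif f t₁ t c = 1 := by
      unfold dif
      rw [if_neg]
      intro h2
      exact h (h2.1 hl)
    have h2 := mt_le_one hd f t c
    have h3 := dev_nonneg f t c
    linarith
  · have := dif_nonneg f t₁ t c
    rw [dev_not f t c hl]
    linarith

/-- if there are few deviations then `Bst f` is the label set of `t₁` -/
private theorem Maj_eq (hd : 1 ≤ d) (f : Site d (k + 1) → Fin q) (t₁ : Blk d k)
    (h : ∑ c, ∑ t : Blk d k, dev f t c + ∑ c, ∑ t : Blk d k, dif f t₁ t c <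
      (Fintype.card (Blk d k) : ℝ) / 2) (c : Fin q) : c ∈ Bst f ↔ lab1 f t₁ c := by
  have h1 : ∑ t : Blk d k, dev f t c ≤ ∑ c, ∑ t : Blk d k, dev f t c :=
    single_le_sum (f := fun c => ∑ t : Blk d k, dev f t c)
      (fun c' _ => sum_nonneg fun t _ => dev_nonneg f t c') (mem_univ c)
  have h2 : ∑ t : Blk d k, dif f t₁ t c ≤ ∑ c, ∑ t : Blk d k, dif f t₁ t c :=
    single_le_sum (f := fun c => ∑ t : Blk d k, dif f t₁ t c)
      (fun c' _ => sum_nonneg fun t _ => dif_nonneg f t₁ t c') (mem_univ c)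
  rw [Maj_mem hd]
  by_cases hl : lab1 f t₁ c
  · have h3 := sum_le_sum fun t (_ : t ∈ (univ : Finset (Blk d k))) => Maj_one_le hd f t₁ t c hl
    rw [sum_const, card_univ, nsmul_eq_mul, mul_one, sum_add_distrib, sum_add_distrib] at h3
    constructor
    · intro _
      exact hl
    · intro _
      linarith
  · have h3 := sum_le_sum fun t (_ : t ∈ (univ : Finset (Blk d k))) => Maj_le hd f t₁ t c hl
    rw [sum_add_distrib] at h3
    constructor
    · intro h4
      exfalso
      linarith
    · intro h4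
      exact absurd h4 hl

open scoped Classical in
private theorem Maj_pt (f : Site d (k + 1) → Fin q) (t₁ : Blk d k)
    (h : ∀ c, c ∈ Bst f ↔ lab1 f t₁ c) (t : Blk d k) (x : Site d (k + 1)) :
    (if (SS f x)ᶜ ≠ Bst f then (1 : ℝ) else 0) ≤
      ∑ c, |zz f x c - (if lab1 f t c then 1 else 0)| + ∑ c, dif f t₁ t c := by
  have hn1 : ∀ c ∈ (univ : Finset (Fin q)), 0 ≤ |zz f x c - (if lab1 f t c then (1 : ℝ) else 0)| :=
    fun c _ => abs_nonneg _
  have hn2 : ∀ c ∈ (univ : Finset (Fin q)), 0 ≤ dif f t₁ t c := fun c _ => dif_nonneg f t₁ t c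
  have hs1 := sum_nonneg hn1
  have hs2 := sum_nonneg hn2
  split_ifs with hne
  · obtain ⟨c, hc⟩ : ∃ c, ¬ (c ∈ (SS f x)ᶜ ↔ c ∈ Bst f) := by
      by_contra hcon
      push Not at hcon
      exact hne (Finset.ext hcon)
    rw [mem_compl, h c] at hc
    by_cases hd : (lab1 f t c ↔ lab1 f t₁ c)
    · have h1 : |zz f x c - (if lab1 f t c then (1 : ℝ) else 0)| = 1 := by
        unfold zz
        by_cases hS : c ∈ SS f x
        · rw [if_pos hS]
          have : lab1 f t c := by
            by_contra hl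
            exact hc ⟨fun h' => absurd hS h', fun h' => absurd (hd.2 h') hl⟩
          rw [if_pos this]
          norm_num
        · rw [if_neg hS]
          have : ¬ lab1 f t c := by
            intro hl
            exact hc ⟨fun _ => hd.1 hl, fun _ => hS⟩
          rw [if_neg this]
          norm_num
      have h2 := single_le_sum hn1 (mem_univ c)
      rw [h1] at h2
      linarith
    · have h1 : dif f t₁ t c = 1 := by
        unfold dif
        rw [if_neg hd]
      have h2 := single_le_sum hn2 (mem_univ c)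
      rw [h1] at h2
      linarith
  · linarith

open scoped Classical in
/-- the number of odd sites whose set of available colours is not `Bst f` -/
theorem maj_count (hd : 1 ≤ d) (f : Site d (k + 1) → Fin q) (t₁ : Blk d k) :
    2 / 2 ^ d * (∑ v ∈ ods d (k + 1), (if (SS f v)ᶜ ≠ Bst f then (1 : ℝ) else 0)) ≤
      2 * (∑ c, ∑ t : Blk d k, dev f t c + ∑ c, ∑ t : Blk d k, dif f t₁ t c) := by
  have hn1 : 0 ≤ ∑ c, ∑ t : Blk d k, dev f t c :=
    sum_nonneg fun c _ => sum_nonneg fun t _ => dev_nonneg f t c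
  have hn2 : 0 ≤ ∑ c, ∑ t : Blk d k, dif f t₁ t c :=
    sum_nonneg fun c _ => sum_nonneg fun t _ => dif_nonneg f t₁ t c
  rw [← sum_EB (k := k) hd (fun v => if (SS f v)ᶜ ≠ Bst f then (1 : ℝ) else 0)]
  by_cases h : ∑ c, ∑ t : Blk d k, dev f t c + ∑ c, ∑ t : Blk d k, dif f t₁ t c <
      (Fintype.card (Blk d k) : ℝ) / 2
  · have hB := Maj_eq hd f t₁ h
    have h1 : ∀ t : Blk d k, EB (fun a b => if (SS f (pt t a b))ᶜ ≠ Bst f then (1 : ℝ) else 0) ≤
        ∑ c, dev f t c + ∑ c, dif f t₁ t c := by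
      intro t
      have h2 : EB (fun a b => ∑ c, |zz f (pt t a b) c - (if lab1 f t c then (1 : ℝ) else 0)| +
          (∑ c, dif f t₁ t c) * 1) = ∑ c, dev f t c + ∑ c, dif f t₁ t c := by
        rw [EB_add, EB_mul, card_od hd, mul_one, EB_sum]
        rfl
      rw [← h2]
      refine EB_mono fun a b _ => ?_
      rw [mul_one]
      exact Maj_pt f t₁ hB t (pt t a b)
    have h3 := sum_le_sum fun t (_ : t ∈ (univ : Finset (Blk d k))) => h1 t
    rw [sum_add_distrib, sum_comm, sum_comm (f := fun t c => dif f t₁ t c)] at h3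
    linarith
  · have h' := not_lt.1 h
    have h1 : ∀ t : Blk d k, EB (fun a b => if (SS f (pt t a b))ᶜ ≠ Bst f then (1 : ℝ) else 0) ≤ 1 := by
      intro t
      refine le_trans (EB_mono (G := fun _ _ => (1 : ℝ)) fun a b _ => ?_) (card_od hd).le
      split_ifs <;> norm_num
    have h3 := sum_le_sum fun t (_ : t ∈ (univ : Finset (Blk d k))) => h1 t
    rw [sum_const, card_univ, nsmul_eq_mul, mul_one] at h3
    linarith

end Pool.Agent.LO

end

/-! ### from `Lib_MP_2c424f_lo.Trans` -/

section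

/-!
# Translations (piece TRANS)

The set `Bst f` is invariant under even translations, so the number of colourings for which the set of
available colours at `x` is not `Bst f` is the same for all odd sites `x`.
-/

set_option autoImplicit false

open Finset

namespace Pool.Agent.LO

variable {d k q : ℕ}

/-- reduction mod `2` -/
private def parr (hk : 1 ≤ k) : ZMod (2 ^ k) →+* ZMod 2 :=
  ZMod.castHom (dvd_pow_self 2 (by omega : k ≠ 0)) (ZMod 2)

private theorem evn_iff_parr (hk : 1 ≤ k) (x : Site d k) : evn x ↔ ∑ i, parr hk (x i) = 0 := by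
  unfold evn
  rw [← ZMod.natCast_eq_zero_iff_even]
  have : ((∑ i, (x i).val : ℕ) : ZMod 2) = ∑ i, parr hk (x i) := by
    push_cast
    refine sum_congr rfl fun i _ => ?_
    have h := map_natCast (parr hk) (x i).val
    rw [ZMod.natCast_zmod_val] at h
    exact h.symm
  rw [this]

theorem evn_add (hk : 1 ≤ k) (x y : Site d k) : evn (x + y) ↔ (evn x ↔ evn y) := by
  rw [evn_iff_parr hk, evn_iff_parr hk, evn_iff_parr hk]
  have h : ∑ i, parr hk ((x + y) i) = ∑ i, parr hk (x i) + ∑ i, parr hk (y i) := by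
    rw [← sum_add_distrib]
    refine sum_congr rfl fun i _ => ?_
    rw [Pi.add_apply, map_add]
  rw [h]
  generalize ∑ i, parr hk (x i) = a
  generalize ∑ i, parr hk (y i) = b
  revert a b
  decide

/-- the difference of two odd sites is even -/
theorem evn_sub_of_odd (hk : 1 ≤ k) {x y : Site d k} (hx : ¬ evn x) (hy : ¬ evn y) : evn (y - x) := by
  have h := evn_add hk (y - x) x
  rw [sub_add_cancel] at h
  by_contra hc
  exact hy (h.2 ⟨fun h' => absurd h' hc, fun h' => absurd h' hx⟩)

/-- even translations permute the odd sites -/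
theorem sum_ods_transl (hk : 1 ≤ k) {τ : Site d k} (hτ : evn τ) (φ : Site d k → ℝ) :
    ∑ v ∈ ods d k, φ (v + τ) = ∑ v ∈ ods d k, φ v := by
  classical
  have key : ∀ x : Site d k, evn (x + τ) ↔ evn x := fun x => by
    rw [evn_add hk]
    exact ⟨fun h => h.2 hτ, fun h => ⟨fun _ => hτ, fun _ => h⟩⟩
  refine Finset.sum_bij' (fun v _ => v + τ) (fun v _ => v - τ) ?_ ?_ ?_ ?_ ?_
  · intro v hv
    simp only [ods, mem_filter, mem_univ, true_and] at hv ⊢
    rwa [key]
  · intro v hv
    simp only [ods, mem_filter, mem_univ, true_and] at hv ⊢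
    rw [← key, sub_add_cancel]
    exact hv
  · intro v _
    simp
  · intro v _
    simp
  · intro v _
    rfl

theorem SS_transl (f : Site d k → Fin q) (τ v : Site d k) :
    SS (fun x => f (x + τ)) v = SS f (v + τ) := by
  unfold SS
  have h : ∀ σ : Stp d, f (v + sv σ + τ) = f (v + τ + sv σ) := by
    intro σ
    congr 1
    abel
  simp only [h]

theorem zz_transl (f : Site d k → Fin q) (τ v : Site d k) (c : Fin q) :
    zz (fun x => f (x + τ)) v c = zz f (v + τ) c := by
  unfold zz
  rw [SS_transl]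

theorem av_transl (f : Site d k → Fin q) (τ v : Site d k) :
    av (fun x => f (x + τ)) v = av f (v + τ) := by
  unfold av
  rw [SS_transl]

theorem Bst_transl (hk : 1 ≤ k) {τ : Site d k} (hτ : evn τ) (f : Site d k → Fin q) :
    Bst (fun x => f (x + τ)) = Bst f := by
  ext c
  rw [mem_Bst, mem_Bst]
  have h : ∑ v ∈ ods d k, zz (fun x => f (x + τ)) v c = ∑ v ∈ ods d k, zz f v c := by
    rw [← sum_ods_transl hk hτ (fun v => zz f v c)]
    exact sum_congr rfl fun v _ => zz_transl f τ v c
  rw [h]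

open scoped Classical in
/-- the number of colourings for which `x` deviates does not depend on the odd site `x` -/
theorem dvt_const (hk : 1 ≤ k) {x y : Site d k} (hx : ¬ evn x) (hy : ¬ evn y) :
    ∑ f ∈ prps d k q, (if (SS f x)ᶜ ≠ Bst f then (1 : ℝ) else 0) =
      ∑ f ∈ prps d k q, (if (SS f y)ᶜ ≠ Bst f then (1 : ℝ) else 0) := by
  have hτ := evn_sub_of_odd hk hx hy
  rw [← sum_transl (y - x) (fun f => if (SS f x)ᶜ ≠ Bst f then (1 : ℝ) else 0)]
  refine sum_congr rfl fun f _ => ?_
  have h1 : SS (fun z => f (z + (y - x))) x = SS f y := by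
    rw [SS_transl]
    congr 1
    abel
  rw [h1, Bst_transl hk hτ]

open scoped Classical in
theorem avt_const (x y : Site d k) (P : ℕ → Prop) :
    ∑ f ∈ prps d k q, (if P (av f x) then (1 : ℝ) else 0) =
      ∑ f ∈ prps d k q, (if P (av f y) then (1 : ℝ) else 0) := by
  rw [← sum_transl (y - x) (fun f => if P (av f x) then (1 : ℝ) else 0)]
  refine sum_congr rfl fun f _ => ?_
  have h1 : av (fun z => f (z + (y - x))) x = av f y := by
    rw [av_transl]
    congr 1
    abel
  rw [h1]

end Pool.Agent.LO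

end
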