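import Pool.Agent.Lib_MP_2c424f_ms.M02
import Pool.Agent.Lib_MP_2c424f_ms.M07

/-!
# MP_2c424f_pr: library of SharpThreshold and BoundaryThreshold (merged): merged library part M08

Concatenation of smaller files (each in its own section), only to save build time.
-/

namespace Pool.Agent.LO
end Pool.Agent.LO

namespace Pool.Agent.LIN
end Pool.Agent.LIN

/-! ### from `Lib_MP_2c424f_lin.F2a` -/

section

/-!
# H30 F2a: Finner's inequality on the torus, resummation of one class

* `cls` basics: a step changes the class, `card (cls b d k) = N/2`.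
* `finner_cls`: `finner` with `U` = class `!b`, `V` = class `b`, `J = Stp d`, `Nb v σ = v + sv σ` (injective in `σ` for
  `k ≥ 2`, `sv_inj`); the sum over `f : Site d k → S` has the factor `|S|^(N/2)` from the class `b`.
* `resum`: given the colours on the class `!b`, the colours on the class `b` are chosen independently, `av f v`
  possibilities at `v`; on the right side the values on the class `b` are free (`q^(N/2)`).
  `av f v` depends only on the colours of the neighbours of `v`.
-/

set_option autoImplicit false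

open Finset

namespace Pool.Agent.LIN

open Pool.Agent.LO

variable {d k q : ℕ}

theorem mem_cls_step (hk : 1 ≤ k) (b : Bool) (x : Site d k) (σ : Stp d) :
    x + sv σ ∈ cls b d k ↔ x ∈ cls (!b) d k := by
  have h := evn_step hk x σ
  cases b
  · simp only [cls, Bool.false_eq_true, if_false, Bool.not_false, if_true, ods, evs, mem_filter,
      mem_univ, true_and, h, not_not]
  · simp only [cls, Bool.not_true, Bool.false_eq_true, if_false, if_true, ods, evs, mem_filter,
      mem_univ, true_and, h]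

theorem cls_not (b : Bool) (x : Site d k) : x ∈ cls (!b) d k ↔ x ∉ cls b d k := by
  cases b
  · simp only [cls, Bool.false_eq_true, if_false, Bool.not_false, if_true, ods, evs, mem_filter,
      mem_univ, true_and, not_not]
  · simp only [cls, Bool.not_true, Bool.false_eq_true, if_false, if_true, ods, evs, mem_filter,
      mem_univ, true_and]

theorem card_cls (hd : 1 ≤ d) (hk : 1 ≤ k) (b : Bool) : ((cls b d k).card : ℝ) = NN d k / 2 := by
  cases b
  · simp only [cls, Bool.false_eq_true, if_false]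
    exact card_ods hd hk
  · simp only [cls, if_true]
    exact card_evs hd hk

private theorem F2a_mem_SS (f : Site d k → Fin q) (v : Site d k) (c : Fin q) :
    c ∈ SS f v ↔ ∃ σ : Stp d, f (v + sv σ) = c := by
  simp only [SS, mem_image, mem_univ, true_and]

open scoped Classical in
/-- properness is tested on one class -/
private theorem F2a_prp (hk : 1 ≤ k) (b : Bool) (f : Site d k → Fin q) :
    Prp f ↔ ∀ v ∈ cls b d k, f v ∉ SS f v := by
  constructor
  · intro hf v _ hv
    obtain ⟨σ, hσ⟩ := (F2a_mem_SS f v (f v)).1 hv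
    exact hf v σ hσ
  · intro h x σ hx
    by_cases hb : x ∈ cls b d k
    · exact h x hb ((F2a_mem_SS f x (f x)).2 ⟨σ, hx⟩)
    · have h1 : x + sv σ ∈ cls b d k := (mem_cls_step hk b x σ).2 ((cls_not b x).2 hb)
      refine h _ h1 ((F2a_mem_SS f _ _).2 ⟨(σ.1, !σ.2), ?_⟩)
      rw [add_assoc, show (sv σ : Site d k) + sv (σ.1, !σ.2) = 0 from sv_opp σ.1 σ.2, add_zero, hx]

open scoped Classical in
private theorem F2a_resum (hk : 1 ≤ k) (b : Bool) (φ : Site d k → ℕ → ℝ) :
    (q : ℝ) ^ (cls b d k).card * ∑ f : Site d k → Fin q,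
        ∏ v ∈ cls b d k, (if f v ∉ SS f v then φ v (av f v) else 0) =
      ∑ f : Site d k → Fin q, ∏ v ∈ cls b d k, ((av f v : ℝ) * φ v (av f v)) := by
  set e := Equiv.piEquivPiSubtypeProd (fun x : Site d k => x ∈ cls b d k) (fun _ => Fin q) with he
  rw [← e.symm.sum_comp, ← e.symm.sum_comp, Fintype.sum_prod_type_right,
    Fintype.sum_prod_type_right, mul_sum]
  refine sum_congr rfl fun h _ => ?_
  -- the colours seen from the class do not depend on the colours of the class
  have hSS : ∀ g g' : {x // x ∈ cls b d k} → Fin q, ∀ v ∈ cls b d k,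
      SS (e.symm (g, h)) v = SS (e.symm (g', h)) v := by
    intro g g' v hv
    unfold SS
    refine image_congr ?_
    intro σ _
    have h1 : v + sv σ ∉ cls b d k := by
      rw [mem_cls_step hk, cls_not]
      exact not_not.2 hv
    simp only [he, Equiv.piEquivPiSubtypeProd_symm_apply, dif_neg h1]
  rcases isEmpty_or_nonempty ({x // x ∈ cls b d k} → Fin q) with hE | ⟨⟨g₀⟩⟩
  · simp
  have hv : ∀ (g : {x // x ∈ cls b d k} → Fin q) (v : {x // x ∈ cls b d k}),
      e.symm (g, h) v.1 = g v := by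
    intro g v
    simp only [he, Equiv.piEquivPiSubtypeProd_symm_apply, dif_pos v.2, Subtype.coe_eta]
  have hL : ∀ g : {x // x ∈ cls b d k} → Fin q,
      ∏ v ∈ cls b d k, (if e.symm (g, h) v ∉ SS (e.symm (g, h)) v
        then φ v (av (e.symm (g, h)) v) else 0) =
      ∏ v : {x // x ∈ cls b d k}, (if g v ∉ SS (e.symm (g₀, h)) v.1
        then φ v.1 (av (e.symm (g₀, h)) v.1) else 0) := by
    intro g
    rw [← prod_coe_sort]
    refine prod_congr rfl fun v _ => ?_
    have h1 := hSS g g₀ v.1 v.2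
    have h2 : av (e.symm (g, h)) v.1 = av (e.symm (g₀, h)) v.1 := by
      unfold av
      rw [h1]
    rw [h1, h2, hv g v]
  have hR : ∀ g : {x // x ∈ cls b d k} → Fin q,
      ∏ v ∈ cls b d k, ((av (e.symm (g, h)) v : ℝ) * φ v (av (e.symm (g, h)) v)) =
      ∏ v : {x // x ∈ cls b d k}, ((av (e.symm (g₀, h)) v.1 : ℝ) *
        φ v.1 (av (e.symm (g₀, h)) v.1)) := by
    intro g
    rw [← prod_coe_sort]
    refine prod_congr rfl fun v _ => ?_
    have h2 : av (e.symm (g, h)) v.1 = av (e.symm (g₀, h)) v.1 := by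
      unfold av
      rw [hSS g g₀ v.1 v.2]
    rw [h2]
  rw [sum_congr rfl fun g _ => hL g, sum_congr rfl fun g _ => hR g, sum_const, card_univ,
    Fintype.card_fun, Fintype.card_fin, Fintype.card_coe, nsmul_eq_mul, Nat.cast_pow]
  congr 1
  have h3 := prod_univ_sum (fun _ : {x // x ∈ cls b d k} => (univ : Finset (Fin q)))
    (fun v c => if c ∉ SS (e.symm (g₀, h)) v.1
        then φ v.1 (av (e.symm (g₀, h)) v.1) else 0)
  rw [Fintype.piFinset_univ] at h3
  rw [← h3]
  refine prod_congr rfl fun v _ => ?_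
  rw [← sum_filter, sum_const, nsmul_eq_mul]
  congr 1
  rw [filter_not, card_sdiff_of_subset (filter_subset _ _)]
  have h4 : (univ.filter fun c : Fin q => c ∈ SS (e.symm (g₀, h)) v.1) =
      SS (e.symm (g₀, h)) v.1 := by
    ext c
    simp
  rw [h4, card_univ, Fintype.card_fin]
  rfl

theorem resum (hk : 1 ≤ k) (b : Bool) (φ : Site d k → ℕ → ℝ) :
    (q : ℝ) ^ (cls b d k).card * ∑ f ∈ prps d k q, ∏ v ∈ cls b d k, φ v (av f v) =
      ∑ f : Site d k → Fin q, ∏ v ∈ cls b d k, ((av f v : ℝ) * φ v (av f v)) := by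
  classical
  rw [← F2a_resum hk b φ]
  congr 1
  unfold prps
  rw [sum_filter]
  refine sum_congr rfl fun f _ => ?_
  by_cases hf : Prp f
  · rw [if_pos hf]
    refine prod_congr rfl fun v hv => ?_
    rw [if_pos ((F2a_prp hk b f).1 hf v hv)]
  · rw [if_neg hf]
    rw [F2a_prp hk b f] at hf
    push Not at hf
    obtain ⟨v, hv, h1⟩ := hf
    symm
    refine prod_eq_zero hv ?_
    rw [if_neg (not_not.2 h1)]

end Pool.Agent.LIN

end

/-! ### from `Lib_MP_2c424f_lin.L4a` -/

section

/-!
# H30 L4a: resampling one class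

`fib b f` = colourings which agree with `f` off the class `b` and are proper around the sites of the class `b`.
* `h ∈ fib b f` for proper `f`: `h` is proper, `SS h x = SS f x` for `x ∈ cls b`, `fib b h = fib b f`.
* `fib_sum`: `∑_f G f = ∑_f fm b G f` (double counting: `∑_f ∑_{h ∈ fib f} G h / |fib f| = ∑_h G h |fib h|/|fib h|`).
* `fm_prod`: for `U ⊆ cls b` and functions `φ v` of the colour at `v`:
  mean over the fibre of `∏_{v ∈ U} φ v (h v)` is `∏_{v ∈ U} (∑_{c ∉ SS f v} φ v c)/av f v` (`Finset.prod_univ_sum`,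
  `Fintype.piFinset`).
-/

set_option autoImplicit false

open Finset

namespace Pool.Agent.LIN

open Pool.Agent.LO

variable {d k q : ℕ}

private theorem L4a_cls (b : Bool) (x : Site d k) :
    x ∈ cls b d k ↔ (if b then evn x else ¬ evn x) := by
  unfold cls
  cases b
  · simp [ods]
  · simp [evs]

private theorem L4a_nbr (hk : 1 ≤ k) (b : Bool) (x : Site d k) (σ : Stp d) :
    x + sv σ ∈ cls b d k ↔ x ∉ cls b d k := by
  rw [L4a_cls, L4a_cls]
  have h := evn_step hk x σ
  cases b
  · simp only [Bool.false_eq_true, if_false]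
    rw [h]
  · simp only [if_true]
    exact h

private theorem L4a_mem (b : Bool) (f h : Site d k → Fin q) :
    h ∈ fib b f ↔ (∀ x ∈ cls b d k, h x ∉ SS f x) ∧ ∀ x, x ∉ cls b d k → h x = f x := by
  unfold fib
  rw [Fintype.mem_piFinset]
  constructor
  · intro hh
    refine ⟨fun x hx => ?_, fun x hx => ?_⟩
    · have := hh x
      rw [if_pos hx, mem_compl] at this
      exact this
    · have := hh x
      rw [if_neg hx, mem_singleton] at this
      exact this
  · rintro ⟨h1, h2⟩ x
    split_ifs with hx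
    · exact mem_compl.2 (h1 x hx)
    · exact mem_singleton.2 (h2 x hx)

private theorem L4a_SS (f : Site d k → Fin q) (x : Site d k) (σ : Stp d) :
    f (x + sv σ) ∈ SS f x := mem_image_of_mem _ (mem_univ σ)

theorem fib_self (b : Bool) {f : Site d k → Fin q} (hf : Prp f) : f ∈ fib b f := by
  rw [L4a_mem]
  refine ⟨fun x _ hx => ?_, fun _ _ => rfl⟩
  obtain ⟨σ, -, hσ⟩ := mem_image.1 hx
  exact hf x σ hσ

theorem fib_prp (hk : 1 ≤ k) (b : Bool) {f h : Site d k → Fin q} (hf : Prp f) (hh : h ∈ fib b f) : Prp h := by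
  obtain ⟨h1, h2⟩ := (L4a_mem b f h).1 hh
  intro x σ
  by_cases hx : x ∈ cls b d k
  · have h3 : x + sv σ ∉ cls b d k := fun h4 => (L4a_nbr hk b x σ).1 h4 hx
    rw [h2 _ h3]
    intro h4
    exact h1 x hx (h4 ▸ L4a_SS f x σ)
  · have h3 : x + sv σ ∈ cls b d k := (L4a_nbr hk b x σ).2 hx
    rw [h2 x hx]
    intro h4
    obtain ⟨i, c⟩ := σ
    have h5 := L4a_SS f (x + sv (i, c)) (i, !c)
    rw [add_assoc, sv_opp, add_zero, ← h4] at h5
    exact h1 _ h3 h5

theorem fib_off (b : Bool) {f h : Site d k → Fin q} (hh : h ∈ fib b f) (x : Site d k) (hx : x ∉ cls b d k) :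
    h x = f x := by
  exact ((L4a_mem b f h).1 hh).2 x hx

theorem fib_SS (hk : 1 ≤ k) (b : Bool) {f h : Site d k → Fin q} (hh : h ∈ fib b f) (x : Site d k)
    (hx : x ∈ cls b d k) : SS h x = SS f x := by
  unfold SS
  refine image_congr fun σ _ => ?_
  exact fib_off b hh _ fun h4 => (L4a_nbr hk b x σ).1 h4 hx

theorem fib_eq (hk : 1 ≤ k) (b : Bool) {f h : Site d k → Fin q} (hh : h ∈ fib b f) : fib b h = fib b f := by
  unfold fib
  congr 1
  funext x
  split_ifs with hx
  · rw [fib_SS hk b hh x hx]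
  · rw [fib_off b hh x hx]

theorem fib_sum (hk : 1 ≤ k) (b : Bool) (G : (Site d k → Fin q) → ℝ) :
    ∑ f ∈ prps d k q, G f = ∑ f ∈ prps d k q, fm b G f := by
  classical
  unfold fm
  simp_rw [Finset.sum_div]
  have hmem : ∀ f h : Site d k → Fin q, f ∈ prps d k q ∧ h ∈ fib b f ↔
      f ∈ fib b h ∧ h ∈ prps d k q := by
    have hone : ∀ f h : Site d k → Fin q, f ∈ prps d k q → h ∈ fib b f →
        f ∈ fib b h ∧ h ∈ prps d k q := by
      intro f h hf hh
      have hf' : Prp f := (mem_filter.1 hf).2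
      refine ⟨?_, mem_filter.2 ⟨mem_univ _, fib_prp hk b hf' hh⟩⟩
      rw [fib_eq hk b hh]
      exact fib_self b hf'
    intro f h
    exact ⟨fun hh => hone f h hh.1 hh.2, fun hh => (hone h f hh.2 hh.1).symm⟩
  rw [Finset.sum_comm' (s' := fun h => fib b h) (t' := prps d k q) hmem]
  refine Finset.sum_congr rfl fun h hh => ?_
  have hh' : Prp h := (mem_filter.1 hh).2
  have h1 : ∀ f ∈ fib b h, G h / ((fib b f).card : ℝ) = G h / ((fib b h).card : ℝ) := by
    intro f hf
    rw [fib_eq hk b hf]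
  rw [Finset.sum_congr rfl h1, sum_const, nsmul_eq_mul]
  have h2 : ((fib b h).card : ℝ) ≠ 0 := by
    rw [Nat.cast_ne_zero]
    exact card_ne_zero_of_mem (fib_self b hh')
  field_simp

end Pool.Agent.LIN

end

/-! ### from `Lib_MP_2c424f_lin.L7a` -/

section

/-!
# H30 L7a: conditional means, and the rare events for `z`, `ζ`, `ξ` (6.3)(iii)

* `fm_zz`: for `v ∈ cls b`, given the class `b` the neighbours of `v` are independent and uniform on their available
  colours; `zz h v c = ∏_σ 1[h (v + sv σ) ≠ c]` (distinct neighbours for `k ≥ 2`), so by `fm_prod` (class `!b`)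
  `fm (!b) (zz · v c) f = ∏_σ (1 - zz f (v+sv σ) c / av f (v+sv σ)) = zt f v c`.
* `zt h v c = zt f v c` and `PP (zz h · c) v = PP (zz f · c) v` for `h ∈ fib (!b) f`, `v ∈ cls b` (they depend on the
  class `b`).
* `zt_nonneg`, `zt_le_one`: `zz f u c = 1` implies `1 ≤ av f u` (and `0/0 = 0`).
* `fm_zm`: by `PP_fib`, `fm_zz` it is `ζ m ≤ m exp (-(2d/q) m) ≤ q/(2ed) ≤ q/(5d)` (`y exp (-y) ≤ 1/e`, `Real.add_one_le_exp`).
* `zt_le`: `zt ≤ exp (-(2d/q) m)`, `m = PP (zz · c) v` (`1 - y ≤ exp (-y)`, `av ≤ q`), `0 ≤ zt ≤ 1`.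
-/

set_option autoImplicit false

open Finset Filter

namespace Pool.Agent.LIN

open Pool.Agent.LO

variable {d k q : ℕ}

private theorem L7a_fac (f : Site d k → Fin q) (u : Site d k) (c : Fin q) :
    0 ≤ 1 - zz f u c / (av f u : ℝ) ∧ 1 - zz f u c / (av f u : ℝ) ≤ 1 ∧
      1 - zz f u c / (av f u : ℝ) ≤ Real.exp (-(zz f u c / q)) := by
  have hq : 0 < q := lt_of_le_of_lt (Nat.zero_le _) c.isLt
  have hq' : (0 : ℝ) < q := by exact_mod_cast hq
  unfold zz
  split_ifs with h
  · simp
  · have hcard : (SS f u).card < q := by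
      have h1 := Finset.card_lt_univ_of_notMem h
      rwa [Fintype.card_fin] at h1
    have hav : 1 ≤ av f u := by unfold av; omega
    have hav' : (1 : ℝ) ≤ av f u := by exact_mod_cast hav
    have havq : (av f u : ℝ) ≤ q := by
      have : av f u ≤ q := Nat.sub_le _ _
      exact_mod_cast this
    have h1 : (1 : ℝ) / av f u ≤ 1 := by
      rw [div_le_one (by linarith)]; exact hav'
    have h2 : (0 : ℝ) ≤ 1 / av f u := by positivity
    refine ⟨by linarith, by linarith, ?_⟩
    have h3 : (1 : ℝ) / q ≤ 1 / av f u := one_div_le_one_div_of_le (by linarith) havq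
    have h4 := Real.add_one_le_exp (-(1 / (q : ℝ)))
    linarith

theorem zt_nonneg (f : Site d k → Fin q) (v : Site d k) (c : Fin q) : 0 ≤ zt f v c :=
  Finset.prod_nonneg fun _ _ => (L7a_fac f _ c).1

theorem zt_le_one (f : Site d k → Fin q) (v : Site d k) (c : Fin q) : zt f v c ≤ 1 :=
  Finset.prod_le_one (fun _ _ => (L7a_fac f _ c).1) fun _ _ => (L7a_fac f _ c).2.1

theorem zt_le (hd : 1 ≤ d) {f : Site d k → Fin q} (hf : Prp f) (v : Site d k) (c : Fin q) :
    zt f v c ≤ Real.exp (-(2 * d / q * PP (fun x => zz f x c) v)) := by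
  have hd' : (0 : ℝ) < d := by exact_mod_cast hd
  have h1 : zt f v c ≤ ∏ σ : Stp d, Real.exp (-(zz f (v + sv σ) c / q)) :=
    Finset.prod_le_prod (fun _ _ => (L7a_fac f _ c).1) fun _ _ => (L7a_fac f _ c).2.2
  refine h1.trans (le_of_eq ?_)
  rw [← Real.exp_sum]
  congr 1
  rw [Finset.sum_neg_distrib, ← Finset.sum_div]
  unfold PP
  field_simp

theorem zt_fib (hk : 2 ≤ k) (b : Bool) {f h : Site d k → Fin q} (hh : h ∈ fib (!b) f) (v : Site d k)
    (hv : v ∈ cls b d k) (c : Fin q) : zt h v c = zt f v c := by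
  unfold zt
  refine Finset.prod_congr rfl fun σ _ => ?_
  have h1 : v + sv σ ∈ cls (!b) d k := by
    rw [mem_cls_step (by omega), Bool.not_not]
    exact hv
  have h2 := fib_SS (by omega) (!b) hh _ h1
  unfold zz av
  rw [h2]

theorem PP_fib (hk : 2 ≤ k) (b : Bool) {f h : Site d k → Fin q} (hh : h ∈ fib (!b) f) (v : Site d k)
    (hv : v ∈ cls b d k) (c : Fin q) : PP (fun x => zz h x c) v = PP (fun x => zz f x c) v := by
  unfold PP
  congr 1
  refine Finset.sum_congr rfl fun σ _ => ?_
  have h1 : v + sv σ ∈ cls (!b) d k := by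
    rw [mem_cls_step (by omega), Bool.not_not]
    exact hv
  have h2 := fib_SS (by omega) (!b) hh _ h1
  simp only [zz]
  rw [h2]

end Pool.Agent.LIN

end

/-! ### from `Lib_MP_2c424f_lin.F3a` -/

section

/-!
# H30 F3a: typicality and pressure

`WW b w = ∑_{g : class !b → [q]} ∏_{v ∈ cls b} (x_v + w)`, `x_v` = number of colours available at `v` (may be `0`); written
with free values on the class `b`, divided by `q^{N/2}`.  `WW b 0 = ZZ` (`resum` with `φ = 1`), `WW` is monotone in `w`,
`WW b 1 ≤ ZZ (q+1)` (last colour on the class `b` only).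
* `typ_expw`: `finner_cls` with `g c = ((x + w)/q) exp ((1-2x/q)^2)`, `x = q - card (image c)`: with `A = image c`,
  `t = 1 - 2|A|/q`: `∑_c (q g(c))^(2d) ≤ ∑_{A ⊆ [q]} (|A| (q-|A|+w) exp (t²))^(2d) ≤ 2^q ((q²/4)(1 + 4ew/q))^(2d)`, because
  `|A| (q-|A|+w) ≤ (q²/4)(1-t²) + q w`, `(1-t²) exp (t²) ≤ 1`, `exp (t²) ≤ e`.  So the left side is at most
  `(2^q (q²/4)^(2d) (1+4ew/q)^(2d))^(N/4d) ≤ exp (N (log (q/2) + q log 2/(4d) + 6w/q))` (the factors `q^(N/2)` cancel).
* `typ_exp0`: `w = 0` and `resum` with `φ _ x = exp ((1 - 2x/q)^2)`.  `pressure_le`: `exp ≥ 1`.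
* `pressure_ge`: odd sites coloured from `⌊q/2⌋` colours, even sites from the other `⌈q/2⌉`:
  `ZZ ≥ (⌊q/2⌋ ⌈q/2⌉)^(N/2) ≥ ((q²-1)/4)^(N/2)`, `log (1 - 1/q²) ≥ -2/q²` for `q ≥ 2`
  (`Lib_MP_2c424f_lo/Pbd.lean` has a lower bound of this kind).
-/

set_option autoImplicit false

open Finset

namespace Pool.Agent.LIN

open Pool.Agent.LO

variable {d k q : ℕ}

/-- partition function with an extra colour of weight `w` allowed on the class `b` -/
noncomputable def WW (d k q : ℕ) (b : Bool) (w : ℝ) : ℝ :=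
  ∑ f : Site d k → Fin q, ∏ v ∈ cls b d k, (((av f v : ℝ) + w) / q)

theorem WW_zero (hk : 1 ≤ k) (hq : 1 ≤ q) (b : Bool) : WW d k q b 0 = ZZ d k q := by
  have hq0 : (0 : ℝ) < q := by exact_mod_cast hq
  have h := resum (d := d) (k := k) (q := q) hk b (fun _ _ => 1)
  simp only [prod_const_one, sum_const, nsmul_eq_mul, mul_one] at h
  unfold WW ZZ
  have h2 : ∀ f : Site d k → Fin q, ∏ v ∈ cls b d k, (((av f v : ℝ) + 0) / q) =
      (∏ v ∈ cls b d k, (av f v : ℝ)) / (q : ℝ) ^ (cls b d k).card := by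
    intro f
    rw [prod_div_distrib, prod_const]
    simp only [add_zero]
  rw [sum_congr rfl fun f _ => h2 f, ← sum_div, ← h]
  field_simp

theorem WW_mono (b : Bool) {w w' : ℝ} (hw : 0 ≤ w) (hw' : w ≤ w') : WW d k q b w ≤ WW d k q b w' := by
  unfold WW
  refine sum_le_sum fun f _ => prod_le_prod (fun v _ => by positivity) fun v _ => ?_
  have : (av f v : ℝ) + w ≤ av f v + w' := by linarith
  exact div_le_div_of_nonneg_right this (Nat.cast_nonneg q)

/-- the colours allowed at `v` when the last of `q + 1` colours is used on the class `b` only -/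
private noncomputable def F3a_al (b : Bool) (f : Site d k → Fin q) (v : Site d k) :
    Finset (Fin (q + 1)) :=
  if v ∈ cls b d k then insert (Fin.last q) ((SS f v)ᶜ.map Fin.castSuccEmb) else {(f v).castSucc}

private theorem F3a_card (b : Bool) (f : Site d k → Fin q) (v : Site d k) :
    (F3a_al b f v).card = if v ∈ cls b d k then av f v + 1 else 1 := by
  unfold F3a_al
  split_ifs with h
  · rw [card_insert_of_notMem, card_map, card_compl, Fintype.card_fin]
    · rfl
    · intro h1
      rw [mem_map] at h1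
      obtain ⟨c, -, hc⟩ := h1
      exact (Fin.castSucc_lt_last c).ne hc
  · rw [card_singleton]

private theorem F3a_prp (hk : 1 ≤ k) (b : Bool) (f : Site d k → Fin q) (s : Site d k → Fin (q + 1))
    (hs : ∀ v, s v ∈ F3a_al b f v) : Prp s := by
  have key : ∀ x ∈ cls b d k, ∀ σ : Stp d, s (x + sv σ) ≠ s x := by
    intro x hx σ
    have hy : x + sv σ ∉ cls b d k := by
      rw [mem_cls_step hk, cls_not]
      exact not_not.2 hx
    have h1 := hs x
    have h2 := hs (x + sv σ)
    unfold F3a_al at h1 h2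
    rw [if_pos hx, mem_insert, mem_map] at h1
    rw [if_neg hy, mem_singleton] at h2
    rw [h2]
    rcases h1 with h1 | ⟨c, hc, hc'⟩
    · rw [h1]
      exact (Fin.castSucc_lt_last _).ne
    · intro h3
      rw [← hc'] at h3
      have h4 : f (x + sv σ) = c := Fin.castSucc_injective q h3
      rw [mem_compl] at hc
      apply hc
      unfold SS
      rw [mem_image]
      exact ⟨σ, mem_univ _, h4⟩
  intro x σ
  by_cases hx : x ∈ cls b d k
  · exact key x hx σ
  · have hy : x + sv σ ∈ cls b d k := by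
      rw [mem_cls_step hk, cls_not]
      exact hx
    obtain ⟨j, β⟩ := σ
    have h1 := key _ hy (j, !β)
    rw [add_assoc, sv_opp, add_zero] at h1
    exact fun h => h1 h.symm

theorem WW_one (hk : 1 ≤ k) (hq : 1 ≤ q) (b : Bool) : WW d k q b 1 ≤ ZZ d k (q + 1) := by
  classical
  have hq0 : (0 : ℝ) < q := by exact_mod_cast hq
  have h1 : ∑ f : Site d k → Fin q, ∏ v ∈ cls b d k, (av f v + 1) ≤
      q ^ (cls b d k).card * (prps d k (q + 1)).card := by
    have e1 : ∑ f : Site d k → Fin q, ∏ v ∈ cls b d k, (av f v + 1) =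
        ((univ : Finset (Site d k → Fin q)).sigma fun f => Fintype.piFinset (F3a_al b f)).card := by
      rw [card_sigma]
      refine sum_congr rfl fun f _ => ?_
      rw [Fintype.card_piFinset, prod_congr rfl fun v _ => F3a_card b f v, prod_ite_mem, univ_inter]
    have e2 : q ^ (cls b d k).card * (prps d k (q + 1)).card =
        ((univ : Finset (cls b d k → Fin q)) ×ˢ prps d k (q + 1)).card := by
      rw [card_product, card_univ, Fintype.card_fun, Fintype.card_fin, Fintype.card_coe]
    rw [e1, e2]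
    refine card_le_card_of_injOn (fun z => (fun x => z.1 x, z.2)) ?_ ?_
    · rintro ⟨f, s⟩ hz
      rw [mem_coe, mem_sigma, Fintype.mem_piFinset] at hz
      rw [mem_coe, mem_product]
      refine ⟨mem_univ _, ?_⟩
      unfold prps
      rw [mem_filter]
      exact ⟨mem_univ _, F3a_prp hk b f s hz.2⟩
    · rintro ⟨f, s⟩ hz ⟨f', s'⟩ hz' h
      rw [mem_coe, mem_sigma, Fintype.mem_piFinset] at hz hz'
      simp only [Prod.mk.injEq] at h
      obtain ⟨h2, rfl⟩ := h
      have h3 : f = f' := by
        funext x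
        by_cases hx : x ∈ cls b d k
        · exact congrFun h2 ⟨x, hx⟩
        · have h4 := hz.2 x
          have h5 := hz'.2 x
          unfold F3a_al at h4 h5
          rw [if_neg hx, mem_singleton] at h4 h5
          exact Fin.castSucc_injective q (h4.symm.trans h5)
      rw [h3]
  have h2 : (∑ f : Site d k → Fin q, ∏ v ∈ cls b d k, ((av f v : ℝ) + 1)) ≤
      (q : ℝ) ^ (cls b d k).card * ZZ d k (q + 1) := by
    unfold ZZ
    exact_mod_cast h1
  unfold WW
  have h3 : ∀ f : Site d k → Fin q, ∏ v ∈ cls b d k, (((av f v : ℝ) + 1) / q) =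
      (∏ v ∈ cls b d k, ((av f v : ℝ) + 1)) / (q : ℝ) ^ (cls b d k).card := by
    intro f
    rw [prod_div_distrib, prod_const]
  rw [sum_congr rfl fun f _ => h3 f, ← sum_div, div_le_iff₀ (by positivity), mul_comm]
  exact h2

end Pool.Agent.LIN

end

/-! ### from `Lib_MP_2c424f_thr.C1` -/

section

/-!
# THR C1: the code (paper proof: C1)

Split `F` according to the colours on `R` (at most `q^|R|` classes, one of them may be empty).  In a class `hhat f = H` is fixed.  For `f` in
the class: `1 ≤ exp (Λ - J f) = exp Λ · ∏_{u ∈ b} (exp (-H u (f u))/∑_γ exp (-H u γ)) · ∏_{v ∈ !b} 1/av f v`.  Sum over all proper `f`: for fixed colours on the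
class `b` the sum over the colours on `!b` (each `v` has `av f v` allowed colours, and `av f v` depends on the class `b` only) of
`∏ 1/av` is at most `1`; the sum over all colourings of the class `b` of the product of probabilities is `1`.
(For instance: `∑_{f ∈ prps} G f = ∑_{f : Site → Fin q} ...`; use functions `cls b → Fin q` or sum over all `f` with a factor `q^(-|!b|)`; see
`LIN.resum` for this trick.)
-/

set_option autoImplicit false

open Finset Filter

namespace Pool.Agent.THR

open Pool.Agent.LO Pool.Agent.LIN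

variable {d k q : ℕ}

/-- code length -/
noncomputable def JJ (b : Bool) (H : Site d k → Fin q → ℝ) (f : Site d k → Fin q) : ℝ :=
  ∑ u ∈ cls b d k, (H u (f u) + Real.log (∑ γ, Real.exp (-H u γ))) + ∑ v ∈ cls (!b) d k, Real.log (av f v)

private theorem C1_mem_SS (f : Site d k → Fin q) (v : Site d k) (c : Fin q) :
    c ∈ SS f v ↔ ∃ σ : Stp d, f (v + sv σ) = c := by
  simp only [SS, mem_image, mem_univ, true_and]

/-- properness is tested on one class -/
private theorem C1_prp (hk : 1 ≤ k) (b : Bool) (f : Site d k → Fin q) :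
    Prp f ↔ ∀ v ∈ cls b d k, f v ∉ SS f v := by
  constructor
  · intro hf v _ hv
    obtain ⟨σ, hσ⟩ := (C1_mem_SS f v (f v)).1 hv
    exact hf v σ hσ
  · intro h x σ hx
    by_cases hb : x ∈ cls b d k
    · exact h x hb ((C1_mem_SS f x (f x)).2 ⟨σ, hx⟩)
    · have h1 : x + sv σ ∈ cls b d k := (mem_cls_step hk b x σ).2 ((cls_not b x).2 hb)
      refine h _ h1 ((C1_mem_SS f _ _).2 ⟨(σ.1, !σ.2), ?_⟩)
      rw [add_assoc, show (sv σ : Site d k) + sv (σ.1, !σ.2) = 0 from sv_opp σ.1 σ.2, add_zero, hx]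

open scoped Classical in
/-- sum over the colours of one class, the weight depends on the other class only -/
private theorem C1_resum (hk : 1 ≤ k) (b : Bool) (p : Site d k → Fin q → ℝ) (hp : ∀ u c, 0 ≤ p u c)
    (hs : ∀ u, ∑ c, p u c = 1) :
    ∑ f ∈ prps d k q, (∏ u ∈ cls b d k, p u (f u)) * ∏ v ∈ cls (!b) d k, (1 / (av f v : ℝ)) ≤ 1 := by
  set e := Equiv.piEquivPiSubtypeProd (fun x : Site d k => x ∈ cls (!b) d k) (fun _ => Fin q) with he
  have hcb : ∀ x : Site d k, x ∈ cls b d k ↔ ¬ x ∈ cls (!b) d k := by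
    intro x
    rw [cls_not]
    exact not_not.symm
  have h0 : ∑ f ∈ prps d k q, (∏ u ∈ cls b d k, p u (f u)) * ∏ v ∈ cls (!b) d k, (1 / (av f v : ℝ)) =
      ∑ f : Site d k → Fin q, (∏ u ∈ cls b d k, p u (f u)) *
        ∏ v ∈ cls (!b) d k, (if f v ∉ SS f v then 1 / (av f v : ℝ) else 0) := by
    unfold prps
    rw [sum_filter]
    refine sum_congr rfl fun f _ => ?_
    by_cases hf : Prp f
    · rw [if_pos hf]
      congr 1
      refine prod_congr rfl fun v hv => ?_
      rw [if_pos ((C1_prp hk (!b) f).1 hf v hv)]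
    · rw [if_neg hf]
      rw [C1_prp hk (!b) f] at hf
      push Not at hf
      obtain ⟨v, hv, h1⟩ := hf
      symm
      refine mul_eq_zero_of_right _ (prod_eq_zero hv ?_)
      rw [if_neg (not_not.2 h1)]
  rw [h0, ← e.symm.sum_comp, Fintype.sum_prod_type_right]
  -- the colours seen from the class do not depend on the colours of the class
  have hSS : ∀ (h : {x // ¬ x ∈ cls (!b) d k} → Fin q) (g g' : {x // x ∈ cls (!b) d k} → Fin q), ∀ v ∈ cls (!b) d k,
      SS (e.symm (g, h)) v = SS (e.symm (g', h)) v := by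
    intro h g g' v hv
    unfold SS
    refine image_congr ?_
    intro σ _
    have h1 : v + sv σ ∉ cls (!b) d k := by
      rw [mem_cls_step hk, Bool.not_not]
      intro hc
      exact (hcb v).1 hc hv
    simp only [he, Equiv.piEquivPiSubtypeProd_symm_apply, dif_neg h1]
  have hstep : ∀ h : {x // ¬ x ∈ cls (!b) d k} → Fin q,
      ∑ g : {x // x ∈ cls (!b) d k} → Fin q, (∏ u ∈ cls b d k, p u (e.symm (g, h) u)) *
        ∏ v ∈ cls (!b) d k, (if e.symm (g, h) v ∉ SS (e.symm (g, h)) v then 1 / (av (e.symm (g, h)) v : ℝ) else 0) ≤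
      ∏ u : {x // ¬ x ∈ cls (!b) d k}, p u.1 (h u) := by
    intro h
    rcases isEmpty_or_nonempty ({x // x ∈ cls (!b) d k} → Fin q) with hE | ⟨⟨g₀⟩⟩
    · rw [Fintype.sum_empty]
      exact prod_nonneg fun u _ => hp _ _
    have hP : ∀ g : {x // x ∈ cls (!b) d k} → Fin q, ∏ u ∈ cls b d k, p u (e.symm (g, h) u) =
        ∏ u : {x // ¬ x ∈ cls (!b) d k}, p u.1 (h u) := by
      intro g
      rw [prod_subtype (cls b d k) hcb]
      refine prod_congr rfl fun u _ => ?_
      simp only [he, Equiv.piEquivPiSubtypeProd_symm_apply, dif_neg u.2, Subtype.coe_eta]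
    have hL : ∀ g : {x // x ∈ cls (!b) d k} → Fin q,
        ∏ v ∈ cls (!b) d k, (if e.symm (g, h) v ∉ SS (e.symm (g, h)) v then 1 / (av (e.symm (g, h)) v : ℝ) else 0) =
        ∏ v : {x // x ∈ cls (!b) d k}, (if g v ∉ SS (e.symm (g₀, h)) v.1
          then 1 / (av (e.symm (g₀, h)) v.1 : ℝ) else 0) := by
      intro g
      rw [← prod_coe_sort]
      refine prod_congr rfl fun v _ => ?_
      have h1 := hSS h g g₀ v.1 v.2
      have h2 : av (e.symm (g, h)) v.1 = av (e.symm (g₀, h)) v.1 := by
        unfold av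
        rw [h1]
      have h3 : e.symm (g, h) v.1 = g v := by
        simp only [he, Equiv.piEquivPiSubtypeProd_symm_apply, dif_pos v.2, Subtype.coe_eta]
      rw [h1, h2, h3]
    rw [sum_congr rfl fun g _ => by rw [hP g, hL g], ← mul_sum]
    have h3 := prod_univ_sum (fun _ : {x // x ∈ cls (!b) d k} => (univ : Finset (Fin q)))
      (fun v c => if c ∉ SS (e.symm (g₀, h)) v.1
          then 1 / (av (e.symm (g₀, h)) v.1 : ℝ) else 0)
    rw [Fintype.piFinset_univ] at h3
    rw [← h3]
    have h4 : ∏ v : {x // x ∈ cls (!b) d k}, ∑ c : Fin q, (if c ∉ SS (e.symm (g₀, h)) v.1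
          then 1 / (av (e.symm (g₀, h)) v.1 : ℝ) else 0) ≤ 1 := by
      refine prod_le_one (fun v _ => sum_nonneg fun c _ => by split_ifs <;> positivity) fun v _ => ?_
      rw [← sum_filter, sum_const, nsmul_eq_mul]
      have h5 : (univ.filter fun c : Fin q => c ∉ SS (e.symm (g₀, h)) v.1).card = av (e.symm (g₀, h)) v.1 := by
        rw [filter_not, card_sdiff_of_subset (filter_subset _ _)]
        have h6 : (univ.filter fun c : Fin q => c ∈ SS (e.symm (g₀, h)) v.1) =
            SS (e.symm (g₀, h)) v.1 := by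
          ext c
          simp
        rw [h6, card_univ, Fintype.card_fin]
        rfl
      rw [h5, mul_one_div]
      exact div_self_le_one _
    have h5 : 0 ≤ ∏ u : {x // ¬ x ∈ cls (!b) d k}, p u.1 (h u) := prod_nonneg fun u _ => hp _ _
    calc _ ≤ (∏ u : {x // ¬ x ∈ cls (!b) d k}, p u.1 (h u)) * 1 := mul_le_mul_of_nonneg_left h4 h5
      _ = _ := mul_one _
  refine (sum_le_sum fun h _ => hstep h).trans ?_
  have h6 := prod_univ_sum (fun _ : {x // ¬ x ∈ cls (!b) d k} => (univ : Finset (Fin q)))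
      (fun u c => p u.1 c)
  rw [Fintype.piFinset_univ] at h6
  rw [← h6]
  exact (prod_eq_one fun u _ => hs _).le

theorem code_fixed (hk : 1 ≤ k) (hq : 1 ≤ q) (b : Bool) (H : Site d k → Fin q → ℝ) :
    ∑ f ∈ prps d k q, Real.exp (-JJ b H f) ≤ 1 := by
  classical
  have : NeZero q := ⟨by omega⟩
  have hpos : ∀ u, 0 < ∑ γ, Real.exp (-H u γ) := fun u =>
    sum_pos (fun γ _ => Real.exp_pos _) ⟨0, mem_univ _⟩
  refine le_trans (le_of_eq ?_) (C1_resum (d := d) (k := k) hk b
    (fun u c => Real.exp (-H u c) / ∑ γ, Real.exp (-H u γ))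
    (fun u c => by have := hpos u; positivity)
    (fun u => by rw [← sum_div, div_self (hpos u).ne']))
  refine sum_congr rfl fun f hf => ?_
  have hPf : Prp f := by
    simpa [prps] using hf
  unfold JJ
  rw [neg_add, Real.exp_add, ← sum_neg_distrib, ← sum_neg_distrib, Real.exp_sum, Real.exp_sum]
  congr 1
  · refine prod_congr rfl fun u _ => ?_
    rw [neg_add, Real.exp_add, Real.exp_neg (Real.log _), Real.exp_log (hpos u), div_eq_mul_inv]
  · refine prod_congr rfl fun v hv => ?_
    have hav : 0 < av f v := by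
      have h1 := (C1_prp hk (!b) f).1 hPf v hv
      unfold av
      have h2 : (SS f v).card < q := by
        have := card_lt_card (s := SS f v) (t := univ) ⟨subset_univ _, fun hc => h1 (hc (mem_univ _))⟩
        rwa [card_univ, Fintype.card_fin] at this
      omega
    have hav' : (0 : ℝ) < (av f v : ℝ) := by exact_mod_cast hav
    rw [Real.exp_neg, Real.exp_log hav', one_div]

theorem code (hk : 1 ≤ k) (hq : 1 ≤ q) (b : Bool) (R : Finset (Site d k))
    (Hf : (Site d k → Fin q) → Site d k → Fin q → ℝ) (hloc : ∀ f g, (∀ x ∈ R, f x = g x) → Hf f = Hf g)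
    (F : Finset (Site d k → Fin q)) (hF : F ⊆ prps d k q) (Λ : ℝ) (h : ∀ f ∈ F, JJ b (Hf f) f ≤ Λ) :
    (F.card : ℝ) ≤ (q : ℝ) ^ R.card * Real.exp Λ := by
  classical
  let ρ : (Site d k → Fin q) → (R → Fin q) := fun f x => f x.1
  have h1 := card_eq_sum_card_fiberwise (s := F) (t := (univ : Finset (R → Fin q))) (f := ρ) fun f _ => by simp
  have h2 : ∀ r : R → Fin q, (((F.filter fun f => ρ f = r).card : ℕ) : ℝ) ≤ Real.exp Λ := by
    intro r
    rcases (F.filter fun f => ρ f = r).eq_empty_or_nonempty with he | ⟨f₀, hf₀⟩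
    · rw [he, card_empty, Nat.cast_zero]
      exact (Real.exp_pos _).le
    · have hf₀' := mem_filter.1 hf₀
      have h3 : ∀ f ∈ F.filter fun f => ρ f = r, (1 : ℝ) ≤ Real.exp Λ * Real.exp (-JJ b (Hf f₀) f) := by
        intro f hf
        have hf' := mem_filter.1 hf
        have h4 : Hf f = Hf f₀ := hloc f f₀ fun x hx => by
          have h5 : ρ f = ρ f₀ := hf'.2.trans hf₀'.2.symm
          exact congrFun h5 ⟨x, hx⟩
        have h5 := h f hf'.1
        rw [h4] at h5
        rw [← Real.exp_add]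
        exact Real.one_le_exp (by linarith)
      calc (((F.filter fun f => ρ f = r).card : ℕ) : ℝ)
          = ∑ f ∈ F.filter fun f => ρ f = r, (1 : ℝ) := by simp
        _ ≤ ∑ f ∈ F.filter fun f => ρ f = r, Real.exp Λ * Real.exp (-JJ b (Hf f₀) f) := sum_le_sum h3
        _ = Real.exp Λ * ∑ f ∈ F.filter fun f => ρ f = r, Real.exp (-JJ b (Hf f₀) f) := by rw [mul_sum]
        _ ≤ Real.exp Λ * ∑ f ∈ prps d k q, Real.exp (-JJ b (Hf f₀) f) := by
            refine mul_le_mul_of_nonneg_left ?_ (Real.exp_pos _).le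
            exact sum_le_sum_of_subset_of_nonneg ((filter_subset _ _).trans hF) fun f _ _ => (Real.exp_pos _).le
        _ ≤ Real.exp Λ * 1 := mul_le_mul_of_nonneg_left (code_fixed hk hq b (Hf f₀)) (Real.exp_pos _).le
        _ = Real.exp Λ := mul_one _
  rw [h1, Nat.cast_sum]
  calc ∑ r : R → Fin q, (((F.filter fun f => ρ f = r).card : ℕ) : ℝ) ≤ ∑ _r : R → Fin q, Real.exp Λ :=
        sum_le_sum fun r _ => h2 r
    _ = (q : ℝ) ^ R.card * Real.exp Λ := by
        rw [sum_const, card_univ, Fintype.card_fun, Fintype.card_fin, Fintype.card_coe, nsmul_eq_mul, Nat.cast_pow]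

end Pool.Agent.THR

end
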