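import Pool.Agent.Lib_MP_2c424f_ms.M10

/-!
# MP_2c424f_pr: library of SharpThreshold and BoundaryThreshold (merged): merged library part M11

Concatenation of smaller files (each in its own section), only to save build time.
-/

namespace Pool.Agent.LO
end Pool.Agent.LO

namespace Pool.Agent.LIN
end Pool.Agent.LIN

/-! ### from `Lib_MP_2c424f_lo.Refl` -/

section

/-!
# Reflections of sites and blocks (piece REFL)
-/

set_option autoImplicit false

open Finset

namespace Pool.Agent.LO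

variable {d k q : ℕ}

/-! ### The doubling map -/

/-- doubling -/
private def Refl_dbl (k : ℕ) (u : ZMod (2 ^ k)) : ZMod (2 ^ (k + 1)) := ((2 * u.val : ℕ) : ZMod (2 ^ (k + 1)))

private theorem Refl_dbl_cast (n : ℕ) :
    Refl_dbl k (n : ZMod (2 ^ k)) = ((2 * n : ℕ) : ZMod (2 ^ (k + 1))) := by
  unfold Refl_dbl
  rw [ZMod.natCast_eq_natCast_iff, ZMod.val_natCast, pow_succ, mul_comm (2 ^ k) 2]
  exact Nat.ModEq.mul_left' 2 (Nat.mod_modEq n (2 ^ k))

private theorem Refl_dbl_add (u v : ZMod (2 ^ k)) : Refl_dbl k (u + v) = Refl_dbl k u + Refl_dbl k v := by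
  have h : u + v = ((u.val + v.val : ℕ) : ZMod (2 ^ k)) := by
    push_cast
    rw [ZMod.natCast_zmod_val, ZMod.natCast_zmod_val]
  rw [h, Refl_dbl_cast]
  unfold Refl_dbl
  push_cast
  ring

private def Refl_dh (k : ℕ) : ZMod (2 ^ k) →+ ZMod (2 ^ (k + 1)) := AddMonoidHom.mk' (Refl_dbl k) Refl_dbl_add

private theorem Refl_dh_apply (u : ZMod (2 ^ k)) :
    Refl_dh k u = ((2 * u.val : ℕ) : ZMod (2 ^ (k + 1))) := rfl

private theorem Refl_dh_one : Refl_dh k 1 = 2 := by
  have h := Refl_dbl_cast (k := k) 1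
  rw [Nat.cast_one] at h
  show Refl_dbl k 1 = 2
  rw [h]
  norm_num

private theorem Refl_dh_two (u : ZMod (2 ^ k)) :
    Refl_dh k (2 * u) = ((4 * u.val : ℕ) : ZMod (2 ^ (k + 1))) := by
  rw [two_mul, map_add, Refl_dh_apply]
  push_cast
  ring

/-! ### Involutions -/

theorem rs_rs (j : Fin d) (α : ZMod (2 ^ k)) (x : Site d (k + 1)) : rs j α (rs j α x) = x := by
  unfold rs
  rw [Function.update_idem, Function.update_self, sub_sub_cancel, Function.update_eq_self]

theorem rb_rb (j : Fin d) (α : ZMod (2 ^ k)) (t : Blk d k) : rb j α (rb j α t) = t := by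
  unfold rb
  rw [Function.update_idem, Function.update_self, sub_sub_cancel, Function.update_eq_self]

private theorem Refl_pt_at (t : Blk d k) (a b : Bt d) (i : Fin d) :
    pt t a b i = Refl_dh k (t i) + (if a i then 1 else 0) + (if b i then 1 else 0) := rfl

theorem rs_pt (j : Fin d) (α : ZMod (2 ^ k)) (t : Blk d k) (a b : Bt d) :
    rs j α (pt t a b) = pt (rb j α t) (flp a j) (flp b j) := by
  funext i
  by_cases hi : i = j
  · subst hi
    have e1 : rs i α (pt t a b) i = ((4 * α.val : ℕ) : ZMod (2 ^ (k + 1))) - pt t a b i := by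
      unfold rs
      rw [Function.update_self]
    have e2 : rb i α t i = 2 * α - 1 - t i := by
      unfold rb
      rw [Function.update_self]
    have e3 : ∀ c : Bt d, flp c i i = !c i := by
      intro c
      unfold flp
      rw [Function.update_self]
    rw [e1, Refl_pt_at, Refl_pt_at, e2, e3, e3, map_sub, map_sub, Refl_dh_two, Refl_dh_one]
    cases a i <;> cases b i <;> simp <;> ring
  · have e1 : rs j α (pt t a b) i = pt t a b i := by
      unfold rs
      rw [Function.update_of_ne hi]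
    have e2 : rb j α t i = t i := by
      unfold rb
      rw [Function.update_of_ne hi]
    have e3 : ∀ c : Bt d, flp c j i = c i := by
      intro c
      unfold flp
      rw [Function.update_of_ne hi]
    rw [e1, Refl_pt_at, Refl_pt_at, e2, e3, e3]

theorem rs_step (j : Fin d) (α : ZMod (2 ^ k)) (x : Site d (k + 1)) (i : Fin d) (β : Bool) :
    rs j α (x + sv (i, β)) = rs j α x + sv (i, if i = j then !β else β) := by
  funext l
  by_cases hl : l = j
  · subst hl
    have e1 : ∀ z : Site d (k + 1), rs l α z l = ((4 * α.val : ℕ) : ZMod (2 ^ (k + 1))) - z l := by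
      intro z
      unfold rs
      rw [Function.update_self]
    rw [Pi.add_apply, e1, e1, Pi.add_apply]
    by_cases hi : i = l
    · subst hi
      unfold sv
      cases β <;> simp <;> ring
    · have h0 : ∀ c : Bool, (sv (i, c) : Site d (k + 1)) l = 0 := by
        intro c
        unfold sv
        exact Pi.single_eq_of_ne (Ne.symm hi) _
      rw [h0, h0]
      ring
  · have e1 : ∀ z : Site d (k + 1), rs j α z l = z l := by
      intro z
      unfold rs
      rw [Function.update_of_ne hl]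
    rw [Pi.add_apply, e1, e1, Pi.add_apply]
    by_cases hi : i = j
    · subst hi
      have h0 : ∀ c : Bool, (sv (i, c) : Site d (k + 1)) l = 0 := by
        intro c
        unfold sv
        exact Pi.single_eq_of_ne hl _
      rw [h0, h0]
    · rw [if_neg hi]

/-! ### Halves -/

private theorem Refl_val_neg_sub_one (n : ℕ) [NeZero n] (u : ZMod n) : (-u - 1).val = n - 1 - u.val := by
  have hu := ZMod.val_lt u
  have h1 : (-u - 1 : ZMod n) = ((n - 1 - u.val : ℕ) : ZMod n) := by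
    have h2 : ((n - 1 - u.val : ℕ) : ZMod n) + ((u.val + 1 : ℕ) : ZMod n) = 0 := by
      rw [← Nat.cast_add]
      have h3 : n - 1 - u.val + (u.val + 1) = n := by omega
      rw [h3, ZMod.natCast_self]
    rw [Nat.cast_add, Nat.cast_one, ZMod.natCast_zmod_val] at h2
    linear_combination -h2
  rw [h1, ZMod.val_natCast_of_lt (by omega)]

theorem lft_rb (hk : 1 ≤ k) (j : Fin d) (α : ZMod (2 ^ k)) (t : Blk d k) :
    lft j α (rb j α t) ↔ ¬ lft j α t := by
  unfold lft
  have e1 : rb j α t j - α = -(t j - α) - 1 := by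
    unfold rb
    rw [Function.update_self]
    ring
  rw [e1, Refl_val_neg_sub_one]
  have h1 := ZMod.val_lt (t j - α)
  have h2 : 2 ^ k = 2 * 2 ^ (k - 1) := by
    rw [← pow_succ']
    congr 1
    omega
  have h3 : 0 < 2 ^ (k - 1) := by positivity
  omega

private theorem Refl_pt_sub (t : Blk d k) (a b : Bt d) (j : Fin d) (α : ZMod (2 ^ k)) :
    pt t a b j - ((2 * α.val : ℕ) : ZMod (2 ^ (k + 1))) =
      ((2 * (t j - α).val + ((if a j then 1 else 0) + (if b j then 1 else 0)) : ℕ) :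
        ZMod (2 ^ (k + 1))) := by
  rw [Refl_pt_at]
  have e1 : ((2 * (t j - α).val + ((if a j then 1 else 0) + (if b j then 1 else 0)) : ℕ) :
        ZMod (2 ^ (k + 1))) = Refl_dh k (t j - α) + ((if a j then 1 else 0) + (if b j then 1 else 0)) := by
    rw [Refl_dh_apply]
    push_cast
    ring
  rw [e1, map_sub, Refl_dh_apply α]
  ring

/-- a block is contained in the closed left half or in the closed right half -/
theorem pt_half (hk : 1 ≤ k) (j : Fin d) (α : ZMod (2 ^ k)) (t : Blk d k) (a b : Bt d) :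
    (lft j α t → (pt t a b j - ((2 * α.val : ℕ) : ZMod (2 ^ (k + 1)))).val ≤ 2 ^ k) ∧
    (¬ lft j α t → (pt t a b j - ((2 * α.val : ℕ) : ZMod (2 ^ (k + 1)))).val = 0 ∨
      2 ^ k ≤ (pt t a b j - ((2 * α.val : ℕ) : ZMod (2 ^ (k + 1)))).val) := by
  rw [Refl_pt_sub]
  unfold lft
  have h1 := ZMod.val_lt (t j - α)
  have h2 : 2 ^ k = 2 * 2 ^ (k - 1) := by
    rw [← pow_succ']
    congr 1
    omega
  have h3 : 0 < 2 ^ (k - 1) := by positivity
  have h4 : 2 ^ (k + 1) = 2 * 2 ^ k := pow_succ' 2 k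
  have h5 : ((if a j then 1 else 0) + (if b j then 1 else 0) : ℕ) ≤ 2 := by
    cases a j <;> cases b j <;> simp
  generalize ((if a j then 1 else 0) + (if b j then 1 else 0) : ℕ) = e at h5 ⊢
  generalize (t j - α).val = u at h1 ⊢
  constructor
  · intro hu
    rw [ZMod.val_natCast_of_lt (by omega)]
    omega
  · intro hu
    by_cases h6 : 2 * u + e < 2 ^ (k + 1)
    · right
      rw [ZMod.val_natCast_of_lt h6]
      omega
    · left
      have h7 : 2 * u + e = 2 ^ (k + 1) := by omega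
      rw [h7, ZMod.natCast_self, ZMod.val_zero]

/-- `rs` exchanges the closed halves and fixes the planes -/
theorem rs_half (hk : 1 ≤ k) (j : Fin d) (α : ZMod (2 ^ k)) (x : Site d (k + 1)) :
    ((rs j α x) j - ((2 * α.val : ℕ) : ZMod (2 ^ (k + 1)))).val =
      (if (x j - ((2 * α.val : ℕ) : ZMod (2 ^ (k + 1)))).val = 0 then 0
        else 2 ^ (k + 1) - (x j - ((2 * α.val : ℕ) : ZMod (2 ^ (k + 1)))).val) := by
  have _ := hk
  have e1 : (rs j α x) j - ((2 * α.val : ℕ) : ZMod (2 ^ (k + 1))) =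
      -(x j - ((2 * α.val : ℕ) : ZMod (2 ^ (k + 1)))) := by
    unfold rs
    rw [Function.update_self]
    push_cast
    ring
  rw [e1, ZMod.neg_val]
  simp only [ZMod.val_eq_zero]

private theorem Refl_val_add_one (n : ℕ) (hn : 2 ≤ n) [NeZero n] (y : ZMod n) :
    (y.val + 1 < n ∧ (y + 1).val = y.val + 1) ∨ (y.val + 1 = n ∧ (y + 1).val = 0) := by
  have hy := ZMod.val_lt y
  have h1 : y + 1 = ((y.val + 1 : ℕ) : ZMod n) := by
    rw [Nat.cast_add, Nat.cast_one, ZMod.natCast_zmod_val]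
  by_cases h : y.val + 1 < n
  · left
    refine ⟨h, ?_⟩
    rw [h1, ZMod.val_natCast_of_lt h]
  · right
    have h2 : y.val + 1 = n := by omega
    refine ⟨h2, ?_⟩
    rw [h1, h2, ZMod.natCast_self, ZMod.val_zero]

/-- adjacent sites lie in a common closed half -/
theorem step_half (hk : 1 ≤ k) (j : Fin d) (α : ZMod (2 ^ k)) (x : Site d (k + 1)) (σ : Stp d) :
    ((x j - ((2 * α.val : ℕ) : ZMod (2 ^ (k + 1)))).val ≤ 2 ^ k ∧
      ((x + sv σ : Site d (k + 1)) j - ((2 * α.val : ℕ) : ZMod (2 ^ (k + 1)))).val ≤ 2 ^ k) ∨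
    (((x j - ((2 * α.val : ℕ) : ZMod (2 ^ (k + 1)))).val = 0 ∨
        2 ^ k ≤ (x j - ((2 * α.val : ℕ) : ZMod (2 ^ (k + 1)))).val) ∧
      (((x + sv σ : Site d (k + 1)) j - ((2 * α.val : ℕ) : ZMod (2 ^ (k + 1)))).val = 0 ∨
        2 ^ k ≤ ((x + sv σ : Site d (k + 1)) j - ((2 * α.val : ℕ) : ZMod (2 ^ (k + 1)))).val)) := by
  have h3 : 2 ≤ 2 ^ k := by
    calc 2 = 2 ^ 1 := by norm_num
      _ ≤ 2 ^ k := Nat.pow_le_pow_right (by norm_num) hk
  have h4 : 2 ^ (k + 1) = 2 * 2 ^ k := pow_succ' 2 k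
  rw [Pi.add_apply]
  obtain ⟨y, hy⟩ : ∃ y, y = x j - ((2 * α.val : ℕ) : ZMod (2 ^ (k + 1))) := ⟨_, rfl⟩
  have hz : ∀ s : ZMod (2 ^ (k + 1)), x j + s - ((2 * α.val : ℕ) : ZMod (2 ^ (k + 1))) = y + s := by
    intro s
    rw [hy]
    ring
  rw [hz, ← hy]
  have hyl := ZMod.val_lt y
  obtain ⟨i, β⟩ := σ
  by_cases hi : i = j
  · subst hi
    cases β with
    | true =>
      have e : (sv (i, true) : Site d (k + 1)) i = 1 := by
        unfold sv
        simp
      rw [e]
      rcases Refl_val_add_one (2 ^ (k + 1)) (by omega) y with ⟨h5, h6⟩ | ⟨h5, h6⟩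
      · rw [h6]
        omega
      · rw [h6]
        omega
    | false =>
      have e : (sv (i, false) : Site d (k + 1)) i = -1 := by
        unfold sv
        simp
      rw [e]
      obtain ⟨w, hw⟩ : ∃ w, w = y + -1 := ⟨_, rfl⟩
      have hyw : y = w + 1 := by
        rw [hw]
        ring
      rw [← hw, hyw]
      rcases Refl_val_add_one (2 ^ (k + 1)) (by omega) w with ⟨h5, h6⟩ | ⟨h5, h6⟩
      · rw [h6]
        omega
      · rw [h6]
        omega
  · have e : (sv (i, β) : Site d (k + 1)) j = 0 := by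
      unfold sv
      exact Pi.single_eq_of_ne (Ne.symm hi) _
    rw [e, add_zero]
    omega

end Pool.Agent.LO

end

/-! ### from `Lib_MP_2c424f_lin.E6` -/

section

/-!
# H30 E6: fibres over the plane `i j` (definitions)

A site is a plane position `(x,y)` and a fibre site `u` (`u i = u j = 0`): `stt i j x y u`.
Fat spins: `Yf i j d k → S`.  `Ph` = weight of the edges inside a fibre (directions `≠ i, j`); it is split into
fourth roots among the four plane edges at a plane position.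
-/

set_option autoImplicit false

open Finset

namespace Pool.Agent.LIN

open Pool.Agent.LO

variable {d k : ℕ} {S Λ : Type*}

/-- fibre sites -/
abbrev Yf (i j : Fin d) (k : ℕ) := {u : Site d k // u i = 0 ∧ u j = 0}

/-- the site over the plane position `(x,y)` -/
def stt (i j : Fin d) (x y : ZMod (2 ^ k)) (u : Site d k) : Site d k :=
  Function.update (Function.update u i x) j y

/-- step inside the fibre -/
def shf (i j : Fin d) (l : Fin d) (u : Yf i j k) : Yf i j k :=
  if h : l ≠ i ∧ l ≠ j then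
    ⟨u.1 + sv (l, true), by
      constructor
      · simp [sv, Pi.single_apply, u.2.1, h.1.symm]
      · simp [sv, Pi.single_apply, u.2.2, h.2.symm]⟩
  else u

open scoped Classical in
/-- a kernel, oriented by the parity of `x` -/
noncomputable def KO (K : S → S → ℝ) (x : Site d k) : S → S → ℝ :=
  if evn x then K else fun a b => K b a

/-- weight inside the fibre -/
noncomputable def Ph (K : Λ → S → S → ℝ) (w : Site d k → Fin d → Λ) (i j : Fin d) (x y : ZMod (2 ^ k))
    (a : Yf i j k → S) : ℝ :=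
  ∏ u : Yf i j k, ∏ l ∈ univ.filter (fun l => l ≠ i ∧ l ≠ j),
    KO (K (w (stt i j x y u.1) l)) (stt i j x y u.1) (a u) (a (shf i j l u))

/-- kernel of the plane edge `(x,y) → (x+1,y)` -/
noncomputable def KH (K : Λ → S → S → ℝ) (w : Site d k → Fin d → Λ) (i j : Fin d) (x y : ZMod (2 ^ k))
    (a b : Yf i j k → S) : ℝ :=
  Ph K w i j x y a ^ (1 / 4 : ℝ) * Ph K w i j (x + 1) y b ^ (1 / 4 : ℝ) *
    ∏ u : Yf i j k, KO (K (w (stt i j x y u.1) i)) (stt i j x y u.1) (a u) (b u)

/-- kernel of the plane edge `(x,y) → (x,y+1)` -/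
noncomputable def KV (K : Λ → S → S → ℝ) (w : Site d k → Fin d → Λ) (i j : Fin d) (x y : ZMod (2 ^ k))
    (a b : Yf i j k → S) : ℝ :=
  Ph K w i j x y a ^ (1 / 4 : ℝ) * Ph K w i j x (y + 1) b ^ (1 / 4 : ℝ) *
    ∏ u : Yf i j k, KO (K (w (stt i j x y u.1) j)) (stt i j x y u.1) (a u) (b u)

end Pool.Agent.LIN

end

/-! ### from `Lib_MP_2c424f_lin.E6a1` -/

section

/-!
# H30 E6a1: the model on the torus as a two-dimensional model with fat spins

Bijection `(x,y,u) ↦ stt i j x y u`, `f ↦ (fun (x,y) u => f (stt x y u))`.  In `Zg` every plane position has four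
edges, each with the factor `Ph^(1/4)`.  `stt (x+1) y u = stt x y u + e_i`, `stt x (y+1) u = stt x y u + e_j`,
`stt x y (shf l u) = stt x y u + e_l`; `K (w x l) (eE f x l) (eO f x l) = KO (K (w x l)) x (f x) (f (x + e_l))`.
`card_Yf`: `(2^k)^2 * card Yf = (2^k)^d`.
-/

set_option autoImplicit false

open Finset

namespace Pool.Agent.LIN

open Pool.Agent.LO

variable {d k : ℕ} {S Λ : Type*} [Fintype S]

private theorem E6a1_stt_i (i j : Fin d) (hij : i ≠ j) (x y : ZMod (2 ^ k)) (u : Site d k) :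
    stt i j x y u i = x := by
  unfold stt
  rw [Function.update_of_ne hij, Function.update_self]

private theorem E6a1_stt_j (i j : Fin d) (x y : ZMod (2 ^ k)) (u : Site d k) :
    stt i j x y u j = y := by
  unfold stt
  rw [Function.update_self]

private theorem E6a1_stt_l (i j l : Fin d) (hi : l ≠ i) (hj : l ≠ j) (x y : ZMod (2 ^ k))
    (u : Site d k) : stt i j x y u l = u l := by
  unfold stt
  rw [Function.update_of_ne hj, Function.update_of_ne hi]

/-- the bijection -/
private def E6a1_e (i j : Fin d) (hij : i ≠ j) :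
    (ZMod (2 ^ k) × ZMod (2 ^ k)) × Yf i j k ≃ Site d k where
  toFun q := stt i j q.1.1 q.1.2 q.2.1
  invFun s := ((s i, s j), ⟨stt i j 0 0 s, E6a1_stt_i i j hij 0 0 s, E6a1_stt_j i j 0 0 s⟩)
  left_inv := by
    rintro ⟨⟨x, y⟩, ⟨u, hu1, hu2⟩⟩
    refine Prod.ext (Prod.ext ?_ ?_) (Subtype.ext ?_)
    · exact E6a1_stt_i i j hij x y u
    · exact E6a1_stt_j i j x y u
    · funext l
      change stt i j 0 0 (stt i j x y u) l = u l
      by_cases hj : l = j
      · subst hj; rw [E6a1_stt_j, hu2]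
      · by_cases hi : l = i
        · subst hi; rw [E6a1_stt_i l j hij, hu1]
        · rw [E6a1_stt_l i j l hi hj, E6a1_stt_l i j l hi hj]
  right_inv := by
    intro s
    funext l
    change stt i j (s i) (s j) (stt i j 0 0 s) l = s l
    by_cases hj : l = j
    · subst hj; rw [E6a1_stt_j]
    · by_cases hi : l = i
      · subst hi; rw [E6a1_stt_i l j hij]
      · rw [E6a1_stt_l i j l hi hj, E6a1_stt_l i j l hi hj]

private theorem E6a1_add_i (i j : Fin d) (hij : i ≠ j) (x y : ZMod (2 ^ k)) (u : Site d k) :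
    stt i j x y u + sv (i, true) = stt i j (x + 1) y u := by
  funext l
  rw [Pi.add_apply]
  unfold sv
  by_cases hi : l = i
  · subst hi; rw [E6a1_stt_i l j hij, E6a1_stt_i l j hij]; simp
  · simp only [if_true]
    rw [Pi.single_eq_of_ne hi, add_zero]
    by_cases hj : l = j
    · subst hj; rw [E6a1_stt_j, E6a1_stt_j]
    · rw [E6a1_stt_l i j l hi hj, E6a1_stt_l i j l hi hj]

private theorem E6a1_add_j (i j : Fin d) (hij : i ≠ j) (x y : ZMod (2 ^ k)) (u : Site d k) :
    stt i j x y u + sv (j, true) = stt i j x (y + 1) u := by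
  funext l
  rw [Pi.add_apply]
  unfold sv
  by_cases hj : l = j
  · subst hj; rw [E6a1_stt_j, E6a1_stt_j]; simp
  · simp only [if_true]
    rw [Pi.single_eq_of_ne hj, add_zero]
    by_cases hi : l = i
    · subst hi; rw [E6a1_stt_i l j hij, E6a1_stt_i l j hij]
    · rw [E6a1_stt_l i j l hi hj, E6a1_stt_l i j l hi hj]

private theorem E6a1_add_l (i j : Fin d) (hij : i ≠ j) (l : Fin d) (h : l ≠ i ∧ l ≠ j)
    (x y : ZMod (2 ^ k)) (u : Yf i j k) :
    stt i j x y u.1 + sv (l, true) = stt i j x y (shf i j l u).1 := by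
  funext m
  rw [Pi.add_apply]
  unfold shf
  rw [dif_pos h]
  unfold sv
  simp only [if_true]
  by_cases hj : m = j
  · subst hj; rw [E6a1_stt_j, E6a1_stt_j, Pi.single_eq_of_ne h.2.symm, add_zero]
  · by_cases hi : m = i
    · subst hi; rw [E6a1_stt_i m j hij, E6a1_stt_i m j hij, Pi.single_eq_of_ne h.1.symm, add_zero]
    · rw [E6a1_stt_l i j m hi hj, E6a1_stt_l i j m hi hj, Pi.add_apply]

omit [Fintype S] in
private theorem E6a1_KO (K : Λ → S → S → ℝ) (w : Site d k → Fin d → Λ) (f : Site d k → S)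
    (x : Site d k) (l : Fin d) :
    K (w x l) (eE f x l) (eO f x l) = KO (K (w x l)) x (f x) (f (x + sv (l, true))) := by
  unfold eE eO KO
  by_cases h : evn x
  · rw [if_pos h, if_pos h, if_pos h]
  · rw [if_neg h, if_neg h, if_neg h]

omit [Fintype S] in
private theorem E6a1_KO_nonneg (K : S → S → ℝ) (hK : ∀ a b, 0 ≤ K a b) (x : Site d k) (a b : S) :
    0 ≤ KO K x a b := by
  unfold KO
  by_cases h : evn x
  · rw [if_pos h]; exact hK a b
  · rw [if_neg h]; exact hK b a

omit [Fintype S] in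
private theorem E6a1_Ph_nonneg (K : Λ → S → S → ℝ) (hK : ∀ l a b, 0 ≤ K l a b)
    (w : Site d k → Fin d → Λ) (i j : Fin d) (x y : ZMod (2 ^ k)) (a : Yf i j k → S) :
    0 ≤ Ph K w i j x y a :=
  prod_nonneg fun _ _ => prod_nonneg fun _ _ => E6a1_KO_nonneg _ (hK _) _ _ _

omit [Fintype S] in
/-- the weights agree -/
private theorem E6a1_weight (K : Λ → S → S → ℝ) (hK : ∀ l a b, 0 ≤ K l a b)
    (w : Site d k → Fin d → Λ) (i j : Fin d) (hij : i ≠ j) (f : Site d k → S) :
    ∏ x, ∏ l, K (w x l) (eE f x l) (eO f x l) =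
      ∏ p : ZMod (2 ^ k) × ZMod (2 ^ k),
        KH K w i j p.1 p.2 (fun u => f (stt i j p.1 p.2 u.1))
            (fun u => f (stt i j (p.1 + 1) p.2 u.1)) *
          KV K w i j p.1 p.2 (fun u => f (stt i j p.1 p.2 u.1))
            (fun u => f (stt i j p.1 (p.2 + 1) u.1)) := by
  classical
  set F : ZMod (2 ^ k) × ZMod (2 ^ k) → ℝ := fun p =>
    Ph K w i j p.1 p.2 (fun u => f (stt i j p.1 p.2 u.1)) with hF
  have hF0 : ∀ p, 0 ≤ F p := fun p => E6a1_Ph_nonneg K hK w i j p.1 p.2 _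
  set A : ZMod (2 ^ k) × ZMod (2 ^ k) → ℝ := fun p =>
    ∏ u : Yf i j k, KO (K (w (stt i j p.1 p.2 u.1) i)) (stt i j p.1 p.2 u.1)
      (f (stt i j p.1 p.2 u.1)) (f (stt i j (p.1 + 1) p.2 u.1)) with hA
  set B : ZMod (2 ^ k) × ZMod (2 ^ k) → ℝ := fun p =>
    ∏ u : Yf i j k, KO (K (w (stt i j p.1 p.2 u.1) j)) (stt i j p.1 p.2 u.1)
      (f (stt i j p.1 p.2 u.1)) (f (stt i j p.1 (p.2 + 1) u.1)) with hB
  -- left side
  have hL : ∏ x, ∏ l, K (w x l) (eE f x l) (eO f x l) = ∏ p, (A p * B p * F p) := by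
    rw [← (E6a1_e i j hij).prod_comp (fun x => ∏ l, K (w x l) (eE f x l) (eO f x l)),
      Fintype.prod_prod_type]
    refine prod_congr rfl fun p _ => ?_
    rw [hA, hB, hF]
    unfold Ph
    simp only
    rw [← prod_mul_distrib, ← prod_mul_distrib]
    refine prod_congr rfl fun u _ => ?_
    change ∏ l, K (w (stt i j p.1 p.2 u.1) l) (eE f (stt i j p.1 p.2 u.1) l)
      (eO f (stt i j p.1 p.2 u.1) l) = _
    set s := stt i j p.1 p.2 u.1 with hs
    rw [prod_congr rfl fun l _ => E6a1_KO K w f s l]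
    rw [← mul_prod_erase univ _ (mem_univ i)]
    have hj : j ∈ univ.erase i := mem_erase.2 ⟨hij.symm, mem_univ j⟩
    rw [← mul_prod_erase _ _ hj, ← mul_assoc]
    congr 1
    · rw [hs, E6a1_add_i i j hij, E6a1_add_j i j hij]
    · have he : (univ.erase i).erase j = univ.filter (fun l => l ≠ i ∧ l ≠ j) := by
        ext l
        simp only [mem_erase, mem_univ, and_true, mem_filter, true_and]
        tauto
      rw [he]
      refine prod_congr rfl fun l hl => ?_
      rw [mem_filter] at hl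
      rw [hs, E6a1_add_l i j hij l hl.2]
  have hR : ∏ p : ZMod (2 ^ k) × ZMod (2 ^ k),
        (KH K w i j p.1 p.2 (fun u => f (stt i j p.1 p.2 u.1))
            (fun u => f (stt i j (p.1 + 1) p.2 u.1)) *
          KV K w i j p.1 p.2 (fun u => f (stt i j p.1 p.2 u.1))
            (fun u => f (stt i j p.1 (p.2 + 1) u.1))) =
      ∏ p, ((F p ^ (1 / 4 : ℝ) * F (p.1 + 1, p.2) ^ (1 / 4 : ℝ) * A p) *
        (F p ^ (1 / 4 : ℝ) * F (p.1, p.2 + 1) ^ (1 / 4 : ℝ) * B p)) := rfl
  rw [hL, hR]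
  have h1 : ∏ p : ZMod (2 ^ k) × ZMod (2 ^ k), F (p.1 + 1, p.2) ^ (1 / 4 : ℝ) =
      ∏ p, F p ^ (1 / 4 : ℝ) :=
    ((Equiv.addRight (1 : ZMod (2 ^ k))).prodCongr (Equiv.refl _)).prod_comp
      (fun p : ZMod (2 ^ k) × ZMod (2 ^ k) => F p ^ (1 / 4 : ℝ))
  have h2 : ∏ p : ZMod (2 ^ k) × ZMod (2 ^ k), F (p.1, p.2 + 1) ^ (1 / 4 : ℝ) =
      ∏ p, F p ^ (1 / 4 : ℝ) :=
    ((Equiv.refl _).prodCongr (Equiv.addRight (1 : ZMod (2 ^ k)))).prod_comp
      (fun p : ZMod (2 ^ k) × ZMod (2 ^ k) => F p ^ (1 / 4 : ℝ))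
  have h3 : ∏ p, F p = (∏ p, F p ^ (1 / 4 : ℝ)) * (∏ p, F p ^ (1 / 4 : ℝ)) *
      ((∏ p, F p ^ (1 / 4 : ℝ)) * (∏ p, F p ^ (1 / 4 : ℝ))) := by
    rw [← prod_mul_distrib, ← prod_mul_distrib]
    refine prod_congr rfl fun p _ => ?_
    have h4 : F p = (F p ^ (1 / 4 : ℝ)) ^ (4 : ℕ) := by
      rw [← Real.rpow_natCast, ← Real.rpow_mul (hF0 p)]
      norm_num
    nth_rewrite 1 [h4]
    ring
  simp only [prod_mul_distrib]
  rw [h1, h2, h3]
  ring

theorem Zw_fib (K : Λ → S → S → ℝ) (hK : ∀ l a b, 0 ≤ K l a b) (w : Site d k → Fin d → Λ) (i j : Fin d)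
    (hij : i ≠ j) : Zw K w = Zg k (KH K w i j) (KV K w i j) := by
  classical
  unfold Zw Zg
  rw [sum_congr rfl fun f _ => E6a1_weight K hK w i j hij f]
  let E : (Site d k → S) ≃ (ZMod (2 ^ k) × ZMod (2 ^ k) → Yf i j k → S) :=
    ((E6a1_e i j hij).symm.arrowCongr (Equiv.refl S)).trans (Equiv.curry _ _ _)
  rw [← E.sum_comp]
  rfl

end Pool.Agent.LIN

end

/-! ### from `Lib_MP_2c424f_lin.E6a2` -/

section

/-!
# H30 E6a2: the model on the torus as a two-dimensional model with fat spins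

Bijection `(x,y,u) ↦ stt i j x y u`, `f ↦ (fun (x,y) u => f (stt x y u))`.  In `Zg` every plane position has four
edges, each with the factor `Ph^(1/4)`.  `stt (x+1) y u = stt x y u + e_i`, `stt x (y+1) u = stt x y u + e_j`,
`stt x y (shf l u) = stt x y u + e_l`; `K (w x l) (eE f x l) (eO f x l) = KO (K (w x l)) x (f x) (f (x + e_l))`.
`card_Yf`: `(2^k)^2 * card Yf = (2^k)^d`.
-/

set_option autoImplicit false

open Finset

namespace Pool.Agent.LIN

open Pool.Agent.LO

variable {d k : ℕ} {S Λ : Type*} [Fintype S]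

/-- the bijection between triples and sites -/
private def e6a2_equiv (i j : Fin d) (hij : i ≠ j) :
    (ZMod (2 ^ k) × ZMod (2 ^ k)) × Yf i j k ≃ Site d k where
  toFun q := stt i j q.1.1 q.1.2 q.2.1
  invFun x := ((x i, x j), ⟨stt i j 0 0 x, by
    rw [stt]
    exact ⟨by rw [Function.update_of_ne hij, Function.update_self], by rw [Function.update_self]⟩⟩)
  left_inv := by
    rintro ⟨⟨a, b⟩, ⟨u, hu1, hu2⟩⟩
    refine Prod.ext (Prod.ext ?_ ?_) (Subtype.ext ?_)
    · change stt i j a b u i = a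
      rw [stt, Function.update_of_ne hij, Function.update_self]
    · change stt i j a b u j = b
      rw [stt, Function.update_self]
    · change stt i j 0 0 (stt i j a b u) = u
      funext l
      rcases eq_or_ne l j with rfl | hlj
      · rw [stt, Function.update_self, hu2]
      rcases eq_or_ne l i with rfl | hli
      · rw [stt, Function.update_of_ne hlj, Function.update_self, hu1]
      rw [stt, Function.update_of_ne hlj, Function.update_of_ne hli, stt,
        Function.update_of_ne hlj, Function.update_of_ne hli]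
  right_inv x := by
    change stt i j (x i) (x j) (stt i j 0 0 x) = x
    funext l
    rcases eq_or_ne l j with rfl | hlj
    · rw [stt, Function.update_self]
    rcases eq_or_ne l i with rfl | hli
    · rw [stt, Function.update_of_ne hlj, Function.update_self]
    rw [stt, Function.update_of_ne hlj, Function.update_of_ne hli, stt,
      Function.update_of_ne hlj, Function.update_of_ne hli]

theorem card_Yf (i j : Fin d) (hij : i ≠ j) :
    ((2 : ℝ) ^ k) ^ 2 * (Fintype.card (Yf i j k) : ℝ) = NN d k := by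
  have h1 := Fintype.card_congr (e6a2_equiv (k := k) i j hij)
  rw [Fintype.card_prod, Fintype.card_prod, ZMod.card] at h1
  have h2 : Fintype.card (Site d k) = (2 ^ k) ^ d := by
    rw [Fintype.card_fun, ZMod.card, Fintype.card_fin]
  rw [h2] at h1
  have h3 : (((2 ^ k * 2 ^ k * Fintype.card (Yf i j k) : ℕ)) : ℝ) = (((2 ^ k) ^ d : ℕ) : ℝ) := by
    rw [h1]
  rw [NN]
  push_cast at h3
  rw [sq]
  exact h3

end Pool.Agent.LIN

end

/-! ### from `Lib_MP_2c424f_thr.S4a` -/

section

/-!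
# THR S4a: a union bound (paper proof: S4)

With `∂G = {v : some neighbour in G}`, `|∂G| ≤ 2d|G|`: for `0 < x ≤ 1`,
`1[M/2 ≤ |A|] 1[B|G| ≤ 4|A|] ≤ 2^(|A| - M/2) x^(|G| - 4|A|/B)`, so the sum over `A ⊆ ∂G` (weights `r^|A|`) is at most
`2^(-M/2) x^|G| (1+y)^(2d|G|)`, `y = 2 r x^(-4/B)`, and the sum over `G` is at most
`2^(-M/2) (1 + x e^(2dy))^N ≤ 2^(-M/2) exp (N x e^(2dy))`.
-/

set_option autoImplicit false

open Finset Filter

namespace Pool.Agent.THR

open Pool.Agent.LO Pool.Agent.LIN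

/-- sum of `a ^ |t|` over all subsets of `s` -/
private theorem S4a_powerset_sum {α : Type*} (s : Finset α) (a : ℝ) :
    ∑ t ∈ s.powerset, a ^ t.card = (1 + a) ^ s.card := by
  have h := Finset.sum_pow_mul_eq_add_pow a 1 s
  simp only [one_pow, mul_one] at h
  rw [h, add_comm]

open scoped Classical in
private theorem S4a_bdry {d k : ℕ} (G : Finset (Site d k)) :
    (univ.filter fun v : Site d k => ∃ σ : Stp d, v + sv σ ∈ G).card ≤ 2 * d * G.card := by
  have hsub : (univ.filter fun v : Site d k => ∃ σ : Stp d, v + sv σ ∈ G) ⊆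
      (G ×ˢ (univ : Finset (Stp d))).image fun p => p.1 - sv p.2 := by
    intro v hv
    obtain ⟨σ, hσ⟩ := (mem_filter.1 hv).2
    refine mem_image.2 ⟨(v + sv σ, σ), mem_product.2 ⟨hσ, mem_univ _⟩, ?_⟩
    simp
  refine (card_le_card hsub).trans (card_image_le.trans ?_)
  rw [card_product]
  have : (univ : Finset (Stp d)).card = d * 2 := by
    simp [Finset.card_univ, Fintype.card_prod]
  rw [this]
  exact le_of_eq (by ring)

private theorem S4a_term {r x M : ℝ} {B a g : ℕ} (hB : 1 ≤ B) (hr : 0 ≤ r) (hx : 0 < x) (hx1 : x ≤ 1)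
    (hM : M / 2 ≤ (a : ℝ)) (hg : (g : ℝ) * B ≤ 4 * a) :
    r ^ a ≤ (2 : ℝ) ^ (-(M / 2)) * (x ^ g * (2 * r * x ^ (-(4 / (B : ℝ)))) ^ a) := by
  have hB0 : (0 : ℝ) < B := by exact_mod_cast hB
  have h2 : (1 : ℝ) ≤ (2 : ℝ) ^ (-(M / 2)) * (2 : ℝ) ^ a := by
    rw [← Real.rpow_natCast, ← Real.rpow_add (by norm_num)]
    apply Real.one_le_rpow (by norm_num)
    linarith
  have h3 : (1 : ℝ) ≤ x ^ g * (x ^ (-(4 / (B : ℝ)))) ^ a := by
    rw [← Real.rpow_natCast x g, ← Real.rpow_natCast (x ^ (-(4 / (B : ℝ)))) a, ← Real.rpow_mul hx.le,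
      ← Real.rpow_add hx]
    apply Real.one_le_rpow_of_pos_of_le_one_of_nonpos hx hx1
    have : (g : ℝ) ≤ 4 / B * a := by
      rw [div_mul_eq_mul_div, le_div_iff₀ hB0]
      exact hg
    linarith
  have h4 : (2 : ℝ) ^ (-(M / 2)) * (x ^ g * (2 * r * x ^ (-(4 / (B : ℝ)))) ^ a) =
      r ^ a * (((2 : ℝ) ^ (-(M / 2)) * (2 : ℝ) ^ a) * (x ^ g * (x ^ (-(4 / (B : ℝ)))) ^ a)) := by
    rw [mul_pow, mul_pow]
    ring
  rw [h4]
  have h5 : (1 : ℝ) ≤ ((2 : ℝ) ^ (-(M / 2)) * (2 : ℝ) ^ a) * (x ^ g * (x ^ (-(4 / (B : ℝ)))) ^ a) :=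
    one_le_mul_of_one_le_of_one_le h2 h3
  exact le_mul_of_one_le_right (pow_nonneg hr a) h5

open scoped Classical in
theorem pair_sum {d k : ℕ} (hd : 1 ≤ d) (M r x : ℝ) (B : ℕ) (hB : 1 ≤ B) (hr : 0 ≤ r) (hx : 0 < x) (hx1 : x ≤ 1) :
    ∑ p ∈ (univ : Finset (Finset (Site d k) × Finset (Site d k))).filter (fun p =>
        (∀ v ∈ p.2, ∃ σ : Stp d, v + sv σ ∈ p.1) ∧ M / 2 ≤ (p.2.card : ℝ) ∧ (p.1.card : ℝ) * B ≤ 4 * p.2.card),
      r ^ p.2.card ≤
      (2 : ℝ) ^ (-(M / 2)) * Real.exp (NN d k * (x * Real.exp (2 * d * (2 * r * x ^ (-(4 / (B : ℝ))))))) := by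
  set y : ℝ := 2 * r * x ^ (-(4 / (B : ℝ))) with hy
  have hy0 : 0 ≤ y := mul_nonneg (mul_nonneg (by norm_num) hr) (Real.rpow_nonneg hx.le _)
  have h20 : (0 : ℝ) ≤ (2 : ℝ) ^ (-(M / 2)) := Real.rpow_nonneg (by norm_num) _
  set bd : Finset (Site d k) → Finset (Site d k) :=
    fun G => univ.filter fun v : Site d k => ∃ σ : Stp d, v + sv σ ∈ G with hbd
  -- step 1: the weight of every pair
  have h1 : ∑ p ∈ (univ : Finset (Finset (Site d k) × Finset (Site d k))).filter (fun p =>
        (∀ v ∈ p.2, ∃ σ : Stp d, v + sv σ ∈ p.1) ∧ M / 2 ≤ (p.2.card : ℝ) ∧ (p.1.card : ℝ) * B ≤ 4 * p.2.card),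
      r ^ p.2.card ≤
      ∑ p ∈ (univ : Finset (Finset (Site d k) × Finset (Site d k))).filter (fun p => p.2 ⊆ bd p.1),
        (2 : ℝ) ^ (-(M / 2)) * (x ^ p.1.card * y ^ p.2.card) := by
    refine (Finset.sum_le_sum (g := fun p => (2 : ℝ) ^ (-(M / 2)) * (x ^ p.1.card * y ^ p.2.card)) ?_).trans
      (Finset.sum_le_sum_of_subset_of_nonneg ?_ ?_)
    · intro p hp
      obtain ⟨_, _, hM, hg⟩ := mem_filter.1 hp
      exact S4a_term hB hr hx hx1 hM hg
    · intro p hp
      obtain ⟨_, h, _, _⟩ := mem_filter.1 hp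
      refine mem_filter.2 ⟨mem_univ _, fun v hv => mem_filter.2 ⟨mem_univ _, h v hv⟩⟩
    · intro p _ _
      exact mul_nonneg h20 (mul_nonneg (pow_nonneg hx.le _) (pow_nonneg hy0 _))
  refine h1.trans ?_
  rw [← Finset.mul_sum]
  refine mul_le_mul_of_nonneg_left ?_ h20
  -- step 2: the sum over `A`
  have h2 : ∑ p ∈ (univ : Finset (Finset (Site d k) × Finset (Site d k))).filter (fun p => p.2 ⊆ bd p.1),
      x ^ p.1.card * y ^ p.2.card =
      ∑ G : Finset (Site d k), x ^ G.card * (1 + y) ^ (bd G).card := by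
    rw [Finset.sum_filter, ← Finset.univ_product_univ, Finset.sum_product]
    refine Finset.sum_congr rfl fun G _ => ?_
    rw [← Finset.sum_filter]
    have : (univ.filter fun A : Finset (Site d k) => A ⊆ bd G) = (bd G).powerset := by
      ext A
      simp
    simp only []
    rw [this, ← Finset.mul_sum, S4a_powerset_sum]
  rw [h2]
  -- step 3: the sum over `G`
  have h3 : ∀ G : Finset (Site d k), x ^ G.card * (1 + y) ^ (bd G).card ≤
      (x * Real.exp (2 * d * y)) ^ G.card := by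
    intro G
    rw [mul_pow]
    refine mul_le_mul_of_nonneg_left ?_ (pow_nonneg hx.le _)
    calc (1 + y) ^ (bd G).card ≤ (1 + y) ^ (2 * d * G.card) :=
          pow_le_pow_right₀ (by linarith) (S4a_bdry G)
      _ = ((1 + y) ^ (2 * d)) ^ G.card := by rw [pow_mul]
      _ ≤ (Real.exp (2 * d * y)) ^ G.card := by
          refine pow_le_pow_left₀ (pow_nonneg (by linarith) _) ?_ _
          calc (1 + y) ^ (2 * d) ≤ (Real.exp y) ^ (2 * d) :=
                pow_le_pow_left₀ (by linarith) (by linarith [Real.add_one_le_exp y]) _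
            _ = Real.exp (2 * d * y) := by
                rw [← Real.exp_nat_mul]
                push_cast
                ring_nf
  have hcard : ((Fintype.card (Site d k) : ℕ) : ℝ) = NN d k := by
    rw [NN, Fintype.card_fun, ZMod.card, Fintype.card_fin]
    push_cast
    rfl
  calc ∑ G : Finset (Site d k), x ^ G.card * (1 + y) ^ (bd G).card
      ≤ ∑ G : Finset (Site d k), (x * Real.exp (2 * d * y)) ^ G.card := Finset.sum_le_sum fun G _ => h3 G
    _ = (1 + x * Real.exp (2 * d * y)) ^ (Fintype.card (Site d k)) := by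
        rw [← Finset.powerset_univ, S4a_powerset_sum, Finset.card_univ]
    _ ≤ (Real.exp (x * Real.exp (2 * d * y))) ^ (Fintype.card (Site d k)) := by
        refine pow_le_pow_left₀ (by positivity) ?_ _
        linarith [Real.add_one_le_exp (x * Real.exp (2 * d * y))]
    _ = Real.exp (NN d k * (x * Real.exp (2 * d * y))) := by
        rw [← Real.exp_nat_mul, hcard]

end Pool.Agent.THR

end
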