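import Mathlib

/-!
# MP_2c424f_pr: library of SharpThreshold and BoundaryThreshold (merged): merged library part M12

Concatenation of smaller files (each in its own section), only to save build time.
-/

/-! ### from `Lib_MP_2c424f_lin.E1` -/

section

/-!
# H30 E1: trace Hölder inequality

Paper proof (induction on `r`).  `r = 0`: `|Tr (A₀ A₁)|² ≤ Tr (A₀ A₀ᵀ) Tr (A₁ A₁ᵀ)` is Cauchy-Schwarz.
Step `r → r+1`, `L = 2^(r+1)`: put `B_j = A_{2j} A_{2j+1}` (`j < L`).  Induction hypothesis: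
`|Tr (∏ B_j)|^L ≤ ∏_j Tr ((B_j B_jᵀ)^(L/2))`, and `Tr ((A A' A'ᵀ Aᵀ)^(L/2)) = Tr ((P Q)^(L/2))` with `P = Aᵀ A`,
`Q = A' A'ᵀ` (cyclicity of the trace).  The induction hypothesis for the family `P, Q, P, Q, ...` (`L` matrices)
gives `Tr ((P Q)^(L/2))^L ≤ Tr (P^L)^(L/2) Tr (Q^L)^(L/2)`, i.e. (all traces are `≥ 0`)
`Tr ((PQ)^(L/2))^2 ≤ Tr (P^L) Tr (Q^L)`, and `Tr (P^L) = Tr ((A Aᵀ)^L)`.  Hence
`|Tr (∏ A_j)|^(2L) ≤ ∏_{j<2L} Tr ((A_j A_jᵀ)^L)`.
Facts: `Tr ((A Aᵀ)^s) ≥ 0` (`posSemidef`), `Matrix.trace_mul_comm`, `(A B)^s` cyclic.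
-/

set_option autoImplicit false

open Finset Matrix

namespace Pool.Agent.LIN

section E1
variable {n : Type*} [Fintype n] [DecidableEq n]

private theorem E1_cyc (X Y : Matrix n n ℝ) (s : ℕ) : ((X * Y) ^ s).trace = ((Y * X) ^ s).trace := by
  cases s with
  | zero => simp
  | succ s =>
    have h : (X * Y) ^ (s + 1) = X * ((Y * X) ^ s * Y) := by
      rw [pow_succ, ← Matrix.mul_assoc, ← Matrix.mul_assoc]
      congr 1
      induction s with
      | zero => simp
      | succ s ih =>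
        rw [pow_succ, Matrix.mul_assoc, Matrix.mul_assoc X Y X, ← Matrix.mul_assoc, ih, pow_succ]
        simp only [Matrix.mul_assoc]
    rw [h, Matrix.trace_mul_comm, Matrix.mul_assoc, pow_succ]

private theorem E1_nonneg (A : Matrix n n ℝ) (s : ℕ) : 0 ≤ ((A * Aᵀ) ^ s).trace := by
  have h : (A * Aᵀ).PosSemidef := by
    have := Matrix.posSemidef_self_mul_conjTranspose A
    simpa using this
  exact (h.pow s).trace_nonneg

private theorem E1_two (A : ℕ → Matrix n n ℝ) (L : ℕ) :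
    ((List.range (2 * L)).map A).prod = ((List.range L).map fun j => A (2 * j) * A (2 * j + 1)).prod := by
  induction L with
  | zero => simp
  | succ L ih =>
    rw [show 2 * (L + 1) = 2 * L + 1 + 1 by ring, List.range_succ, List.range_succ, List.range_succ]
    simp [ih]

private theorem E1_const (B : Matrix n n ℝ) (L : ℕ) : ((List.range L).map fun _ => B).prod = B ^ L := by
  simp

private theorem E1_prod (f : ℕ → ℝ) (L : ℕ) :
    ∏ j ∈ range (2 * L), f j = ∏ j ∈ range L, (f (2 * j) * f (2 * j + 1)) := by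
  induction L with
  | zero => simp
  | succ L ih =>
    rw [show 2 * (L + 1) = 2 * L + 1 + 1 by ring, prod_range_succ, prod_range_succ, prod_range_succ, ih]
    ring

omit [DecidableEq n] in
private theorem E1_base (A B : Matrix n n ℝ) :
    |(A * B).trace| ^ 2 ≤ (A * Aᵀ).trace * (B * Bᵀ).trace := by
  rw [sq_abs]
  have h1 : (A * B).trace = ∑ p : n × n, A p.1 p.2 * B p.2 p.1 := by
    rw [Fintype.sum_prod_type]
    simp [Matrix.trace, Matrix.mul_apply]
  have h2 : (A * Aᵀ).trace = ∑ p : n × n, A p.1 p.2 ^ 2 := by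
    rw [Fintype.sum_prod_type]
    simp [Matrix.trace, Matrix.mul_apply, sq]
  have h3 : (B * Bᵀ).trace = ∑ p : n × n, B p.2 p.1 ^ 2 := by
    rw [Fintype.sum_prod_type_right]
    simp [Matrix.trace, Matrix.mul_apply, sq]
  rw [h1, h2, h3]
  exact Finset.sum_mul_sq_le_sq_mul_sq _ _ _

private theorem E1_main (r : ℕ) : ∀ A : ℕ → Matrix n n ℝ,
    |(((List.range (2 ^ (r + 1))).map A).prod).trace| ^ (2 ^ (r + 1))
      ≤ ∏ j ∈ range (2 ^ (r + 1)), ((A j * (A j)ᵀ) ^ (2 ^ r)).trace := by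
  induction r with
  | zero =>
    intro A
    have := E1_base (A 0) (A 1)
    simpa [List.range_succ, prod_range_succ] using this
  | succ r ih =>
    -- the two-factor inequality
    have key : ∀ A B : Matrix n n ℝ,
        ((((A * B) * (A * B)ᵀ) ^ (2 ^ r)).trace) ^ 2
          ≤ ((A * Aᵀ) ^ (2 ^ (r + 1))).trace * ((B * Bᵀ) ^ (2 ^ (r + 1))).trace := by
      intro A B
      set P : Matrix n n ℝ := Aᵀ * A with hP
      set Q : Matrix n n ℝ := B * Bᵀ with hQ
      have e1 : ((((A * B) * (A * B)ᵀ) ^ (2 ^ r)).trace) = ((P * Q) ^ (2 ^ r)).trace := by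
        have : (A * B) * (A * B)ᵀ = A * (B * Bᵀ * Aᵀ) := by
          rw [Matrix.transpose_mul]; simp only [Matrix.mul_assoc]
        rw [this, E1_cyc]
        have : B * Bᵀ * Aᵀ * A = Q * P := by
          rw [hP, hQ]; simp only [Matrix.mul_assoc]
        rw [this, E1_cyc]
      have hPt : P * Pᵀ = P ^ 2 := by
        rw [hP, Matrix.transpose_mul, Matrix.transpose_transpose, sq]
      have hQt : Q * Qᵀ = Q ^ 2 := by
        rw [hQ, Matrix.transpose_mul, Matrix.transpose_transpose, sq]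
      have e2 : ((P ^ (2 ^ (r + 1))).trace) = ((A * Aᵀ) ^ (2 ^ (r + 1))).trace := by
        rw [hP, E1_cyc]
      have hPP : 0 ≤ (P ^ (2 ^ (r + 1))).trace := by rw [e2]; exact E1_nonneg A _
      have hQQ : 0 ≤ (Q ^ (2 ^ (r + 1))).trace := E1_nonneg B _
      have := ih (fun j => if j % 2 = 0 then P else Q)
      rw [pow_succ' 2 r, E1_two, E1_prod] at this
      have hm0 : ∀ j : ℕ, (2 * j) % 2 = 0 := fun j => by omega
      have hm1 : ∀ j : ℕ, ¬ (2 * j + 1) % 2 = 0 := fun j => by omega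
      simp only [hm0, hm1, if_true, if_false, E1_const, prod_const, card_range, hPt, hQt] at this
      rw [← pow_mul, ← pow_mul, ← pow_succ'] at this
      have e3 : ∀ t : ℝ, |t| ^ (2 ^ (r + 1)) = (t ^ 2) ^ (2 ^ r) := fun t => by
        rw [pow_succ' 2 r, pow_mul, sq_abs]
      rw [e3] at this
      rw [e1, ← e2]
      exact (pow_le_pow_iff_left₀ (sq_nonneg _) (mul_nonneg hPP hQQ) (by positivity)).1 this
    intro A
    have h0 := ih (fun j => A (2 * j) * A (2 * j + 1))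
    rw [pow_succ' 2 (r + 1), E1_two, E1_prod, mul_comm 2 (2 ^ (r + 1)), pow_mul]
    calc _ ≤ (∏ j ∈ range (2 ^ (r + 1)),
          ((A (2 * j) * A (2 * j + 1) * (A (2 * j) * A (2 * j + 1))ᵀ) ^ 2 ^ r).trace) ^ 2 :=
          pow_le_pow_left₀ (by positivity) h0 2
      _ = ∏ j ∈ range (2 ^ (r + 1)),
          (((A (2 * j) * A (2 * j + 1) * (A (2 * j) * A (2 * j + 1))ᵀ) ^ 2 ^ r).trace) ^ 2 :=
          (prod_pow _ _ _).symm
      _ ≤ _ := prod_le_prod (fun j _ => sq_nonneg _) fun j _ => key _ _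

end E1

theorem trace_holder {n : Type*} [Fintype n] [DecidableEq n] (r : ℕ)
    (A : Fin (2 ^ (r + 1)) → Matrix n n ℝ) :
    |((List.ofFn A).prod).trace| ^ (2 ^ (r + 1)) ≤ ∏ j, ((A j * (A j)ᵀ) ^ (2 ^ r)).trace := by
  have h := E1_main r (fun j => if hj : j < 2 ^ (r + 1) then A ⟨j, hj⟩ else 1)
  have e1 : (List.range (2 ^ (r + 1))).map (fun j => if hj : j < 2 ^ (r + 1) then A ⟨j, hj⟩ else 1)
      = List.ofFn A := by
    apply List.ext_getElem
    · simp
    · intro i h1 h2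
      simp at h1
      simp [h1]
  rw [e1] at h
  refine h.trans (le_of_eq ?_)
  rw [Finset.prod_range]
  refine prod_congr rfl fun j _ => ?_
  simp [j.2]

end Pool.Agent.LIN

end
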