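import Pool.Agent.Lib_MP_2c424f_ms.M10
import Pool.Agent.Lib_MP_2c424f_ms.M12

/-!
# MP_2c424f_pr: library of SharpThreshold and BoundaryThreshold (merged): merged library part M13

Concatenation of smaller files (each in its own section), only to save build time.
-/

/-! ### from `Lib_MP_2c424f_lin.E2a` -/

section

/-!
# H30 E2a: rings and traces

`cyc`, `zig` are traces of matrix products: `∑_{a : ℤ/L → X} ∏_j A_j (a_j) (a_{j+1}) = Tr (A_0 ⋯ A_{L-1})`
(induction; index the matrices by `X` with `Matrix.of`), `zig r A = Tr ((A Aᵀ)^(2^r))` (it is the ring of length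
`2^(r+1)` with `A` at the even and `Aᵀ` at the odd places).
* `ring_chess`: `E1.trace_holder`.
* `ring_chess2`: the ring `α_0 β_0 α_1 β_1 ...` with `B_0, C_0ᵀ, B_1, C_1ᵀ, ...`; `zig r Cᵀ = zig r C`.
* `dbl`: `P = A_0 ⋯ A_{L-1}` has nonnegative entries: `(Tr P)² ≤ n ∑ P_aa² ≤ n Tr (P²)`.
* `zig_mono`: `G = (A Aᵀ)^(2^r)` is positive semidefinite, `Tr (G²) = ∑ G_ab² ≤ ∑ G_aa G_bb`.
* `zig_tr`, `zig_equiv`: `Tr ((A Aᵀ)^s) = Tr ((Aᵀ A)^s)`; relabelling.
The builder may split the work; `cyc_eq` and `zig_eq` below are the bridges.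
-/

set_option autoImplicit false

open Finset Matrix

namespace Pool.Agent.LIN

variable {X : Type*} [Fintype X]

/-- entries of a product of `n + 1` matrices -/
private theorem e2a_entry [DecidableEq X] (n : ℕ) (M : Fin (n + 1) → Matrix X X ℝ) (x y : X) :
    (List.ofFn M).prod x y = ∑ b : Fin n → X, ∏ j : Fin (n + 1),
      M j ((Fin.cons x b : Fin (n + 1) → X) j) ((Fin.snoc b y : Fin (n + 1) → X) j) := by
  induction n generalizing x y with
  | zero =>
    simp only [List.ofFn_succ, List.ofFn_zero, List.prod_cons, List.prod_nil, mul_one,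
      Finset.univ_unique, Finset.sum_singleton]
    rw [Fin.prod_univ_succ, Fin.prod_univ_zero, mul_one]
    rfl
  | succ n ih =>
    rw [List.ofFn_succ, List.prod_cons, Matrix.mul_apply]
    have h1 : ∀ z : X, M 0 x z * (List.ofFn fun i : Fin (n + 1) => M i.succ).prod z y =
        ∑ b : Fin n → X, M 0 x z * ∏ j : Fin (n + 1),
          M j.succ ((Fin.cons z b : Fin (n + 1) → X) j) ((Fin.snoc b y : Fin (n + 1) → X) j) := by
      intro z
      rw [ih (fun i => M i.succ) z y, Finset.mul_sum]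
    rw [Finset.sum_congr rfl fun z _ => h1 z, ← Fintype.sum_prod_type']
    refine Fintype.sum_equiv (Fin.consEquiv fun _ : Fin (n + 1) => X) _ _ fun q => ?_
    obtain ⟨z, b⟩ := q
    have h2 : (Fin.snoc (Fin.cons z b : Fin (n + 1) → X) y : Fin (n + 2) → X) =
        Fin.cons z (Fin.snoc b y : Fin (n + 1) → X) :=
      (Fin.cons_snoc_eq_snoc_cons z b y).symm
    change M 0 x z * ∏ j : Fin (n + 1), M j.succ ((Fin.cons z b : Fin (n + 1) → X) j)
        ((Fin.snoc b y : Fin (n + 1) → X) j) =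
      ∏ j : Fin (n + 2), M j ((Fin.cons x (Fin.cons z b : Fin (n + 1) → X) : Fin (n + 2) → X) j)
        ((Fin.snoc (Fin.cons z b : Fin (n + 1) → X) y : Fin (n + 2) → X) j)
    rw [h2]
    conv_rhs => rw [Fin.prod_univ_succ]
    simp only [Fin.cons_zero, Fin.cons_succ]

private theorem e2a_cyc [DecidableEq X] (L : ℕ) [NeZero L] (A : ZMod L → X → X → ℝ) :
    (∑ a : ZMod L → X, ∏ j, A j (a j) (a (j + 1))) =
      ((List.ofFn fun j : Fin L => Matrix.of (A (j.val : ZMod L))).prod).trace := by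
  cases L with
  | zero => exact absurd rfl (NeZero.ne 0)
  | succ n =>
    have hc : ∀ j : Fin (n + 1), ((j.val : ℕ) : ZMod (n + 1)) = j := fun j =>
      Fin.cast_val_eq_self j
    simp only [hc]
    rw [Matrix.trace]
    simp only [Matrix.diag_apply]
    rw [Finset.sum_congr rfl fun x _ => e2a_entry n (fun j => Matrix.of (A j)) x x,
      ← Fintype.sum_prod_type']
    symm
    refine Fintype.sum_equiv (Fin.consEquiv fun _ : Fin (n + 1) => X) _ _ fun q => ?_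
    obtain ⟨x, b⟩ := q
    simp only [Fin.consEquiv_apply, Matrix.of_apply]
    refine Finset.prod_congr rfl fun j _ => ?_
    congr 1
    refine Fin.lastCases ?_ (fun i => ?_) j
    · rw [Fin.snoc_last]
      have h3 : (Fin.last n + 1 : Fin (n + 1)) = 0 := Fin.last_add_one n
      change x = (Fin.cons x b : Fin (n + 1) → X) (Fin.last n + 1)
      rw [h3]
      rfl
    · rw [Fin.snoc_castSucc]
      have h3 : (i.castSucc + 1 : Fin (n + 1)) = i.succ := by
        rw [Fin.coeSucc_eq_succ]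
      change b i = (Fin.cons x b : Fin (n + 1) → X) (i.castSucc + 1)
      rw [h3]
      rfl

theorem cyc_eq [DecidableEq X] (r : ℕ) (A : ZMod (2 ^ r) → X → X → ℝ) :
    cyc r A = ((List.ofFn fun j : Fin (2 ^ r) => Matrix.of (A (j.val : ZMod (2 ^ r)))).prod).trace := by
  exact e2a_cyc (2 ^ r) A

theorem zig_eq [DecidableEq X] (r : ℕ) (A : X → X → ℝ) :
    zig r A = ((Matrix.of A * (Matrix.of A)ᵀ) ^ (2 ^ r)).trace := by
  have h1 : zig r A = cyc r (fun _ a a' => (Matrix.of A * (Matrix.of A)ᵀ) a a') := by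
    unfold zig cyc
    refine Finset.sum_congr rfl fun α _ => ?_
    have h2 := Finset.prod_univ_sum (fun _ : ZMod (2 ^ r) => (Finset.univ : Finset X))
      (fun i b => A (α i) b * A (α (i + 1)) b)
    rw [Fintype.piFinset_univ] at h2
    rw [← h2]
    rfl
  rw [h1, cyc_eq]
  congr 1
  have h3 : (fun _ : Fin (2 ^ r) => (Matrix.of fun a a' =>
      (Matrix.of A * (Matrix.of A)ᵀ) a a' : Matrix X X ℝ)) =
      fun _ => Matrix.of A * (Matrix.of A)ᵀ := rfl
  rw [h3, List.ofFn_const, List.prod_replicate]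

theorem zig_nonneg (r : ℕ) (A : X → X → ℝ) : 0 ≤ zig r A := by
  classical
  rw [zig_eq]
  have h1 : (Matrix.of A * (Matrix.of A)ᵀ).PosSemidef := by
    have h2 := Matrix.posSemidef_self_mul_conjTranspose (Matrix.of A)
    rwa [Matrix.conjTranspose_eq_transpose_of_trivial] at h2
  exact (h1.pow _).trace_nonneg

private theorem e2a_pow {M : Type*} [Monoid M] (a b : M) (n : ℕ) :
    (a * b) ^ (n + 1) = a * ((b * a) ^ n * b) := by
  induction n with
  | zero => simp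
  | succ n ih =>
    rw [pow_succ', ih, pow_succ' (b * a) n]
    simp only [mul_assoc]

theorem zig_tr (r : ℕ) (A : X → X → ℝ) : zig r (fun a b => A b a) = zig r A := by
  classical
  rw [zig_eq, zig_eq]
  have h0 : (Matrix.of fun a b => A b a) = (Matrix.of A)ᵀ := rfl
  rw [h0, Matrix.transpose_transpose]
  obtain ⟨n, hn⟩ : ∃ n, 2 ^ r = n + 1 := ⟨2 ^ r - 1, by have := Nat.one_le_two_pow (n := r); omega⟩
  rw [hn, e2a_pow, Matrix.trace_mul_comm, Matrix.mul_assoc, ← pow_succ]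

theorem zig_equiv {Y : Type*} [Fintype Y] (e e' : X ≃ Y) (r : ℕ) (A : Y → Y → ℝ) :
    zig r (fun a b => A (e a) (e' b)) = zig r A := by
  unfold zig
  refine Fintype.sum_equiv (Equiv.arrowCongr (Equiv.refl _) e) _ _ fun α => ?_
  refine Fintype.sum_equiv (Equiv.arrowCongr (Equiv.refl _) e') _ _ fun β => ?_
  rfl

end Pool.Agent.LIN

end

/-! ### from `Lib_MP_2c424f_lin.E2b` -/

section

/-!
# H30 E2b: rings and traces

`cyc`, `zig` are traces of matrix products: `∑_{a : ℤ/L → X} ∏_j A_j (a_j) (a_{j+1}) = Tr (A_0 ⋯ A_{L-1})`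
(induction; index the matrices by `X` with `Matrix.of`), `zig r A = Tr ((A Aᵀ)^(2^r))` (it is the ring of length
`2^(r+1)` with `A` at the even and `Aᵀ` at the odd places).
* `ring_chess`: `E1.trace_holder`.
* `ring_chess2`: the ring `α_0 β_0 α_1 β_1 ...` with `B_0, C_0ᵀ, B_1, C_1ᵀ, ...`; `zig r Cᵀ = zig r C`.
* `dbl`: `P = A_0 ⋯ A_{L-1}` has nonnegative entries: `(Tr P)² ≤ n ∑ P_aa² ≤ n Tr (P²)`.
* `zig_mono`: `G = (A Aᵀ)^(2^r)` is positive semidefinite, `Tr (G²) = ∑ G_ab² ≤ ∑ G_aa G_bb`.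
* `zig_tr`, `zig_equiv`: `Tr ((A Aᵀ)^s) = Tr ((Aᵀ A)^s)`; relabelling.
The builder may split the work; `cyc_eq` and `zig_eq` below are the bridges.
-/

set_option autoImplicit false

open Finset Matrix

namespace Pool.Agent.LIN

variable {X : Type*} [Fintype X]

private theorem prod_zmod_fin {M : Type*} [CommMonoid M] (n : ℕ) [NeZero n] (f : ZMod n → M) :
    ∏ j : Fin n, f (j.val : ZMod n) = ∏ j, f j := by
  have hinj : Function.Injective (fun j : Fin n => ((j.val : ℕ) : ZMod n)) := by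
    intro i j hij
    have h := congrArg ZMod.val hij
    simp only [ZMod.val_natCast, Nat.mod_eq_of_lt i.isLt, Nat.mod_eq_of_lt j.isLt] at h
    exact Fin.ext h
  have hcard : Fintype.card (Fin n) = Fintype.card (ZMod n) := by
    rw [Fintype.card_fin, ZMod.card]
  have hbij : Function.Bijective (fun j : Fin n => ((j.val : ℕ) : ZMod n)) :=
    (Fintype.bijective_iff_injective_and_card _).2 ⟨hinj, hcard⟩
  exact Fintype.prod_bijective _ hbij _ _ fun _ => rfl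

theorem ring_chess (r : ℕ) (A : ZMod (2 ^ (r + 1)) → X → X → ℝ) :
    |cyc (r + 1) A| ^ (2 ^ (r + 1)) ≤ ∏ j, zig r (A j) := by
  classical
  rw [cyc_eq]
  refine (trace_holder r fun j : Fin (2 ^ (r + 1)) =>
    Matrix.of (A (j.val : ZMod (2 ^ (r + 1))))).trans (le_of_eq ?_)
  rw [← prod_zmod_fin]
  exact Finset.prod_congr rfl fun j _ => (zig_eq r _).symm

theorem ring_chess2 (r : ℕ) (B C : ZMod (2 ^ r) → X → X → ℝ) :
    |∑ α : ZMod (2 ^ r) → X, ∑ β : ZMod (2 ^ r) → X, ∏ i, B i (α i) (β i) * C i (α (i + 1)) (β i)| ^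
      (2 ^ (r + 1)) ≤ ∏ i, zig r (B i) * zig r (C i) := by
  classical
  -- the alternating family of matrices
  let A : Fin (2 ^ r * 2) → Matrix X X ℝ := fun k =>
    if k.val % 2 = 0 then Matrix.of (B ((k.val / 2 : ℕ) : ZMod (2 ^ r)))
    else (Matrix.of (C ((k.val / 2 : ℕ) : ZMod (2 ^ r))))ᵀ
  have hA0 : ∀ (i : Fin (2 ^ r)) (h : i.val * 2 + (0 : Fin 2).val < 2 ^ r * 2),
      A ⟨i.val * 2 + (0 : Fin 2).val, h⟩ = Matrix.of (B (i.val : ZMod (2 ^ r))) := by
    intro i h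
    have h1 : (i.val * 2 + (0 : Fin 2).val) % 2 = 0 := by simp
    have h2 : (i.val * 2 + (0 : Fin 2).val) / 2 = i.val := by simp
    simp only [A, h1, h2, if_true]
  have hA1 : ∀ (i : Fin (2 ^ r)) (h : i.val * 2 + (1 : Fin 2).val < 2 ^ r * 2),
      A ⟨i.val * 2 + (1 : Fin 2).val, h⟩ = (Matrix.of (C (i.val : ZMod (2 ^ r))))ᵀ := by
    intro i h
    have h1 : ¬ (i.val * 2 + (1 : Fin 2).val) % 2 = 0 := by
      have : (1 : Fin 2).val = 1 := rfl
      omega
    have h2 : (i.val * 2 + (1 : Fin 2).val) / 2 = i.val := by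
      have : (1 : Fin 2).val = 1 := rfl
      omega
    simp only [A, h2]
    rw [if_neg h1]
  have hlist : (List.ofFn A).prod =
      (List.ofFn fun j : Fin (2 ^ r) =>
        Matrix.of (fun a a' => ∑ b, B (j.val : ZMod (2 ^ r)) a b * C (j.val : ZMod (2 ^ r)) a' b)).prod := by
    rw [List.ofFn_mul, List.prod_flatten, List.map_ofFn]
    congr 1
    congr 1
    funext i
    have h2 : ∀ g : Fin 2 → Matrix X X ℝ, (List.ofFn g).prod = g 0 * g 1 := by
      intro g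
      simp [List.ofFn_succ]
    simp only [Function.comp]
    rw [h2, hA0, hA1]
    ext a a'
    simp [Matrix.mul_apply]
  have hprod : ∏ k, ((A k * (A k)ᵀ) ^ (2 ^ r)).trace = ∏ i, zig r (B i) * zig r (C i) := by
    rw [← prod_zmod_fin]
    rw [← (finProdFinEquiv (m := 2 ^ r) (n := 2)).prod_comp, Fintype.prod_prod_type]
    refine Finset.prod_congr rfl fun i _ => ?_
    rw [Fin.prod_univ_two]
    have e0 : A (finProdFinEquiv (i, 0)) = Matrix.of (B (i.val : ZMod (2 ^ r))) := by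
      rw [← hA0 i (by have := i.isLt; have h0 : (0 : Fin 2).val = 0 := rfl; omega)]
      congr 1
      ext
      simp [finProdFinEquiv]
      ring
    have e1 : A (finProdFinEquiv (i, 1)) = (Matrix.of (C (i.val : ZMod (2 ^ r))))ᵀ := by
      rw [← hA1 i (by have := i.isLt; have h1 : (1 : Fin 2).val = 1 := rfl; omega)]
      congr 1
      ext
      simp [finProdFinEquiv]
      ring
    rw [e0, e1, ← zig_eq, ← zig_tr r (C (i.val : ZMod (2 ^ r))), zig_eq r (fun a b => C (i.val : ZMod (2 ^ r)) b a)]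
    rfl
  have hcyc : ∑ α : ZMod (2 ^ r) → X, ∑ β : ZMod (2 ^ r) → X,
      ∏ i, B i (α i) (β i) * C i (α (i + 1)) (β i) =
      cyc r fun i a a' => ∑ b, B i a b * C i a' b := by
    unfold cyc
    refine Finset.sum_congr rfl fun α _ => ?_
    rw [Finset.prod_univ_sum]
    rw [Fintype.piFinset_univ]
  have this : |(List.ofFn A).prod.trace| ^ (2 ^ (r + 1)) ≤
      ∏ k, ((A k * (A k)ᵀ) ^ (2 ^ r)).trace := trace_holder r A
  rw [hlist, hprod] at this
  rw [hcyc, cyc_eq]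
  exact this

end Pool.Agent.LIN

end

/-! ### from `Lib_MP_2c424f_lin.E2c` -/

section

/-!
# H30 E2c: rings and traces

`cyc`, `zig` are traces of matrix products: `∑_{a : ℤ/L → X} ∏_j A_j (a_j) (a_{j+1}) = Tr (A_0 ⋯ A_{L-1})`
(induction; index the matrices by `X` with `Matrix.of`), `zig r A = Tr ((A Aᵀ)^(2^r))` (it is the ring of length
`2^(r+1)` with `A` at the even and `Aᵀ` at the odd places).
* `ring_chess`: `E1.trace_holder`.
* `ring_chess2`: the ring `α_0 β_0 α_1 β_1 ...` with `B_0, C_0ᵀ, B_1, C_1ᵀ, ...`; `zig r Cᵀ = zig r C`.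
* `dbl`: `P = A_0 ⋯ A_{L-1}` has nonnegative entries: `(Tr P)² ≤ n ∑ P_aa² ≤ n Tr (P²)`.
* `zig_mono`: `G = (A Aᵀ)^(2^r)` is positive semidefinite, `Tr (G²) = ∑ G_ab² ≤ ∑ G_aa G_bb`.
* `zig_tr`, `zig_equiv`: `Tr ((A Aᵀ)^s) = Tr ((Aᵀ A)^s)`; relabelling.
The builder may split the work; `cyc_eq` and `zig_eq` below are the bridges.
-/

set_option autoImplicit false

open Finset Matrix

namespace Pool.Agent.LIN

variable {X : Type*} [Fintype X]

private theorem e2c_nonneg [DecidableEq X] (l : List (Matrix X X ℝ))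
    (h : ∀ M ∈ l, ∀ a b, 0 ≤ M a b) : ∀ a b, 0 ≤ l.prod a b := by
  induction l with
  | nil =>
    intro a b
    rw [List.prod_nil, Matrix.one_apply]
    split_ifs
    · exact zero_le_one
    · exact le_rfl
  | cons M l ih =>
    intro a b
    rw [List.prod_cons, Matrix.mul_apply]
    exact Finset.sum_nonneg fun c _ => mul_nonneg (h M List.mem_cons_self a c)
      (ih (fun M' hM' => h M' (List.mem_cons_of_mem _ hM')) c b)

private theorem e2c_double {α : Type*} (n m : ℕ) (h : m = n + n) (g : ℕ → α)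
    (hg : ∀ i, g (n + i) = g i) :
    (List.ofFn fun j : Fin m => g j.val) =
      (List.ofFn fun j : Fin n => g j.val) ++ (List.ofFn fun j : Fin n => g j.val) := by
  subst h
  rw [List.ofFn_add]
  congr 1
  congr 1
  funext j
  exact hg j.val

theorem dbl (r : ℕ) (A : ZMod (2 ^ r) → X → X → ℝ) (hA : ∀ j a b, 0 ≤ A j a b) :
    cyc r A ^ 2 ≤ Fintype.card X * cyc (r + 1) (fun s => A (rd r s)) := by
  classical
  rw [cyc_eq, cyc_eq]
  obtain ⟨P, hP⟩ : ∃ P, P =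
    (List.ofFn fun j : Fin (2 ^ r) => Matrix.of (A (j.val : ZMod (2 ^ r)))).prod := ⟨_, rfl⟩
  have h1 : (List.ofFn fun j : Fin (2 ^ (r + 1)) =>
      Matrix.of (A (rd r (j.val : ZMod (2 ^ (r + 1)))))).prod = P * P := by
    have h2 : (fun j : Fin (2 ^ (r + 1)) =>
        Matrix.of (A (rd r (j.val : ZMod (2 ^ (r + 1)))))) =
        fun j : Fin (2 ^ (r + 1)) => (fun i : ℕ => Matrix.of (A (i : ZMod (2 ^ r)))) j.val := by
      funext j
      rw [rd, ZMod.val_natCast, Nat.mod_eq_of_lt j.2]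
    rw [h2, e2c_double (2 ^ r) (2 ^ (r + 1)) (by rw [pow_succ]; ring)
      (fun i : ℕ => Matrix.of (A (i : ZMod (2 ^ r)))), List.prod_append, hP]
    intro i
    rw [Nat.cast_add, ZMod.natCast_self, zero_add]
  rw [h1, ← hP]
  have hP0 : ∀ a b, 0 ≤ P a b := by
    rw [hP]
    refine e2c_nonneg _ fun M hM => ?_
    rw [List.mem_ofFn] at hM
    obtain ⟨j, rfl⟩ := hM
    exact fun a b => hA _ a b
  have h3 : P.trace ^ 2 ≤ Fintype.card X * ∑ a, P a a ^ 2 := by
    have h4 := sq_sum_le_card_mul_sum_sq (s := (Finset.univ : Finset X)) (f := fun a => P a a)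
    rwa [Finset.card_univ] at h4
  refine h3.trans (mul_le_mul_of_nonneg_left ?_ (Nat.cast_nonneg _))
  rw [Matrix.trace]
  refine Finset.sum_le_sum fun a _ => ?_
  rw [Matrix.diag_apply, Matrix.mul_apply, sq]
  exact Finset.single_le_sum (f := fun b => P a b * P b a)
    (fun b _ => mul_nonneg (hP0 a b) (hP0 b a)) (Finset.mem_univ a)

private theorem e2c_sq [DecidableEq X] (A : Matrix X X ℝ) (m : ℕ) :
    ∃ K : Matrix X X ℝ, (A * Aᵀ) ^ m = K * Kᵀ := by
  have h1 : ∀ s : ℕ, ((A * Aᵀ) ^ s)ᵀ = (A * Aᵀ) ^ s := by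
    intro s
    rw [Matrix.transpose_pow, Matrix.transpose_mul, Matrix.transpose_transpose]
  rcases Nat.even_or_odd' m with ⟨s, rfl | rfl⟩
  · refine ⟨(A * Aᵀ) ^ s, ?_⟩
    rw [h1, ← pow_add]
    congr 1
    ring
  · refine ⟨(A * Aᵀ) ^ s * A, ?_⟩
    rw [Matrix.transpose_mul, h1, Matrix.mul_assoc, ← Matrix.mul_assoc A, ← pow_succ', ← pow_add]
    congr 1
    ring

theorem zig_mono (r : ℕ) (A : X → X → ℝ) : zig (r + 1) A ≤ zig r A ^ 2 := by
  classical
  rw [zig_eq, zig_eq]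
  obtain ⟨G, hG⟩ : ∃ G, G = (Matrix.of A * (Matrix.of A)ᵀ) ^ (2 ^ r) := ⟨_, rfl⟩
  have h3 : (Matrix.of A * (Matrix.of A)ᵀ) ^ (2 ^ (r + 1)) = G * G := by
    rw [hG, pow_succ, pow_mul, sq]
  obtain ⟨B, hB⟩ := e2c_sq (Matrix.of A) (2 ^ r)
  rw [h3, ← hG]
  rw [← hG] at hB
  have hGe : ∀ a b, G a b = ∑ c, B a c * B b c := by
    intro a b
    rw [hB, Matrix.mul_apply]
    rfl
  have hcs : ∀ a b, G a b * G b a ≤ G a a * G b b := by
    intro a b
    have h4 := Finset.sum_mul_sq_le_sq_mul_sq Finset.univ (fun c => B a c) (fun c => B b c)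
    rw [hGe a b, hGe b a, hGe a a, hGe b b]
    have h5 : ∑ c, B b c * B a c = ∑ c, B a c * B b c :=
      Finset.sum_congr rfl fun c _ => mul_comm _ _
    rw [h5, ← sq]
    refine h4.trans (le_of_eq ?_)
    simp only [sq]
  rw [Matrix.trace, sq, Matrix.trace, Finset.sum_mul_sum]
  refine Finset.sum_le_sum fun a _ => ?_
  rw [Matrix.diag_apply, Matrix.mul_apply]
  exact Finset.sum_le_sum fun b _ => hcs a b

end Pool.Agent.LIN

end

/-! ### from `Lib_MP_2c424f_lin.E3b` -/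

section

/-!
# H30 E3b: layers of the two-dimensional torus

* `Zg_cyc`: substitute `f (x,y) = g (x+y, y)` (bijection of `ℤ/2^k × ℤ/2^k`): with `s = x+y`, `z = y` the edge
  `(x,y) → (x+1,y)` goes from `(s,z)` to `(s+1,z)`, the edge `(x,y) → (x,y+1)` from `(s,z)` to `(s+1,z+1)`.
  Layers `s`, values of a layer `z ↦ g (s,z)`.
* `zig_layer`: `zig k` of a layer kernel is a sum over `α i z`, `β i z`; regroup by `z`: the ring
  `... β_z, α_z, β_{z+1}, ...` with kernels `bz k (H z)` between `α_z, β_z` and `bz k (V z)` between `α_z, β_{z+1}`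
  (`ring_chess2` after exchanging the roles of `α` and `β`, `zig_tr`).
-/

set_option autoImplicit false

open Finset

namespace Pool.Agent.LIN

variable {X : Type*} [Fintype X]

private theorem E3b_regroup (k : ℕ) (H V : ZMod (2 ^ k) → X → X → ℝ) :
    zig k (fun α β : ZMod (2 ^ k) → X => ∏ z, H z (α z) (β z) * V z (α z) (β (z + 1))) =
      ∑ α : ZMod (2 ^ k) → (ZMod (2 ^ k) → X), ∑ β : ZMod (2 ^ k) → (ZMod (2 ^ k) → X),
        ∏ z, bz k (H z) (β z) (α z) * bz k (V z) (β z) (α (z + 1)) := by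
  unfold zig
  rw [Finset.sum_comm]
  refine Fintype.sum_equiv (Equiv.piComm (fun _ _ => X)) _ _ fun β => ?_
  refine Fintype.sum_equiv (Equiv.piComm (fun _ _ => X)) _ _ fun α => ?_
  simp only [bz, Equiv.piComm_apply, Function.swap]
  simp_rw [← Finset.prod_mul_distrib]
  rw [Finset.prod_comm]
  refine Finset.prod_congr rfl fun z _ => Finset.prod_congr rfl fun i _ => ?_
  ring

theorem zig_layer (k : ℕ) (H V : ZMod (2 ^ k) → X → X → ℝ) :
    zig k (fun α β : ZMod (2 ^ k) → X => ∏ z, H z (α z) (β z) * V z (α z) (β (z + 1))) ^ (2 ^ (k + 1)) ≤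
      ∏ z, DD k (H z) * DD k (V z) := by
  have h := ring_chess2 k (fun z (a b : ZMod (2 ^ k) → X) => bz k (H z) b a)
    (fun z (a b : ZMod (2 ^ k) → X) => bz k (V z) b a)
  rw [E3b_regroup]
  refine (le_abs_self _).trans ?_
  rw [abs_pow]
  refine h.trans (le_of_eq ?_)
  refine Finset.prod_congr rfl fun z _ => ?_
  rw [zig_tr k (bz k (H z)), zig_tr k (bz k (V z))]
  rfl

end Pool.Agent.LIN

end

/-! ### from `Lib_MP_2c424f_lin.E4a` -/

section

/-!
# H30 E4a: from the zigzag torus to the coordinate torus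

`DD_le`: `DD (r+1) K ≤ Zh (r+1) K ^ 2`, `m = 2^(r+1)`.
`DD k K = ∑_{α, β : i, z} ∏ K(α_{i,z}, β_{i,z}) K(α_{i,z}, β_{i,z+1})`-type torus: unfolding `zig k (bz k K)` the sum
is over `α z i`, `β z i` (`z` = index of `zig`, `i` = index of `bz`) with the edges
`α z i ~ β z i`, `α z (i+1) ~ β z i`, `α (z+1) i ~ β z i`, `α (z+1) (i+1) ~ β z i`, first argument `α`.
(1) Rows: put `a y i = α (i - y) i` and `b y i = β (i - y) i`, `y i : ℤ/m`
    (bijection `(z,i) ↔ (y,i)`, `z = i - y`).  Edges: `α z i ~ β z i`: `a y i ~ b y i`;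
    `α z (i+1) ~ β z i`: `i+1-y' = z = i-y`, `y' = y+1`: `a (y+1) (i+1) ~ b y i`;
    `α (z+1) i ~ β z i`: `i-y' = i-y+1`, `y' = y-1`: `a (y-1) i ~ b y i`;
    `α (z+1) (i+1) ~ β z i`: `a y (i+1) ~ b y i`.
    So a ring in `y` with layers `(a_y, b_y) : (ℤ/m → X)²`, in-layer weight
    `V(a,b) = ∏_i K(a i, b i) K(a (i+1), b i)` and kernel between the layers `y`, `y+1`:
    `∏_i K(a_{y+1} (i+1), b_y i) K(a_y i, b_{y+1} i)`; put `√V √V'` on both sides:
    `DD (r+1) K = cyc (r+1) (fun _ => R)`, so `ring_chess` gives `DD^m ≤ (zig r R)^m`, `DD ≤ zig r R`.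
(2) `zig r R` is the coordinate torus with `x ∈ ℤ/2m`, `y ∈ ℤ/m` (rows `2j`: `(a_j, b_j)`, rows `2j+1`:
    `(a'_j, b'_j)`, `j : ℤ/2^r`): in-row `V`, and `K(a'_j (i+1), b_j i) K(a_j i, b'_j i)`,
    `K(a'_j (i+1), b_{j+1} i) K(a_{j+1} i, b'_j i)`.
    By columns: column `2i` = `(a_j i, b'_j i)_j`, column `2i+1` = `(a'_j (i+1), b_j i)_j` (first component: even
    sites): in-column weights `W(p,q) = ∏_j K(p_j, q_j) K(p_{j+1}, q_j)` resp. `W'(p,q) = ∏_j K(p_j, q_j) K(p_j, q_{j+1})`,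
    between the columns `2i` and `2i+1`: `∏_j K(p_j, q'_j) K(p'_j, q_j)`; between `2i+1` and `2i+2` the same function.
    So `zig r R = zig (r+1) N`, `N = √W √W' ∏ ...`, layers `(ℤ/2^r → X)²`.
(3) `zig_mono`: `zig (r+1) N ≤ (zig r N)²`.
(4) `zig r N = Zh (r+1) K`: split both coordinates of the torus of side `2^(r+1)` into even and odd values
    (`x = 2i` or `2i+1`, `y = 2j` or `2j+1`).
`Zh_tr`: translate by `(1,0)`.
The builder may state (1), (2), (4) as separate lemmas.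
-/

set_option autoImplicit false

open Finset

namespace Pool.Agent.LIN

variable {X : Type*} [Fintype X]

/-- layer kernel of the rows -/
noncomputable def Rr (k : ℕ) (K : X → X → ℝ) (u v : (ZMod (2 ^ k) → X) × (ZMod (2 ^ k) → X)) : ℝ :=
  Real.sqrt (bz k K u.1 u.2) * (∏ i, K (v.1 (i + 1)) (u.2 i) * K (u.1 i) (v.2 i)) *
    Real.sqrt (bz k K v.1 v.2)

/-- column kernel; `u = (p, q)` an even column, `v = (p', q')` an odd column (first component: even sites) -/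
noncomputable def Nn (r : ℕ) (K : X → X → ℝ) (u v : (ZMod (2 ^ r) → X) × (ZMod (2 ^ r) → X)) : ℝ :=
  Real.sqrt (∏ j, K (u.1 j) (u.2 j) * K (u.1 (j + 1)) (u.2 j)) * (∏ j, K (u.1 j) (v.2 j) * K (v.1 j) (u.2 j)) *
    Real.sqrt (∏ j, K (v.1 j) (v.2 j) * K (v.1 j) (v.2 (j + 1)))

private theorem E4a_reidx {n : ℕ} [NeZero n] (F : ZMod n → ZMod n → ℝ) :
    ∏ z, ∏ i, F (i - z) i = ∏ y, ∏ i, F y i := by
  rw [prod_comm]
  conv_rhs => rw [prod_comm]
  refine prod_congr rfl fun i _ => ?_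
  exact (Equiv.subLeft i).prod_comp fun y => F y i

private theorem E4a_shift {n : ℕ} [NeZero n] (f : ZMod n → ℝ) :
    ∏ y, f (y + 1) = ∏ y, f y :=
  Equiv.prod_comp (Equiv.addRight (1 : ZMod n)) f

/-- the change of coordinates -/
private def E4a_e (Y : Type*) (n : ℕ) : (ZMod n → ZMod n → Y) ≃ (ZMod n → ZMod n → Y) where
  toFun a z i := a (i - z) i
  invFun a z i := a (i - z) i
  left_inv a := by
    funext z i
    simp only [sub_sub_cancel]
  right_inv a := by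
    funext z i
    simp only [sub_sub_cancel]

private theorem E4a_left (k : ℕ) (K : X → X → ℝ) (a b : ZMod (2 ^ k) → ZMod (2 ^ k) → X) :
    ∏ z, bz k K (E4a_e X (2 ^ k) a z) (E4a_e X (2 ^ k) b z) *
      bz k K (E4a_e X (2 ^ k) a (z + 1)) (E4a_e X (2 ^ k) b z) =
    (∏ y, bz k K (a y) (b y)) *
      ∏ y, ∏ i, K (a (y + 1) (i + 1)) (b y i) * K (a y i) (b (y + 1) i) := by
  have h1 : ∏ z, ∏ i, K (a (i - z) i) (b (i - z) i) = ∏ y, ∏ i, K (a y i) (b y i) :=
    E4a_reidx fun y i => K (a y i) (b y i)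
  have h2 : ∏ z, ∏ i, K (a (i + 1 - z) (i + 1)) (b (i - z) i) =
      ∏ y, ∏ i, K (a (y + 1) (i + 1)) (b y i) := by
    rw [← E4a_reidx fun y i => K (a (y + 1) (i + 1)) (b y i)]
    refine prod_congr rfl fun z _ => prod_congr rfl fun i _ => ?_
    rw [show i + 1 - z = i - z + 1 by ring]
  have h3 : ∏ z, ∏ i, K (a (i - (z + 1)) i) (b (i - z) i) =
      ∏ y, ∏ i, K (a y i) (b (y + 1) i) := by
    have h5 : ∏ z, ∏ i, K (a (i - (z + 1)) i) (b (i - z) i) =
        ∏ y, ∏ i, K (a (y - 1) i) (b y i) := by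
      rw [← E4a_reidx fun y i => K (a (y - 1) i) (b y i)]
      refine prod_congr rfl fun z _ => prod_congr rfl fun i _ => ?_
      rw [show i - (z + 1) = i - z - 1 by ring]
    rw [h5, ← E4a_shift fun y => ∏ i, K (a (y - 1) i) (b y i)]
    refine prod_congr rfl fun z _ => prod_congr rfl fun i _ => ?_
    rw [add_sub_cancel_right]
  have h4 : ∏ z, ∏ i, K (a (i + 1 - (z + 1)) (i + 1)) (b (i - z) i) =
      ∏ y, ∏ i, K (a y (i + 1)) (b y i) := by
    rw [← E4a_reidx fun y i => K (a y (i + 1)) (b y i)]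
    refine prod_congr rfl fun z _ => prod_congr rfl fun i _ => ?_
    rw [show i + 1 - (z + 1) = i - z by ring]
  simp only [bz, E4a_e, Equiv.coe_fn_mk, prod_mul_distrib]
  rw [h1, h2, h3, h4]
  ring

private theorem E4a_right (k : ℕ) (K : X → X → ℝ) (hK : ∀ a b, 0 ≤ K a b)
    (a b : ZMod (2 ^ k) → ZMod (2 ^ k) → X) :
    ∏ y, Rr k K (a y, b y) (a (y + 1), b (y + 1)) =
    (∏ y, bz k K (a y) (b y)) *
      ∏ y, ∏ i, K (a (y + 1) (i + 1)) (b y i) * K (a y i) (b (y + 1) i) := by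
  have hb : ∀ a b, 0 ≤ bz k K a b := fun a b =>
    prod_nonneg fun i _ => mul_nonneg (hK _ _) (hK _ _)
  simp only [Rr]
  rw [prod_mul_distrib, prod_mul_distrib,
    E4a_shift fun y => Real.sqrt (bz k K (a y) (b y)), mul_right_comm, ← prod_mul_distrib]
  congr 1
  exact prod_congr rfl fun y _ => Real.mul_self_sqrt (hb _ _)

theorem DD_rows (k : ℕ) (K : X → X → ℝ) (hK : ∀ a b, 0 ≤ K a b) :
    DD k K = cyc k (fun _ => Rr k K) := by
  unfold DD zig cyc
  rw [← (Equiv.arrowProdEquivProdArrow (ZMod (2 ^ k)) (fun _ => ZMod (2 ^ k) → X)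
    (fun _ => ZMod (2 ^ k) → X)).symm.sum_comp, Fintype.sum_prod_type,
    ← (E4a_e X (2 ^ k)).sum_comp]
  refine sum_congr rfl fun a _ => ?_
  rw [← (E4a_e X (2 ^ k)).sum_comp]
  refine sum_congr rfl fun b _ => ?_
  rw [E4a_left]
  exact (E4a_right k K hK a b).symm

end Pool.Agent.LIN

end

/-! ### from `Lib_MP_2c424f_lin.E4b` -/

section

/-!
# H30 E4b: from the zigzag torus to the coordinate torus

`DD_le`: `DD (r+1) K ≤ Zh (r+1) K ^ 2`, `m = 2^(r+1)`.
`DD k K = ∑_{α, β : i, z} ∏ K(α_{i,z}, β_{i,z}) K(α_{i,z}, β_{i,z+1})`-type torus: unfolding `zig k (bz k K)` the sum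
is over `α z i`, `β z i` (`z` = index of `zig`, `i` = index of `bz`) with the edges
`α z i ~ β z i`, `α z (i+1) ~ β z i`, `α (z+1) i ~ β z i`, `α (z+1) (i+1) ~ β z i`, first argument `α`.
(1) Rows: put `a y i = α (i - y) i` and `b y i = β (i - y) i`, `y i : ℤ/m`
    (bijection `(z,i) ↔ (y,i)`, `z = i - y`).  Edges: `α z i ~ β z i`: `a y i ~ b y i`;
    `α z (i+1) ~ β z i`: `i+1-y' = z = i-y`, `y' = y+1`: `a (y+1) (i+1) ~ b y i`;
    `α (z+1) i ~ β z i`: `i-y' = i-y+1`, `y' = y-1`: `a (y-1) i ~ b y i`;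
    `α (z+1) (i+1) ~ β z i`: `a y (i+1) ~ b y i`.
    So a ring in `y` with layers `(a_y, b_y) : (ℤ/m → X)²`, in-layer weight
    `V(a,b) = ∏_i K(a i, b i) K(a (i+1), b i)` and kernel between the layers `y`, `y+1`:
    `∏_i K(a_{y+1} (i+1), b_y i) K(a_y i, b_{y+1} i)`; put `√V √V'` on both sides:
    `DD (r+1) K = cyc (r+1) (fun _ => R)`, so `ring_chess` gives `DD^m ≤ (zig r R)^m`, `DD ≤ zig r R`.
(2) `zig r R` is the coordinate torus with `x ∈ ℤ/2m`, `y ∈ ℤ/m` (rows `2j`: `(a_j, b_j)`, rows `2j+1`: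
    `(a'_j, b'_j)`, `j : ℤ/2^r`): in-row `V`, and `K(a'_j (i+1), b_j i) K(a_j i, b'_j i)`,
    `K(a'_j (i+1), b_{j+1} i) K(a_{j+1} i, b'_j i)`.
    By columns: column `2i` = `(a_j i, b'_j i)_j`, column `2i+1` = `(a'_j (i+1), b_j i)_j` (first component: even
    sites): in-column weights `W(p,q) = ∏_j K(p_j, q_j) K(p_{j+1}, q_j)` resp. `W'(p,q) = ∏_j K(p_j, q_j) K(p_j, q_{j+1})`,
    between the columns `2i` and `2i+1`: `∏_j K(p_j, q'_j) K(p'_j, q_j)`; between `2i+1` and `2i+2` the same function.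
    So `zig r R = zig (r+1) N`, `N = √W √W' ∏ ...`, layers `(ℤ/2^r → X)²`.
(3) `zig_mono`: `zig (r+1) N ≤ (zig r N)²`.
(4) `zig r N = Zh (r+1) K`: split both coordinates of the torus of side `2^(r+1)` into even and odd values
    (`x = 2i` or `2i+1`, `y = 2j` or `2j+1`).
`Zh_tr`: translate by `(1,0)`.
The builder may state (1), (2), (4) as separate lemmas.
-/

set_option autoImplicit false

open Finset

namespace Pool.Agent.LIN

variable {X : Type*} [Fintype X]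

private lemma zp {J : Type*} [Fintype J] [AddGroup J] [One J] (f g m n : J → ℝ) (hf : ∀ j, 0 ≤ f j)
    (hg : ∀ j, 0 ≤ g j) :
    (∏ j, (Real.sqrt (f j) * m j * Real.sqrt (g j)) * (Real.sqrt (f (j + 1)) * n j * Real.sqrt (g j))) =
      (∏ j, f j) * (∏ j, g j) * ((∏ j, m j) * ∏ j, n j) := by
  have h1 : ∏ j, Real.sqrt (f (j + 1)) = ∏ j, Real.sqrt (f j) :=
    Equiv.prod_comp (Equiv.addRight (1 : J)) (fun j => Real.sqrt (f j))
  have h2 : (∏ j, Real.sqrt (f j)) * (∏ j, Real.sqrt (f j)) = ∏ j, f j := by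
    rw [← Finset.prod_mul_distrib]
    exact Finset.prod_congr rfl fun j _ => Real.mul_self_sqrt (hf j)
  have h3 : (∏ j, Real.sqrt (g j)) * (∏ j, Real.sqrt (g j)) = ∏ j, g j := by
    rw [← Finset.prod_mul_distrib]
    exact Finset.prod_congr rfl fun j _ => Real.mul_self_sqrt (hg j)
  simp only [Finset.prod_mul_distrib]
  rw [h1, ← h2, ← h3]
  ring

/-- rows to columns -/
private def rce {I J X : Type*} [AddGroup I] [One I] :
    ((J → (I → X) × (I → X)) × (J → (I → X) × (I → X))) ≃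
      ((I → (J → X) × (J → X)) × (I → (J → X) × (J → X))) where
  toFun p := (fun i => (fun j => (p.1 j).1 i, fun j => (p.2 j).2 i),
    fun i => (fun j => (p.2 j).1 (i + 1), fun j => (p.1 j).2 i))
  invFun q := (fun j => (fun i => (q.1 i).1 j, fun i => (q.2 i).2 j),
    fun j => (fun i => (q.2 (i - 1)).1 j, fun i => (q.1 i).2 j))
  left_inv p := by
    refine Prod.ext ?_ ?_
    · rfl
    · funext j
      refine Prod.ext ?_ ?_
      · funext i
        show (p.2 j).1 (i - 1 + 1) = (p.2 j).1 i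
        rw [sub_add_cancel]
      · rfl
  right_inv q := by
    refine Prod.ext ?_ ?_
    · rfl
    · funext i
      refine Prod.ext ?_ ?_
      · funext j
        show (q.2 (i + 1 - 1)).1 j = (q.2 i).1 j
        rw [add_sub_cancel_right]
      · rfl

private lemma bz_nonneg {k : ℕ} (K : X → X → ℝ) (hK : ∀ a b, 0 ≤ K a b) (a b : ZMod (2 ^ k) → X) :
    0 ≤ bz k K a b := by
  unfold bz
  exact Finset.prod_nonneg fun i _ => mul_nonneg (hK _ _) (hK _ _)

theorem rows_cols (r : ℕ) (K : X → X → ℝ) (hK : ∀ a b, 0 ≤ K a b) :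
    zig r (Rr (r + 1) K) = zig (r + 1) (Nn r K) := by
  unfold zig
  rw [← Fintype.sum_prod_type', ← Fintype.sum_prod_type']
  refine Fintype.sum_equiv (rce (I := ZMod (2 ^ (r + 1))) (J := ZMod (2 ^ r)) (X := X)) _ _ ?_
  rintro ⟨α, β⟩
  have hL : (∏ j, Rr (r + 1) K (α j) (β j) * Rr (r + 1) K (α (j + 1)) (β j)) =
      (∏ j, bz (r + 1) K (α j).1 (α j).2) * (∏ j, bz (r + 1) K (β j).1 (β j).2) *
        ((∏ j, ∏ i, K ((β j).1 (i + 1)) ((α j).2 i) * K ((α j).1 i) ((β j).2 i)) *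
          ∏ j, ∏ i, K ((β j).1 (i + 1)) ((α (j + 1)).2 i) * K ((α (j + 1)).1 i) ((β j).2 i)) := by
    unfold Rr
    exact zp (fun j => bz (r + 1) K (α j).1 (α j).2) (fun j => bz (r + 1) K (β j).1 (β j).2) _ _
      (fun j => bz_nonneg K hK _ _) (fun j => bz_nonneg K hK _ _)
  have hR : ∀ γ δ : ZMod (2 ^ (r + 1)) → (ZMod (2 ^ r) → X) × (ZMod (2 ^ r) → X),
      (∏ i, Nn r K (γ i) (δ i) * Nn r K (γ (i + 1)) (δ i)) =
      (∏ i, ∏ j, K ((γ i).1 j) ((γ i).2 j) * K ((γ i).1 (j + 1)) ((γ i).2 j)) *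
        (∏ i, ∏ j, K ((δ i).1 j) ((δ i).2 j) * K ((δ i).1 j) ((δ i).2 (j + 1))) *
        ((∏ i, ∏ j, K ((γ i).1 j) ((δ i).2 j) * K ((δ i).1 j) ((γ i).2 j)) *
          ∏ i, ∏ j, K ((γ (i + 1)).1 j) ((δ i).2 j) * K ((δ i).1 j) ((γ (i + 1)).2 j)) := by
    intro γ δ
    unfold Nn
    exact zp (fun i => ∏ j, K ((γ i).1 j) ((γ i).2 j) * K ((γ i).1 (j + 1)) ((γ i).2 j))
      (fun i => ∏ j, K ((δ i).1 j) ((δ i).2 j) * K ((δ i).1 j) ((δ i).2 (j + 1))) _ _
      (fun i => Finset.prod_nonneg fun j _ => mul_nonneg (hK _ _) (hK _ _))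
      (fun i => Finset.prod_nonneg fun j _ => mul_nonneg (hK _ _) (hK _ _))
  refine hL.trans ((?_ : _ = _).trans (hR _ _).symm)
  simp only [bz, rce, Equiv.coe_fn_mk, Finset.prod_mul_distrib]
  -- exchange the products of the left side
  have hs : ∀ F : ZMod (2 ^ r) → ZMod (2 ^ (r + 1)) → ℝ, (∏ j, ∏ i, F j i) = ∏ i, ∏ j, F j i :=
    fun F => Finset.prod_comm
  have h8 : (∏ j, ∏ i, K ((β j).1 i) ((β j).2 i)) = ∏ i, ∏ j, K ((β j).1 (i + 1)) ((β j).2 (i + 1)) := by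
    rw [hs]
    exact (Equiv.prod_comp (Equiv.addRight (1 : ZMod (2 ^ (r + 1))))
      (fun i => ∏ j, K ((β j).1 i) ((β j).2 i))).symm
  rw [h8, hs fun j i => K ((α j).1 i) ((α j).2 i), hs fun j i => K ((α j).1 (i + 1)) ((α j).2 i),
    hs fun j i => K ((β j).1 (i + 1)) ((β j).2 i), hs fun j i => K ((β j).1 (i + 1)) ((α j).2 i),
    hs fun j i => K ((α j).1 i) ((β j).2 i), hs fun j i => K ((β j).1 (i + 1)) ((α (j + 1)).2 i),
    hs fun j i => K ((α (j + 1)).1 i) ((β j).2 i)]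
  ring

end Pool.Agent.LIN

end

/-! ### from `Lib_MP_2c424f_lin.E4c` -/

section

/-!
# H30 E4c: from the zigzag torus to the coordinate torus

`DD_le`: `DD (r+1) K ≤ Zh (r+1) K ^ 2`, `m = 2^(r+1)`.
`DD k K = ∑_{α, β : i, z} ∏ K(α_{i,z}, β_{i,z}) K(α_{i,z}, β_{i,z+1})`-type torus: unfolding `zig k (bz k K)` the sum
is over `α z i`, `β z i` (`z` = index of `zig`, `i` = index of `bz`) with the edges
`α z i ~ β z i`, `α z (i+1) ~ β z i`, `α (z+1) i ~ β z i`, `α (z+1) (i+1) ~ β z i`, first argument `α`.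
(1) Rows: put `a y i = α (i - y) i` and `b y i = β (i - y) i`, `y i : ℤ/m`
    (bijection `(z,i) ↔ (y,i)`, `z = i - y`).  Edges: `α z i ~ β z i`: `a y i ~ b y i`;
    `α z (i+1) ~ β z i`: `i+1-y' = z = i-y`, `y' = y+1`: `a (y+1) (i+1) ~ b y i`;
    `α (z+1) i ~ β z i`: `i-y' = i-y+1`, `y' = y-1`: `a (y-1) i ~ b y i`;
    `α (z+1) (i+1) ~ β z i`: `a y (i+1) ~ b y i`.
    So a ring in `y` with layers `(a_y, b_y) : (ℤ/m → X)²`, in-layer weight
    `V(a,b) = ∏_i K(a i, b i) K(a (i+1), b i)` and kernel between the layers `y`, `y+1`: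
    `∏_i K(a_{y+1} (i+1), b_y i) K(a_y i, b_{y+1} i)`; put `√V √V'` on both sides:
    `DD (r+1) K = cyc (r+1) (fun _ => R)`, so `ring_chess` gives `DD^m ≤ (zig r R)^m`, `DD ≤ zig r R`.
(2) `zig r R` is the coordinate torus with `x ∈ ℤ/2m`, `y ∈ ℤ/m` (rows `2j`: `(a_j, b_j)`, rows `2j+1`:
    `(a'_j, b'_j)`, `j : ℤ/2^r`): in-row `V`, and `K(a'_j (i+1), b_j i) K(a_j i, b'_j i)`,
    `K(a'_j (i+1), b_{j+1} i) K(a_{j+1} i, b'_j i)`.
    By columns: column `2i` = `(a_j i, b'_j i)_j`, column `2i+1` = `(a'_j (i+1), b_j i)_j` (first component: even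
    sites): in-column weights `W(p,q) = ∏_j K(p_j, q_j) K(p_{j+1}, q_j)` resp. `W'(p,q) = ∏_j K(p_j, q_j) K(p_j, q_{j+1})`,
    between the columns `2i` and `2i+1`: `∏_j K(p_j, q'_j) K(p'_j, q_j)`; between `2i+1` and `2i+2` the same function.
    So `zig r R = zig (r+1) N`, `N = √W √W' ∏ ...`, layers `(ℤ/2^r → X)²`.
(3) `zig_mono`: `zig (r+1) N ≤ (zig r N)²`.
(4) `zig r N = Zh (r+1) K`: split both coordinates of the torus of side `2^(r+1)` into even and odd values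
    (`x = 2i` or `2i+1`, `y = 2j` or `2j+1`).
`Zh_tr`: translate by `(1,0)`.
The builder may state (1), (2), (4) as separate lemmas.
-/

set_option autoImplicit false

open Finset

namespace Pool.Agent.LIN

variable {X : Type*} [Fintype X]

private theorem E4c_val (r : ℕ) (i : ZMod (2 ^ r)) :
    (((2 * i.val : ℕ) : ZMod (2 ^ (r + 1)))).val = 2 * i.val := by
  rw [ZMod.val_natCast, Nat.mod_eq_of_lt]
  have := ZMod.val_lt i
  rw [pow_succ]
  omega

private theorem E4c_val1 (r : ℕ) (i : ZMod (2 ^ r)) :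
    (((2 * i.val : ℕ) : ZMod (2 ^ (r + 1))) + 1).val = 2 * i.val + 1 := by
  have h : ((2 * i.val : ℕ) : ZMod (2 ^ (r + 1))) + 1 = ((2 * i.val + 1 : ℕ) : ZMod (2 ^ (r + 1))) := by
    push_cast
    ring
  rw [h, ZMod.val_natCast, Nat.mod_eq_of_lt]
  have := ZMod.val_lt i
  rw [pow_succ]
  omega

private theorem E4c_succ (r : ℕ) (i : ZMod (2 ^ r)) :
    ((2 * (i + 1).val : ℕ) : ZMod (2 ^ (r + 1))) = ((2 * i.val : ℕ) : ZMod (2 ^ (r + 1))) + 1 + 1 := by
  have h : ((2 * i.val : ℕ) : ZMod (2 ^ (r + 1))) + 1 + 1 =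
      ((2 * (i.val + 1) : ℕ) : ZMod (2 ^ (r + 1))) := by
    push_cast
    ring
  rw [h, ZMod.natCast_eq_natCast_iff]
  have h1 : (i + 1).val ≡ i.val + 1 [MOD 2 ^ r] := by
    rw [← ZMod.natCast_eq_natCast_iff]
    push_cast
    rw [ZMod.natCast_zmod_val, ZMod.natCast_zmod_val]
  have h2 := h1.mul_left' 2
  rwa [show 2 * 2 ^ r = 2 ^ (r + 1) by rw [pow_succ, mul_comm]] at h2

/-- `ℤ/2^(r+1)` as pairs of consecutive elements -/
private noncomputable def E4c_e (r : ℕ) : ZMod (2 ^ r) × Bool ≃ ZMod (2 ^ (r + 1)) :=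
  Equiv.ofBijective (fun p => ((2 * p.1.val : ℕ) : ZMod (2 ^ (r + 1))) + if p.2 then 1 else 0) (by
    refine (Fintype.bijective_iff_injective_and_card _).2 ⟨?_, ?_⟩
    · rintro ⟨i, b⟩ ⟨j, c⟩ h
      have h1 := congrArg ZMod.val h
      have hi := E4c_val r i
      have hj := E4c_val r j
      have hi1 := E4c_val1 r i
      have hj1 := E4c_val1 r j
      cases b <;> cases c
      · simp only [Bool.false_eq_true, if_false, add_zero] at h1
        rw [hi, hj] at h1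
        rw [show i = j from ZMod.val_injective _ (by omega)]
      · simp only [Bool.false_eq_true, if_false, if_true, add_zero] at h1
        rw [hi, hj1] at h1
        omega
      · simp only [Bool.false_eq_true, if_false, if_true, add_zero] at h1
        rw [hi1, hj] at h1
        omega
      · simp only [if_true] at h1
        rw [hi1, hj1] at h1
        rw [show i = j from ZMod.val_injective _ (by omega)]
    · rw [Fintype.card_prod, Fintype.card_bool, ZMod.card, ZMod.card, pow_succ])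

private theorem E4c_e_false (r : ℕ) (i : ZMod (2 ^ r)) :
    E4c_e r (i, false) = ((2 * i.val : ℕ) : ZMod (2 ^ (r + 1))) := by
  rw [E4c_e, Equiv.ofBijective_apply]
  simp

private theorem E4c_e_true (r : ℕ) (i : ZMod (2 ^ r)) :
    E4c_e r (i, true) = ((2 * i.val : ℕ) : ZMod (2 ^ (r + 1))) + 1 := by
  rw [E4c_e, Equiv.ofBijective_apply]
  simp

private theorem E4c_prod (r : ℕ) (g : ZMod (2 ^ (r + 1)) → ℝ) :
    ∏ x, g x = ∏ i : ZMod (2 ^ r), g ((2 * i.val : ℕ) : ZMod (2 ^ (r + 1))) *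
      g (((2 * i.val : ℕ) : ZMod (2 ^ (r + 1))) + 1) := by
  rw [← Equiv.prod_comp (E4c_e r) g, Fintype.prod_prod_type]
  refine Finset.prod_congr rfl fun i _ => ?_
  rw [Fintype.prod_bool, E4c_e_false, E4c_e_true, mul_comm]

/-- the two families of columns -/
private noncomputable def E4c_cols (r : ℕ) {X : Type*}
    (f : ZMod (2 ^ (r + 1)) × ZMod (2 ^ (r + 1)) → X) :
    (ZMod (2 ^ r) → (ZMod (2 ^ r) → X) × (ZMod (2 ^ r) → X)) ×
      (ZMod (2 ^ r) → (ZMod (2 ^ r) → X) × (ZMod (2 ^ r) → X)) :=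
  (fun i => (fun j => f (E4c_e r (i, false), E4c_e r (j, false)),
    fun j => f (E4c_e r (i, false), E4c_e r (j, true))),
   fun i => (fun j => f (E4c_e r (i, true), E4c_e r (j, true)),
    fun j => f (E4c_e r (i, true), E4c_e r (j, false))))

private theorem E4c_cols_bij (r : ℕ) {X : Type*} :
    Function.Bijective (E4c_cols r (X := X)) := by
  constructor
  · intro f g h
    funext p
    obtain ⟨x, y⟩ := p
    obtain ⟨⟨i, b⟩, rfl⟩ := (E4c_e r).surjective x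
    obtain ⟨⟨j, c⟩, rfl⟩ := (E4c_e r).surjective y
    have h1 := congrFun (congrArg Prod.fst h) i
    have h2 := congrFun (congrArg Prod.snd h) i
    have h3 := congrFun (congrArg Prod.fst h1) j
    have h4 := congrFun (congrArg Prod.snd h1) j
    have h5 := congrFun (congrArg Prod.fst h2) j
    have h6 := congrFun (congrArg Prod.snd h2) j
    cases b <;> cases c
    · exact h3
    · exact h4
    · exact h6
    · exact h5
  · rintro ⟨α, β⟩
    refine ⟨fun p => if ((E4c_e r).symm p.1).2 then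
      (if ((E4c_e r).symm p.2).2 then (β ((E4c_e r).symm p.1).1).1 ((E4c_e r).symm p.2).1
        else (β ((E4c_e r).symm p.1).1).2 ((E4c_e r).symm p.2).1) else
      (if ((E4c_e r).symm p.2).2 then (α ((E4c_e r).symm p.1).1).2 ((E4c_e r).symm p.2).1
        else (α ((E4c_e r).symm p.1).1).1 ((E4c_e r).symm p.2).1), ?_⟩
    simp [E4c_cols]

omit [Fintype X] in
private theorem E4c_ee (r : ℕ) (K : X → X → ℝ) (i j : ZMod (2 ^ r)) :
    ori (r + 1) K ((2 * i.val : ℕ) : ZMod (2 ^ (r + 1))) ((2 * j.val : ℕ) : ZMod (2 ^ (r + 1))) =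
      K := by
  rw [ori, if_pos]
  rw [E4c_val, E4c_val]
  exact ⟨i.val + j.val, by ring⟩

omit [Fintype X] in
private theorem E4c_oo (r : ℕ) (K : X → X → ℝ) (i j : ZMod (2 ^ r)) :
    ori (r + 1) K (((2 * i.val : ℕ) : ZMod (2 ^ (r + 1))) + 1)
      (((2 * j.val : ℕ) : ZMod (2 ^ (r + 1))) + 1) = K := by
  rw [ori, if_pos]
  rw [E4c_val1, E4c_val1]
  exact ⟨i.val + j.val + 1, by ring⟩

omit [Fintype X] in
private theorem E4c_eo (r : ℕ) (K : X → X → ℝ) (i j : ZMod (2 ^ r)) :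
    ori (r + 1) K ((2 * i.val : ℕ) : ZMod (2 ^ (r + 1)))
      (((2 * j.val : ℕ) : ZMod (2 ^ (r + 1))) + 1) = fun a b => K b a := by
  rw [ori, if_neg]
  rw [E4c_val, E4c_val1, Nat.not_even_iff_odd]
  exact ⟨i.val + j.val, by ring⟩

omit [Fintype X] in
private theorem E4c_oe (r : ℕ) (K : X → X → ℝ) (i j : ZMod (2 ^ r)) :
    ori (r + 1) K (((2 * i.val : ℕ) : ZMod (2 ^ (r + 1))) + 1)
      ((2 * j.val : ℕ) : ZMod (2 ^ (r + 1))) = fun a b => K b a := by
  rw [ori, if_neg]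
  rw [E4c_val, E4c_val1, Nat.not_even_iff_odd]
  exact ⟨i.val + j.val, by ring⟩

/-- the square roots of a ring of layers -/
private theorem E4c_sqrt {U : Type*} (r : ℕ) (W W' : U → ℝ) (C : U → U → ℝ)
    (hW : ∀ u, 0 ≤ W u) (hW' : ∀ u, 0 ≤ W' u) (α β : ZMod (2 ^ r) → U) :
    ∏ i, (Real.sqrt (W (α i)) * C (α i) (β i) * Real.sqrt (W' (β i))) *
      (Real.sqrt (W (α (i + 1))) * C (α (i + 1)) (β i) * Real.sqrt (W' (β i))) =
    ∏ i, W (α i) * W' (β i) * (C (α i) (β i) * C (α (i + 1)) (β i)) := by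
  have h1 : ∏ i, Real.sqrt (W (α (i + 1))) = ∏ i, Real.sqrt (W (α i)) :=
    Equiv.prod_comp (Equiv.addRight (1 : ZMod (2 ^ r))) fun i => Real.sqrt (W (α i))
  calc ∏ i, (Real.sqrt (W (α i)) * C (α i) (β i) * Real.sqrt (W' (β i))) *
      (Real.sqrt (W (α (i + 1))) * C (α (i + 1)) (β i) * Real.sqrt (W' (β i)))
      = ∏ i, Real.sqrt (W (α i)) * Real.sqrt (W (α (i + 1))) *
          (W' (β i) * (C (α i) (β i) * C (α (i + 1)) (β i))) := by
        refine Finset.prod_congr rfl fun i _ => ?_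
        have h2 := Real.mul_self_sqrt (hW' (β i))
        calc _ = Real.sqrt (W (α i)) * Real.sqrt (W (α (i + 1))) *
              ((Real.sqrt (W' (β i)) * Real.sqrt (W' (β i))) *
                (C (α i) (β i) * C (α (i + 1)) (β i))) := by ring
          _ = _ := by rw [h2]
    _ = (∏ i, Real.sqrt (W (α i))) * (∏ i, Real.sqrt (W (α i))) *
          ∏ i, (W' (β i) * (C (α i) (β i) * C (α (i + 1)) (β i))) := by
        rw [Finset.prod_mul_distrib, Finset.prod_mul_distrib, h1]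
    _ = ∏ i, W (α i) * W' (β i) * (C (α i) (β i) * C (α (i + 1)) (β i)) := by
        rw [← Finset.prod_mul_distrib, ← Finset.prod_mul_distrib]
        refine Finset.prod_congr rfl fun i _ => ?_
        rw [Real.mul_self_sqrt (hW (α i)), mul_assoc]

theorem cols_Zh (r : ℕ) (K : X → X → ℝ) (hK : ∀ a b, 0 ≤ K a b) :
    zig r (Nn r K) = Zh (r + 1) K := by
  have key : ∀ f : ZMod (2 ^ (r + 1)) × ZMod (2 ^ (r + 1)) → X,
      (∏ i, Nn r K ((E4c_cols r f).1 i) ((E4c_cols r f).2 i) *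
        Nn r K ((E4c_cols r f).1 (i + 1)) ((E4c_cols r f).2 i)) =
      ∏ p : ZMod (2 ^ (r + 1)) × ZMod (2 ^ (r + 1)),
        ori (r + 1) K p.1 p.2 (f p) (f (p.1 + 1, p.2)) *
          ori (r + 1) K p.1 p.2 (f p) (f (p.1, p.2 + 1)) := by
    intro f
    have h1 := E4c_sqrt r
      (fun u : (ZMod (2 ^ r) → X) × (ZMod (2 ^ r) → X) =>
        ∏ j, K (u.1 j) (u.2 j) * K (u.1 (j + 1)) (u.2 j))
      (fun v : (ZMod (2 ^ r) → X) × (ZMod (2 ^ r) → X) =>
        ∏ j, K (v.1 j) (v.2 j) * K (v.1 j) (v.2 (j + 1)))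
      (fun u v => ∏ j, K (u.1 j) (v.2 j) * K (v.1 j) (u.2 j))
      (fun u => Finset.prod_nonneg fun j _ => mul_nonneg (hK _ _) (hK _ _))
      (fun u => Finset.prod_nonneg fun j _ => mul_nonneg (hK _ _) (hK _ _))
      (E4c_cols r f).1 (E4c_cols r f).2
    refine Eq.trans h1 ?_
    rw [Fintype.prod_prod_type, E4c_prod]
    refine Finset.prod_congr rfl fun i _ => ?_
    rw [E4c_prod, E4c_prod, ← Finset.prod_mul_distrib, ← Finset.prod_mul_distrib,
      ← Finset.prod_mul_distrib, ← Finset.prod_mul_distrib]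
    refine Finset.prod_congr rfl fun j _ => ?_
    simp only [E4c_cols, E4c_e_false, E4c_e_true, E4c_ee, E4c_oo, E4c_eo, E4c_oe, E4c_succ]
    ring
  rw [zig, Zh, Zg, ← Fintype.sum_prod_type']
  refine Eq.symm ?_
  rw [← (Equiv.ofBijective _ (E4c_cols_bij r (X := X))).sum_comp]
  refine Finset.sum_congr rfl fun f _ => ?_
  exact (key f).symm

end Pool.Agent.LIN

end

/-! ### from `Lib_MP_2c424f_lin.E4d` -/

section

/-!
# H30 E4d: from the zigzag torus to the coordinate torus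

`DD_le`: `DD (r+1) K ≤ Zh (r+1) K ^ 2`, `m = 2^(r+1)`.
`DD k K = ∑_{α, β : i, z} ∏ K(α_{i,z}, β_{i,z}) K(α_{i,z}, β_{i,z+1})`-type torus: unfolding `zig k (bz k K)` the sum
is over `α z i`, `β z i` (`z` = index of `zig`, `i` = index of `bz`) with the edges
`α z i ~ β z i`, `α z (i+1) ~ β z i`, `α (z+1) i ~ β z i`, `α (z+1) (i+1) ~ β z i`, first argument `α`.
(1) Rows: put `a y i = α (i - y) i` and `b y i = β (i - y) i`, `y i : ℤ/m`
    (bijection `(z,i) ↔ (y,i)`, `z = i - y`).  Edges: `α z i ~ β z i`: `a y i ~ b y i`;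
    `α z (i+1) ~ β z i`: `i+1-y' = z = i-y`, `y' = y+1`: `a (y+1) (i+1) ~ b y i`;
    `α (z+1) i ~ β z i`: `i-y' = i-y+1`, `y' = y-1`: `a (y-1) i ~ b y i`;
    `α (z+1) (i+1) ~ β z i`: `a y (i+1) ~ b y i`.
    So a ring in `y` with layers `(a_y, b_y) : (ℤ/m → X)²`, in-layer weight
    `V(a,b) = ∏_i K(a i, b i) K(a (i+1), b i)` and kernel between the layers `y`, `y+1`:
    `∏_i K(a_{y+1} (i+1), b_y i) K(a_y i, b_{y+1} i)`; put `√V √V'` on both sides:
    `DD (r+1) K = cyc (r+1) (fun _ => R)`, so `ring_chess` gives `DD^m ≤ (zig r R)^m`, `DD ≤ zig r R`.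
(2) `zig r R` is the coordinate torus with `x ∈ ℤ/2m`, `y ∈ ℤ/m` (rows `2j`: `(a_j, b_j)`, rows `2j+1`:
    `(a'_j, b'_j)`, `j : ℤ/2^r`): in-row `V`, and `K(a'_j (i+1), b_j i) K(a_j i, b'_j i)`,
    `K(a'_j (i+1), b_{j+1} i) K(a_{j+1} i, b'_j i)`.
    By columns: column `2i` = `(a_j i, b'_j i)_j`, column `2i+1` = `(a'_j (i+1), b_j i)_j` (first component: even
    sites): in-column weights `W(p,q) = ∏_j K(p_j, q_j) K(p_{j+1}, q_j)` resp. `W'(p,q) = ∏_j K(p_j, q_j) K(p_j, q_{j+1})`,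
    between the columns `2i` and `2i+1`: `∏_j K(p_j, q'_j) K(p'_j, q_j)`; between `2i+1` and `2i+2` the same function.
    So `zig r R = zig (r+1) N`, `N = √W √W' ∏ ...`, layers `(ℤ/2^r → X)²`.
(3) `zig_mono`: `zig (r+1) N ≤ (zig r N)²`.
(4) `zig r N = Zh (r+1) K`: split both coordinates of the torus of side `2^(r+1)` into even and odd values
    (`x = 2i` or `2i+1`, `y = 2j` or `2j+1`).
`Zh_tr`: translate by `(1,0)`.
The builder may state (1), (2), (4) as separate lemmas.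
-/

set_option autoImplicit false

open Finset

namespace Pool.Agent.LIN

variable {X : Type*} [Fintype X]

theorem DD_le (r : ℕ) (K : X → X → ℝ) (hK : ∀ a b, 0 ≤ K a b) :
    DD (r + 1) K ≤ Zh (r + 1) K ^ 2 := by
  have h1 := ring_chess r (fun _ : ZMod (2 ^ (r + 1)) => Rr (r + 1) K)
  rw [← DD_rows (r + 1) K hK, Finset.prod_const, Finset.card_univ, ZMod.card] at h1
  have h2 : |DD (r + 1) K| ≤ zig r (Rr (r + 1) K) :=
    le_of_pow_le_pow_left₀ (by positivity) (zig_nonneg r _) h1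
  calc DD (r + 1) K ≤ |DD (r + 1) K| := le_abs_self _
    _ ≤ zig r (Rr (r + 1) K) := h2
    _ = zig (r + 1) (Nn r K) := rows_cols r K hK
    _ ≤ zig r (Nn r K) ^ 2 := zig_mono r _
    _ = Zh (r + 1) K ^ 2 := by rw [cols_Zh r K hK]

private theorem E4d_parity (k : ℕ) (hk : 1 ≤ k) (x y : ZMod (2 ^ k)) :
    Even ((x + 1).val + y.val) ↔ ¬ Even (x.val + y.val) := by
  have h2 : Even (2 ^ k) := (Nat.even_pow.2 ⟨even_two, by omega⟩)
  have hlt : x.val < 2 ^ k := ZMod.val_lt x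
  have h1 : (1 : ZMod (2 ^ k)).val = 1 := by
    have : Fact (1 < 2 ^ k) := ⟨Nat.one_lt_two_pow (by omega)⟩
    exact ZMod.val_one _
  rw [ZMod.val_add, h1]
  rcases Nat.lt_or_ge (x.val + 1) (2 ^ k) with h | h
  · rw [Nat.mod_eq_of_lt h]
    rw [show x.val + 1 + y.val = (x.val + y.val) + 1 by ring, Nat.even_add_one]
  · have he : x.val + 1 = 2 ^ k := by omega
    rw [he, Nat.mod_self, Nat.zero_add]
    rw [← he] at h2
    rw [Nat.even_add_one] at h2
    rw [Nat.even_add]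
    tauto

private theorem E4d_ori (k : ℕ) (hk : 1 ≤ k) (K : X → X → ℝ) (x y : ZMod (2 ^ k)) :
    ori k K (x + 1) y = ori k (fun a b => K b a) x y := by
  unfold ori
  by_cases h : Even (x.val + y.val)
  · rw [if_pos h, if_neg (by rw [E4d_parity k hk]; exact not_not.2 h)]
  · rw [if_neg h, if_pos ((E4d_parity k hk x y).2 h)]

theorem Zh_tr (k : ℕ) (hk : 1 ≤ k) (K : X → X → ℝ) : Zh k (fun a b => K b a) = Zh k K := by
  unfold Zh Zg
  let e : ZMod (2 ^ k) × ZMod (2 ^ k) ≃ ZMod (2 ^ k) × ZMod (2 ^ k) :=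
    (Equiv.addRight (1 : ZMod (2 ^ k))).prodCongr (Equiv.refl _)
  refine Fintype.sum_equiv (Equiv.arrowCongr e (Equiv.refl X)) _ _ fun f => ?_
  refine Fintype.prod_equiv e _ _ fun p => ?_
  have e1 : ∀ p, (Equiv.arrowCongr e (Equiv.refl X)) f (e p) = f p := fun p => by
    simp [Equiv.arrowCongr]
  have e2 : ((e p).1 + 1, (e p).2) = e (p.1 + 1, p.2) := rfl
  have e3 : ((e p).1, (e p).2 + 1) = e (p.1, p.2 + 1) := rfl
  rw [e2, e3, e1, e1, e1]
  have e4 : (e p).1 = p.1 + 1 := rfl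
  have e5 : (e p).2 = p.2 := rfl
  rw [e4, e5, E4d_ori k hk K]

end Pool.Agent.LIN

end

/-! ### from `Lib_MP_2c424f_lin.E5` -/

section

/-!
# H30 E5: the two-dimensional edge chessboard

`m = 2^k`, `Z = Zg k Kh Kv = cyc k A` (`Zg_cyc`, layers `ℤ/m → X`, so `card = |X|^m`).
`dbl`: `Z² ≤ |X|^m C`, `C = cyc (k+1) (A ∘ rd) ≥ 0`.  `ring_chess`: `C^(2m) ≤ (∏_{s : ℤ/m} zig k (A s))²`
(every value of `rd` is taken twice), so `C^m ≤ ∏_s zig k (A s)`.  `zig_layer`:
`zig k (A s)^(2m) ≤ ∏_z DD k (Kh (s-z) z) DD k (Kv (s-z) z)`, and `DD ≤ Zh²` (`DD_le`, `k = r+1`).  So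
`C^(2m²) ≤ ∏_{x,y} DD DD ≤ (∏ Zh Zh)²`, `C^(m²) ≤ ∏ Zh Zh`, `Z^(2m²) ≤ |X|^(m³) C^(m²)`.
-/

set_option autoImplicit false

open Finset

namespace Pool.Agent.LIN

variable {X : Type*} [Fintype X]

private theorem E5_range (N : ℕ) [NeZero N] (G : ℕ → ℝ) :
    ∏ s : ZMod N, G s.val = ∏ i ∈ Finset.range N, G i := by
  refine Finset.prod_nbij' (fun s : ZMod N => s.val) (fun i : ℕ => (i : ZMod N)) ?_ ?_ ?_ ?_ ?_
  · intro s _
    exact Finset.mem_range.2 (ZMod.val_lt s)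
  · intro i _
    exact Finset.mem_univ _
  · intro s _
    exact ZMod.natCast_zmod_val s
  · intro i hi
    rw [ZMod.val_natCast, Nat.mod_eq_of_lt (Finset.mem_range.1 hi)]
  · intro s _
    rfl

private theorem E5_rd (k : ℕ) (g : ZMod (2 ^ k) → ℝ) :
    ∏ j : ZMod (2 ^ (k + 1)), g (rd k j) = (∏ s, g s) ^ 2 := by
  have h1 : ∏ j : ZMod (2 ^ (k + 1)), g (rd k j) =
      ∏ i ∈ Finset.range (2 ^ (k + 1)), g (i : ZMod (2 ^ k)) :=
    E5_range (2 ^ (k + 1)) fun i => g (i : ZMod (2 ^ k))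
  have h2 : ∏ s, g s = ∏ i ∈ Finset.range (2 ^ k), g (i : ZMod (2 ^ k)) := by
    rw [← E5_range (2 ^ k) fun i => g (i : ZMod (2 ^ k))]
    refine Finset.prod_congr rfl fun s _ => ?_
    rw [ZMod.natCast_zmod_val]
  rw [h1, h2, show 2 ^ (k + 1) = 2 ^ k + 2 ^ k by rw [pow_succ]; ring, Finset.prod_range_add, sq]
  congr 1
  refine Finset.prod_congr rfl fun i _ => ?_
  rw [Nat.cast_add, ZMod.natCast_self, zero_add]

private theorem E5_cyc_nonneg {U : Type*} [Fintype U] (r : ℕ) (A : ZMod (2 ^ r) → U → U → ℝ)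
    (hA : ∀ j a b, 0 ≤ A j a b) : 0 ≤ cyc r A :=
  Finset.sum_nonneg fun _ _ => Finset.prod_nonneg fun _ _ => hA _ _ _

private theorem E5_ori_nonneg {U : Type*} (k : ℕ) (K : U → U → ℝ) (hK : ∀ a b, 0 ≤ K a b)
    (x y : ZMod (2 ^ k)) (a b : U) : 0 ≤ ori k K x y a b := by
  rw [ori]
  split_ifs
  · exact hK _ _
  · exact hK _ _

private theorem E5_Zh_nonneg (k : ℕ) (K : X → X → ℝ) (hK : ∀ a b, 0 ≤ K a b) : 0 ≤ Zh k K := by
  rw [Zh, Zg]
  exact Finset.sum_nonneg fun f _ => Finset.prod_nonneg fun p _ =>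
    mul_nonneg (E5_ori_nonneg k K hK _ _ _ _) (E5_ori_nonneg k K hK _ _ _ _)

theorem two_dim (k : ℕ) (hk : 1 ≤ k) (Kh Kv : ZMod (2 ^ k) → ZMod (2 ^ k) → X → X → ℝ)
    (h1 : ∀ x y a b, 0 ≤ Kh x y a b) (h2 : ∀ x y a b, 0 ≤ Kv x y a b) :
    Zg k Kh Kv ^ (2 * (2 ^ k) ^ 2) ≤
      (Fintype.card X : ℝ) ^ ((2 ^ k) ^ 3) * ∏ x, ∏ y, Zh k (Kh x y) * Zh k (Kv x y) := by
  obtain ⟨A, hAdef⟩ : ∃ A : ZMod (2 ^ k) → (ZMod (2 ^ k) → X) → (ZMod (2 ^ k) → X) → ℝ,
      A = fun s (α β : ZMod (2 ^ k) → X) =>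
        ∏ z, Kh (s - z) z (α z) (β z) * Kv (s - z) z (α z) (β (z + 1)) := ⟨_, rfl⟩
  have hA : ∀ s α β, 0 ≤ A s α β := by
    intro s α β
    rw [hAdef]
    exact Finset.prod_nonneg fun z _ => mul_nonneg (h1 _ _ _ _) (h2 _ _ _ _)
  have hZ : Zg k Kh Kv = cyc k A := by rw [Zg_cyc, hAdef]
  obtain ⟨C, hC⟩ : ∃ C, C = cyc (k + 1) (fun s => A (rd k s)) := ⟨_, rfl⟩
  have hC0 : 0 ≤ C := by
    rw [hC]
    exact E5_cyc_nonneg _ _ fun j a b => hA _ _ _
  have hdbl : Zg k Kh Kv ^ 2 ≤ (Fintype.card X : ℝ) ^ (2 ^ k) * C := by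
    have h3 := dbl k A hA
    rw [← hZ, ← hC] at h3
    have h4 : (Fintype.card (ZMod (2 ^ k) → X) : ℝ) = (Fintype.card X : ℝ) ^ (2 ^ k) := by
      rw [Fintype.card_fun, ZMod.card, Nat.cast_pow]
    rwa [h4] at h3
  -- the product of the layers
  obtain ⟨P, hP⟩ : ∃ P, P = ∏ s, zig k (A s) := ⟨_, rfl⟩
  have hP0 : 0 ≤ P := by
    rw [hP]
    exact Finset.prod_nonneg fun s _ => zig_nonneg _ _
  have hCP : C ^ (2 ^ k) ≤ P := by
    have h3 := ring_chess k fun s => A (rd k s)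
    rw [← hC, abs_of_nonneg hC0, E5_rd k fun s => zig k (A s), ← hP] at h3
    rw [pow_succ, pow_mul] at h3
    exact (pow_le_pow_iff_left₀ (pow_nonneg hC0 _) hP0 two_ne_zero).1 h3
  obtain ⟨Q, hQ⟩ : ∃ Q, Q = ∏ x, ∏ y, Zh k (Kh x y) * Zh k (Kv x y) := ⟨_, rfl⟩
  have hZh : ∀ x y, 0 ≤ Zh k (Kh x y) := fun x y => E5_Zh_nonneg k _ (h1 x y)
  have hZv : ∀ x y, 0 ≤ Zh k (Kv x y) := fun x y => E5_Zh_nonneg k _ (h2 x y)
  have hQ0 : 0 ≤ Q := by
    rw [hQ]
    exact Finset.prod_nonneg fun x _ => Finset.prod_nonneg fun y _ => mul_nonneg (hZh _ _) (hZv _ _)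
  have hDD : ∀ K : X → X → ℝ, (∀ a b, 0 ≤ K a b) → DD k K ≤ Zh k K ^ 2 := by
    obtain ⟨r, rfl⟩ : ∃ r, k = r + 1 := ⟨k - 1, by omega⟩
    exact fun K hK => DD_le r K hK
  have hDD0 : ∀ K : X → X → ℝ, 0 ≤ DD k K := fun K => zig_nonneg _ _
  have hPQ : P ^ (2 ^ (k + 1)) ≤ Q ^ 2 := by
    have h3 : P ^ (2 ^ (k + 1)) ≤ ∏ s : ZMod (2 ^ k), ∏ z : ZMod (2 ^ k),
        (Zh k (Kh (s - z) z) * Zh k (Kv (s - z) z)) ^ 2 := by
      rw [hP, ← Finset.prod_pow]
      refine Finset.prod_le_prod (fun s _ => pow_nonneg (zig_nonneg _ _) _) fun s _ => ?_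
      have h4 := zig_layer k (fun z => Kh (s - z) z) (fun z => Kv (s - z) z)
      rw [hAdef]
      refine h4.trans (Finset.prod_le_prod (fun z _ => mul_nonneg (hDD0 _) (hDD0 _)) fun z _ => ?_)
      rw [mul_pow]
      exact mul_le_mul (hDD _ (h1 _ _)) (hDD _ (h2 _ _)) (hDD0 _) (sq_nonneg _)
    refine h3.trans (le_of_eq ?_)
    rw [hQ, Finset.prod_comm]
    have h5 : ∀ z : ZMod (2 ^ k), ∏ s : ZMod (2 ^ k),
        (Zh k (Kh (s - z) z) * Zh k (Kv (s - z) z)) ^ 2 =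
        ∏ x : ZMod (2 ^ k), (Zh k (Kh x z) * Zh k (Kv x z)) ^ 2 := fun z =>
      Equiv.prod_comp (Equiv.subRight z) fun x => (Zh k (Kh x z) * Zh k (Kv x z)) ^ 2
    rw [Finset.prod_congr rfl fun z _ => h5 z, Finset.prod_comm]
    simp only [Finset.prod_pow]
  have hCQ : C ^ ((2 ^ k) ^ 2) ≤ Q := by
    refine (pow_le_pow_iff_left₀ (pow_nonneg hC0 _) hQ0 two_ne_zero).1 ?_
    have h3 : (C ^ ((2 ^ k) ^ 2)) ^ 2 = (C ^ (2 ^ k)) ^ (2 ^ (k + 1)) := by
      rw [← pow_mul C, ← pow_mul C]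
      congr 1
      ring
    rw [h3]
    exact (pow_le_pow_left₀ (pow_nonneg hC0 _) hCP _).trans hPQ
  calc Zg k Kh Kv ^ (2 * (2 ^ k) ^ 2) = (Zg k Kh Kv ^ 2) ^ ((2 ^ k) ^ 2) :=
        pow_mul _ _ _
    _ ≤ ((Fintype.card X : ℝ) ^ (2 ^ k) * C) ^ ((2 ^ k) ^ 2) :=
        pow_le_pow_left₀ (sq_nonneg _) hdbl _
    _ = (Fintype.card X : ℝ) ^ ((2 ^ k) ^ 3) * C ^ ((2 ^ k) ^ 2) := by
        rw [mul_pow, ← pow_mul (Fintype.card X : ℝ)]
        congr 2
        ring
    _ ≤ (Fintype.card X : ℝ) ^ ((2 ^ k) ^ 3) * Q :=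
        mul_le_mul_of_nonneg_left hCQ (pow_nonneg (Nat.cast_nonneg _) _)
    _ = (Fintype.card X : ℝ) ^ ((2 ^ k) ^ 3) * ∏ x, ∏ y, Zh k (Kh x y) * Zh k (Kv x y) := by
        rw [hQ]

end Pool.Agent.LIN

end
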