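import Pool.Agent.Lib_MP_2c424f_ms.M02
import Pool.Agent.Lib_MP_2c424f_ms.M10

/-!
# MP_2c424f_pr: library of SharpThreshold and BoundaryThreshold (merged): merged library part M14

Concatenation of smaller files (each in its own section), only to save build time.
-/

namespace Pool.Agent.LO
end Pool.Agent.LO

/-! ### from `Lib_MP_2c424f_lin.E7` -/

section

/-!
# H30 E7: folding preserves means

For fixed `p`, `σ ∈ pl i j` and fixed fibre part, half of the plane positions of `x` have the parity of `p`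
(`fol x = mrg p x`), for the other half `fol x = mrg p x + sv σ`.
* `fol_sum`: `∑_p ∑_{σ ∈ pl i j} ∑_x H (fol i j p σ x) = 4 N ∑_x H x`.
* `pf_mean`: directions `l ≠ i, j`: `fol_sum`; `l ∈ {i, j}`:
  `∑_p ∑_σ ∑_x h (WL w (mrg p x) σ) = N ∑_x ∑_{σ ∈ pl i j} h (WL w x σ) = 2 N ∑_x (h (w x i) + h (w x j))`.
-/

set_option autoImplicit false

open Finset

namespace Pool.Agent.LIN

open Pool.Agent.LO

variable {d k : ℕ} {Λ : Type*}

theorem E7_even (hk : 1 ≤ k) (a : ZMod (2 ^ k)) : Even (a + 1).val ↔ ¬ Even a.val := by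
  have h2 : (2 : ℕ) ∣ 2 ^ k := dvd_pow_self 2 (by omega)
  have hm : (a + 1).val = (a.val + 1) % 2 ^ k := by
    have : a + 1 = ((a.val + 1 : ℕ) : ZMod (2 ^ k)) := by
      push_cast
      rw [ZMod.natCast_zmod_val]
    rw [this, ZMod.val_natCast]
  have h3 : (a.val + 1) % 2 ^ k % 2 = (a.val + 1) % 2 := Nat.mod_mod_of_dvd _ h2
  rw [hm, Nat.even_iff, Nat.even_iff]
  omega

theorem E7_pl_eq (i j : Fin d) (hij : i ≠ j) :
    pl i j = {(i, true), (i, false), (j, true), (j, false)} := by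
  ext ⟨a, b⟩
  simp only [pl, mem_filter, mem_univ, true_and, mem_insert, mem_singleton, Prod.mk.injEq]
  cases b <;> simp

theorem E7_pl_sum (i j : Fin d) (hij : i ≠ j) (F : Stp d → ℝ) :
    ∑ σ ∈ pl i j, F σ = F (i, true) + F (i, false) + F (j, true) + F (j, false) := by
  rw [E7_pl_eq i j hij, Finset.sum_insert, Finset.sum_insert, Finset.sum_insert, Finset.sum_singleton]
  · ring
  · simp
  · simp [hij]
  · simp [hij]

/-- exchange of the plane coordinates -/
def E7_mrgE (i j : Fin d) : (Site d k × Site d k) ≃ (Site d k × Site d k) where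
  toFun z := (mrg i j z.1 z.2, mrg i j z.2 z.1)
  invFun z := (mrg i j z.1 z.2, mrg i j z.2 z.1)
  left_inv z := by
    refine Prod.ext ?_ ?_ <;> funext l <;> simp only [mrg] <;> split_ifs <;> rfl
  right_inv z := by
    refine Prod.ext ?_ ?_ <;> funext l <;> simp only [mrg] <;> split_ifs <;> rfl

theorem E7_mrg_pair (i j : Fin d) (F : Site d k → Site d k → ℝ) :
    ∑ p, ∑ x, F (mrg i j p x) (mrg i j x p) = ∑ p, ∑ x, F p x := by
  rw [← Fintype.sum_prod_type', ← Fintype.sum_prod_type']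
  exact Fintype.sum_equiv (E7_mrgE i j) _ _ (fun z => rfl)

/-- half of the sites have a given parity in the plane -/
theorem E7_half (hk : 1 ≤ k) (i j : Fin d) (hij : i ≠ j) (n : ℕ) (A B : ℝ) :
    ∑ v : Site d k, (open scoped Classical in if Even ((v i).val + (v j).val + n) then A else B) =
      NN d k / 2 * (A + B) := by
  classical
  have h1 : ∑ v : Site d k, (if Even ((v i).val + (v j).val + n) then A else B) =
      ∑ v : Site d k, (if Even ((v i).val + (v j).val + n) then B else A) := by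
    rw [← Equiv.sum_comp (Equiv.addRight (sv (i, true) : Site d k))]
    refine Finset.sum_congr rfl fun v _ => ?_
    have e1 : (Equiv.addRight (sv (i, true) : Site d k) v) i = v i + 1 := by
      simp [sv]
    have e2 : (Equiv.addRight (sv (i, true) : Site d k) v) j = v j := by
      simp [sv, Pi.single_apply, hij.symm]
    rw [e1, e2]
    have h := E7_even hk (v i)
    by_cases hc : Even ((v i).val + (v j).val + n)
    · rw [if_pos hc, if_neg]
      rw [add_assoc, Nat.even_add] at hc ⊢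
      tauto
    · rw [if_neg hc, if_pos]
      rw [add_assoc, Nat.even_add] at hc ⊢
      tauto
  have h2 : ∑ v : Site d k, (if Even ((v i).val + (v j).val + n) then A else B) +
      ∑ v : Site d k, (if Even ((v i).val + (v j).val + n) then B else A) = NN d k * (A + B) := by
    rw [← Finset.sum_add_distrib, ← card_site, ← nsmul_eq_mul, ← Finset.card_univ, ← Finset.sum_const]
    refine Finset.sum_congr rfl fun v _ => ?_
    split_ifs
    · rfl
    · exact add_comm _ _
  have h3 : ∑ v : Site d k, (if Even ((v i).val + (v j).val + n) then A else B) =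
      NN d k / 2 * (A + B) := by linarith
  rw [← h3]

theorem E7_transl (a : Site d k) (H : Site d k → ℝ) : ∑ x, H (x + a) = ∑ x, H x :=
  Equiv.sum_comp (Equiv.addRight a) H

theorem E7_fol1 (hk : 1 ≤ k) (i j : Fin d) (hij : i ≠ j) (σ : Stp d) (H : Site d k → ℝ) :
    ∑ p, ∑ x, H (fol i j p σ x) = NN d k * ∑ x, H x := by
  classical
  obtain ⟨F, hF⟩ : ∃ F : Site d k → Site d k → ℝ, ∀ u v, F u v =
      if Even ((v i).val + (v j).val + ((u i).val + (u j).val)) then H u else H (u + sv σ) :=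
    ⟨_, fun _ _ => rfl⟩
  have h1 : ∀ p x, H (fol i j p σ x) = F (mrg i j p x) (mrg i j x p) := by
    intro p x
    have e1 : mrg i j x p i = x i := by simp [mrg]
    have e2 : mrg i j x p j = x j := by simp [mrg]
    have e3 : mrg i j p x i = p i := by simp [mrg]
    have e4 : mrg i j p x j = p j := by simp [mrg]
    rw [hF, e1, e2, e3, e4]
    unfold fol
    rw [← add_assoc]
    split_ifs <;> rfl
  have h2 : ∀ u : Site d k, ∑ v : Site d k, F u v = NN d k / 2 * (H u + H (u + sv σ)) := by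
    intro u
    have := E7_half hk i j hij ((u i).val + (u j).val) (H u) (H (u + sv σ))
    rw [← this]
    refine Finset.sum_congr rfl fun v _ => ?_
    rw [hF]
  have h3 : ∑ p, ∑ x, H (fol i j p σ x) = ∑ p, ∑ x, F (mrg i j p x) (mrg i j x p) :=
    Finset.sum_congr rfl fun p _ => Finset.sum_congr rfl fun x _ => h1 p x
  rw [h3, E7_mrg_pair i j F, Finset.sum_congr rfl fun u _ => h2 u, ← Finset.mul_sum,
    Finset.sum_add_distrib, E7_transl]
  ring

theorem fol_sum (hk : 1 ≤ k) (i j : Fin d) (hij : i ≠ j) (H : Site d k → ℝ) :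
    ∑ p, ∑ σ ∈ pl i j, ∑ x, H (fol i j p σ x) = 4 * NN d k * ∑ x, H x := by
  rw [Finset.sum_comm, Finset.sum_congr rfl fun σ _ => E7_fol1 hk i j hij σ H, E7_pl_sum i j hij]
  ring

theorem mrg_sum (i j : Fin d) (hij : i ≠ j) (H : Site d k → ℝ) :
    ∑ p, ∑ x, H (mrg i j p x) = NN d k * ∑ x, H x := by
  have h := E7_mrg_pair i j (fun u _ => H u) (k := k)
  rw [h]
  simp only [Finset.sum_const, Finset.card_univ, nsmul_eq_mul]
  rw [card_site, ← Finset.mul_sum]

/-- labels in the plane at all the sites -/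
theorem E7_WL (w : Site d k → Fin d → Λ) (h : Λ → ℝ) (σ : Stp d) :
    ∑ x, h (WL w x σ) = ∑ x, h (w x σ.1) := by
  obtain ⟨l, b⟩ := σ
  cases b
  · simp only [WL, Bool.false_eq_true, if_false]
    exact E7_transl (sv (l, false)) (fun x => h (w x l))
  · simp only [WL, if_true]

theorem pf_mean (hk : 1 ≤ k) (i j : Fin d) (hij : i ≠ j) (w : Site d k → Fin d → Λ) (h : Λ → ℝ) :
    ∑ p, ∑ σ ∈ pl i j, ∑ x, ∑ l, h (pf i j p σ w x l) = 4 * NN d k * ∑ x, ∑ l, h (w x l) := by
  classical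
  have key : ∀ l : Fin d, ∑ p, ∑ σ ∈ pl i j, ∑ x, h (pf i j p σ w x l) =
      if l = i ∨ l = j then NN d k * (2 * (∑ x, h (w x i) + ∑ x, h (w x j))) else
        4 * NN d k * ∑ x, h (w x l) := by
    intro l
    by_cases hl : l = i ∨ l = j
    · rw [if_pos hl]
      simp only [pf, if_pos hl]
      rw [Finset.sum_comm]
      rw [Finset.sum_congr rfl fun σ _ => mrg_sum i j hij (fun y => h (WL w y σ))]
      rw [E7_pl_sum i j hij]
      simp only [E7_WL]
      ring
    · rw [if_neg hl]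
      simp only [pf, if_neg hl]
      exact fol_sum hk i j hij (fun x => h (w x l))
  have hsw : ∑ p, ∑ σ ∈ pl i j, ∑ x, ∑ l, h (pf i j p σ w x l) =
      ∑ l, ∑ p, ∑ σ ∈ pl i j, ∑ x, h (pf i j p σ w x l) := by
    rw [Finset.sum_comm (s := (univ : Finset (Fin d)))]
    refine Finset.sum_congr rfl fun p _ => ?_
    rw [Finset.sum_comm (s := (univ : Finset (Fin d)))]
    refine Finset.sum_congr rfl fun σ _ => ?_
    rw [Finset.sum_comm]
  rw [hsw, Finset.sum_congr rfl fun l _ => key l]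
  have hr : ∑ x, ∑ l, h (w x l) = ∑ l, ∑ x, h (w x l) := Finset.sum_comm
  rw [hr, Finset.mul_sum]
  -- compare the two sums over the directions
  have hdec : ∀ G : Fin d → ℝ, ∑ l, G l = G i + G j + ∑ l ∈ (univ.erase i).erase j, G l := by
    intro G
    rw [← Finset.add_sum_erase univ G (mem_univ i),
      ← Finset.add_sum_erase (univ.erase i) G (mem_erase.mpr ⟨hij.symm, mem_univ j⟩), add_assoc]
  rw [hdec, hdec]
  have hrest : ∀ l ∈ (univ.erase i).erase j, (if l = i ∨ l = j then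
      NN d k * (2 * (∑ x, h (w x i) + ∑ x, h (w x j))) else 4 * NN d k * ∑ x, h (w x l)) =
        4 * NN d k * ∑ x, h (w x l) := by
    intro l hl
    rw [mem_erase, mem_erase] at hl
    rw [if_neg]
    rintro (h1 | h1)
    · exact hl.2.1 h1
    · exact hl.1 h1
  rw [Finset.sum_congr rfl hrest, if_pos (Or.inl rfl), if_pos (Or.inr rfl)]
  ring

end Pool.Agent.LIN

end

/-! ### from `Lib_MP_2c424f_lin.E7b` -/

section

/-!
# H30 E7b: folding removes the discrepancy in the plane

`WL (pf i j p σ w) x τ = WL w (fol i j p σ x) τ` for `τ.1 ≠ i, j`, and `= WL w (mrg i j p x) σ` for `τ.1 ∈ {i, j}`.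
So `dis (pf ..) = ∑_x [∑_{τ,τ' ∉ pl} 1[WL w (fol x) τ ≠ WL w (fol x) τ'] + 2·4 ∑_{τ ∉ pl} 1[WL w (fol x) τ ≠ WL w (mrg p x) σ]]`.
First part: `fol_sum`.  Second part: if `x` has the parity of `p` then `fol x = mrg p x`; otherwise
`fol x = mrg p x + sv σ =: x''` and `WL w (mrg p x) σ = WL w x'' σ⁻` (`σ⁻` the opposite step).  Summed over
`p, σ, x` it is `8 N ∑_x ∑_{σ ∈ pl} ∑_{τ ∉ pl} 1[WL w x τ ≠ WL w x σ]`.
-/

set_option autoImplicit false

open Finset

namespace Pool.Agent.LIN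

open Pool.Agent.LO

variable {d k : ℕ} {Λ : Type*}

/-! ### Parity in the plane -/

private theorem E7b_val (hk : 1 ≤ k) (a : ZMod (2 ^ k)) :
    ((a + 1).val : ZMod 2) = (a.val : ZMod 2) + 1 := by
  have hφ : ∀ b : ZMod (2 ^ k), (b.val : ZMod 2) =
      ZMod.castHom (dvd_pow_self 2 (by omega : k ≠ 0)) (ZMod 2) b := by
    intro b
    have h := map_natCast (ZMod.castHom (dvd_pow_self 2 (by omega : k ≠ 0)) (ZMod 2)) b.val
    rw [ZMod.natCast_zmod_val] at h
    exact h.symm
  rw [hφ, hφ, map_add, map_one]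

private theorem E7b_sv_self (i : Fin d) : (sv (i, true) : Site d k) i = 1 := by
  simp [sv]

private theorem E7b_sv_ne {σ : Stp d} {l : Fin d} (h : l ≠ σ.1) : (sv σ : Site d k) l = 0 := by
  unfold sv
  exact Pi.single_eq_of_ne h _

private theorem E7b_flip (hk : 1 ≤ k) {i j : Fin d} (hij : i ≠ j) (p x : Site d k) :
    Even (((x + (sv (i, true) : Site d k)) i).val + ((x + (sv (i, true) : Site d k)) j).val +
      (p i).val + (p j).val) ↔
      ¬ Even ((x i).val + (x j).val + (p i).val + (p j).val) := by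
  have h1 : (x + (sv (i, true) : Site d k)) i = x i + 1 := by
    rw [Pi.add_apply, E7b_sv_self]
  have h2 : (x + (sv (i, true) : Site d k)) j = x j := by
    rw [Pi.add_apply, E7b_sv_ne (Ne.symm hij), add_zero]
  rw [h1, h2, ← ZMod.natCast_eq_zero_iff_even, ← ZMod.natCast_eq_zero_iff_even]
  push_cast
  rw [E7b_val hk]
  generalize ((x i).val : ZMod 2) = a
  generalize ((x j).val : ZMod 2) = b
  generalize ((p i).val : ZMod 2) = c
  generalize ((p j).val : ZMod 2) = e
  revert a b c e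
  decide

private theorem E7b_mrg_step (i j : Fin d) (p x : Site d k) {σ : Stp d}
    (h : σ.1 = i ∨ σ.1 = j) : mrg i j p (x + sv σ) = mrg i j p x := by
  funext l
  unfold mrg
  split_ifs with hl
  · rfl
  · rw [Pi.add_apply, E7b_sv_ne, add_zero]
    rintro rfl
    exact hl h

private theorem E7b_mrg_out (i j : Fin d) (p x : Site d k) {σ : Stp d}
    (h : ¬ (σ.1 = i ∨ σ.1 = j)) : mrg i j p (x + sv σ) = mrg i j p x + sv σ := by
  funext l
  rw [Pi.add_apply]
  unfold mrg
  split_ifs with hl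
  · rw [E7b_sv_ne, add_zero]
    rintro rfl
    exact h hl
  · rfl

private theorem E7b_fol_out (i j : Fin d) (p x : Site d k) (ρ : Stp d) {σ : Stp d}
    (h : ¬ (σ.1 = i ∨ σ.1 = j)) : fol i j p ρ (x + sv σ) = fol i j p ρ x + sv σ := by
  have h1 : (x + (sv σ : Site d k)) i = x i := by
    rw [Pi.add_apply, E7b_sv_ne, add_zero]
    exact fun h' => h (Or.inl h'.symm)
  have h2 : (x + (sv σ : Site d k)) j = x j := by
    rw [Pi.add_apply, E7b_sv_ne, add_zero]
    exact fun h' => h (Or.inr h'.symm)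
  unfold fol
  rw [h1, h2, E7b_mrg_out i j p x h]
  split_ifs
  · rfl
  · exact add_right_comm _ _ _

/-! ### Half sums -/

open scoped Classical in
private theorem E7b_half (hk : 1 ≤ k) {i j : Fin d} (hij : i ≠ j) (H H' : Site d k → ℝ) :
    ∑ p, ∑ x, (if Even ((x i).val + (x j).val + (p i).val + (p j).val) then H (mrg i j p x)
      else H' (mrg i j p x)) = NN d k / 2 * ∑ x, H x + NN d k / 2 * ∑ x, H' x := by
  have key : ∀ (G : Site d k → ℝ),
      (∑ p, ∑ x, (if Even ((x i).val + (x j).val + (p i).val + (p j).val) then G (mrg i j p x)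
        else 0) = NN d k / 2 * ∑ x, G x) ∧
      (∑ p, ∑ x, (if Even ((x i).val + (x j).val + (p i).val + (p j).val) then 0
        else G (mrg i j p x)) = NN d k / 2 * ∑ x, G x) := by
    intro G
    have h1 : ∀ p : Site d k,
        ∑ x : Site d k, (if Even ((x i).val + (x j).val + (p i).val + (p j).val) then
          G (mrg i j p x) else 0) =
        ∑ x : Site d k, (if Even ((x i).val + (x j).val + (p i).val + (p j).val) then 0
          else G (mrg i j p x)) := by
      intro p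
      rw [← Equiv.sum_comp (Equiv.addRight (sv (i, true) : Site d k))]
      refine sum_congr rfl fun x _ => ?_
      rw [Equiv.coe_addRight, E7b_mrg_step i j p x (Or.inl rfl)]
      by_cases h : Even ((x i).val + (x j).val + (p i).val + (p j).val)
      · rw [if_pos h, if_neg]
        rw [E7b_flip hk hij]
        exact not_not.2 h
      · rw [if_neg h, if_pos]
        rw [E7b_flip hk hij]
        exact h
    have h2 : ∑ p, ∑ x, (if Even ((x i).val + (x j).val + (p i).val + (p j).val) then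
          G (mrg i j p x) else 0) +
        ∑ p, ∑ x, (if Even ((x i).val + (x j).val + (p i).val + (p j).val) then 0
          else G (mrg i j p x)) = NN d k * ∑ x, G x := by
      rw [← mrg_sum i j hij G, ← sum_add_distrib]
      refine sum_congr rfl fun p _ => ?_
      rw [← sum_add_distrib]
      refine sum_congr rfl fun x _ => ?_
      split_ifs
      · exact add_zero _
      · exact zero_add _
    have h3 := sum_congr rfl (fun p (_ : p ∈ (univ : Finset (Site d k))) => h1 p)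
    constructor <;> linarith
  rw [← (key H).1, ← (key H').2, ← sum_add_distrib]
  refine sum_congr rfl fun p _ => ?_
  rw [← sum_add_distrib]
  refine sum_congr rfl fun x _ => ?_
  split_ifs
  · exact (add_zero _).symm
  · exact (zero_add _).symm

/-! ### The labels of the folded labelling -/

private theorem E7b_WL_out (i j : Fin d) (p x : Site d k) (σ : Stp d) (w : Site d k → Fin d → Λ)
    {τ : Stp d} (h : ¬ (τ.1 = i ∨ τ.1 = j)) :
    WL (pf i j p σ w) x τ = WL w (fol i j p σ x) τ := by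
  unfold WL pf
  rw [if_neg h, if_neg h, E7b_fol_out i j p x σ h]

private theorem E7b_WL_in (i j : Fin d) (p x : Site d k) (σ : Stp d) (w : Site d k → Fin d → Λ)
    {τ : Stp d} (h : τ.1 = i ∨ τ.1 = j) :
    WL (pf i j p σ w) x τ = WL w (mrg i j p x) σ := by
  have h1 : WL (pf i j p σ w) x τ = if τ.2 then pf i j p σ w x τ.1 else
    pf i j p σ w (x + sv τ) τ.1 := rfl
  rw [h1]
  unfold pf
  rw [if_pos h, if_pos h, E7b_mrg_step i j p x h, ite_self]

/-- the opposite step -/
private def E7b_op (σ : Stp d) : Stp d := (σ.1, !σ.2)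

private theorem E7b_WL_op (w : Site d k → Fin d → Λ) (y : Site d k) (σ : Stp d) :
    WL w (y + sv σ) (E7b_op σ) = WL w y σ := by
  obtain ⟨l, b⟩ := σ
  cases b
  · simp [WL, E7b_op]
  · have h := sv_opp (d := d) (k := k) l true
    simp only [Bool.not_true] at h
    simp [WL, E7b_op, add_assoc, h]

private theorem E7b_card {i j : Fin d} (hij : i ≠ j) : (pl i j).card = 4 := by
  have h : pl i j = ({i, j} : Finset (Fin d)) ×ˢ (univ : Finset Bool) := by
    ext ⟨l, b⟩
    simp [pl]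
  rw [h, card_product, card_pair hij]
  rfl

open scoped Classical in
/-- discrepancy of two labels -/
private noncomputable def E7b_dl (a b : Λ) : ℝ := if a = b then 0 else 1

private theorem E7b_dl_symm (a b : Λ) : E7b_dl a b = E7b_dl b a := by
  unfold E7b_dl
  by_cases h : a = b
  · rw [if_pos h, if_pos h.symm]
  · rw [if_neg h, if_neg (Ne.symm h)]

private theorem E7b_dl_self (a : Λ) : E7b_dl a a = 0 := if_pos rfl

/-- steps out of the plane -/
private def E7b_Q (i j : Fin d) : Finset (Stp d) := univ.filter fun σ => ¬ (σ.1 = i ∨ σ.1 = j)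

private theorem E7b_split (i j : Fin d) (f : Stp d → ℝ) :
    ∑ σ, f σ = ∑ σ ∈ pl i j, f σ + ∑ σ ∈ E7b_Q i j, f σ :=
  (sum_filter_add_sum_filter_not univ (fun σ : Stp d => σ.1 = i ∨ σ.1 = j) f).symm

private theorem E7b_split2 (i j : Fin d) (g : Stp d → Λ) :
    ∑ σ, ∑ τ, E7b_dl (g σ) (g τ) = ∑ σ ∈ pl i j, ∑ τ ∈ pl i j, E7b_dl (g σ) (g τ) +
      2 * ∑ σ ∈ pl i j, ∑ τ ∈ E7b_Q i j, E7b_dl (g σ) (g τ) +
      ∑ σ ∈ E7b_Q i j, ∑ τ ∈ E7b_Q i j, E7b_dl (g σ) (g τ) := by
  have h1 : ∀ σ, ∑ τ, E7b_dl (g σ) (g τ) = ∑ τ ∈ pl i j, E7b_dl (g σ) (g τ) +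
      ∑ τ ∈ E7b_Q i j, E7b_dl (g σ) (g τ) := fun σ => E7b_split i j _
  have h2 : ∑ σ ∈ E7b_Q i j, ∑ τ ∈ pl i j, E7b_dl (g σ) (g τ) =
      ∑ σ ∈ pl i j, ∑ τ ∈ E7b_Q i j, E7b_dl (g σ) (g τ) := by
    rw [sum_comm]
    refine sum_congr rfl fun σ _ => sum_congr rfl fun τ _ => E7b_dl_symm _ _
  simp only [h1]
  rw [E7b_split i j, sum_add_distrib, sum_add_distrib, h2]
  ring

private theorem E7b_dis (i j : Fin d) (w : Site d k → Fin d → Λ) :
    dis w = dis2 i j w +
      2 * ∑ x, ∑ σ ∈ pl i j, ∑ τ ∈ E7b_Q i j, E7b_dl (WL w x σ) (WL w x τ) +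
      ∑ x, ∑ σ ∈ E7b_Q i j, ∑ τ ∈ E7b_Q i j, E7b_dl (WL w x σ) (WL w x τ) := by
  have h1 : dis w = ∑ x, ∑ σ, ∑ τ, E7b_dl (WL w x σ) (WL w x τ) := rfl
  have h2 : dis2 i j w = ∑ x, ∑ σ ∈ pl i j, ∑ τ ∈ pl i j, E7b_dl (WL w x σ) (WL w x τ) := rfl
  rw [h1, h2, mul_sum, ← sum_add_distrib, ← sum_add_distrib]
  exact sum_congr rfl fun x _ => E7b_split2 i j fun σ => WL w x σ

theorem pf_dis (hk : 1 ≤ k) (i j : Fin d) (hij : i ≠ j) (w : Site d k → Fin d → Λ) :
    ∑ p, ∑ σ ∈ pl i j, dis (pf i j p σ w) = 4 * NN d k * (dis w - dis2 i j w) := by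
  classical
  set A : Site d k → ℝ := fun x => ∑ σ ∈ E7b_Q i j, ∑ τ ∈ E7b_Q i j,
    E7b_dl (WL w x σ) (WL w x τ) with hA
  set g : Stp d → Site d k → ℝ := fun σ x => ∑ τ ∈ E7b_Q i j, E7b_dl (WL w x σ) (WL w x τ) with hg
  have hw : dis w - dis2 i j w = 2 * ∑ x, ∑ σ ∈ pl i j, g σ x + ∑ x, A x := by
    rw [E7b_dis i j w]
    ring
  have hQ : ∀ τ ∈ E7b_Q i j, ¬ (τ.1 = i ∨ τ.1 = j) := fun τ hτ => (mem_filter.1 hτ).2
  have hP : ∀ τ ∈ pl i j, τ.1 = i ∨ τ.1 = j := fun τ hτ => (mem_filter.1 hτ).2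
  have h1 : ∀ p, ∀ σ ∈ pl i j, dis (pf i j p σ w) = ∑ x, A (fol i j p σ x) +
      8 * ∑ x, (if Even ((x i).val + (x j).val + (p i).val + (p j).val) then
        g σ (mrg i j p x) else g (E7b_op σ) (mrg i j p x + sv σ)) := by
    intro p σ hσ
    rw [E7b_dis i j]
    have h2 : dis2 i j (pf i j p σ w) = 0 := by
      refine sum_eq_zero fun x _ => sum_eq_zero fun τ hτ => sum_eq_zero fun τ' hτ' => ?_
      rw [E7b_WL_in i j p x σ w (hP τ hτ), E7b_WL_in i j p x σ w (hP τ' hτ')]
      exact if_pos rfl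
    have h3 : ∀ x, ∑ σ' ∈ pl i j, ∑ τ ∈ E7b_Q i j,
        E7b_dl (WL (pf i j p σ w) x σ') (WL (pf i j p σ w) x τ) =
        4 * (if Even ((x i).val + (x j).val + (p i).val + (p j).val) then
          g σ (mrg i j p x) else g (E7b_op σ) (mrg i j p x + sv σ)) := by
      intro x
      have h4 : ∀ σ' ∈ pl i j, ∑ τ ∈ E7b_Q i j,
          E7b_dl (WL (pf i j p σ w) x σ') (WL (pf i j p σ w) x τ) =
          (if Even ((x i).val + (x j).val + (p i).val + (p j).val) then
          g σ (mrg i j p x) else g (E7b_op σ) (mrg i j p x + sv σ)) := by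
        intro σ' hσ'
        have h5 : ∑ τ ∈ E7b_Q i j,
            E7b_dl (WL (pf i j p σ w) x σ') (WL (pf i j p σ w) x τ) =
            ∑ τ ∈ E7b_Q i j, E7b_dl (WL w (mrg i j p x) σ) (WL w (fol i j p σ x) τ) := by
          refine sum_congr rfl fun τ hτ => ?_
          rw [E7b_WL_in i j p x σ w (hP σ' hσ'), E7b_WL_out i j p x σ w (hQ τ hτ)]
        rw [h5, hg]
        unfold fol
        split_ifs
        · rfl
        · refine sum_congr rfl fun τ _ => ?_
          rw [E7b_WL_op]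
      rw [sum_congr rfl h4, sum_const, E7b_card hij, nsmul_eq_mul]
      norm_num
    have h6 : ∀ x, ∑ σ' ∈ E7b_Q i j, ∑ τ ∈ E7b_Q i j,
        E7b_dl (WL (pf i j p σ w) x σ') (WL (pf i j p σ w) x τ) = A (fol i j p σ x) := by
      intro x
      refine sum_congr rfl fun σ' hσ' => sum_congr rfl fun τ hτ => ?_
      rw [E7b_WL_out i j p x σ w (hQ σ' hσ'), E7b_WL_out i j p x σ w (hQ τ hτ)]
    simp only [h2, h3, h6]
    rw [← mul_sum]
    ring
  have h7 : ∀ σ, ∑ p, ∑ x, (if Even ((x i).val + (x j).val + (p i).val + (p j).val) then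
        g σ (mrg i j p x) else g (E7b_op σ) (mrg i j p x + sv σ)) =
        NN d k / 2 * ∑ x, g σ x + NN d k / 2 * ∑ x, g (E7b_op σ) x := by
    intro σ
    rw [E7b_half hk hij (g σ) (fun y => g (E7b_op σ) (y + sv σ))]
    congr 2
    exact Equiv.sum_comp (Equiv.addRight (sv σ : Site d k)) (g (E7b_op σ))
  have h8 : ∑ σ ∈ pl i j, ∑ x, g (E7b_op σ) x = ∑ σ ∈ pl i j, ∑ x, g σ x := by
    refine sum_bij' (fun σ _ => E7b_op σ) (fun σ _ => E7b_op σ) ?_ ?_ ?_ ?_ ?_
    · intro σ hσ
      exact mem_filter.2 ⟨mem_univ _, hP σ hσ⟩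
    · intro σ hσ
      exact mem_filter.2 ⟨mem_univ _, hP σ hσ⟩
    · rintro ⟨l, b⟩ _
      cases b <;> rfl
    · rintro ⟨l, b⟩ _
      cases b <;> rfl
    · intro σ _
      rfl
  have h9 : ∑ p, ∑ σ ∈ pl i j, dis (pf i j p σ w) =
      ∑ p, ∑ σ ∈ pl i j, ∑ x, A (fol i j p σ x) +
      8 * ∑ σ ∈ pl i j, (NN d k / 2 * ∑ x, g σ x + NN d k / 2 * ∑ x, g (E7b_op σ) x) := by
    rw [sum_congr rfl fun p (_ : p ∈ (univ : Finset (Site d k))) => sum_congr rfl (h1 p)]
    simp only [sum_add_distrib]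
    congr 1
    rw [← sum_add_distrib, ← sum_congr rfl fun σ _ => h7 σ, mul_sum, sum_comm]
    refine sum_congr rfl fun σ _ => ?_
    rw [mul_sum]
  rw [h9, fol_sum hk i j hij A, hw, sum_add_distrib, ← mul_sum, ← mul_sum, h8,
    sum_comm (s := (univ : Finset (Site d k))) (t := pl i j)]
  ring

end Pool.Agent.LIN

end
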