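import Pool.Agent.Lib_MP_2c424f_ms.M02
import Pool.Agent.Lib_MP_2c424f_ms.M10

/-!
# MP_2c424f_pr: library of SharpThreshold and BoundaryThreshold (merged): merged library part M15

Concatenation of smaller files (each in its own section), only to save build time.
-/

namespace Pool.Agent.LO
end Pool.Agent.LO

/-! ### from `Lib_MP_2c424f_lin.E7c` -/

section

/-!
# H30 E7c: periodic labellings

* `pf_per`: `fol`, `mrg` only see the parity of `x i + x j` and the fibre coordinates.
* `dis_zero`: all edges at a site have the same label, the torus is connected.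
* `dis_gap`: if `WL w x σ ≠ WL w x τ`, take `i = σ.1`, `j = τ.1` (any `j ≠ i` if they are equal); the same
  discrepancy occurs at the `N/2^d` sites `x + 2y`.
-/

set_option autoImplicit false

open Finset

namespace Pool.Agent.LIN

open Pool.Agent.LO

variable {d k : ℕ} {Λ : Type*}

private theorem e7c_par (hk : 1 ≤ k) (a : ZMod (2 ^ k)) : Even ((a + 1 + 1).val) ↔ Even a.val := by
  obtain ⟨m, rfl⟩ : ∃ m, k = m + 1 := ⟨k - 1, by omega⟩
  have h0 : ((a.val : ℕ) : ZMod (2 ^ (m + 1))) = a := ZMod.natCast_zmod_val a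
  have h : a + 1 + 1 = ((a.val + 2 : ℕ) : ZMod (2 ^ (m + 1))) := by
    push_cast
    rw [h0]
    ring
  rw [h, ZMod.val_natCast, Nat.even_iff, Nat.mod_mod_of_dvd _ (dvd_pow_self 2 (Nat.succ_ne_zero m)),
    Nat.even_iff]
  omega

private theorem e7c_sv_self (j : Fin d) : (sv (j, true) : Site d k) j = 1 := by
  unfold sv
  simp

private theorem e7c_sv_ne {i j : Fin d} (h : i ≠ j) : (sv (j, true) : Site d k) i = 0 := by
  unfold sv
  simp [Pi.single_eq_of_ne h]

/-- parity of the coordinates after a double step -/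
private theorem e7c_par2 (hk : 1 ≤ k) (x : Site d k) (i j : Fin d) :
    Even (((x + sv (j, true) + sv (j, true) : Site d k) i).val) ↔ Even ((x i).val) := by
  simp only [Pi.add_apply]
  by_cases h : i = j
  · subst h
    rw [e7c_sv_self]
    exact e7c_par hk _
  · rw [e7c_sv_ne h, add_zero, add_zero]

private theorem e7c_mrg_in {i j j' : Fin d} (p x : Site d k) (h : j' = i ∨ j' = j) :
    mrg i j p (x + sv (j', true) + sv (j', true)) = mrg i j p x := by
  funext l
  unfold mrg
  split_ifs with hl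
  · rfl
  · have : l ≠ j' := by
      rintro rfl
      exact hl h
    simp only [Pi.add_apply]
    rw [e7c_sv_ne this, add_zero, add_zero]

private theorem e7c_mrg_out {i j j' : Fin d} (p x : Site d k) (h : ¬ (j' = i ∨ j' = j)) :
    mrg i j p (x + sv (j', true) + sv (j', true)) = mrg i j p x + sv (j', true) + sv (j', true) := by
  funext l
  simp only [Pi.add_apply]
  unfold mrg
  split_ifs with hl
  · have : l ≠ j' := by
      rintro rfl
      exact h hl
    rw [e7c_sv_ne this, add_zero, add_zero]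
  · rfl

private theorem e7c_evn4 (hk : 1 ≤ k) (x : Site d k) (i j j' : Fin d) (m : ℕ) :
    Even (((x + sv (j', true) + sv (j', true) : Site d k) i).val +
        ((x + sv (j', true) + sv (j', true) : Site d k) j).val + m) ↔
      Even ((x i).val + (x j).val + m) := by
  rw [Nat.even_add, Nat.even_add, Nat.even_add, Nat.even_add, e7c_par2 hk, e7c_par2 hk]

private theorem e7c_fol_in (hk : 1 ≤ k) {i j j' : Fin d} (p : Site d k) (σ : Stp d) (x : Site d k)
    (h : j' = i ∨ j' = j) : fol i j p σ (x + sv (j', true) + sv (j', true)) = fol i j p σ x := by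
  classical
  unfold fol
  have h1 := e7c_evn4 hk x i j j' ((p i).val + (p j).val)
  rw [← add_assoc, ← add_assoc] at h1
  rw [e7c_mrg_in p x h]
  by_cases h2 : Even ((x i).val + (x j).val + (p i).val + (p j).val)
  · rw [if_pos h2, if_pos (h1.2 h2)]
  · rw [if_neg h2, if_neg (fun h3 => h2 (h1.1 h3))]

private theorem e7c_fol_out (hk : 1 ≤ k) {i j j' : Fin d} (p : Site d k) (σ : Stp d) (x : Site d k)
    (h : ¬ (j' = i ∨ j' = j)) : fol i j p σ (x + sv (j', true) + sv (j', true)) =
      fol i j p σ x + sv (j', true) + sv (j', true) := by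
  classical
  unfold fol
  have h1 := e7c_evn4 hk x i j j' ((p i).val + (p j).val)
  rw [← add_assoc, ← add_assoc] at h1
  rw [e7c_mrg_out p x h]
  by_cases h2 : Even ((x i).val + (x j).val + (p i).val + (p j).val)
  · rw [if_pos h2, if_pos (h1.2 h2)]
  · rw [if_neg h2, if_neg (fun h3 => h2 (h1.1 h3))]
    abel

private theorem e7c_WL {w : Site d k → Fin d → Λ} {t : Site d k} (h : ∀ x l, w (x + t) l = w x l)
    (x : Site d k) (σ : Stp d) : WL w (x + t) σ = WL w x σ := by
  unfold WL
  rw [h, add_right_comm, h]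

/-- the periods of `w` -/
private def e7cP (w : Site d k → Fin d → Λ) : AddSubmonoid (Site d k) where
  carrier := {t | ∀ x l, w (x + t) l = w x l}
  zero_mem' := by
    intro x l
    rw [add_zero]
  add_mem' := by
    intro a b ha hb x l
    rw [← add_assoc, hb, ha]

private theorem e7c_ind (p : Prop) [Decidable p] : (0 : ℝ) ≤ if p then (0 : ℝ) else 1 := by
  split_ifs <;> norm_num

theorem pf_per (hk : 1 ≤ k) (i j : Fin d) (hij : i ≠ j) (p : Site d k) (σ : Stp d)
    (w : Site d k → Fin d → Λ) (I : Finset (Fin d)) (h : perD I w) :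
    perD (I ∪ {i, j}) (pf i j p σ w) := by
  classical
  intro j' hj' x l
  by_cases hc : j' = i ∨ j' = j
  · unfold pf
    rw [e7c_mrg_in p x hc, e7c_fol_in hk p σ x hc]
  · have hI : j' ∈ I := by
      rcases Finset.mem_union.1 hj' with h1 | h1
      · exact h1
      · exfalso
        apply hc
        simpa using h1
    have hper : ∀ y m, w (y + (sv (j', true) + sv (j', true))) m = w y m := by
      intro y m
      rw [← add_assoc]
      exact h j' hI y m
    unfold pf
    rw [e7c_mrg_out p x hc, e7c_fol_out hk p σ x hc]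
    split_ifs with hl
    · rw [add_assoc]
      exact e7c_WL hper _ _
    · exact h j' hI _ _

theorem dis_nonneg (w : Site d k → Fin d → Λ) : 0 ≤ dis w := by
  classical
  unfold dis
  exact sum_nonneg fun x _ => sum_nonneg fun σ _ => sum_nonneg fun τ _ => e7c_ind _

theorem dis_le (w : Site d k → Fin d → Λ) : dis w ≤ 4 * (d : ℝ) ^ 2 * NN d k := by
  classical
  unfold dis
  have h1 : ∀ x : Site d k, ∑ σ : Stp d, ∑ τ : Stp d, (if WL w x σ = WL w x τ then (0 : ℝ) else 1) ≤
      4 * (d : ℝ) ^ 2 := by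
    intro x
    have h2 : ∑ σ : Stp d, ∑ τ : Stp d, (if WL w x σ = WL w x τ then (0 : ℝ) else 1) ≤
        ∑ _σ : Stp d, ∑ _τ : Stp d, (1 : ℝ) := by
      refine sum_le_sum fun σ _ => sum_le_sum fun τ _ => ?_
      split_ifs <;> norm_num
    refine h2.trans (le_of_eq ?_)
    simp only [Finset.sum_const, nsmul_eq_mul, mul_one, Finset.card_univ, Fintype.card_prod,
      Fintype.card_fin, Fintype.card_bool]
    push_cast
    ring
  refine (sum_le_sum fun x _ => h1 x).trans (le_of_eq ?_)
  rw [Finset.sum_const, nsmul_eq_mul, Finset.card_univ, Fintype.card_fun, ZMod.card, Fintype.card_fin]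
  unfold NN
  push_cast
  ring

theorem dis_zero (hd : 1 ≤ d) (w : Site d k → Fin d → Λ) (h : dis w = 0) (x y : Site d k) (l l' : Fin d) :
    w x l = w y l' := by
  classical
  have key : ∀ x σ τ, WL w x σ = WL w x τ := by
    intro x σ τ
    by_contra hne
    unfold dis at h
    have n3 : ∀ x : Site d k, ∀ σ : Stp d, 0 ≤ ∑ τ : Stp d, (if WL w x σ = WL w x τ then (0 : ℝ) else 1) :=
      fun x σ => sum_nonneg fun τ _ => e7c_ind _
    have n2 : ∀ x : Site d k, 0 ≤ ∑ σ : Stp d, ∑ τ : Stp d,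
        (if WL w x σ = WL w x τ then (0 : ℝ) else 1) := fun x => sum_nonneg fun σ _ => n3 x σ
    have g1 := (Finset.sum_eq_zero_iff_of_nonneg fun x _ => n2 x).1 h x (mem_univ _)
    have g2 := (Finset.sum_eq_zero_iff_of_nonneg fun σ _ => n3 x σ).1 g1 σ (mem_univ _)
    have g3 := (Finset.sum_eq_zero_iff_of_nonneg fun τ _ => e7c_ind _).1 g2 τ (mem_univ _)
    rw [if_neg hne] at g3
    exact one_ne_zero g3
  set z : Fin d := ⟨0, hd⟩ with hz
  have k1 : ∀ x l, w x l = w x z := by
    intro x l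
    have := key x (l, true) (z, true)
    simpa [WL] using this
  have k2 : ∀ x l, w (x + sv (l, false)) z = w x z := by
    intro x l
    have h1 := key x (l, false) (z, true)
    simp only [WL, if_true, Bool.false_eq_true, if_false] at h1
    rw [← h1, k1 _ l]
  have k3 : ∀ x l, w (x + sv (l, true)) z = w x z := by
    intro x l
    have h1 := k2 (x + sv (l, true)) l
    have h2 : x + sv (l, true) + sv (l, false) = x := by
      have : (sv (l, true) : Site d k) + sv (l, false) = 0 := by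
        unfold sv
        rw [← Pi.single_add]
        simp
      rw [add_assoc, this, add_zero]
    rw [h2] at h1
    exact h1.symm
  have k4 : ∀ t : Site d k, ∀ x m, w (x + t) m = w x m := by
    intro t
    have hmem : t ∈ e7cP w := by
      have hrep : t = ∑ l, (t l).val • (sv (l, true) : Site d k) := by
        funext i
        rw [Finset.sum_apply, Finset.sum_eq_single i]
        · rw [Pi.smul_apply, e7c_sv_self, nsmul_eq_mul, mul_one, ZMod.natCast_zmod_val]
        · intro b _ hb
          rw [Pi.smul_apply, e7c_sv_ne hb.symm, smul_zero]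
        · intro hi
          exact absurd (mem_univ _) hi
      rw [hrep]
      refine AddSubmonoid.sum_mem _ fun l _ => AddSubmonoid.nsmul_mem _ ?_ _
      intro x m
      rw [k1 _ m, k1 x m, k3]
    exact hmem
  have k5 := k4 (y - x) x z
  rw [add_sub_cancel] at k5
  rw [k1 x l, k1 y l', k5]

theorem dis_gap (hd : 2 ≤ d) (hk : 1 ≤ k) (w : Site d k → Fin d → Λ) (hp : perD univ w) (h : dis w ≠ 0) :
    ∃ i j : Fin d, i ≠ j ∧ NN d k / 2 ^ d ≤ dis2 i j w := by
  classical
  obtain ⟨m, rfl⟩ : ∃ m, k = m + 1 := ⟨k - 1, by omega⟩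
  -- a discrepancy
  have hex : ∃ x σ τ, WL w x σ ≠ WL w x τ := by
    by_contra hcon
    push Not at hcon
    apply h
    unfold dis
    refine Finset.sum_eq_zero fun x _ => Finset.sum_eq_zero fun σ _ => Finset.sum_eq_zero fun τ _ => ?_
    rw [if_pos (hcon x σ τ)]
  obtain ⟨x, σ, τ, hne⟩ := hex
  have hj : ∃ j : Fin d, σ.1 ≠ j ∧ (τ.1 = σ.1 ∨ τ.1 = j) := by
    by_cases he : τ.1 = σ.1
    · by_cases h0 : σ.1 = ⟨0, by omega⟩
      · refine ⟨⟨1, by omega⟩, ?_, Or.inl he⟩
        rw [h0]
        intro hc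
        simp at hc
      · exact ⟨⟨0, by omega⟩, h0, Or.inl he⟩
    · exact ⟨τ.1, fun hc => he hc.symm, Or.inr rfl⟩
  obtain ⟨j, hij, hτ⟩ := hj
  refine ⟨σ.1, j, hij, ?_⟩
  have hσpl : σ ∈ pl σ.1 j := by
    unfold pl
    simp
  have hτpl : τ ∈ pl σ.1 j := by
    unfold pl
    simp [hτ]
  -- the sites
  set zt : (Fin d → Fin (2 ^ m)) → Site d (m + 1) :=
    fun u => ∑ l, (u l).val • ((sv (l, true) : Site d (m + 1)) + sv (l, true)) with hzt
  have hzi : ∀ u i, zt u i = ((2 * (u i).val : ℕ) : ZMod (2 ^ (m + 1))) := by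
    intro u i
    rw [hzt]
    simp only
    rw [Finset.sum_apply, Finset.sum_eq_single i]
    · rw [Pi.smul_apply, Pi.add_apply, e7c_sv_self, nsmul_eq_mul]
      push_cast
      ring
    · intro b _ hb
      rw [Pi.smul_apply, Pi.add_apply, e7c_sv_ne hb.symm, add_zero, smul_zero]
    · intro hi
      exact absurd (mem_univ _) hi
  have hper : ∀ u, ∀ y l, w (y + zt u) l = w y l := by
    intro u
    have hmem : zt u ∈ e7cP w := by
      rw [hzt]
      refine AddSubmonoid.sum_mem _ fun l _ => AddSubmonoid.nsmul_mem _ ?_ _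
      intro y r
      rw [← add_assoc]
      exact hp l (mem_univ _) y r
    exact hmem
  have hinj : Function.Injective (fun u => x + zt u) := by
    intro u u' huu
    funext i
    have h1 : zt u = zt u' := add_left_cancel huu
    have h2 := congrFun h1 i
    rw [hzi, hzi, ZMod.natCast_eq_natCast_iff'] at h2
    have b1 := (u i).isLt
    have b2 := (u' i).isLt
    have hp2 : 2 ^ (m + 1) = 2 * 2 ^ m := by ring
    rw [Nat.mod_eq_of_lt (by omega), Nat.mod_eq_of_lt (by omega)] at h2
    exact Fin.ext (by omega)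
  set Z : Finset (Site d (m + 1)) := univ.image (fun u => x + zt u) with hZ
  have hcard : (Z.card : ℝ) = NN d (m + 1) / 2 ^ d := by
    rw [hZ, Finset.card_image_of_injective _ hinj, Finset.card_univ, Fintype.card_fun,
      Fintype.card_fin, Fintype.card_fin]
    unfold NN
    rw [pow_succ (2 : ℝ) m, mul_pow]
    push_cast
    field_simp
  have hn3 : ∀ y : Site d (m + 1), ∀ σ' : Stp d,
      0 ≤ ∑ τ' ∈ pl σ.1 j, (if WL w y σ' = WL w y τ' then (0 : ℝ) else 1) :=
    fun y σ' => sum_nonneg fun τ' _ => e7c_ind _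
  have hn2 : ∀ y : Site d (m + 1), 0 ≤ ∑ σ' ∈ pl σ.1 j, ∑ τ' ∈ pl σ.1 j,
      (if WL w y σ' = WL w y τ' then (0 : ℝ) else 1) := fun y => sum_nonneg fun σ' _ => hn3 y σ'
  have hone : ∀ y ∈ Z, (1 : ℝ) ≤ ∑ σ' ∈ pl σ.1 j, ∑ τ' ∈ pl σ.1 j,
      (if WL w y σ' = WL w y τ' then (0 : ℝ) else 1) := by
    intro y hy
    rw [hZ, Finset.mem_image] at hy
    obtain ⟨u, _, rfl⟩ := hy
    have hd1 : WL w (x + zt u) σ ≠ WL w (x + zt u) τ := by
      rw [e7c_WL (hper u), e7c_WL (hper u)]
      exact hne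
    have g1 := Finset.single_le_sum (f := fun σ' => ∑ τ' ∈ pl σ.1 j,
      (if WL w (x + zt u) σ' = WL w (x + zt u) τ' then (0 : ℝ) else 1))
      (fun σ' _ => hn3 (x + zt u) σ') hσpl
    have g2 := Finset.single_le_sum (f := fun τ' =>
      (if WL w (x + zt u) σ = WL w (x + zt u) τ' then (0 : ℝ) else 1))
      (fun τ' _ => e7c_ind _) hτpl
    rw [if_neg hd1] at g2
    exact g2.trans g1
  rw [← hcard]
  unfold dis2
  calc (Z.card : ℝ) = ∑ _y ∈ Z, (1 : ℝ) := by rw [Finset.sum_const, nsmul_eq_mul, mul_one]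
    _ ≤ ∑ y ∈ Z, ∑ σ' ∈ pl σ.1 j, ∑ τ' ∈ pl σ.1 j,
        (if WL w y σ' = WL w y τ' then (0 : ℝ) else 1) := Finset.sum_le_sum hone
    _ ≤ _ := Finset.sum_le_sum_of_subset_of_nonneg (Finset.subset_univ _) fun y _ _ => hn2 y

end Pool.Agent.LIN

end

/-! ### from `Lib_MP_2c424f_lin.F3c` -/

section

/-!
# H30 F3c: typicality and pressure

`WW b w = ∑_{g : class !b → [q]} ∏_{v ∈ cls b} (x_v + w)`, `x_v` = number of colours available at `v` (may be `0`); written
with free values on the class `b`, divided by `q^{N/2}`.  `WW b 0 = ZZ` (`resum` with `φ = 1`), `WW` is monotone in `w`,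
`WW b 1 ≤ ZZ (q+1)` (last colour on the class `b` only).
* `typ_expw`: `finner_cls` with `g c = ((x + w)/q) exp ((1-2x/q)^2)`, `x = q - card (image c)`: with `A = image c`,
  `t = 1 - 2|A|/q`: `∑_c (q g(c))^(2d) ≤ ∑_{A ⊆ [q]} (|A| (q-|A|+w) exp (t²))^(2d) ≤ 2^q ((q²/4)(1 + 4ew/q))^(2d)`, because
  `|A| (q-|A|+w) ≤ (q²/4)(1-t²) + q w`, `(1-t²) exp (t²) ≤ 1`, `exp (t²) ≤ e`.  So the left side is at most
  `(2^q (q²/4)^(2d) (1+4ew/q)^(2d))^(N/4d) ≤ exp (N (log (q/2) + q log 2/(4d) + 6w/q))` (the factors `q^(N/2)` cancel).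
* `typ_exp0`: `w = 0` and `resum` with `φ _ x = exp ((1 - 2x/q)^2)`.  `pressure_le`: `exp ≥ 1`.
* `pressure_ge`: odd sites coloured from `⌊q/2⌋` colours, even sites from the other `⌈q/2⌉`:
  `ZZ ≥ (⌊q/2⌋ ⌈q/2⌉)^(N/2) ≥ ((q²-1)/4)^(N/2)`, `log (1 - 1/q²) ≥ -2/q²` for `q ≥ 2`
  (`Lib_MP_2c424f_lo/Pbd.lean` has a lower bound of this kind).
-/

set_option autoImplicit false

open Finset

namespace Pool.Agent.LIN

open Pool.Agent.LO

variable {d k q : ℕ}

theorem ZZ_pos (hk : 1 ≤ k) (hq : 2 ≤ q) : 0 < ZZ d k q := by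
  classical
  unfold ZZ
  have h0 : (prps d k q).Nonempty := by
    refine ⟨fun x => if evn x then ⟨0, by omega⟩ else ⟨1, by omega⟩, ?_⟩
    unfold prps
    rw [mem_filter]
    refine ⟨mem_univ _, fun x σ he => ?_⟩
    have h1 := evn_step hk x σ
    by_cases hx : evn x
    · have hx' : ¬ evn (x + sv σ) := by
        rw [h1]
        exact not_not.mpr hx
      simp only at he
      rw [if_neg hx', if_pos hx] at he
      have h2 := congrArg Fin.val he
      simp at h2
    · have hx' : evn (x + sv σ) := h1.mpr hx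
      simp only at he
      rw [if_pos hx', if_neg hx] at he
      have h2 := congrArg Fin.val he
      simp at h2
  exact_mod_cast card_pos.mpr h0

theorem pressure_ge (hd : 1 ≤ d) (hk : 2 ≤ k) (hq : 2 ≤ q) :
    NN d k * (Real.log (q / 2) - 1 / (q : ℝ) ^ 2) ≤ Real.log (ZZ d k q) := by
  have hk1 : 1 ≤ k := by omega
  have h1 := ZZ_ge (d := d) (k := k) (q := q) hd hk1 hq
  have hZ : 0 < ZZ d k q := ZZ_pos hk1 hq
  have h2 : NN d k / 2 * Real.log ((q1 q : ℝ) * q2 q) ≤ Real.log (ZZ d k q) := by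
    rw [Real.le_log_iff_exp_le hZ]
    exact h1
  have hN : 0 ≤ NN d k := by unfold NN; positivity
  have hqR : (2 : ℝ) ≤ q := by exact_mod_cast hq
  have hq0 : (0 : ℝ) < q := by linarith
  -- the product of the two halves
  have h3 : ((q : ℝ) ^ 2 - 1) / 4 ≤ (q1 q : ℝ) * q2 q := by
    rcases Nat.even_or_odd' q with ⟨m, hm | hm⟩
    · have e1 : q1 q = m := by unfold q1; omega
      have e2 : q2 q = m := by unfold q2; omega
      rw [e1, e2, hm]
      push_cast
      nlinarith
    · have e1 : q1 q = m := by unfold q1; omega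
      have e2 : q2 q = m + 1 := by unfold q2; omega
      rw [e1, e2, hm]
      push_cast
      nlinarith
  have h4 : (0 : ℝ) < ((q : ℝ) ^ 2 - 1) / 4 := by nlinarith
  have h5 : Real.log (((q : ℝ) ^ 2 - 1) / 4) ≤ Real.log ((q1 q : ℝ) * q2 q) :=
    Real.log_le_log h4 h3
  -- the logarithm
  set x : ℝ := 1 / (q : ℝ) ^ 2 with hx
  have hx0 : 0 < x := by positivity
  have hx4 : x ≤ 1 / 4 := by
    rw [hx]
    apply one_div_le_one_div_of_le (by norm_num)
    nlinarith
  have h6 : ((q : ℝ) ^ 2 - 1) / 4 = (q / 2) ^ 2 * (1 - x) := by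
    rw [hx]
    field_simp
    ring
  have h7 : Real.log (((q : ℝ) ^ 2 - 1) / 4) = 2 * Real.log (q / 2) + Real.log (1 - x) := by
    rw [h6, Real.log_mul (by positivity) (by linarith), Real.log_pow]
    push_cast
    ring
  have h8 : -(2 * x) ≤ Real.log (1 - x) := by
    have h9 := Real.one_sub_inv_le_log_of_pos (show 0 < 1 - x by linarith)
    have h10 : (1 - x)⁻¹ ≤ 1 + 2 * x := by
      rw [inv_le_comm₀ (by linarith) (by linarith)]
      rw [inv_le_iff_one_le_mul₀ (by linarith)]
      nlinarith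
    linarith
  have h9 : 2 * (Real.log (q / 2) - x) ≤ Real.log ((q1 q : ℝ) * q2 q) := by linarith
  have h10 : NN d k / 2 * (2 * (Real.log (q / 2) - x)) ≤
      NN d k / 2 * Real.log ((q1 q : ℝ) * q2 q) :=
    mul_le_mul_of_nonneg_left h9 (by linarith)
  have h11 : NN d k / 2 * (2 * (Real.log (q / 2) - x)) = NN d k * (Real.log (q / 2) - x) := by
    ring
  rw [h11] at h10
  exact h10.trans h2

end Pool.Agent.LIN

end
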