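import Mathlib

/-!
# MP_2c424f_pr: library of SharpThreshold and BoundaryThreshold (merged): merged library part M16

Concatenation of smaller files (each in its own section), only to save build time.
-/

/-! ### from `Lib_MP_2c424f_lin.E8` -/

section

/-!
# H30 E8: the potential lemma

Maximise `G = F - (e/g) D` over `{w | P w}` (finite); suppose the maximum `M` is `> 0`; among the maximisers take one
with `D` minimal.  Then `D w ≠ 0` (else `G w = F w ≤ 0`), and
`G w ≤ mean F (v a) + e - (e/g) (mean D (v a) + g) = mean G (v a) ≤ M`, so all `v a` are maximisers, so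
`D (v a) ≥ D w` for all `a`, contradiction with `mean D (v a) ≤ D w - g`.
-/

set_option autoImplicit false

open Finset

namespace Pool.Agent.LIN

theorem potential {W : Type*} [Finite W] (P : W → Prop) (F D : W → ℝ) (e g : ℝ) (he : 0 ≤ e) (hg : 0 < g)
    (hD : ∀ w, P w → 0 ≤ D w) (h0 : ∀ w, P w → D w = 0 → F w ≤ 0)
    (hs : ∀ w, P w → D w ≠ 0 → ∃ (ι : Type) (_ : Fintype ι) (_ : Nonempty ι) (v : ι → W),
      (∀ a, P (v a)) ∧ F w ≤ (∑ a, F (v a)) / Fintype.card ι + e ∧
        (∑ a, D (v a)) / Fintype.card ι ≤ D w - g)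
    (w : W) (hw : P w) : F w ≤ e / g * D w := by
  have heg : 0 ≤ e / g := div_nonneg he hg.le
  have hfin : Set.Finite {w : W | P w} := Set.toFinite _
  obtain ⟨wm, hwm, hmax⟩ := Set.exists_max_image {w : W | P w} (fun w => F w - e / g * D w) hfin
    ⟨w, hw⟩
  by_contra hcon
  have hM : 0 < F wm - e / g * D wm := by
    have h1 := hmax w hw
    push Not at hcon
    linarith
  have hfin' : Set.Finite {w : W | P w ∧ F w - e / g * D w = F wm - e / g * D wm} :=
    Set.toFinite _
  obtain ⟨w0, hw0, hmin⟩ := Set.exists_min_image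
    {w : W | P w ∧ F w - e / g * D w = F wm - e / g * D wm} D hfin' ⟨wm, hwm, rfl⟩
  obtain ⟨hP0, hG0⟩ := hw0
  have hD0 : D w0 ≠ 0 := by
    intro h1
    have h2 := h0 w0 hP0 h1
    rw [h1, mul_zero] at hG0
    linarith
  obtain ⟨ι, _, _, v, hv, hF, hDm⟩ := hs w0 hP0 hD0
  have hc : (0 : ℝ) < Fintype.card ι := by exact_mod_cast Fintype.card_pos
  have h1 : ∀ a, F (v a) - e / g * D (v a) ≤ F wm - e / g * D wm := fun a => hmax (v a) (hv a)
  have h2 : (F wm - e / g * D wm) * Fintype.card ι ≤ ∑ a, (F (v a) - e / g * D (v a)) := by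
    have h3 : F wm - e / g * D wm ≤ (∑ a, (F (v a) - e / g * D (v a))) / Fintype.card ι := by
      rw [Finset.sum_sub_distrib, ← Finset.mul_sum, sub_div, mul_div_assoc, ← hG0]
      have h4 : e / g * ((∑ a, D (v a)) / Fintype.card ι) ≤ e / g * (D w0 - g) :=
        mul_le_mul_of_nonneg_left hDm heg
      have h5 : e / g * (D w0 - g) = e / g * D w0 - e := by
        rw [mul_sub, div_mul_cancel₀ _ hg.ne']
      linarith
    rwa [le_div_iff₀ hc] at h3
  have h6 : ∑ a, ((F wm - e / g * D wm) - (F (v a) - e / g * D (v a))) = 0 := by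
    apply le_antisymm
    · rw [Finset.sum_sub_distrib, Finset.sum_const, Finset.card_univ, nsmul_eq_mul]
      linarith
    · exact Finset.sum_nonneg fun a _ => sub_nonneg.2 (h1 a)
  have h7 : ∀ a, F (v a) - e / g * D (v a) = F wm - e / g * D wm := by
    intro a
    have h8 := (Finset.sum_eq_zero_iff_of_nonneg (fun a _ => sub_nonneg.2 (h1 a))).1 h6 a
      (Finset.mem_univ a)
    linarith
  have h9 : D w0 * Fintype.card ι ≤ ∑ a, D (v a) := by
    calc D w0 * Fintype.card ι = ∑ _a : ι, D w0 := by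
          rw [Finset.sum_const, Finset.card_univ, nsmul_eq_mul]; ring
      _ ≤ ∑ a, D (v a) := Finset.sum_le_sum fun a _ => hmin (v a) ⟨hv a, h7 a⟩
  have h10 : D w0 ≤ (∑ a, D (v a)) / Fintype.card ι := (le_div_iff₀ hc).2 h9
  linarith

end Pool.Agent.LIN

end
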