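import Pool.Agent.Lib_MP_2c424f_ms.M03
import Pool.Agent.Lib_MP_2c424f_ms.M08
import Pool.Agent.Lib_MP_2c424f_ms.M17

/-!
# MP_2c424f_pr: library of SharpThreshold and BoundaryThreshold (merged): merged library part M18

Concatenation of smaller files (each in its own section), only to save build time.
-/

namespace Pool.Agent.LO
end Pool.Agent.LO

namespace Pool.Agent.LIN
end Pool.Agent.LIN

/-! ### from `Lib_MP_2c424f_lin.L4b` -/

section

/-!
# H30 L4b: resampling one class

`fib b f` = colourings which agree with `f` off the class `b` and are proper around the sites of the class `b`.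
* `h ∈ fib b f` for proper `f`: `h` is proper, `SS h x = SS f x` for `x ∈ cls b`, `fib b h = fib b f`.
* `fib_sum`: `∑_f G f = ∑_f fm b G f` (double counting: `∑_f ∑_{h ∈ fib f} G h / |fib f| = ∑_h G h |fib h|/|fib h|`).
* `fm_prod`: for `U ⊆ cls b` and functions `φ v` of the colour at `v`:
  mean over the fibre of `∏_{v ∈ U} φ v (h v)` is `∏_{v ∈ U} (∑_{c ∉ SS f v} φ v c)/av f v` (`Finset.prod_univ_sum`,
  `Fintype.piFinset`).
-/

set_option autoImplicit false

open Finset

namespace Pool.Agent.LIN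

open Pool.Agent.LO

variable {d k q : ℕ}

theorem fm_prod (hk : 1 ≤ k) (b : Bool) {f : Site d k → Fin q} (hf : Prp f) (U : Finset (Site d k))
    (hU : U ⊆ cls b d k) (φ : Site d k → Fin q → ℝ) :
    fm b (fun h => ∏ v ∈ U, φ v (h v)) f = ∏ v ∈ U, (∑ c ∈ (SS f v)ᶜ, φ v c) / (av f v : ℝ) := by
  classical
  have _ := hk
  set t : Site d k → Finset (Fin q) := fun x => if x ∈ cls b d k then (SS f x)ᶜ else {f x} with ht
  have hfib : fib b f = Fintype.piFinset t := by
    rw [ht]
    unfold fib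
    congr 1
  have hcard : ∀ x ∈ cls b d k, ((t x).card : ℝ) = av f x := by
    intro x hx
    simp only [ht, if_pos hx]
    rw [card_compl, Fintype.card_fin]
    rfl
  have hpos : ∀ x, ((t x).card : ℝ) ≠ 0 := by
    intro x
    by_cases hx : x ∈ cls b d k
    · rw [hcard x hx]
      have := av_pos hf x
      exact_mod_cast (by omega : av f x ≠ 0)
    · simp only [ht, if_neg hx, card_singleton, Nat.cast_one, ne_eq, one_ne_zero, not_false_eq_true]
  unfold fm
  rw [hfib, Fintype.card_piFinset]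
  have h1 : ∀ h : Site d k → Fin q, ∏ v ∈ U, φ v (h v) =
      ∏ v, (if v ∈ U then φ v (h v) else 1) := by
    intro h
    rw [prod_ite_mem, univ_inter]
  rw [sum_congr rfl fun h _ => h1 h,
    ← prod_univ_sum t (fun v c => if v ∈ U then φ v c else 1), Nat.cast_prod, ← prod_div_distrib]
  rw [← prod_subset (subset_univ U)]
  · refine prod_congr rfl fun v hv => ?_
    have hv' := hU hv
    rw [hcard v hv']
    simp only [ht, if_pos hv', if_pos hv]
  · intro x _ hx
    simp only [if_neg hx, sum_const, nsmul_eq_mul, mul_one]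
    exact div_self (hpos x)

end Pool.Agent.LIN

end

/-! ### from `Lib_MP_2c424f_thr.T2` -/

section

/-!
# THR T2: means over fibres of local functions (paper proof: T3)

`LIN.fm_prod` gives the mean of a product over distinct sites of the class.
* `fm_mono`, `fm_add`, `fm_sum`, `fm_mul_left`, `fm_const`: `fm` is a mean over a nonempty finite set.
* `fm_one`: mean of a function of one site; `fm_ind`: `φ v = 1[. = c]`, `∑_{γ ∉ SS} 1[γ = c] = zz f v c`.
* `fm_two`: two different sites.
* `fm_pull`: a factor which is constant on the fibre.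
* `fm_indep`: if `F` does not depend on the colour of `v` and `G` is a function of the colour of `v`.
* `cov_zz`: `z_v z_v' = ∏ over the union of the neighbour sets of 1[f_w ≠ c]`; mean `∏_{w in union} (1 - p_w)`,
  `p_w = z_w / x_w`; `zt_v zt_v' = ` the same times `∏_{common w} (1 - p_w)`; `1 - ∏ (1 - p) ≤ ∑ p`.
-/

set_option autoImplicit false

open Finset Filter

namespace Pool.Agent.THR

open Pool.Agent.LO Pool.Agent.LIN

variable {d k q : ℕ}

theorem fm_mono (b : Bool) {f : Site d k → Fin q} (hf : Prp f) {F G : (Site d k → Fin q) → ℝ}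
    (h : ∀ h ∈ fib b f, F h ≤ G h) : fm b F f ≤ fm b G f := by
  unfold fm
  have _ := hf
  exact div_le_div_of_nonneg_right (sum_le_sum h) (Nat.cast_nonneg _)

theorem fm_add (b : Bool) (f : Site d k → Fin q) (F G : (Site d k → Fin q) → ℝ) :
    fm b (fun h => F h + G h) f = fm b F f + fm b G f := by
  unfold fm
  rw [sum_add_distrib, add_div]

theorem fm_sub (b : Bool) (f : Site d k → Fin q) (F G : (Site d k → Fin q) → ℝ) :
    fm b (fun h => F h - G h) f = fm b F f - fm b G f := by
  unfold fm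
  rw [sum_sub_distrib, sub_div]

theorem fm_sum (b : Bool) (f : Site d k → Fin q) {ι : Type*} (A : Finset ι) (F : ι → (Site d k → Fin q) → ℝ) :
    fm b (fun h => ∑ i ∈ A, F i h) f = ∑ i ∈ A, fm b (F i) f := by
  unfold fm
  rw [sum_comm, sum_div]

theorem fm_mul (b : Bool) (f : Site d k → Fin q) (c : ℝ) (F : (Site d k → Fin q) → ℝ) :
    fm b (fun h => c * F h) f = c * fm b F f := by
  unfold fm
  rw [← mul_sum, mul_div_assoc]

theorem fm_const (b : Bool) {f : Site d k → Fin q} (hf : Prp f) (c : ℝ) : fm b (fun _ => c) f = c := by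
  unfold fm
  have h2 : ((fib b f).card : ℝ) ≠ 0 := by
    rw [Nat.cast_ne_zero]
    exact card_ne_zero_of_mem (fib_self b hf)
  rw [sum_const, nsmul_eq_mul]
  field_simp

theorem fm_abs (b : Bool) (f : Site d k → Fin q) (F : (Site d k → Fin q) → ℝ) : |fm b F f| ≤ fm b (fun h => |F h|) f := by
  unfold fm
  rw [abs_div, Nat.abs_cast]
  exact div_le_div_of_nonneg_right (abs_sum_le_sum_abs _ _) (Nat.cast_nonneg _)

/-- functions constant on the fibre -/
theorem fm_congr (b : Bool) {f : Site d k → Fin q} {F G : (Site d k → Fin q) → ℝ} (h : ∀ h ∈ fib b f, F h = G h) :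
    fm b F f = fm b G f := by
  unfold fm
  rw [sum_congr rfl h]

/-- the fibre mean is constant on the fibre -/
theorem fm_fib (hk : 1 ≤ k) (b : Bool) {f h : Site d k → Fin q} (hh : h ∈ fib b f) (F : (Site d k → Fin q) → ℝ) :
    fm b F h = fm b F f := by
  unfold fm
  rw [fib_eq hk b hh]

theorem fm_one (hk : 1 ≤ k) (b : Bool) {f : Site d k → Fin q} (hf : Prp f) (v : Site d k) (hv : v ∈ cls b d k)
    (φ : Fin q → ℝ) : fm b (fun h => φ (h v)) f = (∑ c ∈ (SS f v)ᶜ, φ c) / (av f v : ℝ) := by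
  have h := fm_prod hk b hf {v} (singleton_subset_iff.2 hv) (fun _ => φ)
  simpa only [prod_singleton] using h

open scoped Classical in
theorem fm_ind (hk : 1 ≤ k) (b : Bool) {f : Site d k → Fin q} (hf : Prp f) (v : Site d k) (hv : v ∈ cls b d k)
    (c : Fin q) : fm b (fun h => if h v = c then (1 : ℝ) else 0) f = zz f v c / (av f v : ℝ) := by
  have h := fm_one hk b hf v hv (fun γ => if γ = c then (1 : ℝ) else 0)
  rw [h]
  congr 1
  unfold zz
  rw [sum_ite_eq' (SS f v)ᶜ c]
  by_cases hc : c ∈ SS f v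
  · rw [if_pos hc, if_neg (by simpa using hc)]
  · rw [if_neg hc, if_pos (by simpa using hc)]

theorem fm_two (hk : 1 ≤ k) (b : Bool) {f : Site d k → Fin q} (hf : Prp f) (v w : Site d k) (hv : v ∈ cls b d k)
    (hw : w ∈ cls b d k) (hvw : v ≠ w) (φ ψ : Fin q → ℝ) :
    fm b (fun h => φ (h v) * ψ (h w)) f = fm b (fun h => φ (h v)) f * fm b (fun h => ψ (h w)) f := by
  classical
  have hU : ({v, w} : Finset (Site d k)) ⊆ cls b d k := by
    intro x hx
    rcases mem_insert.1 hx with h | h
    · exact h ▸ hv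
    · exact (mem_singleton.1 h) ▸ hw
  have h := fm_prod hk b hf {v, w} hU (fun x => if x = v then φ else ψ)
  have h1 : (fun h : Site d k → Fin q => ∏ x ∈ ({v, w} : Finset (Site d k)), (if x = v then φ else ψ) (h x)) =
      fun h => φ (h v) * ψ (h w) := by
    funext h
    rw [prod_pair hvw, if_pos rfl, if_neg (Ne.symm hvw)]
  rw [h1, prod_pair hvw, if_pos rfl, if_neg (Ne.symm hvw)] at h
  rw [h, fm_one hk b hf v hv, fm_one hk b hf w hw]

private theorem T2_indep2 (hk : 1 ≤ k) (b : Bool) {f : Site d k → Fin q} (hf : Prp f) (U : Finset (Site d k))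
    (F G : (Site d k → Fin q) → ℝ)
    (hF : ∀ h ∈ fib b f, ∀ h' ∈ fib b f, (∀ v ∈ U, h v = h' v) → F h = F h')
    (hG : ∀ h ∈ fib b f, ∀ h' ∈ fib b f, (∀ v, v ∉ U → h v = h' v) → G h = G h') :
    fm b (fun h => F h * G h) f = fm b F f * fm b G f := by
  classical
  have _ := hk
  unfold fm
  have hne : ((fib b f).card : ℝ) ≠ 0 := by
    rw [Nat.cast_ne_zero]
    exact card_ne_zero_of_mem (fib_self b hf)
  have hmix : ∀ h ∈ fib b f, ∀ h' ∈ fib b f, (fun x => if x ∈ U then h x else h' x) ∈ fib b f := by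
    intro h hh h' hh'
    unfold fib at hh hh' ⊢
    rw [Fintype.mem_piFinset] at hh hh' ⊢
    intro x
    by_cases hx : x ∈ U
    · simpa only [if_pos hx] using hh x
    · simpa only [if_neg hx] using hh' x
  have key : ∑ p ∈ fib b f ×ˢ fib b f, F p.1 * G p.2 = ∑ p ∈ fib b f ×ˢ fib b f, F p.1 * G p.1 := by
    refine sum_nbij' (fun p => (fun x => if x ∈ U then p.1 x else p.2 x, fun x => if x ∈ U then p.2 x else p.1 x))
      (fun p => (fun x => if x ∈ U then p.1 x else p.2 x, fun x => if x ∈ U then p.2 x else p.1 x)) ?_ ?_ ?_ ?_ ?_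
    · intro p hp
      obtain ⟨h1, h2⟩ := mem_product.1 hp
      exact mem_product.2 ⟨hmix _ h1 _ h2, hmix _ h2 _ h1⟩
    · intro p hp
      obtain ⟨h1, h2⟩ := mem_product.1 hp
      exact mem_product.2 ⟨hmix _ h1 _ h2, hmix _ h2 _ h1⟩
    · intro p _
      refine Prod.ext (funext fun x => ?_) (funext fun x => ?_) <;> by_cases hx : x ∈ U <;> simp [hx]
    · intro p _
      refine Prod.ext (funext fun x => ?_) (funext fun x => ?_) <;> by_cases hx : x ∈ U <;> simp [hx]
    · intro p hp
      obtain ⟨h1, h2⟩ := mem_product.1 hp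
      have e1 : F p.1 = F (fun x => if x ∈ U then p.1 x else p.2 x) :=
        hF _ h1 _ (hmix _ h1 _ h2) fun v hv => by rw [if_pos hv]
      have e2 : G p.2 = G (fun x => if x ∈ U then p.1 x else p.2 x) :=
        hG _ h2 _ (hmix _ h1 _ h2) fun v hv => by rw [if_neg hv]
      simp only
      rw [← e1, ← e2]
  rw [sum_product, sum_product] at key
  have h3 : ∑ x ∈ fib b f, ∑ _y ∈ fib b f, F x * G x = (fib b f).card * ∑ x ∈ fib b f, F x * G x := by
    rw [mul_sum]
    refine sum_congr rfl fun x _ => ?_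
    rw [sum_const, nsmul_eq_mul]
  have h4 : ∑ x ∈ fib b f, ∑ y ∈ fib b f, F x * G y = (∑ x ∈ fib b f, F x) * ∑ y ∈ fib b f, G y := by
    rw [sum_mul_sum]
  rw [h3, h4] at key
  rw [div_mul_div_comm, key]
  field_simp

/-- independence of the colour at `v` and the other colours of the class -/
theorem fm_indep (hk : 1 ≤ k) (b : Bool) {f : Site d k → Fin q} (hf : Prp f) (v : Site d k) (hv : v ∈ cls b d k)
    (φ : Fin q → ℝ) (F : (Site d k → Fin q) → ℝ)
    (hF : ∀ h ∈ fib b f, ∀ γ, γ ∉ SS f v → F (Function.update h v γ) = F h) :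
    fm b (fun h => φ (h v) * F h) f = fm b (fun h => φ (h v)) f * fm b F f := by
  have h2 : ∀ h ∈ fib b f, h v ∉ SS f v := by
    intro h hh
    unfold fib at hh
    have := Fintype.mem_piFinset.1 hh v
    rw [if_pos hv, mem_compl] at this
    exact this
  refine T2_indep2 hk b hf {v} (fun h => φ (h v)) F ?_ ?_
  · intro h _ h' _ hv'
    exact congrArg φ (hv' v (mem_singleton_self v))
  · intro h hh h' hh' hv'
    have h3 : h' = Function.update h v (h' v) := by
      funext x
      by_cases hx : x = v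
      · subst hx
        rw [Function.update_self]
      · rw [Function.update_of_ne hx]
        exact (hv' x (by simpa using hx)).symm
    rw [h3]
    exact (hF h hh (h' v) (h2 h' hh')).symm

/-- independence for disjoint sets of sites of the class: `F` depends on the sites of `U` only, `G` does not
depend on the sites of `U` -/
theorem fm_indep2 (hk : 1 ≤ k) (b : Bool) {f : Site d k → Fin q} (hf : Prp f) (U : Finset (Site d k))
    (F G : (Site d k → Fin q) → ℝ)
    (hF : ∀ h ∈ fib b f, ∀ h' ∈ fib b f, (∀ v ∈ U, h v = h' v) → F h = F h')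
    (hG : ∀ h ∈ fib b f, ∀ h' ∈ fib b f, (∀ v, v ∉ U → h v = h' v) → G h = G h') :
    fm b (fun h => F h * G h) f = fm b F f * fm b G f := by
  exact T2_indep2 hk b hf U F G hF hG

/-- elementary facts -/
theorem sum_zz_av {f : Site d k → Fin q} (hf : Prp f) (v : Site d k) : ∑ c, zz f v c / (av f v : ℝ) = 1 := by
  rw [← sum_div, ← av_eq]
  have h := av_pos hf v
  exact div_self (by exact_mod_cast (by omega : av f v ≠ 0))

theorem zz_av_le {f : Site d k → Fin q} (hf : Prp f) (v : Site d k) (c : Fin q) :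
    0 ≤ zz f v c / (av f v : ℝ) ∧ zz f v c / (av f v : ℝ) ≤ 1 := by
  have h := av_pos hf v
  have h1 : (1 : ℝ) ≤ av f v := by exact_mod_cast h
  rcases (by unfold zz; split_ifs <;> simp : zz f v c = 0 ∨ zz f v c = 1) with h2 | h2
  · rw [h2, zero_div]
    exact ⟨le_rfl, zero_le_one⟩
  · rw [h2]
    exact ⟨by positivity, by rw [div_le_one (by linarith)]; exact h1⟩

theorem zz_reg {ε : ℝ} {f : Site d k → Fin q} (hq : 1 ≤ q) (v : Site d k) (h : Rg ε f v) (c : Fin q) :
    zz f v c / (av f v : ℝ) ≤ 1 / (c1 ε * q) := by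
  unfold Rg at h
  have h0 : 0 < c1 ε := by
    unfold c1
    positivity
  have h1 : (0 : ℝ) < c1 ε * q := mul_pos h0 (by exact_mod_cast hq)
  have h2 : zz f v c ≤ 1 := by
    unfold zz
    split_ifs <;> norm_num
  calc zz f v c / (av f v : ℝ) ≤ 1 / (av f v : ℝ) := div_le_div_of_nonneg_right h2 (Nat.cast_nonneg _)
    _ ≤ 1 / (c1 ε * q) := one_div_le_one_div_of_le h1 h

end Pool.Agent.THR

end

/-! ### from `Lib_MP_2c424f_thr.T2c` -/

section

/-!
# THR T2c: covariances (paper proof: T3)

* `cov_zz`: `z_v z_w = ∏ over the union of the neighbour sets of 1[f_u ≠ c]`; mean `∏_{u in union} (1 - p_u)`, `p_u = z_u / x_u`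
  (`LIN.fm_prod`); `zt_v zt_w = ` the same times `∏_{common u} (1 - p_u)`; `1 - ∏ (1 - p) ≤ ∑ p`.
* `cmn_card` (side `≥ 8`): `σ - τ = w - v` determines `σ, τ` up to the exchange `(σ, opp τ)`.
* `not_nice`: union over the `2d` steps.
-/

set_option autoImplicit false

open Finset Filter

namespace Pool.Agent.THR

open Pool.Agent.LO Pool.Agent.LIN

variable {d k q : ℕ}

/-- common neighbours -/
noncomputable def cmn (v w : Site d k) : Finset (Site d k) :=
  (univ.image fun σ : Stp d => v + sv σ) ∩ (univ.image fun σ : Stp d => w + sv σ)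

/-- neighbours -/
private noncomputable def T2c_nb (v : Site d k) : Finset (Site d k) := univ.image fun σ : Stp d => v + sv σ

private theorem T2c_zz (h : Site d k → Fin q) (v : Site d k) (c : Fin q) :
    zz h v c = ∏ u ∈ T2c_nb v, (if h u = c then (0 : ℝ) else 1) := by
  unfold zz SS T2c_nb
  by_cases hc : c ∈ univ.image fun σ : Stp d => h (v + sv σ)
  · rw [if_pos hc]
    obtain ⟨σ, -, hσ⟩ := mem_image.1 hc
    symm
    apply Finset.prod_eq_zero (mem_image_of_mem _ (mem_univ σ))
    exact if_pos hσ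
  · rw [if_neg hc]
    refine (Finset.prod_eq_one fun u hu => if_neg fun hσ => hc ?_).symm
    obtain ⟨σ, -, rfl⟩ := mem_image.1 hu
    exact mem_image.2 ⟨σ, mem_univ σ, hσ⟩

private theorem T2c_union (h : Site d k → Fin q) (v w : Site d k) (c : Fin q) :
    zz h v c * zz h w c = ∏ u ∈ T2c_nb v ∪ T2c_nb w, (if h u = c then (0 : ℝ) else 1) := by
  rw [T2c_zz, T2c_zz]
  by_cases hc : ∃ u ∈ T2c_nb v ∪ T2c_nb w, h u = c
  · obtain ⟨u, hu, huc⟩ := hc
    have h0 : ∀ S : Finset (Site d k), u ∈ S → ∏ j ∈ S, (if h j = c then (0 : ℝ) else 1) = 0 :=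
      fun S hS => prod_eq_zero hS (if_pos huc)
    rw [h0 _ hu]
    rcases mem_union.1 hu with hu | hu
    · rw [h0 _ hu, zero_mul]
    · rw [mul_comm, h0 _ hu, zero_mul]
  · have h1 : ∀ S : Finset (Site d k), S ⊆ T2c_nb v ∪ T2c_nb w →
        ∏ j ∈ S, (if h j = c then (0 : ℝ) else 1) = 1 :=
      fun S hS => prod_eq_one fun j hj => if_neg fun hjc => hc ⟨j, hS hj, hjc⟩
    rw [h1 _ subset_rfl, h1 _ subset_union_left, h1 _ subset_union_right, mul_one]

/-- mean of a product of indicators of other colours -/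
theorem T2c_mean (hk : 1 ≤ k) (b : Bool) {f : Site d k → Fin q} (hf : Prp f) (U : Finset (Site d k))
    (hU : U ⊆ cls b d k) (c : Fin q) :
    fm b (fun h => ∏ u ∈ U, (if h u = c then (0 : ℝ) else 1)) f = ∏ u ∈ U, (1 - zz f u c / (av f u : ℝ)) := by
  refine (fm_prod hk b hf U hU
    (fun (_ : Site d k) (c' : Fin q) => if c' = c then (0 : ℝ) else 1)).trans ?_
  refine Finset.prod_congr rfl fun u _ => ?_
  have hcard : ((SS f u)ᶜ.card : ℝ) = av f u := by
    rw [Finset.card_compl, Fintype.card_fin]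
    rfl
  have h3 : (∑ c' ∈ (SS f u)ᶜ, (if c' = c then (0 : ℝ) else 1)) = av f u - zz f u c := by
    have h4 : ∀ c' ∈ (SS f u)ᶜ, (if c' = c then (0 : ℝ) else 1) =
        1 - (if c' = c then (1 : ℝ) else 0) := by
      intro c' _
      split_ifs <;> norm_num
    rw [Finset.sum_congr rfl h4, Finset.sum_sub_distrib, Finset.sum_const, nsmul_eq_mul, mul_one,
      hcard, Finset.sum_ite_eq']
    congr 1
    unfold zz
    by_cases hc : c ∈ SS f u
    · rw [if_neg (by simpa using hc), if_pos hc]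
    · rw [if_pos (by simpa using hc), if_neg hc]
  have hav : (av f u : ℝ) ≠ 0 := by
    have h5 := av_pos hf u
    have h6 : (1 : ℝ) ≤ av f u := by exact_mod_cast h5
    linarith
  rw [h3, sub_div, div_self hav]

private theorem T2c_prod {ι : Type*} (s : Finset ι) (p : ι → ℝ) (h0 : ∀ i, 0 ≤ p i) (h1 : ∀ i, p i ≤ 1) :
    0 ≤ ∏ i ∈ s, (1 - p i) ∧ ∏ i ∈ s, (1 - p i) ≤ 1 ∧ 1 - ∏ i ∈ s, (1 - p i) ≤ ∑ i ∈ s, p i := by
  classical
  induction s using Finset.induction_on with
  | empty => simp
  | insert a s ha ih =>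
    obtain ⟨ih0, ih1, ih2⟩ := ih
    rw [prod_insert ha, sum_insert ha]
    have h2 := h0 a
    have h3 := h1 a
    refine ⟨mul_nonneg (by linarith) ih0, ?_, ?_⟩
    · nlinarith [mul_nonneg h2 ih0]
    · nlinarith [mul_nonneg h2 (sub_nonneg.2 ih1)]

private theorem T2c_zt (hk : 2 ≤ k) (f : Site d k → Fin q) (v : Site d k) (c : Fin q) :
    zt f v c = ∏ u ∈ T2c_nb v, (1 - zz f u c / (av f u : ℝ)) := by
  unfold T2c_nb zt
  rw [prod_image fun σ _ σ' _ h => sv_inj hk (add_left_cancel h)]

theorem cov_zz (hk : 2 ≤ k) (b : Bool) {f : Site d k → Fin q} (hf : Prp f) (v w : Site d k) (hv : v ∈ cls b d k)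
    (hw : w ∈ cls b d k) (c : Fin q) :
    zt f v c * zt f w c ≤ fm (!b) (fun h => zz h v c * zz h w c) f ∧
      fm (!b) (fun h => zz h v c * zz h w c) f ≤ zt f v c * zt f w c + ∑ u ∈ cmn v w, zz f u c / (av f u : ℝ) := by
  have hstep : ∀ v ∈ cls b d k, T2c_nb v ⊆ cls (!b) d k := by
    intro v hv u hu
    obtain ⟨σ, -, rfl⟩ := mem_image.1 hu
    rw [mem_cls_step (by omega), Bool.not_not]
    exact hv
  have h1 : fm (!b) (fun h => zz h v c * zz h w c) f =
      ∏ u ∈ T2c_nb v ∪ T2c_nb w, (1 - zz f u c / (av f u : ℝ)) := by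
    rw [show (fun h : Site d k → Fin q => zz h v c * zz h w c) =
      fun h => ∏ u ∈ T2c_nb v ∪ T2c_nb w, (if h u = c then (0 : ℝ) else 1) from
      funext fun h => T2c_union h v w c]
    exact T2c_mean (by omega) (!b) hf _ (union_subset (hstep v hv) (hstep w hw)) c
  have h2 : zt f v c * zt f w c = (∏ u ∈ T2c_nb v ∪ T2c_nb w, (1 - zz f u c / (av f u : ℝ))) *
      ∏ u ∈ cmn v w, (1 - zz f u c / (av f u : ℝ)) := by
    rw [T2c_zt hk, T2c_zt hk]
    exact (prod_union_inter).symm
  have h3 := T2c_prod (T2c_nb v ∪ T2c_nb w) (fun u => zz f u c / (av f u : ℝ))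
    (fun u => (zz_av_le hf u c).1) (fun u => (zz_av_le hf u c).2)
  have h4 := T2c_prod (cmn v w) (fun u => zz f u c / (av f u : ℝ))
    (fun u => (zz_av_le hf u c).1) (fun u => (zz_av_le hf u c).2)
  rw [h1, h2]
  obtain ⟨h30, h31, -⟩ := h3
  obtain ⟨h40, h41, h42⟩ := h4
  constructor
  · nlinarith [mul_nonneg h30 (sub_nonneg.2 h41)]
  · nlinarith [mul_nonneg (sub_nonneg.2 h31) (sub_nonneg.2 h41)]

theorem cmn_card (hk : 3 ≤ k) (v w : Site d k) (h : v ≠ w) : (cmn v w).card ≤ 2 := by
  have h1 := two_steps (d := d) hk (w - v) (sub_ne_zero.2 (Ne.symm h))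
  refine le_trans ?_ h1
  have hsub : cmn v w ⊆ (univ.filter fun p : Stp d × Stp d =>
      (sv p.1 : Site d k) + sv p.2 = w - v).image fun p => v + sv p.1 := by
    intro u hu
    obtain ⟨h2, h3⟩ := mem_inter.1 hu
    obtain ⟨σ, -, rfl⟩ := mem_image.1 h2
    obtain ⟨τ, -, h4⟩ := mem_image.1 h3
    refine mem_image.2 ⟨(σ, (τ.1, !τ.2)), mem_filter.2 ⟨mem_univ _, ?_⟩, rfl⟩
    have h5 : (sv τ : Site d k) + sv (τ.1, !τ.2) = 0 := sv_opp τ.1 τ.2
    have h6 : (sv (τ.1, !τ.2) : Site d k) = - sv τ := eq_neg_of_add_eq_zero_right h5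
    have h7 : (sv σ : Site d k) = w + sv τ - v := by rw [h4]; abel
    show (sv σ : Site d k) + sv (τ.1, !τ.2) = w - v
    rw [h6, h7]
    abel
  exact (card_le_card hsub).trans card_image_le

open scoped Classical in
/-- number of sites which are not nice -/
theorem not_nice (ε : ℝ) (f : Site d k → Fin q) :
    ((univ.filter fun v : Site d k => ¬ Nc ε f v).card : ℝ) ≤ 2 * d * irr ε f := by
  have hsub : (univ.filter fun v : Site d k => ¬ Nc ε f v) ⊆
      (univ : Finset (Stp d)).biUnion fun σ => univ.filter fun v : Site d k => ¬ Rg ε f (v + sv σ) := by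
    intro v hv
    have h1 := (mem_filter.1 hv).2
    unfold Nc at h1
    rw [not_forall] at h1
    obtain ⟨σ, hσ⟩ := h1
    exact mem_biUnion.2 ⟨σ, mem_univ _, mem_filter.2 ⟨mem_univ _, hσ⟩⟩
  have hc : ∀ σ : Stp d, (univ.filter fun v : Site d k => ¬ Rg ε f (v + sv σ)).card =
      (univ.filter fun v : Site d k => (av f v : ℝ) < c1 ε * q).card := by
    intro σ
    refine card_bij (fun v _ => v + sv σ) ?_ ?_ ?_
    · intro v hv
      have h1 := (mem_filter.1 hv).2
      unfold Rg at h1
      exact mem_filter.2 ⟨mem_univ _, not_le.1 h1⟩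
    · intro v _ w _ hvw
      exact add_right_cancel hvw
    · intro u hu
      have h1 := (mem_filter.1 hu).2
      refine ⟨u - sv σ, mem_filter.2 ⟨mem_univ _, ?_⟩, sub_add_cancel _ _⟩
      unfold Rg
      rw [sub_add_cancel]
      exact not_le.2 h1
  have h1 : (univ.filter fun v : Site d k => ¬ Nc ε f v).card ≤
      2 * d * (univ.filter fun v : Site d k => (av f v : ℝ) < c1 ε * q).card := by
    refine (card_le_card hsub).trans (card_biUnion_le.trans ?_)
    rw [sum_congr rfl fun σ _ => hc σ, sum_const, smul_eq_mul, card_univ, Fintype.card_prod,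
      Fintype.card_fin, Fintype.card_bool, mul_comm d 2]
  unfold irr
  exact_mod_cast h1

end Pool.Agent.THR

end
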