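import Pool.Agent.Lib_MP_2c424f_ms.M17

/-!
# MP_2c424f_pr: library of SharpThreshold and BoundaryThreshold (merged): merged library part M19

Concatenation of smaller files (each in its own section), only to save build time.
-/

namespace Pool.Agent.LO
end Pool.Agent.LO

namespace Pool.Agent.LIN
end Pool.Agent.LIN

/-! ### from `Lib_MP_2c424f_thr.A1` -/

section

/-!
# THR A1: the mean-field equation (paper proof: A1)

* `mfe_exists`: `g m = tanh (a m) - m` is positive for small `m > 0` (`tanh x ≥ x - x³/3`) and negative at `1`; intermediate value theorem.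
* `mfe_lower`: `m = tanh (am) ≥ am - (am)³/3`, so `m² ≥ 3(a-1)/a³`.
* `mfe_unique`: `tanh (x)/x` is strictly decreasing on `(0,∞)`.
* identities: `e^(-a(1±m))/α* = 1 ∓ m` from `tanh`.
* `phi_eq`: `ell 1 = (ψ(1+m)+ψ(1-m))/2 = -((1+m) log (1+m) + (1-m) log (1-m))/2 + 1`.
-/

set_option autoImplicit false

open Finset Filter

namespace Pool.Agent.THR

private theorem A1_x_le (x : ℝ) (hx : 0 ≤ x) : Real.sinh x ≤ x * Real.cosh x := by
  have hm : MonotoneOn (fun t : ℝ => t * Real.cosh t - Real.sinh t) (Set.Ici 0) := by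
    have hd : ∀ t : ℝ, HasDerivAt (fun t : ℝ => t * Real.cosh t - Real.sinh t) (t * Real.sinh t) t := by
      intro t
      have h := ((hasDerivAt_id t).mul (Real.hasDerivAt_cosh t)).sub (Real.hasDerivAt_sinh t)
      have e : 1 * Real.cosh t + id t * Real.sinh t - Real.cosh t = t * Real.sinh t := by simp
      rw [e] at h
      exact h
    refine monotoneOn_of_deriv_nonneg (convex_Ici 0) (fun t _ => (hd t).continuousAt.continuousWithinAt)
      (fun t _ => (hd t).differentiableAt.differentiableWithinAt) ?_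
    intro t ht
    rw [interior_Ici] at ht
    rw [(hd t).deriv]
    have ht' : (0 : ℝ) < t := ht
    exact mul_nonneg ht'.le (Real.sinh_nonneg_iff.2 ht'.le)
  have := hm (Set.self_mem_Ici) (Set.mem_Ici.2 hx) hx
  simp at this
  linarith

theorem tanh_ge (x : ℝ) (hx : 0 ≤ x) : x - x ^ 3 / 3 ≤ Real.tanh x := by
  have hm : MonotoneOn (fun t : ℝ => Real.sinh t - (t - t ^ 3 / 3) * Real.cosh t) (Set.Ici 0) := by
    have hd : ∀ t : ℝ, HasDerivAt (fun t : ℝ => Real.sinh t - (t - t ^ 3 / 3) * Real.cosh t)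
        (t * (t * Real.cosh t - Real.sinh t) + t ^ 3 / 3 * Real.sinh t) t := by
      intro t
      have h1 : HasDerivAt (fun t : ℝ => t - t ^ 3 / 3) (1 - t ^ 2) t := by
        have h := (hasDerivAt_id t).sub (((hasDerivAt_id t).pow 3).div_const 3)
        refine h.congr_deriv ?_
        simp
      have h := (Real.hasDerivAt_sinh t).sub (h1.mul (Real.hasDerivAt_cosh t))
      refine h.congr_deriv ?_
      ring
    refine monotoneOn_of_deriv_nonneg (convex_Ici 0) (fun t _ => (hd t).continuousAt.continuousWithinAt)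
      (fun t _ => (hd t).differentiableAt.differentiableWithinAt) ?_
    intro t ht
    rw [interior_Ici] at ht
    rw [(hd t).deriv]
    have ht' : (0 : ℝ) < t := ht
    have h1 := A1_x_le t ht'.le
    have h2 : 0 ≤ Real.sinh t := Real.sinh_nonneg_iff.2 ht'.le
    have h3 : 0 ≤ t * (t * Real.cosh t - Real.sinh t) := mul_nonneg ht'.le (by linarith)
    have h4 : 0 ≤ t ^ 3 / 3 * Real.sinh t := mul_nonneg (by positivity) h2
    linarith
  have := hm (Set.self_mem_Ici) (Set.mem_Ici.2 hx) hx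
  simp at this
  rw [Real.tanh_eq_sinh_div_cosh, le_div_iff₀ (Real.cosh_pos x)]
  linarith

private theorem A1_cont : Continuous Real.tanh := by
  have : Real.tanh = fun x => Real.sinh x / Real.cosh x := by
    funext x; exact Real.tanh_eq_sinh_div_cosh x
  rw [this]
  exact Real.continuous_sinh.div Real.continuous_cosh fun x => (Real.cosh_pos x).ne'

theorem mfe_exists (a : ℝ) (ha : 1 < a) : ∃ m : ℝ, MFE a m := by
  have ha0 : 0 < a := by linarith
  have hc : Continuous fun m : ℝ => Real.tanh (a * m) - m :=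
    (A1_cont.comp (continuous_const.mul continuous_id)).sub continuous_id
  set m0 : ℝ := Real.sqrt ((a - 1) / a ^ 3) with hm0
  have hq : 0 < (a - 1) / a ^ 3 := div_pos (by linarith) (by positivity)
  have hm0p : 0 < m0 := Real.sqrt_pos.2 hq
  have hsq : m0 ^ 2 = (a - 1) / a ^ 3 := Real.sq_sqrt hq.le
  have hm01 : m0 ≤ 1 := by
    have : m0 ^ 2 ≤ 1 := by
      rw [hsq, div_le_one (by positivity)]
      nlinarith [mul_pos ha0 ha0, mul_pos (mul_pos ha0 ha0) ha0]
    nlinarith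
  have h0 : 0 ≤ Real.tanh (a * m0) - m0 := by
    have h := tanh_ge (a * m0) (by positivity)
    have e : (a * m0) ^ 3 / 3 = m0 * ((a - 1) / 3) := by
      have : (a * m0) ^ 3 = a ^ 3 * m0 ^ 2 * m0 := by ring
      rw [this, hsq]
      field_simp
    rw [e] at h
    nlinarith
  have h1 : Real.tanh (a * 1) - 1 ≤ 0 := by
    have := Real.tanh_lt_one (a * 1)
    linarith
  have hiv := intermediate_value_Icc' hm01 hc.continuousOn
  obtain ⟨m, hm, hm2⟩ := hiv (Set.mem_Icc.2 ⟨h1, h0⟩)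
  refine ⟨m, lt_of_lt_of_le hm0p hm.1, ?_⟩
  simp only at hm2
  linarith

theorem mfe_lt (a m : ℝ) (h : MFE a m) : m < 1 := by
  rw [h.2]; exact Real.tanh_lt_one _

theorem mfe_lower (a m : ℝ) (ha : 1 < a) (h : MFE a m) : 3 * (a - 1) / a ^ 3 ≤ m ^ 2 := by
  have ha0 : 0 < a := by linarith
  have hm := h.1
  have h1 := tanh_ge (a * m) (by positivity)
  rw [← h.2] at h1
  rw [div_le_iff₀ (by positivity)]
  have e : a * m - (a * m) ^ 3 / 3 = m * (a - a ^ 3 * m ^ 2 / 3) := by ring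
  rw [e] at h1
  have h2 : a - a ^ 3 * m ^ 2 / 3 ≤ 1 := by
    by_contra hc
    push Not at hc
    nlinarith
  nlinarith

/-- `t coth t` is strictly increasing -/
theorem A1_coth_mono : StrictMonoOn (fun t : ℝ => t * Real.cosh t / Real.sinh t) (Set.Ioi 0) := by
  have hd : ∀ t : ℝ, 0 < t → HasDerivAt (fun t : ℝ => t * Real.cosh t / Real.sinh t)
      ((Real.cosh t * Real.sinh t - t) / Real.sinh t ^ 2) t := by
    intro t ht
    have hs : 0 < Real.sinh t := Real.sinh_pos_iff.2 ht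
    have h := ((hasDerivAt_id t).mul (Real.hasDerivAt_cosh t)).div (Real.hasDerivAt_sinh t) hs.ne'
    refine h.congr_deriv ?_
    simp only [id, Pi.mul_apply]
    congr 1
    have := Real.cosh_sq t
    nlinarith
  refine strictMonoOn_of_deriv_pos (convex_Ioi 0)
    (fun t ht => (hd t ht).continuousAt.continuousWithinAt) ?_
  intro t ht
  rw [interior_Ioi] at ht
  have ht' : (0 : ℝ) < t := ht
  rw [(hd t ht').deriv]
  have hs : 0 < Real.sinh t := Real.sinh_pos_iff.2 ht'
  refine div_pos ?_ (by positivity)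
  have h2 : t < Real.sinh t := Real.self_lt_sinh_iff.2 ht'
  have h3 := Real.one_le_cosh t
  nlinarith

private theorem A1_coth (a m : ℝ) (h : MFE a m) : a * m * Real.cosh (a * m) / Real.sinh (a * m) = a := by
  have hm := h.1
  have h2 := h.2
  rw [Real.tanh_eq_sinh_div_cosh] at h2
  have hc := Real.cosh_pos (a * m)
  rw [eq_div_iff hc.ne'] at h2
  have hs : Real.sinh (a * m) ≠ 0 := by
    rw [← h2]; positivity
  rw [div_eq_iff hs, ← h2]
  ring

private theorem A1_pos (a m : ℝ) (h : MFE a m) : 0 < a * m := by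
  have hm := h.1
  have h2 := h.2
  rw [Real.tanh_eq_sinh_div_cosh] at h2
  have hc := Real.cosh_pos (a * m)
  rw [eq_div_iff hc.ne'] at h2
  have : 0 < Real.sinh (a * m) := by rw [← h2]; positivity
  exact Real.sinh_pos_iff.1 this

theorem mfe_unique (a m m' : ℝ) (ha : 1 < a) (h : MFE a m) (h' : MFE a m') : m = m' := by
  have h1 := A1_coth a m h
  have h2 := A1_coth a m' h'
  have := A1_coth_mono.injOn (Set.mem_Ioi.2 (A1_pos a m h)) (Set.mem_Ioi.2 (A1_pos a m' h'))
    (by show a * m * Real.cosh (a * m) / Real.sinh (a * m) = a * m' * Real.cosh (a * m') / Real.sinh (a * m'); rw [h1, h2])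
  have ha0 : a ≠ 0 := by linarith
  exact mul_left_cancel₀ ha0 this

theorem als_pos (a m : ℝ) : 0 < als a m := by
  unfold als
  have := Real.cosh_pos (a * m)
  positivity

theorem als_bounds (a m : ℝ) (ha : 0 ≤ a) (hm : |m| ≤ 1) : Real.exp (-a) ≤ als a m ∧ als a m ≤ 1 := by
  unfold als
  have he := Real.exp_pos (-a)
  refine ⟨by have := Real.one_le_cosh (a * m); nlinarith, ?_⟩
  have h1 : Real.cosh (a * m) ≤ Real.cosh a := by
    rw [Real.cosh_le_cosh, abs_mul, abs_of_nonneg ha]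
    nlinarith
  have h2 : Real.cosh a ≤ Real.exp a := by
    have := Real.cosh_add_sinh a
    have h3 : 0 ≤ Real.sinh a := Real.sinh_nonneg_iff.2 ha
    linarith
  calc Real.exp (-a) * Real.cosh (a * m) ≤ Real.exp (-a) * Real.exp a := by
        exact mul_le_mul_of_nonneg_left (h1.trans h2) he.le
    _ = 1 := by rw [← Real.exp_add]; simp

private theorem A1_tanh (a m : ℝ) (h : MFE a m) : Real.sinh (a * m) = m * Real.cosh (a * m) := by
  have h2 := h.2
  rw [Real.tanh_eq_sinh_div_cosh] at h2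
  have hc := Real.cosh_pos (a * m)
  rw [eq_div_iff hc.ne'] at h2
  exact h2.symm

theorem Fy_add (a m : ℝ) (h : MFE a m) : Fy a m (1 + m) = 1 - m := by
  unfold Fy als
  have hc := Real.cosh_pos (a * m)
  have he := Real.exp_pos (-a)
  rw [div_eq_iff (by positivity)]
  have e : Real.exp (-(a * (1 + m))) = Real.exp (-a) * Real.exp (-(a * m)) := by
    rw [← Real.exp_add]; ring_nf
  rw [e, ← Real.cosh_sub_sinh (a * m), A1_tanh a m h]
  ring

theorem Fy_sub (a m : ℝ) (h : MFE a m) : Fy a m (1 - m) = 1 + m := by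
  unfold Fy als
  have hc := Real.cosh_pos (a * m)
  have he := Real.exp_pos (-a)
  rw [div_eq_iff (by positivity)]
  have e : Real.exp (-(a * (1 - m))) = Real.exp (-a) * Real.exp (a * m) := by
    rw [← Real.exp_add]; ring_nf
  rw [e, ← Real.cosh_add_sinh (a * m), A1_tanh a m h]
  ring

/-- `a m > 0` and the nondegeneracy `a² (1 - m²) < 1` -/
theorem mfe_nondeg (a m : ℝ) (ha : 1 < a) (h : MFE a m) : a ^ 2 * (1 - m ^ 2) < 1 := by
  have hp := A1_pos a m h
  have hm := h.1
  have ht := A1_tanh a m h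
  have hc := Real.cosh_pos (a * m)
  have hsq := Real.cosh_sq (a * m)
  have hs : a * m < Real.sinh (a * m) := Real.self_lt_sinh_iff.2 hp
  have h1 : (1 - m ^ 2) * Real.cosh (a * m) ^ 2 = 1 := by
    have : (m * Real.cosh (a * m)) ^ 2 = Real.cosh (a * m) ^ 2 - 1 := by rw [← ht]; linarith
    nlinarith
  have h2 : a < Real.cosh (a * m) := by
    rw [ht] at hs
    have : a * m < Real.cosh (a * m) * m := by linarith
    exact lt_of_mul_lt_mul_right this hm.le
  have h3 : a ^ 2 < Real.cosh (a * m) ^ 2 := by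
    have ha0 : 0 < a := by linarith
    nlinarith
  have h4 : 0 < 1 - m ^ 2 := by
    have := mfe_lt a m h
    nlinarith
  calc a ^ 2 * (1 - m ^ 2) < Real.cosh (a * m) ^ 2 * (1 - m ^ 2) := by
        exact mul_lt_mul_of_pos_right h3 h4
    _ = 1 := by rw [mul_comm]; exact h1

private theorem A1_psi_add (a m : ℝ) (h : MFE a m) :
    psi a m (1 + m) = -((1 + m) * Real.log (1 + m)) + (1 - m) := by
  unfold psi
  rw [Fy_add a m h, Real.negMulLog]; ring

private theorem A1_psi_sub (a m : ℝ) (h : MFE a m) :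
    psi a m (1 - m) = -((1 - m) * Real.log (1 - m)) + (1 + m) := by
  unfold psi
  rw [Fy_sub a m h, Real.negMulLog]; ring

theorem phi_eq (a m : ℝ) (h : MFE a m) :
    Phi a m = -((1 + m) * Real.log (1 + m) + (1 - m) * Real.log (1 - m)) / 2 + Real.log (als a m) := by
  unfold Phi ell
  rw [A1_psi_add a m h, A1_psi_sub a m h]
  ring

private theorem A1_log_sub (a m : ℝ) (h : MFE a m) :
    Real.log (1 - m) = -(a * (1 + m)) - Real.log (als a m) := by
  rw [← Fy_add a m h]
  unfold Fy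
  rw [Real.log_div (Real.exp_pos _).ne' (als_pos a m).ne', Real.log_exp]

private theorem A1_log_add (a m : ℝ) (h : MFE a m) :
    Real.log (1 + m) = -(a * (1 - m)) - Real.log (als a m) := by
  rw [← Fy_sub a m h]
  unfold Fy
  rw [Real.log_div (Real.exp_pos _).ne' (als_pos a m).ne', Real.log_exp]

/-- slope of the common tangent -/
theorem ell_eq (a m y : ℝ) (h : MFE a m) :
    ell a m y = ell a m 1 + (-Real.log (1 + m) - 1 - a * (1 - m)) * (y - 1) := by
  have hm := h.1
  unfold ell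
  rw [A1_psi_add a m h, A1_psi_sub a m h, A1_log_sub a m h, A1_log_add a m h]
  field_simp
  ring

theorem LL_zero (a m : ℝ) (h : MFE a m) : LL a m (1 + m) = 0 ∧ LL a m (1 - m) = 0 := by
  have hm := h.1
  unfold LL ell
  constructor
  · field_simp
    ring
  · field_simp
    ring

end Pool.Agent.THR

end

/-! ### from `Lib_MP_2c424f_thr.T0e` -/

section

/-!
# THR T0e: statements which hold in the regime

All statements are elementary.  `EvT.and`: maximum of the two thresholds.  `EvT_reg`: `d₀ ≥ M/ε`; `k ≥ M`; `ra d q = 2d/q`.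
`EvT_NN`, `EvT_pow`: `NN d k = (2^k)^d → ∞` for `d ≥ 1`.
-/

set_option autoImplicit false

open Finset Filter

namespace Pool.Agent.THR

open Pool.Agent.LO Pool.Agent.LIN

theorem EvT.mono {ε : ℝ} {P Q : ℕ → ℕ → ℕ → Prop} (h : EvT ε P) (hPQ : ∀ d k q, P d k q → Q d k q) : EvT ε Q := by
  obtain ⟨d₀, h⟩ := h
  exact ⟨d₀, fun d q hd h1 h2 => (h d q hd h1 h2).mono fun k hk => hPQ d k q hk⟩

theorem EvT.and {ε : ℝ} {P Q : ℕ → ℕ → ℕ → Prop} (h : EvT ε P) (h' : EvT ε Q) :
    EvT ε fun d k q => P d k q ∧ Q d k q := by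
  obtain ⟨d₀, h⟩ := h
  obtain ⟨d₁, h'⟩ := h'
  exact ⟨max d₀ d₁, fun d q hd h1 h2 =>
    (h d q (le_trans (le_max_left _ _) hd) h1 h2).and (h' d q (le_trans (le_max_right _ _) hd) h1 h2)⟩

/-- shift of `k` -/
theorem EvT.shift {ε : ℝ} {P : ℕ → ℕ → ℕ → Prop} (h : EvT ε P) : EvT ε fun d k q => P d (k + 1) q := by
  obtain ⟨d₀, h⟩ := h
  exact ⟨d₀, fun d q hd h1 h2 => (tendsto_add_atTop_nat 1).eventually (h d q hd h1 h2)⟩

/-- facts about the regime -/
theorem EvT_reg {ε : ℝ} (hε : 0 < ε) (hε1 : ε ≤ 1) (M : ℝ) : EvT ε fun d k q =>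
    M ≤ d ∧ M ≤ q ∧ M ≤ k ∧ ε * d ≤ q ∧ (q : ℝ) ≤ (2 - ε) * d ∧ a1 ε ≤ ra d q ∧ ra d q ≤ A0 ε ∧ 2 * (d : ℝ) = ra d q * q := by
  obtain ⟨m, hm⟩ := exists_nat_ge (|M| / ε)
  refine ⟨max m 1, fun d q hd h1 h2 => ?_⟩
  have hd1 : 1 ≤ d := le_trans (le_max_right _ _) hd
  have hdm : m ≤ d := le_trans (le_max_left _ _) hd
  have hd1' : (1 : ℝ) ≤ d := by exact_mod_cast hd1
  have hdm' : (m : ℝ) ≤ d := by exact_mod_cast hdm
  have hd0 : (0 : ℝ) < d := by linarith
  have hq0 : (0 : ℝ) < q := lt_of_lt_of_le (mul_pos hε hd0) h1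
  have hM : |M| ≤ ε * d := by
    have := le_trans hm hdm'
    rw [div_le_iff₀ hε] at this
    linarith
  have hM1 : M ≤ ε * d := le_trans (le_abs_self M) hM
  have hMd : M ≤ d := by nlinarith
  have h2ε : (0 : ℝ) < 2 - ε := by linarith
  have hk : ∀ᶠ k : ℕ in atTop, M ≤ (k : ℝ) := tendsto_natCast_atTop_atTop.eventually_ge_atTop M
  filter_upwards [hk] with k hk
  refine ⟨hMd, hM1.trans h1, hk, h1, h2, ?_, ?_, ?_⟩
  · unfold a1 ra
    rw [div_le_div_iff₀ h2ε hq0]
    linarith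
  · unfold A0 ra
    rw [div_le_div_iff₀ hq0 hε]
    linarith
  · unfold ra
    field_simp

theorem EvT_d {ε : ℝ} {P : ℕ → Prop} (h : ∀ᶠ d : ℕ in atTop, P d) : EvT ε fun d _ _ => P d := by
  obtain ⟨d₀, h⟩ := eventually_atTop.1 h
  exact ⟨d₀, fun d q hd _ _ => Eventually.of_forall fun _ => h d hd⟩

theorem EvT_NN {ε : ℝ} (F : ℕ → ℕ → ℝ) : EvT ε fun d k q => F d q ≤ NN d k := by
  refine ⟨1, fun d q hd _ _ => ?_⟩
  have h := (tendsto_pow_atTop_atTop_of_one_lt (by norm_num : (1 : ℝ) < 2)).eventually_ge_atTop (F d q)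
  filter_upwards [h] with k hk
  refine le_trans hk ?_
  unfold NN
  have h1 : (2 : ℝ) ^ k ≤ ((2 : ℝ) ^ k) ^ d := by
    apply le_self_pow₀ (one_le_pow₀ (by norm_num)) (by omega)
  exact h1

theorem EvT_pow {ε : ℝ} (F : ℕ → ℕ → ℝ) : EvT ε fun d k q => F d q ≤ (2 : ℝ) ^ k := by
  refine ⟨0, fun d q _ _ _ => ?_⟩
  exact (tendsto_pow_atTop_atTop_of_one_lt (by norm_num : (1 : ℝ) < 2)).eventually_ge_atTop (F d q)

end Pool.Agent.THR

end

/-! ### from `Lib_MP_2c424f_thr.T0` -/

section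

/-!
# THR T0: statements which hold in the regime; rare events

All statements are elementary.  `EvT.and`: maximum of the two thresholds.  `EvT_large`: `q ≥ ε d`.
`Rar` is monotone in the exponent since `d ≥ 1`.  For a finite union use that `N/d^C - N/d^(C+1) ≥ log F` for `k` large
(`N = (2^k)^d → ∞`, `d ≥ 2`).
-/

set_option autoImplicit false

open Finset Filter

namespace Pool.Agent.THR

open Pool.Agent.LO Pool.Agent.LIN

private theorem T0_NN_nonneg (d k : ℕ) : 0 ≤ NN d k := by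
  unfold NN
  positivity

private theorem T0_ZZ_nonneg (d k q : ℕ) : 0 ≤ ZZ d k q := by
  unfold ZZ
  positivity

private theorem T0_mem_prps {d k q : ℕ} (f : Site d k → Fin q) : f ∈ prps d k q ↔ Prp f := by
  unfold prps
  simp only [mem_filter, mem_univ, true_and]

private theorem T0_prps_transl {d k q : ℕ} {f : Site d k → Fin q} (τ : Site d k)
    (hf : f ∈ prps d k q) : (fun x => f (x + τ)) ∈ prps d k q := by
  rw [T0_mem_prps] at hf ⊢
  intro x σ
  have h := hf (x + τ) σ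
  have e : x + τ + sv σ = x + sv σ + τ := by abel
  rw [e] at h
  exact h

theorem Rar.mono_C {C C' d k q : ℕ} {P : (Site d k → Fin q) → Prop} (h : Rar C d k q P) (hd : 1 ≤ d) (hC : C ≤ C') :
    Rar C' d k q P := by
  unfold Rar at *
  refine h.trans ?_
  have hN : 0 ≤ NN d k := T0_NN_nonneg d k
  have hZ : 0 ≤ ZZ d k q := T0_ZZ_nonneg d k q
  have hd1 : (1 : ℝ) ≤ (d : ℝ) := by exact_mod_cast hd
  have hp : 0 < (d : ℝ) ^ C := pow_pos (by linarith) _
  have hpp : (d : ℝ) ^ C ≤ (d : ℝ) ^ C' := pow_le_pow_right₀ hd1 hC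
  refine mul_le_mul_of_nonneg_left (Real.exp_le_exp.mpr ?_) hZ
  refine neg_le_neg ?_
  exact div_le_div_of_nonneg_left hN hp hpp

theorem Rar.mono {C d k q : ℕ} {P Q : (Site d k → Fin q) → Prop} (h : Rar C d k q P)
    (hQ : ∀ f ∈ prps d k q, Q f → P f) : Rar C d k q Q := by
  classical
  unfold Rar at *
  refine le_trans ?_ h
  have hsub : (prps d k q).filter Q ⊆ (prps d k q).filter P := by
    intro f hf
    rw [mem_filter] at hf ⊢
    exact ⟨hf.1, hQ f hf.1 hf.2⟩
  exact_mod_cast card_le_card (by convert hsub)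

/-- translation invariance -/
theorem Rar.transl {C d k q : ℕ} {P : (Site d k → Fin q) → Prop} (h : Rar C d k q P) (τ : Site d k) :
    Rar C d k q fun f => P fun x => f (x + τ) := by
  classical
  unfold Rar at *
  refine le_trans ?_ h
  have hcard : ((prps d k q).filter fun f => P fun x => f (x + τ)).card ≤
      ((prps d k q).filter P).card := by
    refine card_le_card_of_injOn (fun f => fun x => f (x + τ)) ?_ ?_
    · intro f hf
      rw [mem_coe, mem_filter] at hf
      rw [mem_coe, mem_filter]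
      exact ⟨T0_prps_transl τ hf.1, hf.2⟩
    · intro f _ g _ hfg
      funext x
      have h1 := congrFun hfg (x - τ)
      simpa using h1
  exact_mod_cast (by convert hcard)

/-- finite unions -/
theorem Rar_union {C d k q : ℕ} {ι : Type} [Fintype ι] {P : ι → (Site d k → Fin q) → Prop} (hd : 2 ≤ d)
    (h : ∀ i, Rar C d k q (P i)) (hι : (d : ℝ) ^ (C + 1) * Real.log (Fintype.card ι) ≤ NN d k) :
    Rar (C + 1) d k q fun f => ∃ i, P i f := by
  classical
  have hN : 0 ≤ NN d k := T0_NN_nonneg d k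
  have hZ : 0 ≤ ZZ d k q := T0_ZZ_nonneg d k q
  have hd2 : (2 : ℝ) ≤ (d : ℝ) := by exact_mod_cast hd
  have hd0 : (0 : ℝ) < (d : ℝ) := by linarith
  have hcard : (((prps d k q).filter fun f => ∃ i, P i f).card : ℝ) ≤
      ∑ i : ι, (((prps d k q).filter (P i)).card : ℝ) := by
    have h1 : ((prps d k q).filter fun f => ∃ i, P i f) ⊆
        (univ : Finset ι).biUnion fun i => (prps d k q).filter (P i) := by
      intro f hf
      rw [mem_filter] at hf
      obtain ⟨hf1, i, hi⟩ := hf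
      rw [mem_biUnion]
      exact ⟨i, mem_univ _, mem_filter.mpr ⟨hf1, hi⟩⟩
    have h2 := (card_le_card h1).trans card_biUnion_le
    exact_mod_cast h2
  have hsum : ∑ i : ι, (((prps d k q).filter (P i)).card : ℝ) ≤
      (Fintype.card ι : ℝ) * (ZZ d k q * Real.exp (-(NN d k / (d : ℝ) ^ C))) := by
    have h3 : ∀ i ∈ (univ : Finset ι), (((prps d k q).filter (P i)).card : ℝ) ≤
        ZZ d k q * Real.exp (-(NN d k / (d : ℝ) ^ C)) := by
      intro i _
      have := h i
      unfold Rar at this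
      convert this
    have h4 := sum_le_card_nsmul univ _ _ h3
    rw [nsmul_eq_mul, card_univ] at h4
    exact h4
  have hfin : (Fintype.card ι : ℝ) * (ZZ d k q * Real.exp (-(NN d k / (d : ℝ) ^ C))) ≤
      ZZ d k q * Real.exp (-(NN d k / (d : ℝ) ^ (C + 1))) := by
    rcases Nat.eq_zero_or_pos (Fintype.card ι) with h0 | h0
    · rw [h0, Nat.cast_zero, zero_mul]
      exact mul_nonneg hZ (Real.exp_pos _).le
    · have hc : (0 : ℝ) < (Fintype.card ι : ℝ) := by exact_mod_cast h0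
      rw [mul_left_comm]
      refine mul_le_mul_of_nonneg_left ?_ hZ
      have hlog : (Fintype.card ι : ℝ) * Real.exp (-(NN d k / (d : ℝ) ^ C)) =
          Real.exp (Real.log (Fintype.card ι : ℝ) + -(NN d k / (d : ℝ) ^ C)) := by
        rw [Real.exp_add, Real.exp_log hc]
      rw [hlog, Real.exp_le_exp]
      have hp : 0 < (d : ℝ) ^ C := pow_pos hd0 _
      have hp1 : 0 < (d : ℝ) ^ (C + 1) := pow_pos hd0 _
      have e1 : NN d k / (d : ℝ) ^ C = d * (NN d k / (d : ℝ) ^ (C + 1)) := by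
        rw [pow_succ]
        field_simp
      have h5 : Real.log (Fintype.card ι) ≤ NN d k / (d : ℝ) ^ (C + 1) := by
        rw [le_div_iff₀ hp1, mul_comm]
        exact hι
      have h6 : 0 ≤ NN d k / (d : ℝ) ^ (C + 1) := div_nonneg hN hp1.le
      rw [e1]
      nlinarith
  unfold Rar
  have hres := hcard.trans (hsum.trans hfin)
  refine le_trans (le_of_eq ?_) hres
  congr 2
  ext f
  simp only [mem_filter]

private theorem T0_union2 {C d k q : ℕ} {P Q : (Site d k → Fin q) → Prop} (hd : 2 ≤ d)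
    (h : Rar C d k q P) (h' : Rar C d k q Q)
    (hN : (d : ℝ) ^ (C + 1) * Real.log 2 ≤ NN d k) :
    Rar (C + 1) d k q fun f => P f ∨ Q f := by
  have h1 : Rar (C + 1) d k q fun f => ∃ i : Bool, (fun b : Bool => if b then P else Q) i f := by
    refine Rar_union hd ?_ ?_
    · intro i
      cases i
      · simpa using h'
      · simpa using h
    · rw [Fintype.card_bool]
      exact_mod_cast hN
  refine h1.mono ?_
  intro f _ hf
  rcases hf with hf | hf
  · exact ⟨true, by simpa using hf⟩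
  · exact ⟨false, by simpa using hf⟩

theorem WOP.mono {ε : ℝ} {P Q : ∀ d k q : ℕ, (Site d k → Fin q) → Prop} (h : WOP ε P)
    (hPQ : EvT ε fun d k q => ∀ f ∈ prps d k q, P d k q f → Q d k q f) : WOP ε Q := by
  obtain ⟨C, hC⟩ := h
  refine ⟨C, (hC.and hPQ).mono ?_⟩
  rintro d k q ⟨h1, h2⟩
  exact h1.mono fun f hf hq hp => hq (h2 f hf hp)

theorem WOP.and {ε : ℝ} {P Q : ∀ d k q : ℕ, (Site d k → Fin q) → Prop} (h : WOP ε P) (h' : WOP ε Q) :
    WOP ε fun d k q f => P d k q f ∧ Q d k q f := by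
  obtain ⟨C, hC⟩ := h
  obtain ⟨C', hC'⟩ := h'
  refine ⟨max C C' + 1, (((hC.and hC').and (EvT_d (eventually_ge_atTop 2))).and
    (EvT_NN fun d _ => (d : ℝ) ^ (max C C' + 1) * Real.log 2)).mono ?_⟩
  rintro d k q ⟨⟨⟨h1, h2⟩, h3⟩, h4⟩
  have h3' : 1 ≤ d := le_trans (by norm_num) h3
  refine (T0_union2 h3 (h1.mono_C h3' (le_max_left C C'))
    (h2.mono_C h3' (le_max_right C C')) h4).mono ?_
  intro f _ hf
  exact not_and_or.mp hf

/-- translation invariance, the vector may depend on `d` and `k` -/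
theorem WOP.transl {ε : ℝ} {P : ∀ d k q : ℕ, (Site d k → Fin q) → Prop} (h : WOP ε P) (τ : ∀ d k : ℕ, Site d k) :
    WOP ε fun d k q f => P d k q fun x => f (x + τ d k) := by
  obtain ⟨C, hC⟩ := h
  refine ⟨C, hC.mono ?_⟩
  intro d k q h1
  exact h1.transl (τ d k)

theorem WOPi.mono {ε : ℝ} {ι : ℕ → ℕ → ℕ → Type} {P Q : ∀ d k q : ℕ, ι d k q → (Site d k → Fin q) → Prop}
    (h : WOPi ε ι P) (hPQ : EvT ε fun d k q => ∀ i, ∀ f ∈ prps d k q, P d k q i f → Q d k q i f) : WOPi ε ι Q := by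
  obtain ⟨C, hC⟩ := h
  refine ⟨C, (hC.and hPQ).mono ?_⟩
  rintro d k q ⟨h1, h2⟩ i
  exact (h1 i).mono fun f hf hq hp => hq (h2 i f hf hp)

theorem WOPi.and {ε : ℝ} {ι : ℕ → ℕ → ℕ → Type} {P Q : ∀ d k q : ℕ, ι d k q → (Site d k → Fin q) → Prop}
    (h : WOPi ε ι P) (h' : WOPi ε ι Q) : WOPi ε ι fun d k q i f => P d k q i f ∧ Q d k q i f := by
  obtain ⟨C, hC⟩ := h
  obtain ⟨C', hC'⟩ := h'
  refine ⟨max C C' + 1, (((hC.and hC').and (EvT_d (eventually_ge_atTop 2))).and
    (EvT_NN fun d _ => (d : ℝ) ^ (max C C' + 1) * Real.log 2)).mono ?_⟩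
  rintro d k q ⟨⟨⟨h1, h2⟩, h3⟩, h4⟩ i
  have h3' : 1 ≤ d := le_trans (by norm_num) h3
  refine (T0_union2 h3 ((h1 i).mono_C h3' (le_max_left C C'))
    ((h2 i).mono_C h3' (le_max_right C C')) h4).mono ?_
  intro f _ hf
  exact not_and_or.mp hf

theorem WOP.toi {ε : ℝ} {P : ∀ d k q : ℕ, (Site d k → Fin q) → Prop} (h : WOP ε P) (ι : ℕ → ℕ → ℕ → Type) :
    WOPi ε ι fun d k q _ f => P d k q f := by
  obtain ⟨C, hC⟩ := h
  exact ⟨C, hC.mono fun d k q h1 _ => h1⟩

/-- change of the parameter -/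
theorem WOPi.comap {ε : ℝ} {ι ι' : ℕ → ℕ → ℕ → Type} {P : ∀ d k q : ℕ, ι d k q → (Site d k → Fin q) → Prop}
    (h : WOPi ε ι P) (g : ∀ d k q, ι' d k q → ι d k q) : WOPi ε ι' fun d k q i f => P d k q (g d k q i) f := by
  obtain ⟨C, hC⟩ := h
  exact ⟨C, hC.mono fun d k q h1 i => h1 (g d k q i)⟩

/-- finitely many parameters -/
theorem WOPi.all {ε : ℝ} {ι : ℕ → ℕ → ℕ → Type} [∀ d k q, Fintype (ι d k q)]
    {P : ∀ d k q : ℕ, ι d k q → (Site d k → Fin q) → Prop} (h : WOPi ε ι P) (F : ℕ → ℕ → ℝ)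
    (hF : ∀ d k q, (Fintype.card (ι d k q) : ℝ) ≤ F d q) : WOP ε fun d k q f => ∀ i, P d k q i f := by
  obtain ⟨C, hC⟩ := h
  refine ⟨C + 1, ((hC.and (EvT_d (eventually_ge_atTop 2))).and
    (EvT_NN fun d q => (d : ℝ) ^ (C + 1) * Real.log (max 1 (F d q)))).mono ?_⟩
  rintro d k q ⟨⟨h1, h2⟩, h3⟩
  have h4 : Rar (C + 1) d k q fun f => ∃ i, ¬ P d k q i f := by
    refine Rar_union h2 h1 (le_trans ?_ h3)
    refine mul_le_mul_of_nonneg_left ?_ (by positivity)
    rcases Nat.eq_zero_or_pos (Fintype.card (ι d k q)) with h0 | h0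
    · rw [h0, Nat.cast_zero, Real.log_zero]
      exact Real.log_nonneg (le_max_left _ _)
    · exact Real.log_le_log (by exact_mod_cast h0) ((hF d k q).trans (le_max_right _ _))
  refine h4.mono ?_
  intro f _ hf
  exact not_forall.mp hf

/-- translation invariance -/
theorem WOPi.transl {ε : ℝ} {ι : ℕ → ℕ → ℕ → Type} {P : ∀ d k q : ℕ, ι d k q → (Site d k → Fin q) → Prop}
    (h : WOPi ε ι P) (τ : ∀ d k q, ι d k q → Site d k) :
    WOPi ε ι fun d k q i f => P d k q i fun x => f (x + τ d k q i) := by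
  obtain ⟨C, hC⟩ := h
  exact ⟨C, hC.mono fun d k q h1 i => (h1 i).transl (τ d k q i)⟩

end Pool.Agent.THR

end
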