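import Pool.Agent.Lib_MP_2c424f_ms.M06
import Pool.Agent.Lib_MP_2c424f_ms.M08
import Pool.Agent.Lib_MP_2c424f_ms.M11
import Pool.Agent.Lib_MP_2c424f_ms.M13
import Pool.Agent.Lib_MP_2c424f_ms.M14
import Pool.Agent.Lib_MP_2c424f_ms.M15
import Pool.Agent.Lib_MP_2c424f_ms.M16
import Pool.Agent.Lib_MP_2c424f_ms.M19

/-!
# MP_2c424f_pr: library of SharpThreshold and BoundaryThreshold (merged): merged library part M20

Concatenation of smaller files (each in its own section), only to save build time.
-/

namespace Pool.Agent.LO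
end Pool.Agent.LO

namespace Pool.Agent.LIN
end Pool.Agent.LIN

/-! ### from `Lib_MP_2c424f_lin.E6b` -/

section

/-!
# H30 E6b: homogeneous plane kernels are foldings

`Zh k (KH K w i j x y) = Zw K (pf i j (stt i j x y 0) (i, true) w)`.
By `Zw_fib` for the labelling `w' = pf ...`, the right side is `Zg k (KH K w') (KV K w')`, and
for a plane position `(x',y')` of the same parity as `(x,y)`: `Ph K w' x' y' = Ph K w x y`, the neighbours have
`Ph K w' = Ph K w (x+1) y`, and both `KH K w' x' y'`, `KV K w' x' y'` are `KH K w x y`; for the other parity they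
are the transpose of `KH K w x y`.  (The parity of `stt x' y' u` is that of `stt x y u` iff `(x',y')` has the parity
of `(x,y)`.)  So it is `Zh k (KH K w x y)` if `x + y` is even and `Zh k` of the transpose if it is odd (`Zh_tr`).
Same for `KV` with the step `(j, true)`.
-/

set_option autoImplicit false

open Finset

namespace Pool.Agent.LIN

open Pool.Agent.LO

variable {d k : ℕ} {S Λ : Type*} [Fintype S]

private theorem E6b_stt_add (i j : Fin d) (x y : ZMod (2 ^ k)) (u : Yf i j k) :
    stt i j x y u.1 = stt i j x y 0 + u.1 := by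
  funext l
  unfold stt
  by_cases hj : l = j
  · subst hj
    simp [u.2.2]
  · by_cases hi : l = i
    · subst hi
      simp [Function.update_of_ne hj, u.2.1]
    · simp [Function.update_of_ne hj, Function.update_of_ne hi]

private theorem E6b_evn0 (i j : Fin d) (hij : i ≠ j) (x y : ZMod (2 ^ k)) :
    evn (stt i j x y (0 : Site d k)) ↔ Even (x.val + y.val) := by
  unfold evn
  have h : ∑ l, (stt i j x y (0 : Site d k) l).val = x.val + y.val := by
    rw [Finset.sum_eq_add i j hij]
    · simp [stt, Function.update_of_ne hij]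
    · rintro l - ⟨h1, h2⟩
      simp [stt, Function.update_of_ne h2, Function.update_of_ne h1]
    · intro h
      exact absurd (mem_univ _) h
    · intro h
      exact absurd (mem_univ _) h
  rw [h]

private theorem E6b_evn (hk : 1 ≤ k) (i j : Fin d) (hij : i ≠ j) (x y : ZMod (2 ^ k)) (u : Yf i j k) :
    evn (stt i j x y u.1) ↔ (Even (x.val + y.val) ↔ evn u.1) := by
  rw [E6b_stt_add, evn_add hk, E6b_evn0 i j hij]

private theorem E6b_step_i (i j : Fin d) (hij : i ≠ j) (x y : ZMod (2 ^ k)) (u : Site d k) :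
    stt i j x y u + sv (i, true) = stt i j (x + 1) y u := by
  funext l
  unfold stt sv
  by_cases hj : l = j
  · subst hj
    simp [hij]
  · by_cases hi : l = i
    · subst hi
      simp [Function.update_of_ne hj]
    · simp [Function.update_of_ne hj, Function.update_of_ne hi, Ne.symm hi, hi]

private theorem E6b_step_j (i j : Fin d) (hij : i ≠ j) (x y : ZMod (2 ^ k)) (u : Site d k) :
    stt i j x y u + sv (j, true) = stt i j x (y + 1) u := by
  funext l
  unfold stt sv
  by_cases hj : l = j
  · subst hj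
    simp
  · by_cases hi : l = i
    · subst hi
      simp [Function.update_of_ne hj, hj]
    · simp [Function.update_of_ne hj, Function.update_of_ne hi, hj]

private theorem E6b_par_i (hk : 1 ≤ k) (i j : Fin d) (hij : i ≠ j) (x y : ZMod (2 ^ k)) :
    Even ((x + 1).val + y.val) ↔ ¬ Even (x.val + y.val) := by
  rw [← E6b_evn0 i j hij, ← E6b_evn0 i j hij, ← E6b_step_i i j hij, evn_step hk]

private theorem E6b_par_j (hk : 1 ≤ k) (i j : Fin d) (hij : i ≠ j) (x y : ZMod (2 ^ k)) :
    Even (x.val + (y + 1).val) ↔ ¬ Even (x.val + y.val) := by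
  rw [← E6b_evn0 i j hij, ← E6b_evn0 i j hij, ← E6b_step_j i j hij, evn_step hk]

private theorem E6b_mrg (i j : Fin d) (hij : i ≠ j) (x y x' y' : ZMod (2 ^ k)) (u : Site d k) :
    mrg i j (stt i j x y 0) (stt i j x' y' u) = stt i j x y u := by
  funext l
  unfold mrg stt
  by_cases hj : l = j
  · subst hj
    simp
  · by_cases hi : l = i
    · subst hi
      simp [Function.update_of_ne hj]
    · simp [Function.update_of_ne hj, Function.update_of_ne hi, hi, hj]

private theorem E6b_si (i j : Fin d) (hij : i ≠ j) (x y : ZMod (2 ^ k)) (u : Site d k) :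
    stt i j x y u i = x := by
  simp [stt, Function.update_of_ne hij]

private theorem E6b_sj (i j : Fin d) (x y : ZMod (2 ^ k)) (u : Site d k) :
    stt i j x y u j = y := by
  simp [stt]

private theorem E6b_lab_pl (w : Site d k → Fin d → Λ) (i j : Fin d) (hij : i ≠ j)
    (x y x' y' : ZMod (2 ^ k)) (s l : Fin d) (hl : l = i ∨ l = j) (u : Site d k) :
    pf i j (stt i j x y 0) (s, true) w (stt i j x' y' u) l = w (stt i j x y u) s := by
  unfold pf
  rw [if_pos hl, E6b_mrg i j hij]
  rfl

private theorem E6b_lab_same (w : Site d k → Fin d → Λ) (i j : Fin d) (hij : i ≠ j)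
    (x y x' y' : ZMod (2 ^ k)) (s l : Fin d) (hl : ¬ (l = i ∨ l = j)) (u : Site d k)
    (he : Even (x'.val + y'.val + x.val + y.val)) :
    pf i j (stt i j x y 0) (s, true) w (stt i j x' y' u) l = w (stt i j x y u) l := by
  unfold pf fol
  rw [if_neg hl, E6b_mrg i j hij, E6b_si i j hij, E6b_sj, E6b_si i j hij, E6b_sj, if_pos he]

private theorem E6b_lab_opp (w : Site d k → Fin d → Λ) (i j : Fin d) (hij : i ≠ j)
    (x y x' y' : ZMod (2 ^ k)) (s l : Fin d) (hl : ¬ (l = i ∨ l = j)) (u : Site d k)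
    (he : ¬ Even (x'.val + y'.val + x.val + y.val)) :
    pf i j (stt i j x y 0) (s, true) w (stt i j x' y' u) l = w (stt i j x y u + sv (s, true)) l := by
  unfold pf fol
  rw [if_neg hl, E6b_mrg i j hij, E6b_si i j hij, E6b_sj, E6b_si i j hij, E6b_sj, if_neg he]

private theorem E6b_KO (K : S → S → ℝ) (x y : Site d k) (h : evn x ↔ evn y) : KO K x = KO K y := by
  unfold KO
  by_cases hy : evn y
  · rw [if_pos hy, if_pos (h.2 hy)]
  · rw [if_neg hy, if_neg fun hx => hy (h.1 hx)]

private theorem E6b_KO' (K : S → S → ℝ) (x y : Site d k) (h : evn x ↔ ¬ evn y) (a b : S) :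
    KO K x a b = KO K y b a := by
  unfold KO
  by_cases hy : evn y
  · rw [if_pos hy, if_neg fun hx => (h.1 hx) hy]
  · rw [if_neg hy, if_pos (h.2 hy)]

private theorem E6b_Ph_same (hk : 1 ≤ k) (K : Λ → S → S → ℝ) (w : Site d k → Fin d → Λ)
    (i j : Fin d) (hij : i ≠ j) (x y x' y' : ZMod (2 ^ k)) (s : Fin d)
    (he : Even (x'.val + y'.val) ↔ Even (x.val + y.val)) (a : Yf i j k → S) :
    Ph K (pf i j (stt i j x y 0) (s, true) w) i j x' y' a = Ph K w i j x y a := by
  unfold Ph
  refine prod_congr rfl fun u _ => prod_congr rfl fun l hl => ?_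
  have hl' : ¬ (l = i ∨ l = j) := by
    rw [mem_filter] at hl
    rintro (h | h)
    · exact hl.2.1 h
    · exact hl.2.2 h
  have he' : Even (x'.val + y'.val + x.val + y.val) := by
    rw [add_assoc, Nat.even_add]
    exact he
  rw [E6b_lab_same w i j hij x y x' y' s l hl' u.1 he',
    E6b_KO _ (stt i j x' y' u.1) (stt i j x y u.1) (by
      rw [E6b_evn hk i j hij, E6b_evn hk i j hij, he])]

private theorem E6b_Ph_opp (hk : 1 ≤ k) (K : Λ → S → S → ℝ) (w : Site d k → Fin d → Λ)
    (i j : Fin d) (hij : i ≠ j) (x y x1 y1 x' y' : ZMod (2 ^ k)) (s : Fin d)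
    (h1 : ∀ u : Site d k, stt i j x y u + sv (s, true) = stt i j x1 y1 u)
    (he : Even (x'.val + y'.val) ↔ ¬ Even (x.val + y.val)) (a : Yf i j k → S) :
    Ph K (pf i j (stt i j x y 0) (s, true) w) i j x' y' a = Ph K w i j x1 y1 a := by
  unfold Ph
  refine prod_congr rfl fun u _ => prod_congr rfl fun l hl => ?_
  have hl' : ¬ (l = i ∨ l = j) := by
    rw [mem_filter] at hl
    rintro (h | h)
    · exact hl.2.1 h
    · exact hl.2.2 h
  have he' : ¬ Even (x'.val + y'.val + x.val + y.val) := by
    rw [add_assoc, Nat.even_add, he]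
    tauto
  rw [E6b_lab_opp w i j hij x y x' y' s l hl' u.1 he', h1,
    E6b_KO _ (stt i j x' y' u.1) (stt i j x1 y1 u.1) (by
      rw [← h1, evn_step hk, E6b_evn hk i j hij, E6b_evn hk i j hij, he]
      tauto)]

private noncomputable def E6b_L (K : Λ → S → S → ℝ) (w : Site d k → Fin d → Λ) (i j : Fin d)
    (x y x1 y1 : ZMod (2 ^ k)) (s : Fin d) (a b : Yf i j k → S) : ℝ :=
  Ph K w i j x y a ^ (1 / 4 : ℝ) * Ph K w i j x1 y1 b ^ (1 / 4 : ℝ) *
    ∏ u : Yf i j k, KO (K (w (stt i j x y u.1) s)) (stt i j x y u.1) (a u) (b u)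

private theorem E6b_edge_same (hk : 1 ≤ k) (K : Λ → S → S → ℝ) (w : Site d k → Fin d → Λ)
    (i j : Fin d) (hij : i ≠ j) (x y x1 y1 x' y' x2 y2 : ZMod (2 ^ k)) (s l : Fin d)
    (hl : l = i ∨ l = j)
    (h1 : ∀ u : Site d k, stt i j x y u + sv (s, true) = stt i j x1 y1 u)
    (h2 : Even (x2.val + y2.val) ↔ ¬ Even (x'.val + y'.val))
    (he : Even (x'.val + y'.val) ↔ Even (x.val + y.val)) :
    E6b_L K (pf i j (stt i j x y 0) (s, true) w) i j x' y' x2 y2 l = E6b_L K w i j x y x1 y1 s := by
  funext a b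
  unfold E6b_L
  rw [E6b_Ph_same hk K w i j hij x y x' y' s he,
    E6b_Ph_opp hk K w i j hij x y x1 y1 x2 y2 s h1 (by rw [h2, he])]
  congr 1
  refine prod_congr rfl fun u _ => ?_
  rw [E6b_lab_pl w i j hij x y x' y' s l hl,
    E6b_KO _ (stt i j x' y' u.1) (stt i j x y u.1) (by
      rw [E6b_evn hk i j hij, E6b_evn hk i j hij, he])]

private theorem E6b_edge_opp (hk : 1 ≤ k) (K : Λ → S → S → ℝ) (w : Site d k → Fin d → Λ)
    (i j : Fin d) (hij : i ≠ j) (x y x1 y1 x' y' x2 y2 : ZMod (2 ^ k)) (s l : Fin d)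
    (hl : l = i ∨ l = j)
    (h1 : ∀ u : Site d k, stt i j x y u + sv (s, true) = stt i j x1 y1 u)
    (h2 : Even (x2.val + y2.val) ↔ ¬ Even (x'.val + y'.val))
    (he : Even (x'.val + y'.val) ↔ ¬ Even (x.val + y.val)) :
    E6b_L K (pf i j (stt i j x y 0) (s, true) w) i j x' y' x2 y2 l =
      fun a b => E6b_L K w i j x y x1 y1 s b a := by
  funext a b
  unfold E6b_L
  rw [E6b_Ph_opp hk K w i j hij x y x1 y1 x' y' s h1 he,
    E6b_Ph_same hk K w i j hij x y x2 y2 s (by rw [h2, he, not_not])]
  rw [mul_comm (Ph K w i j x1 y1 a ^ (1 / 4 : ℝ))]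
  congr 1
  refine prod_congr rfl fun u _ => ?_
  rw [E6b_lab_pl w i j hij x y x' y' s l hl,
    E6b_KO' _ (stt i j x' y' u.1) (stt i j x y u.1) (by
      rw [E6b_evn hk i j hij, E6b_evn hk i j hij, he]
      tauto)]

private theorem E6b_KH_eq (K : Λ → S → S → ℝ) (w : Site d k → Fin d → Λ) (i j : Fin d)
    (x y : ZMod (2 ^ k)) : KH K w i j x y = E6b_L K w i j x y (x + 1) y i := rfl

private theorem E6b_KV_eq (K : Λ → S → S → ℝ) (w : Site d k → Fin d → Λ) (i j : Fin d)
    (x y : ZMod (2 ^ k)) : KV K w i j x y = E6b_L K w i j x y x (y + 1) j := rfl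

private theorem E6b_main (hk : 1 ≤ k) (K : Λ → S → S → ℝ) (hK : ∀ l a b, 0 ≤ K l a b)
    (w : Site d k → Fin d → Λ) (i j : Fin d) (hij : i ≠ j) (x y x1 y1 : ZMod (2 ^ k)) (s : Fin d)
    (h1 : ∀ u : Site d k, stt i j x y u + sv (s, true) = stt i j x1 y1 u) :
    Zh k (E6b_L K w i j x y x1 y1 s) = Zw K (pf i j (stt i j x y 0) (s, true) w) := by
  rw [Zw_fib K hK _ i j hij]
  by_cases hxy : Even (x.val + y.val)
  · have hH : KH K (pf i j (stt i j x y 0) (s, true) w) i j = ori k (E6b_L K w i j x y x1 y1 s) := by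
      funext x' y'
      rw [E6b_KH_eq]
      unfold ori
      by_cases he : Even (x'.val + y'.val)
      · rw [if_pos he]
        exact E6b_edge_same hk K w i j hij x y x1 y1 x' y' (x' + 1) y' s i (Or.inl rfl) h1
          (E6b_par_i hk i j hij x' y') (by tauto)
      · rw [if_neg he]
        exact E6b_edge_opp hk K w i j hij x y x1 y1 x' y' (x' + 1) y' s i (Or.inl rfl) h1
          (E6b_par_i hk i j hij x' y') (by tauto)
    have hV : KV K (pf i j (stt i j x y 0) (s, true) w) i j = ori k (E6b_L K w i j x y x1 y1 s) := by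
      funext x' y'
      rw [E6b_KV_eq]
      unfold ori
      by_cases he : Even (x'.val + y'.val)
      · rw [if_pos he]
        exact E6b_edge_same hk K w i j hij x y x1 y1 x' y' x' (y' + 1) s j (Or.inr rfl) h1
          (E6b_par_j hk i j hij x' y') (by tauto)
      · rw [if_neg he]
        exact E6b_edge_opp hk K w i j hij x y x1 y1 x' y' x' (y' + 1) s j (Or.inr rfl) h1
          (E6b_par_j hk i j hij x' y') (by tauto)
    rw [hH, hV]
    rfl
  · have hH : KH K (pf i j (stt i j x y 0) (s, true) w) i j =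
        ori k (fun a b => E6b_L K w i j x y x1 y1 s b a) := by
      funext x' y'
      rw [E6b_KH_eq]
      unfold ori
      by_cases he : Even (x'.val + y'.val)
      · rw [if_pos he]
        exact E6b_edge_opp hk K w i j hij x y x1 y1 x' y' (x' + 1) y' s i (Or.inl rfl) h1
          (E6b_par_i hk i j hij x' y') (by tauto)
      · rw [if_neg he]
        exact E6b_edge_same hk K w i j hij x y x1 y1 x' y' (x' + 1) y' s i (Or.inl rfl) h1
          (E6b_par_i hk i j hij x' y') (by tauto)
    have hV : KV K (pf i j (stt i j x y 0) (s, true) w) i j =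
        ori k (fun a b => E6b_L K w i j x y x1 y1 s b a) := by
      funext x' y'
      rw [E6b_KV_eq]
      unfold ori
      by_cases he : Even (x'.val + y'.val)
      · rw [if_pos he]
        exact E6b_edge_opp hk K w i j hij x y x1 y1 x' y' x' (y' + 1) s j (Or.inr rfl) h1
          (E6b_par_j hk i j hij x' y') (by tauto)
      · rw [if_neg he]
        exact E6b_edge_same hk K w i j hij x y x1 y1 x' y' x' (y' + 1) s j (Or.inr rfl) h1
          (E6b_par_j hk i j hij x' y') (by tauto)
    rw [hH, hV]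
    exact (Zh_tr k hk (E6b_L K w i j x y x1 y1 s)).symm

theorem Zh_KH (hk : 1 ≤ k) (K : Λ → S → S → ℝ) (hK : ∀ l a b, 0 ≤ K l a b) (w : Site d k → Fin d → Λ)
    (i j : Fin d) (hij : i ≠ j) (x y : ZMod (2 ^ k)) :
    Zh k (KH K w i j x y) = Zw K (pf i j (stt i j x y 0) (i, true) w) := by
  rw [E6b_KH_eq]
  exact E6b_main hk K hK w i j hij x y (x + 1) y i (E6b_step_i i j hij x y)

theorem Zh_KV (hk : 1 ≤ k) (K : Λ → S → S → ℝ) (hK : ∀ l a b, 0 ≤ K l a b) (w : Site d k → Fin d → Λ)
    (i j : Fin d) (hij : i ≠ j) (x y : ZMod (2 ^ k)) :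
    Zh k (KV K w i j x y) = Zw K (pf i j (stt i j x y 0) (j, true) w) := by
  rw [E6b_KV_eq]
  exact E6b_main hk K hK w i j hij x y x (y + 1) j (E6b_step_j i j hij x y)

end Pool.Agent.LIN

end

/-! ### from `Lib_MP_2c424f_lin.E6c` -/

section

/-!
# H30 E6c: the folding inequality

`two_dim` with `Zw_fib`, `Zh_KH`, `Zh_KV`; `|Yf → S| = |S|^(card Yf)`, `m² card Yf = N`; logarithm (all `Zw > 0`: the
configuration `a0` on the even, `b0` on the odd sites).  `pf i j p σ w` depends on `p i`, `p j` only (sum over `p`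
= `card Yf *` sum over `(x,y)`), and `pf i j p (i, false) w = pf i j (p + sv (i, false)) (i, true) w`.
`(1/(2m²)) ∑_{x,y} (log Zh KH + log Zh KV) = (1/(4N)) ∑_p ∑_{σ ∈ pl i j} log Zw (pf i j p σ w)`;
error `(m/2) card Yf log |S| = N log|S| / (2m)`.
-/

set_option autoImplicit false

open Finset

namespace Pool.Agent.LIN

open Pool.Agent.LO

variable {d k : ℕ} {S Λ : Type*} [Fintype S]

theorem Zw_pos (K : Λ → S → S → ℝ) (hK : ∀ l a b, 0 ≤ K l a b) (a0 b0 : S) (hp : ∀ l, 0 < K l a0 b0)
    (hk : 1 ≤ k) (w : Site d k → Fin d → Λ) : 0 < Zw K w := by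
  classical
  unfold Zw
  refine Finset.sum_pos' (fun f _ => prod_nonneg fun x _ => prod_nonneg fun i _ => hK _ _ _)
    ⟨fun x => if evn x then a0 else b0, mem_univ _, ?_⟩
  refine prod_pos fun x _ => prod_pos fun i _ => ?_
  have hs := evn_step hk x (i, true)
  have e1 : eE (fun x : Site d k => if evn x then a0 else b0) x i = a0 := by
    unfold eE
    by_cases hx : evn x
    · simp [hx]
    · simp only [hx, if_false]
      rw [if_pos (hs.2 hx)]
  have e2 : eO (fun x : Site d k => if evn x then a0 else b0) x i = b0 := by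
    unfold eO
    by_cases hx : evn x
    · simp only [hx, if_true]
      rw [if_neg (fun h => hs.1 h hx)]
    · simp [hx]
  rw [e1, e2]
  exact hp _

/-- only the coordinates `i j` of `p` matter -/
private theorem E6c_pf_congr (w : Site d k → Fin d → Λ) (i j : Fin d) (p p' : Site d k) (σ : Stp d)
    (hi : p i = p' i) (hj : p j = p' j) : pf i j p σ w = pf i j p' σ w := by
  have hm : ∀ x : Site d k, mrg i j p x = mrg i j p' x := by
    intro x
    funext l
    unfold mrg
    by_cases h : l = i ∨ l = j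
    · rw [if_pos h, if_pos h]
      rcases h with h | h
      · rw [h, hi]
      · rw [h, hj]
    · rw [if_neg h, if_neg h]
  funext x l
  unfold pf fol
  rw [hm, hi, hj]

private theorem E6c_mrg_add (i j l : Fin d) (hl : l = i ∨ l = j) (p x : Site d k) (b : Bool) :
    mrg i j (p + sv (l, b)) x = mrg i j p x + sv (l, b) := by
  funext t
  rw [Pi.add_apply]
  unfold mrg
  by_cases h : t = i ∨ t = j
  · rw [if_pos h, if_pos h, Pi.add_apply]
  · rw [if_neg h, if_neg h]
    have ht : t ≠ l := by
      rintro rfl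
      exact h hl
    simp only [sv]
    rw [Pi.single_eq_of_ne ht, add_zero]

private theorem E6c_val_par (hk : 1 ≤ k) (a : ZMod (2 ^ k)) : Even (a + -1).val ↔ ¬ Even a.val := by
  have h2 : (2 : ℕ) ∣ 2 ^ k := dvd_pow_self 2 (by omega : k ≠ 0)
  let φ : ZMod (2 ^ k) →+* ZMod 2 := ZMod.castHom h2 (ZMod 2)
  have h : ∀ c : ZMod (2 ^ k), Even c.val ↔ φ c = 0 := by
    intro c
    rw [← ZMod.natCast_eq_zero_iff_even]
    have h := map_natCast φ c.val
    rw [ZMod.natCast_zmod_val] at h
    rw [h]
  rw [h, h, map_add, map_neg, map_one]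
  generalize φ a = c
  revert c
  decide

private theorem E6c_pf_false (hk : 1 ≤ k) (w : Site d k → Fin d → Λ) (i j l : Fin d) (hij : i ≠ j)
    (hl : l = i ∨ l = j) (p : Site d k) :
    pf i j p (l, false) w = pf i j (p + sv (l, false)) (l, true) w := by
  funext x t
  unfold pf
  by_cases h : t = i ∨ t = j
  · rw [if_pos h, if_pos h]
    unfold WL
    simp only [Bool.false_eq_true, if_false, if_true]
    rw [E6c_mrg_add i j l hl]
  · rw [if_neg h, if_neg h]
    have key : fol i j p (l, false) x = fol i j (p + sv (l, false)) (l, true) x := by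
      unfold fol
      rw [E6c_mrg_add i j l hl]
      have hback : mrg i j p x + sv (l, false) + sv (l, true) = mrg i j p x := by
        have h0 : (sv (l, false) : Site d k) + sv (l, true) = 0 := sv_opp l false
        rw [add_assoc, h0, add_zero]
      rw [hback]
      have hpar : Even ((x i).val + (x j).val + ((p + (sv (l, false) : Site d k)) i).val +
          ((p + (sv (l, false) : Site d k)) j).val) ↔
          ¬ Even ((x i).val + (x j).val + (p i).val + (p j).val) := by
        rcases hl with hl | hl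
        · subst hl
          have e1 : (p + (sv (l, false) : Site d k)) l = p l + -1 := by
            rw [Pi.add_apply]
            simp [sv]
          have e2 : (p + (sv (l, false) : Site d k)) j = p j := by
            rw [Pi.add_apply]
            simp only [sv]
            rw [Pi.single_eq_of_ne hij.symm, add_zero]
          rw [e1, e2]
          have := E6c_val_par hk (p l)
          simp only [Nat.even_add] at *
          tauto
        · subst hl
          have e1 : (p + (sv (l, false) : Site d k)) l = p l + -1 := by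
            rw [Pi.add_apply]
            simp [sv]
          have e2 : (p + (sv (l, false) : Site d k)) i = p i := by
            rw [Pi.add_apply]
            simp only [sv]
            rw [Pi.single_eq_of_ne hij, add_zero]
          rw [e1, e2]
          have := E6c_val_par hk (p l)
          simp only [Nat.even_add] at *
          tauto
      by_cases hp : Even ((x i).val + (x j).val + (p i).val + (p j).val)
      · rw [if_pos hp, if_neg (fun hh => hpar.1 hh hp)]
      · rw [if_neg hp, if_pos (hpar.2 hp)]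
    rw [key]

/-- sums over the plane -/
private theorem E6c_sum (i j : Fin d) (hij : i ≠ j) (F : ZMod (2 ^ k) → ZMod (2 ^ k) → ℝ) :
    ((2 : ℝ) ^ k) ^ 2 * ∑ p : Site d k, F (p i) (p j) = NN d k * ∑ x, ∑ y, F x y := by
  have h1 : ∀ x y : ZMod (2 ^ k), ∑ p : Site d k, F (p i + x) (p j + y) = ∑ p : Site d k, F (p i) (p j) := by
    intro x y
    have := Equiv.sum_comp (Equiv.addRight (Pi.single i x + Pi.single j y : Site d k))
      (fun p : Site d k => F (p i) (p j))
    rw [← this]
    refine sum_congr rfl fun p _ => ?_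
    simp only [Equiv.coe_addRight, Pi.add_apply, Pi.single_eq_same]
    rw [Pi.single_eq_of_ne hij, Pi.single_eq_of_ne hij.symm, add_zero, zero_add]
  have h2 : ∀ p : Site d k, ∑ x, ∑ y, F (p i + x) (p j + y) = ∑ x, ∑ y, F x y := by
    intro p
    have e1 := Equiv.sum_comp (Equiv.addLeft (p i)) (fun x => ∑ y, F x (p j + y))
    simp only [Equiv.coe_addLeft] at e1
    rw [e1]
    refine sum_congr rfl fun x _ => ?_
    have e2 := Equiv.sum_comp (Equiv.addLeft (p j)) (fun y => F x y)
    simpa only [Equiv.coe_addLeft] using e2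
  have h3 : ∑ x : ZMod (2 ^ k), ∑ y : ZMod (2 ^ k), ∑ p : Site d k, F (p i + x) (p j + y) =
      ∑ p : Site d k, ∑ x, ∑ y, F (p i + x) (p j + y) := by
    have e1 : ∀ x : ZMod (2 ^ k), ∑ y : ZMod (2 ^ k), ∑ p : Site d k, F (p i + x) (p j + y) =
        ∑ p : Site d k, ∑ y : ZMod (2 ^ k), F (p i + x) (p j + y) := fun x => sum_comm
    rw [sum_congr rfl fun x _ => e1 x]
    exact sum_comm
  simp_rw [h1, h2] at h3
  rw [sum_const, sum_const, sum_const, card_univ, card_univ, ZMod.card, nsmul_eq_mul, nsmul_eq_mul,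
    nsmul_eq_mul, card_site] at h3
  push_cast at h3
  linarith

theorem pf_ineq (hk : 2 ≤ k) (K : Λ → S → S → ℝ) (hK : ∀ l a b, 0 ≤ K l a b) (a0 b0 : S)
    (hp : ∀ l, 0 < K l a0 b0) (w : Site d k → Fin d → Λ) (i j : Fin d) (hij : i ≠ j) :
    Real.log (Zw K w) ≤ (∑ p, ∑ σ ∈ pl i j, Real.log (Zw K (pf i j p σ w))) / (4 * NN d k) +
      NN d k * Real.log (Fintype.card S) / (2 * 2 ^ k) := by
  classical
  have hk1 : 1 ≤ k := by omega
  have hpos : ∀ w : Site d k → Fin d → Λ, 0 < Zw K w := Zw_pos K hK a0 b0 hp hk1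
  have hN : 0 < NN d k := by unfold NN; positivity
  have hm : (0 : ℝ) < 2 ^ k := by positivity
  have _ : Nonempty S := ⟨a0⟩
  -- nonnegativity of the fat kernels
  have hPh : ∀ x y a, 0 ≤ Ph K w i j x y a := by
    intro x y a
    unfold Ph
    refine prod_nonneg fun u _ => prod_nonneg fun l _ => ?_
    unfold KO
    split_ifs
    · exact hK _ _ _
    · exact hK _ _ _
  have hKO : ∀ (l : Λ) (x : Site d k) (a b : S), 0 ≤ KO (K l) x a b := by
    intro l x a b
    unfold KO
    split_ifs
    · exact hK _ _ _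
    · exact hK _ _ _
  have h1 : ∀ x y a b, 0 ≤ KH K w i j x y a b := by
    intro x y a b
    unfold KH
    exact mul_nonneg (mul_nonneg (Real.rpow_nonneg (hPh _ _ _) _) (Real.rpow_nonneg (hPh _ _ _) _))
      (prod_nonneg fun u _ => hKO _ _ _ _)
  have h2 : ∀ x y a b, 0 ≤ KV K w i j x y a b := by
    intro x y a b
    unfold KV
    exact mul_nonneg (mul_nonneg (Real.rpow_nonneg (hPh _ _ _) _) (Real.rpow_nonneg (hPh _ _ _) _))
      (prod_nonneg fun u _ => hKO _ _ _ _)
  have h3 := two_dim k hk1 (KH K w i j) (KV K w i j) h1 h2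
  rw [← Zw_fib K hK w i j hij] at h3
  simp_rw [Zh_KH hk1 K hK w i j hij, Zh_KV hk1 K hK w i j hij] at h3
  -- logarithms
  set A : ZMod (2 ^ k) → ZMod (2 ^ k) → ℝ := fun x y => Zw K (pf i j (stt i j x y 0) (i, true) w) with hA
  set B : ZMod (2 ^ k) → ZMod (2 ^ k) → ℝ := fun x y => Zw K (pf i j (stt i j x y 0) (j, true) w) with hB
  have hApos : ∀ x y, 0 < A x y := fun x y => hpos _
  have hBpos : ∀ x y, 0 < B x y := fun x y => hpos _
  have hXpos : (0 : ℝ) < Fintype.card (Yf i j k → S) := by
    exact_mod_cast Fintype.card_pos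
  have hprod : 0 < ∏ x, ∏ y, A x y * B x y :=
    prod_pos fun x _ => prod_pos fun y _ => mul_pos (hApos x y) (hBpos x y)
  have h4 := Real.log_le_log (pow_pos (hpos w) _) h3
  rw [Real.log_pow, Real.log_mul (pow_pos hXpos _).ne' hprod.ne', Real.log_pow] at h4
  have h5 : Real.log (∏ x, ∏ y, A x y * B x y) = ∑ x, ∑ y, (Real.log (A x y) + Real.log (B x y)) := by
    rw [Real.log_prod (fun x _ => (prod_pos fun y _ => mul_pos (hApos x y) (hBpos x y)).ne')]
    refine sum_congr rfl fun x _ => ?_
    rw [Real.log_prod (fun y _ => (mul_pos (hApos x y) (hBpos x y)).ne')]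
    refine sum_congr rfl fun y _ => ?_
    rw [Real.log_mul (hApos x y).ne' (hBpos x y).ne']
  have h6 : Real.log (Fintype.card (Yf i j k → S) : ℝ) =
      (Fintype.card (Yf i j k) : ℝ) * Real.log (Fintype.card S) := by
    rw [Fintype.card_fun]
    push_cast
    rw [Real.log_pow]
  have h7 := card_Yf (k := k) i j hij
  rw [h5, h6] at h4
  push_cast at h4
  -- sum over `p`
  have h8 : ∑ p : Site d k, ∑ σ ∈ pl i j, Real.log (Zw K (pf i j p σ w)) =
      2 * ∑ p : Site d k, (Real.log (A (p i) (p j)) + Real.log (B (p i) (p j))) := by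
    have e0 : pl i j = ({(i, true), (i, false), (j, true), (j, false)} : Finset (Stp d)) := by
      ext ⟨l, b⟩
      simp only [pl, mem_filter, mem_univ, true_and, mem_insert, mem_singleton, Prod.mk.injEq]
      cases b <;> simp
    have e1 : ∀ p : Site d k, ∑ σ ∈ pl i j, Real.log (Zw K (pf i j p σ w)) =
        Real.log (Zw K (pf i j p (i, true) w)) + Real.log (Zw K (pf i j p (i, false) w)) +
        (Real.log (Zw K (pf i j p (j, true) w)) + Real.log (Zw K (pf i j p (j, false) w))) := by
      intro p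
      rw [e0, sum_insert (by simp [hij]), sum_insert (by simp [hij]), sum_insert (by simp),
        sum_singleton]
      ring
    have e2 : ∀ l : Fin d, (l = i ∨ l = j) → ∑ p : Site d k, Real.log (Zw K (pf i j p (l, false) w)) =
        ∑ p : Site d k, Real.log (Zw K (pf i j p (l, true) w)) := by
      intro l hl
      have := Equiv.sum_comp (Equiv.addRight (sv (l, false) : Site d k))
        (fun p : Site d k => Real.log (Zw K (pf i j p (l, true) w)))
      rw [← this]
      refine sum_congr rfl fun p _ => ?_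
      rw [E6c_pf_false hk1 w i j l hij hl]
      rfl
    have e3 : ∀ (l : Fin d) (p : Site d k), Real.log (Zw K (pf i j p (l, true) w)) =
        Real.log (Zw K (pf i j (stt i j (p i) (p j) 0) (l, true) w)) := by
      intro l p
      rw [E6c_pf_congr w i j p (stt i j (p i) (p j) 0) (l, true)]
      · unfold stt
        rw [Function.update_of_ne hij, Function.update_self]
      · unfold stt
        rw [Function.update_self]
    simp_rw [e1]
    rw [sum_add_distrib, sum_add_distrib, sum_add_distrib, e2 i (Or.inl rfl), e2 j (Or.inr rfl),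
      sum_add_distrib]
    have f1 : ∑ p : Site d k, Real.log (Zw K (pf i j p (i, true) w)) =
        ∑ p : Site d k, Real.log (A (p i) (p j)) := sum_congr rfl fun p _ => e3 i p
    have f2 : ∑ p : Site d k, Real.log (Zw K (pf i j p (j, true) w)) =
        ∑ p : Site d k, Real.log (B (p i) (p j)) := sum_congr rfl fun p _ => e3 j p
    rw [f1, f2]
    ring
  have h9 := E6c_sum (d := d) (k := k) i j hij (fun x y => Real.log (A x y) + Real.log (B x y))
  rw [h8]
  set T : ℝ := ∑ p : Site d k, (Real.log (A (p i) (p j)) + Real.log (B (p i) (p j))) with hT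
  set U : ℝ := ∑ x, ∑ y, (Real.log (A x y) + Real.log (B x y)) with hU
  set Y : ℝ := (Fintype.card (Yf i j k) : ℝ) with hY
  set L : ℝ := Real.log (Fintype.card S) with hL
  have hUT : U = ((2 : ℝ) ^ k) ^ 2 * T / NN d k := by
    rw [eq_div_iff hN.ne']
    linarith
  have h10 : 2 * ((2 : ℝ) ^ k) ^ 2 * Real.log (Zw K w) ≤ ((2 : ℝ) ^ k) ^ 3 * (Y * L) + U := h4
  have h11 : Real.log (Zw K w) ≤ (((2 : ℝ) ^ k) ^ 3 * (Y * L) + U) / (2 * ((2 : ℝ) ^ k) ^ 2) := by
    rw [le_div_iff₀ (by positivity)]
    linarith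
  refine h11.trans (le_of_eq ?_)
  rw [hUT, ← h7]
  have hYpos : 0 < Y := by
    have : 0 < ((2 : ℝ) ^ k) ^ 2 * Y := by rw [h7]; exact hN
    exact (mul_pos_iff_of_pos_left (by positivity)).1 this
  field_simp
  ring

end Pool.Agent.LIN

end

/-! ### from `Lib_MP_2c424f_lin.E9` -/

section

/-!
# H30 E9: the edge chessboard inequality

`F w = log Zw K w - (∑_x ∑_l log Zw K (const (w x l))) / (d N)`, `ε' = N log|S| / (2·2^k)`.
`pf_ineq` and `pf_mean`: `F w ≤ (1/4N) ∑_p ∑_{σ ∈ pl i j} F (pf i j p σ w) + ε'`.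
(1) periodisation: if `F ≤ C` on `perD (insert j I)` then `F ≤ C + ε'` on `perD I` (`pf_per`, any `i ≠ j`); so it is enough
    to treat `perD univ` (cost `d ε'`).
(2) `potential` with `P = perD univ`, `D = dis`, `g = N/2^d`, index type `Site d k × {σ // σ ∈ pl i j}`
    (`card = 4N`): `F w ≤ ε' 2^d/N · dis w ≤ 4 d² 2^d ε'`.  `D w = 0`: `w` is constant (`dis_zero`), `F w = 0`.
-/

set_option autoImplicit false

open Finset

namespace Pool.Agent.LIN

open Pool.Agent.LO

variable {d k : ℕ} {S Λ : Type*} [Fintype S] [Fintype Λ]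

private noncomputable def E9_F (K : Λ → S → S → ℝ) (w : Site d k → Fin d → Λ) : ℝ :=
  Real.log (Zw K w) -
    (∑ x, ∑ l, Real.log (Zw K fun (_ : Site d k) (_ : Fin d) => w x l)) / (d * NN d k)

private theorem E9_pl (i j : Fin d) (hij : i ≠ j) : (pl i j).card = 4 := by
  classical
  have h : pl i j = ({i, j} : Finset (Fin d)) ×ˢ (univ : Finset Bool) := by
    ext σ
    simp [pl]
  rw [h, Finset.card_product, Finset.card_pair hij]
  rfl

private theorem E9_NN (d k : ℕ) : 0 < NN d k := by
  unfold NN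
  positivity

omit [Fintype Λ] in
private theorem E9_step (hd : 2 ≤ d) (hk : 2 ≤ k) (K : Λ → S → S → ℝ)
    (hK : ∀ l a b, 0 ≤ K l a b) (a0 b0 : S) (hp : ∀ l, 0 < K l a0 b0)
    (w : Site d k → Fin d → Λ) (i j : Fin d) (hij : i ≠ j) :
    E9_F K w ≤ (∑ p, ∑ σ ∈ pl i j, E9_F K (pf i j p σ w)) / (4 * NN d k) +
      NN d k * Real.log (Fintype.card S) / (2 * 2 ^ k) := by
  have hN := E9_NN d k
  have hd0 : (0 : ℝ) < d := by
    have : (2 : ℝ) ≤ d := by exact_mod_cast hd
    linarith
  have h1 := pf_ineq hk K hK a0 b0 hp w i j hij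
  have h2 := pf_mean (by omega) i j hij w
    (fun a => Real.log (Zw K fun (_ : Site d k) (_ : Fin d) => a))
  have h3 : ∑ p, ∑ σ ∈ pl i j, E9_F K (pf i j p σ w) =
      (∑ p, ∑ σ ∈ pl i j, Real.log (Zw K (pf i j p σ w))) -
        (∑ p, ∑ σ ∈ pl i j, ∑ x, ∑ l, Real.log
          (Zw K fun (_ : Site d k) (_ : Fin d) => pf i j p σ w x l)) / (d * NN d k) := by
    simp only [E9_F, Finset.sum_sub_distrib, Finset.sum_div]
  rw [h2] at h3
  rw [h3, sub_div]
  have h4 : 4 * NN d k * (∑ x, ∑ l, Real.log (Zw K fun (_ : Site d k) (_ : Fin d) => w x l)) /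
      (d * NN d k) / (4 * NN d k) =
      (∑ x, ∑ l, Real.log (Zw K fun (_ : Site d k) (_ : Fin d) => w x l)) / (d * NN d k) := by
    field_simp
  rw [h4]
  unfold E9_F
  linarith

omit [Fintype Λ] in
private theorem E9_avg (K : Λ → S → S → ℝ) (w : Site d k → Fin d → Λ) (i j : Fin d) (hij : i ≠ j)
    (C : ℝ) (hC : ∀ p, ∀ σ ∈ pl i j, E9_F K (pf i j p σ w) ≤ C) :
    (∑ p, ∑ σ ∈ pl i j, E9_F K (pf i j p σ w)) / (4 * NN d k) ≤ C := by
  have hN := E9_NN d k
  rw [div_le_iff₀ (by positivity)]
  calc ∑ p, ∑ σ ∈ pl i j, E9_F K (pf i j p σ w) ≤ ∑ _p : Site d k, ∑ _σ ∈ pl i j, C :=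
        Finset.sum_le_sum fun p _ => Finset.sum_le_sum fun σ hσ => hC p σ hσ
    _ = C * (4 * NN d k) := by
      simp only [Finset.sum_const, E9_pl i j hij, card_univ, nsmul_eq_mul]
      rw [card_site]
      push_cast
      ring

omit [Fintype Λ] in
private theorem E9_per (hd : 2 ≤ d) (hk : 2 ≤ k) (K : Λ → S → S → ℝ)
    (hK : ∀ l a b, 0 ≤ K l a b) (a0 b0 : S) (hp : ∀ l, 0 < K l a0 b0) (C : ℝ)
    (hC : ∀ w : Site d k → Fin d → Λ, perD univ w → E9_F K w ≤ C) (n : ℕ) :
    ∀ I : Finset (Fin d), d ≤ I.card + n → ∀ w : Site d k → Fin d → Λ, perD I w →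
      E9_F K w ≤ C + n * (NN d k * Real.log (Fintype.card S) / (2 * 2 ^ k)) := by
  classical
  have hN := E9_NN d k
  have he : 0 ≤ NN d k * Real.log (Fintype.card S) / (2 * 2 ^ k) := by
    have := Real.log_natCast_nonneg (Fintype.card S)
    positivity
  induction n with
  | zero =>
    intro I hI w hw
    have h1 : I = univ := by
      rw [← Finset.card_eq_iff_eq_univ, Fintype.card_fin]
      have h2 := Finset.card_le_univ I
      rw [Fintype.card_fin] at h2
      omega
    rw [h1] at hw
    have h2 := hC w hw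
    rw [Nat.cast_zero, zero_mul, add_zero]
    exact h2
  | succ n ih =>
    intro I hI w hw
    by_cases h1 : I = univ
    · rw [h1] at hw
      have h2 := hC w hw
      have h3 : 0 ≤ ((n + 1 : ℕ) : ℝ) *
          (NN d k * Real.log (Fintype.card S) / (2 * 2 ^ k)) := by positivity
      linarith
    · obtain ⟨j, hj⟩ : ∃ j, j ∉ I := by
        by_contra h2
        push Not at h2
        exact h1 (Finset.eq_univ_of_forall h2)
      obtain ⟨i, hij⟩ : ∃ i : Fin d, i ≠ j := by
        have : Nontrivial (Fin d) := Fin.nontrivial_iff_two_le.2 hd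
        exact exists_ne j
      have h2 := E9_step hd hk K hK a0 b0 hp w i j hij
      have h3 := E9_avg K w i j hij
        (C + n * (NN d k * Real.log (Fintype.card S) / (2 * 2 ^ k))) (by
          intro p σ _
          refine ih (I ∪ {i, j}) ?_ _ (pf_per (by omega) i j hij p σ w I hw)
          have h4 : I.card + 1 ≤ (I ∪ {i, j}).card := by
            rw [← Finset.card_insert_of_notMem hj]
            refine Finset.card_le_card ?_
            intro x hx
            rw [Finset.mem_insert] at hx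
            rcases hx with rfl | hx
            · simp
            · simp [hx]
          omega)
      push_cast
      linarith

theorem ecb (hd : 2 ≤ d) (hk : 2 ≤ k) (K : Λ → S → S → ℝ) (hK : ∀ l a b, 0 ≤ K l a b) (a0 b0 : S)
    (hp : ∀ l, 0 < K l a0 b0) (w : Site d k → Fin d → Λ) :
    Real.log (Zw K w) ≤ (∑ x, ∑ l, Real.log (Zw K fun (_ : Site d k) (_ : Fin d) => w x l)) / (d * NN d k) +
      4 * 2 ^ d * (d : ℝ) ^ 2 * NN d k * Real.log (Fintype.card S) / 2 ^ k := by
  classical
  have hN := E9_NN d k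
  have hd2 : (2 : ℝ) ≤ d := by exact_mod_cast hd
  have hd0 : (0 : ℝ) < d := by linarith
  set e : ℝ := NN d k * Real.log (Fintype.card S) / (2 * 2 ^ k) with he
  have he0 : 0 ≤ e := by
    have := Real.log_natCast_nonneg (Fintype.card S)
    rw [he]
    positivity
  have hg : 0 < NN d k / 2 ^ d := by positivity
  have hpot : ∀ w : Site d k → Fin d → Λ, perD univ w → E9_F K w ≤ 4 * 2 ^ d * (d : ℝ) ^ 2 * e := by
    intro w hw
    have h1 := potential (W := Site d k → Fin d → Λ) (fun w => perD univ w) (E9_F K) dis e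
      (NN d k / 2 ^ d) he0 hg (fun w _ => dis_nonneg w) ?_ ?_ w hw
    · have h2 := dis_le w
      have h3 : 0 ≤ e / (NN d k / 2 ^ d) := by positivity
      have h4 := mul_le_mul_of_nonneg_left h2 h3
      refine (h1.trans h4).trans (le_of_eq ?_)
      field_simp
    · intro w _ h0
      have hd' : 0 < d := by omega
      obtain ⟨a, ha⟩ : ∃ a : Λ, ∀ x l, w x l = a :=
        ⟨w 0 ⟨0, hd'⟩, fun x l => dis_zero (by omega) w h0 x 0 l ⟨0, hd'⟩⟩
      have hwa : w = fun _ _ => a := by
        funext x l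
        exact ha x l
      unfold E9_F
      rw [hwa]
      simp only [Finset.sum_const, card_univ, Fintype.card_fin, nsmul_eq_mul]
      rw [card_site]
      have h5 : NN d k * (d * Real.log (Zw K fun (_ : Site d k) (_ : Fin d) => a)) /
          (d * NN d k) = Real.log (Zw K fun (_ : Site d k) (_ : Fin d) => a) := by
        field_simp
      rw [h5, sub_self]
    · intro w hw h0
      obtain ⟨i, j, hij, hgap⟩ := dis_gap hd (by omega) w hw h0
      have hcard : (Fintype.card (Site d k × {σ : Stp d // σ ∈ pl i j}) : ℝ) = 4 * NN d k := by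
        rw [Fintype.card_prod, Fintype.card_coe, E9_pl i j hij, Nat.cast_mul, card_site]
        push_cast
        ring
      have hsum : ∀ G : (Site d k → Fin d → Λ) → ℝ,
          ∑ a : Site d k × {σ : Stp d // σ ∈ pl i j}, G (pf i j a.1 a.2.1 w) =
            ∑ p, ∑ σ ∈ pl i j, G (pf i j p σ w) := by
        intro G
        rw [Fintype.sum_prod_type]
        refine Finset.sum_congr rfl fun p _ => ?_
        exact Finset.sum_coe_sort (pl i j) fun σ => G (pf i j p σ w)
      have hne : Nonempty {σ : Stp d // σ ∈ pl i j} := ⟨⟨(i, true), by simp [pl]⟩⟩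
      refine ⟨Site d k × {σ : Stp d // σ ∈ pl i j}, inferInstance, inferInstance,
        fun a => pf i j a.1 a.2.1 w, fun a => ?_, ?_, ?_⟩
      · have h6 := pf_per (by omega) i j hij a.1 a.2.1 w univ hw
        have h7 : (univ ∪ {i, j} : Finset (Fin d)) = univ := by
          ext x
          simp
        rwa [h7] at h6
      · rw [hcard, hsum (E9_F K)]
        exact E9_step hd hk K hK a0 b0 hp w i j hij
      · rw [hcard, hsum dis, pf_dis (by omega) i j hij w]
        rw [mul_div_cancel_left₀ _ (show 4 * NN d k ≠ 0 by positivity)]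
        linarith
  have hmain := E9_per hd hk K hK a0 b0 hp _ hpot d ∅ (by simp) w (by
    intro j hj
    exact absurd hj (Finset.notMem_empty j))
  rw [← he] at hmain
  have h7 : (d : ℝ) ≤ 4 * 2 ^ d * (d : ℝ) ^ 2 := by
    have h8 : (1 : ℝ) ≤ 2 ^ d := one_le_pow₀ (by norm_num)
    nlinarith [mul_le_mul h8 (show (1 : ℝ) ≤ d by linarith) (by norm_num) (by positivity)]
  have h9 := mul_le_mul_of_nonneg_right h7 he0
  have h10 : 4 * 2 ^ d * (d : ℝ) ^ 2 * NN d k * Real.log (Fintype.card S) / 2 ^ k =
      2 * (4 * 2 ^ d * (d : ℝ) ^ 2 * e) := by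
    rw [he]
    field_simp
  unfold E9_F at hmain
  rw [h10]
  linarith

end Pool.Agent.LIN

end

/-! ### from `Lib_MP_2c424f_lin.L2` -/

section

/-!
# H30 L2: edge chessboard for an extra colour on some sites

`S = Option (Fin q)` (`none` = extra colour), labels `Bool`.  For the class `b = false` (odd sites), `U ⊆ cls b`:
`K l a b' = 1[a ≠ none] 1[a ≠ b']` for `b' = some _`, and for `b' = none`: `0` if `l = false`, `w^(1/(2d)) 1[a ≠ none]` if
`l = true`; `w (x,l) = true` iff `x ∈ U` or `x + e_l ∈ U` (`2d|U|` edges; `U` in one class).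
`Zw` of this labelling `= ∑_g ∏_{v ∈ cls b \ U} x_v ∏_{v ∈ U} (x_v + w) ≥ ∑_{f proper} ∏_{v ∈ U} (1 + w/av f v)` (sum over the
colourings `g` of the other class; at `v ∈ U` one of the `x_v` available colours or `none` with the weight `w`),
`Zw (const false) = ZZ`, `Zw (const true) = WW d k q b w`.
For `b = true` exchange the two arguments of `K`.  `a0, b0` = two different colours.  (`w = 0`: `0^(1/(2d)) = 0`.)
-/

set_option autoImplicit false

open Finset

namespace Pool.Agent.LIN

open Pool.Agent.LO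

variable {d k q : ℕ}

/-! ### auxiliary: sum over the values on a set `B` -/

private theorem l2_fib {X J S : Type*} [Fintype X] [DecidableEq X] [Fintype S] (B : Finset X)
    (Nb : X → J → X) (hN : ∀ v ∈ B, ∀ j, Nb v j ∉ B) (Φ : X → (J → S) → S → ℝ) :
    ∑ F : X → S, ∏ v ∈ B, Φ v (fun j => F (Nb v j)) (F v) =
      ∑ G : {x // x ∉ B} → S, ∏ v : {x // x ∈ B},
        ∑ s, Φ v (fun j => G ⟨Nb v j, hN v v.2 j⟩) s := by
  classical
  rw [← (Equiv.piEquivPiSubtypeProd (fun x => x ∈ B) (fun _ => S)).symm.sum_comp,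
    Fintype.sum_prod_type_right]
  refine Finset.sum_congr rfl fun G _ => ?_
  rw [Finset.prod_univ_sum, Fintype.piFinset_univ]
  refine Finset.sum_congr rfl fun H _ => ?_
  rw [← Finset.prod_coe_sort B]
  refine Finset.prod_congr rfl fun v _ => ?_
  have h1 : (Equiv.piEquivPiSubtypeProd (fun x => x ∈ B) (fun _ => S)).symm (H, G) v = H v := by
    simp [Equiv.piEquivPiSubtypeProd]
  have h2 : ∀ j, (Equiv.piEquivPiSubtypeProd (fun x => x ∈ B) (fun _ => S)).symm (H, G) (Nb v j) =
      G ⟨Nb v j, hN v v.2 j⟩ := by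
    intro j
    have := hN v v.2 j
    simp [Equiv.piEquivPiSubtypeProd, this]
  simp only [h1, h2]

/-! ### auxiliary: the kernels -/

/-- edge kernel: the value at the end off the class, the value at the end in the class -/
private noncomputable def l2_kap (d : ℕ) {q : ℕ} (w : ℝ) (l : Bool) : Option (Fin q) → Option (Fin q) → ℝ
  | none, _ => 0
  | some c, some c' => if c = c' then 0 else 1
  | some _, none => if l then w ^ (((2 * d : ℕ) : ℝ)⁻¹) else 0

private noncomputable def l2_K (d : ℕ) {q : ℕ} (w : ℝ) (b l : Bool) (a s : Option (Fin q)) : ℝ :=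
  if b then l2_kap d w l s a else l2_kap d w l a s

open scoped Classical in
/-- label of an edge -/
private noncomputable def l2_lab (T : Finset (Site d k)) (x : Site d k) (l : Fin d) : Bool :=
  decide (x ∈ T ∨ x + sv (l, true) ∈ T)

private theorem l2_kap_nonneg (w : ℝ) (hw : 0 ≤ w) (l : Bool) (a s : Option (Fin q)) :
    0 ≤ l2_kap d w l a s := by
  cases a with
  | none => exact le_refl _
  | some c =>
    cases s with
    | none =>
      simp only [l2_kap]
      split_ifs
      · exact Real.rpow_nonneg hw _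
      · exact le_refl _
    | some c' =>
      simp only [l2_kap]
      split_ifs
      · exact le_refl _
      · exact zero_le_one

private theorem l2_K_nonneg (w : ℝ) (hw : 0 ≤ w) (b l : Bool) (a s : Option (Fin q)) :
    0 ≤ l2_K d w b l a s := by
  unfold l2_K
  split_ifs
  · exact l2_kap_nonneg w hw l _ _
  · exact l2_kap_nonneg w hw l _ _

/-- the sum over the value in the middle of a star -/
private theorem l2_star (hd : 1 ≤ d) (w : ℝ) (hw : 0 ≤ w) (l : Bool) (c : Stp d → Fin q) :
    ∑ s : Option (Fin q), ∏ σ : Stp d, l2_kap d w l (some (c σ)) s =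
      ((q - (univ.image c).card : ℕ) : ℝ) + if l then w else 0 := by
  classical
  have hle : (univ.image c).card ≤ q := by
    have := Finset.card_le_univ (univ.image c)
    rwa [Fintype.card_fin] at this
  rw [Fintype.sum_option, add_comm]
  congr 1
  · have h1 : ∀ c' : Fin q, ∏ σ : Stp d, l2_kap d w l (some (c σ)) (some c') =
        if c' ∈ univ.image c then 0 else 1 := by
      intro c'
      split_ifs with h
      · rw [mem_image] at h
        obtain ⟨σ, hσ, h⟩ := h
        refine Finset.prod_eq_zero hσ ?_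
        simp only [l2_kap, h, if_true]
      · refine Finset.prod_eq_one fun σ _ => ?_
        simp only [l2_kap]
        rw [if_neg]
        intro h'
        exact h (by rw [← h']; exact mem_image_of_mem _ (mem_univ _))
    rw [Finset.sum_congr rfl fun c' _ => h1 c']
    have h2 : ∀ c' : Fin q, (if c' ∈ univ.image c then (0 : ℝ) else 1) =
        1 - (if c' ∈ univ.image c then 1 else 0) := by
      intro c'
      split_ifs <;> norm_num
    rw [Finset.sum_congr rfl fun c' _ => h2 c', Finset.sum_sub_distrib, Finset.sum_const,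
      Finset.card_univ, Fintype.card_fin, nsmul_eq_mul, mul_one, Nat.cast_sub hle, Finset.sum_boole]
    have h3 : (univ.filter fun c' => c' ∈ univ.image c) = univ.image c := by
      ext x
      rw [mem_filter]
      exact ⟨fun h => h.2, fun h => ⟨mem_univ _, h⟩⟩
    rw [h3]
  · simp only [l2_kap]
    rw [Finset.prod_const, Finset.card_univ, Fintype.card_prod, Fintype.card_fin, Fintype.card_bool,
      mul_comm d 2]
    cases l
    · simp only [Bool.false_eq_true, if_false]
      exact zero_pow (by omega)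
    · simp only [if_true]
      exact Real.rpow_inv_natCast_pow hw (by omega)

/-! ### auxiliary: reordering of the edges -/

private theorem l2_mem_true (x : Site d k) : x ∈ cls true d k ↔ evn x := by
  classical
  simp [cls, evs]

private theorem l2_mem_false (x : Site d k) : x ∈ cls false d k ↔ ¬ evn x := by
  classical
  simp [cls, ods]

private theorem l2_in (w : ℝ) (b l : Bool) (F : Site d k → Option (Fin q)) (x : Site d k) (i : Fin d)
    (hx : x ∈ cls b d k) :
    l2_K d w b l (eE F x i) (eO F x i) = l2_kap d w l (F (x + sv (i, true))) (F x) := by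
  classical
  cases b
  · rw [l2_mem_false] at hx
    simp only [l2_K, eE, eO, if_neg hx, Bool.false_eq_true, if_false]
  · rw [l2_mem_true] at hx
    simp only [l2_K, eE, eO, if_pos hx, if_true]

private theorem l2_out (w : ℝ) (b l : Bool) (F : Site d k → Option (Fin q)) (x : Site d k) (i : Fin d)
    (hx : x ∉ cls b d k) :
    l2_K d w b l (eE F x i) (eO F x i) = l2_kap d w l (F x) (F (x + sv (i, true))) := by
  classical
  cases b
  · rw [l2_mem_false, not_not] at hx
    simp only [l2_K, eE, eO, if_pos hx, Bool.false_eq_true, if_false]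
  · rw [l2_mem_true] at hx
    simp only [l2_K, eE, eO, if_neg hx, if_true]

private theorem l2_step (hk : 1 ≤ k) (b : Bool) (x : Site d k) (σ : Stp d) :
    x + sv σ ∈ cls b d k ↔ x ∉ cls b d k := by
  rw [mem_cls_step hk, cls_not]

private theorem l2_back (i : Fin d) (x : Site d k) : x + sv (i, false) + sv (i, true) = x := by
  rw [add_assoc, add_comm (sv (i, false)) (sv (i, true))]
  have := sv_opp (k := k) i true
  simp only [Bool.not_true] at this
  rw [this, add_zero]

private theorem l2_back' (i : Fin d) (x : Site d k) : x + sv (i, true) + sv (i, false) = x := by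
  rw [add_assoc]
  have := sv_opp (k := k) i true
  simp only [Bool.not_true] at this
  rw [this, add_zero]

private theorem l2_edges (hk : 1 ≤ k) (b : Bool) (T : Finset (Site d k)) (hT : T ⊆ cls b d k) (w : ℝ)
    (F : Site d k → Option (Fin q)) :
    ∏ x, ∏ i, l2_K d w b (l2_lab T x i) (eE F x i) (eO F x i) =
      ∏ v ∈ cls b d k, ∏ σ : Stp d,
        l2_kap d w (l2_lab T v σ.1) (F (v + sv σ)) (F v) := by
  classical
  have hnT : ∀ v ∉ cls b d k, v ∉ T := fun v hv h => hv (hT h)
  rw [Finset.prod_comm, Finset.prod_comm (s := cls b d k), Fintype.prod_prod_type]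
  refine Finset.prod_congr rfl fun i _ => ?_
  rw [Fintype.prod_bool, ← Finset.prod_mul_prod_compl (cls b d k)]
  congr 1
  · refine Finset.prod_congr rfl fun x hx => ?_
    exact l2_in w b _ F x i hx
  · symm
    refine Finset.prod_bij' (fun v _ => v + sv (i, false)) (fun v _ => v + sv (i, true)) ?_ ?_ ?_ ?_ ?_
    · intro v hv
      rw [mem_compl, l2_step hk, not_not]
      exact hv
    · intro v hv
      rw [mem_compl] at hv
      rw [l2_step hk]
      exact hv
    · intro v _
      exact l2_back i v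
    · intro v _
      exact l2_back' i v
    · intro v hv
      have hv' : v + sv (i, false) ∉ cls b d k := by
        rw [l2_step hk, not_not]
        exact hv
      have hv2 : v + sv (i, true) ∉ cls b d k := by
        rw [l2_step hk, not_not]
        exact hv
      rw [l2_out w b _ F _ i hv', l2_back]
      have hl : l2_lab T (v + sv (i, false)) i = l2_lab T v i := by
        unfold l2_lab
        rw [l2_back]
        congr 1
        simp only [hnT _ hv', hnT _ hv2, false_or, or_false]
      rw [hl]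

private theorem l2_lab_in (hk : 1 ≤ k) (b : Bool) (T : Finset (Site d k)) (hT : T ⊆ cls b d k)
    (v : Site d k) (hv : v ∈ cls b d k) (i : Fin d) : (l2_lab T v i = true) ↔ v ∈ T := by
  classical
  have hv2 : v + sv (i, true) ∉ cls b d k := by
    rw [l2_step hk, not_not]
    exact hv
  unfold l2_lab
  rw [decide_eq_true_iff]
  constructor
  · rintro (h | h)
    · exact h
    · exact absurd (hT h) hv2
  · exact Or.inl

open scoped Classical in
/-- the model with the extra colour on `T` -/
private theorem l2_key (hd : 1 ≤ d) (hk : 1 ≤ k) (hq : 1 ≤ q) (w : ℝ) (hw : 0 ≤ w) (b : Bool)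
    (T : Finset (Site d k)) (hT : T ⊆ cls b d k) :
    Zw (l2_K d (q := q) w b) (l2_lab T) =
      ∑ f : Site d k → Fin q, ∏ v ∈ cls b d k, (((av f v : ℝ) + if v ∈ T then w else 0) / q) := by
  have hq0 : (q : ℝ) ≠ 0 := by
    have : q ≠ 0 := by omega
    exact_mod_cast this
  have hN : ∀ v ∈ cls b d k, ∀ σ : Stp d, v + sv σ ∉ cls b d k := by
    intro v hv σ
    rw [l2_step hk, not_not]
    exact hv
  have hL : Zw (l2_K d (q := q) w b) (l2_lab T) =
      ∑ F : Site d k → Option (Fin q), ∏ v ∈ cls b d k,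
        (fun (v : Site d k) (c : Stp d → Option (Fin q)) (s : Option (Fin q)) =>
          ∏ σ : Stp d, l2_kap d w (l2_lab T v σ.1) (c σ) s) v (fun σ => F (v + sv σ)) (F v) := by
    unfold Zw
    exact Finset.sum_congr rfl fun F _ => l2_edges hk b T hT w F
  have hR : ∑ f : Site d k → Fin q, ∏ v ∈ cls b d k, (((av f v : ℝ) + if v ∈ T then w else 0) / q) =
      ∑ F : Site d k → Fin q, ∏ v ∈ cls b d k,
        (fun (v : Site d k) (c : Stp d → Fin q) (_ : Fin q) =>
          (((q - (univ.image c).card : ℕ) : ℝ) + if v ∈ T then w else 0) / q) v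
            (fun σ => F (v + sv σ)) (F v) := rfl
  rw [hL, hR]
  rw [l2_fib (cls b d k) (fun v (σ : Stp d) => v + sv σ) hN
      (fun (v : Site d k) (c : Stp d → Option (Fin q)) (s : Option (Fin q)) =>
        ∏ σ : Stp d, l2_kap d w (l2_lab T v σ.1) (c σ) s),
    l2_fib (cls b d k) (fun v (σ : Stp d) => v + sv σ) hN
      (fun (v : Site d k) (c : Stp d → Fin q) (_ : Fin q) =>
        (((q - (univ.image c).card : ℕ) : ℝ) + if v ∈ T then w else 0) / q)]
  symm
  refine Fintype.sum_of_injective (fun (G : {x // x ∉ cls b d k} → Fin q) x => some (G x)) ?_ _ _ ?_ ?_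
  · intro G G' h
    funext x
    exact Option.some.inj (congrFun h x)
  · intro G hG
    have h1 : ∃ x, G x = none := by
      by_contra hcon
      push Not at hcon
      apply hG
      refine ⟨fun x => (G x).get (Option.ne_none_iff_isSome.mp (hcon x)), ?_⟩
      funext x
      simp
    obtain ⟨⟨x, hx⟩, hGx⟩ := h1
    have hv : x + sv ((⟨0, hd⟩ : Fin d), true) ∈ cls b d k := by
      rw [l2_step hk]
      exact hx
    refine Finset.prod_eq_zero (mem_univ ⟨x + sv ((⟨0, hd⟩ : Fin d), true), hv⟩) ?_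
    refine Finset.sum_eq_zero fun s _ => ?_
    refine Finset.prod_eq_zero (mem_univ ((⟨0, hd⟩ : Fin d), false)) ?_
    have h2 : (⟨x + sv ((⟨0, hd⟩ : Fin d), true) + sv ((⟨0, hd⟩ : Fin d), false),
        hN _ hv _⟩ : {x // x ∉ cls b d k}) = ⟨x, hx⟩ := by
      apply Subtype.ext
      exact l2_back' _ x
    have h3 : G ⟨x + sv ((⟨0, hd⟩ : Fin d), true) + sv ((⟨0, hd⟩ : Fin d), false), hN _ hv _⟩ = none := by
      rw [h2]
      exact hGx
    simp only []
    rw [h3]
    rfl
  · intro G
    refine Finset.prod_congr rfl fun v _ => ?_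
    obtain ⟨v, hv⟩ := v
    rw [Finset.sum_const, Finset.card_univ, Fintype.card_fin, nsmul_eq_mul, mul_div_cancel₀ _ hq0]
    have h1 : ∀ σ : Stp d, l2_lab T v σ.1 = decide (v ∈ T) := by
      intro σ
      rw [Bool.eq_iff_iff, l2_lab_in hk b T hT v hv, decide_eq_true_iff]
    simp only [h1]
    rw [l2_star hd w hw]
    simp only [decide_eq_true_eq]

/-! ### auxiliary: counting -/

private theorem l2_count (T : Finset (Site d k)) (hk : 1 ≤ k) (b : Bool) (hT : T ⊆ cls b d k)
    (LT LF : ℝ) :
    ∑ x, ∑ l, (if l2_lab T x l = true then LT else LF) =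
      d * NN d k * LF + 2 * d * T.card * (LT - LF) := by
  classical
  have h1 : ∀ (x : Site d k) (l : Fin d), (if l2_lab T x l = true then LT else LF) =
      LF + ((if x ∈ T then 1 else 0) + (if x + sv (l, true) ∈ T then 1 else 0)) * (LT - LF) := by
    intro x l
    unfold l2_lab
    simp only [decide_eq_true_iff]
    by_cases h : x ∈ T
    · have h2 : x + sv (l, true) ∉ T := by
        intro h3
        have := hT h3
        rw [l2_step hk] at this
        exact this (hT h)
      simp only [h, h2, true_or, if_true, if_false]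
      ring
    · by_cases h2 : x + sv (l, true) ∈ T
      · simp only [h, h2, or_true, if_true, if_false]
        ring
      · simp only [h, h2, or_false, if_false]
        ring
  rw [Finset.sum_congr rfl fun x _ => Finset.sum_congr rfl fun l _ => h1 x l, Finset.sum_comm]
  have h2 : ∀ l : Fin d, ∑ x : Site d k, (LF + ((if x ∈ T then (1 : ℝ) else 0) +
      (if x + sv (l, true) ∈ T then 1 else 0)) * (LT - LF)) = NN d k * LF + 2 * T.card * (LT - LF) := by
    intro l
    rw [Finset.sum_add_distrib, Finset.sum_const, Finset.card_univ, nsmul_eq_mul, card_site,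
      ← Finset.sum_mul, Finset.sum_add_distrib]
    have h3 : ∑ x : Site d k, (if x + sv (l, true) ∈ T then (1 : ℝ) else 0) =
        ∑ x : Site d k, (if x ∈ T then (1 : ℝ) else 0) :=
      Equiv.sum_comp (Equiv.addRight (sv (l, true) : Site d k)) (fun x => if x ∈ T then (1 : ℝ) else 0)
    rw [h3, Finset.sum_boole]
    have h4 : (univ.filter fun x => x ∈ T) = T := by
      ext x
      simp
    rw [h4]
    ring
  rw [Finset.sum_congr rfl fun l _ => h2 l, Finset.sum_const, Finset.card_univ, Fintype.card_fin,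
    nsmul_eq_mul]
  ring

theorem ecb_extra (hd : 2 ≤ d) (hk : 2 ≤ k) (hq : 2 ≤ q) (w : ℝ) (hw : 0 ≤ w) (b : Bool)
    (U : Finset (Site d k)) (hU : U ⊆ cls b d k) :
    Real.log (∑ f ∈ prps d k q, ∏ v ∈ U, (1 + w / (av f v : ℝ))) ≤
      (1 - 2 * U.card / NN d k) * Real.log (ZZ d k q) +
        2 * U.card / NN d k * Real.log (WW d k q b w) +
        4 * 2 ^ d * (d : ℝ) ^ 2 * NN d k * Real.log (q + 1) / 2 ^ k := by
  classical
  have hk1 : 1 ≤ k := by omega
  have hd1 : 1 ≤ d := by omega
  have hq1 : 1 ≤ q := by omega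
  have hN0 : 0 < NN d k := by unfold NN; positivity
  have hd0 : (0 : ℝ) < d := by exact_mod_cast (by omega : 0 < d)
  have hq0 : (0 : ℝ) < q := by exact_mod_cast (by omega : 0 < q)
  -- constant labels
  have hfalse : Zw (l2_K d (q := q) w b) (fun (_ : Site d k) (_ : Fin d) => false) = ZZ d k q := by
    have h1 : (fun (_ : Site d k) (_ : Fin d) => false) = l2_lab (∅ : Finset (Site d k)) := by
      funext x l
      unfold l2_lab
      simp
    rw [h1, l2_key hd1 hk1 hq1 w hw b ∅ (Finset.empty_subset _), ← WW_zero hk1 hq1 b]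
    unfold WW
    refine Finset.sum_congr rfl fun f _ => Finset.prod_congr rfl fun v _ => ?_
    simp
  have htrue : Zw (l2_K d (q := q) w b) (fun (_ : Site d k) (_ : Fin d) => true) = WW d k q b w := by
    have h1 : (fun (_ : Site d k) (_ : Fin d) => true) = l2_lab (cls b d k) := by
      funext x l
      unfold l2_lab
      symm
      rw [decide_eq_true_iff, l2_step hk1]
      exact em _
    rw [h1, l2_key hd1 hk1 hq1 w hw b _ (Finset.Subset.refl _)]
    unfold WW
    refine Finset.sum_congr rfl fun f _ => Finset.prod_congr rfl fun v hv => ?_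
    rw [if_pos hv]
  -- the chessboard inequality
  have hecb := ecb hd hk (l2_K d (q := q) w b) (l2_K_nonneg w hw b) (some (⟨0, by omega⟩ : Fin q))
    (some (⟨1, by omega⟩ : Fin q)) (by
      intro l
      unfold l2_K
      split_ifs
      · simp [l2_kap]
      · simp [l2_kap]) (l2_lab U)
  have hcard : (Fintype.card (Option (Fin q)) : ℝ) = q + 1 := by
    rw [Fintype.card_option, Fintype.card_fin]
    push_cast
    ring
  rw [hcard] at hecb
  have hsum : ∑ x, ∑ l, Real.log (Zw (l2_K d (q := q) w b) fun (_ : Site d k) (_ : Fin d) => l2_lab U x l) =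
      d * NN d k * Real.log (ZZ d k q) +
        2 * d * U.card * (Real.log (WW d k q b w) - Real.log (ZZ d k q)) := by
    rw [← l2_count U hk1 b hU]
    refine Finset.sum_congr rfl fun x _ => Finset.sum_congr rfl fun l _ => ?_
    split_ifs with h
    · rw [h, htrue]
    · rw [Bool.not_eq_true] at h
      rw [h, hfalse]
  rw [hsum] at hecb
  have heq : (d * NN d k * Real.log (ZZ d k q) +
        2 * d * U.card * (Real.log (WW d k q b w) - Real.log (ZZ d k q))) / (d * NN d k) =
      (1 - 2 * U.card / NN d k) * Real.log (ZZ d k q) +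
        2 * U.card / NN d k * Real.log (WW d k q b w) := by
    field_simp
    ring
  rw [heq] at hecb
  refine le_trans ?_ hecb
  -- the left side
  have hZ := ZZ_pos (d := d) hk1 hq
  have hpos : 0 < ∑ f ∈ prps d k q, ∏ v ∈ U, (1 + w / (av f v : ℝ)) := by
    refine lt_of_lt_of_le hZ ?_
    unfold ZZ
    rw [Finset.card_eq_sum_ones, Nat.cast_sum]
    refine Finset.sum_le_sum fun f _ => ?_
    rw [Nat.cast_one]
    calc (1 : ℝ) = ∏ v ∈ U, 1 := Finset.prod_const_one.symm
      _ ≤ ∏ v ∈ U, (1 + w / (av f v : ℝ)) := by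
          refine Finset.prod_le_prod (fun v _ => zero_le_one) fun v _ => ?_
          have : 0 ≤ w / (av f v : ℝ) := div_nonneg hw (Nat.cast_nonneg _)
          linarith
  refine Real.log_le_log hpos ?_
  rw [l2_key hd1 hk1 hq1 w hw b U hU]
  have hres := resum (d := d) (q := q) hk1 b (fun v x => if v ∈ U then 1 + w / (x : ℝ) else 1)
  have h1 : ∀ f : Site d k → Fin q, ∏ v ∈ cls b d k, (if v ∈ U then 1 + w / (av f v : ℝ) else 1) =
      ∏ v ∈ U, (1 + w / (av f v : ℝ)) := by
    intro f
    rw [Finset.prod_ite, Finset.prod_const_one, mul_one]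
    refine Finset.prod_congr ?_ fun _ _ => rfl
    ext v
    rw [mem_filter]
    exact ⟨fun h => h.2, fun h => ⟨hU h, h⟩⟩
  rw [Finset.sum_congr rfl fun f _ => h1 f] at hres
  have hqp : (0 : ℝ) < (q : ℝ) ^ (cls b d k).card := pow_pos hq0 _
  rw [← mul_le_mul_iff_right₀ hqp, hres, Finset.mul_sum]
  refine Finset.sum_le_sum fun f _ => ?_
  rw [← Finset.prod_const, ← Finset.prod_mul_distrib]
  refine Finset.prod_le_prod (fun v _ => ?_) fun v _ => ?_
  · split_ifs
    · have h2 : 0 ≤ w / (av f v : ℝ) := div_nonneg hw (Nat.cast_nonneg _)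
      have h3 : (0 : ℝ) ≤ av f v := Nat.cast_nonneg _
      exact mul_nonneg h3 (by linarith)
    · have h3 : (0 : ℝ) ≤ av f v := Nat.cast_nonneg _
      exact mul_nonneg h3 zero_le_one
  · rw [mul_div_cancel₀ _ hq0.ne']
    split_ifs
    · rcases Nat.eq_zero_or_pos (av f v) with h0 | h0
      · rw [h0]
        simpa using hw
      · have h3 : (av f v : ℝ) ≠ 0 := by exact_mod_cast h0.ne'
        rw [mul_add, mul_one, mul_div_cancel₀ _ h3]
    · rw [mul_one, add_zero]

end Pool.Agent.LIN

end

/-! ### from `Lib_MP_2c424f_thr.S1` -/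

section

/-!
# THR S1: frozen sites (paper proof: S1)

`LIN.ecb_extra` with `w = q`: `∏_{v ∈ U} (1 + q / av f v) ≥ (1+q)^|U|` on the event, and `≥ 1`... (all factors are `≥ 1`), so
`#(event) (1+q)^|U| ≤ exp ((1 - 2|U|/N) log Z + (2|U|/N) log WW(q) + err)`.  `WW d k q b q ≤ q^N/... `: every factor
`(av + q)/q ≤ 2`, so `WW ≤ q^N 2^(N/2)`, and `Z ≥ exp (N/2 · log (q1 q2)) ≥ ((q²-1)/4)^(N/2)` (`LO.ZZ_ge`).  So
`log WW - log Z ≤ (N/2) log (8 q²/(q²-1))`, which contributes `|U| log (8q²/(q²-1))`; `8 q²/((q²-1)(1+q)) ≤ 9/q` for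
`q ≥ 3`.  `err = 4·2^d d² N log (q+1)/2^k ≤ ν N` for `k` large.
-/

set_option autoImplicit false

open Finset Filter

namespace Pool.Agent.THR

open Pool.Agent.LO Pool.Agent.LIN

variable {d k q : ℕ}

private theorem S1_WW (hd : 1 ≤ d) (hk : 1 ≤ k) (hq : 2 ≤ q) (b : Bool) :
    Real.log (WW d k q b q) ≤ NN d k / 2 * Real.log (2 * (q : ℝ) ^ 2) := by
  have hq0 : (0 : ℝ) < q := by exact_mod_cast (by omega : 0 < q)
  have hpos : 0 < WW d k q b q := by
    refine lt_of_lt_of_le ?_ (WW_mono b (le_refl 0) hq0.le)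
    rw [WW_zero hk (by omega) b]
    exact (Real.exp_pos _).trans_le (ZZ_ge hd hk hq)
  have h1 : WW d k q b q ≤ (q : ℝ) ^ Fintype.card (Site d k) * 2 ^ (cls b d k).card := by
    unfold WW
    calc ∑ f : Site d k → Fin q, ∏ v ∈ cls b d k, (((av f v : ℝ) + q) / q)
        ≤ ∑ _f : Site d k → Fin q, (2 : ℝ) ^ (cls b d k).card := by
          refine sum_le_sum fun f _ => ?_
          rw [← prod_const]
          refine prod_le_prod (fun v _ => by positivity) fun v _ => ?_
          rw [div_le_iff₀ hq0]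
          have h2 : (av f v : ℝ) ≤ q := by
            unfold av
            exact_mod_cast Nat.sub_le _ _
          linarith
      _ = (q : ℝ) ^ Fintype.card (Site d k) * 2 ^ (cls b d k).card := by
          rw [sum_const, card_univ, Fintype.card_fun, Fintype.card_fin, nsmul_eq_mul, Nat.cast_pow]
  calc Real.log (WW d k q b q) ≤ Real.log ((q : ℝ) ^ Fintype.card (Site d k) * 2 ^ (cls b d k).card) :=
        Real.log_le_log hpos h1
    _ = NN d k / 2 * Real.log (2 * (q : ℝ) ^ 2) := by
      rw [Real.log_mul (by positivity) (by positivity), Real.log_pow, Real.log_pow, card_site,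
        card_cls hd hk b, Real.log_mul (by norm_num) (by positivity), Real.log_pow]
      push_cast
      ring

private theorem S1_ZZ (hd : 1 ≤ d) (hk : 1 ≤ k) (hq : 2 ≤ q) :
    NN d k / 2 * Real.log (((q : ℝ) ^ 2 - 1) / 4) ≤ Real.log (ZZ d k q) := by
  have h1 := ZZ_ge (d := d) (k := k) (q := q) hd hk hq
  have h2 : NN d k / 2 * Real.log ((q1 q : ℝ) * q2 q) ≤ Real.log (ZZ d k q) := by
    rw [Real.le_log_iff_exp_le ((Real.exp_pos _).trans_le h1)]
    exact h1
  refine le_trans (mul_le_mul_of_nonneg_left (Real.log_le_log ?_ ?_) ?_) h2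
  · have h3 : (2 : ℝ) ≤ q := by exact_mod_cast hq
    nlinarith
  · have h3 : q = q1 q + q2 q := by unfold q1 q2; omega
    have h4 : q2 q ≤ q1 q + 1 := by unfold q1 q2; omega
    have h5 : q1 q ≤ q2 q := by unfold q1 q2; omega
    have h3' : (q : ℝ) = q1 q + q2 q := by exact_mod_cast h3
    have h4' : (q2 q : ℝ) ≤ q1 q + 1 := by exact_mod_cast h4
    have h5' : (q1 q : ℝ) ≤ q2 q := by exact_mod_cast h5
    rw [h3']
    nlinarith
  · unfold NN
    positivity

open scoped Classical in
private theorem S1_main (hd : 2 ≤ d) (hk : 2 ≤ k) (hq : 3 ≤ q) (ν : ℝ)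
    (he : 4 * 2 ^ d * (d : ℝ) ^ 2 * NN d k * Real.log (q + 1) / 2 ^ k ≤ ν * NN d k) (b : Bool)
    (U : Finset (Site d k)) (hU : U ⊆ cls b d k) :
    (((prps d k q).filter fun f => ∀ v ∈ U, av f v = 1).card : ℝ) ≤
      ZZ d k q * (9 / (q : ℝ)) ^ U.card * Real.exp (ν * NN d k) := by
  have hN : 0 < NN d k := by unfold NN; positivity
  have hZ : 0 < ZZ d k q := (Real.exp_pos _).trans_le (ZZ_ge (by omega) (by omega) (by omega))
  have hq3 : (3 : ℝ) ≤ q := by exact_mod_cast hq
  have hq0 : (0 : ℝ) < q := by linarith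
  obtain ⟨E, hE⟩ : ∃ E : ℝ, E = (((prps d k q).filter fun f => ∀ v ∈ U, av f v = 1).card : ℝ) := ⟨_, rfl⟩
  rw [← hE]
  have hE0 : 0 ≤ E := by rw [hE]; positivity
  rcases hE0.eq_or_lt with h0 | h0
  · rw [← h0]
    positivity
  have h1 := ecb_extra (q := q) hd hk (by omega) (q : ℝ) hq0.le b U hU
  have h2 : E * (1 + (q : ℝ)) ^ U.card ≤ ∑ f ∈ prps d k q, ∏ v ∈ U, (1 + (q : ℝ) / (av f v : ℝ)) := by
    calc E * (1 + (q : ℝ)) ^ U.card =
          ∑ f ∈ (prps d k q).filter (fun f => ∀ v ∈ U, av f v = 1), (1 + (q : ℝ)) ^ U.card := by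
          rw [sum_const, nsmul_eq_mul, hE]
      _ = ∑ f ∈ (prps d k q).filter (fun f => ∀ v ∈ U, av f v = 1), ∏ v ∈ U, (1 + (q : ℝ) / (av f v : ℝ)) := by
          refine sum_congr rfl fun f hf => ?_
          have h3 := (mem_filter.1 hf).2
          rw [prod_congr rfl fun v hv => by rw [h3 v hv, Nat.cast_one, div_one], prod_const]
      _ ≤ ∑ f ∈ prps d k q, ∏ v ∈ U, (1 + (q : ℝ) / (av f v : ℝ)) :=
          sum_le_sum_of_subset_of_nonneg (filter_subset _ _) fun f _ _ =>
            prod_nonneg fun v _ => by positivity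
  have h3 : Real.log E + U.card * Real.log (1 + (q : ℝ)) ≤
      Real.log (∑ f ∈ prps d k q, ∏ v ∈ U, (1 + (q : ℝ) / (av f v : ℝ))) := by
    rw [← Real.log_pow, ← Real.log_mul h0.ne' (by positivity)]
    exact Real.log_le_log (by positivity) h2
  have h4 := S1_WW (d := d) (k := k) (q := q) (by omega) (by omega) (by omega) b
  have h5 := S1_ZZ (d := d) (k := k) (q := q) (by omega) (by omega) (by omega)
  have h6 : 2 * (U.card : ℝ) / NN d k * (Real.log (WW d k q b q) - Real.log (ZZ d k q)) ≤
      U.card * (Real.log (2 * (q : ℝ) ^ 2) - Real.log (((q : ℝ) ^ 2 - 1) / 4)) := by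
    have h7 : Real.log (WW d k q b q) - Real.log (ZZ d k q) ≤
        NN d k / 2 * (Real.log (2 * (q : ℝ) ^ 2) - Real.log (((q : ℝ) ^ 2 - 1) / 4)) := by linarith
    calc 2 * (U.card : ℝ) / NN d k * (Real.log (WW d k q b q) - Real.log (ZZ d k q)) ≤
          2 * (U.card : ℝ) / NN d k *
            (NN d k / 2 * (Real.log (2 * (q : ℝ) ^ 2) - Real.log (((q : ℝ) ^ 2 - 1) / 4))) :=
          mul_le_mul_of_nonneg_left h7 (by positivity)
      _ = U.card * (Real.log (2 * (q : ℝ) ^ 2) - Real.log (((q : ℝ) ^ 2 - 1) / 4)) := by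
          field_simp
  have hq1 : (0 : ℝ) < (q : ℝ) ^ 2 - 1 := by nlinarith
  have h8 : Real.log (2 * (q : ℝ) ^ 2) - Real.log (((q : ℝ) ^ 2 - 1) / 4) - Real.log (1 + (q : ℝ)) ≤
      Real.log (9 / (q : ℝ)) := by
    rw [← Real.log_div (by positivity) (by positivity), ← Real.log_div (by positivity) (by positivity)]
    refine Real.log_le_log (by positivity) ?_
    rw [div_div, div_le_div_iff₀ (by positivity) hq0]
    nlinarith [mul_nonneg (sub_nonneg.2 hq3) (sub_nonneg.2 hq3), mul_nonneg (mul_nonneg (sub_nonneg.2 hq3)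
      (sub_nonneg.2 hq3)) (sub_nonneg.2 hq3)]
  have h9 : Real.log E ≤ Real.log (ZZ d k q) + U.card * Real.log (9 / (q : ℝ)) + ν * NN d k := by
    have h10 : (U.card : ℝ) * (Real.log (2 * (q : ℝ) ^ 2) - Real.log (((q : ℝ) ^ 2 - 1) / 4) -
        Real.log (1 + (q : ℝ))) ≤ U.card * Real.log (9 / (q : ℝ)) :=
      mul_le_mul_of_nonneg_left h8 (by positivity)
    have h11 : (1 - 2 * (U.card : ℝ) / NN d k) * Real.log (ZZ d k q) +
        2 * (U.card : ℝ) / NN d k * Real.log (WW d k q b q) = Real.log (ZZ d k q) +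
        2 * (U.card : ℝ) / NN d k * (Real.log (WW d k q b q) - Real.log (ZZ d k q)) := by ring
    linarith
  calc E = Real.exp (Real.log E) := (Real.exp_log h0).symm
    _ ≤ Real.exp (Real.log (ZZ d k q) + U.card * Real.log (9 / (q : ℝ)) + ν * NN d k) :=
        Real.exp_le_exp.2 h9
    _ = ZZ d k q * (9 / (q : ℝ)) ^ U.card * Real.exp (ν * NN d k) := by
        rw [Real.exp_add, Real.exp_add, Real.exp_log hZ, ← Real.log_pow, Real.exp_log (by positivity)]

open scoped Classical in
theorem av_one {ε : ℝ} (hε : 0 < ε) (hε1 : ε ≤ 1) (ν : ℕ → ℕ → ℝ) (hν : ∀ d q, 0 < ν d q) :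
    EvT ε fun d k q => ∀ (b : Bool) (U : Finset (Site d k)), U ⊆ cls b d k →
      (((prps d k q).filter fun f => ∀ v ∈ U, av f v = 1).card : ℝ) ≤
        ZZ d k q * (9 / (q : ℝ)) ^ U.card * Real.exp (ν d q * NN d k) := by
  refine EvT.mono ((EvT_reg hε hε1 3).and
    (EvT_pow fun d q => 4 * 2 ^ d * (d : ℝ) ^ 2 * Real.log (q + 1) / ν d q)) ?_
  rintro d k q ⟨⟨hd3, hq3, hk3, -⟩, hpow⟩ b U hU
  have hd : 3 ≤ d := by exact_mod_cast hd3
  have hq : 3 ≤ q := by exact_mod_cast hq3
  have hk : 3 ≤ k := by exact_mod_cast hk3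
  refine S1_main (by omega) (by omega) hq (ν d q) ?_ b U hU
  have hN : 0 < NN d k := by unfold NN; positivity
  rw [div_le_iff₀ (by positivity)]
  rw [div_le_iff₀ (hν d q)] at hpow
  have h1 := mul_le_mul_of_nonneg_right hpow hN.le
  linarith

end Pool.Agent.THR

end
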