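import Pool.Agent.Lib_MP_2c424f_ms.M02
import Pool.Agent.Lib_MP_2c424f_ms.M03
import Pool.Agent.Lib_MP_2c424f_ms.M19

/-!
# MP_2c424f_pr: library of SharpThreshold and BoundaryThreshold (merged): merged library part M21

Concatenation of smaller files (each in its own section), only to save build time.
-/

namespace Pool.Agent.LO
end Pool.Agent.LO

/-! ### from `Lib_MP_2c424f_lin.B6b` -/

section

/-!
# H30 B6b: pointwise means

* `two_pt`: `x ≠ y` of the class `b`: given the other class `f x`, `f y` are independent and uniform on the available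
  colours (`fib_sum`, `fm_prod` with `U = {x, y}`, `φ v a = 1[a = c]`, sum over `c`).
* `one_pt`: `x` of the class `b`, `y` of the class `!b`, not adjacent.  Resample `x` (`resample` of `MainA2`), or `fib_sum`
  with the class `b` (`f y` and `SS f x` fixed on the fibre): `∑ 1[f x = f y] = ∑ zz f x (f y)/av f x`.
* `xi_mean`: `mean_dev` and translation invariance (`sum_transl`, `av_transl`; both classes have the same mean):
  `E (1-2ξ_x)² ≤ 2 (q log 2/(4d) + 1/q²)`, Cauchy-Schwarz (Jensen).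
* `few_mean`: `Xs_mean` with `a = min (1/10) (ε/40)`, translation invariance: for each `x`
  `∑_f 1[ξ_x < 1/2 - a]/av f x ≤ 40 a ZZ/q`.
-/

set_option autoImplicit false

open Finset Filter

namespace Pool.Agent.LIN

open Pool.Agent.LO

private theorem B6b_step_ne {d k : ℕ} (hk : 1 ≤ k) (x : Site d k) (σ : Stp d) : x + sv σ ≠ x := by
  intro h
  have h1 := evn_step hk x σ
  rw [h] at h1
  by_cases hx : evn x
  · exact (h1.1 hx) hx
  · exact hx (h1.2 hx)

private theorem B6b_step_back {d k : ℕ} (x : Site d k) (σ : Stp d) : x + sv σ + sv (σ.1, !σ.2) = x := by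
  obtain ⟨j, b⟩ := σ
  rw [add_assoc, sv_opp, add_zero]

private theorem B6b_SS_update {d k q : ℕ} (hk : 1 ≤ k) (f : Site d k → Fin q) (x : Site d k) (c : Fin q) :
    SS (Function.update f x c) x = SS f x := by
  unfold SS
  have h : ∀ σ : Stp d, Function.update f x c (x + sv σ) = f (x + sv σ) := fun σ =>
    Function.update_of_ne (B6b_step_ne hk x σ) _ _
  simp only [h]

private theorem B6b_mem_prps {d k q : ℕ} (f : Site d k → Fin q) : f ∈ prps d k q ↔ Prp f := by
  classical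
  unfold prps
  rw [mem_filter]
  simp only [mem_univ, true_and]

private theorem B6b_self_notin_SS {d k q : ℕ} {f : Site d k → Fin q} (hf : Prp f) (x : Site d k) :
    f x ∉ SS f x := by
  intro h
  unfold SS at h
  rw [mem_image] at h
  obtain ⟨σ, _, h⟩ := h
  exact hf x σ h

private theorem B6b_Prp_update {d k q : ℕ} (hk : 1 ≤ k) {f : Site d k → Fin q} (hf : Prp f) (x : Site d k)
    (c : Fin q) (hc : c ∉ SS f x) : Prp (Function.update f x c) := by
  have hc' : ∀ σ : Stp d, f (x + sv σ) ≠ c := by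
    intro σ h
    apply hc
    unfold SS
    rw [mem_image]
    exact ⟨σ, mem_univ _, h⟩
  intro z σ
  by_cases hz : z = x
  · subst hz
    rw [Function.update_self, Function.update_of_ne (B6b_step_ne hk z σ)]
    exact hc' σ
  · rw [Function.update_of_ne hz]
    by_cases hz2 : z + sv σ = x
    · rw [hz2, Function.update_self]
      have h1 := B6b_step_back z σ
      rw [hz2] at h1
      have h2 := hc' (σ.1, !σ.2)
      rw [h1] at h2
      exact h2.symm
    · rw [Function.update_of_ne hz2]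
      exact hf z σ

private theorem B6b_resum {d k q : ℕ} (hk : 1 ≤ k) (y : Site d k)
    (Φ : (Site d k → Fin q) → Fin q → ℝ)
    (hΦ : ∀ f a c, Φ (Function.update f y a) c = Φ f c) :
    ∑ f ∈ prps d k q, Φ f (f y) =
      ∑ f ∈ prps d k q, (∑ c ∈ (SS f y)ᶜ, Φ f c) / (av f y : ℝ) := by
  classical
  have hcard : ∀ f : Site d k → Fin q, (((SS f y)ᶜ).card : ℝ) = (av f y : ℝ) := by
    intro f
    unfold av
    rw [card_compl, Fintype.card_fin]
  have hav : ∀ (f : Site d k → Fin q) (c : Fin q), av (Function.update f y c) y = av f y := by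
    intro f c
    unfold av
    rw [B6b_SS_update hk]
  -- left side
  have h1 : ∑ f ∈ prps d k q, Φ f (f y) =
      ∑ f ∈ prps d k q, ∑ c ∈ (SS f y)ᶜ, Φ f (f y) / (av f y : ℝ) := by
    refine sum_congr rfl fun f hf => ?_
    rw [B6b_mem_prps] at hf
    rw [sum_const, nsmul_eq_mul, hcard]
    have hp : (0 : ℝ) < av f y := by exact_mod_cast av_pos hf y
    field_simp
  -- right side
  have h2 : ∑ f ∈ prps d k q, (∑ c ∈ (SS f y)ᶜ, Φ f c) / (av f y : ℝ) =
      ∑ f ∈ prps d k q, ∑ c ∈ (SS f y)ᶜ, Φ f c / (av f y : ℝ) := by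
    refine sum_congr rfl fun f _ => ?_
    rw [sum_div]
  rw [h1, h2, Finset.sum_sigma', Finset.sum_sigma']
  refine Finset.sum_bij' (fun p _ => ⟨Function.update p.1 y p.2, p.1 y⟩)
    (fun p _ => ⟨Function.update p.1 y p.2, p.1 y⟩) ?_ ?_ ?_ ?_ ?_
  · rintro ⟨f, c⟩ h
    rw [mem_sigma] at h ⊢
    obtain ⟨hf, hc⟩ := h
    simp only [B6b_mem_prps, mem_compl] at hf hc ⊢
    rw [B6b_SS_update hk]
    exact ⟨B6b_Prp_update hk hf y c hc, B6b_self_notin_SS hf y⟩
  · rintro ⟨f, c⟩ h
    rw [mem_sigma] at h ⊢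
    obtain ⟨hf, hc⟩ := h
    simp only [B6b_mem_prps, mem_compl] at hf hc ⊢
    rw [B6b_SS_update hk]
    exact ⟨B6b_Prp_update hk hf y c hc, B6b_self_notin_SS hf y⟩
  · rintro ⟨f, c⟩ _
    simp
  · rintro ⟨f, c⟩ _
    simp
  · rintro ⟨f, c⟩ _
    simp only
    rw [hΦ, hav]

/-- resampling `y`, which is neither `x` nor a neighbour of `x` -/
theorem one_pt' {d k q : ℕ} (hk : 2 ≤ k) (x y : Site d k) (hxy : x ≠ y) (hn : ∀ σ : Stp d, x + sv σ ≠ y) :
    ∑ f ∈ prps d k q, zz f x (f y) =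
      ∑ f ∈ prps d k q, (∑ c, zz f x c * zz f y c) / (av f y : ℝ) := by
  classical
  have hS : ∀ (f : Site d k → Fin q) (a : Fin q), SS (Function.update f y a) x = SS f x := by
    intro f a
    unfold SS
    have h : ∀ σ : Stp d, Function.update f y a (x + sv σ) = f (x + sv σ) := fun σ =>
      Function.update_of_ne (hn σ) _ _
    simp only [h]
  rw [B6b_resum (by omega) y (fun f c => zz f x c)]
  · refine sum_congr rfl fun f _ => ?_
    congr 1
    have h1 : ∀ c : Fin q, zz f x c * zz f y c = if c ∉ SS f y then zz f x c else 0 := by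
      intro c
      by_cases hc : c ∈ SS f y
      · have h2 : zz f y c = 0 := by
          unfold zz
          rw [if_pos hc]
        rw [h2, if_neg (not_not.mpr hc), mul_zero]
      · have h2 : zz f y c = 1 := by
          unfold zz
          rw [if_neg hc]
        rw [h2, if_pos hc, mul_one]
    rw [sum_congr rfl fun c _ => h1 c, ← sum_filter]
    apply sum_congr _ fun _ _ => rfl
    ext c
    simp
  · intro f a c
    unfold zz
    rw [hS]

end Pool.Agent.LIN

end

/-! ### from `Lib_MP_2c424f_thr.A2` -/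

section

/-!
# THR A2: fixed points of `F ∘ F` (paper proof: A2)

`y = F (F y)`, `z = F y`: `y e^(a z) = z e^(a y) = 1/α*`.
* If `y = z`: `y e^(a y) = 1/α*`, unique `y` (strictly increasing), the point `yM` (`YM`); at `y = 1`: `e^a > e^a / cosh (a m)`, so `yM < 1`.
* If `y ≠ z`, say `y < z`: with `θ = a (z-y)/2 > 0`: `a y = θ e^(-θ)/sinh θ`, `a z = θ e^θ/sinh θ` (from `z/y = e^(a(z-y))`) and
  `log (a/α*) = log (a y) + a z = log (θ/sinh θ) + θ coth θ =: K θ`, `K' = 1/θ - θ/sinh² θ > 0`; `θ = a m` is a solution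
  (`y = 1-m`, `z = 1+m`), so it is the only one.
* `1 - m < yM`: otherwise `yM ≤ 1-m < 1+m = F (1-m) ≤ F yM = yM`, contradiction (`F` is decreasing).
-/

set_option autoImplicit false

open Finset Filter

namespace Pool.Agent.THR

private lemma Fy_anti_A2 (a m : ℝ) (ha : 0 < a) : StrictAnti (Fy a m) := by
  intro y y' hyy
  have h0 := als_pos a m
  unfold Fy
  apply div_lt_div_of_pos_right _ h0
  apply Real.exp_lt_exp.mpr
  have := mul_lt_mul_of_pos_left hyy ha
  linarith

private lemma Fy_pos_A2 (a m y : ℝ) : 0 < Fy a m y := div_pos (Real.exp_pos _) (als_pos a m)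

private lemma one_lt_cosh_A2 (a m : ℝ) (ha : 1 < a) (h : 0 < m) : 1 < Real.cosh (a * m) :=
  Real.one_lt_cosh.mpr (mul_pos (by linarith) h).ne'

theorem ym_exists (a m : ℝ) (ha : 1 < a) (h : MFE a m) : ∃ y : ℝ, YM a m y := by
  have hal := als_pos a m
  have hc := one_lt_cosh_A2 a m ha h.1
  have hcont : ContinuousOn (fun y : ℝ => y - Fy a m y) (Set.Icc 0 1) := by
    apply Continuous.continuousOn
    unfold Fy
    fun_prop
  have h0 : (fun y : ℝ => y - Fy a m y) 0 ≤ 0 := by
    have := Fy_pos_A2 a m 0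
    simp only
    linarith
  have h1 : 0 ≤ (fun y : ℝ => y - Fy a m y) 1 := by
    have : Fy a m 1 ≤ 1 := by
      unfold Fy als
      rw [mul_one, div_le_one (by positivity)]
      exact le_mul_of_one_le_right (Real.exp_pos _).le hc.le
    simp only
    linarith
  obtain ⟨y, hy, hy'⟩ := intermediate_value_Icc (zero_le_one) hcont ⟨h0, h1⟩
  refine ⟨y, hy.1, ?_⟩
  simp only at hy'
  linarith

theorem ym_bounds (a m y : ℝ) (ha : 1 < a) (h : MFE a m) (hy : YM a m y) : 1 - m < y ∧ y < 1 := by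
  have ha0 : 0 < a := by linarith
  have hanti := Fy_anti_A2 a m ha0
  have hc := one_lt_cosh_A2 a m ha h.1
  constructor
  · by_contra hcon
    push Not at hcon
    have h1 := hanti.antitone hcon
    rw [Fy_sub a m h, ← hy.2] at h1
    have := h.1
    linarith
  · by_contra hcon
    push Not at hcon
    have h1 := hanti.antitone hcon
    rw [← hy.2] at h1
    have h2 : Fy a m 1 < 1 := by
      unfold Fy als
      rw [mul_one, div_lt_one (by positivity)]
      exact lt_mul_of_one_lt_right (Real.exp_pos _) hc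
    linarith

theorem ym_unique (a m y y' : ℝ) (ha : 1 < a) (hy : YM a m y) (hy' : YM a m y') : y = y' := by
  have hanti := Fy_anti_A2 a m (by linarith)
  rcases lt_trichotomy y y' with hlt | heq | hgt
  · have := hanti hlt
    rw [← hy.2, ← hy'.2] at this
    linarith
  · exact heq
  · have := hanti hgt
    rw [← hy.2, ← hy'.2] at this
    linarith

/-- the function `K` is strictly increasing -/
theorem K_mono : StrictMonoOn (fun θ : ℝ => Real.log (θ / Real.sinh θ) + θ * Real.cosh θ / Real.sinh θ) (Set.Ioi 0) := by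
  have hder : ∀ θ : ℝ, 0 < θ → HasDerivAt
      (fun θ : ℝ => Real.log (θ / Real.sinh θ) + θ * Real.cosh θ / Real.sinh θ)
      (1 / θ - θ / Real.sinh θ ^ 2) θ := by
    intro θ hθ
    have hs : 0 < Real.sinh θ := Real.sinh_pos_iff.mpr hθ
    have h1 : HasDerivAt (fun θ : ℝ => θ / Real.sinh θ)
        ((1 * Real.sinh θ - θ * Real.cosh θ) / Real.sinh θ ^ 2) θ :=
      (hasDerivAt_id θ).div (Real.hasDerivAt_sinh θ) hs.ne'
    have h2 := h1.log (div_pos hθ hs).ne'
    have h3 : HasDerivAt (fun θ : ℝ => θ * Real.cosh θ / Real.sinh θ)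
        (((1 * Real.cosh θ + θ * Real.sinh θ) * Real.sinh θ - θ * Real.cosh θ * Real.cosh θ) / Real.sinh θ ^ 2) θ :=
      ((hasDerivAt_id θ).mul (Real.hasDerivAt_cosh θ)).div (Real.hasDerivAt_sinh θ) hs.ne'
    have h4 := h2.add h3
    refine h4.congr_deriv ?_
    have hcs : Real.cosh θ ^ 2 = Real.sinh θ ^ 2 + 1 := by
      have := Real.cosh_sq θ
      linarith
    field_simp
    ring_nf
    rw [hcs]
    ring
  apply strictMonoOn_of_deriv_pos (convex_Ioi 0)
  · intro θ hθ
    exact (hder θ hθ).continuousAt.continuousWithinAt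
  · intro θ hθ
    rw [interior_Ioi] at hθ
    have hθ0 : 0 < θ := hθ
    rw [(hder θ hθ0).deriv]
    have hs : θ < Real.sinh θ := Real.self_lt_sinh_iff.mpr hθ0
    have hs0 : 0 < Real.sinh θ := hθ0.trans hs
    rw [sub_pos, div_lt_div_iff₀ (by positivity) hθ0]
    nlinarith

private lemma pair_A2 {a α y z : ℝ} (ha : 0 < a) (hα : 0 < α) (hy : 0 < y) (hyz : y < z)
    (h1 : y * α = Real.exp (-(a * z))) (h2 : z * α = Real.exp (-(a * y))) :
    ∃ θ : ℝ, 0 < θ ∧ a * y = θ * Real.exp (-θ) / Real.sinh θ ∧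
      Real.log (θ / Real.sinh θ) + θ * Real.cosh θ / Real.sinh θ = Real.log (a / α) := by
  have hθ : 0 < a * (z - y) / 2 := by
    have := mul_pos ha (sub_pos.mpr hyz)
    linarith
  refine ⟨a * (z - y) / 2, hθ, ?_⟩
  set θ : ℝ := a * (z - y) / 2 with hθd
  have hs : 0 < Real.sinh θ := Real.sinh_pos_iff.mpr hθ
  have hz : 0 < z := hy.trans hyz
  -- z = y exp (2θ)
  have hz2 : z = y * Real.exp (2 * θ) := by
    have e1 : z * α = y * α * Real.exp (2 * θ) := by
      rw [h1, h2, ← Real.exp_add]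
      congr 1
      rw [hθd]
      ring
    have : (z - y * Real.exp (2 * θ)) * α = 0 := by
      linear_combination e1
    rcases mul_eq_zero.mp this with h | h
    · linarith
    · exact absurd h hα.ne'
  have hexp : Real.exp (2 * θ) = Real.exp θ * Real.exp θ := by
    rw [← Real.exp_add]; congr 1; ring
  have hsinh : Real.sinh θ = (Real.exp θ - Real.exp (-θ)) / 2 := Real.sinh_eq θ
  have hinv : Real.exp θ * Real.exp (-θ) = 1 := by
    rw [← Real.exp_add]; simp
  have hay : a * y = θ * Real.exp (-θ) / Real.sinh θ := by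
    rw [eq_div_iff hs.ne', hsinh]
    have : 2 * θ = a * (y * Real.exp (2 * θ) - y) := by
      rw [← hz2, hθd]; ring
    rw [hexp] at this
    have e2 : a * y * ((Real.exp θ - Real.exp (-θ)) / 2) =
        Real.exp (-θ) * (a * (y * (Real.exp θ * Real.exp θ) - y)) / 2 := by
      linear_combination (-(a * y * Real.exp θ / 2)) * hinv
    rw [e2, ← this]
    ring
  refine ⟨hay, ?_⟩
  have haz : a * z = θ * Real.exp θ / Real.sinh θ := by
    rw [hz2, ← mul_assoc, hay, hexp]
    have : θ * Real.exp (-θ) / Real.sinh θ * (Real.exp θ * Real.exp θ) =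
        θ * (Real.exp θ * Real.exp (-θ)) * Real.exp θ / Real.sinh θ := by ring
    rw [this, hinv, mul_one]
  have hlog1 : Real.log (a / α) = Real.log (a * y) + a * z := by
    have e3 : a / α = a * y * Real.exp (a * z) := by
      rw [div_eq_iff hα.ne']
      have : a * y * Real.exp (a * z) * α = a * (y * α) * Real.exp (a * z) := by ring
      rw [this, h1, mul_assoc, ← Real.exp_add]
      simp
    rw [e3, Real.log_mul (by positivity) (Real.exp_pos _).ne', Real.log_exp]
  have hlog2 : Real.log (a * y) = Real.log (θ / Real.sinh θ) - θ := by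
    rw [hay]
    have : θ * Real.exp (-θ) / Real.sinh θ = θ / Real.sinh θ * Real.exp (-θ) := by ring
    rw [this, Real.log_mul (by positivity) (Real.exp_pos _).ne', Real.log_exp]
    ring
  rw [hlog1, hlog2, haz]
  have hcosh : Real.cosh θ = Real.exp θ - Real.sinh θ := by
    rw [Real.cosh_eq, hsinh]; ring
  rw [hcosh]
  field_simp
  ring

theorem fixed_FF (a m yM y : ℝ) (ha : 1 < a) (h : MFE a m) (hM : YM a m yM) (hy : 0 ≤ y)
    (hF : y = Fy a m (Fy a m y)) : y = 1 - m ∨ y = yM ∨ y = 1 + m := by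
  have ha0 : 0 < a := by linarith
  have hα := als_pos a m
  have hmul : ∀ x w : ℝ, x = Fy a m w → x * als a m = Real.exp (-(a * w)) := by
    intro x w hxw
    rw [hxw]
    unfold Fy
    rw [div_mul_cancel₀ _ hα.ne']
  have hm1 : m < 1 := mfe_lt a m h
  have hm0 : 0 < m := h.1
  have href := pair_A2 ha0 hα (show (0 : ℝ) < 1 - m by linarith) (show 1 - m < 1 + m by linarith)
    (hmul _ _ (Fy_add a m h).symm) (hmul _ _ (Fy_sub a m h).symm)
  obtain ⟨θ₀, hθ₀, hθ₀y, hθ₀K⟩ := href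
  have key : ∀ x w : ℝ, 0 < x → x < w → x = Fy a m w → w = Fy a m x → x = 1 - m := by
    intro x w hx hxw h1 h2
    obtain ⟨θ, hθ, hθy, hθK⟩ := pair_A2 ha0 hα hx hxw (hmul _ _ h1) (hmul _ _ h2)
    have : θ = θ₀ := K_mono.injOn (Set.mem_Ioi.mpr hθ) (Set.mem_Ioi.mpr hθ₀) (by
      show Real.log (θ / Real.sinh θ) + θ * Real.cosh θ / Real.sinh θ =
        Real.log (θ₀ / Real.sinh θ₀) + θ₀ * Real.cosh θ₀ / Real.sinh θ₀
      rw [hθK, hθ₀K])
    rw [this, ← hθ₀y] at hθy
    exact mul_left_cancel₀ ha0.ne' hθy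
  set z : ℝ := Fy a m y with hz
  have hz0 : 0 < z := Fy_pos_A2 a m y
  have hy0 : 0 < y := by rw [hF]; exact Fy_pos_A2 a m z
  rcases lt_trichotomy y z with hlt | heq | hgt
  · left
    exact key y z hy0 hlt hF hz
  · right; left
    exact ym_unique a m y yM ha ⟨hy, by rw [← hz]; exact heq⟩ hM
  · right; right
    have := key z y hz0 hgt hz hF
    rw [hF, this]
    exact Fy_sub a m h

end Pool.Agent.THR

end

/-! ### from `Lib_MP_2c424f_thr.A3` -/

section

/-!
# THR A3: the deficit is nonnegative (paper proof: A3)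

For `y > 0`: `L' y = log y + a F y + log α*` (use `ell_eq` and `log (1-m) = - a (1+m) - log α*`, `log (1+m) = -a(1-m) - log α*` from
`Fy_add`, `Fy_sub`), so `L' y = 0 ↔ log y = - a F y - log α* ↔ y = F (F y)`, `L' y > 0 ↔ y > F (F y)`.
`F (F 0) > 0`, `F (F y) ≤ 1/α*`.  `L'' (1-m) = (1 - a²(1-m²))/(1-m) > 0` (`mfe_nondeg`), so `L'` changes sign from `-` to `+` at `1-m`;
zeros of `L'`: `1-m, yM, 1+m`.  So `L' < 0` on `(0,1-m)`, `L' > 0` on `(1-m,yM)`; on `(yM,1+m)` the sign is constant, and it is negative since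
`L (1-m) = L (1+m) = 0`; `L' > 0` on `(1+m,∞)` since `L' > 0` for large `y`.  Hence `L ≥ 0`, with zeros `1 ± m` only (`L` is continuous at `0`:
`negMulLog`, `L 0 > 0` since `L` is strictly decreasing on `[0,1-m]`).
-/

set_option autoImplicit false

open Finset Filter

namespace Pool.Agent.THR

private lemma log_Fy_A3 (a m z : ℝ) : Real.log (Fy a m z) = -(a * z) - Real.log (als a m) := by
  unfold Fy
  rw [Real.log_div (Real.exp_pos _).ne' (als_pos a m).ne', Real.log_exp]

private lemma Fy_pos_A3 (a m y : ℝ) : 0 < Fy a m y := div_pos (Real.exp_pos _) (als_pos a m)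

private lemma Fy_deriv_A3 (a m y : ℝ) : HasDerivAt (Fy a m) (-(a * Fy a m y)) y := by
  have h1 : HasDerivAt (fun y : ℝ => -(a * y)) (-(a * 1)) y := ((hasDerivAt_id y).const_mul a).neg
  have h2 : HasDerivAt (fun y : ℝ => Real.exp (-(a * y)) / als a m)
      (Real.exp (-(a * y)) * (-(a * 1)) / als a m) y := h1.exp.div_const _
  refine h2.congr_deriv ?_
  unfold Fy
  ring

theorem LL_deriv (a m y : ℝ) (ha : 1 < a) (h : MFE a m) (hy : 0 < y) :
    HasDerivAt (LL a m) (Real.log y + a * Fy a m y + Real.log (als a m)) y := by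
  have hs : -Real.log (1 + m) - 1 - a * (1 - m) = Real.log (als a m) - 1 := by
    have := log_Fy_A3 a m (1 - m)
    rw [Fy_sub a m h] at this
    linarith
  have hfun : LL a m = fun y : ℝ => ell a m 1 + (Real.log (als a m) - 1) * (y - 1) -
      (Real.negMulLog y + Fy a m y) := by
    funext z
    unfold LL
    rw [ell_eq a m z h, hs]
    rfl
  rw [hfun]
  have h1 : HasDerivAt (fun y : ℝ => ell a m 1 + (Real.log (als a m) - 1) * (y - 1))
      ((Real.log (als a m) - 1) * 1) y :=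
    (((hasDerivAt_id y).sub_const 1).const_mul _).const_add _
  have h2 : HasDerivAt (fun y : ℝ => Real.negMulLog y + Fy a m y)
      ((-Real.log y - 1) + (-(a * Fy a m y))) y :=
    (Real.hasDerivAt_negMulLog hy.ne').add (Fy_deriv_A3 a m y)
  refine (h1.sub h2).congr_deriv ?_
  ring

theorem LL_sign (a m y : ℝ) (ha : 1 < a) (h : MFE a m) (hy : 0 < y) :
    0 < Real.log y + a * Fy a m y + Real.log (als a m) ↔ Fy a m (Fy a m y) < y := by
  rw [← Real.log_lt_log_iff (Fy_pos_A3 a m _) hy, log_Fy_A3]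
  constructor <;> intro h1 <;> linarith

private noncomputable def DD_A3 (a m y : ℝ) : ℝ := Real.log y + a * Fy a m y + Real.log (als a m)

private lemma DD_zero_A3 (a m yM y : ℝ) (ha : 1 < a) (h : MFE a m) (hM : YM a m yM) (hy : 0 < y)
    (h0 : DD_A3 a m y = 0) : y = 1 - m ∨ y = yM ∨ y = 1 + m := by
  apply fixed_FF a m yM y ha h hM hy.le
  apply Real.log_injOn_pos (Set.mem_Ioi.mpr hy) (Set.mem_Ioi.mpr (Fy_pos_A3 a m _))
  rw [log_Fy_A3]
  unfold DD_A3 at h0
  linarith

private lemma DD_cont_A3 (a m : ℝ) : ContinuousOn (DD_A3 a m) (Set.Ioi 0) := by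
  intro y hy
  have hy' : (y : ℝ) ≠ 0 := (Set.mem_Ioi.mp hy).ne'
  have h1 : HasDerivAt (DD_A3 a m) (y⁻¹ + a * (-(a * Fy a m y))) y :=
    ((Real.hasDerivAt_log hy').add ((Fy_deriv_A3 a m y).const_mul a)).add_const _
  exact h1.continuousAt.continuousWithinAt

private lemma DD_deriv_A3 (a m y : ℝ) (hy : 0 < y) :
    HasDerivAt (DD_A3 a m) (y⁻¹ + a * (-(a * Fy a m y))) y :=
  ((Real.hasDerivAt_log hy.ne').add ((Fy_deriv_A3 a m y).const_mul a)).add_const _

/-- right of a zero with positive derivative the function is positive up to the next zero -/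
private lemma right_A3 (D : ℝ → ℝ) (z w d : ℝ) (hz : 0 < z) (hc : ContinuousOn D (Set.Ioi 0)) (h0 : D z = 0)
    (hd : HasDerivAt D d z) (hd0 : 0 < d) (hn : ∀ x, z < x → x < w → D x ≠ 0) :
    ∀ x, z < x → x < w → 0 < D x := by
  intro x hzx hxw
  by_contra hcon
  push Not at hcon
  have hx : D x < 0 := lt_of_le_of_ne hcon (hn x hzx hxw)
  have h1 := (hasDerivAt_iff_tendsto_slope.mp hd).eventually (lt_mem_nhds hd0)
  have h2 : ∀ᶠ t in nhdsWithin z (Set.Ioi z), 0 < slope D z t :=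
    h1.filter_mono (nhdsWithin_mono z (fun t ht => (Set.mem_Ioi.mp ht).ne'))
  have h3 : ∀ᶠ t in nhdsWithin z (Set.Ioi z), t < x := by
    have : ∀ᶠ t in nhds z, t < x := gt_mem_nhds hzx
    exact this.filter_mono nhdsWithin_le_nhds
  have h4 : ∀ᶠ t in nhdsWithin z (Set.Ioi z), z < t := self_mem_nhdsWithin
  obtain ⟨t, ⟨ht1, ht2⟩, ht3⟩ := ((h2.and h3).and h4).exists
  rw [slope_def_field, h0, sub_zero] at ht1
  have ht0 : 0 < D t := by
    have := mul_pos ht1 (sub_pos.mpr ht3)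
    rwa [div_mul_cancel₀ _ (sub_pos.mpr ht3).ne'] at this
  have hcc : ContinuousOn D (Set.Icc t x) := hc.mono (fun s hs => lt_of_lt_of_le (hz.trans ht3) hs.1)
  obtain ⟨s, hs, hs'⟩ := intermediate_value_Icc' ht2.le hcc ⟨hx.le, ht0.le⟩
  exact hn s (lt_of_lt_of_le ht3 hs.1) (lt_of_le_of_lt hs.2 hxw) hs'

/-- left of a zero with positive derivative the function is negative up to the next zero -/
private lemma left_A3 (D : ℝ → ℝ) (z w d : ℝ) (hw : 0 ≤ w) (hc : ContinuousOn D (Set.Ioi 0)) (h0 : D z = 0)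
    (hd : HasDerivAt D d z) (hd0 : 0 < d) (hn : ∀ x, w < x → x < z → D x ≠ 0) :
    ∀ x, w < x → x < z → D x < 0 := by
  intro x hwx hxz
  by_contra hcon
  push Not at hcon
  have hx : 0 < D x := lt_of_le_of_ne hcon (hn x hwx hxz).symm
  have h1 := (hasDerivAt_iff_tendsto_slope.mp hd).eventually (lt_mem_nhds hd0)
  have h2 : ∀ᶠ t in nhdsWithin z (Set.Iio z), 0 < slope D z t :=
    h1.filter_mono (nhdsWithin_mono z (fun t ht => (Set.mem_Iio.mp ht).ne))
  have h3 : ∀ᶠ t in nhdsWithin z (Set.Iio z), x < t := by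
    have : ∀ᶠ t in nhds z, x < t := lt_mem_nhds hxz
    exact this.filter_mono nhdsWithin_le_nhds
  have h4 : ∀ᶠ t in nhdsWithin z (Set.Iio z), t < z := self_mem_nhdsWithin
  obtain ⟨t, ⟨ht1, ht2⟩, ht3⟩ := ((h2.and h3).and h4).exists
  rw [slope_def_field, h0, sub_zero] at ht1
  have ht0 : D t < 0 := by
    have := mul_neg_of_pos_of_neg ht1 (sub_neg.mpr ht3)
    rwa [div_mul_cancel₀ _ (sub_neg.mpr ht3).ne] at this
  have hcc : ContinuousOn D (Set.Icc x t) := hc.mono (fun s hs => lt_of_lt_of_le (lt_of_le_of_lt hw hwx) hs.1)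
  obtain ⟨s, hs, hs'⟩ := intermediate_value_Icc' ht2.le hcc ⟨ht0.le, hx.le⟩
  exact hn s (lt_of_lt_of_le hwx hs.1) (lt_of_le_of_lt hs.2 ht3) hs'

private lemma LL_cont_A3 (a m : ℝ) : Continuous (LL a m) := by
  unfold LL ell psi Fy
  have := Real.continuous_negMulLog
  fun_prop

/-- everything about the deficit -/
private lemma main_A3 (a m y : ℝ) (ha : 1 < a) (h : MFE a m) (hy : 0 ≤ y) :
    0 ≤ LL a m y ∧ (LL a m y = 0 → y = 1 - m ∨ y = 1 + m) := by
  obtain ⟨yM, hM⟩ := ym_exists a m ha h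
  obtain ⟨hM1, hM2⟩ := ym_bounds a m yM ha h hM
  have hm0 : 0 < m := h.1
  have hm1 : m < 1 := mfe_lt a m h
  have hnd := mfe_nondeg a m ha h
  have hc := DD_cont_A3 a m
  have hz1 : DD_A3 a m (1 - m) = 0 := by
    have := log_Fy_A3 a m (1 + m)
    rw [Fy_add a m h] at this
    unfold DD_A3
    rw [this, Fy_sub a m h]; ring
  have hz2 : DD_A3 a m (1 + m) = 0 := by
    have := log_Fy_A3 a m (1 - m)
    rw [Fy_sub a m h] at this
    unfold DD_A3
    rw [this, Fy_add a m h]; ring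
  have hd1 := DD_deriv_A3 a m (1 - m) (by linarith)
  have hd2 := DD_deriv_A3 a m (1 + m) (by linarith)
  have hp1 : 0 < (1 - m)⁻¹ + a * (-(a * Fy a m (1 - m))) := by
    rw [Fy_sub a m h]
    have e : (1 - m)⁻¹ + a * (-(a * (1 + m))) = (1 - a ^ 2 * (1 - m ^ 2)) / (1 - m) := by
      have : (1 - m) ≠ 0 := by linarith
      field_simp
      ring
    rw [e]
    exact div_pos (by linarith) (by linarith)
  have hp2 : 0 < (1 + m)⁻¹ + a * (-(a * Fy a m (1 + m))) := by
    rw [Fy_add a m h]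
    have e : (1 + m)⁻¹ + a * (-(a * (1 - m))) = (1 - a ^ 2 * (1 - m ^ 2)) / (1 + m) := by
      have : (1 + m) ≠ 0 := by linarith
      field_simp
      ring
    rw [e]
    exact div_pos (by linarith) (by linarith)
  -- signs
  have s1 : ∀ x, 0 < x → x < 1 - m → DD_A3 a m x < 0 := by
    apply left_A3 _ _ 0 _ le_rfl hc hz1 hd1 hp1
    intro x hx0 hx1 h0
    rcases DD_zero_A3 a m yM x ha h hM hx0 h0 with h' | h' | h' <;> linarith
  have s2 : ∀ x, 1 - m < x → x < yM → 0 < DD_A3 a m x := by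
    apply right_A3 _ _ _ _ (by linarith) hc hz1 hd1 hp1
    intro x hx0 hx1 h0
    rcases DD_zero_A3 a m yM x ha h hM (by linarith) h0 with h' | h' | h' <;> linarith
  have s3 : ∀ x, yM < x → x < 1 + m → DD_A3 a m x < 0 := by
    apply left_A3 _ _ _ _ hM.1 hc hz2 hd2 hp2
    intro x hx0 hx1 h0
    rcases DD_zero_A3 a m yM x ha h hM (lt_of_le_of_lt hM.1 hx0) h0 with h' | h' | h' <;> linarith
  have s4 : ∀ x, 1 + m < x → 0 < DD_A3 a m x := by
    intro x hx
    apply right_A3 (DD_A3 a m) (1 + m) (x + 1) _ (by linarith) hc hz2 hd2 hp2 _ x hx (by linarith)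
    intro x hx0 hx1 h0
    rcases DD_zero_A3 a m yM x ha h hM (by linarith) h0 with h' | h' | h' <;> linarith
  have hL := LL_zero a m h
  have hcont := LL_cont_A3 a m
  have hder : ∀ x, 0 < x → deriv (LL a m) x = DD_A3 a m x := fun x hx => (LL_deriv a m x ha h hx).deriv
  rcases le_total y (1 - m) with hy1 | hy1
  · -- first interval
    have hanti : StrictAntiOn (LL a m) (Set.Icc 0 (1 - m)) := by
      apply strictAntiOn_of_deriv_neg (convex_Icc _ _) hcont.continuousOn
      intro x hx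
      rw [interior_Icc] at hx
      rw [hder x hx.1]
      exact s1 x hx.1 hx.2
    rcases hy1.lt_or_eq with hlt | heq
    · have := hanti ⟨hy, hy1⟩ ⟨by linarith, le_rfl⟩ hlt
      rw [hL.2] at this
      exact ⟨this.le, fun h0 => by linarith⟩
    · rw [heq, hL.2]
      exact ⟨le_rfl, fun _ => Or.inl rfl⟩
  rcases le_total y yM with hy2 | hy2
  · have hmono : StrictMonoOn (LL a m) (Set.Icc (1 - m) yM) := by
      apply strictMonoOn_of_deriv_pos (convex_Icc _ _) hcont.continuousOn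
      intro x hx
      rw [interior_Icc] at hx
      rw [hder x (by linarith [hx.1])]
      exact s2 x hx.1 hx.2
    rcases hy1.lt_or_eq with hlt | heq
    · have := hmono ⟨le_rfl, hM1.le⟩ ⟨hy1, hy2⟩ hlt
      rw [hL.2] at this
      exact ⟨this.le, fun h0 => by linarith⟩
    · rw [← heq, hL.2]
      exact ⟨le_rfl, fun _ => Or.inl rfl⟩
  rcases le_total y (1 + m) with hy3 | hy3
  · have hanti : StrictAntiOn (LL a m) (Set.Icc yM (1 + m)) := by
      apply strictAntiOn_of_deriv_neg (convex_Icc _ _) hcont.continuousOn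
      intro x hx
      rw [interior_Icc] at hx
      rw [hder x (lt_of_le_of_lt hM.1 hx.1)]
      exact s3 x hx.1 hx.2
    rcases hy3.lt_or_eq with hlt | heq
    · have := hanti ⟨hy2, hy3⟩ ⟨by linarith, le_rfl⟩ hlt
      rw [hL.1] at this
      exact ⟨this.le, fun h0 => by linarith⟩
    · rw [heq, hL.1]
      exact ⟨le_rfl, fun _ => Or.inr rfl⟩
  · have hmono : StrictMonoOn (LL a m) (Set.Ici (1 + m)) := by
      apply strictMonoOn_of_deriv_pos (convex_Ici _) hcont.continuousOn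
      intro x hx
      rw [interior_Ici] at hx
      have hx' : 1 + m < x := hx
      rw [hder x (by linarith)]
      exact s4 x hx'
    rcases hy3.lt_or_eq with hlt | heq
    · have := hmono (Set.mem_Ici.mpr le_rfl) (Set.mem_Ici.mpr hy3) hlt
      rw [hL.1] at this
      exact ⟨this.le, fun h0 => by linarith⟩
    · rw [← heq, hL.1]
      exact ⟨le_rfl, fun _ => Or.inr rfl⟩

theorem LL_nonneg (a m y : ℝ) (ha : 1 < a) (h : MFE a m) (hy : 0 ≤ y) : 0 ≤ LL a m y := by
  exact (main_A3 a m y ha h hy).1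

theorem LL_eq_zero (a m y : ℝ) (ha : 1 < a) (h : MFE a m) (hy : 0 ≤ y) (hL : LL a m y = 0) : y = 1 - m ∨ y = 1 + m := by
  exact (main_A3 a m y ha h hy).2 hL

end Pool.Agent.THR

end

/-! ### from `Lib_MP_2c424f_thr.A4` -/

section

/-!
# THR A4: uniform estimates (paper proof: A4)

`cpt`: abstract lemma: on a compact set, `u ≤ η + C v` if `u, v ≥ 0` continuous and `v = 0 → u = 0` (the set `{u ≥ η}` is compact, `v > 0` there, so
`v ≥ δ > 0`, `C = sup u/δ`).
Compact set: `{(a,m,yM,y) : 1 < a₁ ≤ a ≤ A, m ∈ [0,1], m² ≥ 3(a-1)/a³, m = tanh (a m), yM ∈ [0,1], yM = F yM, 0 ≤ y ≤ Y}` (closed and bounded; all functions are continuous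
on it: `als ≥ e^(-a)`, `negMulLog` is continuous, `m ≥ √(3(a₁-1)/A³) > 0`).
* `est1`: `|e^(-ay) - α*(2-y)|` vanishes at `1 ± m`.
* `est2`: `dst2`;  `est3`: `dst3` against `|y - F (F y)|` (`fixed_FF`).
* `gap`: minimum of `yM - (1-m)`, `1 - yM`, `m` over the compact set.
-/

set_option autoImplicit false

open Finset Filter

namespace Pool.Agent.THR

theorem cpt {X : Type*} [TopologicalSpace X] (S : Set X) (hS : IsCompact S) (u v : X → ℝ) (hu : ContinuousOn u S)
    (hv : ContinuousOn v S) (hv0 : ∀ x ∈ S, 0 ≤ v x) (h : ∀ x ∈ S, v x = 0 → u x ≤ 0) (η : ℝ) (hη : 0 < η) :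
    ∃ C : ℝ, 0 < C ∧ ∀ x ∈ S, u x ≤ η + C * v x := by
  obtain ⟨Z, hZ, hZe⟩ := continuousOn_iff_isClosed.1 hu (Set.Ici η) isClosed_Ici
  have hT : IsCompact (Z ∩ S) := hS.inter_left hZ
  rcases (Z ∩ S).eq_empty_or_nonempty with he | hne
  · refine ⟨1, one_pos, fun x hx => ?_⟩
    have h1 : ¬ η ≤ u x := by
      intro hc
      have : x ∈ u ⁻¹' Set.Ici η ∩ S := ⟨hc, hx⟩
      rw [hZe, he] at this
      exact this
    have := hv0 x hx
    push Not at h1
    linarith
  · obtain ⟨x0, hx0, hmin⟩ := hT.exists_isMinOn hne (hv.mono Set.inter_subset_right)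
    obtain ⟨x1, hx1, hmax⟩ := hS.exists_isMaxOn (hne.mono Set.inter_subset_right) hu
    have hx0' : η ≤ u x0 := by
      have : x0 ∈ u ⁻¹' Set.Ici η ∩ S := by rw [hZe]; exact hx0
      exact this.1
    have hδ : 0 < v x0 := by
      rcases (hv0 x0 hx0.2).lt_or_eq with h1 | h1
      · exact h1
      · have := h x0 hx0.2 h1.symm
        linarith
    refine ⟨max (u x1) 1 / v x0, by positivity, fun x hx => ?_⟩
    by_cases hc : η ≤ u x
    · have hxT : x ∈ Z ∩ S := by rw [← hZe]; exact ⟨hc, hx⟩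
      have h1 : v x0 ≤ v x := hmin hxT
      have h2 : u x ≤ u x1 := hmax hx
      have h3 : max (u x1) 1 = max (u x1) 1 / v x0 * v x0 := by field_simp
      have h4 : max (u x1) 1 / v x0 * v x0 ≤ max (u x1) 1 / v x0 * v x :=
        mul_le_mul_of_nonneg_left h1 (by positivity)
      have h5 := le_max_left (u x1) 1
      linarith
    · push Not at hc
      have h1 := hv0 x hx
      have h2 : 0 ≤ max (u x1) 1 / v x0 * v x := mul_nonneg (by positivity) h1
      linarith

/-- the compact set of parameters -/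
def A4S (b₁ A Y : ℝ) : Set (ℝ × ℝ × ℝ × ℝ) :=
  Set.Icc (b₁, 0, 0, 0) (A, 1, 1, Y) ∩
    {p | 3 * (p.1 - 1) ≤ p.2.1 ^ 2 * p.1 ^ 3 ∧ p.2.1 = Real.tanh (p.1 * p.2.1) ∧ p.2.2.1 = Fy p.1 p.2.1 p.2.2.1}

private theorem A4_tanh_cont : Continuous Real.tanh := by
  have : Real.tanh = fun x => Real.sinh x / Real.cosh x := by
    funext x; exact Real.tanh_eq_sinh_div_cosh x
  rw [this]
  exact Real.continuous_sinh.div Real.continuous_cosh fun x => (Real.cosh_pos x).ne'

private theorem A4_als_cont {X : Type*} [TopologicalSpace X] {f g : X → ℝ} (hf : Continuous f) (hg : Continuous g) :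
    Continuous fun x => als (f x) (g x) := by
  unfold als
  exact (Real.continuous_exp.comp hf.neg).mul (Real.continuous_cosh.comp (hf.mul hg))

private theorem A4_Fy_cont {X : Type*} [TopologicalSpace X] {f g h : X → ℝ} (hf : Continuous f) (hg : Continuous g)
    (hh : Continuous h) : Continuous fun x => Fy (f x) (g x) (h x) := by
  unfold Fy
  exact (Real.continuous_exp.comp (hf.mul hh).neg).div (A4_als_cont hf hg) fun x => (als_pos _ _).ne'

private theorem A4_psi_cont {X : Type*} [TopologicalSpace X] {f g h : X → ℝ} (hf : Continuous f) (hg : Continuous g)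
    (hh : Continuous h) : Continuous fun x => psi (f x) (g x) (h x) := by
  unfold psi
  exact (Real.continuous_negMulLog.comp hh).add (A4_Fy_cont hf hg hh)

private theorem A4_LL_cont {X : Type*} [TopologicalSpace X] (S : Set X) {f g h : X → ℝ} (hf : Continuous f) (hg : Continuous g)
    (hh : Continuous h) (hpos : ∀ x ∈ S, g x ≠ 0) : ContinuousOn (fun x => LL (f x) (g x) (h x)) S := by
  unfold LL ell
  have h1 := A4_psi_cont hf hg (continuous_const.add hg (f := fun _ : X => (1 : ℝ)))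
  have h2 := A4_psi_cont hf hg (continuous_const.sub hg (f := fun _ : X => (1 : ℝ)))
  have h3 := A4_psi_cont hf hg hh
  refine (ContinuousOn.add ((h1.add h2).div_const 2).continuousOn ?_).sub h3.continuousOn
  refine ContinuousOn.mul ?_ (hh.sub continuous_const).continuousOn
  refine (h1.sub h2).continuousOn.div (continuous_const.mul hg).continuousOn fun x hx => ?_
  exact mul_ne_zero two_ne_zero (hpos x hx)

private theorem A4_compact (b₁ A Y : ℝ) : IsCompact (A4S b₁ A Y) := by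
  refine isCompact_Icc.inter_right ?_
  have c1 : Continuous fun p : ℝ × ℝ × ℝ × ℝ => p.1 := continuous_fst
  have c2 : Continuous fun p : ℝ × ℝ × ℝ × ℝ => p.2.1 := continuous_fst.comp continuous_snd
  have c3 : Continuous fun p : ℝ × ℝ × ℝ × ℝ => p.2.2.1 := continuous_fst.comp (continuous_snd.comp continuous_snd)
  refine (isClosed_le (continuous_const.mul (c1.sub continuous_const)) ((c2.pow 2).mul (c1.pow 3))).inter ?_
  exact (isClosed_eq c2 (A4_tanh_cont.comp (c1.mul c2))).inter (isClosed_eq c3 (A4_Fy_cont c1 c2 c3))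

private theorem A4_mem (b₁ A Y a m yM y : ℝ) (h1 : 1 < b₁) (ha : b₁ ≤ a) (hA : a ≤ A) (h : MFE a m) (hM : YM a m yM)
    (hy : 0 ≤ y) (hY : y ≤ Y) : (a, m, yM, y) ∈ A4S b₁ A Y := by
  have ha1 : 1 < a := lt_of_lt_of_le h1 ha
  have hb := ym_bounds a m yM ha1 h hM
  refine ⟨Set.mem_Icc.2 ⟨⟨ha, h.1.le, hM.1, hy⟩, ⟨hA, (mfe_lt a m h).le, hb.2.le, hY⟩⟩, ?_, h.2, hM.2⟩
  have := mfe_lower a m ha1 h
  rw [div_le_iff₀ (by positivity)] at this
  exact this

private theorem A4_of_mem (b₁ A Y : ℝ) (h1 : 1 < b₁) (p : ℝ × ℝ × ℝ × ℝ) (hp : p ∈ A4S b₁ A Y) :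
    1 < p.1 ∧ MFE p.1 p.2.1 ∧ YM p.1 p.2.1 p.2.2.1 ∧ 0 ≤ p.2.2.2 := by
  obtain ⟨hI, hl, ht, hF⟩ := hp
  obtain ⟨⟨hb, hm, hM, hy⟩, -⟩ := Set.mem_Icc.1 hI
  simp only at hb hm hM hy
  have ha1 : 1 < p.1 := lt_of_lt_of_le h1 hb
  have hm0 : 0 < p.2.1 := by
    rcases hm.lt_or_eq with h2 | h2
    · exact h2
    · rw [← h2] at hl
      norm_num at hl
      linarith
  exact ⟨ha1, ⟨hm0, ht⟩, ⟨hM, hF⟩, hy⟩

theorem est1 (b₁ A Y : ℝ) (h1 : 1 < b₁) (η : ℝ) (hη : 0 < η) : ∃ C : ℝ, 0 < C ∧ ∀ a m y : ℝ, b₁ ≤ a → a ≤ A →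
    MFE a m → 0 ≤ y → y ≤ Y → |Real.exp (-(a * y)) - als a m * (2 - y)| ≤ η + C * LL a m y := by
  have c1 : Continuous fun p : ℝ × ℝ × ℝ × ℝ => p.1 := continuous_fst
  have c2 : Continuous fun p : ℝ × ℝ × ℝ × ℝ => p.2.1 := continuous_fst.comp continuous_snd
  have c4 : Continuous fun p : ℝ × ℝ × ℝ × ℝ => p.2.2.2 := continuous_snd.comp (continuous_snd.comp continuous_snd)
  obtain ⟨C, hC, h⟩ := cpt (A4S b₁ A Y) (A4_compact b₁ A Y)
    (fun p => |Real.exp (-(p.1 * p.2.2.2)) - als p.1 p.2.1 * (2 - p.2.2.2)|) (fun p => LL p.1 p.2.1 p.2.2.2)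
    (((Real.continuous_exp.comp (c1.mul c4).neg).sub ((A4_als_cont c1 c2).mul (continuous_const.sub c4))).abs).continuousOn
    (A4_LL_cont _ c1 c2 c4 fun p hp => (A4_of_mem b₁ A Y h1 p hp).2.1.1.ne')
    (fun p hp => by
      obtain ⟨ha, hm, -, hy⟩ := A4_of_mem b₁ A Y h1 p hp
      exact LL_nonneg _ _ _ ha hm hy)
    (fun p hp h0 => by
      obtain ⟨ha, hm, -, hy⟩ := A4_of_mem b₁ A Y h1 p hp
      have hals := als_pos p.1 p.2.1
      rcases LL_eq_zero _ _ _ ha hm hy h0 with e | e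
      · have h2 := Fy_sub _ _ hm
        unfold Fy at h2
        rw [div_eq_iff hals.ne'] at h2
        simp only [e]
        rw [h2]
        have : (1 + p.2.1) * als p.1 p.2.1 - als p.1 p.2.1 * (2 - (1 - p.2.1)) = 0 := by ring
        rw [this, abs_zero]
      · have h2 := Fy_add _ _ hm
        unfold Fy at h2
        rw [div_eq_iff hals.ne'] at h2
        simp only [e]
        rw [h2]
        have : (1 - p.2.1) * als p.1 p.2.1 - als p.1 p.2.1 * (2 - (1 + p.2.1)) = 0 := by ring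
        rw [this, abs_zero]) η hη
  refine ⟨C, hC, fun a m y ha hA hm hy hY => ?_⟩
  obtain ⟨yM, hM⟩ := ym_exists a m (lt_of_lt_of_le h1 ha) hm
  exact h (a, m, yM, y) (A4_mem b₁ A Y a m yM y h1 ha hA hm hM hy hY)

private theorem A4_dst2_cont {X : Type*} [TopologicalSpace X] {g h : X → ℝ} (hg : Continuous g) (hh : Continuous h) :
    Continuous fun x => dst2 (g x) (h x) := by
  unfold dst2
  exact ((hh.sub (continuous_const.sub hg)).abs).min ((hh.sub (continuous_const.add hg)).abs)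

theorem est2 (b₁ A Y : ℝ) (h1 : 1 < b₁) (η : ℝ) (hη : 0 < η) : ∃ C : ℝ, 0 < C ∧ ∀ a m y : ℝ, b₁ ≤ a → a ≤ A →
    MFE a m → 0 ≤ y → y ≤ Y → dst2 m y ≤ η + C * LL a m y := by
  have c1 : Continuous fun p : ℝ × ℝ × ℝ × ℝ => p.1 := continuous_fst
  have c2 : Continuous fun p : ℝ × ℝ × ℝ × ℝ => p.2.1 := continuous_fst.comp continuous_snd
  have c4 : Continuous fun p : ℝ × ℝ × ℝ × ℝ => p.2.2.2 := continuous_snd.comp (continuous_snd.comp continuous_snd)
  obtain ⟨C, hC, h⟩ := cpt (A4S b₁ A Y) (A4_compact b₁ A Y)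
    (fun p => dst2 p.2.1 p.2.2.2) (fun p => LL p.1 p.2.1 p.2.2.2)
    (A4_dst2_cont c2 c4).continuousOn
    (A4_LL_cont _ c1 c2 c4 fun p hp => (A4_of_mem b₁ A Y h1 p hp).2.1.1.ne')
    (fun p hp => by
      obtain ⟨ha, hm, -, hy⟩ := A4_of_mem b₁ A Y h1 p hp
      exact LL_nonneg _ _ _ ha hm hy)
    (fun p hp h0 => by
      obtain ⟨ha, hm, -, hy⟩ := A4_of_mem b₁ A Y h1 p hp
      rcases LL_eq_zero _ _ _ ha hm hy h0 with e | e
      · simp only [e, dst2]
        exact min_le_of_left_le (by simp)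
      · simp only [e, dst2]
        exact min_le_of_right_le (by simp)) η hη
  refine ⟨C, hC, fun a m y ha hA hm hy hY => ?_⟩
  obtain ⟨yM, hM⟩ := ym_exists a m (lt_of_lt_of_le h1 ha) hm
  exact h (a, m, yM, y) (A4_mem b₁ A Y a m yM y h1 ha hA hm hM hy hY)

theorem est3 (b₁ A Y : ℝ) (h1 : 1 < b₁) (η : ℝ) (hη : 0 < η) : ∃ C : ℝ, 0 < C ∧ ∀ a m yM y : ℝ, b₁ ≤ a → a ≤ A →
    MFE a m → YM a m yM → 0 ≤ y → y ≤ Y → dst3 m yM y ≤ η + C * |y - Fy a m (Fy a m y)| := by
  have c1 : Continuous fun p : ℝ × ℝ × ℝ × ℝ => p.1 := continuous_fst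
  have c2 : Continuous fun p : ℝ × ℝ × ℝ × ℝ => p.2.1 := continuous_fst.comp continuous_snd
  have c3 : Continuous fun p : ℝ × ℝ × ℝ × ℝ => p.2.2.1 := continuous_fst.comp (continuous_snd.comp continuous_snd)
  have c4 : Continuous fun p : ℝ × ℝ × ℝ × ℝ => p.2.2.2 := continuous_snd.comp (continuous_snd.comp continuous_snd)
  obtain ⟨C, hC, h⟩ := cpt (A4S b₁ A Y) (A4_compact b₁ A Y)
    (fun p => dst3 p.2.1 p.2.2.1 p.2.2.2) (fun p => |p.2.2.2 - Fy p.1 p.2.1 (Fy p.1 p.2.1 p.2.2.2)|)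
    (by
      unfold dst3
      exact ((A4_dst2_cont c2 c4).min ((c4.sub c3).abs)).continuousOn)
    ((c4.sub (A4_Fy_cont c1 c2 (A4_Fy_cont c1 c2 c4))).abs).continuousOn
    (fun p hp => abs_nonneg _)
    (fun p hp h0 => by
      obtain ⟨ha, hm, hM, hy⟩ := A4_of_mem b₁ A Y h1 p hp
      have h2 := sub_eq_zero.1 (abs_eq_zero.1 h0)
      rcases fixed_FF _ _ _ _ ha hm hM hy h2 with e | e | e
      · simp only [e, dst3, dst2]
        exact min_le_of_left_le (min_le_of_left_le (by simp))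
      · simp only [e, dst3, dst2]
        exact min_le_of_right_le (by simp)
      · simp only [e, dst3, dst2]
        exact min_le_of_left_le (min_le_of_right_le (by simp))) η hη
  refine ⟨C, hC, fun a m yM y ha hA hm hM hy hY => ?_⟩
  exact h (a, m, yM, y) (A4_mem b₁ A Y a m yM y h1 ha hA hm hM hy hY)

theorem gap (b₁ A : ℝ) (h1 : 1 < b₁) : ∃ g : ℝ, 0 < g ∧ g ≤ 1 ∧ ∀ a m yM : ℝ, b₁ ≤ a → a ≤ A → MFE a m → YM a m yM →
    g ≤ m ∧ g ≤ yM - (1 - m) ∧ g ≤ 1 - yM ∧ g ≤ 1 - m := by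
  have c2 : Continuous fun p : ℝ × ℝ × ℝ × ℝ => p.2.1 := continuous_fst.comp continuous_snd
  have c3 : Continuous fun p : ℝ × ℝ × ℝ × ℝ => p.2.2.1 := continuous_fst.comp (continuous_snd.comp continuous_snd)
  rcases (A4S b₁ A 0).eq_empty_or_nonempty with he | hne
  · refine ⟨1, one_pos, le_rfl, fun a m yM ha hA hm hM => ?_⟩
    have := A4_mem b₁ A 0 a m yM 0 h1 ha hA hm hM le_rfl le_rfl
    rw [he] at this
    exact absurd this (Set.notMem_empty _)
  · have hc : Continuous fun p : ℝ × ℝ × ℝ × ℝ =>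
        min (min p.2.1 (p.2.2.1 - (1 - p.2.1))) (min (1 - p.2.2.1) (1 - p.2.1)) :=
      (c2.min (c3.sub (continuous_const.sub c2))).min ((continuous_const.sub c3).min (continuous_const.sub c2))
    obtain ⟨p, hp, hmin⟩ := (A4_compact b₁ A 0).exists_isMinOn hne hc.continuousOn
    obtain ⟨ha, hm, hM, -⟩ := A4_of_mem b₁ A 0 h1 p hp
    have hb := ym_bounds _ _ _ ha hm hM
    have hml := mfe_lt _ _ hm
    have hpos : 0 < min (min p.2.1 (p.2.2.1 - (1 - p.2.1))) (min (1 - p.2.2.1) (1 - p.2.1)) :=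
      lt_min (lt_min hm.1 (by linarith)) (lt_min (by linarith) (by linarith))
    refine ⟨min (min (min p.2.1 (p.2.2.1 - (1 - p.2.1))) (min (1 - p.2.2.1) (1 - p.2.1))) 1,
      lt_min hpos one_pos, min_le_right _ _, fun a m yM ha hA hm hM => ?_⟩
    have h2 := hmin (A4_mem b₁ A 0 a m yM 0 h1 ha hA hm hM le_rfl le_rfl)
    have h3 : min (min p.2.1 (p.2.2.1 - (1 - p.2.1))) (min (1 - p.2.2.1) (1 - p.2.1)) ≤
        min (min m (yM - (1 - m))) (min (1 - yM) (1 - m)) := h2
    have h4 := (min_le_left (min (min p.2.1 (p.2.2.1 - (1 - p.2.1))) (min (1 - p.2.2.1) (1 - p.2.1))) 1).trans h3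
    exact ⟨h4.trans ((min_le_left _ _).trans (min_le_left _ _)), h4.trans ((min_le_left _ _).trans (min_le_right _ _)),
      h4.trans ((min_le_right _ _).trans (min_le_left _ _)), h4.trans ((min_le_right _ _).trans (min_le_right _ _))⟩

private theorem A4_exp_lip (x y : ℝ) (hx : 0 ≤ x) (hy : 0 ≤ y) : |Real.exp (-x) - Real.exp (-y)| ≤ |x - y| := by
  have key : ∀ s t : ℝ, 0 ≤ s → s ≤ t → |Real.exp (-s) - Real.exp (-t)| ≤ |s - t| := by
    intro s t hs hst
    have h1 : Real.exp (-t) ≤ Real.exp (-s) := Real.exp_le_exp.2 (by linarith)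
    rw [abs_of_nonneg (by linarith), abs_of_nonpos (by linarith)]
    have h2 : Real.exp (-t) = Real.exp (-s) * Real.exp (-(t - s)) := by rw [← Real.exp_add]; ring_nf
    have h3 := Real.add_one_le_exp (-(t - s))
    have h4 : Real.exp (-s) ≤ 1 := Real.exp_le_one_iff.2 (by linarith)
    have h5 := Real.exp_pos (-s)
    rw [h2]
    nlinarith
  rcases le_total x y with h | h
  · exact key x y hx h
  · rw [abs_sub_comm, abs_sub_comm x]
    exact key y x hy h

/-- `F` is decreasing and Lipschitz on `[0,∞)` -/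
theorem Fy_lip (a m y z : ℝ) (ha : 1 < a) (h : MFE a m) (hy : 0 ≤ y) (hz : 0 ≤ z) :
    |Fy a m y - Fy a m z| ≤ a * Real.exp a * |y - z| ∧ 0 < Fy a m y ∧ Fy a m y ≤ Real.exp a := by
  have hals := als_pos a m
  have hm1 : |m| ≤ 1 := by rw [abs_of_pos h.1]; exact (mfe_lt a m h).le
  have hb := (als_bounds a m (by linarith) hm1).1
  have ha0 : 0 < a := by linarith
  have hinv : 1 / als a m ≤ Real.exp a := by
    rw [div_le_iff₀ hals]
    calc (1 : ℝ) = Real.exp a * Real.exp (-a) := by rw [← Real.exp_add]; simp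
      _ ≤ Real.exp a * als a m := mul_le_mul_of_nonneg_left hb (Real.exp_pos a).le
  refine ⟨?_, by unfold Fy; positivity, ?_⟩
  · unfold Fy
    rw [← sub_div, abs_div, abs_of_pos hals]
    have h1 := A4_exp_lip (a * y) (a * z) (by positivity) (by positivity)
    rw [← mul_sub, abs_mul, abs_of_pos ha0] at h1
    calc |Real.exp (-(a * y)) - Real.exp (-(a * z))| / als a m
        = 1 / als a m * |Real.exp (-(a * y)) - Real.exp (-(a * z))| := by ring
      _ ≤ Real.exp a * (a * |y - z|) := mul_le_mul hinv h1 (abs_nonneg _) (Real.exp_pos a).le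
      _ = a * Real.exp a * |y - z| := by ring
  · unfold Fy
    have h1 : Real.exp (-(a * y)) ≤ 1 := Real.exp_le_one_iff.2 (by nlinarith)
    calc Real.exp (-(a * y)) / als a m = 1 / als a m * Real.exp (-(a * y)) := by ring
      _ ≤ Real.exp a * 1 := mul_le_mul hinv h1 (Real.exp_pos _).le (Real.exp_pos a).le
      _ = Real.exp a := by ring

end Pool.Agent.THR

end
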