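import Pool.Agent.Lib_MP_2c424f_ms.M04
import Pool.Agent.Lib_MP_2c424f_ms.M18
import Pool.Agent.Lib_MP_2c424f_ms.M21

/-!
# MP_2c424f_pr: library of SharpThreshold and BoundaryThreshold (merged): merged library part M22

Concatenation of smaller files (each in its own section), only to save build time.
-/

namespace Pool.Agent.LO
end Pool.Agent.LO

namespace Pool.Agent.LIN
end Pool.Agent.LIN

/-! ### from `Lib_MP_2c424f_lin.L7c` -/

section

/-!
# H30 L7c: conditional means, and the rare events for `z`, `ζ`, `ξ` (6.3)(iii)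

* `fm_zz`: for `v ∈ cls b`, given the class `b` the neighbours of `v` are independent and uniform on their available
  colours; `zz h v c = ∏_σ 1[h (v + sv σ) ≠ c]` (distinct neighbours for `k ≥ 2`), so by `fm_prod` (class `!b`)
  `fm (!b) (zz · v c) f = ∏_σ (1 - zz f (v+sv σ) c / av f (v+sv σ)) = zt f v c`.
* `zt h v c = zt f v c` and `PP (zz h · c) v = PP (zz f · c) v` for `h ∈ fib (!b) f`, `v ∈ cls b` (they depend on the
  class `b`).
* `zt_nonneg`, `zt_le_one`: `zz f u c = 1` implies `1 ≤ av f u` (and `0/0 = 0`).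
* `fm_zm`: by `PP_fib`, `fm_zz` it is `ζ m ≤ m exp (-(2d/q) m) ≤ q/(2ed) ≤ q/(5d)` (`y exp (-y) ≤ 1/e`, `Real.add_one_le_exp`).
* `zt_le`: `zt ≤ exp (-(2d/q) m)`, `m = PP (zz · c) v` (`1 - y ≤ exp (-y)`, `av ≤ q`), `0 ≤ zt ≤ 1`.
-/

set_option autoImplicit false

open Finset Filter

namespace Pool.Agent.LIN

open Pool.Agent.LO

variable {d k q : ℕ}

private theorem L7c_step (hk : 2 ≤ k) (b : Bool) {v : Site d k} (hv : v ∈ cls b d k)
    (σ : Stp d) : v + sv σ ∈ cls (!b) d k := by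
  rw [mem_cls_step (by omega), Bool.not_not]
  exact hv

theorem fm_zz (hk : 2 ≤ k) (b : Bool) {f : Site d k → Fin q} (hf : Prp f) (v : Site d k)
    (hv : v ∈ cls b d k) (c : Fin q) : fm (!b) (fun h => zz h v c) f = zt f v c := by
  classical
  obtain ⟨U, hU⟩ : ∃ U : Finset (Site d k), U = univ.image fun σ : Stp d => v + sv σ := ⟨_, rfl⟩
  have hUc : U ⊆ cls (!b) d k := by
    intro x hx
    rw [hU, mem_image] at hx
    obtain ⟨σ, -, rfl⟩ := hx
    exact L7c_step hk b hv σ
  have hinj : ∀ σ ∈ (univ : Finset (Stp d)), ∀ σ' ∈ (univ : Finset (Stp d)),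
      v + (sv σ : Site d k) = v + sv σ' → σ = σ' := fun σ _ σ' _ h =>
    sv_inj hk (add_left_cancel h)
  have h1 : ∀ h : Site d k → Fin q, zz h v c = ∏ u ∈ U, (if h u = c then (0 : ℝ) else 1) := by
    intro h
    rw [hU, Finset.prod_image hinj]
    unfold zz SS
    by_cases hc : c ∈ univ.image fun σ : Stp d => h (v + sv σ)
    · rw [if_pos hc]
      obtain ⟨σ, -, hσ⟩ := mem_image.1 hc
      symm
      apply Finset.prod_eq_zero (mem_univ σ)
      exact if_pos hσ
    · rw [if_neg hc]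
      refine (Finset.prod_eq_one fun σ _ => if_neg fun hσ => hc ?_).symm
      exact mem_image.2 ⟨σ, mem_univ σ, hσ⟩
  have h2 : (fun h : Site d k → Fin q => zz h v c) =
      fun h => ∏ u ∈ U, (fun (_ : Site d k) (c' : Fin q) => if c' = c then (0 : ℝ) else 1) u (h u) := by
    funext h
    exact h1 h
  rw [h2]
  refine (fm_prod (by omega) (!b) hf U hUc
    (fun (_ : Site d k) (c' : Fin q) => if c' = c then (0 : ℝ) else 1)).trans ?_
  rw [hU, Finset.prod_image hinj]
  unfold zt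
  refine Finset.prod_congr rfl fun σ _ => ?_
  set u := v + sv σ with hu
  have hcard : ((SS f u)ᶜ.card : ℝ) = av f u := by
    rw [Finset.card_compl, Fintype.card_fin]
    rfl
  have h3 : (∑ c' ∈ (SS f u)ᶜ, (if c' = c then (0 : ℝ) else 1)) = av f u - zz f u c := by
    have h4 : ∀ c' ∈ (SS f u)ᶜ, (if c' = c then (0 : ℝ) else 1) =
        1 - (if c' = c then (1 : ℝ) else 0) := by
      intro c' _
      split_ifs <;> norm_num
    rw [Finset.sum_congr rfl h4, Finset.sum_sub_distrib, Finset.sum_const, nsmul_eq_mul, mul_one,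
      hcard, Finset.sum_ite_eq']
    congr 1
    unfold zz
    by_cases hc : c ∈ SS f u
    · rw [if_neg (by simpa using hc), if_pos hc]
    · rw [if_pos (by simpa using hc), if_neg hc]
  rw [h3]
  have hav : (av f u : ℝ) ≠ 0 := by
    have h5 : f u ∉ SS f u := by
      intro h6
      obtain ⟨τ, -, hτ⟩ := mem_image.1 h6
      exact hf u τ hτ
    have h7 := Finset.card_lt_univ_of_notMem h5
    rw [Fintype.card_fin] at h7
    have h8 : 1 ≤ av f u := by unfold av; omega
    have h9 : (1 : ℝ) ≤ av f u := by exact_mod_cast h8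
    linarith
  rw [sub_div, div_self hav]

/-- conditional mean of `z_v m_v` -/
theorem fm_zm (hd : 1 ≤ d) (hk : 2 ≤ k) (hq : 1 ≤ q) (b : Bool) {f : Site d k → Fin q} (hf : Prp f) (v : Site d k)
    (hv : v ∈ cls b d k) (c : Fin q) :
    fm (!b) (fun h => zz h v c * PP (fun x => zz h x c) v) f ≤ q / (5 * d) := by
  have hd' : (0 : ℝ) < d := by exact_mod_cast hd
  have hq' : (0 : ℝ) < q := by exact_mod_cast hq
  obtain ⟨m, hm⟩ : ∃ m, m = PP (fun x => zz f x c) v := ⟨_, rfl⟩
  have h1 : fm (!b) (fun h => zz h v c * PP (fun x => zz h x c) v) f =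
      fm (!b) (fun h => zz h v c) f * m := by
    unfold fm
    rw [div_mul_eq_mul_div, Finset.sum_mul]
    congr 1
    refine Finset.sum_congr rfl fun h hh => ?_
    show zz h v c * PP (fun x => zz h x c) v = zz h v c * m
    rw [PP_fib hk b hh v hv c, hm]
  rw [h1, fm_zz hk b hf v hv c]
  have hz : ∀ x, 0 ≤ zz f x c := fun x => by unfold zz; split_ifs <;> norm_num
  have hm0 : 0 ≤ m := by
    rw [hm]
    unfold PP
    exact div_nonneg (Finset.sum_nonneg fun σ _ => hz _) (by positivity)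
  have h2 := zt_le hd hf v c
  rw [← hm] at h2
  have h3 : zt f v c * m ≤ Real.exp (-(2 * d / q * m)) * m := mul_le_mul_of_nonneg_right h2 hm0
  refine h3.trans ?_
  -- `y exp (-y) ≤ 1 / e`
  obtain ⟨y, hy⟩ : ∃ y : ℝ, y = 2 * d / q * m := ⟨_, rfl⟩
  have h4 : y * Real.exp (-y) ≤ Real.exp (-1) := by
    have h5 := Real.add_one_le_exp (y - 1)
    have h6 : y ≤ Real.exp (y - 1) := by linarith
    calc y * Real.exp (-y) ≤ Real.exp (y - 1) * Real.exp (-y) :=
          mul_le_mul_of_nonneg_right h6 (Real.exp_pos _).le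
      _ = Real.exp (-1) := by rw [← Real.exp_add]; congr 1; ring
  have h5 : Real.exp (-1) ≤ 2 / 5 := by
    rw [Real.exp_neg, inv_eq_one_div, div_le_div_iff₀ (Real.exp_pos _) (by norm_num)]
    have := Real.exp_one_gt_d9
    linarith
  have h6 : Real.exp (-(2 * d / q * m)) * m = (y * Real.exp (-y)) * (q / (2 * d)) := by
    rw [hy]
    field_simp
  rw [h6]
  calc (y * Real.exp (-y)) * (q / (2 * d)) ≤ (2 / 5) * (q / (2 * d)) :=
        mul_le_mul_of_nonneg_right (h4.trans h5) (by positivity)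
    _ = q / (5 * d) := by field_simp

end Pool.Agent.LIN

end

/-! ### from `Lib_MP_2c424f_lin.B6a` -/

section

/-!
# H30 B6a: pointwise means

* `two_pt`: `x ≠ y` of the class `b`: given the other class `f x`, `f y` are independent and uniform on the available
  colours (`fib_sum`, `fm_prod` with `U = {x, y}`, `φ v a = 1[a = c]`, sum over `c`).
* `one_pt`: `x` of the class `b`, `y` of the class `!b`, not adjacent.  Resample `x` (`resample` of `MainA2`), or `fib_sum`
  with the class `b` (`f y` and `SS f x` fixed on the fibre): `∑ 1[f x = f y] = ∑ zz f x (f y)/av f x`.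
* `xi_mean`: `mean_dev` and translation invariance (`sum_transl`, `av_transl`; both classes have the same mean):
  `E (1-2ξ_x)² ≤ 2 (q log 2/(4d) + 1/q²)`, Cauchy-Schwarz (Jensen).
* `few_mean`: `Xs_mean` with `a = min (1/10) (ε/40)`, translation invariance: for each `x`
  `∑_f 1[ξ_x < 1/2 - a]/av f x ≤ 40 a ZZ/q`.
-/

set_option autoImplicit false

open Finset Filter

namespace Pool.Agent.LIN

open Pool.Agent.LO

private theorem B6a_mem_prps {d k q : ℕ} (f : Site d k → Fin q) : f ∈ prps d k q ↔ Prp f := by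
  classical
  unfold prps
  rw [mem_filter]
  simp only [mem_univ, true_and]

private theorem B6a_step_ne {d k : ℕ} (hk : 1 ≤ k) (x : Site d k) (σ : Stp d) : x + sv σ ≠ x := by
  intro h
  have h1 := evn_step hk x σ
  rw [h] at h1
  by_cases hx : evn x
  · exact (h1.1 hx) hx
  · exact hx (h1.2 hx)

private theorem B6a_step_back {d k : ℕ} (x : Site d k) (σ : Stp d) :
    x + sv σ + sv (σ.1, !σ.2) = x := by
  obtain ⟨j, b⟩ := σ
  rw [add_assoc, sv_opp, add_zero]

private theorem B6a_SS_update {d k q : ℕ} (hk : 1 ≤ k) (f : Site d k → Fin q) (x : Site d k)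
    (c : Fin q) : SS (Function.update f x c) x = SS f x := by
  unfold SS
  have h : ∀ σ : Stp d, Function.update f x c (x + sv σ) = f (x + sv σ) := fun σ =>
    Function.update_of_ne (B6a_step_ne hk x σ) _ _
  simp only [h]

private theorem B6a_self {d k q : ℕ} {f : Site d k → Fin q} (hf : Prp f) (x : Site d k) :
    f x ∉ SS f x := by
  intro h
  unfold SS at h
  rw [mem_image] at h
  obtain ⟨σ, _, h⟩ := h
  exact hf x σ h

private theorem B6a_Prp_update {d k q : ℕ} (hk : 1 ≤ k) {f : Site d k → Fin q} (hf : Prp f)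
    (x : Site d k) (c : Fin q) (hc : c ∉ SS f x) : Prp (Function.update f x c) := by
  have hc' : ∀ σ : Stp d, f (x + sv σ) ≠ c := by
    intro σ h
    apply hc
    unfold SS
    rw [mem_image]
    exact ⟨σ, mem_univ _, h⟩
  intro z σ
  by_cases hz : z = x
  · subst hz
    rw [Function.update_self, Function.update_of_ne (B6a_step_ne hk z σ)]
    exact hc' σ
  · rw [Function.update_of_ne hz]
    by_cases hz2 : z + sv σ = x
    · rw [hz2, Function.update_self]
      have h1 := B6a_step_back z σ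
      rw [hz2] at h1
      have h2 := hc' (σ.1, !σ.2)
      rw [h1] at h2
      exact h2.symm
    · rw [Function.update_of_ne hz2]
      exact hf z σ

private theorem B6a_card {d k q : ℕ} (f : Site d k → Fin q) (x : Site d k) :
    (((SS f x)ᶜ).card : ℝ) = (av f x : ℝ) := by
  unfold av
  rw [card_compl, Fintype.card_fin]

private theorem B6a_zz {d k q : ℕ} (f : Site d k → Fin q) (x : Site d k) (c : Fin q) :
    ∑ a ∈ (SS f x)ᶜ, (if a = c then (1 : ℝ) else 0) = zz f x c := by
  rw [sum_ite_eq' ((SS f x)ᶜ) c]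
  unfold zz
  by_cases h : c ∈ SS f x
  · rw [if_pos h, if_neg (by rw [mem_compl]; exact not_not.2 h)]
  · rw [if_neg h, if_pos (mem_compl.2 h)]

private theorem B6a_fm_sum {d k q : ℕ} {ι : Type*} (s : Finset ι) (b : Bool)
    (G : ι → (Site d k → Fin q) → ℝ) (f : Site d k → Fin q) :
    fm b (fun h => ∑ c ∈ s, G c h) f = ∑ c ∈ s, fm b (G c) f := by
  unfold fm
  rw [sum_comm, sum_div]

private theorem B6a_filter {d k q : ℕ} (P : (Site d k → Fin q) → Prop) [DecidablePred P] :
    (((prps d k q).filter P).card : ℝ) = ∑ f ∈ prps d k q, (if P f then (1 : ℝ) else 0) := by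
  rw [card_filter, Nat.cast_sum]
  refine sum_congr rfl fun f _ => ?_
  split_ifs <;> simp

open scoped Classical in
theorem two_pt {d k q : ℕ} (hk : 2 ≤ k) (b : Bool) (x y : Site d k) (hx : x ∈ cls b d k) (hy : y ∈ cls b d k)
    (hxy : x ≠ y) : (((prps d k q).filter fun f => f x = f y).card : ℝ) =
      ∑ f ∈ prps d k q, ∑ c, zz f x c * zz f y c / ((av f x : ℝ) * (av f y : ℝ)) := by
  have hU : ({x, y} : Finset (Site d k)) ⊆ cls b d k := by
    intro v hv
    rw [mem_insert, mem_singleton] at hv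
    rcases hv with rfl | rfl
    · exact hx
    · exact hy
  rw [B6a_filter (fun f => f x = f y)]
  have h1 : ∀ f : Site d k → Fin q, (if f x = f y then (1 : ℝ) else 0) =
      ∑ c, ∏ v ∈ ({x, y} : Finset (Site d k)), (if f v = c then (1 : ℝ) else 0) := by
    intro f
    have h2 : ∀ c : Fin q, ∏ v ∈ ({x, y} : Finset (Site d k)), (if f v = c then (1 : ℝ) else 0) =
        if f x = c then (if f y = c then (1 : ℝ) else 0) else 0 := by
      intro c
      rw [prod_pair hxy]
      split_ifs <;> simp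
    simp only [h2]
    rw [sum_ite_eq univ (f x)]
    rw [if_pos (mem_univ _)]
    by_cases h : f x = f y
    · rw [if_pos h, if_pos h.symm]
    · rw [if_neg h, if_neg (Ne.symm h)]
  simp only [h1]
  rw [fib_sum (by omega) b]
  refine sum_congr rfl fun f hf => ?_
  rw [B6a_mem_prps] at hf
  rw [B6a_fm_sum univ b (fun (c : Fin q) (h : Site d k → Fin q) =>
    ∏ v ∈ ({x, y} : Finset (Site d k)), (if h v = c then (1 : ℝ) else 0)) f]
  refine sum_congr rfl fun c _ => ?_
  rw [fm_prod (by omega) b hf _ hU (fun _ a => if a = c then (1 : ℝ) else 0), prod_pair hxy,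
    B6a_zz, B6a_zz, div_mul_div_comm]

open scoped Classical in
theorem one_pt {d k q : ℕ} (hk : 2 ≤ k) (x y : Site d k) (hxy : x ≠ y) :
    (((prps d k q).filter fun f => f x = f y).card : ℝ) =
      ∑ f ∈ prps d k q, zz f x (f y) / (av f x : ℝ) := by
  have hk1 : 1 ≤ k := by omega
  -- left side
  have h1 : (((prps d k q).filter fun f => f x = f y).card : ℝ) =
      ∑ f ∈ prps d k q, ∑ c ∈ (SS f x)ᶜ, (if f x = f y then (1 : ℝ) / (av f x : ℝ) else 0) := by
    rw [B6a_filter (fun f => f x = f y)]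
    refine sum_congr rfl fun f hf => ?_
    rw [B6a_mem_prps] at hf
    rw [sum_const, nsmul_eq_mul, B6a_card]
    have hp : (0 : ℝ) < av f x := by exact_mod_cast av_pos hf x
    split_ifs
    · field_simp
    · simp
  -- right side
  have h2 : ∑ f ∈ prps d k q, zz f x (f y) / (av f x : ℝ) =
      ∑ f ∈ prps d k q, ∑ c ∈ (SS f x)ᶜ, (if c = f y then (1 : ℝ) / (av f x : ℝ) else 0) := by
    refine sum_congr rfl fun f _ => ?_
    rw [← B6a_zz, sum_div]
    refine sum_congr rfl fun c _ => ?_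
    split_ifs <;> simp
  rw [h1, h2, Finset.sum_sigma', Finset.sum_sigma']
  refine Finset.sum_bij' (fun p _ => ⟨Function.update p.1 x p.2, p.1 x⟩)
    (fun p _ => ⟨Function.update p.1 x p.2, p.1 x⟩) ?_ ?_ ?_ ?_ ?_
  · rintro ⟨f, c⟩ h
    rw [mem_sigma] at h ⊢
    obtain ⟨hf, hc⟩ := h
    simp only [B6a_mem_prps, mem_compl] at hf hc ⊢
    rw [B6a_SS_update hk1]
    exact ⟨B6a_Prp_update hk1 hf x c hc, B6a_self hf x⟩
  · rintro ⟨f, c⟩ h
    rw [mem_sigma] at h ⊢
    obtain ⟨hf, hc⟩ := h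
    simp only [B6a_mem_prps, mem_compl] at hf hc ⊢
    rw [B6a_SS_update hk1]
    exact ⟨B6a_Prp_update hk1 hf x c hc, B6a_self hf x⟩
  · rintro ⟨f, c⟩ _
    simp
  · rintro ⟨f, c⟩ _
    simp
  · rintro ⟨f, c⟩ _
    simp only
    have e1 : av (Function.update f x c) x = av f x := by
      unfold av
      rw [B6a_SS_update hk1]
    rw [e1, Function.update_of_ne (Ne.symm hxy)]

end Pool.Agent.LIN

end

/-! ### from `Lib_MP_2c424f_thr.M1` -/

section

/-!
# THR M1: elementary facts on `hh`, `al`, `ya` (paper proof: M, first lines, M1)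

`∑_c zz/av = 1` at every site (`sum_zz_av`), so `∑_c hh = 2d`, `mc hh = 2d/q = a`; convexity of `exp`: `al ≥ exp (-a)`.
`zt_exp`: `v` nice: `p_u = zz/av ≤ 1/(c1 q) ≤ 1/2`; `exp (-p-p²) ≤ 1-p ≤ exp (-p)`; `0 ≤ exp (-hh) - zt ≤ ∑ p² ≤ 2d/(c1 q)²`.
`ya_diff`: `e^(-h)/α - e^(-h')/α'`, `α, α' ≥ e^(-a)`, `|α - α'| ≤ mc |h - h'|`.
-/

set_option autoImplicit false

open Finset Filter

namespace Pool.Agent.THR

open Pool.Agent.LO Pool.Agent.LIN

variable {d k q : ℕ}

private theorem M1_zz (f : Site d k → Fin q) (v : Site d k) (c : Fin q) : 0 ≤ zz f v c ∧ zz f v c ≤ 1 := by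
  unfold zz
  split_ifs <;> norm_num

private theorem M1_card : (Fintype.card (Stp d) : ℝ) = 2 * d := by
  rw [Fintype.card_prod, Fintype.card_fin, Fintype.card_bool]
  push_cast
  ring

private theorem M1_c1 (ε : ℝ) : 0 < c1 ε := by
  unfold c1
  positivity

private theorem M1_p {f : Site d k → Fin q} (hf : Prp f) (u : Site d k) (c : Fin q) :
    0 ≤ zz f u c / (av f u : ℝ) ∧ zz f u c / (av f u : ℝ) ≤ 1 := by
  have h1 : (1 : ℝ) ≤ av f u := by exact_mod_cast av_pos hf u
  obtain ⟨h2, h3⟩ := M1_zz f u c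
  refine ⟨div_nonneg h2 (by linarith), ?_⟩
  rw [div_le_one (by linarith)]
  linarith

private theorem M1_preg {ε : ℝ} (hq : 1 ≤ q) (f : Site d k → Fin q) (u : Site d k) (c : Fin q) (h : Rg ε f u) :
    zz f u c / (av f u : ℝ) ≤ 1 / (c1 ε * q) := by
  have hq' : (1 : ℝ) ≤ q := by exact_mod_cast hq
  have h0 := M1_c1 ε
  have h1 : 0 < c1 ε * q := by positivity
  have h2 : c1 ε * q ≤ (av f u : ℝ) := h
  obtain ⟨_, h3⟩ := M1_zz f u c
  exact div_le_div₀ zero_le_one h3 h1 h2

theorem hh_nonneg (c : Fin q) (f : Site d k → Fin q) (v : Site d k) : 0 ≤ hh c f v := by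
  unfold hh
  refine Finset.sum_nonneg fun σ _ => ?_
  exact div_nonneg (M1_zz f _ c).1 (Nat.cast_nonneg _)

theorem hh_le {f : Site d k → Fin q} (hf : Prp f) (c : Fin q) (v : Site d k) : hh c f v ≤ 2 * d := by
  unfold hh
  calc ∑ σ : Stp d, zz f (v + sv σ) c / (av f (v + sv σ) : ℝ) ≤ ∑ _σ : Stp d, (1 : ℝ) :=
        Finset.sum_le_sum fun σ _ => (M1_p hf _ c).2
    _ = 2 * d := by
        rw [Finset.sum_const, Finset.card_univ, nsmul_eq_mul, M1_card, mul_one]

theorem hh_le_reg {ε : ℝ} (hq : 1 ≤ q) (c : Fin q) (f : Site d k → Fin q) (v : Site d k) (h : Nc ε f v) :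
    hh c f v ≤ ra d q / c1 ε := by
  unfold hh
  have hq' : (1 : ℝ) ≤ q := by exact_mod_cast hq
  have h0 := M1_c1 ε
  calc ∑ σ : Stp d, zz f (v + sv σ) c / (av f (v + sv σ) : ℝ) ≤ ∑ _σ : Stp d, 1 / (c1 ε * q) :=
        Finset.sum_le_sum fun σ _ => M1_preg hq f _ c (h σ)
    _ = ra d q / c1 ε := by
        rw [Finset.sum_const, Finset.card_univ, nsmul_eq_mul, M1_card]
        unfold ra
        field_simp

theorem sum_hh {f : Site d k → Fin q} (hf : Prp f) (v : Site d k) : ∑ c, hh c f v = 2 * d := by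
  unfold hh
  rw [Finset.sum_comm]
  have h1 : ∀ σ ∈ (univ : Finset (Stp d)), ∑ c, zz f (v + sv σ) c / (av f (v + sv σ) : ℝ) = 1 := by
    intro σ _
    rw [← Finset.sum_div, ← av_eq]
    have h2 : (1 : ℝ) ≤ av f (v + sv σ) := by exact_mod_cast av_pos hf _
    exact div_self (by linarith)
  rw [Finset.sum_congr rfl h1, Finset.sum_const, Finset.card_univ, nsmul_eq_mul, M1_card, mul_one]

theorem al_ge (hq : 1 ≤ q) {f : Site d k → Fin q} (hf : Prp f) (v : Site d k) : Real.exp (-ra d q) ≤ al f v := by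
  have hq' : (1 : ℝ) ≤ q := by exact_mod_cast hq
  unfold al
  rw [le_div_iff₀ (by linarith)]
  have h1 : ∀ c ∈ (univ : Finset (Fin q)),
      Real.exp (-ra d q) * (1 + (ra d q - hh c f v)) ≤ Real.exp (-hh c f v) := by
    intro c _
    have h2 : Real.exp (-hh c f v) = Real.exp (-ra d q) * Real.exp (ra d q - hh c f v) := by
      rw [← Real.exp_add]
      congr 1
      ring
    rw [h2]
    refine mul_le_mul_of_nonneg_left ?_ (Real.exp_nonneg _)
    have h3 := Real.add_one_le_exp (ra d q - hh c f v)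
    linarith
  refine le_trans (le_of_eq ?_) (Finset.sum_le_sum h1)
  rw [← Finset.mul_sum]
  congr 1
  rw [Finset.sum_add_distrib, Finset.sum_sub_distrib, sum_hh hf v]
  simp only [Finset.sum_const, Finset.card_univ, Fintype.card_fin, nsmul_eq_mul, mul_one]
  unfold ra
  field_simp
  ring

theorem al_le (hq : 1 ≤ q) (f : Site d k → Fin q) (v : Site d k) : al f v ≤ 1 := by
  have hq' : (1 : ℝ) ≤ q := by exact_mod_cast hq
  unfold al
  rw [div_le_one (by linarith)]
  calc ∑ c : Fin q, Real.exp (-hh c f v) ≤ ∑ _c : Fin q, (1 : ℝ) :=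
        Finset.sum_le_sum fun c _ => Real.exp_le_one_iff.mpr (by linarith [hh_nonneg c f v])
    _ = q := by
        rw [Finset.sum_const, Finset.card_univ, Fintype.card_fin, nsmul_eq_mul, mul_one]

private theorem M1_al_pos (hq : 1 ≤ q) (f : Site d k → Fin q) (v : Site d k) : 0 < al f v := by
  have hq' : (1 : ℝ) ≤ q := by exact_mod_cast hq
  unfold al
  refine div_pos (Finset.sum_pos (fun c _ => Real.exp_pos _) ?_) (by linarith)
  exact ⟨⟨0, by omega⟩, Finset.mem_univ _⟩

theorem ya_mean (hq : 1 ≤ q) (f : Site d k → Fin q) (v : Site d k) : mc (fun c => ya c f v) = 1 := by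
  have hq' : (1 : ℝ) ≤ q := by exact_mod_cast hq
  have h1 := M1_al_pos hq f v
  unfold mc ya
  rw [← Finset.sum_div]
  have h2 : ∑ c : Fin q, Real.exp (-hh c f v) = al f v * q := by
    unfold al
    field_simp
  rw [h2]
  field_simp

theorem ya_bound (hq : 1 ≤ q) {f : Site d k → Fin q} (hf : Prp f) (c : Fin q) (v : Site d k) :
    0 < ya c f v ∧ ya c f v ≤ Real.exp (ra d q) := by
  have h1 := M1_al_pos hq f v
  have h2 := al_ge hq hf v
  unfold ya
  refine ⟨div_pos (Real.exp_pos _) h1, ?_⟩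
  rw [div_le_iff₀ h1]
  have h3 : Real.exp (-hh c f v) ≤ 1 := Real.exp_le_one_iff.mpr (by linarith [hh_nonneg c f v])
  have h4 : Real.exp (ra d q) * Real.exp (-ra d q) = 1 := by
    rw [← Real.exp_add, add_neg_cancel, Real.exp_zero]
  calc Real.exp (-hh c f v) ≤ 1 := h3
    _ = Real.exp (ra d q) * Real.exp (-ra d q) := h4.symm
    _ ≤ _ := mul_le_mul_of_nonneg_left h2 (Real.exp_nonneg _)

theorem exp_hh (hq : 1 ≤ q) (f : Site d k → Fin q) (c : Fin q) (v : Site d k) :
    Real.exp (-hh c f v) = al f v * ya c f v := by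
  have h1 := M1_al_pos hq f v
  unfold ya
  field_simp

private theorem M1_prod {ι : Type*} (s : Finset ι) (a b : ι → ℝ) (ha : ∀ i ∈ s, 0 ≤ a i ∧ a i ≤ 1)
    (hb : ∀ i ∈ s, 0 ≤ b i ∧ b i ≤ 1) : |∏ i ∈ s, a i - ∏ i ∈ s, b i| ≤ ∑ i ∈ s, |a i - b i| := by
  classical
  induction s using Finset.induction_on with
  | empty => simp
  | insert i s hi ih =>
    rw [Finset.prod_insert hi, Finset.prod_insert hi, Finset.sum_insert hi]
    have h1 := ih (fun j hj => ha j (Finset.mem_insert_of_mem hj)) (fun j hj => hb j (Finset.mem_insert_of_mem hj))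
    obtain ⟨h2, h3⟩ := ha i (Finset.mem_insert_self i s)
    have h4 : 0 ≤ ∏ j ∈ s, b j := Finset.prod_nonneg fun j hj => (hb j (Finset.mem_insert_of_mem hj)).1
    have h5 : ∏ j ∈ s, b j ≤ 1 :=
      Finset.prod_le_one (fun j hj => (hb j (Finset.mem_insert_of_mem hj)).1)
        fun j hj => (hb j (Finset.mem_insert_of_mem hj)).2
    have h6 : a i * ∏ j ∈ s, a j - b i * ∏ j ∈ s, b j =
        a i * (∏ j ∈ s, a j - ∏ j ∈ s, b j) + (a i - b i) * ∏ j ∈ s, b j := by ring
    rw [h6]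
    refine (abs_add_le _ _).trans ?_
    rw [abs_mul, abs_mul, abs_of_nonneg h2, abs_of_nonneg h4]
    have h7 : a i * |∏ j ∈ s, a j - ∏ j ∈ s, b j| ≤ |∏ j ∈ s, a j - ∏ j ∈ s, b j| :=
      mul_le_of_le_one_left (abs_nonneg _) h3
    have h8 : |a i - b i| * ∏ j ∈ s, b j ≤ |a i - b i| := mul_le_of_le_one_right (abs_nonneg _) h5
    linarith

private theorem M1_exp2 (p : ℝ) (h0 : 0 ≤ p) (h1 : p ≤ 1) : |1 - p - Real.exp (-p)| ≤ p ^ 2 := by
  have h2 := Real.abs_exp_sub_one_sub_id_le (x := -p) (by rw [abs_neg, abs_of_nonneg h0]; exact h1)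
  have h3 : 1 - p - Real.exp (-p) = -(Real.exp (-p) - 1 - -p) := by ring
  rw [h3, abs_neg]
  calc |Real.exp (-p) - 1 - -p| ≤ (-p) ^ 2 := h2
    _ = p ^ 2 := by ring

theorem zt_exp {ε : ℝ} (hε : 0 < ε) (hq : 2 / c1 ε ≤ q) {f : Site d k → Fin q} (hf : Prp f) (c : Fin q) (v : Site d k)
    (h : Nc ε f v) : |zt f v c - Real.exp (-hh c f v)| ≤ ra d q / (c1 ε ^ 2 * q) := by
  have h0 := M1_c1 ε
  have hq' : (0 : ℝ) < q := lt_of_lt_of_le (by positivity) hq
  have hq1 : 1 ≤ q := by
    have : 0 < q := by exact_mod_cast hq'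
    omega
  have h1 : Real.exp (-hh c f v) = ∏ σ : Stp d, Real.exp (-(zz f (v + sv σ) c / (av f (v + sv σ) : ℝ))) := by
    rw [← Real.exp_sum, Finset.sum_neg_distrib]
    rfl
  rw [h1]
  unfold zt
  have h2 := M1_prod (univ : Finset (Stp d)) (fun σ => 1 - zz f (v + sv σ) c / (av f (v + sv σ) : ℝ))
    (fun σ => Real.exp (-(zz f (v + sv σ) c / (av f (v + sv σ) : ℝ))))
    (fun σ _ => ⟨by linarith [(M1_p hf (v + sv σ) c).2], by linarith [(M1_p hf (v + sv σ) c).1]⟩)
    (fun σ _ => ⟨Real.exp_nonneg _, Real.exp_le_one_iff.mpr (by linarith [(M1_p hf (v + sv σ) c).1])⟩)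
  refine h2.trans ?_
  have h3 : ∀ σ ∈ (univ : Finset (Stp d)), |1 - zz f (v + sv σ) c / (av f (v + sv σ) : ℝ) -
      Real.exp (-(zz f (v + sv σ) c / (av f (v + sv σ) : ℝ)))| ≤ (1 / (c1 ε * q)) ^ 2 := by
    intro σ _
    have h4 := M1_exp2 _ (M1_p hf (v + sv σ) c).1 (M1_p hf (v + sv σ) c).2
    refine h4.trans ?_
    exact pow_le_pow_left₀ (M1_p hf (v + sv σ) c).1 (M1_preg hq1 f _ c (h σ)) 2
  refine (Finset.sum_le_sum h3).trans (le_of_eq ?_)
  rw [Finset.sum_const, Finset.card_univ, nsmul_eq_mul, M1_card]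
  unfold ra
  field_simp

theorem zt_exp' {f : Site d k → Fin q} (hf : Prp f) (c : Fin q) (v : Site d k) :
    |zt f v c - Real.exp (-hh c f v)| ≤ 1 := by
  have h1 := zt_nonneg f v c
  have h2 := zt_le_one f v c
  have h3 := Real.exp_nonneg (-hh c f v)
  have h4 : Real.exp (-hh c f v) ≤ 1 := Real.exp_le_one_iff.mpr (by linarith [hh_nonneg c f v])
  rw [abs_le]
  constructor <;> linarith

private theorem M1_expL (x y : ℝ) (hx : 0 ≤ x) (hy : 0 ≤ y) : |Real.exp (-x) - Real.exp (-y)| ≤ |x - y| := by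
  have key : ∀ s t : ℝ, 0 ≤ s → s ≤ t → |Real.exp (-s) - Real.exp (-t)| ≤ |s - t| := by
    intro s t hs hst
    have h1 : Real.exp (-t) ≤ Real.exp (-s) := Real.exp_le_exp.mpr (by linarith)
    rw [abs_of_nonneg (by linarith), abs_of_nonpos (by linarith)]
    have h2 : Real.exp (-t) = Real.exp (-s) * Real.exp (s - t) := by
      rw [← Real.exp_add]
      congr 1
      ring
    have h3 := Real.add_one_le_exp (s - t)
    have h4 : Real.exp (-s) ≤ 1 := Real.exp_le_one_iff.mpr (by linarith)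
    have h5 := Real.exp_nonneg (-s)
    rw [h2]
    nlinarith
  rcases le_total x y with h | h
  · exact key x y hx h
  · rw [abs_sub_comm, abs_sub_comm x y]
    exact key y x hy h

theorem al_diff (f : Site d k → Fin q) (v w : Site d k) :
    |al f v - al f w| ≤ mc (fun c => |hh c f v - hh c f w|) := by
  unfold al mc
  rw [← sub_div, abs_div, Nat.abs_cast, ← Finset.sum_sub_distrib]
  refine div_le_div_of_nonneg_right ?_ (Nat.cast_nonneg _)
  refine (Finset.abs_sum_le_sum_abs _ _).trans (Finset.sum_le_sum fun c _ => ?_)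
  exact M1_expL _ _ (hh_nonneg c f v) (hh_nonneg c f w)

theorem ya_diff (hq : 1 ≤ q) {f : Site d k → Fin q} (hf : Prp f) (c : Fin q) (v w : Site d k) :
    |ya c f v - ya c f w| ≤ Real.exp (ra d q) * |hh c f v - hh c f w| +
      Real.exp (2 * ra d q) * mc (fun γ => |hh γ f v - hh γ f w|) := by
  have h1 := M1_al_pos hq f v
  have h2 := M1_al_pos hq f w
  have h3 := al_ge hq hf v
  have h4 := al_ge hq hf w
  have h5 := al_diff f v w
  have h6 := M1_expL _ _ (hh_nonneg c f v) (hh_nonneg c f w)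
  have h7 : Real.exp (-hh c f w) ≤ 1 := Real.exp_le_one_iff.mpr (by linarith [hh_nonneg c f w])
  have h8 := Real.exp_nonneg (-hh c f w)
  have h9 : 1 / al f v ≤ Real.exp (ra d q) := by
    rw [div_le_iff₀ h1]
    calc (1 : ℝ) = Real.exp (ra d q) * Real.exp (-ra d q) := by
          rw [← Real.exp_add, add_neg_cancel, Real.exp_zero]
      _ ≤ _ := mul_le_mul_of_nonneg_left h3 (Real.exp_nonneg _)
  have h10 : 1 / al f w ≤ Real.exp (ra d q) := by
    rw [div_le_iff₀ h2]
    calc (1 : ℝ) = Real.exp (ra d q) * Real.exp (-ra d q) := by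
          rw [← Real.exp_add, add_neg_cancel, Real.exp_zero]
      _ ≤ _ := mul_le_mul_of_nonneg_left h4 (Real.exp_nonneg _)
  have h11 : ya c f v - ya c f w = (1 / al f v) * (Real.exp (-hh c f v) - Real.exp (-hh c f w)) +
      Real.exp (-hh c f w) * ((1 / al f v) * (1 / al f w)) * (al f w - al f v) := by
    unfold ya
    field_simp
    ring
  have h12 : (0 : ℝ) ≤ 1 / al f v := by positivity
  have h13 : (0 : ℝ) ≤ 1 / al f w := by positivity
  have h14 : (1 / al f v) * (1 / al f w) ≤ Real.exp (2 * ra d q) := by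
    have h15 : Real.exp (2 * ra d q) = Real.exp (ra d q) * Real.exp (ra d q) := by
      rw [← Real.exp_add]
      congr 1
      ring
    rw [h15]
    exact mul_le_mul h9 h10 h13 (Real.exp_nonneg _)
  rw [h11]
  refine (abs_add_le _ _).trans (add_le_add ?_ ?_)
  · rw [abs_mul, abs_of_nonneg h12]
    exact mul_le_mul h9 h6 (abs_nonneg _) (Real.exp_nonneg _)
  · rw [abs_mul, abs_of_nonneg (by positivity), abs_sub_comm]
    refine mul_le_mul ?_ h5 (abs_nonneg _) (Real.exp_nonneg _)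
    refine le_trans ?_ h14
    exact mul_le_of_le_one_left (by positivity) h7

/-- `hh`, `al`, `ya`, `zt` at sites of the class `b` are constant on the fibres of the class `!b` -/
theorem loc_fib (hk : 2 ≤ k) (b : Bool) {f h : Site d k → Fin q} (hh' : h ∈ fib (!b) f) (v : Site d k)
    (hv : v ∈ cls b d k) (c : Fin q) : hh c h v = hh c f v ∧ al h v = al f v ∧ ya c h v = ya c f v := by
  have h0 : ∀ γ : Fin q, hh γ h v = hh γ f v := by
    intro γ
    unfold hh
    refine Finset.sum_congr rfl fun σ _ => ?_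
    have h1 : v + sv σ ∈ cls (!b) d k := by
      rw [mem_cls_step (by omega), Bool.not_not]
      exact hv
    have h2 := fib_SS (by omega) (!b) hh' _ h1
    unfold zz av
    rw [h2]
  have h3 : al h v = al f v := by
    unfold al
    congr 1
    exact Finset.sum_congr rfl fun γ _ => by rw [h0 γ]
  refine ⟨h0 c, h3, ?_⟩
  unfold ya
  rw [h0 c, h3]

/-- translation -/
theorem loc_transl (f : Site d k → Fin q) (v w : Site d k) (c : Fin q) :
    hh c (fun x => f (x + w)) v = hh c f (v + w) ∧ al (fun x => f (x + w)) v = al f (v + w) ∧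
      ya c (fun x => f (x + w)) v = ya c f (v + w) ∧ gg c (fun x => f (x + w)) v = gg c f (v + w) ∧
      av (fun x => f (x + w)) v = av f (v + w) ∧ zz (fun x => f (x + w)) v c = zz f (v + w) c ∧
      zt (fun x => f (x + w)) v c = zt f (v + w) c := by
  have hS : ∀ x : Site d k, SS (fun x => f (x + w)) x = SS f (x + w) := by
    intro x
    unfold SS
    refine Finset.image_congr fun σ _ => ?_
    show f (x + sv σ + w) = f (x + w + sv σ)
    rw [add_right_comm]
  have hz : ∀ (x : Site d k) (γ : Fin q), zz (fun x => f (x + w)) x γ = zz f (x + w) γ := by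
    intro x γ
    unfold zz
    rw [hS]
  have ha : ∀ x : Site d k, av (fun x => f (x + w)) x = av f (x + w) := by
    intro x
    unfold av
    rw [hS]
  have hH : ∀ (x : Site d k) (γ : Fin q), hh γ (fun x => f (x + w)) x = hh γ f (x + w) := by
    intro x γ
    unfold hh
    refine Finset.sum_congr rfl fun σ _ => ?_
    rw [hz, ha, add_right_comm]
  have hA : ∀ x : Site d k, al (fun x => f (x + w)) x = al f (x + w) := by
    intro x
    unfold al
    congr 1
    exact Finset.sum_congr rfl fun γ _ => by rw [hH]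
  refine ⟨hH v c, hA v, ?_, ?_, ha v, hz v c, ?_⟩
  · unfold ya
    rw [hH, hA]
  · unfold gg
    rw [hz, ha]
  · unfold zt
    refine Finset.prod_congr rfl fun σ _ => ?_
    rw [hz, ha, add_right_comm]

end Pool.Agent.THR

end

/-! ### from `Lib_MP_2c424f_thr.C3c` -/

section

/-!
# THR C3c: the energy-entropy estimate (paper proof: C3 (iv)), deterministic

`x = u + σ`.  `-mc (ya_u log ya_u) = mc (ya_u hh_u) + log al_u` (`exp_hh`, `ya_mean`), so
`a mc (ya_u ya_x) + log al_u + log al_x = -mc (ya_u log ya_u) + mc (ya_u (a ya_x - hh_u)) + log al_x`, and `∑_u mc |a ya_x - hh_u|` is small by `mf` and Cauchy-Schwarz, `ya ≤ e^a`;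
`log al_x ≤ log α* + (al_x-α*)/α*`, `al_x = mc exp (-hh_x)`, `|hh_x - a ya_u|` is small in mean (`mf` at the site `x` with the opposite step),
so `al_x ≤ mc exp (-a ya_u) + small`, `α* ≥ e^(-a)` (`als_bounds`).  So the left side is at most
`∑_u (mc (ψ(ya_u)) - 1 + log α*) + errors = ∑_u (Phi - mc (L (ya_u))) + errors` since `mc ya_u = 1` (`mc (ell (ya_u)) = ell 1`); `|cls b| = N/2`.
-/

set_option autoImplicit false

open Finset Filter

namespace Pool.Agent.THR

open Pool.Agent.LO Pool.Agent.LIN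

private theorem C3c_add {q : ℕ} (F G : Fin q → ℝ) : mc (fun c => F c + G c) = mc F + mc G := by
  unfold mc
  rw [sum_add_distrib, add_div]

private theorem C3c_mul {q : ℕ} (r : ℝ) (F : Fin q → ℝ) : mc (fun c => r * F c) = r * mc F := by
  unfold mc
  rw [← mul_sum, mul_div_assoc]

private theorem C3c_mono {q : ℕ} {F G : Fin q → ℝ} (h : ∀ c, F c ≤ G c) : mc F ≤ mc G := by
  unfold mc
  exact div_le_div_of_nonneg_right (sum_le_sum fun c _ => h c) (Nat.cast_nonneg q)

private theorem C3c_one {q : ℕ} (hq : 1 ≤ q) (r : ℝ) : mc (fun _ : Fin q => r) = r := by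
  unfold mc
  have : (0 : ℝ) < q := by exact_mod_cast hq
  rw [sum_const, card_univ, Fintype.card_fin, nsmul_eq_mul, mul_div_cancel_left₀ _ this.ne']

private theorem C3c_exp {x y : ℝ} (hx : 0 ≤ x) : Real.exp (-x) ≤ Real.exp (-y) + |x - y| := by
  by_cases h : y ≤ x
  · have : Real.exp (-x) ≤ Real.exp (-y) := Real.exp_le_exp.2 (by linarith)
    have h2 := abs_nonneg (x - y)
    linarith
  · push Not at h
    have h1 : Real.exp (-x) ≤ 1 := by
      rw [← Real.exp_zero]
      exact Real.exp_le_exp.2 (by linarith)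
    have h2 : 1 - (y - x) ≤ Real.exp (-(y - x)) := by
      have := Real.add_one_le_exp (-(y - x))
      linarith
    have h3 : Real.exp (-y) = Real.exp (-x) * Real.exp (-(y - x)) := by
      rw [← Real.exp_add]
      congr 1
      ring
    have h4 : |x - y| = y - x := by
      rw [abs_sub_comm]
      exact abs_of_pos (by linarith)
    have h5 := Real.exp_pos (-x)
    rw [h3, h4]
    have h6 : Real.exp (-x) * (1 - (y - x)) ≤ Real.exp (-x) * Real.exp (-(y - x)) :=
      mul_le_mul_of_nonneg_left h2 h5.le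
    nlinarith

private theorem C3c_site {d k q : ℕ} (hq : 1 ≤ q) {f : Site d k → Fin q} (hf : Prp f) (m : ℝ) (hm : |m| ≤ 1)
    (u x : Site d k) :
    ra d q * mc (fun c => ya c f u * ya c f x) + Real.log (al f u) + Real.log (al f x) ≤
      Phi (ra d q) m - mc (fun c => LL (ra d q) m (ya c f u)) +
      Real.exp (ra d q) * mc (fun c => |hh c f u - ra d q * ya c f x|) +
      Real.exp (ra d q) * mc (fun c => |hh c f x - ra d q * ya c f u|) := by
  set a := ra d q with ha
  have ha0 : 0 ≤ a := by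
    rw [ha]
    unfold ra
    positivity
  have hals := als_bounds a m ha0 hm
  have hαs := als_pos a m
  have halu : 0 < al f u := (Real.exp_pos _).trans_le (al_ge hq hf u)
  have halx : 0 < al f x := (Real.exp_pos _).trans_le (al_ge hq hf x)
  have h1 : ∀ c, Real.log (ya c f u) = -hh c f u - Real.log (al f u) := by
    intro c
    have h2 := exp_hh hq f c u
    have h3 := (ya_bound hq hf c u).1
    have h4 := congrArg Real.log h2
    rw [Real.log_exp, Real.log_mul halu.ne' h3.ne'] at h4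
    linarith
  have hA : a * mc (fun c => ya c f u * ya c f x) + Real.log (al f u) ≤
      mc (fun c => Real.negMulLog (ya c f u)) +
        Real.exp a * mc (fun c => |hh c f u - a * ya c f x|) := by
    have h6 : mc (fun c => a * (ya c f u * ya c f x) + Real.log (al f u) * ya c f u) ≤
        mc (fun c => Real.negMulLog (ya c f u) + Real.exp a * |hh c f u - a * ya c f x|) := by
      refine C3c_mono fun c => ?_
      obtain ⟨h3, h4⟩ := ya_bound hq hf c u
      rw [Real.negMulLog, h1 c]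
      have h5 : ya c f u * (a * ya c f x - hh c f u) ≤ Real.exp a * |hh c f u - a * ya c f x| := by
        calc ya c f u * (a * ya c f x - hh c f u) ≤ ya c f u * |hh c f u - a * ya c f x| :=
              mul_le_mul_of_nonneg_left (by rw [abs_sub_comm]; exact le_abs_self _) h3.le
          _ ≤ _ := mul_le_mul_of_nonneg_right h4 (abs_nonneg _)
      nlinarith
    rw [C3c_add, C3c_add, C3c_mul, C3c_mul, C3c_mul, ya_mean hq f u, mul_one] at h6
    exact h6
  have hB : Real.log (al f x) ≤ Real.log (als a m) - 1 + mc (fun c => Fy a m (ya c f u)) +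
      Real.exp a * mc (fun c => |hh c f x - a * ya c f u|) := by
    have h2 : Real.log (al f x) ≤ Real.log (als a m) + (al f x / als a m - 1) := by
      have h3 := Real.log_le_sub_one_of_pos (div_pos halx hαs)
      rw [Real.log_div halx.ne' hαs.ne'] at h3
      linarith
    have h4 : al f x / als a m ≤ mc (fun c => Fy a m (ya c f u)) +
        Real.exp a * mc (fun c => |hh c f x - a * ya c f u|) := by
      have h5 : al f x / als a m = mc (fun c => (1 / als a m) * Real.exp (-hh c f x)) := by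
        rw [C3c_mul]
        unfold al mc
        ring
      rw [h5, ← C3c_mul (Real.exp a), ← C3c_add]
      refine C3c_mono fun c => ?_
      have h6 := C3c_exp (y := a * ya c f u) (hh_nonneg c f x)
      have h7 : 1 / als a m ≤ Real.exp a := by
        rw [div_le_iff₀ hαs]
        have h8 := mul_le_mul_of_nonneg_left hals.1 (Real.exp_pos a).le
        rw [← Real.exp_add, add_neg_cancel, Real.exp_zero] at h8
        exact h8
      calc 1 / als a m * Real.exp (-hh c f x)
          ≤ 1 / als a m * (Real.exp (-(a * ya c f u)) + |hh c f x - a * ya c f u|) :=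
            mul_le_mul_of_nonneg_left h6 (by positivity)
        _ = Fy a m (ya c f u) + 1 / als a m * |hh c f x - a * ya c f u| := by
            unfold Fy
            ring
        _ ≤ Fy a m (ya c f u) + Real.exp a * |hh c f x - a * ya c f u| := by
            have := mul_le_mul_of_nonneg_right h7 (abs_nonneg (hh c f x - a * ya c f u))
            linarith
    linarith
  have hC : mc (fun c => Real.negMulLog (ya c f u)) + mc (fun c => Fy a m (ya c f u)) =
      ell a m 1 - mc (fun c => LL a m (ya c f u)) := by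
    have h2 : mc (fun c => ell a m (ya c f u)) = ell a m 1 := by
      have h3 : (fun c => ell a m (ya c f u)) = fun c =>
          (ell a m 1 - (psi a m (1 + m) - psi a m (1 - m)) / (2 * m)) +
            (psi a m (1 + m) - psi a m (1 - m)) / (2 * m) * ya c f u := by
        funext c
        unfold ell
        ring
      rw [h3, C3c_add, C3c_one hq, C3c_mul, ya_mean hq f u]
      ring
    have h3 : mc (fun c => Real.negMulLog (ya c f u)) + mc (fun c => Fy a m (ya c f u)) +
        mc (fun c => LL a m (ya c f u)) = mc (fun c => ell a m (ya c f u)) := by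
      rw [← C3c_add, ← C3c_add]
      congr 1
      funext c
      unfold LL psi
      ring
    linarith
  have hP : Phi a m = ell a m 1 - 1 + Real.log (als a m) := rfl
  rw [hP]
  linarith

private theorem C3c_card (d k : ℕ) : (Fintype.card (Site d k) : ℝ) = NN d k := by
  rw [Fintype.card_fun, Fintype.card_fin, ZMod.card]
  push_cast
  rfl

private theorem C3c_cs {d k q : ℕ} (hq : 1 ≤ q) (s : ℝ) (hs : 0 < s) (F : Fin q → Site d k → ℝ)
    (h : ∀ c, ∑ u, F c u ^ 2 ≤ s ^ 2 * NN d k) : ∑ u, mc (fun c => |F c u|) ≤ s * NN d k := by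
  have h1 : ∑ u, mc (fun c => |F c u|) = mc (fun c => ∑ u, |F c u|) := by
    unfold mc
    rw [← sum_div, sum_comm]
  rw [h1]
  have h2 : ∀ c, ∑ u, |F c u| ≤ s * NN d k := by
    intro c
    have h3 : ∀ u, |F c u| ≤ F c u ^ 2 / (2 * s) + s / 2 := by
      intro u
      have h4 : 0 ≤ (|F c u| - s) ^ 2 := sq_nonneg _
      have h5 : |F c u| ^ 2 = F c u ^ 2 := sq_abs _
      have h6 : F c u ^ 2 / (2 * s) + s / 2 - |F c u| = (|F c u| - s) ^ 2 / (2 * s) := by
        rw [sub_sq, h5]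
        field_simp
        ring
      have h7 : 0 ≤ (|F c u| - s) ^ 2 / (2 * s) := by positivity
      linarith
    calc ∑ u, |F c u| ≤ ∑ u, (F c u ^ 2 / (2 * s) + s / 2) := sum_le_sum fun u _ => h3 u
      _ = (∑ u, F c u ^ 2) / (2 * s) + NN d k * (s / 2) := by
          rw [sum_add_distrib, ← sum_div, sum_const, card_univ, nsmul_eq_mul, C3c_card]
      _ ≤ (s ^ 2 * NN d k) / (2 * s) + NN d k * (s / 2) := by
          have := div_le_div_of_nonneg_right (h c) (by positivity : 0 ≤ 2 * s)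
          linarith
      _ = s * NN d k := by
          field_simp
          ring
  calc mc (fun c => ∑ u, |F c u|) ≤ mc (fun _ : Fin q => s * NN d k) := C3c_mono h2
    _ = _ := C3c_one hq _

private theorem C3c_prp {d k q : ℕ} {f : Site d k → Fin q} (hf : f ∈ prps d k q) : Prp f := by
  classical
  unfold prps at hf
  exact (mem_filter.1 hf).2

/-- (iv) -/
theorem env_det {ε : ℝ} (hε : 0 < ε) (hε1 : ε ≤ 1) (C₆ : ℝ) (t : ℕ) (δ : ℝ) (hδ : 0 < δ) :
    ∃ δ' : ℝ, 0 < δ' ∧ EvT ε fun d k q => ∀ (b : Bool) (σ : Stp d) (m : ℝ), MFE (ra d q) m → ∀ f ∈ prps d k q,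
      Good ε δ' C₆ t f →
      ∑ u ∈ cls b d k, (ra d q * mc (fun c => ya c f u * ya c f (u + sv σ)) + Real.log (al f u) +
          Real.log (al f (u + sv σ))) ≤
        NN d k / 2 * Phi (ra d q) m - ∑ u ∈ cls b d k, mc (fun c => LL (ra d q) m (ya c f u)) + δ * NN d k := by
  classical
  set s : ℝ := δ / (2 * Real.exp (A0 ε)) with hs
  have hE := Real.exp_pos (A0 ε)
  have hs0 : 0 < s := by positivity
  refine ⟨s ^ 2, by positivity, (EvT_reg hε hε1 1).mono fun d k q hr b σ m hm f hf hG => ?_⟩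
  obtain ⟨hd, hq, hk, -, -, -, hA0, -⟩ := hr
  have hd' : 1 ≤ d := by exact_mod_cast hd
  have hk' : 1 ≤ k := by exact_mod_cast hk
  have hq' : 1 ≤ q := by exact_mod_cast hq
  have hP := C3c_prp hf
  have hm1 : |m| ≤ 1 := by
    have h1 := mfe_lt _ m hm
    rw [abs_of_pos hm.1]
    exact h1.le
  have hN : 0 ≤ NN d k := by
    unfold NN
    positivity
  have hea : Real.exp (ra d q) ≤ Real.exp (A0 ε) := Real.exp_le_exp.2 hA0
  have hnn : ∀ F : Fin q → ℝ, 0 ≤ mc (fun c => |F c|) := by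
    intro F
    unfold mc
    exact div_nonneg (sum_nonneg fun c _ => abs_nonneg _) (Nat.cast_nonneg q)
  have h1 : ∑ u ∈ cls b d k, mc (fun c => |hh c f u - ra d q * ya c f (u + sv σ)|) ≤ s * NN d k := by
    refine (sum_le_sum_of_subset_of_nonneg (subset_univ _) fun u _ _ =>
      hnn fun c => hh c f u - ra d q * ya c f (u + sv σ)).trans ?_
    exact C3c_cs hq' s hs0 (fun c u => hh c f u - ra d q * ya c f (u + sv σ)) fun c => hG.mf c σ
  have h2 : ∑ u ∈ cls b d k, mc (fun c => |hh c f (u + sv σ) - ra d q * ya c f u|) ≤ s * NN d k := by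
    refine (sum_le_sum_of_subset_of_nonneg (subset_univ _) fun u _ _ =>
      hnn fun c => hh c f (u + sv σ) - ra d q * ya c f u).trans ?_
    have h3 := C3c_cs hq' s hs0 (fun c u => hh c f u - ra d q * ya c f (u + sv (opp σ))) fun c => hG.mf c (opp σ)
    have h4 : ∑ u : Site d k, mc (fun c => |hh c f (u + sv σ) - ra d q * ya c f u|) =
        ∑ u : Site d k, mc (fun c => |hh c f u - ra d q * ya c f (u + sv (opp σ))|) := by
      refine Fintype.sum_equiv (Equiv.addRight (sv σ)) _ _ fun u => ?_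
      have h5 : u + sv σ + sv (opp σ) = u := by
        have h6 : (sv σ : Site d k) + sv (opp σ) = 0 := sv_opp σ.1 σ.2
        rw [add_assoc, h6, add_zero]
      rw [Equiv.coe_addRight, h5]
    rw [h4]
    exact h3
  have h3 : ∑ u ∈ cls b d k, (ra d q * mc (fun c => ya c f u * ya c f (u + sv σ)) + Real.log (al f u) +
          Real.log (al f (u + sv σ))) ≤
      ∑ u ∈ cls b d k, (Phi (ra d q) m - mc (fun c => LL (ra d q) m (ya c f u)) +
      Real.exp (ra d q) * mc (fun c => |hh c f u - ra d q * ya c f (u + sv σ)|) +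
      Real.exp (ra d q) * mc (fun c => |hh c f (u + sv σ) - ra d q * ya c f u|)) :=
    sum_le_sum fun u _ => C3c_site hq' hP m hm1 u (u + sv σ)
  refine h3.trans ?_
  rw [sum_add_distrib, sum_add_distrib, sum_sub_distrib, ← mul_sum, ← mul_sum, sum_const, nsmul_eq_mul,
    card_cls hd' hk' b]
  have h4 : Real.exp (ra d q) * ∑ u ∈ cls b d k, mc (fun c => |hh c f u - ra d q * ya c f (u + sv σ)|) ≤
      Real.exp (A0 ε) * (s * NN d k) :=
    mul_le_mul hea h1 (sum_nonneg fun u _ => hnn fun c => hh c f u - ra d q * ya c f (u + sv σ)) hE.le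
  have h5 : Real.exp (ra d q) * ∑ u ∈ cls b d k, mc (fun c => |hh c f (u + sv σ) - ra d q * ya c f u|) ≤
      Real.exp (A0 ε) * (s * NN d k) :=
    mul_le_mul hea h2 (sum_nonneg fun u _ => hnn fun c => hh c f (u + sv σ) - ra d q * ya c f u) hE.le
  have h6 : Real.exp (A0 ε) * (s * NN d k) = δ / 2 * NN d k := by
    rw [hs]
    field_simp
  rw [h6] at h4 h5
  linarith

end Pool.Agent.THR

end

/-! ### from `Lib_MP_2c424f_thr.M4` -/

section

/-!
# THR M4: mean-field equations (paper proof: M4), deterministic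

`hh_u - a ya_{u+σ} = ∑_{x ~ u} [z_x/x_x - z_x/(q al_x)] + ∑ (z_x - zt_x)/(q al_x) + ∑ (zt_x - e^(-h_x))/(q al_x)
  + ((1/q) ∑_{x ~ u} ya_x - a ya_{u+σ})`, `(x+y+z+w)² ≤ 4(..)`.
1: regular `x`: `|z/x - z/(q al)| ≤ (e^a/(c1 q)) |x/q - al|`, irregular: `≤ 1 + e^a/q ≤ 2`; by Cauchy-Schwarz the square of the sum over the `2d` neighbours is
`≤ 2d ∑_x (..)²`; sum over `u`: `≤ (2d)² [ (e^a/(c1 q))² δ₂ N + 4 irr ]`.   2: `lln`.   3: `≤ (2d/q) e^a a/(c1² q)` if all neighbours `x` are
nice, else each bad `x` contributes `≤ e^a/q`.   4: `(1/q) ∑_x ya_x = a · mean`, `|ya_x - ya_{x'}|` by `ya_diff`, Cauchy-Schwarz (mean over steps, mean over colours), `hom`.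
-/

set_option autoImplicit false

open Finset Filter

namespace Pool.Agent.THR

open Pool.Agent.LO Pool.Agent.LIN

private theorem M4_transl {d k : ℕ} (g : Site d k → ℝ) (a : Site d k) : ∑ x, g (x + a) = ∑ x, g x :=
  Equiv.sum_comp (Equiv.addRight a) g

private theorem M4_card (d : ℕ) : ((univ : Finset (Stp d)).card : ℝ) = 2 * d := by
  have h : Fintype.card (Stp d) = d * 2 := by
    rw [show Fintype.card (Stp d) = Fintype.card (Fin d × Bool) from rfl, Fintype.card_prod, Fintype.card_fin,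
      Fintype.card_bool]
  rw [Finset.card_univ, h]
  push_cast
  ring

/-- sum over the sites of the sum over the steps -/
private theorem M4_sum {d k : ℕ} (g : Site d k → ℝ) :
    ∑ u : Site d k, ∑ σ : Stp d, g (u + sv σ) = 2 * d * ∑ x, g x := by
  rw [Finset.sum_comm]
  rw [Finset.sum_congr rfl fun σ _ => M4_transl g (sv σ), Finset.sum_const, nsmul_eq_mul, M4_card]

/-- Cauchy-Schwarz over the steps, summed over the sites -/
private theorem M4_cs {d k : ℕ} (t : Site d k → ℝ) :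
    ∑ u : Site d k, (∑ σ : Stp d, t (u + sv σ)) ^ 2 ≤ (2 * d) ^ 2 * ∑ x, t x ^ 2 := by
  calc ∑ u : Site d k, (∑ σ : Stp d, t (u + sv σ)) ^ 2
      ≤ ∑ u : Site d k, (2 * d) * ∑ σ : Stp d, t (u + sv σ) ^ 2 := by
        refine Finset.sum_le_sum fun u _ => ?_
        have h := sq_sum_le_card_mul_sum_sq (s := (univ : Finset (Stp d))) (f := fun σ => t (u + sv σ))
        rwa [M4_card] at h
    _ = (2 * d) ^ 2 * ∑ x, t x ^ 2 := by
        rw [← Finset.mul_sum, M4_sum (fun x => t x ^ 2)]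
        ring

private theorem M4_zz {d k q : ℕ} (f : Site d k → Fin q) (v : Site d k) (c : Fin q) : 0 ≤ zz f v c ∧ zz f v c ≤ 1 := by
  unfold zz
  split_ifs <;> norm_num

private theorem M4_mc_sq {q : ℕ} (hq : 1 ≤ q) (φ : Fin q → ℝ) : mc φ ^ 2 ≤ mc (fun c => φ c ^ 2) := by
  unfold mc
  have hq0 : (0 : ℝ) < q := by exact_mod_cast hq
  have h := sq_sum_le_card_mul_sum_sq (s := (univ : Finset (Fin q))) (f := φ)
  rw [Finset.card_univ, Fintype.card_fin] at h
  rw [div_pow, div_le_div_iff₀ (by positivity) hq0]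
  nlinarith

/-- term 1 -/
private theorem M4_t1 {d k q : ℕ} {ε : ℝ} (hq : 1 ≤ q) (hc1 : 0 < c1 ε) (heq : Real.exp (ra d q) ≤ q)
    {f : Site d k → Fin q} (hf : Prp f) (c : Fin q) (x : Site d k) :
    (zz f x c / (av f x : ℝ) - zz f x c / (q * al f x)) ^ 2 ≤
      (Real.exp (ra d q) / (c1 ε * q)) ^ 2 * ((av f x : ℝ) / q - al f x) ^ 2 +
        4 * (if (av f x : ℝ) < c1 ε * q then 1 else 0) := by
  have hq0 : (0 : ℝ) < q := by exact_mod_cast hq
  have hal := al_ge hq hf x
  have hal0 : 0 < al f x := lt_of_lt_of_le (Real.exp_pos _) hal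
  obtain ⟨z0, z1⟩ := M4_zz f x c
  set e := Real.exp (ra d q) with he
  have he0 : 0 < e := Real.exp_pos _
  have hinv : 1 ≤ e * al f x := by
    have h1 : e * Real.exp (-ra d q) = 1 := by
      rw [he, ← Real.exp_add]
      simp
    calc (1 : ℝ) = e * Real.exp (-ra d q) := h1.symm
      _ ≤ e * al f x := mul_le_mul_of_nonneg_left hal he0.le
  split_ifs with hirr
  · -- irregular
    have a1 : 0 ≤ zz f x c / (av f x : ℝ) := div_nonneg z0 (Nat.cast_nonneg _)
    have a2 : zz f x c / (av f x : ℝ) ≤ 1 := by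
      rcases Nat.eq_zero_or_pos (av f x) with h | h
      · rw [h]
        simp
      · have : (1 : ℝ) ≤ av f x := by exact_mod_cast h
        rw [div_le_one (by linarith)]
        linarith
    have a3 : 0 ≤ zz f x c / (q * al f x) := by positivity
    have a4 : zz f x c / (q * al f x) ≤ 1 := by
      rw [div_le_one (by positivity)]
      nlinarith
    have a5 : 0 ≤ (e / (c1 ε * q)) ^ 2 * ((av f x : ℝ) / q - al f x) ^ 2 := by positivity
    have a6 : |zz f x c / (av f x : ℝ) - zz f x c / (q * al f x)| ≤ 1 := by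
      rw [abs_le]
      constructor <;> linarith
    have a7 := sq_le_sq' (abs_le.1 a6).1 (abs_le.1 a6).2
    linarith
  · -- regular
    push Not at hirr
    have hav0 : (0 : ℝ) < av f x := lt_of_lt_of_le (by positivity) hirr
    have key : |zz f x c / (av f x : ℝ) - zz f x c / (q * al f x)| ≤
        e / (c1 ε * q) * |(av f x : ℝ) / q - al f x| := by
      have e1 : zz f x c / (av f x : ℝ) - zz f x c / (q * al f x) =
          -(zz f x c / ((av f x : ℝ) * al f x)) * ((av f x : ℝ) / q - al f x) := by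
        field_simp
        ring
      rw [e1, abs_mul, abs_neg, abs_of_nonneg (by positivity)]
      refine mul_le_mul_of_nonneg_right ?_ (abs_nonneg _)
      rw [div_le_div_iff₀ (by positivity) (by positivity)]
      calc zz f x c * (c1 ε * q) ≤ 1 * (av f x : ℝ) := mul_le_mul z1 hirr (by positivity) (by norm_num)
        _ ≤ (e * al f x) * (av f x : ℝ) := mul_le_mul_of_nonneg_right hinv hav0.le
        _ = e * ((av f x : ℝ) * al f x) := by ring
    have h2 := sq_le_sq' (abs_le.1 key).1 (abs_le.1 key).2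
    rw [mul_pow, sq_abs] at h2
    linarith

open scoped Classical in
/-- term 3 -/
private theorem M4_t3 {d k q : ℕ} {ε : ℝ} (hε : 0 < ε) (hq : 1 ≤ q) (hq2 : 2 / c1 ε ≤ q)
    {f : Site d k → Fin q} (hf : Prp f) (c : Fin q) (x : Site d k) :
    ((zt f x c - Real.exp (-hh c f x)) / (q * al f x)) ^ 2 ≤
      (Real.exp (ra d q) / q) ^ 2 * ((ra d q / (c1 ε ^ 2 * q)) ^ 2 +
        ∑ σ : Stp d, (if (av f (x + sv σ) : ℝ) < c1 ε * q then 1 else 0)) := by
  have hq0 : (0 : ℝ) < q := by exact_mod_cast hq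
  have hal := al_ge hq hf x
  have hal0 : 0 < al f x := lt_of_lt_of_le (Real.exp_pos _) hal
  set e := Real.exp (ra d q) with he
  have he0 : 0 < e := Real.exp_pos _
  have hinv : 1 ≤ e * al f x := by
    have h1 : e * Real.exp (-ra d q) = 1 := by
      rw [he, ← Real.exp_add]
      simp
    calc (1 : ℝ) = e * Real.exp (-ra d q) := h1.symm
      _ ≤ e * al f x := mul_le_mul_of_nonneg_left hal he0.le
  have h1 : ((zt f x c - Real.exp (-hh c f x)) / (q * al f x)) ^ 2 ≤
      (e / q) ^ 2 * (zt f x c - Real.exp (-hh c f x)) ^ 2 := by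
    rw [div_pow, div_pow, div_mul_eq_mul_div, div_le_div_iff₀ (by positivity) (by positivity), mul_pow]
    have h2 : 1 ≤ (e * al f x) ^ 2 := one_le_pow₀ hinv
    have h3 : 0 ≤ (zt f x c - Real.exp (-hh c f x)) ^ 2 * (q : ℝ) ^ 2 := by positivity
    nlinarith
  refine h1.trans (mul_le_mul_of_nonneg_left ?_ (by positivity))
  have hnn : 0 ≤ ∑ σ : Stp d, (if (av f (x + sv σ) : ℝ) < c1 ε * q then (1 : ℝ) else 0) :=
    Finset.sum_nonneg fun σ _ => by split_ifs <;> norm_num
  by_cases hnc : Nc ε f x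
  · have h2 := zt_exp hε hq2 hf c x hnc
    have h3 := sq_le_sq' (abs_le.1 h2).1 (abs_le.1 h2).2
    linarith
  · have h2 := zt_exp' hf c x
    have h3 := sq_le_sq' (abs_le.1 h2).1 (abs_le.1 h2).2
    have h4 : (1 : ℝ) ≤ ∑ σ : Stp d, (if (av f (x + sv σ) : ℝ) < c1 ε * q then (1 : ℝ) else 0) := by
      unfold Nc Rg at hnc
      push Not at hnc
      obtain ⟨σ, hσ⟩ := hnc
      have h5 := Finset.single_le_sum (f := fun σ : Stp d => (if (av f (x + sv σ) : ℝ) < c1 ε * q then (1 : ℝ) else 0))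
        (fun σ _ => by split_ifs <;> norm_num) (Finset.mem_univ σ)
      simpa [hσ] using h5
    have h6 : 0 ≤ (ra d q / (c1 ε ^ 2 * q)) ^ 2 := sq_nonneg _
    linarith

/-- term 4 -/
private theorem M4_t4 {d k q : ℕ} (hq : 1 ≤ q) {f : Site d k → Fin q} (hf : Prp f) {D : ℝ}
    (hom : ∀ (c : Fin q) (σ τ : Stp d), ∑ x : Site d k, (hh c f (x + sv σ) - hh c f (x + sv τ)) ^ 2 ≤ D)
    (c : Fin q) (σ τ : Stp d) :
    ∑ u : Site d k, (ya c f (u + sv τ) - ya c f (u + sv σ)) ^ 2 ≤ 4 * Real.exp (ra d q) ^ 4 * D := by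
  have hq0 : (0 : ℝ) < q := by exact_mod_cast hq
  set e := Real.exp (ra d q) with he
  have he2 : Real.exp (2 * ra d q) = e ^ 2 := by
    rw [he, ← Real.exp_nat_mul]
    norm_num
  have hra : 0 ≤ ra d q := by
    unfold ra
    positivity
  have he1 : 1 ≤ e := Real.one_le_exp hra
  have pt : ∀ u : Site d k, (ya c f (u + sv τ) - ya c f (u + sv σ)) ^ 2 ≤
      2 * e ^ 2 * (hh c f (u + sv τ) - hh c f (u + sv σ)) ^ 2 +
        2 * e ^ 4 * mc (fun γ => (hh γ f (u + sv τ) - hh γ f (u + sv σ)) ^ 2) := by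
    intro u
    have h1 := ya_diff hq hf c (u + sv τ) (u + sv σ)
    rw [he2] at h1
    set A := |hh c f (u + sv τ) - hh c f (u + sv σ)| with hA
    set B := mc (fun γ => |hh γ f (u + sv τ) - hh γ f (u + sv σ)|) with hB
    have h2 := sq_le_sq' (abs_le.1 h1).1 (abs_le.1 h1).2
    have h3 : B ^ 2 ≤ mc (fun γ => (hh γ f (u + sv τ) - hh γ f (u + sv σ)) ^ 2) := by
      refine (M4_mc_sq hq _).trans (le_of_eq ?_)
      congr 1
      funext γ
      rw [sq_abs]
    have h4 : A ^ 2 = (hh c f (u + sv τ) - hh c f (u + sv σ)) ^ 2 := by rw [hA, sq_abs]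
    have h5 : (e * A + e ^ 2 * B) ^ 2 ≤ 2 * (e * A) ^ 2 + 2 * (e ^ 2 * B) ^ 2 := by
      nlinarith [sq_nonneg (e * A - e ^ 2 * B)]
    have h6 : 2 * e ^ 4 * B ^ 2 ≤ 2 * e ^ 4 * mc (fun γ => (hh γ f (u + sv τ) - hh γ f (u + sv σ)) ^ 2) :=
      mul_le_mul_of_nonneg_left h3 (by positivity)
    rw [← h4]
    calc (ya c f (u + sv τ) - ya c f (u + sv σ)) ^ 2 ≤ (e * A + e ^ 2 * B) ^ 2 := h2
      _ ≤ 2 * (e * A) ^ 2 + 2 * (e ^ 2 * B) ^ 2 := h5
      _ = 2 * e ^ 2 * A ^ 2 + 2 * e ^ 4 * B ^ 2 := by ring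
      _ ≤ _ := by linarith
  have hD : 0 ≤ D := (Finset.sum_nonneg fun x _ => sq_nonneg _).trans (hom c σ σ)
  have hmc : ∑ u : Site d k, mc (fun γ => (hh γ f (u + sv τ) - hh γ f (u + sv σ)) ^ 2) ≤ D := by
    unfold mc
    rw [← Finset.sum_div, Finset.sum_comm, div_le_iff₀ hq0]
    calc ∑ γ : Fin q, ∑ u : Site d k, (hh γ f (u + sv τ) - hh γ f (u + sv σ)) ^ 2
        ≤ ∑ γ : Fin q, D := Finset.sum_le_sum fun γ _ => hom γ τ σ
      _ = D * q := by
        rw [Finset.sum_const, Finset.card_univ, Fintype.card_fin, nsmul_eq_mul]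
        ring
  calc ∑ u : Site d k, (ya c f (u + sv τ) - ya c f (u + sv σ)) ^ 2
      ≤ ∑ u : Site d k, (2 * e ^ 2 * (hh c f (u + sv τ) - hh c f (u + sv σ)) ^ 2 +
        2 * e ^ 4 * mc (fun γ => (hh γ f (u + sv τ) - hh γ f (u + sv σ)) ^ 2)) :=
        Finset.sum_le_sum fun u _ => pt u
    _ = 2 * e ^ 2 * ∑ u : Site d k, (hh c f (u + sv τ) - hh c f (u + sv σ)) ^ 2 +
        2 * e ^ 4 * ∑ u : Site d k, mc (fun γ => (hh γ f (u + sv τ) - hh γ f (u + sv σ)) ^ 2) := by
        rw [Finset.sum_add_distrib, Finset.mul_sum, Finset.mul_sum]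
    _ ≤ 2 * e ^ 2 * D + 2 * e ^ 4 * D := by
        refine add_le_add (mul_le_mul_of_nonneg_left (hom c τ σ) (by positivity))
          (mul_le_mul_of_nonneg_left hmc (by positivity))
    _ ≤ 4 * e ^ 4 * D := by
        have h7 : e ^ 2 ≤ e ^ 4 := pow_le_pow_right₀ he1 (by norm_num)
        nlinarith

/-- the decomposition -/
private theorem M4_dec {d k q : ℕ} (hq : 1 ≤ q) {f : Site d k → Fin q} (hf : Prp f) (c : Fin q) (σ : Stp d)
    (u : Site d k) :
    hh c f u - ra d q * ya c f (u + sv σ) =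
      ∑ τ : Stp d, (zz f (u + sv τ) c / (av f (u + sv τ) : ℝ) - zz f (u + sv τ) c / (q * al f (u + sv τ))) +
      ∑ τ : Stp d, (zz f (u + sv τ) c - zt f (u + sv τ) c) / (q * al f (u + sv τ)) +
      ∑ τ : Stp d, (zt f (u + sv τ) c - Real.exp (-hh c f (u + sv τ))) / (q * al f (u + sv τ)) +
      ∑ τ : Stp d, (ya c f (u + sv τ) - ya c f (u + sv σ)) / q := by
  have hq0 : (0 : ℝ) < q := by exact_mod_cast hq
  rw [← Finset.sum_add_distrib, ← Finset.sum_add_distrib, ← Finset.sum_add_distrib]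
  have h1 : ra d q * ya c f (u + sv σ) = ∑ τ : Stp d, ya c f (u + sv σ) / q := by
    rw [Finset.sum_const, nsmul_eq_mul, M4_card]
    unfold ra
    ring
  rw [h1]
  unfold hh
  rw [← Finset.sum_sub_distrib]
  refine Finset.sum_congr rfl fun τ _ => ?_
  have hal0 : 0 < al f (u + sv τ) := lt_of_lt_of_le (Real.exp_pos _) (al_ge hq hf _)
  have h2 : ya c f (u + sv τ) / q = Real.exp (-hh c f (u + sv τ)) / (q * al f (u + sv τ)) := by
    unfold ya
    rw [div_div, mul_comm (al f (u + sv τ))]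
  have h3 : (ya c f (u + sv τ) - ya c f (u + sv σ)) / q =
      Real.exp (-hh c f (u + sv τ)) / (q * al f (u + sv τ)) - ya c f (u + sv σ) / q := by
    rw [sub_div, h2]
  rw [h3, sub_div, sub_div]
  unfold hh
  ring

open scoped Classical in
private theorem M4_main {d k q : ℕ} {ε D : ℝ} (hε : 0 < ε) (hq : 1 ≤ q) (hc1 : 0 < c1 ε) (hq2 : 2 / c1 ε ≤ q)
    (heq : Real.exp (ra d q) ≤ q) {f : Site d k → Fin q} (hf : Prp f)
    (hom : ∀ (c : Fin q) (σ τ : Stp d), ∑ x : Site d k, (hh c f (x + sv σ) - hh c f (x + sv τ)) ^ 2 ≤ D)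
    (avl : ∑ v : Site d k, ((av f v : ℝ) / q - al f v) ^ 2 ≤ D)
    (lln : ∀ c : Fin q, ∑ u : Site d k,
        (∑ σ : Stp d, (zz f (u + sv σ) c - zt f (u + sv σ) c) / (q * al f (u + sv σ))) ^ 2 ≤ D)
    (c : Fin q) (σ : Stp d) :
    ∑ u : Site d k, (hh c f u - ra d q * ya c f (u + sv σ)) ^ 2 ≤
      4 * ((ra d q ^ 2 * Real.exp (ra d q) ^ 2 / c1 ε ^ 2 + 1 + 4 * ra d q ^ 2 * Real.exp (ra d q) ^ 4) * D +
        (16 * d ^ 2 + 2 * d * ra d q ^ 2 * Real.exp (ra d q) ^ 2) * irr ε f +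
        ra d q ^ 4 * Real.exp (ra d q) ^ 2 / (c1 ε ^ 4 * q ^ 2) * NN d k) := by
  have hq0 : (0 : ℝ) < q := by exact_mod_cast hq
  set e := Real.exp (ra d q) with he
  have he0 : 0 < e := Real.exp_pos _
  have hD : 0 ≤ D := (Finset.sum_nonneg fun x _ => sq_nonneg _).trans avl
  have hirr : ∑ x : Site d k, (if (av f x : ℝ) < c1 ε * q then (1 : ℝ) else 0) = irr ε f := by
    unfold irr
    rw [Finset.sum_boole]
  have h2d : (2 * d : ℝ) = ra d q * q := by
    unfold ra
    field_simp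
  have hcardS : ((univ : Finset (Site d k)).card : ℝ) = NN d k := by
    unfold NN
    rw [Finset.card_univ, Fintype.card_fun, Fintype.card_fin, ZMod.card]
    push_cast
    rfl
  -- the four parts
  have b1 : ∑ u : Site d k, (∑ τ : Stp d, (zz f (u + sv τ) c / (av f (u + sv τ) : ℝ) -
      zz f (u + sv τ) c / (q * al f (u + sv τ)))) ^ 2 ≤
      ra d q ^ 2 * e ^ 2 / c1 ε ^ 2 * D + 16 * d ^ 2 * irr ε f := by
    refine (M4_cs fun x => zz f x c / (av f x : ℝ) - zz f x c / (q * al f x)).trans ?_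
    have h1 : ∑ x : Site d k, (zz f x c / (av f x : ℝ) - zz f x c / (q * al f x)) ^ 2 ≤
        (e / (c1 ε * q)) ^ 2 * D + 4 * irr ε f := by
      calc ∑ x : Site d k, (zz f x c / (av f x : ℝ) - zz f x c / (q * al f x)) ^ 2
          ≤ ∑ x : Site d k, ((e / (c1 ε * q)) ^ 2 * ((av f x : ℝ) / q - al f x) ^ 2 +
            4 * (if (av f x : ℝ) < c1 ε * q then 1 else 0)) :=
            Finset.sum_le_sum fun x _ => M4_t1 hq hc1 heq hf c x
        _ = (e / (c1 ε * q)) ^ 2 * ∑ x : Site d k, ((av f x : ℝ) / q - al f x) ^ 2 + 4 * irr ε f := by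
            rw [Finset.sum_add_distrib, ← Finset.mul_sum, ← Finset.mul_sum, hirr]
        _ ≤ _ := by
            have := mul_le_mul_of_nonneg_left avl (sq_nonneg (e / (c1 ε * q)))
            linarith
    refine (mul_le_mul_of_nonneg_left h1 (by positivity)).trans (le_of_eq ?_)
    have h3 : (2 * (d : ℝ)) ^ 2 * ((e / (c1 ε * q)) ^ 2 * D + 4 * irr ε f) =
        (2 * (d : ℝ)) ^ 2 * ((e / (c1 ε * q)) ^ 2 * D) + 16 * d ^ 2 * irr ε f := by ring
    rw [h3, h2d]
    congr 1
    field_simp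
  have b3 : ∑ u : Site d k, (∑ τ : Stp d, (zt f (u + sv τ) c - Real.exp (-hh c f (u + sv τ))) /
      (q * al f (u + sv τ))) ^ 2 ≤
      ra d q ^ 4 * e ^ 2 / (c1 ε ^ 4 * q ^ 2) * NN d k + 2 * d * ra d q ^ 2 * e ^ 2 * irr ε f := by
    refine (M4_cs fun x => (zt f x c - Real.exp (-hh c f x)) / (q * al f x)).trans ?_
    have h1 : ∑ x : Site d k, ((zt f x c - Real.exp (-hh c f x)) / (q * al f x)) ^ 2 ≤
        (e / q) ^ 2 * ((ra d q / (c1 ε ^ 2 * q)) ^ 2 * NN d k + 2 * d * irr ε f) := by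
      calc ∑ x : Site d k, ((zt f x c - Real.exp (-hh c f x)) / (q * al f x)) ^ 2
          ≤ ∑ x : Site d k, (e / q) ^ 2 * ((ra d q / (c1 ε ^ 2 * q)) ^ 2 +
            ∑ τ : Stp d, (if (av f (x + sv τ) : ℝ) < c1 ε * q then 1 else 0)) :=
            Finset.sum_le_sum fun x _ => M4_t3 hε hq hq2 hf c x
        _ = (e / q) ^ 2 * ((ra d q / (c1 ε ^ 2 * q)) ^ 2 * NN d k + 2 * d * irr ε f) := by
            rw [← Finset.mul_sum, Finset.sum_add_distrib, Finset.sum_const, nsmul_eq_mul, hcardS,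
              M4_sum (fun x => if (av f x : ℝ) < c1 ε * q then (1 : ℝ) else 0), hirr]
            ring
    refine (mul_le_mul_of_nonneg_left h1 (by positivity)).trans (le_of_eq ?_)
    have h3 : (2 * (d : ℝ)) ^ 2 * ((e / q) ^ 2 * ((ra d q / (c1 ε ^ 2 * q)) ^ 2 * NN d k + 2 * d * irr ε f)) =
        (2 * (d : ℝ)) ^ 2 * (e / q) ^ 2 * ((ra d q / (c1 ε ^ 2 * q)) ^ 2 * NN d k) +
        (2 * (d : ℝ)) ^ 2 * (e / q) ^ 2 * (2 * d * irr ε f) := by ring
    have h4 : (2 * (d : ℝ)) ^ 2 * (e / q) ^ 2 = ra d q ^ 2 * e ^ 2 := by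
      rw [h2d]
      field_simp
    rw [h3, h4]
    have h5 : ra d q ^ 2 * e ^ 2 * ((ra d q / (c1 ε ^ 2 * q)) ^ 2 * NN d k) =
        ra d q ^ 4 * e ^ 2 / (c1 ε ^ 4 * q ^ 2) * NN d k := by
      field_simp
    rw [h5]
    ring
  have b4 : ∑ u : Site d k, (∑ τ : Stp d, (ya c f (u + sv τ) - ya c f (u + sv σ)) / q) ^ 2 ≤
      4 * ra d q ^ 2 * e ^ 4 * D := by
    calc ∑ u : Site d k, (∑ τ : Stp d, (ya c f (u + sv τ) - ya c f (u + sv σ)) / q) ^ 2
        ≤ ∑ u : Site d k, (2 * d) * ∑ τ : Stp d, ((ya c f (u + sv τ) - ya c f (u + sv σ)) / q) ^ 2 := by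
          refine Finset.sum_le_sum fun u _ => ?_
          have h := sq_sum_le_card_mul_sum_sq (s := (univ : Finset (Stp d)))
            (f := fun τ => (ya c f (u + sv τ) - ya c f (u + sv σ)) / q)
          rwa [M4_card] at h
      _ = (2 * d) / q ^ 2 * ∑ τ : Stp d, ∑ u : Site d k, (ya c f (u + sv τ) - ya c f (u + sv σ)) ^ 2 := by
          rw [← Finset.mul_sum, Finset.sum_comm]
          rw [div_mul_eq_mul_div, mul_div_assoc, Finset.sum_div]
          congr 1
          refine Finset.sum_congr rfl fun τ _ => ?_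
          rw [Finset.sum_div]
          refine Finset.sum_congr rfl fun u _ => ?_
          rw [div_pow]
      _ ≤ (2 * d) / q ^ 2 * ∑ τ : Stp d, 4 * e ^ 4 * D := by
          refine mul_le_mul_of_nonneg_left (Finset.sum_le_sum fun τ _ => M4_t4 hq hf hom c σ τ) (by positivity)
      _ = 4 * ra d q ^ 2 * e ^ 4 * D := by
          rw [Finset.sum_const, nsmul_eq_mul, M4_card, h2d]
          field_simp
  -- conclusion
  have pt : ∀ u : Site d k, (hh c f u - ra d q * ya c f (u + sv σ)) ^ 2 ≤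
      4 * ((∑ τ : Stp d, (zz f (u + sv τ) c / (av f (u + sv τ) : ℝ) -
        zz f (u + sv τ) c / (q * al f (u + sv τ)))) ^ 2 +
      (∑ τ : Stp d, (zz f (u + sv τ) c - zt f (u + sv τ) c) / (q * al f (u + sv τ))) ^ 2 +
      (∑ τ : Stp d, (zt f (u + sv τ) c - Real.exp (-hh c f (u + sv τ))) / (q * al f (u + sv τ))) ^ 2 +
      (∑ τ : Stp d, (ya c f (u + sv τ) - ya c f (u + sv σ)) / q) ^ 2) := by
    intro u
    rw [M4_dec hq hf c σ u]
    have gen : ∀ x y z w : ℝ, (x + y + z + w) ^ 2 ≤ 4 * (x ^ 2 + y ^ 2 + z ^ 2 + w ^ 2) := by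
      intro x y z w
      nlinarith [sq_nonneg (x - y), sq_nonneg (x - z), sq_nonneg (x - w), sq_nonneg (y - z), sq_nonneg (y - w),
        sq_nonneg (z - w)]
    exact gen _ _ _ _
  refine (Finset.sum_le_sum fun u _ => pt u).trans ?_
  rw [← Finset.mul_sum, Finset.sum_add_distrib, Finset.sum_add_distrib, Finset.sum_add_distrib]
  have b2 := lln c
  nlinarith

theorem mf_det {ε : ℝ} (hε : 0 < ε) (hε1 : ε ≤ 1) (δ : ℝ) (hδ : 0 < δ) : ∃ δ' : ℝ, 0 < δ' ∧
    EvT ε fun d k q => ∀ f ∈ prps d k q, irr ε f ≤ NN d k / (d : ℝ) ^ 4 →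
      (∀ (c : Fin q) (σ τ : Stp d), ∑ x : Site d k, (hh c f (x + sv σ) - hh c f (x + sv τ)) ^ 2 ≤ δ' * NN d k) →
      (∑ v : Site d k, ((av f v : ℝ) / q - al f v) ^ 2 ≤ δ' * NN d k) →
      (∀ c : Fin q, ∑ u : Site d k,
        (∑ σ : Stp d, (zz f (u + sv σ) c - zt f (u + sv σ) c) / (q * al f (u + sv σ))) ^ 2 ≤ δ' * NN d k) →
      ∀ (c : Fin q) (σ : Stp d), ∑ u : Site d k, (hh c f u - ra d q * ya c f (u + sv σ)) ^ 2 ≤ δ * NN d k := by
  have hc1 : 0 < c1 ε := by
    unfold c1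
    positivity
  set a := A0 ε with ha
  have ha0 : 0 < a := by
    rw [ha]
    unfold A0
    positivity
  set E := Real.exp a with hE
  have hE0 : 0 < E := Real.exp_pos _
  set K1 : ℝ := a ^ 2 * E ^ 2 / c1 ε ^ 2 + 1 + 4 * a ^ 2 * E ^ 4 with hK1
  set K2 : ℝ := 16 + 2 * a ^ 2 * E ^ 2 + a ^ 4 * E ^ 2 / (c1 ε ^ 4 * ε ^ 2) with hK2
  have hK1p : 0 < K1 := by positivity
  have hK2p : 0 < K2 := by positivity
  refine ⟨δ / (8 * K1), by positivity, max 1 (max ⌈8 * K2 / δ⌉₊ (max ⌈2 / c1 ε / ε⌉₊ ⌈E / ε⌉₊)), ?_⟩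
  intro d q hd hqd _
  refine Filter.Eventually.of_forall fun k f hf hir hom avl lln c σ => ?_
  have hd1 : (1 : ℝ) ≤ d := by
    exact_mod_cast (le_max_left _ _).trans hd
  have hd2 : 8 * K2 / δ ≤ d := by
    refine (Nat.le_ceil _).trans ?_
    exact_mod_cast (le_max_left _ _).trans ((le_max_right _ _).trans hd)
  have hd3 : 2 / c1 ε / ε ≤ d := by
    refine (Nat.le_ceil _).trans ?_
    exact_mod_cast (le_max_left _ _).trans ((le_max_right _ _).trans ((le_max_right _ _).trans hd))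
  have hd4 : E / ε ≤ d := by
    refine (Nat.le_ceil _).trans ?_
    exact_mod_cast (le_max_right _ _).trans ((le_max_right _ _).trans ((le_max_right _ _).trans hd))
  have hq0 : (0 : ℝ) < q := lt_of_lt_of_le (by positivity) hqd
  have hq : 1 ≤ q := by
    have : 0 < q := by exact_mod_cast hq0
    omega
  have hq2 : 2 / c1 ε ≤ q := by
    rw [div_le_iff₀ hε] at hd3
    linarith
  have hra0 : 0 ≤ ra d q := by
    unfold ra
    positivity
  have hra : ra d q ≤ a := by
    rw [ha]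
    unfold ra A0
    rw [div_le_div_iff₀ hq0 hε]
    nlinarith
  have heE : Real.exp (ra d q) ≤ E := Real.exp_le_exp.2 hra
  have heq : Real.exp (ra d q) ≤ q := by
    rw [div_le_iff₀ hε] at hd4
    linarith
  have hfP : Prp f := by
    classical
    unfold prps at hf
    exact (Finset.mem_filter.1 hf).2
  have hN : 0 < NN d k := by
    unfold NN
    positivity
  have main := M4_main hε hq hc1 hq2 heq hfP hom avl lln c σ
  refine main.trans ?_
  set e := Real.exp (ra d q) with he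
  have he0 : 0 < e := Real.exp_pos _
  have p1 : ra d q ^ 2 ≤ a ^ 2 := pow_le_pow_left₀ hra0 hra 2
  have p2 : ra d q ^ 4 ≤ a ^ 4 := pow_le_pow_left₀ hra0 hra 4
  have p3 : e ^ 2 ≤ E ^ 2 := pow_le_pow_left₀ he0.le heE 2
  have p4 : e ^ 4 ≤ E ^ 4 := pow_le_pow_left₀ he0.le heE 4
  have p5 : ra d q ^ 2 * e ^ 2 ≤ a ^ 2 * E ^ 2 := mul_le_mul p1 p3 (by positivity) (by positivity)
  have p6 : ra d q ^ 2 * e ^ 4 ≤ a ^ 2 * E ^ 4 := mul_le_mul p1 p4 (by positivity) (by positivity)
  have p7 : ra d q ^ 4 * e ^ 2 ≤ a ^ 4 * E ^ 2 := mul_le_mul p2 p3 (by positivity) (by positivity)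
  have q1 : ra d q ^ 2 * e ^ 2 / c1 ε ^ 2 + 1 + 4 * ra d q ^ 2 * e ^ 4 ≤ K1 := by
    have h1 : ra d q ^ 2 * e ^ 2 / c1 ε ^ 2 ≤ a ^ 2 * E ^ 2 / c1 ε ^ 2 :=
      div_le_div_of_nonneg_right p5 (by positivity)
    rw [hK1]
    nlinarith
  have q2 : (ra d q ^ 2 * e ^ 2 / c1 ε ^ 2 + 1 + 4 * ra d q ^ 2 * e ^ 4) * (δ / (8 * K1) * NN d k) ≤ δ / 8 * NN d k := by
    refine (mul_le_mul_of_nonneg_right q1 (by positivity)).trans (le_of_eq ?_)
    field_simp
  have hd0 : (0 : ℝ) < d := by linarith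
  have hdd : (d : ℝ) ≤ (d : ℝ) ^ 2 := by
    rw [sq]
    exact le_mul_of_one_le_right hd0.le hd1
  have hirr0 : 0 ≤ irr ε f := by
    unfold irr
    positivity
  have q3 : (16 * (d : ℝ) ^ 2 + 2 * d * ra d q ^ 2 * e ^ 2) * irr ε f ≤ (16 + 2 * a ^ 2 * E ^ 2) / d * NN d k := by
    have h1 : 16 * (d : ℝ) ^ 2 + 2 * d * ra d q ^ 2 * e ^ 2 ≤ (16 + 2 * a ^ 2 * E ^ 2) * d ^ 2 := by
      have h2 : 2 * (d : ℝ) * (ra d q ^ 2 * e ^ 2) ≤ 2 * d * (a ^ 2 * E ^ 2) :=
        mul_le_mul_of_nonneg_left p5 (by positivity)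
      have h3 : 2 * (d : ℝ) * (a ^ 2 * E ^ 2) ≤ 2 * (d ^ 2) * (a ^ 2 * E ^ 2) := by
        refine mul_le_mul_of_nonneg_right ?_ (by positivity)
        linarith
      calc 16 * (d : ℝ) ^ 2 + 2 * d * ra d q ^ 2 * e ^ 2
          = 16 * (d : ℝ) ^ 2 + 2 * (d : ℝ) * (ra d q ^ 2 * e ^ 2) := by ring
        _ ≤ 16 * (d : ℝ) ^ 2 + 2 * (d ^ 2) * (a ^ 2 * E ^ 2) := by linarith
        _ = (16 + 2 * a ^ 2 * E ^ 2) * d ^ 2 := by ring
    calc (16 * (d : ℝ) ^ 2 + 2 * d * ra d q ^ 2 * e ^ 2) * irr ε f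
        ≤ (16 + 2 * a ^ 2 * E ^ 2) * d ^ 2 * (NN d k / (d : ℝ) ^ 4) :=
          mul_le_mul h1 hir hirr0 (by positivity)
      _ = (16 + 2 * a ^ 2 * E ^ 2) / d ^ 2 * NN d k := by
          field_simp
      _ ≤ (16 + 2 * a ^ 2 * E ^ 2) / d * NN d k := by
          refine mul_le_mul_of_nonneg_right ?_ hN.le
          exact div_le_div_of_nonneg_left (by positivity) hd0 hdd
  have q4 : ra d q ^ 4 * e ^ 2 / (c1 ε ^ 4 * q ^ 2) * NN d k ≤ a ^ 4 * E ^ 2 / (c1 ε ^ 4 * ε ^ 2) / d * NN d k := by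
    refine mul_le_mul_of_nonneg_right ?_ hN.le
    rw [div_div]
    refine div_le_div₀ (by positivity) p7 (by positivity) ?_
    have h1 : ε ^ 2 * d ≤ (q : ℝ) ^ 2 := by
      have h2 : (ε * d) ^ 2 ≤ (q : ℝ) ^ 2 := pow_le_pow_left₀ (by positivity) hqd 2
      have h3 : ε ^ 2 * (d : ℝ) ≤ ε ^ 2 * (d : ℝ) ^ 2 := by
        exact mul_le_mul_of_nonneg_left hdd (by positivity)
      calc ε ^ 2 * (d : ℝ) ≤ ε ^ 2 * (d : ℝ) ^ 2 := h3
        _ = (ε * d) ^ 2 := by ring
        _ ≤ _ := h2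
    calc c1 ε ^ 4 * ε ^ 2 * (d : ℝ) = c1 ε ^ 4 * (ε ^ 2 * d) := by ring
      _ ≤ c1 ε ^ 4 * (q : ℝ) ^ 2 := mul_le_mul_of_nonneg_left h1 (by positivity)
  have q5 : (16 + 2 * a ^ 2 * E ^ 2) / d + a ^ 4 * E ^ 2 / (c1 ε ^ 4 * ε ^ 2) / d ≤ δ / 8 := by
    have h0 : (16 + 2 * a ^ 2 * E ^ 2) / d + a ^ 4 * E ^ 2 / (c1 ε ^ 4 * ε ^ 2) / d = K2 / d := by
      rw [← add_div]
    rw [h0, div_le_iff₀ hd0]
    rw [div_le_iff₀ hδ] at hd2
    linarith
  have q6 := mul_le_mul_of_nonneg_right q5 hN.le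
  rw [add_mul] at q6
  linarith

end Pool.Agent.THR

end

/-! ### from `Lib_MP_2c424f_thr.A5a` -/

section

/-!
# THR A5a: consequences for good colourings, first part (paper proof: A5)

`a = ra d q`, `a1 ε ≤ a ≤ A0 ε` (`EvT_reg`), `1 < a1 ε`, `0 ≤ ya ≤ e^a` (`ya_bound`), `N = NN d k`; from `ℓ²` to `ℓ¹` by Cauchy-Schwarz.
`u = v + σ₀` for a fixed step (sums over all `v` = sums over all `u`); the sums of `mc LL` over both classes add up to at most `2 δ' N`.
* `pin_al`, first part: `al_v = mc exp (-hh_v)`, `|exp (-hh_v) - exp (-a ya_u)| ≤ |hh_v - a ya_u|` (`mf`), `est1` (with `η = δ/4` say) and `mc (α*(2 - ya_u)) = α*` (`ya_mean`).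
* second part: `ya_v = exp (-hh_v)/al_v`, `Fy (ya_u) = exp (-a ya_u)/α*`, both denominators `≥ e^(-a)` (`al_ge`, `als_bounds`); `mf` and the first part.
* `pin_d3`: `est3`, `|ya_v - F (F (ya_v))| ≤ |ya_v - F (ya_{v+σ})| + C |ya_{v+σ} - F (ya_v)|` (`Fy_lip`, hypothesis twice, the second time at the site `v+σ` with the opposite step).
-/

set_option autoImplicit false

open Finset Filter

namespace Pool.Agent.THR

open Pool.Agent.LO Pool.Agent.LIN

private theorem A5a_expL (x y : ℝ) (hx : 0 ≤ x) (hy : 0 ≤ y) : |Real.exp (-x) - Real.exp (-y)| ≤ |x - y| := by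
  have key : ∀ s t : ℝ, 0 ≤ s → s ≤ t → |Real.exp (-s) - Real.exp (-t)| ≤ |s - t| := by
    intro s t hs hst
    have h1 : Real.exp (-t) ≤ Real.exp (-s) := Real.exp_le_exp.mpr (by linarith)
    rw [abs_of_nonneg (by linarith), abs_of_nonpos (by linarith)]
    have h2 : Real.exp (-t) = Real.exp (-s) * Real.exp (s - t) := by
      rw [← Real.exp_add]
      congr 1
      ring
    have h3 := Real.add_one_le_exp (s - t)
    have h4 : Real.exp (-s) ≤ 1 := Real.exp_le_one_iff.mpr (by linarith)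
    have h5 := Real.exp_nonneg (-s)
    rw [h2]
    nlinarith
  rcases le_total x y with h | h
  · exact key x y hx h
  · rw [abs_sub_comm, abs_sub_comm x y]
    exact key y x hy h

private theorem A5a_shift {d k : ℕ} (w : Site d k) (φ : Site d k → ℝ) : ∑ v, φ (v + w) = ∑ v, φ v :=
  Fintype.sum_equiv (Equiv.addRight w) _ _ fun _ => rfl

private theorem A5a_card (d k : ℕ) : ((univ : Finset (Site d k)).card : ℝ) = NN d k := by
  rw [card_univ, card_site]

private theorem A5a_NN (d k : ℕ) : 0 ≤ NN d k := by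
  unfold NN
  positivity

/-- from l2 to l1 -/
private theorem A5a_cs {d k : ℕ} (φ : Site d k → ℝ) (κ s : ℝ) (hs : 0 ≤ s) (hκ : κ ≤ s ^ 2)
    (h : ∑ v, φ v ^ 2 ≤ κ * NN d k) : ∑ v, |φ v| ≤ s * NN d k := by
  have hN := A5a_NN d k
  have h1 := sq_sum_le_card_mul_sum_sq (s := (univ : Finset (Site d k))) (f := fun v => |φ v|)
  simp only [sq_abs] at h1
  rw [A5a_card] at h1
  have h2 : (∑ v, |φ v|) ^ 2 ≤ (s * NN d k) ^ 2 := by
    calc (∑ v, |φ v|) ^ 2 ≤ NN d k * ∑ v, φ v ^ 2 := h1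
      _ ≤ NN d k * (κ * NN d k) := mul_le_mul_of_nonneg_left h hN
      _ ≤ NN d k * (s ^ 2 * NN d k) := by gcongr
      _ = _ := by ring
  exact abs_le_of_sq_le_sq' h2 (by positivity) |>.2

private theorem A5a_mc_mono {q : ℕ} (φ ψ : Fin q → ℝ) (h : ∀ c, φ c ≤ ψ c) : mc φ ≤ mc ψ := by
  unfold mc
  exact div_le_div_of_nonneg_right (sum_le_sum fun c _ => h c) (Nat.cast_nonneg _)

private theorem A5a_mc_add {q : ℕ} (φ ψ : Fin q → ℝ) : mc (fun c => φ c + ψ c) = mc φ + mc ψ := by
  unfold mc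
  rw [sum_add_distrib, add_div]

private theorem A5a_mc_mul {q : ℕ} (r : ℝ) (φ : Fin q → ℝ) : mc (fun c => r * φ c) = r * mc φ := by
  unfold mc
  rw [← mul_sum, mul_div_assoc]

private theorem A5a_mc_const {q : ℕ} (hq : 1 ≤ q) (r : ℝ) : mc (fun _ : Fin q => r) = r := by
  have : (0 : ℝ) < q := by exact_mod_cast hq
  unfold mc
  rw [sum_const, card_univ, Fintype.card_fin, nsmul_eq_mul]
  field_simp

private theorem A5a_mc_abs {q : ℕ} (φ : Fin q → ℝ) : |mc φ| ≤ mc fun c => |φ c| := by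
  unfold mc
  rw [abs_div, Nat.abs_cast]
  exact div_le_div_of_nonneg_right (abs_sum_le_sum_abs _ _) (Nat.cast_nonneg _)

private theorem A5a_mc_sum {q : ℕ} {ι : Type*} (A : Finset ι) (φ : ι → Fin q → ℝ) :
    ∑ v ∈ A, mc (φ v) = mc fun c => ∑ v ∈ A, φ v c := by
  unfold mc
  rw [← sum_div, sum_comm]

private theorem A5a_a1 {ε : ℝ} (hε : 0 < ε) (hε1 : ε ≤ 1) : 1 < a1 ε := by
  unfold a1
  rw [lt_div_iff₀ (by linarith)]
  linarith

private theorem A5a_prp {d k q : ℕ} {f : Site d k → Fin q} (hf : f ∈ prps d k q) : Prp f := by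
  classical
  unfold prps at hf
  exact (mem_filter.1 hf).2

/-- a sum over all sites is the sum over the two classes -/
private theorem A5a_cls {d k : ℕ} (φ : Site d k → ℝ) : ∑ v, φ v = ∑ v ∈ cls true d k, φ v + ∑ v ∈ cls false d k, φ v := by
  classical
  simp only [cls, if_true, Bool.false_eq_true, if_false]
  unfold evs ods
  exact (sum_filter_add_sum_filter_not univ _ _).symm

theorem pin_al {ε : ℝ} (hε : 0 < ε) (hε1 : ε ≤ 1) (C₆ : ℝ) (t : ℕ) (δ : ℝ) (hδ : 0 < δ) : ∃ δ' : ℝ, 0 < δ' ∧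
    EvT ε fun d k q => ∀ m yM : ℝ, MFE (ra d q) m → YM (ra d q) m yM → ∀ f ∈ prps d k q, Good ε δ' C₆ t f →
      (∀ b : Bool, ∑ u ∈ cls b d k, mc (fun c => LL (ra d q) m (ya c f u)) ≤ δ' * NN d k) →
      (∑ v : Site d k, |al f v - als (ra d q) m| ≤ δ * NN d k) ∧
      ∀ (c : Fin q) (σ : Stp d), ∑ v : Site d k, |ya c f v - Fy (ra d q) m (ya c f (v + sv σ))| ≤ δ * NN d k := by
  have ha1 := A5a_a1 hε hε1
  set K : ℝ := Real.exp (A0 ε) with hK
  have hK1 : 1 ≤ K := by
    rw [hK]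
    exact Real.one_le_exp (by unfold A0; positivity)
  set κ : ℝ := δ / (2 * K ^ 2) with hκ
  have hκ0 : 0 < κ := by positivity
  have hκδ : K ^ 2 * κ = δ / 2 := by
    rw [hκ]
    field_simp
  have hκδ1 : K * κ ≤ δ / 2 := by
    rw [← hκδ]
    nlinarith [mul_nonneg hκ0.le (sub_nonneg.2 hK1)]
  have hκδ2 : κ ≤ δ := by
    nlinarith [mul_nonneg hκ0.le (sub_nonneg.2 hK1)]
  obtain ⟨C, hC, hest⟩ := est1 (a1 ε) (A0 ε) K ha1 (κ / 4) (by positivity)
  refine ⟨min ((κ / 4) ^ 2) (κ / (8 * C)), by positivity, ?_⟩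
  set δ' : ℝ := min ((κ / 4) ^ 2) (κ / (8 * C)) with hδ'
  have hd1 : δ' ≤ (κ / 4) ^ 2 := min_le_left _ _
  have hd2 : C * (2 * δ') ≤ κ / 4 := by
    have h1 : δ' ≤ κ / (8 * C) := min_le_right _ _
    have h2 : C * (2 * δ') ≤ C * (2 * (κ / (8 * C))) := by gcongr
    refine h2.trans (le_of_eq ?_)
    field_simp
    norm_num
  refine (EvT_reg hε hε1 1).mono ?_
  rintro d k q ⟨hd, hq, -, -, -, haa, haA, -⟩ m yM hm hM f hf hG hLL
  have hf' : Prp f := A5a_prp hf
  have hq1 : 1 ≤ q := by exact_mod_cast hq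
  have hd1' : 1 ≤ d := by exact_mod_cast hd
  have hN := A5a_NN d k
  set a := ra d q with hadef
  have ha : 1 < a := lt_of_lt_of_le ha1 haa
  have hy0 : ∀ c v, 0 ≤ ya c f v := fun c v => (ya_bound hq1 hf' c v).1.le
  have hyK : ∀ c v, ya c f v ≤ K := fun c v => (ya_bound hq1 hf' c v).2.trans (Real.exp_le_exp.2 haA)
  have hmf : ∀ (c : Fin q) (σ : Stp d), ∑ u, |hh c f u - a * ya c f (u + sv σ)| ≤ κ / 4 * NN d k := fun c σ =>
    A5a_cs _ _ _ (by positivity) hd1 (hG.mf c σ)
  have hexp : ∀ c v (σ : Stp d), |Real.exp (-hh c f v) - Real.exp (-(a * ya c f (v + sv σ)))| ≤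
      |hh c f v - a * ya c f (v + sv σ)| := fun c v σ =>
    A5a_expL _ _ (hh_nonneg c f v) (mul_nonneg (by linarith) (hy0 c _))
  have hLLs : ∑ u : Site d k, mc (fun c => LL a m (ya c f u)) ≤ 2 * δ' * NN d k := by
    rw [A5a_cls]
    have h1 := hLL true
    have h2 := hLL false
    linarith
  have hfirst : ∑ v : Site d k, |al f v - als a m| ≤ κ * NN d k := by
    set σ : Stp d := (⟨0, hd1'⟩, true) with hσ
    have hpt : ∀ v : Site d k, |al f v - als a m| ≤
        mc (fun c => |hh c f v - a * ya c f (v + sv σ)|) + κ / 4 +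
          C * mc (fun c => LL a m (ya c f (v + sv σ))) := by
      intro v
      have e1 : al f v = mc fun c => Real.exp (-hh c f v) := rfl
      have e2 : als a m = mc fun c => als a m * (2 - ya c f (v + sv σ)) := by
        rw [A5a_mc_mul]
        have e3 : mc (fun c : Fin q => 2 - ya c f (v + sv σ)) = 1 := by
          have e4 : (fun c : Fin q => 2 - ya c f (v + sv σ)) = fun c => (2 : ℝ) + (-1) * ya c f (v + sv σ) := by
            funext c
            ring
          rw [e4, A5a_mc_add, A5a_mc_mul, A5a_mc_const hq1, ya_mean hq1]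
          norm_num
        rw [e3, mul_one]
      have e5 : al f v - als a m = mc fun c => (Real.exp (-hh c f v) - als a m * (2 - ya c f (v + sv σ))) := by
        have e6 : (fun c => (Real.exp (-hh c f v) - als a m * (2 - ya c f (v + sv σ)))) =
            fun c => Real.exp (-hh c f v) + (-1) * (als a m * (2 - ya c f (v + sv σ))) := by
          funext c
          ring
        rw [e6, A5a_mc_add, A5a_mc_mul (-1) (fun c => als a m * (2 - ya c f (v + sv σ))), ← e2, ← e1]
        ring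
      rw [e5]
      refine (A5a_mc_abs _).trans ?_
      have e7 : mc (fun c => |hh c f v - a * ya c f (v + sv σ)|) + κ / 4 +
          C * mc (fun c => LL a m (ya c f (v + sv σ))) =
          mc fun c => |hh c f v - a * ya c f (v + sv σ)| + (κ / 4 + C * LL a m (ya c f (v + sv σ))) := by
        rw [A5a_mc_add, A5a_mc_add (fun _ => κ / 4) (fun c => C * LL a m (ya c f (v + sv σ))), A5a_mc_mul,
          A5a_mc_const hq1]
        ring
      rw [e7]
      refine A5a_mc_mono _ _ fun c => ?_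
      have e8 : Real.exp (-hh c f v) - als a m * (2 - ya c f (v + sv σ)) =
          (Real.exp (-hh c f v) - Real.exp (-(a * ya c f (v + sv σ)))) +
            (Real.exp (-(a * ya c f (v + sv σ))) - als a m * (2 - ya c f (v + sv σ))) := by ring
      rw [e8]
      exact (abs_add_le _ _).trans (add_le_add (hexp c v σ) (hest a m _ haa haA hm (hy0 c _) (hyK c _)))
    refine (sum_le_sum fun v _ => hpt v).trans ?_
    rw [sum_add_distrib, sum_add_distrib, sum_const, nsmul_eq_mul, A5a_card, ← mul_sum]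
    have h1 : ∑ v : Site d k, mc (fun c => |hh c f v - a * ya c f (v + sv σ)|) ≤ κ / 4 * NN d k := by
      rw [A5a_mc_sum]
      refine (A5a_mc_mono _ _ fun c => hmf c σ).trans (A5a_mc_const hq1 _).le
    have h2 : ∑ v : Site d k, mc (fun c => LL a m (ya c f (v + sv σ))) =
        ∑ v : Site d k, mc (fun c => LL a m (ya c f v)) :=
      A5a_shift (sv σ) fun v => mc (fun c => LL a m (ya c f v))
    rw [h2]
    have h3 : C * ∑ v : Site d k, mc (fun c => LL a m (ya c f v)) ≤ κ / 4 * NN d k := by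
      calc C * ∑ v : Site d k, mc (fun c => LL a m (ya c f v)) ≤ C * (2 * δ' * NN d k) :=
            mul_le_mul_of_nonneg_left hLLs hC.le
        _ = C * (2 * δ') * NN d k := by ring
        _ ≤ κ / 4 * NN d k := mul_le_mul_of_nonneg_right hd2 hN
    nlinarith
  refine ⟨hfirst.trans (mul_le_mul_of_nonneg_right hκδ2 hN), fun c σ => ?_⟩
  have hals := als_bounds a m (by linarith) (by rw [abs_of_pos hm.1]; exact (mfe_lt a m hm).le)
  have hKa : ∀ x : ℝ, Real.exp (-a) ≤ x → 1 / x ≤ K := by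
    intro x hx
    have h0 : 0 < x := lt_of_lt_of_le (Real.exp_pos _) hx
    rw [div_le_iff₀ h0]
    calc (1 : ℝ) = Real.exp a * Real.exp (-a) := by rw [← Real.exp_add, add_neg_cancel, Real.exp_zero]
      _ ≤ K * x := mul_le_mul (Real.exp_le_exp.2 haA) hx (Real.exp_nonneg _) (by linarith)
  have hpt : ∀ v : Site d k, |ya c f v - Fy a m (ya c f (v + sv σ))| ≤
      K * |hh c f v - a * ya c f (v + sv σ)| + K ^ 2 * |al f v - als a m| := by
    intro v
    have hal := al_ge hq1 hf' v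
    have h1 := hKa _ hal
    have h2 := hKa _ hals.1
    have h3 : 0 < al f v := lt_of_lt_of_le (Real.exp_pos _) hal
    have h4 : 0 < als a m := als_pos a m
    have e1 : ya c f v - Fy a m (ya c f (v + sv σ)) =
        1 / al f v * (Real.exp (-hh c f v) - Real.exp (-(a * ya c f (v + sv σ)))) +
          Real.exp (-(a * ya c f (v + sv σ))) * (1 / al f v * (1 / als a m)) * (als a m - al f v) := by
      unfold ya Fy
      field_simp
      ring
    rw [e1]
    refine (abs_add_le _ _).trans (add_le_add ?_ ?_)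
    · rw [abs_mul, abs_of_pos (by positivity)]
      exact mul_le_mul h1 (hexp c v σ) (abs_nonneg _) (by linarith)
    · rw [abs_mul, abs_of_nonneg (by positivity), abs_sub_comm]
      refine mul_le_mul_of_nonneg_right ?_ (abs_nonneg _)
      have h5 : Real.exp (-(a * ya c f (v + sv σ))) ≤ 1 :=
        Real.exp_le_one_iff.2 (by have := mul_nonneg (by linarith : (0:ℝ) ≤ a) (hy0 c (v + sv σ)); linarith)
      have h6 : 1 / al f v * (1 / als a m) ≤ K * K := mul_le_mul h1 h2 (by positivity) (by linarith)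
      calc Real.exp (-(a * ya c f (v + sv σ))) * (1 / al f v * (1 / als a m))
          ≤ 1 * (K * K) := mul_le_mul h5 h6 (by positivity) zero_le_one
        _ = K ^ 2 := by ring
  refine (sum_le_sum fun v _ => hpt v).trans ?_
  rw [sum_add_distrib, ← mul_sum, ← mul_sum]
  have h1 := mul_le_mul_of_nonneg_left (hmf c σ) (by linarith : 0 ≤ K)
  have h2 := mul_le_mul_of_nonneg_left hfirst (by positivity : 0 ≤ K ^ 2)
  have h3 : K * (κ / 4 * NN d k) ≤ δ / 8 * NN d k := by
    have : K * (κ / 4 * NN d k) = K * κ / 4 * NN d k := by ring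
    rw [this]
    exact mul_le_mul_of_nonneg_right (by linarith) hN
  have h4 : K ^ 2 * (κ * NN d k) = δ / 2 * NN d k := by
    rw [← mul_assoc, hκδ]
  have h5 : 0 ≤ δ * NN d k := by positivity
  linarith

theorem pin_d3 {ε : ℝ} (hε : 0 < ε) (hε1 : ε ≤ 1) (δ : ℝ) (hδ : 0 < δ) : ∃ δ' : ℝ, 0 < δ' ∧
    EvT ε fun d k q => ∀ m yM : ℝ, MFE (ra d q) m → YM (ra d q) m yM → ∀ f ∈ prps d k q,
      (∀ (c : Fin q) (σ : Stp d), ∑ v : Site d k, |ya c f v - Fy (ra d q) m (ya c f (v + sv σ))| ≤ δ' * NN d k) →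
      ∀ c : Fin q, ∑ v : Site d k, dst3 m yM (ya c f v) ≤ δ * NN d k := by
  have ha1 := A5a_a1 hε hε1
  set K : ℝ := Real.exp (A0 ε) with hK
  have hA0 : 0 ≤ A0 ε := by unfold A0; positivity
  obtain ⟨C, hC, hest⟩ := est3 (a1 ε) (A0 ε) K ha1 (δ / 2) (by positivity)
  refine ⟨δ / (2 * (C * (1 + A0 ε * K))), by positivity, ?_⟩
  set δ' : ℝ := δ / (2 * (C * (1 + A0 ε * K))) with hδ'
  have hδ'' : C * ((1 + A0 ε * K) * δ') = δ / 2 := by
    have h0 : (0 : ℝ) < 1 + A0 ε * K := by positivity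
    rw [hδ']
    field_simp
  refine (EvT_reg hε hε1 1).mono ?_
  rintro d k q ⟨hd, hq, -, -, -, haa, haA, -⟩ m yM hm hM f hf hF c
  have hf' : Prp f := A5a_prp hf
  have hq1 : 1 ≤ q := by exact_mod_cast hq
  have hd1' : 1 ≤ d := by exact_mod_cast hd
  have hN := A5a_NN d k
  set a := ra d q with hadef
  have ha : 1 < a := lt_of_lt_of_le ha1 haa
  have hy0 : ∀ v, 0 ≤ ya c f v := fun v => (ya_bound hq1 hf' c v).1.le
  have hyK : ∀ v, ya c f v ≤ K := fun v => (ya_bound hq1 hf' c v).2.trans (Real.exp_le_exp.2 haA)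
  set i₀ : Fin d := ⟨0, hd1'⟩ with hi₀
  have hopp : (sv (i₀, true) : Site d k) + sv (i₀, false) = 0 := sv_opp i₀ true
  have hpt : ∀ v : Site d k, dst3 m yM (ya c f v) ≤ δ / 2 + C * (|ya c f v - Fy a m (ya c f (v + sv (i₀, true)))| +
      A0 ε * K * |ya c f (v + sv (i₀, true)) - Fy a m (ya c f (v + sv (i₀, true) + sv (i₀, false)))|) := by
    intro v
    refine (hest a m yM _ haa haA hm hM (hy0 v) (hyK v)).trans ?_
    refine add_le_add le_rfl (mul_le_mul_of_nonneg_left ?_ hC.le)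
    rw [add_assoc v, hopp, add_zero]
    have hl0 := Fy_lip a m (ya c f v) (ya c f v) ha hm (hy0 v) (hy0 v)
    have hl := (Fy_lip a m (ya c f (v + sv (i₀, true))) (Fy a m (ya c f v)) ha hm (hy0 _) hl0.2.1.le).1
    have e1 : ya c f v - Fy a m (Fy a m (ya c f v)) = (ya c f v - Fy a m (ya c f (v + sv (i₀, true)))) +
        (Fy a m (ya c f (v + sv (i₀, true))) - Fy a m (Fy a m (ya c f v))) := by ring
    rw [e1]
    refine (abs_add_le _ _).trans (add_le_add le_rfl (hl.trans ?_))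
    refine mul_le_mul_of_nonneg_right ?_ (abs_nonneg _)
    exact mul_le_mul haA (Real.exp_le_exp.2 haA) (Real.exp_nonneg _) hA0
  refine (sum_le_sum fun v _ => hpt v).trans ?_
  rw [sum_add_distrib, sum_const, nsmul_eq_mul, A5a_card, ← mul_sum, sum_add_distrib, ← mul_sum]
  have h1 := hF c (i₀, true)
  have h2 := hF c (i₀, false)
  have h3 : ∑ v : Site d k, |ya c f (v + sv (i₀, true)) - Fy a m (ya c f (v + sv (i₀, true) + sv (i₀, false)))| ≤
      δ' * NN d k := by
    refine le_trans (le_of_eq ?_) h2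
    exact A5a_shift (sv (i₀, true)) fun v => |ya c f v - Fy a m (ya c f (v + sv (i₀, false)))|
  have h4 : C * (∑ v : Site d k, |ya c f v - Fy a m (ya c f (v + sv (i₀, true)))| +
      A0 ε * K * ∑ v : Site d k, |ya c f (v + sv (i₀, true)) - Fy a m (ya c f (v + sv (i₀, true) + sv (i₀, false)))|) ≤
      C * (δ' * NN d k + A0 ε * K * (δ' * NN d k)) := by
    refine mul_le_mul_of_nonneg_left (add_le_add h1 (mul_le_mul_of_nonneg_left h3 ?_)) hC.le
    positivity
  have h5 : C * (δ' * NN d k + A0 ε * K * (δ' * NN d k)) = δ / 2 * NN d k := by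
    rw [← hδ'']
    ring
  linarith

end Pool.Agent.THR

end

/-! ### from `Lib_MP_2c424f_thr.A5b` -/

section

/-!
# THR A5b: consequences for good colourings, second part (paper proof: A5)

`a = ra d q`, `a1 ε ≤ a ≤ A0 ε` (`EvT_reg`), `1 < a1 ε`, `0 ≤ ya ≤ e^a` (`ya_bound`), `N = NN d k`.
* `pin_d2`: `est2` and the hypothesis on `LL` (both classes); `|ya - (1 + m eps)| = dst2 m ya` (`eps = 1` iff `ya ≥ 1`).
* `pin_fl`, first part: `m · mc eps = mc ((1 + m eps) - ya)` (`ya_mean`), `m ≥ gap`.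
* second part: if `eps_v = eps_{v+σ} = e` then `2 m = |(1 + m e) - (1 - m e)| ≤ |ya_v - (1+me)| + |F (ya_{v+σ}) - F (1 + m e)| + |ya_v - F (ya_{v+σ})|`
  (`Fy_add`, `Fy_sub`: `F (1 + m e) = 1 - m e`), `Fy_lip`, `m ≥ gap`.
-/

set_option autoImplicit false

open Finset Filter

namespace Pool.Agent.THR

open Pool.Agent.LO Pool.Agent.LIN

private theorem A5b_a1 {ε : ℝ} (hε : 0 < ε) (hε1 : ε ≤ 1) : 1 < a1 ε := by
  unfold a1
  rw [one_lt_div (by linarith)]
  linarith

section aux
variable {d k q : ℕ}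

private theorem A5b_mc_mono (φ ψ : Fin q → ℝ) (h : ∀ c, φ c ≤ ψ c) : mc φ ≤ mc ψ := by
  unfold mc
  exact div_le_div_of_nonneg_right (Finset.sum_le_sum fun c _ => h c) (Nat.cast_nonneg q)

private theorem A5b_mc_add (φ ψ : Fin q → ℝ) : mc (fun c => φ c + ψ c) = mc φ + mc ψ := by
  unfold mc
  rw [Finset.sum_add_distrib, add_div]

private theorem A5b_mc_mul (a : ℝ) (φ : Fin q → ℝ) : mc (fun c => a * φ c) = a * mc φ := by
  unfold mc
  rw [← Finset.mul_sum, mul_div_assoc]

private theorem A5b_mc_const (hq : 1 ≤ q) (a : ℝ) : mc (fun _ : Fin q => a) = a := by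
  have hq' : (1 : ℝ) ≤ q := by exact_mod_cast hq
  unfold mc
  rw [Finset.sum_const, Finset.card_univ, Fintype.card_fin, nsmul_eq_mul]
  field_simp

private theorem A5b_mc_abs (φ : Fin q → ℝ) : |mc φ| ≤ mc fun c => |φ c| := by
  unfold mc
  rw [abs_div, abs_of_nonneg (Nat.cast_nonneg q : (0 : ℝ) ≤ q)]
  exact div_le_div_of_nonneg_right (Finset.abs_sum_le_sum_abs _ _) (Nat.cast_nonneg q)

/-- if all the sums over the sites are small, so is the sum of the means -/
private theorem A5b_mc_sum (hq : 1 ≤ q) (g : Fin q → Site d k → ℝ) (B : ℝ) (h : ∀ c, ∑ v, g c v ≤ B) :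
    ∑ v, mc (fun c => g c v) ≤ B := by
  have h1 : ∑ v, mc (fun c => g c v) = mc fun c => ∑ v, g c v := by
    unfold mc
    rw [← Finset.sum_div, Finset.sum_comm]
  rw [h1]
  exact (A5b_mc_mono _ (fun _ => B) h).trans (le_of_eq (A5b_mc_const hq B))

private theorem A5b_two (g : Site d k → ℝ) :
    ∑ u ∈ cls true d k, g u + ∑ u ∈ cls false d k, g u = ∑ u, g u := by
  classical
  have h0 : ∀ b : Bool, ∑ u ∈ cls b d k, g u = ∑ u, if u ∈ cls b d k then g u else 0 := by
    intro b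
    rw [← Finset.sum_filter]
    refine Finset.sum_congr ?_ fun _ _ => rfl
    ext u
    simp
  rw [h0, h0, ← Finset.sum_add_distrib]
  refine Finset.sum_congr rfl fun x _ => ?_
  have h1 := cls_not (d := d) (k := k) true x
  by_cases h2 : x ∈ cls true d k
  · have h3 : x ∉ cls false d k := fun h => (h1.1 h) h2
    rw [if_pos h2, if_neg h3, add_zero]
  · have h3 : x ∈ cls false d k := h1.2 h2
    rw [if_neg h2, if_pos h3, zero_add]

private theorem A5b_one : ∑ _v : Site d k, (1 : ℝ) = NN d k := by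
  rw [Finset.sum_const, Finset.card_univ, nsmul_eq_mul, mul_one]
  exact card_site d k

private theorem A5b_shift (g : Site d k → ℝ) (σ : Stp d) : ∑ v, g (v + sv σ) = ∑ v, g v :=
  Equiv.sum_comp (Equiv.addRight (sv σ)) g

private theorem A5b_eps (c : Fin q) (f : Site d k → Fin q) (v : Site d k) :
    eps c f v = 1 ∧ 1 ≤ ya c f v ∨ eps c f v = -1 ∧ ya c f v < 1 := by
  unfold eps
  split_ifs with h
  · exact Or.inl ⟨rfl, h⟩
  · exact Or.inr ⟨rfl, not_le.1 h⟩

private theorem A5b_dst (c : Fin q) (f : Site d k → Fin q) (v : Site d k) (m : ℝ) (hm : 0 < m) :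
    |ya c f v - (1 + m * eps c f v)| ≤ dst2 m (ya c f v) := by
  unfold dst2
  rcases A5b_eps c f v with ⟨h1, h2⟩ | ⟨h1, h2⟩
  · rw [h1, mul_one]
    refine le_min ?_ le_rfl
    rw [abs_of_nonneg (by linarith : 0 ≤ ya c f v - (1 - m))]
    exact abs_le.2 ⟨by linarith, by linarith⟩
  · rw [h1]
    have h3 : 1 + m * -1 = 1 - m := by ring
    rw [h3]
    refine le_min le_rfl ?_
    rw [abs_of_nonpos (by linarith : ya c f v - (1 + m) ≤ 0)]
    exact abs_le.2 ⟨by linarith, by linarith⟩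

private theorem A5b_Feps {a m : ℝ} (h : MFE a m) (c : Fin q) (f : Site d k → Fin q) (v : Site d k) :
    Fy a m (1 + m * eps c f v) = 1 - m * eps c f v := by
  rcases A5b_eps c f v with ⟨h1, _⟩ | ⟨h1, _⟩
  · rw [h1, mul_one, Fy_add a m h]
  · rw [h1]
    have h3 : 1 + m * -1 = 1 - m := by ring
    rw [h3, Fy_sub a m h]
    ring

private theorem A5b_prp {f : Site d k → Fin q} (hf : f ∈ prps d k q) : Prp f := by
  classical
  unfold prps at hf
  exact (Finset.mem_filter.1 hf).2

private theorem A5b_epos {m : ℝ} (hm : 0 < m) (hm1 : m < 1) (c : Fin q) (f : Site d k → Fin q)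
    (v : Site d k) : 0 ≤ 1 + m * eps c f v := by
  rcases A5b_eps c f v with ⟨h1, _⟩ | ⟨h1, _⟩ <;> rw [h1] <;> linarith

private theorem A5b_flip {a m g L : ℝ} (ha : 1 < a) (h : MFE a m) (hg : 0 < g) (hgm : g ≤ m)
    (hL : a * Real.exp a ≤ L) (hq : 1 ≤ q) {f : Site d k → Fin q} (hf : Prp f) (σ : Stp d) (c : Fin q)
    (v : Site d k) :
    (if eps c f v = eps c f (v + sv σ) then (1 : ℝ) else 0) ≤
      1 / (2 * g) * (|ya c f v - (1 + m * eps c f v)| +
        L * |ya c f (v + sv σ) - (1 + m * eps c f (v + sv σ))| +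
        |ya c f v - Fy a m (ya c f (v + sv σ))|) := by
  have hm : 0 < m := h.1
  have hm1 := mfe_lt a m h
  have hL0 : 0 ≤ L := le_trans (by positivity) hL
  split_ifs with he
  · have h1 := (Fy_lip a m (ya c f (v + sv σ)) (1 + m * eps c f (v + sv σ)) ha h
      (ya_bound hq hf c _).1.le (A5b_epos hm hm1 c f _)).1
    rw [A5b_Feps h] at h1
    have h2 : a * Real.exp a * |ya c f (v + sv σ) - (1 + m * eps c f (v + sv σ))| ≤
        L * |ya c f (v + sv σ) - (1 + m * eps c f (v + sv σ))| :=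
      mul_le_mul_of_nonneg_right hL (abs_nonneg _)
    have h3 : 2 * m ≤ |ya c f v - (1 + m * eps c f v)| +
        |Fy a m (ya c f (v + sv σ)) - (1 - m * eps c f (v + sv σ))| +
        |ya c f v - Fy a m (ya c f (v + sv σ))| := by
      rw [← he]
      have h4 : |(1 + m * eps c f v) - (1 - m * eps c f v)| = 2 * m := by
        rcases A5b_eps c f v with ⟨h1, _⟩ | ⟨h1, _⟩
        · rw [h1, abs_of_nonneg (by linarith)]; ring
        · rw [h1, abs_of_nonpos (by linarith)]; ring
      rw [← h4]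
      have h5 : (1 + m * eps c f v) - (1 - m * eps c f v) =
          -(ya c f v - (1 + m * eps c f v)) +
          (Fy a m (ya c f (v + sv σ)) - (1 - m * eps c f v)) +
          (ya c f v - Fy a m (ya c f (v + sv σ))) := by ring
      rw [h5]
      refine (abs_add_le _ _).trans (add_le_add ((abs_add_le _ _).trans (add_le_add ?_ le_rfl)) le_rfl)
      rw [abs_neg]
    rw [one_div, ← div_eq_inv_mul, le_div_iff₀ (by positivity)]
    linarith
  · positivity

end aux

theorem pin_d2 {ε : ℝ} (hε : 0 < ε) (hε1 : ε ≤ 1) (δ : ℝ) (hδ : 0 < δ) : ∃ δ' : ℝ, 0 < δ' ∧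
    EvT ε fun d k q => ∀ m : ℝ, MFE (ra d q) m → ∀ f ∈ prps d k q,
      (∀ b : Bool, ∑ u ∈ cls b d k, mc (fun c => LL (ra d q) m (ya c f u)) ≤ δ' * NN d k) →
      ∑ v : Site d k, mc (fun c => |ya c f v - (1 + m * eps c f v)|) ≤ δ * NN d k := by
  obtain ⟨C, hC, hCe⟩ := est2 (a1 ε) (A0 ε) (Real.exp (A0 ε)) (A5b_a1 hε hε1) (δ / 2) (by linarith)
  refine ⟨δ / (4 * C), by positivity, (EvT_reg hε hε1 1).mono fun d k q hr m hm f hf hb => ?_⟩
  obtain ⟨_, hq1, _, _, _, hra, hrA, _⟩ := hr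
  have hq : 1 ≤ q := by exact_mod_cast hq1
  have hfP : Prp f := A5b_prp hf
  have h1 : ∀ v : Site d k, mc (fun c => |ya c f v - (1 + m * eps c f v)|) ≤
      δ / 2 + C * mc (fun c => LL (ra d q) m (ya c f v)) := by
    intro v
    refine (A5b_mc_mono _ (fun c => δ / 2 + C * LL (ra d q) m (ya c f v)) fun c => ?_).trans
      (le_of_eq ?_)
    · obtain ⟨h2, h3⟩ := ya_bound hq hfP c v
      exact (A5b_dst c f v m hm.1).trans (hCe _ _ _ hra hrA hm h2.le
        (h3.trans (Real.exp_le_exp.2 hrA)))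
    · rw [A5b_mc_add, A5b_mc_const hq, A5b_mc_mul]
  have h2 := hb true
  have h3 := hb false
  have h4 := A5b_two (d := d) (k := k) fun u => mc (fun c => LL (ra d q) m (ya c f u))
  calc ∑ v : Site d k, mc (fun c => |ya c f v - (1 + m * eps c f v)|)
      ≤ ∑ v : Site d k, (δ / 2 * 1 + C * mc (fun c => LL (ra d q) m (ya c f v))) :=
        Finset.sum_le_sum fun v _ => by rw [mul_one]; exact h1 v
    _ = δ / 2 * NN d k + C * ∑ v, mc (fun c => LL (ra d q) m (ya c f v)) := by
        rw [Finset.sum_add_distrib, ← Finset.mul_sum, ← Finset.mul_sum, A5b_one]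
    _ ≤ δ / 2 * NN d k + C * (2 * (δ / (4 * C) * NN d k)) := by
        have : ∑ v, mc (fun c => LL (ra d q) m (ya c f v)) ≤ 2 * (δ / (4 * C) * NN d k) := by
          rw [← h4]
          linarith
        have := mul_le_mul_of_nonneg_left this hC.le
        linarith
    _ = δ * NN d k := by
        field_simp
        ring

theorem pin_fl {ε : ℝ} (hε : 0 < ε) (hε1 : ε ≤ 1) (δ : ℝ) (hδ : 0 < δ) : ∃ δ' : ℝ, 0 < δ' ∧
    EvT ε fun d k q => ∀ m : ℝ, MFE (ra d q) m → ∀ f ∈ prps d k q,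
      (∀ (c : Fin q) (σ : Stp d), ∑ v : Site d k, |ya c f v - Fy (ra d q) m (ya c f (v + sv σ))| ≤ δ' * NN d k) →
      (∑ v : Site d k, mc (fun c => |ya c f v - (1 + m * eps c f v)|) ≤ δ' * NN d k) →
      (∑ v : Site d k, |mc (fun c => eps c f v)| ≤ δ * NN d k) ∧
      ∀ σ : Stp d, ∑ v : Site d k, mc (fun c => if eps c f v = eps c f (v + sv σ) then (1 : ℝ) else 0) ≤ δ * NN d k := by
  obtain ⟨g, hg, hg1, hgap⟩ := gap (a1 ε) (A0 ε) (A5b_a1 hε hε1)
  obtain ⟨L, hL⟩ : ∃ L : ℝ, L = A0 ε * Real.exp (A0 ε) := ⟨_, rfl⟩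
  have hA0 : 0 < A0 ε := by unfold A0; positivity
  have hL0 : 0 < L := by rw [hL]; positivity
  refine ⟨g * δ / (2 + L), by positivity, (EvT_reg hε hε1 1).mono fun d k q hr m hm f hf h1 h2 => ?_⟩
  obtain ⟨_, hq1, _, _, _, hra, hrA, _⟩ := hr
  have hq : 1 ≤ q := by exact_mod_cast hq1
  have hfP : Prp f := A5b_prp hf
  have hN : 0 ≤ NN d k := by unfold NN; positivity
  have ha : 1 < ra d q := (A5b_a1 hε hε1).trans_le hra
  obtain ⟨yM, hyM⟩ := ym_exists (ra d q) m ha hm
  have hgm := (hgap _ _ _ hra hrA hm hyM).1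
  have hm0 : 0 < m := hm.1
  have hLa : ra d q * Real.exp (ra d q) ≤ L := by
    rw [hL]
    exact mul_le_mul hrA (Real.exp_le_exp.2 hrA) (Real.exp_nonneg _) hA0.le
  constructor
  · have h3 : ∀ v : Site d k, |mc (fun c => eps c f v)| ≤
        1 / g * mc (fun c => |ya c f v - (1 + m * eps c f v)|) := by
      intro v
      have h4 : m * mc (fun c => eps c f v) = mc (fun c => (1 + m * eps c f v) + -1 * ya c f v) := by
        rw [A5b_mc_add, A5b_mc_add, A5b_mc_mul, A5b_mc_mul, A5b_mc_const hq, ya_mean hq]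
        ring
      have h5 : m * |mc (fun c => eps c f v)| ≤ mc (fun c => |ya c f v - (1 + m * eps c f v)|) := by
        rw [← abs_of_pos hm0, ← abs_mul, abs_of_pos hm0, h4]
        refine (A5b_mc_abs _).trans (A5b_mc_mono _ _ fun c => le_of_eq ?_)
        rw [← abs_neg]
        congr 1
        ring
      rw [one_div, ← div_eq_inv_mul, le_div_iff₀ hg]
      have h6 := mul_le_mul_of_nonneg_right hgm (abs_nonneg (mc fun c => eps c f v))
      linarith
    calc ∑ v : Site d k, |mc (fun c => eps c f v)|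
        ≤ ∑ v : Site d k, 1 / g * mc (fun c => |ya c f v - (1 + m * eps c f v)|) :=
          Finset.sum_le_sum fun v _ => h3 v
      _ = 1 / g * ∑ v : Site d k, mc (fun c => |ya c f v - (1 + m * eps c f v)|) := by
          rw [← Finset.mul_sum]
      _ ≤ 1 / g * (g * δ / (2 + L) * NN d k) := mul_le_mul_of_nonneg_left h2 (by positivity)
      _ = δ * NN d k * (1 / (2 + L)) := by field_simp
      _ ≤ δ * NN d k * 1 := by
          refine mul_le_mul_of_nonneg_left ?_ (by positivity)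
          rw [div_le_one (by linarith)]
          linarith
      _ = δ * NN d k := mul_one _
  · intro σ
    have h3 : ∀ v : Site d k, mc (fun c => if eps c f v = eps c f (v + sv σ) then (1 : ℝ) else 0) ≤
        1 / (2 * g) * (mc (fun c => |ya c f v - (1 + m * eps c f v)|) +
          L * mc (fun c => |ya c f (v + sv σ) - (1 + m * eps c f (v + sv σ))|) +
          mc (fun c => |ya c f v - Fy (ra d q) m (ya c f (v + sv σ))|)) := by
      intro v
      refine (A5b_mc_mono _ _ fun c => A5b_flip ha hm hg hgm hLa hq hfP σ c v).trans (le_of_eq ?_)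
      rw [A5b_mc_mul, A5b_mc_add, A5b_mc_add, A5b_mc_mul]
    have h4 : ∑ v : Site d k, mc (fun c => |ya c f v - Fy (ra d q) m (ya c f (v + sv σ))|) ≤
        g * δ / (2 + L) * NN d k := A5b_mc_sum hq _ _ fun c => h1 c σ
    have h5 : ∑ v : Site d k, mc (fun c => |ya c f (v + sv σ) - (1 + m * eps c f (v + sv σ))|) =
        ∑ v : Site d k, mc (fun c => |ya c f v - (1 + m * eps c f v)|) :=
      A5b_shift (fun v => mc (fun c => |ya c f v - (1 + m * eps c f v)|)) σ
    calc ∑ v : Site d k, mc (fun c => if eps c f v = eps c f (v + sv σ) then (1 : ℝ) else 0)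
        ≤ ∑ v : Site d k, 1 / (2 * g) * (mc (fun c => |ya c f v - (1 + m * eps c f v)|) +
          L * mc (fun c => |ya c f (v + sv σ) - (1 + m * eps c f (v + sv σ))|) +
          mc (fun c => |ya c f v - Fy (ra d q) m (ya c f (v + sv σ))|)) :=
          Finset.sum_le_sum fun v _ => h3 v
      _ = 1 / (2 * g) * (∑ v : Site d k, mc (fun c => |ya c f v - (1 + m * eps c f v)|) +
          L * ∑ v : Site d k, mc (fun c => |ya c f v - (1 + m * eps c f v)|) +
          ∑ v : Site d k, mc (fun c => |ya c f v - Fy (ra d q) m (ya c f (v + sv σ))|)) := by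
          rw [← Finset.mul_sum, Finset.sum_add_distrib, Finset.sum_add_distrib, ← Finset.mul_sum, h5]
      _ ≤ 1 / (2 * g) * (g * δ / (2 + L) * NN d k + L * (g * δ / (2 + L) * NN d k) +
          g * δ / (2 + L) * NN d k) := by
          refine mul_le_mul_of_nonneg_left ?_ (by positivity)
          exact add_le_add (add_le_add h2 (mul_le_mul_of_nonneg_left h2 hL0.le)) h4
      _ = δ / 2 * NN d k := by
          field_simp
          ring
      _ ≤ δ * NN d k := by
          refine mul_le_mul_of_nonneg_right ?_ hN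
          linarith

end Pool.Agent.THR

end

/-! ### from `Lib_MP_2c424f_thr.Z5a` -/

section

/-!
# THR Z5a: conditioning on the colours outside of a set (paper proof: Z4)

Partition `prps` into the classes of the colourings which agree off `B`; in the class of `g` the condition `f w = f y` is `f w = g y` (`y ∉ B`).  If the inequality fails for every `g`, sum over
all `g ∈ prps` the inequalities `q · #{f ∈ class g, f w = g y}/#class g < κ`, or sum over the classes: contradiction to the hypothesis.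
-/

set_option autoImplicit false

open Finset Filter

namespace Pool.Agent.THR

open Pool.Agent.LO Pool.Agent.LIN

open scoped Classical in
theorem ball_cond {d k q : ℕ} (B : Finset (Site d k)) (w y : Site d k) (hy : y ∉ B) (κ : ℝ) (hne : (prps d k q).Nonempty)
    (h : κ * ZZ d k q ≤ (((prps d k q).filter fun f => f w = f y).card : ℝ)) :
    ∃ g ∈ prps d k q, κ * (((prps d k q).filter fun f => ∀ x, x ∉ B → f x = g x).card : ℝ) ≤
      (((prps d k q).filter fun f => (∀ x, x ∉ B → f x = g x) ∧ f w = g y).card : ℝ) := by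
  by_contra hcon
  push Not at hcon
  set π : (Site d k → Fin q) → (Site d k → Option (Fin q)) := fun f x => if x ∈ B then none else some (f x) with hπ
  have hπiff : ∀ f g : Site d k → Fin q, π f = π g ↔ ∀ x, x ∉ B → f x = g x := by
    intro f g
    constructor
    · intro h x hx
      have := congrFun h x
      simp only [hπ, if_neg hx, Option.some.injEq] at this
      exact this
    · intro h
      funext x
      by_cases hx : x ∈ B
      · simp [hπ, hx]
      · simp [hπ, hx, h x hx]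
  have h1 : ((prps d k q).filter fun f => f w = f y).card =
      ∑ c ∈ (prps d k q).image π, (((prps d k q).filter fun f => f w = f y).filter fun f => π f = c).card := by
    apply Finset.card_eq_sum_card_fiberwise
    intro f hf
    exact Finset.mem_coe.2 (Finset.mem_image_of_mem _ (Finset.mem_filter.1 (Finset.mem_coe.1 hf)).1)
  have h2 : (prps d k q).card = ∑ c ∈ (prps d k q).image π, ((prps d k q).filter fun f => π f = c).card := by
    apply Finset.card_eq_sum_card_fiberwise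
    intro f hf
    exact Finset.mem_coe.2 (Finset.mem_image_of_mem _ (Finset.mem_coe.1 hf))
  have h3 : ∀ c ∈ (prps d k q).image π, ((((prps d k q).filter fun f => f w = f y).filter fun f => π f = c).card : ℝ) <
      κ * (((prps d k q).filter fun f => π f = c).card : ℝ) := by
    intro c hc
    obtain ⟨g, hg, rfl⟩ := Finset.mem_image.1 hc
    have := hcon g hg
    have e1 : (((prps d k q).filter fun f => f w = f y).filter fun f => π f = π g) =
        (prps d k q).filter fun f => (∀ x, x ∉ B → f x = g x) ∧ f w = g y := by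
      ext f
      simp only [Finset.mem_filter, hπiff]
      constructor
      · rintro ⟨⟨a, b⟩, c⟩
        exact ⟨a, c, by rw [b, c y hy]⟩
      · rintro ⟨a, b, c⟩
        exact ⟨⟨a, by rw [c, b y hy]⟩, b⟩
    have e2 : ((prps d k q).filter fun f => π f = π g) =
        (prps d k q).filter fun f => ∀ x, x ∉ B → f x = g x := by
      ext f
      simp only [Finset.mem_filter, hπiff]
    rw [e1, e2]
    exact this
  have h4 : (((prps d k q).filter fun f => f w = f y).card : ℝ) < κ * ZZ d k q := by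
    rw [h1, ZZ, h2, Nat.cast_sum, Nat.cast_sum, Finset.mul_sum]
    exact Finset.sum_lt_sum_of_nonempty (hne.image _) h3
  linarith

end Pool.Agent.THR

end
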