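import Pool.Agent.Lib_MP_2c424f_ms.M02
import Pool.Agent.Lib_MP_2c424f_ms.M17

/-!
# MP_2c424f_pr: library of SharpThreshold and BoundaryThreshold (merged): merged library part M23

Concatenation of smaller files (each in its own section), only to save build time.
-/

namespace Pool.Agent.LO
end Pool.Agent.LO

namespace Pool.Agent.LIN
end Pool.Agent.LIN

/-! ### from `Lib_MP_2c424f_thr.R1` -/

section

/-!
# THR R1: the weights of the sum rule (paper proof: R, first lines)

Elementary.  `CW = 4^(2 A0/c1)`.  If `r1` holds and `4/c1 ≤ q`, then `0 ≤ pF ≤ 2/(c1 q) ≤ 1/2`, `(1-p)⁻¹ ≤ 4^p`,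
`∑_τ pF ≤ 2d · 2/(c1 q) = 2a/c1 ≤ 2 A0/c1`.
Dependence: `aF`, `BF` depend on the colours at `u + sv σ`, `σ ∈ fs`; `xS` on the colours at `u + sv τ + sv ρ`, `ρ ≠ opp τ` (never `u`).
`VF_fat`: for two colourings which agree on all sites with the plane coordinates of `u` the weights are equal.
`av_aF`: the colours of the at most four plane neighbours are removed.
-/

set_option autoImplicit false

open Finset Filter

namespace Pool.Agent.THR

open Pool.Agent.LO Pool.Agent.LIN

variable {d k q : ℕ}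

theorem pl_fs (i j : Fin d) (F : Stp d → ℝ) : ∑ σ : Stp d, F σ = ∑ σ ∈ pl i j, F σ + ∑ σ ∈ fs i j, F σ := by
  classical
  have h1 : fs i j = univ.filter fun σ : Stp d => ¬ (σ.1 = i ∨ σ.1 = j) := by
    ext σ
    simp only [fs, mem_filter, mem_univ, true_and, not_or, ne_eq]
  have h2 : pl i j = univ.filter fun σ : Stp d => σ.1 = i ∨ σ.1 = j := by
    ext σ
    simp only [pl, mem_filter, mem_univ, true_and]
  rw [h1, h2]
  exact (Finset.sum_filter_add_sum_filter_not univ (fun σ : Stp d => σ.1 = i ∨ σ.1 = j) F).symm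

theorem card_pl (i j : Fin d) (hij : i ≠ j) : (pl i j).card = 4 := by
  classical
  have h2 : pl i j = ({i, j} : Finset (Fin d)) ×ˢ (univ : Finset Bool) := by
    ext σ
    simp only [pl, mem_filter, mem_univ, true_and, mem_product, mem_insert, mem_singleton, and_true]
  rw [h2, card_product, card_pair hij]
  rfl

theorem sv_opp' (σ : Stp d) : (sv σ : Site d k) + sv (opp σ) = 0 := sv_opp σ.1 σ.2

private theorem R1_c1pos (ε : ℝ) : 0 < c1 ε := by
  unfold c1
  positivity

private theorem R1_c1le {ε : ℝ} (hε : 0 < ε) : c1 ε ≤ 1 / 4 := by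
  unfold c1
  have h : (4 : ℝ) ^ (-A0 ε) ≤ 1 := by
    apply Real.rpow_le_one_of_one_le_of_nonpos (by norm_num)
    have : 0 ≤ A0 ε := by
      unfold A0
      positivity
    linarith
  linarith

private theorem R1_qpos {ε : ℝ} (hq : 4 / c1 ε ≤ q) : (0 : ℝ) < q :=
  lt_of_lt_of_le (div_pos (by norm_num) (R1_c1pos ε)) hq

private theorem R1_cq {ε : ℝ} (hq : 4 / c1 ε ≤ q) : 4 ≤ c1 ε * q := by
  have h := (div_le_iff₀ (R1_c1pos ε)).1 hq
  linarith [mul_comm (q : ℝ) (c1 ε)]

private theorem R1_CW {ε : ℝ} : 0 < CW ε := by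
  unfold CW
  positivity

theorem pF_bound {ε : ℝ} (hε : 0 < ε) (hq : 4 / c1 ε ≤ q) (i j : Fin d) (c c' : Fin q) (f : Site d k → Fin q)
    (u : Site d k) (τ : Stp d) (h : c1 ε * q ≤ ((xS i j f u τ).card : ℝ)) :
    0 ≤ pF i j c c' f u τ ∧ pF i j c c' f u τ ≤ 2 / (c1 ε * q) ∧ 2 / (c1 ε * q) ≤ 1 / 2 := by
  have h4 := R1_cq hq
  have hpos : 0 < c1 ε * q := by linarith
  have hc : (0 : ℝ) < ((xS i j f u τ).card : ℝ) := lt_of_lt_of_le hpos h
  have hn : 0 ≤ (if c ∈ xS i j f u τ then (1 : ℝ) else 0) + (if c' ∈ xS i j f u τ then (1 : ℝ) else 0) := by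
    split_ifs <;> norm_num
  have hn2 : (if c ∈ xS i j f u τ then (1 : ℝ) else 0) + (if c' ∈ xS i j f u τ then (1 : ℝ) else 0) ≤ 2 := by
    split_ifs <;> norm_num
  refine ⟨div_nonneg hn hc.le, ?_, ?_⟩
  · unfold pF
    exact div_le_div₀ (by norm_num) hn2 hpos h
  · rw [div_le_iff₀ hpos]
    linarith

private theorem R1_four {p : ℝ} (h0 : 0 ≤ p) (h1 : p ≤ 1 / 2) : (1 - p)⁻¹ ≤ (4 : ℝ) ^ p := by
  have hl : Real.log 4 = 2 * Real.log 2 := by
    rw [show (4 : ℝ) = 2 ^ (2 : ℕ) by norm_num, Real.log_pow]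
    norm_num
  have hc := convexOn_exp.2 (Set.mem_univ (-Real.log 2)) (Set.mem_univ (0 : ℝ))
    (show (0 : ℝ) ≤ 2 * p by linarith) (show (0 : ℝ) ≤ 1 - 2 * p by linarith) (by ring)
  simp only [smul_eq_mul, mul_zero, add_zero, Real.exp_zero, mul_one] at hc
  rw [Real.exp_neg, Real.exp_log (by norm_num : (0 : ℝ) < 2)] at hc
  have h2 : Real.exp (2 * p * -Real.log 2) = ((4 : ℝ) ^ p)⁻¹ := by
    rw [Real.rpow_def_of_pos (by norm_num : (0 : ℝ) < 4), ← Real.exp_neg, hl]
    congr 1
    ring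
  rw [h2] at hc
  have hp : 0 < 1 - p := by linarith
  have h3 : ((4 : ℝ) ^ p)⁻¹ ≤ 1 - p := by linarith
  have h5 : (0 : ℝ) < (4 : ℝ) ^ p := by positivity
  exact inv_le_of_inv_le₀ h5 h3

private theorem R1_WF {ε : ℝ} (hε : 0 < ε) (hq : 4 / c1 ε ≤ q) (ha : ra d q ≤ A0 ε) (i j : Fin d) (c c' : Fin q)
    (f : Site d k → Fin q) (u : Site d k) (hr : r1 ε i j f u) :
    0 ≤ WF i j c c' f u ∧ WF i j c c' f u ≤ CW ε := by
  have h4 := R1_cq hq
  have hpos : 0 < c1 ε * q := by linarith
  have hb := fun τ hτ => pF_bound hε hq i j c c' f u τ (hr τ hτ)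
  have hinv : ∀ τ ∈ fs i j, 0 ≤ (1 - pF i j c c' f u τ)⁻¹ := by
    intro τ hτ
    obtain ⟨-, h2, h3⟩ := hb τ hτ
    exact inv_nonneg.2 (by linarith)
  refine ⟨prod_nonneg hinv, ?_⟩
  have h1 : WF i j c c' f u ≤ ∏ τ ∈ fs i j, (4 : ℝ) ^ (2 / (c1 ε * q)) := by
    unfold WF
    refine prod_le_prod hinv fun τ hτ => ?_
    obtain ⟨h1, h2, h3⟩ := hb τ hτ
    refine (R1_four h1 (h2.trans h3)).trans ?_
    exact Real.rpow_le_rpow_of_exponent_le (by norm_num) h2
  refine h1.trans ?_
  rw [prod_const, ← Real.rpow_natCast, ← Real.rpow_mul (by norm_num)]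
  unfold CW
  apply Real.rpow_le_rpow_of_exponent_le (by norm_num)
  have hq0 := R1_qpos hq
  have hc0 := R1_c1pos ε
  have hcard : ((fs i j : Finset (Stp d)).card : ℝ) ≤ 2 * d := by
    have : (fs i j : Finset (Stp d)).card ≤ (univ : Finset (Stp d)).card := card_le_card (subset_univ _)
    have h2 : (univ : Finset (Stp d)).card = d * 2 := by
      rw [card_univ, Fintype.card_prod, Fintype.card_fin, Fintype.card_bool]
    rw [h2] at this
    calc ((fs i j : Finset (Stp d)).card : ℝ) ≤ ((d * 2 : ℕ) : ℝ) := by exact_mod_cast this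
      _ = 2 * d := by push_cast; ring
  calc 2 / (c1 ε * q) * ((fs i j : Finset (Stp d)).card : ℝ) ≤ 2 / (c1 ε * q) * (2 * d) :=
        mul_le_mul_of_nonneg_left hcard (by positivity)
    _ = 2 * ra d q / c1 ε := by
        unfold ra
        field_simp
    _ ≤ 2 * A0 ε / c1 ε := by
        apply div_le_div_of_nonneg_right _ hc0.le
        linarith

theorem V1_bound {ε : ℝ} (hε : 0 < ε) (hq : 4 / c1 ε ≤ q) (ha : ra d q ≤ A0 ε) (i j : Fin d) (c c' : Fin q)
    (f : Site d k → Fin q) (u : Site d k) : 0 ≤ V1 ε i j c c' f u ∧ V1 ε i j c c' f u ≤ CW ε := by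
  unfold V1
  split_ifs with hr
  · obtain ⟨h1, h2⟩ := R1_WF hε hq ha i j c c' f u hr
    have hB : 0 ≤ BF i j c c' f u ∧ BF i j c c' f u ≤ 1 := by
      unfold BF
      split_ifs <;> norm_num
    refine ⟨mul_nonneg h1 hB.1, ?_⟩
    calc WF i j c c' f u * BF i j c c' f u ≤ WF i j c c' f u * 1 := mul_le_mul_of_nonneg_left hB.2 h1
      _ ≤ CW ε := by rw [mul_one]; exact h2
  · exact ⟨le_rfl, R1_CW.le⟩

theorem VF_bound {ε : ℝ} (hε : 0 < ε) (hq : 4 / c1 ε ≤ q) (ha : ra d q ≤ A0 ε) (i j : Fin d) (c c' : Fin q)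
    (f : Site d k → Fin q) (u : Site d k) : 0 ≤ VF ε i j c c' f u ∧ VF ε i j c c' f u ≤ CW ε := by
  unfold VF
  split_ifs
  · exact V1_bound hε hq ha i j c c' f u
  · exact ⟨le_rfl, R1_CW.le⟩

theorem aF_le (i j : Fin d) (f : Site d k → Fin q) (u : Site d k) : aF i j f u ≤ q := by
  unfold aF
  refine (card_filter_le _ _).trans ?_
  rw [card_univ, Fintype.card_fin]

theorem sg_abs (c c' : Fin q) (f : Site d k → Fin q) (v : Site d k) : |sg c c' f v| ≤ 1 := by
  unfold sg
  split_ifs <;> norm_num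

theorem GF_bound {ε : ℝ} (hε : 0 < ε) (hq : 4 / c1 ε ≤ q) (ha : ra d q ≤ A0 ε) (i j : Fin d) (hij : i ≠ j)
    (c c' : Fin q) (f : Site d k → Fin q) (u : Site d k) : |GF ε i j c c' f u| ≤ 2 * CW ε := by
  have hq0 := R1_qpos hq
  have h4 := R1_cq hq
  have hq4 : (4 : ℝ) ≤ q := by
    have h1 := R1_c1le hε
    have h2 : c1 ε * q ≤ 1 / 4 * q := mul_le_mul_of_nonneg_right h1 hq0.le
    linarith
  obtain ⟨hV0, hV1⟩ := VF_bound hε hq ha i j c c' f u
  have h1 : |(aF i j f u : ℝ) / q * sg c c' f u| ≤ 1 := by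
    rw [abs_mul]
    have h2 : |(aF i j f u : ℝ) / q| ≤ 1 := by
      rw [abs_of_nonneg (by positivity), div_le_one hq0]
      exact_mod_cast aF_le i j f u
    calc |(aF i j f u : ℝ) / q| * |sg c c' f u| ≤ 1 * 1 :=
          mul_le_mul h2 (sg_abs c c' f u) (abs_nonneg _) (by norm_num)
      _ = 1 := one_mul 1
  have h2 : |1 / (q : ℝ) * ∑ σ ∈ pl i j, sg c c' f (u + sv σ)| ≤ 1 := by
    rw [abs_mul]
    have h3 : |∑ σ ∈ pl i j, sg c c' f (u + sv σ)| ≤ 4 := by
      refine (abs_sum_le_sum_abs _ _).trans ?_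
      calc ∑ σ ∈ pl i j, |sg c c' f (u + sv σ)| ≤ ∑ _σ ∈ pl i j, (1 : ℝ) :=
            sum_le_sum fun σ _ => sg_abs c c' f _
        _ = 4 := by
            rw [sum_const, card_pl i j hij]
            norm_num
    have h5 : |1 / (q : ℝ)| = 1 / q := abs_of_nonneg (by positivity)
    rw [h5]
    calc 1 / (q : ℝ) * |∑ σ ∈ pl i j, sg c c' f (u + sv σ)| ≤ 1 / q * 4 :=
          mul_le_mul_of_nonneg_left h3 (by positivity)
      _ ≤ 1 := by
          rw [div_mul_eq_mul_div, one_mul, div_le_one hq0]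
          exact hq4
  unfold GF
  rw [abs_mul, abs_of_nonneg hV0]
  have h6 := abs_add_le ((aF i j f u : ℝ) / q * sg c c' f u) (1 / (q : ℝ) * ∑ σ ∈ pl i j, sg c c' f (u + sv σ))
  calc VF ε i j c c' f u * |(aF i j f u : ℝ) / q * sg c c' f u + 1 / q * ∑ σ ∈ pl i j, sg c c' f (u + sv σ)|
      ≤ CW ε * 2 := mul_le_mul hV1 (by linarith) (abs_nonneg _) R1_CW.le
    _ = 2 * CW ε := mul_comm _ _

end Pool.Agent.THR

end

/-! ### from `Lib_MP_2c424f_thr.R1d` -/

section

/-!
# THR R1d: dependence of the weights (paper proof: R, first lines)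

`aF`, `BF` depend on the colours at `u + sv σ`, `σ ∈ fs`; `xS` on the colours at `u + sv τ + sv ρ`, `τ, ρ ∈ fs`, `ρ ≠ opp τ` (never the site `u`, as the side is `≥ 4`).
* `VF_fat`: for two colourings which agree on all sites with the plane coordinates of `u` the weights are equal.
* `av_aF`: the colours of the at most four plane neighbours are removed.
* `zz_nP`: `zz f u c = 1` iff no neighbour has the colour `c`; the fibre neighbours do not have it.
* `TF_sum`: `card_pl`, four summands `aF/(4q) sg`.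
-/

set_option autoImplicit false

open Finset Filter

namespace Pool.Agent.THR

open Pool.Agent.LO Pool.Agent.LIN

variable {d k q : ℕ}

/-- congruence: the weights only depend on the colours of the fibre neighbours and of the second fibre neighbours -/
private theorem congr_R1d (ε : ℝ) (i j : Fin d) (c c' : Fin q) (f g : Site d k → Fin q) (u u' : Site d k)
    (h1 : ∀ σ ∈ fs i j, f (u + sv σ) = g (u' + sv σ))
    (h2 : ∀ τ ∈ fs i j, ∀ ρ ∈ fs i j, ρ ≠ opp τ → f (u + sv τ + sv ρ) = g (u' + sv τ + sv ρ)) :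
    VF ε i j c c' f u = VF ε i j c c' g u' ∧ aF i j f u = aF i j g u' := by
  classical
  have ha : aF i j f u = aF i j g u' := by
    unfold aF
    congr 1
    apply Finset.filter_congr
    intro γ _
    constructor
    · intro h σ hσ
      rw [← h1 σ hσ]
      exact h σ hσ
    · intro h σ hσ
      rw [h1 σ hσ]
      exact h σ hσ
  have hx : ∀ τ ∈ fs i j, xS i j f u τ = xS i j g u' τ := by
    intro τ hτ
    unfold xS
    apply Finset.filter_congr
    intro γ _
    constructor
    · intro h ρ hρ hne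
      rw [← h2 τ hτ ρ hρ hne]
      exact h ρ hρ hne
    · intro h ρ hρ hne
      rw [h2 τ hτ ρ hρ hne]
      exact h ρ hρ hne
  have hB : BF i j c c' f u = BF i j c c' g u' := by
    unfold BF
    congr 1
    apply propext
    constructor
    · intro h σ hσ
      rw [← h1 σ hσ]
      exact h σ hσ
    · intro h σ hσ
      rw [h1 σ hσ]
      exact h σ hσ
  have hW : WF i j c c' f u = WF i j c c' g u' := by
    unfold WF
    apply Finset.prod_congr rfl
    intro τ hτ
    unfold pF
    rw [hx τ hτ]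
  have hr : r1 ε i j f u ↔ r1 ε i j g u' := by
    unfold r1
    constructor
    · intro h τ hτ
      rw [← hx τ hτ]
      exact h τ hτ
    · intro h τ hτ
      rw [hx τ hτ]
      exact h τ hτ
  have hV : V1 ε i j c c' f u = V1 ε i j c c' g u' := by
    unfold V1
    rw [hB, hW]
    by_cases h : r1 ε i j f u
    · rw [if_pos h, if_pos (hr.mp h)]
    · rw [if_neg h, if_neg (fun h' => h (hr.mpr h'))]
  refine ⟨?_, ha⟩
  unfold VF
  rw [ha, hV]

private theorem sv_fs_R1d {i j : Fin d} {σ : Stp d} (h : σ ∈ fs i j) :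
    (sv σ : Site d k) i = 0 ∧ (sv σ : Site d k) j = 0 := by
  classical
  simp only [fs, mem_filter, mem_univ, true_and] at h
  constructor
  · simp only [sv]
    exact Pi.single_eq_of_ne (Ne.symm h.1) _
  · simp only [sv]
    exact Pi.single_eq_of_ne (Ne.symm h.2) _

private theorem sv_ne_zero_R1d (hk : 2 ≤ k) (σ : Stp d) : (sv σ : Site d k) ≠ 0 := by
  intro h
  have h1 : (sv σ : Site d k) + sv (opp σ) = 0 := sv_opp' σ
  rw [h, zero_add] at h1
  have h2 : σ = opp σ := sv_inj hk (h.trans h1.symm)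
  have h3 := congrArg Prod.snd h2
  simp [opp] at h3

/-- the weight does not depend on the colour of `u` -/
theorem VF_self (hk : 2 ≤ k) (ε : ℝ) (i j : Fin d) (c c' : Fin q) (f : Site d k → Fin q) (u : Site d k) (γ : Fin q) :
    VF ε i j c c' (Function.update f u γ) u = VF ε i j c c' f u ∧
      aF i j (Function.update f u γ) u = aF i j f u := by
  apply congr_R1d
  · intro σ _
    rw [Function.update_of_ne]
    intro h
    exact sv_ne_zero_R1d hk σ (by simpa using h)
  · intro τ _ ρ _ hne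
    rw [Function.update_of_ne]
    intro h
    apply hne
    have h1 : (sv τ : Site d k) + sv ρ = 0 := by
      rw [add_assoc] at h
      simpa using h
    have h2 : (sv τ : Site d k) + sv (opp τ) = 0 := sv_opp' τ
    have h3 : (sv ρ : Site d k) = sv (opp τ) := add_left_cancel (h1.trans h2.symm)
    exact sv_inj hk h3

/-- the weight depends on the plane position of `u` only -/
theorem VF_fat (ε : ℝ) (i j : Fin d) (c c' : Fin q) (f g : Site d k → Fin q) (u : Site d k)
    (h : ∀ x, x i = u i → x j = u j → f x = g x) :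
    VF ε i j c c' f u = VF ε i j c c' g u ∧ aF i j f u = aF i j g u := by
  apply congr_R1d
  · intro σ hσ
    obtain ⟨h1, h2⟩ := sv_fs_R1d (k := k) hσ
    apply h
    · rw [Pi.add_apply, h1, add_zero]
    · rw [Pi.add_apply, h2, add_zero]
  · intro τ hτ ρ hρ _
    obtain ⟨h1, h2⟩ := sv_fs_R1d (k := k) hτ
    obtain ⟨h3, h4⟩ := sv_fs_R1d (k := k) hρ
    apply h
    · rw [Pi.add_apply, Pi.add_apply, h1, h3, add_zero, add_zero]
    · rw [Pi.add_apply, Pi.add_apply, h2, h4, add_zero, add_zero]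

/-- translation -/
theorem VF_transl (ε : ℝ) (i j : Fin d) (c c' : Fin q) (f : Site d k → Fin q) (u v : Site d k) :
    VF ε i j c c' (fun x => f (x + v)) u = VF ε i j c c' f (u + v) ∧ aF i j (fun x => f (x + v)) u = aF i j f (u + v) := by
  apply congr_R1d
  · intro σ _
    show f (u + sv σ + v) = f (u + v + sv σ)
    rw [add_right_comm]
  · intro τ _ ρ _ _
    show f (u + sv τ + sv ρ + v) = f (u + v + sv τ + sv ρ)
    rw [add_right_comm, add_right_comm u (sv τ) v]

/-- a change at a site at a distance `> 2`, or at distance two through a plane step, does not matter -/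
theorem VF_far (ε : ℝ) (i j : Fin d) (c c' : Fin q) (f : Site d k → Fin q) (u x : Site d k) (γ : Fin q)
    (h1 : ∀ σ ∈ fs i j, u + sv σ ≠ x) (h2 : ∀ τ ∈ fs i j, ∀ ρ ∈ fs i j, ρ ≠ opp τ → u + sv τ + sv ρ ≠ x) :
    VF ε i j c c' (Function.update f x γ) u = VF ε i j c c' f u := by
  refine (congr_R1d ε i j c c' _ _ u u ?_ ?_).1
  · intro σ hσ
    exact Function.update_of_ne (h1 σ hσ) _ _
  · intro τ hτ ρ hρ hne
    exact Function.update_of_ne (h2 τ hτ ρ hρ hne) _ _

theorem av_aF (i j : Fin d) (hij : i ≠ j) (f : Site d k → Fin q) (u : Site d k) :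
    av f u ≤ aF i j f u ∧ aF i j f u ≤ av f u + 4 := by
  classical
  have hav : av f u = (univ.filter fun γ : Fin q => γ ∉ SS f u).card := by
    unfold av
    have h1 := Finset.card_filter_add_card_filter_not (s := (univ : Finset (Fin q))) (fun γ => γ ∈ SS f u)
    rw [Finset.card_univ, Fintype.card_fin] at h1
    have h2 : (univ.filter fun γ : Fin q => γ ∈ SS f u) = SS f u := by
      ext γ
      simp
    rw [h2] at h1
    omega
  have haF : aF i j f u = (univ.filter fun γ : Fin q => ∀ σ ∈ fs i j, f (u + sv σ) ≠ γ).card := by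
    unfold aF
    congr 1
  rw [hav, haF]
  constructor
  · apply Finset.card_le_card
    intro γ hγ
    simp only [mem_filter, mem_univ, true_and, SS, mem_image, not_exists] at hγ ⊢
    intro σ _
    exact hγ σ
  · have hsub : (univ.filter fun γ : Fin q => ∀ σ ∈ fs i j, f (u + sv σ) ≠ γ) ⊆
        (univ.filter fun γ : Fin q => γ ∉ SS f u) ∪ (pl i j).image (fun σ => f (u + sv σ)) := by
      intro γ hγ
      simp only [mem_filter, mem_univ, true_and] at hγ
      simp only [mem_union, mem_filter, mem_univ, true_and, mem_image]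
      by_cases hs : γ ∈ SS f u
      · right
        simp only [SS, mem_image, mem_univ, true_and] at hs
        obtain ⟨σ, hσ⟩ := hs
        refine ⟨σ, ?_, hσ⟩
        by_contra hpl
        apply hγ σ _ hσ
        simp only [pl, mem_filter, mem_univ, true_and, not_or] at hpl
        simp only [fs, mem_filter, mem_univ, true_and]
        exact hpl
      · left
        exact hs
    calc _ ≤ _ := Finset.card_le_card hsub
      _ ≤ _ := Finset.card_union_le _ _
      _ ≤ _ := by
        have h1 : ((pl i j).image (fun σ => f (u + sv σ))).card ≤ 4 := by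
          rw [← card_pl i j hij]
          exact Finset.card_image_le
        omega

/-- if no fibre neighbour has the colour `c`, then `c` is available iff no plane neighbour has it -/
theorem zz_nP (i j : Fin d) (c : Fin q) (f : Site d k → Fin q) (u : Site d k) (h : ∀ σ ∈ fs i j, f (u + sv σ) ≠ c) :
    zz f u c = if nP i j c f u = 0 then 1 else 0 := by
  classical
  have hiff : nP i j c f u = 0 ↔ c ∉ SS f u := by
    unfold nP
    rw [Finset.card_eq_zero, Finset.filter_eq_empty_iff]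
    simp only [SS, mem_image, mem_univ, true_and, not_exists]
    constructor
    · intro h1 σ
      by_cases hσ : σ ∈ fs i j
      · exact h σ hσ
      · apply h1
        simp only [fs, mem_filter, mem_univ, true_and, not_and_or, not_not] at hσ
        simp only [pl, mem_filter, mem_univ, true_and]
        exact hσ
    · intro h1 σ _
      exact h1 σ
  unfold zz
  by_cases hc : c ∈ SS f u
  · rw [if_pos hc, if_neg (fun h0 => hiff.mp h0 hc)]
  · rw [if_neg hc, if_pos (hiff.mpr hc)]

theorem sum_sg (i j : Fin d) (c c' : Fin q) (f : Site d k → Fin q) (u : Site d k) :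
    ∑ σ ∈ pl i j, sg c c' f (u + sv σ) = (nP i j c f u : ℝ) - nP i j c' f u := by
  classical
  have h : ∀ e : Fin q, ∑ σ ∈ pl i j, (if f (u + sv σ) = e then (1 : ℝ) else 0) = (nP i j e f u : ℝ) := by
    intro e
    unfold nP
    rw [Finset.sum_boole]
  rw [← h c, ← h c', ← Finset.sum_sub_distrib]
  apply Finset.sum_congr rfl
  intro σ _
  unfold sg
  congr 1

theorem TF_sum (ε : ℝ) (i j : Fin d) (hij : i ≠ j) (c c' : Fin q) (f : Site d k → Fin q) (u : Site d k) :
    ∑ σ ∈ pl i j, TF ε i j c c' σ f u = GF ε i j c c' f u := by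
  classical
  unfold TF GF
  rw [← Finset.mul_sum, Finset.sum_add_distrib, ← Finset.mul_sum, Finset.sum_const, card_pl i j hij]
  congr 1
  rw [nsmul_eq_mul]
  by_cases hq : (q : ℝ) = 0
  · rw [hq]
    simp
  · field_simp
    push_cast
    ring

end Pool.Agent.THR

end

/-! ### from `Lib_MP_2c424f_thr.C4a` -/

section

/-!
# THR C4a: two elementary inequalities (paper proof: C4)

* `gibbs`: Jensen's inequality for the logarithm: `log ∑_{p>0} F = log ∑ p (F/p) ≥ ∑ p log (F/p)`.
* `log_lower`: `x ≥ μ/2`: `log (x/μ) ≥ -|x-μ|/min x μ ≥ -2|x-μ|/μ`; `1 ≤ x < μ/2`: `log x ≥ 0 ≥ log μ - 4 log μ (x-μ)²/μ²`.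
-/

set_option autoImplicit false

open Finset Filter

namespace Pool.Agent.THR

open Pool.Agent.LO Pool.Agent.LIN

theorem gibbs {Ω : Type*} [Fintype Ω] (p F : Ω → ℝ) (hp : ∀ ω, 0 ≤ p ω) (hs : ∑ ω, p ω = 1) (hF : ∀ ω, 0 < p ω → 1 ≤ F ω) :
    ∑ ω, p ω * Real.log (F ω) - ∑ ω, p ω * Real.log (p ω) ≤ Real.log (∑ ω, if 0 < p ω then F ω else 0) := by
  have h := strictConcaveOn_log_Ioi.concaveOn.le_map_sum (t := (univ : Finset Ω)) (w := p)
    (p := fun ω => if 0 < p ω then F ω / p ω else 1) (fun ω _ => hp ω) hs (fun ω _ => by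
      simp only [Set.mem_Ioi]
      split_ifs with h0
      · exact div_pos (by linarith [hF ω h0]) h0
      · exact one_pos)
  refine le_trans (le_of_eq ?_) (h.trans (le_of_eq ?_))
  · rw [← sum_sub_distrib]
    refine sum_congr rfl fun ω _ => ?_
    by_cases h0 : 0 < p ω
    · have h1 : 0 < F ω := by linarith [hF ω h0]
      simp only [h0, if_true, smul_eq_mul]
      rw [Real.log_div h1.ne' h0.ne']
      ring
    · have h1 : p ω = 0 := le_antisymm (not_lt.1 h0) (hp ω)
      simp [h1]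
  · congr 1
    refine sum_congr rfl fun ω _ => ?_
    by_cases h0 : 0 < p ω
    · simp only [h0, if_true, smul_eq_mul]
      field_simp
    · have h1 : p ω = 0 := le_antisymm (not_lt.1 h0) (hp ω)
      simp [h1]

theorem log_lower (x μ : ℝ) (hx : 1 ≤ x) (hμ : 2 ≤ μ) :
    Real.log μ - 2 * |x - μ| / μ - 4 * Real.log μ * (x - μ) ^ 2 / μ ^ 2 ≤ Real.log x := by
  have hμ0 : 0 < μ := by linarith
  have hx0 : 0 < x := by linarith
  have hlμ : 0 ≤ Real.log μ := Real.log_nonneg (by linarith)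
  have h3 : 0 ≤ 4 * Real.log μ * (x - μ) ^ 2 / μ ^ 2 := by positivity
  have h2 : 0 ≤ 2 * |x - μ| / μ := by positivity
  rcases le_or_gt (μ / 2) x with h | h
  · have h1 := Real.one_sub_inv_le_log_of_pos (div_pos hx0 hμ0)
    rw [Real.log_div hx0.ne' hμ0.ne'] at h1
    have h4 : -(2 * |x - μ| / μ) ≤ 1 - (x / μ)⁻¹ := by
      have h5 : 1 - (x / μ)⁻¹ = (x - μ) / x := by
        field_simp
      rw [h5]
      have h6 : -(|x - μ| / x) ≤ (x - μ) / x := by
        rw [← neg_div]
        exact div_le_div_of_nonneg_right (neg_abs_le _) hx0.le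
      have h7 : |x - μ| / x ≤ 2 * |x - μ| / μ := by
        rw [div_le_div_iff₀ hx0 hμ0]
        nlinarith [abs_nonneg (x - μ)]
      linarith
    linarith
  · have h4 : Real.log μ ≤ 4 * Real.log μ * (x - μ) ^ 2 / μ ^ 2 := by
      rw [le_div_iff₀ (by positivity)]
      have h5 : μ ^ 2 ≤ 4 * (x - μ) ^ 2 := by nlinarith
      nlinarith
    have h5 : 0 ≤ Real.log x := Real.log_nonneg hx
    linarith

end Pool.Agent.THR

end
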