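import Pool.Agent.Lib_MP_2c424f_ms.M09
import Pool.Agent.Lib_MP_2c424f_ms.M18
import Pool.Agent.Lib_MP_2c424f_ms.M19

/-!
# MP_2c424f_pr: library of SharpThreshold and BoundaryThreshold (merged): merged library part M25

Concatenation of smaller files (each in its own section), only to save build time.
-/

namespace Pool.Agent.LO
end Pool.Agent.LO

namespace Pool.Agent.LIN
end Pool.Agent.LIN

/-! ### from `Lib_MP_2c424f_thr.T1` -/

section

/-!
# THR T1: concentration on fibres (paper proof: T1, T2)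

`fib b f = Fintype.piFinset t`, `t x = (SS f x)ᶜ` on the class `b` and `{f x}` off it, so `LIN.mcdiarmid` applies with
`c_v = l c` on the class (`|cls b| = N/2`) and `c_v = 0` off the class:
mean over the fibre of `exp (l (Ψ - mean Ψ)) ≤ exp (l² c² N/2)` if `l c ≤ 1`.
* `tail`: `fib_sum` for `exp (l (Ψ - fm b Ψ))` (the fibre mean is constant on the fibre, `fib_eq`), Markov's inequality,
  `l = δ/c²`: `exp (-l δ N + l² c² N/2) = exp (-δ² N/(2c²))`.
* `fm_var`: `e^x + e^{-x} ≥ 2 + x²`, applied to `x = l (F - mean F)`: `l² Var ≤ 2 (exp (l² S) - 1) ≤ 4 l² S`, `S = ∑ c_v²`,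
  for `l` so small that `l c_v ≤ 1`, `l² S ≤ 1`.
* `WOPi_tail`: `tail` with `c = d^κ`, `δ = 1/d^K`: `exp (-N/(2 d^(2K+2κ)))`, exponent `2K+2κ+1`.
-/

set_option autoImplicit false

open Finset Filter

namespace Pool.Agent.THR

open Pool.Agent.LO Pool.Agent.LIN

private theorem T1_cosh (x : ℝ) : 1 + x ^ 2 / 2 ≤ Real.cosh x := by
  have h1 : Real.cosh x = 1 + 2 * Real.sinh (x / 2) ^ 2 := by
    have e1 := Real.cosh_two_mul (x / 2)
    have e2 := Real.cosh_sq (x / 2)
    have e3 : 2 * (x / 2) = x := by ring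
    rw [e3] at e1
    rw [e1, e2]
    ring
  have h2 : (x / 2) ^ 2 ≤ Real.sinh (x / 2) ^ 2 := by
    rcases le_total 0 (x / 2) with h | h
    · exact pow_le_pow_left₀ h (Real.self_le_sinh_iff.2 h) 2
    · have e1 := Real.sinh_le_self_iff.2 h
      nlinarith
  rw [h1]
  nlinarith

private theorem T1_mcd {d k q : ℕ} (b : Bool) {f : Site d k → Fin q} (hf : Prp f)
    (F : (Site d k → Fin q) → ℝ) (c : Site d k → ℝ) (hc0 : ∀ v, 0 ≤ c v)
    (hc1 : ∀ v ∈ cls b d k, c v ≤ 1)
    (hF : ∀ h ∈ fib b f, ∀ v ∈ cls b d k, ∀ γ, γ ∉ SS f v → |F (Function.update h v γ) - F h| ≤ c v) :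
    fm b (fun h => Real.exp (F h)) f ≤ Real.exp (fm b F f + ∑ v ∈ cls b d k, c v ^ 2) := by
  classical
  have hself := fib_self b hf
  set t : Site d k → Finset (Fin q) := fun x => if x ∈ cls b d k then (SS f x)ᶜ else {f x} with ht
  have hfib : fib b f = Fintype.piFinset t := by
    unfold fib
    rw [ht]
  have htne : ∀ i, (t i).Nonempty := fun i =>
    ⟨f i, Fintype.mem_piFinset.1 (hfib ▸ hself) i⟩
  have hdiff : ∀ h ∈ Fintype.piFinset t, ∀ i, ∀ a ∈ t i,
      |F (Function.update h i a) - F h| ≤ if i ∈ cls b d k then c i else 0 := by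
    intro h hh i a ha
    by_cases hi : i ∈ cls b d k
    · rw [if_pos hi]
      refine hF h (hfib ▸ hh) i hi a ?_
      rw [ht] at ha
      dsimp only at ha
      rw [if_pos hi] at ha
      exact Finset.mem_compl.1 ha
    · have hti : t i = {f i} := by
        rw [ht]
        dsimp only
        rw [if_neg hi]
      have h1 : a = f i := by
        rw [hti] at ha
        exact Finset.mem_singleton.1 ha
      have h2 : h i = f i := by
        have := Fintype.mem_piFinset.1 hh i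
        rw [hti] at this
        exact Finset.mem_singleton.1 this
      have h3 : Function.update h i a = h := by
        rw [h1, ← h2, Function.update_eq_self]
      rw [h3, sub_self, abs_zero, if_neg hi]
  have hmc := mcdiarmid t htne F (fun i => if i ∈ cls b d k then c i else 0)
    (fun i => by
      split_ifs
      · exact hc0 i
      · exact le_rfl)
    (fun i => by
      split_ifs with hi
      · exact hc1 i hi
      · exact zero_le_one) hdiff
  have hcard : 0 < ((Fintype.piFinset t).card : ℝ) := by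
    rw [← hfib]
    exact_mod_cast Finset.card_pos.2 ⟨f, hself⟩
  have hsum : ∑ i, (if i ∈ cls b d k then c i else 0) ^ 2 = ∑ v ∈ cls b d k, c v ^ 2 := by
    have h1 : ∀ i, (if i ∈ cls b d k then c i else 0) ^ 2 = if i ∈ cls b d k then c i ^ 2 else 0 := by
      intro i
      split_ifs
      · rfl
      · simp
    rw [Finset.sum_congr rfl fun i _ => h1 i, Finset.sum_ite_mem, Finset.univ_inter]
  rw [hsum] at hmc
  unfold fm
  rw [hfib, div_le_iff₀ hcard, mul_comm]
  exact hmc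

private theorem T1_fm_center {d k q : ℕ} (b : Bool) {f : Site d k → Fin q} (hf : Prp f)
    (F : (Site d k → Fin q) → ℝ) (l m : ℝ) (hm : m = fm b F f) :
    fm b (fun h => l * (F h - m)) f = 0 := by
  have hcard : (0 : ℝ) < ((fib b f).card : ℝ) := by
    exact_mod_cast Finset.card_pos.2 ⟨f, fib_self b hf⟩
  unfold fm at hm ⊢
  rw [← Finset.mul_sum, Finset.sum_sub_distrib, Finset.sum_const, nsmul_eq_mul, hm,
    mul_div_cancel₀ _ hcard.ne', sub_self, mul_zero, zero_div]

theorem tail {d k q : ℕ} (hd : 1 ≤ d) (hk : 2 ≤ k) (b : Bool) (Ψ : (Site d k → Fin q) → ℝ) (c δ : ℝ) (hc : 0 < c)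
    (hδ : 0 ≤ δ) (hδc : δ ≤ c) (h : Lip b c Ψ) :
    (((prps d k q).filter fun f => fm b Ψ f + δ * NN d k ≤ Ψ f).card : ℝ) ≤
      ZZ d k q * Real.exp (-(δ ^ 2 * NN d k / (2 * c ^ 2))) := by
  classical
  have hk1 : 1 ≤ k := by omega
  set l : ℝ := δ / c ^ 2 with hl
  have hl0 : 0 ≤ l := by positivity
  have hlc : l * c ≤ 1 := by
    have h1 : l * c = δ / c := by
      rw [hl]
      field_simp
    rw [h1, div_le_one hc]
    exact hδc
  have key : ∀ f ∈ prps d k q, fm b (fun h => Real.exp (l * (Ψ h - fm b Ψ h))) f ≤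
      Real.exp (l ^ 2 * c ^ 2 * (NN d k / 2)) := by
    intro f hfm
    have hf : Prp f := by
      unfold prps at hfm
      exact (Finset.mem_filter.1 hfm).2
    have h1 : fm b (fun h => Real.exp (l * (Ψ h - fm b Ψ h))) f =
        fm b (fun h => Real.exp (l * (Ψ h - fm b Ψ f))) f := by
      unfold fm
      congr 1
      refine Finset.sum_congr rfl fun g hg => ?_
      dsimp only
      rw [fib_eq hk1 b hg]
    rw [h1]
    have h2 := T1_mcd b hf (fun h => l * (Ψ h - fm b Ψ f)) (fun _ => l * c)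
      (fun _ => mul_nonneg hl0 hc.le) (fun _ _ => hlc) (by
        intro g hg v hv γ hγ
        have h3 := h f hfm g hg v hv γ hγ
        have h4 : l * (Ψ (Function.update g v γ) - fm b Ψ f) - l * (Ψ g - fm b Ψ f) =
            l * (Ψ (Function.update g v γ) - Ψ g) := by ring
        rw [h4, abs_mul, abs_of_nonneg hl0]
        exact mul_le_mul_of_nonneg_left h3 hl0)
    rw [T1_fm_center b hf Ψ l _ rfl, Finset.sum_const, nsmul_eq_mul, card_cls hd hk1 b, zero_add] at h2
    refine h2.trans_eq ?_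
    congr 1
    ring
  have hsum : ∑ f ∈ prps d k q, Real.exp (l * (Ψ f - fm b Ψ f)) ≤
      ZZ d k q * Real.exp (l ^ 2 * c ^ 2 * (NN d k / 2)) := by
    rw [fib_sum hk1 b]
    refine (Finset.sum_le_sum key).trans_eq ?_
    rw [Finset.sum_const, nsmul_eq_mul]
    rfl
  have hWm : ∀ f ∈ (prps d k q).filter fun f => fm b Ψ f + δ * NN d k ≤ Ψ f,
      fm b Ψ f + δ * NN d k ≤ Ψ f := fun f hf => (Finset.mem_filter.1 hf).2
  have hWs : ((prps d k q).filter fun f => fm b Ψ f + δ * NN d k ≤ Ψ f) ⊆ prps d k q :=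
    Finset.filter_subset _ _
  generalize ((prps d k q).filter fun f => fm b Ψ f + δ * NN d k ≤ Ψ f) = W at hWm hWs ⊢
  have hmark : (W.card : ℝ) * Real.exp (l * (δ * NN d k)) ≤
      ∑ f ∈ prps d k q, Real.exp (l * (Ψ f - fm b Ψ f)) := by
    calc (W.card : ℝ) * Real.exp (l * (δ * NN d k)) = ∑ f ∈ W, Real.exp (l * (δ * NN d k)) := by
          rw [Finset.sum_const, nsmul_eq_mul]
      _ ≤ ∑ f ∈ W, Real.exp (l * (Ψ f - fm b Ψ f)) := by
          refine Finset.sum_le_sum fun f hf => ?_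
          refine Real.exp_le_exp.2 (mul_le_mul_of_nonneg_left ?_ hl0)
          linarith [hWm f hf]
      _ ≤ _ := Finset.sum_le_sum_of_subset_of_nonneg hWs fun _ _ _ => (Real.exp_pos _).le
  have h5 := hmark.trans hsum
  have h6 : (W.card : ℝ) ≤ ZZ d k q * Real.exp (l ^ 2 * c ^ 2 * (NN d k / 2)) / Real.exp (l * (δ * NN d k)) := by
    rw [le_div_iff₀ (Real.exp_pos _)]
    exact h5
  refine h6.trans_eq ?_
  rw [mul_div_assoc, ← Real.exp_sub]
  congr 2
  rw [hl]
  field_simp
  ring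

theorem fm_var {d k q : ℕ} (hk : 2 ≤ k) (b : Bool) {f : Site d k → Fin q} (hf : Prp f) (F : (Site d k → Fin q) → ℝ)
    (c : Site d k → ℝ) (hc : ∀ v, 0 ≤ c v)
    (h : ∀ h ∈ fib b f, ∀ v ∈ cls b d k, ∀ γ, γ ∉ SS f v → |F (Function.update h v γ) - F h| ≤ c v) :
    fm b (fun h => (F h - fm b F f) ^ 2) f ≤ 4 * ∑ v ∈ cls b d k, c v ^ 2 := by
  have _ := hk
  set S : ℝ := ∑ v ∈ cls b d k, c v ^ 2 with hS
  have hS0 : 0 ≤ S := Finset.sum_nonneg fun v _ => sq_nonneg _
  have hcS : ∀ v ∈ cls b d k, c v ≤ 1 + S := by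
    intro v hv
    have h1 : c v ^ 2 ≤ S := Finset.single_le_sum (f := fun v => c v ^ 2) (fun _ _ => sq_nonneg _) hv
    nlinarith [sq_nonneg (c v - 1)]
  set l : ℝ := 1 / (1 + S) with hl
  have hl0 : 0 < l := by positivity
  have hl1 : l * (1 + S) = 1 := by
    rw [hl]
    field_simp
  set m : ℝ := fm b F f with hm
  have hcard : (0 : ℝ) < ((fib b f).card : ℝ) := by
    exact_mod_cast Finset.card_pos.2 ⟨f, fib_self b hf⟩
  have hx : l ^ 2 * S ≤ 1 := by
    have h1 : l * S ≤ 1 := by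
      have : l * (1 + S) = l + l * S := by ring
      linarith
    have h2 : l ≤ 1 := by
      have : 0 ≤ l * S := by positivity
      nlinarith
    calc l ^ 2 * S = l * (l * S) := by ring
      _ ≤ 1 * 1 := mul_le_mul h2 h1 (by positivity) zero_le_one
      _ = 1 := one_mul 1
  have hx0 : 0 ≤ l ^ 2 * S := by positivity
  have hsg : ∀ s : ℝ, |s| = l → fm b (fun h => Real.exp (s * (F h - m))) f ≤ Real.exp (l ^ 2 * S) := by
    intro s hs
    have h2 := T1_mcd b hf (fun h => s * (F h - m)) (fun v => l * c v)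
      (fun v => mul_nonneg hl0.le (hc v))
      (fun v hv => (mul_le_mul_of_nonneg_left (hcS v hv) hl0.le).trans_eq hl1) (by
        intro g hg v hv γ hγ
        have h3 := h g hg v hv γ hγ
        have h4 : s * (F (Function.update g v γ) - m) - s * (F g - m) =
            s * (F (Function.update g v γ) - F g) := by ring
        rw [h4, abs_mul, hs]
        exact mul_le_mul_of_nonneg_left h3 hl0.le)
    rw [T1_fm_center b hf F s m hm, zero_add] at h2
    refine h2.trans_eq ?_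
    congr 1
    rw [hS, Finset.mul_sum]
    refine Finset.sum_congr rfl fun v _ => ?_
    ring
  have h1 := hsg l (abs_of_pos hl0)
  have h2 := hsg (-l) (by rw [abs_neg, abs_of_pos hl0])
  have h3 : 2 + l ^ 2 * fm b (fun h => (F h - m) ^ 2) f ≤
      fm b (fun h => Real.exp (l * (F h - m))) f + fm b (fun h => Real.exp (-l * (F h - m))) f := by
    have e1 : 2 + l ^ 2 * fm b (fun h => (F h - m) ^ 2) f =
        (∑ h ∈ fib b f, (2 + (l * (F h - m)) ^ 2)) / (fib b f).card := by
      unfold fm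
      rw [Finset.sum_add_distrib, Finset.sum_const, nsmul_eq_mul, add_div, mul_comm _ (2 : ℝ),
        mul_div_cancel_right₀ _ hcard.ne', ← mul_div_assoc, Finset.mul_sum]
      congr 2
      refine Finset.sum_congr rfl fun g _ => ?_
      ring
    rw [e1]
    unfold fm
    rw [← add_div, ← Finset.sum_add_distrib]
    refine div_le_div_of_nonneg_right (Finset.sum_le_sum fun g _ => ?_) hcard.le
    have e2 : -l * (F g - m) = -(l * (F g - m)) := by ring
    rw [e2]
    generalize l * (F g - m) = x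
    have e3 : Real.exp x + Real.exp (-x) = 2 * Real.cosh x := by
      rw [Real.cosh_eq]
      ring
    rw [e3]
    have e4 := T1_cosh x
    linarith
  have h4 : Real.exp (l ^ 2 * S) ≤ 1 + 2 * (l ^ 2 * S) := by
    have e1 := Real.abs_exp_sub_one_sub_id_le (x := l ^ 2 * S) (by rw [abs_of_nonneg hx0]; exact hx)
    have e2 := (abs_le.1 e1).2
    nlinarith
  have h5 : l ^ 2 * fm b (fun h => (F h - m) ^ 2) f ≤ l ^ 2 * (4 * S) := by
    nlinarith
  exact le_of_mul_le_mul_left h5 (by positivity)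

private theorem T1_Rar {C d k q : ℕ} {P : (Site d k → Fin q) → Prop} (W : Finset (Site d k → Fin q))
    (hW : ∀ f ∈ prps d k q, P f → f ∈ W)
    (hc : (W.card : ℝ) ≤ ZZ d k q * Real.exp (-(NN d k / (d : ℝ) ^ C))) : Rar C d k q P := by
  classical
  unfold Rar
  refine le_trans ?_ hc
  exact Nat.cast_le.2 (Finset.card_le_card fun f hf =>
    hW f (Finset.mem_filter.1 hf).1 (Finset.mem_filter.1 hf).2)

theorem WOPi_tail {ε : ℝ} (hε : 0 < ε) (hε1 : ε ≤ 1) (ι : ℕ → ℕ → ℕ → Type) (b : ∀ d k q, ι d k q → Bool)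
    (H : ∀ d k q, ι d k q → Prop) (Ψ : ∀ d k q, ι d k q → (Site d k → Fin q) → ℝ) (κ K : ℕ)
    (hL : EvT ε fun d k q => ∀ i, H d k q i → Lip (b d k q i) ((d : ℝ) ^ κ) (Ψ d k q i)) :
    WOPi ε ι fun d k q i f => H d k q i →
      Ψ d k q i f ≤ fm (b d k q i) (Ψ d k q i) f + NN d k / (d : ℝ) ^ K := by
  refine ⟨2 * K + 2 * κ + 1, ?_⟩
  refine (hL.and (EvT_reg hε hε1 2)).mono ?_
  intro d k q hdkq i
  obtain ⟨hLip, hd2, -, hk2, -⟩ := hdkq
  have hd2' : 2 ≤ d := by exact_mod_cast hd2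
  have hk2' : 2 ≤ k := by exact_mod_cast hk2
  have hd0 : (0 : ℝ) < d := by linarith
  have hd1 : (1 : ℝ) ≤ d := by linarith
  have hN : 0 ≤ NN d k := by
    unfold NN
    positivity
  have hZ : 0 ≤ ZZ d k q := by
    unfold ZZ
    positivity
  by_cases hH : H d k q i
  · have h1 := tail (by omega : 1 ≤ d) hk2' (b d k q i) (Ψ d k q i) ((d : ℝ) ^ κ) (1 / (d : ℝ) ^ K)
      (by positivity) (by positivity) (by
        calc 1 / (d : ℝ) ^ K ≤ 1 := by
              rw [div_le_one (by positivity)]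
              exact one_le_pow₀ hd1
          _ ≤ (d : ℝ) ^ κ := one_le_pow₀ hd1) (hLip i hH)
    refine T1_Rar _ (fun f hf h2 => ?_) (h1.trans ?_)
    · rw [Classical.not_imp, not_le] at h2
      have h3 : 1 / (d : ℝ) ^ K * NN d k = NN d k / (d : ℝ) ^ K := by ring
      refine Finset.mem_filter.2 ⟨hf, ?_⟩
      rw [h3]
      exact h2.2.le
    · refine mul_le_mul_of_nonneg_left (Real.exp_le_exp.2 (neg_le_neg ?_)) hZ
      have h4 : (1 / (d : ℝ) ^ K) ^ 2 * NN d k / (2 * ((d : ℝ) ^ κ) ^ 2) =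
          NN d k / (2 * (d : ℝ) ^ (2 * K + 2 * κ)) := by
        rw [pow_add, pow_mul', pow_mul']
        field_simp
      rw [h4]
      refine div_le_div_of_nonneg_left hN (by positivity) ?_
      rw [pow_succ' (d : ℝ) (2 * K + 2 * κ)]
      exact mul_le_mul_of_nonneg_right hd2 (by positivity)
  · refine T1_Rar ∅ (fun f _ hf => absurd (fun h => absurd h hH) hf) ?_
    rw [Finset.card_empty, Nat.cast_zero]
    positivity

end Pool.Agent.THR

end

/-! ### from `Lib_MP_2c424f_thr.S2` -/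

section

/-!
# THR S2: colours not used by the neighbours which are not frozen (paper proof: S2, S3)

`v` in the class `b`; the neighbours `u = v + sv σ` are in the class `!b`, `av f u` depends on the class `b` only.
* `Vn_mean`: `Vn h v = ∑_c ∏_{σ : av ≠ 1} 1[h (v+σ) ≠ c]` on the fibre; mean `∑_c ∏_{σ : av ≥ 2} (1 - z/x)` (`fm_prod`),
  `1 - t ≥ 4^(-t)` for `0 ≤ t ≤ 1/2`, so `≥ ∑_c 4^(-s_c)`, `∑_c s_c ≤ 2d` (`sum_zz_av`); convexity: `≥ q 4^(-2d/q)`.
* `Vn_lip`: changing one colour of the fibre changes `Vn h v` by at most `1`, and by `0` if the site is no neighbour.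
* `Vn_tail`: `LIN.mcdiarmid` for `-l Vn` with `2d` coordinates of influence `l`: with `s = q 4^(-a)/2`:
  `P (Vn - mean ≤ -s) ≤ exp (-l s + 2 d l²)`, `l = s/(4d) ≤ 1`: `exp (-s²/(8d))`, `s ≥ ε d 4^(-A0)/2`, so
  `≤ exp (-ρ d)`, `ρ = ε² 16^(-A0) / 32`.
* `Bd_few`: `WOPi_tail` for `Ψ f = |Bd b f|`, `κ = 2` (`2 d ≤ d²`), mean `≤ N exp (-ρ d) ≤ N/(2 d^K)`.
-/

set_option autoImplicit false

open Finset Filter

namespace Pool.Agent.THR

open Pool.Agent.LO Pool.Agent.LIN

private theorem S2_four {t : ℝ} (h0 : 0 ≤ t) (h1 : t ≤ 1 / 2) : (4 : ℝ) ^ (-t) ≤ 1 - t := by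
  have h2 := rpow_one_add_le_one_add_mul_self (s := -(1 / 2 : ℝ)) (by norm_num) (p := 2 * t)
    (by linarith) (by linarith)
  have h3 : (4 : ℝ) ^ (-t) = (1 + -(1 / 2 : ℝ)) ^ (2 * t) := by
    rw [Real.rpow_mul (by norm_num), Real.rpow_two, Real.rpow_neg (by norm_num),
      ← Real.inv_rpow (by norm_num)]
    norm_num
  rw [h3]
  linarith

private theorem S2_jensen {q : ℕ} (hq : 1 ≤ q) (s : Fin q → ℝ) (D : ℝ) (hs : ∑ c, s c ≤ D) :
    q * (4 : ℝ) ^ (-(D / q)) ≤ ∑ c, (4 : ℝ) ^ (-s c) := by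
  have h4 : 0 < Real.log 4 := Real.log_pos (by norm_num)
  have hq0 : (0 : ℝ) < q := by exact_mod_cast hq
  have h1 : ∀ c, (4 : ℝ) ^ (-(D / q)) * (1 + Real.log 4 * (D / q - s c)) ≤ (4 : ℝ) ^ (-s c) := by
    intro c
    have h2 : (4 : ℝ) ^ (-s c) = (4 : ℝ) ^ (-(D / q)) * (4 : ℝ) ^ (D / q - s c) := by
      rw [← Real.rpow_add (by norm_num)]
      congr 1
      ring
    rw [h2]
    refine mul_le_mul_of_nonneg_left ?_ (by positivity)
    rw [Real.rpow_def_of_pos (by norm_num)]
    have h3 := Real.add_one_le_exp (Real.log 4 * (D / q - s c))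
    linarith
  refine le_trans ?_ (sum_le_sum fun c _ => h1 c)
  rw [← mul_sum, mul_comm]
  refine mul_le_mul_of_nonneg_left ?_ (by positivity)
  rw [sum_add_distrib, ← mul_sum, sum_sub_distrib]
  simp only [sum_const, card_univ, Fintype.card_fin, nsmul_eq_mul, mul_one]
  rw [mul_div_cancel₀ D hq0.ne']
  nlinarith [mul_nonneg h4.le (sub_nonneg.2 hs)]

private theorem S2_step {d k : ℕ} (hk : 1 ≤ k) (b : Bool) {v : Site d k} (hv : v ∈ cls b d k) (σ : Stp d) :
    v + sv σ ∈ cls (!b) d k := by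
  rw [mem_cls_step hk, Bool.not_not]
  exact hv

private theorem S2_avf {d k q : ℕ} (hk : 1 ≤ k) (b : Bool) {f h : Site d k → Fin q} (hh : h ∈ fib (!b) f)
    {v : Site d k} (hv : v ∈ cls b d k) (σ : Stp d) : av h (v + sv σ) = av f (v + sv σ) := by
  unfold av
  rw [fib_SS hk (!b) hh _ (S2_step hk b hv σ)]

private theorem S2_Vn {d k q : ℕ} (hk : 1 ≤ k) (b : Bool) {f h : Site d k → Fin q} (hh : h ∈ fib (!b) f)
    {v : Site d k} (hv : v ∈ cls b d k) :
    (Vn h v : ℝ) = ∑ c : Fin q, ∏ u ∈ (univ.image fun σ : Stp d => v + sv σ).filter (fun u => av f u ≠ 1),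
      (if h u = c then (0 : ℝ) else 1) := by
  classical
  unfold Vn
  rw [card_filter, Nat.cast_sum]
  refine sum_congr rfl fun c _ => ?_
  split_ifs with hc
  · rw [Nat.cast_one]
    refine (prod_eq_one fun u hu => if_neg fun huc => ?_).symm
    obtain ⟨h1, h2⟩ := mem_filter.1 hu
    obtain ⟨σ, -, rfl⟩ := mem_image.1 h1
    exact h2 ((S2_avf hk b hh hv σ).symm.trans (hc σ huc))
  · rw [Nat.cast_zero]
    rw [not_forall] at hc
    obtain ⟨σ, hσ⟩ := hc
    rw [Classical.not_imp] at hσ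
    have h1 : v + sv σ ∈ (univ.image fun σ : Stp d => v + sv σ).filter (fun u : Site d k => av f u ≠ 1) := by
      refine mem_filter.2 ⟨mem_image_of_mem _ (mem_univ σ), ?_⟩
      rw [← S2_avf hk b hh hv σ]
      exact hσ.2
    have h2 : (if h (v + sv σ) = c then (0 : ℝ) else 1) = 0 := if_pos hσ.1
    exact (prod_eq_zero (f := fun u : Site d k => if h u = c then (0 : ℝ) else 1) h1 h2).symm

theorem Vn_mean {d k q : ℕ} (hd : 1 ≤ d) (hk : 2 ≤ k) (hq : 1 ≤ q) (b : Bool) {f : Site d k → Fin q} (hf : Prp f)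
    (v : Site d k) (hv : v ∈ cls b d k) : q * (4 : ℝ) ^ (-ra d q) ≤ fm (!b) (fun h => (Vn h v : ℝ)) f := by
  have _ := hd
  have hk1 : 1 ≤ k := by omega
  obtain ⟨U, hU⟩ : ∃ U : Finset (Site d k),
      U = (univ.image fun σ : Stp d => v + sv σ).filter (fun u => av f u ≠ 1) := ⟨_, rfl⟩
  have hUc : U ⊆ cls (!b) d k := by
    intro u hu
    rw [hU] at hu
    obtain ⟨σ, -, rfl⟩ := mem_image.1 (mem_filter.1 hu).1
    exact S2_step hk1 b hv σ
  have hUcard : (U.card : ℝ) ≤ 2 * d := by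
    have h1 : U.card ≤ 2 * d := by
      rw [hU]
      refine (card_le_card (filter_subset _ _)).trans (card_image_le.trans ?_)
      rw [card_univ, Fintype.card_prod, Fintype.card_fin, Fintype.card_bool, mul_comm]
    exact_mod_cast h1
  have h1 : fm (!b) (fun h => (Vn h v : ℝ)) f = ∑ c : Fin q, ∏ u ∈ U, (1 - zz f u c / (av f u : ℝ)) := by
    rw [fm_congr (!b) (G := fun h => ∑ c : Fin q, ∏ u ∈ U, (if h u = c then (0 : ℝ) else 1))
      fun h hh => by rw [hU]; exact S2_Vn hk1 b hh hv, fm_sum]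
    exact sum_congr rfl fun c _ => T2c_mean hk1 (!b) hf U hUc c
  have h2 : ∀ c : Fin q, (4 : ℝ) ^ (-∑ u ∈ U, zz f u c / (av f u : ℝ)) ≤
      ∏ u ∈ U, (1 - zz f u c / (av f u : ℝ)) := by
    intro c
    rw [← sum_neg_distrib, Real.rpow_sum_of_pos (by norm_num)]
    refine prod_le_prod (fun u _ => by positivity) fun u hu => S2_four (zz_av_le hf u c).1 ?_
    rw [hU] at hu
    have h3 := (mem_filter.1 hu).2
    have h4 := av_pos hf u
    have h5 : (2 : ℝ) ≤ av f u := by exact_mod_cast (by omega : 2 ≤ av f u)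
    have h6 : zz f u c ≤ 1 := by
      unfold zz
      split_ifs <;> norm_num
    rw [div_le_iff₀ (by linarith)]
    linarith
  have h3 : ∑ c : Fin q, ∑ u ∈ U, zz f u c / (av f u : ℝ) ≤ 2 * d := by
    rw [sum_comm, sum_congr rfl fun u _ => sum_zz_av hf u, sum_const, nsmul_eq_mul, mul_one]
    exact hUcard
  rw [h1]
  refine le_trans ?_ (sum_le_sum fun c _ => h2 c)
  exact S2_jensen hq _ _ h3

private theorem S2_SS {d k q : ℕ} (hk : 1 ≤ k) (b : Bool) (h : Site d k → Fin q) {u w : Site d k}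
    (hu : u ∈ cls b d k) (hw : w ∈ cls b d k) (γ : Fin q) : SS (Function.update h u γ) w = SS h w := by
  unfold SS
  refine image_congr fun σ _ => ?_
  have h1 : w + sv σ ≠ u := by
    intro he
    have h2 := (mem_cls_step hk b w σ).1 (he ▸ hu)
    exact (cls_not b w).1 h2 hw
  exact Function.update_of_ne h1 _ _

private theorem S2_one {d k q : ℕ} (h h' : Site d k → Fin q) (v u : Site d k) (he : ∀ x, x ≠ u → h' x = h x)
    (hav : ∀ σ : Stp d, av h' (v + sv σ) = av h (v + sv σ)) : Vn h v ≤ Vn h' v + 1 := by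
  classical
  unfold Vn
  refine (card_le_card ?_).trans (card_insert_le (h' u) _)
  intro c hc
  rw [mem_insert, or_iff_not_imp_left]
  intro hcu
  rw [mem_filter] at hc ⊢
  refine ⟨mem_univ _, fun σ hσ => ?_⟩
  rw [hav]
  apply hc.2 σ
  by_cases hx : v + sv σ = u
  · rw [hx] at hσ
    exact absurd hσ.symm hcu
  · rw [← he _ hx]
    exact hσ

private theorem S2_zero {d k q : ℕ} (h h' : Site d k → Fin q) (v : Site d k)
    (he : ∀ σ : Stp d, h' (v + sv σ) = h (v + sv σ))
    (hav : ∀ σ : Stp d, av h' (v + sv σ) = av h (v + sv σ)) : Vn h' v = Vn h v := by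
  classical
  unfold Vn
  congr 1
  refine filter_congr fun c _ => ?_
  exact forall_congr' fun σ => by rw [he σ, hav σ]

private theorem S2_av {d k q : ℕ} (hk : 1 ≤ k) (b : Bool) (h : Site d k → Fin q) {v u : Site d k}
    (hv : v ∈ cls b d k) (hu : u ∈ cls (!b) d k) (γ : Fin q) (σ : Stp d) :
    av (Function.update h u γ) (v + sv σ) = av h (v + sv σ) := by
  unfold av
  rw [S2_SS hk (!b) h hu (S2_step hk b hv σ) γ]

open scoped Classical in
private theorem S2_lip {d k q : ℕ} (hk : 1 ≤ k) (b : Bool) (h : Site d k → Fin q)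
    {v : Site d k} (hv : v ∈ cls b d k) {u : Site d k} (hu : u ∈ cls (!b) d k) (γ : Fin q) :
    |(Vn (Function.update h u γ) v : ℝ) - Vn h v| ≤ if ∃ σ : Stp d, v + sv σ = u then 1 else 0 := by
  have hav := fun σ : Stp d => S2_av hk b h hv hu γ σ
  split_ifs with hn
  · have h1 := S2_one h (Function.update h u γ) v u (fun x hx => Function.update_of_ne hx _ _) hav
    have h2 := S2_one (Function.update h u γ) h v u (fun x hx => (Function.update_of_ne hx _ _).symm)
      fun σ => (hav σ).symm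
    have h1' : (Vn h v : ℝ) ≤ Vn (Function.update h u γ) v + 1 := by exact_mod_cast h1
    have h2' : (Vn (Function.update h u γ) v : ℝ) ≤ Vn h v + 1 := by exact_mod_cast h2
    rw [abs_le]
    constructor <;> linarith
  · rw [S2_zero h (Function.update h u γ) v (fun σ => Function.update_of_ne (fun he => hn ⟨σ, he⟩) _ _) hav,
      sub_self, abs_zero]

open scoped Classical in
theorem Vn_lip {d k q : ℕ} (hk : 2 ≤ k) (b : Bool) {f h : Site d k → Fin q} (hf : Prp f) (hh : h ∈ fib (!b) f)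
    (v : Site d k) (hv : v ∈ cls b d k) (u : Site d k) (hu : u ∈ cls (!b) d k) (γ : Fin q) (hγ : γ ∉ SS f u) :
    |(Vn (Function.update h u γ) v : ℝ) - Vn h v| ≤ if ∃ σ : Stp d, v + sv σ = u then 1 else 0 := by
  have _ := hf
  have _ := hh
  have _ := hγ
  exact S2_lip (by omega) b h hv hu γ

private theorem S2_nbr {d k : ℕ} (v : Site d k) (P : Site d k → Prop) [DecidablePred P]
    (hP : ∀ x, P x → ∃ σ : Stp d, v + sv σ = x) : (univ.filter P).card ≤ 2 * d := by
  have h1 : univ.filter P ⊆ univ.image fun σ : Stp d => v + sv σ := by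
    intro x hx
    obtain ⟨σ, hσ⟩ := hP x (mem_filter.1 hx).2
    exact mem_image.2 ⟨σ, mem_univ _, hσ⟩
  refine (card_le_card h1).trans (card_image_le.trans ?_)
  rw [card_univ, Fintype.card_prod, Fintype.card_fin, Fintype.card_bool, mul_comm]

private theorem S2_exp {d k q : ℕ} (hk : 1 ≤ k) (b : Bool) {f : Site d k → Fin q} (hf : Prp f) {v : Site d k}
    (hv : v ∈ cls b d k) {l : ℝ} (hl0 : 0 ≤ l) (hl : l ≤ 1) :
    fm (!b) (fun h => Real.exp (-(l * (Vn h v : ℝ)))) f ≤
      Real.exp (-(l * fm (!b) (fun h => (Vn h v : ℝ)) f) + 2 * d * l ^ 2) := by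
  classical
  obtain ⟨t, ht⟩ : ∃ t : Site d k → Finset (Fin q),
      t = fun x => if x ∈ cls (!b) d k then (SS f x)ᶜ else {f x} := ⟨_, rfl⟩
  have hfib : fib (!b) f = Fintype.piFinset t := by
    rw [ht]
    unfold fib
    congr 1
  have hne : ∀ x, (t x).Nonempty := by
    intro x
    refine ⟨f x, ?_⟩
    rw [ht]
    show f x ∈ (if x ∈ cls (!b) d k then (SS f x)ᶜ else {f x})
    split_ifs
    · rw [mem_compl]
      intro hx
      obtain ⟨σ, -, hσ⟩ := mem_image.1 hx
      exact hf x σ hσ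
    · exact mem_singleton_self _
  have hm := mcdiarmid t hne (fun h => -(l * (Vn h v : ℝ)))
    (fun x => if ∃ σ : Stp d, v + sv σ = x then l else 0)
    (fun x => by split_ifs <;> linarith) (fun x => by split_ifs <;> linarith) (by
      intro h hh x a ha
      by_cases hx : x ∈ cls (!b) d k
      · have h1 := S2_lip hk b h hv hx a
        have h2 : |(-(l * (Vn (Function.update h x a) v : ℝ))) - -(l * (Vn h v : ℝ))| =
            l * |(Vn (Function.update h x a) v : ℝ) - Vn h v| := by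
          rw [show -(l * (Vn (Function.update h x a) v : ℝ)) - -(l * (Vn h v : ℝ)) =
            l * -((Vn (Function.update h x a) v : ℝ) - Vn h v) by ring, abs_mul, abs_neg, abs_of_nonneg hl0]
        rw [h2]
        refine (mul_le_mul_of_nonneg_left h1 hl0).trans ?_
        split_ifs <;> simp
      · have h1 : ∀ g ∈ t x, g = f x := by
          intro g hg
          rw [ht] at hg
          have hg' : g ∈ (if x ∈ cls (!b) d k then (SS f x)ᶜ else {f x}) := hg
          rw [if_neg hx, mem_singleton] at hg'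
          exact hg'
        have h2 : Function.update h x a = h := by
          rw [h1 a ha, ← h1 _ (Fintype.mem_piFinset.1 hh x)]
          exact Function.update_eq_self x h
        rw [h2, sub_self, abs_zero]
        split_ifs
        · exact hl0
        · exact le_refl _)
  have hcard : (0 : ℝ) < ((fib (!b) f).card : ℝ) := by
    exact_mod_cast card_pos.2 ⟨f, fib_self (!b) hf⟩
  have hsq : ∑ x : Site d k, (if ∃ σ : Stp d, v + sv σ = x then l else 0) ^ 2 ≤ 2 * d * l ^ 2 := by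
    have h1 : ∀ x : Site d k, (if ∃ σ : Stp d, v + sv σ = x then l else 0) ^ 2 =
        if ∃ σ : Stp d, v + sv σ = x then l ^ 2 else 0 := by
      intro x
      split_ifs <;> simp
    rw [sum_congr rfl fun x _ => h1 x, ← sum_filter, sum_const, nsmul_eq_mul]
    refine mul_le_mul_of_nonneg_right ?_ (by positivity)
    exact_mod_cast S2_nbr v (fun x => ∃ σ : Stp d, v + sv σ = x) fun x hx => hx
  rw [← hfib] at hm
  have hmean : (∑ h ∈ fib (!b) f, -(l * (Vn h v : ℝ))) / ((fib (!b) f).card : ℝ) =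
      -(l * fm (!b) (fun h => (Vn h v : ℝ)) f) := by
    unfold fm
    rw [sum_neg_distrib, ← mul_sum, neg_div, mul_div_assoc]
  rw [hmean] at hm
  unfold fm at hm ⊢
  rw [div_le_iff₀ hcard, mul_comm]
  refine hm.trans (mul_le_mul_of_nonneg_left (Real.exp_le_exp.2 ?_) hcard.le)
  linarith

open scoped Classical in
theorem Vn_tail {ε : ℝ} (hε : 0 < ε) (hε1 : ε ≤ 1) : ∃ ρ : ℝ, 0 < ρ ∧ EvT ε fun d k q => ∀ (b : Bool),
    ∀ f ∈ prps d k q, ∀ v ∈ cls b d k,
      fm (!b) (fun h => if (Vn h v : ℝ) < q * (4 : ℝ) ^ (-ra d q) / 2 then (1 : ℝ) else 0) f ≤ Real.exp (-(ρ * d)) := by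
  refine ⟨ε ^ 2 * ((4 : ℝ) ^ (-A0 ε)) ^ 2 / 32, by positivity, (EvT_reg hε hε1 2).mono ?_⟩
  rintro d k q ⟨hd2, hq2, hk2, hqd, hqd2, -, hra, -⟩ b f hf v hv
  have hd : 2 ≤ d := by exact_mod_cast hd2
  have hq : 2 ≤ q := by exact_mod_cast hq2
  have hk : 2 ≤ k := by exact_mod_cast hk2
  have hd0 : (0 : ℝ) < d := by linarith
  have hq0 : (0 : ℝ) < q := by linarith
  have hP : Prp f := (mem_filter.1 hf).2
  obtain ⟨s, hs⟩ : ∃ s : ℝ, s = q * (4 : ℝ) ^ (-ra d q) / 2 := ⟨_, rfl⟩
  have hra0 : 0 ≤ ra d q := by unfold ra; positivity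
  have hs0 : 0 < s := by rw [hs]; positivity
  have h41 : (4 : ℝ) ^ (-ra d q) ≤ 1 := Real.rpow_le_one_of_one_le_of_nonpos (by norm_num) (by linarith)
  have hs1 : s ≤ 4 * d := by
    rw [hs]
    have h1 : (q : ℝ) * (4 : ℝ) ^ (-ra d q) ≤ q := by nlinarith
    nlinarith
  have hs2 : ε * d * (4 : ℝ) ^ (-A0 ε) / 2 ≤ s := by
    rw [hs]
    have h1 : (4 : ℝ) ^ (-A0 ε) ≤ (4 : ℝ) ^ (-ra d q) :=
      Real.rpow_le_rpow_of_exponent_le (by norm_num) (by linarith)
    have h2 : (0 : ℝ) < (4 : ℝ) ^ (-A0 ε) := by positivity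
    have h3 : ε * d * (4 : ℝ) ^ (-A0 ε) ≤ q * (4 : ℝ) ^ (-ra d q) :=
      mul_le_mul hqd h1 h2.le hq0.le
    linarith
  have hl0 : 0 ≤ s / (4 * d) := by positivity
  have hl1 : s / (4 * d) ≤ 1 := by
    rw [div_le_one (by positivity)]
    exact hs1
  have h1 := S2_exp (by omega) b hP hv hl0 hl1
  have h2 := Vn_mean (by omega) hk (by omega) b hP v hv
  rw [← hs]
  calc fm (!b) (fun h => if (Vn h v : ℝ) < s then (1 : ℝ) else 0) f ≤
        fm (!b) (fun h => Real.exp (s / (4 * d) * s) * Real.exp (-(s / (4 * d) * (Vn h v : ℝ)))) f := by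
        refine fm_mono (!b) hP fun h _ => ?_
        split_ifs with hlt
        · rw [← Real.exp_add]
          refine Real.one_le_exp ?_
          nlinarith [mul_nonneg hl0 (sub_nonneg.2 hlt.le)]
        · positivity
    _ = Real.exp (s / (4 * d) * s) * fm (!b) (fun h => Real.exp (-(s / (4 * d) * (Vn h v : ℝ)))) f :=
        fm_mul _ _ _ _
    _ ≤ Real.exp (s / (4 * d) * s) *
          Real.exp (-(s / (4 * d) * fm (!b) (fun h => (Vn h v : ℝ)) f) + 2 * d * (s / (4 * d)) ^ 2) :=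
        mul_le_mul_of_nonneg_left h1 (Real.exp_pos _).le
    _ ≤ Real.exp (-(ε ^ 2 * ((4 : ℝ) ^ (-A0 ε)) ^ 2 / 32 * d)) := by
        rw [← Real.exp_add]
        refine Real.exp_le_exp.2 ?_
        have h3 : s / (4 * d) * (2 * s) ≤ s / (4 * d) * fm (!b) (fun h => (Vn h v : ℝ)) f :=
          mul_le_mul_of_nonneg_left (by rw [hs]; linarith) hl0
        have h4 : s / (4 * d) * s + (-(s / (4 * d) * (2 * s)) + 2 * d * (s / (4 * d)) ^ 2) =
            -(s ^ 2 / (8 * d)) := by
          field_simp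
          ring
        have h5 : ε ^ 2 * ((4 : ℝ) ^ (-A0 ε)) ^ 2 / 32 * d ≤ s ^ 2 / (8 * d) := by
          rw [le_div_iff₀ (by positivity)]
          have h6 : (0 : ℝ) ≤ ε * d * (4 : ℝ) ^ (-A0 ε) / 2 := by positivity
          have h7 := mul_self_le_mul_self h6 hs2
          nlinarith
        linarith

private theorem S2_Bd {d k q : ℕ} (hk : 1 ≤ k) (b : Bool) (h h' : Site d k → Fin q) (u : Site d k)
    (hu : u ∈ cls (!b) d k) (he : ∀ v ∈ cls b d k, (¬ ∃ σ : Stp d, v + sv σ = u) → Vn h' v = Vn h v) :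
    (Bd b h).card ≤ (Bd b h').card + 2 * d := by
  classical
  have _ := hk
  have _ := hu
  have h1 : Bd b h ⊆ Bd b h' ∪ univ.image fun σ : Stp d => u - sv σ := by
    intro v hv
    rw [mem_union]
    by_cases hn : ∃ σ : Stp d, v + sv σ = u
    · right
      obtain ⟨σ, hσ⟩ := hn
      exact mem_image.2 ⟨σ, mem_univ _, by rw [← hσ, add_sub_cancel_right]⟩
    · left
      unfold Bd at hv ⊢
      rw [mem_filter] at hv ⊢
      refine ⟨hv.1, ?_⟩
      rw [he v hv.1 hn]
      exact hv.2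
  refine (card_le_card h1).trans ((card_union_le _ _).trans ?_)
  refine Nat.add_le_add_left (card_image_le.trans ?_) _
  rw [card_univ, Fintype.card_prod, Fintype.card_fin, Fintype.card_bool, mul_comm]

theorem Bd_few {ε : ℝ} (hε : 0 < ε) (hε1 : ε ≤ 1) (K : ℕ) :
    WOP ε fun d k q f => ∀ b : Bool, ((Bd b f).card : ℝ) ≤ NN d k / (d : ℝ) ^ K := by
  classical
  obtain ⟨ρ, hρ, htail⟩ := Vn_tail hε hε1
  have hexp : ∀ᶠ d : ℕ in atTop, Real.exp (-(ρ * d)) ≤ 1 / (d : ℝ) ^ K := by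
    have h1 := Real.tendsto_pow_mul_exp_neg_atTop_nhds_zero K
    have h2 : Tendsto (fun d : ℕ => ρ * (d : ℝ)) atTop atTop :=
      tendsto_natCast_atTop_atTop.const_mul_atTop hρ
    have h3 := (h1.comp h2).eventually (eventually_le_nhds (pow_pos hρ K))
    filter_upwards [h3, eventually_ge_atTop 1] with d hd hd1
    have hd0 : (0 : ℝ) < d := by exact_mod_cast hd1
    have h4 : (ρ * (d : ℝ)) ^ K * Real.exp (-(ρ * d)) ≤ ρ ^ K := hd
    rw [le_div_iff₀ (by positivity)]
    rw [mul_pow] at h4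
    have h5 : ρ ^ K * (Real.exp (-(ρ * d)) * (d : ℝ) ^ K) ≤ ρ ^ K * 1 := by linarith
    exact le_of_mul_le_mul_left h5 (by positivity)
  have hw := WOPi_tail hε hε1 (fun _ _ _ => Bool) (fun _ _ _ i => !i) (fun _ _ _ _ => True)
    (fun d k q i f => ((Bd i f).card : ℝ)) 2 (K + 1) (by
      refine (EvT_reg hε hε1 2).mono ?_
      rintro d k q ⟨hd2, -, hk2, -⟩ i _ f hf h hh u hu γ hγ
      have hd : 2 ≤ d := by exact_mod_cast hd2
      have hk : 2 ≤ k := by exact_mod_cast hk2
      have hz : ∀ v ∈ cls i d k, (¬ ∃ σ : Stp d, v + sv σ = u) → Vn (Function.update h u γ) v = Vn h v :=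
        fun v hv hn => S2_zero h (Function.update h u γ) v
          (fun σ => Function.update_of_ne (fun he => hn ⟨σ, he⟩) _ _)
          fun σ => S2_av (by omega) i h hv hu γ σ
      have h1 := S2_Bd (by omega) i h (Function.update h u γ) u hu hz
      have h2 := S2_Bd (by omega) i (Function.update h u γ) h u hu fun v hv hn => (hz v hv hn).symm
      have h1' : ((Bd i h).card : ℝ) ≤ (Bd i (Function.update h u γ)).card + 2 * d := by exact_mod_cast h1
      have h2' : ((Bd i (Function.update h u γ)).card : ℝ) ≤ (Bd i h).card + 2 * d := by exact_mod_cast h2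
      have h3 : 2 * (d : ℝ) ≤ (d : ℝ) ^ 2 := by nlinarith
      show |((Bd i (Function.update h u γ)).card : ℝ) - ((Bd i h).card : ℝ)| ≤ (d : ℝ) ^ 2
      rw [abs_le]
      constructor <;> linarith)
  have h2 : WOPi ε (fun _ _ _ => Bool) fun d k q i f => ((Bd i f).card : ℝ) ≤ NN d k / (d : ℝ) ^ K := by
    refine WOPi.mono hw ((htail.and ((EvT_reg hε hε1 2).and (EvT_d hexp))).mono ?_)
    rintro d k q ⟨ht, ⟨hd2, -, hk2, -⟩, he⟩ i f hf hP
    have hd : 2 ≤ d := by exact_mod_cast hd2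
    have hk : 2 ≤ k := by exact_mod_cast hk2
    have hd0 : (0 : ℝ) < d := by linarith
    have hN : 0 < NN d k := by unfold NN; positivity
    have hPrp : Prp f := (mem_filter.1 hf).2
    have h3 := hP trivial
    have h4 : fm (!i) (fun f => ((Bd i f).card : ℝ)) f ≤ NN d k / 2 * (1 / (d : ℝ) ^ K) := by
      have h5 : (fun h : Site d k → Fin q => ((Bd i h).card : ℝ)) =
          fun h => ∑ v ∈ cls i d k, if (Vn h v : ℝ) < q * (4 : ℝ) ^ (-ra d q) / 2 then (1 : ℝ) else 0 := by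
        funext h
        unfold Bd
        rw [card_filter, Nat.cast_sum]
        refine sum_congr rfl fun v _ => ?_
        split_ifs <;> simp
      rw [h5, fm_sum]
      calc ∑ v ∈ cls i d k, fm (!i) (fun h => if (Vn h v : ℝ) < q * (4 : ℝ) ^ (-ra d q) / 2 then (1 : ℝ) else 0) f
          ≤ ∑ _v ∈ cls i d k, 1 / (d : ℝ) ^ K :=
            sum_le_sum fun v hv => (ht i f hf v hv).trans he
        _ = NN d k / 2 * (1 / (d : ℝ) ^ K) := by
            rw [sum_const, nsmul_eq_mul, card_cls (by omega) (by omega) i]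
    have h6 : NN d k / (d : ℝ) ^ (K + 1) ≤ NN d k / 2 * (1 / (d : ℝ) ^ K) := by
      rw [show NN d k / 2 * (1 / (d : ℝ) ^ K) = NN d k / (2 * (d : ℝ) ^ K) by
        field_simp, pow_succ]
      refine div_le_div_of_nonneg_left hN.le (by positivity) ?_
      have h8 : (0 : ℝ) < (d : ℝ) ^ K := by positivity
      nlinarith
    have h7 : NN d k / (d : ℝ) ^ K = NN d k / 2 * (1 / (d : ℝ) ^ K) + NN d k / 2 * (1 / (d : ℝ) ^ K) := by
      ring
    show ((Bd i f).card : ℝ) ≤ NN d k / (d : ℝ) ^ K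
    rw [h7]
    linarith
  exact WOPi.all h2 (fun _ _ => 2) fun _ _ _ => by simp

end Pool.Agent.THR

end
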