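import Pool.Agent.Lib_MP_2c424f_ms.M06
import Pool.Agent.Lib_MP_2c424f_ms.M11
import Pool.Agent.Lib_MP_2c424f_ms.M23
import Pool.Agent.Lib_MP_2c424f_ms.M25

/-!
# MP_2c424f_pr: library of SharpThreshold and BoundaryThreshold (merged): merged library part M26

Concatenation of smaller files (each in its own section), only to save build time.
-/

namespace Pool.Agent.LO
end Pool.Agent.LO

namespace Pool.Agent.LIN
end Pool.Agent.LIN

/-! ### from `Lib_MP_2c424f_lo.RP` -/

section

/-!
# Reflection positivity (piece RP)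

Planes: the sites with `x j = 2 α` and `x j = 2 α + 2^k` (fixed points of `rs j α`).  Left closed half:
`(x j - 2 α).val ≤ 2^k`; right closed half: `x j = 2 α` or `2^k ≤ (x j - 2 α).val`.  A colouring `f` is
the gluing of two `rs`-symmetric colourings `f₁` (equal to `f` on the left half), `f₂` (on the right half)
which agree on the planes.  So `cE E Γ = ∑_h A h * B h` over the colourings `h` of the planes, with
`∑ A^2 = cE E (syL Γ)`, `∑ B^2 = cE E (syR Γ)`.
-/

set_option autoImplicit false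

open Finset

namespace Pool.Agent.LO

variable {d k q : ℕ}

/-- the distance from the first plane -/
private def rpV (j : Fin d) (α : ZMod (2 ^ k)) (x : Site d (k + 1)) : ℕ :=
  (x j - ((2 * α.val : ℕ) : ZMod (2 ^ (k + 1)))).val

private def rpL (j : Fin d) (α : ZMod (2 ^ k)) (x : Site d (k + 1)) : Prop := rpV j α x ≤ 2 ^ k
private def rpR (j : Fin d) (α : ZMod (2 ^ k)) (x : Site d (k + 1)) : Prop :=
  rpV j α x = 0 ∨ 2 ^ k ≤ rpV j α x

private theorem rpV_lt (j : Fin d) (α : ZMod (2 ^ k)) (x : Site d (k + 1)) :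
    rpV j α x < 2 ^ (k + 1) := ZMod.val_lt _

private theorem rp_or (j : Fin d) (α : ZMod (2 ^ k)) (x : Site d (k + 1)) :
    rpL j α x ∨ rpR j α x := by
  unfold rpL rpR
  omega

private theorem rpV_rs (hk : 1 ≤ k) (j : Fin d) (α : ZMod (2 ^ k)) (x : Site d (k + 1)) :
    rpV j α (rs j α x) = if rpV j α x = 0 then 0 else 2 ^ (k + 1) - rpV j α x :=
  rs_half hk j α x

private theorem rpL_rs (hk : 1 ≤ k) (j : Fin d) (α : ZMod (2 ^ k)) (x : Site d (k + 1))
    (h : rpR j α x) : rpL j α (rs j α x) := by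
  unfold rpL
  unfold rpR at h
  rw [rpV_rs hk]
  have h1 := rpV_lt j α x
  rw [pow_succ] at h1 ⊢
  split_ifs <;> omega

private theorem rpR_rs (hk : 1 ≤ k) (j : Fin d) (α : ZMod (2 ^ k)) (x : Site d (k + 1))
    (h : rpL j α x) : rpR j α (rs j α x) := by
  unfold rpR
  unfold rpL at h
  rw [rpV_rs hk]
  have h1 := rpV_lt j α x
  rw [pow_succ] at h1 ⊢
  split_ifs <;> omega

private theorem rp_fix (hk : 1 ≤ k) (j : Fin d) (α : ZMod (2 ^ k)) (x : Site d (k + 1))
    (h : rpL j α x) (h' : rpR j α x) : rs j α x = x := by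
  have h1 : rpV j α (rs j α x) = rpV j α x := by
    rw [rpV_rs hk]
    unfold rpL at h
    unfold rpR at h'
    have h2 : 2 ^ (k + 1) = 2 * 2 ^ k := by rw [pow_succ]; ring
    rw [h2]
    split_ifs <;> omega
  have h2 : (rs j α x) j = x j := by
    have := ZMod.val_injective (2 ^ (k + 1)) h1
    exact sub_left_injective this
  funext i
  by_cases hij : i = j
  · subst hij; exact h2
  · unfold rs
    rw [Function.update_of_ne hij]

open scoped Classical in
/-- symmetrisation of the left half -/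
private noncomputable def syfL (j : Fin d) (α : ZMod (2 ^ k)) (f : Site d (k + 1) → Fin q) :
    Site d (k + 1) → Fin q := fun x => if rpL j α x then f x else f (rs j α x)

open scoped Classical in
/-- symmetrisation of the right half -/
private noncomputable def syfR (j : Fin d) (α : ZMod (2 ^ k)) (f : Site d (k + 1) → Fin q) :
    Site d (k + 1) → Fin q := fun x => if rpR j α x then f x else f (rs j α x)

private theorem syfL_of_L {j : Fin d} {α : ZMod (2 ^ k)} {f : Site d (k + 1) → Fin q}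
    {x : Site d (k + 1)} (h : rpL j α x) : syfL j α f x = f x := if_pos h

private theorem syfR_of_R {j : Fin d} {α : ZMod (2 ^ k)} {f : Site d (k + 1) → Fin q}
    {x : Site d (k + 1)} (h : rpR j α x) : syfR j α f x = f x := if_pos h

private theorem syfL_of_R (hk : 1 ≤ k) {j : Fin d} {α : ZMod (2 ^ k)}
    {f : Site d (k + 1) → Fin q} {x : Site d (k + 1)} (h : rpR j α x) :
    syfL j α f x = f (rs j α x) := by
  by_cases hL : rpL j α x
  · rw [syfL_of_L hL, rp_fix hk j α x hL h]
  · exact if_neg hL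

private theorem syfR_of_L (hk : 1 ≤ k) {j : Fin d} {α : ZMod (2 ^ k)}
    {f : Site d (k + 1) → Fin q} {x : Site d (k + 1)} (h : rpL j α x) :
    syfR j α f x = f (rs j α x) := by
  by_cases hR : rpR j α x
  · rw [syfR_of_R hR, rp_fix hk j α x h hR]
  · exact if_neg hR

private theorem syfL_sym (hk : 1 ≤ k) (j : Fin d) (α : ZMod (2 ^ k))
    (f : Site d (k + 1) → Fin q) (x : Site d (k + 1)) :
    syfL j α f (rs j α x) = syfL j α f x := by
  rcases rp_or j α x with h | h
  · rw [syfL_of_R hk (rpR_rs hk j α x h), rs_rs, syfL_of_L h]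
  · rw [syfL_of_R hk h, syfL_of_L (rpL_rs hk j α x h)]

private theorem syfR_sym (hk : 1 ≤ k) (j : Fin d) (α : ZMod (2 ^ k))
    (f : Site d (k + 1) → Fin q) (x : Site d (k + 1)) :
    syfR j α f (rs j α x) = syfR j α f x := by
  rcases rp_or j α x with h | h
  · rw [syfR_of_L hk h, syfR_of_R (rpR_rs hk j α x h)]
  · rw [syfR_of_L hk (rpL_rs hk j α x h), rs_rs, syfR_of_R h]

private theorem rp_step (hk : 1 ≤ k) (j : Fin d) (α : ZMod (2 ^ k)) (x : Site d (k + 1))
    (σ : Stp d) : (rpL j α x ∧ rpL j α (x + sv σ)) ∨ (rpR j α x ∧ rpR j α (x + sv σ)) :=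
  step_half hk j α x σ

private theorem rp_rs_ne {j : Fin d} {α : ZMod (2 ^ k)} {f : Site d (k + 1) → Fin q}
    (hf : Prp f) (x : Site d (k + 1)) (σ : Stp d) :
    f (rs j α (x + sv σ)) ≠ f (rs j α x) := by
  obtain ⟨i, β⟩ := σ
  rw [rs_step]
  exact hf _ _

private theorem syfL_prp (hk : 1 ≤ k) (j : Fin d) (α : ZMod (2 ^ k))
    {f : Site d (k + 1) → Fin q} (hf : Prp f) : Prp (syfL j α f) := by
  intro x σ
  rcases rp_step hk j α x σ with ⟨h, h'⟩ | ⟨h, h'⟩
  · rw [syfL_of_L h, syfL_of_L h']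
    exact hf x σ
  · rw [syfL_of_R hk h, syfL_of_R hk h']
    exact rp_rs_ne hf x σ

private theorem syfR_prp (hk : 1 ≤ k) (j : Fin d) (α : ZMod (2 ^ k))
    {f : Site d (k + 1) → Fin q} (hf : Prp f) : Prp (syfR j α f) := by
  intro x σ
  rcases rp_step hk j α x σ with ⟨h, h'⟩ | ⟨h, h'⟩
  · rw [syfR_of_L hk h, syfR_of_L hk h']
    exact rp_rs_ne hf x σ
  · rw [syfR_of_R h, syfR_of_R h']
    exact hf x σ

open scoped Classical in
/-- gluing -/
private noncomputable def rpG (j : Fin d) (α : ZMod (2 ^ k)) (f g : Site d (k + 1) → Fin q) :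
    Site d (k + 1) → Fin q := fun x => if rpL j α x then f x else g x

/-- the sites of the planes -/
private abbrev RpP (j : Fin d) (α : ZMod (2 ^ k)) : Type :=
  {x : Site d (k + 1) // rpL j α x ∧ rpR j α x}

/-- restriction to the planes -/
private def rpRes (j : Fin d) (α : ZMod (2 ^ k)) (f : Site d (k + 1) → Fin q) :
    RpP j α → Fin q := fun x => f x.1

private theorem rpG_of_L {j : Fin d} {α : ZMod (2 ^ k)} {f g : Site d (k + 1) → Fin q}
    {x : Site d (k + 1)} (h : rpL j α x) : rpG j α f g x = f x := if_pos h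

private theorem rpG_of_R {j : Fin d} {α : ZMod (2 ^ k)} {f g : Site d (k + 1) → Fin q}
    (hfg : rpRes j α f = rpRes j α g) {x : Site d (k + 1)} (h : rpR j α x) :
    rpG j α f g x = g x := by
  by_cases hL : rpL j α x
  · rw [rpG_of_L hL]
    exact congrFun hfg ⟨x, hL, h⟩
  · exact if_neg hL

private theorem rpG_prp (hk : 1 ≤ k) {j : Fin d} {α : ZMod (2 ^ k)}
    {f g : Site d (k + 1) → Fin q} (hf : Prp f) (hg : Prp g)
    (hfg : rpRes j α f = rpRes j α g) : Prp (rpG j α f g) := by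
  intro x σ
  rcases rp_step hk j α x σ with ⟨h, h'⟩ | ⟨h, h'⟩
  · rw [rpG_of_L h, rpG_of_L h']
    exact hf x σ
  · rw [rpG_of_R hfg h, rpG_of_R hfg h']
    exact hg x σ

private theorem syfL_rpG (hk : 1 ≤ k) {j : Fin d} {α : ZMod (2 ^ k)}
    {f g : Site d (k + 1) → Fin q} (hf : ∀ x, f (rs j α x) = f x) :
    syfL j α (rpG j α f g) = f := by
  funext x
  rcases rp_or j α x with h | h
  · rw [syfL_of_L h, rpG_of_L h]
  · rw [syfL_of_R hk h, rpG_of_L (rpL_rs hk j α x h), hf]

private theorem syfR_rpG (hk : 1 ≤ k) {j : Fin d} {α : ZMod (2 ^ k)}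
    {f g : Site d (k + 1) → Fin q} (hg : ∀ x, g (rs j α x) = g x)
    (hfg : rpRes j α f = rpRes j α g) :
    syfR j α (rpG j α f g) = g := by
  funext x
  rcases rp_or j α x with h | h
  · rw [syfR_of_L hk h, rpG_of_R hfg (rpR_rs hk j α x h), hg]
  · rw [syfR_of_R h, rpG_of_R hfg h]

private theorem rpG_syf {j : Fin d} {α : ZMod (2 ^ k)} (f : Site d (k + 1) → Fin q) :
    rpG j α (syfL j α f) (syfR j α f) = f := by
  funext x
  by_cases h : rpL j α x
  · rw [rpG_of_L h, syfL_of_L h]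
  · have h' : rpR j α x := (rp_or j α x).resolve_left h
    have : rpG j α (syfL j α f) (syfR j α f) x = syfR j α f x := if_neg h
    rw [this, syfR_of_R h']

open scoped Classical in
/-- symmetric proper colourings -/
private noncomputable def rpS (q : ℕ) (j : Fin d) (α : ZMod (2 ^ k)) :
    Finset (Site d (k + 1) → Fin q) :=
  (prps d (k + 1) q).filter fun f => ∀ x, f (rs j α x) = f x

open scoped Classical in
private theorem rp_key (hk : 1 ≤ k) (j : Fin d) (α : ZMod (2 ^ k))
    (G₁ G₂ : (Site d (k + 1) → Fin q) → Prop) :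
    ((prps d (k + 1) q).filter fun f => G₁ (syfL j α f) ∧ G₂ (syfR j α f)).card =
      ∑ h : RpP j α → Fin q, ((rpS q j α).filter fun f => G₁ f ∧ rpRes j α f = h).card *
        ((rpS q j α).filter fun f => G₂ f ∧ rpRes j α f = h).card := by
  have h1 : ((prps d (k + 1) q).filter fun f => G₁ (syfL j α f) ∧ G₂ (syfR j α f)).card =
      (((rpS q j α) ×ˢ (rpS q j α)).filter fun p =>
        (G₁ p.1 ∧ G₂ p.2) ∧ rpRes j α p.1 = rpRes j α p.2).card := by
    apply Finset.card_nbij' (fun f => (syfL j α f, syfR j α f)) (fun p => rpG j α p.1 p.2)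
    · intro f hf
      rw [mem_coe, mem_filter] at hf
      obtain ⟨hf1, hf2, hf3⟩ := hf
      have hp : Prp f := (mem_filter.1 hf1).2
      rw [mem_coe, mem_filter, mem_product]
      refine ⟨⟨?_, ?_⟩, ⟨hf2, hf3⟩, ?_⟩
      · exact mem_filter.2 ⟨mem_filter.2 ⟨mem_univ _, syfL_prp hk j α hp⟩, syfL_sym hk j α f⟩
      · exact mem_filter.2 ⟨mem_filter.2 ⟨mem_univ _, syfR_prp hk j α hp⟩, syfR_sym hk j α f⟩
      · funext x
        show syfL j α f x.1 = syfR j α f x.1
        rw [syfL_of_L x.2.1, syfR_of_R x.2.2]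
    · intro p hp
      rw [mem_coe, mem_filter, mem_product] at hp
      obtain ⟨⟨hp1, hp2⟩, ⟨hp3, hp4⟩, hp5⟩ := hp
      have h1 := mem_filter.1 hp1
      have h2 := mem_filter.1 hp2
      have h1' : Prp p.1 := (mem_filter.1 h1.1).2
      have h2' : Prp p.2 := (mem_filter.1 h2.1).2
      rw [mem_coe, mem_filter]
      refine ⟨mem_filter.2 ⟨mem_univ _, rpG_prp hk h1' h2' hp5⟩, ?_, ?_⟩
      · rw [syfL_rpG hk h1.2]; exact hp3
      · rw [syfR_rpG hk h2.2 hp5]; exact hp4
    · intro f _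
      exact rpG_syf f
    · intro p hp
      rw [mem_coe, mem_filter, mem_product] at hp
      obtain ⟨⟨hp1, hp2⟩, ⟨hp3, hp4⟩, hp5⟩ := hp
      have h1 := mem_filter.1 hp1
      have h2 := mem_filter.1 hp2
      exact Prod.ext (syfL_rpG hk h1.2) (syfR_rpG hk h2.2 hp5)
  rw [h1, Finset.card_eq_sum_card_fiberwise (f := fun p => rpRes j α p.1)
    (t := (univ : Finset (RpP j α → Fin q))) (fun _ _ => mem_coe.2 (mem_univ _))]
  apply Finset.sum_congr rfl
  intro h _
  rw [← Finset.card_product]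
  congr 1
  ext p
  simp only [mem_filter, mem_product]
  constructor
  · rintro ⟨⟨⟨h1, h2⟩, ⟨h3, h4⟩, h5⟩, h6⟩
    exact ⟨⟨h1, h3, h6⟩, ⟨h2, h4, by rw [← h5]; exact h6⟩⟩
  · rintro ⟨⟨h1, h3, h6⟩, ⟨h2, h4, h7⟩⟩
    exact ⟨⟨⟨h1, h2⟩, ⟨h3, h4⟩, by rw [h6, h7]⟩, h6⟩

open scoped Classical in
/-- the counts of the fibres -/
private noncomputable def rpA (j : Fin d) (α : ZMod (2 ^ k))
    (G : (Site d (k + 1) → Fin q) → Prop) (h : RpP j α → Fin q) : ℝ :=
  (((rpS q j α).filter fun f => G f ∧ rpRes j α f = h).card : ℝ)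

open scoped Classical in
private theorem rp_key2 (hk : 1 ≤ k) (E : Blk d k → (Site d (k + 1) → Fin q) → Prop)
    (j : Fin d) (α : ZMod (2 ^ k)) (Γ' : Finset (Blk d k))
    (G G' : (Site d (k + 1) → Fin q) → Prop)
    (h : ∀ f, (∀ t ∈ Γ', E t f) ↔ G (syfL j α f) ∧ G' (syfR j α f)) :
    cE E Γ' = ∑ h : RpP j α → Fin q, rpA j α G h * rpA j α G' h := by
  have h1 := rp_key hk j α G G'
  unfold cE
  have h2 : ((prps d (k + 1) q).filter fun f => ∀ t ∈ Γ', E t f) =
      ((prps d (k + 1) q).filter fun f => G (syfL j α f) ∧ G' (syfR j α f)) := by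
    apply Finset.filter_congr
    intro f _
    exact h f
  rw [h2, h1]
  push_cast
  rfl

open scoped Classical in
theorem rp (hk : 1 ≤ k) (E : Blk d k → (Site d (k + 1) → Fin q) → Prop)
    (hloc : ∀ t f g, (∀ a b, f (pt t a b) = g (pt t a b)) → E t f → E t g)
    (hsym : ∀ j α t f, E t f → E (rb j α t) (fun x => f (rs j α x)))
    (j : Fin d) (α : ZMod (2 ^ k)) (Γ : Finset (Blk d k)) :
    cE E Γ ^ 2 ≤ cE E (syL j α Γ) * cE E (syR j α Γ) := by
  set G₁ : (Site d (k + 1) → Fin q) → Prop := fun f => ∀ t ∈ Γ, lft j α t → E t f with hG₁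
  set G₂ : (Site d (k + 1) → Fin q) → Prop := fun f => ∀ t ∈ Γ, ¬ lft j α t → E t f with hG₂
  -- locality
  have hL : ∀ t f, lft j α t → (E t f ↔ E t (syfL j α f)) := by
    intro t f ht
    have h1 : ∀ a b, f (pt t a b) = syfL j α f (pt t a b) := fun a b =>
      (syfL_of_L ((pt_half hk j α t a b).1 ht)).symm
    exact ⟨hloc t _ _ h1, hloc t _ _ fun a b => (h1 a b).symm⟩
  have hR : ∀ t f, ¬ lft j α t → (E t f ↔ E t (syfR j α f)) := by
    intro t f ht
    have h1 : ∀ a b, f (pt t a b) = syfR j α f (pt t a b) := fun a b =>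
      (syfR_of_R ((pt_half hk j α t a b).2 ht)).symm
    exact ⟨hloc t _ _ h1, hloc t _ _ fun a b => (h1 a b).symm⟩
  -- reflection of events of symmetric colourings
  have hS : ∀ t (g : Site d (k + 1) → Fin q), (∀ x, g (rs j α x) = g x) →
      (E (rb j α t) g ↔ E t g) := by
    intro t g hg
    have hg' : (fun x => g (rs j α x)) = g := funext hg
    constructor
    · intro h
      have := hsym j α _ _ h
      rwa [hg', rb_rb] at this
    · intro h
      have := hsym j α _ _ h
      rwa [hg'] at this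
  have e0 := rp_key2 hk E j α Γ G₁ G₂ (by
    intro f
    constructor
    · intro h
      exact ⟨fun t ht hl => (hL t f hl).1 (h t ht), fun t ht hl => (hR t f hl).1 (h t ht)⟩
    · rintro ⟨h1, h2⟩ t ht
      by_cases hl : lft j α t
      · exact (hL t f hl).2 (h1 t ht hl)
      · exact (hR t f hl).2 (h2 t ht hl))
  have e1 := rp_key2 hk E j α (syL j α Γ) G₁ G₁ (by
    intro f
    constructor
    · intro h
      refine ⟨fun t ht hl => (hL t f hl).1 (h t ?_), fun t ht hl => ?_⟩
      · unfold syL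
        exact mem_union_left _ (mem_filter.2 ⟨ht, hl⟩)
      · have h1 : E (rb j α t) f := h _ (by
          unfold syL
          exact mem_union_right _ (mem_image.2 ⟨t, mem_filter.2 ⟨ht, hl⟩, rfl⟩))
        have h2 : ¬ lft j α (rb j α t) := by
          rw [lft_rb hk]; exact not_not.2 hl
        exact (hS t _ (syfR_sym hk j α f)).1 ((hR _ f h2).1 h1)
    · rintro ⟨h1, h2⟩ t ht
      unfold syL at ht
      rcases mem_union.1 ht with ht | ht
      · rw [mem_filter] at ht
        exact (hL t f ht.2).2 (h1 t ht.1 ht.2)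
      · obtain ⟨t', ht', rfl⟩ := mem_image.1 ht
        rw [mem_filter] at ht'
        have h3 : ¬ lft j α (rb j α t') := by
          rw [lft_rb hk]; exact not_not.2 ht'.2
        exact (hR _ f h3).2 ((hS t' _ (syfR_sym hk j α f)).2 (h2 t' ht'.1 ht'.2)))
  have e2 := rp_key2 hk E j α (syR j α Γ) G₂ G₂ (by
    intro f
    constructor
    · intro h
      refine ⟨fun t ht hl => ?_, fun t ht hl => (hR t f hl).1 (h t ?_)⟩
      · have h1 : E (rb j α t) f := h _ (by
          unfold syR
          exact mem_union_right _ (mem_image.2 ⟨t, mem_filter.2 ⟨ht, hl⟩, rfl⟩))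
        have h2 : lft j α (rb j α t) := by
          rw [lft_rb hk]; exact hl
        exact (hS t _ (syfL_sym hk j α f)).1 ((hL _ f h2).1 h1)
      · unfold syR
        exact mem_union_left _ (mem_filter.2 ⟨ht, hl⟩)
    · rintro ⟨h1, h2⟩ t ht
      unfold syR at ht
      rcases mem_union.1 ht with ht | ht
      · rw [mem_filter] at ht
        exact (hR t f ht.2).2 (h2 t ht.1 ht.2)
      · obtain ⟨t', ht', rfl⟩ := mem_image.1 ht
        rw [mem_filter] at ht'
        have h3 : lft j α (rb j α t') := by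
          rw [lft_rb hk]; exact ht'.2
        exact (hL _ f h3).2 ((hS t' _ (syfL_sym hk j α f)).2 (h1 t' ht'.1 ht'.2)))
  rw [e0, e1, e2]
  have hcs := Finset.sum_mul_sq_le_sq_mul_sq (univ : Finset (RpP j α → Fin q))
    (rpA j α G₁) (rpA j α G₂)
  have h1 : ∑ h : RpP j α → Fin q, rpA j α G₁ h * rpA j α G₁ h = ∑ h, rpA j α G₁ h ^ 2 :=
    Finset.sum_congr rfl fun _ _ => (sq _).symm
  have h2 : ∑ h : RpP j α → Fin q, rpA j α G₂ h * rpA j α G₂ h = ∑ h, rpA j α G₂ h ^ 2 :=
    Finset.sum_congr rfl fun _ _ => (sq _).symm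
  rw [h1, h2]
  exact hcs

end Pool.Agent.LO

end

/-! ### from `Lib_MP_2c424f_lo.Multi` -/

section

/-!
# Multiscale argument (piece MULTI)

Abstract: `Ω` a finite set of configurations, `Bad ω` a set of blocks, `lab ω t` a label.  A block is a
`0`-cube; an `(e+1)`-cube (aligned, inside `{0,…,2^k-1}^d`) consists of `2^d` `e`-cubes and is bad if at
least two of them are bad.  A bad `e`-cube contains a witness set of `2^e` bad blocks, at most
`4^(d (2^e - 1))` possible sets: probability at most `(4^d r)^(2^e)`.  A block is fine if all cubes which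
contain it are good.  Adjacent good `e`-cubes contain adjacent `e`-fine blocks (`2^(d-1) ≥ 3` pairs, at
most two spoiled), hence all `e`-fine blocks of a good `e`-cube have the same label (Hamming induction:
if two cells `≠ p` differ in at least two coordinates there is a cell `≠ p` in between).
-/

set_option autoImplicit false

open Finset

namespace Pool.Agent.LO

variable {d k : ℕ}

/-- next block in direction `j` -/
def nxt (t : Blk d k) (j : Fin d) : Blk d k := Function.update t j (t j + 1)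

/-! ### cells, natural coordinates -/

/-- the cell of level `e` containing the block `t` -/
private def multiUp (e : ℕ) (t : Fin d → ℕ) : Fin d → ℕ := fun i => t i / 2 ^ e

/-- bad cells -/
private def multiBc (B : (Fin d → ℕ) → Prop) : ℕ → (Fin d → ℕ) → Prop
  | 0, s => B s
  | e + 1, s => ∃ s1 s2, s1 ≠ s2 ∧ multiUp 1 s1 = s ∧ multiUp 1 s2 = s ∧
      multiBc B e s1 ∧ multiBc B e s2

/-- fine blocks -/
private def multiFine (B : (Fin d → ℕ) → Prop) (e : ℕ) (t : Fin d → ℕ) : Prop :=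
  ∀ e' ≤ e, ¬ multiBc B e' (multiUp e' t)

private theorem multi_up_zero (t : Fin d → ℕ) : multiUp 0 t = t := by
  funext i; simp [multiUp]

private theorem multi_up_succ (e : ℕ) (t : Fin d → ℕ) : multiUp (e + 1) t = multiUp 1 (multiUp e t) := by
  funext i
  simp only [multiUp, pow_one]
  rw [Nat.div_div_eq_div_mul, pow_succ]

private theorem multi_fine_succ (B : (Fin d → ℕ) → Prop) (e : ℕ) (t : Fin d → ℕ)
    (h : multiFine B e t) (h' : ¬ multiBc B (e + 1) (multiUp (e + 1) t)) : multiFine B (e + 1) t := by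
  intro e' he'
  rcases Nat.lt_or_ge e' (e + 1) with h1 | h1
  · exact h e' (by omega)
  · have : e' = e + 1 := by omega
    subst this
    exact h'

private theorem multi_fine_mono (B : (Fin d → ℕ) → Prop) (e : ℕ) (t : Fin d → ℕ)
    (h : multiFine B (e + 1) t) : multiFine B e t := fun e' he' => h e' (by omega)

private theorem multi_pig (P0 P1 P2 Q0 Q1 Q2 : Prop) (a : ¬ (P0 ∧ P1)) (b : ¬ (P0 ∧ P2))
    (c : ¬ (P1 ∧ P2)) (a' : ¬ (Q0 ∧ Q1)) (b' : ¬ (Q0 ∧ Q2)) (c' : ¬ (Q1 ∧ Q2)) :
    (¬ P0 ∧ ¬ Q0) ∨ (¬ P1 ∧ ¬ Q1) ∨ (¬ P2 ∧ ¬ Q2) := by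
  by_cases h0 : P0
  · have h1 : ¬ P1 := fun h => a ⟨h0, h⟩
    have h2 : ¬ P2 := fun h => b ⟨h0, h⟩
    by_cases h3 : Q1
    · exact Or.inr (Or.inr ⟨h2, fun h => c' ⟨h3, h⟩⟩)
    · exact Or.inr (Or.inl ⟨h1, h3⟩)
  · by_cases h3 : Q0
    · have h1 : ¬ Q1 := fun h => a' ⟨h3, h⟩
      have h2 : ¬ Q2 := fun h => b' ⟨h3, h⟩
      by_cases h4 : P1
      · exact Or.inr (Or.inr ⟨fun h => c ⟨h4, h⟩, h2⟩)
      · exact Or.inr (Or.inl ⟨h4, h1⟩)
    · exact Or.inl ⟨h0, h3⟩

/-- adjacent good cells contain adjacent fine blocks -/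
private theorem multi_adj (hd : 3 ≤ d) (B : (Fin d → ℕ) → Prop) (j : Fin d) (e : ℕ) :
    ∀ p : Fin d → ℕ, ¬ multiBc B e p → ¬ multiBc B e (Function.update p j (p j + 1)) →
    ∃ t : Fin d → ℕ, multiUp e t = p ∧ multiFine B e t ∧
      multiUp e (Function.update t j (t j + 1)) = Function.update p j (p j + 1) ∧
      multiFine B e (Function.update t j (t j + 1)) := by
  induction e with
  | zero =>
    intro p hp hp'
    refine ⟨p, multi_up_zero p, ?_, multi_up_zero _, ?_⟩
    · intro e' he'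
      have : e' = 0 := by omega
      subst this
      rw [multi_up_zero]; exact hp
    · intro e' he'
      have : e' = 0 := by omega
      subst this
      rw [multi_up_zero]; exact hp'
  | succ e ih =>
    intro p hp hp'
    -- two other coordinates
    have hi : ∃ i1 i2 : Fin d, i1 ≠ j ∧ i2 ≠ j ∧ i1 ≠ i2 := by
      have hc : 1 < ((Finset.univ : Finset (Fin d)).erase j).card := by
        rw [Finset.card_erase_of_mem (Finset.mem_univ _), Finset.card_univ, Fintype.card_fin]
        omega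
      obtain ⟨i1, h1, i2, h2, h12⟩ := Finset.one_lt_card.1 hc
      exact ⟨i1, i2, Finset.ne_of_mem_erase h1, Finset.ne_of_mem_erase h2, h12⟩
    obtain ⟨i1, i2, hi1, hi2, hi12⟩ := hi
    set q0 : Fin d → ℕ := Function.update (fun i => 2 * p i) j (2 * p j + 1) with hq0
    set nx : (Fin d → ℕ) → (Fin d → ℕ) := fun q => Function.update q j (q j + 1) with hnx
    set q1 : Fin d → ℕ := Function.update q0 i1 (2 * p i1 + 1) with hq1
    set q2 : Fin d → ℕ := Function.update q0 i2 (2 * p i2 + 1) with hq2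
    have fam : ∀ q : Fin d → ℕ, q j = 2 * p j + 1 → (∀ i, i ≠ j → q i = 2 * p i ∨ q i = 2 * p i + 1) →
        multiUp 1 q = p ∧ multiUp 1 (nx q) = Function.update p j (p j + 1) := by
      intro q hqj hq
      constructor
      · funext i
        by_cases hij : i = j
        · subst hij
          simp only [multiUp, pow_one, hqj]; omega
        · rcases hq i hij with h | h <;> simp only [multiUp, pow_one, h] <;> omega
      · funext i
        by_cases hij : i = j
        · subst hij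
          simp only [multiUp, pow_one, hnx, Function.update_self, hqj]; omega
        · simp only [multiUp, pow_one, hnx, Function.update_of_ne hij]
          rcases hq i hij with h | h <;> rw [h] <;> omega
    have e0j : q0 j = 2 * p j + 1 := by simp [hq0]
    have e0 : ∀ i, i ≠ j → q0 i = 2 * p i := by
      intro i hij
      simp [hq0, Function.update_of_ne hij]
    have f0 := fam q0 e0j fun i hij => Or.inl (e0 i hij)
    have e1j : q1 j = 2 * p j + 1 := by
      simp only [hq1]
      rw [Function.update_of_ne hi1.symm, e0j]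
    have f1 := fam q1 e1j (by
      intro i hij
      by_cases h : i = i1
      · subst h; right; simp [hq1]
      · left
        simp only [hq1]
        rw [Function.update_of_ne h, e0 i hij])
    have e2j : q2 j = 2 * p j + 1 := by
      simp only [hq2]
      rw [Function.update_of_ne hi2.symm, e0j]
    have f2 := fam q2 e2j (by
      intro i hij
      by_cases h : i = i2
      · subst h; right; simp [hq2]
      · left
        simp only [hq2]
        rw [Function.update_of_ne h, e0 i hij])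
    have a0 : q0 i1 = 2 * p i1 := e0 i1 hi1
    have a0' : q0 i2 = 2 * p i2 := e0 i2 hi2
    have a1 : q1 i1 = 2 * p i1 + 1 := by simp [hq1]
    have a2 : q2 i2 = 2 * p i2 + 1 := by simp [hq2]
    have a1' : q1 i2 = 2 * p i2 := by
      simp only [hq1]
      rw [Function.update_of_ne hi12.symm, a0']
    have n01 : q0 ≠ q1 := by
      intro h
      have := congrFun h i1
      omega
    have n02 : q0 ≠ q2 := by
      intro h
      have := congrFun h i2
      omega
    have n12 : q1 ≠ q2 := by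
      intro h
      have := congrFun h i2
      omega
    have hnxinj : ∀ q q', nx q = nx q' → q = q' := by
      intro q q' h
      funext i
      by_cases hij : i = j
      · subst hij
        have := congrFun h i
        simp only [hnx, Function.update_self] at this
        omega
      · have := congrFun h i
        simpa only [hnx, Function.update_of_ne hij] using this
    have two : ∀ q q', q ≠ q' → multiUp 1 q = p → multiUp 1 q' = p →
        ¬ (multiBc B e q ∧ multiBc B e q') := fun q q' hne h h' hb => hp ⟨q, q', hne, h, h', hb.1, hb.2⟩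
    have two' : ∀ q q', q ≠ q' → multiUp 1 (nx q) = Function.update p j (p j + 1) →
        multiUp 1 (nx q') = Function.update p j (p j + 1) →
        ¬ (multiBc B e (nx q) ∧ multiBc B e (nx q')) := fun q q' hne h h' hb =>
      hp' ⟨nx q, nx q', fun hc => hne (hnxinj q q' hc), h, h', hb.1, hb.2⟩
    have hex : ∃ q : Fin d → ℕ, ¬ multiBc B e q ∧ ¬ multiBc B e (nx q) ∧
        multiUp 1 q = p ∧ multiUp 1 (nx q) = Function.update p j (p j + 1) := by
      have t01 := two q0 q1 n01 f0.1 f1.1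
      have t02 := two q0 q2 n02 f0.1 f2.1
      have t12 := two q1 q2 n12 f1.1 f2.1
      have t01' := two' q0 q1 n01 f0.2 f1.2
      have t02' := two' q0 q2 n02 f0.2 f2.2
      have t12' := two' q1 q2 n12 f1.2 f2.2
      rcases multi_pig _ _ _ _ _ _ t01 t02 t12 t01' t02' t12' with h | h | h
      · exact ⟨q0, h.1, h.2, f0.1, f0.2⟩
      · exact ⟨q1, h.1, h.2, f1.1, f1.2⟩
      · exact ⟨q2, h.1, h.2, f2.1, f2.2⟩
    obtain ⟨q, hq1', hq2', hq3, hq4⟩ := hex
    obtain ⟨t, ht1, ht2, ht3, ht4⟩ := ih q hq1' hq2'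
    refine ⟨t, ?_, ?_, ?_, ?_⟩
    · rw [multi_up_succ, ht1, hq3]
    · refine multi_fine_succ B e t ht2 ?_
      rw [multi_up_succ, ht1, hq3]; exact hp
    · rw [multi_up_succ, ht3]; exact hq4
    · refine multi_fine_succ B e _ ht4 ?_
      rw [multi_up_succ, ht3]
      have : multiUp 1 (Function.update q j (q j + 1)) = Function.update p j (p j + 1) := hq4
      rw [this]; exact hp'

/-- good cells contain fine blocks -/
private theorem multi_exists (hd : 3 ≤ d) (B : (Fin d → ℕ) → Prop) (e : ℕ) :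
    ∀ p : Fin d → ℕ, ¬ multiBc B e p → ∃ t : Fin d → ℕ, multiUp e t = p ∧ multiFine B e t := by
  induction e with
  | zero =>
    intro p hp
    refine ⟨p, multi_up_zero p, ?_⟩
    intro e' he'
    have : e' = 0 := by omega
    subst this
    rw [multi_up_zero]; exact hp
  | succ e ih =>
    intro p hp
    set q0 : Fin d → ℕ := fun i => 2 * p i with hq0
    set j : Fin d := ⟨0, by omega⟩ with hj
    set q1 : Fin d → ℕ := Function.update q0 j (2 * p j + 1) with hq1
    have h0 : multiUp 1 q0 = p := by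
      funext i
      simp [multiUp, hq0]
    have h1 : multiUp 1 q1 = p := by
      funext i
      by_cases hij : i = j
      · subst hij
        simp only [multiUp, pow_one, hq1, Function.update_self]; omega
      · simp only [multiUp, pow_one, hq1, Function.update_of_ne hij, hq0]; omega
    have hne : q0 ≠ q1 := by
      intro h
      have := congrFun h j
      simp only [hq1, Function.update_self, hq0] at this
      omega
    have hq : ∃ q, ¬ multiBc B e q ∧ multiUp 1 q = p := by
      by_cases b0 : multiBc B e q0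
      · by_cases b1 : multiBc B e q1
        · exact absurd ⟨q0, q1, hne, h0, h1, b0, b1⟩ hp
        · exact ⟨q1, b1, h1⟩
      · exact ⟨q0, b0, h0⟩
    obtain ⟨q, hqb, hqp⟩ := hq
    obtain ⟨t, ht1, ht2⟩ := ih q hqb
    refine ⟨t, ?_, ?_⟩
    · rw [multi_up_succ, ht1, hqp]
    · refine multi_fine_succ B e t ht2 ?_
      rw [multi_up_succ, ht1, hqp]; exact hp

/-- fine blocks of a cell have the same label -/
private theorem multi_label (hd : 3 ≤ d) (B L : (Fin d → ℕ) → Prop)
    (h2 : ∀ s : Fin d → ℕ, (∀ i, s i < 2 ^ k) → ∀ j, s j + 1 < 2 ^ k → ¬ B s →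
      ¬ B (Function.update s j (s j + 1)) → (L s ↔ L (Function.update s j (s j + 1)))) (e : ℕ) :
    ∀ s : Fin d → ℕ, (∀ i, (s i + 1) * 2 ^ e ≤ 2 ^ k) → ∀ t t', multiUp e t = s → multiUp e t' = s →
      multiFine B e t → multiFine B e t' → (L t ↔ L t') := by
  induction e with
  | zero =>
    intro s _ t t' ht ht' _ _
    rw [multi_up_zero] at ht ht'
    rw [ht, ht']
  | succ e ih =>
    intro s hs t t' ht ht' hf hf'
    have hsb : ¬ multiBc B (e + 1) s := by
      have := hf (e + 1) le_rfl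
      rwa [ht] at this
    -- subcells are inside the box
    have hbox : ∀ q : Fin d → ℕ, multiUp 1 q = s → ∀ i, (q i + 1) * 2 ^ e ≤ 2 ^ k := by
      intro q hq i
      have h1 : q i / 2 = s i := by
        have := congrFun hq i
        simpa [multiUp] using this
      have h3 : q i + 1 ≤ (s i + 1) * 2 := by omega
      calc (q i + 1) * 2 ^ e ≤ ((s i + 1) * 2) * 2 ^ e := Nat.mul_le_mul_right _ h3
        _ = (s i + 1) * 2 ^ (e + 1) := by rw [pow_succ]; ring
        _ ≤ 2 ^ k := hs i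
    have hin : ∀ (q u : Fin d → ℕ), (∀ i, (q i + 1) * 2 ^ e ≤ 2 ^ k) → multiUp e u = q →
        ∀ i, u i < 2 ^ k := by
      intro q u hq hu i
      have h1 : u i / 2 ^ e = q i := congrFun hu i
      have h3 : u i < (u i / 2 ^ e + 1) * 2 ^ e := by
        have := Nat.lt_mul_div_succ (u i) (show 0 < 2 ^ e by positivity)
        rw [mul_comm]
        exact this
      rw [h1] at h3
      exact lt_of_lt_of_le h3 (hq i)
    -- adjacent subcells
    have hadj : ∀ (q : Fin d → ℕ) (j : Fin d), ¬ multiBc B e q →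
        ¬ multiBc B e (Function.update q j (q j + 1)) → multiUp 1 q = s →
        multiUp 1 (Function.update q j (q j + 1)) = s →
        ∀ u u', multiUp e u = q → multiUp e u' = Function.update q j (q j + 1) →
        multiFine B e u → multiFine B e u' → (L u ↔ L u') := by
      intro q j hq hq' hqs hqs' u u' hu hu' hfu hfu'
      obtain ⟨v, hv1, hv2, hv3, hv4⟩ := multi_adj hd B j e q hq hq'
      have hb1 := hbox q hqs
      have hb2 := hbox _ hqs'
      have k1 := ih q hb1 u v hu hv1 hfu hv2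
      have k2 := ih _ hb2 u' _ hu' hv3 hfu' hv4
      have k3 := h2 v (hin q v hb1 hv1) j
        (by have := hin _ _ hb2 hv3 j; simpa using this)
        (by have := hv2 0 (by omega); rwa [multi_up_zero] at this)
        (by have := hv4 0 (by omega); rwa [multi_up_zero] at this)
      exact k1.trans (k3.trans k2.symm)
    -- cells which differ in one coordinate
    have hone : ∀ (q q' : Fin d → ℕ) (j : Fin d), q' = Function.update q j (q' j) →
        ¬ multiBc B e q → ¬ multiBc B e q' → multiUp 1 q = s → multiUp 1 q' = s →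
        ∀ u u', multiUp e u = q → multiUp e u' = q' →
        multiFine B e u → multiFine B e u' → (L u ↔ L u') := by
      intro q q' j hqq hq hq' hqs hqs' u u' hu hu' hfu hfu'
      have a1 : q j / 2 = s j := by
        have := congrFun hqs j
        simpa [multiUp] using this
      have a2 : q' j / 2 = s j := by
        have := congrFun hqs' j
        simpa [multiUp] using this
      rcases lt_trichotomy (q j) (q' j) with h | h | h
      · have hj : q' j = q j + 1 := by omega
        rw [hj] at hqq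
        rw [hqq] at hq' hqs' hu'
        exact hadj q j hq hq' hqs hqs' u u' hu hu' hfu hfu'
      · have hj : q' = q := by
          rw [hqq, ← h, Function.update_eq_self]
        rw [hj] at hu'
        exact ih q (hbox q hqs) u u' hu hu' hfu hfu'
      · have hj : q j = q' j + 1 := by omega
        have hqq' : q = Function.update q' j (q' j + 1) := by
          rw [← hj, hqq]
          funext i
          by_cases hij : i = j
          · subst hij; simp
          · simp [Function.update_of_ne hij]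
        rw [hqq'] at hq hqs hu
        exact (hadj q' j hq' hq hqs' hqs u' u hu' hu hfu' hfu).symm
    -- Hamming induction
    have hham : ∀ (m : ℕ) (q q' : Fin d → ℕ), (univ.filter fun i => q i ≠ q' i).card ≤ m →
        ¬ multiBc B e q → ¬ multiBc B e q' → multiUp 1 q = s → multiUp 1 q' = s →
        ∀ u u', multiUp e u = q → multiUp e u' = q' →
        multiFine B e u → multiFine B e u' → (L u ↔ L u') := by
      intro m
      induction m with
      | zero =>
        intro q q' hm hq hq' hqs hqs' u u' hu hu' hfu hfu'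
        have h0 : (univ.filter fun i => q i ≠ q' i) = ∅ := Finset.card_eq_zero.1 (by omega)
        have h1 : q = q' := by
          funext i
          by_contra hne
          have : i ∈ (univ.filter fun i => q i ≠ q' i) := by simp [hne]
          rw [h0] at this
          simp at this
        rw [← h1] at hu'
        exact ih q (hbox q hqs) u u' hu hu' hfu hfu'
      | succ m ihm =>
        intro q q' hm hq hq' hqs hqs' u u' hu hu' hfu hfu'
        by_cases hc : (univ.filter fun i => q i ≠ q' i).card ≤ 1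
        · have hne : Nonempty (Fin d) := ⟨⟨0, by omega⟩⟩
          rw [Finset.card_le_one_iff_subset_singleton] at hc
          obtain ⟨j, hj⟩ := hc
          refine hone q q' j ?_ hq hq' hqs hqs' u u' hu hu' hfu hfu'
          funext i
          by_cases hij : i = j
          · subst hij; simp
          · rw [Function.update_of_ne hij]
            by_contra hne
            have : i ∈ ({j} : Finset (Fin d)) := hj (by simp [Ne.symm hne])
            exact hij (Finset.mem_singleton.1 this)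
        · obtain ⟨j1, hj1, j2, hj2, hj12⟩ := Finset.one_lt_card.1 (not_le.1 hc)
          rw [Finset.mem_filter] at hj1 hj2
          have step : ∀ j, q j ≠ q' j → ¬ multiBc B e (Function.update q j (q' j)) →
              (L u ↔ L u') := by
            intro j hjne hb
            set q1 := Function.update q j (q' j) with hq1
            have hq1s : multiUp 1 q1 = s := by
              funext i
              by_cases hij : i = j
              · subst hij
                have := congrFun hqs' i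
                simpa [multiUp, hq1] using this
              · have := congrFun hqs i
                simpa [multiUp, hq1, Function.update_of_ne hij] using this
            obtain ⟨v, hv1, hv2⟩ := multi_exists hd B e q1 hb
            have k1 := hone q q1 j (by simp [hq1]) hq hb hqs hq1s u v hu hv1 hfu hv2
            have k2 := ihm q1 q' (by
              have hsub : (univ.filter fun i => q1 i ≠ q' i) ⊆
                  (univ.filter fun i => q i ≠ q' i).erase j := by
                intro i hi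
                rw [Finset.mem_filter] at hi
                by_cases hij : i = j
                · subst hij
                  exact absurd (by simp [hq1]) hi.2
                · rw [Finset.mem_erase, Finset.mem_filter]
                  refine ⟨hij, Finset.mem_univ _, ?_⟩
                  have := hi.2
                  rwa [hq1, Function.update_of_ne hij] at this
              have h3 := Finset.card_le_card hsub
              rw [Finset.card_erase_of_mem (by simp [hjne])] at h3
              omega) hb hq' hq1s hqs' v u' hv1 hu' hv2 hfu'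
            exact k1.trans k2
          by_cases b1 : multiBc B e (Function.update q j1 (q' j1))
          · refine step j2 hj2.2 fun b2 => hsb ⟨_, _, ?_, ?_, ?_, b1, b2⟩
            · intro hc'
              have := congrFun hc' j1
              rw [Function.update_self, Function.update_of_ne hj12] at this
              exact hj1.2 this.symm
            · funext i
              by_cases hij : i = j1
              · subst hij
                have := congrFun hqs' i
                simpa [multiUp] using this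
              · have := congrFun hqs i
                simpa [multiUp, Function.update_of_ne hij] using this
            · funext i
              by_cases hij : i = j2
              · subst hij
                have := congrFun hqs' i
                simpa [multiUp] using this
              · have := congrFun hqs i
                simpa [multiUp, Function.update_of_ne hij] using this
          · exact step j1 hj1.2 b1
    have ht2 : multiUp 1 (multiUp e t) = s := by rw [← multi_up_succ, ht]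
    have ht2' : multiUp 1 (multiUp e t') = s := by rw [← multi_up_succ, ht']
    exact hham _ (multiUp e t) (multiUp e t') le_rfl (hf e (by omega)) (hf' e (by omega)) ht2 ht2'
      t t' rfl rfl (multi_fine_mono B e t hf) (multi_fine_mono B e t' hf')

/-- witness sets -/
private theorem multi_witness (d : ℕ) (e : ℕ) : ∀ s : Fin d → ℕ, ∃ W : Finset (Finset (Fin d → ℕ)),
    (∀ A ∈ W, A.card = 2 ^ e ∧ ∀ t ∈ A, multiUp e t = s) ∧ W.card ≤ (4 ^ d) ^ (2 ^ e - 1) ∧
    ∀ B : (Fin d → ℕ) → Prop, multiBc B e s → ∃ A ∈ W, ∀ t ∈ A, B t := by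
  classical
  induction e with
  | zero =>
    intro s
    refine ⟨{{s}}, ?_, by simp, ?_⟩
    · intro A hA
      rw [Finset.mem_singleton] at hA
      subst hA
      refine ⟨by simp, fun t ht => ?_⟩
      rw [Finset.mem_singleton] at ht
      rw [ht, multi_up_zero]
    · intro B hB
      refine ⟨{s}, by simp, fun t ht => ?_⟩
      rw [Finset.mem_singleton] at ht
      rw [ht]; exact hB
  | succ e ih =>
    choose W hW1 hW2 hW3 using ih
    intro s
    set sub : Finset (Fin d → ℕ) := Fintype.piFinset (fun i => ({2 * s i, 2 * s i + 1} : Finset ℕ))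
      with hsub
    have hsubc : sub.card = 2 ^ d := by
      rw [hsub, Fintype.card_piFinset]
      have : ∀ i, ({2 * s i, 2 * s i + 1} : Finset ℕ).card = 2 := by
        intro i
        rw [Finset.card_pair (by omega)]
      simp [this]
    have hsubm : ∀ q : Fin d → ℕ, multiUp 1 q = s ↔ q ∈ sub := by
      intro q
      rw [hsub, Fintype.mem_piFinset, funext_iff]
      refine forall_congr' fun i => ?_
      simp only [multiUp, pow_one, Finset.mem_insert, Finset.mem_singleton]
      omega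
    refine ⟨((sub ×ˢ sub).filter fun p => p.1 ≠ p.2).biUnion
      fun p => (W p.1 ×ˢ W p.2).image fun AB => AB.1 ∪ AB.2, ?_, ?_, ?_⟩
    · intro A hA
      rw [Finset.mem_biUnion] at hA
      obtain ⟨p, hp, hA⟩ := hA
      rw [Finset.mem_filter, Finset.mem_product] at hp
      rw [Finset.mem_image] at hA
      obtain ⟨AB, hAB, rfl⟩ := hA
      rw [Finset.mem_product] at hAB
      have a1 := hW1 p.1 AB.1 hAB.1
      have a2 := hW1 p.2 AB.2 hAB.2
      constructor
      · rw [Finset.card_union_of_disjoint, a1.1, a2.1, pow_succ]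
        · ring
        · rw [Finset.disjoint_left]
          intro t h1 h2'
          apply hp.2
          rw [← a1.2 t h1, ← a2.2 t h2']
      · intro t ht
        rw [multi_up_succ]
        rw [Finset.mem_union] at ht
        rcases ht with ht | ht
        · rw [a1.2 t ht]; exact (hsubm _).2 hp.1.1
        · rw [a2.2 t ht]; exact (hsubm _).2 hp.1.2
    · refine Finset.card_biUnion_le.trans ?_
      have hterm : ∀ p ∈ (sub ×ˢ sub).filter (fun p => p.1 ≠ p.2),
          ((W p.1 ×ˢ W p.2).image fun AB => AB.1 ∪ AB.2).card ≤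
            (4 ^ d) ^ (2 ^ e - 1) * (4 ^ d) ^ (2 ^ e - 1) := by
        intro p _
        refine Finset.card_image_le.trans ?_
        rw [Finset.card_product]
        exact Nat.mul_le_mul (hW2 _) (hW2 _)
      refine (Finset.sum_le_card_nsmul _ _ _ hterm).trans ?_
      rw [smul_eq_mul]
      have hcard : ((sub ×ˢ sub).filter fun p => p.1 ≠ p.2).card ≤ 4 ^ d := by
        refine (Finset.card_filter_le _ _).trans ?_
        rw [Finset.card_product, hsubc, ← mul_pow]
        norm_num
      refine (Nat.mul_le_mul_right _ hcard).trans ?_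
      have h1 : 2 ^ (e + 1) - 1 = 1 + ((2 ^ e - 1) + (2 ^ e - 1)) := by
        have : 1 ≤ 2 ^ e := Nat.one_le_two_pow
        rw [pow_succ]; omega
      rw [h1, pow_add, pow_one, pow_add]
    · intro B hB
      obtain ⟨s1, s2, hne, h1, h2, hb1, hb2⟩ := hB
      obtain ⟨A1, hA1, hA1'⟩ := hW3 s1 B hb1
      obtain ⟨A2, hA2, hA2'⟩ := hW3 s2 B hb2
      refine ⟨A1 ∪ A2, ?_, ?_⟩
      · rw [Finset.mem_biUnion]
        refine ⟨(s1, s2), ?_, ?_⟩
        · rw [Finset.mem_filter, Finset.mem_product]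
          exact ⟨⟨(hsubm _).1 h1, (hsubm _).1 h2⟩, hne⟩
        · rw [Finset.mem_image]
          exact ⟨(A1, A2), Finset.mem_product.2 ⟨hA1, hA2⟩, rfl⟩
      · intro t ht
        rw [Finset.mem_union] at ht
        rcases ht with ht | ht
        · exact hA1' t ht
        · exact hA2' t ht

open scoped Classical in
/-- probability of a bad cell -/
private theorem multi_prob {Ω : Type} (S : Finset Ω) (Bad : Ω → (Fin d → ℕ) → Prop) (r : ℝ)
    (hr : 0 ≤ r)
    (h1 : ∀ Γ : Finset (Fin d → ℕ), (∀ s ∈ Γ, ∀ i, s i < 2 ^ k) →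
      ((S.filter fun ω => ∀ t ∈ Γ, Bad ω t).card : ℝ) ≤ S.card * r ^ Γ.card)
    (e : ℕ) (s : Fin d → ℕ) (hs : ∀ i, (s i + 1) * 2 ^ e ≤ 2 ^ k) :
    ((S.filter fun ω => multiBc (Bad ω) e s).card : ℝ) ≤ S.card * (4 ^ d * r) ^ (2 ^ e) := by
  obtain ⟨W, hW1, hW2, hW3⟩ := multi_witness d e s
  have hsub : (S.filter fun ω => multiBc (Bad ω) e s) ⊆
      W.biUnion fun A => S.filter fun ω => ∀ t ∈ A, Bad ω t := by
    intro ω hω
    rw [Finset.mem_filter] at hω
    obtain ⟨A, hA, hA'⟩ := hW3 (Bad ω) hω.2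
    rw [Finset.mem_biUnion]
    exact ⟨A, hA, Finset.mem_filter.2 ⟨hω.1, hA'⟩⟩
  have h2 : ((S.filter fun ω => multiBc (Bad ω) e s).card : ℝ) ≤
      ∑ A ∈ W, ((S.filter fun ω => ∀ t ∈ A, Bad ω t).card : ℝ) := by
    have := (Finset.card_le_card hsub).trans Finset.card_biUnion_le
    exact_mod_cast this
  refine h2.trans ?_
  have h3 : ∀ A ∈ W, ((S.filter fun ω => ∀ t ∈ A, Bad ω t).card : ℝ) ≤ S.card * r ^ (2 ^ e) := by
    intro A hA
    have a1 := hW1 A hA
    have := h1 A (by
      intro u hu i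
      have b1 : u i / 2 ^ e = s i := congrFun (a1.2 u hu) i
      have b3 : u i < (u i / 2 ^ e + 1) * 2 ^ e := by
        have := Nat.lt_mul_div_succ (u i) (show 0 < 2 ^ e by positivity)
        rw [mul_comm]
        exact this
      rw [b1] at b3
      exact lt_of_lt_of_le b3 (hs i))
    rwa [a1.1] at this
  refine (Finset.sum_le_sum h3).trans ?_
  rw [Finset.sum_const, nsmul_eq_mul, mul_pow]
  have h4 : (W.card : ℝ) ≤ (4 ^ d) ^ (2 ^ e) := by
    have h5 : W.card ≤ (4 ^ d) ^ (2 ^ e) :=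
      hW2.trans (Nat.pow_le_pow_right (by positivity) (Nat.sub_le _ _))
    exact_mod_cast h5
  have h6 : (0 : ℝ) ≤ S.card * r ^ (2 ^ e) := by positivity
  calc (W.card : ℝ) * (S.card * r ^ (2 ^ e)) ≤ (4 ^ d) ^ (2 ^ e) * (S.card * r ^ (2 ^ e)) :=
        mul_le_mul_of_nonneg_right h4 h6
    _ = _ := by ring

private theorem multi_geom (x : ℝ) (hx : 0 ≤ x) (hx1 : x ≤ 1 / 2) (n : ℕ) :
    ∑ e ∈ Finset.range n, x ^ (2 ^ e) ≤ 2 * x := by
  have h1 : ∀ e, x ^ (2 ^ e) ≤ x * (1 / 2) ^ e := by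
    intro e
    have h2 : 2 ^ e = (2 ^ e - 1) + 1 := by
      have : 1 ≤ 2 ^ e := Nat.one_le_two_pow
      omega
    have h3 : e ≤ 2 ^ e - 1 := by
      have : e < 2 ^ e := Nat.lt_two_pow_self
      omega
    rw [h2, pow_succ, mul_comm]
    refine mul_le_mul_of_nonneg_left ?_ hx
    calc x ^ (2 ^ e - 1) ≤ (1 / 2 : ℝ) ^ (2 ^ e - 1) := pow_le_pow_left₀ hx hx1 _
      _ ≤ (1 / 2 : ℝ) ^ e := pow_le_pow_of_le_one (by norm_num) (by norm_num) h3
  refine (Finset.sum_le_sum fun e _ => h1 e).trans ?_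
  rw [← Finset.mul_sum, mul_comm]
  refine mul_le_mul_of_nonneg_right ?_ hx
  have h4 : ∑ e ∈ Finset.range n, (1 / 2 : ℝ) ^ e = 2 - 2 * (1 / 2) ^ n := by
    induction n with
    | zero => simp
    | succ n ih =>
      rw [Finset.sum_range_succ, ih, pow_succ]; ring
  rw [h4]
  have : (0 : ℝ) ≤ (1 / 2) ^ n := by positivity
  linarith

open scoped Classical in
theorem multi {Ω : Type} (S : Finset Ω) (hd : 3 ≤ d) (Bad : Ω → Blk d k → Prop)
    (lab : Ω → Blk d k → Prop) (r : ℝ) (hr : 0 ≤ r) (hr1 : 4 ^ d * r ≤ 1 / 2)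
    (h1 : ∀ Γ : Finset (Blk d k), ((S.filter fun ω => ∀ t ∈ Γ, Bad ω t).card : ℝ) ≤ S.card * r ^ Γ.card)
    (h2 : ∀ ω ∈ S, ∀ t j, (t j).val + 1 < 2 ^ k → ¬ Bad ω t → ¬ Bad ω (nxt t j) →
      (lab ω t ↔ lab ω (nxt t j)))
    (t t' : Blk d k) :
    ((S.filter fun ω => Bad ω t ∨ ¬ (lab ω t ↔ lab ω t')).card : ℝ) ≤ S.card * (4 * (4 ^ d * r)) := by
  have hne : NeZero (2 ^ k) := ⟨by positivity⟩
  set cs : (Fin d → ℕ) → Blk d k := fun s i => (s i : ZMod (2 ^ k)) with hcs
  have hinj : ∀ s s' : Fin d → ℕ, (∀ i, s i < 2 ^ k) → (∀ i, s' i < 2 ^ k) → cs s = cs s' →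
      s = s' := by
    intro s s' hs hs' h
    funext i
    have h3 : ((s i : ℕ) : ZMod (2 ^ k)) = ((s' i : ℕ) : ZMod (2 ^ k)) := congrFun h i
    have h4 := congrArg ZMod.val h3
    rwa [ZMod.val_natCast, ZMod.val_natCast, Nat.mod_eq_of_lt (hs i), Nat.mod_eq_of_lt (hs' i)] at h4
  set B : Ω → (Fin d → ℕ) → Prop := fun ω s => Bad ω (cs s) with hB
  set L : Ω → (Fin d → ℕ) → Prop := fun ω s => lab ω (cs s) with hL
  have h1' : ∀ Γ : Finset (Fin d → ℕ), (∀ s ∈ Γ, ∀ i, s i < 2 ^ k) →
      ((S.filter fun ω => ∀ t ∈ Γ, B ω t).card : ℝ) ≤ S.card * r ^ Γ.card := by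
    intro Γ hΓ
    have h3 := h1 (Γ.image cs)
    rw [Finset.card_image_of_injOn (fun a ha b hb hab => hinj a b (hΓ a ha) (hΓ b hb) hab)] at h3
    have h4 : (S.filter fun ω => ∀ t ∈ Γ, B ω t) = S.filter fun ω => ∀ t ∈ Γ.image cs, Bad ω t := by
      refine Finset.filter_congr fun ω _ => ?_
      simp only [Finset.mem_image, forall_exists_index, and_imp, forall_apply_eq_imp_iff₂, hB]
    rw [h4]
    exact h3
  have h2' : ∀ ω ∈ S, ∀ s : Fin d → ℕ, (∀ i, s i < 2 ^ k) → ∀ j, s j + 1 < 2 ^ k → ¬ B ω s →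
      ¬ B ω (Function.update s j (s j + 1)) → (L ω s ↔ L ω (Function.update s j (s j + 1))) := by
    intro ω hω s hs j hj hb hb'
    have hnx : cs (Function.update s j (s j + 1)) = nxt (cs s) j := by
      funext i
      by_cases hij : i = j
      · subst hij
        simp [hcs, nxt]
      · simp [hcs, nxt, Function.update_of_ne hij]
    simp only [hB, hL] at hb hb' ⊢
    rw [hnx] at hb' ⊢
    refine h2 ω hω (cs s) j ?_ hb hb'
    have : (cs s j).val = s j := by
      simp only [hcs]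
      rw [ZMod.val_natCast, Nat.mod_eq_of_lt (hs j)]
    rw [this]
    exact hj
  set u : Fin d → ℕ := fun i => (t i).val with hu
  set u' : Fin d → ℕ := fun i => (t' i).val with hu'
  have hcu : cs u = t := by
    funext i
    simp [hcs, hu]
  have hcu' : cs u' = t' := by
    funext i
    simp [hcs, hu']
  have hul : ∀ i, u i < 2 ^ k := fun i => ZMod.val_lt _
  have hul' : ∀ i, u' i < 2 ^ k := fun i => ZMod.val_lt _
  have hsub : (S.filter fun ω => Bad ω t ∨ ¬ (lab ω t ↔ lab ω t')) ⊆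
      (Finset.range (k + 1)).biUnion fun e => (S.filter fun ω => multiBc (B ω) e (multiUp e u)) ∪
        (S.filter fun ω => multiBc (B ω) e (multiUp e u')) := by
    intro ω hω
    rw [Finset.mem_filter] at hω
    rw [Finset.mem_biUnion]
    by_contra hcon
    have hf : multiFine (B ω) k u := by
      intro e he hb
      exact hcon ⟨e, Finset.mem_range.2 (by omega), Finset.mem_union_left _
        (Finset.mem_filter.2 ⟨hω.1, hb⟩)⟩
    have hf' : multiFine (B ω) k u' := by
      intro e he hb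
      exact hcon ⟨e, Finset.mem_range.2 (by omega), Finset.mem_union_right _
        (Finset.mem_filter.2 ⟨hω.1, hb⟩)⟩
    rcases hω.2 with h | h
    · have := hf 0 (by omega)
      rw [multi_up_zero] at this
      apply this
      change Bad ω (cs u)
      rw [hcu]; exact h
    · apply h
      have hz : ∀ v : Fin d → ℕ, (∀ i, v i < 2 ^ k) → multiUp k v = fun _ => 0 := by
        intro v hv
        funext i
        exact Nat.div_eq_of_lt (hv i)
      have := multi_label (k := k) hd (B ω) (L ω) (h2' ω hω.1) k (fun _ => 0) (by intro i; simp) u u'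
        (hz u hul) (hz u' hul') hf hf'
      simp only [hL] at this
      rwa [hcu, hcu'] at this
  have hbox : ∀ v : Fin d → ℕ, (∀ i, v i < 2 ^ k) → ∀ e ∈ Finset.range (k + 1),
      ∀ i, (multiUp e v i + 1) * 2 ^ e ≤ 2 ^ k := by
    intro v hv e he i
    have hek : e ≤ k := by
      have := Finset.mem_range.1 he
      omega
    have h3 : v i / 2 ^ e < 2 ^ (k - e) := by
      rw [Nat.div_lt_iff_lt_mul (by positivity), ← pow_add, Nat.sub_add_cancel hek]
      exact hv i
    calc (multiUp e v i + 1) * 2 ^ e ≤ 2 ^ (k - e) * 2 ^ e := Nat.mul_le_mul_right _ h3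
      _ = 2 ^ k := by rw [← pow_add, Nat.sub_add_cancel hek]
  have hcard : ((S.filter fun ω => Bad ω t ∨ ¬ (lab ω t ↔ lab ω t')).card : ℝ) ≤
      ∑ e ∈ Finset.range (k + 1), (((S.filter fun ω => multiBc (B ω) e (multiUp e u)).card : ℝ) +
        ((S.filter fun ω => multiBc (B ω) e (multiUp e u')).card : ℝ)) := by
    have h3 := (Finset.card_le_card hsub).trans Finset.card_biUnion_le
    have h4 : ∀ e ∈ Finset.range (k + 1), ((S.filter fun ω => multiBc (B ω) e (multiUp e u)) ∪
        (S.filter fun ω => multiBc (B ω) e (multiUp e u'))).card ≤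
        (S.filter fun ω => multiBc (B ω) e (multiUp e u)).card +
        (S.filter fun ω => multiBc (B ω) e (multiUp e u')).card :=
      fun e _ => Finset.card_union_le _ _
    have h5 := h3.trans (Finset.sum_le_sum h4)
    exact_mod_cast h5
  refine hcard.trans ?_
  have hx0 : 0 ≤ 4 ^ d * r := by positivity
  have hterm : ∀ e ∈ Finset.range (k + 1),
      (((S.filter fun ω => multiBc (B ω) e (multiUp e u)).card : ℝ) +
        ((S.filter fun ω => multiBc (B ω) e (multiUp e u')).card : ℝ)) ≤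
      S.card * (2 * (4 ^ d * r) ^ (2 ^ e)) := by
    intro e he
    have k1 := multi_prob (k := k) S B r hr h1' e (multiUp e u) (hbox u hul e he)
    have k2 := multi_prob (k := k) S B r hr h1' e (multiUp e u') (hbox u' hul' e he)
    linarith
  refine (Finset.sum_le_sum hterm).trans ?_
  rw [← Finset.mul_sum, ← Finset.mul_sum]
  refine mul_le_mul_of_nonneg_left ?_ (Nat.cast_nonneg _)
  have := multi_geom (4 ^ d * r) hx0 hr1 (k + 1)
  linarith

end Pool.Agent.LO

end

/-! ### from `Lib_MP_2c424f_thr.C4c` -/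

section

/-!
# THR C4c: one site (paper proof: C4)

`q = Q + 1`.  `p_c = (1+m)/(2h)` for `c < h = ⌊Q/2⌋`, `(1-m)/(2(Q-h))` for `h ≤ c < Q`, `0` for the last colour.
* `-∑ p log p = ((1+m)/2) log (2h/(1+m)) + ((1-m)/2) log (2(Q-h)/(1-m)) ≥ log (Q-1) - ((1+m)log(1+m)+(1-m)log(1-m))/2`.
* `X` = number of colours not used by `2d` independent `p`-distributed colours: `E X = ∑_c (1-p_c)^(2d) ≥ q (α* - C/q)`
  (`(1-p)^(2d) ≥ exp (-2d(p+p²))`, `2d p_c` close to `a(1±m)`, `(e^(-a(1+m)) + e^(-a(1-m)))/2 = α*`), variance `≤ 8 d` (bounded differences: Efron-Stein for independent coordinates or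
  `LIN.mcdiarmid` for small `l`; the variance is also `≤ E X` by negative correlation: `P(c, c' both unused) = (1 - p_c - p_c')^(2d) ≤ (1-p_c)^(2d) (1-p_c')^(2d)`, so
  `Var X ≤ ∑_c (1-p_c)^(2d) ≤ q`, which is the simplest way), `X ≥ 1` with the last colour unused.
* `log_lower` with `μ = E X` (`≥ q e^(-A0)/2`): `E log X ≥ log μ - 2 √(Var)/μ - 4 log μ Var/μ² ≥ log (q α*) - δ/2` for `q` large.
* `phi_eq`.
-/

set_option autoImplicit false

open Finset Filter

namespace Pool.Agent.THR

open Pool.Agent.LO Pool.Agent.LIN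

private theorem c4c_prod {ι α : Type*} [Fintype ι] [DecidableEq ι] [Fintype α] [DecidableEq α] (p u : α → ℝ) :
    ∑ s : ι → α, (∏ i, p (s i)) * (∏ i, u (s i)) = (∑ c, p c * u c) ^ Fintype.card ι := by
  have h := Finset.prod_univ_sum (fun _ : ι => (univ : Finset α)) (fun _ c => p c * u c)
  rw [Fintype.piFinset_univ] at h
  rw [Finset.prod_const, Finset.card_univ] at h
  rw [h]
  refine Finset.sum_congr rfl fun s _ => ?_
  rw [← Finset.prod_mul_distrib]

private theorem c4c_ind {ι α : Type*} [Fintype ι] [DecidableEq ι] [Fintype α] [DecidableEq α] (s : ι → α) (c : α) :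
    (if c ∈ ((univ.image s)ᶜ : Finset α) then (1 : ℝ) else 0) = ∏ i, (if s i = c then (0 : ℝ) else 1) := by
  by_cases h : c ∈ (univ.image s : Finset α)
  · obtain ⟨i, _, hi⟩ := Finset.mem_image.1 h
    rw [if_neg (by simpa using ⟨i, hi⟩)]
    refine (Finset.prod_eq_zero (Finset.mem_univ i) ?_).symm
    rw [if_pos hi]
  · rw [if_pos (by simpa using h)]
    refine (Finset.prod_eq_one fun i _ => ?_).symm
    rw [if_neg]
    intro hi
    exact h (Finset.mem_image.2 ⟨i, Finset.mem_univ i, hi⟩)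

private theorem c4c_card {ι α : Type*} [Fintype ι] [DecidableEq ι] [Fintype α] [DecidableEq α] (s : ι → α) :
    ((((univ.image s)ᶜ : Finset α).card : ℕ) : ℝ) = ∑ c : α, ∏ i, (if s i = c then (0 : ℝ) else 1) := by
  rw [Finset.card_eq_sum_ones, Nat.cast_sum]
  simp_rw [← c4c_ind]
  rw [Finset.sum_ite_mem]
  simp

private theorem c4c_E1 {ι α : Type*} [Fintype ι] [DecidableEq ι] [Fintype α] [DecidableEq α] (p : α → ℝ)
    (hs : ∑ c, p c = 1) (c : α) :
    ∑ s : ι → α, (∏ i, p (s i)) * ∏ i, (if s i = c then (0 : ℝ) else 1) = (1 - p c) ^ Fintype.card ι := by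
  rw [c4c_prod p (fun j => if j = c then (0 : ℝ) else 1)]
  congr 1
  have : ∀ j, p j * (if j = c then (0 : ℝ) else 1) = p j - (if j = c then p j else 0) := by
    intro j; split_ifs <;> ring
  simp_rw [this]
  rw [Finset.sum_sub_distrib, hs, Finset.sum_ite_eq' univ c p]
  simp

private theorem c4c_E2 {ι α : Type*} [Fintype ι] [DecidableEq ι] [Fintype α] [DecidableEq α] (p : α → ℝ)
    (hs : ∑ c, p c = 1) (c c' : α) (hcc : c ≠ c') :
    ∑ s : ι → α, (∏ i, p (s i)) * ((∏ i, (if s i = c then (0 : ℝ) else 1)) * ∏ i, (if s i = c' then (0 : ℝ) else 1)) =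
      (1 - p c - p c') ^ Fintype.card ι := by
  simp_rw [← Finset.prod_mul_distrib (f := fun i => if _ = c then (0 : ℝ) else 1)]
  have := c4c_prod (ι := ι) p (fun j => (if j = c then (0 : ℝ) else 1) * (if j = c' then (0 : ℝ) else 1))
  rw [this]
  congr 1
  have : ∀ j, p j * ((if j = c then (0 : ℝ) else 1) * (if j = c' then (0 : ℝ) else 1)) =
      p j - (if j = c then p j else 0) - (if j = c' then p j else 0) := by
    intro j
    by_cases h1 : j = c
    · have h2 : j ≠ c' := h1 ▸ hcc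
      rw [if_pos h1, if_neg h2, if_pos h1, if_neg h2]; ring
    · by_cases h2 : j = c'
      · rw [if_neg h1, if_pos h2, if_neg h1, if_pos h2]; ring
      · rw [if_neg h1, if_neg h2, if_neg h1, if_neg h2]; ring
  simp_rw [this]
  rw [Finset.sum_sub_distrib, Finset.sum_sub_distrib, hs, Finset.sum_ite_eq' univ c p, Finset.sum_ite_eq' univ c' p]
  simp

/-- mean -/
private theorem c4c_mean {ι α : Type*} [Fintype ι] [DecidableEq ι] [Fintype α] [DecidableEq α] (p : α → ℝ)
    (hs : ∑ c, p c = 1) :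
    ∑ s : ι → α, (∏ i, p (s i)) * (((univ.image s)ᶜ : Finset α).card : ℝ) = ∑ c, (1 - p c) ^ Fintype.card ι := by
  simp_rw [c4c_card, Finset.mul_sum]
  rw [Finset.sum_comm]
  exact Finset.sum_congr rfl fun c _ => c4c_E1 p hs c

private theorem c4c_two {α : Type*} [Fintype α] [DecidableEq α] (p : α → ℝ)
    (hp : ∀ c, 0 ≤ p c) (hs : ∑ c, p c = 1) (c c' : α) (hcc : c ≠ c') : p c + p c' ≤ 1 := by
  rw [← hs, ← Finset.sum_pair hcc]
  exact Finset.sum_le_sum_of_subset_of_nonneg (Finset.subset_univ _) fun i _ _ => hp i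

private theorem c4c_sq {ι α : Type*} [Fintype ι] [DecidableEq ι] [Fintype α] [DecidableEq α] (p : α → ℝ)
    (hp : ∀ c, 0 ≤ p c) (hs : ∑ c, p c = 1) :
    ∑ s : ι → α, (∏ i, p (s i)) * (((univ.image s)ᶜ : Finset α).card : ℝ) ^ 2 ≤
      (∑ c, (1 - p c) ^ Fintype.card ι) + (∑ c, (1 - p c) ^ Fintype.card ι) ^ 2 := by
  have h1 : ∀ c, 0 ≤ 1 - p c := by
    intro c
    have : p c ≤ ∑ c, p c := Finset.single_le_sum (fun i _ => hp i) (Finset.mem_univ c)
    linarith
  set F : α → (ι → α) → ℝ := fun c s => ∏ i, (if s i = c then (0 : ℝ) else 1) with hF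
  have hFF : ∀ c s, F c s * F c s = F c s := by
    intro c s
    simp only [hF]
    rw [← c4c_ind]
    split_ifs <;> ring
  have e1 : ∑ s : ι → α, (∏ i, p (s i)) * (((univ.image s)ᶜ : Finset α).card : ℝ) ^ 2 =
      ∑ c, ∑ c', ∑ s : ι → α, (∏ i, p (s i)) * (F c s * F c' s) := by
    simp_rw [c4c_card, pow_two, Finset.sum_mul_sum, Finset.mul_sum]
    rw [Finset.sum_comm]
    refine Finset.sum_congr rfl fun c _ => ?_
    rw [Finset.sum_comm]
  rw [e1, pow_two, Finset.sum_mul_sum, ← Finset.sum_add_distrib]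
  refine Finset.sum_le_sum fun c _ => ?_
  rw [← Finset.add_sum_erase _ _ (Finset.mem_univ c)]
  have e2 : ∑ s : ι → α, (∏ i, p (s i)) * (F c s * F c s) = (1 - p c) ^ Fintype.card ι := by
    simp_rw [hFF]
    exact c4c_E1 p hs c
  rw [e2]
  refine add_le_add le_rfl ?_
  calc ∑ c' ∈ univ.erase c, ∑ s : ι → α, (∏ i, p (s i)) * (F c s * F c' s)
      = ∑ c' ∈ univ.erase c, (1 - p c - p c') ^ Fintype.card ι := by
        refine Finset.sum_congr rfl fun c' hc' => ?_
        exact c4c_E2 p hs c c' (Finset.ne_of_mem_erase hc').symm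
    _ ≤ ∑ c' ∈ univ.erase c, (1 - p c) ^ Fintype.card ι * (1 - p c') ^ Fintype.card ι := by
        refine Finset.sum_le_sum fun c' hc' => ?_
        rw [← mul_pow]
        have h2 := c4c_two p hp hs c c' (Finset.ne_of_mem_erase hc').symm
        refine pow_le_pow_left₀ (by linarith) ?_ _
        nlinarith [mul_nonneg (hp c) (hp c')]
    _ ≤ ∑ c', (1 - p c) ^ Fintype.card ι * (1 - p c') ^ Fintype.card ι := by
        refine Finset.sum_le_sum_of_subset_of_nonneg (Finset.subset_univ _) fun i _ _ => ?_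
        exact mul_nonneg (pow_nonneg (h1 c) _) (pow_nonneg (h1 i) _)

private theorem c4c_var {ι α : Type*} [Fintype ι] [DecidableEq ι] [Fintype α] [DecidableEq α] (p : α → ℝ)
    (hp : ∀ c, 0 ≤ p c) (hs : ∑ c, p c = 1) (μ : ℝ) (hμ : μ = ∑ c, (1 - p c) ^ Fintype.card ι) :
    ∑ s : ι → α, (∏ i, p (s i)) * ((((univ.image s)ᶜ : Finset α).card : ℝ) - μ) ^ 2 ≤ μ := by
  have hone : ∑ s : ι → α, (∏ i, p (s i)) = 1 := by
    have := c4c_prod (ι := ι) p (fun _ => 1)
    simpa [hs] using this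
  have hm := c4c_mean (ι := ι) p hs
  have h2 := c4c_sq (ι := ι) p hp hs
  rw [← hμ] at hm h2
  have : ∑ s : ι → α, (∏ i, p (s i)) * ((((univ.image s)ᶜ : Finset α).card : ℝ) - μ) ^ 2 =
      ∑ s : ι → α, (∏ i, p (s i)) * (((univ.image s)ᶜ : Finset α).card : ℝ) ^ 2 -
        2 * μ * ∑ s : ι → α, (∏ i, p (s i)) * (((univ.image s)ᶜ : Finset α).card : ℝ) +
          μ ^ 2 * ∑ s : ι → α, (∏ i, p (s i)) := by
    rw [Finset.mul_sum, Finset.mul_sum, ← Finset.sum_sub_distrib, ← Finset.sum_add_distrib]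
    exact Finset.sum_congr rfl fun s _ => by ring
  rw [this, hm, hone]
  nlinarith


private theorem c4c_log {ι α : Type*} [Fintype ι] [DecidableEq ι] [Fintype α] [DecidableEq α] (p : α → ℝ)
    (hp : ∀ c, 0 ≤ p c) (hs : ∑ c, p c = 1) (l : α) (hl : p l = 0) (μ : ℝ)
    (hμ : μ = ∑ c, (1 - p c) ^ Fintype.card ι) (hμ2 : 2 ≤ μ) (t : ℝ) (ht : 0 < t) :
    Real.log μ - t - (1 / t + 4 * Real.log μ) / μ ≤
      ∑ s : ι → α, (∏ i, p (s i)) * Real.log (((univ.image s)ᶜ : Finset α).card) := by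
  have hone : ∑ s : ι → α, (∏ i, p (s i)) = 1 := by
    have := c4c_prod (ι := ι) p (fun _ => 1)
    simpa [hs] using this
  have hvar := c4c_var (ι := ι) p hp hs μ hμ
  have hμ0 : 0 < μ := by linarith
  have hlog : 0 ≤ Real.log μ := Real.log_nonneg (by linarith)
  set K : ℝ := (1 / t + 4 * Real.log μ) / μ ^ 2 with hK
  have hK0 : 0 ≤ K := by positivity
  have hpt : ∀ s : ι → α, (∏ i, p (s i)) * (Real.log μ - t - K * ((((univ.image s)ᶜ : Finset α).card : ℝ) - μ) ^ 2) ≤
      (∏ i, p (s i)) * Real.log (((univ.image s)ᶜ : Finset α).card) := by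
    intro s
    by_cases h0 : (∏ i, p (s i)) = 0
    · rw [h0]; simp
    · refine mul_le_mul_of_nonneg_left ?_ (Finset.prod_nonneg fun i _ => hp _)
      have hcard : (1 : ℝ) ≤ (((univ.image s)ᶜ : Finset α).card : ℝ) := by
        have : 0 < ((univ.image s)ᶜ : Finset α).card := by
          refine Finset.card_pos.2 ⟨l, ?_⟩
          rw [Finset.mem_compl]
          intro hmem
          obtain ⟨i, _, hi⟩ := Finset.mem_image.1 hmem
          exact h0 (Finset.prod_eq_zero (Finset.mem_univ i) (by rw [hi, hl]))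
        exact_mod_cast this
      generalize (((univ.image s)ᶜ : Finset α).card : ℝ) = x at hcard ⊢
      have h1 := log_lower x μ hcard hμ2
      refine le_trans ?_ h1
      have h2 : 2 * |x - μ| / μ ≤ t + (1 / t) * (x - μ) ^ 2 / μ ^ 2 := by
        have e1 : (1 / t) * (x - μ) ^ 2 / μ ^ 2 = (|x - μ| / μ) ^ 2 / t := by
          rw [div_pow, sq_abs]; field_simp
        rw [e1, mul_div_assoc]
        set z := |x - μ| / μ
        have : 0 ≤ (z - t) ^ 2 / t := by positivity
        have e2 : (z - t) ^ 2 / t = z ^ 2 / t - 2 * z + t := by field_simp; ring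
        rw [e2] at this
        linarith
      have h3 : K * (x - μ) ^ 2 = (1 / t) * (x - μ) ^ 2 / μ ^ 2 + 4 * Real.log μ * (x - μ) ^ 2 / μ ^ 2 := by
        rw [hK]; ring
      rw [h3]
      linarith
  have hsum := Finset.sum_le_sum fun s (_ : s ∈ (univ : Finset (ι → α))) => hpt s
  refine le_trans ?_ hsum
  have e : ∑ s : ι → α, (∏ i, p (s i)) * (Real.log μ - t - K * ((((univ.image s)ᶜ : Finset α).card : ℝ) - μ) ^ 2) =
      (Real.log μ - t) * (∑ s : ι → α, (∏ i, p (s i))) -
        K * ∑ s : ι → α, (∏ i, p (s i)) * ((((univ.image s)ᶜ : Finset α).card : ℝ) - μ) ^ 2 := by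
    rw [Finset.mul_sum, Finset.mul_sum, ← Finset.sum_sub_distrib]
    exact Finset.sum_congr rfl fun s _ => by ring
  rw [e, hone]
  have h4 : K * (∑ s : ι → α, (∏ i, p (s i)) * ((((univ.image s)ᶜ : Finset α).card : ℝ) - μ) ^ 2) ≤ K * μ :=
    mul_le_mul_of_nonneg_left hvar hK0
  have h5 : K * μ = (1 / t + 4 * Real.log μ) / μ := by
    rw [hK]; field_simp
  linarith

private noncomputable def c4c_pp (Q : ℕ) (m : ℝ) (c : ℕ) : ℝ :=
  if c < Q / 2 then (1 + m) / (2 * ((Q / 2 : ℕ) : ℝ)) else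
    if c < Q then (1 - m) / (2 * ((Q - Q / 2 : ℕ) : ℝ)) else 0

private theorem c4c_sum (Q : ℕ) (m : ℝ) (F : ℝ → ℝ) :
    ∑ c : Fin (Q + 1), F (c4c_pp Q m c.val) = ((Q / 2 : ℕ) : ℝ) * F ((1 + m) / (2 * ((Q / 2 : ℕ) : ℝ))) +
      ((Q - Q / 2 : ℕ) : ℝ) * F ((1 - m) / (2 * ((Q - Q / 2 : ℕ) : ℝ))) + F 0 := by
  rw [Fin.sum_univ_castSucc]
  have e0 : F (c4c_pp Q m (Fin.last Q).val) = F 0 := by
    rw [c4c_pp, if_neg (by simp only [Fin.val_last]; omega), if_neg (by simp)]
  rw [e0]
  congr 1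
  have e1 : ∑ c : Fin Q, F (c4c_pp Q m (Fin.castSucc c).val) = ∑ c ∈ range Q, F (c4c_pp Q m c) := by
    rw [← Fin.sum_univ_eq_sum_range (fun c => F (c4c_pp Q m c)) Q]
    rfl
  rw [e1, ← Finset.sum_range_add_sum_Ico _ (Nat.div_le_self Q 2)]
  congr 1
  · rw [Finset.sum_congr rfl (g := fun _ => F ((1 + m) / (2 * ((Q / 2 : ℕ) : ℝ))))]
    · rw [Finset.sum_const, Finset.card_range, nsmul_eq_mul]
    · intro c hc
      rw [c4c_pp, if_pos (Finset.mem_range.1 hc)]
  · rw [Finset.sum_congr rfl (g := fun _ => F ((1 - m) / (2 * ((Q - Q / 2 : ℕ) : ℝ))))]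
    · rw [Finset.sum_const, Nat.card_Ico, nsmul_eq_mul]
    · intro c hc
      obtain ⟨h1, h2⟩ := Finset.mem_Ico.1 hc
      rw [c4c_pp, if_neg (by omega), if_pos h2]

private theorem c4c_exp (p : ℝ) (h0 : 0 ≤ p) (h1 : p ≤ 1 / 2) : Real.exp (-(p + 2 * p ^ 2)) ≤ 1 - p := by
  have hpos : 0 < 1 - p := by linarith
  rw [← Real.le_log_iff_exp_le hpos]
  refine le_trans ?_ (Real.one_sub_inv_le_log_of_pos hpos)
  rw [show 1 - (1 - p)⁻¹ = -p / (1 - p) by field_simp; ring, le_div_iff₀ hpos]
  nlinarith [mul_nonneg h0 (mul_nonneg h0 (by linarith : 0 ≤ 1 - 2 * p))]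

/-- one factor -/
private theorem c4c_pow (n : ℕ) (a q b H : ℝ) (hn : (n : ℝ) = a * q) (ha : 0 ≤ a) (hq : 12 ≤ q) (hb0 : 0 ≤ b)
    (hb : b ≤ 2) (hH : q - 2 ≤ 2 * H) :
    Real.exp (-(a * b)) * Real.exp (-(40 * a / q)) ≤ (1 - b / (2 * H)) ^ n := by
  have hy : 0 < q - 2 := by linarith
  have hH0 : 0 < 2 * H := by linarith
  set p : ℝ := b / (2 * H) with hp
  have hp0 : 0 ≤ p := by positivity
  have hpy : p ≤ b / (q - 2) := div_le_div_of_nonneg_left hb0 hy hH
  have hpy2 : b / (q - 2) ≤ 1 / 2 := by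
    rw [div_le_iff₀ hy]; linarith
  have h1 := c4c_exp p hp0 (hpy.trans hpy2)
  have h2 : Real.exp (-(p + 2 * p ^ 2)) ^ n ≤ (1 - p) ^ n := pow_le_pow_left₀ (Real.exp_nonneg _) h1 n
  refine le_trans ?_ h2
  rw [← Real.exp_nat_mul, ← Real.exp_add]
  refine Real.exp_le_exp.2 ?_
  rw [hn]
  have h3 : p ≤ b / q + 4 * 1 / q ^ 2 * b := by
    refine hpy.trans ?_
    rw [div_le_iff₀ hy]
    have : (b / q + 4 * 1 / q ^ 2 * b) * (q - 2) = b + b * (2 * q - 8) / q ^ 2 := by
      field_simp; ring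
    rw [this]
    have : 0 ≤ b * (2 * q - 8) / q ^ 2 := by
      have : 0 ≤ 2 * q - 8 := by linarith
      positivity
    linarith
  have h4 : p ^ 2 ≤ 16 / q ^ 2 := by
    have h5 : p ≤ 4 / q := by
      refine hpy.trans ?_
      rw [div_le_div_iff₀ hy (by linarith)]
      nlinarith
    calc p ^ 2 ≤ (4 / q) ^ 2 := pow_le_pow_left₀ hp0 h5 2
      _ = 16 / q ^ 2 := by rw [div_pow]; norm_num
  have h6 : a * q * (p + 2 * p ^ 2) ≤ a * q * (b / q + 4 * 1 / q ^ 2 * b + 2 * (16 / q ^ 2)) := by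
    refine mul_le_mul_of_nonneg_left ?_ (by positivity)
    linarith
  have h7 : a * q * (b / q + 4 * 1 / q ^ 2 * b + 2 * (16 / q ^ 2)) = a * b + a * (4 * b + 32) / q := by
    field_simp; ring
  have h8 : a * (4 * b + 32) / q ≤ 40 * a / q := by
    refine div_le_div_of_nonneg_right ?_ (by linarith)
    nlinarith
  linarith

private theorem c4c_large (A κ δ : ℝ) (hκ : 0 < κ) (hδ : 0 < δ) : ∃ M : ℝ, 12 ≤ M ∧ ∀ x : ℝ, M ≤ x →
    8 / x + 40 * A / x + δ / 4 + (4 / δ + 4 * Real.log x) / (κ * x) ≤ δ ∧ 40 * A / x ≤ 1 ∧ 2 ≤ κ * x := by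
  have t1 : Tendsto (fun x : ℝ => (8 + 40 * A) / x) atTop (nhds 0) := tendsto_const_nhds.div_atTop tendsto_id
  have t2 : Tendsto (fun x : ℝ => (4 / δ / κ) / x) atTop (nhds 0) := tendsto_const_nhds.div_atTop tendsto_id
  have t3 : Tendsto (fun x : ℝ => (4 / κ) * (Real.log x ^ 1 / (1 * x + 0))) atTop (nhds ((4 / κ) * 0)) :=
    (Real.tendsto_pow_log_div_mul_add_atTop 1 0 1 one_ne_zero).const_mul _
  have t4 : Tendsto (fun x : ℝ => 40 * A / x) atTop (nhds 0) := tendsto_const_nhds.div_atTop tendsto_id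
  rw [mul_zero] at t3
  have e1 := t1.eventually (gt_mem_nhds (show (0 : ℝ) < δ / 4 by positivity))
  have e2 := t2.eventually (gt_mem_nhds (show (0 : ℝ) < δ / 4 by positivity))
  have e3 := t3.eventually (gt_mem_nhds (show (0 : ℝ) < δ / 4 by positivity))
  have e4 := t4.eventually (gt_mem_nhds (show (0 : ℝ) < 1 by norm_num))
  have e5 : ∀ᶠ x : ℝ in atTop, 2 / κ ≤ x := eventually_ge_atTop _
  obtain ⟨M, hM⟩ := eventually_atTop.1 (e1.and (e2.and (e3.and (e4.and e5))))
  refine ⟨max M 12, le_max_right _ _, fun x hx => ?_⟩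
  obtain ⟨h1, h2, h3, h4, h5⟩ := hM x (le_trans (le_max_left _ _) hx)
  have hx12 : 12 ≤ x := le_trans (le_max_right _ _) hx
  have hx0 : 0 < x := by linarith
  refine ⟨?_, h4.le, ?_⟩
  · have e : 8 / x + 40 * A / x + δ / 4 + (4 / δ + 4 * Real.log x) / (κ * x) =
        (8 + 40 * A) / x + δ / 4 + (4 / δ / κ) / x + (4 / κ) * (Real.log x ^ 1 / (1 * x + 0)) := by
      field_simp; ring
    rw [e]
    linarith
  · rw [div_le_iff₀ hκ] at h5
    linarith

/-- the explicit weights -/
private theorem c4c_core (Q d : ℕ) (a m q δ κ A : ℝ) (hq : q = (Q : ℝ) + 1) (ha : 0 ≤ a) (haA : a ≤ A)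
    (hd : 2 * (d : ℝ) = a * q) (hm0 : 0 < m) (hm1 : m < 1) (hδ : 0 < δ) (hκ : κ = Real.exp (-1 - A) / 2)
    (hq12 : 12 ≤ q)
    (h1 : 8 / q + 40 * A / q + δ / 4 + (4 / δ + 4 * Real.log q) / (κ * q) ≤ δ) (h2 : 40 * A / q ≤ 1)
    (h3 : 2 ≤ κ * q) (hMF : MFE a m) :
    ∃ p : Fin (Q + 1) → ℝ, (∀ c, 0 ≤ p c) ∧ ∑ c, p c = 1 ∧ p (Fin.last Q) = 0 ∧
      2 * Real.log q + Phi a m - δ ≤
        (∑ s : Stp d → Fin (Q + 1), (∏ σ, p (s σ)) * Real.log (((univ.image s)ᶜ : Finset (Fin (Q + 1))).card)) -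
          ∑ c, p c * Real.log (p c) := by
  have hq0 : 0 < q := by linarith
  have hQ11 : (11 : ℝ) ≤ Q := by linarith
  have hQ11' : 11 ≤ Q := by exact_mod_cast hQ11
  have hH1n : Q ≤ 2 * (Q / 2) + 1 := by omega
  have hH2n : Q ≤ 2 * (Q - Q / 2) := by omega
  have hHs : Q / 2 + (Q - Q / 2) = Q := by omega
  have hH1 : q - 2 ≤ 2 * ((Q / 2 : ℕ) : ℝ) := by
    have : (Q : ℝ) ≤ 2 * ((Q / 2 : ℕ) : ℝ) + 1 := by exact_mod_cast hH1n
    linarith
  have hH2 : q - 2 ≤ 2 * ((Q - Q / 2 : ℕ) : ℝ) := by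
    have : (Q : ℝ) ≤ 2 * ((Q - Q / 2 : ℕ) : ℝ) := by exact_mod_cast hH2n
    linarith
  have hH1p : 0 < ((Q / 2 : ℕ) : ℝ) := by linarith
  have hH2p : 0 < ((Q - Q / 2 : ℕ) : ℝ) := by linarith
  have hsum := c4c_sum Q m
  set H1 : ℝ := ((Q / 2 : ℕ) : ℝ) with hH1def
  set H2 : ℝ := ((Q - Q / 2 : ℕ) : ℝ) with hH2def
  set p : Fin (Q + 1) → ℝ := fun c => c4c_pp Q m c.val with hpdef
  have hp : ∀ c, 0 ≤ p c := by
    intro c
    simp only [hpdef, c4c_pp]
    split_ifs
    · positivity
    · exact div_nonneg (by linarith) (by positivity)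
    · exact le_rfl
  have hs : ∑ c, p c = 1 := by
    have := hsum (fun x => x)
    simp only [hpdef]
    rw [this]
    field_simp
    ring
  have hlast : p (Fin.last Q) = 0 := by
    simp only [hpdef, c4c_pp, Fin.val_last]
    rw [if_neg (by omega), if_neg (by omega)]
  refine ⟨p, hp, hs, hlast, ?_⟩
  -- the number of steps
  have hcard : (Fintype.card (Stp d) : ℝ) = a * q := by
    rw [Fintype.card_prod, Fintype.card_fin, Fintype.card_bool]
    push_cast
    linarith
  -- the mean
  set n : ℕ := Fintype.card (Stp d) with hn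
  set μ : ℝ := ∑ c, (1 - p c) ^ n with hμ
  have hμe : μ = H1 * (1 - (1 + m) / (2 * H1)) ^ n + H2 * (1 - (1 - m) / (2 * H2)) ^ n + (1 - 0) ^ n := by
    have := hsum (fun x => (1 - x) ^ n)
    rw [hμ]
    exact this
  have hals : 0 < als a m := als_pos a m
  have halsb := als_bounds a m ha (abs_le.2 ⟨by linarith, by linarith⟩)
  have hb1 := c4c_pow n a q (1 + m) H1 hcard ha hq12 (by linarith) (by linarith) hH1
  have hb2 := c4c_pow n a q (1 - m) H2 hcard ha hq12 (by linarith) (by linarith) hH2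
  have halse : als a m = (Real.exp (-(a * (1 + m))) + Real.exp (-(a * (1 - m)))) / 2 := by
    rw [als, Real.cosh_eq, show -(a * (1 + m)) = -a + -(a * m) by ring, show -(a * (1 - m)) = -a + a * m by ring,
      Real.exp_add, Real.exp_add]
    ring
  have hθ : Real.exp (-(40 * A / q)) ≤ Real.exp (-(40 * a / q)) := by
    refine Real.exp_le_exp.2 (neg_le_neg ?_)
    exact div_le_div_of_nonneg_right (by linarith) hq0.le
  have hμlow : (q - 2) * (Real.exp (-(40 * A / q)) * als a m) ≤ μ := by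
    have g1 : (q - 2) / 2 * (Real.exp (-(a * (1 + m))) * Real.exp (-(40 * a / q))) ≤
        H1 * (1 - (1 + m) / (2 * H1)) ^ n := by
      refine mul_le_mul (by linarith) hb1 (by positivity) (by positivity)
    have g2 : (q - 2) / 2 * (Real.exp (-(a * (1 - m))) * Real.exp (-(40 * a / q))) ≤
        H2 * (1 - (1 - m) / (2 * H2)) ^ n := by
      refine mul_le_mul (by linarith) hb2 (by positivity) (by positivity)
    have g3 : (q - 2) * (Real.exp (-(40 * A / q)) * als a m) ≤ (q - 2) * (Real.exp (-(40 * a / q)) * als a m) :=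
      mul_le_mul_of_nonneg_left (mul_le_mul_of_nonneg_right hθ hals.le) (by linarith)
    have g4 : (q - 2) * (Real.exp (-(40 * a / q)) * als a m) =
        (q - 2) / 2 * (Real.exp (-(a * (1 + m))) * Real.exp (-(40 * a / q))) +
          (q - 2) / 2 * (Real.exp (-(a * (1 - m))) * Real.exp (-(40 * a / q))) := by
      rw [halse]; ring
    have g5 : (0 : ℝ) ≤ (1 - 0) ^ n := pow_nonneg (by norm_num) n
    rw [hμe]
    calc (q - 2) * (Real.exp (-(40 * A / q)) * als a m) ≤ _ := g3
      _ = _ := g4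
      _ ≤ H1 * (1 - (1 + m) / (2 * H1)) ^ n + H2 * (1 - (1 - m) / (2 * H2)) ^ n := add_le_add g1 g2
      _ ≤ _ := le_add_of_nonneg_right g5
  have hμκ : κ * q ≤ μ := by
    refine le_trans ?_ hμlow
    have k1 : Real.exp (-1) ≤ Real.exp (-(40 * A / q)) := Real.exp_le_exp.2 (by linarith)
    have k2 : Real.exp (-A) ≤ als a m := le_trans (Real.exp_le_exp.2 (by linarith)) halsb.1
    have k3 : Real.exp (-1 - A) ≤ Real.exp (-(40 * A / q)) * als a m := by
      rw [show -1 - A = -1 + -A by ring, Real.exp_add]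
      exact mul_le_mul k1 k2 (Real.exp_nonneg _) (Real.exp_nonneg _)
    calc κ * q = (q / 2) * Real.exp (-1 - A) := by rw [hκ]; ring
      _ ≤ (q - 2) * (Real.exp (-(40 * A / q)) * als a m) := by
        refine mul_le_mul (by linarith) k3 (Real.exp_nonneg _) (by linarith)
  have hμ2 : 2 ≤ μ := h3.trans hμκ
  have hμ0 : 0 < μ := by linarith
  have hμq : μ ≤ q := by
    have : μ ≤ ∑ c : Fin (Q + 1), (1 : ℝ) := by
      rw [hμ]
      refine Finset.sum_le_sum fun c _ => ?_
      have hc1 : p c ≤ ∑ c, p c := Finset.single_le_sum (fun i _ => hp i) (Finset.mem_univ c)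
      exact pow_le_one₀ (by linarith) (by linarith [hp c])
    rw [Finset.sum_const, Finset.card_univ, Fintype.card_fin, nsmul_eq_mul, mul_one] at this
    push_cast at this
    linarith
  have hlogE := c4c_log (ι := Stp d) p hp hs (Fin.last Q) hlast μ hμ hμ2 (δ / 4) (by positivity)
  -- logarithms
  have hy : 0 < q - 2 := by linarith
  have hlogy : Real.log q - 4 / q ≤ Real.log (q - 2) := by
    have := Real.log_le_sub_one_of_pos (show 0 < q / (q - 2) by positivity)
    rw [Real.log_div hq0.ne' hy.ne'] at this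
    have e : q / (q - 2) - 1 ≤ 4 / q := by
      rw [show q / (q - 2) - 1 = 2 / (q - 2) by field_simp; ring, div_le_div_iff₀ hy hq0]
      linarith
    linarith
  have hlogμ : Real.log (q - 2) - 40 * A / q + Real.log (als a m) ≤ Real.log μ := by
    have := Real.log_le_log (by positivity) hμlow
    rw [Real.log_mul hy.ne' (by positivity), Real.log_mul (by positivity) hals.ne', Real.log_exp] at this
    linarith
  have herr : (1 / (δ / 4) + 4 * Real.log μ) / μ ≤ (4 / δ + 4 * Real.log q) / (κ * q) := by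
    have k1 : 1 / (δ / 4) = 4 / δ := by field_simp
    rw [k1]
    have k2 : Real.log μ ≤ Real.log q := Real.log_le_log hμ0 hμq
    have k3 : 0 ≤ Real.log q := Real.log_nonneg (by linarith)
    exact div_le_div₀ (by positivity) (by linarith) (by linarith) hμκ
  -- the entropy
  have hent : Real.log (q - 2) - ((1 + m) * Real.log (1 + m) + (1 - m) * Real.log (1 - m)) / 2 ≤
      -∑ c, p c * Real.log (p c) := by
    have e := hsum (fun x => x * Real.log x)
    have e' : ∑ c, p c * Real.log (p c) = H1 * ((1 + m) / (2 * H1) * Real.log ((1 + m) / (2 * H1))) +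
        H2 * ((1 - m) / (2 * H2) * Real.log ((1 - m) / (2 * H2))) + 0 * Real.log 0 := e
    rw [e', Real.log_div (by linarith) (by positivity), Real.log_div (by linarith) (by positivity)]
    have f1 : H1 * ((1 + m) / (2 * H1) * (Real.log (1 + m) - Real.log (2 * H1))) =
        (1 + m) / 2 * (Real.log (1 + m) - Real.log (2 * H1)) := by
      field_simp
    have f2 : H2 * ((1 - m) / (2 * H2) * (Real.log (1 - m) - Real.log (2 * H2))) =
        (1 - m) / 2 * (Real.log (1 - m) - Real.log (2 * H2)) := by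
      field_simp
    rw [f1, f2]
    have l1 : Real.log (q - 2) ≤ Real.log (2 * H1) := Real.log_le_log hy hH1
    have l2 : Real.log (q - 2) ≤ Real.log (2 * H2) := Real.log_le_log hy hH2
    have m1 : (1 + m) / 2 * Real.log (q - 2) ≤ (1 + m) / 2 * Real.log (2 * H1) :=
      mul_le_mul_of_nonneg_left l1 (by linarith)
    have m2 : (1 - m) / 2 * Real.log (q - 2) ≤ (1 - m) / 2 * Real.log (2 * H2) :=
      mul_le_mul_of_nonneg_left l2 (by linarith)
    have m3 : Real.log (q - 2) = (1 + m) / 2 * Real.log (q - 2) + (1 - m) / 2 * Real.log (q - 2) := by ring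
    linarith
  have hphi := phi_eq a m hMF
  have hfin : 8 / q = 4 / q + 4 / q := by ring
  rw [hphi]
  linarith

/-- one site -/
theorem one_site {ε : ℝ} (hε : 0 < ε) (hε1 : ε ≤ 1) (δ : ℝ) (hδ : 0 < δ) : EvT ε fun d _ q => ∀ m : ℝ, MFE (ra d q) m →
    ∃ (Q : ℕ) (p : Fin (Q + 1) → ℝ), q = Q + 1 ∧ (∀ c, 0 ≤ p c) ∧ ∑ c, p c = 1 ∧ p (Fin.last Q) = 0 ∧
      2 * Real.log q + Phi (ra d q) m - δ ≤
        (∑ s : Stp d → Fin (Q + 1), (∏ σ, p (s σ)) * Real.log (((univ.image s)ᶜ : Finset (Fin (Q + 1))).card)) -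
          ∑ c, p c * Real.log (p c) := by
  obtain ⟨M, hM12, hM⟩ := c4c_large (A0 ε) (Real.exp (-1 - A0 ε) / 2) δ (by positivity) hδ
  refine (EvT_reg hε hε1 M).mono ?_
  rintro d k q ⟨_, hMq, _, _, _, ha1, haA, hdq⟩ m hMF
  obtain ⟨h1, h2, h3⟩ := hM q hMq
  have hq12 : (12 : ℝ) ≤ q := hM12.trans hMq
  have hq12' : 12 ≤ q := by exact_mod_cast hq12
  have ha0 : 0 ≤ ra d q := by
    rw [ra]; positivity
  obtain ⟨p, hp1, hp2, hp3, hp4⟩ := c4c_core (q - 1) d (ra d q) m q δ (Real.exp (-1 - A0 ε) / 2) (A0 ε)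
    (by rw [Nat.cast_sub (by omega)]; push_cast; ring) ha0 haA hdq hMF.1 (mfe_lt _ _ hMF) hδ rfl hq12 h1 h2 h3 hMF
  exact ⟨q - 1, p, by omega, hp1, hp2, hp3, hp4⟩

end Pool.Agent.THR

end

/-! ### from `Lib_MP_2c424f_thr.B1` -/

section

/-!
# THR B1: block means (paper proof: B1)

`Ms s t φ` is the mean of `φ (pt t a b)` over the odd pairs `(a,b)` of the shape `s` (the block or one of its `2d` faces).
* `oS_card`: the block has `4^d/2` odd pairs, a face `4^(d-1)/2` (`d ≥ 2`; flip one free bit).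
* `Ms_face`: so a face mean of a nonnegative function is at most `4` times the block mean.
* `Ms_sum`: `LO.sum_EB` (`Ms none t φ = EB (fun a b => φ (pt t a b))`).
* `bdT_loc`: `bq c f v` depends on `f v` only.
* `bdT_sym`: `LO.rs_pt`, `rs_rs`, `rb_rb`: `Ms s (rb j α t) (bq c (f ∘ rs j α)) = Ms s' t (bq c f)`, `s' = s` with `β` flipped if the direction of `s` is `j`; `od` is
  invariant under flipping both bits.
* `lab_adj`: the face `(j, true)` of `t` is the face `(j, false)` of `nxt t j` (`pt t a b = pt (nxt t j) (flp a j) (flp b j)` for `a j = b j = true`), so if one block is `hiL θ` and the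
  other `loL θ'`, then `θ ≤ mean ≤ θ'`.  See `Lib_MP_2c424f_lin/B1.lean` (`badd_loc`, `badd_sym`, `labd_adj`) for the same statements for other labels.
-/

set_option autoImplicit false

open Finset Filter

namespace Pool.Agent.THR

open Pool.Agent.LO Pool.Agent.LIN

variable {d k q : ℕ}

open scoped Classical in
private theorem B1_sum (s : Shp d) (F : Bt d → Bt d → ℝ) :
    ∑ p ∈ oS s, F p.1 p.2 = ∑ a, ∑ b, if od a b then (if inS s a b then F a b else 0) else 0 := by
  unfold oS
  rw [Finset.sum_filter, ← Finset.univ_product_univ, Finset.sum_product]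
  refine Finset.sum_congr rfl fun a _ => Finset.sum_congr rfl fun b _ => ?_
  by_cases h : od a b
  · by_cases h' : inS s a b
    · rw [if_pos ⟨h, h'⟩, if_pos h, if_pos h']
    · rw [if_neg (fun hc => h' hc.2), if_pos h, if_neg h']
  · rw [if_neg (fun hc => h hc.1), if_neg h]

open scoped Classical in
private theorem B1_sum_EB (s : Shp d) (F : Bt d → Bt d → ℝ) :
    ∑ p ∈ oS s, F p.1 p.2 = (4 : ℝ) ^ d / 2 * EB (fun a b => if inS s a b then F a b else 0) := by
  rw [B1_sum]
  unfold EB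
  have h4 : (4 : ℝ) ^ d ≠ 0 := by positivity
  field_simp

theorem oS_card (hd : 2 ≤ d) (s : Shp d) : ((oS s).card : ℝ) = if s = none then (4 : ℝ) ^ d / 2 else (4 : ℝ) ^ (d - 1) / 2 := by
  classical
  have h1 : ((oS s).card : ℝ) = (4 : ℝ) ^ d / 2 * EB (fun a b => if inS s a b then (1 : ℝ) else 0) := by
    rw [← B1_sum_EB s (fun _ _ => (1 : ℝ))]
    simp
  rw [h1]
  rcases s with _ | ⟨j, β⟩
  · have h2 : EB (fun a b : Bt d => if inS (none : Shp d) a b then (1 : ℝ) else 0) = 1 := by
      refine Eq.trans (congrArg EB ?_) (card_od (d := d) (by omega))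
      funext a b
      simp [inS]
    rw [h2, if_pos rfl, mul_one]
  · have h2 : EB (fun a b : Bt d => if inS (some (j, β) : Shp d) a b then (1 : ℝ) else 0) = 1 / 4 := by
      refine Eq.trans (congrArg EB ?_) (card_od_face hd j β)
      funext a b
      simp [inS]
    rw [h2, if_neg (by simp)]
    obtain ⟨e, rfl⟩ : ∃ e, d = e + 1 := ⟨d - 1, by omega⟩
    rw [Nat.add_sub_cancel, pow_succ]
    ring

private theorem B1_card_pos (hd : 2 ≤ d) (s : Shp d) : (0 : ℝ) < ((oS s).card : ℝ) := by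
  rw [oS_card hd s]
  split_ifs <;> positivity

private theorem B1_mem (s : Shp d) (p : Bt d × Bt d) (hp : p ∈ oS s) : od p.1 p.2 := by
  classical
  unfold oS at hp
  exact (Finset.mem_filter.1 hp).2.1

theorem Ms_mono (s : Shp d) (t : Blk d k) {φ ψ : Site d (k + 1) → ℝ} (h : ∀ a b, od a b → φ (pt t a b) ≤ ψ (pt t a b)) :
    Ms s t φ ≤ Ms s t ψ := by
  unfold Ms
  refine div_le_div_of_nonneg_right ?_ (Nat.cast_nonneg _)
  exact Finset.sum_le_sum fun p hp => h p.1 p.2 (B1_mem s p hp)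

theorem Ms_add (s : Shp d) (t : Blk d k) (φ ψ : Site d (k + 1) → ℝ) :
    Ms s t (fun x => φ x + ψ x) = Ms s t φ + Ms s t ψ := by
  unfold Ms
  rw [Finset.sum_add_distrib, add_div]

theorem Ms_sub (s : Shp d) (t : Blk d k) (φ ψ : Site d (k + 1) → ℝ) :
    Ms s t (fun x => φ x - ψ x) = Ms s t φ - Ms s t ψ := by
  unfold Ms
  rw [Finset.sum_sub_distrib, sub_div]

theorem Ms_mul (s : Shp d) (t : Blk d k) (c : ℝ) (φ : Site d (k + 1) → ℝ) : Ms s t (fun x => c * φ x) = c * Ms s t φ := by
  unfold Ms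
  rw [← Finset.mul_sum, mul_div_assoc]

theorem Ms_const (hd : 2 ≤ d) (s : Shp d) (t : Blk d k) (c : ℝ) : Ms s t (fun _ => c) = c := by
  unfold Ms
  rw [Finset.sum_const, nsmul_eq_mul, mul_comm, mul_div_assoc, div_self (B1_card_pos hd s).ne', mul_one]

theorem Ms_abs (s : Shp d) (t : Blk d k) (φ : Site d (k + 1) → ℝ) : |Ms s t φ| ≤ Ms s t fun x => |φ x| := by
  unfold Ms
  rw [abs_div, Nat.abs_cast]
  exact div_le_div_of_nonneg_right (Finset.abs_sum_le_sum_abs _ _) (Nat.cast_nonneg _)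

theorem Ms_sq (hd : 2 ≤ d) (s : Shp d) (t : Blk d k) (φ : Site d (k + 1) → ℝ) : Ms s t φ ^ 2 ≤ Ms s t fun x => φ x ^ 2 := by
  unfold Ms
  have h0 := B1_card_pos hd s
  have h1 : (∑ p ∈ oS s, φ (pt t p.1 p.2)) ^ 2 ≤ ((oS s).card : ℝ) * ∑ p ∈ oS s, φ (pt t p.1 p.2) ^ 2 :=
    sq_sum_le_card_mul_sum_sq
  rw [div_pow, div_le_div_iff₀ (by positivity) h0]
  calc (∑ p ∈ oS s, φ (pt t p.1 p.2)) ^ 2 * ((oS s).card : ℝ)
      ≤ (((oS s).card : ℝ) * ∑ p ∈ oS s, φ (pt t p.1 p.2) ^ 2) * ((oS s).card : ℝ) :=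
        mul_le_mul_of_nonneg_right h1 h0.le
    _ = (∑ p ∈ oS s, φ (pt t p.1 p.2) ^ 2) * ((oS s).card : ℝ) ^ 2 := by ring

theorem Ms_face (hd : 2 ≤ d) (s : Shp d) (t : Blk d k) (φ : Site d (k + 1) → ℝ) (h : ∀ x, 0 ≤ φ x) :
    Ms s t φ ≤ 4 * Ms none t φ := by
  classical
  have hsub : ∑ p ∈ oS s, φ (pt t p.1 p.2) ≤ ∑ p ∈ oS (none : Shp d), φ (pt t p.1 p.2) := by
    refine Finset.sum_le_sum_of_subset_of_nonneg ?_ fun p _ _ => h _
    intro p hp
    unfold oS at hp ⊢
    rw [Finset.mem_filter] at hp ⊢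
    exact ⟨hp.1, hp.2.1, trivial⟩
  have h0 : 0 ≤ ∑ p ∈ oS (none : Shp d), φ (pt t p.1 p.2) := Finset.sum_nonneg fun p _ => h _
  have hn : ((oS (none : Shp d)).card : ℝ) = (4 : ℝ) ^ d / 2 := by
    rw [oS_card hd, if_pos rfl]
  have hc : (4 : ℝ) ^ d / 2 ≤ 4 * ((oS s).card : ℝ) := by
    rw [oS_card hd s]
    have h4 : (4 : ℝ) ^ d = 4 ^ (d - 1) * 4 := by
      rw [← pow_succ]; congr 1; omega
    have h5 : (0 : ℝ) < 4 ^ (d - 1) := by positivity
    split_ifs
    · rw [h4]; linarith
    · rw [h4]; linarith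
  have hp := B1_card_pos hd s
  have hp4 : (0 : ℝ) < (4 : ℝ) ^ d / 2 := by positivity
  unfold Ms
  rw [hn, ← mul_div_assoc, div_le_div_iff₀ hp hp4]
  calc (∑ p ∈ oS s, φ (pt t p.1 p.2)) * ((4 : ℝ) ^ d / 2)
      ≤ (∑ p ∈ oS (none : Shp d), φ (pt t p.1 p.2)) * ((4 : ℝ) ^ d / 2) :=
        mul_le_mul_of_nonneg_right hsub hp4.le
    _ ≤ (∑ p ∈ oS (none : Shp d), φ (pt t p.1 p.2)) * (4 * ((oS s).card : ℝ)) :=
        mul_le_mul_of_nonneg_left hc h0
    _ = 4 * (∑ p ∈ oS (none : Shp d), φ (pt t p.1 p.2)) * ((oS s).card : ℝ) := by ring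

theorem Ms_sum (hd : 2 ≤ d) (hk : 1 ≤ k) (φ : Site d (k + 1) → ℝ) :
    ∑ t : Blk d k, Ms none t φ = 2 / 2 ^ d * ∑ v ∈ ods d (k + 1), φ v := by
  classical
  rw [← sum_EB (k := k) (by omega) φ]
  refine Finset.sum_congr rfl fun t _ => ?_
  have hn : ((oS (none : Shp d)).card : ℝ) = (4 : ℝ) ^ d / 2 := by
    rw [oS_card hd, if_pos rfl]
  unfold Ms
  rw [B1_sum_EB (none : Shp d) (fun a b => φ (pt t a b)), hn]
  have hp4 : (0 : ℝ) < (4 : ℝ) ^ d / 2 := by positivity
  rw [mul_comm, mul_div_assoc, div_self hp4.ne', mul_one]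
  congr 1
  funext a b
  exact if_pos trivial

end Pool.Agent.THR

end

/-! ### from `Lib_MP_2c424f_thr.B2a` -/

section

/-!
# THR B2a: Efron-Stein inequality on the odd half of the cube (paper proof: B2)

* `es_bits`: `G : (Fin n → Bool) → ℝ` (or any finite index type of bits), uniform measure: variance `≤ (1/4) ∑_i mean |G (flip_i ω) - G ω|²`
  (Efron-Stein / Poincaré inequality of the cube; induction on `n`, or: the variance is `(1/2)` mean over independent `ω, ω'` of the squared difference, replace the bits one by one ...; the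
  induction is the simplest: conditional variance given the first bit plus the variance of the conditional mean, which is `(1/4) (mean G(1,·) - mean G(0,·))²`, then Jensen).
* `es_odd`: the odd pairs `(a,b) ∈ Bt d × Bt d` are parametrised by `a` and the bits `b i`, `i ≠ l`: the bit `b l` is determined by the parity.  Flipping one of the free bits means
  flipping this bit and `b l`.
-/

set_option autoImplicit false

open Finset Filter

namespace Pool.Agent.THR

open Pool.Agent.LO Pool.Agent.LIN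

private theorem b2a_sum_succ {n : ℕ} (G : Bt (n + 1) → ℝ) :
    ∑ a, G a = ∑ a : Bt n, G (Fin.cons false a) + ∑ a : Bt n, G (Fin.cons true a) := by
  have h : ∑ a, G a = ∑ p : Bool × Bt n, G (Fin.cons p.1 p.2) := by
    refine (Fintype.sum_equiv (Fin.insertNthEquiv (fun _ : Fin (n + 1) => Bool) 0) _ _ ?_).symm
    intro p
    congr 1
    simp only [Fin.insertNthEquiv, Equiv.coe_fn_mk, Fin.insertNth_zero']
  rw [h, Fintype.sum_prod_type, Fintype.sum_bool, add_comm]

private theorem b2a_flp_zero {n : ℕ} (b : Bool) (a : Bt n) :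
    flp (Fin.cons b a : Bt (n + 1)) 0 = Fin.cons (!b) a := by
  unfold flp
  rw [Fin.cons_zero, Fin.update_cons_zero]

private theorem b2a_flp_succ {n : ℕ} (b : Bool) (a : Bt n) (j : Fin n) :
    flp (Fin.cons b a : Bt (n + 1)) j.succ = Fin.cons b (flp a j) := by
  unfold flp
  rw [Fin.cons_succ, Fin.cons_update]

/-- Efron-Stein on the cube -/
private theorem b2a_es (n : ℕ) (G : Bt n → ℝ) :
    2 ^ n * (∑ a, G a ^ 2) - (∑ a, G a) ^ 2 ≤
      1 / 4 * (2 ^ n * ∑ j, ∑ a, (G (flp a j) - G a) ^ 2) := by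
  induction n with
  | zero =>
    simp
  | succ n ih =>
    have i0 := ih (fun a => G (Fin.cons false a))
    have i1 := ih (fun a => G (Fin.cons true a))
    have hcs : (∑ a : Bt n, (G (Fin.cons false a) - G (Fin.cons true a))) ^ 2 ≤
        2 ^ n * ∑ a : Bt n, (G (Fin.cons false a) - G (Fin.cons true a)) ^ 2 := by
      have h := sq_sum_le_card_mul_sum_sq (s := (Finset.univ : Finset (Bt n)))
        (f := fun a => G (Fin.cons false a) - G (Fin.cons true a))
      rw [Finset.card_univ, Fintype.card_fun, Fintype.card_bool, Fintype.card_fin] at h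
      push_cast at h
      exact h
    rw [Finset.sum_sub_distrib] at hcs
    rw [b2a_sum_succ, b2a_sum_succ, Fin.sum_univ_succ]
    simp_rw [b2a_sum_succ]
    simp_rw [b2a_flp_zero, b2a_flp_succ]
    simp only [Bool.not_false, Bool.not_true]
    rw [Finset.sum_add_distrib]
    have h2 : ∑ a : Bt n, (G (Fin.cons true a) - G (Fin.cons false a)) ^ 2 =
        ∑ a : Bt n, (G (Fin.cons false a) - G (Fin.cons true a)) ^ 2 := by
      refine Finset.sum_congr rfl fun a _ => ?_
      ring
    rw [h2]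
    rw [pow_succ (2 : ℝ) n]
    nlinarith

theorem es_bits {ι : Type*} [Fintype ι] [DecidableEq ι] (G : (ι → Bool) → ℝ) :
    (∑ ω, G ω ^ 2) / 2 ^ Fintype.card ι - ((∑ ω, G ω) / 2 ^ Fintype.card ι) ^ 2 ≤
      1 / 4 * ∑ i, (∑ ω, (G (Function.update ω i (!ω i)) - G ω) ^ 2) / 2 ^ Fintype.card ι := by
  classical
  set n := Fintype.card ι with hn
  let e : ι ≃ Fin n := Fintype.equivFin ι
  let E : Bt n ≃ (ι → Bool) := ⟨fun a i => a (e i), fun ω j => ω (e.symm j), fun a => by
    funext j; simp, fun ω => by funext i; simp⟩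
  have hE : ∀ H : (ι → Bool) → ℝ, ∑ a : Bt n, H (E a) = ∑ ω, H ω := fun H => Equiv.sum_comp E H
  have hflip : ∀ (a : Bt n) (i : ι), E (flp a (e i)) = Function.update (E a) i (!(E a) i) := by
    intro a i
    funext j
    by_cases h : j = i
    · subst h
      simp [E, flp]
    · simp [E, flp, h]
  have key := b2a_es n (fun a => G (E a))
  have e1 : ∑ a : Bt n, G (E a) ^ 2 = ∑ ω, G ω ^ 2 := hE fun ω => G ω ^ 2
  have e2 : ∑ a : Bt n, G (E a) = ∑ ω, G ω := hE G
  have e3 : ∑ j, ∑ a : Bt n, (G (E (flp a j)) - G (E a)) ^ 2 =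
      ∑ i, ∑ ω, (G (Function.update ω i (!ω i)) - G ω) ^ 2 := by
    rw [← Equiv.sum_comp e]
    refine Finset.sum_congr rfl fun i _ => ?_
    rw [← hE fun ω => (G (Function.update ω i (!ω i)) - G ω) ^ 2]
    refine Finset.sum_congr rfl fun a _ => ?_
    rw [hflip]
  simp only [e1, e2, e3] at key
  have hpos : (0 : ℝ) < 2 ^ n := by positivity
  rw [← Finset.sum_div]
  set S2 := ∑ ω, G ω ^ 2
  set S1 := ∑ ω, G ω
  set D := ∑ i, ∑ ω, (G (Function.update ω i (!ω i)) - G ω) ^ 2
  have f1 : S2 / 2 ^ n - (S1 / 2 ^ n) ^ 2 = (2 ^ n * S2 - S1 ^ 2) / (2 ^ n * 2 ^ n) := by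
    field_simp
  have f2 : 1 / 4 * (D / 2 ^ n) = (1 / 4 * (2 ^ n * D)) / (2 ^ n * 2 ^ n) := by
    field_simp
  rw [f1, f2]
  gcongr

private theorem b2a_flp_flp {d : ℕ} (a : Bt d) (i : Fin d) : flp (flp a i) i = a := by
  unfold flp
  simp

private theorem b2a_od_flp {d : ℕ} (a b : Bt d) (i : Fin d) : od (flp a i) b ↔ ¬ od a b := by
  unfold od
  by_cases h : a i = b i
  · have h1 : (univ.filter fun r => flp a i r ≠ b r) = insert i (univ.filter fun r => a r ≠ b r) := by
      ext r
      simp only [Finset.mem_filter, Finset.mem_univ, true_and, Finset.mem_insert]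
      by_cases hr : r = i
      · subst hr
        simp [flp, h]
      · simp [flp, hr]
    rw [h1, Finset.card_insert_of_notMem (by simp [h]), Nat.odd_add_one]
  · have h1 : (univ.filter fun r => a r ≠ b r) = insert i (univ.filter fun r => flp a i r ≠ b r) := by
      ext r
      simp only [Finset.mem_filter, Finset.mem_univ, true_and, Finset.mem_insert]
      by_cases hr : r = i
      · subst hr
        simp [h]
      · simp [flp, hr]
    have h2 : flp a i i = b i := by
      simp only [flp, Function.update_self]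
      cases ha : a i <;> cases hb : b i <;> simp_all
    rw [h1, Finset.card_insert_of_notMem (by simp [h2]), Nat.odd_add_one, not_not]

private theorem b2a_od_comm {d : ℕ} (a b : Bt d) : od a b ↔ od b a := by
  unfold od
  have : (univ.filter fun r => a r ≠ b r) = univ.filter fun r => b r ≠ a r := by
    ext r
    simp [ne_comm]
  rw [this]

private theorem b2a_od_flp' {d : ℕ} (a b : Bt d) (i : Fin d) : od a (flp b i) ↔ ¬ od a b := by
  rw [b2a_od_comm, b2a_od_flp, b2a_od_comm]

private theorem b2a_mem {d : ℕ} (p : Bt d × Bt d) : p ∈ oS (d := d) none ↔ od p.1 p.2 := by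
  simp [oS, inS]

/-- free bits of an odd pair -/
private abbrev B2aK {d : ℕ} (l : Fin d) := Fin d ⊕ {i : Fin d // i ≠ l}

/-- restriction to the free bits -/
private def b2aR {d : ℕ} (l : Fin d) (p : Bt d × Bt d) : B2aK l → Bool :=
  Sum.elim p.1 fun i => p.2 i.1

/-- extension by the bit `false` -/
private def b2aB {d : ℕ} (l : Fin d) (ω : B2aK l → Bool) : Bt d :=
  fun i => if h : i ≠ l then ω (Sum.inr ⟨i, h⟩) else false

open scoped Classical in
/-- the odd pair with given free bits -/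
private noncomputable def b2aE {d : ℕ} (l : Fin d) (ω : B2aK l → Bool) : Bt d × Bt d :=
  (fun i => ω (Sum.inl i),
    if od (fun i => ω (Sum.inl i)) (b2aB l ω) then b2aB l ω else flp (b2aB l ω) l)

private theorem b2aE_mem {d : ℕ} (l : Fin d) (ω : B2aK l → Bool) : b2aE l ω ∈ oS (d := d) none := by
  rw [b2a_mem]
  unfold b2aE
  dsimp only
  split_ifs with h
  · exact h
  · rw [b2a_od_flp']
    exact h

private theorem b2aR_E {d : ℕ} (l : Fin d) (ω : B2aK l → Bool) : b2aR l (b2aE l ω) = ω := by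
  funext x
  rcases x with i | i
  · rfl
  · have hi : b2aB l ω i.1 = ω (Sum.inr i) := by
      unfold b2aB
      rw [dif_pos i.2]
    unfold b2aR b2aE
    simp only [Sum.elim_inr]
    split_ifs with h
    · exact hi
    · unfold flp
      rw [Function.update_of_ne i.2]
      exact hi

private theorem b2aE_R {d : ℕ} (l : Fin d) (p : Bt d × Bt d) (hp : p ∈ oS (d := d) none) :
    b2aE l (b2aR l p) = p := by
  rw [b2a_mem] at hp
  have hB : b2aB l (b2aR l p) = Function.update p.2 l false := by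
    funext i
    unfold b2aB b2aR
    by_cases h : i = l
    · subst h
      simp
    · simp [h]
  have h1 : (fun i => b2aR l p (Sum.inl i)) = p.1 := by
    funext i
    rfl
  unfold b2aE
  rw [h1, hB]
  refine Prod.ext rfl ?_
  dsimp only
  cases hl : p.2 l
  · have h2 : Function.update p.2 l false = p.2 := by
      rw [← hl, Function.update_eq_self]
    rw [h2, if_pos hp]
  · have h2 : Function.update p.2 l false = flp p.2 l := by
      unfold flp
      rw [hl]
      rfl
    rw [h2, if_neg (by rw [b2a_od_flp']; exact not_not.2 hp), b2a_flp_flp]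

private theorem b2a_sum {d : ℕ} (l : Fin d) (H : Bt d × Bt d → ℝ) :
    ∑ ω : B2aK l → Bool, H (b2aE l ω) = ∑ p ∈ oS (d := d) none, H p := by
  classical
  refine Finset.sum_nbij' (b2aE l) (b2aR l) (fun ω _ => b2aE_mem l ω) (fun p _ => Finset.mem_univ _)
    (fun ω _ => b2aR_E l ω) (fun p hp => b2aE_R l p hp) fun ω _ => rfl

private theorem b2a_flip_inl {d : ℕ} (l : Fin d) (ω : B2aK l → Bool) (i : Fin d) :
    b2aE l (Function.update ω (Sum.inl i) (!ω (Sum.inl i))) =
      (flp (b2aE l ω).1 i, flp (b2aE l ω).2 l) := by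
  have hm := b2aE_mem l ω
  rw [b2a_mem] at hm
  have hm2 : ((flp (b2aE l ω).1 i, flp (b2aE l ω).2 l) : Bt d × Bt d) ∈ oS (d := d) none := by
    rw [b2a_mem]
    dsimp only
    rw [b2a_od_flp, b2a_od_flp', not_not]
    exact hm
  rw [← b2aE_R l _ hm2]
  congr 1
  have hR := b2aR_E l ω
  funext x
  rcases x with j | j
  · have h1 : (b2aE l ω).1 = fun i => ω (Sum.inl i) := rfl
    unfold b2aR
    simp only [Sum.elim_inl]
    rw [h1]
    unfold flp
    by_cases h : j = i
    · subst h
      simp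
    · have h' : (Sum.inl j : B2aK l) ≠ Sum.inl i := fun hh => h (Sum.inl.inj hh)
      rw [Function.update_of_ne h', Function.update_of_ne h]
  · have h1 : (b2aE l ω).2 j.1 = ω (Sum.inr j) := by
      have := congrFun hR (Sum.inr j)
      exact this
    unfold b2aR
    simp only [Sum.elim_inr]
    unfold flp
    rw [Function.update_of_ne j.2, h1, Function.update_of_ne (by simp)]

private theorem b2a_flip_inr {d : ℕ} (l : Fin d) (ω : B2aK l → Bool) (i : {i : Fin d // i ≠ l}) :
    b2aE l (Function.update ω (Sum.inr i) (!ω (Sum.inr i))) =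
      ((b2aE l ω).1, flp (flp (b2aE l ω).2 i.1) l) := by
  have hm := b2aE_mem l ω
  rw [b2a_mem] at hm
  have hm2 : (((b2aE l ω).1, flp (flp (b2aE l ω).2 i.1) l) : Bt d × Bt d) ∈ oS (d := d) none := by
    rw [b2a_mem]
    dsimp only
    rw [b2a_od_flp', b2a_od_flp', not_not]
    exact hm
  rw [← b2aE_R l _ hm2]
  congr 1
  have hR := b2aR_E l ω
  funext x
  rcases x with j | j
  · have h1 : (b2aE l ω).1 = fun i => ω (Sum.inl i) := rfl
    unfold b2aR
    simp only [Sum.elim_inl]
    rw [h1, Function.update_of_ne (by simp)]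
  · have h1 : ∀ j : {i : Fin d // i ≠ l}, (b2aE l ω).2 j.1 = ω (Sum.inr j) := by
      intro j
      have := congrFun hR (Sum.inr j)
      exact this
    unfold b2aR
    simp only [Sum.elim_inr]
    unfold flp
    rw [Function.update_of_ne j.2]
    by_cases h : j = i
    · subst h
      rw [Function.update_self, Function.update_self, h1]
    · have h' : (Sum.inr j : B2aK l) ≠ Sum.inr i := fun hh => h (Sum.inr.inj hh)
      have h'' : j.1 ≠ i.1 := fun hh => h (Subtype.ext hh)
      rw [Function.update_of_ne h', Function.update_of_ne h'', h1]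

theorem es_odd {d : ℕ} (hd : 2 ≤ d) (l : Fin d) (G : Bt d → Bt d → ℝ) :
    (∑ p ∈ oS (d := d) none, G p.1 p.2 ^ 2) / ((oS (d := d) none).card : ℝ) -
        ((∑ p ∈ oS (d := d) none, G p.1 p.2) / ((oS (d := d) none).card : ℝ)) ^ 2 ≤
      1 / 4 * (∑ i, (∑ p ∈ oS (d := d) none, (G (flp p.1 i) (flp p.2 l) - G p.1 p.2) ^ 2) / ((oS (d := d) none).card : ℝ) +
        ∑ i ∈ univ.erase l, (∑ p ∈ oS (d := d) none, (G p.1 (flp (flp p.2 i) l) - G p.1 p.2) ^ 2) /
          ((oS (d := d) none).card : ℝ)) := by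
  classical
  have hcard : ((oS (d := d) none).card : ℝ) = 2 ^ Fintype.card (B2aK l) := by
    have h := b2a_sum l fun _ => (1 : ℝ)
    simp only [Finset.sum_const, Finset.card_univ, Fintype.card_fun, Fintype.card_bool, nsmul_eq_mul, mul_one] at h
    rw [← h]
    push_cast
    rfl
  have key := es_bits (ι := B2aK l) fun ω => G (b2aE l ω).1 (b2aE l ω).2
  rw [← hcard] at key
  have e1 := b2a_sum l fun p => G p.1 p.2 ^ 2
  have e2 := b2a_sum l fun p => G p.1 p.2
  have e3 : ∀ i : Fin d, ∑ ω : B2aK l → Bool,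
      (G (b2aE l (Function.update ω (Sum.inl i) (!ω (Sum.inl i)))).1
        (b2aE l (Function.update ω (Sum.inl i) (!ω (Sum.inl i)))).2 - G (b2aE l ω).1 (b2aE l ω).2) ^ 2 =
      ∑ p ∈ oS (d := d) none, (G (flp p.1 i) (flp p.2 l) - G p.1 p.2) ^ 2 := by
    intro i
    rw [← b2a_sum l fun p => (G (flp p.1 i) (flp p.2 l) - G p.1 p.2) ^ 2]
    refine Finset.sum_congr rfl fun ω _ => ?_
    rw [b2a_flip_inl]
  have e4 : ∀ i : {i : Fin d // i ≠ l}, ∑ ω : B2aK l → Bool,
      (G (b2aE l (Function.update ω (Sum.inr i) (!ω (Sum.inr i)))).1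
        (b2aE l (Function.update ω (Sum.inr i) (!ω (Sum.inr i)))).2 - G (b2aE l ω).1 (b2aE l ω).2) ^ 2 =
      ∑ p ∈ oS (d := d) none, (G p.1 (flp (flp p.2 i.1) l) - G p.1 p.2) ^ 2 := by
    intro i
    rw [← b2a_sum l fun p => (G p.1 (flp (flp p.2 i.1) l) - G p.1 p.2) ^ 2]
    refine Finset.sum_congr rfl fun ω _ => ?_
    rw [b2a_flip_inr]
  rw [Fintype.sum_sum_type] at key
  simp only [e3, e4] at key
  rw [e1, e2] at key
  have e5 : ∑ i ∈ univ.erase l, (∑ p ∈ oS (d := d) none, (G p.1 (flp (flp p.2 i) l) - G p.1 p.2) ^ 2) /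
          ((oS (d := d) none).card : ℝ) =
      ∑ i : {i : Fin d // i ≠ l}, (∑ p ∈ oS (d := d) none, (G p.1 (flp (flp p.2 i.1) l) - G p.1 p.2) ^ 2) /
          ((oS (d := d) none).card : ℝ) := by
    refine Finset.sum_subtype _ (fun i => ?_) _
    simp
  rw [e5]
  exact key

end Pool.Agent.THR

end

/-! ### from `Lib_MP_2c424f_thr.B0` -/

section

/-!
# THR B0: rare events on the torus of side `2^(k+1)`

`WOPb` is `WOP` with `k + 1` instead of `k`.
* `WOP.blk`, `WOP.blk'`: `EvT.shift`.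
* `WOPb.and`, `WOPb.mono`: as in T0 (`Rar.mono`, `Rar_union` or directly).
* `WOPb_tail`: `T1.tail` on the torus of side `2^(k+1)`, for the function `2^d Ψ`: thresholds `N'/d^K`, `N' = NN d (k+1) = 2^d NN d k`; index type finite and
  of size `≤ F d q` (`Rar_union`).  I.e. apply `tail` with `c = d^κ`, `δ = 1/d^K` to `2^d Ψ`.
-/

set_option autoImplicit false

open Finset Filter

namespace Pool.Agent.THR

open Pool.Agent.LO Pool.Agent.LIN

/-- with overwhelming probability, torus of side `2^(k+1)` -/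
def WOPb (ε : ℝ) (P : ∀ d k q : ℕ, (Site d (k + 1) → Fin q) → Prop) : Prop :=
  ∃ C : ℕ, EvT ε fun d k q => Rar C d (k + 1) q fun f => ¬ P d k q f

theorem WOP.blk {ε : ℝ} {P : ∀ d k q : ℕ, (Site d k → Fin q) → Prop} (h : WOP ε P) :
    WOPb ε fun d k q f => P d (k + 1) q f := by
  obtain ⟨C, hC⟩ := h
  exact ⟨C, hC.shift⟩

theorem WOPb.mono {ε : ℝ} {P Q : ∀ d k q : ℕ, (Site d (k + 1) → Fin q) → Prop} (h : WOPb ε P)
    (hPQ : EvT ε fun d k q => ∀ f ∈ prps d (k + 1) q, P d k q f → Q d k q f) : WOPb ε Q := by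
  obtain ⟨C, hC⟩ := h
  refine ⟨C, (hC.and hPQ).mono ?_⟩
  rintro d k q ⟨h1, h2⟩
  exact h1.mono fun f hf hq hp => hq (h2 f hf hp)

private theorem B0_union2 {C d k q : ℕ} {P Q : (Site d k → Fin q) → Prop} (hd : 2 ≤ d)
    (h : Rar C d k q P) (h' : Rar C d k q Q)
    (hN : (d : ℝ) ^ (C + 1) * Real.log 2 ≤ NN d k) :
    Rar (C + 1) d k q fun f => P f ∨ Q f := by
  have h1 : Rar (C + 1) d k q fun f => ∃ i : Bool, (fun b : Bool => if b then P else Q) i f := by
    refine Rar_union hd ?_ ?_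
    · intro i
      cases i
      · simpa using h'
      · simpa using h
    · rw [Fintype.card_bool]
      exact_mod_cast hN
  refine h1.mono ?_
  intro f _ hf
  rcases hf with hf | hf
  · exact ⟨true, by simpa using hf⟩
  · exact ⟨false, by simpa using hf⟩

theorem WOPb.and {ε : ℝ} {P Q : ∀ d k q : ℕ, (Site d (k + 1) → Fin q) → Prop} (h : WOPb ε P) (h' : WOPb ε Q) :
    WOPb ε fun d k q f => P d k q f ∧ Q d k q f := by
  obtain ⟨C, hC⟩ := h
  obtain ⟨C', hC'⟩ := h'
  refine ⟨max C C' + 1, (((hC.and hC').and (EvT_d (eventually_ge_atTop 2))).and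
    (EvT_NN (ε := ε) fun d _ => (d : ℝ) ^ (max C C' + 1) * Real.log 2).shift).mono ?_⟩
  rintro d k q ⟨⟨⟨h1, h2⟩, h3⟩, h4⟩
  have h3' : 1 ≤ d := le_trans (by norm_num) h3
  refine (B0_union2 h3 (h1.mono_C h3' (le_max_left C C'))
    (h2.mono_C h3' (le_max_right C C')) h4).mono ?_
  intro f _ hf
  exact not_and_or.mp hf

theorem NN_succ (d k : ℕ) : NN d (k + 1) = 2 ^ d * NN d k := by
  unfold NN
  rw [pow_succ, mul_pow, mul_comm]

theorem card_Blk (d k : ℕ) : (Fintype.card (Blk d k) : ℝ) = NN d k := by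
  unfold NN
  rw [Fintype.card_fun, ZMod.card, Fintype.card_fin]
  push_cast
  rfl

/-- concentration of block statistics -/
theorem WOPb_tail {ε : ℝ} (hε : 0 < ε) (hε1 : ε ≤ 1) (ι : ℕ → ℕ → ℕ → Type) [∀ d k q, Fintype (ι d k q)] (F : ℕ → ℕ → ℝ)
    (hF : ∀ d k q, (Fintype.card (ι d k q) : ℝ) ≤ F d q) (b : ∀ d k q, ι d k q → Bool)
    (Ψ : ∀ d k q, ι d k q → (Site d (k + 1) → Fin q) → ℝ) (κ K : ℕ)
    (hL : EvT ε fun d k q => ∀ i, Lip (b d k q i) ((d : ℝ) ^ κ / 2 ^ d) (Ψ d k q i)) :
    WOPb ε fun d k q f => ∀ i, Ψ d k q i f ≤ fm (b d k q i) (Ψ d k q i) f + NN d k / (d : ℝ) ^ K := by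
  classical
  refine ⟨2 * K + 2 * κ + 1 + 1, (((hL.and (EvT_reg hε hε1 2)).and (EvT_d (eventually_ge_atTop 2))).and
    (EvT_NN (ε := ε) fun d q => (d : ℝ) ^ (2 * K + 2 * κ + 1 + 1) *
      Real.log (max 1 (F d q))).shift).mono ?_⟩
  rintro d k q ⟨⟨⟨hl, hreg⟩, hd⟩, hN⟩
  have hk : 2 ≤ k + 1 := by
    have h1 : (2 : ℝ) ≤ k := hreg.2.2.1
    have h2 : 2 ≤ k := by exact_mod_cast h1
    omega
  have hd1 : 1 ≤ d := by omega
  have hdR : (2 : ℝ) ≤ d := by exact_mod_cast hd
  have hd0 : (0 : ℝ) < d := by linarith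
  have hpK : (0 : ℝ) < (d : ℝ) ^ K := pow_pos hd0 _
  have hpκ : (0 : ℝ) < (d : ℝ) ^ κ := pow_pos hd0 _
  have h2d : (0 : ℝ) < 2 ^ d := by positivity
  have hone : ∀ i, Rar (2 * K + 2 * κ + 1) d (k + 1) q fun f =>
      ¬ (Ψ d k q i f ≤ fm (b d k q i) (Ψ d k q i) f + NN d k / (d : ℝ) ^ K) := by
    intro i
    have hδ : (1 : ℝ) / (2 ^ d * (d : ℝ) ^ K) ≤ (d : ℝ) ^ κ / 2 ^ d := by
      rw [div_le_div_iff₀ (by positivity) h2d]
      have h1 : (1 : ℝ) ≤ (d : ℝ) ^ κ := one_le_pow₀ (by linarith)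
      have h2 : (1 : ℝ) ≤ (d : ℝ) ^ K := one_le_pow₀ (by linarith)
      nlinarith [mul_le_mul h1 h2 zero_le_one hpκ.le]
    have ht := tail (q := q) hd1 hk (b d k q i) (Ψ d k q i) ((d : ℝ) ^ κ / 2 ^ d)
      (1 / (2 ^ d * (d : ℝ) ^ K)) (by positivity) (by positivity) hδ (hl i)
    have hthr : 1 / (2 ^ d * (d : ℝ) ^ K) * NN d (k + 1) = NN d k / (d : ℝ) ^ K := by
      rw [NN_succ]
      field_simp
    have hexp : (1 / (2 ^ d * (d : ℝ) ^ K)) ^ 2 * NN d (k + 1) / (2 * ((d : ℝ) ^ κ / 2 ^ d) ^ 2) =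
        NN d (k + 1) / (2 * (d : ℝ) ^ (2 * K + 2 * κ)) := by
      rw [pow_add, pow_mul', pow_mul']
      field_simp
    rw [hthr, hexp] at ht
    unfold Rar
    refine le_trans ?_ (ht.trans ?_)
    · have hsub : (prps d (k + 1) q).filter (fun f =>
          ¬ (Ψ d k q i f ≤ fm (b d k q i) (Ψ d k q i) f + NN d k / (d : ℝ) ^ K)) ⊆
          (prps d (k + 1) q).filter fun f =>
            fm (b d k q i) (Ψ d k q i) f + NN d k / (d : ℝ) ^ K ≤ Ψ d k q i f := by
        intro f hf
        rw [mem_filter] at hf ⊢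
        exact ⟨hf.1, (not_le.mp hf.2).le⟩
      refine Nat.cast_le.mpr (card_le_card ?_)
      convert hsub
    · have hZ : 0 ≤ ZZ d (k + 1) q := by
        unfold ZZ
        positivity
      refine mul_le_mul_of_nonneg_left (Real.exp_le_exp.mpr (neg_le_neg ?_)) hZ
      have hNN : 0 ≤ NN d (k + 1) := by
        unfold NN
        positivity
      refine div_le_div_of_nonneg_left hNN (by positivity) ?_
      rw [pow_succ (d : ℝ) (2 * K + 2 * κ), mul_comm]
      exact mul_le_mul_of_nonneg_left hdR (by positivity)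
  have hun := Rar_union (ι := ι d k q) hd hone (by
    refine le_trans ?_ hN
    refine mul_le_mul_of_nonneg_left ?_ (by positivity)
    rcases Nat.eq_zero_or_pos (Fintype.card (ι d k q)) with h0 | h0
    · rw [h0, Nat.cast_zero, Real.log_zero]
      exact Real.log_nonneg (le_max_left _ _)
    · exact Real.log_le_log (by exact_mod_cast h0) ((hF d k q).trans (le_max_right _ _)))
  refine hun.mono ?_
  intro f _ hf
  exact not_forall.mp hf

end Pool.Agent.THR

end

/-! ### from `Lib_MP_2c424f_thr.B2` -/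

section

/-!
# THR B2: variance in the blocks (paper proof: B2)

`es_odd` for `G a b = φ (pt t a b)` and some fixed direction `l`.  By `LO.pt_flp`, `pt t (flp a i) (flp b l) = pt t a b + sv (i, !a i) + sv (l, !b l)`, and
`pt t a (flp (flp b i) l) = pt t a b + sv (i, !b i) + sv (l, !b l)` for `i ≠ l`.  So every squared difference is at most
`∑_{β,β'} (φ (x + sv (i,β) + sv (l,β')) - φ x)²`, `x = pt t a b`, and by `LO.sum_pt`
`∑_t ∑_{a,b} (..) ≤ 2^d ∑_{β,β'} ∑_x (φ (x + sv (i,β) + sv (l,β')) - φ x)²`; with `y = x + sv (l,β')`, `x = y + sv (l, !β')` this is `2^d · 4 · D N'`, `N' = NN d (k+1) = 2^d NN d k`.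
Total: `(1/4) · (2/4^d) · 2d · 2^d · 4 · D · 2^d NN d k = 4 d D NN d k`.
-/

set_option autoImplicit false

open Finset Filter

namespace Pool.Agent.THR

open Pool.Agent.LO Pool.Agent.LIN

/-- all squared differences over two steps in the directions `i`, `l` -/
private noncomputable def B2_Q {d k : ℕ} (φ : Site d (k + 1) → ℝ) (i l : Fin d) (x : Site d (k + 1)) : ℝ :=
  ∑ β : Bool, ∑ β' : Bool, (φ (x + sv (i, β) + sv (l, β')) - φ x) ^ 2

private theorem B2_Q_nonneg {d k : ℕ} (φ : Site d (k + 1) → ℝ) (i l : Fin d) (x : Site d (k + 1)) :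
    0 ≤ B2_Q φ i l x :=
  Finset.sum_nonneg fun _ _ => Finset.sum_nonneg fun _ _ => sq_nonneg _

private theorem B2_Q_ge {d k : ℕ} (φ : Site d (k + 1) → ℝ) (i l : Fin d) (x : Site d (k + 1)) (β β' : Bool) :
    (φ (x + sv (i, β) + sv (l, β')) - φ x) ^ 2 ≤ B2_Q φ i l x := by
  unfold B2_Q
  refine le_trans ?_ (Finset.single_le_sum (f := fun β : Bool =>
    ∑ β' : Bool, (φ (x + sv (i, β) + sv (l, β')) - φ x) ^ 2) (fun _ _ => Finset.sum_nonneg fun _ _ => sq_nonneg _)
    (Finset.mem_univ β))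
  exact Finset.single_le_sum (f := fun β' : Bool => (φ (x + sv (i, β) + sv (l, β')) - φ x) ^ 2)
    (fun _ _ => sq_nonneg _) (Finset.mem_univ β')

private theorem B2_sv {d k : ℕ} (l : Fin d) (β : Bool) : (sv (l, β) : Site d k) + sv (l, !β) = 0 := by
  unfold sv
  rw [← Pi.single_add]
  cases β <;> simp

private theorem B2_Q_sum {d k : ℕ} (D : ℝ) (φ : Site d (k + 1) → ℝ)
    (h : ∀ σ τ : Stp d, ∑ x : Site d (k + 1), (φ (x + sv σ) - φ (x + sv τ)) ^ 2 ≤ D * NN d (k + 1)) (i l : Fin d) :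
    ∑ x : Site d (k + 1), B2_Q φ i l x ≤ 4 * (D * NN d (k + 1)) := by
  unfold B2_Q
  rw [Finset.sum_comm]
  have h1 : ∀ β β' : Bool, ∑ x : Site d (k + 1), (φ (x + sv (i, β) + sv (l, β')) - φ x) ^ 2 ≤ D * NN d (k + 1) := by
    intro β β'
    rw [← Equiv.sum_comp (Equiv.addRight (sv (l, !β') : Site d (k + 1)))]
    refine le_trans (le_of_eq ?_) (h (i, β) (l, !β'))
    refine Finset.sum_congr rfl fun x _ => ?_
    have h2 : (Equiv.addRight (sv (l, !β') : Site d (k + 1))) x = x + sv (l, !β') := rfl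
    rw [h2]
    have h3 : x + sv (l, !β') + sv (i, β) + sv (l, β') = x + sv (i, β) := by
      have h4 := B2_sv (k := k + 1) l β'
      calc x + sv (l, !β') + sv (i, β) + sv (l, β') = x + sv (i, β) + (sv (l, β') + sv (l, !β')) := by abel
        _ = x + sv (i, β) := by rw [h4, add_zero]
    rw [h3]
  calc ∑ β : Bool, ∑ x : Site d (k + 1), ∑ β' : Bool, (φ (x + sv (i, β) + sv (l, β')) - φ x) ^ 2
      = ∑ β : Bool, ∑ β' : Bool, ∑ x : Site d (k + 1), (φ (x + sv (i, β) + sv (l, β')) - φ x) ^ 2 :=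
        Finset.sum_congr rfl fun β _ => Finset.sum_comm
    _ ≤ ∑ _β : Bool, ∑ _β' : Bool, D * NN d (k + 1) :=
        Finset.sum_le_sum fun β _ => Finset.sum_le_sum fun β' _ => h1 β β'
    _ = 4 * (D * NN d (k + 1)) := by
        simp only [Fintype.sum_bool]
        ring

private theorem B2_all {d k : ℕ} (F : Site d (k + 1) → ℝ) (hF : ∀ x, 0 ≤ F x) (t : Blk d k) :
    ∑ p ∈ oS (d := d) none, F (pt t p.1 p.2) ≤ ∑ a : Bt d, ∑ b : Bt d, F (pt t a b) := by
  rw [← Fintype.sum_prod_type' (f := fun a b => F (pt t a b))]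
  exact Finset.sum_le_sum_of_subset_of_nonneg (Finset.subset_univ _) fun p _ _ => hF _

theorem var_blocks {d k : ℕ} (hd : 2 ≤ d) (hk : 1 ≤ k) (D : ℝ) (φ : Site d (k + 1) → ℝ)
    (h : ∀ σ τ : Stp d, ∑ x : Site d (k + 1), (φ (x + sv σ) - φ (x + sv τ)) ^ 2 ≤ D * NN d (k + 1)) :
    ∑ t : Blk d k, (Ms none t (fun x => φ x ^ 2) - Ms none t φ ^ 2) ≤ 4 * d * D * NN d k := by
  classical
  let l : Fin d := ⟨0, by omega⟩
  have hS : ((oS (d := d) none).card : ℝ) = (4 : ℝ) ^ d / 2 := by
    rw [oS_card hd none, if_pos rfl]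
  have hS0 : (0 : ℝ) < (4 : ℝ) ^ d / 2 := by positivity
  -- one block
  have h1 : ∀ t : Blk d k, Ms none t (fun x => φ x ^ 2) - Ms none t φ ^ 2 ≤
      1 / 4 * (∑ i, (∑ a : Bt d, ∑ b : Bt d, B2_Q φ i l (pt t a b)) / ((4 : ℝ) ^ d / 2) +
        ∑ i, (∑ a : Bt d, ∑ b : Bt d, B2_Q φ i l (pt t a b)) / ((4 : ℝ) ^ d / 2)) := by
    intro t
    have e := es_odd hd l (fun a b => φ (pt t a b))
    rw [hS] at e
    have e0 : Ms none t (fun x => φ x ^ 2) - Ms none t φ ^ 2 =
        (∑ p ∈ oS (d := d) none, φ (pt t p.1 p.2) ^ 2) / ((4 : ℝ) ^ d / 2) -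
          ((∑ p ∈ oS (d := d) none, φ (pt t p.1 p.2)) / ((4 : ℝ) ^ d / 2)) ^ 2 := by
      unfold Ms
      rw [hS]
    rw [e0]
    refine le_trans e ?_
    apply mul_le_mul_of_nonneg_left _ (by norm_num)
    have hA : ∀ i : Fin d, (∑ p ∈ oS (d := d) none, (φ (pt t (flp p.1 i) (flp p.2 l)) - φ (pt t p.1 p.2)) ^ 2) /
        ((4 : ℝ) ^ d / 2) ≤ (∑ a : Bt d, ∑ b : Bt d, B2_Q φ i l (pt t a b)) / ((4 : ℝ) ^ d / 2) := by
      intro i
      apply div_le_div_of_nonneg_right _ hS0.le
      refine le_trans ?_ (B2_all (B2_Q φ i l) (B2_Q_nonneg φ i l) t)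
      refine Finset.sum_le_sum fun p _ => ?_
      have e1 : pt t (flp p.1 i) (flp p.2 l) = pt t p.1 p.2 + sv (i, !p.1 i) + sv (l, !p.2 l) := by
        rw [(pt_flp t p.1 (flp p.2 l) i).1, (pt_flp t p.1 p.2 l).2]
        abel
      rw [e1]
      exact B2_Q_ge φ i l _ _ _
    have hB : ∀ i ∈ univ.erase l, (∑ p ∈ oS (d := d) none,
        (φ (pt t p.1 (flp (flp p.2 i) l)) - φ (pt t p.1 p.2)) ^ 2) /
        ((4 : ℝ) ^ d / 2) ≤ (∑ a : Bt d, ∑ b : Bt d, B2_Q φ i l (pt t a b)) / ((4 : ℝ) ^ d / 2) := by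
      intro i hi
      apply div_le_div_of_nonneg_right _ hS0.le
      refine le_trans ?_ (B2_all (B2_Q φ i l) (B2_Q_nonneg φ i l) t)
      refine Finset.sum_le_sum fun p _ => ?_
      have e1 : pt t p.1 (flp (flp p.2 i) l) = pt t p.1 p.2 + sv (i, !p.2 i) + sv (l, !(flp p.2 i) l) := by
        rw [(pt_flp t p.1 (flp p.2 i) l).2, (pt_flp t p.1 p.2 i).2]
      rw [e1]
      exact B2_Q_ge φ i l _ _ _
    refine add_le_add (Finset.sum_le_sum fun i _ => hA i) ?_
    refine le_trans (Finset.sum_le_sum hB) ?_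
    apply Finset.sum_le_sum_of_subset_of_nonneg (Finset.erase_subset _ _)
    intro i _ _
    exact div_nonneg (Finset.sum_nonneg fun a _ => Finset.sum_nonneg fun b _ => B2_Q_nonneg φ i l _) hS0.le
  -- sum over the blocks
  have h2 : ∀ i : Fin d, ∑ t : Blk d k, (∑ a : Bt d, ∑ b : Bt d, B2_Q φ i l (pt t a b)) / ((4 : ℝ) ^ d / 2) ≤
      8 * D * NN d k := by
    intro i
    rw [← Finset.sum_div, div_le_iff₀ hS0]
    have e := sum_pt (d := d) (k := k) (fun x _ => B2_Q φ i l x)
    rw [e]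
    have e2 : ∑ x : Site d (k + 1), ∑ _b : Bt d, B2_Q φ i l x = 2 ^ d * ∑ x : Site d (k + 1), B2_Q φ i l x := by
      rw [Finset.mul_sum]
      refine Finset.sum_congr rfl fun x _ => ?_
      rw [Finset.sum_const, Finset.card_univ, nsmul_eq_mul, Fintype.card_fun, Fintype.card_bool, Fintype.card_fin]
      push_cast
      ring
    rw [e2]
    have e3 := mul_le_mul_of_nonneg_left (B2_Q_sum D φ h i l) (by positivity : (0 : ℝ) ≤ 2 ^ d)
    refine le_trans e3 (le_of_eq ?_)
    rw [NN_succ]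
    have e4 : (4 : ℝ) ^ d = 2 ^ d * 2 ^ d := by
      rw [← mul_pow]
      norm_num
    rw [e4]
    ring
  calc ∑ t : Blk d k, (Ms none t (fun x => φ x ^ 2) - Ms none t φ ^ 2)
      ≤ ∑ t : Blk d k, 1 / 4 * (∑ i, (∑ a : Bt d, ∑ b : Bt d, B2_Q φ i l (pt t a b)) / ((4 : ℝ) ^ d / 2) +
        ∑ i, (∑ a : Bt d, ∑ b : Bt d, B2_Q φ i l (pt t a b)) / ((4 : ℝ) ^ d / 2)) :=
        Finset.sum_le_sum fun t _ => h1 t
    _ = 1 / 2 * ∑ i, ∑ t : Blk d k, (∑ a : Bt d, ∑ b : Bt d, B2_Q φ i l (pt t a b)) / ((4 : ℝ) ^ d / 2) := by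
        rw [← Finset.mul_sum, Finset.sum_add_distrib, Finset.sum_comm]
        ring
    _ ≤ 1 / 2 * ∑ _i : Fin d, 8 * D * NN d k := by
        apply mul_le_mul_of_nonneg_left (Finset.sum_le_sum fun i _ => h2 i) (by norm_num)
    _ = 4 * d * D * NN d k := by
        rw [Finset.sum_const, Finset.card_univ, Fintype.card_fin, nsmul_eq_mul]
        ring

end Pool.Agent.THR

end

/-! ### from `Lib_MP_2c424f_thr.B5a` -/

section

/-!
# THR B5a: one block (paper proof: B5)

`y = ya c f`, `H = Ms none t G`: `Ms none t |y - G| ≤ √e₁`, `Ms none t |G - H| ≤ √e₂` (`Ms_sq`; `Ms none t ((G - H)²) = Ms none t (G²) - H²`), so `Ms none t |y - H| ≤ 2 √κ`, and `Ms s t |y - H| ≤ 8 √κ` for all `s` (`Ms_face`).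
`dst3 m yM H ≤ e₃ + 2 √κ ≤ 3 √κ` (`dst3` is `1`-Lipschitz, `κ ≤ √κ`), so some `τ` of the three values has `|H - τ| ≤ 3 √κ`; `|Ms s t bq - τ| ≤ κ + 8 √κ + 3 √κ ≤ 12 √κ ≤ η`;
`Ms none t 1[|y-τ| > η] ≤ Ms none t |y - τ|/η ≤ 5 √κ/η ≤ η`.
-/

set_option autoImplicit false

open Finset Filter

namespace Pool.Agent.THR

open Pool.Agent.LO Pool.Agent.LIN

private theorem B5a_dst {m yM y H : ℝ} : dst3 m yM H ≤ dst3 m yM y + |y - H| := by
  unfold dst3 dst2
  have h1 : |H - (1 - m)| ≤ |y - (1 - m)| + |y - H| := by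
    have := abs_sub_abs_le_abs_sub (H - (1 - m)) (y - (1 - m))
    have h2 : |H - (1 - m) - (y - (1 - m))| = |y - H| := by
      rw [← abs_neg]
      congr 1
      ring
    linarith
  have h2 : |H - (1 + m)| ≤ |y - (1 + m)| + |y - H| := by
    have := abs_sub_abs_le_abs_sub (H - (1 + m)) (y - (1 + m))
    have h2 : |H - (1 + m) - (y - (1 + m))| = |y - H| := by
      rw [← abs_neg]
      congr 1
      ring
    linarith
  have h3 : |H - yM| ≤ |y - yM| + |y - H| := by
    have := abs_sub_abs_le_abs_sub (H - yM) (y - yM)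
    have h2 : |H - yM - (y - yM)| = |y - H| := by
      rw [← abs_neg]
      congr 1
      ring
    linarith
  rw [← min_add_add_right, ← min_add_add_right]
  exact min_le_min (min_le_min h1 h2) h3

open scoped Classical in
/-- one block -/
theorem tau_one {d k q : ℕ} (hd : 2 ≤ d) (η κ m yM : ℝ) (hη : 0 < η) (hκ : 0 < κ) (hκ1 : κ ≤ 1) (h1 : 12 * Real.sqrt κ ≤ η)
    (h2 : 5 * Real.sqrt κ ≤ η ^ 2) (c : Fin q) (f : Site d (k + 1) → Fin q) (t : Blk d k) (G : Site d (k + 1) → ℝ)
    (e1 : Ms none t (fun x => (ya c f x - G x) ^ 2) ≤ κ) (e2 : Ms none t (fun x => G x ^ 2) - Ms none t G ^ 2 ≤ κ)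
    (e3 : Ms none t (fun x => dst3 m yM (ya c f x)) ≤ κ) (e4 : ∀ s, |Ms s t (fun x => bq c f x - ya c f x)| ≤ κ) :
    ∃ τ : ℝ, tauG η m yM c f t τ := by
  set r : ℝ := Real.sqrt κ with hr
  have hr0 : 0 ≤ r := Real.sqrt_nonneg κ
  have hrr : r * r = κ := Real.mul_self_sqrt hκ.le
  have hr1 : r ≤ 1 := by
    rw [hr, Real.sqrt_le_one]
    exact hκ1
  have hκr : κ ≤ r := by
    rw [← hrr]
    nlinarith
  set H : ℝ := Ms none t G with hH
  have hsq : ∀ x : ℝ, x ^ 2 ≤ κ → x ≤ r := by
    intro x hx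
    rw [hr]
    exact Real.le_sqrt_of_sq_le hx
  -- step 1
  have s1 : Ms none t (fun x => |ya c f x - G x|) ≤ r := by
    apply hsq
    refine le_trans (Ms_sq hd none t _) (le_trans (le_of_eq ?_) e1)
    congr 1
    funext x
    exact sq_abs _
  -- step 2
  have s2 : Ms none t (fun x => |G x - H|) ≤ r := by
    apply hsq
    refine le_trans (Ms_sq hd none t _) (le_trans (le_of_eq ?_) e2)
    have h3 : (fun x => |G x - H| ^ 2) = fun x => (G x ^ 2 - (2 * H) * G x) + H ^ 2 := by
      funext x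
      rw [sq_abs]
      ring
    rw [h3, Ms_add none t (fun x => G x ^ 2 - (2 * H) * G x) (fun _ => H ^ 2), Ms_const hd,
      Ms_sub none t (fun x => G x ^ 2) (fun x => (2 * H) * G x), Ms_mul]
    rw [← hH]
    ring
  -- step 3
  have s3 : Ms none t (fun x => |ya c f x - H|) ≤ 2 * r := by
    calc Ms none t (fun x => |ya c f x - H|) ≤ Ms none t (fun x => |ya c f x - G x| + |G x - H|) := by
          apply Ms_mono
          intro a b _
          exact abs_sub_le _ _ _
      _ = Ms none t (fun x => |ya c f x - G x|) + Ms none t (fun x => |G x - H|) := Ms_add none t _ _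
      _ ≤ 2 * r := by linarith
  have s4 : ∀ s, Ms s t (fun x => |ya c f x - H|) ≤ 8 * r := by
    intro s
    have := Ms_face hd s t (fun x => |ya c f x - H|) (fun x => abs_nonneg _)
    linarith
  -- step 5
  have s5 : dst3 m yM H ≤ 3 * r := by
    have h3 : Ms none t (fun _ => dst3 m yM H) ≤ Ms none t (fun x => dst3 m yM (ya c f x) + |ya c f x - H|) := by
      apply Ms_mono
      intro a b _
      exact B5a_dst
    rw [Ms_const hd, Ms_add] at h3
    linarith
  obtain ⟨τ, hτ, hτH⟩ : ∃ τ : ℝ, (τ = 1 - m ∨ τ = yM ∨ τ = 1 + m) ∧ |H - τ| ≤ 3 * r := by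
    unfold dst3 dst2 at s5
    rcases min_le_iff.1 s5 with h3 | h3
    · rcases min_le_iff.1 h3 with h4 | h4
      · exact ⟨1 - m, Or.inl rfl, h4⟩
      · exact ⟨1 + m, Or.inr (Or.inr rfl), h4⟩
    · exact ⟨yM, Or.inr (Or.inl rfl), h3⟩
  refine ⟨τ, hτ, ?_, ?_⟩
  · intro s
    have h3 : Ms s t (bq c f) - τ = Ms s t (fun x => bq c f x - ya c f x) + Ms s t (fun x => ya c f x - H) +
        (H - τ) := by
      rw [Ms_sub s t (bq c f) (fun x => ya c f x), Ms_sub s t (fun x => ya c f x) (fun _ => H), Ms_const hd]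
      ring
    rw [h3]
    have h4 : |Ms s t (fun x => ya c f x - H)| ≤ 8 * r := le_trans (Ms_abs s t _) (s4 s)
    have h5 := e4 s
    have h6 := abs_add_le (Ms s t (fun x => bq c f x - ya c f x) + Ms s t (fun x => ya c f x - H)) (H - τ)
    have h7 := abs_add_le (Ms s t (fun x => bq c f x - ya c f x)) (Ms s t (fun x => ya c f x - H))
    linarith
  · have h3 : Ms none t (fun v => if η < |ya c f v - τ| then (1 : ℝ) else 0) ≤
        Ms none t (fun v => (1 / η) * (|ya c f v - H| + 3 * r)) := by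
      apply Ms_mono
      intro a b _
      have h4 : |ya c f (pt t a b) - τ| ≤ |ya c f (pt t a b) - H| + 3 * r := by
        have := abs_sub_le (ya c f (pt t a b)) H τ
        linarith
      split_ifs with h5
      · rw [one_div, ← div_eq_inv_mul, le_div_iff₀ hη, one_mul]
        linarith
      · have := abs_nonneg (ya c f (pt t a b) - H)
        positivity
    refine le_trans h3 ?_
    rw [Ms_mul, Ms_add none t (fun x => |ya c f x - H|) (fun _ => 3 * r), Ms_const hd, one_div, ← div_eq_inv_mul,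
      div_le_iff₀ hη]
    nlinarith

end Pool.Agent.THR

end

/-! ### from `Lib_MP_2c424f_thr.B3a` -/

section

/-!
# THR B3a: weights of the points (paper proof: B3)

`Ww s t x` = proportion of the odd pairs of the shape whose point is `x`.
* `Ww_repr`: `Ms s t φ = ∑_x Ww s t x φ x`.
* `Ww_max`: a point of the block is `pt t a b` for at most `2^d` pairs (for every `b` at most one `a`), in a face for at most `2^(d-1)` pairs; `|oS| = 4^d/2` resp. `4^(d-1)/2`: at most
  `2/2^d` resp. `4/2^d`.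
* `Ww_sum`: for every `x` and `b` there is exactly one `(t, a)` with `pt t a b = x` (`LO.sum_pt` with `H y b = 1[y = x]`, restricted to the bit vectors `b` of the face), so
  `∑_t Ww s t x ≤ 2^d/(4^d/2)` resp. `2^(d-1)/(4^(d-1)/2)`.
* `Ww_par`: odd sites only (`LO.evn_pt`).
-/

set_option autoImplicit false

open Finset Filter

namespace Pool.Agent.THR

open Pool.Agent.LO Pool.Agent.LIN

variable {d k : ℕ}

open scoped Classical in
/-- weight of a site in the block mean -/
noncomputable def Ww (s : Shp d) (t : Blk d k) (x : Site d (k + 1)) : ℝ :=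
  (((oS s).filter fun p => pt t p.1 p.2 = x).card : ℝ) / ((oS s).card : ℝ)

open scoped Classical in
private noncomputable def B3a_ok (s : Shp d) : Finset (Bt d) :=
  univ.filter fun b => ∀ j β, s = some (j, β) → b j = β

private theorem B3a_ok_card (s : Shp d) : ((B3a_ok s).card : ℝ) = if s = none then (2 : ℝ) ^ d else (2 : ℝ) ^ (d - 1) := by
  classical
  cases s with
  | none =>
    rw [if_pos rfl]
    have : B3a_ok (none : Shp d) = univ := by
      unfold B3a_ok
      ext b
      simp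
    rw [this, Finset.card_univ, Fintype.card_fun, Fintype.card_bool, Fintype.card_fin]
    push_cast
    rfl
  | some jb =>
    obtain ⟨j, β⟩ := jb
    rw [if_neg (by simp)]
    have h1 : B3a_ok (some (j, β) : Shp d) = Fintype.piFinset (fun i => if i = j then ({β} : Finset Bool) else univ) := by
      unfold B3a_ok
      ext b
      simp only [mem_filter, mem_univ, true_and, Option.some.injEq, Prod.mk.injEq, Fintype.mem_piFinset]
      constructor
      · intro h i
        by_cases hi : i = j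
        · subst hi
          rw [if_pos rfl, mem_singleton]
          exact h i β ⟨rfl, rfl⟩
        · rw [if_neg hi]
          exact mem_univ _
      · rintro h j' β' ⟨h1, h2⟩
        subst h1 h2
        have := h j
        rw [if_pos rfl, mem_singleton] at this
        exact this
    rw [h1, Fintype.card_piFinset]
    have h2 : ∀ i : Fin d, (if i = j then ({β} : Finset Bool) else univ).card = if i = j then 1 else 2 := by
      intro i
      by_cases hi : i = j
      · rw [if_pos hi, if_pos hi, card_singleton]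
      · rw [if_neg hi, if_neg hi, Finset.card_univ, Fintype.card_bool]
    rw [Finset.prod_congr rfl fun i _ => h2 i, Finset.prod_ite, Finset.prod_const_one, one_mul, Finset.prod_const]
    have h3 : (univ.filter fun i : Fin d => ¬ i = j).card = d - 1 := by
      rw [Finset.filter_not, Finset.card_sdiff_of_subset (Finset.filter_subset _ _), Finset.card_univ, Fintype.card_fin]
      congr 1
      rw [Finset.card_eq_one]
      exact ⟨j, by ext i; simp⟩
    rw [h3]
    push_cast
    rfl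

private theorem B3a_mem_ok {s : Shp d} {a b : Bt d} (h : inS s a b) : b ∈ B3a_ok s := by
  classical
  unfold B3a_ok
  rw [mem_filter]
  refine ⟨mem_univ _, ?_⟩
  rintro j β rfl
  exact h.2

private theorem B3a_mem_oS {s : Shp d} {p : Bt d × Bt d} : p ∈ oS s ↔ od p.1 p.2 ∧ inS s p.1 p.2 := by
  classical
  unfold oS
  simp

private theorem B3a_ratio (hd : 2 ≤ d) (s : Shp d) : ((B3a_ok s).card : ℝ) / ((oS s).card : ℝ) ≤ 4 / 2 ^ d := by
  rw [B3a_ok_card, oS_card hd]
  by_cases hs : s = none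
  · rw [if_pos hs, if_pos hs]
    have h4 : (4 : ℝ) ^ d = 2 ^ d * 2 ^ d := by rw [← mul_pow]; norm_num
    rw [h4, div_le_div_iff₀ (by positivity) (by positivity)]
    have : (0:ℝ) < 2 ^ d := by positivity
    nlinarith
  · rw [if_neg hs, if_neg hs]
    have h4 : (4 : ℝ) ^ (d - 1) = 2 ^ (d - 1) * 2 ^ (d - 1) := by rw [← mul_pow]; norm_num
    have h5 : (2 : ℝ) ^ d = 2 * 2 ^ (d - 1) := by
      rw [← pow_succ']
      congr 1
      omega
    rw [h4, h5, div_le_div_iff₀ (by positivity) (by positivity)]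
    have : (0:ℝ) < 2 ^ (d - 1) := by positivity
    nlinarith

private theorem B3a_bv_inj : Function.Injective (bv : Bt d → Site d (k + 1)) := by
  intro a a' h
  funext i
  have h1 := congrFun h i
  unfold bv at h1
  have h2 : (1 : ZMod (2 ^ (k + 1))) ≠ 0 := by
    have : Fact (1 < 2 ^ (k + 1)) := ⟨Nat.one_lt_two_pow (by omega)⟩
    exact one_ne_zero
  cases ha : a i <;> cases ha' : a' i <;> simp only [ha, ha', if_true, Bool.false_eq_true, if_false] at h1 ⊢
  · exact absurd h1.symm h2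
  · exact absurd h1 h2

private theorem B3a_pt_inj (t : Blk d k) (a a' b : Bt d) (h : pt t a b = pt t a' b) : a = a' := by
  unfold pt at h
  have h1 : bas t + bv a = bas t + bv a' := add_right_cancel h
  exact B3a_bv_inj (add_left_cancel h1)

theorem Ww_nonneg (s : Shp d) (t : Blk d k) (x : Site d (k + 1)) : 0 ≤ Ww s t x := by
  unfold Ww
  positivity

theorem Ww_repr (s : Shp d) (t : Blk d k) (φ : Site d (k + 1) → ℝ) : Ms s t φ = ∑ x, Ww s t x * φ x := by
  classical
  unfold Ms Ww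
  have h1 : ∑ p ∈ oS s, φ (pt t p.1 p.2) =
      ∑ x : Site d (k + 1), (((oS s).filter fun p => pt t p.1 p.2 = x).card : ℝ) * φ x := by
    rw [← Finset.sum_fiberwise (oS s) (fun p => pt t p.1 p.2)]
    refine Finset.sum_congr rfl fun x _ => ?_
    rw [Finset.sum_congr rfl (fun p hp => by rw [(Finset.mem_filter.1 hp).2] : ∀ p ∈ (oS s).filter
      (fun p => pt t p.1 p.2 = x), φ (pt t p.1 p.2) = φ x)]
    rw [Finset.sum_const, nsmul_eq_mul]
  rw [h1, Finset.sum_div]
  refine Finset.sum_congr rfl fun x _ => ?_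
  rw [div_mul_eq_mul_div]

theorem Ww_one (hd : 2 ≤ d) (s : Shp d) (t : Blk d k) : ∑ x, Ww s t x = 1 := by
  have h := Ww_repr s t (fun _ : Site d (k + 1) => (1 : ℝ))
  rw [Ms_const hd] at h
  simp only [mul_one] at h
  exact h.symm

theorem Ww_max (hd : 2 ≤ d) (s : Shp d) (t : Blk d k) (x : Site d (k + 1)) : Ww s t x ≤ 4 / 2 ^ d := by
  classical
  unfold Ww
  refine le_trans ?_ (B3a_ratio hd s)
  refine div_le_div_of_nonneg_right ?_ (Nat.cast_nonneg _)
  have h : ((oS s).filter fun p => pt t p.1 p.2 = x).card ≤ (B3a_ok s).card := by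
    refine Finset.card_le_card_of_injOn (fun p => p.2) ?_ ?_
    · intro p hp
      have hp' := Finset.mem_filter.1 (Finset.mem_coe.1 hp)
      exact B3a_mem_ok (B3a_mem_oS.1 hp'.1).2
    · rintro ⟨a, b⟩ hp ⟨a', b'⟩ hp' hb
      have h1 := (Finset.mem_filter.1 (Finset.mem_coe.1 hp)).2
      have h2 := (Finset.mem_filter.1 (Finset.mem_coe.1 hp')).2
      simp only at hb h1 h2
      subst hb
      rw [B3a_pt_inj t a a' b (h1.trans h2.symm)]
  exact_mod_cast h

theorem Ww_sum (hd : 2 ≤ d) (s : Shp d) (x : Site d (k + 1)) : ∑ t : Blk d k, Ww s t x ≤ 4 / 2 ^ d := by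
  classical
  unfold Ww
  rw [← Finset.sum_div]
  refine le_trans ?_ (B3a_ratio hd s)
  refine div_le_div_of_nonneg_right ?_ (Nat.cast_nonneg _)
  have h := sum_pt (d := d) (k := k) (fun y b => if y = x ∧ b ∈ B3a_ok s then (1:ℝ) else 0)
  have hR : ∑ y : Site d (k + 1), ∑ b : Bt d, (if y = x ∧ b ∈ B3a_ok s then (1:ℝ) else 0) = (B3a_ok s).card := by
    rw [Finset.sum_eq_single x]
    · simp only [true_and]
      rw [← Finset.sum_filter, Finset.filter_univ_mem, Finset.sum_const, nsmul_eq_mul, mul_one]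
    · intro y _ hy
      refine Finset.sum_eq_zero fun b _ => ?_
      rw [if_neg]
      rintro ⟨h1, _⟩
      exact hy h1
    · intro hx
      exact absurd (mem_univ _) hx
  rw [← hR, ← h]
  refine Finset.sum_le_sum fun t _ => ?_
  rw [Finset.card_filter]
  push_cast
  unfold oS
  rw [Finset.sum_filter, ← Finset.univ_product_univ, Finset.sum_product]
  refine Finset.sum_le_sum fun a _ => Finset.sum_le_sum fun b _ => ?_
  by_cases h1 : od a b ∧ inS s a b
  · rw [if_pos h1]
    have h2 : b ∈ B3a_ok s := B3a_mem_ok h1.2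
    by_cases h3 : pt t a b = x
    · rw [if_pos h3, if_pos ⟨h3, h2⟩]
    · rw [if_neg h3]
      positivity
  · rw [if_neg h1]
    positivity

theorem Ww_par (s : Shp d) (t : Blk d k) (x : Site d (k + 1)) (hx : x ∉ cls false d (k + 1)) : Ww s t x = 0 := by
  classical
  unfold Ww
  have h1 : ((oS s).filter fun p => pt t p.1 p.2 = x) = ∅ := by
    rw [Finset.filter_eq_empty_iff]
    intro p hp hpx
    apply hx
    have hod := (B3a_mem_oS.1 hp).1
    show x ∈ cls false d (k + 1)
    unfold cls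
    rw [if_neg (by simp)]
    unfold ods
    rw [mem_filter]
    refine ⟨mem_univ _, ?_⟩
    rw [← hpx, evn_pt]
    exact not_not.2 hod
  rw [h1]
  simp

end Pool.Agent.THR

end

/-! ### from `Lib_MP_2c424f_thr.B3b` -/

section

/-!
# THR B3b: fluctuation of the block densities (paper proof: B3, first part)

Index type: `Fin q × Shp d`.  `Ψ f = ∑_t (Ms s t (bq c f - gg c f))²`, class `false` (odd sites; the colours of the odd sites are independent given the even ones, `gg c` at an odd site is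
constant on the fibre and equal to the mean of `bq c`: `fm_ind`).
* Mean: `fm_var` with `c_v = q Ww s t v`: `fm (Ms ..)² ≤ 4 q² ∑ Ww² ≤ 4 q² · 4/2^d` (`Ww_max`, `Ww_one`); sum over `t`: `≤ NN d k · 16 q²/2^d ≤ NN d k/(2 d^4)` for large `d` (`q ≤ 2d`).
* `Lip`: a change at `v` changes `Ms ..` by at most `q Ww s t v`, `|Ms ..| ≤ q`, so the square by at most `2 q² Ww s t v`; sum over `t`: `8 q²/2^d ≤ d³/2^d` (`Ww_sum`).
* `WOPb_tail` with `κ = 3`, `K = 5`.
-/

set_option autoImplicit false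

open Finset Filter

namespace Pool.Agent.THR

open Pool.Agent.LO Pool.Agent.LIN

section B3baux
variable {d k q : ℕ}

/-- the fluctuation of the block density -/
private noncomputable def B3bF (s : Shp d) (t : Blk d k) (c : Fin q) (f : Site d (k + 1) → Fin q) : ℝ :=
  Ms s t fun x => bq c f x - gg c f x

private theorem B3b_gg {f h : Site d (k + 1) → Fin q} (hh : h ∈ fib false f) (x : Site d (k + 1))
    (hx : x ∈ cls false d (k + 1)) (c : Fin q) : gg c h x = gg c f x := by
  have h1 : SS h x = SS f x := fib_SS (by omega) false hh x hx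
  unfold gg zz av
  rw [h1]

private theorem B3b_upd {f h : Site d (k + 1) → Fin q} (hh : h ∈ fib false f) (v : Site d (k + 1))
    (hv : v ∈ cls false d (k + 1)) (γ : Fin q) (hγ : γ ∉ SS f v) : Function.update h v γ ∈ fib false f := by
  classical
  unfold fib at hh ⊢
  rw [Fintype.mem_piFinset] at hh ⊢
  intro x
  by_cases hx : x = v
  · subst hx
    rw [Function.update_self, if_pos hv]
    exact mem_compl.2 hγ
  · rw [Function.update_of_ne hx]
    exact hh x

private theorem B3b_bq0 (c : Fin q) (f : Site d (k + 1) → Fin q) (x : Site d (k + 1)) :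
    0 ≤ bq c f x ∧ bq c f x ≤ q := by
  unfold bq
  have h0 : (0 : ℝ) ≤ q := Nat.cast_nonneg q
  split_ifs
  · exact ⟨h0, le_rfl⟩
  · exact ⟨le_rfl, h0⟩

private theorem B3b_gg0 (c : Fin q) {f : Site d (k + 1) → Fin q} (hf : Prp f) (x : Site d (k + 1)) :
    0 ≤ gg c f x ∧ gg c f x ≤ q := by
  have h1 : gg c f x = q * (zz f x c / (av f x : ℝ)) := by
    unfold gg
    rw [mul_div_assoc]
  have h0 : (0 : ℝ) ≤ q := Nat.cast_nonneg q
  obtain ⟨h2, h3⟩ := zz_av_le hf x c
  rw [h1]
  exact ⟨mul_nonneg h0 h2, mul_le_of_le_one_right h0 h3⟩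

/-- on the fibre -/
private theorem B3b_repr (s : Shp d) (t : Blk d k) (c : Fin q) {f h : Site d (k + 1) → Fin q}
    (hh : h ∈ fib false f) :
    B3bF s t c h = ∑ x ∈ cls false d (k + 1), Ww s t x * (bq c h x - gg c f x) := by
  classical
  unfold B3bF
  rw [Ww_repr]
  have h1 : ∑ x ∈ cls false d (k + 1), Ww s t x * (bq c h x - gg c f x) =
      ∑ x ∈ cls false d (k + 1), Ww s t x * (bq c h x - gg c h x) := by
    refine sum_congr rfl fun x hx => ?_
    rw [B3b_gg hh x hx c]
  rw [h1]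
  refine (sum_subset (subset_univ _) fun x _ hx => ?_).symm
  rw [Ww_par s t x hx, zero_mul]

private theorem B3b_abs (hd : 2 ≤ d) (s : Shp d) (t : Blk d k) (c : Fin q) {f h : Site d (k + 1) → Fin q}
    (hf : Prp f) (hh : h ∈ fib false f) : |B3bF s t c h| ≤ q := by
  rw [B3b_repr s t c hh]
  refine (abs_sum_le_sum_abs _ _).trans ?_
  have h1 : ∀ x ∈ cls false d (k + 1), |Ww s t x * (bq c h x - gg c f x)| ≤ Ww s t x * q := by
    intro x _
    rw [abs_mul, abs_of_nonneg (Ww_nonneg s t x)]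
    refine mul_le_mul_of_nonneg_left ?_ (Ww_nonneg s t x)
    obtain ⟨a1, a2⟩ := B3b_bq0 c h x
    obtain ⟨a3, a4⟩ := B3b_gg0 c hf x
    rw [abs_le]
    constructor <;> linarith
  refine (sum_le_sum h1).trans ?_
  rw [← sum_mul]
  have h2 : ∑ x ∈ cls false d (k + 1), Ww s t x ≤ 1 := by
    rw [← Ww_one hd s t]
    exact sum_le_sum_of_subset_of_nonneg (subset_univ _) fun x _ _ => Ww_nonneg s t x
  exact mul_le_of_le_one_left (Nat.cast_nonneg q) h2

private theorem B3b_diff (s : Shp d) (t : Blk d k) (c : Fin q) {f h : Site d (k + 1) → Fin q}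
    (hh : h ∈ fib false f) (v : Site d (k + 1)) (hv : v ∈ cls false d (k + 1)) (γ : Fin q) (hγ : γ ∉ SS f v) :
    |B3bF s t c (Function.update h v γ) - B3bF s t c h| ≤ q * Ww s t v := by
  classical
  rw [B3b_repr s t c (B3b_upd hh v hv γ hγ), B3b_repr s t c hh, ← sum_sub_distrib]
  have h1 : ∑ x ∈ cls false d (k + 1), (Ww s t x * (bq c (Function.update h v γ) x - gg c f x) -
      Ww s t x * (bq c h x - gg c f x)) = Ww s t v * (bq c (Function.update h v γ) v - bq c h v) := by
    rw [sum_eq_single_of_mem v hv]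
    · ring
    · intro x _ hx
      have h2 : bq c (Function.update h v γ) x = bq c h x := by
        unfold bq
        rw [Function.update_of_ne hx]
      rw [h2, sub_self]
  rw [h1, abs_mul, abs_of_nonneg (Ww_nonneg s t v), mul_comm]
  refine mul_le_mul_of_nonneg_right ?_ (Ww_nonneg s t v)
  obtain ⟨a1, a2⟩ := B3b_bq0 c h v
  obtain ⟨a3, a4⟩ := B3b_bq0 c (Function.update h v γ) v
  rw [abs_le]
  constructor <;> linarith

/-- the mean is zero -/
private theorem B3b_mean (s : Shp d) (t : Blk d k) (c : Fin q) {f : Site d (k + 1) → Fin q} (hf : Prp f) :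
    fm false (B3bF s t c) f = 0 := by
  classical
  have h1 : fm false (B3bF s t c) f =
      fm false (fun h => ∑ x ∈ cls false d (k + 1), Ww s t x * (bq c h x - gg c f x)) f :=
    fm_congr false fun h hh => B3b_repr s t c hh
  rw [h1, fm_sum]
  refine sum_eq_zero fun x hx => ?_
  rw [fm_mul, fm_sub, fm_const false hf]
  have h2 : fm false (fun h => bq c h x) f = q * (zz f x c / (av f x : ℝ)) := by
    rw [← fm_ind (by omega) false hf x hx c, ← fm_mul]
    refine fm_congr false fun h _ => ?_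
    unfold bq
    split_ifs <;> simp
  rw [h2]
  unfold gg
  rw [mul_div_assoc, sub_self, mul_zero]

/-- the variance -/
private theorem B3b_var (hd : 2 ≤ d) (hk : 1 ≤ k) (s : Shp d) (t : Blk d k) (c : Fin q)
    {f : Site d (k + 1) → Fin q} (hf : Prp f) :
    fm false (fun h => B3bF s t c h ^ 2) f ≤ 16 * (q : ℝ) ^ 2 / 2 ^ d := by
  classical
  have h1 := fm_var (k := k + 1) (by omega) false hf (B3bF s t c) (fun v => q * Ww s t v)
    (fun v => mul_nonneg (Nat.cast_nonneg q) (Ww_nonneg s t v))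
    (fun h hh v hv γ hγ => B3b_diff s t c hh v hv γ hγ)
  rw [B3b_mean s t c hf] at h1
  simp only [sub_zero] at h1
  refine h1.trans ?_
  have h2 : ∀ v ∈ cls false d (k + 1), ((q : ℝ) * Ww s t v) ^ 2 ≤ (q : ℝ) ^ 2 * (4 / 2 ^ d) * Ww s t v := by
    intro v _
    have h3 := Ww_max hd s t v
    have h4 := Ww_nonneg s t v
    have h5 : ((q : ℝ) * Ww s t v) ^ 2 = (q : ℝ) ^ 2 * (Ww s t v * Ww s t v) := by ring
    rw [h5, mul_assoc]
    refine mul_le_mul_of_nonneg_left ?_ (by positivity)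
    exact mul_le_mul_of_nonneg_right h3 h4
  have h6 : ∑ x ∈ cls false d (k + 1), Ww s t x ≤ 1 := by
    rw [← Ww_one hd s t]
    exact sum_le_sum_of_subset_of_nonneg (subset_univ _) fun x _ _ => Ww_nonneg s t x
  have h7 : ∑ v ∈ cls false d (k + 1), ((q : ℝ) * Ww s t v) ^ 2 ≤ (q : ℝ) ^ 2 * (4 / 2 ^ d) := by
    refine (sum_le_sum h2).trans ?_
    rw [← mul_sum]
    exact mul_le_of_le_one_right (by positivity) h6
  calc 4 * ∑ v ∈ cls false d (k + 1), ((q : ℝ) * Ww s t v) ^ 2 ≤ 4 * ((q : ℝ) ^ 2 * (4 / 2 ^ d)) := by linarith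
    _ = 16 * (q : ℝ) ^ 2 / 2 ^ d := by ring

/-- the functional -/
private noncomputable def B3bPsi (i : Fin q × Shp d) (f : Site d (k + 1) → Fin q) : ℝ :=
  ∑ t : Blk d k, B3bF i.2 t i.1 f ^ 2

private theorem B3b_fm (hd : 2 ≤ d) (hk : 1 ≤ k) (i : Fin q × Shp d) {f : Site d (k + 1) → Fin q} (hf : Prp f) :
    fm false (B3bPsi i) f ≤ NN d k * (16 * (q : ℝ) ^ 2 / 2 ^ d) := by
  have h1 : fm false (B3bPsi i) f = ∑ t : Blk d k, fm false (fun h => B3bF i.2 t i.1 h ^ 2) f := by
    unfold B3bPsi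
    exact fm_sum false f univ fun (t : Blk d k) h => B3bF i.2 t i.1 h ^ 2
  rw [h1]
  refine (sum_le_sum fun t _ => B3b_var hd hk i.2 t i.1 hf).trans ?_
  rw [sum_const, card_univ, nsmul_eq_mul, card_Blk]

private theorem B3b_lip (hd : 2 ≤ d) (i : Fin q × Shp d) (κ : ℝ) (hκ : 8 * (q : ℝ) ^ 2 / 2 ^ d ≤ κ) :
    Lip false κ (B3bPsi (k := k) i) := by
  classical
  intro f hf h hh v hv γ hγ
  have hfP : Prp f := (mem_filter.1 hf).2
  have hh' := B3b_upd hh v hv γ hγ
  have hq0 : (0 : ℝ) ≤ q := Nat.cast_nonneg q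
  unfold B3bPsi
  rw [← sum_sub_distrib]
  refine (abs_sum_le_sum_abs _ _).trans ?_
  have h1 : ∀ t ∈ (univ : Finset (Blk d k)),
      |B3bF i.2 t i.1 (Function.update h v γ) ^ 2 - B3bF i.2 t i.1 h ^ 2| ≤ 2 * (q : ℝ) ^ 2 * Ww i.2 t v := by
    intro t _
    have h2 := B3b_diff i.2 t i.1 hh v hv γ hγ
    have h3 := B3b_abs hd i.2 t i.1 hfP hh'
    have h4 := B3b_abs hd i.2 t i.1 hfP hh
    have h5 : B3bF i.2 t i.1 (Function.update h v γ) ^ 2 - B3bF i.2 t i.1 h ^ 2 =
        (B3bF i.2 t i.1 (Function.update h v γ) - B3bF i.2 t i.1 h) *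
          (B3bF i.2 t i.1 (Function.update h v γ) + B3bF i.2 t i.1 h) := by ring
    rw [h5, abs_mul]
    have h6 : |B3bF i.2 t i.1 (Function.update h v γ) + B3bF i.2 t i.1 h| ≤ 2 * q := by
      refine (abs_add_le _ _).trans ?_
      linarith
    calc |B3bF i.2 t i.1 (Function.update h v γ) - B3bF i.2 t i.1 h| *
          |B3bF i.2 t i.1 (Function.update h v γ) + B3bF i.2 t i.1 h| ≤ (q * Ww i.2 t v) * (2 * q) :=
          mul_le_mul h2 h6 (abs_nonneg _) (mul_nonneg hq0 (Ww_nonneg _ _ _))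
      _ = 2 * (q : ℝ) ^ 2 * Ww i.2 t v := by ring
  refine (sum_le_sum h1).trans ?_
  rw [← mul_sum]
  have h7 := Ww_sum (k := k) hd i.2 v
  calc 2 * (q : ℝ) ^ 2 * ∑ t : Blk d k, Ww i.2 t v ≤ 2 * (q : ℝ) ^ 2 * (4 / 2 ^ d) :=
        mul_le_mul_of_nonneg_left h7 (by positivity)
    _ = 8 * (q : ℝ) ^ 2 / 2 ^ d := by ring
    _ ≤ κ := hκ

private theorem B3b_pow : ∀ᶠ d : ℕ in atTop, 128 * (d : ℝ) ^ 6 ≤ 2 ^ d := by
  have h1 : Tendsto (fun n : ℕ => (n : ℝ) ^ 6 / (2 : ℝ) ^ n) atTop (nhds 0) :=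
    tendsto_pow_const_div_const_pow_of_one_lt 6 (by norm_num)
  have h2 := h1.eventually (gt_mem_nhds (by norm_num : (0 : ℝ) < 1 / 128))
  filter_upwards [h2] with n hn
  rw [div_lt_iff₀ (by positivity)] at hn
  linarith

end B3baux

theorem blk_bq {ε : ℝ} (hε : 0 < ε) (hε1 : ε ≤ 1) : WOPb ε fun d k q f => ∀ (c : Fin q) (s : Shp d),
    ∑ t : Blk d k, Ms s t (fun x => bq c f x - gg c f x) ^ 2 ≤ NN d k / (d : ℝ) ^ 4 := by
  classical
  have hreg := (EvT_reg hε hε1 32).and (EvT_d (ε := ε) B3b_pow)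
  have hL : EvT ε fun d k q => ∀ i : Fin q × Shp d, Lip false ((d : ℝ) ^ 3 / 2 ^ d) (B3bPsi (k := k) i) := by
    refine hreg.mono fun d k q h i => ?_
    obtain ⟨⟨h1, h2, h3, h4, h5, -⟩, -⟩ := h
    have hd2 : 2 ≤ d := by
      have : (2 : ℝ) ≤ d := by linarith
      exact_mod_cast this
    refine B3b_lip hd2 i _ ?_
    refine div_le_div_of_nonneg_right ?_ (by positivity)
    have hq2 : (q : ℝ) ≤ 2 * d := by nlinarith
    have hq0 : (0 : ℝ) ≤ q := Nat.cast_nonneg q
    have h6 : (q : ℝ) ^ 2 ≤ (2 * d) ^ 2 := pow_le_pow_left₀ hq0 hq2 2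
    have h7 : 32 * (d : ℝ) ^ 2 ≤ d * (d : ℝ) ^ 2 := mul_le_mul_of_nonneg_right h1 (by positivity)
    calc 8 * (q : ℝ) ^ 2 ≤ 8 * (2 * d) ^ 2 := by linarith
      _ = 32 * (d : ℝ) ^ 2 := by ring
      _ ≤ d * (d : ℝ) ^ 2 := h7
      _ = (d : ℝ) ^ 3 := by ring
  have hT := WOPb_tail hε hε1 (fun d _ q => Fin q × Shp d) (fun d q => q * (2 * d + 1))
    (fun d k q => by
      rw [Fintype.card_prod, Fintype.card_option, Fintype.card_prod, Fintype.card_fin, Fintype.card_fin,
        Fintype.card_bool]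
      push_cast
      refine le_of_eq ?_
      ring) (fun _ _ _ _ => false) (fun d k q i => B3bPsi (k := k) i) 3 5 hL
  refine hT.mono ?_
  refine hreg.mono fun d k q h f hf hΨ c s => ?_
  obtain ⟨⟨h1, h2, h3, h4, h5, -⟩, hp⟩ := h
  have hfP : Prp f := (mem_filter.1 hf).2
  have hd2 : 2 ≤ d := by
    have : (2 : ℝ) ≤ d := by linarith
    exact_mod_cast this
  have hk1 : 1 ≤ k := by
    have : (1 : ℝ) ≤ k := by linarith
    exact_mod_cast this
  have hN : 0 ≤ NN d k := by
    unfold NN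
    positivity
  have h6 := hΨ (c, s)
  have h7 := B3b_fm hd2 hk1 (c, s) hfP
  have h8 : B3bPsi (k := k) (c, s) f = ∑ t : Blk d k, Ms s t (fun x => bq c f x - gg c f x) ^ 2 := rfl
  rw [← h8]
  have hd0 : (0 : ℝ) < d := by linarith
  have hq2 : (q : ℝ) ≤ 2 * d := by nlinarith
  have hq0 : (0 : ℝ) ≤ q := Nat.cast_nonneg q
  have h9 : 16 * (q : ℝ) ^ 2 / 2 ^ d ≤ 1 / (2 * (d : ℝ) ^ 4) := by
    rw [div_le_div_iff₀ (by positivity) (by positivity)]
    have h10 : (q : ℝ) ^ 2 ≤ (2 * d) ^ 2 := pow_le_pow_left₀ hq0 hq2 2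
    calc 16 * (q : ℝ) ^ 2 * (2 * (d : ℝ) ^ 4) ≤ 16 * (2 * d) ^ 2 * (2 * (d : ℝ) ^ 4) := by
          refine mul_le_mul_of_nonneg_right ?_ (by positivity)
          linarith
      _ = 128 * (d : ℝ) ^ 6 := by ring
      _ ≤ 2 ^ d := hp
      _ = 1 * 2 ^ d := by ring
  have h11 : NN d k / (d : ℝ) ^ 5 ≤ NN d k * (1 / (2 * (d : ℝ) ^ 4)) := by
    rw [div_eq_mul_one_div]
    refine mul_le_mul_of_nonneg_left ?_ hN
    refine one_div_le_one_div_of_le (by positivity) ?_
    have h12 : 2 * (d : ℝ) ^ 4 ≤ d * (d : ℝ) ^ 4 := mul_le_mul_of_nonneg_right (by linarith) (by positivity)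
    calc 2 * (d : ℝ) ^ 4 ≤ d * (d : ℝ) ^ 4 := h12
      _ = (d : ℝ) ^ 5 := by ring
  have h13 := mul_le_mul_of_nonneg_left h9 hN
  have h14 : NN d k * (1 / (2 * (d : ℝ) ^ 4)) + NN d k * (1 / (2 * (d : ℝ) ^ 4)) = NN d k / (d : ℝ) ^ 4 := by
    field_simp
    ring
  linarith

end Pool.Agent.THR

end

/-! ### from `Lib_MP_2c424f_thr.B1b` -/

section

/-!
# THR B1b: locality, reflections, adjacent blocks (paper proof: B1)

* `bdT_loc`: `bq c f v` depends on `f v` only.
* `bdT_sym`: `LO.rs_pt`, `rs_rs`, `rb_rb`: `Ms s (rb j α t) (bq c (f ∘ rs j α)) = Ms s' t (bq c f)`, `s' = s` with `β` flipped if the direction of `s` is `j`; `od` is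
  invariant under flipping both bits.
* `lab_adj`: the face `(j, true)` of `t` is the face `(j, false)` of `nxt t j` (`pt t a b = pt (nxt t j) (flp a j) (flp b j)` for `a j = b j = true`), so if one block is `hiL θ` and the
  other `loL θ'`, then `θ ≤ mean ≤ θ'`.  See `Lib_MP_2c424f_lin/B1.lean` (`badd_loc`, `badd_sym`, `labd_adj`) for the same statements for other labels.
-/

set_option autoImplicit false

open Finset Filter

namespace Pool.Agent.THR

open Pool.Agent.LO Pool.Agent.LIN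

variable {d k q : ℕ}

private theorem B1b_flp_self (a : Bt d) (j : Fin d) : flp a j j = !a j := by
  unfold flp
  exact Function.update_self _ _ _

private theorem B1b_flp_ne (a : Bt d) (i j : Fin d) (h : i ≠ j) : flp a j i = a i := by
  unfold flp
  exact Function.update_of_ne h _ _

private theorem B1b_flp_flp (a : Bt d) (j : Fin d) : flp (flp a j) j = a := by
  funext i
  by_cases h : i = j
  · subst h
    rw [B1b_flp_self, B1b_flp_self, Bool.not_not]
  · rw [B1b_flp_ne _ _ _ h, B1b_flp_ne _ _ _ h]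

private theorem B1b_od (j : Fin d) (a b : Bt d) : od (flp a j) (flp b j) ↔ od a b := by
  unfold od
  have h : (univ.filter fun i => flp a j i ≠ flp b j i) = univ.filter fun i => a i ≠ b i := by
    apply Finset.filter_congr
    intro i _
    by_cases hi : i = j
    · subst hi
      rw [B1b_flp_self, B1b_flp_self]
      cases a i <;> cases b i <;> simp
    · rw [B1b_flp_ne _ _ _ hi, B1b_flp_ne _ _ _ hi]
  rw [h]

private theorem B1b_nxt_pt (t : Blk d k) (j : Fin d) (a b : Bt d) (ha : a j = true) (hb : b j = true) :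
    pt (nxt t j) (flp a j) (flp b j) = pt t a b := by
  funext i
  unfold pt
  rw [Pi.add_apply, Pi.add_apply, Pi.add_apply, Pi.add_apply]
  by_cases hi : i = j
  · subst hi
    have e1 : ∀ u : ZMod (2 ^ k), ((2 * (u + 1).val : ℕ) : ZMod (2 ^ (k + 1))) =
        ((2 * u.val : ℕ) : ZMod (2 ^ (k + 1))) + 2 := by
      intro u
      have e2 : (((2 * (u + 1).val : ℕ)) : ZMod (2 ^ (k + 1))) = ((2 * u.val + 2 : ℕ) : ZMod (2 ^ (k + 1))) := by
        rw [ZMod.natCast_eq_natCast_iff]
        have h1 : (u + 1).val ≡ u.val + 1 [MOD 2 ^ k] := by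
          rw [← ZMod.natCast_eq_natCast_iff]
          push_cast
          rw [ZMod.natCast_zmod_val, ZMod.natCast_zmod_val]
        have h2 : 2 * (u + 1).val ≡ 2 * (u.val + 1) [MOD 2 * 2 ^ k] := h1.mul_left' 2
        have h3 : 2 * 2 ^ k = 2 ^ (k + 1) := by rw [pow_succ, mul_comm]
        rw [h3] at h2
        exact h2
      rw [e2]
      push_cast
      ring
    simp only [bas, bv, nxt, Function.update_self, B1b_flp_self, ha, hb]
    rw [e1]
    simp
    ring
  · simp only [bas, bv, nxt, Function.update_of_ne hi, B1b_flp_ne _ _ _ hi]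

/-- the mean over a shape, after flipping the bits `j` -/
private theorem B1b_bij (j : Fin d) (s s' : Shp d) (hs : ∀ a b : Bt d, inS s a b ↔ inS s' (flp a j) (flp b j))
    (t t' : Blk d k) (φ ψ : Site d (k + 1) → ℝ)
    (h : ∀ a b : Bt d, inS s a b → φ (pt t a b) = ψ (pt t' (flp a j) (flp b j))) : Ms s t φ = Ms s' t' ψ := by
  classical
  have m1 : ∀ p : Bt d × Bt d, p ∈ oS s ↔ od p.1 p.2 ∧ inS s p.1 p.2 := by
    intro p
    unfold oS
    rw [Finset.mem_filter]
    simp
  have m2 : ∀ p : Bt d × Bt d, p ∈ oS s' ↔ od p.1 p.2 ∧ inS s' p.1 p.2 := by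
    intro p
    unfold oS
    rw [Finset.mem_filter]
    simp
  have gen : ∀ F G : Bt d × Bt d → ℝ, (∀ p ∈ oS s, F p = G (flp p.1 j, flp p.2 j)) →
      ∑ p ∈ oS s, F p = ∑ p ∈ oS s', G p := by
    intro F G hFG
    refine Finset.sum_nbij' (fun p => (flp p.1 j, flp p.2 j)) (fun p => (flp p.1 j, flp p.2 j)) ?_ ?_ ?_ ?_ hFG
    · intro p hp
      rw [m1] at hp
      rw [m2]
      exact ⟨(B1b_od j p.1 p.2).2 hp.1, (hs p.1 p.2).1 hp.2⟩
    · intro p hp
      rw [m2] at hp
      rw [m1]
      refine ⟨(B1b_od j p.1 p.2).2 hp.1, (hs _ _).2 ?_⟩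
      rw [B1b_flp_flp, B1b_flp_flp]
      exact hp.2
    · intro p _
      simp only [B1b_flp_flp]
    · intro p _
      simp only [B1b_flp_flp]
  unfold Ms
  have c1 := gen (fun _ => 1) (fun _ => 1) fun _ _ => rfl
  rw [Finset.sum_const, Finset.sum_const, nsmul_eq_mul, nsmul_eq_mul, mul_one, mul_one] at c1
  rw [c1]
  congr 1
  refine gen (fun p => φ (pt t p.1 p.2)) (fun p => ψ (pt t' p.1 p.2)) ?_
  intro p hp
  rw [m1] at hp
  exact h p.1 p.2 hp.2

/-- the reflected shape -/
private def B1b_fl (j : Fin d) (s : Shp d) : Shp d :=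
  match s with
  | none => none
  | some (i, β) => some (i, if i = j then !β else β)

private theorem B1b_fl_fl (j : Fin d) (s : Shp d) : B1b_fl j (B1b_fl j s) = s := by
  rcases s with _ | ⟨i, β⟩
  · rfl
  · unfold B1b_fl
    by_cases h : i = j <;> simp [h]

private theorem B1b_inS (j : Fin d) (s : Shp d) (a b : Bt d) :
    inS s a b ↔ inS (B1b_fl j s) (flp a j) (flp b j) := by
  rcases s with _ | ⟨i, β⟩
  · exact Iff.rfl
  · unfold inS B1b_fl
    by_cases h : i = j
    · subst h
      simp only [if_true, B1b_flp_self]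
      cases β <;> cases a i <;> cases b i <;> simp
    · simp only [if_neg h, B1b_flp_ne _ _ _ h]

private theorem B1b_Ms_sym (c : Fin q) (j : Fin d) (α : ZMod (2 ^ k)) (t : Blk d k) (f : Site d (k + 1) → Fin q)
    (s : Shp d) : Ms s (rb j α t) (bq c (fun x => f (rs j α x))) = Ms (B1b_fl j s) t (bq c f) := by
  refine B1b_bij j s _ (B1b_inS j s) _ _ _ _ fun a b _ => ?_
  unfold bq
  beta_reduce
  rw [rs_pt, rb_rb]

theorem bdT_loc (θ θ' : ℝ) (c : Fin q) (t : Blk d k) (f g : Site d (k + 1) → Fin q)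
    (h : ∀ a b, f (pt t a b) = g (pt t a b)) (hb : bdT θ θ' c t f) : bdT θ θ' c t g := by
  have e : ∀ s : Shp d, Ms s t (bq c f) = Ms s t (bq c g) := by
    intro s
    unfold Ms
    congr 1
    refine Finset.sum_congr rfl fun p _ => ?_
    unfold bq
    rw [h]
  revert hb
  unfold bdT hiL loL
  simp only [e]
  exact id

theorem bdT_sym (θ θ' : ℝ) (c : Fin q) (j : Fin d) (α : ZMod (2 ^ k)) (t : Blk d k) (f : Site d (k + 1) → Fin q)
    (hb : bdT θ θ' c t f) : bdT θ θ' c (rb j α t) (fun x => f (rs j α x)) := by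
  refine ⟨fun h1 => hb.1 fun s => ?_, fun h1 => hb.2 fun s => ?_⟩
  · have h2 := h1 (B1b_fl j s)
    rw [B1b_Ms_sym, B1b_fl_fl] at h2
    exact h2
  · have h2 := h1 (B1b_fl j s)
    rw [B1b_Ms_sym, B1b_fl_fl] at h2
    exact h2

private theorem B1b_face (φ : Site d (k + 1) → ℝ) (t : Blk d k) (j : Fin d) :
    Ms (some (j, true)) t φ = Ms (some (j, false)) (nxt t j) φ := by
  refine B1b_bij j _ _ ?_ _ _ _ _ ?_
  · intro a b
    unfold inS
    simp only [B1b_flp_self]
    cases a j <;> cases b j <;> simp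
  · intro a b hab
    rw [B1b_nxt_pt t j a b hab.1 hab.2]

theorem lab_adj (hd : 2 ≤ d) (θ θ' : ℝ) (hθ : θ' < θ) (c : Fin q) (f : Site d (k + 1) → Fin q) (t : Blk d k)
    (j : Fin d) (h1 : ¬ bdT θ θ' c t f) (h2 : ¬ bdT θ θ' c (nxt t j) f) :
    hiL θ c f t ↔ hiL θ c f (nxt t j) := by
  have _ := hd
  have g : ∀ s : Blk d k, ¬ bdT θ θ' c s f → ¬ hiL θ c f s → loL θ' c f s := by
    intro s hs h
    by_contra h'
    exact hs ⟨h, h'⟩
  have key := B1b_face (bq c f) t j
  constructor
  · intro h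
    by_contra h'
    have h3 := g _ h2 h' (some (j, false))
    have h4 := h (some (j, true))
    linarith
  · intro h
    by_contra h'
    have h3 := g _ h1 h' (some (j, true))
    have h4 := h (some (j, false))
    linarith

end Pool.Agent.THR

end

/-! ### from `Lib_MP_2c424f_thr.B7a` -/

section

/-!
# THR B7a: the block of a site for a given bit vector (paper proof: B7)

For every `b` the map `(t, a) ↦ pt t a b` is a bijection from `Blk d k × Bt d` to the sites: coordinatewise `x i = 2 t_i + a_i + b_i` mod `2^(k+1)`.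
* `tb x b i = ⌊(x i - b_i)/2⌋`, `ab x b i` = parity of `x i - b_i`.
* `sum_tb`: reindexing (`Equiv` or `LO.sum_pt`).
-/

set_option autoImplicit false

open Finset Filter

namespace Pool.Agent.THR

open Pool.Agent.LO Pool.Agent.LIN

variable {d k q : ℕ}

/-- the block -/
def tb (x : Site d (k + 1)) (b : Bt d) : Blk d k :=
  fun i => (((x i - (if b i then 1 else 0) : ZMod (2 ^ (k + 1))).val / 2 : ℕ) : ZMod (2 ^ k))

/-- the bits -/
def ab (x : Site d (k + 1)) (b : Bt d) : Bt d :=
  fun i => (x i - (if b i then 1 else 0) : ZMod (2 ^ (k + 1))).val % 2 == 1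

private theorem b7a_pt (t : Blk d k) (a b : Bt d) (j : Fin d) :
    pt t a b j = ((2 * (t j).val + (if a j then 1 else 0) : ℕ) : ZMod (2 ^ (k + 1))) + (if b j then 1 else 0) := by
  simp only [pt, bas, bv, Pi.add_apply]
  push_cast
  rfl

theorem pt_tb (x : Site d (k + 1)) (b : Bt d) : pt (tb x b) (ab x b) b = x := by
  funext i
  rw [b7a_pt]
  have hp : 2 ^ (k + 1) = 2 * 2 ^ k := by ring
  set u : ZMod (2 ^ (k + 1)) := x i - (if b i then 1 else 0) with hu
  have hult : u.val < 2 ^ (k + 1) := ZMod.val_lt u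
  have h1 : (tb x b i).val = u.val / 2 := by
    show (((u.val / 2 : ℕ) : ZMod (2 ^ k))).val = u.val / 2
    rw [ZMod.val_natCast, Nat.mod_eq_of_lt]
    omega
  have h2 : (if ab x b i then 1 else 0 : ℕ) = u.val % 2 := by
    have : ab x b i = (u.val % 2 == 1) := rfl
    rw [this]
    rcases Nat.mod_two_eq_zero_or_one u.val with h | h <;> rw [h] <;> rfl
  rw [h1, h2, Nat.div_add_mod, ZMod.natCast_zmod_val, hu, sub_add_cancel]

theorem tb_pt (t : Blk d k) (a b : Bt d) : tb (pt t a b) b = t ∧ ab (pt t a b) b = a := by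
  have hp : 2 ^ (k + 1) = 2 * 2 ^ k := by ring
  have key : ∀ i, (pt t a b i - (if b i then 1 else 0) : ZMod (2 ^ (k + 1))).val =
      2 * (t i).val + (if a i then 1 else 0) := by
    intro i
    rw [b7a_pt, add_sub_cancel_right, ZMod.val_natCast, Nat.mod_eq_of_lt]
    have := ZMod.val_lt (t i)
    split_ifs <;> omega
  constructor
  · funext i
    unfold tb
    rw [key i]
    have : (2 * (t i).val + (if a i then 1 else 0)) / 2 = (t i).val := by
      split_ifs <;> omega
    rw [this, ZMod.natCast_zmod_val]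
  · funext i
    unfold ab
    rw [key i]
    cases h : a i
    · have : (2 * (t i).val + (if false = true then 1 else 0)) % 2 = 0 := by
        simp
      rw [this]; rfl
    · have : (2 * (t i).val + (if true = true then 1 else 0)) % 2 = 1 := by
        simp only [if_true]; omega
      rw [this]; rfl

open scoped Classical in
/-- sums over the odd pairs of all blocks -/
theorem sum_tb (F : Blk d k → Site d (k + 1) → ℝ) :
    ∑ t : Blk d k, ∑ p ∈ oS (d := d) none, F t (pt t p.1 p.2) = ∑ b : Bt d, ∑ x ∈ ods d (k + 1), F (tb x b) x := by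
  have h := sum_pt (d := d) (k := k) (fun x b => if ¬ evn x then F (tb x b) x else 0)
  have hL : ∑ t : Blk d k, ∑ p ∈ oS (d := d) none, F t (pt t p.1 p.2) =
      ∑ t : Blk d k, ∑ a, ∑ b, (if ¬ evn (pt t a b) then F (tb (pt t a b) b) (pt t a b) else 0) := by
    refine Finset.sum_congr rfl fun t _ => ?_
    rw [← Finset.sum_product', Finset.univ_product_univ]
    unfold oS
    rw [Finset.sum_filter]
    refine Finset.sum_congr rfl fun p _ => ?_
    rw [evn_pt, (tb_pt t p.1 p.2).1]
    by_cases ho : od p.1 p.2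
    · rw [if_pos (⟨ho, trivial⟩ : od p.1 p.2 ∧ inS none p.1 p.2), if_pos (not_not.2 ho)]
    · rw [if_neg (fun h => ho h.1), if_neg (not_not.2 ho)]
  rw [hL, h, Finset.sum_comm]
  refine Finset.sum_congr rfl fun b _ => ?_
  unfold ods
  rw [Finset.sum_filter]

end Pool.Agent.THR

end

/-! ### from `Lib_MP_2c424f_thr.B7b` -/

section

/-!
# THR B7b: the label of a site is the label of its blocks (paper proof: B7)

`et θ c f t = 1` if the block has the label high, `-1` otherwise.  `θ = 1 + m - η`.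
* `lab_pt`: block with `tauG ... τ`, `η < m`, `yM + η < 1`: if `τ = 1 + m` then the block is high (all `Ms s t bq ≥ 1 + m - η`) and `|ya - τ| ≤ η` implies `ya ≥ 1`, `eps = 1`; otherwise
  `Ms none t bq ≤ yM + η < 1 ≤ 1 + m - η`, so the block is not high, and `ya ≤ yM + η < 1`, `eps = -1`.  So `1[eps ≠ et] ≤ 1[η < |ya - τ|]`.
* `lab_sum`: blocks which are not close contribute at most the number of their odd pairs; `|oS none| = 4^d/2`.
* `lab_two`: for odd `x` and even `w`, `x + w` is odd; for every `b`, `1[eps_x ≠ eps_{x+w}] ≤ 1[eps_x ≠ et (tb x b)] + 1[et (tb x b) ≠ et (tb (x+w) b)] + 1[et (tb (x+w) b) ≠ eps_{x+w}]`.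
  Sum over the odd `x` and over `b`; the third sum equals the first one (`x ↦ x + w` permutes the odd sites: `LO.sum_ods_transl`); `sum_tb`.
-/

set_option autoImplicit false

open Finset Filter

namespace Pool.Agent.THR

open Pool.Agent.LO Pool.Agent.LIN

open scoped Classical in
/-- label of a block -/
noncomputable def et {d k q : ℕ} (θ : ℝ) (c : Fin q) (f : Site d (k + 1) → Fin q) (t : Blk d k) : ℝ :=
  if hiL θ c f t then 1 else -1

theorem lab_pt {d k q : ℕ} (hd : 2 ≤ d) (η m yM : ℝ) (hη : 0 < η) (h1 : η < m) (h2 : yM + η < 1) (h3 : 1 - m < yM) (c : Fin q)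
    (f : Site d (k + 1) → Fin q) (t : Blk d k) (τ : ℝ) (h : tauG η m yM c f t τ) :
    Ms none t (fun x => if eps c f x = et (1 + m - η) c f t then (0 : ℝ) else 1) ≤ η := by
  obtain ⟨hτ, hs, hn⟩ := h
  refine le_trans (Ms_mono none t fun a b _ => ?_) hn
  beta_reduce
  by_cases hc : η < |ya c f (pt t a b) - τ|
  · rw [if_pos hc]
    split_ifs <;> norm_num
  · rw [if_neg hc]
    push Not at hc
    have hc' := abs_le.1 hc
    have hlow : τ ≤ yM → eps c f (pt t a b) = et (1 + m - η) c f t := by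
      intro hle
      have e1 : eps c f (pt t a b) = -1 := by
        unfold eps
        rw [if_neg]
        intro h5
        linarith [hc'.2]
      have e2 : et (1 + m - η) c f t = -1 := by
        unfold et
        rw [if_neg]
        intro h5
        have h6 := h5 none
        have h7 := (abs_le.1 (hs none)).2
        linarith
      rw [e1, e2]
    have key : eps c f (pt t a b) = et (1 + m - η) c f t := by
      rcases hτ with hτ | hτ | hτ
      · exact hlow (by rw [hτ]; exact h3.le)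
      · exact hlow (by rw [hτ])
      · have e1 : eps c f (pt t a b) = 1 := by
          unfold eps
          rw [if_pos]
          linarith [hc'.1]
        have e2 : et (1 + m - η) c f t = 1 := by
          unfold et
          rw [if_pos]
          intro s
          have h7 := (abs_le.1 (hs s)).1
          linarith
        rw [e1, e2]
    rw [if_pos key]

open scoped Classical in
theorem lab_sum {d k q : ℕ} (hd : 2 ≤ d) (η m yM δ : ℝ) (hη : 0 < η) (h1 : η < m) (h2 : yM + η < 1) (h3 : 1 - m < yM)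
    (c : Fin q) (f : Site d (k + 1) → Fin q)
    (h : ((univ.filter fun t : Blk d k => ¬ ∃ τ, tauG η m yM c f t τ).card : ℝ) ≤ δ * NN d k) :
    ∑ b : Bt d, ∑ x ∈ ods d (k + 1), (if eps c f x = et (1 + m - η) c f (tb x b) then (0 : ℝ) else 1) ≤
      (η + δ) * (4 ^ d / 2 * NN d k) := by
  rw [← sum_tb fun t x => if eps c f x = et (1 + m - η) c f t then (0 : ℝ) else 1]
  have hS : ((oS (d := d) none).card : ℝ) = (4 : ℝ) ^ d / 2 := by
    rw [oS_card hd none, if_pos rfl]
  have hS0 : (0 : ℝ) < (4 : ℝ) ^ d / 2 := by positivity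
  have hone : ∀ t : Blk d k, ∑ p ∈ oS (d := d) none,
      (if eps c f (pt t p.1 p.2) = et (1 + m - η) c f t then (0 : ℝ) else 1) ≤
      η * (4 ^ d / 2) + (if ¬ ∃ τ, tauG η m yM c f t τ then (4 : ℝ) ^ d / 2 else 0) := by
    intro t
    by_cases ht : ∃ τ, tauG η m yM c f t τ
    · rw [if_neg (not_not.2 ht), add_zero]
      obtain ⟨τ, hτ⟩ := ht
      have h4 := lab_pt hd η m yM hη h1 h2 h3 c f t τ hτ
      unfold Ms at h4
      rw [hS, div_le_iff₀ hS0] at h4
      exact h4
    · rw [if_pos ht]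
      have h4 : ∑ p ∈ oS (d := d) none,
          (if eps c f (pt t p.1 p.2) = et (1 + m - η) c f t then (0 : ℝ) else 1) ≤
          ∑ p ∈ oS (d := d) none, (1 : ℝ) := by
        refine sum_le_sum fun p _ => ?_
        split_ifs <;> norm_num
      rw [sum_const, nsmul_eq_mul, mul_one, hS] at h4
      have h5 : 0 ≤ η * (4 ^ d / 2) := (mul_pos hη hS0).le
      linarith
  refine le_trans (sum_le_sum fun t _ => hone t) ?_
  rw [sum_add_distrib, sum_const, nsmul_eq_mul, card_univ, card_Blk, ← sum_filter, sum_const, nsmul_eq_mul]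
  have h6 := mul_le_mul_of_nonneg_right h hS0.le
  calc NN d k * (η * (4 ^ d / 2)) +
        ((univ.filter fun t : Blk d k => ¬ ∃ τ, tauG η m yM c f t τ).card : ℝ) * (4 ^ d / 2)
      ≤ NN d k * (η * (4 ^ d / 2)) + δ * NN d k * (4 ^ d / 2) := by linarith
    _ = (η + δ) * (4 ^ d / 2 * NN d k) := by ring

theorem lab_two {d k q : ℕ} (hd : 2 ≤ d) (hk : 1 ≤ k) (θ : ℝ) (c : Fin q) (f : Site d (k + 1) → Fin q) (w : Site d (k + 1))
    (hw : evn w) :
    2 ^ d * ∑ x ∈ ods d (k + 1), (if eps c f x = eps c f (x + w) then (0 : ℝ) else 1) ≤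
      2 * ∑ b : Bt d, ∑ x ∈ ods d (k + 1), (if eps c f x = et θ c f (tb x b) then (0 : ℝ) else 1) +
        ∑ b : Bt d, ∑ x ∈ ods d (k + 1), (if et θ c f (tb x b) = et θ c f (tb (x + w) b) then (0 : ℝ) else 1) := by
  have hone : ∀ b : Bt d, ∑ x ∈ ods d (k + 1), (if eps c f x = eps c f (x + w) then (0 : ℝ) else 1) ≤
      2 * ∑ x ∈ ods d (k + 1), (if eps c f x = et θ c f (tb x b) then (0 : ℝ) else 1) +
        ∑ x ∈ ods d (k + 1), (if et θ c f (tb x b) = et θ c f (tb (x + w) b) then (0 : ℝ) else 1) := by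
    intro b
    have h3 : ∑ x ∈ ods d (k + 1), (if eps c f (x + w) = et θ c f (tb (x + w) b) then (0 : ℝ) else 1) =
        ∑ x ∈ ods d (k + 1), (if eps c f x = et θ c f (tb x b) then (0 : ℝ) else 1) :=
      sum_ods_transl (by omega) hw fun v => if eps c f v = et θ c f (tb v b) then (0 : ℝ) else 1
    have h4 : ∑ x ∈ ods d (k + 1), (if eps c f x = eps c f (x + w) then (0 : ℝ) else 1) ≤
        ∑ x ∈ ods d (k + 1), ((if eps c f x = et θ c f (tb x b) then (0 : ℝ) else 1) +
          (if et θ c f (tb x b) = et θ c f (tb (x + w) b) then (0 : ℝ) else 1) +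
          (if eps c f (x + w) = et θ c f (tb (x + w) b) then (0 : ℝ) else 1)) := by
      refine sum_le_sum fun x _ => ?_
      by_cases a1 : eps c f x = et θ c f (tb x b)
      · by_cases a2 : et θ c f (tb x b) = et θ c f (tb (x + w) b)
        · by_cases a3 : eps c f (x + w) = et θ c f (tb (x + w) b)
          · rw [if_pos (a1.trans (a2.trans a3.symm)), if_pos a1, if_pos a2, if_pos a3]
            norm_num
          · rw [if_pos a1, if_pos a2, if_neg a3]
            split_ifs <;> norm_num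
        · rw [if_pos a1, if_neg a2]
          split_ifs <;> norm_num
      · rw [if_neg a1]
        split_ifs <;> norm_num
    rw [sum_add_distrib, sum_add_distrib, h3] at h4
    linarith
  have h5 := sum_le_sum fun (b : Bt d) (_ : b ∈ (univ : Finset (Bt d))) => hone b
  rw [sum_const, nsmul_eq_mul, card_univ, sum_add_distrib, ← mul_sum] at h5
  have h6 : ((Fintype.card (Bt d) : ℕ) : ℝ) = 2 ^ d := by
    rw [Fintype.card_fun, Fintype.card_bool, Fintype.card_fin]
    push_cast
    rfl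
  rw [h6] at h5
  exact h5

end Pool.Agent.THR

end
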