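import Pool.Agent.Lib_MP_2c424f_ms.M04
import Pool.Agent.Lib_MP_2c424f_ms.M25

/-!
# MP_2c424f_pr: library of SharpThreshold and BoundaryThreshold (merged): merged library part M27

Concatenation of smaller files (each in its own section), only to save build time.
-/

namespace Pool.Agent.LO
end Pool.Agent.LO

namespace Pool.Agent.LIN
end Pool.Agent.LIN

/-! ### from `Lib_MP_2c424f_lo.Chess` -/

section

/-!
# The chessboard estimate (piece CHESS)

Take `Γ` maximising `cn Γ * r^{-|Γ|}`; if it is nonempty (and the maximum is positive) the symmetrised sets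
are maximisers too (`|syL Γ| + |syR Γ| = 2 |Γ|`); an interval of block columns of length `2^e` in
direction `j` is doubled by a reflection in the plane at its end, so the full set is a maximiser.
-/

set_option autoImplicit false

open Finset

namespace Pool.Agent.LO

variable {d k : ℕ}

private theorem Chess_rb_rb (j : Fin d) (α : ZMod (2 ^ k)) (t : Blk d k) :
    rb j α (rb j α t) = t := by
  unfold rb
  rw [Function.update_idem, Function.update_self, sub_sub_cancel, Function.update_eq_self]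

private theorem Chess_rb_inj (j : Fin d) (α : ZMod (2 ^ k)) : Function.Injective (rb j α) := by
  intro s t h
  rw [← Chess_rb_rb j α s, h, Chess_rb_rb]

private theorem Chess_val_cast (n : ℕ) (h : n < 2 ^ k) : ((n : ZMod (2 ^ k))).val = n :=
  ZMod.val_cast_of_lt h

private theorem Chess_lft_rb (hk : 1 ≤ k) (j : Fin d) (α : ZMod (2 ^ k)) (t : Blk d k) :
    lft j α (rb j α t) ↔ ¬ lft j α t := by
  have hne : NeZero (2 ^ k) := ⟨by positivity⟩
  unfold lft
  have h1 : (rb j α t) j - α = ((2 ^ k - 1 - (t j - α).val : ℕ) : ZMod (2 ^ k)) := by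
    have hlt := ZMod.val_lt (t j - α)
    rw [Nat.sub_sub, Nat.cast_sub (by omega)]
    unfold rb
    rw [Function.update_self]
    push_cast
    rw [ZMod.natCast_val, ZMod.cast_id]
    have : ((2 : ZMod (2 ^ k)) ^ k) = 0 := by
      have := ZMod.natCast_self (2 ^ k)
      push_cast at this
      exact this
    rw [this]
    ring
  have hlt := ZMod.val_lt (t j - α)
  have h2 : 2 ^ k = 2 * 2 ^ (k - 1) := by
    rw [← pow_succ']
    congr 1
    omega
  rw [h1, Chess_val_cast _ (by omega)]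
  omega

theorem card_sy (hk : 1 ≤ k) (j : Fin d) (α : ZMod (2 ^ k)) (Γ : Finset (Blk d k)) :
    (syL j α Γ).card + (syR j α Γ).card = 2 * Γ.card := by
  classical
  have h1 : (syL j α Γ).card = 2 * (Γ.filter (fun t => lft j α t)).card := by
    unfold syL
    rw [card_union_of_disjoint, card_image_of_injective _ (Chess_rb_inj j α), two_mul]
    rw [disjoint_left]
    intro t ht ht'
    obtain ⟨s, hs, rfl⟩ := mem_image.1 ht'
    exact (Chess_lft_rb hk j α s).1 (mem_filter.1 ht).2 (mem_filter.1 hs).2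
  have h2 : (syR j α Γ).card = 2 * (Γ.filter (fun t => ¬ lft j α t)).card := by
    unfold syR
    rw [card_union_of_disjoint, card_image_of_injective _ (Chess_rb_inj j α), two_mul]
    rw [disjoint_left]
    intro t ht ht'
    obtain ⟨s, hs, rfl⟩ := mem_image.1 ht'
    exact (mem_filter.1 ht).2 ((Chess_lft_rb hk j α s).2 (mem_filter.1 hs).2)
  rw [h1, h2, ← mul_add, card_filter_add_card_filter_not]

/-- doubling of an interval of block columns -/
private theorem Chess_double (j : Fin d) (J : Finset (Fin d)) (Γ : Finset (Blk d k))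
    (a : Blk d k) (e : ℕ) (he : e + 1 ≤ k)
    (h : ∀ t : Blk d k, (∀ i, i ∉ insert j J → t i = a i) → (t j - a j).val < 2 ^ e → t ∈ Γ) :
    ∀ t : Blk d k, (∀ i, i ∉ insert j J → t i = a i) → (t j - a j).val < 2 ^ (e + 1) →
      t ∈ syL j (a j + ((2 ^ e : ℕ) : ZMod (2 ^ k)) - ((2 ^ (k - 1) : ℕ) : ZMod (2 ^ k))) Γ := by
  classical
  have hne : NeZero (2 ^ k) := ⟨by positivity⟩
  set α := a j + ((2 ^ e : ℕ) : ZMod (2 ^ k)) - ((2 ^ (k - 1) : ℕ) : ZMod (2 ^ k)) with hα
  have hpe : 2 ^ e ≤ 2 ^ (k - 1) := Nat.pow_le_pow_right (by norm_num) (by omega)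
  have h2 : 2 ^ k = 2 * 2 ^ (k - 1) := by
    rw [← pow_succ']
    congr 1
    omega
  have hleft : ∀ t : Blk d k, (t j - a j).val < 2 ^ e → lft j α t := by
    intro t ht
    unfold lft
    have h3 : t j - α = (((t j - a j).val + 2 ^ (k - 1) - 2 ^ e : ℕ) : ZMod (2 ^ k)) := by
      rw [Nat.cast_sub (by omega), Nat.cast_add, ZMod.natCast_val, ZMod.cast_id, hα]
      ring
    rw [h3, Chess_val_cast _ (by omega)]
    omega
  intro t ht htj
  by_cases hlt : (t j - a j).val < 2 ^ e
  · exact mem_union_left _ (mem_filter.2 ⟨h t ht hlt, hleft t hlt⟩)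
  · refine mem_union_right _ (mem_image.2 ⟨rb j α t, ?_, Chess_rb_rb j α t⟩)
    have h4 : (rb j α t) j - a j = ((2 ^ (e + 1) - 1 - (t j - a j).val : ℕ) : ZMod (2 ^ k)) := by
      unfold rb
      rw [Function.update_self, Nat.sub_sub, Nat.cast_sub (by omega), Nat.cast_add,
        ZMod.natCast_val, ZMod.cast_id, hα]
      have h5 : (2 : ZMod (2 ^ k)) * ((2 ^ (k - 1) : ℕ) : ZMod (2 ^ k)) = 0 := by
        have h8 := congrArg (Nat.cast : ℕ → ZMod (2 ^ k)) h2
        rw [ZMod.natCast_self, Nat.cast_mul] at h8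
        exact h8.symm
      have h6 : ((2 ^ (e + 1) : ℕ) : ZMod (2 ^ k)) = 2 * ((2 ^ e : ℕ) : ZMod (2 ^ k)) := by
        push_cast
        rw [pow_succ']
      rw [h6]
      push_cast at h5 ⊢
      linear_combination -h5
    have h7 : ((rb j α t) j - a j).val < 2 ^ e := by
      have hp : 2 ^ (e + 1) ≤ 2 ^ k := Nat.pow_le_pow_right (by norm_num) he
      rw [h4, Chess_val_cast _ (by omega)]
      have : 2 ^ (e + 1) = 2 * 2 ^ e := pow_succ' 2 e
      omega
    refine mem_filter.2 ⟨h _ ?_ h7, hleft _ h7⟩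
    intro i hi
    have hij : i ≠ j := fun hh => hi (by rw [hh]; exact mem_insert_self _ _)
    unfold rb
    rw [Function.update_of_ne hij]
    exact ht i hi

theorem chess (hk : 1 ≤ k) (cn : Finset (Blk d k) → ℝ) (Z r : ℝ) (hr : 0 < r) (hZ : 0 ≤ Z)
    (h0 : ∀ Γ, 0 ≤ cn Γ)
    (hrp : ∀ j α Γ, cn Γ ^ 2 ≤ cn (syL j α Γ) * cn (syR j α Γ))
    (hemp : cn ∅ ≤ Z) (hfull : cn univ ≤ Z * r ^ (Fintype.card (Blk d k))) (Γ : Finset (Blk d k)) :
    cn Γ ≤ Z * r ^ Γ.card := by
  classical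
  have hne : NeZero (2 ^ k) := ⟨by positivity⟩
  set F : Finset (Blk d k) → ℝ := fun G => cn G / r ^ G.card with hF
  obtain ⟨G₀, -, hmax⟩ := exists_max_image (univ : Finset (Finset (Blk d k))) F
    ⟨∅, mem_univ _⟩
  have hmax' : ∀ G, F G ≤ F G₀ := fun G => hmax G (mem_univ _)
  have key : F G₀ ≤ Z := by
    by_cases hpos : F G₀ ≤ 0
    · exact hpos.trans hZ
    push Not at hpos
    by_cases hG : G₀ = ∅
    · rw [hG]
      simpa [hF] using hemp
    -- maximisers
    have hsym : ∀ G, F G = F G₀ → ∀ j α, F (syL j α G) = F G₀ := by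
      intro G hGm j α
      have h1 := hrp j α G
      have h2 := card_sy hk j α G
      have e1 : cn G = F G * r ^ G.card := by
        simp only [hF]
        field_simp
      have e2 : cn (syL j α G) = F (syL j α G) * r ^ (syL j α G).card := by
        simp only [hF]
        field_simp
      have e3 : cn (syR j α G) = F (syR j α G) * r ^ (syR j α G).card := by
        simp only [hF]
        field_simp
      rw [e1, e2, e3, hGm] at h1
      have h3 : F G₀ ^ 2 * r ^ (2 * G.card) ≤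
          (F (syL j α G) * F (syR j α G)) * r ^ (2 * G.card) := by
        calc F G₀ ^ 2 * r ^ (2 * G.card) = (F G₀ * r ^ G.card) ^ 2 := by
              rw [mul_pow, ← pow_mul, mul_comm G.card 2]
          _ ≤ _ := h1
          _ = (F (syL j α G) * F (syR j α G)) * (r ^ ((syL j α G).card + (syR j α G).card)) := by
              rw [pow_add]; ring
          _ = _ := by rw [h2]
      have h4 : F G₀ ^ 2 ≤ F (syL j α G) * F (syR j α G) :=
        le_of_mul_le_mul_right h3 (by positivity)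
      have h5 : 0 ≤ F (syL j α G) := div_nonneg (h0 _) (by positivity)
      have h6 : F (syL j α G) * F (syR j α G) ≤ F (syL j α G) * F G₀ :=
        mul_le_mul_of_nonneg_left (hmax' _) h5
      refine le_antisymm (hmax' _) ?_
      have h7 : F G₀ * F G₀ ≤ F (syL j α G) * F G₀ := by
        rw [← sq]
        exact h4.trans h6
      exact le_of_mul_le_mul_right h7 hpos
    have hP : ∀ J : Finset (Fin d), ∃ G, F G = F G₀ ∧ ∃ a : Blk d k,
        ∀ t : Blk d k, (∀ i, i ∉ J → t i = a i) → t ∈ G := by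
      intro J
      induction J using Finset.induction_on with
      | empty =>
        obtain ⟨a, ha⟩ := nonempty_iff_ne_empty.2 hG
        refine ⟨G₀, rfl, a, fun t ht => ?_⟩
        have : t = a := funext fun i => ht i (by simp)
        rwa [this]
      | insert j J hj ih =>
        obtain ⟨G, hGm, a, ha⟩ := ih
        have hQ : ∀ e ≤ k, ∃ G, F G = F G₀ ∧ ∃ a : Blk d k, ∀ t : Blk d k,
            (∀ i, i ∉ insert j J → t i = a i) → (t j - a j).val < 2 ^ e → t ∈ G := by
          intro e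
          induction e with
          | zero =>
            intro _
            refine ⟨G, hGm, a, fun t ht htj => ha t fun i hi => ?_⟩
            by_cases hij : i = j
            · subst hij
              rw [pow_zero, Nat.lt_one_iff, ZMod.val_eq_zero] at htj
              exact sub_eq_zero.1 htj
            · exact ht i (by simp [hij, hi])
          | succ e ihe =>
            intro he
            obtain ⟨G', hG', a', ha'⟩ := ihe (by omega)
            exact ⟨_, hsym G' hG' j _, a', Chess_double j J G' a' e he ha'⟩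
        obtain ⟨G', hG', a', ha'⟩ := hQ k le_rfl
        exact ⟨G', hG', a', fun t ht => ha' t ht (ZMod.val_lt _)⟩
    obtain ⟨G, hGm, a, ha⟩ := hP univ
    have hGu : G = univ := eq_univ_of_forall fun t => ha t fun i hi => absurd (mem_univ i) hi
    rw [← hGm, hGu]
    simp only [hF, card_univ]
    rw [div_le_iff₀ (by positivity)]
    exact hfull
  have h := (hmax' Γ).trans key
  simp only [hF] at h
  rwa [div_le_iff₀ (by positivity)] at h

end Pool.Agent.LO

end

/-! ### from `Lib_MP_2c424f_thr.N1a` -/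

section

/-!
# THR N1a: the kernel is small (paper proof: T5)

`Kt t u y` = number of walks `(σ_1, …, σ_t)` with sum `y - u` (mod `m = 2^k`), divided by `(2d)^t`.  For `t = 2 s`:
let `S` be the set of the directions in which `y - u` does not vanish; every direction of `S` is used by the walk, so `|S| ≤ 2 s`.
Every direction which is used and is not in `S` is used at least twice, so there are at most `s` of them, and they are in the range
of some `D : Fin s → Fin d`.  So there are at most `d^s (2 (2 s + s))^(2 s)` walks.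
-/

set_option autoImplicit false

open Finset Filter

namespace Pool.Agent.THR

open Pool.Agent.LO Pool.Agent.LIN

variable {d k : ℕ}

private theorem n1a_iter (t : ℕ) (u y : Site d k) :
    Kt t u y = (∑ w : Fin t → Stp d, if u + ∑ p, sv (w p) = y then (1 : ℝ) else 0) / (2 * (d : ℝ)) ^ t := by
  induction t generalizing u with
  | zero =>
    simp [Kt]
  | succ t ih =>
    have h1 : Kt (t + 1) u y = (∑ σ : Stp d, Kt t (u + sv σ) y) / (2 * d) := by
      unfold Kt
      rw [Function.iterate_succ_apply']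
      rfl
    rw [h1]
    have h2 : (∑ w : Fin (t + 1) → Stp d, if u + ∑ p, sv (w p) = y then (1 : ℝ) else 0)
        = ∑ σ : Stp d, ∑ w : Fin t → Stp d, if u + sv σ + ∑ p, sv (w p) = y then (1 : ℝ) else 0 := by
      rw [← (Fin.consEquiv (fun _ : Fin (t + 1) => Stp d)).sum_comp, Fintype.sum_prod_type]
      refine Finset.sum_congr rfl fun σ _ => Finset.sum_congr rfl fun w _ => ?_
      simp only [Fin.consEquiv, Equiv.coe_fn_mk, Fin.sum_univ_succ, Fin.cons_zero, Fin.cons_succ, add_assoc]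
    have h3 : ∀ a : ℝ, a / ((2 * (d : ℝ)) ^ t * (2 * (d : ℝ))) = a / (2 * (d : ℝ)) ^ t / (2 * (d : ℝ)) :=
      fun a => by rw [div_div]
    rw [h2, pow_succ, h3]
    refine congrArg (fun z : ℝ => z / (2 * d)) ?_
    rw [Finset.sum_div]
    refine Finset.sum_congr rfl fun σ _ => ?_
    exact ih (u + sv σ)

private theorem n1a_ne {t : ℕ} (w : Fin t → Stp d) (i : Fin d) (p : Fin t) (h : (w p).1 ≠ i) :
    (sv (w p) : Site d k) i = 0 := by
  unfold sv
  rw [Pi.single_eq_of_ne (Ne.symm h)]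

private theorem n1a_two {t : ℕ} (hk : 1 < 2 ^ k) (w : Fin t → Stp d) (i : Fin d)
    (hi : (∑ p, (sv (w p) : Site d k)) i = 0) (p₀ : Fin t) (hp : (w p₀).1 = i) :
    2 ≤ (univ.filter fun p => (w p).1 = i).card := by
  by_contra hc
  have hc1 : (univ.filter fun p => (w p).1 = i).card ≤ 1 := by omega
  rw [Finset.card_le_one] at hc1
  have h0 : (∑ p, (sv (w p) : Site d k)) i = (sv (w p₀) : Site d k) i := by
    rw [Finset.sum_apply]
    refine Finset.sum_eq_single p₀ (fun b _ hb => ?_) (fun h => absurd (mem_univ _) h)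
    refine n1a_ne w i b fun hbi => hb ?_
    exact hc1 b (by simp [hbi]) p₀ (by simp [hp])
  rw [h0] at hi
  have hne : (1 : ZMod (2 ^ k)) ≠ 0 := by
    have : Fact (1 < 2 ^ k) := ⟨hk⟩
    exact one_ne_zero
  unfold sv at hi
  rw [hp, Pi.single_eq_same] at hi
  split_ifs at hi
  · exact hne hi
  · exact hne (neg_eq_zero.1 hi)

private theorem n1a_range (hd : 1 ≤ d) (s : ℕ) (U : Finset (Fin d)) (hU : U.card ≤ s) :
    ∃ D : Fin s → Fin d, U ⊆ univ.image D := by
  have h0 : (⟨0, hd⟩ : Fin d) = ⟨0, hd⟩ := rfl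
  refine ⟨fun p => if h : p.val < U.card then (U.equivFin.symm ⟨p.val, h⟩ : Fin d) else ⟨0, hd⟩, fun i hi => ?_⟩
  rw [Finset.mem_image]
  refine ⟨⟨(U.equivFin ⟨i, hi⟩).val, lt_of_lt_of_le (U.equivFin ⟨i, hi⟩).isLt hU⟩, mem_univ _, ?_⟩
  simp

open scoped Classical in
private theorem n1a_cover (hd : 1 ≤ d) (s : ℕ) (hk : 1 < 2 ^ k) (v : Site d k) (w : Fin (2 * s) → Stp d)
    (hw : ∑ p, (sv (w p) : Site d k) = v) :
    (univ.filter fun i => v i ≠ 0).card ≤ 2 * s ∧
      ∃ D : Fin s → Fin d, ∀ p, (w p).1 ∈ (univ.filter fun i => v i ≠ 0) ∪ univ.image D := by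
  set S := univ.filter fun i => v i ≠ 0 with hS
  refine ⟨?_, ?_⟩
  · have : S ⊆ univ.image fun p => (w p).1 := by
      intro i hi
      rw [hS, mem_filter] at hi
      by_contra hc
      apply hi.2
      rw [← hw, Finset.sum_apply]
      refine Finset.sum_eq_zero fun p _ => n1a_ne w i p fun hp => hc ?_
      exact Finset.mem_image.2 ⟨p, mem_univ _, hp⟩
    calc S.card ≤ (univ.image fun p => (w p).1).card := card_le_card this
      _ ≤ (univ : Finset (Fin (2 * s))).card := card_image_le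
      _ = 2 * s := by simp
  · set U := (univ.image fun p => (w p).1) \ S with hUd
    have hU2 : ∀ i ∈ U, 2 ≤ (univ.filter fun p => (w p).1 = i).card := by
      intro i hi
      rw [hUd, Finset.mem_sdiff, Finset.mem_image] at hi
      obtain ⟨⟨p₀, _, hp⟩, hiS⟩ := hi
      refine n1a_two hk w i ?_ p₀ hp
      rw [hw]
      by_contra hc
      exact hiS (by rw [hS, mem_filter]; exact ⟨mem_univ _, hc⟩)
    have h1 : U.card * 2 ≤ ∑ i ∈ U, (univ.filter fun p => (w p).1 = i).card := by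
      have := Finset.card_nsmul_le_sum U (fun i => (univ.filter fun p => (w p).1 = i).card) 2 hU2
      simpa using this
    have h2 : ∑ i ∈ U, (univ.filter fun p => (w p).1 = i).card ≤ 2 * s := by
      calc ∑ i ∈ U, (univ.filter fun p => (w p).1 = i).card
          ≤ ∑ i : Fin d, (univ.filter fun p => (w p).1 = i).card :=
            Finset.sum_le_sum_of_subset (subset_univ _)
        _ = (univ : Finset (Fin (2 * s))).card := by
            rw [← Finset.card_eq_sum_card_fiberwise (f := fun p => (w p).1) (t := univ) (fun _ _ => by simp)]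
        _ = 2 * s := by simp
    obtain ⟨D, hD⟩ := n1a_range hd s U (by omega)
    refine ⟨D, fun p => ?_⟩
    rw [mem_union]
    by_cases hp : (w p).1 ∈ S
    · exact Or.inl hp
    · refine Or.inr (hD ?_)
      rw [hUd, Finset.mem_sdiff]
      exact ⟨Finset.mem_image.2 ⟨p, mem_univ _, rfl⟩, hp⟩

open scoped Classical in
private theorem n1a_count (hd : 1 ≤ d) (s : ℕ) (hk : 1 < 2 ^ k) (v : Site d k) :
    (univ.filter fun w : Fin (2 * s) → Stp d => ∑ p, (sv (w p) : Site d k) = v).card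
      ≤ d ^ s * (6 * s) ^ (2 * s) := by
  set F := univ.filter fun w : Fin (2 * s) → Stp d => ∑ p, (sv (w p) : Site d k) = v with hF
  rcases F.eq_empty_or_nonempty with h0 | ⟨w₀, hw₀⟩
  · rw [h0]; simp
  · rw [hF, mem_filter] at hw₀
    have hScard := (n1a_cover hd s hk v w₀ hw₀.2).1
    set S := univ.filter fun i => v i ≠ 0 with hS
    have hsub : F ⊆ (univ : Finset (Fin s → Fin d)).biUnion fun D =>
        Fintype.piFinset fun _ : Fin (2 * s) => (S ∪ univ.image D) ×ˢ (univ : Finset Bool) := by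
      intro w hw
      rw [hF, mem_filter] at hw
      obtain ⟨D, hD⟩ := (n1a_cover hd s hk v w hw.2).2
      rw [mem_biUnion]
      refine ⟨D, mem_univ _, ?_⟩
      rw [Fintype.mem_piFinset]
      intro p
      rw [mem_product]
      exact ⟨hD p, mem_univ _⟩
    calc F.card ≤ _ := card_le_card hsub
      _ ≤ ∑ D : Fin s → Fin d, (Fintype.piFinset fun _ : Fin (2 * s) =>
            (S ∪ univ.image D) ×ˢ (univ : Finset Bool)).card := card_biUnion_le
      _ ≤ ∑ _D : Fin s → Fin d, (6 * s) ^ (2 * s) := by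
          refine Finset.sum_le_sum fun D _ => ?_
          rw [Fintype.card_piFinset_const, card_product]
          refine Nat.pow_le_pow_left ?_ _
          have h1 : (S ∪ univ.image D).card ≤ 3 * s := by
            calc (S ∪ univ.image D).card ≤ S.card + (univ.image D).card := card_union_le _ _
              _ ≤ 2 * s + s := by
                  refine Nat.add_le_add hScard ?_
                  calc (univ.image D).card ≤ (univ : Finset (Fin s)).card := card_image_le
                    _ = s := by simp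
              _ = 3 * s := by ring
          have h2 : (univ : Finset Bool).card = 2 := by simp
          rw [h2]
          omega
      _ = d ^ s * (6 * s) ^ (2 * s) := by
          rw [Finset.sum_const, card_univ, Fintype.card_fun, Fintype.card_fin, Fintype.card_fin, smul_eq_mul]

theorem Kt_sup (hd : 1 ≤ d) (s : ℕ) (hk : 2 * s < 2 ^ k) (u y : Site d k) :
    Kt (2 * s) u y ≤ (8 * (s : ℝ)) ^ (2 * s) / (2 * (d : ℝ)) ^ s := by
  classical
  have hd' : (1 : ℝ) ≤ d := by exact_mod_cast hd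
  have hd0 : (0 : ℝ) < 2 * (d : ℝ) := by linarith
  rcases Nat.eq_zero_or_pos s with rfl | hs
  · simp only [Kt, mul_zero, Function.iterate_zero, id, Nat.cast_zero, pow_zero, div_one]
    split_ifs <;> norm_num
  · have hk1 : 1 < 2 ^ k := by omega
    rw [n1a_iter]
    have h1 : (∑ w : Fin (2 * s) → Stp d, if u + ∑ p, sv (w p) = y then (1 : ℝ) else 0)
        = ((univ.filter fun w : Fin (2 * s) → Stp d => ∑ p, (sv (w p) : Site d k) = y - u).card : ℝ) := by
      rw [Finset.sum_boole]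
      congr 2
      ext w
      simp only [mem_filter, mem_univ, true_and]
      constructor
      · intro h; rw [← h]; abel
      · intro h; rw [h]; abel
    rw [h1]
    have h2 : ((univ.filter fun w : Fin (2 * s) → Stp d => ∑ p, (sv (w p) : Site d k) = y - u).card : ℝ)
        ≤ (d : ℝ) ^ s * (6 * (s : ℝ)) ^ (2 * s) := by
      have := n1a_count hd s hk1 (y - u)
      have h3 : (((univ.filter fun w : Fin (2 * s) → Stp d => ∑ p, (sv (w p) : Site d k) = y - u).card : ℕ) : ℝ)
          ≤ ((d ^ s * (6 * s) ^ (2 * s) : ℕ) : ℝ) := by exact_mod_cast this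
      refine h3.trans (le_of_eq ?_)
      push_cast
      ring
    have hs0 : (0 : ℝ) ≤ s := by positivity
    have h4 : (d : ℝ) ^ s * (6 * (s : ℝ)) ^ (2 * s) ≤ (2 * (d : ℝ)) ^ s * (8 * (s : ℝ)) ^ (2 * s) := by
      refine mul_le_mul ?_ ?_ (by positivity) (by positivity)
      · exact pow_le_pow_left₀ (by linarith) (by linarith) _
      · exact pow_le_pow_left₀ (by positivity) (by linarith) _
    calc ((univ.filter fun w : Fin (2 * s) → Stp d => ∑ p, (sv (w p) : Site d k) = y - u).card : ℝ)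
          / (2 * (d : ℝ)) ^ (2 * s)
        ≤ ((2 * (d : ℝ)) ^ s * (8 * (s : ℝ)) ^ (2 * s)) / (2 * (d : ℝ)) ^ (2 * s) := by
          exact div_le_div_of_nonneg_right (h2.trans h4) (by positivity)
      _ = (8 * (s : ℝ)) ^ (2 * s) / (2 * (d : ℝ)) ^ s := by
          have : (2 * (d : ℝ)) ^ (2 * s) = (2 * (d : ℝ)) ^ s * (2 * (d : ℝ)) ^ s := by
            rw [← pow_add]; congr 1; ring
          rw [this]
          field_simp

end Pool.Agent.THR

end

/-! ### from `Lib_MP_2c424f_thr.N1` -/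

section

/-!
# THR N1: powers of the averaging operator (paper proof: T5 and elementary facts)

`PP g x = (∑_σ g (x + sv σ)) / (2 d)`.  All statements by induction on `t` (`Function.iterate_succ`).
* `Kt_sup`: number `c(t)` of walks `(σ_1, …, σ_t)` with a given sum (mod `m = 2^k > t`): last step in a direction `i` where the sum
  is `≠ 0`: at most `t` such directions (each has to be used), `2t` choices, the rest is a walk of length `t-1`; otherwise the
  `i`-component of the sum is `0` mod `m`, and since `t < m` the step is cancelled by an earlier step: choose its place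
  (`t-1`), `2d` choices for the step, the rest is a walk of length `t-2` with the same sum.
  `c(t) ≤ 2t c(t-1) + (t-1) 2d c(t-2)`, so `c(t) ≤ (4t)^t (2d)^(t/2)` by induction; `Kt (2s) = c(2s)/(2d)^(2s)`.
* `cls_sum`: for even `t`, `PP^[t] g x` for `x` in the class `b` only depends on `g` on the class `b`.
-/

set_option autoImplicit false

open Finset Filter

namespace Pool.Agent.THR

open Pool.Agent.LO Pool.Agent.LIN

variable {d k : ℕ}

/-! ### the operator itself -/

private theorem N1_card (d : ℕ) : ((univ : Finset (Stp d)).card : ℝ) = 2 * d := by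
  rw [card_univ, Fintype.card_prod, Fintype.card_fin, Fintype.card_bool]
  push_cast
  ring

private theorem N1_sum_add (g : Site d k → ℝ) (a : Site d k) : ∑ x, g (x + a) = ∑ x, g x :=
  Fintype.sum_equiv (Equiv.addRight a) _ _ fun _ => rfl

private theorem N1_opp (σ : Stp d) : (sv (opp σ) : Site d k) = - sv σ := by
  obtain ⟨j, b⟩ := σ
  have h := sv_opp (k := k) j b
  unfold opp
  exact (neg_eq_of_add_eq_zero_right h).symm

private theorem N1_opp_opp (σ : Stp d) : opp (opp σ) = σ := by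
  obtain ⟨j, b⟩ := σ
  simp [opp]

private def N1_oppE (d : ℕ) : Stp d ≃ Stp d where
  toFun := opp
  invFun := opp
  left_inv := N1_opp_opp
  right_inv := N1_opp_opp

private theorem N1_sum_opp (F : Stp d → ℝ) : ∑ σ : Stp d, F (opp σ) = ∑ σ : Stp d, F σ :=
  (N1_oppE d).sum_comp F

private theorem N1_succ (t : ℕ) (g : Site d k → ℝ) (x : Site d k) :
    PP^[t + 1] g x = (∑ σ : Stp d, PP^[t] g (x + sv σ)) / (2 * d) := by
  rw [Function.iterate_succ_apply']
  rfl

private theorem N1_adj (g h : Site d k → ℝ) : ∑ x, PP g x * h x = ∑ x, g x * PP h x := by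
  have e1 : ∑ x, PP g x * h x = (∑ σ : Stp d, ∑ x, g (x + sv σ) * h x) / (2 * d) := by
    rw [sum_comm, sum_div]
    refine sum_congr rfl fun x _ => ?_
    unfold PP
    rw [div_mul_eq_mul_div, sum_mul]
  have e2 : ∑ x, g x * PP h x = (∑ σ : Stp d, ∑ x, g x * h (x + sv σ)) / (2 * d) := by
    rw [sum_comm, sum_div]
    refine sum_congr rfl fun x _ => ?_
    unfold PP
    rw [mul_div_assoc', mul_sum]
  rw [e1, e2, ← N1_sum_opp fun σ => ∑ x, g x * h (x + sv σ)]
  congr 1
  refine sum_congr rfl fun σ _ => ?_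
  rw [← N1_sum_add (fun x => g x * h (x + sv (opp σ))) (sv σ)]
  refine sum_congr rfl fun x _ => ?_
  rw [N1_opp, add_neg_cancel_right]

/-! ### powers -/

theorem PPt_sum (t : ℕ) {ι : Type*} (A : Finset ι) (g : ι → Site d k → ℝ) (x : Site d k) :
    PP^[t] (fun y => ∑ i ∈ A, g i y) x = ∑ i ∈ A, PP^[t] (g i) x := by
  induction t generalizing x with
  | zero => rfl
  | succ t ih =>
    rw [N1_succ]
    simp only [ih]
    rw [sum_comm, sum_div]
    refine sum_congr rfl fun i _ => ?_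
    rw [N1_succ]

theorem PPt_mul (t : ℕ) (c : ℝ) (g : Site d k → ℝ) (x : Site d k) : PP^[t] (fun y => c * g y) x = c * PP^[t] g x := by
  induction t generalizing x with
  | zero => rfl
  | succ t ih =>
    rw [N1_succ, N1_succ]
    simp only [ih]
    rw [← mul_sum, mul_div_assoc]

theorem Kt_repr (t : ℕ) (g : Site d k → ℝ) (u : Site d k) : PP^[t] g u = ∑ y, Kt t u y * g y := by
  have h : g = fun x => ∑ y : Site d k, g y * (if x = y then (1 : ℝ) else 0) := by
    funext x
    simp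
  conv_lhs => rw [h]
  rw [PPt_sum]
  refine sum_congr rfl fun y _ => ?_
  rw [PPt_mul, mul_comm]
  rfl

theorem PPt_mono (t : ℕ) {g h : Site d k → ℝ} (hgh : ∀ x, g x ≤ h x) (x : Site d k) : PP^[t] g x ≤ PP^[t] h x := by
  induction t generalizing x with
  | zero => exact hgh x
  | succ t ih =>
    rw [N1_succ, N1_succ]
    exact div_le_div_of_nonneg_right (sum_le_sum fun σ _ => ih _) (by positivity)

private theorem N1_zero (t : ℕ) (x : Site d k) : PP^[t] (fun _ : Site d k => (0 : ℝ)) x = 0 := by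
  have h := PPt_mul (d := d) (k := k) t 0 (fun _ => 0) x
  simpa using h

theorem Kt_nonneg (t : ℕ) (u y : Site d k) : 0 ≤ Kt t u y := by
  have h := PPt_mono t (g := fun _ => (0 : ℝ)) (h := fun x : Site d k => if x = y then (1 : ℝ) else 0)
    (fun x => by
      split_ifs
      · exact zero_le_one
      · exact le_refl 0) u
  rw [N1_zero] at h
  exact h

theorem PPt_const (hd : 1 ≤ d) (t : ℕ) (c : ℝ) (x : Site d k) : PP^[t] (fun _ => c) x = c := by
  have hd0 : (2 * (d : ℝ)) ≠ 0 := by positivity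
  induction t generalizing x with
  | zero => rfl
  | succ t ih =>
    rw [N1_succ]
    simp only [ih]
    rw [sum_const, nsmul_eq_mul, N1_card]
    field_simp

theorem Kt_one (hd : 1 ≤ d) (t : ℕ) (u : Site d k) : ∑ y, Kt t u y = 1 := by
  have h := Kt_repr t (fun _ : Site d k => (1 : ℝ)) u
  rw [PPt_const hd] at h
  rw [h]
  refine sum_congr rfl fun y _ => ?_
  rw [mul_one]

theorem PPt_adj (t : ℕ) (g h : Site d k → ℝ) : ∑ x, PP^[t] g x * h x = ∑ x, g x * PP^[t] h x := by
  induction t generalizing g h with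
  | zero => rfl
  | succ t ih =>
    rw [Function.iterate_succ_apply, Function.iterate_succ_apply', ih (PP g) h, N1_adj]

theorem Kt_symm (t : ℕ) (u y : Site d k) : Kt t u y = Kt t y u := by
  have h := PPt_adj t (fun x => if x = y then (1 : ℝ) else 0) (fun x => if x = u then (1 : ℝ) else 0)
  simp only [mul_ite, mul_one, mul_zero, ite_mul, one_mul, zero_mul, sum_ite_eq', mem_univ, if_true] at h
  exact h

theorem PPt_transl (t : ℕ) (g : Site d k → ℝ) (v x : Site d k) : PP^[t] (fun y => g (y + v)) x = PP^[t] g (x + v) := by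
  induction t generalizing x with
  | zero => rfl
  | succ t ih =>
    rw [N1_succ, N1_succ]
    congr 1
    refine sum_congr rfl fun σ _ => ?_
    rw [ih, add_right_comm]

theorem Kt_transl (t : ℕ) (u y v : Site d k) : Kt t (u + v) (y + v) = Kt t u y := by
  unfold Kt
  rw [← PPt_transl]
  have h : (fun x : Site d k => if x + v = y + v then (1 : ℝ) else 0) = fun x => if x = y then 1 else 0 := by
    funext x
    simp only [add_left_inj]
  rw [h]

/-- the bound for one more step -/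
theorem Kt_succ_le (hd : 1 ≤ d) (t : ℕ) (κ : ℝ) (h : ∀ u y : Site d k, Kt t u y ≤ κ) (u y : Site d k) :
    Kt (t + 1) u y ≤ κ := by
  have hd0 : 0 < (2 * (d : ℝ)) := by positivity
  unfold Kt
  rw [N1_succ, div_le_iff₀ hd0]
  have h1 : ∑ σ : Stp d, PP^[t] (fun x : Site d k => if x = y then (1 : ℝ) else 0) (u + sv σ) ≤
      ∑ _σ : Stp d, κ := sum_le_sum fun σ _ => h (u + sv σ) y
  rw [sum_const, nsmul_eq_mul, N1_card] at h1
  linarith [mul_comm κ (2 * (d : ℝ))]

theorem PPt_sub (t : ℕ) (g h : Site d k → ℝ) (x : Site d k) :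
    PP^[t] (fun y => g y - h y) x = PP^[t] g x - PP^[t] h x := by
  induction t generalizing x with
  | zero => rfl
  | succ t ih =>
    rw [N1_succ, N1_succ, N1_succ]
    simp only [ih]
    rw [sum_sub_distrib, sub_div]

theorem PPt_abs (t : ℕ) (g : Site d k → ℝ) (x : Site d k) : |PP^[t] g x| ≤ PP^[t] (fun y => |g y|) x := by
  rw [abs_le]
  constructor
  · have h := PPt_mono t (g := fun y => (-1) * |g y|) (h := g) (fun y => by
      have := neg_abs_le (g y)
      linarith) x
    rw [PPt_mul] at h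
    linarith
  · exact PPt_mono t (fun y => le_abs_self (g y)) x

theorem PPt_sq (hd : 1 ≤ d) (t : ℕ) (g : Site d k → ℝ) (x : Site d k) :
    PP^[t] g x ^ 2 ≤ PP^[t] (fun y => g y ^ 2) x := by
  have h1 := PPt_mono t (g := fun _ => (0 : ℝ)) (h := fun y => (g y - PP^[t] g x) ^ 2) (fun y => sq_nonneg _) x
  rw [N1_zero] at h1
  have h2 : (fun y => (g y - PP^[t] g x) ^ 2) =
      fun y => (g y ^ 2 - (2 * PP^[t] g x) * g y) - (-(PP^[t] g x ^ 2)) := by
    funext y
    ring
  rw [h2, PPt_sub t (fun y => g y ^ 2 - (2 * PP^[t] g x) * g y) (fun _ => -(PP^[t] g x ^ 2)),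
    PPt_sub t (fun y => g y ^ 2) (fun y => (2 * PP^[t] g x) * g y), PPt_mul, PPt_const hd] at h1
  nlinarith

theorem PPt_total (hd : 1 ≤ d) (t : ℕ) (g : Site d k → ℝ) : ∑ x, PP^[t] g x = ∑ x, g x := by
  have h := PPt_adj t g (fun _ => 1)
  simp only [mul_one, PPt_const hd] at h
  exact h

/-- contraction -/
theorem PPt_l2 (hd : 1 ≤ d) (t : ℕ) (g : Site d k → ℝ) : ∑ x, PP^[t] g x ^ 2 ≤ ∑ x, g x ^ 2 := by
  rw [← PPt_total hd t fun y => g y ^ 2]
  exact sum_le_sum fun x _ => PPt_sq hd t g x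

private theorem N1_cls (hk : 1 ≤ k) (t : ℕ) (b : Bool) (u y : Site d k) (hu : u ∈ cls b d k)
    (hy : (Even t ∧ y ∈ cls (!b) d k) ∨ (¬ Even t ∧ y ∈ cls b d k)) : Kt t u y = 0 := by
  induction t generalizing b u with
  | zero =>
    unfold Kt
    rw [Function.iterate_zero, id, if_neg]
    rintro rfl
    rcases hy with ⟨_, hy⟩ | ⟨h0, _⟩
    · exact (cls_not b u).1 hy hu
    · exact h0 Even.zero
  | succ t ih =>
    unfold Kt at ih ⊢
    rw [N1_succ]
    have h0 : ∀ σ : Stp d, PP^[t] (fun x : Site d k => if x = y then (1 : ℝ) else 0) (u + sv σ) = 0 := by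
      intro σ
      refine ih (!b) (u + sv σ) ?_ ?_
      · rw [mem_cls_step hk, Bool.not_not]
        exact hu
      · rw [Nat.even_add_one, not_not] at hy
        rw [Bool.not_not]
        exact hy.symm
    simp only [h0, sum_const_zero, zero_div]

/-- support of the kernel -/
theorem Kt_cls (hk : 1 ≤ k) (t : ℕ) (ht : Even t) (b : Bool) (u y : Site d k) (hu : u ∈ cls b d k)
    (hy : y ∈ cls (!b) d k) : Kt t u y = 0 :=
  N1_cls hk t b u y hu (Or.inl ⟨ht, hy⟩)

theorem Kt_cls' (hk : 1 ≤ k) (t : ℕ) (ht : ¬ Even t) (b : Bool) (u y : Site d k) (hu : u ∈ cls b d k)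
    (hy : y ∈ cls b d k) : Kt t u y = 0 :=
  N1_cls hk t b u y hu (Or.inr ⟨ht, hy⟩)

end Pool.Agent.THR

end

/-! ### from `Lib_MP_2c424f_thr.N2a` -/

section

/-!
# THR N2a: sampling (paper proof: T4)

`Ω = Site d k → Fin B` uniform, `ζ_x = 1[ω x = 0]`.  `B PP^t(ζ φ)(u) - PP^t φ (u) = ∑_y K(u,y) φ_y (B ζ_y - 1)`; the variables
`B ζ_y - 1` are independent with mean `0` and second moment `B - 1 ≤ B`.  So the mean of the square is
`≤ B ∑ K² φ² ≤ B κ PP^t (φ²)(u)`.  (Means over `Site → Fin B` of products over different sites factorise: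
`Finset.prod_univ_sum`, or induct.)
-/

set_option autoImplicit false

open Finset Filter

namespace Pool.Agent.THR

open Pool.Agent.LO Pool.Agent.LIN

variable {d k : ℕ}

/-- sum of a product over the sites -/
private theorem N2a_fac {ι : Type*} [Fintype ι] [DecidableEq ι] (B : ℕ) (h : ι → Fin B → ℝ) :
    ∑ ω : ι → Fin B, ∏ z, h z (ω z) = ∏ z, ∑ i, h z i := by
  rw [Finset.prod_univ_sum, Fintype.piFinset_univ]

/-- sum of a function of one site -/
private theorem N2a_one {ι : Type*} [Fintype ι] [DecidableEq ι] (B : ℕ) (g : Fin B → ℝ) (y : ι) :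
    (B : ℝ) * ∑ ω : ι → Fin B, g (ω y) = (B : ℝ) ^ Fintype.card ι * ∑ i, g i := by
  have h1 : ∑ ω : ι → Fin B, g (ω y) = ∏ z : ι, ∑ i, (if z = y then g i else (1 : ℝ)) := by
    rw [← N2a_fac]
    refine sum_congr rfl fun ω _ => ?_
    rw [Finset.prod_ite_eq' univ y fun z => g (ω z)]
    simp
  have h2 : ∀ z : ι, (∑ i, (if z = y then g i else (1 : ℝ))) = if z = y then ∑ i, g i else (B : ℝ) := by
    intro z
    by_cases hz : z = y
    · simp [hz]
    · simp [hz]
  rw [h1, prod_congr rfl fun z _ => h2 z, ← Finset.mul_prod_erase univ _ (mem_univ y)]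
  have h3 : ∏ z ∈ univ.erase y, (if z = y then ∑ i, g i else (B : ℝ)) = ∏ z ∈ univ.erase y, (B : ℝ) :=
    prod_congr rfl fun z hz => by rw [if_neg (ne_of_mem_erase hz)]
  have h4 : (B : ℝ) * ∏ z ∈ univ.erase y, (B : ℝ) = (B : ℝ) ^ Fintype.card ι := by
    rw [Finset.mul_prod_erase univ (fun _ => (B : ℝ)) (mem_univ y), prod_const, card_univ]
  rw [h3, if_pos rfl]
  calc (B : ℝ) * ((∑ i, g i) * ∏ z ∈ univ.erase y, (B : ℝ))
      = ((B : ℝ) * ∏ z ∈ univ.erase y, (B : ℝ)) * ∑ i, g i := by ring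
    _ = _ := by rw [h4]

/-- sum of a product of two sites -/
private theorem N2a_two {ι : Type*} [Fintype ι] [DecidableEq ι] (B : ℕ) (X : Fin B → ℝ) (hX : ∑ i, X i = 0)
    {y y' : ι} (hy : y ≠ y') : ∑ ω : ι → Fin B, X (ω y) * X (ω y') = 0 := by
  have h1 : ∑ ω : ι → Fin B, X (ω y) * X (ω y') =
      ∏ z : ι, ∑ i, ((if z = y then X i else (1 : ℝ)) * (if z = y' then X i else 1)) := by
    rw [← N2a_fac]
    refine sum_congr rfl fun ω _ => ?_
    rw [prod_mul_distrib, Finset.prod_ite_eq' univ y fun z => X (ω z),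
      Finset.prod_ite_eq' univ y' fun z => X (ω z)]
    simp
  rw [h1]
  refine prod_eq_zero (mem_univ y) ?_
  simp [hy, hX]

/-- second moment of a linear statistic of independent variables -/
theorem indep_sq {ι : Type*} [Fintype ι] [DecidableEq ι] (B : ℕ) (hB : 1 ≤ B) (X : Fin B → ℝ) (hX : ∑ i, X i = 0)
    (a : ι → ℝ) :
    (∑ ω : ι → Fin B, (∑ y, a y * X (ω y)) ^ 2) / (B : ℝ) ^ Fintype.card ι = (∑ y, a y ^ 2) * ((∑ i, X i ^ 2) / B) := by
  have hB0 : (0 : ℝ) < B := by exact_mod_cast hB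
  have h1 : ∑ ω : ι → Fin B, (∑ y, a y * X (ω y)) ^ 2 =
      ∑ y, ∑ y', a y * a y' * ∑ ω : ι → Fin B, X (ω y) * X (ω y') := by
    have : ∀ ω : ι → Fin B, (∑ y, a y * X (ω y)) ^ 2 = ∑ y, ∑ y', a y * a y' * (X (ω y) * X (ω y')) := by
      intro ω
      rw [sq, sum_mul_sum]
      exact sum_congr rfl fun y _ => sum_congr rfl fun y' _ => by ring
    rw [sum_congr rfl fun ω _ => this ω, sum_comm]
    refine sum_congr rfl fun y _ => ?_
    rw [sum_comm]
    exact sum_congr rfl fun y' _ => by rw [mul_sum]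
  have h2 : ∀ y : ι, ∑ y', a y * a y' * ∑ ω : ι → Fin B, X (ω y) * X (ω y') =
      a y ^ 2 * ∑ ω : ι → Fin B, X (ω y) ^ 2 := by
    intro y
    rw [sum_eq_single y]
    · rw [sq (a y)]
      congr 1
      exact sum_congr rfl fun ω _ => by ring
    · intro y' _ hne
      rw [N2a_two B X hX (Ne.symm hne), mul_zero]
    · intro h
      exact absurd (mem_univ y) h
  have h3 : ∀ y : ι, ∑ ω : ι → Fin B, X (ω y) ^ 2 = (B : ℝ) ^ Fintype.card ι * (∑ i, X i ^ 2) / B := by
    intro y
    rw [eq_div_iff hB0.ne', mul_comm]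
    exact N2a_one B (fun i => X i ^ 2) y
  rw [h1, sum_congr rfl fun y _ => (h2 y).trans (by rw [h3 y]), ← sum_mul]
  have hp : (0 : ℝ) < (B : ℝ) ^ Fintype.card ι := pow_pos hB0 _
  field_simp

/-- the centred indicator -/
private theorem N2a_X (B : ℕ) (hB : 1 ≤ B) :
    (∑ i : Fin B, ((if i.val = 0 then (B : ℝ) else 0) - 1 : ℝ)) = 0 ∧
    (∑ i : Fin B, ((if i.val = 0 then (B : ℝ) else 0) - 1 : ℝ) ^ 2) / (B : ℝ) ≤ (B : ℝ) := by
  have hB0 : (0 : ℝ) < B := by exact_mod_cast hB
  have hs : ∀ c : ℝ, ∑ i : Fin B, (if i.val = 0 then c else 0) = c := by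
    intro c
    rw [sum_eq_single (⟨0, hB⟩ : Fin B)]
    · simp
    · intro b _ hb
      rw [if_neg]
      intro h
      exact hb (Fin.ext h)
    · intro h
      exact absurd (mem_univ _) h
  constructor
  · rw [sum_sub_distrib, hs]
    simp
  · have h1 : ∀ i : Fin B, ((if i.val = 0 then (B : ℝ) else 0) - 1) ^ 2 =
        (if i.val = 0 then (B : ℝ) ^ 2 - 2 * B else 0) + 1 := by
      intro i
      split_ifs <;> ring
    rw [sum_congr rfl fun i _ => h1 i, sum_add_distrib, hs, div_le_iff₀ hB0]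
    simp
    nlinarith

theorem sampling (t B : ℕ) (hB : 1 ≤ B) (κ : ℝ) (hκ : ∀ u y : Site d k, Kt t u y ≤ κ) (φ : Site d k → ℝ) (u : Site d k) :
    (∑ ω : Site d k → Fin B, (B * PP^[t] (fun x => if (ω x).val = 0 then φ x else 0) u - PP^[t] φ u) ^ 2) /
      (B : ℝ) ^ Fintype.card (Site d k) ≤ B * κ * PP^[t] (fun x => φ x ^ 2) u := by
  have hB0 : (0 : ℝ) < B := by exact_mod_cast hB
  obtain ⟨hX, hX2⟩ := N2a_X B hB
  have h1 : ∀ ω : Site d k → Fin B,
      B * PP^[t] (fun x => if (ω x).val = 0 then φ x else 0) u - PP^[t] φ u =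
        ∑ y, (Kt t u y * φ y) * ((if (ω y).val = 0 then (B : ℝ) else 0) - 1) := by
    intro ω
    rw [Kt_repr, Kt_repr t φ, mul_sum, ← sum_sub_distrib]
    refine sum_congr rfl fun y _ => ?_
    split_ifs <;> ring
  rw [sum_congr rfl fun ω _ => by rw [h1 ω],
    indep_sq B hB (fun i => (if i.val = 0 then (B : ℝ) else 0) - 1) hX fun y => Kt t u y * φ y]
  have h2 : ∑ y, (Kt t u y * φ y) ^ 2 ≤ κ * PP^[t] (fun x => φ x ^ 2) u := by
    rw [Kt_repr, mul_sum]
    refine sum_le_sum fun y _ => ?_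
    have ha := Kt_nonneg t u y
    have hb := hκ u y
    have hc := sq_nonneg (φ y)
    have : Kt t u y * (Kt t u y * φ y ^ 2) ≤ κ * (Kt t u y * φ y ^ 2) :=
      mul_le_mul_of_nonneg_right hb (mul_nonneg ha hc)
    calc (Kt t u y * φ y) ^ 2 = Kt t u y * (Kt t u y * φ y ^ 2) := by ring
      _ ≤ _ := this
  have h3 : 0 ≤ ∑ y, (Kt t u y * φ y) ^ 2 := sum_nonneg fun y _ => sq_nonneg _
  calc (∑ y, (Kt t u y * φ y) ^ 2) * ((∑ i : Fin B, ((if i.val = 0 then (B : ℝ) else 0) - 1) ^ 2) / B)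
      ≤ (∑ y, (Kt t u y * φ y) ^ 2) * B := mul_le_mul_of_nonneg_left hX2 h3
    _ ≤ κ * PP^[t] (fun x => φ x ^ 2) u * B := mul_le_mul_of_nonneg_right h2 hB0.le
    _ = _ := by ring

open scoped Classical in
theorem sample_card (B : ℕ) (hB : 1 ≤ B) (A : Finset (Site d k)) :
    (∑ ω : Site d k → Fin B, ((A.filter fun x => (ω x).val = 0).card : ℝ)) / (B : ℝ) ^ Fintype.card (Site d k) =
      A.card / B := by
  have hB0 : (0 : ℝ) < B := by exact_mod_cast hB
  have hs : ∑ i : Fin B, (if i.val = 0 then (1 : ℝ) else 0) = 1 := by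
    rw [sum_eq_single (⟨0, hB⟩ : Fin B)]
    · simp
    · intro b _ hb
      rw [if_neg]
      intro h
      exact hb (Fin.ext h)
    · intro h
      exact absurd (mem_univ _) h
  have h1 : ∑ ω : Site d k → Fin B, ((A.filter fun x => (ω x).val = 0).card : ℝ) =
      ∑ x ∈ A, ∑ ω : Site d k → Fin B, (if (ω x).val = 0 then (1 : ℝ) else 0) := by
    rw [sum_comm]
    refine sum_congr rfl fun ω _ => ?_
    rw [card_filter]
    push_cast
    rfl
  have h2 : ∀ x : Site d k, ∑ ω : Site d k → Fin B, (if (ω x).val = 0 then (1 : ℝ) else 0) =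
      (B : ℝ) ^ Fintype.card (Site d k) / B := by
    intro x
    rw [eq_div_iff hB0.ne', mul_comm, N2a_one B (fun i => if i.val = 0 then (1 : ℝ) else 0) x, hs, mul_one]
  have hp : (0 : ℝ) < (B : ℝ) ^ Fintype.card (Site d k) := pow_pos hB0 _
  rw [h1, sum_congr rfl fun x _ => h2 x, sum_const, nsmul_eq_mul]
  field_simp

end Pool.Agent.THR

end

/-! ### from `Lib_MP_2c424f_thr.N2` -/

section

/-!
# THR N2: sampling (paper proof: T4)

`Ω = Site d k → Fin B` uniform, `ζ_x = 1[ω x = 0]`.  `B PP^t(ζ φ)(u) - PP^t φ (u) = ∑_y K(u,y) φ_y (B ζ_y - 1)`; the variables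
`B ζ_y - 1` are independent with mean `0` and second moment `B - 1 ≤ B`.  So the mean of the square is
`≤ B ∑ K² φ² ≤ B κ PP^t (φ²)(u)`.  (Means over `Site → Fin B` of products over different sites factorise:
`Finset.prod_univ_sum`, or induct; the builder may prove a general lemma for the second moment of
`∑_y a_y X(ω y)` with `∑_{i : Fin B} X i = 0`.)
* `net_exists`: functional `B·#{φ ≠ 0, ω = 0}/N + (∑_u |..|)/E₀`, `E₀ = N √(B κ)` (mean `≤ 2`).
-/

set_option autoImplicit false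

open Finset Filter

namespace Pool.Agent.THR

open Pool.Agent.LO Pool.Agent.LIN

variable {d k : ℕ}

/-- mean absolute value from the mean square -/
private theorem N2_abs_le {Ω : Type*} [Fintype Ω] (M c : ℝ) (hM : M = Fintype.card Ω) (hM0 : 0 < M)
    (X : Ω → ℝ) (h : (∑ ω, X ω ^ 2) / M ≤ c) : ∑ ω, |X ω| ≤ M * Real.sqrt c := by
  have h1 : (∑ ω, |X ω|) ^ 2 ≤ M * ∑ ω, X ω ^ 2 := by
    have := sq_sum_le_card_mul_sum_sq (s := (univ : Finset Ω)) (f := fun ω => |X ω|)
    simpa [Finset.card_univ, hM, sq_abs] using this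
  have h2 : ∑ ω, X ω ^ 2 ≤ c * M := (div_le_iff₀ hM0).1 h
  have hc : 0 ≤ c := le_trans (div_nonneg (Finset.sum_nonneg fun ω _ => sq_nonneg _) hM0.le) h
  have h3 : (∑ ω, |X ω|) ^ 2 ≤ (M * Real.sqrt c) ^ 2 := by
    rw [mul_pow, Real.sq_sqrt hc]
    calc (∑ ω, |X ω|) ^ 2 ≤ M * ∑ ω, X ω ^ 2 := h1
      _ ≤ M * (c * M) := mul_le_mul_of_nonneg_left h2 hM0.le
      _ = M ^ 2 * c := by ring
  exact (abs_le_of_sq_le_sq' h3 (by positivity)).2

open scoped Classical in
theorem net_exists (hd : 1 ≤ d) (t B : ℕ) (hB : 1 ≤ B) (κ : ℝ) (hκ0 : 0 < κ) (hκ : ∀ u y : Site d k, Kt t u y ≤ κ)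
    (φ : Site d k → ℝ) (hφ : ∀ x, |φ x| ≤ 1) :
    ∃ R : Finset (Site d k), (R.card : ℝ) ≤ 2 * NN d k / B ∧
      ∑ u, |B * PP^[t] (fun x => if x ∈ R then φ x else 0) u - PP^[t] φ u| ≤ 2 * NN d k * Real.sqrt (B * κ) := by
  set N : ℝ := NN d k with hN
  have hN0 : 0 < N := by rw [hN]; unfold NN; positivity
  have hB0 : (0 : ℝ) < B := by exact_mod_cast hB
  set s : ℝ := Real.sqrt (B * κ) with hs
  have hs0 : 0 < s := Real.sqrt_pos.2 (mul_pos hB0 hκ0)
  set A : Finset (Site d k) := univ.filter fun x => φ x ≠ 0 with hA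
  set G : (Site d k → Fin B) → Site d k → ℝ := fun ω u =>
    B * PP^[t] (fun x => if (ω x).val = 0 then φ x else 0) u - PP^[t] φ u with hG
  set M : ℝ := (B : ℝ) ^ Fintype.card (Site d k) with hM
  have hM0 : 0 < M := by rw [hM]; positivity
  have hMc : M = (Fintype.card (Site d k → Fin B) : ℝ) := by
    have h0 : Fintype.card (Site d k → Fin B) = B ^ Fintype.card (Site d k) := by
      rw [Fintype.card_fun, Fintype.card_fin]
    rw [hM, h0, Nat.cast_pow]
  have : Nonempty (Fin B) := ⟨⟨0, hB⟩⟩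
  -- the first functional
  have e1 : ∑ ω : Site d k → Fin B, ((A.filter fun x => (ω x).val = 0).card : ℝ) ≤ M * (N / B) := by
    have h := sample_card B hB A
    have hAc : (A.card : ℝ) ≤ N := by
      rw [hN, ← card_site]; exact_mod_cast Finset.card_le_univ A
    have h2 : (∑ ω : Site d k → Fin B, ((A.filter fun x => (ω x).val = 0).card : ℝ)) / M ≤ N / B := by
      rw [hM, h]; exact div_le_div_of_nonneg_right hAc hB0.le
    rw [div_le_iff₀ hM0] at h2
    linarith
  -- the second functional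
  have e2 : ∑ ω : Site d k → Fin B, ∑ u, |G ω u| ≤ M * (N * s) := by
    rw [Finset.sum_comm]
    have hu : ∀ u : Site d k, ∑ ω : Site d k → Fin B, |G ω u| ≤ M * s := by
      intro u
      have h1 := sampling t B hB κ hκ φ u
      have h2 : PP^[t] (fun x => φ x ^ 2) u ≤ 1 := by
        calc PP^[t] (fun x => φ x ^ 2) u ≤ PP^[t] (fun _ => (1 : ℝ)) u :=
              PPt_mono t (fun x => by
                have := hφ x
                rw [← sq_abs]; nlinarith [abs_nonneg (φ x)]) u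
          _ = 1 := PPt_const hd t 1 u
      have h3 : (∑ ω : Site d k → Fin B, (G ω u) ^ 2) / M ≤ B * κ := by
        refine le_trans h1 ?_
        have : 0 ≤ B * κ := (mul_pos hB0 hκ0).le
        nlinarith
      exact N2_abs_le M (B * κ) hMc hM0 (fun ω => G ω u) h3
    calc ∑ u, ∑ ω : Site d k → Fin B, |G ω u| ≤ ∑ _u : Site d k, M * s := Finset.sum_le_sum fun u _ => hu u
      _ = M * (N * s) := by
          rw [Finset.sum_const, Finset.card_univ, nsmul_eq_mul, card_site, ← hN]; ring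
  -- a good sample
  have e3 : ∑ ω : Site d k → Fin B, (((A.filter fun x => (ω x).val = 0).card : ℝ) * (B / N) + (∑ u, |G ω u|) / (N * s)) ≤
      ∑ _ω : Site d k → Fin B, (2 : ℝ) := by
    rw [Finset.sum_add_distrib, ← Finset.sum_mul, ← Finset.sum_div, Finset.sum_const, Finset.card_univ,
      nsmul_eq_mul, ← hMc]
    have h1 : (∑ ω : Site d k → Fin B, ((A.filter fun x => (ω x).val = 0).card : ℝ)) * (B / N) ≤ M := by
      calc _ ≤ (M * (N / B)) * (B / N) := mul_le_mul_of_nonneg_right e1 (by positivity)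
        _ = M := by field_simp
    have h2 : (∑ ω : Site d k → Fin B, ∑ u, |G ω u|) / (N * s) ≤ M := by
      rw [div_le_iff₀ (by positivity)]; exact e2
    linarith
  obtain ⟨ω, -, hω⟩ := Finset.exists_le_of_sum_le (Finset.univ_nonempty) e3
  have p1 : 0 ≤ ((A.filter fun x => (ω x).val = 0).card : ℝ) * (B / N) := by positivity
  have p2 : 0 ≤ (∑ u, |G ω u|) / (N * s) :=
    div_nonneg (Finset.sum_nonneg fun u _ => abs_nonneg _) (by positivity)
  refine ⟨A.filter fun x => (ω x).val = 0, ?_, ?_⟩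
  · have h1 : ((A.filter fun x => (ω x).val = 0).card : ℝ) * (B / N) ≤ 2 := by linarith
    rw [le_div_iff₀ hB0]
    calc ((A.filter fun x => (ω x).val = 0).card : ℝ) * B
        = (((A.filter fun x => (ω x).val = 0).card : ℝ) * (B / N)) * N := by field_simp
      _ ≤ 2 * N := mul_le_mul_of_nonneg_right h1 hN0.le
  · have h2 : (∑ u, |G ω u|) / (N * s) ≤ 2 := by linarith
    rw [div_le_iff₀ (by positivity)] at h2
    have h3 : (fun x => if x ∈ (A.filter fun x => (ω x).val = 0) then φ x else 0) =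
        fun x => if (ω x).val = 0 then φ x else 0 := by
      funext x
      by_cases h0 : (ω x).val = 0
      · by_cases hx : φ x = 0
        · simp [h0, hx]
        · simp [hA, h0, hx]
      · simp [h0]
    rw [h3]
    calc ∑ u, |B * PP^[t] (fun x => if (ω x).val = 0 then φ x else 0) u - PP^[t] φ u| = ∑ u, |G ω u| := rfl
      _ ≤ 2 * (N * s) := h2
      _ = 2 * N * s := by ring

end Pool.Agent.THR

end

/-! ### from `Lib_MP_2c424f_thr.C2` -/

section

/-!
# THR C2: estimating the densities from a sample (paper proof: C2)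

`B = d`, `Hs R f u γ = a B PP^(2t+1) (bq γ 1_R) u`.  For uniform `ω`, `R = {ω = 0}`: mean of `|R|` is `N/B`; by `sampling` (applied to `bq γ f/q`, values in
`{0,1}`, `PP^(2t+1) (..)² ≤ 1`) the mean of `|Hs u γ - a PP^(2t+1)(bq γ f) u|` is at most `a q √(B κ)`, `κ = (8t)^(2t)/(2d)^t` (`Kt_sup`, `Kt_succ_le`), which tends to `0` for
`t ≥ 20`.  Functional `B|R|/N + (errors)/(mean)`: some `ω` has value `≤ 3`.
-/

set_option autoImplicit false

open Finset Filter

namespace Pool.Agent.THR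

open Pool.Agent.LO Pool.Agent.LIN

open scoped Classical in
/-- estimate from the sample `R` -/
noncomputable def Hs {d k q : ℕ} (t : ℕ) (R : Finset (Site d k)) (f : Site d k → Fin q) (u : Site d k) (γ : Fin q) : ℝ :=
  ra d q * d * PP^[2 * t + 1] (fun x => if x ∈ R then bq γ f x else 0) u

theorem Hs_loc {d k q : ℕ} (t : ℕ) (R : Finset (Site d k)) (f g : Site d k → Fin q) (h : ∀ x ∈ R, f x = g x) :
    Hs t R f = Hs t R g := by
  classical
  funext u γ
  unfold Hs
  have h1 : (fun x => if x ∈ R then bq γ f x else 0) = (fun x => if x ∈ R then bq γ g x else 0) := by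
    funext x
    by_cases hx : x ∈ R
    · rw [if_pos hx, if_pos hx]
      unfold bq
      rw [h x hx]
    · rw [if_neg hx, if_neg hx]
  rw [h1]

open scoped Classical in
/-- mean error of one estimate -/
private theorem C2_one {d k q : ℕ} (hd : 1 ≤ d) (hq : 1 ≤ q) (t : ℕ) (κ η : ℝ) (hη : 0 < η)
    (hκ : ∀ u y : Site d k, Kt (2 * t) u y ≤ κ) (hs : (d : ℝ) * κ ≤ (η / (2 * d)) ^ 2)
    (f : Site d k → Fin q) (u : Site d k) (γ : Fin q) :
    (∑ ω : Site d k → Fin d, |Hs t (univ.filter fun x => (ω x).val = 0) f u γ - ra d q * PP^[2 * t + 1] (bq γ f) u|) ≤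
      η * (d : ℝ) ^ Fintype.card (Site d k) := by
  have hd0 : (0 : ℝ) < d := by exact_mod_cast hd
  have hq0 : (0 : ℝ) < q := by exact_mod_cast hq
  set θ : ℝ := η / (2 * d) with hθ
  have hθ0 : 0 < θ := by positivity
  set φ : Site d k → ℝ := fun x => if f x = γ then (1 : ℝ) else 0 with hφ
  have hbq : ∀ x, bq γ f x = q * φ x := by
    intro x
    simp only [hφ]
    unfold bq
    split_ifs <;> simp
  set M : ℝ := (d : ℝ) ^ Fintype.card (Site d k) with hM
  have hM0 : 0 < M := by positivity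
  set D : (Site d k → Fin d) → ℝ := fun ω =>
    (d : ℕ) * PP^[2 * t + 1] (fun x => if (ω x).val = 0 then φ x else 0) u - PP^[2 * t + 1] φ u with hD
  have e1 : ∀ ω : Site d k → Fin d,
      Hs t (univ.filter fun x => (ω x).val = 0) f u γ - ra d q * PP^[2 * t + 1] (bq γ f) u = 2 * d * D ω := by
    intro ω
    have h1 : ∀ R : Finset (Site d k), (∀ x, x ∈ R ↔ (ω x).val = 0) →
        PP^[2 * t + 1] (fun x => if x ∈ R then bq γ f x else 0) u =
        q * PP^[2 * t + 1] (fun x => if (ω x).val = 0 then φ x else 0) u := by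
      intro R hR
      have hfun : (fun x => if x ∈ R then bq γ f x else 0) =
          fun y => (q : ℝ) * (if (ω y).val = 0 then φ y else 0) := by
        funext x
        by_cases hx : (ω x).val = 0
        · rw [if_pos ((hR x).2 hx), if_pos hx, hbq]
        · rw [if_neg (fun h => hx ((hR x).1 h)), if_neg hx, mul_zero]
      rw [hfun, PPt_mul]
    have h2 : PP^[2 * t + 1] (bq γ f) u = q * PP^[2 * t + 1] φ u := by
      have hfun : bq γ f = fun y => (q : ℝ) * φ y := by
        funext x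
        rw [hbq]
      rw [hfun, PPt_mul]
    unfold Hs
    rw [h1 _ (fun x => by simp), h2]
    simp only [hD]
    unfold ra
    field_simp
  have hκ1 : ∀ u y : Site d k, Kt (2 * t + 1) u y ≤ κ := fun u y => Kt_succ_le hd (2 * t) κ hκ u y
  have hκ0 : 0 ≤ κ := le_trans (Kt_nonneg (2 * t) u u) (hκ u u)
  have h3 := sampling (2 * t + 1) d hd κ hκ1 φ u
  have h4 : PP^[2 * t + 1] (fun x => φ x ^ 2) u ≤ 1 := by
    have h5 : PP^[2 * t + 1] (fun x => φ x ^ 2) u ≤ PP^[2 * t + 1] (fun _ => (1 : ℝ)) u := by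
      apply PPt_mono
      intro x
      simp only [hφ]
      split_ifs <;> norm_num
    rw [PPt_const hd] at h5
    exact h5
  have h6 : ∑ ω : Site d k → Fin d, D ω ^ 2 ≤ θ ^ 2 * M := by
    have h7 : (∑ ω : Site d k → Fin d, D ω ^ 2) / M ≤ θ ^ 2 := by
      refine le_trans h3 (le_trans ?_ hs)
      calc (d : ℝ) * κ * PP^[2 * t + 1] (fun x => φ x ^ 2) u ≤ (d : ℝ) * κ * 1 := by
            apply mul_le_mul_of_nonneg_left h4
            positivity
        _ = (d : ℝ) * κ := mul_one _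
    rwa [div_le_iff₀ hM0] at h7
  have h8 : ∀ ω : Site d k → Fin d, |D ω| ≤ (D ω ^ 2 / θ + θ) / 2 := by
    intro ω
    have h9 : 0 ≤ (|D ω| - θ) ^ 2 := sq_nonneg _
    have h10 : 2 * |D ω| * θ ≤ D ω ^ 2 + θ ^ 2 := by
      have := sq_abs (D ω)
      nlinarith
    rw [le_div_iff₀ (by norm_num : (0 : ℝ) < 2)]
    have h11 : D ω ^ 2 / θ + θ = (D ω ^ 2 + θ ^ 2) / θ := by
      field_simp
    rw [h11, le_div_iff₀ hθ0]
    linarith
  have hcard : (Fintype.card (Site d k → Fin d) : ℝ) = M := by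
    rw [Fintype.card_fun, Fintype.card_fin, hM]
    push_cast
    rfl
  have h12 : ∑ ω : Site d k → Fin d, |D ω| ≤ θ * M := by
    calc ∑ ω : Site d k → Fin d, |D ω| ≤ ∑ ω : Site d k → Fin d, (D ω ^ 2 / θ + θ) / 2 :=
          Finset.sum_le_sum fun ω _ => h8 ω
      _ = ((∑ ω : Site d k → Fin d, D ω ^ 2) / θ + θ * M) / 2 := by
          rw [← Finset.sum_div, Finset.sum_add_distrib, ← Finset.sum_div, Finset.sum_const, Finset.card_univ,
            nsmul_eq_mul, hcard]
          ring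
      _ ≤ (θ ^ 2 * M / θ + θ * M) / 2 := by
          have : (∑ ω : Site d k → Fin d, D ω ^ 2) / θ ≤ θ ^ 2 * M / θ := by
            apply div_le_div_of_nonneg_right h6 hθ0.le
          linarith
      _ = θ * M := by
          field_simp
          ring
  calc (∑ ω : Site d k → Fin d, |Hs t (univ.filter fun x => (ω x).val = 0) f u γ -
        ra d q * PP^[2 * t + 1] (bq γ f) u|) = ∑ ω : Site d k → Fin d, 2 * d * |D ω| := by
        refine Finset.sum_congr rfl fun ω _ => ?_
        rw [e1 ω, abs_mul, abs_of_pos (by positivity : (0 : ℝ) < 2 * d)]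
    _ = 2 * d * ∑ ω : Site d k → Fin d, |D ω| := by rw [Finset.mul_sum]
    _ ≤ 2 * d * (θ * M) := by
        apply mul_le_mul_of_nonneg_left h12
        positivity
    _ = η * M := by
        rw [hθ]
        field_simp

open scoped Classical in
private theorem C2_main {d k q : ℕ} (hd : 1 ≤ d) (hq : 1 ≤ q) (t : ℕ) (κ δ : ℝ) (hδ : 0 < δ)
    (hκ : ∀ u y : Site d k, Kt (2 * t) u y ≤ κ) (hs : (d : ℝ) * κ ≤ (δ / 3 / (2 * d)) ^ 2)
    (f : Site d k → Fin q) (A : Finset (Site d k)) :
    ∃ R : Finset (Site d k), (R.card : ℝ) ≤ 3 * NN d k / d ∧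
      ∑ u ∈ A, |Hs t R f u (f u) - ra d q * PP^[2 * t + 1] (bq (f u) f) u| ≤ δ * NN d k ∧
      ∑ u ∈ A, mc (fun γ => |Hs t R f u γ - ra d q * PP^[2 * t + 1] (bq γ f) u|) ≤ δ * NN d k := by
  have hd0 : (0 : ℝ) < d := by exact_mod_cast hd
  have hq0 : (0 : ℝ) < q := by exact_mod_cast hq
  have hN0 : 0 < NN d k := by unfold NN; positivity
  set M : ℝ := (d : ℝ) ^ Fintype.card (Site d k) with hM
  have hM0 : 0 < M := by positivity
  have hcard : (Fintype.card (Site d k → Fin d) : ℝ) = M := by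
    rw [Fintype.card_fun, Fintype.card_fin, hM]
    push_cast
    rfl
  have hA : (A.card : ℝ) ≤ NN d k := by
    rw [← card_site]
    exact_mod_cast Finset.card_le_univ A
  let Rf : (Site d k → Fin d) → Finset (Site d k) := fun ω => univ.filter fun x => (ω x).val = 0
  let S1 : (Site d k → Fin d) → ℝ := fun ω =>
    ∑ u ∈ A, |Hs t (Rf ω) f u (f u) - ra d q * PP^[2 * t + 1] (bq (f u) f) u|
  let S2 : (Site d k → Fin d) → ℝ := fun ω =>
    ∑ u ∈ A, mc (fun γ => |Hs t (Rf ω) f u γ - ra d q * PP^[2 * t + 1] (bq γ f) u|)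
  have hone : ∀ (u : Site d k) (γ : Fin q),
      (∑ ω : Site d k → Fin d, |Hs t (Rf ω) f u γ - ra d q * PP^[2 * t + 1] (bq γ f) u|) ≤ δ / 3 * M :=
    fun u γ => C2_one hd hq t κ (δ / 3) (by positivity) hκ hs f u γ
  have hS1 : ∑ ω : Site d k → Fin d, S1 ω ≤ NN d k * (δ / 3 * M) := by
    calc ∑ ω : Site d k → Fin d, S1 ω
        = ∑ u ∈ A, ∑ ω : Site d k → Fin d, |Hs t (Rf ω) f u (f u) - ra d q * PP^[2 * t + 1] (bq (f u) f) u| :=
          Finset.sum_comm
      _ ≤ ∑ u ∈ A, δ / 3 * M := Finset.sum_le_sum fun u _ => hone u (f u)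
      _ = A.card * (δ / 3 * M) := by rw [Finset.sum_const, nsmul_eq_mul]
      _ ≤ NN d k * (δ / 3 * M) := by
          apply mul_le_mul_of_nonneg_right hA
          positivity
  have hS2 : ∑ ω : Site d k → Fin d, S2 ω ≤ NN d k * (δ / 3 * M) := by
    calc ∑ ω : Site d k → Fin d, S2 ω
        = ∑ u ∈ A, (∑ γ : Fin q, ∑ ω : Site d k → Fin d,
            |Hs t (Rf ω) f u γ - ra d q * PP^[2 * t + 1] (bq γ f) u|) / q := by
          simp only [S2, mc]
          rw [Finset.sum_comm]
          refine Finset.sum_congr rfl fun u _ => ?_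
          rw [← Finset.sum_div, Finset.sum_comm]
      _ ≤ ∑ u ∈ A, δ / 3 * M := by
          refine Finset.sum_le_sum fun u _ => ?_
          rw [div_le_iff₀ hq0]
          calc (∑ γ : Fin q, ∑ ω : Site d k → Fin d,
                |Hs t (Rf ω) f u γ - ra d q * PP^[2 * t + 1] (bq γ f) u|)
              ≤ ∑ γ : Fin q, δ / 3 * M := Finset.sum_le_sum fun γ _ => hone u γ
            _ = δ / 3 * M * q := by
                rw [Finset.sum_const, Finset.card_univ, Fintype.card_fin, nsmul_eq_mul]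
                ring
      _ = A.card * (δ / 3 * M) := by rw [Finset.sum_const, nsmul_eq_mul]
      _ ≤ NN d k * (δ / 3 * M) := by
          apply mul_le_mul_of_nonneg_right hA
          positivity
  have hS0 : ∑ ω : Site d k → Fin d, ((Rf ω).card : ℝ) = NN d k / d * M := by
    have h1 := sample_card (d := d) (k := k) d hd univ
    rw [div_eq_iff hM0.ne', Finset.card_univ, card_site] at h1
    exact h1
  let Φ : (Site d k → Fin d) → ℝ := fun ω =>
    d / NN d k * ((Rf ω).card : ℝ) + 3 / (δ * NN d k) * S1 ω + 3 / (δ * NN d k) * S2 ω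
  have hΦ : ∑ ω : Site d k → Fin d, Φ ω ≤ ∑ _ω : Site d k → Fin d, (3 : ℝ) := by
    have hc : 0 ≤ 3 / (δ * NN d k) := by positivity
    calc ∑ ω : Site d k → Fin d, Φ ω
        = d / NN d k * (∑ ω : Site d k → Fin d, ((Rf ω).card : ℝ)) + 3 / (δ * NN d k) * (∑ ω : Site d k → Fin d, S1 ω) +
            3 / (δ * NN d k) * (∑ ω : Site d k → Fin d, S2 ω) := by
          simp only [Φ]
          rw [Finset.sum_add_distrib, Finset.sum_add_distrib, Finset.mul_sum, Finset.mul_sum, Finset.mul_sum]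
      _ ≤ d / NN d k * (NN d k / d * M) + 3 / (δ * NN d k) * (NN d k * (δ / 3 * M)) +
            3 / (δ * NN d k) * (NN d k * (δ / 3 * M)) := by
          rw [hS0]
          have := mul_le_mul_of_nonneg_left hS1 hc
          have := mul_le_mul_of_nonneg_left hS2 hc
          linarith
      _ = ∑ _ω : Site d k → Fin d, (3 : ℝ) := by
          rw [Finset.sum_const, Finset.card_univ, nsmul_eq_mul, hcard]
          field_simp
          ring
  haveI : Nonempty (Site d k → Fin d) := ⟨fun _ => ⟨0, hd⟩⟩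
  obtain ⟨ω, -, hω⟩ := Finset.exists_le_of_sum_le (Finset.univ_nonempty) hΦ
  have p0 : 0 ≤ d / NN d k * ((Rf ω).card : ℝ) := by positivity
  have q1 : 0 ≤ S1 ω := Finset.sum_nonneg fun u _ => abs_nonneg _
  have q2 : 0 ≤ S2 ω := Finset.sum_nonneg fun u _ => div_nonneg (Finset.sum_nonneg fun γ _ => abs_nonneg _) hq0.le
  have p1 : 0 ≤ 3 / (δ * NN d k) * S1 ω := by positivity
  have p2 : 0 ≤ 3 / (δ * NN d k) * S2 ω := by positivity
  have hω' : d / NN d k * ((Rf ω).card : ℝ) + 3 / (δ * NN d k) * S1 ω + 3 / (δ * NN d k) * S2 ω ≤ 3 := hω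
  refine ⟨Rf ω, ?_, ?_, ?_⟩
  · have h1 : d / NN d k * ((Rf ω).card : ℝ) ≤ 3 := by linarith
    rw [le_div_iff₀ hd0]
    rw [div_mul_eq_mul_div, div_le_iff₀ hN0] at h1
    linarith
  · have h1 : 3 / (δ * NN d k) * S1 ω ≤ 3 := by linarith
    rw [div_mul_eq_mul_div, div_le_iff₀ (by positivity)] at h1
    change S1 ω ≤ _
    linarith
  · have h1 : 3 / (δ * NN d k) * S2 ω ≤ 3 := by linarith
    rw [div_mul_eq_mul_div, div_le_iff₀ (by positivity)] at h1
    change S2 ω ≤ _
    linarith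

theorem sample_H {ε : ℝ} (hε : 0 < ε) (hε1 : ε ≤ 1) (t : ℕ) (ht : 20 ≤ t) (δ : ℝ) (hδ : 0 < δ) :
    EvT ε fun d k q => ∀ (b : Bool), ∀ f ∈ prps d k q, ∃ R : Finset (Site d k), (R.card : ℝ) ≤ 3 * NN d k / d ∧
      ∑ u ∈ cls b d k, |Hs t R f u (f u) - ra d q * PP^[2 * t + 1] (bq (f u) f) u| ≤ δ * NN d k ∧
      ∑ u ∈ cls b d k, mc (fun γ => |Hs t R f u γ - ra d q * PP^[2 * t + 1] (bq γ f) u|) ≤ δ * NN d k := by
  obtain ⟨d₀, hd₀⟩ := exists_nat_ge (36 * (8 * (t : ℝ)) ^ (2 * t) / δ ^ 2)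
  refine ⟨d₀ + 1, fun d q hd hq _ => ?_⟩
  have hd1 : 1 ≤ d := by omega
  have hd0 : (0 : ℝ) < d := by exact_mod_cast hd1
  have hq1 : 1 ≤ q := by
    have h1 : (0 : ℝ) < q := lt_of_lt_of_le (by positivity) hq
    exact_mod_cast h1
  filter_upwards [eventually_ge_atTop (2 * t + 1)] with k hk b f _
  have hk' : 2 * t < 2 ^ k := lt_of_lt_of_le (by omega : 2 * t < k + 1) (Nat.succ_le_of_lt k.lt_two_pow_self)
  refine C2_main hd1 hq1 t ((8 * (t : ℝ)) ^ (2 * t) / (2 * (d : ℝ)) ^ t) δ hδ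
    (fun u y => Kt_sup hd1 t hk' u y) ?_ f (cls b d k)
  have h36 : 36 * (8 * (t : ℝ)) ^ (2 * t) ≤ δ ^ 2 * d := by
    have h1 : 36 * (8 * (t : ℝ)) ^ (2 * t) / δ ^ 2 ≤ d := by
      refine le_trans hd₀ ?_
      exact_mod_cast (by omega : d₀ ≤ d)
    rw [div_le_iff₀ (by positivity)] at h1
    linarith
  have hpow : (d : ℝ) ^ 4 ≤ (2 * (d : ℝ)) ^ t := by
    have h1 : (1 : ℝ) ≤ 2 * d := by
      have : (1 : ℝ) ≤ d := by exact_mod_cast hd1
      linarith
    calc (d : ℝ) ^ 4 ≤ (2 * (d : ℝ)) ^ 4 := by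
          apply pow_le_pow_left₀ hd0.le
          linarith
      _ ≤ (2 * (d : ℝ)) ^ t := pow_le_pow_right₀ h1 (by omega)
  have h2d : 0 < (2 * (d : ℝ)) ^ t := by positivity
  have hE : (δ / 3 / (2 * (d : ℝ))) ^ 2 = δ ^ 2 / (36 * (d : ℝ) ^ 2) := by
    field_simp
    ring
  rw [hE, ← mul_div_assoc, div_le_div_iff₀ h2d (by positivity)]
  calc (d : ℝ) * (8 * (t : ℝ)) ^ (2 * t) * (36 * (d : ℝ) ^ 2)
      = (36 * (8 * (t : ℝ)) ^ (2 * t)) * (d : ℝ) ^ 3 := by ring
    _ ≤ (δ ^ 2 * d) * (d : ℝ) ^ 3 := by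
        apply mul_le_mul_of_nonneg_right h36
        positivity
    _ = δ ^ 2 * (d : ℝ) ^ 4 := by ring
    _ ≤ δ ^ 2 * (2 * (d : ℝ)) ^ t := by
        apply mul_le_mul_of_nonneg_left hpow
        positivity

/-- number of samples -/
theorem sample_num {ε : ℝ} (hε : 0 < ε) (hε1 : ε ≤ 1) (δ : ℝ) (hδ : 0 < δ) :
    EvT ε fun d k q => (((univ : Finset (Finset (Site d k))).filter fun R => (R.card : ℝ) ≤ 3 * NN d k / d).card : ℝ) *
      (q : ℝ) ^ (3 * NN d k / d) ≤ Real.exp (δ * NN d k) := by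
  classical
  have hlim : Tendsto (fun x : ℝ => (1 + 3 * Real.log x + 3 * Real.log (2 * x)) / x) atTop (nhds 0) := by
    have h1 : Tendsto (fun x : ℝ => Real.log x / x) atTop (nhds 0) := by
      have := Real.tendsto_pow_log_div_mul_add_atTop 1 0 1 one_ne_zero
      simpa using this
    have h2 : Tendsto (fun x : ℝ => x⁻¹) atTop (nhds 0) := tendsto_inv_atTop_zero
    have h3 : Tendsto (fun x : ℝ => (1 + 3 * Real.log 2) * x⁻¹ + 6 * (Real.log x / x)) atTop (nhds 0) := by
      have := (h2.const_mul (1 + 3 * Real.log 2)).add (h1.const_mul 6)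
      simpa using this
    refine h3.congr' ?_
    filter_upwards [eventually_gt_atTop (0 : ℝ)] with x hx
    rw [Real.log_mul (by norm_num) hx.ne']
    field_simp
    ring
  have hev : ∀ᶠ x : ℝ in atTop, (1 + 3 * Real.log x + 3 * Real.log (2 * x)) / x < δ :=
    hlim.eventually (gt_mem_nhds hδ)
  have hev' : ∀ᶠ n : ℕ in atTop, (1 + 3 * Real.log (n : ℝ) + 3 * Real.log (2 * (n : ℝ))) / (n : ℝ) < δ :=
    tendsto_natCast_atTop_atTop.eventually hev
  obtain ⟨d₀, hd₀⟩ := eventually_atTop.1 hev'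
  refine ⟨d₀ + 1, fun d q hd hq hq2 => Eventually.of_forall fun k => ?_⟩
  have hd1 : 1 ≤ d := by omega
  have hd0 : (0 : ℝ) < d := by exact_mod_cast hd1
  have hd1' : (1 : ℝ) ≤ d := by exact_mod_cast hd1
  have hq0 : (0 : ℝ) < q := lt_of_lt_of_le (by positivity) hq
  have hN0 : 0 < NN d k := by unfold NN; positivity
  have hmain := hd₀ d (by omega)
  set r : ℝ := 3 * NN d k / d with hr
  have hr0 : 0 ≤ r := by positivity
  -- number of sets
  have hcount : (((univ : Finset (Finset (Site d k))).filter fun R => (R.card : ℝ) ≤ r).card : ℝ) ≤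
      (d : ℝ) ^ r * (1 / (d : ℝ) + 1) ^ Fintype.card (Site d k) := by
    have hsum : ∑ R : Finset (Site d k), (1 / (d : ℝ)) ^ R.card = (1 / (d : ℝ) + 1) ^ Fintype.card (Site d k) := by
      have := Fintype.sum_pow_mul_eq_add_pow (Site d k) (1 / (d : ℝ)) 1
      simpa using this
    calc (((univ : Finset (Finset (Site d k))).filter fun R => (R.card : ℝ) ≤ r).card : ℝ)
        = ∑ R ∈ (univ : Finset (Finset (Site d k))).filter (fun R => (R.card : ℝ) ≤ r), (1 : ℝ) := by
          rw [Finset.sum_const, nsmul_eq_mul, mul_one]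
      _ ≤ ∑ R ∈ (univ : Finset (Finset (Site d k))).filter (fun R => (R.card : ℝ) ≤ r),
            (d : ℝ) ^ r * (1 / (d : ℝ)) ^ R.card := by
          refine Finset.sum_le_sum fun R hR => ?_
          have hR' : (R.card : ℝ) ≤ r := (Finset.mem_filter.1 hR).2
          have h1 : (d : ℝ) ^ (R.card : ℕ) ≤ (d : ℝ) ^ r := by
            rw [← Real.rpow_natCast]
            exact Real.rpow_le_rpow_of_exponent_le hd1' hR'
          rw [one_div, inv_pow, ← div_eq_mul_inv, le_div_iff₀ (by positivity), one_mul]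
          exact h1
      _ ≤ ∑ R : Finset (Site d k), (d : ℝ) ^ r * (1 / (d : ℝ)) ^ R.card := by
          apply Finset.sum_le_sum_of_subset_of_nonneg (Finset.filter_subset _ _)
          intro R _ _
          positivity
      _ = (d : ℝ) ^ r * (1 / (d : ℝ) + 1) ^ Fintype.card (Site d k) := by
          rw [← Finset.mul_sum, hsum]
  have hexp1 : (1 / (d : ℝ) + 1) ^ Fintype.card (Site d k) ≤ Real.exp (NN d k / d) := by
    calc (1 / (d : ℝ) + 1) ^ Fintype.card (Site d k) ≤ (Real.exp (1 / (d : ℝ))) ^ Fintype.card (Site d k) := by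
          apply pow_le_pow_left₀ (by positivity)
          exact Real.add_one_le_exp _
      _ = Real.exp (NN d k / d) := by
          rw [← Real.exp_nat_mul, card_site]
          congr 1
          field_simp
  have hdr : (d : ℝ) ^ r = Real.exp (Real.log d * r) := Real.rpow_def_of_pos hd0 r
  have hqr : (q : ℝ) ^ r = Real.exp (Real.log q * r) := Real.rpow_def_of_pos hq0 r
  have hlogq : Real.log q ≤ Real.log (2 * d) := by
    apply Real.log_le_log hq0
    nlinarith
  calc (((univ : Finset (Finset (Site d k))).filter fun R => (R.card : ℝ) ≤ r).card : ℝ) * (q : ℝ) ^ r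
      ≤ ((d : ℝ) ^ r * Real.exp (NN d k / d)) * (q : ℝ) ^ r := by
        apply mul_le_mul_of_nonneg_right _ (by positivity)
        refine le_trans hcount ?_
        apply mul_le_mul_of_nonneg_left hexp1
        positivity
    _ = Real.exp (Real.log d * r + NN d k / d + Real.log q * r) := by
        rw [hdr, hqr, ← Real.exp_add, ← Real.exp_add]
    _ ≤ Real.exp (δ * NN d k) := by
        apply Real.exp_le_exp.2
        have h1 : Real.log q * r ≤ Real.log (2 * d) * r := mul_le_mul_of_nonneg_right hlogq hr0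
        have h2 : Real.log d * r + NN d k / d + Real.log (2 * d) * r =
            ((1 + 3 * Real.log (d : ℝ) + 3 * Real.log (2 * (d : ℝ))) / (d : ℝ)) * NN d k := by
          rw [hr]
          field_simp
          ring
        have h3 := mul_le_mul_of_nonneg_right hmain.le hN0.le
        linarith

end Pool.Agent.THR

end

/-! ### from `Lib_MP_2c424f_thr.N5` -/

section

/-!
# THR N5: smoothed indicators and conditional means (paper proof: N5)

`t` even, `x` in the class `b`: `PP^t (bq - gg)(x) = ∑_{y ∈ b} K(x,y)(bq - gg)(y)`.  On the fibre of the class `b`, `gg c` at sites of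
`b` is constant and it is the mean of `bq c` (`fm_ind`).  `fm_var` with `c_y = q K(x,y)`: mean of the square
`≤ 4 q² ∑_y K² ≤ 4 q² κ`, `κ = (8s)^(2s)/(2d)^s`, `s ≥ 10`: sum over `x ∈ b` `≤ N/(4 d^4)` for `d` large (`q ≤ 2d`).
`WOPi_tail` for `Ψ = ∑_{x ∈ b} (PP^t (bq - gg) x)²`: a change at `y ∈ b` changes `PP^t bq x` by `≤ q K(x,y)`, `|PP^t (bq-gg)| ≤ q`, so the square
by `≤ 2q² K(x,y)`; total `≤ 2 q² ≤ d^3`... (`κ = 3`, `q ≤ 2d`, `d ≥ 8`).  Union over `b`, `c`.
-/

set_option autoImplicit false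

open Finset Filter

namespace Pool.Agent.THR

open Pool.Agent.LO Pool.Agent.LIN

/-- `bq - gg` -/
private noncomputable def N5_D {d k q : ℕ} (c : Fin q) (f : Site d k → Fin q) (v : Site d k) : ℝ :=
  bq c f v - gg c f v

/-- the statistic -/
private noncomputable def N5_Psi {d k q : ℕ} (t : ℕ) (b : Bool) (c : Fin q) (f : Site d k → Fin q) : ℝ :=
  ∑ x ∈ cls b d k, PP^[t] (N5_D c f) x ^ 2

private theorem N5_upd {d k q : ℕ} {b : Bool} {f h : Site d k → Fin q} (hk : 1 ≤ k) (hh : h ∈ fib b f) {v : Site d k}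
    (hv : v ∈ cls b d k) {γ : Fin q} (hγ : γ ∉ SS f v) : Function.update h v γ ∈ fib b f := by
  have _ := hk
  unfold fib at hh ⊢
  rw [Fintype.mem_piFinset] at hh ⊢
  intro x
  by_cases hx : x = v
  · subst hx
    rw [if_pos hv, Function.update_self, mem_compl]
    exact hγ
  · rw [Function.update_of_ne hx]
    exact hh x

private theorem N5_gg_fib {d k q : ℕ} {b : Bool} {f h : Site d k → Fin q} (hk : 1 ≤ k) (hh : h ∈ fib b f) (c : Fin q)
    {x : Site d k} (hx : x ∈ cls b d k) : gg c h x = gg c f x := by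
  have h1 := fib_SS hk b hh x hx
  unfold gg zz av
  rw [h1]

private theorem N5_bq_bd {d k q : ℕ} (c : Fin q) (f : Site d k → Fin q) (x : Site d k) : 0 ≤ bq c f x ∧ bq c f x ≤ q := by
  unfold bq
  split_ifs
  · exact ⟨Nat.cast_nonneg _, le_rfl⟩
  · exact ⟨le_rfl, Nat.cast_nonneg _⟩

private theorem N5_gg_bd {d k q : ℕ} (c : Fin q) {f : Site d k → Fin q} (hf : Prp f) (x : Site d k) :
    0 ≤ gg c f x ∧ gg c f x ≤ q := by
  obtain ⟨h1, h2⟩ := zz_av_le hf x c
  have hq : (0 : ℝ) ≤ q := Nat.cast_nonneg _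
  have h3 : gg c f x = q * (zz f x c / (av f x : ℝ)) := by
    unfold gg
    ring
  rw [h3]
  exact ⟨mul_nonneg hq h1, by nlinarith⟩

private theorem N5_D_bd {d k q : ℕ} (c : Fin q) {f : Site d k → Fin q} (hf : Prp f) (x : Site d k) :
    |N5_D c f x| ≤ q := by
  obtain ⟨h1, h2⟩ := N5_bq_bd c f x
  obtain ⟨h3, h4⟩ := N5_gg_bd c hf x
  unfold N5_D
  rw [abs_le]
  exact ⟨by linarith, by linarith⟩

private theorem N5_PP_bd {d k q : ℕ} (hd : 1 ≤ d) (t : ℕ) (c : Fin q) {f : Site d k → Fin q} (hf : Prp f) (x : Site d k) :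
    |PP^[t] (N5_D c f) x| ≤ q :=
  (PPt_abs t _ x).trans ((PPt_mono t (fun y => N5_D_bd c hf y) x).trans (PPt_const hd t _ x).le)

/-- for even `t` and `x` in the class only the class matters -/
private theorem N5_repr {d k : ℕ} (hk : 1 ≤ k) {t : ℕ} (ht : Even t) {b : Bool} {x : Site d k} (hx : x ∈ cls b d k)
    (g : Site d k → ℝ) : PP^[t] g x = ∑ y ∈ cls b d k, Kt t x y * g y := by
  rw [Kt_repr]
  symm
  refine sum_subset (subset_univ _) fun y _ hy => ?_
  rw [Kt_cls hk t ht b x y hx ((cls_not b y).2 hy), zero_mul]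

/-- difference after a change at one site -/
private theorem N5_diff {d k q : ℕ} (hk : 1 ≤ k) {t : ℕ} (ht : Even t) {b : Bool} (c : Fin q)
    {f h : Site d k → Fin q} (hh : h ∈ fib b f) {v : Site d k} (hv : v ∈ cls b d k) {γ : Fin q} (hγ : γ ∉ SS f v)
    {x : Site d k} (hx : x ∈ cls b d k) :
    |PP^[t] (N5_D c (Function.update h v γ)) x - PP^[t] (N5_D c h) x| ≤ q * Kt t x v := by
  classical
  have hh' := N5_upd hk hh hv hγ
  rw [N5_repr hk ht hx, N5_repr hk ht hx, ← sum_sub_distrib]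
  have h1 : ∀ y ∈ cls b d k, Kt t x y * N5_D c (Function.update h v γ) y - Kt t x y * N5_D c h y =
      if y = v then Kt t x v * (bq c (Function.update h v γ) v - bq c h v) else 0 := by
    intro y hy
    have e1 : gg c (Function.update h v γ) y = gg c h y := by
      rw [N5_gg_fib hk hh' c hy, N5_gg_fib hk hh c hy]
    unfold N5_D
    rw [e1]
    by_cases hyv : y = v
    · subst hyv
      rw [if_pos rfl]
      ring
    · have e2 : bq c (Function.update h v γ) y = bq c h y := by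
        unfold bq
        rw [Function.update_of_ne hyv]
      rw [if_neg hyv, e2]
      ring
  rw [sum_congr rfl h1, sum_ite_eq' (cls b d k) v, if_pos hv, abs_mul, abs_of_nonneg (Kt_nonneg t x v), mul_comm]
  refine mul_le_mul_of_nonneg_right ?_ (Kt_nonneg t x v)
  obtain ⟨h3, h4⟩ := N5_bq_bd c (Function.update h v γ) v
  obtain ⟨h5, h6⟩ := N5_bq_bd c h v
  rw [abs_le]
  exact ⟨by linarith, by linarith⟩

private theorem N5_Kt_row {d k : ℕ} (hd : 1 ≤ d) (t : ℕ) (v : Site d k) (A : Finset (Site d k)) :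
    ∑ x ∈ A, Kt t x v ≤ 1 := by
  calc ∑ x ∈ A, Kt t x v ≤ ∑ x, Kt t x v :=
        sum_le_sum_of_subset_of_nonneg (subset_univ _) fun x _ _ => Kt_nonneg t x v
    _ = ∑ x, Kt t v x := sum_congr rfl fun x _ => Kt_symm t x v
    _ = 1 := Kt_one hd t v

private theorem N5_lip {d k q : ℕ} (hd : 8 ≤ d) (hk : 1 ≤ k) (hq : (q : ℝ) ≤ 2 * d) {t : ℕ} (ht : Even t) (b : Bool)
    (c : Fin q) : Lip b ((d : ℝ) ^ 3) (N5_Psi (d := d) (k := k) t b c) := by
  classical
  intro f hf h hh v hv γ hγ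
  have hf' : Prp f := by
    unfold prps at hf
    exact (mem_filter.1 hf).2
  have hh' := N5_upd hk hh hv hγ
  have hph : Prp h := fib_prp hk b hf' hh
  have hph' : Prp (Function.update h v γ) := fib_prp hk b hf' hh'
  have hd1 : 1 ≤ d := by omega
  have hd8 : (8 : ℝ) ≤ d := by exact_mod_cast hd
  have hq0 : (0 : ℝ) ≤ q := Nat.cast_nonneg _
  unfold N5_Psi
  rw [← sum_sub_distrib]
  refine (abs_sum_le_sum_abs _ _).trans ?_
  have h1 : ∀ x ∈ cls b d k, |PP^[t] (N5_D c (Function.update h v γ)) x ^ 2 - PP^[t] (N5_D c h) x ^ 2| ≤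
      2 * (q : ℝ) ^ 2 * Kt t x v := by
    intro x hx
    have e1 := N5_diff hk ht c hh hv hγ hx
    have e2 := N5_PP_bd hd1 t c hph x
    have e3 := N5_PP_bd hd1 t c hph' x
    set A := PP^[t] (N5_D c (Function.update h v γ)) x
    set B := PP^[t] (N5_D c h) x
    have e4 : A ^ 2 - B ^ 2 = (A - B) * (A + B) := by ring
    rw [e4, abs_mul]
    have e5 : |A + B| ≤ 2 * q := (abs_add_le A B).trans (by linarith)
    calc |A - B| * |A + B| ≤ (q * Kt t x v) * (2 * q) :=
          mul_le_mul e1 e5 (abs_nonneg _) (mul_nonneg hq0 (Kt_nonneg t x v))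
      _ = 2 * (q : ℝ) ^ 2 * Kt t x v := by ring
  refine (sum_le_sum h1).trans ?_
  rw [← mul_sum]
  have h2 := N5_Kt_row hd1 t v (cls b d k)
  calc 2 * (q : ℝ) ^ 2 * ∑ x ∈ cls b d k, Kt t x v ≤ 2 * (q : ℝ) ^ 2 * 1 :=
        mul_le_mul_of_nonneg_left h2 (by positivity)
    _ = 2 * (q : ℝ) ^ 2 := by ring
    _ ≤ 2 * (2 * (d : ℝ)) ^ 2 := by
        have := pow_le_pow_left₀ hq0 hq 2
        linarith
    _ ≤ (d : ℝ) ^ 3 := by nlinarith [sq_nonneg (d : ℝ)]

private theorem N5_fm_bq {d k q : ℕ} (hk : 1 ≤ k) {b : Bool} {f : Site d k → Fin q} (hf : Prp f) (c : Fin q)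
    {v : Site d k} (hv : v ∈ cls b d k) : fm b (fun h => bq c h v) f = gg c f v := by
  have h1 : (fun h : Site d k → Fin q => bq c h v) = fun h => (q : ℝ) * (if h v = c then (1 : ℝ) else 0) := by
    funext h
    unfold bq
    split_ifs <;> ring
  rw [h1, fm_mul, fm_ind hk b hf v hv c]
  unfold gg
  ring

private theorem N5_mean0 {d k q : ℕ} (hk : 1 ≤ k) {t : ℕ} (ht : Even t) {b : Bool} {f : Site d k → Fin q} (hf : Prp f)
    (c : Fin q) {x : Site d k} (hx : x ∈ cls b d k) : fm b (fun h => PP^[t] (N5_D c h) x) f = 0 := by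
  have h1 : (fun h : Site d k → Fin q => PP^[t] (N5_D c h) x) = fun h => ∑ y ∈ cls b d k, Kt t x y * N5_D c h y := by
    funext h
    exact N5_repr hk ht hx _
  rw [h1, fm_sum]
  refine sum_eq_zero fun y hy => ?_
  rw [fm_mul]
  have h2 : fm b (fun h => N5_D c h y) f = 0 := by
    have h3 : fm b (fun h => N5_D c h y) f = fm b (fun h => bq c h y) f - fm b (fun h => gg c h y) f := by
      rw [← fm_sub]
      rfl
    have h4 : fm b (fun h => gg c h y) f = gg c f y := by
      rw [fm_congr b (G := fun _ => gg c f y) (fun h hh => N5_gg_fib hk hh c hy), fm_const b hf]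
    rw [h3, h4, N5_fm_bq hk hf c hy, sub_self]
  rw [h2, mul_zero]

private theorem N5_var {d k q : ℕ} (hd : 1 ≤ d) (hk : 2 ≤ k) {t : ℕ} (ht : Even t) {b : Bool} {f : Site d k → Fin q}
    (hf : Prp f) (c : Fin q) {κ : ℝ} (hκ : ∀ u y : Site d k, Kt t u y ≤ κ) {x : Site d k} (hx : x ∈ cls b d k) :
    fm b (fun h => PP^[t] (N5_D c h) x ^ 2) f ≤ 4 * ((q : ℝ) ^ 2 * κ) := by
  have hk1 : 1 ≤ k := by omega
  have hq0 : (0 : ℝ) ≤ q := Nat.cast_nonneg _
  have h1 := fm_var hk b hf (fun h => PP^[t] (N5_D c h) x) (fun v => (q : ℝ) * Kt t x v)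
    (fun v => mul_nonneg hq0 (Kt_nonneg t x v))
    (fun h hh v hv γ hγ => N5_diff hk1 ht c hh hv hγ hx)
  rw [N5_mean0 hk1 ht hf c hx] at h1
  simp only [sub_zero] at h1
  refine h1.trans ?_
  refine mul_le_mul_of_nonneg_left ?_ (by norm_num)
  calc ∑ v ∈ cls b d k, ((q : ℝ) * Kt t x v) ^ 2 ≤ ∑ v ∈ cls b d k, (q : ℝ) ^ 2 * κ * Kt t x v := by
        refine sum_le_sum fun v _ => ?_
        have e1 := hκ x v
        have e2 := Kt_nonneg t x v
        have e3 : Kt t x v * Kt t x v ≤ κ * Kt t x v := mul_le_mul_of_nonneg_right e1 e2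
        have e4 : 0 ≤ (q : ℝ) ^ 2 := sq_nonneg _
        calc ((q : ℝ) * Kt t x v) ^ 2 = (q : ℝ) ^ 2 * (Kt t x v * Kt t x v) := by ring
          _ ≤ (q : ℝ) ^ 2 * (κ * Kt t x v) := mul_le_mul_of_nonneg_left e3 e4
          _ = (q : ℝ) ^ 2 * κ * Kt t x v := by ring
    _ = (q : ℝ) ^ 2 * κ * ∑ v ∈ cls b d k, Kt t x v := by rw [mul_sum]
    _ ≤ (q : ℝ) ^ 2 * κ * 1 := by
        refine mul_le_mul_of_nonneg_left ?_ ?_
        · calc ∑ v ∈ cls b d k, Kt t x v ≤ ∑ v, Kt t x v :=
                sum_le_sum_of_subset_of_nonneg (subset_univ _) fun v _ _ => Kt_nonneg t x v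
            _ = 1 := Kt_one hd t x
        · exact mul_nonneg (sq_nonneg _) ((Kt_nonneg t x x).trans (hκ x x))
    _ = (q : ℝ) ^ 2 * κ := mul_one _

private theorem N5_fm_Psi {d k q : ℕ} (hd : 1 ≤ d) (hk : 2 ≤ k) {t : ℕ} (ht : Even t) (b : Bool) {f : Site d k → Fin q}
    (hf : Prp f) (c : Fin q) {κ : ℝ} (hκ : ∀ u y : Site d k, Kt t u y ≤ κ) :
    fm b (N5_Psi t b c) f ≤ NN d k / 2 * (4 * ((q : ℝ) ^ 2 * κ)) := by
  have h1 : fm b (N5_Psi t b c) f = ∑ x ∈ cls b d k, fm b (fun h => PP^[t] (N5_D c h) x ^ 2) f := by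
    rw [← fm_sum]
    rfl
  rw [h1]
  refine (sum_le_sum fun x hx => N5_var hd hk ht hf c hκ hx).trans ?_
  rw [sum_const, nsmul_eq_mul, card_cls hd (by omega) b]

/-- the bound of the kernel is small -/
private theorem N5_kappa (s : ℕ) (hs : 10 ≤ s) : ∀ᶠ d : ℕ in atTop,
    32 * (d : ℝ) ^ 6 * ((8 * (s : ℝ)) ^ (2 * s) / (2 * (d : ℝ)) ^ s) ≤ 1 := by
  have h1 : ∀ᶠ d : ℕ in atTop, (32 * (8 * (s : ℝ)) ^ (2 * s) : ℝ) ≤ (d : ℝ) :=
    tendsto_natCast_atTop_atTop.eventually_ge_atTop _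
  filter_upwards [h1, eventually_ge_atTop 1] with d hd hd1
  have hd1' : (1 : ℝ) ≤ d := by exact_mod_cast hd1
  have hd0 : (0 : ℝ) < d := by linarith
  rw [← mul_div_assoc, div_le_one (by positivity)]
  calc 32 * (d : ℝ) ^ 6 * (8 * (s : ℝ)) ^ (2 * s) = (32 * (8 * (s : ℝ)) ^ (2 * s)) * (d : ℝ) ^ 6 := by ring
    _ ≤ d * (d : ℝ) ^ 6 := mul_le_mul_of_nonneg_right hd (by positivity)
    _ = (d : ℝ) ^ 7 := by ring
    _ ≤ (d : ℝ) ^ s := pow_le_pow_right₀ hd1' (by omega)
    _ ≤ (2 * (d : ℝ)) ^ s := pow_le_pow_left₀ hd0.le (by linarith) s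

private theorem N5_split {d k : ℕ} (g : Site d k → ℝ) : ∑ x, g x = ∑ x ∈ cls true d k, g x + ∑ x ∈ cls false d k, g x := by
  classical
  have h1 : (cls false d k : Finset (Site d k)) = (cls true d k)ᶜ := by
    ext x
    rw [mem_compl]
    exact cls_not true x
  rw [h1, sum_add_sum_compl]

private theorem N5_final {d : ℕ} {N S : ℝ} (hd : (8 : ℝ) ≤ d) (hN : 0 ≤ N)
    (hS : S ≤ N / 2 * (1 / (2 * (d : ℝ) ^ 4)) + N / (d : ℝ) ^ 5) : S ≤ N / (2 * (d : ℝ) ^ 4) := by
  refine hS.trans ?_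
  have hd0 : (0 : ℝ) < d := by linarith
  have h1 : N / (d : ℝ) ^ 5 ≤ N / (4 * (d : ℝ) ^ 4) := by
    refine div_le_div_of_nonneg_left hN (by positivity) ?_
    have : 0 < (d : ℝ) ^ 4 := by positivity
    nlinarith
  have h2 : N / 2 * (1 / (2 * (d : ℝ) ^ 4)) = N / (4 * (d : ℝ) ^ 4) := by
    field_simp
    ring
  have h3 : N / (2 * (d : ℝ) ^ 4) = N / (4 * (d : ℝ) ^ 4) + N / (4 * (d : ℝ) ^ 4) := by
    field_simp
    ring
  rw [h2, h3]
  linarith

theorem smooth {ε : ℝ} (hε : 0 < ε) (hε1 : ε ≤ 1) (t : ℕ) (ht : Even t) (ht' : 20 ≤ t) :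
    WOP ε fun d k q f => ∀ c : Fin q, ∑ x, (PP^[t] (bq c f) x - PP^[t] (gg c f) x) ^ 2 ≤ NN d k / (d : ℝ) ^ 4 := by
  obtain ⟨s, hs⟩ := ht.two_dvd
  have hs10 : 10 ≤ s := by omega
  have hL : EvT ε fun d k q => ∀ i : Bool × Fin q, True → Lip i.1 ((d : ℝ) ^ 3) (N5_Psi (d := d) (k := k) t i.1 i.2) := by
    refine (EvT_reg hε hε1 8).mono ?_
    rintro d k q ⟨hd, -, hk, -, hq2, -⟩ i -
    have hd8 : 8 ≤ d := by exact_mod_cast hd
    have hk8 : 8 ≤ k := by exact_mod_cast hk
    have hd0 : (0 : ℝ) ≤ d := Nat.cast_nonneg _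
    exact N5_lip hd8 (by omega) (by nlinarith) ht i.1 i.2
  have h1 := WOPi_tail hε hε1 (fun _ _ q => Bool × Fin q) (fun _ _ _ i => i.1) (fun _ _ _ _ => True)
    (fun d k _ i => N5_Psi (d := d) (k := k) t i.1 i.2) 3 5 hL
  have h2 := h1.all (fun _ q => 2 * (q : ℝ)) (fun d k q => by
    rw [Fintype.card_prod, Fintype.card_bool, Fintype.card_fin]
    push_cast
    exact le_rfl)
  refine h2.mono ?_
  refine (((EvT_reg hε hε1 8).and (EvT_d (N5_kappa s hs10))).and (EvT_pow fun _ _ => 2 * (s : ℝ) + 1)).mono ?_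
  rintro d k q ⟨⟨⟨hd, -, hk, -, hq2, -⟩, hκ⟩, hpow⟩ f hf h3 c
  have hf' : Prp f := by
    classical
    unfold prps at hf
    exact (mem_filter.1 hf).2
  have hd8 : 8 ≤ d := by exact_mod_cast hd
  have hk8 : 8 ≤ k := by exact_mod_cast hk
  have hd0 : (0 : ℝ) < d := by linarith
  have hN : 0 ≤ NN d k := by
    unfold NN
    positivity
  have hpow' : 2 * s < 2 ^ k := by
    have : ((2 * s + 1 : ℕ) : ℝ) ≤ ((2 ^ k : ℕ) : ℝ) := by
      push_cast
      exact hpow
    have := Nat.cast_le.1 this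
    omega
  have hK : ∀ u y : Site d k, Kt t u y ≤ (8 * (s : ℝ)) ^ (2 * s) / (2 * (d : ℝ)) ^ s := by
    intro u y
    rw [hs]
    exact Kt_sup (by omega) s hpow' u y
  set κ : ℝ := (8 * (s : ℝ)) ^ (2 * s) / (2 * (d : ℝ)) ^ s with hκd
  have hκ0 : 0 ≤ κ := by
    rw [hκd]
    positivity
  have hq0 : (0 : ℝ) ≤ q := Nat.cast_nonneg _
  have hq2' : (q : ℝ) ≤ 2 * d := by nlinarith
  have h4 : 4 * ((q : ℝ) ^ 2 * κ) ≤ 1 / (2 * (d : ℝ) ^ 4) := by
    rw [le_div_iff₀ (by positivity)]
    calc 4 * ((q : ℝ) ^ 2 * κ) * (2 * (d : ℝ) ^ 4) ≤ 4 * ((2 * (d : ℝ)) ^ 2 * κ) * (2 * (d : ℝ) ^ 4) := by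
          have e1 : (q : ℝ) ^ 2 ≤ (2 * (d : ℝ)) ^ 2 := pow_le_pow_left₀ hq0 hq2' 2
          have e2 : (q : ℝ) ^ 2 * κ ≤ (2 * (d : ℝ)) ^ 2 * κ := mul_le_mul_of_nonneg_right e1 hκ0
          have e3 : 0 ≤ 2 * (d : ℝ) ^ 4 := by positivity
          nlinarith
      _ = 32 * (d : ℝ) ^ 6 * κ := by ring
      _ ≤ 1 := hκ
  have h5 : ∀ b : Bool, N5_Psi t b c f ≤ NN d k / (2 * (d : ℝ) ^ 4) := by
    intro b
    have e1 := h3 (b, c) trivial
    have e2 := N5_fm_Psi (by omega : 1 ≤ d) (by omega : 2 ≤ k) ht b hf' c hK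
    refine N5_final hd hN (e1.trans ?_)
    have e3 : NN d k / 2 * (4 * ((q : ℝ) ^ 2 * κ)) ≤ NN d k / 2 * (1 / (2 * (d : ℝ) ^ 4)) :=
      mul_le_mul_of_nonneg_left h4 (by linarith)
    have e4 := e2.trans e3
    exact add_le_add e4 le_rfl
  have h6 : ∑ x, (PP^[t] (bq c f) x - PP^[t] (gg c f) x) ^ 2 = ∑ x, PP^[t] (N5_D c f) x ^ 2 := by
    refine sum_congr rfl fun x _ => ?_
    have := PPt_sub t (bq c f) (gg c f) x
    unfold N5_D
    rw [this]
  rw [h6, N5_split]
  have e5 := h5 true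
  have e6 := h5 false
  unfold N5_Psi at e5 e6
  have e7 : NN d k / (d : ℝ) ^ 4 = NN d k / (2 * (d : ℝ) ^ 4) + NN d k / (2 * (d : ℝ) ^ 4) := by
    field_simp
    ring
  rw [e7]
  exact add_le_add e5 e6

end Pool.Agent.THR

end

/-! ### from `Lib_MP_2c424f_thr.Z0` -/

section

/-!
# THR Z0: from overwhelming probability to means at a single site (paper proof: Z, first line)

`F` translation covariant, `0 ≤ F ≤ M d q`, and w.o.p. `∑_v F f v ≤ δ N`.  By `LO.sum_transl`, `∑_f F f v` does not depend on `v`, so it is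
`(1/N) ∑_f ∑_v F f v ≤ δ Z + M Z exp (-N/d^C) ≤ 2 δ Z` for `k` large (`N → ∞`).
-/

set_option autoImplicit false

open Finset Filter

namespace Pool.Agent.THR

open Pool.Agent.LO Pool.Agent.LIN

private theorem Z0_exp {t m δ : ℝ} (hδ : 0 < δ) (hm : 0 ≤ m) (ht : m / δ ≤ t) : m * Real.exp (-t) ≤ δ := by
  have ht0 : 0 ≤ t := le_trans (div_nonneg hm hδ.le) ht
  have h1 : t + 1 ≤ Real.exp t := Real.add_one_le_exp t
  have h2 : m ≤ δ * t := by
    rw [div_le_iff₀ hδ] at ht
    linarith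
  have h3 : m ≤ δ * Real.exp t := by nlinarith
  have h4 : Real.exp t * Real.exp (-t) = 1 := by
    rw [← Real.exp_add]
    simp
  calc m * Real.exp (-t) ≤ (δ * Real.exp t) * Real.exp (-t) :=
        mul_le_mul_of_nonneg_right h3 (Real.exp_pos _).le
    _ = δ := by rw [mul_assoc, h4, mul_one]

theorem transl_mean {ε : ℝ} (ι : ℕ → ℕ → ℕ → Type) (F : ∀ d k q : ℕ, ι d k q → (Site d k → Fin q) → Site d k → ℝ)
    (M : ℕ → ℕ → ℝ) (δ : ℝ) (hδ : 0 < δ)
    (hM : EvT ε fun d k q => ∀ i, ∀ f ∈ prps d k q, ∀ v, 0 ≤ F d k q i f v ∧ F d k q i f v ≤ M d q)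
    (hT : ∀ d k q i f v w, F d k q i (fun x => f (x + w)) v = F d k q i f (v + w))
    (h : WOPi ε ι fun d k q i f => ∑ v, F d k q i f v ≤ δ * NN d k) :
    EvT ε fun d k q => ∀ i v, ∑ f ∈ prps d k q, F d k q i f v ≤ 2 * δ * ZZ d k q := by
  classical
  obtain ⟨C, hC⟩ := h
  have hN : EvT ε fun d k q => (d : ℝ) ^ C * (|M d q| / δ) ≤ NN d k :=
    EvT_NN (fun d q => (d : ℝ) ^ C * (|M d q| / δ))
  have h1 : EvT ε fun d _ _ => 1 ≤ d := EvT_d (eventually_ge_atTop 1)
  refine (((hM.and hC).and hN).and h1).mono ?_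
  rintro d k q ⟨⟨⟨hM, hC⟩, hN⟩, hd⟩ i v
  have hd0 : (0 : ℝ) < (d : ℝ) ^ C := by
    have : (0 : ℝ) < d := by exact_mod_cast hd
    positivity
  have hNpos : 0 < NN d k := by
    unfold NN
    positivity
  -- the sum does not depend on the site
  have hS : ∀ w : Site d k, ∑ f ∈ prps d k q, F d k q i f w = ∑ f ∈ prps d k q, F d k q i f v := by
    intro w
    have h2 := sum_transl (d := d) (k := k) (q := q) (w - v) (fun f => F d k q i f v)
    rw [← h2]
    refine Finset.sum_congr rfl fun f _ => ?_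
    rw [hT]
    congr 1
    abel
  have hcard : ((Finset.univ : Finset (Site d k)).card : ℝ) = NN d k := by
    rw [Finset.card_univ]
    exact card_site d k
  have hmul : NN d k * ∑ f ∈ prps d k q, F d k q i f v = ∑ f ∈ prps d k q, ∑ w, F d k q i f w := by
    rw [Finset.sum_comm, Finset.sum_congr rfl fun w _ => hS w, Finset.sum_const, nsmul_eq_mul, hcard]
  -- good and bad colourings
  have hgood : ∑ f ∈ (prps d k q).filter (fun f => ∑ w, F d k q i f w ≤ δ * NN d k), ∑ w, F d k q i f w ≤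
      ZZ d k q * (δ * NN d k) := by
    calc ∑ f ∈ (prps d k q).filter (fun f => ∑ w, F d k q i f w ≤ δ * NN d k), ∑ w, F d k q i f w
        ≤ ∑ _f ∈ (prps d k q).filter (fun f => ∑ w, F d k q i f w ≤ δ * NN d k), δ * NN d k :=
          Finset.sum_le_sum fun f hf => (mem_filter.1 hf).2
      _ = (((prps d k q).filter (fun f => ∑ w, F d k q i f w ≤ δ * NN d k)).card : ℝ) * (δ * NN d k) := by
          rw [Finset.sum_const, nsmul_eq_mul]
      _ ≤ ZZ d k q * (δ * NN d k) := by
          refine mul_le_mul_of_nonneg_right ?_ (mul_nonneg hδ.le hNpos.le)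
          unfold ZZ
          exact_mod_cast card_le_card (filter_subset _ _)
  have hbad : ∑ f ∈ (prps d k q).filter (fun f => ¬ ∑ w, F d k q i f w ≤ δ * NN d k), ∑ w, F d k q i f w ≤
      ZZ d k q * Real.exp (-(NN d k / (d : ℝ) ^ C)) * (NN d k * |M d q|) := by
    calc ∑ f ∈ (prps d k q).filter (fun f => ¬ ∑ w, F d k q i f w ≤ δ * NN d k), ∑ w, F d k q i f w
        ≤ ∑ _f ∈ (prps d k q).filter (fun f => ¬ ∑ w, F d k q i f w ≤ δ * NN d k), NN d k * |M d q| := by
          refine Finset.sum_le_sum fun f hf => ?_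
          have hf' := (mem_filter.1 hf).1
          calc ∑ w, F d k q i f w ≤ ∑ _w : Site d k, |M d q| :=
                Finset.sum_le_sum fun w _ => ((hM i f hf' w).2).trans (le_abs_self _)
            _ = NN d k * |M d q| := by
                rw [Finset.sum_const, nsmul_eq_mul, hcard]
      _ = (((prps d k q).filter (fun f => ¬ ∑ w, F d k q i f w ≤ δ * NN d k)).card : ℝ) * (NN d k * |M d q|) := by
          rw [Finset.sum_const, nsmul_eq_mul]
      _ ≤ ZZ d k q * Real.exp (-(NN d k / (d : ℝ) ^ C)) * (NN d k * |M d q|) := by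
          refine mul_le_mul_of_nonneg_right ?_ (mul_nonneg hNpos.le (abs_nonneg _))
          have h3 := hC i
          unfold Rar at h3
          refine le_trans (le_of_eq ?_) h3
          congr!
  have hexp : |M d q| * Real.exp (-(NN d k / (d : ℝ) ^ C)) ≤ δ := by
    refine Z0_exp hδ (abs_nonneg _) ?_
    rw [le_div_iff₀ hd0]
    linarith
  have hZ : 0 ≤ ZZ d k q := by
    unfold ZZ
    positivity
  have htot : NN d k * ∑ f ∈ prps d k q, F d k q i f v ≤ NN d k * (2 * δ * ZZ d k q) := by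
    rw [hmul, ← Finset.sum_filter_add_sum_filter_not (prps d k q) (fun f => ∑ w, F d k q i f w ≤ δ * NN d k)]
    have h4 : ZZ d k q * Real.exp (-(NN d k / (d : ℝ) ^ C)) * (NN d k * |M d q|) ≤ ZZ d k q * NN d k * δ := by
      have h5 := mul_le_mul_of_nonneg_left hexp (mul_nonneg hZ hNpos.le)
      linarith
    linarith [hgood, hbad, h4]
  exact le_of_mul_le_mul_left htot hNpos

end Pool.Agent.THR

end
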