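import Pool.Agent.Lib_MP_2c424f_ms.M11
import Pool.Agent.Lib_MP_2c424f_ms.M13
import Pool.Agent.Lib_MP_2c424f_ms.M14
import Pool.Agent.Lib_MP_2c424f_ms.M23

/-!
# MP_2c424f_pr: library of SharpThreshold and BoundaryThreshold (merged): merged library part M29

Concatenation of smaller files (each in its own section), only to save build time.
-/

namespace Pool.Agent.LO
end Pool.Agent.LO

namespace Pool.Agent.LIN
end Pool.Agent.LIN

/-! ### from `Lib_MP_2c424f_thr.S3` -/

section

/-!
# THR S3: a sparse set of frozen sites sees many frozen sites (paper proof: S4, deterministic part)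

`F' = Fz b f \ Bd b f`, `τ = q 4^(-a) / 4`, `B = ⌊τ/3⌋₊ ≥ 1`.  For `v ∈ F'`: `1 = av f v ≥ Vn f v - #frozen neighbours`
(a colour counted in `Vn` and used on a neighbour is used on a frozen neighbour: `Vn_le`), so `v` has
`≥ 2τ - 1 ≥ τ` frozen neighbours.  `ω : Site → Fin B` uniform, `R = {ω = 0}`: the number of `ω` for which no frozen neighbour
of `v` is in `R` is at most `(1-1/B)^τ ≤ exp (-3) ≤ 1/16` times the total; the mean of `|Fz (!b) f ∩ R|` is `|Fz (!b) f|/B`.
So the mean of `16 uncovered/|F'| + B |Fz (!b) f ∩ R|/|Fz b f|` is at most `2` (the second term is `≤ 1`): take `ω` with value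
`≤ 2`, `G = Fz (!b) f ∩ R`, `A` = covered sites of `F'`: `|A| ≥ (7/8) |F'| ≥ (7/8)² |Fz b f| ≥ |Fz b f|/2`,
`|G| ≤ 2 |Fz b f|/B ≤ 4 |A|/B`.
-/

set_option autoImplicit false

open Finset Filter

namespace Pool.Agent.THR

open Pool.Agent.LO Pool.Agent.LIN

open scoped Classical in
theorem Vn_le {d k q : ℕ} (f : Site d k → Fin q) (v : Site d k) :
    (Vn f v : ℝ) ≤ av f v + ((univ.filter fun σ : Stp d => av f (v + sv σ) = 1).card : ℝ) := by
  have h1 : (univ.filter fun c : Fin q => ∀ σ : Stp d, f (v + sv σ) = c → av f (v + sv σ) = 1) ⊆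
      (SS f v)ᶜ ∪ (univ.filter fun σ : Stp d => av f (v + sv σ) = 1).image (fun σ => f (v + sv σ)) := by
    intro c hc
    rw [mem_filter] at hc
    rw [mem_union, mem_compl]
    by_cases hcS : c ∈ SS f v
    · right
      unfold SS at hcS
      rw [mem_image] at hcS
      obtain ⟨σ, -, hσ⟩ := hcS
      rw [mem_image]
      exact ⟨σ, mem_filter.2 ⟨mem_univ _, hc.2 σ hσ⟩, hσ⟩
    · left
      exact hcS
  have h2 : (SS f v)ᶜ.card = av f v := by
    rw [card_compl, Fintype.card_fin]
    rfl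
  have h3 : Vn f v ≤ av f v + (univ.filter fun σ : Stp d => av f (v + sv σ) = 1).card := by
    have h4 := (card_le_card h1).trans (card_union_le _ _)
    have h5 : ((univ.filter fun σ : Stp d => av f (v + sv σ) = 1).image (fun σ => f (v + sv σ))).card ≤
        (univ.filter fun σ : Stp d => av f (v + sv σ) = 1).card := card_image_le
    unfold Vn
    omega
  exact_mod_cast h3

/-- number of maps which avoid a value on a set -/
private theorem S3_card_avoid {X : Type} [Fintype X] [DecidableEq X] (B : ℕ) (β : Fin B) (T : Finset X) :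
    ((univ.filter fun ω : X → Fin B => ∀ x ∈ T, ω x ≠ β).card : ℝ) =
      (1 - 1 / (B : ℝ)) ^ T.card * (B : ℝ) ^ Fintype.card X := by
  have hB : (0 : ℝ) < B := by
    have := β.pos
    exact_mod_cast this
  have h1 : (univ.filter fun ω : X → Fin B => ∀ x ∈ T, ω x ≠ β) =
      Fintype.piFinset (fun x => if x ∈ T then (univ.erase β : Finset (Fin B)) else univ) := by
    ext ω
    rw [mem_filter, Fintype.mem_piFinset]
    constructor
    · rintro ⟨-, h⟩ x
      by_cases hx : x ∈ T
      · rw [if_pos hx, mem_erase]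
        exact ⟨h x hx, mem_univ _⟩
      · rw [if_neg hx]
        exact mem_univ _
    · intro h
      refine ⟨mem_univ _, fun x hx => ?_⟩
      have := h x
      rw [if_pos hx, mem_erase] at this
      exact this.1
  rw [h1, Fintype.card_piFinset, Nat.cast_prod]
  have h2 : ∀ x : X, (((if x ∈ T then (univ.erase β : Finset (Fin B)) else univ).card : ℕ) : ℝ) =
      (if x ∈ T then (1 - 1 / (B : ℝ)) else 1) * (B : ℝ) := by
    intro x
    by_cases hx : x ∈ T
    · rw [if_pos hx, if_pos hx, card_erase_of_mem (mem_univ _), card_univ, Fintype.card_fin,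
        Nat.cast_sub β.pos]
      field_simp
      simp
    · rw [if_neg hx, if_neg hx, card_univ, Fintype.card_fin, one_mul]
  rw [prod_congr rfl fun x _ => h2 x, prod_mul_distrib, prod_const, card_univ]
  congr 1
  rw [prod_ite_mem, univ_inter, prod_const]

/-- number of maps with a given value at one point -/
private theorem S3_card_hit {X : Type} [Fintype X] [DecidableEq X] (B : ℕ) (β : Fin B) (x : X) :
    ((univ.filter fun ω : X → Fin B => ω x = β).card : ℝ) =
      (1 / (B : ℝ)) * (B : ℝ) ^ Fintype.card X := by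
  have h1 := S3_card_avoid B β ({x} : Finset X)
  have h2 : (univ.filter fun ω : X → Fin B => ω x = β).card +
      (univ.filter fun ω : X → Fin B => ∀ y ∈ ({x} : Finset X), ω y ≠ β).card = Fintype.card (X → Fin B) := by
    have h3 := card_filter_add_card_filter_not (s := (univ : Finset (X → Fin B))) (fun ω => ω x = β)
    rw [card_univ] at h3
    rw [← h3]
    congr 2
    ext ω
    simp
  have h4 : (Fintype.card (X → Fin B) : ℝ) = (B : ℝ) ^ Fintype.card X := by
    rw [Fintype.card_fun, Fintype.card_fin, Nat.cast_pow]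
  have h5 : ((univ.filter fun ω : X → Fin B => ω x = β).card : ℝ) +
      ((univ.filter fun ω : X → Fin B => ∀ y ∈ ({x} : Finset X), ω y ≠ β).card : ℝ) =
      (B : ℝ) ^ Fintype.card X := by
    rw [← h4]
    exact_mod_cast h2
  rw [h1, card_singleton, pow_one] at h5
  linarith

private theorem S3_step {d k : ℕ} (hk : 1 ≤ k) (b : Bool) {v : Site d k} (hv : v ∈ cls b d k) (σ : Stp d) :
    v + sv σ ∈ cls (!b) d k := by
  classical
  unfold cls at hv ⊢
  cases b
  · simp only [Bool.not_false, if_true, Bool.false_eq_true, if_false] at hv ⊢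
    unfold ods at hv
    unfold evs
    rw [mem_filter] at hv ⊢
    exact ⟨mem_univ _, (evn_step hk v σ).2 hv.2⟩
  · simp only [Bool.not_true, if_true, Bool.false_eq_true, if_false] at hv ⊢
    unfold evs at hv
    unfold ods
    rw [mem_filter] at hv ⊢
    exact ⟨mem_univ _, fun h => (evn_step hk v σ).1 h hv.2⟩

private theorem S3_exp : Real.exp (-3) ≤ 1 / 16 := by
  have h1 : (2.7182818283 : ℝ) < Real.exp 1 := Real.exp_one_gt_d9
  have h2 : Real.exp 3 = Real.exp 1 ^ 3 := by
    rw [← Real.exp_nat_mul]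
    norm_num
  have h3 : (16 : ℝ) ≤ Real.exp 3 := by
    rw [h2]
    have h4 : (2.7 : ℝ) ^ 3 ≤ Real.exp 1 ^ 3 := pow_le_pow_left₀ (by norm_num) (by linarith) 3
    refine le_trans ?_ h4
    norm_num
  rw [Real.exp_neg, inv_eq_one_div]
  exact one_div_le_one_div_of_le (by norm_num) h3

/-- the averaging argument, abstract form -/
private theorem S3_abs {X : Type} [Fintype X] [DecidableEq X] (B : ℕ) (hB : 1 ≤ B) (F' Fo : Finset X)
    (T : X → Finset X) (hT : ∀ v ∈ F', 3 * B ≤ (T v).card) (M : ℝ) (hM : (Fo.card : ℝ) ≤ M) (hM1 : 0 < M) (hF : 0 < F'.card) :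
    ∃ R : Finset X, ((F'.filter fun v => ∀ x ∈ T v, x ∉ R).card : ℝ) ≤ F'.card / 8 ∧
      ((Fo ∩ R).card : ℝ) * B ≤ 2 * M := by
  classical
  have hB0 : (0 : ℝ) < B := by exact_mod_cast hB
  have hB1 : (1 : ℝ) ≤ B := by exact_mod_cast hB
  have hF0 : (0 : ℝ) < F'.card := by exact_mod_cast hF
  have hM0 : 0 ≤ M := le_trans (Nat.cast_nonneg _) hM
  set β : Fin B := ⟨0, hB⟩ with hβ
  set N := Fintype.card X with hN
  have hBN : (0 : ℝ) < (B : ℝ) ^ N := pow_pos hB0 N
  have hcard : ((univ : Finset (X → Fin B)).card : ℝ) = (B : ℝ) ^ N := by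
    rw [card_univ, Fintype.card_fun, Fintype.card_fin, Nat.cast_pow]
  -- the two sums
  have hU : ∑ ω : X → Fin B, ((F'.filter fun v => ∀ x ∈ T v, ω x ≠ β).card : ℝ) ≤ F'.card / 16 * (B : ℝ) ^ N := by
    have h1 : ∀ ω : X → Fin B, ((F'.filter fun v => ∀ x ∈ T v, ω x ≠ β).card : ℝ) =
        ∑ v ∈ F', if ∀ x ∈ T v, ω x ≠ β then (1 : ℝ) else 0 := by
      intro ω
      rw [sum_boole]
    rw [sum_congr rfl fun ω _ => h1 ω, sum_comm]
    have h2 : ∀ v ∈ F', ∑ ω : X → Fin B, (if ∀ x ∈ T v, ω x ≠ β then (1 : ℝ) else 0) ≤ 1 / 16 * (B : ℝ) ^ N := by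
      intro v hv
      rw [sum_boole, S3_card_avoid B β (T v)]
      refine mul_le_mul_of_nonneg_right ?_ hBN.le
      have h3 : 0 ≤ 1 - 1 / (B : ℝ) := by
        rw [sub_nonneg, div_le_one hB0]
        exact hB1
      have h4 : 1 - 1 / (B : ℝ) ≤ 1 := by
        have : 0 ≤ 1 / (B : ℝ) := by positivity
        linarith
      calc (1 - 1 / (B : ℝ)) ^ (T v).card ≤ (1 - 1 / (B : ℝ)) ^ (3 * B) :=
            pow_le_pow_of_le_one h3 h4 (hT v hv)
        _ ≤ (Real.exp (-(1 / (B : ℝ)))) ^ (3 * B) := by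
            refine pow_le_pow_left₀ h3 ?_ _
            have := Real.add_one_le_exp (-(1 / (B : ℝ)))
            linarith
        _ = Real.exp (-3) := by
            rw [← Real.exp_nat_mul]
            congr 1
            push_cast
            field_simp
        _ ≤ 1 / 16 := S3_exp
    calc ∑ v ∈ F', ∑ ω : X → Fin B, (if ∀ x ∈ T v, ω x ≠ β then (1 : ℝ) else 0)
        ≤ ∑ v ∈ F', 1 / 16 * (B : ℝ) ^ N := sum_le_sum h2
      _ = F'.card / 16 * (B : ℝ) ^ N := by
          rw [sum_const, nsmul_eq_mul]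
          ring
  have hG : ∑ ω : X → Fin B, ((Fo.filter fun x => ω x = β).card : ℝ) ≤ M / B * (B : ℝ) ^ N := by
    have h1 : ∀ ω : X → Fin B, ((Fo.filter fun x => ω x = β).card : ℝ) =
        ∑ x ∈ Fo, if ω x = β then (1 : ℝ) else 0 := by
      intro ω
      rw [sum_boole]
    rw [sum_congr rfl fun ω _ => h1 ω, sum_comm]
    have h2 : ∀ x ∈ Fo, ∑ ω : X → Fin B, (if ω x = β then (1 : ℝ) else 0) = 1 / (B : ℝ) * (B : ℝ) ^ N := by
      intro x _
      rw [sum_boole, S3_card_hit B β x]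
    rw [sum_congr rfl h2, sum_const, nsmul_eq_mul]
    have h3 : (Fo.card : ℝ) * (1 / (B : ℝ) * (B : ℝ) ^ N) = (Fo.card : ℝ) * ((B : ℝ) ^ N / B) := by
      field_simp
    have h4 : M / B * (B : ℝ) ^ N = M * ((B : ℝ) ^ N / B) := by
      field_simp
    rw [h3, h4]
    exact mul_le_mul_of_nonneg_right hM (by positivity)
  -- choose
  have hex : ∃ ω ∈ (univ : Finset (X → Fin B)),
      16 * M * ((F'.filter fun v => ∀ x ∈ T v, ω x ≠ β).card : ℝ) +
        B * F'.card * ((Fo.filter fun x => ω x = β).card : ℝ) ≤ 2 * M * F'.card := by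
    refine exists_le_of_sum_le (univ_nonempty_iff.2 ⟨fun _ => β⟩) ?_
    rw [sum_add_distrib, ← mul_sum, ← mul_sum, sum_const, nsmul_eq_mul, hcard]
    have h1 := mul_le_mul_of_nonneg_left hU (by positivity : (0 : ℝ) ≤ 16 * M)
    have h2 := mul_le_mul_of_nonneg_left hG (by positivity : (0 : ℝ) ≤ (B : ℝ) * F'.card)
    have h3 : 16 * M * (F'.card / 16 * (B : ℝ) ^ N) + (B : ℝ) * F'.card * (M / B * (B : ℝ) ^ N) =
        (B : ℝ) ^ N * (2 * M * F'.card) := by
      field_simp
      ring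
    linarith
  obtain ⟨ω, -, hω⟩ := hex
  refine ⟨univ.filter fun x => ω x = β, ?_, ?_⟩
  · have h1 : (F'.filter fun v => ∀ x ∈ T v, x ∉ (univ.filter fun x => ω x = β)) =
        F'.filter fun v => ∀ x ∈ T v, ω x ≠ β := by
      refine filter_congr fun v _ => ?_
      simp
    rw [h1]
    have h2 : 0 ≤ (B : ℝ) * F'.card * ((Fo.filter fun x => ω x = β).card : ℝ) := by positivity
    have h3 : 16 * M * ((F'.filter fun v => ∀ x ∈ T v, ω x ≠ β).card : ℝ) ≤ 16 * M * (F'.card / 8) := by
      linarith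
    exact le_of_mul_le_mul_left h3 (by positivity)
  · have h1 : Fo ∩ (univ.filter fun x => ω x = β) = Fo.filter fun x => ω x = β := by
      ext x
      simp
    rw [h1]
    have h2 : 0 ≤ 16 * M * ((F'.filter fun v => ∀ x ∈ T v, ω x ≠ β).card : ℝ) := by positivity
    have h3 : (F'.card : ℝ) * (((Fo.filter fun x => ω x = β).card : ℝ) * B) ≤ F'.card * (2 * M) := by
      linarith
    exact le_of_mul_le_mul_left h3 hF0

theorem cover {d k q : ℕ} (hd : 1 ≤ d) (hk : 2 ≤ k) (b : Bool) {f : Site d k → Fin q} (hf : Prp f) (κ : ℝ) (hκ : 0 < κ)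
    (hτ : 3 ≤ (q : ℝ) * (4 : ℝ) ^ (-ra d q) / 4)
    (h1 : κ * NN d k ≤ ((Fz b f).card : ℝ)) (h2 : (Fz (!b) f).card ≤ (Fz b f).card)
    (h3 : ((Bd b f).card : ℝ) ≤ κ * NN d k / 8) :
    ∃ G A : Finset (Site d k), A ⊆ Fz b f ∧ (∀ v ∈ A, ∃ σ : Stp d, v + sv σ ∈ G) ∧
      κ * NN d k / 2 ≤ (A.card : ℝ) ∧
      (G.card : ℝ) * ⌊(q : ℝ) * (4 : ℝ) ^ (-ra d q) / 12⌋₊ ≤ 4 * A.card := by
  classical
  have _ := hd
  have _ := hf
  have hNN : 0 < NN d k := by
    unfold NN
    positivity
  set t : ℝ := (q : ℝ) * (4 : ℝ) ^ (-ra d q) with ht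
  set B : ℕ := ⌊t / 12⌋₊ with hB
  have ht12 : 12 ≤ t := by linarith
  have hB1 : 1 ≤ B := by
    rw [hB]
    refine Nat.le_floor ?_
    push_cast
    linarith
  have hBt : (B : ℝ) ≤ t / 12 := Nat.floor_le (by linarith)
  have hFz : (0 : ℝ) < (Fz b f).card := lt_of_lt_of_le (by positivity) h1
  -- the set `F'`
  set F' := Fz b f \ Bd b f with hF'
  have hF'c : 7 / 8 * ((Fz b f).card : ℝ) ≤ F'.card := by
    have h4 : ((Fz b f).card : ℝ) ≤ F'.card + (Bd b f).card := by
      have h5 : (Fz b f).card ≤ F'.card + (Bd b f).card := by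
        rw [hF']
        have := card_le_card_sdiff_add_card (s := Fz b f) (t := Bd b f)
        omega
      exact_mod_cast h5
    linarith
  have hF'0 : 0 < F'.card := by
    have : (0 : ℝ) < F'.card := lt_of_lt_of_le (by positivity) hF'c
    exact_mod_cast this
  -- frozen neighbours
  set T : Site d k → Finset (Site d k) := fun v =>
    (univ.filter fun σ : Stp d => av f (v + sv σ) = 1).image (fun σ => v + sv σ) with hT
  have hTc : ∀ v ∈ F', 3 * B ≤ (T v).card := by
    intro v hv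
    rw [hF', Finset.mem_sdiff] at hv
    have hv1 : v ∈ cls b d k ∧ av f v = 1 := by
      have := hv.1
      unfold Fz at this
      exact mem_filter.1 this
    have hv2 : t / 2 ≤ (Vn f v : ℝ) := by
      by_contra hcon
      push Not at hcon
      refine hv.2 ?_
      unfold Bd
      rw [mem_filter]
      exact ⟨hv1.1, hcon⟩
    have h5 := Vn_le f v
    rw [hv1.2] at h5
    have h6 : (T v).card = (univ.filter fun σ : Stp d => av f (v + sv σ) = 1).card := by
      rw [hT]
      refine card_image_of_injective _ ?_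
      intro σ τ hστ
      exact sv_inj hk (add_left_cancel hστ)
    have h7 : (3 * B : ℝ) ≤ (T v).card := by
      rw [h6]
      push_cast at h5
      linarith
    exact_mod_cast h7
  obtain ⟨R, hR1, hR2⟩ := S3_abs B hB1 F' (Fz (!b) f) T hTc ((Fz b f).card : ℝ) (by exact_mod_cast h2) hFz hF'0
  refine ⟨Fz (!b) f ∩ R, F'.filter fun v => ¬ ∀ x ∈ T v, x ∉ R, ?_, ?_, ?_, ?_⟩
  · intro v hv
    have := (mem_filter.1 hv).1
    rw [hF', Finset.mem_sdiff] at this
    exact this.1
  · intro v hv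
    rw [mem_filter] at hv
    obtain ⟨hv1, hv2⟩ := hv
    push Not at hv2
    obtain ⟨x, hx, hxR⟩ := hv2
    rw [hT] at hx
    obtain ⟨σ, hσ, rfl⟩ := mem_image.1 hx
    refine ⟨σ, mem_inter.2 ⟨?_, hxR⟩⟩
    have hvc : v ∈ cls b d k := by
      rw [hF', Finset.mem_sdiff] at hv1
      have := hv1.1
      unfold Fz at this
      exact (mem_filter.1 this).1
    unfold Fz
    rw [mem_filter]
    exact ⟨S3_step (by omega) b hvc σ, (mem_filter.1 hσ).2⟩
  all_goals
    have hA : (F'.card : ℝ) = ((F'.filter fun v => ∀ x ∈ T v, x ∉ R).card : ℝ) +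
        ((F'.filter fun v => ¬ ∀ x ∈ T v, x ∉ R).card : ℝ) := by
      have h8 := card_filter_add_card_filter_not (s := F') (fun v => ∀ x ∈ T v, x ∉ R)
      exact_mod_cast h8.symm
    have hA2 : ((Fz b f).card : ℝ) / 2 ≤ ((F'.filter fun v => ¬ ∀ x ∈ T v, x ∉ R).card : ℝ) := by
      linarith
  · linarith
  · linarith

end Pool.Agent.THR

end

/-! ### from `Lib_MP_2c424f_thr.R4` -/

section

/-!
# THR R4: edge chessboard with fat spins (paper proof: R5)

`X = Yf i j k → Fin q`; the fat spin of `f` at the plane position `(x,y)` is `fat i j f x y = fun u => f (stt i j x y u)`.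
`f ↦ fat` is a bijection with the functions `ZMod (2^k) × ZMod (2^k) → X` (see `E6a1_e` in LIN).
`K0 α β = 1[α, β proper in the fibre directions, α u ≠ β u for all u]` (symmetric).
`f` is proper iff `∏ over plane edges of K0 = 1` (otherwise the product is `0`).
Kernels: for `σ = (i,true)`: `Kh x y = K0 exp (Y x y)` for `x+y` even, `K0` for odd, `Kv = K0`.  `σ = (i,false)`:
`Kh x y α β = K0 exp (Y (x+1) y β α)` for `x+y` odd (then `(x+1,y)` is even), `K0` otherwise.  Similarly for `j`.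
So `Zg k Kh Kv = ∑_{f ∈ prps} exp (∑_{P even} Y_P (f_P) (f_{P+σ}))`, and `LIN.two_dim` gives the claim with
`Zh k K0 = Z`, `Zh k (K0 exp (Y_P)) = Zh k (transposed)` (`LIN.Zh_tr`)
`= ∑_{f ∈ prps} exp (∑_{P' even} ∑_{σ' ∈ pl} Y_P (f_{P'}) (f_{P'+σ'}))` (every plane edge has exactly one even end).
There are `(2^k)²/2` even positions: each of them contributes one factor, the other `2 (2^k)² - (2^k)²/2` factors are `Z`.
-/

set_option autoImplicit false

open Finset Filter

namespace Pool.Agent.THR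

open Pool.Agent.LO Pool.Agent.LIN

variable {d k q : ℕ}

/-- the fat spin at a plane position -/
def fat (i j : Fin d) (f : Site d k → Fin q) (x y : ZMod (2 ^ k)) : Yf i j k → Fin q := fun u => f (stt i j x y u.1)

/-- step in the plane: new plane position -/
def plx (i : Fin d) (σ : Stp d) (x : ZMod (2 ^ k)) : ZMod (2 ^ k) := x + (sv σ : Site d k) i

open scoped Classical in
/-- even plane positions -/
noncomputable def evp (k : ℕ) : Finset (ZMod (2 ^ k) × ZMod (2 ^ k)) := univ.filter fun p => Even (p.1.val + p.2.val)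

/-- the sum over the edges from even plane positions in the direction `σ` -/
noncomputable def EY (i j : Fin d) (σ : Stp d) (Y : (Yf i j k → Fin q) → (Yf i j k → Fin q) → ℝ)
    (f : Site d k → Fin q) (p : ZMod (2 ^ k) × ZMod (2 ^ k)) : ℝ :=
  Y (fat i j f p.1 p.2) (fat i j f (plx i σ p.1) (plx j σ p.2))

/-! ### coordinates -/

private theorem R4_stt_i (i j : Fin d) (hij : i ≠ j) (x y : ZMod (2 ^ k)) (u : Site d k) :
    stt i j x y u i = x := by
  unfold stt
  rw [Function.update_of_ne hij, Function.update_self]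

private theorem R4_stt_j (i j : Fin d) (x y : ZMod (2 ^ k)) (u : Site d k) :
    stt i j x y u j = y := by
  unfold stt
  rw [Function.update_self]

private theorem R4_stt_l (i j l : Fin d) (hi : l ≠ i) (hj : l ≠ j) (x y : ZMod (2 ^ k))
    (u : Site d k) : stt i j x y u l = u l := by
  unfold stt
  rw [Function.update_of_ne hj, Function.update_of_ne hi]

/-- the bijection of the sites with plane positions and fibre sites -/
private def R4_e (i j : Fin d) (hij : i ≠ j) :
    (ZMod (2 ^ k) × ZMod (2 ^ k)) × Yf i j k ≃ Site d k where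
  toFun q := stt i j q.1.1 q.1.2 q.2.1
  invFun s := ((s i, s j), ⟨stt i j 0 0 s, R4_stt_i i j hij 0 0 s, R4_stt_j i j 0 0 s⟩)
  left_inv := by
    rintro ⟨⟨x, y⟩, ⟨u, hu1, hu2⟩⟩
    refine Prod.ext (Prod.ext ?_ ?_) (Subtype.ext ?_)
    · exact R4_stt_i i j hij x y u
    · exact R4_stt_j i j x y u
    · funext l
      change stt i j 0 0 (stt i j x y u) l = u l
      by_cases hj : l = j
      · subst hj; rw [R4_stt_j, hu2]
      · by_cases hi : l = i
        · subst hi; rw [R4_stt_i l j hij, hu1]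
        · rw [R4_stt_l i j l hi hj, R4_stt_l i j l hi hj]
  right_inv := by
    intro s
    funext l
    change stt i j (s i) (s j) (stt i j 0 0 s) l = s l
    by_cases hj : l = j
    · subst hj; rw [R4_stt_j]
    · by_cases hi : l = i
      · subst hi; rw [R4_stt_i l j hij]
      · rw [R4_stt_l i j l hi hj, R4_stt_l i j l hi hj]

private theorem R4_add_i (i j : Fin d) (hij : i ≠ j) (x y : ZMod (2 ^ k)) (u : Site d k) :
    stt i j x y u + sv (i, true) = stt i j (x + 1) y u := by
  funext l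
  rw [Pi.add_apply]
  unfold sv
  by_cases hi : l = i
  · subst hi; rw [R4_stt_i l j hij, R4_stt_i l j hij]; simp
  · simp only [if_true]
    rw [Pi.single_eq_of_ne hi, add_zero]
    by_cases hj : l = j
    · subst hj; rw [R4_stt_j, R4_stt_j]
    · rw [R4_stt_l i j l hi hj, R4_stt_l i j l hi hj]

private theorem R4_add_j (i j : Fin d) (hij : i ≠ j) (x y : ZMod (2 ^ k)) (u : Site d k) :
    stt i j x y u + sv (j, true) = stt i j x (y + 1) u := by
  funext l
  rw [Pi.add_apply]
  unfold sv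
  by_cases hj : l = j
  · subst hj; rw [R4_stt_j, R4_stt_j]; simp
  · simp only [if_true]
    rw [Pi.single_eq_of_ne hj, add_zero]
    by_cases hi : l = i
    · subst hi; rw [R4_stt_i l j hij, R4_stt_i l j hij]
    · rw [R4_stt_l i j l hi hj, R4_stt_l i j l hi hj]

private theorem R4_add_l (i j : Fin d) (l : Fin d) (h : l ≠ i ∧ l ≠ j)
    (x y : ZMod (2 ^ k)) (u : Yf i j k) :
    stt i j x y u.1 + sv (l, true) = stt i j x y (shf i j l u).1 := by
  funext m
  rw [Pi.add_apply]
  unfold shf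
  rw [dif_pos h]
  unfold sv
  simp only [if_true]
  by_cases hj : m = j
  · subst hj; rw [R4_stt_j, R4_stt_j, Pi.single_eq_of_ne h.2.symm, add_zero]
  · by_cases hi : m = i
    · subst hi
      unfold stt
      rw [Function.update_of_ne hj, Function.update_self, Function.update_of_ne hj, Function.update_self,
        Pi.single_eq_of_ne h.1.symm, add_zero]
    · rw [R4_stt_l i j m hi hj, R4_stt_l i j m hi hj, Pi.add_apply]

/-! ### the hard-core kernel -/

/-- proper in the fibre directions -/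
private def R4_pr (i j : Fin d) (α : Yf i j k → Fin q) : Prop :=
  ∀ (u : Yf i j k) (l : Fin d), l ≠ i ∧ l ≠ j → α (shf i j l u) ≠ α u

open scoped Classical in
/-- the kernel of proper colourings -/
private noncomputable def R4_K (i j : Fin d) (α β : Yf i j k → Fin q) : ℝ :=
  if R4_pr i j α ∧ R4_pr i j β ∧ ∀ u, α u ≠ β u then 1 else 0

private theorem R4_K_symm (i j : Fin d) (α β : Yf i j k → Fin q) : R4_K i j α β = R4_K i j β α := by
  unfold R4_K
  congr 1
  refine propext ⟨fun h => ⟨h.2.1, h.1, fun u => (h.2.2 u).symm⟩, fun h => ⟨h.2.1, h.1, fun u => (h.2.2 u).symm⟩⟩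

private theorem R4_K_nonneg (i j : Fin d) (α β : Yf i j k → Fin q) : 0 ≤ R4_K i j α β := by
  unfold R4_K
  split_ifs
  · exact zero_le_one
  · exact le_refl _

private theorem R4_prp (i j : Fin d) (hij : i ≠ j) (f : Site d k → Fin q) :
    Prp f ↔ ∀ p : ZMod (2 ^ k) × ZMod (2 ^ k), R4_pr i j (fat i j f p.1 p.2) ∧
      (∀ u, fat i j f p.1 p.2 u ≠ fat i j f (p.1 + 1) p.2 u) ∧
      (∀ u, fat i j f p.1 p.2 u ≠ fat i j f p.1 (p.2 + 1) u) := by
  constructor
  · intro h p
    refine ⟨fun u l hl => ?_, fun u => ?_, fun u => ?_⟩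
    · unfold fat
      rw [← R4_add_l i j l hl]
      exact h _ _
    · unfold fat
      rw [← R4_add_i i j hij]
      exact (h _ _).symm
    · unfold fat
      rw [← R4_add_j i j hij]
      exact (h _ _).symm
  · intro h
    have key : ∀ (x : Site d k) (l : Fin d), f (x + sv (l, true)) ≠ f x := by
      intro x l
      obtain ⟨⟨p, u⟩, rfl⟩ := (R4_e i j hij).surjective x
      change f (stt i j p.1 p.2 u.1 + sv (l, true)) ≠ f (stt i j p.1 p.2 u.1)
      by_cases hi : l = i
      · subst hi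
        rw [R4_add_i l j hij]
        exact ((h p).2.1 u).symm
      · by_cases hj : l = j
        · subst hj
          rw [R4_add_j i l hij]
          exact ((h p).2.2 u).symm
        · rw [R4_add_l i j l ⟨hi, hj⟩]
          exact (h p).1 u l ⟨hi, hj⟩
    rintro x ⟨l, b⟩
    cases b
    · have h2 := key (x + sv (l, false)) l
      have h3 : x + sv (l, false) + sv (l, true) = x := by
        rw [add_assoc]
        have := sv_opp (k := k) l false
        rw [Bool.not_false] at this
        rw [this, add_zero]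
      rw [h3] at h2
      exact h2.symm
    · exact key x l

open scoped Classical in
private theorem R4_prod (i j : Fin d) (hij : i ≠ j) (f : Site d k → Fin q) :
    ∏ p : ZMod (2 ^ k) × ZMod (2 ^ k), (R4_K i j (fat i j f p.1 p.2) (fat i j f (p.1 + 1) p.2) *
      R4_K i j (fat i j f p.1 p.2) (fat i j f p.1 (p.2 + 1))) = if Prp f then 1 else 0 := by
  by_cases h : Prp f
  · rw [if_pos h]
    rw [R4_prp i j hij] at h
    refine prod_eq_one fun p _ => ?_
    have h1 := h p
    have h2 := h (p.1 + 1, p.2)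
    have h3 := h (p.1, p.2 + 1)
    unfold R4_K
    rw [if_pos ⟨h1.1, h2.1, h1.2.1⟩, if_pos ⟨h1.1, h3.1, h1.2.2⟩, one_mul]
  · rw [if_neg h]
    rw [R4_prp i j hij, not_forall] at h
    obtain ⟨p, hp⟩ := h
    refine prod_eq_zero (mem_univ p) ?_
    by_contra hc
    apply hp
    rw [mul_eq_zero, not_or] at hc
    unfold R4_K at hc
    obtain ⟨hc1, hc2⟩ := hc
    rw [ite_eq_right_iff, Classical.not_imp] at hc1 hc2
    exact ⟨hc1.1.1, hc1.1.2.2, hc2.1.2.2⟩

/-! ### the partition function of the model with fat spins -/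

open scoped Classical in
private theorem R4_Zg (i j : Fin d) (hij : i ≠ j)
    (a b : ZMod (2 ^ k) → ZMod (2 ^ k) → (Yf i j k → Fin q) → (Yf i j k → Fin q) → ℝ) :
    Zg k (fun x y α β => R4_K i j α β * Real.exp (a x y α β)) (fun x y α β => R4_K i j α β * Real.exp (b x y α β)) =
      ∑ f ∈ prps d k q, Real.exp (∑ p : ZMod (2 ^ k) × ZMod (2 ^ k),
        (a p.1 p.2 (fat i j f p.1 p.2) (fat i j f (p.1 + 1) p.2) +
          b p.1 p.2 (fat i j f p.1 p.2) (fat i j f p.1 (p.2 + 1)))) := by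
  unfold Zg
  let E : (Site d k → Fin q) ≃ (ZMod (2 ^ k) × ZMod (2 ^ k) → Yf i j k → Fin q) :=
    ((R4_e i j hij).symm.arrowCongr (Equiv.refl (Fin q))).trans (Equiv.curry _ _ _)
  rw [← E.sum_comp]
  unfold prps
  rw [sum_filter]
  refine sum_congr rfl fun f _ => ?_
  have hE : ∀ p : ZMod (2 ^ k) × ZMod (2 ^ k), E f p = fat i j f p.1 p.2 := fun p => rfl
  have h1 : ∏ p : ZMod (2 ^ k) × ZMod (2 ^ k),
      (R4_K i j (E f p) (E f (p.1 + 1, p.2)) * Real.exp (a p.1 p.2 (E f p) (E f (p.1 + 1, p.2)))) *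
        (R4_K i j (E f p) (E f (p.1, p.2 + 1)) * Real.exp (b p.1 p.2 (E f p) (E f (p.1, p.2 + 1)))) =
      (∏ p : ZMod (2 ^ k) × ZMod (2 ^ k), (R4_K i j (fat i j f p.1 p.2) (fat i j f (p.1 + 1) p.2) *
        R4_K i j (fat i j f p.1 p.2) (fat i j f p.1 (p.2 + 1)))) *
      Real.exp (∑ p : ZMod (2 ^ k) × ZMod (2 ^ k),
        (a p.1 p.2 (fat i j f p.1 p.2) (fat i j f (p.1 + 1) p.2) +
          b p.1 p.2 (fat i j f p.1 p.2) (fat i j f p.1 (p.2 + 1)))) := by
    rw [Real.exp_sum, ← prod_mul_distrib]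
    refine prod_congr rfl fun p _ => ?_
    rw [hE, hE, hE, Real.exp_add]
    ring
  rw [h1, R4_prod i j hij f]
  split_ifs
  · rw [one_mul]
  · rw [zero_mul]

/-! ### parity of plane positions, shifts -/

private theorem R4_par (hk : 1 ≤ k) (x y : ZMod (2 ^ k)) :
    Even ((x + 1).val + y.val) ↔ ¬ Even (x.val + y.val) := by
  have h0 : 1 < 2 ^ k := Nat.one_lt_two_pow (by omega)
  have : Fact (1 < 2 ^ k) := ⟨h0⟩
  have h1 : (1 : ZMod (2 ^ k)).val = 1 := ZMod.val_one _
  have h2 : Even (2 ^ k) := (Nat.even_pow.2 ⟨even_two, by omega⟩)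
  have h3 : x.val < 2 ^ k := ZMod.val_lt x
  rw [ZMod.val_add, h1]
  rcases Nat.lt_or_ge (x.val + 1) (2 ^ k) with h | h
  · rw [Nat.mod_eq_of_lt h]
    rw [show x.val + 1 + y.val = (x.val + y.val) + 1 by ring, Nat.even_add_one]
  · have he : x.val + 1 = 2 ^ k := by omega
    rw [he, Nat.mod_self, Nat.zero_add]
    rw [← he] at h2
    rw [Nat.even_add_one] at h2
    rw [Nat.even_add]
    tauto

private theorem R4_par' (hk : 1 ≤ k) (x y : ZMod (2 ^ k)) :
    Even (x.val + (y + 1).val) ↔ ¬ Even (x.val + y.val) := by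
  rw [add_comm, R4_par hk, add_comm]

private theorem R4_sh1 {β : Type*} [CommMonoid β] (G : ZMod (2 ^ k) × ZMod (2 ^ k) → β) :
    ∏ p : ZMod (2 ^ k) × ZMod (2 ^ k), G (p.1 + 1, p.2) = ∏ p, G p :=
  ((Equiv.addRight (1 : ZMod (2 ^ k))).prodCongr (Equiv.refl _)).prod_comp G

private theorem R4_sh2 {β : Type*} [CommMonoid β] (G : ZMod (2 ^ k) × ZMod (2 ^ k) → β) :
    ∏ p : ZMod (2 ^ k) × ZMod (2 ^ k), G (p.1, p.2 + 1) = ∏ p, G p :=
  ((Equiv.refl _).prodCongr (Equiv.addRight (1 : ZMod (2 ^ k)))).prod_comp G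

private theorem R4_sh1s (G : ZMod (2 ^ k) × ZMod (2 ^ k) → ℝ) :
    ∑ p : ZMod (2 ^ k) × ZMod (2 ^ k), G (p.1 + 1, p.2) = ∑ p, G p :=
  ((Equiv.addRight (1 : ZMod (2 ^ k))).prodCongr (Equiv.refl _)).sum_comp G

private theorem R4_sh2s (G : ZMod (2 ^ k) × ZMod (2 ^ k) → ℝ) :
    ∑ p : ZMod (2 ^ k) × ZMod (2 ^ k), G (p.1, p.2 + 1) = ∑ p, G p :=
  ((Equiv.refl _).prodCongr (Equiv.addRight (1 : ZMod (2 ^ k)))).sum_comp G

open scoped Classical in
private theorem R4_ev (G : ZMod (2 ^ k) × ZMod (2 ^ k) → ℝ) :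
    ∑ p : ZMod (2 ^ k) × ZMod (2 ^ k), (if Even (p.1.val + p.2.val) then G p else 0) = ∑ p ∈ evp k, G p := by
  unfold evp
  rw [sum_filter]

open scoped Classical in
private theorem R4_od1 (hk : 1 ≤ k) (G : ZMod (2 ^ k) × ZMod (2 ^ k) → ℝ) :
    ∑ p : ZMod (2 ^ k) × ZMod (2 ^ k), (if Even (p.1.val + p.2.val) then 0 else G (p.1 + 1, p.2)) =
      ∑ p ∈ evp k, G p := by
  rw [← R4_ev, ← R4_sh1s (fun p => if Even (p.1.val + p.2.val) then G p else 0)]
  refine sum_congr rfl fun p _ => ?_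
  dsimp only
  by_cases h : Even (p.1.val + p.2.val)
  · rw [if_pos h, if_neg (by rw [R4_par hk]; exact not_not.2 h)]
  · rw [if_neg h, if_pos ((R4_par hk _ _).2 h)]

open scoped Classical in
private theorem R4_od2 (hk : 1 ≤ k) (G : ZMod (2 ^ k) × ZMod (2 ^ k) → ℝ) :
    ∑ p : ZMod (2 ^ k) × ZMod (2 ^ k), (if Even (p.1.val + p.2.val) then 0 else G (p.1, p.2 + 1)) =
      ∑ p ∈ evp k, G p := by
  rw [← R4_ev, ← R4_sh2s (fun p => if Even (p.1.val + p.2.val) then G p else 0)]
  refine sum_congr rfl fun p _ => ?_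
  dsimp only
  by_cases h : Even (p.1.val + p.2.val)
  · rw [if_pos h, if_neg (by rw [R4_par' hk]; exact not_not.2 h)]
  · rw [if_neg h, if_pos ((R4_par' hk _ _).2 h)]

private theorem R4_pl (i j : Fin d) (hij : i ≠ j) (g : Stp d → ℝ) :
    ∑ τ ∈ pl i j, g τ = g (i, true) + g (i, false) + (g (j, true) + g (j, false)) := by
  classical
  have h : pl i j = {(i, true), (i, false), (j, true), (j, false)} := by
    ext ⟨l, b⟩
    unfold pl
    cases b <;> simp
  rw [h, sum_insert, sum_insert, sum_insert, sum_singleton]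
  · ring
  · simp
  · simp [hij]
  · simp [hij]

private theorem R4_plx_t (i : Fin d) (x : ZMod (2 ^ k)) : plx i (i, true) x = x + 1 := by
  simp [plx, sv]

private theorem R4_plx_f (i : Fin d) (x : ZMod (2 ^ k)) : plx i (i, false) x = x - 1 := by
  simp [plx, sv, sub_eq_add_neg]

private theorem R4_plx_o (i j : Fin d) (hij : i ≠ j) (b : Bool) (x : ZMod (2 ^ k)) : plx i (j, b) x = x := by
  simp [plx, sv, Pi.single_eq_of_ne hij]

/-! ### the homogeneous model -/

open scoped Classical in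
private theorem R4_Zh (hk : 1 ≤ k) (i j : Fin d) (hij : i ≠ j)
    (Y : (Yf i j k → Fin q) → (Yf i j k → Fin q) → ℝ) :
    Zh k (fun α β => R4_K i j α β * Real.exp (Y α β)) =
      ∑ f ∈ prps d k q, Real.exp (∑ p ∈ evp k, ∑ τ ∈ pl i j, EY i j τ Y f p) := by
  have h0 : ori k (fun α β : Yf i j k → Fin q => R4_K i j α β * Real.exp (Y α β)) =
      fun x y α β => R4_K i j α β * Real.exp (if Even (x.val + y.val) then Y α β else Y β α) := by
    funext x y α β
    unfold ori
    split_ifs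
    · rfl
    · dsimp only
      rw [R4_K_symm]
  unfold Zh
  rw [h0, R4_Zg i j hij]
  refine sum_congr rfl fun f _ => ?_
  congr 1
  rw [sum_add_distrib]
  have e1 : ∑ p : ZMod (2 ^ k) × ZMod (2 ^ k), (if Even (p.1.val + p.2.val) then
      Y (fat i j f p.1 p.2) (fat i j f (p.1 + 1) p.2) else Y (fat i j f (p.1 + 1) p.2) (fat i j f p.1 p.2)) =
      ∑ p ∈ evp k, EY i j (i, true) Y f p + ∑ p ∈ evp k, EY i j (i, false) Y f p := by
    rw [← R4_ev, ← R4_od1 hk, ← sum_add_distrib]
    refine sum_congr rfl fun p _ => ?_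
    unfold EY
    rw [R4_plx_t, R4_plx_o j i hij.symm, R4_plx_f, R4_plx_o j i hij.symm]
    split_ifs
    · rw [add_zero]
    · rw [zero_add, add_sub_cancel_right]
  have e2 : ∑ p : ZMod (2 ^ k) × ZMod (2 ^ k), (if Even (p.1.val + p.2.val) then
      Y (fat i j f p.1 p.2) (fat i j f p.1 (p.2 + 1)) else Y (fat i j f p.1 (p.2 + 1)) (fat i j f p.1 p.2)) =
      ∑ p ∈ evp k, EY i j (j, true) Y f p + ∑ p ∈ evp k, EY i j (j, false) Y f p := by
    rw [← R4_ev, ← R4_od2 hk, ← sum_add_distrib]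
    refine sum_congr rfl fun p _ => ?_
    unfold EY
    rw [R4_plx_t, R4_plx_o i j hij, R4_plx_f, R4_plx_o i j hij]
    split_ifs
    · rw [add_zero]
    · rw [zero_add, add_sub_cancel_right]
  rw [e1, e2, ← sum_add_distrib, ← sum_add_distrib, ← sum_add_distrib]
  refine sum_congr rfl fun p _ => ?_
  rw [R4_pl i j hij]

private theorem R4_Zh0 (hk : 1 ≤ k) (i j : Fin d) (hij : i ≠ j) :
    Zh k (fun α β : Yf i j k → Fin q => R4_K i j α β * Real.exp 0) = ZZ d k q := by
  rw [R4_Zh hk i j hij (fun _ _ => 0)]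
  have h : ∀ f : Site d k → Fin q,
      Real.exp (∑ p ∈ evp k, ∑ τ ∈ pl i j, EY i j τ (fun _ _ => (0 : ℝ)) f p) = 1 := by
    intro f
    have h1 : ∑ p ∈ evp k, ∑ τ ∈ pl i j, EY i j τ (fun _ _ => (0 : ℝ)) f p = 0 :=
      sum_eq_zero fun p _ => sum_eq_zero fun τ _ => rfl
    rw [h1, Real.exp_zero]
  rw [sum_congr rfl fun f _ => h f, sum_const, nsmul_eq_mul, mul_one]
  rfl

/-- the product of the homogeneous factors -/
private theorem R4_fin (Z : ℝ) (Q : ZMod (2 ^ k) × ZMod (2 ^ k) → ℝ) :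
    (∏ p : ZMod (2 ^ k) × ZMod (2 ^ k), (if Even (p.1.val + p.2.val) then Q p else Z)) *
      ∏ _p : ZMod (2 ^ k) × ZMod (2 ^ k), Z = Z ^ (2 * (2 ^ k) ^ 2 - (evp k).card) * ∏ p ∈ evp k, Q p := by
  classical
  have hc : Fintype.card (ZMod (2 ^ k) × ZMod (2 ^ k)) = (2 ^ k) ^ 2 := by
    rw [Fintype.card_prod, ZMod.card, sq]
  rw [prod_ite, prod_const, prod_const]
  have h1 : (univ.filter fun p : ZMod (2 ^ k) × ZMod (2 ^ k) => Even (p.1.val + p.2.val)) = evp k := by
    unfold evp
    exact filter_congr_decidable _ _ _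
  have h2 : (univ.filter fun p : ZMod (2 ^ k) × ZMod (2 ^ k) => ¬ Even (p.1.val + p.2.val)).card =
      (2 ^ k) ^ 2 - (evp k).card := by
    rw [← h1, ← hc, ← Finset.card_univ]
    have := Finset.card_filter_add_card_filter_not (s := (univ : Finset (ZMod (2 ^ k) × ZMod (2 ^ k))))
      (fun p : ZMod (2 ^ k) × ZMod (2 ^ k) => Even (p.1.val + p.2.val))
    omega
  have h3 : (evp k).card ≤ (2 ^ k) ^ 2 := by
    rw [← hc, ← Finset.card_univ]
    exact card_le_card (subset_univ _)
  rw [h1, h2, Finset.card_univ, hc, mul_assoc, ← pow_add, mul_comm]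
  congr 2
  omega

theorem fat_chess (hk : 1 ≤ k) (i j : Fin d) (hij : i ≠ j) (σ : Stp d) (hσ : σ ∈ pl i j)
    (Y : ZMod (2 ^ k) × ZMod (2 ^ k) → (Yf i j k → Fin q) → (Yf i j k → Fin q) → ℝ) :
    (∑ f ∈ prps d k q, Real.exp (∑ p ∈ evp k, EY i j σ (Y p) f p)) ^ (2 * (2 ^ k) ^ 2) ≤
      ((q : ℝ) ^ Fintype.card (Yf i j k)) ^ ((2 ^ k) ^ 3) * ZZ d k q ^ (2 * (2 ^ k) ^ 2 - (evp k).card) *
        ∏ p ∈ evp k, ∑ f ∈ prps d k q, Real.exp (∑ p' ∈ evp k, ∑ τ ∈ pl i j, EY i j τ (Y p) f p') := by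
  classical
  set K := R4_K (q := q) (k := k) i j with hK
  have hK0 : ∀ α β, 0 ≤ K α β := R4_K_nonneg i j
  obtain ⟨Q, hQ⟩ : ∃ Q : ZMod (2 ^ k) × ZMod (2 ^ k) → ℝ, ∀ p, Q p =
      ∑ f ∈ prps d k q, Real.exp (∑ p' ∈ evp k, ∑ τ ∈ pl i j, EY i j τ (Y p) f p') := ⟨_, fun _ => rfl⟩
  rw [prod_congr rfl fun p _ => (hQ p).symm]
  have hZh : ∀ p, Zh k (fun α β => K α β * Real.exp (Y p α β)) = Q p := fun p => by
    rw [hQ, hK, R4_Zh hk i j hij]
  have hZt : ∀ p, Zh k (fun α β => K α β * Real.exp (Y p β α)) = Q p := fun p => by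
    rw [← hZh, ← Zh_tr k hk fun α β => K α β * Real.exp (Y p α β)]
    congr 1
    funext α β
    rw [hK, R4_K_symm]
  have hZ0 : Zh k (fun α β : Yf i j k → Fin q => K α β * Real.exp 0) = ZZ d k q := R4_Zh0 hk i j hij
  have hX : (Fintype.card (Yf i j k → Fin q) : ℝ) = (q : ℝ) ^ Fintype.card (Yf i j k) := by
    rw [Fintype.card_fun, Fintype.card_fin, Nat.cast_pow]
  -- the inequality for given exponents
  have main : ∀ a b : ZMod (2 ^ k) → ZMod (2 ^ k) → (Yf i j k → Fin q) → (Yf i j k → Fin q) → ℝ,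
      (∀ f ∈ prps d k q, ∑ p : ZMod (2 ^ k) × ZMod (2 ^ k),
        (a p.1 p.2 (fat i j f p.1 p.2) (fat i j f (p.1 + 1) p.2) +
          b p.1 p.2 (fat i j f p.1 p.2) (fat i j f p.1 (p.2 + 1))) = ∑ p ∈ evp k, EY i j σ (Y p) f p) →
      (∏ p : ZMod (2 ^ k) × ZMod (2 ^ k), Zh k (fun α β => K α β * Real.exp (a p.1 p.2 α β))) *
        (∏ p : ZMod (2 ^ k) × ZMod (2 ^ k), Zh k (fun α β => K α β * Real.exp (b p.1 p.2 α β))) =
        ZZ d k q ^ (2 * (2 ^ k) ^ 2 - (evp k).card) * ∏ p ∈ evp k, Q p →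
      (∑ f ∈ prps d k q, Real.exp (∑ p ∈ evp k, EY i j σ (Y p) f p)) ^ (2 * (2 ^ k) ^ 2) ≤
        ((q : ℝ) ^ Fintype.card (Yf i j k)) ^ ((2 ^ k) ^ 3) * ZZ d k q ^ (2 * (2 ^ k) ^ 2 - (evp k).card) *
          ∏ p ∈ evp k, Q p := by
    intro a b h1 h2
    have h3 := two_dim k hk (fun x y α β => K α β * Real.exp (a x y α β))
      (fun x y α β => K α β * Real.exp (b x y α β))
      (fun x y α β => mul_nonneg (hK0 _ _) (Real.exp_nonneg _))
      (fun x y α β => mul_nonneg (hK0 _ _) (Real.exp_nonneg _))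
    rw [hK, R4_Zg i j hij a b, ← hK, sum_congr rfl fun f hf => by rw [h1 f hf], hX] at h3
    refine h3.trans (le_of_eq ?_)
    rw [mul_assoc, ← h2, ← prod_mul_distrib, Fintype.prod_prod_type]
  have hfin := R4_fin (k := k) (ZZ d k q) Q
  have hpl : σ = (i, true) ∨ σ = (i, false) ∨ σ = (j, true) ∨ σ = (j, false) := by
    obtain ⟨l, b⟩ := σ
    unfold pl at hσ
    rw [mem_filter] at hσ
    rcases hσ.2 with h | h <;> simp only at h <;> subst h <;> cases b <;> simp
  rcases hpl with rfl | rfl | rfl | rfl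
  · refine main (fun x y α β => if Even (x.val + y.val) then Y (x, y) α β else 0) (fun _ _ _ _ => 0) ?_ ?_
    · intro f _
      rw [← R4_ev]
      refine sum_congr rfl fun p _ => ?_
      unfold EY
      rw [R4_plx_t, R4_plx_o j i hij.symm, add_zero]
    · rw [← hfin]
      congr 1
      · refine prod_congr rfl fun p _ => ?_
        by_cases h : Even (p.1.val + p.2.val)
        · simp only [if_pos h]
          exact hZh p
        · simp only [if_neg h]
          exact hZ0
      · exact prod_congr rfl fun p _ => hZ0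
  · refine main (fun x y α β => if Even (x.val + y.val) then 0 else Y (x + 1, y) β α) (fun _ _ _ _ => 0) ?_ ?_
    · intro f _
      rw [← R4_od1 hk]
      refine sum_congr rfl fun p _ => ?_
      unfold EY
      rw [R4_plx_f, R4_plx_o j i hij.symm, add_zero]
      dsimp only
      rw [add_sub_cancel_right]
    · rw [← hfin, ← R4_sh1 (fun p => if Even (p.1.val + p.2.val) then Q p else ZZ d k q)]
      congr 1
      · refine prod_congr rfl fun p _ => ?_
        by_cases h : Even (p.1.val + p.2.val)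
        · simp only [if_pos h]
          rw [if_neg (by rw [R4_par hk]; exact not_not.2 h)]
          exact hZ0
        · simp only [if_neg h]
          rw [if_pos ((R4_par hk _ _).2 h)]
          exact hZt _
      · exact prod_congr rfl fun p _ => hZ0
  · refine main (fun _ _ _ _ => 0) (fun x y α β => if Even (x.val + y.val) then Y (x, y) α β else 0) ?_ ?_
    · intro f _
      rw [← R4_ev]
      refine sum_congr rfl fun p _ => ?_
      unfold EY
      rw [R4_plx_t, R4_plx_o i j hij, zero_add]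
    · rw [← hfin, mul_comm]
      congr 1
      · refine prod_congr rfl fun p _ => ?_
        by_cases h : Even (p.1.val + p.2.val)
        · simp only [if_pos h]
          exact hZh p
        · simp only [if_neg h]
          exact hZ0
      · exact prod_congr rfl fun p _ => hZ0
  · refine main (fun _ _ _ _ => 0) (fun x y α β => if Even (x.val + y.val) then 0 else Y (x, y + 1) β α) ?_ ?_
    · intro f _
      rw [← R4_od2 hk]
      refine sum_congr rfl fun p _ => ?_
      unfold EY
      rw [R4_plx_f, R4_plx_o i j hij, zero_add]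
      dsimp only
      rw [add_sub_cancel_right]
    · rw [← hfin, ← R4_sh2 (fun p => if Even (p.1.val + p.2.val) then Q p else ZZ d k q), mul_comm]
      congr 1
      · refine prod_congr rfl fun p _ => ?_
        by_cases h : Even (p.1.val + p.2.val)
        · simp only [if_pos h]
          rw [if_neg (by rw [R4_par' hk]; exact not_not.2 h)]
          exact hZ0
        · simp only [if_neg h]
          rw [if_pos ((R4_par' hk _ _).2 h)]
          exact hZt _
      · exact prod_congr rfl fun p _ => hZ0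

end Pool.Agent.THR

end

/-! ### from `Lib_MP_2c424f_thr.R5` -/

section

/-!
# THR R5: exponential moments of `∑ w TF` (paper proof: R6, first half)

`fat_chess` with `Y p α β = l ∑_{u : Yf, stt p u ∈ cls b} w (stt p u) (VF(ext α) u ((1/q) sg β u + aF(ext α) u/(4q) sg α u))`, where
`ext α x = α (x with the coordinates i, j set to 0)`; by `VF_fat` (and `VF_transl`, or directly) the weights at `stt i j p.1 p.2 u` of a colouring `f` with
fat spin `α` at `p` are those of `ext α`.  Then `EY i j σ (Y p) f p = l ∑_{u over p} w_u TF_u`, and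
`∑_{τ ∈ pl} EY i j τ (Y p) f p' = l ∑_{v over p', v ∈ cls b} w (stt p v) GF_v` (`TF_sum`).
A site `v` over an even position `p'` and the site `stt i j p.1 p.2 v` over the even position `p` are in the same class.
-/

set_option autoImplicit false

open Finset Filter

namespace Pool.Agent.THR

open Pool.Agent.LO Pool.Agent.LIN

variable {d k q : ℕ}

/-! ## Coordinates -/

private theorem R5_stt_i (i j : Fin d) (hij : i ≠ j) (x y : ZMod (2 ^ k)) (u : Site d k) :
    stt i j x y u i = x := by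
  unfold stt
  rw [Function.update_of_ne hij, Function.update_self]

private theorem R5_stt_j (i j : Fin d) (x y : ZMod (2 ^ k)) (u : Site d k) :
    stt i j x y u j = y := by
  unfold stt
  rw [Function.update_self]

private theorem R5_stt_l (i j l : Fin d) (hi : l ≠ i) (hj : l ≠ j) (x y : ZMod (2 ^ k))
    (u : Site d k) : stt i j x y u l = u l := by
  unfold stt
  rw [Function.update_of_ne hj, Function.update_of_ne hi]

private theorem R5_stt_stt (i j : Fin d) (hij : i ≠ j) (x y x' y' : ZMod (2 ^ k)) (u : Site d k) :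
    stt i j x y (stt i j x' y' u) = stt i j x y u := by
  funext l
  by_cases hj : l = j
  · subst hj; rw [R5_stt_j, R5_stt_j]
  · by_cases hi : l = i
    · subst hi; rw [R5_stt_i l j hij, R5_stt_i l j hij]
    · rw [R5_stt_l i j l hi hj, R5_stt_l i j l hi hj, R5_stt_l i j l hi hj]

/-- the bijection -/
private def R5_e (i j : Fin d) (hij : i ≠ j) :
    (ZMod (2 ^ k) × ZMod (2 ^ k)) × Yf i j k ≃ Site d k where
  toFun q := stt i j q.1.1 q.1.2 q.2.1
  invFun s := ((s i, s j), ⟨stt i j 0 0 s, R5_stt_i i j hij 0 0 s, R5_stt_j i j 0 0 s⟩)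
  left_inv := by
    rintro ⟨⟨x, y⟩, ⟨u, hu1, hu2⟩⟩
    refine Prod.ext (Prod.ext ?_ ?_) (Subtype.ext ?_)
    · exact R5_stt_i i j hij x y u
    · exact R5_stt_j i j x y u
    · funext l
      change stt i j 0 0 (stt i j x y u) l = u l
      by_cases hj : l = j
      · subst hj; rw [R5_stt_j, hu2]
      · by_cases hi : l = i
        · subst hi; rw [R5_stt_i l j hij, hu1]
        · rw [R5_stt_l i j l hi hj, R5_stt_l i j l hi hj]
  right_inv := by
    intro s
    funext l
    change stt i j (s i) (s j) (stt i j 0 0 s) l = s l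
    by_cases hj : l = j
    · subst hj; rw [R5_stt_j]
    · by_cases hi : l = i
      · subst hi; rw [R5_stt_i l j hij]
      · rw [R5_stt_l i j l hi hj, R5_stt_l i j l hi hj]

/-- parity of a site over an even plane position -/
private theorem R5_evn (i j : Fin d) (hij : i ≠ j) (p : ZMod (2 ^ k) × ZMod (2 ^ k)) (u : Site d k)
    (hp : Even (p.1.val + p.2.val)) :
    evn (stt i j p.1 p.2 u) ↔ Even (∑ l ∈ (univ.erase i).erase j, (u l).val) := by
  classical
  have hj : j ∈ univ.erase i := mem_erase.2 ⟨hij.symm, mem_univ j⟩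
  have h : ∑ l, (stt i j p.1 p.2 u l).val =
      (p.1.val + p.2.val) + ∑ l ∈ (univ.erase i).erase j, (u l).val := by
    rw [← add_sum_erase univ _ (mem_univ i), ← add_sum_erase _ _ hj, ← add_assoc]
    congr 1
    · rw [R5_stt_i i j hij, R5_stt_j]
    · refine sum_congr rfl fun l hl => ?_
      rw [mem_erase, mem_erase] at hl
      rw [R5_stt_l i j l hl.2.1 hl.1]
  unfold evn
  rw [h, Nat.even_add]
  exact ⟨fun h => h.1 hp, fun h => ⟨fun _ => h, fun _ => hp⟩⟩

private theorem R5_cls (i j : Fin d) (hij : i ≠ j) (b : Bool) (p p' : ZMod (2 ^ k) × ZMod (2 ^ k))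
    (u : Site d k) (hp : p ∈ evp k) (hp' : p' ∈ evp k) :
    stt i j p.1 p.2 u ∈ cls b d k ↔ stt i j p'.1 p'.2 u ∈ cls b d k := by
  classical
  unfold evp at hp hp'
  rw [mem_filter] at hp hp'
  have h : evn (stt i j p.1 p.2 u) ↔ evn (stt i j p'.1 p'.2 u) := by
    rw [R5_evn i j hij p u hp.2, R5_evn i j hij p' u hp'.2]
  unfold cls
  cases b
  · simp only [Bool.false_eq_true, if_false, ods, mem_filter, mem_univ, true_and]
    rw [h]
  · simp only [if_true, evs, mem_filter, mem_univ, true_and]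
    exact h

open scoped Classical in
/-- sums over the even positions -/
private theorem R5_sum (i j : Fin d) (hij : i ≠ j) (b : Bool) (F : Site d k → ℝ) :
    ∑ v ∈ cls b d k, (if pev i j v then F v else 0) =
      ∑ p ∈ evp k, ∑ u : Yf i j k,
        if stt i j p.1 p.2 u.1 ∈ cls b d k then F (stt i j p.1 p.2 u.1) else 0 := by
  have h1 : ∑ v ∈ cls b d k, (if pev i j v then F v else 0) =
      ∑ v : Site d k, if v ∈ cls b d k then (if pev i j v then F v else 0) else 0 := by
    rw [sum_ite_mem, univ_inter]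
  rw [h1, ← (R5_e (k := k) i j hij).sum_comp, Fintype.sum_prod_type]
  unfold evp
  rw [sum_filter]
  refine sum_congr rfl fun p _ => ?_
  by_cases hp : Even (p.1.val + p.2.val)
  · rw [if_pos hp]
    refine sum_congr rfl fun u _ => ?_
    change (if stt i j p.1 p.2 u.1 ∈ cls b d k then
      (if pev i j (stt i j p.1 p.2 u.1) then F (stt i j p.1 p.2 u.1) else 0) else 0) = _
    have hpe : pev i j (stt i j p.1 p.2 u.1) := by
      unfold pev
      rw [R5_stt_i i j hij, R5_stt_j]
      exact hp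
    rw [if_pos hpe]
  · rw [if_neg hp]
    refine sum_eq_zero fun u _ => ?_
    change (if stt i j p.1 p.2 u.1 ∈ cls b d k then
      (if pev i j (stt i j p.1 p.2 u.1) then F (stt i j p.1 p.2 u.1) else 0) else 0) = _
    have hpe : ¬ pev i j (stt i j p.1 p.2 u.1) := by
      unfold pev
      rw [R5_stt_i i j hij, R5_stt_j]
      exact hp
    rw [if_neg hpe, ite_self]

private theorem R5_card (hk : 1 ≤ k) : ((evp k).card : ℝ) = (2 ^ k) ^ 2 / 2 := by
  classical
  have h1 : ∑ p : ZMod (2 ^ k) × ZMod (2 ^ k), (if Even (p.1.val + p.2.val) then (1 : ℝ) else 0) =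
      (evp k).card := by
    unfold evp
    rw [sum_ite, sum_const_zero, add_zero, sum_const, nsmul_eq_mul, mul_one]
  have h2 : ∑ p : ZMod (2 ^ k) × ZMod (2 ^ k), (if Even (p.1.val + p.2.val) then (1 : ℝ) else 0) =
      ∑ p : ZMod (2 ^ k) × ZMod (2 ^ k), (if Even (p.1.val + p.2.val) then (0 : ℝ) else 1) := by
    rw [← ((Equiv.addRight (1 : ZMod (2 ^ k))).prodCongr (Equiv.refl _)).sum_comp
      (fun p : ZMod (2 ^ k) × ZMod (2 ^ k) => if Even (p.1.val + p.2.val) then (1 : ℝ) else 0)]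
    refine sum_congr rfl fun p _ => ?_
    change (if Even ((p.1 + 1).val + p.2.val) then (1 : ℝ) else 0) = _
    have h3 : Even ((p.1 + 1).val + p.2.val) ↔ ¬ Even (p.1.val + p.2.val) := by
      rw [Nat.even_add, Nat.even_add, E7_even hk]
      tauto
    by_cases h : Even (p.1.val + p.2.val)
    · rw [if_neg (fun h' => (h3.1 h') h), if_pos h]
    · rw [if_pos (h3.2 h), if_neg h]
  have h4 : ∑ p : ZMod (2 ^ k) × ZMod (2 ^ k), (if Even (p.1.val + p.2.val) then (1 : ℝ) else 0) +
      ∑ p : ZMod (2 ^ k) × ZMod (2 ^ k), (if Even (p.1.val + p.2.val) then (0 : ℝ) else 1) =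
      (2 ^ k) ^ 2 := by
    rw [← sum_add_distrib]
    have h5 : ∀ p : ZMod (2 ^ k) × ZMod (2 ^ k), (if Even (p.1.val + p.2.val) then (1 : ℝ) else 0) +
        (if Even (p.1.val + p.2.val) then (0 : ℝ) else 1) = 1 := by
      intro p
      split_ifs <;> norm_num
    rw [sum_congr rfl fun p _ => h5 p, sum_const, card_univ, Fintype.card_prod, ZMod.card]
    simp
    ring
  rw [← h2, h1] at h4
  linarith

/-! ## Weights -/

open scoped Classical in
/-- the weights over the plane position `p`, copied to all even plane positions -/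
noncomputable def wP (i j : Fin d) (w : Site d k → ℝ) (p : ZMod (2 ^ k) × ZMod (2 ^ k)) (v : Site d k) : ℝ :=
  if pev i j v then w (stt i j p.1 p.2 v) else 0

/-- total weights -/
theorem wP_sum (hk : 1 ≤ k) (i j : Fin d) (hij : i ≠ j) (b : Bool) (w : Site d k → ℝ)
    (hw : ∀ x, ¬ pev i j x → w x = 0) :
    ∑ p ∈ evp k, Wt b (wP i j w p) = (2 ^ k) ^ 2 / 2 * Wt b w ∧ ((evp k).card : ℝ) = (2 ^ k) ^ 2 / 2 := by
  classical
  refine ⟨?_, R5_card hk⟩
  have h1 : Wt b w = ∑ p ∈ evp k, ∑ u : Yf i j k,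
        if stt i j p.1 p.2 u.1 ∈ cls b d k then |w (stt i j p.1 p.2 u.1)| else 0 := by
    rw [← R5_sum i j hij b (fun v => |w v|)]
    unfold Wt
    refine sum_congr rfl fun v _ => ?_
    by_cases hv : pev i j v
    · rw [if_pos hv]
    · rw [if_neg hv, hw v hv, abs_zero]
  have h2 : ∀ p ∈ evp k, Wt b (wP i j w p) = ((evp k).card : ℝ) * ∑ u : Yf i j k,
        if stt i j p.1 p.2 u.1 ∈ cls b d k then |w (stt i j p.1 p.2 u.1)| else 0 := by
    intro p hp
    have h3 : Wt b (wP i j w p) =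
        ∑ v ∈ cls b d k, (if pev i j v then |w (stt i j p.1 p.2 v)| else 0) := by
      unfold Wt wP
      refine sum_congr rfl fun v _ => ?_
      by_cases hv : pev i j v
      · rw [if_pos hv, if_pos hv]
      · rw [if_neg hv, if_neg hv, abs_zero]
    rw [h3, R5_sum i j hij b (fun v => |w (stt i j p.1 p.2 v)|)]
    rw [← nsmul_eq_mul, ← sum_const]
    refine sum_congr rfl fun p' hp' => sum_congr rfl fun u _ => ?_
    rw [R5_stt_stt i j hij]
    by_cases h : stt i j p.1 p.2 u.1 ∈ cls b d k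
    · rw [if_pos h, if_pos ((R5_cls i j hij b p p' u.1 hp hp').1 h)]
    · rw [if_neg h, if_neg (fun h' => h ((R5_cls i j hij b p p' u.1 hp hp').2 h'))]
  rw [sum_congr rfl h2, ← mul_sum, ← h1, R5_card hk]

/-! ## Kernels -/

/-- a fat spin, copied to all plane positions -/
private def R5_ext (i j : Fin d) (hij : i ≠ j) (α : Yf i j k → Fin q) (x : Site d k) : Fin q :=
  α ⟨stt i j 0 0 x, R5_stt_i i j hij 0 0 x, R5_stt_j i j 0 0 x⟩

open scoped Classical in
private noncomputable def R5_Y (ε l : ℝ) (i j : Fin d) (hij : i ≠ j) (c c' : Fin q) (b : Bool)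
    (w : Site d k → ℝ) (p : ZMod (2 ^ k) × ZMod (2 ^ k)) (α β : Yf i j k → Fin q) : ℝ :=
  l * ∑ u : Yf i j k, if stt i j p.1 p.2 u.1 ∈ cls b d k then
    w (stt i j p.1 p.2 u.1) * (VF ε i j c c' (R5_ext i j hij α) u.1 *
      (1 / q * sg c c' (R5_ext i j hij β) u.1 +
        (aF i j (R5_ext i j hij α) u.1 : ℝ) / (4 * q) * sg c c' (R5_ext i j hij α) u.1)) else 0

private theorem R5_ext_fat (i j : Fin d) (hij : i ≠ j) (f : Site d k → Fin q) (x y : ZMod (2 ^ k))
    (v : Site d k) : R5_ext i j hij (fat i j f x y) v = f (stt i j x y v) := by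
  unfold R5_ext fat
  rw [R5_stt_stt i j hij]

private theorem R5_add (i j : Fin d) (hij : i ≠ j) (x y : ZMod (2 ^ k)) (v : Site d k)
    (h1 : v i = 0) (h2 : v j = 0) : v + stt i j x y 0 = stt i j x y v := by
  funext l
  rw [Pi.add_apply]
  by_cases hj : l = j
  · subst hj; rw [R5_stt_j, R5_stt_j, h2, zero_add]
  · by_cases hi : l = i
    · subst hi; rw [R5_stt_i l j hij, R5_stt_i l j hij, h1, zero_add]
    · rw [R5_stt_l i j l hi hj, R5_stt_l i j l hi hj, Pi.zero_apply, add_zero]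

/-- the weights of the copied fat spin -/
private theorem R5_VF (ε : ℝ) (i j : Fin d) (hij : i ≠ j) (c c' : Fin q) (f : Site d k → Fin q)
    (x y : ZMod (2 ^ k)) (u : Yf i j k) :
    VF ε i j c c' (R5_ext i j hij (fat i j f x y)) u.1 = VF ε i j c c' f (stt i j x y u.1) ∧
      aF i j (R5_ext i j hij (fat i j f x y)) u.1 = aF i j f (stt i j x y u.1) := by
  have h1 := VF_fat ε i j c c' (R5_ext i j hij (fat i j f x y))
    (fun v => f (v + stt i j x y 0)) u.1 (by
      intro v hv1 hv2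
      rw [R5_ext_fat, R5_add i j hij x y v (by rw [hv1, u.2.1]) (by rw [hv2, u.2.2])])
  have h2 := VF_transl ε i j c c' f u.1 (stt i j x y 0)
  rw [R5_add i j hij x y u.1 u.2.1 u.2.2] at h2
  exact ⟨h1.1.trans h2.1, h1.2.trans h2.2⟩

private theorem R5_sg (i j : Fin d) (hij : i ≠ j) (c c' : Fin q) (f : Site d k → Fin q)
    (x y : ZMod (2 ^ k)) (u : Site d k) :
    sg c c' (R5_ext i j hij (fat i j f x y)) u = sg c c' f (stt i j x y u) := by
  unfold sg
  rw [R5_ext_fat]

private theorem R5_step (i j : Fin d) (hij : i ≠ j) (σ : Stp d) (hσ : σ ∈ pl i j)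
    (x y : ZMod (2 ^ k)) (u : Site d k) :
    stt i j (plx i σ x) (plx j σ y) u = stt i j x y u + sv σ := by
  unfold pl at hσ
  rw [mem_filter] at hσ
  funext l
  rw [Pi.add_apply]
  unfold plx
  by_cases hj : l = j
  · subst hj; rw [R5_stt_j, R5_stt_j]
  · by_cases hi : l = i
    · subst hi; rw [R5_stt_i l j hij, R5_stt_i l j hij]
    · rw [R5_stt_l i j l hi hj, R5_stt_l i j l hi hj]
      have h : (sv σ : Site d k) l = 0 := by
        unfold sv
        rw [Pi.single_eq_of_ne]
        rcases hσ.2 with h | h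
        · rw [h]; exact hi
        · rw [h]; exact hj
      rw [h, add_zero]

open scoped Classical in
/-- the kernel at the position `p'` -/
private theorem R5_EY (ε l : ℝ) (i j : Fin d) (hij : i ≠ j) (c c' : Fin q) (b : Bool)
    (w : Site d k → ℝ) (p p' : ZMod (2 ^ k) × ZMod (2 ^ k)) (σ : Stp d) (hσ : σ ∈ pl i j)
    (f : Site d k → Fin q) :
    EY i j σ (R5_Y ε l i j hij c c' b w p) f p' =
      l * ∑ u : Yf i j k, if stt i j p.1 p.2 u.1 ∈ cls b d k then
        w (stt i j p.1 p.2 u.1) * TF ε i j c c' σ f (stt i j p'.1 p'.2 u.1) else 0 := by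
  unfold EY R5_Y TF
  congr 1
  refine sum_congr rfl fun u _ => ?_
  rw [(R5_VF ε i j hij c c' f p'.1 p'.2 u).1, (R5_VF ε i j hij c c' f p'.1 p'.2 u).2,
    R5_sg i j hij, R5_sg i j hij, R5_step i j hij σ hσ]

theorem TF_moment (hk : 1 ≤ k) (ε l : ℝ) (i j : Fin d) (hij : i ≠ j) (c c' : Fin q) (b : Bool) (w : Site d k → ℝ)
    (hw : ∀ x, ¬ pev i j x → w x = 0) (σ : Stp d) (hσ : σ ∈ pl i j) :
    (∑ f ∈ prps d k q, Real.exp (l * ∑ u ∈ cls b d k, w u * TF ε i j c c' σ f u)) ^ (2 * (2 ^ k) ^ 2) ≤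
      ((q : ℝ) ^ Fintype.card (Yf i j k)) ^ ((2 ^ k) ^ 3) * ZZ d k q ^ (2 * (2 ^ k) ^ 2 - (evp k).card) *
        ∏ p ∈ evp k, ∑ f ∈ prps d k q, Real.exp (l * ∑ v ∈ cls b d k, wP i j w p v * GF ε i j c c' f v) := by
  classical
  have h := fat_chess (q := q) hk i j hij σ hσ (R5_Y ε l i j hij c c' b w)
  have h1 : ∀ f : Site d k → Fin q,
      ∑ p ∈ evp k, EY i j σ (R5_Y ε l i j hij c c' b w p) f p =
        l * ∑ u ∈ cls b d k, w u * TF ε i j c c' σ f u := by
    intro f
    have h2 : ∑ u ∈ cls b d k, w u * TF ε i j c c' σ f u =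
        ∑ u ∈ cls b d k, (if pev i j u then w u * TF ε i j c c' σ f u else 0) := by
      refine sum_congr rfl fun u _ => ?_
      by_cases hu : pev i j u
      · rw [if_pos hu]
      · rw [if_neg hu, hw u hu, zero_mul]
    rw [h2, R5_sum i j hij b (fun u => w u * TF ε i j c c' σ f u), mul_sum]
    exact sum_congr rfl fun p _ => R5_EY ε l i j hij c c' b w p p σ hσ f
  have h3 : ∀ p ∈ evp k, ∀ f : Site d k → Fin q,
      ∑ p' ∈ evp k, ∑ τ ∈ pl i j, EY i j τ (R5_Y ε l i j hij c c' b w p) f p' =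
        l * ∑ v ∈ cls b d k, wP i j w p v * GF ε i j c c' f v := by
    intro p hp f
    have h4 : ∑ v ∈ cls b d k, wP i j w p v * GF ε i j c c' f v =
        ∑ v ∈ cls b d k, (if pev i j v then w (stt i j p.1 p.2 v) * GF ε i j c c' f v else 0) := by
      refine sum_congr rfl fun v _ => ?_
      unfold wP
      by_cases hv : pev i j v
      · rw [if_pos hv, if_pos hv]
      · rw [if_neg hv, if_neg hv, zero_mul]
    rw [h4, R5_sum i j hij b (fun v => w (stt i j p.1 p.2 v) * GF ε i j c c' f v), mul_sum]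
    refine sum_congr rfl fun p' hp' => ?_
    rw [sum_congr rfl fun τ hτ => R5_EY ε l i j hij c c' b w p p' τ hτ f, ← mul_sum, sum_comm]
    congr 1
    refine sum_congr rfl fun u _ => ?_
    rw [R5_stt_stt i j hij]
    by_cases h : stt i j p.1 p.2 u.1 ∈ cls b d k
    · rw [if_pos ((R5_cls i j hij b p p' u.1 hp hp').1 h)]
      rw [sum_congr rfl fun τ _ => if_pos h, ← mul_sum, TF_sum ε i j hij]
    · rw [if_neg (fun h' => h ((R5_cls i j hij b p p' u.1 hp hp').2 h'))]
      exact sum_eq_zero fun τ _ => if_neg h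
  rw [sum_congr rfl fun f _ => by rw [h1 f]] at h
  rw [prod_congr rfl fun p hp => sum_congr rfl fun f _ => by rw [h3 p hp f]] at h
  exact h

end Pool.Agent.THR

end
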