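import Pool.Agent.Lib_MP_2c424f_ms.M27
import Pool.Agent.Lib_MP_2c424f_ms.M31

/-!
# MP_2c424f_pr: library of SharpThreshold and BoundaryThreshold (merged): merged library part M32

Concatenation of smaller files (each in its own section), only to save build time.
-/

namespace Pool.Agent.LO
end Pool.Agent.LO

namespace Pool.Agent.LIN
end Pool.Agent.LIN

/-! ### from `Lib_MP_2c424f_thr.N3` -/

section

/-!
# THR N3: adapted weights (paper proof: N1, N2)

`K = 4`, `C` the exponent of `iso` for `K = 5` (say), `K₂ = C + 3`, `B = d^K₂`, `s = K₂ + 20`, `t = 2s`.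
Net: functions `η : Site → Fin 3` (values `-1,0,1`) with at most `2N/B` nonzero values; their number is
`≤ x^(-2N/B) (1+2x)^N`, `x = 1/B`, i.e. `≤ exp ((2N/B) log B + 2N/B) ≤ exp (N/d^(C+2))`, so `Rar_union` (index type = the subtype of the net times
the finite parameters `Bool, Fin q, Fin q, Stp d, Stp d`) gives: off a rare event `iso` holds for all weights
`w = clip (B PP^t η)` (clipping to `[-1,1]`).
For `φ` with values in `{-1,0,1}` supported in the class `b`: `R` from `net_exists` (`Kt_sup`), `η = 1_R φ`; `|w - PP^t φ| ≤ |B PP^t η - PP^t φ|`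
since `|PP^t φ| ≤ 1`; `∑_x φ_x D_x = ∑_u (PP^t φ)_u (sg (u+σ) - sg (u+σ'))` (`PPt_adj`, `PPt_transl`), and `PP^t φ` vanishes off the class `b`.
The errors: `(2 + C₄/q²)·2N √(B κ) ≤ N/(2 d^4)` since `B κ ≤ d^K₂ (8s)^(2s)/(2d)^s`.
-/

set_option autoImplicit false

open Finset Filter

namespace Pool.Agent.THR

open Pool.Agent.LO Pool.Agent.LIN

/-- clipping to `[-1,1]` -/
private noncomputable def N3_clip (x : ℝ) : ℝ := max (-1) (min 1 x)

private theorem N3_clip_abs (x : ℝ) : |N3_clip x| ≤ 1 := by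
  unfold N3_clip
  rw [abs_le]
  exact ⟨le_max_left _ _, max_le (by norm_num) (min_le_left _ _)⟩

private theorem N3_clip_sub (x y : ℝ) (hy : |y| ≤ 1) : |N3_clip x - y| ≤ |x - y| := by
  unfold N3_clip
  obtain ⟨h1, h2⟩ := abs_le.1 hy
  rcases le_total x 1 with hx | hx
  · rw [min_eq_right hx]
    rcases le_total (-1) x with h3 | h3
    · rw [max_eq_right h3]
    · rw [max_eq_left h3, abs_of_nonpos (by linarith), abs_of_nonpos (by linarith)]
      linarith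
  · rw [min_eq_left hx, max_eq_right (by norm_num), abs_of_nonneg (by linarith),
      abs_of_nonneg (by linarith)]
    linarith

/-- value of a code -/
private noncomputable def N3_val (a : Fin 3) : ℝ :=
  if a.val = 0 then 0 else if a.val = 1 then 1 else -1

/-- code of a value -/
private noncomputable def N3_code (x : ℝ) : Fin 3 := by
  classical exact if x = 0 then 0 else if x = 1 then 1 else 2

private theorem N3_val_code (x : ℝ) (h : x = 0 ∨ x = 1 ∨ x = -1) : N3_val (N3_code x) = x := by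
  unfold N3_val N3_code
  rcases h with h | h | h
  · subst h; simp
  · subst h; simp
  · subst h; norm_num

private theorem N3_code_zero : N3_code 0 = 0 := by
  unfold N3_code; simp

/-- the weight of a code function -/
private noncomputable def N3_w {d k : ℕ} (t B : ℕ) (η : Site d k → Fin 3) (u : Site d k) : ℝ :=
  N3_clip (B * PP^[t] (fun x => N3_val (η x)) u)

private theorem N3_sg_abs {d k q : ℕ} (c c' : Fin q) (f : Site d k → Fin q) (v : Site d k) :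
    |sg c c' f v| ≤ 1 := by
  unfold sg
  split_ifs <;> norm_num

open scoped Classical in
private theorem N3_det {d k q : ℕ} (hd : 1 ≤ d) (hk : 1 ≤ k) (t B : ℕ) (ht : Even t) (hB : 1 ≤ B)
    (κ : ℝ) (hκ0 : 0 < κ) (hκ : ∀ u y : Site d k, Kt t u y ≤ κ) (C₄ e : ℝ) (hC₄ : 0 ≤ C₄)
    (he : 0 ≤ e) (f : Site d k → Fin q)
    (H : ∀ (η : Site d k → Fin 3),
      (((univ.filter fun x => (η x).val ≠ 0).card : ℝ) ≤ 2 * NN d k / B) →
      ∀ (b : Bool) (c c' : Fin q) (σ τ : Stp d), c ≠ c' →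
       ∑ u ∈ cls b d k, N3_w t B η u * (sg c c' f (u + sv σ) - sg c c' f (u + sv τ)) ≤
        C₄ / (q : ℝ) ^ 2 * Wt b (N3_w t B η) + e)
    (b : Bool) (c c' : Fin q) (σ τ : Stp d) (φ : Site d k → ℝ)
    (hφ : ∀ x, φ x = 0 ∨ φ x = 1 ∨ φ x = -1) (hφb : ∀ x, x ∉ cls b d k → φ x = 0) :
    ∑ x, φ x * (PP^[t] (sg c c' f) (x + sv σ) - PP^[t] (sg c c' f) (x + sv τ)) ≤
      C₄ / (q : ℝ) ^ 2 * ∑ x, |φ x| +
        ((C₄ / (q : ℝ) ^ 2 + 2) * (2 * NN d k * Real.sqrt (B * κ)) + e) := by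
  have hNN : 0 ≤ NN d k := by unfold NN; positivity
  by_cases hcc : c = c'
  · have h0 : sg c c' f = fun _ => (0 : ℝ) := by
      funext v
      unfold sg
      rw [hcc]; ring
    have h1 : ∀ x, PP^[t] (sg c c' f) x = 0 := fun x => by
      rw [h0]; exact PPt_const hd t 0 x
    have h2 : ∑ x, φ x * (PP^[t] (sg c c' f) (x + sv σ) - PP^[t] (sg c c' f) (x + sv τ)) = 0 := by
      refine Finset.sum_eq_zero fun x _ => ?_
      rw [h1, h1]; ring
    rw [h2]
    have : 0 ≤ ∑ x, |φ x| := Finset.sum_nonneg fun x _ => abs_nonneg _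
    positivity
  have hφ1 : ∀ x, |φ x| ≤ 1 := fun x => by
    rcases hφ x with h | h | h <;> rw [h] <;> norm_num
  obtain ⟨R, hR1, hR2⟩ := net_exists hd t B hB κ hκ0 hκ φ hφ1
  set E0 : ℝ := 2 * NN d k * Real.sqrt (B * κ) with hE0
  -- the code
  set η : Site d k → Fin 3 := fun x => if x ∈ R then N3_code (φ x) else 0 with hη
  have hval : (fun x => N3_val (η x)) = fun x => if x ∈ R then φ x else 0 := by
    funext x
    simp only [hη]
    by_cases hx : x ∈ R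
    · simp only [hx, if_true]; exact N3_val_code _ (hφ x)
    · simp only [hx, if_false]; simp [N3_val]
  have hsupp : (((univ.filter fun x => (η x).val ≠ 0).card : ℝ) ≤ 2 * NN d k / B) := by
    refine le_trans ?_ hR1
    have : (univ.filter fun x => (η x).val ≠ 0) ⊆ R := by
      intro x hx
      by_contra h
      simp [hη, h] at hx
    exact_mod_cast Finset.card_le_card this
  have hH := H η hsupp b c c' σ τ hcc
  -- abbreviations
  set w := N3_w t B η with hw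
  set P : Site d k → ℝ := PP^[t] φ with hP
  have hPabs : ∀ u, |P u| ≤ 1 := fun u => by
    refine (PPt_abs t φ u).trans ?_
    refine (PPt_mono t hφ1 u).trans ?_
    rw [PPt_const hd]
  have hwP : ∑ u, |w u - P u| ≤ E0 := by
    refine le_trans (Finset.sum_le_sum fun u _ => ?_) hR2
    rw [hw]
    unfold N3_w
    rw [hval]
    exact N3_clip_sub _ _ (hPabs u)
  -- the sum
  have hs1 : ∀ ρ : Stp d, ∑ x, φ x * PP^[t] (sg c c' f) (x + sv ρ) =
      ∑ u, P u * sg c c' f (u + sv ρ) := by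
    intro ρ
    rw [hP, PPt_adj t φ (fun u => sg c c' f (u + sv ρ))]
    refine Finset.sum_congr rfl fun x _ => ?_
    rw [PPt_transl]
  have hPoff : ∀ u, u ∉ cls b d k → P u = 0 := by
    intro u hu
    rw [hP, Kt_repr]
    refine Finset.sum_eq_zero fun y _ => ?_
    by_cases hy : y ∈ cls b d k
    · rw [Kt_cls hk t ht (!b) u y ((cls_not b u).2 hu) (by rw [Bool.not_not]; exact hy), zero_mul]
    · rw [hφb y hy, mul_zero]
  have hsum : ∑ x, φ x * (PP^[t] (sg c c' f) (x + sv σ) - PP^[t] (sg c c' f) (x + sv τ)) =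
      ∑ u ∈ cls b d k, P u * (sg c c' f (u + sv σ) - sg c c' f (u + sv τ)) := by
    simp only [mul_sub, Finset.sum_sub_distrib]
    rw [hs1, hs1]
    congr 1
    · symm
      refine Finset.sum_subset (Finset.subset_univ _) fun u _ hu => ?_
      rw [hPoff u hu, zero_mul]
    · symm
      refine Finset.sum_subset (Finset.subset_univ _) fun u _ hu => ?_
      rw [hPoff u hu, zero_mul]
  have hsplit : ∑ u ∈ cls b d k, P u * (sg c c' f (u + sv σ) - sg c c' f (u + sv τ)) ≤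
      ∑ u ∈ cls b d k, w u * (sg c c' f (u + sv σ) - sg c c' f (u + sv τ)) + 2 * E0 := by
    have h1 : ∑ u ∈ cls b d k, P u * (sg c c' f (u + sv σ) - sg c c' f (u + sv τ)) ≤
        ∑ u ∈ cls b d k, (w u * (sg c c' f (u + sv σ) - sg c c' f (u + sv τ)) +
          2 * |w u - P u|) := by
      refine Finset.sum_le_sum fun u _ => ?_
      have h2 : |sg c c' f (u + sv σ) - sg c c' f (u + sv τ)| ≤ 2 := by
        have a1 := N3_sg_abs c c' f (u + sv σ)
        have a2 := N3_sg_abs c c' f (u + sv τ)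
        have := abs_sub (sg c c' f (u + sv σ)) (sg c c' f (u + sv τ))
        linarith
      have h3 : (P u - w u) * (sg c c' f (u + sv σ) - sg c c' f (u + sv τ)) ≤
          |w u - P u| * 2 := by
        refine (le_abs_self _).trans ?_
        rw [abs_mul, abs_sub_comm]
        exact mul_le_mul_of_nonneg_left h2 (abs_nonneg _)
      linarith
    refine h1.trans ?_
    rw [Finset.sum_add_distrib, ← Finset.mul_sum]
    have h4 : ∑ u ∈ cls b d k, |w u - P u| ≤ ∑ u, |w u - P u| :=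
      Finset.sum_le_sum_of_subset_of_nonneg (Finset.subset_univ _) fun _ _ _ => abs_nonneg _
    linarith
  have hWt : Wt b w ≤ ∑ x, |φ x| + E0 := by
    unfold Wt
    calc ∑ u ∈ cls b d k, |w u| ≤ ∑ u, |w u| :=
          Finset.sum_le_sum_of_subset_of_nonneg (Finset.subset_univ _) fun _ _ _ => abs_nonneg _
      _ ≤ ∑ u, (PP^[t] (fun y => |φ y|) u + |w u - P u|) := by
          refine Finset.sum_le_sum fun u _ => ?_
          have h1 := PPt_abs t φ u
          have h2 : |w u| ≤ |P u| + |w u - P u| := by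
            have := abs_add_le (P u) (w u - P u)
            rwa [add_sub_cancel] at this
          have h3 : |P u| ≤ PP^[t] (fun y => |φ y|) u := h1
          linarith
      _ = ∑ u, PP^[t] (fun y => |φ y|) u + ∑ u, |w u - P u| := Finset.sum_add_distrib
      _ ≤ _ := by
          rw [PPt_total hd]
          linarith
  have hq : 0 ≤ C₄ / (q : ℝ) ^ 2 := by positivity
  rw [hsum]
  have := mul_le_mul_of_nonneg_left hWt hq
  have hE0' : 0 ≤ E0 := by positivity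
  nlinarith

open scoped Classical in
/-- index type of the union -/
private abbrev N3_ix (d k q B : ℕ) : Type :=
  {η : Site d k → Fin 3 // (((univ.filter fun x => (η x).val ≠ 0).card : ℝ) ≤ 2 * NN d k / B)} ×
    (Bool × (Fin q × Fin q) × (Stp d × Stp d))

open scoped Classical in
private noncomputable instance N3_fin (d k q B : ℕ) : Fintype (N3_ix d k q B) := inferInstance

private theorem N3_log {d k q B : ℕ} (hd : 1 ≤ d) (hq : 1 ≤ q) (hB : 1 ≤ B) :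
    Real.log (Fintype.card (N3_ix d k q B)) ≤
      NN d k * (2 * Real.log B + 2) / B + Real.log (8 * (q : ℝ) ^ 2 * (d : ℝ) ^ 2) := by
  classical
  have hNN : 0 ≤ NN d k := by unfold NN; positivity
  have hd0 : (0 : ℝ) < d := by exact_mod_cast hd
  have hq0 : (0 : ℝ) < q := by exact_mod_cast hq
  have h1 := net_card (d := d) (k := k) B hB
  set A : ℕ := ((univ : Finset (Site d k → Fin 3)).filter fun η =>
      ((univ.filter fun x => (η x).val ≠ 0).card : ℝ) ≤ 2 * NN d k / B).card with hA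
  have hcard : Fintype.card (N3_ix d k q B) = A * (2 * ((q * q) * ((d * 2) * (d * 2)))) := by
    rw [Fintype.card_prod, Fintype.card_prod, Fintype.card_prod, Fintype.card_prod,
      Fintype.card_prod, Fintype.card_prod, Fintype.card_fin, Fintype.card_fin, Fintype.card_bool,
      Fintype.card_subtype]
  have hA1 : 1 ≤ A := by
    rw [hA, Nat.one_le_iff_ne_zero, Finset.card_ne_zero]
    refine ⟨fun _ => 0, ?_⟩
    simp only [Finset.mem_filter, Finset.mem_univ, true_and]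
    have : (univ.filter fun x : Site d k => ((0 : Fin 3) : Fin 3).val ≠ 0) = ∅ := by
      ext x; simp
    rw [this]
    simp only [Finset.card_empty, Nat.cast_zero]
    positivity
  have hA0 : (0 : ℝ) < A := by exact_mod_cast hA1
  have hp : (0 : ℝ) < 8 * (q : ℝ) ^ 2 * (d : ℝ) ^ 2 := by positivity
  have e : ((Fintype.card (N3_ix d k q B) : ℕ) : ℝ) = A * (8 * (q : ℝ) ^ 2 * (d : ℝ) ^ 2) := by
    rw [hcard]; push_cast; ring
  rw [e, Real.log_mul hA0.ne' hp.ne']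
  have h2 : Real.log A ≤ NN d k * (2 * Real.log B + 2) / B := by
    rw [Real.log_le_iff_le_exp hA0]
    exact h1
  linarith

/-- the numbers -/
private theorem N3_num (C₄ : ℝ) (hC₄ : 0 < C₄) (K₂ s d q : ℕ) (NNr : ℝ) (hN : 0 ≤ NNr)
    (hs : s = K₂ + 20) (hd : 1 ≤ d) (hq : 1 ≤ q)
    (hM : (C₄ + 2) * 2 * (8 * (s : ℝ)) ^ s ≤ d) :
    (C₄ / (q : ℝ) ^ 2 + 2) * (2 * NNr * Real.sqrt (((d ^ K₂ : ℕ) : ℝ) *
      ((8 * (s : ℝ)) ^ (2 * s) / (2 * (d : ℝ)) ^ s))) + NNr / (d : ℝ) ^ 5 ≤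
      2 * NNr / (d : ℝ) ^ 4 := by
  have hd1 : (1 : ℝ) ≤ d := by exact_mod_cast hd
  have hd0 : (0 : ℝ) < d := by linarith
  have hq1 : (1 : ℝ) ≤ q := by exact_mod_cast hq
  have hs0 : (0 : ℝ) ≤ s := Nat.cast_nonneg _
  have h1 : Real.sqrt (((d ^ K₂ : ℕ) : ℝ) * ((8 * (s : ℝ)) ^ (2 * s) / (2 * (d : ℝ)) ^ s)) ≤
      (8 * (s : ℝ)) ^ s / (d : ℝ) ^ 10 := by
    rw [show (8 * (s : ℝ)) ^ s / (d : ℝ) ^ 10 = Real.sqrt (((8 * (s : ℝ)) ^ s / (d : ℝ) ^ 10) ^ 2)
      from (Real.sqrt_sq (by positivity)).symm]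
    apply Real.sqrt_le_sqrt
    have e1 : (2 * (d : ℝ)) ^ s = 2 ^ s * ((d : ℝ) ^ K₂ * (d : ℝ) ^ 20) := by
      rw [mul_pow, hs, pow_add (d : ℝ)]
    have e2 : (((8 * (s : ℝ)) ^ s / (d : ℝ) ^ 10) ^ 2) = (8 * (s : ℝ)) ^ (2 * s) / (d : ℝ) ^ 20 := by
      rw [div_pow, ← pow_mul, ← pow_mul, mul_comm s 2]
    rw [e1, e2]
    push_cast
    have h2 : (1 : ℝ) ≤ 2 ^ s := one_le_pow₀ (by norm_num)
    have e3 : (d : ℝ) ^ K₂ * ((8 * (s : ℝ)) ^ (2 * s) / (2 ^ s * ((d : ℝ) ^ K₂ * (d : ℝ) ^ 20))) =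
        ((8 * (s : ℝ)) ^ (2 * s) / (d : ℝ) ^ 20) / 2 ^ s := by
      field_simp
    rw [e3]
    exact div_le_self (by positivity) h2
  have h3 : C₄ / (q : ℝ) ^ 2 ≤ C₄ := div_le_self hC₄.le (one_le_pow₀ hq1)
  have h4 : (C₄ / (q : ℝ) ^ 2 + 2) * (2 * NNr * Real.sqrt (((d ^ K₂ : ℕ) : ℝ) *
      ((8 * (s : ℝ)) ^ (2 * s) / (2 * (d : ℝ)) ^ s))) ≤ NNr / (d : ℝ) ^ 5 := by
    calc (C₄ / (q : ℝ) ^ 2 + 2) * (2 * NNr * Real.sqrt (((d ^ K₂ : ℕ) : ℝ) *
      ((8 * (s : ℝ)) ^ (2 * s) / (2 * (d : ℝ)) ^ s)))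
        ≤ (C₄ + 2) * (2 * NNr * ((8 * (s : ℝ)) ^ s / (d : ℝ) ^ 10)) := by
          gcongr
      _ = NNr * ((C₄ + 2) * 2 * (8 * (s : ℝ)) ^ s) / (d : ℝ) ^ 10 := by ring
      _ ≤ NNr * (d : ℝ) / (d : ℝ) ^ 10 := by gcongr
      _ = NNr / (d : ℝ) ^ 9 := by field_simp
      _ ≤ NNr / (d : ℝ) ^ 5 := by
          apply div_le_div_of_nonneg_left hN (by positivity)
          exact pow_le_pow_right₀ hd1 (by norm_num)
  have h5 : NNr / (d : ℝ) ^ 5 ≤ NNr / (d : ℝ) ^ 4 := by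
    apply div_le_div_of_nonneg_left hN (by positivity)
    exact pow_le_pow_right₀ hd1 (by norm_num)
  have h6 : 2 * NNr / (d : ℝ) ^ 4 = NNr / (d : ℝ) ^ 4 + NNr / (d : ℝ) ^ 4 := by ring
  rw [h6]
  linarith

theorem iso_adapt {ε : ℝ} (hε : 0 < ε) (hε1 : ε ≤ 1) : ∃ (t : ℕ) (C₄ : ℝ), Even t ∧ 20 ≤ t ∧ 0 < C₄ ∧
    WOP ε fun d k q f => ∀ (b : Bool) (c c' : Fin q) (σ τ : Stp d) (φ : Site d k → ℝ),
      (∀ x, φ x = 0 ∨ φ x = 1 ∨ φ x = -1) → (∀ x, x ∉ cls b d k → φ x = 0) →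
      ∑ x, φ x * (PP^[t] (sg c c' f) (x + sv σ) - PP^[t] (sg c c' f) (x + sv τ)) ≤
        C₄ / (q : ℝ) ^ 2 * ∑ x, |φ x| + 2 * NN d k / (d : ℝ) ^ 4 := by
  obtain ⟨C₄, hC₄, hiso⟩ := iso hε hε1
  obtain ⟨C, hC⟩ := hiso 5
  obtain ⟨K₂, hK₂⟩ : ∃ K₂ : ℕ, K₂ = C + 3 := ⟨_, rfl⟩
  obtain ⟨s, hs⟩ : ∃ s : ℕ, s = K₂ + 20 := ⟨_, rfl⟩
  refine ⟨2 * s, C₄, even_two_mul s, by omega, hC₄, C + 1, ?_⟩
  have hreg := EvT_reg hε hε1 (2 + (4 * (K₂ : ℝ) + 4) + (C₄ + 2) * 2 * (8 * (s : ℝ)) ^ s)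
  have hNNl := EvT_NN (ε := ε) fun d q =>
    2 * ((d : ℝ) ^ (C + 1) * Real.log (8 * (q : ℝ) ^ 2 * (d : ℝ) ^ 2))
  have hpow := EvT_pow (ε := ε) fun _ _ => (2 * (s : ℝ) + 1)
  refine EvT.mono (((hC.and hreg).and hNNl).and hpow) fun d k q h => ?_
  obtain ⟨⟨⟨hR, hMd, hMq, hMk, -⟩, hNl⟩, hk2⟩ := h
  have hX : 0 ≤ (C₄ + 2) * 2 * (8 * (s : ℝ)) ^ s := by positivity
  have hK0 : (0 : ℝ) ≤ K₂ := Nat.cast_nonneg _
  have hd2 : 2 ≤ d := by
    have : (2 : ℝ) ≤ d := by linarith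
    exact_mod_cast this
  have hd1 : 1 ≤ d := by omega
  have hq1 : 1 ≤ q := by
    have : (1 : ℝ) ≤ q := by linarith
    exact_mod_cast this
  have hk1 : 1 ≤ k := by
    have : (1 : ℝ) ≤ k := by linarith
    exact_mod_cast this
  have hd0 : (0 : ℝ) < d := by exact_mod_cast (show 0 < d by omega)
  have hdr : (1 : ℝ) ≤ d := by exact_mod_cast hd1
  have hNN : 0 ≤ NN d k := by unfold NN; positivity
  obtain ⟨B, hB⟩ : ∃ B : ℕ, B = d ^ K₂ := ⟨_, rfl⟩
  have hB1 : 1 ≤ B := by rw [hB]; exact Nat.one_le_pow _ _ (by omega)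
  have hs1 : 1 ≤ s := by omega
  have hs0 : (0 : ℝ) < s := by exact_mod_cast (show 0 < s by omega)
  -- union
  have hlog : (d : ℝ) ^ (C + 1) * Real.log (Fintype.card (N3_ix d k q B)) ≤ NN d k := by
    have h1 := N3_log (k := k) hd1 hq1 hB1
    have h2 : Real.log B = K₂ * Real.log d := by
      rw [hB]; push_cast; rw [Real.log_pow]
    have h3 : Real.log d ≤ d := by
      have := Real.log_le_sub_one_of_pos hd0
      linarith
    have hBr : (B : ℝ) = (d : ℝ) ^ (C + 1) * (d : ℝ) ^ 2 := by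
      rw [hB, hK₂]; push_cast; rw [← pow_add]
    have h4 : (d : ℝ) ^ (C + 1) * (NN d k * (2 * Real.log B + 2) / B) =
        NN d k * ((2 * Real.log B + 2) / (d : ℝ) ^ 2) := by
      rw [hBr]; field_simp
    have h5 : (2 * Real.log B + 2) / (d : ℝ) ^ 2 ≤ 1 / 2 := by
      rw [div_le_iff₀ (by positivity), h2]
      nlinarith
    calc (d : ℝ) ^ (C + 1) * Real.log (Fintype.card (N3_ix d k q B))
        ≤ (d : ℝ) ^ (C + 1) * (NN d k * (2 * Real.log B + 2) / B +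
          Real.log (8 * (q : ℝ) ^ 2 * (d : ℝ) ^ 2)) :=
          mul_le_mul_of_nonneg_left h1 (by positivity)
      _ = NN d k * ((2 * Real.log B + 2) / (d : ℝ) ^ 2) +
          (d : ℝ) ^ (C + 1) * Real.log (8 * (q : ℝ) ^ 2 * (d : ℝ) ^ 2) := by
          rw [mul_add, h4]
      _ ≤ NN d k * (1 / 2) + NN d k / 2 := by
          have := mul_le_mul_of_nonneg_left h5 hNN
          linarith
      _ = NN d k := by ring
  have hU := Rar_union (ι := N3_ix d k q B) hd2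
    (P := fun i f => ¬ (i.2.2.1.1 ≠ i.2.2.1.2 →
      (∀ x, |N3_w (2 * s) B i.1.1 x| ≤ 1) →
      ∑ u ∈ cls i.2.1 d k, N3_w (2 * s) B i.1.1 u *
          (sg i.2.2.1.1 i.2.2.1.2 f (u + sv i.2.2.2.1) -
            sg i.2.2.1.1 i.2.2.1.2 f (u + sv i.2.2.2.2)) ≤
        C₄ / (q : ℝ) ^ 2 * Wt i.2.1 (N3_w (2 * s) B i.1.1) + NN d k / (d : ℝ) ^ 5))
    (fun i => hR (i.2.1, i.2.2.1, i.2.2.2, N3_w (2 * s) B i.1.1)) hlog
  refine hU.mono fun f _ hf => ?_
  by_contra hno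
  push Not at hno
  apply hf
  have hkap : 0 < (8 * (s : ℝ)) ^ (2 * s) / (2 * (d : ℝ)) ^ s := by positivity
  have hkk : 2 * s < 2 ^ k := by
    have : (2 * (s : ℝ) + 1) ≤ 2 ^ k := hk2
    have h2 : 2 * s + 1 ≤ 2 ^ k := by exact_mod_cast this
    omega
  intro b c c' σ τ φ hφ hφb
  have hdet := N3_det hd1 hk1 (2 * s) B (even_two_mul s) hB1 _ hkap
    (fun u y => Kt_sup hd1 s hkk u y) C₄ (NN d k / (d : ℝ) ^ 5) hC₄.le (by positivity) f
    (fun η hη b c c' σ τ hcc => hno (⟨η, hη⟩, b, (c, c'), (σ, τ)) hcc fun x => by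
      unfold N3_w; exact N3_clip_abs _) b c c' σ τ φ hφ hφb
  have hnum := N3_num C₄ hC₄ K₂ s d q (NN d k) hNN hs hd1 hq1 (by linarith)
  rw [hB] at hdet
  linarith

end Pool.Agent.THR

end

/-! ### from `Lib_MP_2c424f_thr.N4` -/

section

/-!
# THR N4: gradients of the smoothed indicators (paper proof: N3, N4)

`φ = sign D · 1[|D| > C₄/q²]` on the class `b`: `∑_{x ∈ b} (|D_x| - C₄/q²)_+ ≤ 2N/d^4`, both classes: `4N/d^4`.
`bq c f x - 1 = ∑_{c'} sg c c' f x` (for `c' = c` the term is `0`), so with `PPt_sum`, `PPt_const`, `PPt_sub`: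
`PP^t (bq c)(x+σ) - PP^t (bq c)(x+τ) = ∑_{c'} D^{c,c'}_x`; absolute value `≤ C₄/q + E_x`, `E_x = ∑_{c'} (|D|-C₄/q²)_+ ≤ 2q`, square
`≤ 2C₄²/q² + 2E_x² ≤ 2C₄²/q² + 4q E_x`, `∑_x E_x ≤ q · 4N/d^4`; `16 q²/d^4 ≤ 256/q²` since `q ≤ 2d`.  `C₅ = 2C₄² + 256`.
-/

set_option autoImplicit false

open Finset Filter

namespace Pool.Agent.THR

open Pool.Agent.LO Pool.Agent.LIN

/-- positive part of `|D| - θ` -/
private noncomputable def N4_m (θ y : ℝ) : ℝ := max (|y| - θ) 0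

open scoped Classical in
/-- the test function -/
private noncomputable def N4_phi {d k : ℕ} (θ : ℝ) (D : Site d k → ℝ) (b : Bool) (x : Site d k) : ℝ :=
  if x ∈ cls b d k ∧ θ < |D x| then (if 0 < D x then 1 else -1) else 0

open scoped Classical in
private theorem N4_phi_eq {d k : ℕ} {θ : ℝ} (D : Site d k → ℝ) (b : Bool) (x : Site d k) :
    N4_phi θ D b x * D x - θ * |N4_phi θ D b x| = if x ∈ cls b d k then N4_m θ (D x) else 0 := by
  unfold N4_phi N4_m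
  by_cases h1 : x ∈ cls b d k
  · by_cases h2 : θ < |D x|
    · rw [if_pos ⟨h1, h2⟩, if_pos h1]
      by_cases h3 : 0 < D x
      · rw [if_pos h3, abs_one, abs_of_pos h3] at *
        rw [max_eq_left (by linarith)]
        ring
      · have h4 : D x ≤ 0 := not_lt.1 h3
        rw [if_neg h3, abs_neg, abs_one, abs_of_nonpos h4] at *
        rw [max_eq_left (by linarith)]
        ring
    · rw [if_neg (fun h => h2 h.2), if_pos h1, max_eq_right (by linarith)]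
      simp
  · rw [if_neg (fun h => h1 h.1), if_neg h1]
    simp

private theorem N4_m_nonneg (θ y : ℝ) : 0 ≤ N4_m θ y := le_max_right _ _

private theorem N4_abs_le (θ y : ℝ) : |y| ≤ θ + N4_m θ y := by
  have := le_max_left (|y| - θ) 0
  unfold N4_m
  linarith

private theorem N4_m_le {θ y : ℝ} (hθ : 0 < θ) (hy : |y| ≤ 2) : N4_m θ y ≤ 2 := by
  unfold N4_m
  exact max_le (by linarith) (by norm_num)

open scoped Classical in
private theorem N4_two {d k : ℕ} (g : Site d k → ℝ) :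
    ∑ x, (if x ∈ cls true d k then g x else 0) + ∑ x, (if x ∈ cls false d k then g x else 0) =
      ∑ x, g x := by
  rw [← Finset.sum_add_distrib]
  refine Finset.sum_congr rfl fun x _ => ?_
  have h1 := cls_not (d := d) (k := k) true x
  by_cases h2 : x ∈ cls true d k
  · have h3 : x ∉ cls false d k := fun h => (h1.1 h) h2
    rw [if_pos h2, if_neg h3, add_zero]
  · have h3 : x ∈ cls false d k := h1.2 h2
    rw [if_neg h2, if_pos h3, zero_add]

private theorem N4_class {d k : ℕ} {θ M : ℝ} (D : Site d k → ℝ)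
    (h : ∀ (b : Bool) (φ : Site d k → ℝ), (∀ x, φ x = 0 ∨ φ x = 1 ∨ φ x = -1) →
      (∀ x, x ∉ cls b d k → φ x = 0) → ∑ x, φ x * D x ≤ θ * ∑ x, |φ x| + M) :
    ∑ x, N4_m θ (D x) ≤ 2 * M := by
  classical
  have hb : ∀ b : Bool, ∑ x, (if x ∈ cls b d k then N4_m θ (D x) else 0) ≤ M := by
    intro b
    have h1 := h b (N4_phi θ D b) (fun x => by
      unfold N4_phi
      split_ifs <;> simp) (fun x hx => by
      unfold N4_phi
      rw [if_neg (fun h => hx h.1)])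
    have h2 : ∑ x, (if x ∈ cls b d k then N4_m θ (D x) else 0) =
        ∑ x, N4_phi θ D b x * D x - θ * ∑ x, |N4_phi θ D b x| := by
      rw [Finset.mul_sum, ← Finset.sum_sub_distrib]
      exact Finset.sum_congr rfl fun x _ => (N4_phi_eq D b x).symm
    rw [h2]
    linarith
  rw [← N4_two]
  have h1 := hb true
  have h2 := hb false
  linarith

private theorem N4_sg_sum {d k q : ℕ} (c : Fin q) (f : Site d k → Fin q) (x : Site d k) :
    ∑ c', sg c c' f x = bq c f x - 1 := by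
  classical
  unfold sg bq
  rw [Finset.sum_sub_distrib]
  congr 1
  · rw [Finset.sum_const, Finset.card_univ, Fintype.card_fin]
    by_cases h : f x = c
    · simp [h]
    · simp [h]
  · rw [Finset.sum_ite_eq]
    simp

private theorem N4_bq {d k q : ℕ} (hd : 1 ≤ d) (t : ℕ) (c : Fin q) (f : Site d k → Fin q) (x : Site d k) :
    PP^[t] (bq c f) x = 1 + ∑ c', PP^[t] (sg c c' f) x := by
  have h1 : PP^[t] (fun y => ∑ c', sg c c' f y) x = ∑ c', PP^[t] (sg c c' f) x :=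
    PPt_sum t univ (fun c' => sg c c' f) x
  have h2 : (fun y => ∑ c', sg c c' f y) = fun y => bq c f y - (fun _ => (1 : ℝ)) y := by
    funext y
    exact N4_sg_sum c f y
  rw [h2, PPt_sub, PPt_const hd] at h1
  rw [← h1]
  ring

private theorem N4_sg_le {d k q : ℕ} (c c' : Fin q) (f : Site d k → Fin q) (x : Site d k) :
    |sg c c' f x| ≤ 1 := by
  classical
  unfold sg
  split_ifs <;> norm_num

private theorem N4_PP_le {d k q : ℕ} (hd : 1 ≤ d) (t : ℕ) (c c' : Fin q) (f : Site d k → Fin q)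
    (x : Site d k) : |PP^[t] (sg c c' f) x| ≤ 1 := by
  refine (PPt_abs t _ x).trans ?_
  refine (PPt_mono t (h := fun _ => (1 : ℝ)) (fun y => N4_sg_le c c' f y) x).trans ?_
  rw [PPt_const hd]

private theorem N4_det {d k q : ℕ} (hd : 1 ≤ d) (hq : 1 ≤ q) (hqd : (q : ℝ) ≤ 2 * d) {C₄ : ℝ}
    (hC : 0 < C₄) (t : ℕ) (f : Site d k → Fin q) (c : Fin q) (σ τ : Stp d)
    (h : ∀ (b : Bool) (c' : Fin q) (φ : Site d k → ℝ),
      (∀ x, φ x = 0 ∨ φ x = 1 ∨ φ x = -1) → (∀ x, x ∉ cls b d k → φ x = 0) →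
      ∑ x, φ x * (PP^[t] (sg c c' f) (x + sv σ) - PP^[t] (sg c c' f) (x + sv τ)) ≤
        C₄ / (q : ℝ) ^ 2 * ∑ x, |φ x| + 2 * NN d k / (d : ℝ) ^ 4) :
    ∑ x : Site d k, (PP^[t] (bq c f) (x + sv σ) - PP^[t] (bq c f) (x + sv τ)) ^ 2 ≤
      (2 * C₄ ^ 2 + 256) * NN d k / (q : ℝ) ^ 2 := by
  have hq0 : (0 : ℝ) < q := by exact_mod_cast hq
  have hd0 : (0 : ℝ) < d := by exact_mod_cast hd
  have hθ : 0 < C₄ / (q : ℝ) ^ 2 := by positivity
  obtain ⟨D, hD⟩ : ∃ D : Fin q → Site d k → ℝ, D = fun c' x =>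
      PP^[t] (sg c c' f) (x + sv σ) - PP^[t] (sg c c' f) (x + sv τ) := ⟨_, rfl⟩
  obtain ⟨θ, hθe⟩ : ∃ θ : ℝ, θ = C₄ / (q : ℝ) ^ 2 := ⟨_, rfl⟩
  have hN : 0 ≤ NN d k := by unfold NN; positivity
  have h1 : ∀ c', ∑ x, N4_m θ (D c' x) ≤ 4 * NN d k / (d : ℝ) ^ 4 := by
    intro c'
    have h2 := N4_class (θ := θ) (M := 2 * NN d k / (d : ℝ) ^ 4) (D c')
      (fun b φ h3 h4 => by rw [hD, hθe]; exact h b c' φ h3 h4)
    refine h2.trans (le_of_eq ?_)
    ring
  obtain ⟨E, hE⟩ : ∃ E : Site d k → ℝ, E = fun x => ∑ c', N4_m θ (D c' x) := ⟨_, rfl⟩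
  have hE0 : ∀ x, 0 ≤ E x := by
    intro x
    rw [hE]
    exact Finset.sum_nonneg fun c' _ => N4_m_nonneg _ _
  have hD2 : ∀ c' x, |D c' x| ≤ 2 := by
    intro c' x
    rw [hD]
    refine (abs_sub _ _).trans ?_
    have h2 := N4_PP_le hd t c c' f (x + sv σ)
    have h3 := N4_PP_le hd t c c' f (x + sv τ)
    linarith
  have hE2 : ∀ x, E x ≤ 2 * q := by
    intro x
    rw [hE]
    refine (Finset.sum_le_sum fun c' _ => N4_m_le (by rw [hθe]; exact hθ) (hD2 c' x)).trans ?_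
    rw [Finset.sum_const, Finset.card_univ, Fintype.card_fin, nsmul_eq_mul, mul_comm]
  have hEs : ∑ x, E x ≤ q * (4 * NN d k / (d : ℝ) ^ 4) := by
    rw [hE, Finset.sum_comm]
    refine (Finset.sum_le_sum fun c' _ => h1 c').trans ?_
    rw [Finset.sum_const, Finset.card_univ, Fintype.card_fin, nsmul_eq_mul]
  have hterm : ∀ x : Site d k, (PP^[t] (bq c f) (x + sv σ) - PP^[t] (bq c f) (x + sv τ)) ^ 2 ≤
      2 * C₄ ^ 2 / (q : ℝ) ^ 2 + 4 * q * E x := by
    intro x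
    have h2 : PP^[t] (bq c f) (x + sv σ) - PP^[t] (bq c f) (x + sv τ) = ∑ c', D c' x := by
      rw [N4_bq hd, N4_bq hd, hD, Finset.sum_sub_distrib]
      ring
    have h3 : |∑ c', D c' x| ≤ C₄ / q + E x := by
      refine (Finset.abs_sum_le_sum_abs _ _).trans ?_
      refine (Finset.sum_le_sum fun c' _ => N4_abs_le θ (D c' x)).trans ?_
      rw [Finset.sum_add_distrib, Finset.sum_const, Finset.card_univ, Fintype.card_fin,
        nsmul_eq_mul, hE, hθe]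
      refine add_le_add (le_of_eq ?_) le_rfl
      field_simp
    rw [h2, ← sq_abs]
    have h4 := hE0 x
    have h5 := hE2 x
    have h6 : 0 ≤ C₄ / (q : ℝ) := by positivity
    have h7 : |∑ c', D c' x| ^ 2 ≤ (C₄ / q + E x) ^ 2 := pow_le_pow_left₀ (abs_nonneg _) h3 2
    have h8 : (C₄ / q + E x) ^ 2 ≤ 2 * (C₄ / q) ^ 2 + 2 * E x ^ 2 := by
      nlinarith [sq_nonneg (C₄ / (q : ℝ) - E x)]
    have h9 : 2 * E x ^ 2 ≤ 4 * q * E x := by nlinarith
    have h10 : 2 * (C₄ / (q : ℝ)) ^ 2 = 2 * C₄ ^ 2 / (q : ℝ) ^ 2 := by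
      rw [div_pow]; ring
    linarith
  have hcard : ∑ _x : Site d k, (1 : ℝ) = NN d k := by
    rw [Finset.sum_const, Finset.card_univ, nsmul_eq_mul, mul_one]
    exact card_site d k
  calc ∑ x : Site d k, (PP^[t] (bq c f) (x + sv σ) - PP^[t] (bq c f) (x + sv τ)) ^ 2
      ≤ ∑ x : Site d k, (2 * C₄ ^ 2 / (q : ℝ) ^ 2 + 4 * q * E x) :=
        Finset.sum_le_sum fun x _ => hterm x
    _ = 2 * C₄ ^ 2 / (q : ℝ) ^ 2 * NN d k + 4 * q * ∑ x, E x := by
        have h2 : ∑ _x : Site d k, 2 * C₄ ^ 2 / (q : ℝ) ^ 2 = 2 * C₄ ^ 2 / (q : ℝ) ^ 2 * NN d k := by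
          rw [← hcard, Finset.mul_sum]
          exact Finset.sum_congr rfl fun _ _ => (mul_one _).symm
        rw [Finset.sum_add_distrib, ← Finset.mul_sum, h2]
    _ ≤ 2 * C₄ ^ 2 / (q : ℝ) ^ 2 * NN d k + 4 * q * (q * (4 * NN d k / (d : ℝ) ^ 4)) := by
        have := mul_le_mul_of_nonneg_left hEs (by positivity : (0 : ℝ) ≤ 4 * q)
        linarith
    _ ≤ (2 * C₄ ^ 2 + 256) * NN d k / (q : ℝ) ^ 2 := by
        have h2 : (q : ℝ) ^ 4 ≤ 16 * (d : ℝ) ^ 4 := by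
          calc (q : ℝ) ^ 4 ≤ (2 * (d : ℝ)) ^ 4 := pow_le_pow_left₀ hq0.le hqd 4
            _ = 16 * (d : ℝ) ^ 4 := by ring
        have h3 : 4 * (q : ℝ) * (q * (4 * NN d k / (d : ℝ) ^ 4)) ≤ 256 * NN d k / (q : ℝ) ^ 2 := by
          rw [le_div_iff₀ (by positivity)]
          have h4 : 4 * (q : ℝ) * (q * (4 * NN d k / (d : ℝ) ^ 4)) * (q : ℝ) ^ 2 =
              16 * NN d k * (q ^ 4 / (d : ℝ) ^ 4) := by
            field_simp
            ring
          rw [h4]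
          have h5 : (q : ℝ) ^ 4 / (d : ℝ) ^ 4 ≤ 16 := by
            rw [div_le_iff₀ (by positivity)]
            exact h2
          nlinarith [mul_le_mul_of_nonneg_left h5 (by positivity : (0 : ℝ) ≤ 16 * NN d k)]
        have h6 : (2 * C₄ ^ 2 + 256) * NN d k / (q : ℝ) ^ 2 =
            2 * C₄ ^ 2 / (q : ℝ) ^ 2 * NN d k + 256 * NN d k / (q : ℝ) ^ 2 := by
          ring
        rw [h6]
        linarith

theorem grad_bq {ε : ℝ} (hε : 0 < ε) (hε1 : ε ≤ 1) : ∃ (t : ℕ) (C₅ : ℝ), Even t ∧ 20 ≤ t ∧ 0 < C₅ ∧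
    WOP ε fun d k q f => ∀ (c : Fin q) (σ τ : Stp d),
      ∑ x : Site d k, (PP^[t] (bq c f) (x + sv σ) - PP^[t] (bq c f) (x + sv τ)) ^ 2 ≤ C₅ * NN d k / (q : ℝ) ^ 2 := by
  obtain ⟨t, C₄, ht, ht20, hC, hW⟩ := iso_adapt hε hε1
  refine ⟨t, 2 * C₄ ^ 2 + 256, ht, ht20, by positivity, ?_⟩
  refine hW.mono ⟨1, fun d q hd hq1 hq2 => Eventually.of_forall fun k f _ hP c σ τ => ?_⟩
  have hq : 1 ≤ q := by
    have := c.2
    omega
  have hqd : (q : ℝ) ≤ 2 * d := by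
    have : 0 ≤ ε * (d : ℝ) := by positivity
    linarith [sub_mul 2 ε (d : ℝ)]
  exact N4_det hd hq hqd hC t f c σ τ (fun b c' φ h1 h2 => hP b c c' σ τ φ h1 h2)

end Pool.Agent.THR

end

/-! ### from `Lib_MP_2c424f_thr.N6` -/

section

/-!
# THR N6: gradients of the conditional means, homogeneity (paper proof: N6, N7, M0)

* `grad_gg`: `∇PP^t gg = ∇PP^t bq - ∇PP^t (bq - gg)`, `(x+y)² ≤ 2x²+2y²`: `2C₅N/q² + 8N/d^4 ≤ C₆N/q²`.
* `log_convex`: `V k = ∑_x (PP^k F x)²`, `V k ^ 2 ≤ V (k-1) V (k+1)` (`PPt_adj`, Cauchy-Schwarz), so `V 1 ^ t ≤ V 0 ^ (t-1) V t`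
  (if `V 0 = 0` or `V 1 = 0` trivial; otherwise the ratios increase).
* `hom`: `F x = gg c f (x+σ) - gg c f (x+τ)`; `V 0 ≤ 4 ∑ gg² ≤ 4(N/c1² + q² irr) ≤ C N` (`gg ≤ 1/c1` at regular sites, `≤ q` elsewhere,
  `avail 2`), `V t ≤ C₆N/q²`; if `V 1 > δ N` then `(δN)^t ≤ (CN)^(t-1) C₆ N/q²`, impossible for `q` large.
  `hh c f v = ra · PP (gg c f) v`.
-/

set_option autoImplicit false

open Finset Filter

namespace Pool.Agent.THR

open Pool.Agent.LO Pool.Agent.LIN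

private theorem N6_shift {d k : ℕ} (F : Site d k → ℝ) (v : Site d k) : ∑ x, F (x + v) = ∑ x, F x :=
  Fintype.sum_equiv (Equiv.addRight v) _ _ (fun _ => rfl)

theorem grad_gg {ε : ℝ} (hε : 0 < ε) (hε1 : ε ≤ 1) : ∃ (t : ℕ) (C₆ : ℝ), Even t ∧ 20 ≤ t ∧ 0 < C₆ ∧
    WOP ε fun d k q f => ∀ (c : Fin q) (σ τ : Stp d),
      ∑ x : Site d k, (PP^[t] (gg c f) (x + sv σ) - PP^[t] (gg c f) (x + sv τ)) ^ 2 ≤ C₆ * NN d k / (q : ℝ) ^ 2 := by
  obtain ⟨t, C₅, hte, ht, hC₅, hW⟩ := grad_bq hε hε1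
  refine ⟨t, 2 * C₅ + 128, hte, ht, by linarith, ?_⟩
  have hS := smooth hε hε1 t hte ht
  refine (hW.and hS).mono ((EvT_reg hε hε1 1).mono ?_)
  rintro d k q ⟨hd, hq, -, hεq, hq2, -, -, -⟩ f hf ⟨h1, h2⟩ c σ τ
  have hN : (0 : ℝ) ≤ NN d k := by unfold NN; positivity
  have h3 := h2 c
  set G : Site d k → ℝ := fun x => PP^[t] (bq c f) x - PP^[t] (gg c f) x with hG
  have hpt : ∀ x : Site d k, (PP^[t] (gg c f) (x + sv σ) - PP^[t] (gg c f) (x + sv τ)) ^ 2 ≤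
      2 * (PP^[t] (bq c f) (x + sv σ) - PP^[t] (bq c f) (x + sv τ)) ^ 2 +
        (4 * G (x + sv σ) ^ 2 + 4 * G (x + sv τ) ^ 2) := by
    intro x
    have e : PP^[t] (gg c f) (x + sv σ) - PP^[t] (gg c f) (x + sv τ) =
        (PP^[t] (bq c f) (x + sv σ) - PP^[t] (bq c f) (x + sv τ)) - G (x + sv σ) + G (x + sv τ) := by
      simp only [hG]; ring
    rw [e]
    nlinarith [sq_nonneg ((PP^[t] (bq c f) (x + sv σ) - PP^[t] (bq c f) (x + sv τ)) + (G (x + sv σ) - G (x + sv τ))),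
      sq_nonneg (G (x + sv σ) + G (x + sv τ))]
  have hsum : ∑ x : Site d k, (PP^[t] (gg c f) (x + sv σ) - PP^[t] (gg c f) (x + sv τ)) ^ 2 ≤
      2 * ∑ x : Site d k, (PP^[t] (bq c f) (x + sv σ) - PP^[t] (bq c f) (x + sv τ)) ^ 2 + 8 * ∑ x, G x ^ 2 := by
    calc _ ≤ ∑ x : Site d k, (2 * (PP^[t] (bq c f) (x + sv σ) - PP^[t] (bq c f) (x + sv τ)) ^ 2 +
        (4 * G (x + sv σ) ^ 2 + 4 * G (x + sv τ) ^ 2)) := Finset.sum_le_sum fun x _ => hpt x
      _ = _ := by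
        rw [Finset.sum_add_distrib, Finset.sum_add_distrib, ← Finset.mul_sum, ← Finset.mul_sum, ← Finset.mul_sum,
          N6_shift (fun x => G x ^ 2), N6_shift (fun x => G x ^ 2)]
        ring
  have hGs : ∑ x, G x ^ 2 ≤ NN d k / (d : ℝ) ^ 4 := h3
  have h4 : NN d k / (d : ℝ) ^ 4 ≤ 16 * NN d k / (q : ℝ) ^ 2 := by
    have hqp : (0 : ℝ) < (q : ℝ) ^ 2 := by positivity
    have hdp : (0 : ℝ) < (d : ℝ) ^ 4 := by positivity
    rw [div_le_div_iff₀ hdp hqp]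
    have hq2d : (q : ℝ) ≤ 2 * d := by nlinarith
    have : (q : ℝ) ^ 2 ≤ 16 * (d : ℝ) ^ 4 := by
      have h5 : (q : ℝ) ^ 2 ≤ (2 * d) ^ 2 := by gcongr
      have h6 : (d : ℝ) ^ 2 ≤ (d : ℝ) ^ 4 := pow_le_pow_right₀ hd (by norm_num)
      nlinarith
    nlinarith
  calc _ ≤ 2 * (C₅ * NN d k / (q : ℝ) ^ 2) + 8 * (16 * NN d k / (q : ℝ) ^ 2) := by
        linarith [h1 c σ τ]
    _ = _ := by ring

private theorem N6_step {d k : ℕ} (G : Site d k → ℝ) :
    (∑ x, PP G x ^ 2) ^ 2 ≤ (∑ x, G x ^ 2) * ∑ x, PP (PP G) x ^ 2 := by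
  have h1 : ∑ x, PP G x ^ 2 = ∑ x, G x * PP (PP G) x := by
    have h := PPt_adj 1 G (PP G)
    simp only [Function.iterate_one] at h
    rw [← h]
    exact Finset.sum_congr rfl fun x _ => by ring
  rw [h1]
  exact Finset.sum_mul_sq_le_sq_mul_sq _ _ _

theorem log_convex {d k : ℕ} (t : ℕ) (ht : 1 ≤ t) (F : Site d k → ℝ) :
    (∑ x, PP F x ^ 2) ^ t ≤ (∑ x, F x ^ 2) ^ (t - 1) * ∑ x, PP^[t] F x ^ 2 := by
  set V : ℕ → ℝ := fun n => ∑ x, PP^[n] F x ^ 2 with hV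
  have hV0 : ∀ n, 0 ≤ V n := fun n => Finset.sum_nonneg fun x _ => sq_nonneg _
  have hst : ∀ n, V (n + 1) ^ 2 ≤ V n * V (n + 2) := by
    intro n
    have h := N6_step (PP^[n] F)
    have e1 : PP (PP^[n] F) = PP^[n + 1] F := by rw [Function.iterate_succ_apply']
    have e2 : PP (PP^[n + 1] F) = PP^[n + 2] F := by rw [← Function.iterate_succ_apply' PP (n + 1)]
    rw [e1, e2] at h
    exact h
  have hR : ∀ n, V 1 * V n ≤ V 0 * V (n + 1) := by
    intro n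
    induction n with
    | zero => exact le_of_eq (mul_comm _ _)
    | succ n ih =>
      rcases (hV0 (n + 1)).eq_or_lt with h0 | h0
      · rw [← h0, mul_zero]; exact mul_nonneg (hV0 _) (hV0 _)
      · have h1 : V 1 * V (n + 1) * V (n + 1) ≤ V 0 * V (n + 2) * V (n + 1) := by
          calc V 1 * V (n + 1) * V (n + 1) = V 1 * V (n + 1) ^ 2 := by ring
            _ ≤ V 1 * (V n * V (n + 2)) := mul_le_mul_of_nonneg_left (hst n) (hV0 1)
            _ = (V 1 * V n) * V (n + 2) := by ring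
            _ ≤ (V 0 * V (n + 1)) * V (n + 2) := mul_le_mul_of_nonneg_right ih (hV0 _)
            _ = _ := by ring
        exact le_of_mul_le_mul_right h1 h0
  have hmain : ∀ n, V 1 ^ (n + 1) ≤ V 0 ^ n * V (n + 1) := by
    intro n
    induction n with
    | zero => simp
    | succ n ih =>
      calc V 1 ^ (n + 1 + 1) = V 1 ^ (n + 1) * V 1 := pow_succ _ _
        _ ≤ V 0 ^ n * V (n + 1) * V 1 := mul_le_mul_of_nonneg_right ih (hV0 1)
        _ = V 0 ^ n * (V 1 * V (n + 1)) := by ring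
        _ ≤ V 0 ^ n * (V 0 * V (n + 1 + 1)) := mul_le_mul_of_nonneg_left (hR (n + 1)) (pow_nonneg (hV0 0) _)
        _ = _ := by ring
  obtain ⟨n, rfl⟩ : ∃ n, t = n + 1 := ⟨t - 1, by omega⟩
  exact hmain n

theorem hh_eq {d k q : ℕ} (hd : 1 ≤ d) (hq : 1 ≤ q) (c : Fin q) (f : Site d k → Fin q) (v : Site d k) :
    hh c f v = ra d q * PP (gg c f) v := by
  have hd' : (d : ℝ) ≠ 0 := by positivity
  have hq' : (q : ℝ) ≠ 0 := by positivity
  unfold hh ra PP gg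
  rw [mul_div_assoc', Finset.mul_sum, Finset.sum_div]
  refine Finset.sum_congr rfl fun σ _ => ?_
  field_simp

open scoped Classical in
private theorem N6_gg {d k q : ℕ} {ε : ℝ} (hd : 1 ≤ d) (hq : 1 ≤ q) (hq2 : (q : ℝ) ≤ 2 * d)
    {f : Site d k → Fin q} (hf : Prp f) (hirr : irr ε f ≤ NN d k / (d : ℝ) ^ 4) (c : Fin q) :
    ∑ x : Site d k, gg c f x ^ 2 ≤ (1 / c1 ε ^ 2 + 4) * NN d k := by
  have hc1 : 0 < c1 ε := by unfold c1; positivity
  have hq0 : (0 : ℝ) < q := by positivity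
  have hd0 : (1 : ℝ) ≤ d := by exact_mod_cast hd
  have hN : (0 : ℝ) ≤ NN d k := by unfold NN; positivity
  have hz : ∀ v, 0 ≤ zz f v c ∧ zz f v c ≤ 1 := by
    intro v
    rcases zz_zero_or_one f v c with h | h <;> rw [h] <;> norm_num
  have hpt : ∀ x : Site d k, gg c f x ^ 2 ≤ 1 / c1 ε ^ 2 + (q : ℝ) ^ 2 * if (av f x : ℝ) < c1 ε * q then 1 else 0 := by
    intro x
    have hav : (1 : ℝ) ≤ av f x := by exact_mod_cast av_pos hf x
    have hg0 : 0 ≤ gg c f x := by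
      unfold gg; exact div_nonneg (mul_nonneg hq0.le (hz x).1) (by positivity)
    have hc2 : 0 ≤ 1 / c1 ε ^ 2 := by positivity
    split_ifs with h
    · have : gg c f x ≤ q := by
        unfold gg
        rw [div_le_iff₀ (by positivity)]
        nlinarith [(hz x).1, (hz x).2]
      have := pow_le_pow_left₀ hg0 this 2
      linarith
    · push Not at h
      have : gg c f x ≤ 1 / c1 ε := by
        unfold gg
        rw [div_le_div_iff₀ (by positivity) hc1]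
        nlinarith [(hz x).1, (hz x).2, mul_pos hc1 hq0]
      have := pow_le_pow_left₀ hg0 this 2
      rw [div_pow, one_pow] at this
      linarith
  calc ∑ x : Site d k, gg c f x ^ 2 ≤ ∑ x : Site d k, (1 / c1 ε ^ 2 + (q : ℝ) ^ 2 *
        if (av f x : ℝ) < c1 ε * q then 1 else 0) := Finset.sum_le_sum fun x _ => hpt x
    _ = 1 / c1 ε ^ 2 * NN d k + (q : ℝ) ^ 2 * irr ε f := by
        rw [Finset.sum_add_distrib, ← Finset.mul_sum]
        congr 1
        · rw [Finset.sum_const, Finset.card_univ, nsmul_eq_mul]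
          have : ((Fintype.card (Site d k) : ℕ) : ℝ) = NN d k := card_site d k
          rw [this, mul_comm]
        · unfold irr
          rw [Finset.sum_ite, Finset.sum_const_zero, add_zero, Finset.sum_const, nsmul_eq_mul, mul_one]
    _ ≤ 1 / c1 ε ^ 2 * NN d k + (2 * (d : ℝ)) ^ 2 * (NN d k / (d : ℝ) ^ 4) := by
        gcongr
        unfold irr; positivity
    _ ≤ 1 / c1 ε ^ 2 * NN d k + 4 * NN d k := by
        have h7 : (2 * (d : ℝ)) ^ 2 * (NN d k / (d : ℝ) ^ 4) ≤ 4 * NN d k := by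
          rw [mul_div_assoc', div_le_iff₀ (by positivity)]
          have h6 : (d : ℝ) ^ 2 ≤ (d : ℝ) ^ 4 := pow_le_pow_right₀ hd0 (by norm_num)
          nlinarith
        linarith
    _ = _ := by ring

/-- deterministic form of homogeneity -/
theorem hom_det {ε : ℝ} (hε : 0 < ε) (hε1 : ε ≤ 1) (t : ℕ) (ht : 1 ≤ t) (C₆ : ℝ) (hC : 0 < C₆) (δ : ℝ) (hδ : 0 < δ) :
    EvT ε fun d k q => ∀ f ∈ prps d k q, irr ε f ≤ NN d k / (d : ℝ) ^ 4 → ∀ (c : Fin q) (σ τ : Stp d),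
      ∑ x : Site d k, (PP^[t] (gg c f) (x + sv σ) - PP^[t] (gg c f) (x + sv τ)) ^ 2 ≤ C₆ * NN d k / (q : ℝ) ^ 2 →
      ∑ x : Site d k, (hh c f (x + sv σ) - hh c f (x + sv τ)) ^ 2 ≤ δ * NN d k := by
  have hc1 : 0 < c1 ε := by unfold c1; positivity
  have hA0 : 0 < A0 ε := by unfold A0; positivity
  set C : ℝ := 4 * (1 / c1 ε ^ 2 + 4) with hCdef
  have hCpos : 0 < C := by positivity
  set δ' : ℝ := δ / A0 ε ^ 2 with hδ'
  have hδ'pos : 0 < δ' := by positivity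
  refine (EvT_reg hε hε1 (max 1 (C ^ (t - 1) * C₆ / δ' ^ t))).mono ?_
  rintro d k q ⟨hd, hq, -, hεq, hq2, -, hra, hraq⟩ f hf hirr c σ τ hV
  have hd1 : (1 : ℝ) ≤ d := le_trans (le_max_left _ _) hd
  have hq1 : (1 : ℝ) ≤ q := le_trans (le_max_left _ _) hq
  have hqM : C ^ (t - 1) * C₆ / δ' ^ t ≤ q := le_trans (le_max_right _ _) hq
  have hd1' : 1 ≤ d := by exact_mod_cast hd1
  have hq1' : 1 ≤ q := by exact_mod_cast hq1
  have hN : (0 : ℝ) < NN d k := by unfold NN; positivity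
  have hq2d : (q : ℝ) ≤ 2 * d := by nlinarith
  have hfP : Prp f := by
    classical
    unfold prps at hf
    rw [Finset.mem_filter] at hf
    exact hf.2
  have hgs := N6_gg hd1' hq1' hq2d hfP hirr c
  set F : Site d k → ℝ := fun x => gg c f (x + sv σ) - gg c f (x + sv τ) with hF
  -- V 0
  have hV0 : ∑ x, F x ^ 2 ≤ C * NN d k := by
    have : ∀ x, F x ^ 2 ≤ 2 * gg c f (x + sv σ) ^ 2 + 2 * gg c f (x + sv τ) ^ 2 := by
      intro x
      simp only [hF]
      nlinarith [sq_nonneg (gg c f (x + sv σ) + gg c f (x + sv τ))]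
    calc ∑ x, F x ^ 2 ≤ ∑ x, (2 * gg c f (x + sv σ) ^ 2 + 2 * gg c f (x + sv τ) ^ 2) :=
          Finset.sum_le_sum fun x _ => this x
      _ = 4 * ∑ x, gg c f x ^ 2 := by
          rw [Finset.sum_add_distrib, ← Finset.mul_sum, ← Finset.mul_sum, N6_shift (fun x => gg c f x ^ 2),
            N6_shift (fun x => gg c f x ^ 2)]
          ring
      _ ≤ 4 * ((1 / c1 ε ^ 2 + 4) * NN d k) := by linarith
      _ = _ := by rw [hCdef]; ring
  have hPt : ∀ (n : ℕ) (x : Site d k), PP^[n] F x = PP^[n] (gg c f) (x + sv σ) - PP^[n] (gg c f) (x + sv τ) := by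
    intro n x
    rw [hF, PPt_sub n (fun y => gg c f (y + sv σ)) (fun y => gg c f (y + sv τ)) x, PPt_transl, PPt_transl]
  have hVt : ∑ x, PP^[t] F x ^ 2 ≤ C₆ * NN d k / (q : ℝ) ^ 2 := by
    simpa only [hPt t] using hV
  have hhs : ∑ x : Site d k, (hh c f (x + sv σ) - hh c f (x + sv τ)) ^ 2 = ra d q ^ 2 * ∑ x, PP F x ^ 2 := by
    rw [Finset.mul_sum]
    refine Finset.sum_congr rfl fun x _ => ?_
    have h1 := hPt 1 x
    simp only [Function.iterate_one] at h1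
    rw [h1, hh_eq hd1' hq1', hh_eq hd1' hq1']
    ring
  have hra0 : 0 ≤ ra d q := by unfold ra; positivity
  have hlc := log_convex t ht F
  have hV1 : ∑ x, PP F x ^ 2 ≤ δ' * NN d k := by
    by_contra hcon
    push Not at hcon
    have h1 : (δ' * NN d k) ^ t < (∑ x, PP F x ^ 2) ^ t :=
      pow_lt_pow_left₀ hcon (by positivity) (by omega)
    have h2 : (∑ x, F x ^ 2) ^ (t - 1) * ∑ x, PP^[t] F x ^ 2 ≤
        (C * NN d k) ^ (t - 1) * (C₆ * NN d k / (q : ℝ) ^ 2) := by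
      have h00 : 0 ≤ ∑ x, F x ^ 2 := Finset.sum_nonneg fun x _ => sq_nonneg _
      have h01 : 0 ≤ ∑ x, PP^[t] F x ^ 2 := Finset.sum_nonneg fun x _ => sq_nonneg _
      exact mul_le_mul (pow_le_pow_left₀ h00 hV0 _) hVt h01 (by positivity)
    have h3 : (δ' * NN d k) ^ t < (C * NN d k) ^ (t - 1) * (C₆ * NN d k / (q : ℝ) ^ 2) := by linarith
    have h4 : (C * NN d k) ^ (t - 1) * (C₆ * NN d k / (q : ℝ) ^ 2) =
        (C ^ (t - 1) * C₆ / (q : ℝ) ^ 2) * NN d k ^ t := by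
      obtain ⟨n, rfl⟩ : ∃ n, t = n + 1 := ⟨t - 1, by omega⟩
      simp only [Nat.add_sub_cancel]
      rw [mul_pow, pow_succ (NN d k) n]
      ring
    rw [h4, mul_pow] at h3
    have h5 : δ' ^ t < C ^ (t - 1) * C₆ / (q : ℝ) ^ 2 := lt_of_mul_lt_mul_right h3 (by positivity)
    rw [lt_div_iff₀ (by positivity)] at h5
    rw [div_le_iff₀ (by positivity)] at hqM
    have h6 : (q : ℝ) ≤ (q : ℝ) ^ 2 := by nlinarith
    have h7 : (q : ℝ) * δ' ^ t ≤ δ' ^ t * (q : ℝ) ^ 2 := by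
      rw [mul_comm]
      exact mul_le_mul_of_nonneg_left h6 (by positivity)
    linarith
  rw [hhs]
  have hra2 : ra d q ^ 2 ≤ A0 ε ^ 2 := pow_le_pow_left₀ hra0 hra 2
  calc ra d q ^ 2 * ∑ x, PP F x ^ 2 ≤ A0 ε ^ 2 * (δ' * NN d k) :=
        mul_le_mul hra2 hV1 (Finset.sum_nonneg fun x _ => sq_nonneg _) (by positivity)
    _ = δ * NN d k := by
        rw [hδ']
        field_simp

end Pool.Agent.THR

end

/-! ### from `Lib_MP_2c424f_thr.C3b` -/

section

/-!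
# THR C3b: the smoothed indicators and the densities (paper proof: C3 (ii)), deterministic

`a PP^(2t+1) bq ≈ a PP^(2t+1) gg = PP^(2t) hh ≈ hh`: `smo` and `PPt_l2` (applied to `PP^(t+1)`), `hh_eq`, `sm2`; Cauchy-Schwarz from `ℓ²` to `ℓ¹`, mean over the colours.
-/

set_option autoImplicit false

open Finset Filter

namespace Pool.Agent.THR

open Pool.Agent.LO Pool.Agent.LIN

private theorem C3b_NN (d k : ℕ) : 0 < NN d k := by
  unfold NN; positivity

private theorem C3b_l1 {d k : ℕ} (φ : Site d k → ℝ) (M : ℝ) (hM : 0 ≤ M)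
    (h : ∑ u, φ u ^ 2 ≤ M ^ 2 * NN d k) : ∑ u, |φ u| ≤ M * NN d k := by
  have hN := C3b_NN d k
  have h1 : (∑ u, |φ u|) ^ 2 ≤ (M * NN d k) ^ 2 := by
    have h2 := sq_sum_le_card_mul_sum_sq (s := (Finset.univ : Finset (Site d k))) (f := fun u => |φ u|)
    rw [Finset.card_univ, card_site] at h2
    simp only [sq_abs] at h2
    calc (∑ u, |φ u|) ^ 2 ≤ NN d k * ∑ u, φ u ^ 2 := h2
      _ ≤ NN d k * (M ^ 2 * NN d k) := mul_le_mul_of_nonneg_left h hN.le
      _ = (M * NN d k) ^ 2 := by ring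
  exact (sq_le_sq₀ (Finset.sum_nonneg fun u _ => abs_nonneg _) (mul_nonneg hM hN.le)).mp h1

private theorem C3b_split {d k q : ℕ} (hd : 1 ≤ d) (hq : 1 ≤ q) (t : ℕ) (c : Fin q) (f : Site d k → Fin q)
    (u : Site d k) : ra d q * PP^[2 * t + 1] (bq c f) u - hh c f u =
      ra d q * PP^[t + 1] (fun x => PP^[t] (bq c f) x - PP^[t] (gg c f) x) u +
        (PP^[2 * t] (hh c f) u - hh c f u) := by
  have h1 : PP^[2 * t] (hh c f) u = ra d q * PP^[2 * t + 1] (gg c f) u := by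
    have h2 : hh c f = fun v => ra d q * PP (gg c f) v := funext fun v => hh_eq hd hq c f v
    rw [h2, PPt_mul, Function.iterate_succ_apply]
  have h3 : ∀ g : Site d k → ℝ, PP^[2 * t + 1] g = PP^[t + 1] (PP^[t] g) := by
    intro g
    rw [← Function.iterate_add_apply, show t + 1 + t = 2 * t + 1 by omega]
  rw [h1, PPt_sub, h3 (bq c f), h3 (gg c f)]
  ring

/-- (ii) -/
theorem dens_det {ε : ℝ} (hε : 0 < ε) (hε1 : ε ≤ 1) (C₆ : ℝ) (t : ℕ) (ht : Even t) (ht' : 20 ≤ t) (δ : ℝ) (hδ : 0 < δ) :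
    ∃ δ' : ℝ, 0 < δ' ∧ EvT ε fun d k q => ∀ f ∈ prps d k q, Good ε δ' C₆ t f →
      ∑ u : Site d k, mc (fun γ => |ra d q * PP^[2 * t + 1] (bq γ f) u - hh γ f u|) ≤ δ * NN d k := by
  have hA0 : 0 < A0 ε := by unfold A0; positivity
  refine ⟨(δ / 2) ^ 2, by positivity, ⌈2 * A0 ε / δ⌉₊ + 1, fun d q hd hq1 _ =>
    Filter.Eventually.of_forall fun k f _ hG => ?_⟩
  have hd1 : 1 ≤ d := by omega
  have hdR : (1 : ℝ) ≤ d := by exact_mod_cast hd1
  have hqR : (0 : ℝ) < q := lt_of_lt_of_le (by positivity) hq1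
  have hq : 1 ≤ q := by exact_mod_cast hqR
  have hN := C3b_NN d k
  have hdA : 2 * A0 ε / δ ≤ d := by
    refine (Nat.le_ceil _).trans ?_
    exact_mod_cast (by omega : ⌈2 * A0 ε / δ⌉₊ ≤ d)
  have hra0 : 0 ≤ ra d q := by unfold ra; positivity
  have hra : ra d q ≤ A0 ε := by
    unfold ra A0
    rw [div_le_div_iff₀ hqR hε]
    nlinarith
  have hsmall : ra d q / (d : ℝ) ^ 2 ≤ δ / 2 := by
    rw [div_le_iff₀ (by positivity)]
    have h1 : 2 * A0 ε ≤ d * δ := by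
      rwa [div_le_iff₀ hδ] at hdA
    have h2 : (d : ℝ) ≤ (d : ℝ) ^ 2 := by nlinarith
    have h3 : (d : ℝ) * δ ≤ (d : ℝ) ^ 2 * δ := mul_le_mul_of_nonneg_right h2 hδ.le
    linarith
  have key : ∀ γ : Fin q, ∑ u : Site d k, |ra d q * PP^[2 * t + 1] (bq γ f) u - hh γ f u| ≤
      δ * NN d k := by
    intro γ
    have h1 : ∑ u : Site d k, (ra d q * PP^[t + 1] (fun x => PP^[t] (bq γ f) x - PP^[t] (gg γ f) x) u) ^ 2 ≤
        (δ / 2) ^ 2 * NN d k := by
      have h2 := PPt_l2 hd1 (t + 1) (fun x => PP^[t] (bq γ f) x - PP^[t] (gg γ f) x)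
      have h3 := hG.smo γ
      calc ∑ u : Site d k, (ra d q * PP^[t + 1] (fun x => PP^[t] (bq γ f) x - PP^[t] (gg γ f) x) u) ^ 2
          = ra d q ^ 2 * ∑ u : Site d k, PP^[t + 1] (fun x => PP^[t] (bq γ f) x - PP^[t] (gg γ f) x) u ^ 2 := by
            rw [Finset.mul_sum]
            exact Finset.sum_congr rfl fun u _ => by ring
        _ ≤ ra d q ^ 2 * (NN d k / (d : ℝ) ^ 4) :=
            mul_le_mul_of_nonneg_left (h2.trans h3) (by positivity)
        _ = (ra d q / (d : ℝ) ^ 2) ^ 2 * NN d k := by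
            field_simp
        _ ≤ (δ / 2) ^ 2 * NN d k := by
            apply mul_le_mul_of_nonneg_right _ hN.le
            exact pow_le_pow_left₀ (by positivity) hsmall 2
    have h4 := C3b_l1 _ (δ / 2) (by positivity) h1
    have h5 := C3b_l1 (fun u => PP^[2 * t] (hh γ f) u - hh γ f u) (δ / 2) (by positivity) (hG.sm2 γ)
    calc ∑ u : Site d k, |ra d q * PP^[2 * t + 1] (bq γ f) u - hh γ f u|
        ≤ ∑ u : Site d k, (|ra d q * PP^[t + 1] (fun x => PP^[t] (bq γ f) x - PP^[t] (gg γ f) x) u| +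
            |PP^[2 * t] (hh γ f) u - hh γ f u|) := by
          refine Finset.sum_le_sum fun u _ => ?_
          rw [C3b_split hd1 hq]
          exact abs_add_le _ _
      _ ≤ δ / 2 * NN d k + δ / 2 * NN d k := by
          rw [Finset.sum_add_distrib]
          exact add_le_add h4 h5
      _ = δ * NN d k := by ring
  unfold mc
  rw [← Finset.sum_div, Finset.sum_comm, div_le_iff₀ hqR]
  calc ∑ γ : Fin q, ∑ u : Site d k, |ra d q * PP^[2 * t + 1] (bq γ f) u - hh γ f u|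
      ≤ ∑ _γ : Fin q, δ * NN d k := Finset.sum_le_sum fun γ _ => key γ
    _ = δ * NN d k * q := by
        rw [Finset.sum_const, Finset.card_univ, Fintype.card_fin, nsmul_eq_mul]
        ring

end Pool.Agent.THR

end
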