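import Pool.Agent.Lib_MP_2c424f_ms.M28
import Pool.Agent.Lib_MP_2c424f_ms.M32

/-!
# MP_2c424f_pr: library of SharpThreshold and BoundaryThreshold (merged): merged library part M33

Concatenation of smaller files (each in its own section), only to save build time.
-/

namespace Pool.Agent.LO
end Pool.Agent.LO

namespace Pool.Agent.LIN
end Pool.Agent.LIN

/-! ### from `Lib_MP_2c424f_thr.C3` -/

section

/-!
# THR C3: the length of the code (paper proof: C3), deterministic

`b` = the coded class, `σ₀` a fixed step.  For `f` good with small `δ'`: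
(i) `∑_{u ∈ b} PP^(2t+1) (bq (f u) f) u = (1/q) ∑_c ∑_{u ∈ b} bq c f u · PP^(2t+1) (bq c f) u = (1/q) ∑_c ∑_{u ∈ b} PP^t (bq c f) u · PP^(t+1) (bq c f) u`
   (`PPt_adj`; for even `t` the kernel preserves the class: `Kt_cls`), and `PP^t bq ≈ PP^t gg ≈ ya_u` (`smo`, `sm0`), `PP^(t+1) bq ≈ PP^(t+1) gg ≈ ya_{u+σ₀}` (`smo` and
   `PPt_l2`, `sm1`) in `ℓ²`, `0 ≤ ya ≤ e^a`; Cauchy-Schwarz: `= ∑_{u ∈ b} mc (ya_u ya_{u+σ₀}) ± small N`.
(ii) `log ∑_γ exp (-H_u γ) ≤ log (q al_u) + (mc exp (-H_u) - al_u)/al_u`, `|mc exp (-H_u) - al_u| ≤ mc |H_u - hh_u|` provided both are `≥ 0`; the sum over `u` is small: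
   `|H - a PP^(2t+1) bq|` (hypothesis), `a PP^(2t+1) bq ≈ a PP^(2t+1) gg = PP^(2t) hh ≈ hh` (`smo`, `PPt_l2`, `hh_eq`, `sm2`).
(iii) `log av_v ≤ log (q al_v) + (av_v/q - al_v)/al_v` (`avl`).
(iv) `a mc (ya_u ya_x) + log al_u + log al_x` with `x = u + σ₀`: `-mc (ya_u log ya_u) = mc (ya_u hh_u) + log al_u` (`ya_mean`), `mf`; `log al_x ≤ log α* + (al_x-α*)/α*`,
   `al_x = mc exp (-hh_x)`, `|hh_x - a ya_u|` (`mf` with the opposite step).  So it is `≤ mc (ψ(ya_u)) - 1 + log α* + errors = Phi - mc (L (ya_u)) + errors` since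
   `mc ya_u = 1` (`mc (ell (ya_u)) = ell 1`).
-/

set_option autoImplicit false

open Finset Filter

namespace Pool.Agent.THR

open Pool.Agent.LO Pool.Agent.LIN

/-- monotone in `δ` -/
private theorem C3_good_mono {d k q : ℕ} {ε δ δ' C₆ : ℝ} {t : ℕ} {f : Site d k → Fin q}
    (h : Good ε δ C₆ t f) (hδ : δ ≤ δ') : Good ε δ' C₆ t f := by
  have hN : 0 ≤ NN d k := by unfold NN; positivity
  have hb : δ * NN d k ≤ δ' * NN d k := mul_le_mul_of_nonneg_right hδ hN
  exact ⟨h.irr4, h.grad, h.smo, fun c σ τ => (h.hom c σ τ).trans hb, h.avl.trans hb,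
    fun c σ => (h.mf c σ).trans hb, fun c => (h.sm0 c).trans hb, fun c σ => (h.sm1 c σ).trans hb,
    fun c => (h.sm2 c).trans hb⟩

private theorem C3_log {x y : ℝ} (hx : 0 < x) (hy : 0 < y) :
    Real.log x ≤ Real.log y + (x - y) / y := by
  have h := Real.log_le_sub_one_of_pos (div_pos hx hy)
  rw [Real.log_div hx.ne' hy.ne'] at h
  have e : (x - y) / y = x / y - 1 := by field_simp
  linarith

private theorem C3_exp {x y : ℝ} (hx : 0 ≤ x) : Real.exp (-x) - Real.exp (-y) ≤ |x - y| := by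
  rcases le_total y x with h | h
  · have h1 : Real.exp (-x) ≤ Real.exp (-y) := Real.exp_le_exp.2 (by linarith)
    have h2 := abs_nonneg (x - y)
    linarith
  · have h1 : Real.exp (-y) = Real.exp (-x) * Real.exp (-(y - x)) := by
      rw [← Real.exp_add]
      congr 1
      ring
    have h2 : 1 - (y - x) ≤ Real.exp (-(y - x)) := by
      have := Real.add_one_le_exp (-(y - x))
      linarith
    have h3 : Real.exp (-x) ≤ 1 := Real.exp_le_one_iff.2 (by linarith)
    have h4 : 0 < Real.exp (-x) := Real.exp_pos _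
    have h5 : |x - y| = y - x := by rw [abs_sub_comm]; exact abs_of_nonneg (by linarith)
    rw [h5, h1]
    nlinarith [mul_le_mul_of_nonneg_left h2 h4.le, mul_le_mul_of_nonneg_right h3 (by linarith : 0 ≤ y - x)]

private theorem C3_PP_nonneg {d k : ℕ} (t : ℕ) (g : Site d k → ℝ) (hg : ∀ x, 0 ≤ g x)
    (u : Site d k) : 0 ≤ PP^[t] g u := by
  rw [Kt_repr]
  exact sum_nonneg fun y _ => mul_nonneg (Kt_nonneg t u y) (hg y)

private theorem C3_Hs_nonneg {d k q : ℕ} (t : ℕ) (R : Finset (Site d k)) (f : Site d k → Fin q)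
    (u : Site d k) (γ : Fin q) : 0 ≤ Hs t R f u γ := by
  unfold Hs
  refine mul_nonneg ?_ (C3_PP_nonneg _ _ (fun x => ?_) _)
  · unfold ra
    positivity
  · unfold bq
    split_ifs <;> positivity

private theorem C3_shift {d k : ℕ} (hk : 1 ≤ k) (b : Bool) (σ : Stp d) (φ : Site d k → ℝ) :
    ∑ v ∈ cls (!b) d k, φ v = ∑ u ∈ cls b d k, φ (u + sv σ) := by
  symm
  refine Finset.sum_bij' (fun u _ => u + sv σ) (fun v _ => v - sv σ) ?_ ?_ ?_ ?_ ?_
  · intro u hu
    show u + sv σ ∈ cls (!b) d k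
    rw [mem_cls_step hk, Bool.not_not]
    exact hu
  · intro v hv
    show v - sv σ ∈ cls b d k
    have h := mem_cls_step hk (!b) (v - sv σ) σ
    rw [sub_add_cancel, Bool.not_not] at h
    exact h.1 hv
  · intro u _
    exact add_sub_cancel_right _ _
  · intro v _
    exact sub_add_cancel _ _
  · intro u _
    rfl

private theorem C3_mc_tri {q : ℕ} (x y z : Fin q → ℝ) :
    mc (fun γ => |x γ - z γ|) ≤ mc (fun γ => |x γ - y γ|) + mc (fun γ => |y γ - z γ|) := by
  unfold mc
  rw [← add_div, ← sum_add_distrib]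
  refine div_le_div_of_nonneg_right (sum_le_sum fun γ _ => abs_sub_le _ _ _) (Nat.cast_nonneg _)

/-- one log-sum-exp -/
private theorem C3_lse {d k q : ℕ} {A : ℝ} (hq : 1 ≤ q) {f : Site d k → Fin q} (u : Site d k)
    (hal : Real.exp (-A) ≤ al f u) (H : Fin q → ℝ) (hH : ∀ γ, 0 ≤ H γ) :
    Real.log (∑ γ, Real.exp (-H γ)) ≤
      Real.log q + Real.log (al f u) + Real.exp A * mc (fun γ => |H γ - hh γ f u|) := by
  have hqr : (0 : ℝ) < q := by exact_mod_cast hq
  have halp : 0 < al f u := (Real.exp_pos _).trans_le hal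
  have hne : (univ : Finset (Fin q)).Nonempty := ⟨⟨0, hq⟩, mem_univ _⟩
  have hS : 0 < ∑ γ, Real.exp (-H γ) := sum_pos (fun γ _ => Real.exp_pos _) hne
  have h1 := C3_log hS (mul_pos hqr halp)
  rw [Real.log_mul hqr.ne' halp.ne'] at h1
  have h2 : ∑ γ, Real.exp (-H γ) - q * al f u ≤ q * mc (fun γ => |H γ - hh γ f u|) := by
    have e1 : (q : ℝ) * al f u = ∑ γ, Real.exp (-hh γ f u) := by
      unfold al
      field_simp
    have e2 : (q : ℝ) * mc (fun γ => |H γ - hh γ f u|) = ∑ γ, |H γ - hh γ f u| := by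
      unfold mc
      field_simp
    rw [e1, e2, ← sum_sub_distrib]
    exact sum_le_sum fun γ _ => C3_exp (hH γ)
  have h3 : (∑ γ, Real.exp (-H γ) - q * al f u) / (q * al f u) ≤
      Real.exp A * mc (fun γ => |H γ - hh γ f u|) := by
    rw [div_le_iff₀ (mul_pos hqr halp)]
    refine h2.trans ?_
    have hm : 0 ≤ mc (fun γ => |H γ - hh γ f u|) := by
      unfold mc
      exact div_nonneg (sum_nonneg fun _ _ => abs_nonneg _) hqr.le
    have h4 : 1 ≤ Real.exp A * al f u := by
      calc (1 : ℝ) = Real.exp A * Real.exp (-A) := by rw [← Real.exp_add]; simp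
        _ ≤ _ := mul_le_mul_of_nonneg_left hal (Real.exp_pos _).le
    calc (q : ℝ) * mc (fun γ => |H γ - hh γ f u|)
        = (q * mc (fun γ => |H γ - hh γ f u|)) * 1 := by ring
      _ ≤ (q * mc (fun γ => |H γ - hh γ f u|)) * (Real.exp A * al f u) :=
        mul_le_mul_of_nonneg_left h4 (mul_nonneg hqr.le hm)
      _ = _ := by ring
  linarith

/-- one availability -/
private theorem C3_av {d k q : ℕ} {A : ℝ} (hq : 1 ≤ q) {f : Site d k → Fin q} (v : Site d k)
    (hal : Real.exp (-A) ≤ al f v) (hav : 1 ≤ av f v) :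
    Real.log (av f v) ≤ Real.log q + Real.log (al f v) +
      Real.exp A * |(av f v : ℝ) / q - al f v| := by
  have hqr : (0 : ℝ) < q := by exact_mod_cast hq
  have halp : 0 < al f v := (Real.exp_pos _).trans_le hal
  have havp : (0 : ℝ) < av f v := by exact_mod_cast hav
  have h1 := C3_log (div_pos havp hqr) halp
  rw [Real.log_div havp.ne' hqr.ne'] at h1
  have h3 : ((av f v : ℝ) / q - al f v) / al f v ≤ Real.exp A * |(av f v : ℝ) / q - al f v| := by
    rw [div_le_iff₀ halp]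
    have h4 : 1 ≤ Real.exp A * al f v := by
      calc (1 : ℝ) = Real.exp A * Real.exp (-A) := by rw [← Real.exp_add]; simp
        _ ≤ _ := mul_le_mul_of_nonneg_left hal (Real.exp_pos _).le
    calc (av f v : ℝ) / q - al f v ≤ |(av f v : ℝ) / q - al f v| * 1 := by
          rw [mul_one]; exact le_abs_self _
      _ ≤ |(av f v : ℝ) / q - al f v| * (Real.exp A * al f v) :=
        mul_le_mul_of_nonneg_left h4 (abs_nonneg _)
      _ = _ := by ring
  linarith

theorem J_det {ε : ℝ} (hε : 0 < ε) (hε1 : ε ≤ 1) (C₆ : ℝ) (t : ℕ) (ht : Even t) (ht' : 20 ≤ t) (δ : ℝ) (hδ : 0 < δ) :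
    ∃ δ' : ℝ, 0 < δ' ∧ EvT ε fun d k q => ∀ (b : Bool) (m : ℝ), MFE (ra d q) m → ∀ f ∈ prps d k q,
      Good ε δ' C₆ t f → ∀ R : Finset (Site d k),
      ∑ u ∈ cls b d k, |Hs t R f u (f u) - ra d q * PP^[2 * t + 1] (bq (f u) f) u| ≤ δ' * NN d k →
      ∑ u ∈ cls b d k, mc (fun γ => |Hs t R f u γ - ra d q * PP^[2 * t + 1] (bq γ f) u|) ≤ δ' * NN d k →
      JJ b (Hs t R f) f ≤ NN d k / 2 * (2 * Real.log q + Phi (ra d q) m) -
        ∑ u ∈ cls b d k, mc (fun c => LL (ra d q) m (ya c f u)) + δ * NN d k := by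
  have hA0 : 0 < A0 ε := by unfold A0; positivity
  set E : ℝ := Real.exp (A0 ε) with hEdef
  have hE : 0 < E := Real.exp_pos _
  obtain ⟨δa, hδa, ha⟩ := corr_det hε hε1 C₆ t ht ht' (δ / (5 * A0 ε)) (by positivity)
  obtain ⟨δb, hδb, hb⟩ := dens_det hε hε1 C₆ t ht ht' (δ / (5 * E)) (by positivity)
  obtain ⟨δc, hδc, hc⟩ := env_det hε hε1 C₆ t (δ / 5) (by positivity)
  set s : ℝ := δ / (5 * E) with hsdef
  have hs : 0 < s := by positivity
  refine ⟨min (min δa δb) (min δc (min (δ / (5 * (1 + E))) (s ^ 2))), by positivity, ?_⟩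
  refine (((ha.and hb).and hc).and (EvT_reg hε hε1 1)).mono ?_
  rintro d k q ⟨⟨⟨Ha, Hb⟩, Hc⟩, hd1, hq1, hk1, -, -, -, hraA, -⟩ b m hm f hf hG R hR1 hR2
  have hd : 1 ≤ d := by exact_mod_cast hd1
  have hq : 1 ≤ q := by exact_mod_cast hq1
  have hk : 1 ≤ k := by exact_mod_cast hk1
  have hqr : (0 : ℝ) < q := by linarith
  have hN : 0 ≤ NN d k := by unfold NN; positivity
  have hprp : Prp f := by
    classical
    simpa [prps] using hf
  set δ' : ℝ := min (min δa δb) (min δc (min (δ / (5 * (1 + E))) (s ^ 2))) with hδ'def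
  have la : δ' ≤ δa := (min_le_left _ _).trans (min_le_left _ _)
  have lb : δ' ≤ δb := (min_le_left _ _).trans (min_le_right _ _)
  have lc : δ' ≤ δc := (min_le_right _ _).trans (min_le_left _ _)
  have ld : δ' ≤ δ / (5 * (1 + E)) :=
    (min_le_right _ _).trans ((min_le_right _ _).trans (min_le_left _ _))
  have le : δ' ≤ s ^ 2 := (min_le_right _ _).trans ((min_le_right _ _).trans (min_le_right _ _))
  have hra0 : 0 ≤ ra d q := by unfold ra; positivity
  set σ : Stp d := (⟨0, hd⟩, true) with hσdef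
  have c1 := Ha b σ f hf (C3_good_mono hG la)
  have c2 := Hb f hf (C3_good_mono hG lb)
  have c3 := Hc b σ m hm f hf (C3_good_mono hG lc)
  have hal : ∀ v, Real.exp (-A0 ε) ≤ al f v := fun v =>
    (Real.exp_le_exp.2 (by linarith)).trans (al_ge hq hprp v)
  -- (i)
  have s1 : ∑ u ∈ cls b d k, Hs t R f u (f u) ≤
      ra d q * ∑ u ∈ cls b d k, mc (fun c => ya c f u * ya c f (u + sv σ)) +
        δ / 5 * NN d k + δ' * NN d k := by
    have h1 : ∑ u ∈ cls b d k, Hs t R f u (f u) ≤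
        ∑ u ∈ cls b d k, ra d q * PP^[2 * t + 1] (bq (f u) f) u + δ' * NN d k := by
      refine le_trans ?_ (add_le_add_right hR1 _)
      rw [← sum_add_distrib]
      refine sum_le_sum fun u _ => ?_
      have := le_abs_self (Hs t R f u (f u) - ra d q * PP^[2 * t + 1] (bq (f u) f) u)
      linarith
    rw [← mul_sum] at h1
    have h2 := mul_le_mul_of_nonneg_left c1 hra0
    have h3 : ra d q * (δ / (5 * A0 ε) * NN d k) ≤ δ / 5 * NN d k := by
      have e1 : A0 ε * (δ / (5 * A0 ε) * NN d k) = δ / 5 * NN d k := by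
        field_simp
      rw [← e1]
      exact mul_le_mul_of_nonneg_right hraA (by positivity)
    linarith
  -- (ii)
  have s2 : ∑ u ∈ cls b d k, Real.log (∑ γ, Real.exp (-Hs t R f u γ)) ≤
      NN d k / 2 * Real.log q + ∑ u ∈ cls b d k, Real.log (al f u) +
        E * (δ' * NN d k) + δ / 5 * NN d k := by
    have h1 : ∑ u ∈ cls b d k, Real.log (∑ γ, Real.exp (-Hs t R f u γ)) ≤
        ∑ u ∈ cls b d k, (Real.log q + Real.log (al f u) +
          E * (mc (fun γ => |Hs t R f u γ - ra d q * PP^[2 * t + 1] (bq γ f) u|) +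
            mc (fun γ => |ra d q * PP^[2 * t + 1] (bq γ f) u - hh γ f u|))) := by
      refine sum_le_sum fun u _ => ?_
      refine (C3_lse hq u (hal u) (fun γ => Hs t R f u γ) (C3_Hs_nonneg t R f u)).trans ?_
      have := mul_le_mul_of_nonneg_left (C3_mc_tri (fun γ => Hs t R f u γ)
        (fun γ => ra d q * PP^[2 * t + 1] (bq γ f) u) (fun γ => hh γ f u)) hE.le
      linarith
    have h2 : ∑ u ∈ cls b d k, mc (fun γ => |ra d q * PP^[2 * t + 1] (bq γ f) u - hh γ f u|) ≤
        δ / (5 * E) * NN d k := by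
      refine le_trans ?_ c2
      refine sum_le_sum_of_subset_of_nonneg (subset_univ _) fun u _ _ => ?_
      unfold mc
      exact div_nonneg (sum_nonneg fun _ _ => abs_nonneg _) hqr.le
    rw [sum_add_distrib, sum_add_distrib, sum_const, nsmul_eq_mul, card_cls hd hk, ← mul_sum,
      sum_add_distrib] at h1
    have h3 := mul_le_mul_of_nonneg_left (add_le_add hR2 h2) hE.le
    have e1 : E * (δ / (5 * E) * NN d k) = δ / 5 * NN d k := by
      field_simp
    rw [mul_add E (δ' * NN d k), e1] at h3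
    linarith
  -- (iii)
  have s3 : ∑ v ∈ cls (!b) d k, Real.log (av f v) ≤
      NN d k / 2 * Real.log q + ∑ u ∈ cls b d k, Real.log (al f (u + sv σ)) +
        δ / 5 * NN d k := by
    have h1 : ∑ v ∈ cls (!b) d k, Real.log (av f v) ≤
        ∑ v ∈ cls (!b) d k, (Real.log q + Real.log (al f v) +
          E * |(av f v : ℝ) / q - al f v|) :=
      sum_le_sum fun v _ => C3_av hq v (hal v) (av_pos hprp v)
    have h2 : ∑ v ∈ cls (!b) d k, |(av f v : ℝ) / q - al f v| ≤ s * NN d k := by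
      have h3 : ∀ v, |(av f v : ℝ) / q - al f v| ≤
          ((av f v : ℝ) / q - al f v) ^ 2 / (2 * s) + s / 2 := by
        intro v
        set x := |(av f v : ℝ) / q - al f v| with hx
        have e1 : ((av f v : ℝ) / q - al f v) ^ 2 = x ^ 2 := (sq_abs _).symm
        rw [e1]
        have e2 : x ^ 2 / (2 * s) + s / 2 - x = (x - s) ^ 2 / (2 * s) := by
          field_simp
          ring
        have e3 : 0 ≤ (x - s) ^ 2 / (2 * s) := by positivity
        linarith
      have h4 : ∑ v ∈ cls (!b) d k, ((av f v : ℝ) / q - al f v) ^ 2 ≤ s ^ 2 * NN d k := by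
        calc ∑ v ∈ cls (!b) d k, ((av f v : ℝ) / q - al f v) ^ 2
            ≤ ∑ v, ((av f v : ℝ) / q - al f v) ^ 2 :=
              sum_le_sum_of_subset_of_nonneg (subset_univ _) fun v _ _ => sq_nonneg _
          _ ≤ δ' * NN d k := hG.avl
          _ ≤ s ^ 2 * NN d k := mul_le_mul_of_nonneg_right le hN
      calc ∑ v ∈ cls (!b) d k, |(av f v : ℝ) / q - al f v|
          ≤ ∑ v ∈ cls (!b) d k, (((av f v : ℝ) / q - al f v) ^ 2 / (2 * s) + s / 2) :=
            sum_le_sum fun v _ => h3 v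
        _ = (∑ v ∈ cls (!b) d k, ((av f v : ℝ) / q - al f v) ^ 2) / (2 * s) +
            NN d k / 2 * (s / 2) := by
            rw [sum_add_distrib, sum_div, sum_const, nsmul_eq_mul, card_cls hd hk]
        _ ≤ s ^ 2 * NN d k / (2 * s) + NN d k / 2 * (s / 2) :=
            add_le_add (div_le_div_of_nonneg_right h4 (by positivity)) le_rfl
        _ = (3 / 4) * (s * NN d k) := by
            field_simp
            ring
        _ ≤ s * NN d k := by
            have : 0 ≤ s * NN d k := by positivity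
            linarith
    rw [sum_add_distrib, sum_add_distrib, sum_const, nsmul_eq_mul, card_cls hd hk, ← mul_sum,
      C3_shift hk b σ (fun v => Real.log (al f v))] at h1
    have h3 := mul_le_mul_of_nonneg_left h2 hE.le
    have e1 : E * (s * NN d k) = δ / 5 * NN d k := by
      rw [hsdef]
      field_simp
    rw [e1] at h3
    linarith
  -- (iv)
  have s4 : (1 + E) * (δ' * NN d k) ≤ δ / 5 * NN d k := by
    have h1 := mul_le_mul_of_nonneg_right ld hN
    have h2 := mul_le_mul_of_nonneg_left h1 (by positivity : (0 : ℝ) ≤ 1 + E)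
    have e1 : (1 + E) * (δ / (5 * (1 + E)) * NN d k) = δ / 5 * NN d k := by
      field_simp
    rwa [e1] at h2
  unfold JJ
  rw [sum_add_distrib]
  rw [sum_add_distrib, sum_add_distrib, ← mul_sum] at c3
  have e5 : NN d k / 2 * (2 * Real.log q + Phi (ra d q) m) =
      NN d k / 2 * Real.log q + NN d k / 2 * Real.log q + NN d k / 2 * Phi (ra d q) m := by ring
  rw [e5]
  rw [add_mul, one_mul] at s4
  linarith

end Pool.Agent.THR

end
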