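import Pool.Agent.Lib_MP_2c424f_ms.M22
import Pool.Agent.Lib_MP_2c424f_ms.M31

/-!
# MP_2c424f_pr: library of SharpThreshold and BoundaryThreshold (merged): merged library part M36

Concatenation of smaller files (each in its own section), only to save build time.
-/

namespace Pool.Agent.LO
end Pool.Agent.LO

namespace Pool.Agent.LIN
end Pool.Agent.LIN

/-! ### from `Lib_MP_2c424f_thr.M3` -/

section

/-!
# THR M3: law of large numbers around a site (paper proof: M3)

`u` in the class `!b`, `x = u + sv σ` in the class `b`; resample the class `!b`: `zt`, `al` at `x` are constant, `zz f x c` has mean `zt`.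
`Y_u = ∑_σ (zz - zt)/(q al)`; mean of `Y_u²` `= (1/q²) ∑_{σ,σ'} Cov/(al al') ≤ (e^(2a)/q²) (2d + ∑_{σ ≠ σ'} ∑_{w ∈ cmn} z_w/x_w)` (`cov_zz`).
For `σ ≠ σ'` the common neighbours are at most two (`cmn_card`), `z_w/x_w ≤ 1/(c1 q) + 1[w irregular]`; every `w ∈ cmn (u+σ) (u+σ')` is
`u + σ + τ` for some `τ`, so the sum over `u` of the irregular part is `≤ (2d)³ irr`.  So the mean of `∑_u Y_u²` is
`≤ (e^(2a)/q²)(2d N + (2d)² · 2 N/(c1 q) + (2d)³ irr) ≤ δN/4` (`avail 4`).
`WOPi_tail`: a change of one colour changes `zz` at `2d` sites `x`, each is in `Y_u` for `2d` sites `u` with coefficient `≤ e^a/q`;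
`|Y_u| ≤ 2d e^a/q ≤ A0 e^A0`: total change `≤ d^3` for `d` large.
-/

set_option autoImplicit false

open Finset Filter

namespace Pool.Agent.THR

open Pool.Agent.LO Pool.Agent.LIN

section M3
variable {d k q : ℕ}

/-- the local fluctuation -/
private noncomputable def M3Y (c : Fin q) (f : Site d k → Fin q) (u : Site d k) : ℝ :=
  ∑ σ : Stp d, (zz f (u + sv σ) c - zt f (u + sv σ) c) / (q * al f (u + sv σ))

private noncomputable def M3P (b : Bool) (c : Fin q) (f : Site d k → Fin q) : ℝ :=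
  ∑ u ∈ cls (!b) d k, M3Y c f u ^ 2

private theorem M3_w (hq : 1 ≤ q) {f : Site d k → Fin q} (hf : Prp f) (x : Site d k) :
    0 ≤ ((q : ℝ) * al f x)⁻¹ ∧ ((q : ℝ) * al f x)⁻¹ ≤ Real.exp (ra d q) / q := by
  have hq' : (0 : ℝ) < q := by exact_mod_cast hq
  have h1 := al_ge hq hf x
  have h2 := Real.exp_pos (-ra d q)
  have h3 : 0 < al f x := lt_of_lt_of_le h2 h1
  refine ⟨by positivity, ?_⟩
  rw [mul_inv, div_eq_inv_mul]
  refine mul_le_mul_of_nonneg_left ?_ (by positivity)
  have h4 := inv_anti₀ h2 h1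
  rwa [← Real.exp_neg, neg_neg] at h4

private theorem M3_zz (f : Site d k → Fin q) (v : Site d k) (c : Fin q) : 0 ≤ zz f v c ∧ zz f v c ≤ 1 := by
  unfold zz
  split_ifs <;> norm_num

private theorem M3_card : ((univ : Finset (Stp d)).card : ℝ) = 2 * d := by
  rw [card_univ, Fintype.card_prod, Fintype.card_fin, Fintype.card_bool]
  push_cast
  ring

private theorem M3_abs (hq : 1 ≤ q) {f : Site d k → Fin q} (hf : Prp f) (c : Fin q) (u : Site d k) :
    |M3Y c f u| ≤ ra d q * Real.exp (ra d q) := by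
  have hq' : (0 : ℝ) < q := by exact_mod_cast hq
  unfold M3Y
  calc |∑ σ : Stp d, (zz f (u + sv σ) c - zt f (u + sv σ) c) / (q * al f (u + sv σ))|
      ≤ ∑ σ : Stp d, |(zz f (u + sv σ) c - zt f (u + sv σ) c) / (q * al f (u + sv σ))| :=
        abs_sum_le_sum_abs _ _
    _ ≤ ∑ σ : Stp d, Real.exp (ra d q) / q := by
        refine sum_le_sum fun σ _ => ?_
        obtain ⟨h1, h2⟩ := M3_w hq hf (u + sv σ)
        obtain ⟨h3, h4⟩ := M3_zz f (u + sv σ) c
        have h5 := zt_nonneg f (u + sv σ) c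
        have h6 := zt_le_one f (u + sv σ) c
        rw [div_eq_mul_inv, abs_mul, abs_of_nonneg h1]
        have h7 : |zz f (u + sv σ) c - zt f (u + sv σ) c| ≤ 1 := by
          rw [abs_le]
          constructor <;> linarith
        calc |zz f (u + sv σ) c - zt f (u + sv σ) c| * ((q : ℝ) * al f (u + sv σ))⁻¹
            ≤ 1 * ((q : ℝ) * al f (u + sv σ))⁻¹ := mul_le_mul_of_nonneg_right h7 h1
          _ ≤ _ := by rw [one_mul]; exact h2
    _ = ra d q * Real.exp (ra d q) := by
        rw [sum_const, nsmul_eq_mul, M3_card]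
        unfold ra
        ring

/-! ### Bounded differences -/

private theorem M3_opp (σ : Stp d) : (sv (opp σ) : Site d k) = - sv σ := by
  obtain ⟨j, b⟩ := σ
  have h := sv_opp (d := d) (k := k) j b
  have : (sv (opp (j, b)) : Site d k) = sv (j, !b) := rfl
  rw [this]
  exact (neg_eq_of_add_eq_zero_right h).symm

private theorem M3_upd {b : Bool} {f h : Site d k → Fin q} (hh : h ∈ fib b f) {v : Site d k}
    {γ : Fin q} (hγ : γ ∉ SS f v) (hv : v ∈ cls b d k) : Function.update h v γ ∈ fib b f := by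
  unfold fib at hh ⊢
  rw [Fintype.mem_piFinset] at hh ⊢
  intro x
  by_cases hx : x = v
  · subst hx
    rw [Function.update_self, if_pos hv, mem_compl]
    exact hγ
  · rw [Function.update_of_ne hx]
    exact hh x

private theorem M3_zz_upd {h : Site d k → Fin q} {v x : Site d k} {γ : Fin q}
    (hx : ∀ τ : Stp d, x + sv τ ≠ v) (c : Fin q) : zz (Function.update h v γ) x c = zz h x c := by
  have h1 : SS (Function.update h v γ) x = SS h x := by
    unfold SS
    congr 1
    funext σ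
    rw [Function.update_of_ne (hx σ)]
  unfold zz
  rw [h1]

private theorem M3_lip (hk : 2 ≤ k) (hq : 1 ≤ q) (b : Bool) (c : Fin q) :
    Lip (d := d) (k := k) (!b) ((2 * (d : ℝ)) ^ 2 * (ra d q * Real.exp (ra d q)) ^ 2) (M3P b c) := by
  classical
  intro f hf0 h hh v hv γ hγ
  have hf : Prp f := by
    unfold prps at hf0
    exact (mem_filter.1 hf0).2
  have hh' : Function.update h v γ ∈ fib (!b) f := M3_upd hh hγ hv
  have hP : Prp h := fib_prp (by omega) (!b) hf hh
  have hP' : Prp (Function.update h v γ) := fib_prp (by omega) (!b) hf hh'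
  set B : ℝ := ra d q * Real.exp (ra d q) with hB
  set S : Finset (Site d k) := univ.image fun p : Stp d × Stp d => v + sv p.1 + sv p.2 with hS
  have hcard : (S.card : ℝ) ≤ (2 * (d : ℝ)) ^ 2 := by
    have h1 : S.card ≤ (univ : Finset (Stp d × Stp d)).card := card_image_le
    have h2 : ((univ : Finset (Stp d × Stp d)).card : ℝ) = (2 * (d : ℝ)) ^ 2 := by
      rw [card_univ, Fintype.card_prod, Fintype.card_prod, Fintype.card_fin, Fintype.card_bool]
      push_cast
      ring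
    calc (S.card : ℝ) ≤ ((univ : Finset (Stp d × Stp d)).card : ℝ) := by exact_mod_cast h1
      _ = _ := h2
  have hterm : ∀ u ∈ cls (!b) d k,
      |M3Y c (Function.update h v γ) u ^ 2 - M3Y c h u ^ 2| ≤ if u ∈ S then B ^ 2 else 0 := by
    intro u hu
    split_ifs with huS
    · have h1 := M3_abs hq hP' c u
      have h2 := M3_abs hq hP c u
      have h3 : M3Y c (Function.update h v γ) u ^ 2 ≤ B ^ 2 := by
        rw [← sq_abs]
        exact pow_le_pow_left₀ (abs_nonneg _) h1 2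
      have h4 : M3Y c h u ^ 2 ≤ B ^ 2 := by
        rw [← sq_abs]
        exact pow_le_pow_left₀ (abs_nonneg _) h2 2
      rw [abs_le]
      constructor
      · linarith [sq_nonneg (M3Y c (Function.update h v γ) u)]
      · linarith [sq_nonneg (M3Y c h u)]
    · have h1 : M3Y c (Function.update h v γ) u = M3Y c h u := by
        unfold M3Y
        refine sum_congr rfl fun σ _ => ?_
        have hx : u + sv σ ∈ cls b d k := by
          rw [mem_cls_step (by omega)]
          exact hu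
        have e1 := zt_fib hk b hh (u + sv σ) hx c
        have e2 := zt_fib hk b hh' (u + sv σ) hx c
        have e3 := (loc_fib hk b hh (u + sv σ) hx c).2.1
        have e4 := (loc_fib hk b hh' (u + sv σ) hx c).2.1
        have e5 : zz (Function.update h v γ) (u + sv σ) c = zz h (u + sv σ) c := by
          refine M3_zz_upd (fun τ hτ => huS ?_) c
          rw [hS, mem_image]
          refine ⟨(opp τ, opp σ), mem_univ _, ?_⟩
          rw [M3_opp, M3_opp, ← hτ]
          abel
        rw [e1, e2, e3, e4, e5]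
      rw [h1, sub_self, abs_zero]
  unfold M3P
  rw [← sum_sub_distrib]
  calc |∑ u ∈ cls (!b) d k, (M3Y c (Function.update h v γ) u ^ 2 - M3Y c h u ^ 2)|
      ≤ ∑ u ∈ cls (!b) d k, |M3Y c (Function.update h v γ) u ^ 2 - M3Y c h u ^ 2| :=
        abs_sum_le_sum_abs _ _
    _ ≤ ∑ u ∈ cls (!b) d k, (if u ∈ S then B ^ 2 else 0) := sum_le_sum hterm
    _ ≤ ∑ u : Site d k, (if u ∈ S then B ^ 2 else 0) := by
        refine sum_le_sum_of_subset_of_nonneg (subset_univ _) fun u _ _ => ?_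
        split_ifs <;> positivity
    _ = S.card * B ^ 2 := by
        rw [← sum_filter, sum_const, nsmul_eq_mul, filter_mem_eq_inter, univ_inter]
    _ ≤ (2 * (d : ℝ)) ^ 2 * B ^ 2 := mul_le_mul_of_nonneg_right hcard (by positivity)

/-! ### The mean -/

private theorem M3_cov (hk : 2 ≤ k) (b : Bool) {f : Site d k → Fin q} (hf : Prp f) (v w : Site d k)
    (hv : v ∈ cls b d k) (hw : w ∈ cls b d k) (c : Fin q) :
    fm (!b) (fun h => (zz h v c - zt f v c) * (zz h w c - zt f w c)) f =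
      fm (!b) (fun h => zz h v c * zz h w c) f - zt f v c * zt f w c := by
  have h1 : (fun h : Site d k → Fin q => (zz h v c - zt f v c) * (zz h w c - zt f w c)) =
      fun h => (zz h v c * zz h w c - (zt f w c * zz h v c + zt f v c * zz h w c)) +
        zt f v c * zt f w c := by
    funext h
    ring
  rw [h1, fm_add, fm_sub, fm_add, fm_mul, fm_mul, fm_const (!b) hf, fm_zz hk b hf v hv,
    fm_zz hk b hf w hw]
  ring

open scoped Classical in
private theorem M3_K {ε : ℝ} (hk : 3 ≤ k) (hq : 1 ≤ q) (hε : 0 < c1 ε) (b : Bool) {f : Site d k → Fin q} (hf : Prp f)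
    (u : Site d k) (hu : u ∈ cls (!b) d k) (c : Fin q) (σ σ' : Stp d) :
    fm (!b) (fun h => zz h (u + sv σ) c * zz h (u + sv σ') c) f - zt f (u + sv σ) c * zt f (u + sv σ') c ≤
      (if σ = σ' then 1 else 0) + 2 / (c1 ε * q) +
        ∑ τ : Stp d, (if (av f (u + sv σ + sv τ) : ℝ) < c1 ε * q then (1 : ℝ) else 0) := by
  have hq' : (0 : ℝ) < q := by exact_mod_cast hq
  have hx : ∀ σ : Stp d, u + sv σ ∈ cls b d k := by
    intro σ
    rw [mem_cls_step (by omega)]
    exact hu
  have hS0 : 0 ≤ ∑ τ : Stp d, (if (av f (u + sv σ + sv τ) : ℝ) < c1 ε * q then (1 : ℝ) else 0) :=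
    sum_nonneg fun τ _ => by split_ifs <;> norm_num
  have h0 : (0 : ℝ) ≤ 2 / (c1 ε * q) := by positivity
  by_cases hσ : σ = σ'
  · subst hσ
    rw [if_pos rfl]
    have h1 : fm (!b) (fun h => zz h (u + sv σ) c * zz h (u + sv σ) c) f ≤ fm (!b) (fun _ => 1) f := by
      refine fm_mono (!b) hf fun h _ => ?_
      obtain ⟨h2, h3⟩ := M3_zz h (u + sv σ) c
      nlinarith
    rw [fm_const (!b) hf] at h1
    have h2 := mul_self_nonneg (zt f (u + sv σ) c)
    linarith
  · rw [if_neg hσ, zero_add]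
    have hne : u + sv σ ≠ u + sv σ' := fun h => hσ (sv_inj (by omega) (add_left_cancel h))
    have h1 := (cov_zz (by omega) b hf (u + sv σ) (u + sv σ') (hx σ) (hx σ') c).2
    have h2 := cmn_card hk (u + sv σ) (u + sv σ') hne
    have h3 : ∑ w ∈ cmn (u + sv σ) (u + sv σ'), zz f w c / (av f w : ℝ) ≤
        ∑ w ∈ cmn (u + sv σ) (u + sv σ'),
          (1 / (c1 ε * q) + if (av f w : ℝ) < c1 ε * q then (1 : ℝ) else 0) := by
      refine sum_le_sum fun w _ => ?_
      split_ifs with h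
      · have := (zz_av_le hf w c).2
        have h4 : (0 : ℝ) ≤ 1 / (c1 ε * q) := by positivity
        linarith
      · rw [add_zero]
        exact zz_reg hq w (not_lt.1 h) c
    rw [sum_add_distrib, sum_const, nsmul_eq_mul] at h3
    have h4 : ((cmn (u + sv σ) (u + sv σ')).card : ℝ) * (1 / (c1 ε * q)) ≤ 2 / (c1 ε * q) := by
      have h5 : ((cmn (u + sv σ) (u + sv σ')).card : ℝ) ≤ 2 := by exact_mod_cast h2
      calc ((cmn (u + sv σ) (u + sv σ')).card : ℝ) * (1 / (c1 ε * q)) ≤ 2 * (1 / (c1 ε * q)) :=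
            mul_le_mul_of_nonneg_right h5 (by positivity)
        _ = _ := by ring
    have h5 : ∑ w ∈ cmn (u + sv σ) (u + sv σ'), (if (av f w : ℝ) < c1 ε * q then (1 : ℝ) else 0) ≤
        ∑ τ : Stp d, (if (av f (u + sv σ + sv τ) : ℝ) < c1 ε * q then (1 : ℝ) else 0) := by
      have h6 : cmn (u + sv σ) (u + sv σ') ⊆ univ.image fun τ : Stp d => u + sv σ + sv τ := by
        unfold cmn
        exact inter_subset_left
      calc ∑ w ∈ cmn (u + sv σ) (u + sv σ'), (if (av f w : ℝ) < c1 ε * q then (1 : ℝ) else 0)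
          ≤ ∑ w ∈ univ.image (fun τ : Stp d => u + sv σ + sv τ), (if (av f w : ℝ) < c1 ε * q then (1 : ℝ) else 0) :=
            sum_le_sum_of_subset_of_nonneg h6 fun w _ _ => by split_ifs <;> norm_num
        _ = _ := by
            rw [sum_image]
            intro τ _ τ' _ h
            exact sv_inj (by omega) (add_left_cancel h)
    linarith

private theorem M3_sq (hk : 2 ≤ k) (b : Bool) {f : Site d k → Fin q} (hf : Prp f)
    (u : Site d k) (hu : u ∈ cls (!b) d k) (c : Fin q) :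
    fm (!b) (fun h => M3Y c h u ^ 2) f = ∑ σ : Stp d, ∑ σ' : Stp d,
      ((q : ℝ) * al f (u + sv σ))⁻¹ * ((q : ℝ) * al f (u + sv σ'))⁻¹ *
        (fm (!b) (fun h => zz h (u + sv σ) c * zz h (u + sv σ') c) f - zt f (u + sv σ) c * zt f (u + sv σ') c) := by
  have hx : ∀ σ : Stp d, u + sv σ ∈ cls b d k := by
    intro σ
    rw [mem_cls_step (by omega)]
    exact hu
  have h1 : fm (!b) (fun h => M3Y c h u ^ 2) f = fm (!b) (fun h => ∑ σ : Stp d, ∑ σ' : Stp d,
      ((q : ℝ) * al f (u + sv σ))⁻¹ * ((q : ℝ) * al f (u + sv σ'))⁻¹ *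
        ((zz h (u + sv σ) c - zt f (u + sv σ) c) * (zz h (u + sv σ') c - zt f (u + sv σ') c))) f := by
    refine fm_congr (!b) fun h hh => ?_
    unfold M3Y
    rw [sq, sum_mul_sum]
    refine sum_congr rfl fun σ _ => sum_congr rfl fun σ' _ => ?_
    have e1 := zt_fib hk b hh (u + sv σ) (hx σ) c
    have e2 := zt_fib hk b hh (u + sv σ') (hx σ') c
    have e3 := (loc_fib hk b hh (u + sv σ) (hx σ) c).2.1
    have e4 := (loc_fib hk b hh (u + sv σ') (hx σ') c).2.1
    rw [e1, e2, e3, e4, div_eq_mul_inv, div_eq_mul_inv]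
    ring
  rw [h1, fm_sum]
  refine sum_congr rfl fun σ _ => ?_
  rw [fm_sum]
  refine sum_congr rfl fun σ' _ => ?_
  rw [fm_mul, M3_cov hk b hf _ _ (hx σ) (hx σ')]

private theorem M3_transl (I : Site d k → ℝ) (a : Site d k) : ∑ x, I (x + a) = ∑ x, I x :=
  Fintype.sum_equiv (Equiv.addRight a) _ _ fun _ => rfl

private theorem M3_mean {ε : ℝ} (hk : 3 ≤ k) (hq : 1 ≤ q) (hε : 0 < c1 ε) (b : Bool) {f : Site d k → Fin q} (hf : Prp f)
    (c : Fin q) :
    fm (!b) (M3P b c) f ≤ (Real.exp (ra d q) / q) ^ 2 *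
      (2 * d * NN d k + (2 * d) ^ 2 * (2 / (c1 ε * q)) * NN d k + (2 * d) ^ 3 * irr ε f) := by
  classical
  have hq' : (0 : ℝ) < q := by exact_mod_cast hq
  obtain ⟨I, hI⟩ : ∃ I : Site d k → ℝ, I = fun v => if (av f v : ℝ) < c1 ε * q then (1 : ℝ) else 0 := ⟨_, rfl⟩
  have hI0 : ∀ v, 0 ≤ I v := by
    intro v
    rw [hI]
    show (0 : ℝ) ≤ if _ then _ else _
    split_ifs <;> norm_num
  have hirr : ∑ v, I v = irr ε f := by
    rw [hI]
    unfold irr
    rw [← sum_filter, sum_const, nsmul_eq_mul, mul_one]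
  have hu : ∀ u ∈ cls (!b) d k, fm (!b) (fun h => M3Y c h u ^ 2) f ≤ (Real.exp (ra d q) / q) ^ 2 *
      ∑ σ : Stp d, ∑ σ' : Stp d, ((if σ = σ' then 1 else 0) + 2 / (c1 ε * q) +
        ∑ τ : Stp d, I (u + sv σ + sv τ)) := by
    intro u hu
    rw [M3_sq (by omega) b hf u hu c, mul_sum]
    refine sum_le_sum fun σ _ => ?_
    rw [mul_sum]
    refine sum_le_sum fun σ' _ => ?_
    obtain ⟨h1, h2⟩ := M3_w hq hf (u + sv σ)
    obtain ⟨h3, h4⟩ := M3_w hq hf (u + sv σ')
    have h5 := M3_K hk hq hε b hf u hu c σ σ'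
    have h6 : ((q : ℝ) * al f (u + sv σ))⁻¹ * ((q : ℝ) * al f (u + sv σ'))⁻¹ ≤ (Real.exp (ra d q) / q) ^ 2 := by
      rw [sq]
      exact mul_le_mul h2 h4 h3 (h1.trans h2)
    have h7 : (0 : ℝ) ≤ (if σ = σ' then 1 else 0) + 2 / (c1 ε * q) + ∑ τ : Stp d, I (u + sv σ + sv τ) := by
      have h8 : (0 : ℝ) ≤ ∑ τ : Stp d, I (u + sv σ + sv τ) := sum_nonneg fun τ _ => hI0 _
      have h9 : (0 : ℝ) ≤ if σ = σ' then 1 else 0 := by split_ifs <;> norm_num
      positivity
    have h8 : ∑ τ : Stp d, (if (av f (u + sv σ + sv τ) : ℝ) < c1 ε * q then (1 : ℝ) else 0) =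
        ∑ τ : Stp d, I (u + sv σ + sv τ) := by rw [hI]
    rw [h8] at h5
    calc ((q : ℝ) * al f (u + sv σ))⁻¹ * ((q : ℝ) * al f (u + sv σ'))⁻¹ *
          (fm (!b) (fun h => zz h (u + sv σ) c * zz h (u + sv σ') c) f - zt f (u + sv σ) c * zt f (u + sv σ') c)
        ≤ ((q : ℝ) * al f (u + sv σ))⁻¹ * ((q : ℝ) * al f (u + sv σ'))⁻¹ *
          ((if σ = σ' then 1 else 0) + 2 / (c1 ε * q) + ∑ τ : Stp d, I (u + sv σ + sv τ)) :=
          mul_le_mul_of_nonneg_left h5 (mul_nonneg h1 h3)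
      _ ≤ _ := mul_le_mul_of_nonneg_right h6 h7
  have h1 : fm (!b) (M3P b c) f = ∑ u ∈ cls (!b) d k, fm (!b) (fun h => M3Y c h u ^ 2) f := by
    have : (M3P b c : (Site d k → Fin q) → ℝ) = fun h => ∑ u ∈ cls (!b) d k, M3Y c h u ^ 2 := rfl
    rw [this, fm_sum]
  rw [h1]
  calc ∑ u ∈ cls (!b) d k, fm (!b) (fun h => M3Y c h u ^ 2) f
      ≤ ∑ u ∈ cls (!b) d k, (Real.exp (ra d q) / q) ^ 2 *
      ∑ σ : Stp d, ∑ σ' : Stp d, ((if σ = σ' then 1 else 0) + 2 / (c1 ε * q) +
        ∑ τ : Stp d, I (u + sv σ + sv τ)) := sum_le_sum hu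
    _ ≤ ∑ u : Site d k, (Real.exp (ra d q) / q) ^ 2 *
      ∑ σ : Stp d, ∑ σ' : Stp d, ((if σ = σ' then 1 else 0) + 2 / (c1 ε * q) +
        ∑ τ : Stp d, I (u + sv σ + sv τ)) := by
        refine sum_le_sum_of_subset_of_nonneg (subset_univ _) fun u _ _ => ?_
        refine mul_nonneg (by positivity) (sum_nonneg fun σ _ => sum_nonneg fun σ' _ => ?_)
        have h8 : (0 : ℝ) ≤ ∑ τ : Stp d, I (u + sv σ + sv τ) := sum_nonneg fun τ _ => hI0 _
        have h9 : (0 : ℝ) ≤ if σ = σ' then 1 else 0 := by split_ifs <;> norm_num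
        positivity
    _ = (Real.exp (ra d q) / q) ^ 2 * (∑ u : Site d k,
          ∑ σ : Stp d, ∑ σ' : Stp d, ((if σ = σ' then 1 else 0) + 2 / (c1 ε * q) +
        ∑ τ : Stp d, I (u + sv σ + sv τ))) := by rw [mul_sum]
    _ = _ := by
        congr 1
        have e1 : ∀ u : Site d k, ∑ σ : Stp d, ∑ σ' : Stp d, ((if σ = σ' then (1 : ℝ) else 0) + 2 / (c1 ε * q) +
            ∑ τ : Stp d, I (u + sv σ + sv τ)) =
            2 * d + (2 * d) ^ 2 * (2 / (c1 ε * q)) + 2 * d * ∑ σ : Stp d, ∑ τ : Stp d, I (u + sv σ + sv τ) := by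
          intro u
          simp only [sum_add_distrib, sum_const, nsmul_eq_mul, M3_card, sum_ite_eq, mem_univ, if_true, mul_sum]
          ring
        rw [sum_congr rfl fun u _ => e1 u, sum_add_distrib, sum_const, nsmul_eq_mul, card_univ, card_site,
          ← mul_sum]
        have e2 : ∑ u : Site d k, ∑ σ : Stp d, ∑ τ : Stp d, I (u + sv σ + sv τ) = (2 * d) ^ 2 * irr ε f := by
          rw [sum_comm]
          have e3 : ∀ σ : Stp d, ∑ u : Site d k, ∑ τ : Stp d, I (u + sv σ + sv τ) = 2 * d * irr ε f := by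
            intro σ
            rw [sum_comm]
            have e4 : ∀ τ : Stp d, ∑ u : Site d k, I (u + sv σ + sv τ) = irr ε f := by
              intro τ
              rw [← hirr, ← M3_transl I (sv σ + sv τ)]
              refine sum_congr rfl fun u _ => ?_
              rw [add_assoc]
            rw [sum_congr rfl fun τ _ => e4 τ, sum_const, nsmul_eq_mul, M3_card]
          rw [sum_congr rfl fun σ _ => e3 σ, sum_const, nsmul_eq_mul, M3_card]
          ring
        rw [e2]
        ring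

private theorem M3_c1 (ε : ℝ) : 0 < c1 ε := by
  unfold c1
  positivity

private theorem M3_split (g : Site d k → ℝ) :
    ∑ u : Site d k, g u = ∑ u ∈ cls true d k, g u + ∑ u ∈ cls false d k, g u := by
  classical
  have h1 : cls true d k = univ.filter fun x : Site d k => evn x := by
    ext x
    simp [cls, evs]
  have h2 : cls false d k = univ.filter fun x : Site d k => ¬ evn x := by
    ext x
    simp [cls, ods]
  rw [h1, h2, sum_filter_add_sum_filter_not]

/-- arithmetic -/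
private theorem M3_num {δ A C1 : ℝ} (hδ : 0 < δ) (hA : 0 < A) (hC : 0 < C1) : ∃ M : ℝ, 1 ≤ M ∧
    ∀ d q a N i : ℝ, M ≤ d → M ≤ q → 0 ≤ a → a ≤ A → 2 * d = a * q → 0 ≤ N → i ≤ N / d ^ 4 →
      (Real.exp a / q) ^ 2 * (2 * d * N + (2 * d) ^ 2 * (2 / (C1 * q)) * N + (2 * d) ^ 3 * i) + N / d ^ 1 ≤
        δ / 2 * N := by
  obtain ⟨T, hT⟩ : ∃ T : ℝ, T = Real.exp A ^ 2 * (A + A ^ 2 * (2 / C1) + 8) := ⟨_, rfl⟩
  have hTpos : 0 < T := by rw [hT]; positivity
  refine ⟨max 1 ((T + 1) * (2 / δ)), le_max_left _ _, ?_⟩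
  intro d q a N i hd hq ha haA h2 hN hi
  have hd1 : 1 ≤ d := (le_max_left _ _).trans hd
  have hq1 : 1 ≤ q := (le_max_left _ _).trans hq
  have hd2 : (T + 1) * (2 / δ) ≤ d := (le_max_right _ _).trans hd
  have hq2 : (T + 1) * (2 / δ) ≤ q := (le_max_right _ _).trans hq
  have hd0 : 0 < d := by linarith
  have hq0 : 0 < q := by linarith
  have hexp : Real.exp a ^ 2 ≤ Real.exp A ^ 2 :=
    pow_le_pow_left₀ (Real.exp_pos _).le (Real.exp_le_exp.2 haA) 2
  have h3 : (2 * d) ^ 3 * i ≤ 8 * N := by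
    calc (2 * d) ^ 3 * i ≤ (2 * d) ^ 3 * (N / d ^ 4) := mul_le_mul_of_nonneg_left hi (by positivity)
      _ = 8 * N * (1 / d) := by field_simp; ring
      _ ≤ 8 * N * 1 := by
          refine mul_le_mul_of_nonneg_left ?_ (by positivity)
          rw [div_le_one hd0]
          exact hd1
      _ = 8 * N := by ring
  have h4 : (Real.exp a / q) ^ 2 * (2 * d * N + (2 * d) ^ 2 * (2 / (C1 * q)) * N + (2 * d) ^ 3 * i) ≤
      T * N / q := by
    calc (Real.exp a / q) ^ 2 * (2 * d * N + (2 * d) ^ 2 * (2 / (C1 * q)) * N + (2 * d) ^ 3 * i)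
        ≤ (Real.exp a / q) ^ 2 * (2 * d * N + (2 * d) ^ 2 * (2 / (C1 * q)) * N + 8 * N * q) := by
          refine mul_le_mul_of_nonneg_left ?_ (by positivity)
          have : 8 * N ≤ 8 * N * q := by nlinarith
          linarith
      _ = Real.exp a ^ 2 * (a + a ^ 2 * (2 / C1) + 8) * N / q := by
          rw [h2]
          field_simp
      _ ≤ T * N / q := by
          refine div_le_div_of_nonneg_right ?_ hq0.le
          refine mul_le_mul_of_nonneg_right ?_ hN
          rw [hT]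
          have h5 : a ^ 2 ≤ A ^ 2 := pow_le_pow_left₀ ha haA 2
          have h6 : a + a ^ 2 * (2 / C1) + 8 ≤ A + A ^ 2 * (2 / C1) + 8 := by
            have : a ^ 2 * (2 / C1) ≤ A ^ 2 * (2 / C1) := mul_le_mul_of_nonneg_right h5 (by positivity)
            linarith
          exact mul_le_mul hexp h6 (by positivity) (by positivity)
  have h5 : T * N / q ≤ T / (T + 1) * (δ / 2) * N := by
    have h6 : T / q ≤ T / (T + 1) * (δ / 2) := by
      rw [div_le_iff₀ hq0]
      have : T / (T + 1) * (δ / 2) * ((T + 1) * (2 / δ)) ≤ T / (T + 1) * (δ / 2) * q :=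
        mul_le_mul_of_nonneg_left hq2 (by positivity)
      calc T = T / (T + 1) * (δ / 2) * ((T + 1) * (2 / δ)) := by field_simp
        _ ≤ _ := this
    calc T * N / q = T / q * N := by ring
      _ ≤ _ := mul_le_mul_of_nonneg_right h6 hN
  have h6 : N / d ^ 1 ≤ 1 / (T + 1) * (δ / 2) * N := by
    have h7 : 1 / d ≤ 1 / (T + 1) * (δ / 2) := by
      rw [div_le_iff₀ hd0]
      have : 1 / (T + 1) * (δ / 2) * ((T + 1) * (2 / δ)) ≤ 1 / (T + 1) * (δ / 2) * d :=
        mul_le_mul_of_nonneg_left hd2 (by positivity)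
      calc (1 : ℝ) = 1 / (T + 1) * (δ / 2) * ((T + 1) * (2 / δ)) := by field_simp
        _ ≤ _ := this
    calc N / d ^ 1 = 1 / d * N := by rw [pow_one]; ring
      _ ≤ _ := mul_le_mul_of_nonneg_right h7 hN
  have h7 : T / (T + 1) * (δ / 2) * N + 1 / (T + 1) * (δ / 2) * N = δ / 2 * N := by
    field_simp
  linarith

end M3

theorem lln_wop {ε : ℝ} (hε : 0 < ε) (hε1 : ε ≤ 1) (δ : ℝ) (hδ : 0 < δ) :
    WOP ε fun d k q f => ∀ c : Fin q,
      ∑ u : Site d k, (∑ σ : Stp d, (zz f (u + sv σ) c - zt f (u + sv σ) c) / (q * al f (u + sv σ))) ^ 2 ≤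
        δ * NN d k := by
  have hA : 0 < A0 ε := by unfold A0; positivity
  have hc := M3_c1 ε
  obtain ⟨M, hM1, hM⟩ := M3_num hδ hA hc
  -- bounded differences
  have hL : EvT ε fun d k q => ∀ i : Bool × Fin q, True →
      Lip (d := d) (k := k) (!i.1) ((d : ℝ) ^ 3) (M3P i.1 i.2) := by
    refine (EvT_reg hε hε1 (max 2 (4 * (A0 ε * Real.exp (A0 ε)) ^ 2))).mono ?_
    rintro d k q ⟨h1, h2, h3, -, -, -, h7, h8⟩ i -
    have hk : 2 ≤ k := by exact_mod_cast (le_max_left _ _).trans h3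
    have hq : 1 ≤ q := by
      have : (2 : ℝ) ≤ q := (le_max_left _ _).trans h2
      have : 2 ≤ q := by exact_mod_cast this
      omega
    have hd := (le_max_right _ _).trans h1
    have ha : 0 ≤ ra d q := by unfold ra; positivity
    have h9 := M3_lip (d := d) hk hq i.1 i.2
    have h10 : (2 * (d : ℝ)) ^ 2 * (ra d q * Real.exp (ra d q)) ^ 2 ≤ (d : ℝ) ^ 3 := by
      have h11 : (ra d q * Real.exp (ra d q)) ^ 2 ≤ (A0 ε * Real.exp (A0 ε)) ^ 2 := by
        refine pow_le_pow_left₀ (by positivity) ?_ 2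
        exact mul_le_mul h7 (Real.exp_le_exp.2 h7) (Real.exp_pos _).le hA.le
      calc (2 * (d : ℝ)) ^ 2 * (ra d q * Real.exp (ra d q)) ^ 2
          ≤ (2 * (d : ℝ)) ^ 2 * (A0 ε * Real.exp (A0 ε)) ^ 2 := mul_le_mul_of_nonneg_left h11 (by positivity)
        _ = (d : ℝ) ^ 2 * (4 * (A0 ε * Real.exp (A0 ε)) ^ 2) := by ring
        _ ≤ (d : ℝ) ^ 2 * d := mul_le_mul_of_nonneg_left hd (by positivity)
        _ = _ := by ring
    intro f hf h hh v hv γ hγ
    exact (h9 f hf h hh v hv γ hγ).trans h10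
  have h1 := WOPi_tail hε hε1 (fun _ _ q => Bool × Fin q) (fun _ _ _ i => !i.1) (fun _ _ _ _ => True)
    (fun _ _ _ i => M3P i.1 i.2) 3 1 hL
  have h2 := (avail hε hε1 4).toi (fun _ _ q => Bool × Fin q)
  have h3 : WOPi ε (fun _ _ q => Bool × Fin q) fun d k q i f => M3P i.1 i.2 f ≤ δ / 2 * NN d k := by
    refine (h1.and h2).mono ?_
    refine (EvT_reg hε hε1 (max 3 M)).mono ?_
    rintro d k q ⟨g1, g2, g3, -, -, -, g7, g8⟩ i f hf ⟨g9, g10⟩
    have hk : 3 ≤ k := by exact_mod_cast (le_max_left _ _).trans g3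
    have hq : 1 ≤ q := by
      have : (3 : ℝ) ≤ q := (le_max_left _ _).trans g2
      have : 3 ≤ q := by exact_mod_cast this
      omega
    have hP : Prp f := by
      classical
      unfold prps at hf
      exact (mem_filter.1 hf).2
    have ha : 0 ≤ ra d q := by unfold ra; positivity
    have hN : 0 ≤ NN d k := by unfold NN; positivity
    have g11 := M3_mean hk hq hc i.1 hP i.2
    have g12 := hM d q (ra d q) (NN d k) (irr ε f) ((le_max_right _ _).trans g1) ((le_max_right _ _).trans g2)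
      ha g7 g8 hN g10
    exact (g9 trivial).trans ((add_le_add_left g11 _).trans g12)
  have h4 := h3.all (fun _ q => 2 * q) (by
    intro d k q
    rw [Fintype.card_prod, Fintype.card_bool, Fintype.card_fin]
    push_cast
    exact le_refl _)
  refine h4.mono ?_
  refine (EvT_reg hε hε1 0).mono ?_
  rintro d k q - f - hf c
  have e1 := hf (true, c)
  have e2 := hf (false, c)
  have e3 : ∑ u : Site d k, (∑ σ : Stp d, (zz f (u + sv σ) c - zt f (u + sv σ) c) / (q * al f (u + sv σ))) ^ 2 =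
      M3P false c f + M3P true c f := by
    rw [M3_split]
    rfl
  rw [e3]
  simp only at e1 e2
  linarith

end Pool.Agent.THR

end
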