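import Pool.Agent.Lib_MP_2c424f_ms.M22
import Pool.Agent.Lib_MP_2c424f_ms.M26

/-!
# MP_2c424f_pr: library of SharpThreshold and BoundaryThreshold (merged): merged library part M38

Concatenation of smaller files (each in its own section), only to save build time.
-/

namespace Pool.Agent.LO
end Pool.Agent.LO

namespace Pool.Agent.LIN
end Pool.Agent.LIN

/-! ### from `Lib_MP_2c424f_thr.B3c` -/

section

/-!
# THR B3c: fluctuation of the block means of `zz` (paper proof: B3, second part)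

Index type: `Fin q × Shp d`.  `Ψ f = ∑_t (Ms s t ((zz - zt)/al))²`, resample the even sites (class `true`): for an odd site `x`, `zt f x c` and `al f x` are constant on the fibre
(`loc_fib`, and `zt` depends on `zz`, `av` at the even sites), `zz f x c` has mean `zt f x c` (`LIN.fm_zz`).
* Mean: a change at the even site `u` changes `zz` at the `2d` neighbours `x` of `u` by at most `1`, `1/al ≤ e^a` (`al_ge`), so `fm_var` with `c_u = e^a ∑_{x ~ u} Ww s t x`:
  `4 ∑ c_u² ≤ 4 e^(2a) · 2d · 2d · ∑_x Ww² ≤ 64 e^(2a) d²/2^d` (Cauchy-Schwarz, every `x` has `2d` neighbours `u`); sum over `t`: `≤ NN d k/(2 d^4)` for large `d`.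
* `Lip`: `|Ms ..| ≤ e^a`; the square changes by at most `2 e^(2a) ∑_{x ~ u} Ww s t x`, sum over `t`: `2 e^(2a) · 2d · 4/2^d ≤ d²/2^d`... (`κ = 3`).
* `WOPb_tail` with `κ = 3`, `K = 5`.
-/

set_option autoImplicit false

open Finset Filter

namespace Pool.Agent.THR

open Pool.Agent.LO Pool.Agent.LIN

variable {d k q : ℕ}

private theorem B3c_mem (b : Bool) (f h : Site d k → Fin q) :
    h ∈ fib b f ↔ (∀ x ∈ cls b d k, h x ∉ SS f x) ∧ ∀ x, x ∉ cls b d k → h x = f x := by
  unfold fib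
  rw [Fintype.mem_piFinset]
  constructor
  · intro hh
    refine ⟨fun x hx => ?_, fun x hx => ?_⟩
    · have := hh x
      rw [if_pos hx, mem_compl] at this
      exact this
    · have := hh x
      rw [if_neg hx, mem_singleton] at this
      exact this
  · rintro ⟨h1, h2⟩ x
    split_ifs with hx
    · exact mem_compl.2 (h1 x hx)
    · exact mem_singleton.2 (h2 x hx)

private theorem B3c_prps (f : Site d k → Fin q) : f ∈ prps d k q ↔ Prp f := by
  unfold prps
  simp only [mem_filter, mem_univ, true_and]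

private theorem B3c_upd (b : Bool) {f h : Site d k → Fin q} (hh : h ∈ fib b f) {v : Site d k}
    (hv : v ∈ cls b d k) {γ : Fin q} (hγ : γ ∉ SS f v) : Function.update h v γ ∈ fib b f := by
  rw [B3c_mem] at hh ⊢
  refine ⟨fun x hx => ?_, fun x hx => ?_⟩
  · by_cases hxv : x = v
    · subst hxv
      rw [Function.update_self]
      exact hγ
    · rw [Function.update_of_ne hxv]
      exact hh.1 x hx
  · have hxv : x ≠ v := fun e => hx (e ▸ hv)
    rw [Function.update_of_ne hxv]
    exact hh.2 x hx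

private theorem B3c_zz01 (f : Site d k → Fin q) (v : Site d k) (c : Fin q) : 0 ≤ zz f v c ∧ zz f v c ≤ 1 := by
  unfold zz
  split_ifs <;> norm_num

/-- change of `zz` -/
private theorem B3c_dz (h : Site d k → Fin q) (v : Site d k) (γ : Fin q) (x : Site d k) (c : Fin q) :
    |zz (Function.update h v γ) x c - zz h x c| ≤ ∑ σ : Stp d, (if x = v + sv σ then (1 : ℝ) else 0) := by
  classical
  by_cases hx : ∃ σ : Stp d, x = v + sv σ
  · obtain ⟨σ, hσ⟩ := hx
    have h1 := B3c_zz01 (Function.update h v γ) x c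
    have h2 := B3c_zz01 h x c
    have h3 : |zz (Function.update h v γ) x c - zz h x c| ≤ 1 := by
      rw [abs_le]
      constructor <;> linarith
    refine h3.trans ?_
    have h4 := Finset.single_le_sum (f := fun τ : Stp d => if x = v + sv τ then (1 : ℝ) else 0)
      (fun τ _ => by split_ifs <;> norm_num) (Finset.mem_univ σ)
    simp only [if_pos hσ] at h4
    exact h4
  · have h1 : SS (Function.update h v γ) x = SS h x := by
      unfold SS
      refine image_congr fun τ _ => ?_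
      have h2 : x + sv τ ≠ v := by
        intro e
        refine hx ⟨(τ.1, !τ.2), ?_⟩
        rw [← e, add_assoc]
        have h3 : (sv τ : Site d k) + sv (τ.1, !τ.2) = 0 := sv_opp τ.1 τ.2
        rw [h3, add_zero]
      show Function.update h v γ (x + sv τ) = h (x + sv τ)
      rw [Function.update_of_ne h2]
    have h2 : zz (Function.update h v γ) x c = zz h x c := by
      unfold zz
      rw [h1]
    rw [h2, sub_self, abs_zero]
    exact Finset.sum_nonneg fun τ _ => by split_ifs <;> norm_num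

/-- `zt` is constant on the fibre -/
private theorem B3c_zt (hk : 1 ≤ k) {f h : Site d k → Fin q} (hh : h ∈ fib true f) (x : Site d k)
    (hx : x ∈ cls false d k) (c : Fin q) : zt h x c = zt f x c := by
  unfold zt
  refine Finset.prod_congr rfl fun σ _ => ?_
  have h1 : x + sv σ ∈ cls true d k := by
    rw [mem_cls_step hk]
    exact hx
  have h2 := fib_SS hk true hh _ h1
  unfold zz av
  rw [h2]

/-- the block mean with frozen `zt`, `al` -/
private noncomputable def B3c_F (s : Shp d) (t : Blk d k) (f : Site d (k + 1) → Fin q) (c : Fin q)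
    (h : Site d (k + 1) → Fin q) : ℝ := ∑ x, Ww s t x * ((zz h x c - zt f x c) / al f x)

private theorem B3c_Ms (hk : 1 ≤ k) (s : Shp d) (t : Blk d k) {f h : Site d (k + 1) → Fin q}
    (hh : h ∈ fib true f) (c : Fin q) :
    Ms s t (fun x => (zz h x c - zt h x c) / al h x) = B3c_F s t f c h := by
  rw [Ww_repr]
  unfold B3c_F
  refine Finset.sum_congr rfl fun x _ => ?_
  by_cases hx : x ∈ cls false d (k + 1)
  · have h1 := (loc_fib (k := k + 1) (by omega) false (f := f) (h := h) hh x hx c).2.1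
    rw [B3c_zt (by omega) hh x hx c, h1]
  · rw [Ww_par s t x hx, zero_mul, zero_mul]

private theorem B3c_Fabs (hd : 2 ≤ d) (hq : 1 ≤ q) (s : Shp d) (t : Blk d k) {f : Site d (k + 1) → Fin q}
    (hf : Prp f) (c : Fin q) (h : Site d (k + 1) → Fin q) : |B3c_F s t f c h| ≤ Real.exp (ra d q) := by
  unfold B3c_F
  have h1 : ∀ x ∈ (univ : Finset (Site d (k + 1))), |Ww s t x * ((zz h x c - zt f x c) / al f x)| ≤
      Ww s t x * Real.exp (ra d q) := by
    intro x _
    rw [abs_mul, abs_of_nonneg (Ww_nonneg s t x)]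
    refine mul_le_mul_of_nonneg_left ?_ (Ww_nonneg s t x)
    have h2 := al_ge hq hf x
    have h3 : 0 < al f x := lt_of_lt_of_le (Real.exp_pos _) h2
    rw [abs_div, abs_of_pos h3, div_le_iff₀ h3]
    have h4 := B3c_zz01 h x c
    have h5 := zt_nonneg f x c
    have h6 := zt_le_one f x c
    have h7 : |zz h x c - zt f x c| ≤ 1 := by
      rw [abs_le]
      constructor <;> linarith
    refine h7.trans ?_
    calc (1 : ℝ) = Real.exp (ra d q) * Real.exp (-ra d q) := by
          rw [← Real.exp_add, add_neg_cancel, Real.exp_zero]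
      _ ≤ _ := mul_le_mul_of_nonneg_left h2 (Real.exp_nonneg _)
  refine (Finset.abs_sum_le_sum_abs _ _).trans ((Finset.sum_le_sum h1).trans (le_of_eq ?_))
  rw [← Finset.sum_mul, Ww_one hd, one_mul]

private theorem B3c_Fdif (hq : 1 ≤ q) (s : Shp d) (t : Blk d k) {f : Site d (k + 1) → Fin q}
    (hf : Prp f) (c : Fin q) (h : Site d (k + 1) → Fin q) (v : Site d (k + 1)) (γ : Fin q) :
    |B3c_F s t f c (Function.update h v γ) - B3c_F s t f c h| ≤
      Real.exp (ra d q) * ∑ σ : Stp d, Ww s t (v + sv σ) := by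
  classical
  unfold B3c_F
  rw [← Finset.sum_sub_distrib]
  have h1 : ∀ x ∈ (univ : Finset (Site d (k + 1))),
      |Ww s t x * ((zz (Function.update h v γ) x c - zt f x c) / al f x) -
        Ww s t x * ((zz h x c - zt f x c) / al f x)| ≤
      ∑ σ : Stp d, (if x = v + sv σ then Real.exp (ra d q) * Ww s t x else 0) := by
    intro x _
    have e : Ww s t x * ((zz (Function.update h v γ) x c - zt f x c) / al f x) -
        Ww s t x * ((zz h x c - zt f x c) / al f x) =
        Ww s t x * ((zz (Function.update h v γ) x c - zz h x c) / al f x) := by ring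
    rw [e, abs_mul, abs_of_nonneg (Ww_nonneg s t x)]
    have h2 := al_ge hq hf x
    have h3 : 0 < al f x := lt_of_lt_of_le (Real.exp_pos _) h2
    have h4 : 1 / al f x ≤ Real.exp (ra d q) := by
      rw [div_le_iff₀ h3]
      calc (1 : ℝ) = Real.exp (ra d q) * Real.exp (-ra d q) := by
            rw [← Real.exp_add, add_neg_cancel, Real.exp_zero]
        _ ≤ _ := mul_le_mul_of_nonneg_left h2 (Real.exp_nonneg _)
    have h5 := B3c_dz h v γ x c
    have h6 : |(zz (Function.update h v γ) x c - zz h x c) / al f x| ≤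
        (∑ σ : Stp d, (if x = v + sv σ then (1 : ℝ) else 0)) * Real.exp (ra d q) := by
      rw [div_eq_mul_one_div, abs_mul, abs_of_pos (by positivity : 0 < 1 / al f x)]
      exact mul_le_mul h5 h4 (by positivity)
        (Finset.sum_nonneg fun τ _ => by split_ifs <;> norm_num)
    refine (mul_le_mul_of_nonneg_left h6 (Ww_nonneg s t x)).trans (le_of_eq ?_)
    rw [Finset.sum_mul, Finset.mul_sum]
    refine Finset.sum_congr rfl fun σ _ => ?_
    split_ifs
    · ring
    · ring
  refine (Finset.abs_sum_le_sum_abs _ _).trans ((Finset.sum_le_sum h1).trans (le_of_eq ?_))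
  rw [Finset.sum_comm, Finset.mul_sum]
  refine Finset.sum_congr rfl fun σ _ => ?_
  rw [Finset.sum_ite_eq' univ (v + sv σ) (fun x => Real.exp (ra d q) * Ww s t x)]
  simp

private theorem B3c_cardS : (Fintype.card (Stp d) : ℝ) = 2 * d := by
  rw [Fintype.card_prod, Fintype.card_fin, Fintype.card_bool]
  push_cast
  ring

private theorem B3c_Fmean (hk : 1 ≤ k) (s : Shp d) (t : Blk d k) {f : Site d (k + 1) → Fin q}
    (hf : Prp f) (c : Fin q) : fm true (B3c_F s t f c) f = 0 := by
  have e1 : fm true (B3c_F s t f c) f =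
      ∑ x, fm true (fun h => Ww s t x * ((zz h x c - zt f x c) / al f x)) f :=
    fm_sum true f univ (fun x h => Ww s t x * ((zz h x c - zt f x c) / al f x))
  rw [e1]
  refine Finset.sum_eq_zero fun x _ => ?_
  by_cases hx : x ∈ cls false d (k + 1)
  · have e2 : (fun h : Site d (k + 1) → Fin q => Ww s t x * ((zz h x c - zt f x c) / al f x)) =
        fun h => (Ww s t x / al f x) * (zz h x c - zt f x c) := by
      funext h
      ring
    rw [e2, fm_mul, fm_sub, fm_const true hf]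
    have h1 := fm_zz (by omega) false hf x hx c
    have h2 : fm true (fun h : Site d (k + 1) → Fin q => zz h x c) f = zt f x c := h1
    rw [h2, sub_self, mul_zero]
  · have e2 : (fun h : Site d (k + 1) → Fin q => Ww s t x * ((zz h x c - zt f x c) / al f x)) =
        fun _ => 0 := by
      funext h
      rw [Ww_par s t x hx, zero_mul]
    rw [e2, fm_const true hf]

private theorem B3c_Fvar (hd : 2 ≤ d) (hk : 1 ≤ k) (hq : 1 ≤ q) (s : Shp d) (t : Blk d k)
    {f : Site d (k + 1) → Fin q} (hf : Prp f) (c : Fin q) :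
    fm true (fun h => B3c_F s t f c h ^ 2) f ≤ 64 * Real.exp (ra d q) ^ 2 * d ^ 2 / 2 ^ d := by
  classical
  have h1 := fm_var (d := d) (k := k + 1) (q := q) (by omega) true hf (B3c_F s t f c)
    (fun v => Real.exp (ra d q) * ∑ σ : Stp d, Ww s t (v + sv σ))
    (fun v => mul_nonneg (Real.exp_nonneg _) (Finset.sum_nonneg fun σ _ => Ww_nonneg s t _))
    (fun h _ v _ γ _ => B3c_Fdif hq s t hf c h v γ)
  rw [B3c_Fmean hk s t hf c] at h1
  simp only [sub_zero] at h1
  refine h1.trans ?_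
  have h2 : ∀ v ∈ cls true d (k + 1), (Real.exp (ra d q) * ∑ σ : Stp d, Ww s t (v + sv σ)) ^ 2 ≤
      Real.exp (ra d q) ^ 2 * ((2 * d) * ∑ σ : Stp d, Ww s t (v + sv σ) ^ 2) := by
    intro v _
    rw [mul_pow]
    refine mul_le_mul_of_nonneg_left ?_ (by positivity)
    have h3 := sq_sum_le_card_mul_sum_sq (s := (univ : Finset (Stp d)))
      (f := fun σ => Ww s t (v + sv σ))
    rw [Finset.card_univ, B3c_cardS] at h3
    exact h3
  have h4 : ∑ v ∈ cls true d (k + 1), (Real.exp (ra d q) * ∑ σ : Stp d, Ww s t (v + sv σ)) ^ 2 ≤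
      Real.exp (ra d q) ^ 2 * ((2 * d) * ((2 * d) * (4 / 2 ^ d))) := by
    refine (Finset.sum_le_sum h2).trans ?_
    rw [← Finset.mul_sum, ← Finset.mul_sum]
    refine mul_le_mul_of_nonneg_left (mul_le_mul_of_nonneg_left ?_ (by positivity)) (by positivity)
    have h5 : ∑ v ∈ cls true d (k + 1), ∑ σ : Stp d, Ww s t (v + sv σ) ^ 2 ≤
        ∑ v : Site d (k + 1), ∑ σ : Stp d, Ww s t (v + sv σ) ^ 2 :=
      Finset.sum_le_sum_of_subset_of_nonneg (Finset.subset_univ _)
        (fun v _ _ => Finset.sum_nonneg fun σ _ => sq_nonneg _)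
    refine h5.trans ?_
    rw [Finset.sum_comm]
    have h6 : ∀ σ ∈ (univ : Finset (Stp d)), ∑ v : Site d (k + 1), Ww s t (v + sv σ) ^ 2 ≤ 4 / 2 ^ d := by
      intro σ _
      have e : ∑ v : Site d (k + 1), Ww s t (v + sv σ) ^ 2 = ∑ x : Site d (k + 1), Ww s t x ^ 2 :=
        Fintype.sum_equiv (Equiv.addRight (sv σ)) _ _ (fun v => rfl)
      rw [e]
      calc ∑ x : Site d (k + 1), Ww s t x ^ 2 ≤ ∑ x : Site d (k + 1), 4 / 2 ^ d * Ww s t x := by
            refine Finset.sum_le_sum fun x _ => ?_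
            rw [sq]
            exact mul_le_mul_of_nonneg_right (Ww_max hd s t x) (Ww_nonneg s t x)
        _ = 4 / 2 ^ d := by rw [← Finset.mul_sum, Ww_one hd, mul_one]
    refine (Finset.sum_le_sum h6).trans (le_of_eq ?_)
    rw [Finset.sum_const, nsmul_eq_mul, Finset.card_univ, B3c_cardS]
  calc 4 * ∑ v ∈ cls true d (k + 1), (Real.exp (ra d q) * ∑ σ : Stp d, Ww s t (v + sv σ)) ^ 2
      ≤ 4 * (Real.exp (ra d q) ^ 2 * ((2 * d) * ((2 * d) * (4 / 2 ^ d)))) :=
        mul_le_mul_of_nonneg_left h4 (by norm_num)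
    _ = _ := by ring

private noncomputable def B3c_Psi (c : Fin q) (s : Shp d) (f : Site d (k + 1) → Fin q) : ℝ :=
  ∑ t : Blk d k, Ms s t (fun x => (zz f x c - zt f x c) / al f x) ^ 2

private theorem B3c_mean (hd : 2 ≤ d) (hk : 1 ≤ k) (hq : 1 ≤ q) (c : Fin q) (s : Shp d)
    {f : Site d (k + 1) → Fin q} (hf : Prp f) :
    fm true (B3c_Psi (k := k) c s) f ≤ NN d k * (64 * Real.exp (ra d q) ^ 2 * d ^ 2 / 2 ^ d) := by
  have e1 : fm true (B3c_Psi (k := k) c s) f = fm true (fun h => ∑ t : Blk d k, B3c_F s t f c h ^ 2) f := by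
    refine fm_congr true fun h hh => ?_
    unfold B3c_Psi
    exact Finset.sum_congr rfl fun t _ => by rw [B3c_Ms hk s t hh c]
  have e2 : fm true (fun h => ∑ t : Blk d k, B3c_F s t f c h ^ 2) f =
      ∑ t : Blk d k, fm true (fun h => B3c_F s t f c h ^ 2) f :=
    fm_sum true f univ (fun t h => B3c_F s t f c h ^ 2)
  rw [e1, e2]
  refine (Finset.sum_le_sum fun t _ => B3c_Fvar hd hk hq s t hf c).trans (le_of_eq ?_)
  rw [Finset.sum_const, nsmul_eq_mul, Finset.card_univ, card_Blk]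

private theorem B3c_lip (hd : 2 ≤ d) (hk : 1 ≤ k) (hq : 1 ≤ q) (c : Fin q) (s : Shp d)
    (hdd : 16 * Real.exp (ra d q) ^ 2 ≤ (d : ℝ) ^ 2) :
    Lip true ((d : ℝ) ^ 3 / 2 ^ d) (B3c_Psi (k := k) (q := q) c s) := by
  intro f hf h hh v hv γ hγ
  rw [B3c_prps] at hf
  have hh' := B3c_upd true hh hv hγ
  unfold B3c_Psi
  rw [← Finset.sum_sub_distrib]
  have h1 : ∀ t ∈ (univ : Finset (Blk d k)),
      |Ms s t (fun x => (zz (Function.update h v γ) x c - zt (Function.update h v γ) x c) /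
          al (Function.update h v γ) x) ^ 2 -
        Ms s t (fun x => (zz h x c - zt h x c) / al h x) ^ 2| ≤
      2 * Real.exp (ra d q) * (Real.exp (ra d q) * ∑ σ : Stp d, Ww s t (v + sv σ)) := by
    intro t _
    rw [B3c_Ms hk s t hh' c, B3c_Ms hk s t hh c]
    have h2 := B3c_Fabs (k := k) hd hq s t hf c (Function.update h v γ)
    have h3 := B3c_Fabs (k := k) hd hq s t hf c h
    have h4 := B3c_Fdif hq s t hf c h v γ
    have e : B3c_F s t f c (Function.update h v γ) ^ 2 - B3c_F s t f c h ^ 2 =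
        (B3c_F s t f c (Function.update h v γ) + B3c_F s t f c h) *
        (B3c_F s t f c (Function.update h v γ) - B3c_F s t f c h) := by ring
    rw [e, abs_mul]
    refine mul_le_mul ?_ h4 (abs_nonneg _) (by positivity)
    refine (abs_add_le _ _).trans ?_
    linarith
  refine (Finset.abs_sum_le_sum_abs _ _).trans ((Finset.sum_le_sum h1).trans ?_)
  rw [← Finset.mul_sum, ← Finset.mul_sum, Finset.sum_comm]
  have h5 : ∑ σ : Stp d, ∑ t : Blk d k, Ww s t (v + sv σ) ≤ 2 * d * (4 / 2 ^ d) := by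
    refine (Finset.sum_le_sum fun σ _ => Ww_sum hd s (v + sv σ)).trans (le_of_eq ?_)
    rw [Finset.sum_const, nsmul_eq_mul, Finset.card_univ, B3c_cardS]
  have hE : 0 < Real.exp (ra d q) := Real.exp_pos _
  calc 2 * Real.exp (ra d q) * (Real.exp (ra d q) * ∑ σ : Stp d, ∑ t : Blk d k, Ww s t (v + sv σ))
      ≤ 2 * Real.exp (ra d q) * (Real.exp (ra d q) * (2 * d * (4 / 2 ^ d))) := by gcongr
    _ = 16 * Real.exp (ra d q) ^ 2 * (d / 2 ^ d) := by ring
    _ ≤ (d : ℝ) ^ 2 * (d / 2 ^ d) := mul_le_mul_of_nonneg_right hdd (by positivity)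
    _ = _ := by ring

theorem blk_zz {ε : ℝ} (hε : 0 < ε) (hε1 : ε ≤ 1) : WOPb ε fun d k q f => ∀ (c : Fin q) (s : Shp d),
    ∑ t : Blk d k, Ms s t (fun x => (zz f x c - zt f x c) / al f x) ^ 2 ≤ NN d k / (d : ℝ) ^ 4 := by
  -- the size of `d`
  have hev : ∀ᶠ d : ℕ in atTop, 16 * Real.exp (A0 ε) ^ 2 ≤ (d : ℝ) ^ 2 ∧
      64 * Real.exp (A0 ε) ^ 2 * (d : ℝ) ^ 2 / 2 ^ d ≤ 1 / (2 * (d : ℝ) ^ 4) ∧ 2 ≤ d := by
    have h1 : ∀ᶠ d : ℕ in atTop, 16 * Real.exp (A0 ε) ^ 2 ≤ (d : ℝ) ^ 2 :=
      ((tendsto_pow_atTop (n := 2) (by norm_num)).comp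
        tendsto_natCast_atTop_atTop).eventually_ge_atTop _
    have h2 : Tendsto (fun n : ℕ => (n : ℝ) ^ 6 / 2 ^ n) atTop (nhds 0) :=
      tendsto_pow_const_div_const_pow_of_one_lt 6 (by norm_num)
    have hE : 0 < Real.exp (A0 ε) := Real.exp_pos _
    have h3 := h2.eventually (gt_mem_nhds (show (0 : ℝ) < 1 / (128 * Real.exp (A0 ε) ^ 2) by positivity))
    filter_upwards [h1, h3, eventually_ge_atTop 2] with d g1 g2 g3
    refine ⟨g1, ?_, g3⟩
    have hd0 : (0 : ℝ) < d := by
      have : 0 < d := by omega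
      exact_mod_cast this
    have g4 : (d : ℝ) ^ 6 / 2 ^ d ≤ 1 / (128 * Real.exp (A0 ε) ^ 2) := g2.le
    rw [div_le_div_iff₀ (by positivity) (by positivity)] at g4 ⊢
    linarith
  have hEv := (EvT_d (ε := ε) hev).and (EvT_reg hε hε1 1)
  have hR : ∀ {d q : ℕ}, ra d q ≤ A0 ε → Real.exp (ra d q) ^ 2 ≤ Real.exp (A0 ε) ^ 2 := by
    intro d q h
    exact pow_le_pow_left₀ (Real.exp_nonneg _) (Real.exp_le_exp.2 h) 2
  have hT := WOPb_tail hε hε1 (fun d _ q => Fin q × Shp d)
    (fun d q => (Fintype.card (Fin q × Shp d) : ℝ)) (fun _ _ _ => le_rfl) (fun _ _ _ _ => true)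
    (fun d k q i f => B3c_Psi (k := k) i.1 i.2 f) 3 5 (hEv.mono fun d k q h i => by
      obtain ⟨⟨g1, g2, g3⟩, g4, g5, g6, -, -, -, g7, -⟩ := h
      have hq : 1 ≤ q := by exact_mod_cast g5
      have hk : 1 ≤ k := by exact_mod_cast g6
      exact B3c_lip g3 hk hq i.1 i.2 (le_trans (by have := hR g7; linarith) g1))
  refine hT.mono (hEv.mono fun d k q h f hf hΨ c s => ?_)
  obtain ⟨⟨g1, g2, g3⟩, g4, g5, g6, -, -, -, g7, -⟩ := h
  have hq : 1 ≤ q := by exact_mod_cast g5
  have hk : 1 ≤ k := by exact_mod_cast g6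
  rw [B3c_prps] at hf
  have h1 := hΨ (c, s)
  have h2 := B3c_mean g3 hk hq c s hf
  have hN : 0 ≤ NN d k := by unfold NN; positivity
  have hd2 : (2 : ℝ) ≤ d := by exact_mod_cast g3
  have hd0 : (0 : ℝ) < d := by linarith
  have h3 : 64 * Real.exp (ra d q) ^ 2 * (d : ℝ) ^ 2 / 2 ^ d ≤ 1 / (2 * (d : ℝ) ^ 4) := by
    refine le_trans ?_ g2
    have := hR g7
    gcongr
  have h4 := mul_le_mul_of_nonneg_left h3 hN
  have h5 : NN d k / (d : ℝ) ^ 5 ≤ NN d k * (1 / (2 * (d : ℝ) ^ 4)) := by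
    have e : NN d k * (1 / (2 * (d : ℝ) ^ 4)) = NN d k / (2 * (d : ℝ) ^ 4) := by ring
    rw [e]
    refine div_le_div_of_nonneg_left hN (by positivity) ?_
    have : (d : ℝ) ^ 5 = d * d ^ 4 := by ring
    rw [this]
    exact mul_le_mul_of_nonneg_right hd2 (by positivity)
  have h6 : NN d k / (d : ℝ) ^ 4 = NN d k * (1 / (2 * (d : ℝ) ^ 4)) + NN d k * (1 / (2 * (d : ℝ) ^ 4)) := by
    field_simp
    ring
  have h7 : B3c_Psi (k := k) c s f ≤ fm true (B3c_Psi (k := k) c s) f + NN d k / (d : ℝ) ^ 5 := h1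
  have h8 : B3c_Psi (k := k) c s f ≤ NN d k / (d : ℝ) ^ 4 := by
    rw [h6]
    linarith
  exact h8

end Pool.Agent.THR

end
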