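import Pool.Agent.Lib_MP_2c424f_ms.M33
import Pool.Agent.Lib_MP_2c424f_ms.M34
import Pool.Agent.Lib_MP_2c424f_ms.M37
import Pool.Agent.Lib_MP_2c424f_ms.M38

/-!
# MP_2c424f_pr: library of SharpThreshold and BoundaryThreshold (merged): merged library part M39

Concatenation of smaller files (each in its own section), only to save build time.
-/

namespace Pool.Agent.LO
end Pool.Agent.LO

namespace Pool.Agent.LIN
end Pool.Agent.LIN

/-! ### from `Lib_MP_2c424f_thr.C5` -/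

section

/-!
# THR C5: the environment is pinned (paper proof: C5)

Fix `δ`.  `J_det` with `δ/8`, `Z_lower` with `δ/8`, `sample_num` with `δ/8`.  `F` = proper colourings which are good (`δ'`) with
`∑_{u ∈ b} mc (L (ya_u)) > δN`.  For every `f ∈ F` take `R` from `sample_H`; for fixed `R` use `code` with `Hf = Hs t R`,
`Λ = (N/2)(2 log q + Phi) - δN + δN/8`.  Union bound over the sets `R` (the sample depends on `f`), `sample_num` counts them and
contains the factor `q^|R|` of `code`: `|F| ≤ exp (δN/8) exp Λ ≤ Z exp (-δN/2)`, which is `Rar`.  Union with the rare event of `good_wop`.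
-/

set_option autoImplicit false

open Finset Filter

namespace Pool.Agent.THR

open Pool.Agent.LO Pool.Agent.LIN

open scoped Classical in
/-- one step: the number of good colourings with a large deficit -/
private theorem C5_count {d k q : ℕ} (hk : 1 ≤ k) (hq : 1 ≤ q) (b : Bool) (t : ℕ) (N r Λ δn : ℝ)
    (F : Finset (Site d k → Fin q)) (hF : F ⊆ prps d k q) (G : (Site d k → Fin q) → Finset (Site d k) → Prop)
    (hR : ∀ f ∈ F, ∃ R : Finset (Site d k), (R.card : ℝ) ≤ r ∧ G f R)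
    (hJ : ∀ f ∈ F, ∀ R : Finset (Site d k), G f R → JJ b (Hs t R f) f ≤ Λ)
    (hn : (((univ : Finset (Finset (Site d k))).filter fun R => (R.card : ℝ) ≤ r).card : ℝ) * (q : ℝ) ^ r ≤
      Real.exp (δn * N)) : (F.card : ℝ) ≤ Real.exp (δn * N) * Real.exp Λ := by
  have hq1 : (1 : ℝ) ≤ q := by exact_mod_cast hq
  have hsub : F ⊆ ((univ : Finset (Finset (Site d k))).filter fun R => (R.card : ℝ) ≤ r).biUnion
      fun R => F.filter fun f => G f R := by
    intro f hf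
    obtain ⟨R, h1, h2⟩ := hR f hf
    rw [mem_biUnion]
    exact ⟨R, mem_filter.2 ⟨mem_univ _, h1⟩, mem_filter.2 ⟨hf, h2⟩⟩
  have h1 : (F.card : ℝ) ≤ ∑ R ∈ (univ : Finset (Finset (Site d k))).filter fun R => (R.card : ℝ) ≤ r,
      ((F.filter fun f => G f R).card : ℝ) := by
    exact_mod_cast (card_le_card hsub).trans card_biUnion_le
  have h2 : ∀ R ∈ (univ : Finset (Finset (Site d k))).filter fun R => (R.card : ℝ) ≤ r,
      ((F.filter fun f => G f R).card : ℝ) ≤ (q : ℝ) ^ r * Real.exp Λ := by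
    intro R hR
    have hR' : (R.card : ℝ) ≤ r := (mem_filter.1 hR).2
    have h3 := code hk hq b R (fun f => Hs t R f) (fun f g h => Hs_loc t R f g h) (F.filter fun f => G f R)
      ((filter_subset _ _).trans hF) Λ fun f hf => hJ f (mem_filter.1 hf).1 R (mem_filter.1 hf).2
    refine h3.trans (mul_le_mul_of_nonneg_right ?_ (Real.exp_pos _).le)
    rw [← Real.rpow_natCast]
    exact Real.rpow_le_rpow_of_exponent_le hq1 hR'
  refine h1.trans ((sum_le_sum h2).trans ?_)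
  rw [sum_const, nsmul_eq_mul, ← mul_assoc]
  exact mul_le_mul_of_nonneg_right hn (Real.exp_pos _).le

theorem env_wop {ε : ℝ} (hε : 0 < ε) (hε1 : ε ≤ 1) : ∃ (t : ℕ) (C₆ : ℝ), Even t ∧ 20 ≤ t ∧ 0 < C₆ ∧
    ∀ δ : ℝ, 0 < δ → WOP ε fun d k q f => Good ε δ C₆ t f ∧ ∀ (b : Bool) (m : ℝ), MFE (ra d q) m →
      ∑ u ∈ cls b d k, mc (fun c => LL (ra d q) m (ya c f u)) ≤ δ * NN d k := by
  classical
  obtain ⟨t, C₆, hte, ht, hC, hgood⟩ := good_wop hε hε1
  refine ⟨t, C₆, hte, ht, hC, fun δ hδ => ?_⟩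
  obtain ⟨δ', hδ', hJ⟩ := J_det hε hε1 C₆ t hte ht (δ / 8) (by positivity)
  have hS := sample_H hε hε1 t ht δ' hδ'
  have hn := sample_num hε hε1 (δ / 8) (by positivity)
  have hZ := Z_lower hε hε1 (δ / 8) (by positivity)
  have hW1 : WOPi ε (fun _ _ _ => Bool) fun d k q b f => Good ε δ' C₆ t f → ∀ m : ℝ, MFE (ra d q) m →
      ∑ u ∈ cls b d k, mc (fun c => LL (ra d q) m (ya c f u)) ≤ δ * NN d k := by
    refine ⟨1, ((((hJ.and hS).and hn).and hZ).and (EvT_reg hε hε1 (max 1 (2 / δ)))).mono ?_⟩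
    rintro d k q ⟨⟨⟨⟨HJ, HS⟩, Hn⟩, HZ⟩, hd1, hq1, hk1, -, -, hra, -, -⟩ b
    have hd : 1 ≤ d := by exact_mod_cast (le_max_left _ _).trans hd1
    have hq : 1 ≤ q := by exact_mod_cast (le_max_left _ _).trans hq1
    have hk : 1 ≤ k := by exact_mod_cast (le_max_left _ _).trans hk1
    have hdd : 2 / δ ≤ d := (le_max_right _ _).trans hd1
    have hd0 : (0 : ℝ) < d := by exact_mod_cast hd
    have hN : 0 ≤ NN d k := by unfold NN; positivity
    have hra1 : 1 < ra d q := by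
      refine lt_of_lt_of_le ?_ hra
      unfold a1
      rw [lt_div_iff₀ (by linarith)]
      linarith
    unfold Rar
    set F : Finset (Site d k → Fin q) := (prps d k q).filter fun f => ¬ (Good ε δ' C₆ t f → ∀ m : ℝ,
      MFE (ra d q) m → ∑ u ∈ cls b d k, mc (fun c => LL (ra d q) m (ya c f u)) ≤ δ * NN d k) with hFdef
    have hZ0 : 0 ≤ ZZ d k q := by unfold ZZ; positivity
    suffices hmain : (F.card : ℝ) ≤ ZZ d k q * Real.exp (-(NN d k / (d : ℝ) ^ 1)) by
      refine le_trans (le_of_eq ?_) hmain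
      rw [hFdef]
      exact congrArg Nat.cast (congrArg Finset.card (Finset.ext fun f => by simp only [mem_filter]))
    rcases F.eq_empty_or_nonempty with he | ⟨f₀, hf₀⟩
    · have h0 : (F.card : ℝ) = 0 := by rw [he]; simp
      rw [h0]
      exact mul_nonneg hZ0 (Real.exp_pos _).le
    · have hFs : F ⊆ prps d k q := filter_subset _ _
      have hZ1 : 0 < ZZ d k q := by
        unfold ZZ
        exact_mod_cast card_pos.2 ⟨f₀, hFs hf₀⟩
      obtain ⟨m, hm⟩ := mfe_exists (ra d q) hra1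
      have hFm : ∀ f ∈ F, Good ε δ' C₆ t f ∧
          δ * NN d k < ∑ u ∈ cls b d k, mc (fun c => LL (ra d q) m (ya c f u)) := by
        intro f hf
        have h1 := (mem_filter.1 hf).2
        push Not at h1
        obtain ⟨h2, m', hm', h3⟩ := h1
        rw [← mfe_unique (ra d q) m m' hra1 hm hm'] at h3
        exact ⟨h2, h3⟩
      set Λ : ℝ := NN d k / 2 * (2 * Real.log q + Phi (ra d q) m) - δ * NN d k + δ / 8 * NN d k with hΛ
      have h1 := C5_count hk hq b t (NN d k) (3 * NN d k / d) Λ (δ / 8) F hFs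
        (fun f R => ∑ u ∈ cls b d k, |Hs t R f u (f u) - ra d q * PP^[2 * t + 1] (bq (f u) f) u| ≤ δ' * NN d k ∧
          ∑ u ∈ cls b d k, mc (fun γ => |Hs t R f u γ - ra d q * PP^[2 * t + 1] (bq γ f) u|) ≤ δ' * NN d k)
        (fun f hf => HS b f (hFs hf))
        (fun f hf R hR => by
          have h2 := HJ b m hm f (hFs hf) (hFm f hf).1 R hR.1 hR.2
          have h3 := (hFm f hf).2
          rw [hΛ]
          linarith) (by convert Hn)
      have h2 := HZ m hm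
      have h3 : Real.exp (δ / 8 * NN d k) * Real.exp Λ ≤ ZZ d k q * Real.exp (-(NN d k / (d : ℝ) ^ 1)) := by
        rw [← Real.exp_add]
        calc Real.exp (δ / 8 * NN d k + Λ) ≤ Real.exp (Real.log (ZZ d k q) + -(NN d k / (d : ℝ) ^ 1)) := by
              refine Real.exp_le_exp.2 ?_
              have h4 : NN d k / (d : ℝ) ^ 1 ≤ δ / 2 * NN d k := by
                rw [pow_one, div_le_iff₀ hd0]
                have h5 : 1 ≤ δ / 2 * d := by
                  have h6 := mul_le_mul_of_nonneg_left hdd (by positivity : 0 ≤ δ / 2)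
                  have h7 : δ / 2 * (2 / δ) = 1 := by field_simp
                  linarith
                have h8 := mul_le_mul_of_nonneg_right h5 hN
                linarith
              have h9 : 0 ≤ δ * NN d k := by positivity
              rw [hΛ]
              linarith
          _ = ZZ d k q * Real.exp (-(NN d k / (d : ℝ) ^ 1)) := by
              rw [Real.exp_add, Real.exp_log hZ1]
      exact h1.trans h3
  have hW2 := WOPi.all hW1 (fun _ _ => 2) fun _ _ _ => by simp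
  have hW3 := hgood (min δ δ') (lt_min hδ hδ')
  refine (hW3.and hW2).mono ⟨0, fun d q _ _ _ => Eventually.of_forall fun k f _ h => ?_⟩
  obtain ⟨hG, hb⟩ := h
  have hN : 0 ≤ NN d k := by unfold NN; positivity
  have hmono : ∀ δ'' : ℝ, min δ δ' ≤ δ'' → Good ε δ'' C₆ t f := by
    intro δ'' hle
    have hb' : min δ δ' * NN d k ≤ δ'' * NN d k := mul_le_mul_of_nonneg_right hle hN
    exact ⟨hG.irr4, hG.grad, hG.smo, fun c σ τ => (hG.hom c σ τ).trans hb', hG.avl.trans hb',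
      fun c σ => (hG.mf c σ).trans hb', fun c => (hG.sm0 c).trans hb', fun c σ => (hG.sm1 c σ).trans hb',
      fun c => (hG.sm2 c).trans hb'⟩
  exact ⟨hmono δ (min_le_left _ _), fun b m hm => hb b (hmono δ' (min_le_right _ _)) m hm⟩

end Pool.Agent.THR

end

/-! ### from `Lib_MP_2c424f_thr.A5` -/

section

/-!
# THR A5: consequences for good colourings (paper proof: A5)

`a = ra d q`, `a1 ε ≤ a ≤ A0 ε` (`EvT_reg`), `1 < a1 ε`, `0 ≤ ya ≤ e^a` (`ya_bound`), `N = NN d k`; from `ℓ²` to `ℓ¹` by Cauchy-Schwarz.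
`u = v + σ₀` for a fixed step (sums over all `v` = sums over all `u`); the sums of `mc LL` over both classes add up to at most `2 δ' N`.
* `al`: `al_v = mc exp (-hh_v)`, `|exp (-hh_v) - exp (-a ya_u)| ≤ |hh_v - a ya_u|` (`mf`), `est1` and `mc (α*(2 - ya_u)) = α*` (`ya_mean`).
* `yF`: `ya_v = exp (-hh_v)/al_v`, `Fy (ya_u) = exp (-a ya_u)/α*`, both denominators `≥ e^(-a)` (`al_ge`, `als_bounds`); `mf` and `al`.
* `d3`: `est3`, `|ya_v - F (F (ya_v))| ≤ |ya_v - F (ya_{v+σ})| + C |ya_{v+σ} - F (ya_v)|` (`Fy_lip`, `yF` twice, the second time at the site `v+σ` with the opposite step).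
* `d2`: `est2` and the hypothesis on `LL`; `|ya - (1 + m eps)| = dst2 m ya` (`eps = 1` iff `ya ≥ 1`).
* `me`: `m · mc eps = mc ((1 + m eps) - ya)`, `m ≥ gap`.
* `fl`: if `eps_v = eps_{v+σ} = e` then `2 m ≤ |(1 + m e) - (1 - m e)| ≤ |ya_v - (1+me)| + |F (ya_{v+σ}) - F (1 + m e)| + |ya_v - F (ya_{v+σ})|`
  (`Fy_add`, `Fy_sub`: `F (1 + m e) = 1 - m e`), `Fy_lip`, `d2`, `yF`, `m ≥ gap`.
-/

set_option autoImplicit false

open Finset Filter

namespace Pool.Agent.THR

open Pool.Agent.LO Pool.Agent.LIN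

/-- the densities are pinned -/
structure Pin {d k q : ℕ} (δ m yM : ℝ) (f : Site d k → Fin q) : Prop where
  al : ∑ v : Site d k, |al f v - als (ra d q) m| ≤ δ * NN d k
  yF : ∀ (c : Fin q) (σ : Stp d), ∑ v : Site d k, |ya c f v - Fy (ra d q) m (ya c f (v + sv σ))| ≤ δ * NN d k
  d3 : ∀ c : Fin q, ∑ v : Site d k, dst3 m yM (ya c f v) ≤ δ * NN d k
  d2 : ∑ v : Site d k, mc (fun c => |ya c f v - (1 + m * eps c f v)|) ≤ δ * NN d k
  me : ∑ v : Site d k, |mc (fun c => eps c f v)| ≤ δ * NN d k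
  fl : ∀ σ : Stp d, ∑ v : Site d k, mc (fun c => if eps c f v = eps c f (v + sv σ) then (1 : ℝ) else 0) ≤ δ * NN d k

private theorem A5_good {ε δ δ' C₆ : ℝ} {t d k q : ℕ} {f : Site d k → Fin q} (hN : 0 ≤ NN d k) (h : δ' ≤ δ)
    (hG : Good ε δ' C₆ t f) : Good ε δ C₆ t f :=
  have e : δ' * NN d k ≤ δ * NN d k := mul_le_mul_of_nonneg_right h hN
  { irr4 := hG.irr4
    grad := hG.grad
    smo := hG.smo
    hom := fun c σ τ => (hG.hom c σ τ).trans e
    avl := hG.avl.trans e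
    mf := fun c σ => (hG.mf c σ).trans e
    sm0 := fun c => (hG.sm0 c).trans e
    sm1 := fun c σ => (hG.sm1 c σ).trans e
    sm2 := fun c => (hG.sm2 c).trans e }

/-- good and pinned -/
theorem pin_wop {ε : ℝ} (hε : 0 < ε) (hε1 : ε ≤ 1) : ∃ (t : ℕ) (C₆ : ℝ), Even t ∧ 20 ≤ t ∧ 0 < C₆ ∧
    ∀ δ : ℝ, 0 < δ → WOP ε fun d k q f => Good ε δ C₆ t f ∧ ∀ m yM : ℝ, MFE (ra d q) m → YM (ra d q) m yM →
      Pin δ m yM f := by
  obtain ⟨t, C₆, ht, ht20, hC₆, H⟩ := env_wop hε hε1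
  refine ⟨t, C₆, ht, ht20, hC₆, fun δ hδ => ?_⟩
  obtain ⟨δf, hδf, Hf⟩ := pin_fl hε hε1 δ hδ
  obtain ⟨δ3, hδ3, H3⟩ := pin_d3 hε hε1 δ hδ
  obtain ⟨δ2, hδ2, H2⟩ := pin_d2 hε hε1 (min δ δf) (lt_min hδ hδf)
  obtain ⟨δa, hδa, Ha⟩ := pin_al hε hε1 C₆ t (min δ (min δf δ3)) (lt_min hδ (lt_min hδf hδ3))
  have hpos : 0 < min δ (min δ2 δa) := lt_min hδ (lt_min hδ2 hδa)
  have l1 : min δ (min δ2 δa) ≤ δ := min_le_left _ _
  have l2 : min δ (min δ2 δa) ≤ δ2 := (min_le_right _ _).trans (min_le_left _ _)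
  have l3 : min δ (min δ2 δa) ≤ δa := (min_le_right _ _).trans (min_le_right _ _)
  have r1 : min δ δf ≤ δ := min_le_left _ _
  have r2 : min δ δf ≤ δf := min_le_right _ _
  have s1 : min δ (min δf δ3) ≤ δ := min_le_left _ _
  have s2 : min δ (min δf δ3) ≤ δf := (min_le_right _ _).trans (min_le_left _ _)
  have s3 : min δ (min δf δ3) ≤ δ3 := (min_le_right _ _).trans (min_le_right _ _)
  refine (H _ hpos).mono (((Hf.and H3).and (H2.and Ha)).mono ?_)
  rintro d k q ⟨⟨hf, h3⟩, h2, ha⟩ f hfp ⟨hG, hL⟩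
  have hN : 0 ≤ NN d k := by unfold NN; positivity
  refine ⟨A5_good hN l1 hG, fun m yM hm hM => ?_⟩
  have hGa : Good ε δa C₆ t f := A5_good hN l3 hG
  obtain ⟨ha1, ha2⟩ := ha m yM hm hM f hfp hGa fun b =>
    (hL b m hm).trans (mul_le_mul_of_nonneg_right l3 hN)
  have hd2 := h2 m hm f hfp fun b => (hL b m hm).trans (mul_le_mul_of_nonneg_right l2 hN)
  have hd3 := h3 m yM hm hM f hfp fun c σ => (ha2 c σ).trans (mul_le_mul_of_nonneg_right s3 hN)
  obtain ⟨hf1, hf2⟩ := hf m hm f hfp (fun c σ => (ha2 c σ).trans (mul_le_mul_of_nonneg_right s2 hN))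
    (hd2.trans (mul_le_mul_of_nonneg_right r2 hN))
  exact
    { al := ha1.trans (mul_le_mul_of_nonneg_right s1 hN)
      yF := fun c σ => (ha2 c σ).trans (mul_le_mul_of_nonneg_right s1 hN)
      d3 := hd3
      d2 := hd2.trans (mul_le_mul_of_nonneg_right r1 hN)
      me := hf1
      fl := hf2 }

end Pool.Agent.THR

end

/-! ### from `Lib_MP_2c424f_thr.Z1` -/

section

/-!
# THR Z1: means at a single site (paper proof: Z1)

`pin_wop` (fixes `t, C₆`), `transl_mean`, `loc_transl`; `als ≥ e^(-a)` (`als_bounds`).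
* `av_mean`: `|q/x - 1/al| ≤ (e^a/c1) |x/q - al|` at regular sites (`avl`, Cauchy-Schwarz), `≤ q + e^a` at the others (`≤ N/d^4`, `q ≤ 2d`, `x ≥ 1`: `LIN` or `av_pos` in LO for proper colourings);
  `|1/al - 1/α*| ≤ e^(2a) |al - α*|` (`Pin.al`).  Bound `M = q + e^A0`.
* `zt_mean`: `|zt - exp (-hh)|` (`zt_det` times `al ≤ 1`), `exp (-hh) = al ya`, `|al ya - α* ya| ≤ e^a |al - α*|`, `α* |ya - (1 + m eps)|` (`Pin.d2`).
* `eps_mean`: `Pin.me`.
-/

set_option autoImplicit false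

open Finset Filter

namespace Pool.Agent.THR

open Pool.Agent.LO Pool.Agent.LIN

private theorem Z1_a1 {ε : ℝ} (hε : 0 < ε) (hε1 : ε ≤ 1) : 1 < a1 ε := by
  unfold a1
  rw [one_lt_div (by linarith)]
  linarith

private theorem Z1_c1 (ε : ℝ) : 0 < c1 ε := by
  unfold c1
  have : (0 : ℝ) < (4 : ℝ) ^ (-A0 ε) := Real.rpow_pos_of_pos (by norm_num) _
  positivity

private theorem Z1_inv {A x : ℝ} (h : Real.exp (-A) ≤ x) : 0 < x ∧ 1 / x ≤ Real.exp A := by
  have h0 : 0 < x := (Real.exp_pos _).trans_le h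
  refine ⟨h0, ?_⟩
  rw [div_le_iff₀ h0]
  calc (1 : ℝ) = Real.exp A * Real.exp (-A) := by rw [← Real.exp_add]; simp
    _ ≤ _ := mul_le_mul_of_nonneg_left h (Real.exp_pos _).le

private theorem Z1_eps {d k q : ℕ} (c : Fin q) (f : Site d k → Fin q) (v w : Site d k) :
    eps c (fun x => f (x + w)) v = eps c f (v + w) := by
  unfold eps
  rw [(loc_transl f v w c).2.2.1]

private theorem Z1_eps_abs {d k q : ℕ} (c : Fin q) (f : Site d k → Fin q) (v : Site d k) : |eps c f v| ≤ 1 := by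
  unfold eps
  split_ifs <;> norm_num

private theorem Z1_mc_mono {q : ℕ} (φ ψ : Fin q → ℝ) (h : ∀ c, φ c ≤ ψ c) : mc φ ≤ mc ψ := by
  unfold mc
  exact div_le_div_of_nonneg_right (sum_le_sum fun c _ => h c) (Nat.cast_nonneg _)

private theorem Z1_mc_add {q : ℕ} (φ ψ : Fin q → ℝ) : mc (fun c => φ c + ψ c) = mc φ + mc ψ := by
  unfold mc
  rw [sum_add_distrib, add_div]

private theorem Z1_mc_mul {q : ℕ} (a : ℝ) (φ : Fin q → ℝ) : mc (fun c => a * φ c) = a * mc φ := by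
  unfold mc
  rw [← mul_sum, mul_div_assoc]

private theorem Z1_mc_const {q : ℕ} (hq : 1 ≤ q) (a : ℝ) : mc (fun _ : Fin q => a) = a := by
  have hq' : (1 : ℝ) ≤ q := by exact_mod_cast hq
  unfold mc
  rw [sum_const, card_univ, Fintype.card_fin, nsmul_eq_mul]
  field_simp

private theorem Z1_mc_abs {q : ℕ} (φ : Fin q → ℝ) : |mc φ| ≤ mc fun c => |φ c| := by
  unfold mc
  rw [abs_div, abs_of_nonneg (Nat.cast_nonneg q : (0 : ℝ) ≤ q)]
  exact div_le_div_of_nonneg_right (abs_sum_le_sum_abs _ _) (Nat.cast_nonneg _)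

private theorem Z1_mc_sum {d k q : ℕ} (hq : 1 ≤ q) (g : Fin q → Site d k → ℝ) (B : ℝ) (h : ∀ c, ∑ v, g c v ≤ B) :
    ∑ v, mc (fun c => g c v) ≤ B := by
  have hq' : (1 : ℝ) ≤ q := by exact_mod_cast hq
  unfold mc
  rw [← sum_div, sum_comm, div_le_iff₀ (by linarith)]
  calc ∑ c, ∑ v, g c v ≤ ∑ _c : Fin q, B := sum_le_sum fun c _ => h c
    _ = B * q := by
        rw [sum_const, card_univ, Fintype.card_fin, nsmul_eq_mul, mul_comm]

private theorem Z1_avl {d k q : ℕ} (f : Site d k → Fin q) (s : ℝ) (hs : 0 < s)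
    (h : ∑ v, ((av f v : ℝ) / q - al f v) ^ 2 ≤ s ^ 2 * NN d k) :
    ∑ v, |(av f v : ℝ) / q - al f v| ≤ s * NN d k := by
  have h3 : ∀ v, |(av f v : ℝ) / q - al f v| ≤
      ((av f v : ℝ) / q - al f v) ^ 2 / (2 * s) + s / 2 := by
    intro v
    set x := |(av f v : ℝ) / q - al f v| with hx
    have e1 : ((av f v : ℝ) / q - al f v) ^ 2 = x ^ 2 := (sq_abs _).symm
    rw [e1]
    have e2 : x ^ 2 / (2 * s) + s / 2 - x = (x - s) ^ 2 / (2 * s) := by
      field_simp
      ring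
    have e3 : 0 ≤ (x - s) ^ 2 / (2 * s) := by positivity
    linarith
  calc ∑ v, |(av f v : ℝ) / q - al f v|
      ≤ ∑ v : Site d k, (((av f v : ℝ) / q - al f v) ^ 2 / (2 * s) + s / 2) :=
        sum_le_sum fun v _ => h3 v
    _ = (∑ v : Site d k, ((av f v : ℝ) / q - al f v) ^ 2) / (2 * s) + NN d k * (s / 2) := by
        rw [sum_add_distrib, sum_div, sum_const, nsmul_eq_mul, card_univ, card_site]
    _ ≤ s ^ 2 * NN d k / (2 * s) + NN d k * (s / 2) :=
        add_le_add (div_le_div_of_nonneg_right h (by positivity)) le_rfl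
    _ = s * NN d k := by
        field_simp
        ring

private theorem Z1_pow {d : ℕ} (hd : 1 ≤ d) {C N : ℝ} (hC : 0 ≤ C) (hN : 0 ≤ N) :
    C * d * (N / (d : ℝ) ^ 4) ≤ C / d * N := by
  have hd' : (1 : ℝ) ≤ d := by exact_mod_cast hd
  have hd0 : (0 : ℝ) < d := by linarith
  have h1 : C * d * (N / (d : ℝ) ^ 4) = C / d * N * (1 / (d : ℝ) ^ 2) := by
    field_simp
  have h2 : 1 / (d : ℝ) ^ 2 ≤ 1 := by
    rw [div_le_iff₀ (by positivity), one_mul]
    exact one_le_pow₀ hd'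
  rw [h1]
  exact mul_le_of_le_one_right (by positivity) h2

/-- deterministic part of `av_mean` -/
private theorem Z1_av_det {ε : ℝ} (hε : 0 < ε) (hε1 : ε ≤ 1) (C₆ : ℝ) (t : ℕ) (δ : ℝ) (hδ : 0 < δ) : ∃ δ' : ℝ, 0 < δ' ∧
    EvT ε fun d k q => ∀ f ∈ prps d k q, Good ε δ' C₆ t f → ∀ m : ℝ, MFE (ra d q) m →
      ∑ v : Site d k, |al f v - als (ra d q) m| ≤ δ' * NN d k →
      ∑ v : Site d k, |q / (av f v : ℝ) - 1 / als (ra d q) m| ≤ δ * NN d k := by
  classical
  set E : ℝ := Real.exp (A0 ε) with hEdef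
  have hE : 0 < E := Real.exp_pos _
  have hc1 := Z1_c1 ε
  set s : ℝ := δ * c1 ε / (3 * E) with hsdef
  have hs : 0 < s := by positivity
  refine ⟨min (s ^ 2) (δ / (3 * E ^ 2)), by positivity, ?_⟩
  refine (EvT_reg hε hε1 (max 1 (3 * (2 + E) / δ))).mono ?_
  rintro d k q ⟨hdM, hqM, hkM, -, hq2, -, hraA, -⟩ f hf hG m hm hal2
  have hd1 : (1 : ℝ) ≤ d := (le_max_left _ _).trans hdM
  have hq1 : (1 : ℝ) ≤ q := (le_max_left _ _).trans hqM
  have hdE : 3 * (2 + E) / δ ≤ d := (le_max_right _ _).trans hdM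
  have hd : 1 ≤ d := by exact_mod_cast hd1
  have hq : 1 ≤ q := by exact_mod_cast hq1
  have hqr : (0 : ℝ) < q := by linarith
  have hN : 0 ≤ NN d k := by unfold NN; positivity
  have hprp : Prp f := by simpa [prps] using hf
  have hra0 : 0 ≤ ra d q := by unfold ra; positivity
  have hal : ∀ v, 0 < al f v ∧ 1 / al f v ≤ E := fun v =>
    Z1_inv ((Real.exp_le_exp.2 (by linarith : -A0 ε ≤ -ra d q)).trans (al_ge hq hprp v))
  have hm1 := mfe_lt _ _ hm
  have hals : 0 < als (ra d q) m ∧ 1 / als (ra d q) m ≤ E :=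
    Z1_inv ((Real.exp_le_exp.2 (by linarith : -A0 ε ≤ -ra d q)).trans
      (als_bounds (ra d q) m hra0 (by rw [abs_of_pos hm.1]; exact hm1.le)).1)
  obtain ⟨hA, hA1⟩ := hals
  -- one site
  have hone : ∀ v, |q / (av f v : ℝ) - 1 / als (ra d q) m| ≤
      E / c1 ε * |(av f v : ℝ) / q - al f v| +
        (q + E) * (if (av f v : ℝ) < c1 ε * q then (1 : ℝ) else 0) +
        E ^ 2 * |al f v - als (ra d q) m| := by
    intro v
    obtain ⟨h0, h1⟩ := hal v
    have hav : (1 : ℝ) ≤ av f v := by exact_mod_cast av_pos hprp v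
    have hav0 : (0 : ℝ) < av f v := by linarith
    have e0 : |q / (av f v : ℝ) - 1 / als (ra d q) m| ≤
        |q / (av f v : ℝ) - 1 / al f v| + |1 / al f v - 1 / als (ra d q) m| := by
      have := abs_add_le (q / (av f v : ℝ) - 1 / al f v) (1 / al f v - 1 / als (ra d q) m)
      rwa [sub_add_sub_cancel] at this
    have e1 : |1 / al f v - 1 / als (ra d q) m| ≤ E ^ 2 * |al f v - als (ra d q) m| := by
      have e2 : 1 / al f v - 1 / als (ra d q) m =
          (1 / al f v) * (1 / als (ra d q) m) * (als (ra d q) m - al f v) := by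
        field_simp
      rw [e2, abs_mul, abs_sub_comm (als (ra d q) m)]
      refine mul_le_mul_of_nonneg_right ?_ (abs_nonneg _)
      rw [abs_of_nonneg (by positivity), sq]
      exact mul_le_mul h1 hA1 (by positivity) hE.le
    have e3 : |q / (av f v : ℝ) - 1 / al f v| ≤ E / c1 ε * |(av f v : ℝ) / q - al f v| +
        (q + E) * (if (av f v : ℝ) < c1 ε * q then (1 : ℝ) else 0) := by
      split_ifs with hr
      · have f1 : |q / (av f v : ℝ)| ≤ q := by
          rw [abs_of_nonneg (by positivity), div_le_iff₀ hav0]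
          calc (q : ℝ) = q * 1 := (mul_one _).symm
            _ ≤ q * av f v := mul_le_mul_of_nonneg_left hav hqr.le
        have f2 : |1 / al f v| ≤ E := by
          rw [abs_of_nonneg (by positivity)]
          exact h1
        have f3 := abs_sub (q / (av f v : ℝ)) (1 / al f v)
        have f4 : 0 ≤ E / c1 ε * |(av f v : ℝ) / q - al f v| := by positivity
        linarith
      · have hr' : c1 ε * q ≤ av f v := not_lt.1 hr
        have f1 : q / (av f v : ℝ) - 1 / al f v =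
            (q / av f v) * (1 / al f v) * (al f v - av f v / q) := by
          field_simp
        rw [f1, abs_mul, mul_zero, add_zero, abs_sub_comm (al f v)]
        refine mul_le_mul_of_nonneg_right ?_ (abs_nonneg _)
        rw [abs_of_nonneg (by positivity)]
        have f2 : (q : ℝ) / av f v ≤ 1 / c1 ε := by
          rw [div_le_div_iff₀ hav0 hc1]
          linarith
        calc (q / av f v : ℝ) * (1 / al f v) ≤ (1 / c1 ε) * E :=
              mul_le_mul f2 h1 (by positivity) (by positivity)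
          _ = E / c1 ε := by ring
    linarith
  have hav2 : ∑ v, |(av f v : ℝ) / q - al f v| ≤ s * NN d k :=
    Z1_avl f s hs (hG.avl.trans (mul_le_mul_of_nonneg_right (min_le_left _ _) hN))
  have hal3 : ∑ v : Site d k, |al f v - als (ra d q) m| ≤ δ / (3 * E ^ 2) * NN d k :=
    hal2.trans (mul_le_mul_of_nonneg_right (min_le_right _ _) hN)
  have hirr : ∑ v : Site d k, (if (av f v : ℝ) < c1 ε * q then (1 : ℝ) else 0) ≤
      NN d k / (d : ℝ) ^ 4 := by
    refine le_trans (le_of_eq ?_) hG.irr4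
    unfold irr
    rw [sum_boole]
  calc ∑ v : Site d k, |q / (av f v : ℝ) - 1 / als (ra d q) m|
      ≤ ∑ v : Site d k, (E / c1 ε * |(av f v : ℝ) / q - al f v| +
        (q + E) * (if (av f v : ℝ) < c1 ε * q then (1 : ℝ) else 0) +
        E ^ 2 * |al f v - als (ra d q) m|) := sum_le_sum fun v _ => hone v
    _ = E / c1 ε * ∑ v : Site d k, |(av f v : ℝ) / q - al f v| +
        (q + E) * ∑ v : Site d k, (if (av f v : ℝ) < c1 ε * q then (1 : ℝ) else 0) +
        E ^ 2 * ∑ v : Site d k, |al f v - als (ra d q) m| := by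
        rw [sum_add_distrib, sum_add_distrib, mul_sum, mul_sum, mul_sum]
    _ ≤ E / c1 ε * (s * NN d k) + (q + E) * (NN d k / (d : ℝ) ^ 4) +
        E ^ 2 * (δ / (3 * E ^ 2) * NN d k) :=
        add_le_add (add_le_add (mul_le_mul_of_nonneg_left hav2 (by positivity))
          (mul_le_mul_of_nonneg_left hirr (by positivity)))
          (mul_le_mul_of_nonneg_left hal3 (by positivity))
    _ ≤ δ / 3 * NN d k + δ / 3 * NN d k + δ / 3 * NN d k := by
        refine add_le_add (add_le_add (le_of_eq ?_) ?_) (le_of_eq ?_)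
        · rw [hsdef]
          field_simp
        · have e1 : (q : ℝ) + E ≤ (2 + E) * d := by nlinarith
          calc (q + E) * (NN d k / (d : ℝ) ^ 4) ≤ (2 + E) * d * (NN d k / (d : ℝ) ^ 4) :=
                mul_le_mul_of_nonneg_right e1 (by positivity)
            _ ≤ (2 + E) / d * NN d k := Z1_pow hd (by positivity) hN
            _ ≤ δ / 3 * NN d k := by
                refine mul_le_mul_of_nonneg_right ?_ hN
                rw [div_le_div_iff₀ (by linarith) (by norm_num)]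
                rw [div_le_iff₀ hδ] at hdE
                linarith
        · field_simp
    _ = δ * NN d k := by ring

theorem av_mean {ε : ℝ} (hε : 0 < ε) (hε1 : ε ≤ 1) (δ : ℝ) (hδ : 0 < δ) : EvT ε fun d k q => ∀ m : ℝ, MFE (ra d q) m →
    ∀ x : Site d k, ∑ f ∈ prps d k q, |q / (av f x : ℝ) - 1 / als (ra d q) m| ≤ δ * ZZ d k q := by
  obtain ⟨t, C₆, _, _, _, h⟩ := pin_wop hε hε1
  obtain ⟨δ', hδ', hdet⟩ := Z1_av_det hε hε1 C₆ t (δ / 2) (by positivity)
  have hw : WOPi ε (fun d _ q => {m : ℝ // MFE (ra d q) m}) fun d k q i f =>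
      ∑ v : Site d k, |q / (av f v : ℝ) - 1 / als (ra d q) i.1| ≤ δ / 2 * NN d k := by
    refine ((h δ' hδ').toi (fun d _ q => {m : ℝ // MFE (ra d q) m})).mono ?_
    refine (hdet.and (EvT_reg hε hε1 1)).mono ?_
    rintro d k q ⟨h1, _, _, _, _, _, ha1, _, _⟩ ⟨m, hm⟩ f hf hP
    have ha : 1 < ra d q := lt_of_lt_of_le (Z1_a1 hε hε1) ha1
    obtain ⟨yM, hy⟩ := ym_exists _ m ha hm
    exact h1 f hf hP.1 m hm (hP.2 m yM hm hy).al
  have htm := transl_mean (ε := ε) (fun d _ q => {m : ℝ // MFE (ra d q) m})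
    (fun d k q i f v => |q / (av f v : ℝ) - 1 / als (ra d q) i.1|)
    (fun _ q => q + Real.exp (A0 ε)) (δ / 2) (by positivity) ?_ ?_ hw
  · refine htm.mono fun d k q h1 m hm x => ?_
    have h2 := h1 ⟨m, hm⟩ x
    have e : 2 * (δ / 2) * ZZ d k q = δ * ZZ d k q := by ring
    rw [e] at h2
    exact h2
  · refine (EvT_reg hε hε1 1).mono ?_
    rintro d k q ⟨_, hq1, _, _, _, _, hraA, _⟩ ⟨m, hm⟩ f hf v
    refine ⟨abs_nonneg _, ?_⟩
    have hprp : Prp f := by simpa [prps] using hf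
    have hav : (1 : ℝ) ≤ av f v := by exact_mod_cast av_pos hprp v
    have hav0 : (0 : ℝ) < av f v := by linarith
    have hra0 : 0 ≤ ra d q := by unfold ra; positivity
    have hm1 := mfe_lt _ _ hm
    obtain ⟨hA, hA1⟩ : 0 < als (ra d q) m ∧ 1 / als (ra d q) m ≤ Real.exp (A0 ε) :=
      Z1_inv ((Real.exp_le_exp.2 (by linarith : -A0 ε ≤ -ra d q)).trans
        (als_bounds (ra d q) m hra0 (by rw [abs_of_pos hm.1]; exact hm1.le)).1)
    have f1 : |q / (av f v : ℝ)| ≤ q := by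
      rw [abs_of_nonneg (by positivity), div_le_iff₀ hav0]
      calc (q : ℝ) = q * 1 := (mul_one _).symm
        _ ≤ q * av f v := mul_le_mul_of_nonneg_left hav (Nat.cast_nonneg _)
    have f2 : |1 / als (ra d q) m| ≤ Real.exp (A0 ε) := by
      rw [abs_of_nonneg (by positivity)]
      exact hA1
    have f3 := abs_sub (q / (av f v : ℝ)) (1 / als (ra d q) m)
    show |q / (av f v : ℝ) - 1 / als (ra d q) m| ≤ q + Real.exp (A0 ε)
    linarith
  · intro d k q i f v w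
    rcases Nat.eq_zero_or_pos q with hq | hq
    · subst hq
      exact (f 0).elim0
    · show |q / (av (fun x => f (x + w)) v : ℝ) - 1 / als (ra d q) i.1| =
        |q / (av f (v + w) : ℝ) - 1 / als (ra d q) i.1|
      rw [(loc_transl f v w ⟨0, hq⟩).2.2.2.2.1]

/-- deterministic part of `zt_mean` -/
private theorem Z1_zt_det {ε : ℝ} (hε : 0 < ε) (hε1 : ε ≤ 1) (C₆ : ℝ) (t : ℕ) (δ : ℝ) (hδ : 0 < δ) :
    EvT ε fun d k q => ∀ f ∈ prps d k q, Good ε δ C₆ t f → ∀ m : ℝ, MFE (ra d q) m →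
      ∑ v : Site d k, |al f v - als (ra d q) m| ≤ δ * NN d k →
      ∑ v : Site d k, mc (fun c => |ya c f v - (1 + m * eps c f v)|) ≤ δ * NN d k →
      ∑ v : Site d k, mc (fun c => |zt f v c - als (ra d q) m * (1 + m * eps c f v)|) ≤ 3 * δ * NN d k := by
  refine ((zt_det hε hε1 C₆ t δ hδ).and (EvT_reg hε hε1 1)).mono ?_
  rintro d k q ⟨hz, hd1, hq1, _, _, hq2, _, hraA, _⟩ f hf hG m hm h1 h2
  have hq : 1 ≤ q := by exact_mod_cast hq1
  have hprp : Prp f := by simpa [prps] using hf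
  have hra0 : 0 ≤ ra d q := by unfold ra; positivity
  have hm1 := mfe_lt _ _ hm
  obtain ⟨-, hA1⟩ := als_bounds (ra d q) m hra0 (by rw [abs_of_pos hm.1]; exact hm1.le)
  have hA0 := als_pos (ra d q) m
  have h3 : ∑ v : Site d k, mc (fun c => |zt f v c / al f v - ya c f v|) ≤ δ * NN d k :=
    Z1_mc_sum hq (fun c v => |zt f v c / al f v - ya c f v|) _ fun c => hz f hf hG.irr4 c
  have hone : ∀ v, mc (fun c => |zt f v c - als (ra d q) m * (1 + m * eps c f v)|) ≤
      mc (fun c => |zt f v c / al f v - ya c f v|) + |al f v - als (ra d q) m| +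
        mc (fun c => |ya c f v - (1 + m * eps c f v)|) := by
    intro v
    have hal0 : 0 < al f v := (Real.exp_pos _).trans_le (al_ge hq hprp v)
    have hal1 := al_le hq f v
    have e1 : mc (fun c => |zt f v c / al f v - ya c f v|) + |al f v - als (ra d q) m| +
        mc (fun c => |ya c f v - (1 + m * eps c f v)|) =
        mc (fun c => |zt f v c / al f v - ya c f v| + |al f v - als (ra d q) m| * ya c f v +
          |ya c f v - (1 + m * eps c f v)|) := by
      rw [Z1_mc_add, Z1_mc_add, Z1_mc_mul, ya_mean hq, mul_one]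
    rw [e1]
    refine Z1_mc_mono _ _ fun c => ?_
    have hy := (ya_bound hq hprp c v).1
    have e2 : zt f v c - als (ra d q) m * (1 + m * eps c f v) =
        al f v * (zt f v c / al f v - ya c f v) + (al f v - als (ra d q) m) * ya c f v +
          als (ra d q) m * (ya c f v - (1 + m * eps c f v)) := by
      field_simp
      ring
    rw [e2]
    refine (abs_add_le _ _).trans (add_le_add ((abs_add_le _ _).trans (add_le_add ?_ ?_)) ?_)
    · rw [abs_mul, abs_of_pos hal0]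
      exact mul_le_of_le_one_left (abs_nonneg _) hal1
    · rw [abs_mul, abs_of_pos hy]
    · rw [abs_mul, abs_of_pos hA0]
      exact mul_le_of_le_one_left (abs_nonneg _) hA1
  calc ∑ v : Site d k, mc (fun c => |zt f v c - als (ra d q) m * (1 + m * eps c f v)|)
      ≤ ∑ v : Site d k, (mc (fun c => |zt f v c / al f v - ya c f v|) + |al f v - als (ra d q) m| +
        mc (fun c => |ya c f v - (1 + m * eps c f v)|)) := sum_le_sum fun v _ => hone v
    _ = ∑ v : Site d k, mc (fun c => |zt f v c / al f v - ya c f v|) + ∑ v : Site d k, |al f v - als (ra d q) m| +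
        ∑ v : Site d k, mc (fun c => |ya c f v - (1 + m * eps c f v)|) := by
        rw [sum_add_distrib, sum_add_distrib]
    _ ≤ 3 * δ * NN d k := by linarith

theorem zt_mean {ε : ℝ} (hε : 0 < ε) (hε1 : ε ≤ 1) (δ : ℝ) (hδ : 0 < δ) : EvT ε fun d k q => ∀ m : ℝ, MFE (ra d q) m →
    ∀ x : Site d k, ∑ f ∈ prps d k q, mc (fun c => |zt f x c - als (ra d q) m * (1 + m * eps c f x)|) ≤ δ * ZZ d k q := by
  obtain ⟨t, C₆, _, _, _, h⟩ := pin_wop hε hε1
  have hdet := Z1_zt_det hε hε1 C₆ t (δ / 6) (by positivity)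
  have hw : WOPi ε (fun d _ q => {m : ℝ // MFE (ra d q) m}) fun d k q i f =>
      ∑ v : Site d k, mc (fun c => |zt f v c - als (ra d q) i.1 * (1 + i.1 * eps c f v)|) ≤ δ / 2 * NN d k := by
    refine ((h (δ / 6) (by positivity)).toi (fun d _ q => {m : ℝ // MFE (ra d q) m})).mono ?_
    refine (hdet.and (EvT_reg hε hε1 1)).mono ?_
    rintro d k q ⟨h1, _, _, _, _, _, ha1, _, _⟩ ⟨m, hm⟩ f hf hP
    have ha : 1 < ra d q := lt_of_lt_of_le (Z1_a1 hε hε1) ha1
    obtain ⟨yM, hy⟩ := ym_exists _ m ha hm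
    have h2 := h1 f hf hP.1 m hm (hP.2 m yM hm hy).al (hP.2 m yM hm hy).d2
    have e : 3 * (δ / 6) * NN d k = δ / 2 * NN d k := by ring
    rw [e] at h2
    exact h2
  have htm := transl_mean (ε := ε) (fun d _ q => {m : ℝ // MFE (ra d q) m})
    (fun d k q i f v => mc (fun c => |zt f v c - als (ra d q) i.1 * (1 + i.1 * eps c f v)|))
    (fun _ _ => 3) (δ / 2) (by positivity) ?_ ?_ hw
  · refine htm.mono fun d k q h1 m hm x => ?_
    have h2 := h1 ⟨m, hm⟩ x
    have e : 2 * (δ / 2) * ZZ d k q = δ * ZZ d k q := by ring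
    rw [e] at h2
    exact h2
  · refine (EvT_reg hε hε1 1).mono ?_
    rintro d k q ⟨_, hq1, _, _, _, _, hraA, _⟩ ⟨m, hm⟩ f hf v
    have hq : 1 ≤ q := by exact_mod_cast hq1
    have hra0 : 0 ≤ ra d q := by unfold ra; positivity
    have hm1 := mfe_lt _ _ hm
    obtain ⟨-, hA1⟩ := als_bounds (ra d q) m hra0 (by rw [abs_of_pos hm.1]; exact hm1.le)
    have hA0 := als_pos (ra d q) m
    have h1 : ∀ c : Fin q, |zt f v c - als (ra d q) m * (1 + m * eps c f v)| ≤ 3 := by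
      intro c
      have z0 := zt_nonneg f v c
      have z1 := zt_le_one f v c
      have e0 := Z1_eps_abs c f v
      have e1 : |m * eps c f v| ≤ 1 := by
        rw [abs_mul, abs_of_pos hm.1]
        calc m * |eps c f v| ≤ 1 * 1 := mul_le_mul hm1.le e0 (abs_nonneg _) zero_le_one
          _ = 1 := one_mul _
      have e2 : |1 + m * eps c f v| ≤ 2 := by
        refine (abs_add_le _ _).trans ?_
        rw [abs_one]
        linarith
      have e3 : |als (ra d q) m * (1 + m * eps c f v)| ≤ 2 := by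
        rw [abs_mul, abs_of_pos hA0]
        calc als (ra d q) m * |1 + m * eps c f v| ≤ 1 * 2 := mul_le_mul hA1 e2 (abs_nonneg _) zero_le_one
          _ = 2 := one_mul _
      have e4 := abs_sub (zt f v c) (als (ra d q) m * (1 + m * eps c f v))
      rw [abs_of_nonneg z0] at e4
      linarith
    constructor
    · show 0 ≤ mc (fun c => |zt f v c - als (ra d q) m * (1 + m * eps c f v)|)
      unfold mc
      exact div_nonneg (sum_nonneg fun c _ => abs_nonneg _) (Nat.cast_nonneg _)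
    · show mc (fun c => |zt f v c - als (ra d q) m * (1 + m * eps c f v)|) ≤ 3
      refine (Z1_mc_mono _ (fun _ => 3) h1).trans (le_of_eq (Z1_mc_const hq 3))
  · intro d k q i f v w
    show mc (fun c => |zt (fun x => f (x + w)) v c - als (ra d q) i.1 * (1 + i.1 * eps c (fun x => f (x + w)) v)|) =
      mc (fun c => |zt f (v + w) c - als (ra d q) i.1 * (1 + i.1 * eps c f (v + w))|)
    congr 1
    funext c
    rw [(loc_transl f v w c).2.2.2.2.2.2, Z1_eps]

theorem eps_mean {ε : ℝ} (hε : 0 < ε) (hε1 : ε ≤ 1) (δ : ℝ) (hδ : 0 < δ) : EvT ε fun d k q =>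
    ∀ x : Site d k, ∑ f ∈ prps d k q, |mc (fun c => eps c f x)| ≤ δ * ZZ d k q := by
  obtain ⟨t, C₆, _, _, _, h⟩ := pin_wop hε hε1
  have hw : WOPi ε (fun _ _ _ => Unit) fun d k q _ f =>
      ∑ v : Site d k, |mc (fun c => eps c f v)| ≤ δ / 2 * NN d k := by
    refine ((h (δ / 2) (by positivity)).toi (fun _ _ _ => Unit)).mono ?_
    refine (EvT_reg hε hε1 1).mono ?_
    rintro d k q ⟨_, _, _, _, _, ha1, _, _⟩ _ f _ hP
    have ha : 1 < ra d q := lt_of_lt_of_le (Z1_a1 hε hε1) ha1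
    obtain ⟨m, hm⟩ := mfe_exists _ ha
    obtain ⟨yM, hy⟩ := ym_exists _ m ha hm
    exact (hP.2 m yM hm hy).me
  have htm := transl_mean (ε := ε) (fun _ _ _ => Unit)
    (fun d k q _ f v => |mc (fun c : Fin q => eps c f v)|)
    (fun _ _ => 1) (δ / 2) (by positivity) ?_ ?_ hw
  · refine htm.mono fun d k q h1 x => ?_
    have h2 := h1 () x
    have e : 2 * (δ / 2) * ZZ d k q = δ * ZZ d k q := by ring
    rw [e] at h2
    exact h2
  · refine (EvT_reg hε hε1 1).mono ?_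
    rintro d k q ⟨_, hq1, _, _, _, _, _, _⟩ _ f hf v
    have hq : 1 ≤ q := by exact_mod_cast hq1
    refine ⟨abs_nonneg _, ?_⟩
    show |mc (fun c : Fin q => eps c f v)| ≤ 1
    refine (Z1_mc_abs _).trans ?_
    exact (Z1_mc_mono _ (fun _ => 1) fun c => Z1_eps_abs c f v).trans (le_of_eq (Z1_mc_const hq 1))
  · intro d k q _ f v w
    show |mc (fun c : Fin q => eps c (fun x => f (x + w)) v)| = |mc (fun c : Fin q => eps c f (v + w))|
    simp only [Z1_eps]

end Pool.Agent.THR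

end

/-! ### from `Lib_MP_2c424f_thr.Z2` -/

section

/-!
# THR Z2: the two-point function (paper proof: Z2)

`α* = als a m ≥ e^(-a)`, `E` = mean over `prps d k q`.
`x, y` different and not adjacent: `LIN.one_pt`: `q P(f x = f y) = E (q/x_x) z_x (f y)`, replace `q/x_x` by `1/α*` (`0 ≤ z ≤ 1`, `av_mean`); `LIN.one_pt'`:
  `E z_x (f y) = E mc (z_x z_y) (q/x_y)`, replace `q/x_y` by `1/α*`.
-/

set_option autoImplicit false

open Finset Filter

namespace Pool.Agent.THR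

open Pool.Agent.LO Pool.Agent.LIN

private theorem Z2_zz {d k q : ℕ} (f : Site d k → Fin q) (v : Site d k) (c : Fin q) : 0 ≤ zz f v c ∧ zz f v c ≤ 1 := by
  rcases zz_zero_or_one f v c with h | h <;> rw [h] <;> norm_num

private theorem Z2_mc {d k q : ℕ} (hq : 1 ≤ q) (f : Site d k → Fin q) (x y : Site d k) :
    0 ≤ mc (fun c => zz f x c * zz f y c) ∧ mc (fun c => zz f x c * zz f y c) ≤ 1 := by
  have hq' : (1 : ℝ) ≤ q := by exact_mod_cast hq
  unfold mc
  constructor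
  · exact div_nonneg (Finset.sum_nonneg fun c _ => mul_nonneg (Z2_zz f x c).1 (Z2_zz f y c).1) (by linarith)
  · rw [div_le_one (by linarith)]
    calc ∑ c, zz f x c * zz f y c ≤ ∑ _c : Fin q, (1 : ℝ) :=
          Finset.sum_le_sum fun c _ => mul_le_one₀ (Z2_zz f x c).2 (Z2_zz f y c).1 (Z2_zz f y c).2
      _ = q := by simp

/-- replacing a random factor by a constant -/
private theorem Z2_rep {α : Type*} (s : Finset α) (X w : α → ℝ) (A B : ℝ) (hw : ∀ f ∈ s, 0 ≤ w f ∧ w f ≤ 1)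
    (h : ∑ f ∈ s, |X f - A| ≤ B) : |∑ f ∈ s, X f * w f - A * ∑ f ∈ s, w f| ≤ B := by
  have h1 : ∑ f ∈ s, X f * w f - A * ∑ f ∈ s, w f = ∑ f ∈ s, (X f - A) * w f := by
    rw [Finset.mul_sum, ← Finset.sum_sub_distrib]
    exact Finset.sum_congr rfl fun f _ => by ring
  rw [h1]
  refine ((Finset.abs_sum_le_sum_abs _ _).trans (Finset.sum_le_sum fun f hf => ?_)).trans h
  rw [abs_mul, abs_of_nonneg (hw f hf).1]
  exact mul_le_of_le_one_right (abs_nonneg _) (hw f hf).2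

theorem two_red {ε : ℝ} (hε : 0 < ε) (hε1 : ε ≤ 1) (δ : ℝ) (hδ : 0 < δ) : EvT ε fun d k q => ∀ m : ℝ, MFE (ra d q) m →
    ∀ x y : Site d k, x ≠ y → (∀ σ : Stp d, x + sv σ ≠ y) →
      |q * (((prps d k q).filter fun f => f x = f y).card : ℝ) -
        (∑ f ∈ prps d k q, mc (fun c => zz f x c * zz f y c)) / als (ra d q) m ^ 2| ≤ δ * ZZ d k q := by
  have hE : 0 < Real.exp (A0 ε) := Real.exp_pos _
  have hδ' : 0 < δ / (1 + Real.exp (A0 ε)) := by positivity
  refine ((EvT_reg hε hε1 2).and (av_mean hε hε1 _ hδ')).mono ?_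
  rintro d k q ⟨⟨_, hq2, hk2, _, _, _, ha, _⟩, hav⟩ m hm x y hxy hn
  have hk : 2 ≤ k := by exact_mod_cast hk2
  have hq1 : 1 ≤ q := by
    have : (1 : ℝ) ≤ q := by linarith
    exact_mod_cast this
  have hq0 : (0 : ℝ) < q := by linarith
  have hZ : 0 ≤ ZZ d k q := by
    unfold ZZ
    exact Nat.cast_nonneg _
  have hal : Real.exp (-ra d q) ≤ als (ra d q) m := by
    unfold als
    exact le_mul_of_one_le_right (Real.exp_pos _).le (Real.one_le_cosh _)
  have hal0 : 0 < als (ra d q) m := lt_of_lt_of_le (Real.exp_pos _) hal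
  have hA : 1 / als (ra d q) m ≤ Real.exp (A0 ε) := by
    rw [div_le_iff₀ hal0]
    have h1 : 1 = Real.exp (ra d q) * Real.exp (-ra d q) := by
      rw [← Real.exp_add]
      simp
    calc (1 : ℝ) = Real.exp (ra d q) * Real.exp (-ra d q) := h1
      _ ≤ Real.exp (A0 ε) * als (ra d q) m :=
        mul_le_mul (Real.exp_le_exp.2 ha) hal (Real.exp_pos _).le hE.le
  have hA0 : 0 ≤ 1 / als (ra d q) m := by positivity
  set A := 1 / als (ra d q) m with hAdef
  -- first step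
  have e1 : (q : ℝ) * (((prps d k q).filter fun f => f x = f y).card : ℝ) =
      ∑ f ∈ prps d k q, (q / (av f x : ℝ)) * zz f x (f y) := by
    have h0 := one_pt (q := q) hk x y hxy
    have h1 : (((prps d k q).filter fun f => f x = f y).card : ℝ) =
        ∑ f ∈ prps d k q, zz f x (f y) / (av f x : ℝ) := by
      rw [← h0]
    rw [h1, Finset.mul_sum]
    exact Finset.sum_congr rfl fun f _ => by ring
  have e2 := Z2_rep (prps d k q) (fun f => q / (av f x : ℝ)) (fun f => zz f x (f y)) A _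
    (fun f _ => Z2_zz f x (f y)) (hav m hm x)
  -- second step
  have e3 : ∑ f ∈ prps d k q, zz f x (f y) =
      ∑ f ∈ prps d k q, (q / (av f y : ℝ)) * mc (fun c => zz f x c * zz f y c) := by
    rw [one_pt' hk x y hxy hn]
    refine Finset.sum_congr rfl fun f _ => ?_
    unfold mc
    field_simp
  have e4 := Z2_rep (prps d k q) (fun f => q / (av f y : ℝ)) (fun f => mc (fun c => zz f x c * zz f y c)) A _
    (fun f _ => Z2_mc hq1 f x y) (hav m hm y)
  rw [← e1] at e2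
  rw [← e3] at e4
  set S := ∑ f ∈ prps d k q, mc (fun c => zz f x c * zz f y c) with hS
  set T := ∑ f ∈ prps d k q, zz f x (f y) with hT
  set P := (q : ℝ) * (((prps d k q).filter fun f => f x = f y).card : ℝ) with hP
  have e5 : S / als (ra d q) m ^ 2 = A * (A * S) := by
    rw [hAdef]
    field_simp
  rw [e5]
  have e6 : P - A * (A * S) = (P - A * T) + A * (T - A * S) := by ring
  rw [e6]
  calc |P - A * T + A * (T - A * S)| ≤ |P - A * T| + |A * (T - A * S)| := abs_add_le _ _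
    _ = |P - A * T| + A * |T - A * S| := by rw [abs_mul, abs_of_nonneg hA0]
    _ ≤ δ / (1 + Real.exp (A0 ε)) * ZZ d k q + Real.exp (A0 ε) * (δ / (1 + Real.exp (A0 ε)) * ZZ d k q) :=
      add_le_add e2 (mul_le_mul hA e4 (abs_nonneg _) hE.le)
    _ = δ * ZZ d k q := by
      field_simp

end Pool.Agent.THR

end

/-! ### from `Lib_MP_2c424f_thr.B5` -/

section

/-!
# THR B5: almost all blocks are close to one of the three values (paper proof: B5), deterministic

Fix `c`.  `G = PP^[t₀] (gg c f)`, `y = ya c f`, `N = NN d k` = number of blocks, `N' = NN d (k+1) = 2^d N`.  Choose `κ > 0` with `12 √κ ≤ η`, `5 √κ ≤ η²`, `κ ≤ 1`.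
For a block `t`:
* `E₁ = Ms none t ((y - G)²)`: sum over `t` `≤ (2/2^d) δ' N' = 2 δ' N` (`sm0`, `Ms_sum`);
* `E₂ = Ms none t (G²) - (Ms none t G)²`: sum `≤ 4 d (C₆/q²) N ≤ δ' N` (`var_blocks`, `grad`);
* `E₃ = Ms none t (dst3 m yM y)`: sum `≤ 2 δ' N` (`Pin.d3`);
* `E₄ = max_s |Ms s t (bq - y)|`, `bq - y = (bq - gg) + (gg - zz/al) + (zz - zt)/al + (zt/al - y)`: the first and the third part: `∑_t ∑_s (Ms s t ..)² ≤ (2d+1) N/d^4` (hypotheses), the other two:
  `|Ms s t φ| ≤ 4 Ms none t |φ|` (`Ms_face`), sum over `t` `≤ 8 δ'' N` (`gg_det`, `zt_det`).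
So all but `δ N` blocks have `E₁, E₂, E₃ ≤ κ`, `E₄ ≤ κ`.  For such a block let `H = Ms none t G`: `Ms none t |y - H| ≤ √E₁ + √E₂ ≤ 2 √κ` (`Ms_sq`), so `Ms s t |y - H| ≤ 8 √κ` for all `s`;
`dst3 m yM H ≤ E₃ + 2 √κ ≤ 3 √κ` (`dst3` is `1`-Lipschitz), so some `τ` of the three values has `|H - τ| ≤ 3 √κ`; `|Ms s t bq - τ| ≤ κ + 8 √κ + 3 √κ ≤ 12 √κ ≤ η`;
`Ms none t 1[|y-τ| > η] ≤ Ms none t |y - τ|/η ≤ 5 √κ/η ≤ η`.
-/

set_option autoImplicit false

open Finset Filter

namespace Pool.Agent.THR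

open Pool.Agent.LO Pool.Agent.LIN

private theorem B5_shp (d : ℕ) : (Fintype.card (Shp d) : ℝ) = 2 * d + 1 := by
  rw [Fintype.card_option, Fintype.card_prod, Fintype.card_fin, Fintype.card_bool]
  push_cast
  ring

/-- one block, the four parts of the difference -/
private theorem B5_block {d k q : ℕ} (hd : 2 ≤ d) (η κ m yM : ℝ) (hη : 0 < η) (hκ : 0 < κ) (hκ1 : κ ≤ 1)
    (h1 : 12 * Real.sqrt κ ≤ η) (h2 : 5 * Real.sqrt κ ≤ η ^ 2) (c : Fin q) (f : Site d (k + 1) → Fin q) (t : Blk d k)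
    (G : Site d (k + 1) → ℝ)
    (e1 : Ms none t (fun x => (ya c f x - G x) ^ 2) ≤ κ) (e2 : Ms none t (fun x => G x ^ 2) - Ms none t G ^ 2 ≤ κ)
    (e3 : Ms none t (fun x => dst3 m yM (ya c f x)) ≤ κ)
    (p1 : ∀ s, Ms s t (fun x => bq c f x - gg c f x) ^ 2 ≤ (κ / 4) ^ 2)
    (p2 : Ms none t (fun x => |gg c f x - zz f x c / al f x|) ≤ κ / 16)
    (p3 : ∀ s, Ms s t (fun x => (zz f x c - zt f x c) / al f x) ^ 2 ≤ (κ / 4) ^ 2)
    (p4 : Ms none t (fun x => |zt f x c / al f x - ya c f x|) ≤ κ / 16) :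
    ∃ τ : ℝ, tauG η m yM c f t τ := by
  refine tau_one hd η κ m yM hη hκ hκ1 h1 h2 c f t G e1 e2 e3 fun s => ?_
  have hk4 : (0 : ℝ) ≤ κ / 4 := by positivity
  have q1 : |Ms s t (fun x => bq c f x - gg c f x)| ≤ κ / 4 := abs_le_of_sq_le_sq (p1 s) hk4
  have q3 : |Ms s t (fun x => (zz f x c - zt f x c) / al f x)| ≤ κ / 4 := abs_le_of_sq_le_sq (p3 s) hk4
  have q2 : |Ms s t (fun x => gg c f x - zz f x c / al f x)| ≤ κ / 4 := by
    refine (Ms_abs s t _).trans ?_
    refine (Ms_face hd s t _ fun x => abs_nonneg _).trans ?_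
    linarith
  have q4 : |Ms s t (fun x => zt f x c / al f x - ya c f x)| ≤ κ / 4 := by
    refine (Ms_abs s t _).trans ?_
    refine (Ms_face hd s t _ fun x => abs_nonneg _).trans ?_
    linarith
  have key : Ms s t (fun x => bq c f x - ya c f x) =
      Ms s t (fun x => bq c f x - gg c f x) + Ms s t (fun x => gg c f x - zz f x c / al f x) +
        Ms s t (fun x => (zz f x c - zt f x c) / al f x) + Ms s t (fun x => zt f x c / al f x - ya c f x) := by
    rw [← Ms_add, ← Ms_add, ← Ms_add]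
    congr 1
    funext x
    rw [sub_div]
    ring
  rw [key]
  have r1 := abs_le.1 q1
  have r2 := abs_le.1 q2
  have r3 := abs_le.1 q3
  have r4 := abs_le.1 q4
  rw [abs_le]
  constructor <;> linarith [r1.1, r1.2, r2.1, r2.2, r3.1, r3.2, r4.1, r4.2]

/-- sum of the block means of a nonnegative function -/
private theorem B5_sum {d k : ℕ} (hd : 2 ≤ d) (hk : 1 ≤ k) (D : ℝ) (φ : Site d (k + 1) → ℝ) (h0 : ∀ x, 0 ≤ φ x)
    (h : ∑ x, φ x ≤ D * NN d (k + 1)) : ∑ t : Blk d k, Ms none t φ ≤ 2 * D * NN d k := by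
  rw [Ms_sum hd hk]
  have h1 : ∑ v ∈ ods d (k + 1), φ v ≤ ∑ x, φ x :=
    Finset.sum_le_sum_of_subset_of_nonneg (Finset.subset_univ _) fun x _ _ => h0 x
  have h2 := h1.trans h
  rw [NN_succ] at h2
  have h3 : (0 : ℝ) < 2 ^ d := by positivity
  calc 2 / 2 ^ d * ∑ v ∈ ods d (k + 1), φ v ≤ 2 / 2 ^ d * (D * (2 ^ d * NN d k)) :=
        mul_le_mul_of_nonneg_left h2 (by positivity)
    _ = 2 * D * NN d k := by
        field_simp

private theorem B5_Ms0 {d k : ℕ} (hd : 2 ≤ d) (s : Shp d) (t : Blk d k) (φ : Site d (k + 1) → ℝ) (h : ∀ x, 0 ≤ φ x) :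
    0 ≤ Ms s t φ := by
  have h1 := Ms_mono (φ := fun _ => (0 : ℝ)) (ψ := φ) s t fun a b _ => h _
  rwa [Ms_const hd s t 0] at h1

private theorem B5_dst (m yM y : ℝ) : 0 ≤ dst3 m yM y := by
  unfold dst3 dst2
  exact le_min (le_min (abs_nonneg _) (abs_nonneg _)) (abs_nonneg _)

/-- the weight of the exceptional blocks, abstract form -/
private theorem B5_abs {T S : Type*} [Fintype T] [Fintype S] (κ δ N e : ℝ) (hκ : 0 < κ) (E1 E2 E3 P2 P4 : T → ℝ)
    (P1 P3 : S → T → ℝ) (n1 : ∀ t, 0 ≤ E1 t) (n2 : ∀ t, 0 ≤ E2 t) (n3 : ∀ t, 0 ≤ E3 t) (n4 : ∀ s t, 0 ≤ P1 s t)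
    (n5 : ∀ t, 0 ≤ P2 t) (n6 : ∀ s t, 0 ≤ P3 s t) (n7 : ∀ t, 0 ≤ P4 t)
    (s1 : ∑ t, E1 t ≤ κ * (δ / 8) * N) (s2 : ∑ t, E2 t ≤ κ * (δ / 8) * N) (s3 : ∑ t, E3 t ≤ κ * (δ / 8) * N)
    (s4 : ∀ s, ∑ t, P1 s t ≤ e) (s5 : 16 * ∑ t, P2 t ≤ κ * (δ / 8) * N) (s6 : ∀ s, ∑ t, P3 s t ≤ e)
    (s7 : 16 * ∑ t, P4 t ≤ κ * (δ / 8) * N) (b5 : 16 * ((Fintype.card S : ℝ) * e) ≤ κ ^ 2 * (δ / 8) * N) (hδ : 0 ≤ δ)
    (hN : 0 ≤ N) (P : T → Prop) [DecidablePred P]
    (hP : ∀ t, E1 t ≤ κ → E2 t ≤ κ → E3 t ≤ κ → (∀ s, P1 s t ≤ (κ / 4) ^ 2) → P2 t ≤ κ / 16 →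
      (∀ s, P3 s t ≤ (κ / 4) ^ 2) → P4 t ≤ κ / 16 → ¬ P t) :
    ((univ.filter P).card : ℝ) ≤ δ * N := by
  classical
  have a1 : ∀ t, 0 ≤ ∑ s, P1 s t := fun t => Finset.sum_nonneg fun s _ => n4 s t
  have a2 : ∀ t, 0 ≤ ∑ s, P3 s t := fun t => Finset.sum_nonneg fun s _ => n6 s t
  obtain ⟨W, hW⟩ : ∃ W : T → ℝ, ∀ t, W t = κ * (E1 t + E2 t + E3 t) + 16 * (∑ s, P1 s t + ∑ s, P3 s t) +
    16 * κ * (P2 t + P4 t) := ⟨_, fun t => rfl⟩
  have u1 : ∀ t, 0 ≤ κ * (E1 t + E2 t + E3 t) := fun t =>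
    mul_nonneg hκ.le (add_nonneg (add_nonneg (n1 t) (n2 t)) (n3 t))
  have u2 : ∀ t, 0 ≤ 16 * (∑ s, P1 s t + ∑ s, P3 s t) := fun t =>
    mul_nonneg (by norm_num) (add_nonneg (a1 t) (a2 t))
  have u3 : ∀ t, 0 ≤ 16 * κ * (P2 t + P4 t) := fun t =>
    mul_nonneg (by positivity) (add_nonneg (n5 t) (n7 t))
  have hWn : ∀ t, 0 ≤ W t := by
    intro t
    rw [hW]
    exact add_nonneg (add_nonneg (u1 t) (u2 t)) (u3 t)
  have hWb : ∀ t, W t < κ ^ 2 → ¬ P t := by
    intro t ht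
    rw [hW] at ht
    have v1 := u1 t
    have v2 := u2 t
    have v3 := u3 t
    have c1 : κ * (E1 t + E2 t + E3 t) ≤ κ * κ := by
      rw [← sq]
      linarith
    have c1' : E1 t + E2 t + E3 t ≤ κ := le_of_mul_le_mul_left c1 hκ
    have c2 : κ * (16 * (P2 t + P4 t)) ≤ κ * κ := by
      rw [← sq]
      linarith
    have c2' : 16 * (P2 t + P4 t) ≤ κ := le_of_mul_le_mul_left c2 hκ
    have c3 : 16 * (∑ s, P1 s t + ∑ s, P3 s t) ≤ κ ^ 2 := by linarith
    have m1 := n1 t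
    have m2 := n2 t
    have m3 := n3 t
    have m5 := n5 t
    have m7 := n7 t
    have m4 := a1 t
    have m6 := a2 t
    have e16 : (κ / 4) ^ 2 = κ ^ 2 / 16 := by ring
    refine hP t (by linarith) (by linarith) (by linarith) (fun s => ?_) (by linarith) (fun s => ?_) (by linarith)
    · have : P1 s t ≤ ∑ s, P1 s t := Finset.single_le_sum (f := fun s => P1 s t) (fun s _ => n4 s t) (Finset.mem_univ s)
      rw [e16]
      linarith
    · have : P3 s t ≤ ∑ s, P3 s t := Finset.single_le_sum (f := fun s => P3 s t) (fun s _ => n6 s t) (Finset.mem_univ s)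
      rw [e16]
      linarith
  have hκ2 : 0 < κ ^ 2 := by positivity
  have hcard : κ ^ 2 * ((univ.filter P).card : ℝ) ≤ ∑ t, W t := by
    calc κ ^ 2 * ((univ.filter P).card : ℝ) = ∑ t ∈ univ.filter P, κ ^ 2 := by
          rw [Finset.sum_const, nsmul_eq_mul, mul_comm]
      _ ≤ ∑ t ∈ univ.filter P, W t := by
          refine Finset.sum_le_sum fun t ht => ?_
          by_contra hc
          exact hWb t (not_le.1 hc) (Finset.mem_filter.1 ht).2
      _ ≤ ∑ t, W t := Finset.sum_le_sum_of_subset_of_nonneg (Finset.subset_univ _) fun t _ _ => hWn t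
  have t4 : ∑ t, ∑ s, P1 s t ≤ (Fintype.card S : ℝ) * e := by
    rw [Finset.sum_comm]
    refine (Finset.sum_le_sum fun s _ => s4 s).trans (le_of_eq ?_)
    rw [Finset.sum_const, Finset.card_univ, nsmul_eq_mul]
  have t6 : ∑ t, ∑ s, P3 s t ≤ (Fintype.card S : ℝ) * e := by
    rw [Finset.sum_comm]
    refine (Finset.sum_le_sum fun s _ => s6 s).trans (le_of_eq ?_)
    rw [Finset.sum_const, Finset.card_univ, nsmul_eq_mul]
  have hsum : ∑ t, W t = κ * ∑ t, E1 t + κ * ∑ t, E2 t + κ * ∑ t, E3 t +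
      (16 * ∑ t, ∑ s, P1 s t + 16 * ∑ t, ∑ s, P3 s t) + (κ * (16 * ∑ t, P2 t) + κ * (16 * ∑ t, P4 t)) := by
    rw [Finset.sum_congr rfl fun t _ => hW t]
    simp only [Finset.sum_add_distrib, ← Finset.mul_sum]
    ring
  have r1 : κ * ∑ t, E1 t ≤ κ * (κ * (δ / 8) * N) := mul_le_mul_of_nonneg_left s1 hκ.le
  have r2 : κ * ∑ t, E2 t ≤ κ * (κ * (δ / 8) * N) := mul_le_mul_of_nonneg_left s2 hκ.le
  have r3 : κ * ∑ t, E3 t ≤ κ * (κ * (δ / 8) * N) := mul_le_mul_of_nonneg_left s3 hκ.le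
  have r5 : κ * (16 * ∑ t, P2 t) ≤ κ * (κ * (δ / 8) * N) := mul_le_mul_of_nonneg_left s5 hκ.le
  have r7 : κ * (16 * ∑ t, P4 t) ≤ κ * (κ * (δ / 8) * N) := mul_le_mul_of_nonneg_left s7 hκ.le
  have n8 : 0 ≤ κ ^ 2 * (δ / 8) * N := by positivity
  have e8 : κ * (κ * (δ / 8) * N) = κ ^ 2 * (δ / 8) * N := by ring
  rw [e8] at r1 r2 r3 r5 r7
  have htot : ∑ t, W t ≤ κ ^ 2 * (δ * N) := by
    rw [hsum]
    have e9 : κ ^ 2 * (δ * N) = 8 * (κ ^ 2 * (δ / 8) * N) := by ring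
    rw [e9]
    linarith
  exact le_of_mul_le_mul_left (hcard.trans htot) hκ2

/-- the weight of the exceptional blocks -/
private theorem B5_count {d k q : ℕ} (hd : 2 ≤ d) (hk : 1 ≤ k) (η κ δ δ' δ'' m yM : ℝ) (hη : 0 < η) (hκ : 0 < κ)
    (hκ1 : κ ≤ 1) (h1 : 12 * Real.sqrt κ ≤ η) (h2 : 5 * Real.sqrt κ ≤ η ^ 2) (c : Fin q) (f : Site d (k + 1) → Fin q)
    (G : Site d (k + 1) → ℝ) (D : ℝ)
    (e1 : ∑ x, (ya c f x - G x) ^ 2 ≤ δ' * NN d (k + 1))
    (e2 : ∑ t : Blk d k, (Ms none t (fun x => G x ^ 2) - Ms none t G ^ 2) ≤ 4 * d * D * NN d k)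
    (e3 : ∑ x, dst3 m yM (ya c f x) ≤ δ' * NN d (k + 1))
    (p1 : ∀ s : Shp d, ∑ t : Blk d k, Ms s t (fun x => bq c f x - gg c f x) ^ 2 ≤ NN d k / (d : ℝ) ^ 4)
    (p2 : ∑ x, |gg c f x - zz f x c / al f x| ≤ δ'' * NN d (k + 1))
    (p3 : ∀ s : Shp d,
      ∑ t : Blk d k, Ms s t (fun x => (zz f x c - zt f x c) / al f x) ^ 2 ≤ NN d k / (d : ℝ) ^ 4)
    (p4 : ∑ x, |zt f x c / al f x - ya c f x| ≤ δ'' * NN d (k + 1))
    (b1 : 2 * δ' ≤ κ * (δ / 8)) (b2 : 4 * d * D ≤ κ * (δ / 8)) (b3 : 32 * δ'' ≤ κ * (δ / 8))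
    (b4 : 16 * (2 * (d : ℝ) + 1) ≤ κ ^ 2 * (δ / 8) * (d : ℝ) ^ 4) (hδ : 0 ≤ δ) (P : Blk d k → Prop) [DecidablePred P]
    (hP : ∀ t, (∃ τ : ℝ, tauG η m yM c f t τ) → ¬ P t) :
    ((univ.filter P).card : ℝ) ≤ δ * NN d k := by
  have nN : 0 ≤ NN d k := by unfold NN; positivity
  have s1 := B5_sum hd hk δ' _ (fun x => sq_nonneg _) e1
  have s3 := B5_sum hd hk δ' _ (fun x => B5_dst _ _ _) e3
  have s5 := B5_sum hd hk δ'' _ (fun x => abs_nonneg _) p2
  have s7 := B5_sum hd hk δ'' _ (fun x => abs_nonneg _) p4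
  have c1 : 2 * δ' * NN d k ≤ κ * (δ / 8) * NN d k := mul_le_mul_of_nonneg_right b1 nN
  have c2 : 4 * d * D * NN d k ≤ κ * (δ / 8) * NN d k := mul_le_mul_of_nonneg_right b2 nN
  have c3 : 32 * δ'' * NN d k ≤ κ * (δ / 8) * NN d k := mul_le_mul_of_nonneg_right b3 nN
  have hd0 : (0 : ℝ) < (d : ℝ) ^ 4 := by
    have : (0 : ℝ) < d := by
      have : 0 < d := by omega
      exact_mod_cast this
    positivity
  refine B5_abs (T := Blk d k) (S := Shp d) κ δ (NN d k) (NN d k / (d : ℝ) ^ 4) hκ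
    (fun t => Ms none t (fun x => (ya c f x - G x) ^ 2)) (fun t => Ms none t (fun x => G x ^ 2) - Ms none t G ^ 2)
    (fun t => Ms none t (fun x => dst3 m yM (ya c f x)))
    (fun t => Ms none t (fun x => |gg c f x - zz f x c / al f x|))
    (fun t => Ms none t (fun x => |zt f x c / al f x - ya c f x|))
    (fun s t => Ms s t (fun x => bq c f x - gg c f x) ^ 2)
    (fun s t => Ms s t (fun x => (zz f x c - zt f x c) / al f x) ^ 2)
    (fun t => B5_Ms0 hd _ _ _ fun x => sq_nonneg _) (fun t => sub_nonneg.2 (Ms_sq hd none t G))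
    (fun t => B5_Ms0 hd _ _ _ fun x => B5_dst _ _ _) (fun s t => sq_nonneg _)
    (fun t => B5_Ms0 hd _ _ _ fun x => abs_nonneg _) (fun s t => sq_nonneg _)
    (fun t => B5_Ms0 hd _ _ _ fun x => abs_nonneg _) (s1.trans c1) (e2.trans c2) (s3.trans c1) p1 ?_ p3 ?_ ?_ hδ nN P ?_
  · linarith
  · linarith
  · rw [B5_shp]
    calc 16 * ((2 * (d : ℝ) + 1) * (NN d k / (d : ℝ) ^ 4)) = 16 * (2 * (d : ℝ) + 1) * (NN d k / (d : ℝ) ^ 4) := by ring
      _ ≤ κ ^ 2 * (δ / 8) * (d : ℝ) ^ 4 * (NN d k / (d : ℝ) ^ 4) := mul_le_mul_of_nonneg_right b4 (by positivity)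
      _ = κ ^ 2 * (δ / 8) * NN d k := by field_simp
  · intro t x1 x2 x3 x4 x5 x6 x7
    exact hP t (B5_block hd η κ m yM hη hκ hκ1 h1 h2 c f t G x1 x2 x3 x4 x5 x6 x7)

open scoped Classical in
/-- number of exceptional blocks -/
theorem tau_det {ε : ℝ} (hε : 0 < ε) (hε1 : ε ≤ 1) (C₆ : ℝ) (t₀ : ℕ) (η δ : ℝ) (hη : 0 < η) (hδ : 0 < δ) : ∃ δ' : ℝ, 0 < δ' ∧
    EvT ε fun d k q => ∀ m yM : ℝ, MFE (ra d q) m → YM (ra d q) m yM → ∀ f ∈ prps d (k + 1) q,
      Good ε δ' C₆ t₀ f → Pin δ' m yM f →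
      (∀ (c : Fin q) (s : Shp d), ∑ t : Blk d k, Ms s t (fun x => bq c f x - gg c f x) ^ 2 ≤ NN d k / (d : ℝ) ^ 4) →
      (∀ (c : Fin q) (s : Shp d),
        ∑ t : Blk d k, Ms s t (fun x => (zz f x c - zt f x c) / al f x) ^ 2 ≤ NN d k / (d : ℝ) ^ 4) →
      ∀ c : Fin q, ((univ.filter fun t : Blk d k => ¬ ∃ τ, tauG η m yM c f t τ).card : ℝ) ≤ δ * NN d k := by
  -- the parameter
  obtain ⟨κ, hκ, hκ1, h1, h2⟩ : ∃ κ : ℝ, 0 < κ ∧ κ ≤ 1 ∧ 12 * Real.sqrt κ ≤ η ∧ 5 * Real.sqrt κ ≤ η ^ 2 := by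
    set r : ℝ := min 1 (min (η / 12) (η ^ 2 / 5)) with hr
    have hr0 : 0 < r := by
      rw [hr]
      refine lt_min one_pos (lt_min ?_ ?_) <;> positivity
    have hr1 : r ≤ 1 := min_le_left _ _
    have hr2 : r ≤ η / 12 := (min_le_right _ _).trans (min_le_left _ _)
    have hr3 : r ≤ η ^ 2 / 5 := (min_le_right _ _).trans (min_le_right _ _)
    refine ⟨r ^ 2, by positivity, pow_le_one₀ hr0.le hr1, ?_, ?_⟩
    · rw [Real.sqrt_sq hr0.le]
      linarith
    · rw [Real.sqrt_sq hr0.le]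
      linarith
  have hδ2 : 0 < κ * δ / 256 := by positivity
  obtain ⟨δ₁, hδ₁, hgg⟩ := gg_det hε hε1 C₆ t₀ (κ * δ / 256) hδ2
  have hzt := zt_det hε hε1 C₆ t₀ (κ * δ / 256) hδ2
  have hreg := EvT_reg hε hε1 (max 2 (max (32 * |C₆| / (ε ^ 2 * (κ * δ))) (384 / (κ ^ 2 * δ))))
  refine ⟨min δ₁ (κ * δ / 16), lt_min hδ₁ (by positivity), ((hgg.shift.and hzt.shift).and hreg).mono ?_⟩
  rintro d k q ⟨⟨hg, hz⟩, hMd, hMq, hMk, hdq, -, -, -, -⟩ m yM hm hyM f hf hG hPin hA hB c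
  have hd2 : (2 : ℝ) ≤ d := (le_max_left _ _).trans hMd
  have hd : 2 ≤ d := by exact_mod_cast hd2
  have hk2 : (2 : ℝ) ≤ k := (le_max_left _ _).trans hMk
  have hk : 1 ≤ k := by
    have : 2 ≤ k := by exact_mod_cast hk2
    omega
  have hM1 : 32 * |C₆| / (ε ^ 2 * (κ * δ)) ≤ d := ((le_max_left _ _).trans (le_max_right _ _)).trans hMd
  have hM2 : 384 / (κ ^ 2 * δ) ≤ d := ((le_max_right _ _).trans (le_max_right _ _)).trans hMd
  have hq0 : (0 : ℝ) < q := lt_of_lt_of_le (by positivity) hdq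
  have hNN : 0 ≤ NN d (k + 1) := by unfold NN; positivity
  have hG1 : Good ε δ₁ C₆ t₀ f := by
    have hle : min δ₁ (κ * δ / 16) * NN d (k + 1) ≤ δ₁ * NN d (k + 1) :=
      mul_le_mul_of_nonneg_right (min_le_left _ _) hNN
    exact ⟨hG.irr4, hG.grad, hG.smo, fun c σ τ => (hG.hom c σ τ).trans hle, hG.avl.trans hle,
      fun c σ => (hG.mf c σ).trans hle, fun c => (hG.sm0 c).trans hle, fun c σ => (hG.sm1 c σ).trans hle,
      fun c => (hG.sm2 c).trans hle⟩
  refine B5_count hd hk η κ δ (min δ₁ (κ * δ / 16)) (κ * δ / 256) m yM hη hκ hκ1 h1 h2 c f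
    (PP^[t₀] (gg c f)) (C₆ / (q : ℝ) ^ 2) ?_ ?_ (hPin.d3 c) (hA c) (hg f hf hG1 c) (hB c) (hz f hf hG.irr4 c)
    ?_ ?_ ?_ ?_ hδ.le _ fun t ht hn => hn ht
  · refine (le_of_eq (Finset.sum_congr rfl fun x _ => ?_)).trans (hG.sm0 c)
    ring
  · refine var_blocks hd hk _ _ fun σ τ => ?_
    refine (hG.grad c σ τ).trans (le_of_eq ?_)
    ring
  · have := min_le_right δ₁ (κ * δ / 16)
    linarith
  · have h3 : 32 * |C₆| ≤ d * (ε ^ 2 * (κ * δ)) := (div_le_iff₀ (by positivity)).1 hM1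
    have h4 : (ε * d) ^ 2 ≤ (q : ℝ) ^ 2 := pow_le_pow_left₀ (by positivity) hdq 2
    have h5 : (0 : ℝ) < (q : ℝ) ^ 2 := by positivity
    have h6 : 4 * (d : ℝ) * (C₆ / (q : ℝ) ^ 2) = 4 * d * C₆ / (q : ℝ) ^ 2 := by ring
    rw [h6, div_le_iff₀ h5]
    have h7 : C₆ ≤ |C₆| := le_abs_self _
    calc 4 * (d : ℝ) * C₆ ≤ 4 * d * |C₆| := mul_le_mul_of_nonneg_left h7 (by positivity)
      _ = d / 8 * (32 * |C₆|) := by ring
      _ ≤ d / 8 * (d * (ε ^ 2 * (κ * δ))) := mul_le_mul_of_nonneg_left h3 (by positivity)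
      _ = κ * (δ / 8) * (ε * d) ^ 2 := by ring
      _ ≤ κ * (δ / 8) * (q : ℝ) ^ 2 := mul_le_mul_of_nonneg_left h4 (by positivity)
  · have : 32 * (κ * δ / 256) = κ * (δ / 8) := by ring
    exact this.le
  · have h3 : 384 ≤ d * (κ ^ 2 * δ) := (div_le_iff₀ (by positivity)).1 hM2
    have hd1 : (1 : ℝ) ≤ d := by linarith
    have h4 : (1 : ℝ) ≤ (d : ℝ) ^ 2 := one_le_pow₀ hd1
    have h5 : 2 * (d : ℝ) + 1 ≤ 3 * d := by linarith
    calc 16 * (2 * (d : ℝ) + 1) ≤ 16 * (3 * d) := by linarith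
      _ = 384 * (d / 8) := by ring
      _ ≤ d * (κ ^ 2 * δ) * (d / 8) := mul_le_mul_of_nonneg_right h3 (by positivity)
      _ = κ ^ 2 * (δ / 8) * (d : ℝ) ^ 2 * 1 := by ring
      _ ≤ κ ^ 2 * (δ / 8) * (d : ℝ) ^ 2 * (d : ℝ) ^ 2 := mul_le_mul_of_nonneg_left h4 (by positivity)
      _ = κ ^ 2 * (δ / 8) * (d : ℝ) ^ 4 := by ring

end Pool.Agent.THR

end

/-! ### from `Lib_MP_2c424f_thr.B6a` -/

section

/-!
# THR B6a: block regularity with overwhelming probability (paper proof: B5, B6)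

`BReg η m yM c f` : all but `δ N` blocks are close to one of the three values, for every colour.
* `breg_wop`: `pin_wop` (fixes `t₀, C₆`), `WOP.blk`, `blk_bq`, `blk_zz`, `tau_det`.
* `not_bad`: `τ = 1 + m`: all `Ms s t bq ≥ 1 + m - η`; `τ = 1 - m < yM` or `τ = yM`: all `≤ yM + η` (`ym_bounds`, `1 < ra d q`).
* `all_bad`: if all blocks are bad then no block is close, so (with `δ = 1/2`) the colouring is in the rare set.
-/

set_option autoImplicit false

open Finset Filter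

namespace Pool.Agent.THR

open Pool.Agent.LO Pool.Agent.LIN

open scoped Classical in
theorem breg_wop {ε : ℝ} (hε : 0 < ε) (hε1 : ε ≤ 1) (η δ : ℝ) (hη : 0 < η) (hδ : 0 < δ) :
    WOPb ε fun d k q f => ∀ m yM : ℝ, MFE (ra d q) m → YM (ra d q) m yM → ∀ c : Fin q,
      ((univ.filter fun t : Blk d k => ¬ ∃ τ, tauG η m yM c f t τ).card : ℝ) ≤ δ * NN d k := by
  obtain ⟨t₀, C₆, -, -, -, hpin⟩ := pin_wop hε hε1
  obtain ⟨δ', hδ', hτ⟩ := tau_det hε hε1 C₆ t₀ η δ hη hδ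
  refine ((((hpin δ' hδ').blk).and (blk_bq hε hε1)).and (blk_zz hε hε1)).mono (hτ.mono ?_)
  intro d k q h f hf hP m yM hm hM c
  obtain ⟨⟨⟨h1, h2⟩, h3⟩, h4⟩ := hP
  exact h m yM hm hM f hf h1 (h2 m yM hm hM) h3 h4 c

theorem not_bad {d k q : ℕ} (η m yM : ℝ) (ha : 1 < ra d q) (hm : MFE (ra d q) m) (hM : YM (ra d q) m yM) (c : Fin q)
    (f : Site d (k + 1) → Fin q) (t : Blk d k) (τ : ℝ) (h : tauG η m yM c f t τ) : ¬ bdT (1 + m - η) (yM + η) c t f := by
  obtain ⟨h1, h2, -⟩ := h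
  have hb := ym_bounds (ra d q) m yM ha hm hM
  rintro ⟨h3, h4⟩
  rcases h1 with h1 | h1 | h1
  · refine h4 fun s => ?_
    have := (abs_le.1 (h2 s)).2
    rw [h1] at this
    linarith
  · refine h4 fun s => ?_
    have := (abs_le.1 (h2 s)).2
    rw [h1] at this
    linarith
  · refine h3 fun s => ?_
    have := (abs_le.1 (h2 s)).1
    rw [h1] at this
    linarith

theorem all_bad {ε : ℝ} (hε : 0 < ε) (hε1 : ε ≤ 1) (η : ℝ) (hη : 0 < η) : ∃ C : ℕ,
    EvT ε fun d k q => ∀ m yM : ℝ, MFE (ra d q) m → YM (ra d q) m yM → ∀ c : Fin q,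
      cE (bdT (q := q) (k := k) (d := d) (1 + m - η) (yM + η) c) univ ≤
        ZZ d (k + 1) q * Real.exp (-(NN d (k + 1) / (d : ℝ) ^ C)) := by
  classical
  obtain ⟨C, hC⟩ := breg_wop hε hε1 η (1 / 2) hη (by norm_num)
  refine ⟨C, (hC.and (EvT_reg hε hε1 1)).mono ?_⟩
  rintro d k q ⟨h, -, -, -, -, -, hr, -, -⟩ m yM hm hM c
  have ha : 1 < ra d q := by
    refine lt_of_lt_of_le ?_ hr
    unfold a1
    rw [lt_div_iff₀ (by linarith)]
    linarith
  unfold Rar at h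
  refine le_trans ?_ h
  unfold cE
  have hsub : ((prps d (k + 1) q).filter fun f => ∀ t ∈ (univ : Finset (Blk d k)),
      bdT (q := q) (k := k) (d := d) (1 + m - η) (yM + η) c t f) ⊆
      ((prps d (k + 1) q).filter fun f => ¬ ∀ m yM : ℝ, MFE (ra d q) m → YM (ra d q) m yM → ∀ c : Fin q,
        ((univ.filter fun t : Blk d k => ¬ ∃ τ, tauG η m yM c f t τ).card : ℝ) ≤ 1 / 2 * NN d k) := by
    intro f hf
    rw [mem_filter] at hf ⊢
    refine ⟨hf.1, fun hc => ?_⟩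
    have h1 := hc m yM hm hM c
    have h2 : (univ.filter fun t : Blk d k => ¬ ∃ τ, tauG η m yM c f t τ) = univ := by
      refine filter_true_of_mem fun t _ => ?_
      rintro ⟨τ, hτ⟩
      exact not_bad η m yM ha hm hM c f t τ hτ (hf.2 t (mem_univ t))
    rw [h2, card_univ, card_Blk] at h1
    have h3 : 0 < NN d k := by
      unfold NN
      positivity
    linarith
  have h5 := card_le_card hsub
  have h6 : ((((prps d (k + 1) q).filter fun f => ∀ t ∈ (univ : Finset (Blk d k)),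
      bdT (q := q) (k := k) (d := d) (1 + m - η) (yM + η) c t f).card : ℕ) : ℝ) ≤
      (((prps d (k + 1) q).filter fun f => ¬ ∀ m yM : ℝ, MFE (ra d q) m → YM (ra d q) m yM → ∀ c : Fin q,
        ((univ.filter fun t : Blk d k => ¬ ∃ τ, tauG η m yM c f t τ).card : ℝ) ≤ 1 / 2 * NN d k).card : ℝ) := by
    exact_mod_cast h5
  refine le_trans (le_of_eq ?_) (le_trans h6 (le_of_eq ?_))
  · congr 2
  · congr 2
    first
      | rfl
      | exact Finset.filter_congr_decidable _ _ _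
      | (ext f; simp only [mem_filter])

end Pool.Agent.THR

end

/-! ### from `Lib_MP_2c424f_thr.B6` -/

section

/-!
# THR B6: bad blocks are rare, labels agree (paper proof: B6)

As in `Lib_MP_2c424f_lin/B2a.lean` (`pbadd`) and `B2b.lean` (`pdiffd`).
* `pbadT`: `cn Γ = cE (bdT ..) Γ`, `LO.rp` (`bdT_loc`, `bdT_sym`) and `LO.chess` with `r = exp (-(2^d/d^C))`, `r^(number of blocks) = exp (-N'/d^C)` by `all_bad`
  (`card_Blk`, `NN_succ`).
* `pdiffT`: `LO.multi` with `S = prps`, `lab_adj` (`yM + η < 1 + m - η`), `4^d r ≤ 1/2` and `4 · 4^d r ≤ 1/d^5` for `d` large.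
-/

set_option autoImplicit false

open Finset Filter

namespace Pool.Agent.THR

open Pool.Agent.LO Pool.Agent.LIN

theorem pbadT {ε : ℝ} (hε : 0 < ε) (hε1 : ε ≤ 1) (η : ℝ) (hη : 0 < η) : ∃ C : ℕ,
    EvT ε fun d k q => ∀ m yM : ℝ, MFE (ra d q) m → YM (ra d q) m yM → ∀ (c : Fin q) (Γ : Finset (Blk d k)),
      cE (bdT (q := q) (1 + m - η) (yM + η) c) Γ ≤ ZZ d (k + 1) q * Real.exp (-(2 ^ d / (d : ℝ) ^ C)) ^ Γ.card := by
  classical
  obtain ⟨C, hab⟩ := all_bad hε hε1 η hη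
  refine ⟨C, (hab.and (EvT_reg hε hε1 1)).mono fun d k q h => ?_⟩
  obtain ⟨hab, -, -, hk, -⟩ := h
  have hk1 : 1 ≤ k := by exact_mod_cast hk
  intro m yM hm hM c
  have hfull : cE (bdT (q := q) (1 + m - η) (yM + η) c) (univ : Finset (Blk d k)) ≤
      ZZ d (k + 1) q * Real.exp (-(2 ^ d / (d : ℝ) ^ C)) ^ (Fintype.card (Blk d k)) := by
    refine le_trans (hab m yM hm hM c) ?_
    have hZ : 0 ≤ ZZ d (k + 1) q := by unfold ZZ; positivity
    apply mul_le_mul_of_nonneg_left _ hZ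
    rw [← Real.exp_nat_mul]
    apply Real.exp_le_exp.2
    have hc : (Fintype.card (Blk d k) : ℝ) = NN d k := card_site d k
    rw [hc]
    have hNk : NN d (k + 1) = NN d k * 2 ^ d := by
      unfold NN
      rw [pow_succ, mul_pow]
    have : NN d k * -((2 : ℝ) ^ d / (d : ℝ) ^ C) = -(NN d (k + 1) / (d : ℝ) ^ C) := by
      rw [hNk]; ring
    rw [this]
  exact chess hk1 (cE (bdT (q := q) (1 + m - η) (yM + η) c)) (ZZ d (k + 1) q) (Real.exp (-(2 ^ d / (d : ℝ) ^ C)))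
    (Real.exp_pos _)
    (by unfold ZZ; positivity) (fun Γ => by unfold cE; positivity)
    (fun j α Γ => rp hk1 (bdT (1 + m - η) (yM + η) c)
      (fun t f g h hb => bdT_loc (1 + m - η) (yM + η) c t f g h hb)
      (fun j α t f hb => bdT_sym (1 + m - η) (yM + η) c j α t f hb) j α Γ)
    (by
      unfold cE ZZ
      exact_mod_cast Finset.card_le_card (Finset.filter_subset _ _))
    hfull

/-- for large `d` the base is tiny -/
private theorem B6_small (C : ℕ) : ∀ᶠ d : ℕ in atTop,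
    1 ≤ d ∧ 4 * (d : ℝ) ^ 5 * (4 ^ d * Real.exp (-((2 : ℝ) ^ d / (d : ℝ) ^ C))) ≤ 1 := by
  have h1 : ∀ᶠ n : ℕ in Filter.atTop, (n : ℝ) ^ (C + 1) / (2 : ℝ) ^ n < 1 / 3 :=
    (tendsto_pow_const_div_const_pow_of_one_lt (C + 1) (by norm_num : (1 : ℝ) < 2)).eventually
      (gt_mem_nhds (by norm_num))
  have h2 : ∀ᶠ n : ℕ in Filter.atTop, (n : ℝ) ^ 5 / (5 : ℝ) ^ n < 1 / 4 :=
    (tendsto_pow_const_div_const_pow_of_one_lt 5 (by norm_num : (1 : ℝ) < 5)).eventually
      (gt_mem_nhds (by norm_num))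
  filter_upwards [h1, h2, eventually_ge_atTop 1] with d ha hb hd1
  refine ⟨hd1, ?_⟩
  have hdr : (0 : ℝ) < d := by exact_mod_cast hd1
  have h2p : (0 : ℝ) < 2 ^ d := by positivity
  have h5p : (0 : ℝ) < 5 ^ d := by positivity
  rw [div_lt_div_iff₀ h2p (by norm_num)] at ha
  rw [div_lt_div_iff₀ h5p (by norm_num)] at hb
  have hx : 3 * (d : ℝ) ≤ 2 ^ d / (d : ℝ) ^ C := by
    rw [le_div_iff₀ (by positivity)]
    have e : 3 * (d : ℝ) * (d : ℝ) ^ C = (d : ℝ) ^ (C + 1) * 3 := by ring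
    rw [e]
    linarith
  have he : (20 : ℝ) ≤ Real.exp 3 := by
    have h := Real.exp_one_gt_d9
    have h3 : Real.exp 3 = Real.exp 1 ^ 3 := by
      rw [← Real.exp_nat_mul]; norm_num
    rw [h3]
    calc (20 : ℝ) ≤ 2.7182818283 ^ 3 := by norm_num
      _ ≤ Real.exp 1 ^ 3 := pow_le_pow_left₀ (by norm_num) h.le 3
  have hexp : (20 : ℝ) ^ d ≤ Real.exp (2 ^ d / (d : ℝ) ^ C) := by
    calc (20 : ℝ) ^ d ≤ Real.exp 3 ^ d := pow_le_pow_left₀ (by norm_num) he d
      _ = Real.exp (3 * d) := by rw [← Real.exp_nat_mul]; ring_nf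
      _ ≤ _ := Real.exp_le_exp.2 hx
  have h20 : (20 : ℝ) ^ d = 4 ^ d * 5 ^ d := by rw [← mul_pow]; norm_num
  have hE : 0 < Real.exp (2 ^ d / (d : ℝ) ^ C) := Real.exp_pos _
  rw [Real.exp_neg, ← mul_assoc, ← div_eq_mul_inv, div_le_one hE]
  calc 4 * (d : ℝ) ^ 5 * 4 ^ d ≤ 5 ^ d * 4 ^ d := by
        apply mul_le_mul_of_nonneg_right _ (by positivity)
        linarith
    _ = 20 ^ d := by rw [h20]; ring
    _ ≤ _ := hexp

open scoped Classical in
theorem pdiffT {ε : ℝ} (hε : 0 < ε) (hε1 : ε ≤ 1) (η : ℝ) (hη : 0 < η) :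
    EvT ε fun d k q => ∀ m yM : ℝ, MFE (ra d q) m → YM (ra d q) m yM → 2 * η < m + (1 - yM) →
      ∀ (c : Fin q) (t t' : Blk d k),
      (((prps d (k + 1) q).filter fun f =>
        bdT (1 + m - η) (yM + η) c t f ∨ ¬ (hiL (1 + m - η) c f t ↔ hiL (1 + m - η) c f t')).card : ℝ) ≤
        ZZ d (k + 1) q * (1 / (d : ℝ) ^ 5) := by
  obtain ⟨C, hpb⟩ := pbadT hε hε1 η hη
  refine ((hpb.and (EvT_d (B6_small C))).and (EvT_reg hε hε1 3)).mono fun d k q h => ?_
  obtain ⟨⟨hB, -, hr⟩, hd3r, -⟩ := h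
  have hd3 : 3 ≤ d := by exact_mod_cast hd3r
  intro m yM hm hM hgap c t t'
  have hrpos : 0 < Real.exp (-((2 : ℝ) ^ d / (d : ℝ) ^ C)) := Real.exp_pos _
  have hle : 4 * (4 ^ d * Real.exp (-((2 : ℝ) ^ d / (d : ℝ) ^ C))) ≤ 1 / (d : ℝ) ^ 5 := by
    rw [le_div_iff₀ (by positivity)]
    linarith
  have hhalf : 4 ^ d * Real.exp (-((2 : ℝ) ^ d / (d : ℝ) ^ C)) ≤ 1 / 2 := by
    have : 1 / (d : ℝ) ^ 5 ≤ 1 := by
      rw [div_le_one (by positivity)]
      exact one_le_pow₀ (by linarith)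
    linarith
  have hθ : yM + η < 1 + m - η := by linarith
  have hm' := multi (prps d (k + 1) q) hd3 (fun f t => bdT (1 + m - η) (yM + η) c t f)
    (fun f t => hiL (1 + m - η) c f t)
    (Real.exp (-((2 : ℝ) ^ d / (d : ℝ) ^ C)))
    hrpos.le hhalf (fun Γ => by
      have := hB m yM hm hM c Γ
      unfold cE ZZ at this
      exact this)
    (fun f _ s j _ hb1 hb2 => lab_adj (by omega) (1 + m - η) (yM + η) hθ c f s j hb1 hb2) t t'
  refine hm'.trans ?_
  unfold ZZ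
  exact mul_le_mul_of_nonneg_left hle (Nat.cast_nonneg _)

end Pool.Agent.THR

end

/-! ### from `Lib_MP_2c424f_thr.B7c` -/

section

/-!
# THR B7c: the labels of two sites of the same parity (paper proof: B7)

`m, yM` exist (`mfe_exists`, `ym_exists`, `1 < ra d q`); `η` small compared with `gap` and `δ`; `w = y - x` is even (`LO.evn_add`).  By `LO.sum_transl` the sum
`S = ∑_f 1[eps_x ≠ eps_{x+w}]` does not depend on `x` (any parity), so `(N'/2) S = ∑_{x odd} ∑_f 1[eps_x ≠ eps_{x+w}]`, `N' = NN d (k+1)`.  For `f` off the rare event of `breg_wop` (`δ₁`) use `lab_two`,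
`lab_sum`: `∑_{x odd} 1[..] ≤ 2 (η + δ₁) N'/2 + 2^(-d) ∑_b ∑_x 1[et (tb x b) ≠ et (tb (x+w) b)]` (`4^d/2 · NN d k = 2^d N'/2`); for `f` in the rare event `≤ N'/2`.  By `pdiffT`
`∑_f 1[et t ≠ et t'] ≤ Z/d^5`.  So `S ≤ Z (2 (η + δ₁) + 1/d^5 + exp (-N'/d^C)) ≤ δ Z`.
-/

set_option autoImplicit false

open Finset Filter

namespace Pool.Agent.THR

open Pool.Agent.LO Pool.Agent.LIN

/-- covariance of the labels -/
private theorem B7c_eps {d k q : ℕ} (c : Fin q) (f : Site d k → Fin q) (v w : Site d k) :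
    eps c (fun x => f (x + w)) v = eps c f (v + w) := by
  unfold eps
  rw [(loc_transl f v w c).2.2.1]

/-- the mean does not depend on the site -/
private theorem B7c_mean {d k q : ℕ} (c : Fin q) (w x v : Site d k) :
    ∑ f ∈ prps d k q, (if eps c f v = eps c f (v + w) then (0 : ℝ) else 1) =
      ∑ f ∈ prps d k q, (if eps c f x = eps c f (x + w) then (0 : ℝ) else 1) := by
  have h := sum_transl (v - x)
    (fun f : Site d k → Fin q => if eps c f x = eps c f (x + w) then (0 : ℝ) else 1)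
  rw [← h]
  refine Finset.sum_congr rfl fun f _ => ?_
  rw [B7c_eps, B7c_eps, show x + (v - x) = v by abel, show x + w + (v - x) = v + w by abel]

/-- labels of two blocks -/
private theorem B7c_et {d k q : ℕ} (θ θ' : ℝ) (c : Fin q) (t t' : Blk d k) (B : ℝ)
    (h : ∀ [DecidablePred fun f : Site d (k + 1) → Fin q =>
        bdT θ θ' c t f ∨ ¬ (hiL θ c f t ↔ hiL θ c f t')],
      (((prps d (k + 1) q).filter fun f =>
        bdT θ θ' c t f ∨ ¬ (hiL θ c f t ↔ hiL θ c f t')).card : ℝ) ≤ B) :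
    ∑ f ∈ prps d (k + 1) q, (if et θ c f t = et θ c f t' then (0 : ℝ) else 1) ≤ B := by
  classical
  refine le_trans ?_ h
  rw [Finset.card_filter]
  push_cast
  refine Finset.sum_le_sum fun f _ => ?_
  by_cases h1 : et θ c f t = et θ c f t'
  · rw [if_pos h1]
    split_ifs <;> norm_num
  · rw [if_neg h1]
    have h2 : ¬ (hiL θ c f t ↔ hiL θ c f t') := by
      intro h3
      apply h1
      unfold et
      by_cases h4 : hiL θ c f t
      · rw [if_pos h4, if_pos (h3.1 h4)]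
      · rw [if_neg h4, if_neg fun h5 => h4 (h3.2 h5)]
    rw [if_pos (Or.inr h2)]

private theorem B7c_a1 {ε : ℝ} (hε : 0 < ε) (hε1 : ε ≤ 1) : 1 < a1 ε := by
  unfold a1
  rw [lt_div_iff₀ (by linarith)]
  linarith

theorem lab_same {ε : ℝ} (hε : 0 < ε) (hε1 : ε ≤ 1) (δ : ℝ) (hδ : 0 < δ) : EvT ε fun d k q => ∀ (c : Fin q)
    (x y : Site d (k + 1)), (evn x ↔ evn y) →
      ∑ f ∈ prps d (k + 1) q, (if eps c f x = eps c f y then (0 : ℝ) else 1) ≤ δ * ZZ d (k + 1) q := by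
  classical
  obtain ⟨g, hg, -, hgap⟩ := gap (a1 ε) (A0 ε) (B7c_a1 hε hε1)
  set η : ℝ := min (g / 2) (δ / 8) with hηdef
  have hη : 0 < η := by rw [hηdef]; positivity
  have hηg : η ≤ g / 2 := min_le_left _ _
  have hηδ : η ≤ δ / 8 := min_le_right _ _
  obtain ⟨C, hC⟩ := breg_wop hε hε1 η (δ / 8) hη (by linarith)
  have hP := pdiffT hε hε1 η hη
  have hN : EvT ε fun d k q => (d : ℝ) ^ C * Real.log (8 / δ) ≤ NN d (k + 1) :=
    (EvT_NN fun d _ => (d : ℝ) ^ C * Real.log (8 / δ)).shift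
  refine (((hC.and hP).and hN).and (EvT_reg hε hε1 (max 2 (8 / δ)))).mono ?_
  rintro d k q ⟨⟨⟨hR, hD⟩, hNN⟩, hM1, -, hM3, -, -, ha1, ha2, -⟩ c x y hxy
  have hd2' : (2 : ℝ) ≤ d := (le_max_left _ _).trans hM1
  have hd2 : 2 ≤ d := by exact_mod_cast hd2'
  have hk2' : (2 : ℝ) ≤ k := (le_max_left _ _).trans hM3
  have hk1 : 1 ≤ k := by
    have : 2 ≤ k := by exact_mod_cast hk2'
    omega
  have hd8 : 8 / δ ≤ d := (le_max_right _ _).trans hM1
  have hd0 : (0 : ℝ) < d := by linarith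
  have ha : 1 < ra d q := lt_of_lt_of_le (B7c_a1 hε hε1) ha1
  obtain ⟨m, hm⟩ := mfe_exists (ra d q) ha
  obtain ⟨yM, hM⟩ := ym_exists (ra d q) m ha hm
  obtain ⟨g1, g2, g3, -⟩ := hgap (ra d q) m yM ha1 ha2 hm hM
  have e1 : η < m := by linarith
  have e2 : yM + η < 1 := by linarith
  have e3 : 1 - m < yM := by linarith
  have hD' := hD m yM hm hM (by linarith) c
  set Z : ℝ := ZZ d (k + 1) q with hZ
  have hZ0 : 0 ≤ Z := by rw [hZ]; unfold ZZ; exact Nat.cast_nonneg _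
  set N : ℝ := NN d (k + 1) with hNdef
  have hNpos : 0 < N := by rw [hNdef]; unfold NN; positivity
  have h5 : 1 / (d : ℝ) ^ 5 ≤ δ / 8 := by
    have h6 : (d : ℝ) ≤ (d : ℝ) ^ 5 := le_self_pow₀ (by linarith) (by norm_num)
    rw [div_le_iff₀ (by positivity)]
    rw [div_le_iff₀ hδ] at hd8
    have h7 : (d : ℝ) * δ ≤ (d : ℝ) ^ 5 * δ := mul_le_mul_of_nonneg_right h6 hδ.le
    linarith
  have hexp : Real.exp (-(N / (d : ℝ) ^ C)) ≤ δ / 8 := by
    have h6 : Real.log (8 / δ) ≤ N / (d : ℝ) ^ C := by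
      rw [le_div_iff₀ (by positivity), mul_comm]
      exact hNN
    calc Real.exp (-(N / (d : ℝ) ^ C)) ≤ Real.exp (-Real.log (8 / δ)) :=
          Real.exp_le_exp.2 (by linarith)
      _ = δ / 8 := by
          rw [Real.exp_neg, Real.exp_log (by positivity), inv_div]
  -- the translation
  set w : Site d (k + 1) := y - x with hw
  have hyw : y = x + w := by rw [hw]; abel
  have hwe : evn w := by
    have h6 := evn_add (d := d) (k := k + 1) (by omega) x w
    rw [← hyw] at h6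
    tauto
  rw [hyw]
  set S : ℝ := ∑ f ∈ prps d (k + 1) q, (if eps c f x = eps c f (x + w) then (0 : ℝ) else 1)
    with hS
  -- sum over the odd sites
  have hcard : ((ods d (k + 1)).card : ℝ) = N / 2 := card_ods (by omega) (by omega)
  have hsum : ∑ f ∈ prps d (k + 1) q, ∑ v ∈ ods d (k + 1),
      (if eps c f v = eps c f (v + w) then (0 : ℝ) else 1) = N / 2 * S := by
    rw [Finset.sum_comm]
    rw [Finset.sum_congr rfl fun v _ => B7c_mean c w x v, Finset.sum_const, nsmul_eq_mul, hcard]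
  have h4d : (4 : ℝ) ^ d / 2 * NN d k = 2 ^ d * (N / 2) := by
    rw [hNdef, NN_succ, show (4 : ℝ) = 2 * 2 by norm_num, mul_pow]
    ring
  -- one colouring
  set θ : ℝ := 1 + m - η with hθ
  have hone : ∀ f ∈ prps d (k + 1) q, 2 ^ d * ∑ v ∈ ods d (k + 1),
      (if eps c f v = eps c f (v + w) then (0 : ℝ) else 1) ≤
      2 * (η + δ / 8) * (2 ^ d * (N / 2)) +
      ∑ b : Bt d, ∑ v ∈ ods d (k + 1), (if et θ c f (tb v b) = et θ c f (tb (v + w) b) then (0 : ℝ) else 1) +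
      (if ¬ (∀ m yM : ℝ, MFE (ra d q) m → YM (ra d q) m yM → ∀ c : Fin q,
        ((univ.filter fun t : Blk d k => ¬ ∃ τ, tauG η m yM c f t τ).card : ℝ) ≤ δ / 8 * NN d k)
        then (1 : ℝ) else 0) * (2 ^ d * (N / 2)) := by
    intro f _
    have hE0 : 0 ≤ ∑ b : Bt d, ∑ v ∈ ods d (k + 1),
        (if et θ c f (tb v b) = et θ c f (tb (v + w) b) then (0 : ℝ) else 1) :=
      Finset.sum_nonneg fun b _ => Finset.sum_nonneg fun v _ => by split_ifs <;> norm_num
    by_cases hf : ∀ m yM : ℝ, MFE (ra d q) m → YM (ra d q) m yM → ∀ c : Fin q,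
        ((univ.filter fun t : Blk d k => ¬ ∃ τ, tauG η m yM c f t τ).card : ℝ) ≤ δ / 8 * NN d k
    · rw [if_neg (not_not.2 hf), zero_mul, add_zero]
      have h6 := lab_two hd2 hk1 θ c f w hwe
      have h7 := lab_sum hd2 η m yM (δ / 8) hη e1 e2 e3 c f (by convert hf m yM hm hM c)
      rw [h4d, ← hθ] at h7
      linarith
    · rw [if_pos hf, one_mul]
      have h6 : ∑ v ∈ ods d (k + 1), (if eps c f v = eps c f (v + w) then (0 : ℝ) else 1) ≤ N / 2 := by
        calc ∑ v ∈ ods d (k + 1), (if eps c f v = eps c f (v + w) then (0 : ℝ) else 1)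
            ≤ ∑ v ∈ ods d (k + 1), (1 : ℝ) :=
              Finset.sum_le_sum fun v _ => by split_ifs <;> norm_num
          _ = N / 2 := by rw [Finset.sum_const, nsmul_eq_mul, mul_one, hcard]
      have h7 : (2 : ℝ) ^ d * ∑ v ∈ ods d (k + 1),
          (if eps c f v = eps c f (v + w) then (0 : ℝ) else 1) ≤ 2 ^ d * (N / 2) :=
        mul_le_mul_of_nonneg_left h6 (by positivity)
      have h8 : 0 ≤ 2 * (η + δ / 8) * (2 ^ d * (N / 2)) := by positivity
      linarith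
  have htot := Finset.sum_le_sum hone
  rw [← Finset.mul_sum, hsum, Finset.sum_add_distrib, Finset.sum_add_distrib, Finset.sum_const,
    nsmul_eq_mul, ← Finset.sum_mul] at htot
  -- the rare event
  have hrare : ∑ f ∈ prps d (k + 1) q, (if ¬ (∀ m yM : ℝ, MFE (ra d q) m → YM (ra d q) m yM → ∀ c : Fin q,
        ((univ.filter fun t : Blk d k => ¬ ∃ τ, tauG η m yM c f t τ).card : ℝ) ≤ δ / 8 * NN d k)
        then (1 : ℝ) else 0) ≤ Z * (δ / 8) := by
    have h6 : ∑ f ∈ prps d (k + 1) q, (if ¬ (∀ m yM : ℝ, MFE (ra d q) m → YM (ra d q) m yM → ∀ c : Fin q,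
        ((univ.filter fun t : Blk d k => ¬ ∃ τ, tauG η m yM c f t τ).card : ℝ) ≤ δ / 8 * NN d k)
        then (1 : ℝ) else 0) ≤ Z * Real.exp (-(N / (d : ℝ) ^ C)) := by
      unfold Rar at hR
      rw [Finset.card_filter] at hR
      push_cast at hR
      convert hR
    exact h6.trans (mul_le_mul_of_nonneg_left hexp hZ0)
  -- labels of blocks
  have hlab : ∑ f ∈ prps d (k + 1) q, ∑ b : Bt d, ∑ v ∈ ods d (k + 1),
      (if et θ c f (tb v b) = et θ c f (tb (v + w) b) then (0 : ℝ) else 1) ≤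
      2 ^ d * (N / 2) * (Z * (δ / 8)) := by
    rw [Finset.sum_comm]
    have h6 : ∀ b ∈ (univ : Finset (Bt d)), ∑ f ∈ prps d (k + 1) q, ∑ v ∈ ods d (k + 1),
        (if et θ c f (tb v b) = et θ c f (tb (v + w) b) then (0 : ℝ) else 1) ≤
        N / 2 * (Z * (δ / 8)) := by
      intro b _
      rw [Finset.sum_comm]
      have h7 : ∀ v ∈ ods d (k + 1), ∑ f ∈ prps d (k + 1) q,
          (if et θ c f (tb v b) = et θ c f (tb (v + w) b) then (0 : ℝ) else 1) ≤ Z * (δ / 8) := by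
        intro v _
        refine B7c_et θ (yM + η) c (tb v b) (tb (v + w) b) (Z * (δ / 8)) ?_
        intro _
        have h8 := hD' (tb v b) (tb (v + w) b)
        have h9 : Z * (1 / (d : ℝ) ^ 5) ≤ Z * (δ / 8) := mul_le_mul_of_nonneg_left h5 hZ0
        refine le_trans (le_of_eq ?_) (h8.trans h9)
        congr 2
        ext f
        simp only [Finset.mem_filter]
      calc ∑ v ∈ ods d (k + 1), ∑ f ∈ prps d (k + 1) q,
          (if et θ c f (tb v b) = et θ c f (tb (v + w) b) then (0 : ℝ) else 1)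
          ≤ ∑ v ∈ ods d (k + 1), Z * (δ / 8) := Finset.sum_le_sum h7
        _ = N / 2 * (Z * (δ / 8)) := by rw [Finset.sum_const, nsmul_eq_mul, hcard]
    refine (Finset.sum_le_sum h6).trans (le_of_eq ?_)
    rw [Finset.sum_const, Finset.card_univ, nsmul_eq_mul]
    have h7 : (Fintype.card (Bt d) : ℝ) = 2 ^ d := by
      rw [Fintype.card_fun, Fintype.card_bool, Fintype.card_fin]
      push_cast
      rfl
    rw [h7]
    ring
  have hK : 0 < (2 : ℝ) ^ d * (N / 2) := by positivity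
  have hrare' := mul_le_mul_of_nonneg_right hrare hK.le
  have hfin : (2 : ℝ) ^ d * (N / 2) * S ≤ 2 ^ d * (N / 2) * (δ * Z) := by
    have h6 : ((prps d (k + 1) q).card : ℝ) * (2 * (η + δ / 8) * (2 ^ d * (N / 2))) ≤
        Z * (δ / 2) * (2 ^ d * (N / 2)) := by
      have h7 : ((prps d (k + 1) q).card : ℝ) = Z := rfl
      rw [h7]
      have h8 : 2 * (η + δ / 8) ≤ δ / 2 := by linarith
      have h9 : Z * (2 * (η + δ / 8)) ≤ Z * (δ / 2) := mul_le_mul_of_nonneg_left h8 hZ0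
      have h10 := mul_le_mul_of_nonneg_right h9 hK.le
      linarith
    have h7 : 0 ≤ 2 ^ d * (N / 2) * (δ * Z) := by positivity
    have h8 : (2 : ℝ) ^ d * (N / 2 * S) = 2 ^ d * (N / 2) * S := by ring
    rw [h8] at htot
    have h9 : Z * (δ / 2) * (2 ^ d * (N / 2)) + 2 ^ d * (N / 2) * (Z * (δ / 8)) +
        Z * (δ / 8) * (2 ^ d * (N / 2)) = 3 / 4 * (2 ^ d * (N / 2) * (δ * Z)) := by ring
    linarith
  exact le_of_mul_le_mul_left hfin hK

end Pool.Agent.THR

end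

/-! ### from `Lib_MP_2c424f_thr.B7` -/

section

/-!
# THR B7: the labels of two sites (paper proof: B7)

* `lab_same`: `m, yM` exist (`mfe_exists`, `ym_exists`, `1 < ra d q`); `η` small compared with `gap` and `δ`; `w = y - x` is even (`LO.evn_add`).  By `LO.sum_transl` the sum
  `S = ∑_f 1[eps_x ≠ eps_{x+w}]` does not depend on `x` (any parity), so `(N'/2) S = ∑_{x odd} ∑_f 1[eps_x ≠ eps_{x+w}]`, `N' = NN d (k+1)`.  For `f` off the rare event of `breg_wop` (`δ₁`) use `lab_two`,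
  `lab_sum`: `∑_{x odd} 1[..] ≤ 2 (η + δ₁) N'/2 + 2^(-d) ∑_b ∑_x 1[et (tb x b) ≠ et (tb (x+w) b)]` (`4^d/2 · NN d k = 2^d N'/2`); for `f` in the rare event `≤ N'/2`.  By `pdiffT`
  `∑_f 1[et t ≠ et t'] ≤ Z/d^5`.  So `S ≤ Z (2 (η + δ₁) + 1/d^5 + exp (-N'/d^C)) ≤ δ Z`.
* `lab_opp`: `y' = y + sv σ` has the parity of `x`; `1[eps_x = eps_y] ≤ 1[eps_x ≠ eps_y'] + 1[eps_y' = eps_y]` (`eps = ± 1`); `lab_same` and `Pin.fl` with `transl_mean` (torus of side `2^(k+1)`: `EvT.shift`).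
-/

set_option autoImplicit false

open Finset Filter

namespace Pool.Agent.THR

open Pool.Agent.LO Pool.Agent.LIN

private theorem B7_a1 {ε : ℝ} (hε : 0 < ε) (hε1 : ε ≤ 1) : 1 < a1 ε := by
  unfold a1
  rw [one_lt_div (by linarith)]
  linarith

private theorem B7_eps {d k q : ℕ} (c : Fin q) (f : Site d k → Fin q) (v w : Site d k) :
    eps c (fun x => f (x + w)) v = eps c f (v + w) := by
  unfold eps
  rw [(loc_transl f v w c).2.2.1]

private theorem B7_mc01 {q : ℕ} (φ : Fin q → ℝ) (h : ∀ c, 0 ≤ φ c ∧ φ c ≤ 1) : 0 ≤ mc φ ∧ mc φ ≤ 1 := by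
  unfold mc
  constructor
  · exact div_nonneg (Finset.sum_nonneg fun c _ => (h c).1) (Nat.cast_nonneg q)
  · rcases Nat.eq_zero_or_pos q with hq | hq
    · subst hq
      simp
    · have hq0 : (0 : ℝ) < q := by exact_mod_cast hq
      rw [div_le_one hq0]
      calc ∑ c, φ c ≤ ∑ _c : Fin q, (1 : ℝ) := Finset.sum_le_sum fun c _ => (h c).2
        _ = q := by simp

private theorem B7_fl {ε : ℝ} (hε : 0 < ε) (hε1 : ε ≤ 1) (δ : ℝ) (hδ : 0 < δ) :
    WOPi ε (fun d _ _ => Stp d) fun d k q σ f =>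
      ∑ v : Site d k, mc (fun c => if eps c f v = eps c f (v + sv σ) then (1 : ℝ) else 0) ≤ δ * NN d k := by
  obtain ⟨t, C₆, _, _, _, h⟩ := pin_wop hε hε1
  refine ((h δ hδ).toi (fun d _ _ => Stp d)).mono ?_
  refine (EvT_reg hε hε1 1).mono ?_
  rintro d k q ⟨_, _, _, _, _, ha1, _, _⟩ σ f _ hP
  have ha : 1 < ra d q := lt_of_lt_of_le (B7_a1 hε hε1) ha1
  obtain ⟨m, hm⟩ := mfe_exists _ ha
  obtain ⟨yM, hy⟩ := ym_exists _ m ha hm
  exact (hP.2 m yM hm hy).fl σ

private theorem B7_site {ε : ℝ} (hε : 0 < ε) (hε1 : ε ≤ 1) (δ : ℝ) (hδ : 0 < δ) :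
    EvT ε fun d k q => ∀ (σ : Stp d) (v : Site d k),
      ∑ f ∈ prps d k q, mc (fun c => if eps c f v = eps c f (v + sv σ) then (1 : ℝ) else 0) ≤ 2 * δ * ZZ d k q := by
  refine transl_mean (ε := ε) (fun d _ _ => Stp d)
    (fun d k q σ f v => mc (fun c : Fin q => if eps c f v = eps c f (v + sv σ) then (1 : ℝ) else 0))
    (fun _ _ => 1) δ hδ ?_ ?_ (B7_fl hε hε1 δ hδ)
  · refine (EvT_reg hε hε1 1).mono ?_
    intro d k q _ σ f _ v
    exact B7_mc01 _ fun c => by split_ifs <;> norm_num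
  · intro d k q σ f v w
    have e : v + sv σ + w = v + w + sv σ := by abel
    simp only [B7_eps, e]

theorem lab_opp {ε : ℝ} (hε : 0 < ε) (hε1 : ε ≤ 1) (δ : ℝ) (hδ : 0 < δ) : EvT ε fun d k q => ∀ (x y : Site d (k + 1)),
    ¬ (evn x ↔ evn y) →
      ∑ f ∈ prps d (k + 1) q, mc (fun c => if eps c f x = eps c f y then (1 : ℝ) else 0) ≤ δ * ZZ d (k + 1) q := by
  refine (((lab_same hε hε1 (δ / 2) (by positivity)).and (B7_site hε hε1 (δ / 4) (by positivity)).shift).and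
    (EvT_reg hε hε1 1)).mono ?_
  rintro d k q ⟨⟨h1, h2⟩, hd, hq, _⟩ x y hxy
  have hd1 : 1 ≤ d := by exact_mod_cast hd
  have hq0 : (0 : ℝ) < q := by linarith
  set σ : Stp d := (⟨0, hd1⟩, true) with hσ
  have hev : evn (y + sv σ) ↔ ¬ evn y := evn_step (by omega) y σ
  have hxy' : evn x ↔ evn (y + sv σ) := by
    rw [hev]
    constructor
    · intro hx hy
      exact hxy ⟨fun _ => hy, fun _ => hx⟩
    · intro hy
      by_contra hx
      exact hxy ⟨fun h => absurd h hx, fun h => absurd h hy⟩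
  have a1 : ∑ f ∈ prps d (k + 1) q, mc (fun c => if eps c f x = eps c f (y + sv σ) then (0 : ℝ) else 1) ≤
      δ / 2 * ZZ d (k + 1) q := by
    unfold mc
    rw [← Finset.sum_div, Finset.sum_comm, div_le_iff₀ hq0]
    calc ∑ c : Fin q, ∑ f ∈ prps d (k + 1) q, (if eps c f x = eps c f (y + sv σ) then (0 : ℝ) else 1)
        ≤ ∑ _c : Fin q, δ / 2 * ZZ d (k + 1) q := Finset.sum_le_sum fun c _ => h1 c x (y + sv σ) hxy'
      _ = δ / 2 * ZZ d (k + 1) q * q := by
          rw [Finset.sum_const, Finset.card_univ, Fintype.card_fin, nsmul_eq_mul]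
          ring
  have a2 := h2 σ y
  have a3 : ∀ f : Site d (k + 1) → Fin q, mc (fun c => if eps c f x = eps c f y then (1 : ℝ) else 0) ≤
      mc (fun c => if eps c f x = eps c f (y + sv σ) then (0 : ℝ) else 1) +
        mc (fun c => if eps c f y = eps c f (y + sv σ) then (1 : ℝ) else 0) := by
    intro f
    unfold mc
    rw [← add_div, ← Finset.sum_add_distrib]
    refine div_le_div_of_nonneg_right (Finset.sum_le_sum fun c _ => ?_) hq0.le
    by_cases e1 : eps c f x = eps c f y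
    · by_cases e2 : eps c f x = eps c f (y + sv σ)
      · have e3 : eps c f y = eps c f (y + sv σ) := by rw [← e1, e2]
        rw [if_pos e1, if_pos e2, if_pos e3]
        norm_num
      · rw [if_pos e1, if_neg e2]
        split_ifs <;> norm_num
    · rw [if_neg e1]
      split_ifs <;> norm_num
  calc ∑ f ∈ prps d (k + 1) q, mc (fun c => if eps c f x = eps c f y then (1 : ℝ) else 0)
      ≤ ∑ f ∈ prps d (k + 1) q, (mc (fun c => if eps c f x = eps c f (y + sv σ) then (0 : ℝ) else 1) +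
        mc (fun c => if eps c f y = eps c f (y + sv σ) then (1 : ℝ) else 0)) := Finset.sum_le_sum fun f _ => a3 f
    _ ≤ δ * ZZ d (k + 1) q := by
        rw [Finset.sum_add_distrib]
        linarith

end Pool.Agent.THR

end

/-! ### from `Lib_MP_2c424f_thr.Z3a` -/

section

/-!
# THR Z3a: the correlation of the availabilities, same parity (paper proof: Z3)

`E` = mean over `prps`, `b` = class of `x`.  For `v` in the class `b`: `zz f v`, `av f v` depend on the colours of the class `!b`; `zt f v`, `ya c f v`, `eps c f v` depend on the colours of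
the class `b` (through `zz, av` of the neighbours): they are constant on the fibres of the class `!b` (`loc_fib`).  `LIN.fib_sum`: `∑_f G = ∑_f fm (!b) G f`.
`x ≠ y` in the class `b`: resample `!b`: `|E mc (z_x z_y) - E mc (zt_x zt_y)| ≤ 2/q` (`cov_zz`, `cmn_card` (side `≥ 8`), `∑_c zz/av = 1`).  Replace `zt` by `α* (1 + m eps)` (`zt_mean`; `0 ≤ zt ≤ 1`,
`|α* (1 + m eps)| ≤ 2`): `E mc (zt_x zt_y) ≈ α*² E mc ((1 + m eps_x)(1 + m eps_y)) = α*² (1 + m E mc eps_x + m E mc eps_y + m² E mc (eps_x eps_y))`, `eps_mean`,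
`eps_x eps_y = 1 - 2·1[eps_x ≠ eps_y]`, `lab_same` (mean over the colours).
-/

set_option autoImplicit false

open Finset Filter

namespace Pool.Agent.THR

open Pool.Agent.LO Pool.Agent.LIN

section Z3aaux
variable {d k q : ℕ}

private theorem Z3a_prp {f : Site d k → Fin q} (hf : f ∈ prps d k q) : Prp f := by
  classical
  exact (mem_filter.1 hf).2

private theorem Z3a_cls (x : Site d k) : ∃ b : Bool, ∀ y : Site d k, (evn x ↔ evn y) → y ∈ cls b d k := by
  classical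
  by_cases hx : evn x
  · refine ⟨true, fun y hy => ?_⟩
    simp only [cls, evs, if_true, mem_filter, mem_univ, true_and]
    exact hy.1 hx
  · refine ⟨false, fun y hy => ?_⟩
    simp only [cls, ods, Bool.false_eq_true, if_false, mem_filter, mem_univ, true_and]
    exact fun h => hx (hy.2 h)

private theorem Z3a_mc_mono {φ ψ : Fin q → ℝ} (h : ∀ c, φ c ≤ ψ c) : mc φ ≤ mc ψ := by
  unfold mc
  exact div_le_div_of_nonneg_right (sum_le_sum fun c _ => h c) (Nat.cast_nonneg q)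

private theorem Z3a_mc_abs (φ : Fin q → ℝ) : |mc φ| ≤ mc fun c => |φ c| := by
  unfold mc
  rw [abs_div, abs_of_nonneg (Nat.cast_nonneg q : (0 : ℝ) ≤ q)]
  exact div_le_div_of_nonneg_right (abs_sum_le_sum_abs _ _) (Nat.cast_nonneg q)

private theorem Z3a_mc_add (φ ψ : Fin q → ℝ) : mc (fun c => φ c + ψ c) = mc φ + mc ψ := by
  unfold mc
  rw [sum_add_distrib, add_div]

private theorem Z3a_mc_sub (φ ψ : Fin q → ℝ) : mc (fun c => φ c - ψ c) = mc φ - mc ψ := by
  unfold mc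
  rw [sum_sub_distrib, sub_div]

private theorem Z3a_mc_mul (a : ℝ) (φ : Fin q → ℝ) : mc (fun c => a * φ c) = a * mc φ := by
  unfold mc
  rw [← mul_sum]
  ring

private theorem Z3a_mc_const (hq : 1 ≤ q) (a : ℝ) : mc (fun _ : Fin q => a) = a := by
  unfold mc
  have hq0 : (q : ℝ) ≠ 0 := by
    rw [Nat.cast_ne_zero]
    omega
  rw [sum_const, card_univ, Fintype.card_fin, nsmul_eq_mul]
  field_simp

/-- resampling -/
private theorem Z3a_res (hk : 3 ≤ k) (hq : 1 ≤ q) (b : Bool) {f : Site d k → Fin q} (hf : Prp f) (x y : Site d k)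
    (hx : x ∈ cls b d k) (hy : y ∈ cls b d k) (hxy : x ≠ y) :
    |fm (!b) (fun h => mc fun c => zz h x c * zz h y c) f - mc (fun c => zt f x c * zt f y c)| ≤ 2 / q := by
  have hq0 : (0 : ℝ) < q := by exact_mod_cast hq
  have h1 : fm (!b) (fun h => mc fun c => zz h x c * zz h y c) f =
      mc fun c => fm (!b) (fun h => zz h x c * zz h y c) f := by
    unfold mc
    rw [← fm_sum]
    have h2 := fm_mul (!b) f (1 / (q : ℝ)) (fun h => ∑ c, zz h x c * zz h y c)
    have h3 : (fun h : Site d k → Fin q => (∑ c, zz h x c * zz h y c) / (q : ℝ)) =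
        fun h => 1 / (q : ℝ) * ∑ c, zz h x c * zz h y c := by
      funext h
      ring
    rw [h3, h2]
    ring
  have h2 : ∑ c, ∑ u ∈ cmn x y, zz f u c / (av f u : ℝ) = ((cmn x y).card : ℝ) := by
    rw [sum_comm, sum_congr rfl fun u _ => sum_zz_av hf u]
    simp
  have h3 : ((cmn x y).card : ℝ) ≤ 2 := by exact_mod_cast cmn_card hk x y hxy
  rw [h1, ← Z3a_mc_sub]
  refine (Z3a_mc_abs _).trans ?_
  have h4 : mc (fun c => |fm (!b) (fun h => zz h x c * zz h y c) f - zt f x c * zt f y c|) ≤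
      mc fun c => ∑ u ∈ cmn x y, zz f u c / (av f u : ℝ) := by
    refine Z3a_mc_mono fun c => ?_
    obtain ⟨h5, h6⟩ := cov_zz (by omega) b hf x y hx hy c
    rw [abs_of_nonneg (by linarith)]
    linarith
  refine h4.trans ?_
  unfold mc
  rw [h2]
  exact div_le_div_of_nonneg_right h3 hq0.le

private theorem Z3a_eps (c : Fin q) (f : Site d k → Fin q) (v : Site d k) : eps c f v = 1 ∨ eps c f v = -1 := by
  unfold eps
  split_ifs
  · exact Or.inl rfl
  · exact Or.inr rfl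

private theorem Z3a_eps_abs (c : Fin q) (f : Site d k → Fin q) (v : Site d k) : |eps c f v| ≤ 1 := by
  rcases Z3a_eps c f v with h | h <;> rw [h] <;> norm_num

/-- replacement of `zt` -/
private theorem Z3a_rep (f : Site d k → Fin q) (x y : Site d k) (α m : ℝ) (hα : 0 ≤ α) (hα1 : α ≤ 1) (hm : 0 ≤ m)
    (hm1 : m ≤ 1) :
    |mc (fun c => zt f x c * zt f y c) - mc (fun c => (α * (1 + m * eps c f x)) * (α * (1 + m * eps c f y)))| ≤
      mc (fun c => |zt f x c - α * (1 + m * eps c f x)|) + 2 * mc (fun c => |zt f y c - α * (1 + m * eps c f y)|) := by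
  rw [← Z3a_mc_sub, ← Z3a_mc_mul, ← Z3a_mc_add]
  refine (Z3a_mc_abs _).trans (Z3a_mc_mono fun c => ?_)
  have h1 := zt_nonneg f y c
  have h2 := zt_le_one f y c
  have h3 : |α * (1 + m * eps c f x)| ≤ 2 := by
    rw [abs_mul, abs_of_nonneg hα]
    have h4 : |1 + m * eps c f x| ≤ 2 := by
      rcases Z3a_eps c f x with h | h <;> rw [h, abs_le] <;> constructor <;> linarith
    calc α * |1 + m * eps c f x| ≤ 1 * 2 := mul_le_mul hα1 h4 (abs_nonneg _) (by norm_num)
      _ = 2 := by norm_num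
  have h4 : zt f x c * zt f y c - (α * (1 + m * eps c f x)) * (α * (1 + m * eps c f y)) =
      (zt f x c - α * (1 + m * eps c f x)) * zt f y c +
        (α * (1 + m * eps c f x)) * (zt f y c - α * (1 + m * eps c f y)) := by ring
  rw [h4]
  refine (abs_add_le _ _).trans ?_
  rw [abs_mul, abs_mul, abs_of_nonneg h1]
  have h5 : |zt f x c - α * (1 + m * eps c f x)| * zt f y c ≤ |zt f x c - α * (1 + m * eps c f x)| * 1 :=
    mul_le_mul_of_nonneg_left h2 (abs_nonneg _)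
  have h6 : |α * (1 + m * eps c f x)| * |zt f y c - α * (1 + m * eps c f y)| ≤
      2 * |zt f y c - α * (1 + m * eps c f y)| := mul_le_mul_of_nonneg_right h3 (abs_nonneg _)
  linarith

/-- the product of the labels -/
private theorem Z3a_lab (hq : 1 ≤ q) (f : Site d k → Fin q) (x y : Site d k) (α m : ℝ) (hα : 0 ≤ α) (hα1 : α ≤ 1)
    (hm : 0 ≤ m) (hm1 : m ≤ 1) :
    |mc (fun c => (α * (1 + m * eps c f x)) * (α * (1 + m * eps c f y))) - α ^ 2 * (1 + m ^ 2)| ≤
      |mc (fun c => eps c f x)| + |mc (fun c => eps c f y)| +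
        2 * mc (fun c => if eps c f x = eps c f y then (0 : ℝ) else 1) := by
  have h1 : (fun c => (α * (1 + m * eps c f x)) * (α * (1 + m * eps c f y))) = fun c =>
      (α ^ 2 * (1 + m ^ 2) + ((α ^ 2 * m) * eps c f x + (α ^ 2 * m) * eps c f y)) -
        (2 * α ^ 2 * m ^ 2) * (if eps c f x = eps c f y then (0 : ℝ) else 1) := by
    funext c
    rcases Z3a_eps c f x with h | h <;> rcases Z3a_eps c f y with h' | h' <;> rw [h, h']
    · rw [if_pos rfl]; ring
    · rw [if_neg (by norm_num)]; ring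
    · rw [if_neg (by norm_num)]; ring
    · rw [if_pos rfl]; ring
  rw [h1, Z3a_mc_sub, Z3a_mc_add, Z3a_mc_const hq, Z3a_mc_add, Z3a_mc_mul, Z3a_mc_mul, Z3a_mc_mul]
  have hD : 0 ≤ mc (fun c => if eps c f x = eps c f y then (0 : ℝ) else 1) := by
    have := Z3a_mc_mono (q := q) (φ := fun _ => (0 : ℝ)) (ψ := fun c => if eps c f x = eps c f y then (0 : ℝ) else 1)
      (fun c => by split_ifs <;> norm_num)
    rwa [Z3a_mc_const hq] at this
  obtain ⟨X, hX⟩ : ∃ X : ℝ, X = mc fun c => eps c f x := ⟨_, rfl⟩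
  obtain ⟨Y, hY⟩ : ∃ Y : ℝ, Y = mc fun c => eps c f y := ⟨_, rfl⟩
  obtain ⟨D, hDD⟩ : ∃ D : ℝ, D = mc fun c => if eps c f x = eps c f y then (0 : ℝ) else 1 := ⟨_, rfl⟩
  rw [← hX, ← hY, ← hDD]
  rw [← hDD] at hD
  have hα2 : α ^ 2 ≤ 1 := pow_le_one₀ hα hα1
  have hm2 : m ^ 2 ≤ 1 := pow_le_one₀ hm hm1
  have e1 : 0 ≤ α ^ 2 * m := by positivity
  have e2 : α ^ 2 * m ≤ 1 := by
    calc α ^ 2 * m ≤ 1 * 1 := mul_le_mul hα2 hm1 hm (by norm_num)
      _ = 1 := by norm_num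
  have e3 : 0 ≤ α ^ 2 * m ^ 2 := by positivity
  have e4 : α ^ 2 * m ^ 2 ≤ 1 := by
    calc α ^ 2 * m ^ 2 ≤ 1 * 1 := mul_le_mul hα2 hm2 (by positivity) (by norm_num)
      _ = 1 := by norm_num
  have h2 : α ^ 2 * (1 + m ^ 2) + (α ^ 2 * m * X + α ^ 2 * m * Y) - 2 * α ^ 2 * m ^ 2 * D - α ^ 2 * (1 + m ^ 2) =
      α ^ 2 * m * X + α ^ 2 * m * Y + -(2 * (α ^ 2 * m ^ 2) * D) := by ring
  rw [h2]
  refine (abs_add_le _ _).trans ?_
  refine add_le_add ((abs_add_le _ _).trans ?_) ?_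
  · rw [abs_mul (α ^ 2 * m) X, abs_mul (α ^ 2 * m) Y, abs_of_nonneg e1]
    have h3 := mul_le_mul_of_nonneg_right e2 (abs_nonneg X)
    have h4 := mul_le_mul_of_nonneg_right e2 (abs_nonneg Y)
    linarith
  · rw [abs_neg, abs_of_nonneg (by positivity)]
    have h3 := mul_le_mul_of_nonneg_right e4 hD
    linarith

end Z3aaux

theorem cor_same {ε : ℝ} (hε : 0 < ε) (hε1 : ε ≤ 1) (δ : ℝ) (hδ : 0 < δ) : EvT ε fun d k q => ∀ m : ℝ, MFE (ra d q) m →
    ∀ x y : Site d (k + 1), x ≠ y → (evn x ↔ evn y) →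
      |∑ f ∈ prps d (k + 1) q, mc (fun c => zz f x c * zz f y c) - als (ra d q) m ^ 2 * (1 + m ^ 2) * ZZ d (k + 1) q| ≤
        δ * ZZ d (k + 1) q := by
  have hδ8 : 0 < δ / 8 := by positivity
  have E1 := (zt_mean hε hε1 (δ / 8) hδ8).shift
  have E2 := (eps_mean hε hε1 (δ / 8) hδ8).shift
  have E3 := lab_same hε hε1 (δ / 8) hδ8
  have E4 := EvT_reg hε hε1 (16 / δ + 3)
  refine ((E1.and E2).and (E3.and E4)).mono fun d k q h m hm x y hxy hpar => ?_
  obtain ⟨⟨h1, h2⟩, h3, h4, h5, h6, -, -, -, h7, -⟩ := h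
  have hd16 : 0 < 16 / δ := by positivity
  have hq1 : 1 ≤ q := by
    have : (1 : ℝ) ≤ q := by linarith
    exact_mod_cast this
  have hk2 : 3 ≤ k + 1 := by
    have : (2 : ℝ) ≤ k := by linarith
    have : 2 ≤ k := by exact_mod_cast this
    omega
  have hq0 : (0 : ℝ) < q := by exact_mod_cast hq1
  have hqδ : 2 / (q : ℝ) ≤ δ / 8 := by
    rw [div_le_iff₀ hq0]
    have h8 : 16 / δ ≤ q := by linarith
    rw [div_le_iff₀ hδ] at h8
    linarith
  have hm0 : 0 ≤ m := hm.1.le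
  have hm1 : m ≤ 1 := (mfe_lt _ _ hm).le
  have hra : 0 ≤ ra d q := by unfold ra; positivity
  have hα0 : 0 ≤ als (ra d q) m := (als_pos _ _).le
  have hα1 : als (ra d q) m ≤ 1 := (als_bounds (ra d q) m hra (by rw [abs_of_nonneg hm0]; exact hm1)).2
  obtain ⟨α, hα⟩ : ∃ α : ℝ, α = als (ra d q) m := ⟨_, rfl⟩
  have g1 := h1 m hm x
  have g1' := h1 m hm y
  have g2 := h2 x
  have g2' := h2 y
  rw [← hα] at hα0 hα1 g1 g1' ⊢
  obtain ⟨b, hb⟩ := Z3a_cls x
  have hx := hb x Iff.rfl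
  have hy := hb y hpar
  have g3 : ∑ f ∈ prps d (k + 1) q, mc (fun c => if eps c f x = eps c f y then (0 : ℝ) else 1) ≤
      δ / 8 * ZZ d (k + 1) q := by
    unfold mc
    rw [← sum_div, sum_comm, div_le_iff₀ hq0]
    refine (sum_le_sum fun c _ => h3 c x y hpar).trans (le_of_eq ?_)
    rw [sum_const, card_univ, Fintype.card_fin, nsmul_eq_mul]
    ring
  rw [fib_sum (by omega) (!b)]
  have hZ : α ^ 2 * (1 + m ^ 2) * ZZ d (k + 1) q = ∑ f ∈ prps d (k + 1) q, α ^ 2 * (1 + m ^ 2) := by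
    rw [sum_const, nsmul_eq_mul]
    unfold ZZ
    ring
  rw [hZ, ← sum_sub_distrib]
  refine (abs_sum_le_sum_abs _ _).trans ?_
  have h8 : ∀ f ∈ prps d (k + 1) q,
      |fm (!b) (fun h => mc fun c => zz h x c * zz h y c) f - α ^ 2 * (1 + m ^ 2)| ≤
        2 / (q : ℝ) + (mc (fun c => |zt f x c - α * (1 + m * eps c f x)|) +
          2 * mc (fun c => |zt f y c - α * (1 + m * eps c f y)|)) +
        (|mc (fun c => eps c f x)| + |mc (fun c => eps c f y)| +
          2 * mc (fun c => if eps c f x = eps c f y then (0 : ℝ) else 1)) := by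
    intro f hf
    have r1 := Z3a_res hk2 hq1 b (Z3a_prp hf) x y hx hy hxy
    have r2 := Z3a_rep f x y α m hα0 hα1 hm0 hm1
    have r3 := Z3a_lab hq1 f x y α m hα0 hα1 hm0 hm1
    rw [abs_le] at r1 r2 r3 ⊢
    constructor
    · linarith [r1.1, r2.1, r3.1]
    · linarith [r1.2, r2.2, r3.2]
  refine (sum_le_sum h8).trans ?_
  rw [sum_add_distrib, sum_add_distrib, sum_add_distrib, sum_add_distrib, sum_add_distrib, ← mul_sum, ← mul_sum,
    sum_const, nsmul_eq_mul]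
  have hZ0 : (0 : ℝ) ≤ ZZ d (k + 1) q := Nat.cast_nonneg _
  have h9 : ((prps d (k + 1) q).card : ℝ) * (2 / (q : ℝ)) ≤ δ / 8 * ZZ d (k + 1) q := by
    have h10 : ((prps d (k + 1) q).card : ℝ) = ZZ d (k + 1) q := rfl
    rw [h10]
    calc ZZ d (k + 1) q * (2 / (q : ℝ)) ≤ ZZ d (k + 1) q * (δ / 8) := mul_le_mul_of_nonneg_left hqδ hZ0
      _ = δ / 8 * ZZ d (k + 1) q := by ring
  linarith

end Pool.Agent.THR

end

/-! ### from `Lib_MP_2c424f_thr.Z3b` -/

section

/-!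
# THR Z3b: the correlation of the availabilities, different parity (paper proof: Z3)

`E` = mean over `prps`, `b` = class of `x`.  For `v` in the class `b`: `zz f v`, `av f v` depend on the colours of the class `!b`; `zt f v`, `ya c f v`, `eps c f v` depend on the colours of
the class `b` (through `zz, av` of the neighbours): they are constant on the fibres of the class `!b` (`loc_fib`).  `LIN.fib_sum`: `∑_f G = ∑_f fm (!b) G f`.
`x` in the class `b`, `y` in the class `!b`: resample `!b`: `z_y` is constant, `z_x` has mean `zt_x` (`LIN.fm_zz`): `E mc (z_x z_y) = E mc (zt_x z_y) ≈ α* E mc ((1 + m eps_x) z_y)`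
(`zt_mean`, `0 ≤ z_y ≤ 1`) `≈ α* E mc ((1 - m eps_y) z_y)` (`lab_opp`: `eps_x = -eps_y` up to probability `δ`) `= α* E mc ((1 - m eps_y) zt_y)` (resample the class `b`: `eps_y` is constant on the fibres of the
class `b`, `z_y` has mean `zt_y`) `≈ α*² E mc ((1 - m eps_y)(1 + m eps_y)) = α*² (1 - m²)` (`eps_y² = 1`).
-/

set_option autoImplicit false

open Finset Filter

namespace Pool.Agent.THR

open Pool.Agent.LO Pool.Agent.LIN

section Z3b
variable {d k q : ℕ}

private theorem Z3b_mc_sub (φ ψ : Fin q → ℝ) : mc φ - mc ψ = mc (fun c => φ c - ψ c) := by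
  unfold mc
  rw [Finset.sum_sub_distrib, sub_div]

private theorem Z3b_mc_mono (φ ψ : Fin q → ℝ) (h : ∀ c, φ c ≤ ψ c) : mc φ ≤ mc ψ := by
  unfold mc
  exact div_le_div_of_nonneg_right (Finset.sum_le_sum fun c _ => h c) (Nat.cast_nonneg q)

private theorem Z3b_mc_abs (φ : Fin q → ℝ) : |mc φ| ≤ mc (fun c => |φ c|) := by
  unfold mc
  rw [abs_div, abs_of_nonneg (show (0 : ℝ) ≤ (q : ℝ) from Nat.cast_nonneg q)]
  exact div_le_div_of_nonneg_right (Finset.abs_sum_le_sum_abs _ _) (Nat.cast_nonneg q)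

private theorem Z3b_mc_mul (a : ℝ) (φ : Fin q → ℝ) : mc (fun c => a * φ c) = a * mc φ := by
  unfold mc
  rw [← Finset.mul_sum, mul_div_assoc]

private theorem Z3b_mc_const (hq : 1 ≤ q) (a : ℝ) : mc (fun _ : Fin q => a) = a := by
  unfold mc
  have h : (0 : ℝ) < q := by exact_mod_cast hq
  rw [Finset.sum_const, Finset.card_univ, Fintype.card_fin, nsmul_eq_mul]
  field_simp

/-- comparison of two sums -/
private theorem Z3b_cmp (P : Finset (Site d k → Fin q)) (F G H : (Site d k → Fin q) → Fin q → ℝ) (M E : ℝ)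
    (h : ∀ f ∈ P, ∀ c, |F f c - G f c| ≤ M * H f c) (hH : ∑ f ∈ P, mc (H f) ≤ E) (hM : 0 ≤ M) :
    |∑ f ∈ P, mc (F f) - ∑ f ∈ P, mc (G f)| ≤ M * E := by
  rw [← Finset.sum_sub_distrib]
  refine (Finset.abs_sum_le_sum_abs _ _).trans ?_
  calc ∑ f ∈ P, |mc (F f) - mc (G f)| ≤ ∑ f ∈ P, M * mc (H f) := by
        refine Finset.sum_le_sum fun f hf => ?_
        rw [Z3b_mc_sub]
        refine (Z3b_mc_abs _).trans ?_
        rw [← Z3b_mc_mul]
        exact Z3b_mc_mono _ _ fun c => h f hf c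
    _ = M * ∑ f ∈ P, mc (H f) := by rw [Finset.mul_sum]
    _ ≤ M * E := mul_le_mul_of_nonneg_left hH hM

/-- resampling of the class which contains the neighbours of `x` -/
private theorem Z3b_res (hk : 2 ≤ k) (b : Bool) (x : Site d k) (hx : x ∈ cls b d k)
    (Φ : Fin q → (Site d k → Fin q) → ℝ)
    (hΦ : ∀ f ∈ prps d k q, ∀ h ∈ fib (!b) f, ∀ c, Φ c h = Φ c f) :
    ∑ f ∈ prps d k q, mc (fun c => zz f x c * Φ c f) = ∑ f ∈ prps d k q, mc (fun c => zt f x c * Φ c f) := by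
  rw [fib_sum (by omega) (!b) (fun f => mc (fun c => zz f x c * Φ c f))]
  refine Finset.sum_congr rfl fun f hf => ?_
  have hp : Prp f := by
    simpa [prps] using hf
  have h1 : fm (!b) (fun f => mc (fun c => zz f x c * Φ c f)) f =
      fm (!b) (fun h => (1 / (q : ℝ)) * ∑ c, Φ c f * zz h x c) f := by
    refine fm_congr (!b) fun h hh' => ?_
    unfold mc
    rw [div_eq_mul_one_div, mul_comm]
    congr 1
    refine Finset.sum_congr rfl fun c _ => ?_
    show zz h x c * Φ c h = Φ c f * zz h x c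
    rw [hΦ f hf h hh' c, mul_comm]
  rw [h1, fm_mul, fm_sum]
  unfold mc
  rw [div_eq_mul_one_div (∑ c, zt f x c * Φ c f), mul_comm (1 / (q : ℝ))]
  congr 1
  refine Finset.sum_congr rfl fun c _ => ?_
  rw [fm_mul, fm_zz hk b hp x hx c, mul_comm]

private theorem Z3b_zz (f : Site d k → Fin q) (v : Site d k) (c : Fin q) : 0 ≤ zz f v c ∧ zz f v c ≤ 1 := by
  unfold zz
  split_ifs <;> norm_num

private theorem Z3b_eps (c : Fin q) (f : Site d k → Fin q) (v : Site d k) : eps c f v = 1 ∨ eps c f v = -1 := by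
  unfold eps
  split_ifs
  · exact Or.inl rfl
  · exact Or.inr rfl

/-- the main estimate -/
private theorem Z3b_main (hk : 2 ≤ k) (hq : 1 ≤ q) (α m δ : ℝ) (hα : 0 ≤ α) (hα1 : α ≤ 1) (hm : 0 ≤ m) (hm1 : m ≤ 1)
    (hδ : 0 < δ) (b : Bool) (x y : Site d k) (hx : x ∈ cls b d k) (hy : y ∈ cls (!b) d k)
    (h1 : ∀ v : Site d k, ∑ f ∈ prps d k q, mc (fun c => |zt f v c - α * (1 + m * eps c f v)|) ≤ δ / 6 * ZZ d k q)
    (h2 : ∑ f ∈ prps d k q, mc (fun c => if eps c f x = eps c f y then (1 : ℝ) else 0) ≤ δ / 8 * ZZ d k q) :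
    |∑ f ∈ prps d k q, mc (fun c => zz f x c * zz f y c) - α ^ 2 * (1 - m ^ 2) * ZZ d k q| ≤ δ * ZZ d k q := by
  have hZ : 0 ≤ ZZ d k q := by unfold ZZ; positivity
  -- resample the class `!b`
  have e1 := Z3b_res (q := q) hk b x hx (fun c f => zz f y c) (fun f _ h hh' c => by
    show zz h y c = zz f y c
    unfold zz
    rw [fib_SS (by omega) (!b) hh' y hy])
  have e2 := Z3b_cmp (prps d k q) (fun f c => zt f x c * zz f y c)
    (fun f c => α * (1 + m * eps c f x) * zz f y c)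
    (fun f c => |zt f x c - α * (1 + m * eps c f x)|) 1 (δ / 6 * ZZ d k q) (fun f _ c => by
      have hz := Z3b_zz f y c
      have e : zt f x c * zz f y c - α * (1 + m * eps c f x) * zz f y c =
        (zt f x c - α * (1 + m * eps c f x)) * zz f y c := by ring
      rw [e, abs_mul, abs_of_nonneg hz.1, one_mul]
      exact mul_le_of_le_one_right (abs_nonneg _) hz.2) (h1 x) (by norm_num)
  have e3 := Z3b_cmp (prps d k q) (fun f c => α * (1 + m * eps c f x) * zz f y c)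
    (fun f c => zz f y c * (α * (1 - m * eps c f y)))
    (fun f c => if eps c f x = eps c f y then (1 : ℝ) else 0) 2 (δ / 8 * ZZ d k q) (fun f _ c => by
      have hz := Z3b_zz f y c
      have e : α * (1 + m * eps c f x) * zz f y c - zz f y c * (α * (1 - m * eps c f y)) =
        (α * m * zz f y c) * (eps c f x + eps c f y) := by ring
      rw [e]
      have ham : α * m * zz f y c ≤ 1 := by
        have : α * m ≤ 1 := mul_le_one₀ hα1 hm hm1
        exact mul_le_one₀ this hz.1 hz.2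
      have ham0 : 0 ≤ α * m * zz f y c := mul_nonneg (mul_nonneg hα hm) hz.1
      rcases Z3b_eps c f x with hX | hX <;> rcases Z3b_eps c f y with hY | hY <;> rw [hX, hY]
      · rw [if_pos rfl, abs_mul, abs_of_nonneg ham0]
        norm_num
        exact ham
      · rw [if_neg (by norm_num)]
        norm_num
      · rw [if_neg (by norm_num)]
        norm_num
      · rw [if_pos rfl, abs_mul, abs_of_nonneg ham0]
        norm_num
        exact ham) h2 (by norm_num)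
  -- resample the class `b`
  have e4 := Z3b_res (q := q) hk (!b) y hy (fun c f => α * (1 - m * eps c f y)) (fun f _ h hh' c => by
    show α * (1 - m * eps c h y) = α * (1 - m * eps c f y)
    have h3 := (loc_fib hk (!b) hh' y hy c).2.2
    unfold eps
    rw [h3])
  have e5 := Z3b_cmp (prps d k q) (fun f c => zt f y c * (α * (1 - m * eps c f y)))
    (fun _ _ => α ^ 2 * (1 - m ^ 2))
    (fun f c => |zt f y c - α * (1 + m * eps c f y)|) 2 (δ / 6 * ZZ d k q) (fun f _ c => by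
      have he2 : eps c f y * eps c f y = 1 := by
        rcases Z3b_eps c f y with h | h <;> rw [h] <;> norm_num
      have e : zt f y c * (α * (1 - m * eps c f y)) - α ^ 2 * (1 - m ^ 2) =
          (zt f y c - α * (1 + m * eps c f y)) * (α * (1 - m * eps c f y)) := by
        have : α ^ 2 * (1 - m ^ 2) = α * (1 + m * eps c f y) * (α * (1 - m * eps c f y)) := by
          have h4 : α * (1 + m * eps c f y) * (α * (1 - m * eps c f y)) =
            α ^ 2 * (1 - m ^ 2 * (eps c f y * eps c f y)) := by ring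
          rw [h4, he2, mul_one]
        rw [this]
        ring
      rw [e, abs_mul, mul_comm]
      refine mul_le_mul_of_nonneg_right ?_ (abs_nonneg _)
      have h5 : 0 ≤ α * (1 - m * eps c f y) ∧ α * (1 - m * eps c f y) ≤ 2 := by
        rcases Z3b_eps c f y with h | h <;> rw [h] <;> constructor <;> nlinarith
      rw [abs_of_nonneg h5.1]
      exact h5.2) (h1 y) (by norm_num)
  have e6 : ∑ f ∈ prps d k q, mc (fun _ : Fin q => α ^ 2 * (1 - m ^ 2)) = α ^ 2 * (1 - m ^ 2) * ZZ d k q := by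
    rw [Z3b_mc_const hq, Finset.sum_const, nsmul_eq_mul]
    unfold ZZ
    ring
  rw [e6] at e5
  rw [e1]
  rw [← e4] at e5
  rw [abs_le] at e2 e3 e5 ⊢
  obtain ⟨a1, a2⟩ := e2
  obtain ⟨b1, b2⟩ := e3
  obtain ⟨c1, c2⟩ := e5
  have hdz : 0 ≤ δ * ZZ d k q := mul_nonneg hδ.le hZ
  constructor <;> linarith

end Z3b

theorem cor_opp {ε : ℝ} (hε : 0 < ε) (hε1 : ε ≤ 1) (δ : ℝ) (hδ : 0 < δ) : EvT ε fun d k q => ∀ m : ℝ, MFE (ra d q) m →
    ∀ x y : Site d (k + 1), ¬ (evn x ↔ evn y) →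
      |∑ f ∈ prps d (k + 1) q, mc (fun c => zz f x c * zz f y c) - als (ra d q) m ^ 2 * (1 - m ^ 2) * ZZ d (k + 1) q| ≤
        δ * ZZ d (k + 1) q := by
  refine (((zt_mean hε hε1 (δ / 6) (by positivity)).shift.and (lab_opp hε hε1 (δ / 8) (by positivity))).and
    (EvT_reg hε hε1 1)).mono ?_
  rintro d k q ⟨⟨h1, h2⟩, h3, h4, h5, -⟩ m hm x y hxy
  have hq : 1 ≤ q := by exact_mod_cast h4
  have hk : 1 ≤ k := by exact_mod_cast h5
  have ha : 0 ≤ ra d q := by unfold ra; positivity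
  have hm0 : 0 < m := hm.1
  have hm1 : m < 1 := mfe_lt _ _ hm
  obtain ⟨hb1, hb2⟩ := als_bounds (ra d q) m ha (by rw [abs_of_pos hm0]; exact hm1.le)
  have hα : 0 ≤ als (ra d q) m := (Real.exp_pos _).le.trans hb1
  have hcls : ∃ b : Bool, x ∈ cls b d (k + 1) ∧ y ∈ cls (!b) d (k + 1) := by
    by_cases hx : evn x
    · refine ⟨true, ?_, ?_⟩
      · simp only [cls, if_true, evs, mem_filter, mem_univ, true_and]
        exact hx
      · simp only [cls, Bool.not_true, Bool.false_eq_true, if_false, ods, mem_filter, mem_univ, true_and]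
        intro hy
        exact hxy ⟨fun _ => hy, fun _ => hx⟩
    · refine ⟨false, ?_, ?_⟩
      · simp only [cls, Bool.false_eq_true, if_false, ods, mem_filter, mem_univ, true_and]
        exact hx
      · simp only [cls, Bool.not_false, if_true, evs, mem_filter, mem_univ, true_and]
        by_contra hy
        exact hxy ⟨fun h => absurd h hx, fun h => absurd h hy⟩
  obtain ⟨b, hbx, hby⟩ := hcls
  exact Z3b_main (by omega) hq (als (ra d q) m) m δ hα hb2 hm0.le hm1.le hδ b x y hbx hby (h1 m hm) (h2 x y hxy)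

end Pool.Agent.THR

end

/-! ### from `Lib_MP_2c424f_thr.Z4` -/

section

/-!
# THR Z4: the theorem on tori

* `two_fin`: `m` from `mfe_exists`; `α*² ≥ e^(-2 A0)`; `two_red` (on the torus of side `2^(k+1)`: `EvT.shift`) and `cor_same`, `cor_opp`.  Sites `x ≠ y` of the same parity are not
  adjacent (`LO.evn_add` or `LO.evn_step`).
* `main_tori`: `m₁ = gap`; for `ε > 1` there is no `q` (`d ≥ 1`), otherwise `EvT` unfolded; `2 d m/q = ra d q · m`; `k ≥ 1` is `(k-1)+1`.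
-/

set_option autoImplicit false

open Finset Filter

namespace Pool.Agent.THR

open Pool.Agent.LO Pool.Agent.LIN

private theorem Z4_key (q Z S α s β η N : ℝ) (hZ : 0 < Z) (hβ : 0 < β) (hα : β ≤ α ^ 2) (hη : 0 < η)
    (h1 : |q * N - S / α ^ 2| ≤ η / 2 * Z) (h2 : |S - α ^ 2 * s * Z| ≤ η * β / 2 * Z) :
    |q * (N / Z) - s| ≤ η := by
  have hα0 : 0 < α ^ 2 := lt_of_lt_of_le hβ hα
  have h3 : |S / α ^ 2 - s * Z| ≤ η / 2 * Z := by
    have e : S / α ^ 2 - s * Z = (S - α ^ 2 * s * Z) / α ^ 2 := by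
      rw [sub_div, mul_assoc, mul_div_cancel_left₀ _ hα0.ne']
    rw [e, abs_div, abs_of_pos hα0, div_le_iff₀ hα0]
    refine h2.trans ?_
    have : η / 2 * Z * β ≤ η / 2 * Z * α ^ 2 := mul_le_mul_of_nonneg_left hα (by positivity)
    calc η * β / 2 * Z = η / 2 * Z * β := by ring
      _ ≤ _ := this
  have h4 : |q * N - s * Z| ≤ η * Z := by
    calc |q * N - s * Z| = |(q * N - S / α ^ 2) + (S / α ^ 2 - s * Z)| := by ring_nf
      _ ≤ |q * N - S / α ^ 2| + |S / α ^ 2 - s * Z| := abs_add_le _ _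
      _ ≤ η * Z := by linarith
  have e : q * (N / Z) - s = (q * N - s * Z) / Z := by
    field_simp
  rw [e, abs_div, abs_of_pos hZ, div_le_iff₀ hZ]
  exact h4

theorem two_fin {ε : ℝ} (hε : 0 < ε) (hε1 : ε ≤ 1) (η : ℝ) (hη : 0 < η) : EvT ε fun d k q => ∀ m : ℝ, MFE (ra d q) m →
    ∀ x y : Site d (k + 1), x ≠ y →
      ((evn x ↔ evn y) →
        |q * ((((prps d (k + 1) q).filter fun f => f x = f y).card : ℝ) / ZZ d (k + 1) q) - (1 + m ^ 2)| ≤ η) ∧
      (¬ (evn x ↔ evn y) → (∀ σ : Stp d, x + sv σ ≠ y) →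
        |q * ((((prps d (k + 1) q).filter fun f => f x = f y).card : ℝ) / ZZ d (k + 1) q) - (1 - m ^ 2)| ≤ η) := by
  have hβ : 0 < Real.exp (-(2 * A0 ε)) := Real.exp_pos _
  have h1 := (two_red hε hε1 (η / 2) (by positivity)).shift
  have h2 := cor_same hε hε1 (η * Real.exp (-(2 * A0 ε)) / 2) (by positivity)
  have h3 := cor_opp hε hε1 (η * Real.exp (-(2 * A0 ε)) / 2) (by positivity)
  have h4 := EvT_reg hε hε1 2
  refine (((h1.and h2).and h3).and h4).mono ?_
  rintro d k q ⟨⟨⟨h1, h2⟩, h3⟩, -, hq, -, -, -, ha1, haA, -⟩ m hm x y hxy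
  have hq2 : 2 ≤ q := by exact_mod_cast hq
  have hZ : 0 < ZZ d (k + 1) q := ZZ_pos (by omega) hq2
  have ha0 : 0 ≤ ra d q := by
    unfold ra
    positivity
  have hm0 := hm.1
  have hm1 := mfe_lt _ _ hm
  have hals := (als_bounds (ra d q) m ha0 (abs_le.2 ⟨by linarith, hm1.le⟩)).1
  have hα : Real.exp (-(2 * A0 ε)) ≤ als (ra d q) m ^ 2 := by
    have e1 : Real.exp (-(2 * A0 ε)) = Real.exp (-A0 ε) ^ 2 := by
      rw [← Real.exp_nat_mul]
      congr 1
      push_cast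
      ring
    rw [e1]
    have e2 : Real.exp (-A0 ε) ≤ als (ra d q) m := (Real.exp_le_exp.2 (by linarith)).trans hals
    exact pow_le_pow_left₀ (Real.exp_pos _).le e2 2
  constructor
  · intro hev
    have hna : ∀ σ : Stp d, x + sv σ ≠ y := by
      intro σ he
      have := evn_step (k := k + 1) (by omega) x σ
      rw [he] at this
      tauto
    exact Z4_key q (ZZ d (k + 1) q) _ _ _ _ η _ hZ hβ hα hη (h1 m hm x y hxy hna) (h2 m hm x y hxy hev)
  · intro hev hna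
    exact Z4_key q (ZZ d (k + 1) q) _ _ _ _ η _ hZ hβ hα hη (h1 m hm x y hxy hna) (h3 m hm x y hev)

theorem main_tori (ε : ℝ) (hε : 0 < ε) : ∃ m₁ : ℝ, 0 < m₁ ∧ ∀ η : ℝ, 0 < η → ∃ d₀ : ℕ, ∀ d : ℕ, d₀ ≤ d → ∀ q : ℕ,
    ε * d ≤ q → (q : ℝ) ≤ (2 - ε) * d → ∃ m : ℝ, m₁ ≤ m ∧ m < 1 ∧ m = Real.tanh (2 * d * m / q) ∧
      ∃ k₀ : ℕ, ∀ k : ℕ, k₀ ≤ k → ∀ x y : Site d k, x ≠ y →
      ((evn x ↔ evn y) →
        |q * ((((prps d k q).filter fun f => f x = f y).card : ℝ) / ZZ d k q) - (1 + m ^ 2)| ≤ η) ∧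
      (¬ (evn x ↔ evn y) → (∀ σ : Stp d, x + sv σ ≠ y) →
        |q * ((((prps d k q).filter fun f => f x = f y).card : ℝ) / ZZ d k q) - (1 - m ^ 2)| ≤ η) := by
  rcases lt_or_ge 1 ε with h1 | hε1
  · refine ⟨1, one_pos, fun η _ => ⟨1, fun d hd q hq1 hq2 => ?_⟩⟩
    exfalso
    have hd' : (1 : ℝ) ≤ d := by exact_mod_cast hd
    nlinarith
  have hb1 : 1 < a1 ε := by
    unfold a1
    rw [lt_div_iff₀ (by linarith)]
    linarith
  obtain ⟨g, hg0, -, hg⟩ := gap (a1 ε) (A0 ε) hb1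
  refine ⟨g, hg0, fun η hη => ?_⟩
  obtain ⟨d₀, H⟩ := (two_fin hε hε1 η hη).and (EvT_reg hε hε1 1)
  refine ⟨d₀, fun d hd q hq1 hq2 => ?_⟩
  obtain ⟨k₁, hk₁⟩ := eventually_atTop.1 (H d q hd hq1 hq2)
  obtain ⟨-, -, -, -, -, -, ha1, haA, -⟩ := hk₁ k₁ le_rfl
  have ha : 1 < ra d q := by linarith
  obtain ⟨m, hm⟩ := mfe_exists (ra d q) ha
  obtain ⟨yM, hyM⟩ := ym_exists (ra d q) m ha hm
  refine ⟨m, (hg (ra d q) m yM ha1 haA hm hyM).1, mfe_lt _ _ hm, ?_, k₁ + 1, ?_⟩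
  · have := hm.2
    have e : 2 * (d : ℝ) * m / q = ra d q * m := by
      unfold ra
      ring
    rw [e]
    exact this
  · intro k hk x y hxy
    obtain ⟨k', rfl⟩ : ∃ k', k = k' + 1 := ⟨k - 1, by omega⟩
    exact (hk₁ k' (by omega)).1 m hm x y hxy

end Pool.Agent.THR

end
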