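import Pool.Agent.Lib_MP_2c424f_ms.M04
import Pool.Agent.Lib_MP_2c424f_ms.M15
import Pool.Agent.Lib_MP_2c424f_pr.CND

/-!
# MP_2c424f_pr: library of SharpThreshold and BoundaryThreshold (merged): merged library part M40

Concatenation of smaller files (each in its own section), only to save build time.
-/

namespace Pool.Agent.LO
end Pool.Agent.LO

namespace Pool.Agent.LIN
end Pool.Agent.LIN

/-! ### from `Lib_MP_2c424f_thr.Z5b` -/

section

/-!
# THR Z5b: a box in the torus (paper proof: Z4)

Side `M = 2^k`, box `{0, …, M-2}^d`, `emb x = (x_i mod M)`, injective; `x, y` adjacent in the box iff `emb y = emb x + sv σ` for some `σ` (`0` and `M-1` are adjacent in the torus, but `M - 1` is not in the box).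
Ball `B = {emb x : bd w x < r}`, `w` = centre, all coordinates `M/2 - 1`, `4 r + 8 ≤ M`: all the neighbours of the sites of the ball are images of points of the box.
`box_card`: restriction `f ↦ f ∘ emb` is a bijection from the proper colourings of the torus which agree with `g` off `B` to the proper colourings of the box which agree with `g ∘ emb` at all `x` with
`r ≤ bd w x`; the inverse map extends by `g`.
-/

set_option autoImplicit false

open Finset Filter

namespace Pool.Agent.THR

open Pool.Agent.LO Pool.Agent.LIN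

/-- embedding of the box -/
def emb {d : ℕ} (k n : ℕ) (x : QC.Bx d n) : Site d k := fun i => ((x i).val : ZMod (2 ^ k))

open scoped Classical in
/-- image of the open ball -/
noncomputable def ballT {d : ℕ} (k n : ℕ) (w : QC.Bx d n) (r : ℕ) : Finset (Site d k) :=
  (univ.filter fun x : QC.Bx d n => QC.bd w x < r).image (emb k n)

theorem emb_inj {d k n : ℕ} (hn : n + 2 ≤ 2 ^ k) : Function.Injective (emb (d := d) k n) := by
  intro x y hxy
  funext i
  have h1 : (((x i).val : ℕ) : ZMod (2 ^ k)) = (((y i).val : ℕ) : ZMod (2 ^ k)) := congrFun hxy i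
  have h2 := congrArg ZMod.val h1
  have hx := (x i).isLt
  have hy := (y i).isLt
  rw [ZMod.val_cast_of_lt (by omega), ZMod.val_cast_of_lt (by omega)] at h2
  exact Fin.ext h2

private theorem Z5b_cast {M a b : ℕ} (ha : a < M) (hb : b < M) (h : (a : ZMod M) = (b : ZMod M)) : a = b := by
  have h2 := congrArg ZMod.val h
  rwa [ZMod.val_cast_of_lt ha, ZMod.val_cast_of_lt hb] at h2

private theorem Z5b_bd {d n : ℕ} (x y : QC.Bx d n) (j : Fin d) (h : ∀ i, i ≠ j → x i = y i)
    (hj : ((x j : ℤ) - (y j : ℤ)).natAbs = 1) : QC.bd x y = 1 := by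
  unfold QC.bd
  rw [Finset.sum_eq_single j]
  · exact hj
  · intro i _ hij
    rw [h i hij]
    simp
  · intro h; exact absurd (Finset.mem_univ j) h

private theorem Z5b_bd_inv {d n : ℕ} (x y : QC.Bx d n) (h : QC.bd x y = 1) :
    ∃ j, (∀ i, i ≠ j → x i = y i) ∧ ((x j : ℤ) - (y j : ℤ)).natAbs = 1 := by
  unfold QC.bd at h
  obtain ⟨j, -, hj⟩ : ∃ j ∈ (univ : Finset (Fin d)), ((x j : ℤ) - (y j : ℤ)).natAbs ≠ 0 :=
    Finset.exists_ne_zero_of_sum_ne_zero (by rw [h]; exact one_ne_zero)
  rw [← Finset.add_sum_erase _ _ (Finset.mem_univ j)] at h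
  have h2 : ∑ i ∈ univ.erase j, ((x i : ℤ) - (y i : ℤ)).natAbs = 0 := by omega
  refine ⟨j, fun i hij => ?_, by omega⟩
  have h3 := (Finset.sum_eq_zero_iff.1 h2) i (Finset.mem_erase.2 ⟨hij, Finset.mem_univ _⟩)
  exact Fin.ext (by omega)

theorem emb_adj {d k n : ℕ} (hn : n + 2 ≤ 2 ^ k) (x y : QC.Bx d n) :
    (QC.BG d n).Adj x y ↔ ∃ σ : Stp d, emb k n x + sv σ = emb k n y := by
  constructor
  · intro h
    obtain ⟨j, h1, h2⟩ := Z5b_bd_inv x y h
    rcases Nat.lt_or_ge (x j).val (y j).val with hlt | hge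
    · refine ⟨(j, true), ?_⟩
      funext i
      by_cases hij : i = j
      · subst hij
        have h3 : (y i).val = (x i).val + 1 := by omega
        simp only [emb, sv, Pi.add_apply, Pi.single_eq_same, if_true, h3]
        push_cast
        ring
      · simp only [emb, sv, Pi.add_apply, Pi.single_eq_of_ne hij, h1 i hij, add_zero]
    · refine ⟨(j, false), ?_⟩
      funext i
      by_cases hij : i = j
      · subst hij
        have h3 : (x i).val = (y i).val + 1 := by omega
        simp only [emb, sv, Pi.add_apply, Pi.single_eq_same, h3]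
        push_cast
        simp
      · simp only [emb, sv, Pi.add_apply, Pi.single_eq_of_ne hij, h1 i hij, add_zero]
  · rintro ⟨⟨j, b⟩, h⟩
    have h1 : ∀ i, i ≠ j → x i = y i := by
      intro i hij
      have h2 := congrFun h i
      simp only [emb, sv, Pi.add_apply, Pi.single_eq_of_ne hij, add_zero] at h2
      have hx := (x i).isLt
      have hy := (y i).isLt
      exact Fin.ext (Z5b_cast (by omega) (by omega) h2)
    have h2 := congrFun h j
    simp only [emb, sv, Pi.add_apply, Pi.single_eq_same] at h2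
    have hx := (x j).isLt
    have hy := (y j).isLt
    refine Z5b_bd x y j h1 ?_
    cases b with
    | true =>
      have h3 : (((x j).val + 1 : ℕ) : ZMod (2 ^ k)) = (((y j).val : ℕ) : ZMod (2 ^ k)) := by
        push_cast
        simpa using h2
      have h4 := Z5b_cast (by omega) (by omega) h3
      omega
    | false =>
      have h3 : (((x j).val : ℕ) : ZMod (2 ^ k)) = (((y j).val + 1 : ℕ) : ZMod (2 ^ k)) := by
        push_cast
        rw [← h2]
        simp
      have h4 := Z5b_cast (by omega) (by omega) h3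
      omega

/-- a point near the centre has all its neighbours in the box -/
theorem emb_nbr {d k n r : ℕ} (hn : n + 2 = 2 ^ k) (hr : 4 * r + 8 ≤ 2 ^ k) (w : QC.Bx d n) (hw : ∀ i, (w i).val + 1 = 2 ^ (k - 1))
    (x : QC.Bx d n) (hx : QC.bd w x < r) (σ : Stp d) : ∃ y : QC.Bx d n, emb k n y = emb k n x + sv σ := by
  obtain ⟨j, b⟩ := σ
  have hk : 1 ≤ k := by
    rcases Nat.eq_zero_or_pos k with h | h
    · subst h; simp at hr
    · exact h
  have hpow : 2 ^ k = 2 * 2 ^ (k - 1) := by
    conv_lhs => rw [show k = (k - 1) + 1 by omega]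
    rw [pow_succ]; ring
  have h1 : ((w j : ℤ) - (x j : ℤ)).natAbs ≤ QC.bd w x := by
    unfold QC.bd
    exact Finset.single_le_sum (f := fun i => ((w i : ℤ) - (x i : ℤ)).natAbs) (fun i _ => Nat.zero_le _)
      (Finset.mem_univ j)
  have h2 := hw j
  cases b with
  | true =>
    have h3 : (x j).val + 1 < n + 1 := by omega
    refine ⟨Function.update x j ⟨(x j).val + 1, h3⟩, ?_⟩
    funext i
    by_cases hij : i = j
    · subst hij
      simp only [emb, sv, Pi.add_apply, Pi.single_eq_same, if_true, Function.update_self]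
      push_cast
      ring
    · simp only [emb, sv, Pi.add_apply, Pi.single_eq_of_ne hij, Function.update_of_ne hij, add_zero]
  | false =>
    have h3 : (x j).val - 1 < n + 1 := by omega
    have h4 : (x j).val = ((x j).val - 1) + 1 := by omega
    refine ⟨Function.update x j ⟨(x j).val - 1, h3⟩, ?_⟩
    funext i
    by_cases hij : i = j
    · subst hij
      have h5 : (((x i).val : ℕ) : ZMod (2 ^ k)) = (((x i).val - 1 : ℕ) : ZMod (2 ^ k)) + 1 := by
        conv_lhs => rw [h4]
        push_cast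
        ring
      simp only [emb, sv, Pi.add_apply, Pi.single_eq_same, Function.update_self]
      rw [h5]
      simp
    · simp only [emb, sv, Pi.add_apply, Pi.single_eq_of_ne hij, Function.update_of_ne hij, add_zero]

private theorem Z5b_back {d k : ℕ} (x : Site d k) (σ : Stp d) : x + sv σ + sv (σ.1, !σ.2) = x := by
  obtain ⟨j, b⟩ := σ
  funext i
  by_cases hij : i = j
  · subst hij
    cases b <;> simp [sv]
  · simp [sv, Pi.single_eq_of_ne hij]

open scoped Classical in
theorem box_card {d k n q r : ℕ} (hn : n + 2 = 2 ^ k) (hr : 4 * r + 8 ≤ 2 ^ k) (w : QC.Bx d n)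
    (hw : ∀ i, (w i).val + 1 = 2 ^ (k - 1)) (g : Site d k → Fin q) (hg : g ∈ prps d k q) (P : Fin q → Prop) :
    (((prps d k q).filter fun f => (∀ x, x ∉ ballT k n w r → f x = g x) ∧ P (f (emb k n w))).card : ℝ) =
      QC.cnt (fun f : QC.Bx d n → Fin q => QC.Proper (QC.BG d n) f ∧ (∀ x, r ≤ QC.bd w x → f x = g (emb k n x)) ∧ P (f w)) := by
  have hinj : Function.Injective (emb (d := d) k n) := emb_inj (by omega)
  have hprps : ∀ f : Site d k → Fin q, f ∈ prps d k q ↔ Prp f := by
    intro f
    unfold prps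
    rw [mem_filter]
    simp only [mem_univ, true_and]
  have hball : ∀ x : Site d k, x ∈ ballT k n w r ↔ ∃ y, QC.bd w y < r ∧ emb k n y = x := by
    intro x
    unfold ballT
    rw [mem_image]
    simp only [mem_filter, mem_univ, true_and]
  have hgP : Prp g := (hprps g).1 hg
  have e1 : ((prps d k q).filter fun f => (∀ x, x ∉ ballT k n w r → f x = g x) ∧ P (f (emb k n w))).card =
      QC.cnt (fun f : Site d k → Fin q => Prp f ∧ (∀ x, x ∉ ballT k n w r → f x = g x) ∧ P (f (emb k n w))) := by
    rw [QC.cnt_eq]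
    congr 1
    ext f
    simp only [mem_filter, mem_univ, true_and, hprps]
  rw [e1]
  congr 1
  refine QC.cnt_bij (fun f x => f (emb k n x)) ?_ ?_ ?_
  · rintro f ⟨hf, hfg, hP⟩
    refine ⟨?_, ?_, hP⟩
    · intro u v huv
      obtain ⟨σ, hσ⟩ := (emb_adj hn.le u v).1 huv
      have := hf (emb k n u) σ
      rw [hσ] at this
      exact this.symm
    · intro x hx
      refine hfg _ ?_
      rw [hball]
      rintro ⟨y, hy, hyx⟩
      rw [hinj hyx] at hy
      omega
  · rintro f f' ⟨-, hfg, -⟩ ⟨-, hfg', -⟩ hff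
    funext x
    by_cases hx : x ∈ ballT k n w r
    · obtain ⟨y, -, rfl⟩ := (hball x).1 hx
      exact congrFun hff y
    · rw [hfg x hx, hfg' x hx]
  · rintro b ⟨hb, hbg, hP⟩
    have hext : ∀ y, Function.extend (emb k n) b g (emb k n y) = b y := fun y => hinj.extend_apply b g y
    have hoff : ∀ x, x ∉ ballT k n w r → Function.extend (emb k n) b g x = g x := by
      intro x hx
      by_cases hex : ∃ y, emb k n y = x
      · obtain ⟨y, rfl⟩ := hex
        rw [hext, hbg]
        by_contra hlt
        exact hx ((hball _).2 ⟨y, by omega, rfl⟩)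
      · exact Function.extend_apply' b g x hex
    refine ⟨Function.extend (emb k n) b g, ⟨?_, hoff, ?_⟩, ?_⟩
    · intro x σ
      by_cases hx : x ∈ ballT k n w r
      · obtain ⟨y, hy, rfl⟩ := (hball x).1 hx
        obtain ⟨y', hy'⟩ := emb_nbr hn hr w hw y hy σ
        rw [← hy', hext, hext]
        exact (hb y y' ((emb_adj hn.le y y').2 ⟨σ, hy'.symm⟩)).symm
      · by_cases hx' : x + sv σ ∈ ballT k n w r
        · obtain ⟨y, hy, hyx⟩ := (hball _).1 hx'
          obtain ⟨y', hy'⟩ := emb_nbr hn hr w hw y hy (σ.1, !σ.2)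
          have hxy' : emb k n y' = x := by
            rw [hy', hyx, Z5b_back]
          rw [← hyx, ← hxy', hext, hext]
          refine hb y y' ((emb_adj hn.le y y').2 ⟨(σ.1, !σ.2), ?_⟩)
          exact hy'.symm
        · rw [hoff x hx, hoff _ hx']
          exact hgP x σ
    · rw [hext]; exact hP
    · funext y
      exact hext y

end Pool.Agent.THR

end

/-! ### from `Lib_MP_2c424f_thr.Z6` -/

section

/-!
# THR Z6: decay of correlations on tori for `q ≥ (2 + ε) d`

`QC.main_cond` (strong spatial mixing in boxes) and `box_card`: given the colours outside of a ball of radius `r` around `x` the colour of `x` is almost uniform.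
-/

set_option autoImplicit false

open Finset Filter

namespace Pool.Agent.THR

open Pool.Agent.LO Pool.Agent.LIN

open scoped Classical in
theorem ball_avg {d k q : ℕ} (B : Finset (Site d k)) (w y : Site d k) (hy : y ∉ B) (α β : ℝ)
    (h : ∀ g ∈ prps d k q, α * (((prps d k q).filter fun f => ∀ x, x ∉ B → f x = g x).card : ℝ) ≤
      (((prps d k q).filter fun f => (∀ x, x ∉ B → f x = g x) ∧ f w = g y).card : ℝ) ∧
      (((prps d k q).filter fun f => (∀ x, x ∉ B → f x = g x) ∧ f w = g y).card : ℝ) ≤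
      β * (((prps d k q).filter fun f => ∀ x, x ∉ B → f x = g x).card : ℝ)) :
    α * ZZ d k q ≤ (((prps d k q).filter fun f => f w = f y).card : ℝ) ∧
      (((prps d k q).filter fun f => f w = f y).card : ℝ) ≤ β * ZZ d k q := by
  set π : (Site d k → Fin q) → (Site d k → Option (Fin q)) := fun f x => if x ∈ B then none else some (f x) with hπ
  have hπiff : ∀ f g : Site d k → Fin q, π f = π g ↔ ∀ x, x ∉ B → f x = g x := by
    intro f g
    constructor
    · intro h x hx
      have := congrFun h x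
      simp only [hπ, if_neg hx, Option.some.injEq] at this
      exact this
    · intro h
      funext x
      by_cases hx : x ∈ B
      · simp [hπ, hx]
      · simp [hπ, hx, h x hx]
  have h1 : ((prps d k q).filter fun f => f w = f y).card =
      ∑ c ∈ (prps d k q).image π, (((prps d k q).filter fun f => f w = f y).filter fun f => π f = c).card := by
    apply Finset.card_eq_sum_card_fiberwise
    intro f hf
    exact Finset.mem_coe.2 (Finset.mem_image_of_mem _ (Finset.mem_filter.1 (Finset.mem_coe.1 hf)).1)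
  have h2 : (prps d k q).card = ∑ c ∈ (prps d k q).image π, ((prps d k q).filter fun f => π f = c).card := by
    apply Finset.card_eq_sum_card_fiberwise
    intro f hf
    exact Finset.mem_coe.2 (Finset.mem_image_of_mem _ (Finset.mem_coe.1 hf))
  have h3 : ∀ c ∈ (prps d k q).image π,
      α * (((prps d k q).filter fun f => π f = c).card : ℝ) ≤
        ((((prps d k q).filter fun f => f w = f y).filter fun f => π f = c).card : ℝ) ∧
      ((((prps d k q).filter fun f => f w = f y).filter fun f => π f = c).card : ℝ) ≤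
        β * (((prps d k q).filter fun f => π f = c).card : ℝ) := by
    intro c hc
    obtain ⟨g, hg, rfl⟩ := Finset.mem_image.1 hc
    have := h g hg
    have e1 : (((prps d k q).filter fun f => f w = f y).filter fun f => π f = π g) =
        (prps d k q).filter fun f => (∀ x, x ∉ B → f x = g x) ∧ f w = g y := by
      ext f
      simp only [Finset.mem_filter, hπiff]
      constructor
      · rintro ⟨⟨a, b⟩, c⟩
        exact ⟨a, c, by rw [b, c y hy]⟩
      · rintro ⟨a, b, c⟩
        exact ⟨⟨a, by rw [c, b y hy]⟩, b⟩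
    have e2 : ((prps d k q).filter fun f => π f = π g) =
        (prps d k q).filter fun f => ∀ x, x ∉ B → f x = g x := by
      ext f
      simp only [Finset.mem_filter, hπiff]
    rw [e1, e2]
    exact this
  rw [h1, ZZ, h2, Nat.cast_sum, Nat.cast_sum, Finset.mul_sum, Finset.mul_sum]
  exact ⟨Finset.sum_le_sum fun c hc => (h3 c hc).1, Finset.sum_le_sum fun c hc => (h3 c hc).2⟩

/-- antipodal vector -/
def anti (d k : ℕ) : Site d k := fun _ => ((2 ^ (k - 1) : ℕ) : ZMod (2 ^ k))

open scoped Classical in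
theorem torus_decay {ε : ℝ} (hε : 0 < ε) : ∃ d₀ : ℕ, ∀ d : ℕ, d₀ ≤ d → ∀ q : ℕ, (2 + ε) * d ≤ q →
    ∃ A c : ℝ, 0 < c ∧ ∀ k r : ℕ, 4 * r + 8 ≤ 2 ^ k → ∀ x : Site d k,
      |(((prps d k q).filter fun f => f x = f (x + anti d k)).card : ℝ) / ZZ d k q - 1 / q| ≤ A * Real.exp (-(c * r)) := by
  obtain ⟨d₀, h0⟩ := QC.main_cond hε
  refine ⟨max d₀ 1, fun d hd q hq => ?_⟩
  have hd0 : d₀ ≤ d := (le_max_left _ _).trans hd
  have hd1 : 1 ≤ d := (le_max_right _ _).trans hd
  obtain ⟨A, c, hc, h1⟩ := h0 d hd0 q hq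
  refine ⟨A, c, hc, fun k r hr x => ?_⟩
  have hk : 1 ≤ k := by
    rcases Nat.eq_zero_or_pos k with h | h
    · subst h
      rw [pow_zero] at hr
      omega
    · exact h
  obtain ⟨k', rfl⟩ : ∃ k', k = k' + 1 := ⟨k - 1, by omega⟩
  have hp : 2 ^ (k' + 1) = 2 * 2 ^ k' := by rw [pow_succ]; ring
  -- the centre
  obtain ⟨n, hn⟩ : ∃ n, n + 2 = 2 ^ (k' + 1) := ⟨2 ^ (k' + 1) - 2, by omega⟩
  have hw0 : 2 ^ k' - 1 < n + 1 := by omega
  obtain ⟨w, hwdef⟩ : ∃ w : QC.Bx d n, w = fun _ => ⟨2 ^ k' - 1, hw0⟩ := ⟨_, rfl⟩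
  have hw : ∀ i, (w i).val + 1 = 2 ^ (k' + 1 - 1) := by
    intro i
    rw [hwdef]
    simp only [Nat.add_sub_cancel]
    have : 1 ≤ 2 ^ k' := Nat.one_le_two_pow
    omega
  have htr : (((prps d (k' + 1) q).filter fun f => f x = f (x + anti d (k' + 1))).card : ℝ) =
      (((prps d (k' + 1) q).filter fun f => f (emb (k' + 1) n w) = f (emb (k' + 1) n w + anti d (k' + 1))).card : ℝ) := by
    have h2 := sum_transl (q := q) (emb (k' + 1) n w - x)
      (fun f : Site d (k' + 1) → Fin q => if f x = f (x + anti d (k' + 1)) then (1 : ℝ) else 0)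
    have e1 : ∀ f : Site d (k' + 1) → Fin q,
        f (x + (emb (k' + 1) n w - x)) = f (emb (k' + 1) n w) := fun f => by congr 1; abel
    have e2 : ∀ f : Site d (k' + 1) → Fin q, f (x + anti d (k' + 1) + (emb (k' + 1) n w - x)) =
        f (emb (k' + 1) n w + anti d (k' + 1)) := fun f => by congr 1; abel
    simp only [e1, e2] at h2
    rw [Finset.card_filter, Finset.card_filter]
    push_cast
    exact h2.symm
  rw [htr]
  have hval : ∀ i : Fin d, (emb (k' + 1) n w + anti d (k' + 1)) i = ((n + 1 : ℕ) : ZMod (2 ^ (k' + 1))) := by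
    intro i
    have h3 : (w i).val + 2 ^ k' = n + 1 := by
      have := hw i
      simp only [Nat.add_sub_cancel] at this
      omega
    show (((w i).val : ℕ) : ZMod (2 ^ (k' + 1))) + ((2 ^ (k' + 1 - 1) : ℕ) : ZMod (2 ^ (k' + 1))) = _
    rw [Nat.add_sub_cancel, ← Nat.cast_add, h3]
  have hy : emb (k' + 1) n w + anti d (k' + 1) ∉ ballT (k' + 1) n w r := by
    intro hmem
    unfold ballT at hmem
    obtain ⟨z, -, hz⟩ := Finset.mem_image.1 hmem
    have h4 := congrFun hz ⟨0, hd1⟩
    rw [hval] at h4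
    have h5 := congrArg ZMod.val h4
    have e3 : (emb (k' + 1) n z ⟨0, hd1⟩).val = (z ⟨0, hd1⟩).val := by
      show (((z ⟨0, hd1⟩).val : ℕ) : ZMod (2 ^ (k' + 1))).val = _
      rw [ZMod.val_natCast, Nat.mod_eq_of_lt]
      have := (z ⟨0, hd1⟩).isLt
      omega
    rw [e3, ZMod.val_natCast, Nat.mod_eq_of_lt (by omega)] at h5
    have := (z ⟨0, hd1⟩).isLt
    omega
  have hne : ∀ g ∈ prps d (k' + 1) q,
      (1 / (q : ℝ) - A * Real.exp (-(c * r))) * (((prps d (k' + 1) q).filter fun f => ∀ x, x ∉ ballT (k' + 1) n w r → f x = g x).card : ℝ) ≤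
      (((prps d (k' + 1) q).filter fun f => (∀ x, x ∉ ballT (k' + 1) n w r → f x = g x) ∧ f (emb (k' + 1) n w) = g (emb (k' + 1) n w + anti d (k' + 1))).card : ℝ) ∧
      (((prps d (k' + 1) q).filter fun f => (∀ x, x ∉ ballT (k' + 1) n w r → f x = g x) ∧ f (emb (k' + 1) n w) = g (emb (k' + 1) n w + anti d (k' + 1))).card : ℝ) ≤
      (1 / (q : ℝ) + A * Real.exp (-(c * r))) * (((prps d (k' + 1) q).filter fun f => ∀ x, x ∉ ballT (k' + 1) n w r → f x = g x).card : ℝ) := by
    intro g hg
    have b1 : (((prps d (k' + 1) q).filter fun f => (∀ x, x ∉ ballT (k' + 1) n w r → f x = g x) ∧ f (emb (k' + 1) n w) = g (emb (k' + 1) n w + anti d (k' + 1))).card : ℝ) =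
        QC.cnt (fun f : QC.Bx d n → Fin q => QC.Proper (QC.BG d n) f ∧ (∀ x, r ≤ QC.bd w x → f x = g (emb (k' + 1) n x)) ∧ f w = g (emb (k' + 1) n w + anti d (k' + 1))) := by
      rw [← box_card hn (by exact hr) w hw g hg (fun c => c = g (emb (k' + 1) n w + anti d (k' + 1)))]
      congr 2
      ext f
      simp only [Finset.mem_filter]
    have b2 := box_card hn (by exact hr) w hw g hg (fun _ => True)
    simp only [and_true] at b2
    have hpos : 0 < (((prps d (k' + 1) q).filter fun f => ∀ x, x ∉ ballT (k' + 1) n w r → f x = g x).card : ℝ) := by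
      exact_mod_cast Finset.card_pos.2 ⟨g, Finset.mem_filter.2 ⟨hg, fun x _ => rfl⟩⟩
    have hpos' : 0 < QC.cnt (fun f : QC.Bx d n → Fin q => QC.Proper (QC.BG d n) f ∧ ∀ x ∈ {x | r ≤ QC.bd w x}, f x = g (emb (k' + 1) n x)) := by
      have : (0 : ℝ) < QC.cnt (fun f : QC.Bx d n → Fin q => QC.Proper (QC.BG d n) f ∧ ∀ x, r ≤ QC.bd w x → f x = g (emb (k' + 1) n x)) := by
        rw [← b2]; exact hpos
      exact_mod_cast this
    have b3 := h1 n {x | r ≤ QC.bd w x} (fun x => g (emb (k' + 1) n x)) w r (fun x hx => hx) hpos' (g (emb (k' + 1) n w + anti d (k' + 1)))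
    have b6 : |(((prps d (k' + 1) q).filter fun f => (∀ x, x ∉ ballT (k' + 1) n w r → f x = g x) ∧ f (emb (k' + 1) n w) = g (emb (k' + 1) n w + anti d (k' + 1))).card : ℝ) /
        (((prps d (k' + 1) q).filter fun f => ∀ x, x ∉ ballT (k' + 1) n w r → f x = g x).card : ℝ) - 1 / q| ≤ A * Real.exp (-(c * r)) := by
      rw [b1, b2]
      exact b3
    rw [abs_le] at b6
    obtain ⟨b4, b5⟩ := b6
    constructor
    · rw [← le_div_iff₀ hpos]; linarith
    · rw [← div_le_iff₀ hpos]; linarith
  obtain ⟨c1, c2⟩ := ball_avg _ _ _ hy _ _ hne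
  have hq2 : 2 ≤ q := by
    have h6 : (1 : ℝ) ≤ d := by exact_mod_cast hd1
    have h7 : (2 : ℝ) ≤ q := by nlinarith
    exact_mod_cast h7
  have hZ : 0 < ZZ d (k' + 1) q := ZZ_pos (by omega) hq2
  rw [abs_le]
  constructor
  · have : 1 / (q : ℝ) - A * Real.exp (-(c * r)) ≤ (((prps d (k' + 1) q).filter fun f => f (emb (k' + 1) n w) = f (emb (k' + 1) n w + anti d (k' + 1))).card : ℝ) / ZZ d (k' + 1) q := by
      rw [le_div_iff₀ hZ]; exact c1
    linarith
  · have : (((prps d (k' + 1) q).filter fun f => f (emb (k' + 1) n w) = f (emb (k' + 1) n w + anti d (k' + 1))).card : ℝ) / ZZ d (k' + 1) q ≤ 1 / (q : ℝ) + A * Real.exp (-(c * r)) := by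
      rw [div_le_iff₀ hZ]; exact c2
    linarith

end Pool.Agent.THR

end
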